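import Pool.Agent.Lib.MP_5a3ebe_gt.ApAreaB

/-! The signed area of a simple polygon is bounded by the size of a disc containing it. -/

namespace Pool.Agent.Lib.MP_5a3ebe_gt.Ap

open MeasureTheory

theorem intervalIntegrable_indicator_le {f : ℝ → ℝ} (hf : Continuous f) (c a b : ℝ) :
    IntervalIntegrable (Set.indicator {x | x ≤ c} f) volume a b :=
  ⟨(hf.intervalIntegrable a b).1.indicator measurableSet_Iic,
    (hf.intervalIntegrable a b).2.indicator measurableSet_Iic⟩

theorem abs_sum_le_of_cum (S : Finset ℕ) (ε : ℕ → ℤ) (l : ℕ → ℝ) {y0 y1 : ℝ} (hy : y0 ≤ y1)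
    (h0 : ∑ j ∈ S, ε j = 0) (hl : ∀ j ∈ S, ε j ≠ 0 → l j ∈ Set.Icc y0 y1)
    (h1 : ∀ y, |∑ j ∈ S, ε j * if l j < y then 1 else 0| ≤ 1) :
    |∑ j ∈ S, (ε j : ℝ) * l j| ≤ y1 - y0 := by
  have h0' : ∑ j ∈ S, (ε j : ℝ) = 0 := by exact_mod_cast h0
  have h2 : ∀ j ∈ S, (ε j : ℝ) * l j = (ε j : ℝ) * y0 +
      ∫ y in y0..y1, Set.indicator {x | x ≤ l j} (fun _ => (ε j : ℝ)) y := by
    intro j hj
    by_cases h : ε j = 0
    · simp [h]
    · rw [intervalIntegral.integral_indicator (hl j hj h), intervalIntegral.integral_const,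
        smul_eq_mul]
      ring
  rw [Finset.sum_congr rfl h2, Finset.sum_add_distrib, ← Finset.sum_mul, h0', zero_mul, zero_add,
    ← intervalIntegral.integral_finset_sum
      (fun j _ => intervalIntegrable_indicator_le continuous_const _ _ _)]
  have h3 := intervalIntegral.norm_integral_le_of_norm_le_const (a := y0) (b := y1) (C := 1)
    (f := fun y => ∑ j ∈ S, Set.indicator {x | x ≤ l j} (fun _ => (ε j : ℝ)) y) (by
      intro y _
      have h4 : ∑ j ∈ S, Set.indicator {x | x ≤ l j} (fun _ => (ε j : ℝ)) y =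
          ∑ j ∈ S, (ε j : ℝ) - ((∑ j ∈ S, ε j * if l j < y then 1 else 0 : ℤ) : ℝ) := by
        push_cast
        rw [← Finset.sum_sub_distrib]
        refine Finset.sum_congr rfl fun j _ => ?_
        by_cases h : l j < y
        · rw [Set.indicator_of_notMem (by simpa using h), if_pos h]; ring
        · rw [Set.indicator_of_mem (by simpa using h), if_neg h]; ring
      rw [h4, h0', zero_sub, norm_neg, Real.norm_eq_abs]
      exact_mod_cast h1 y)
  rwa [Real.norm_eq_abs, one_mul, abs_of_nonneg (sub_nonneg.mpr hy)] at h3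

theorem continuous_hgt (A B : ℂ) : Continuous (hgt A B) := by unfold hgt; fun_prop

theorem integral_hgt (A B : ℂ) : ∫ x in A.re..B.re, hgt A B x = -act A B := by
  by_cases h : A.re = B.re
  · simp [h, act]
  have hne := sub_ne_zero.mpr (Ne.symm h)
  have hd : ∀ x ∈ Set.uIcc A.re B.re, HasDerivAt
      (fun x => A.im * x + (x - A.re) ^ 2 / 2 * ((B.im - A.im) / (B.re - A.re))) (hgt A B x) x := by
    intro x _
    have h1 := ((hasDerivAt_id x).const_mul A.im).add
      (((((hasDerivAt_id x).sub_const A.re).pow 2).div_const 2).mul_const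
        ((B.im - A.im) / (B.re - A.re)))
    refine h1.congr_deriv ?_
    simp only [hgt, id]
    push_cast
    ring
  rw [intervalIntegral.integral_eq_sub_of_hasDerivAt hd ((continuous_hgt A B).intervalIntegrable _ _),
    act]
  field_simp
  ring

theorem area_bound_nat (r : ℕ) (P : ℕ → ℂ) (hper : ∀ j, P (j + r) = P j)
    (hs : ∀ u v, u < v → v < u + r → ∀ Z, Z ∈ segment ℝ (P u) (P (u + 1)) →
      Z ∈ segment ℝ (P v) (P (v + 1)) → (v = u + 1 ∧ Z = P v) ∨ (v + 1 = u + r ∧ Z = P u))
    (hfin : (Set.range P).Finite) (o : ℂ) (d : ℝ) (hd : ∀ j, ‖P j - o‖ ≤ d) :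
    |∑ j ∈ Finset.range r, act (P j) (P (j + 1))| ≤ 4 * d ^ 2 := by
  have hd0 : 0 ≤ d := (norm_nonneg _).trans (hd 0)
  have hre : ∀ Z : ℂ, ‖Z - o‖ ≤ d → Z.re ∈ Set.Icc (o.re - d) (o.re + d) := by
    intro Z hZ
    have := abs_le.mp ((Complex.abs_re_le_norm _).trans hZ)
    rw [Complex.sub_re] at this
    exact ⟨by linarith [this.1], by linarith [this.2]⟩
  have him : ∀ Z : ℂ, ‖Z - o‖ ≤ d → Z.im ∈ Set.Icc (o.im - d) (o.im + d) := by
    intro Z hZ
    have := abs_le.mp ((Complex.abs_im_le_norm _).trans hZ)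
    rw [Complex.sub_im] at this
    exact ⟨by linarith [this.1], by linarith [this.2]⟩
  let G : ℕ → ℝ → ℝ := fun j x =>
    Set.indicator {x | x ≤ (P (j + 1)).re} (hgt (P j) (P (j + 1))) x -
      Set.indicator {x | x ≤ (P j).re} (hgt (P j) (P (j + 1))) x
  have hGi : ∀ j, IntervalIntegrable (G j) volume (o.re - d) (o.re + d) := fun j =>
    (intervalIntegrable_indicator_le (continuous_hgt _ _) _ _ _).sub
      (intervalIntegrable_indicator_le (continuous_hgt _ _) _ _ _)
  have hG : ∀ j, act (P j) (P (j + 1)) = -∫ x in (o.re - d)..(o.re + d), G j x := by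
    intro j
    simp only [G]
    rw [intervalIntegral.integral_sub (intervalIntegrable_indicator_le (continuous_hgt _ _) _ _ _)
      (intervalIntegrable_indicator_le (continuous_hgt _ _) _ _ _),
      intervalIntegral.integral_indicator (hre _ (hd _)),
      intervalIntegral.integral_indicator (hre _ (hd _)),
      intervalIntegral.integral_interval_sub_left ((continuous_hgt _ _).intervalIntegrable _ _)
        ((continuous_hgt _ _).intervalIntegrable _ _), integral_hgt, neg_neg]
  rw [Finset.sum_congr rfl fun j _ => hG j, Finset.sum_neg_distrib, abs_neg,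
    ← intervalIntegral.integral_finset_sum fun j _ => hGi j]
  have hae : ∀ᵐ x : ℝ, x ∉ Complex.re '' Set.range P := (hfin.image _).countable.ae_notMem volume
  have h3 := intervalIntegral.norm_integral_le_of_norm_le_const_ae (a := o.re - d) (b := o.re + d)
    (C := 2 * d) (f := fun x => ∑ j ∈ Finset.range r, G j x) (by
      filter_upwards [hae] with x hx _
      have hx' : ∀ j, (P j).re ≠ x := fun j h => hx ⟨P j, ⟨j, rfl⟩, h⟩
      have h4 : ∀ j, G j x = ((stp (P j).re x - stp (P (j + 1)).re x : ℤ) : ℝ) *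
          hgt (P j) (P (j + 1)) x := by
        intro j
        have h5 : ∀ (c : ℝ) (f : ℝ → ℝ), c ≠ x →
            Set.indicator {x | x ≤ c} f x = (1 - (stp c x : ℝ)) * f x := by
          intro c f hc
          unfold stp
          rcases lt_or_gt_of_ne hc with h | h
          · rw [Set.indicator_of_notMem (by simpa using h), if_pos h.le]; simp
          · rw [Set.indicator_of_mem (by simpa using h.le), if_neg (not_le.mpr h)]; simp
        simp only [G]
        rw [h5 _ _ (hx' _), h5 _ _ (hx' _)]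
        push_cast
        ring
      rw [Finset.sum_congr rfl fun j _ => h4 j, Real.norm_eq_abs]
      have h6 := abs_sum_le_of_cum (Finset.range r)
        (fun j => stp (P j).re x - stp (P (j + 1)).re x) (fun j => hgt (P j) (P (j + 1)) x)
        (y0 := o.im - d) (y1 := o.im + d) (by linarith) (by
          rw [Finset.sum_range_sub' (fun j => stp (P j).re x) r, ← hper 0, zero_add, sub_self])
        (by
          intro j _ h0
          obtain ⟨Z, hZ, e⟩ := exists_mem_re (range_of_stp_left h0)
          have hne : (P j).re ≠ (P (j + 1)).re := fun h => h0 (by simp only [h, sub_self])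
          have := him Z (norm_sub_le_of_mem_segment (hd _) (hd _) hZ)
          rwa [im_eq_hgt hne hZ, e] at this)
        (abs_wind_le r P hper hs x hx')
      linarith)
  rw [Real.norm_eq_abs, abs_of_nonneg (by linarith : 0 ≤ o.re + d - (o.re - d))] at h3
  linarith

/-- A simple polygon read along the natural numbers. -/
theorem SimplePoly.nat {r : ℕ} {Q : ZMod r → ℂ} (h : SimplePoly Q) (u v : ℕ) (h1 : u < v)
    (h2 : v < u + r) (Z : ℂ) (hu : Z ∈ segment ℝ (Q u) (Q (u + 1 : ℕ)))
    (hv : Z ∈ segment ℝ (Q v) (Q (v + 1 : ℕ))) :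
    (v = u + 1 ∧ Z = Q v) ∨ (v + 1 = u + r ∧ Z = Q u) := by
  rw [Nat.cast_succ] at hu hv
  rcases h _ _ Z hu hv with h3 | ⟨h3, h4⟩ | ⟨h3, h4⟩
  · refine absurd ?_ (cast_ne_of_lt (n := r) (u := u) (v := v) (by omega) (by omega))
    exact_mod_cast h3
  · refine Or.inl ⟨?_, h4⟩
    by_contra hcon
    refine cast_ne_of_lt (n := r) (u := u + 1) (v := v) (by omega) (by omega) ?_
    push_cast
    exact h3.symm
  · refine Or.inr ⟨?_, h4⟩
    by_contra hcon
    refine cast_ne_of_lt (n := r) (u := u) (v := v + 1) (by omega) (by omega) ?_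
    push_cast
    exact h3

theorem areaBound : AreaBound := by
  intro r _ Q o d _ hs _ hd
  have h := area_bound_nat r (fun j => Q j) (fun j => by simp) hs.nat
    ((Set.finite_range Q).subset (by rintro _ ⟨j, rfl⟩; exact ⟨_, rfl⟩)) o d (fun j => hd _)
  have hsum : ∑ i : ZMod r, act (Q i) (Q (i + 1)) =
      ∑ j ∈ Finset.range r, act (Q j) (Q (j + 1 : ℕ)) := by
    symm
    refine Finset.sum_bij (fun j _ => (j : ZMod r)) (fun _ _ => Finset.mem_univ _) ?_ ?_ ?_
    · intro j hj k hk e
      have := congrArg ZMod.val e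
      rwa [ZMod.val_cast_of_lt (Finset.mem_range.mp hj),
        ZMod.val_cast_of_lt (Finset.mem_range.mp hk)] at this
    · intro i _
      exact ⟨i.val, Finset.mem_range.mpr (ZMod.val_lt i), ZMod.natCast_zmod_val i⟩
    · intro j _
      rw [Nat.cast_succ]
  rw [hsum]
  nlinarith [sq_nonneg d]

end Pool.Agent.Lib.MP_5a3ebe_gt.Ap
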