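import Pool.Agent.Lib.MP_5a3ebe_gt.ApChord

/-! Signed crossing numbers below a point: the exchange identity for two chains. -/

namespace Pool.Agent.Lib.MP_5a3ebe_gt.Ap

/-- The step function. -/
noncomputable def stp (a b : ℝ) : ℤ := if a ≤ b then 1 else 0

/-- The segment from `P` to `Q` passes strictly above the point `c`. -/
def Above (P Q c : ℂ) : Prop := ∃ X ∈ segment ℝ P Q, X.re = c.re ∧ c.im < X.im

open Classical in
/-- Signed crossing of the downward vertical ray from `c` by the segment from `A` to `B`. -/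
noncomputable def sgnBelow (A B c : ℂ) : ℤ :=
  (stp A.re c.re - stp B.re c.re) * if Below A B c then 1 else 0

open Classical in
/-- Signed crossing of the upward vertical ray from `c` by the segment from `C` to `D`. -/
noncomputable def sgnAbove (C D c : ℂ) : ℤ :=
  (stp c.re D.re - stp c.re C.re) * if Above C D c then 1 else 0

/-- On common vertical lines the first segment is always below the second one, or never. -/
def Cons (A B C D : ℂ) : Prop :=
  (∀ X ∈ segment ℝ A B, ∀ Y ∈ segment ℝ C D, X.re = Y.re → X.im < Y.im) ∨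
  (∀ X ∈ segment ℝ A B, ∀ Y ∈ segment ℝ C D, X.re = Y.re → ¬ X.im < Y.im)

theorem mem_segment_re {A B X : ℂ} (h : X ∈ segment ℝ A B) :
    ∃ s : ℝ, 0 ≤ s ∧ s ≤ 1 ∧ X.re = A.re + s * (B.re - A.re) ∧ X.im = A.im + s * (B.im - A.im) := by
  rw [segment_eq_image] at h
  obtain ⟨s, ⟨h0, h1⟩, rfl⟩ := h
  refine ⟨s, h0, h1, ?_, ?_⟩
  · simp only [Complex.add_re, Complex.smul_re, smul_eq_mul]; ring
  · simp only [Complex.add_im, Complex.smul_im, smul_eq_mul]; ring

theorem exists_mem_re {A B : ℂ} {x : ℝ} (h : (A.re ≤ x ∧ x ≤ B.re) ∨ (B.re ≤ x ∧ x ≤ A.re)) :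
    ∃ X ∈ segment ℝ A B, X.re = x := by
  have h1 : x ∈ segment ℝ A.re B.re := by
    rw [segment_eq_uIcc, Set.mem_uIcc]
    exact h
  have h2 := image_segment ℝ Complex.reLm.toAffineMap A B
  simp only [LinearMap.coe_toAffineMap, Complex.reLm_coe] at h2
  rw [← h2] at h1
  exact h1

theorem eq_of_re_eq {A B X Y : ℂ} (hne : A.re ≠ B.re) (hX : X ∈ segment ℝ A B)
    (hY : Y ∈ segment ℝ A B) (h : X.re = Y.re) : X = Y := by
  obtain ⟨s, -, -, e1, e2⟩ := mem_segment_re hX
  obtain ⟨t, -, -, e3, e4⟩ := mem_segment_re hY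
  have hst : s = t := by
    refine mul_right_cancel₀ (sub_ne_zero.mpr hne.symm) ?_
    linarith
  exact Complex.ext h (by rw [e2, e4, hst])

theorem below_iff {A B Z c : ℂ} (hne : A.re ≠ B.re) (hZ : Z ∈ segment ℝ A B) (h : Z.re = c.re) :
    Below A B c ↔ Z.im < c.im :=
  ⟨fun ⟨X, hX, h1, h2⟩ => by rwa [eq_of_re_eq hne hZ hX (h.trans h1.symm)], fun h' => ⟨Z, hZ, h, h'⟩⟩

theorem above_iff {A B Z c : ℂ} (hne : A.re ≠ B.re) (hZ : Z ∈ segment ℝ A B) (h : Z.re = c.re) :
    Above A B c ↔ c.im < Z.im :=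
  ⟨fun ⟨X, hX, h1, h2⟩ => by rwa [eq_of_re_eq hne hZ hX (h.trans h1.symm)], fun h' => ⟨Z, hZ, h, h'⟩⟩

theorem cons_of_disjoint {A B C D : ℂ}
    (h : ∀ Z, Z ∈ segment ℝ A B → Z ∈ segment ℝ C D → False) : Cons A B C D := by
  by_contra hcon
  unfold Cons at hcon
  push Not at hcon
  obtain ⟨⟨X, hX, Y, hY, e, l⟩, ⟨X', hX', Y', hY', e', l'⟩⟩ := hcon
  have hden : 0 < (X.im - Y.im) + (Y'.im - X'.im) := by linarith
  set t := (X.im - Y.im) / ((X.im - Y.im) + (Y'.im - X'.im)) with ht
  have ht0 : 0 ≤ t := div_nonneg (by linarith) hden.le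
  have ht1 : 0 ≤ 1 - t := by
    rw [sub_nonneg, ht, div_le_one hden]; linarith
  have ht2 : t * ((X.im - Y.im) + (Y'.im - X'.im)) = X.im - Y.im := div_mul_cancel₀ _ hden.ne'
  have m1 := convex_segment A B hX hX' ht1 ht0 (by ring)
  have m2 := convex_segment C D hY hY' ht1 ht0 (by ring)
  refine h _ m1 ?_
  convert m2 using 1
  apply Complex.ext
  · simp only [Complex.add_re, Complex.smul_re, smul_eq_mul, e, e']
  · simp only [Complex.add_im, Complex.smul_im, smul_eq_mul]
    linarith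

/-- Two pieces of one edge cut at a point. -/
theorem eq_of_sides {C D Y X X' : ℂ} (hs : (C.re - Y.re) * (D.re - Y.re) < 0)
    (hX : X ∈ segment ℝ C Y) (hX' : X' ∈ segment ℝ Y D) (h : X.re = X'.re) : X = Y ∧ X' = Y := by
  obtain ⟨s, s0, s1, e1, e2⟩ := mem_segment_re hX
  obtain ⟨t, t0, t1, e3, e4⟩ := mem_segment_re hX'
  have e5 : (1 - s) * (C.re - Y.re) = t * (D.re - Y.re) := by linarith
  have hC : C.re - Y.re ≠ 0 := by rintro h0; simp [h0] at hs
  have hD : D.re - Y.re ≠ 0 := by rintro h0; simp [h0] at hs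
  have hCC : 0 < (C.re - Y.re) * (C.re - Y.re) := mul_self_pos.mpr hC
  have e6 : (1 - s) * ((C.re - Y.re) * (C.re - Y.re)) = t * ((C.re - Y.re) * (D.re - Y.re)) := by
    linear_combination (C.re - Y.re) * e5
  have hs1 : 1 - s = 0 := by
    have h1 : 0 ≤ (1 - s) * ((C.re - Y.re) * (C.re - Y.re)) := mul_nonneg (by linarith) hCC.le
    have h2 : t * ((C.re - Y.re) * (D.re - Y.re)) ≤ 0 := mul_nonpos_of_nonneg_of_nonpos t0 hs.le
    exact (mul_eq_zero.mp (le_antisymm (e6 ▸ h2) h1)).resolve_right hCC.ne'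
  have ht0 : t = 0 := by
    rw [hs1, zero_mul] at e5
    exact (mul_eq_zero.mp e5.symm).resolve_right hD
  have hs2 : s = 1 := by linarith
  exact ⟨Complex.ext (by rw [e1, hs2]; ring) (by rw [e2, hs2]; ring),
    Complex.ext (by rw [e3, ht0]; ring) (by rw [e4, ht0]; ring)⟩

theorem cons_of_sides {C D Y : ℂ} (hs : (C.re - Y.re) * (D.re - Y.re) < 0) :
    Cons C Y Y D ∧ Cons Y D C Y := by
  constructor
  · refine Or.inr fun X hX X' hX' h => ?_
    obtain ⟨rfl, rfl⟩ := eq_of_sides hs hX hX' h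
    exact lt_irrefl _
  · refine Or.inr fun X' hX' X hX h => ?_
    obtain ⟨rfl, rfl⟩ := eq_of_sides hs hX hX' h.symm
    exact lt_irrefl _

theorem not_mem_of_sides {C D Y : ℂ} (hs : (C.re - Y.re) * (D.re - Y.re) < 0) :
    D ∉ segment ℝ C Y ∧ C ∉ segment ℝ Y D := by
  constructor
  · intro h
    obtain ⟨-, h2⟩ := eq_of_sides hs h (right_mem_segment _ _ _) rfl
    simp [h2] at hs
  · intro h
    obtain ⟨h2, -⟩ := eq_of_sides hs (left_mem_segment _ _ _) h rfl
    simp [h2] at hs

theorem range_of_stp_left {a b x : ℝ} (h : stp a x - stp b x ≠ 0) :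
    (a ≤ x ∧ x ≤ b) ∨ (b ≤ x ∧ x ≤ a) := by
  unfold stp at h
  by_cases h1 : a ≤ x <;> by_cases h2 : b ≤ x <;> simp [h1, h2] at h
  · exact Or.inl ⟨h1, (not_le.mp h2).le⟩
  · exact Or.inr ⟨h2, (not_le.mp h1).le⟩

theorem range_of_stp_right {a b x : ℝ} (h : stp x b - stp x a ≠ 0) :
    (a ≤ x ∧ x ≤ b) ∨ (b ≤ x ∧ x ≤ a) := by
  unfold stp at h
  by_cases h1 : x ≤ a <;> by_cases h2 : x ≤ b <;> simp [h1, h2] at h
  · exact Or.inr ⟨(not_le.mp h2).le, h1⟩
  · exact Or.inl ⟨(not_le.mp h1).le, h2⟩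

/-- The exchange identity for two segments. -/
theorem exchange {A B C D : ℂ} (h : Cons A B C D) :
    sgnBelow A B D - sgnBelow A B C = sgnAbove C D A - sgnAbove C D B := by
  rcases h with h | h
  · have h1 : ∀ V ∈ segment ℝ C D, sgnBelow A B V = stp A.re V.re - stp B.re V.re := by
      intro V hV
      unfold sgnBelow
      by_cases h0 : stp A.re V.re - stp B.re V.re = 0
      · rw [h0, zero_mul]
      · obtain ⟨X, hX, e⟩ := exists_mem_re (range_of_stp_left h0)
        rw [if_pos ⟨X, hX, e, h X hX V hV e⟩, mul_one]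
    have h2 : ∀ V ∈ segment ℝ A B, sgnAbove C D V = stp V.re D.re - stp V.re C.re := by
      intro V hV
      unfold sgnAbove
      by_cases h0 : stp V.re D.re - stp V.re C.re = 0
      · rw [h0, zero_mul]
      · obtain ⟨X, hX, e⟩ := exists_mem_re (range_of_stp_right h0)
        rw [if_pos ⟨X, hX, e, h V hV X hX e.symm⟩, mul_one]
    rw [h1 D (right_mem_segment _ _ _), h1 C (left_mem_segment _ _ _),
      h2 A (left_mem_segment _ _ _), h2 B (right_mem_segment _ _ _)]
    ring
  · have h1 : ∀ V ∈ segment ℝ C D, sgnBelow A B V = 0 := by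
      intro V hV
      unfold sgnBelow
      rw [if_neg fun ⟨X, hX, e, l⟩ => h X hX V hV e l, mul_zero]
    have h2 : ∀ V ∈ segment ℝ A B, sgnAbove C D V = 0 := by
      intro V hV
      unfold sgnAbove
      rw [if_neg fun ⟨X, hX, e, l⟩ => h V hV X hX e.symm l, mul_zero]
    rw [h1 D (right_mem_segment _ _ _), h1 C (left_mem_segment _ _ _),
      h2 A (left_mem_segment _ _ _), h2 B (right_mem_segment _ _ _)]

/-- The exchange identity for two chains. -/
theorem exchange_chain (a b : ℕ) (A R : ℕ → ℂ)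
    (h : ∀ e, e < a → ∀ f, f < b → Cons (A e) (A (e + 1)) (R f) (R (f + 1))) :
    ∑ e ∈ Finset.range a, (sgnBelow (A e) (A (e + 1)) (R b) - sgnBelow (A e) (A (e + 1)) (R 0)) =
    ∑ f ∈ Finset.range b, (sgnAbove (R f) (R (f + 1)) (A 0) - sgnAbove (R f) (R (f + 1)) (A a)) := by
  have h1 : ∀ e ∈ Finset.range a,
      sgnBelow (A e) (A (e + 1)) (R b) - sgnBelow (A e) (A (e + 1)) (R 0) =
      ∑ f ∈ Finset.range b,
        (sgnAbove (R f) (R (f + 1)) (A e) - sgnAbove (R f) (R (f + 1)) (A (e + 1))) := by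
    intro e he
    rw [← Finset.sum_range_sub (fun f => sgnBelow (A e) (A (e + 1)) (R f)) b]
    exact Finset.sum_congr rfl fun f hf =>
      exchange (h e (Finset.mem_range.mp he) f (Finset.mem_range.mp hf))
  rw [Finset.sum_congr rfl h1, Finset.sum_comm]
  exact Finset.sum_congr rfl fun f _ =>
    Finset.sum_range_sub' (fun e => sgnAbove (R f) (R (f + 1)) (A e)) a

/-- A segment with end points off the vertical line through `V`, not containing `V`. -/
theorem above_add_below {C D V : ℂ} (hC : C.re ≠ V.re) (hD : D.re ≠ V.re)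
    (hV : V ∉ segment ℝ C D) : sgnAbove C D V + sgnBelow C D V = stp C.re V.re - stp D.re V.re := by
  have e1 : ∀ u : ℝ, u ≠ V.re → stp V.re u = 1 - stp u V.re := by
    intro u hu
    unfold stp
    rcases lt_or_gt_of_ne hu with h | h
    · rw [if_neg (not_le.mpr h), if_pos h.le]; rfl
    · rw [if_pos h.le, if_neg (not_le.mpr h)]; rfl
  unfold sgnAbove sgnBelow
  rw [e1 _ hC, e1 _ hD]
  by_cases h0 : stp C.re V.re - stp D.re V.re = 0
  · rw [show 1 - stp D.re V.re - (1 - stp C.re V.re) = stp C.re V.re - stp D.re V.re by ring, h0]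
    simp
  · obtain ⟨Z, hZ, e⟩ := exists_mem_re (range_of_stp_left h0)
    have hne : C.re ≠ D.re := fun h => h0 (by rw [h, sub_self])
    have him : Z.im ≠ V.im := fun h => hV (Complex.ext e h ▸ hZ)
    simp only [above_iff hne hZ e, below_iff hne hZ e]
    rcases lt_or_gt_of_ne him with h | h
    · rw [if_pos h, if_neg (not_lt.mpr h.le)]; ring
    · rw [if_pos h, if_neg (not_lt.mpr h.le)]; ring

/-- The first piece of a chain starting on the vertical line. -/
theorem first_piece {X Y D : ℂ} (hre : X.re = Y.re) (him : X.im ≠ Y.im) (hD : D.re ≠ Y.re) :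
    sgnAbove Y D X + sgnBelow Y D X - (sgnAbove Y D Y + sgnBelow Y D Y) =
      stp Y.re D.re - if X.im < Y.im then 1 else 0 := by
  have hY := left_mem_segment ℝ Y D
  unfold sgnAbove sgnBelow stp
  simp only [above_iff hD.symm hY hre.symm, below_iff hD.symm hY hre.symm,
    above_iff hD.symm hY rfl, below_iff hD.symm hY rfl, hre, le_refl, lt_irrefl, if_true, if_false]
  rcases lt_or_gt_of_ne hD with h | h <;> rcases lt_or_gt_of_ne him with h' | h' <;>
    simp [h.le, not_le.mpr h, h', not_lt.mpr h'.le]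

/-- The last piece of a chain ending on the vertical line. -/
theorem last_piece {X Y C : ℂ} (hre : X.re = Y.re) (him : X.im ≠ Y.im) (hC : C.re ≠ X.re) :
    sgnAbove C X X + sgnBelow C X X - (sgnAbove C X Y + sgnBelow C X Y) =
      (if X.im < Y.im then 1 else 0) - stp C.re X.re := by
  have hX := right_mem_segment ℝ C X
  unfold sgnAbove sgnBelow stp
  simp only [above_iff hC hX hre, below_iff hC hX hre,
    above_iff hC hX rfl, below_iff hC hX rfl, ← hre, le_refl, lt_irrefl, if_true, if_false]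
  rcases lt_or_gt_of_ne hC with h | h <;> rcases lt_or_gt_of_ne him with h' | h' <;>
    simp [h.le, not_le.mpr h, h', not_lt.mpr h'.le]

/-- Cutting an edge at its point on the vertical line through `V`. -/
theorem sgnBelow_cut {C D X V : ℂ} (hX : X ∈ segment ℝ C D) (hre : X.re = V.re)
    (hs : (C.re - X.re) * (D.re - X.re) < 0) :
    sgnBelow C X V + sgnBelow X D V = sgnBelow C D V := by
  have hC : C.re ≠ X.re := by intro h0; simp [h0] at hs
  have hD : X.re ≠ D.re := by intro h0; simp [h0] at hs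
  have hCD : C.re ≠ D.re := by
    intro h0
    rw [h0] at hs
    exact absurd hs (not_lt.mpr (mul_self_nonneg _))
  unfold sgnBelow
  simp only [below_iff hC (right_mem_segment ℝ C X) hre, below_iff hD (left_mem_segment ℝ X D) hre,
    below_iff hCD hX hre]
  ring

/-- Two chains, from `X` to `Y` and back, with `X`, `Y` on one vertical line. -/
theorem two_chains (a b : ℕ) (A R : ℕ → ℂ) {X Y : ℂ} (hA0 : A 0 = X) (hAa : A a = Y)
    (hR0 : R 0 = Y) (hRb : R (b + 2) = X) (hre : X.re = Y.re) (him : X.im ≠ Y.im)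
    (h : ∀ e, e < a → ∀ f, f < b + 2 → Cons (A e) (A (e + 1)) (R f) (R (f + 1)))
    (hoff : ∀ f, 0 < f → f < b + 2 → (R f).re ≠ X.re)
    (hmid : ∀ f, 0 < f → f < b + 1 →
      X ∉ segment ℝ (R f) (R (f + 1)) ∧ Y ∉ segment ℝ (R f) (R (f + 1))) :
    ∑ e ∈ Finset.range a, sgnBelow (A e) (A (e + 1)) X +
      ∑ f ∈ Finset.range (b + 2), sgnBelow (R f) (R (f + 1)) X + stp (R (b + 1)).re X.re =
    ∑ e ∈ Finset.range a, sgnBelow (A e) (A (e + 1)) Y +
      ∑ f ∈ Finset.range (b + 2), sgnBelow (R f) (R (f + 1)) Y + stp Y.re (R 1).re := by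
  have h1 := exchange_chain a (b + 2) A R h
  rw [hA0, hAa, hR0, hRb, Finset.sum_sub_distrib] at h1
  have h2 : ∑ f ∈ Finset.range (b + 2),
      (sgnAbove (R f) (R (f + 1)) X + sgnBelow (R f) (R (f + 1)) X -
        (sgnAbove (R f) (R (f + 1)) Y + sgnBelow (R f) (R (f + 1)) Y)) =
      stp Y.re (R 1).re - stp (R (b + 1)).re X.re := by
    rw [Finset.sum_range_succ, Finset.sum_range_succ', Finset.sum_eq_zero, hR0, hRb,
      first_piece hre him (by rw [← hre]; exact hoff _ (by omega) (by omega)),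
      last_piece hre him (hoff _ (by omega) (by omega))]
    · ring
    · intro f hf
      have := Finset.mem_range.mp hf
      obtain ⟨m1, m2⟩ := hmid (f + 1) (by omega) (by omega)
      have o1 := hoff (f + 1) (by omega) (by omega)
      have o2 := hoff (f + 1 + 1) (by omega) (by omega)
      rw [above_add_below o1 o2 m1, above_add_below (hre ▸ o1) (hre ▸ o2) m2, hre, sub_self]
  simp only [Finset.sum_sub_distrib, Finset.sum_add_distrib] at h1 h2
  linarith

end Pool.Agent.Lib.MP_5a3ebe_gt.Ap
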