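import Pool.Agent.Lib.MP_5a3ebe_gt.ApAreaA

/-! The winding number of a simple polygon takes at most two consecutive values on a vertical
line through no vertex. -/

namespace Pool.Agent.Lib.MP_5a3ebe_gt.Ap

/-- The chain `X, P (s+1), …, P (s+e+1), X'`. -/
def cutChain (P : ℕ → ℂ) (s e : ℕ) (X X' : ℂ) (j : ℕ) : ℂ :=
  if j = 0 then X else if j = e + 2 then X' else P (s + j)

section cut
variable {P : ℕ → ℂ} {s e : ℕ} {X X' : ℂ}

theorem cut_zero : cutChain P s e X X' 0 = X := by simp [cutChain]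

theorem cut_last : cutChain P s e X X' (e + 2) = X' := by simp [cutChain]

theorem cut_mid {j : ℕ} (h1 : 0 < j) (h2 : j < e + 2) : cutChain P s e X X' j = P (s + j) := by
  unfold cutChain
  rw [if_neg (by omega), if_neg (by omega)]

theorem cut_sub (hX : X ∈ segment ℝ (P s) (P (s + 1)))
    (hX' : X' ∈ segment ℝ (P (s + e + 1)) (P (s + e + 1 + 1))) {j : ℕ} (hj : j < e + 2) :
    segment ℝ (cutChain P s e X X' j) (cutChain P s e X X' (j + 1)) ⊆
      segment ℝ (P (s + j)) (P (s + j + 1)) := by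
  refine (convex_segment _ _).segment_subset ?_ ?_
  · rcases Nat.eq_zero_or_pos j with rfl | h
    · rw [cut_zero]; exact hX
    · rw [cut_mid h hj]; exact left_mem_segment _ _ _
  · by_cases h : j = e + 1
    · subst h; rw [cut_last]; exact hX'
    · rw [cut_mid (by omega) (by omega)]; exact right_mem_segment _ _ _

theorem cut_sum (F : ℂ → ℂ → ℤ) :
    ∑ j ∈ Finset.range (e + 2), F (cutChain P s e X X' j) (cutChain P s e X X' (j + 1)) =
      F X (P (s + 1)) + ∑ j ∈ Finset.Ico (s + 1) (s + e + 1), F (P j) (P (j + 1)) +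
        F (P (s + e + 1)) X' := by
  rw [Finset.sum_range_succ, Finset.sum_range_succ', cut_zero, cut_last,
    cut_mid (by omega) (by omega), cut_mid (by omega) (by omega), Finset.sum_Ico_eq_sum_range,
    show s + e + 1 - (s + 1) = e by omega]
  have : ∑ j ∈ Finset.range e,
      F (cutChain P s e X X' (j + 1)) (cutChain P s e X X' (j + 1 + 1)) =
      ∑ j ∈ Finset.range e, F (P (s + 1 + j)) (P (s + 1 + j + 1)) := by
    refine Finset.sum_congr rfl fun j hj => ?_
    have := Finset.mem_range.mp hj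
    rw [cut_mid (by omega) (by omega), cut_mid (by omega) (by omega)]
    congr 2 <;> omega
  rw [this]
  simp only [zero_add, add_assoc]
  ring

end cut

theorem sum_Ico_periodic (g : ℕ → ℤ) (r : ℕ) (hper : ∀ j, g (j + r) = g j) (i : ℕ) :
    ∑ j ∈ Finset.Ico i (i + r), g j = ∑ j ∈ Finset.range r, g j := by
  induction i with
  | zero => rw [Finset.range_eq_Ico, zero_add]
  | succ i ih =>
    rw [← ih]
    have h1 := Finset.sum_Ico_succ_top (by omega : i ≤ i + r) g
    have h2 := Finset.sum_eq_sum_Ico_succ_bot (by omega : i < i + r + 1) g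
    rw [show i + 1 + r = i + r + 1 by omega]
    linarith [hper i]

theorem stp_of_sides {a b x : ℝ} (h : (a - x) * (b - x) < 0) : stp x b = stp a x := by
  unfold stp
  rcases mul_neg_iff.mp h with ⟨h1, h2⟩ | ⟨h1, h2⟩
  · rw [if_neg (by linarith), if_neg (by linarith)]
  · rw [if_pos (by linarith), if_pos (by linarith)]

/-- The value of the winding number on the left of a crossing edge does not depend on the edge. -/
theorem left_value (r : ℕ) (P : ℕ → ℂ) (hper : ∀ j, P (j + r) = P j)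
    (hs : ∀ u v, u < v → v < u + r → ∀ Z, Z ∈ segment ℝ (P u) (P (u + 1)) →
      Z ∈ segment ℝ (P v) (P (v + 1)) → (v = u + 1 ∧ Z = P v) ∨ (v + 1 = u + r ∧ Z = P u))
    {X Y : ℂ} (hre : X.re = Y.re) (hx : ∀ j, (P j).re ≠ X.re) {i k : ℕ} (hik : i < k)
    (hk : k < i + r) (hX : X ∈ segment ℝ (P i) (P (i + 1))) (hY : Y ∈ segment ℝ (P k) (P (k + 1)))
    (hi : ((P i).re - X.re) * ((P (i + 1)).re - X.re) < 0)
    (hk' : ((P k).re - Y.re) * ((P (k + 1)).re - Y.re) < 0) :
    ∑ j ∈ Finset.range r, sgnBelow (P j) (P (j + 1)) X + stp (P i).re X.re =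
    ∑ j ∈ Finset.range r, sgnBelow (P j) (P (j + 1)) Y + stp (P k).re Y.re := by
  obtain ⟨a, rfl⟩ : ∃ a, k = i + a + 1 := ⟨k - i - 1, by omega⟩
  obtain ⟨b, hb⟩ : ∃ b, r = a + b + 2 := ⟨r - a - 2, by omega⟩
  have hP0 : P (i + a + 1 + b + 1) = P i := by rw [← hper i]; congr 1; omega
  have hP1 : P (i + a + 1 + b + 1 + 1) = P (i + 1) := by rw [← hper (i + 1)]; congr 1; omega
  have hX' : X ∈ segment ℝ (P (i + a + 1 + b + 1)) (P (i + a + 1 + b + 1 + 1)) := by
    rw [hP0, hP1]; exact hX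
  have hnv : ∀ u v, u < v → v < u + r → ∀ Z, Z ∈ segment ℝ (P u) (P (u + 1)) →
      Z ∈ segment ℝ (P v) (P (v + 1)) → Z.re ≠ X.re := by
    intro u v h1 h2 Z h3 h4
    rcases hs u v h1 h2 Z h3 h4 with ⟨-, rfl⟩ | ⟨-, rfl⟩ <;> exact hx _
  have him : X.im ≠ Y.im := fun h => hnv i (i + a + 1) hik hk X hX (Complex.ext hre h ▸ hY) rfl
  have key := two_chains (a + 2) b (cutChain P i a X Y) (cutChain P (i + a + 1) b Y X)
    cut_zero cut_last cut_zero cut_last hre him ?_ ?_ ?_
  · rw [cut_sum (fun C D => sgnBelow C D X), cut_sum (fun C D => sgnBelow C D X),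
      cut_sum (fun C D => sgnBelow C D Y), cut_sum (fun C D => sgnBelow C D Y),
      cut_mid (by omega) (by omega), cut_mid (by omega) (by omega),
      show i + a + 1 + (b + 1) = i + a + 1 + b + 1 by omega, hP0, stp_of_sides hk'] at key
    have hall : ∀ V : ℂ, X.re = V.re → ∑ j ∈ Finset.range r, sgnBelow (P j) (P (j + 1)) V =
        sgnBelow X (P (i + 1)) V + ∑ j ∈ Finset.Ico (i + 1) (i + a + 1),
          sgnBelow (P j) (P (j + 1)) V + sgnBelow (P (i + a + 1)) Y V +
        (sgnBelow Y (P (i + a + 1 + 1)) V + ∑ j ∈ Finset.Ico (i + a + 1 + 1) (i + a + 1 + b + 1),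
          sgnBelow (P j) (P (j + 1)) V + sgnBelow (P i) X V) := by
      intro V hV
      rw [← sum_Ico_periodic (fun j => sgnBelow (P j) (P (j + 1)) V) r
        (fun j => by simp only [hper, show j + r + 1 = j + 1 + r by omega]) i,
        Finset.sum_eq_sum_Ico_succ_bot (by omega : i < i + r),
        ← Finset.sum_Ico_consecutive _ (by omega : i + 1 ≤ i + a + 1) (by omega : i + a + 1 ≤ i + r),
        Finset.sum_eq_sum_Ico_succ_bot (by omega : i + a + 1 < i + r),
        ← sgnBelow_cut hX hV hi, ← sgnBelow_cut hY (hre ▸ hV) hk',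
        show i + r = i + a + 1 + b + 1 by omega]
      ring
    rw [hall X rfl, hall Y hre]
    exact key
  · intro e he f hf
    by_cases h1 : e = a + 1 ∧ f = 0
    · obtain ⟨rfl, rfl⟩ := h1
      rw [cut_last, cut_zero, cut_mid (by omega) (by omega), cut_mid (by omega) (by omega)]
      exact (cons_of_sides hk').1
    by_cases h2 : e = 0 ∧ f = b + 1
    · obtain ⟨rfl, rfl⟩ := h2
      rw [cut_last, cut_zero, cut_mid (by omega) (by omega), cut_mid (by omega) (by omega),
        show i + a + 1 + (b + 1) = i + a + 1 + b + 1 by omega, hP0]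
      exact (cons_of_sides hi).2
    refine cons_of_disjoint fun Z hZ hZ' => ?_
    rcases hs (i + e) (i + a + 1 + f) (by omega) (by omega) Z (cut_sub hX hY he hZ)
      (cut_sub hY hX' hf hZ') with ⟨h3, h4⟩ | ⟨h3, h4⟩
    · by_cases h5 : f = 0
      · subst h5
        rw [cut_zero, cut_mid (by omega) (by omega), h4] at hZ'
        exact (not_mem_of_sides hk').2 hZ'
      · obtain rfl : e = a + 1 := by omega
        obtain rfl : f = 1 := by omega
        rw [cut_last, cut_mid (by omega) (by omega), h4] at hZ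
        exact (not_mem_of_sides hk').1 hZ
    · by_cases h5 : e = 0
      · subst h5
        rw [cut_zero, cut_mid (by omega) (by omega), h4] at hZ
        exact (not_mem_of_sides hi).2 hZ
      · obtain rfl : e = 1 := by omega
        obtain rfl : f = b + 1 := by omega
        rw [cut_last, cut_mid (by omega) (by omega),
          show i + a + 1 + (b + 1) = i + a + 1 + b + 1 by omega, hP0, h4] at hZ'
        exact (not_mem_of_sides hi).1 hZ'
  · intro f h1 h2
    rw [cut_mid h1 h2]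
    exact hx _
  · intro f h1 h2
    rw [cut_mid h1 (by omega), cut_mid (by omega) (by omega)]
    exact ⟨fun h => hnv i (i + a + 1 + f) (by omega) (by omega) X hX h rfl,
      fun h => hnv (i + a + 1) (i + a + 1 + f) (by omega) (by omega) Y hY h hre.symm⟩

/-- The height at abscissa `x` of the line through `A` and `B`. -/
noncomputable def hgt (A B : ℂ) (x : ℝ) : ℝ := A.im + (x - A.re) * (B.im - A.im) / (B.re - A.re)

theorem im_eq_hgt {A B Z : ℂ} (hne : A.re ≠ B.re) (hZ : Z ∈ segment ℝ A B) :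
    Z.im = hgt A B Z.re := by
  obtain ⟨s, -, -, e1, e2⟩ := mem_segment_re hZ
  have := sub_ne_zero.mpr hne.symm
  rw [hgt, e1, e2]
  field_simp
  ring

theorem sgnBelow_eq (A B V : ℂ) :
    sgnBelow A B V = (stp A.re V.re - stp B.re V.re) * if hgt A B V.re < V.im then 1 else 0 := by
  unfold sgnBelow
  by_cases h0 : stp A.re V.re - stp B.re V.re = 0
  · rw [h0, zero_mul, zero_mul]
  · obtain ⟨Z, hZ, e⟩ := exists_mem_re (range_of_stp_left h0)
    have hne : A.re ≠ B.re := fun h => h0 (by rw [h, sub_self])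
    simp only [below_iff hne hZ e, im_eq_hgt hne hZ, e]

/-- Initial sums of a family of signs with constant left value. -/
theorem abs_cum_le (S : Finset ℕ) (ε δ : ℕ → ℤ) (l : ℕ → ℝ)
    (hε : ∀ i ∈ S, ε i ≠ 0 → (ε i = 1 ∧ δ i = 1) ∨ (ε i = -1 ∧ δ i = 0))
    (hinj : ∀ i ∈ S, ∀ k ∈ S, ε i ≠ 0 → ε k ≠ 0 → l i = l k → i = k)
    (hΛ : ∀ i ∈ S, ∀ k ∈ S, ε i ≠ 0 → ε k ≠ 0 →
      (∑ j ∈ S, ε j * if l j < l i then 1 else 0) + δ i =
      (∑ j ∈ S, ε j * if l j < l k then 1 else 0) + δ k) (y : ℝ) :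
    |∑ j ∈ S, ε j * if l j < y then 1 else 0| ≤ 1 := by
  classical
  by_cases hne : (S.filter fun j => ε j ≠ 0 ∧ l j < y).Nonempty
  · obtain ⟨k, hk, hmax⟩ := Finset.exists_max_image _ l hne
    obtain ⟨hkS, hk0, hky⟩ : k ∈ S ∧ ε k ≠ 0 ∧ l k < y := Finset.mem_filter.mp hk
    obtain ⟨m, hm, hmin⟩ := Finset.exists_min_image (S.filter fun j => ε j ≠ 0) l
      ⟨k, Finset.mem_filter.mpr ⟨hkS, hk0⟩⟩
    obtain ⟨hmS, hm0⟩ := Finset.mem_filter.mp hm
    have h1 : (∑ j ∈ S, ε j * if l j < l m then 1 else 0) = 0 := by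
      refine Finset.sum_eq_zero fun j hj => ?_
      by_cases h : ε j = 0
      · rw [h, zero_mul]
      · rw [if_neg (not_lt.mpr (hmin j (Finset.mem_filter.mpr ⟨hj, h⟩))), mul_zero]
    have h2 : (∑ j ∈ S, ε j * if l j < y then 1 else 0) =
        (∑ j ∈ S, ε j * if l j < l k then 1 else 0) + ε k := by
      have h3 : ε k = ∑ j ∈ S, if j = k then ε j else 0 := by
        rw [Finset.sum_ite_eq' S k ε, if_pos hkS]
      rw [h3, ← Finset.sum_add_distrib]
      refine Finset.sum_congr rfl fun j hj => ?_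
      by_cases h : ε j = 0
      · simp [h]
      by_cases hjk : j = k
      · subst hjk
        simp [hky]
      rw [if_neg hjk, add_zero]
      by_cases hjy : l j < y
      · have h4 := hmax j (Finset.mem_filter.mpr ⟨hj, h, hjy⟩)
        rw [if_pos hjy, if_pos (lt_of_le_of_ne h4 fun h5 => hjk (hinj j hj k hkS h hk0 h5))]
      · rw [if_neg hjy, if_neg (fun h5 => hjy (h5.trans hky))]
    have h4 := hΛ k hkS m hmS hk0 hm0
    rw [h1] at h4
    rw [h2, abs_le]
    rcases hε k hkS hk0 with ⟨e1, e2⟩ | ⟨e1, e2⟩ <;> rcases hε m hmS hm0 with ⟨-, e3⟩ | ⟨-, e3⟩ <;>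
      constructor <;> omega
  · rw [Finset.sum_eq_zero]
    · simp
    · intro j hj
      by_cases h : ε j = 0
      · rw [h, zero_mul]
      · rw [if_neg fun h' => hne ⟨j, Finset.mem_filter.mpr ⟨hj, h, h'⟩⟩, mul_zero]

theorem sides_of_stp {a b x : ℝ} (ha : a ≠ x) (hb : b ≠ x) (h : stp a x - stp b x ≠ 0) :
    (a - x) * (b - x) < 0 := by
  rcases range_of_stp_left h with ⟨h1, h2⟩ | ⟨h1, h2⟩
  · exact mul_neg_of_neg_of_pos (sub_neg.mpr (lt_of_le_of_ne h1 ha))
      (sub_pos.mpr (lt_of_le_of_ne h2 hb.symm))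
  · exact mul_neg_of_pos_of_neg (sub_pos.mpr (lt_of_le_of_ne h2 ha.symm))
      (sub_neg.mpr (lt_of_le_of_ne h1 hb))

/-- On a vertical line through no vertex the signed number of edges below a point is at most one
in absolute value. -/
theorem abs_wind_le (r : ℕ) (P : ℕ → ℂ) (hper : ∀ j, P (j + r) = P j)
    (hs : ∀ u v, u < v → v < u + r → ∀ Z, Z ∈ segment ℝ (P u) (P (u + 1)) →
      Z ∈ segment ℝ (P v) (P (v + 1)) → (v = u + 1 ∧ Z = P v) ∨ (v + 1 = u + r ∧ Z = P u))
    (x : ℝ) (hx : ∀ j, (P j).re ≠ x) (y : ℝ) :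
    |∑ j ∈ Finset.range r, (stp (P j).re x - stp (P (j + 1)).re x) *
      if hgt (P j) (P (j + 1)) x < y then 1 else 0| ≤ 1 := by
  have hpt : ∀ j, stp (P j).re x - stp (P (j + 1)).re x ≠ 0 →
      ∃ X ∈ segment ℝ (P j) (P (j + 1)), X.re = x ∧ X.im = hgt (P j) (P (j + 1)) x := by
    intro j h0
    obtain ⟨Z, hZ, e⟩ := exists_mem_re (range_of_stp_left h0)
    have hne : (P j).re ≠ (P (j + 1)).re := fun h => h0 (by rw [h, sub_self])
    exact ⟨Z, hZ, e, by rw [im_eq_hgt hne hZ, e]⟩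
  have hlt : ∀ i k, i < k → k < r → stp (P i).re x - stp (P (i + 1)).re x ≠ 0 →
      stp (P k).re x - stp (P (k + 1)).re x ≠ 0 →
      hgt (P i) (P (i + 1)) x ≠ hgt (P k) (P (k + 1)) x ∧
      (∑ j ∈ Finset.range r, (stp (P j).re x - stp (P (j + 1)).re x) *
        if hgt (P j) (P (j + 1)) x < hgt (P i) (P (i + 1)) x then 1 else 0) + stp (P i).re x =
      (∑ j ∈ Finset.range r, (stp (P j).re x - stp (P (j + 1)).re x) *
        if hgt (P j) (P (j + 1)) x < hgt (P k) (P (k + 1)) x then 1 else 0) + stp (P k).re x := by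
    intro i k hik hk hi0 hk0
    obtain ⟨X, hX, e1, e2⟩ := hpt i hi0
    obtain ⟨Y, hY, e3, e4⟩ := hpt k hk0
    constructor
    · intro h
      have hXY : X = Y := Complex.ext (e1.trans e3.symm) (by rw [e2, e4, h])
      rcases hs i k hik (by omega) X hX (hXY ▸ hY) with ⟨-, h5⟩ | ⟨-, h5⟩
      · exact hx _ (h5 ▸ e1)
      · exact hx _ (h5 ▸ e1)
    · have := left_value r P hper hs (e1.trans e3.symm) (fun j => e1 ▸ hx j) hik (by omega) hX hY
        (by rw [e1]; exact sides_of_stp (hx _) (hx _) hi0)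
        (by rw [e3]; exact sides_of_stp (hx _) (hx _) hk0)
      simpa only [sgnBelow_eq, e1, e2, e3, e4] using this
  refine abs_cum_le (Finset.range r) (fun j => stp (P j).re x - stp (P (j + 1)).re x)
    (fun j => stp (P j).re x) (fun j => hgt (P j) (P (j + 1)) x) ?_ ?_ ?_ y
  · intro i _ h
    unfold stp at h ⊢
    split_ifs at h ⊢ <;> simp at h ⊢
  · intro i hi k hk hi0 hk0 h
    rcases lt_trichotomy i k with h' | h' | h'
    · exact absurd h (hlt i k h' (Finset.mem_range.mp hk) hi0 hk0).1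
    · exact h'
    · exact absurd h.symm (hlt k i h' (Finset.mem_range.mp hi) hk0 hi0).1
  · intro i hi k hk hi0 hk0
    rcases lt_trichotomy i k with h' | h' | h'
    · exact (hlt i k h' (Finset.mem_range.mp hk) hi0 hk0).2
    · rw [h']
    · exact (hlt k i h' (Finset.mem_range.mp hi) hk0 hi0).2.symm

end Pool.Agent.Lib.MP_5a3ebe_gt.Ap
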