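import Pool.Agent.Lib.MP_5a3ebe_gt.ApFinger

/-! Inserting a cancelling pair into an involution; propagation of positivity. -/

set_option linter.unusedSectionVars false

namespace Pool.Agent.Lib.MP_5a3ebe_gt.Ap

open Classical Matrix

variable {ι : Type} [Fintype ι] [DecidableEq ι]

lemma F2.add_self (x : F2) : x + x = 0 := CharTwo.add_self_eq_zero x

lemma F2.eq_one {x : F2} (h : x ≠ 0) : x = 1 := by
  revert x; decide

lemma F2.add_ne {x y : F2} (h : x + y ≠ 0) : x ≠ 0 ∨ y ≠ 0 := by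
  revert x y; decide

lemma F2.sum_ne {κ : Type} [Fintype κ] {f g : κ → F2} (h : ∑ v, f v * g v ≠ 0) :
    ∃ v, f v ≠ 0 ∧ g v ≠ 0 := by
  obtain ⟨v, -, hv⟩ := Finset.exists_ne_zero_of_sum_ne_zero h
  exact ⟨v, left_ne_zero_of_mul hv, right_ne_zero_of_mul hv⟩

def big (d : Matrix ι ι F2) (s p : ι) (m χ : ι → F2) : Matrix ι ι F2 :=
  d + vecMulVec (Pi.single s 1) (m ᵥ* d) + vecMulVec (Pi.single p 1 + χ) (Pi.single s 1 + m) +
    vecMulVec (Pi.single s 1 + d *ᵥ χ + (m ⬝ᵥ d *ᵥ χ) • Pi.single s 1) (Pi.single p 1)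

structure InsH (d : Matrix ι ι F2) (A : ι → Prop) (s p : ι) (m χ : ι → F2) : Prop where
  ne : p ≠ s
  As : ¬ A s
  Bp : ¬ A p
  supp : ∀ x y, d x y ≠ 0 → A x ∧ A y
  sq : d * d = diagonal fun x => if A x then 1 else 0
  mA : ∀ x, m x ≠ 0 → A x
  cA : ∀ x, χ x ≠ 0 → A x
  mc : ∀ x, m x * χ x = 0

namespace InsH

variable {d : Matrix ι ι F2} {A : ι → Prop} {s p : ι} {m χ : ι → F2} (h : InsH d A s p m χ)
include h

lemma d0 {x y} (hx : ¬ A x ∨ ¬ A y) : d x y = 0 := by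
  by_contra e
  have := h.supp x y e
  tauto

lemma m0 {x} (hx : ¬ A x) : m x = 0 := by
  by_contra e
  exact hx (h.mA x e)

lemma c0 {x} (hx : ¬ A x) : χ x = 0 := by
  by_contra e
  exact hx (h.cA x e)

lemma md0 {x} (hx : ¬ A x) : (m ᵥ* d) x = 0 := by
  simp [vecMul, dotProduct, h.d0 (Or.inr hx)]

lemma dc0 {x} (hx : ¬ A x) : (d *ᵥ χ) x = 0 := by
  simp [mulVec, dotProduct, h.d0 (Or.inl hx)]

lemma row_p (t : ι) : big d s p m χ p t = (if t = s then 1 else 0) + m t := by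
  simp [big, vecMulVec_apply, h.d0 (Or.inl h.Bp), h.c0 h.Bp, h.dc0 h.Bp, h.ne, Pi.single_apply]

lemma row_s (t : ι) : big d s p m χ s t =
    (m ᵥ* d) t + (if t = p then 1 + m ⬝ᵥ d *ᵥ χ else 0) := by
  simp [big, vecMulVec_apply, h.d0 (Or.inl h.As), h.c0 h.As, h.dc0 h.As, h.ne.symm,
    Pi.single_apply]

omit h in
lemma row_g {g : ι} (h1 : g ≠ s) (h2 : g ≠ p) (t : ι) : big d s p m χ g t =
    d g t + χ g * ((if t = s then 1 else 0) + m t) + (if t = p then (d *ᵥ χ) g else 0) := by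
  simp [big, vecMulVec_apply, h1, h2, Pi.single_apply]

lemma big_sq : big d s p m χ * big d s p m χ =
    diagonal fun x => if A x ∨ x = s ∨ x = p then 1 else 0 := by
  have ds : d *ᵥ Pi.single s 1 = 0 := by
    funext x; simp [h.d0 (Or.inr h.As)]
  have dp : d *ᵥ Pi.single p 1 = 0 := by
    funext x; simp [h.d0 (Or.inr h.Bp)]
  have sd : Pi.single s 1 ᵥ* d = 0 := by
    funext x; simp [h.d0 (Or.inl h.As)]
  have pd : Pi.single p 1 ᵥ* d = 0 := by
    funext x; simp [h.d0 (Or.inl h.Bp)]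
  have ddc : d *ᵥ d *ᵥ χ = χ := by
    rw [mulVec_mulVec, h.sq]
    funext x
    rw [mulVec_diagonal]
    split_ifs with e
    · simp
    · simp [h.c0 e]
  have mdd : (m ᵥ* d) ᵥ* d = m := by
    rw [vecMul_vecMul, h.sq]
    funext x
    rw [vecMul_diagonal]
    split_ifs with e
    · simp
    · simp [h.m0 e]
  have mc : m ⬝ᵥ χ = 0 := by simp [dotProduct, h.mc]
  have e1 : (m ᵥ* d) ⬝ᵥ χ = m ⬝ᵥ d *ᵥ χ := (dotProduct_mulVec _ _ _).symm
  have e2 : (m ᵥ* d) ⬝ᵥ d *ᵥ χ = 0 := by rw [← dotProduct_mulVec, ddc, mc]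
  have ne := h.ne
  have mv : ∀ x : ι → F2, big d s p m χ *ᵥ x = d *ᵥ x + ((m ᵥ* d) ⬝ᵥ x) • Pi.single s 1 +
      (x s + m ⬝ᵥ x) • (Pi.single p 1 + χ) +
      x p • (Pi.single s 1 + d *ᵥ χ + (m ⬝ᵥ d *ᵥ χ) • Pi.single s 1) := fun x => by
    simp only [big, add_mulVec, vecMulVec_mulVec, add_dotProduct, single_dotProduct, one_mul,
      op_smul_eq_smul]
  have b1 : big d s p m χ *ᵥ Pi.single s 1 = Pi.single p 1 + χ := by
    rw [mv, ds]
    simp [h.md0 h.As, h.m0 h.As, ne]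
  have b2 : big d s p m χ *ᵥ (Pi.single p 1 + χ) = Pi.single s 1 := by
    rw [mv, mulVec_add, dp, dotProduct_add, dotProduct_add, e1, mc]
    funext x
    simp [h.md0 h.Bp, h.m0 h.Bp, h.c0 h.As, h.c0 h.Bp, ne.symm]
    grind
  have b3 : big d s p m χ *ᵥ (Pi.single s 1 + d *ᵥ χ + (m ⬝ᵥ d *ᵥ χ) • Pi.single s 1) =
      Pi.single p 1 := by
    rw [mv]
    simp only [mulVec_add, mulVec_smul, ds, ddc, dotProduct_add, dotProduct_smul, e2]
    funext x
    simp [h.md0 h.As, h.m0 h.As, h.dc0 h.As, h.dc0 h.Bp, ne]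
    grind
  have b4 : big d s p m χ * d = d * d + vecMulVec (Pi.single s 1) m +
      vecMulVec (Pi.single p 1 + χ) (m ᵥ* d) := by
    simp only [big, add_mul, vecMulVec_mul, add_vecMul, sd, pd, mdd, zero_add, vecMulVec_zero,
      add_zero]
  conv_lhs => congr; rfl; unfold big
  simp only [mul_add, mul_vecMulVec, b1, b2, b3, b4, h.sq]
  ext x y
  simp only [Matrix.add_apply, vecMulVec_apply, Pi.add_apply, diagonal_apply, Pi.single_apply]
  have As := h.As
  have Ap := h.Bp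
  by_cases x1 : x = s <;> by_cases x2 : x = p <;> by_cases y1 : y = s <;> by_cases y2 : y = p <;>
    by_cases xy : x = y <;> simp_all <;> grind

end InsH

namespace Diag

variable {D : Diag ι} {d : ℤ → Matrix ι ι F2} {lam : ℤ → ι → ℝ} {α : ℝ}

def Dn (D : Diag ι) (d : ℤ → Matrix ι ι F2) (lam : ℤ → ι → ℝ) (α : ℝ) (k : ℤ) : Prop :=
  ∀ s t, d k s t ≠ 0 → D.key k t < D.key k s → lam (k + 1) t ≤ lam (k + 1) s + α

def Up (D : Diag ι) (d : ℤ → Matrix ι ι F2) (lam : ℤ → ι → ℝ) (α : ℝ) (k : ℤ) : Prop :=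
  ∀ s t, d k s t ≠ 0 → D.key k s < D.key k t → lam k t ≤ lam k s + α

lemma dn_left (hA : D.Alg d) (hl : D.Adm lam α) {k} (h : D.Dn d lam α k) {s t} (hd : d k s t ≠ 0)
    (hk : D.key k t < D.key k s) : lam k t ≤ lam k s + α := by
  have := hA.supp _ _ _ hd
  have := hl.mono k t s this.2.1 this.1 hk
  have := h s t hd hk
  linarith

lemma up_right (hA : D.Alg d) (hl : D.Adm lam α) {k} (h : D.Up d lam α k) {s t} (hd : d k s t ≠ 0)
    (hk : D.key k s < D.key k t) : lam (k + 1) t ≤ lam (k + 1) s + α := by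
  have := hA.supp _ _ _ hd
  have := hl.mono k s t this.1 this.2.1 hk
  have := h s t hd hk
  linarith

lemma Alg.ne (hA : D.Alg d) {k s t} (hd : d k s t ≠ 0) : s ≠ t := by
  rintro rfl
  exact (hA.supp _ _ _ hd).2.2 rfl

lemma Alg.sq0 (hA : D.Alg d) (k) {s t} (h : s ≠ t) : ∑ v, d k s v * d k v t = 0 := by
  have := congrFun (congrFun (hA.sq k) s) t
  rwa [mul_apply, P, diagonal_apply_ne _ h] at this

lemma dn_back (G : D.Good) (hA : D.Alg d) (hl : D.Adm lam α) {k}
    (he : D.Quiet k ∨ ∃ a c, D.Cup k a c) (h : D.Dn d lam α (k + 1)) : D.Dn d lam α k := by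
  intro s t hd hk
  obtain ⟨a1, a2, -⟩ := hA.supp _ _ _ hd
  rcases he with he | ⟨a, c, he⟩
  · rw [← hA.quiet k he] at hd
    exact dn_left hA hl h hd ((G.mono _ _ _ a2 (he.al.2 a2) a1 (he.al.2 a1)).1 hk)
  · obtain ⟨-, -, -, -, -, -, -, n1, n2⟩ := he.facts G
    have s1 : s ≠ a := fun e => n1 (e ▸ a1)
    have s2 : s ≠ c := fun e => n2 (e ▸ a1)
    have t1 : t ≠ a := fun e => n1 (e ▸ a2)
    have t2 : t ≠ c := fun e => n2 (e ▸ a2)
    obtain ⟨⟨-, e2⟩, g1, g2⟩ := hA.cup k a c he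
    rw [e2 s t s1 s2 t1 t2] at hd
    rcases F2.add_ne hd with hd | hd
    · exact dn_left hA hl h hd
        ((G.mono _ _ _ a2 ((he.al G t1 t2).2 a2) a1 ((he.al G s1 s2).2 a1)).1 hk)
    · have d1 := left_ne_zero_of_mul hd
      have d2 := right_ne_zero_of_mul hd
      have := dn_left hA hl h d1 ((g2 s d1).resolve_left s1)
      have := dn_left hA hl h d2 ((g1 t d2).resolve_left t2)
      have := hl.cup _ _ _ he
      linarith

lemma up_fwd (G : D.Good) (hA : D.Alg d) (hl : D.Adm lam α) {k}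
    (he : D.Quiet k ∨ ∃ a c, D.Cup k a c) (hu : D.Up d lam α k) (h : D.Dn d lam α (k + 1)) :
    D.Up d lam α (k + 1) := by
  rcases he with he | ⟨a, c, he⟩
  · intro s t hd hk
    obtain ⟨a1, a2, -⟩ := hA.supp _ _ _ hd
    rw [hA.quiet k he] at hd
    exact up_right hA hl hu hd ((G.mono _ _ _ (he.al.1 a1) a1 (he.al.1 a2) a2).2 hk)
  obtain ⟨⟨e1, e2⟩, g1, g2⟩ := hA.cup k a c he
  have lc := hl.cup _ _ _ he
  have kac := he.2.2.2
  have old : ∀ s t, d (k + 1) s t ≠ 0 → D.key (k + 1) s < D.key (k + 1) t → s ≠ a → s ≠ c →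
      t ≠ a → t ≠ c → lam (k + 1) t ≤ lam (k + 1) s + α := by
    intro s t hd hk s1 s2 t1 t2
    obtain ⟨a1, a2, -⟩ := hA.supp _ _ _ hd
    have z : d (k + 1) s c * d (k + 1) a t = 0 := by
      by_contra z
      have := (g2 s (left_ne_zero_of_mul z)).resolve_left s1
      have := (g1 t (right_ne_zero_of_mul z)).resolve_left t2
      linarith
    have e := e2 s t s1 s2 t1 t2
    rw [z, add_zero] at e
    exact up_right hA hl hu (e ▸ hd)
      ((G.mono _ _ _ ((he.al G s1 s2).1 a1) a1 ((he.al G t1 t2).1 a2) a2).2 hk)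
  intro s t hd hk
  by_cases s1 : s = a
  · subst s1
    rcases g1 t hd with e | e
    · rw [e, lc]
    · linarith
  by_cases t2 : t = c
  · subst t2
    rcases g2 s hd with e | e
    · exact absurd e s1
    · linarith
  by_cases s2 : s = c
  · subst s2
    have t1 : a ≠ t := fun e => by subst e; linarith
    have z := hA.sq0 (k + 1) t1
    rw [← Finset.add_sum_erase _ _ (Finset.mem_univ s), e1, F2.eq_one hd] at z
    obtain ⟨v, hv, hz⟩ := Finset.exists_ne_zero_of_sum_ne_zero (s := Finset.univ.erase s)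
      (f := fun v => d (k + 1) a v * d (k + 1) v t) (fun e => by rw [e] at z; simp at z)
    have v1 := (Finset.mem_erase.1 hv).1
    have d1 := left_ne_zero_of_mul hz
    have kv := (g1 v d1).resolve_left v1
    have := dn_left hA hl h d1 kv
    have := old v t (right_ne_zero_of_mul hz) (by linarith) (hA.ne d1).symm v1 t1.symm t2
    linarith
  by_cases t1 : t = a
  · subst t1
    have z := hA.sq0 (k + 1) s2
    rw [← Finset.add_sum_erase _ _ (Finset.mem_univ t), e1, F2.eq_one hd] at z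
    obtain ⟨v, hv, hz⟩ := Finset.exists_ne_zero_of_sum_ne_zero (s := Finset.univ.erase t)
      (f := fun v => d (k + 1) s v * d (k + 1) v c) (fun e => by rw [e] at z; simp at z)
    have v1 := (Finset.mem_erase.1 hv).1
    have d1 := right_ne_zero_of_mul hz
    have kv := (g2 v d1).resolve_left v1
    have := dn_left hA hl h d1 kv
    have := old s v (left_ne_zero_of_mul hz) (by linarith) s1 s2 v1 (hA.ne d1)
    linarith
  exact old s t hd hk s1 s2 t1 t2

/-- Left of the leftmost cap, positivity follows from one check. -/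
lemma pos_left (G : D.Good) (hA : D.Alg d) (hl : D.Adm lam α) {k2} (hL : D.Left k2)
    (h : D.Dn d lam α k2) {k} (hk : k ≤ k2) {s t} (hd : d k s t ≠ 0) :
    lam k t ≤ lam k s + α ∧ lam (k + 1) t ≤ lam (k + 1) s + α := by
  have dn : ∀ j, j ≤ k2 → D.Dn d lam α j := by
    intro j hj
    induction j, hj using Int.leInductionDown with
    | base => exact h
    | pred j hj ih =>
      exact dn_back G hA hl (hL.event G (by omega)) (by simpa using ih)
  obtain ⟨k0, hk0⟩ : ∃ k0, k0 ≤ k ∧ ∀ t ∈ D.S, k0 < D.b t := by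
    obtain ⟨M, hM⟩ := (D.S.image D.b).bddBelow
    exact ⟨min k (M - 1), min_le_left _ _, fun t ht => by
      have := hM (Finset.mem_coe.2 (Finset.mem_image_of_mem _ ht))
      omega⟩
  have up : ∀ j, k0 ≤ j → j ≤ k2 → D.Up d lam α j := by
    intro j hj
    induction j, hj using Int.leInduction with
    | base =>
      intro _ s t hd
      have a := (hA.supp _ _ _ hd).1
      have := hk0.2 s a.1
      have := a.2.1
      omega
    | succ j hj ih =>
      intro h2
      exact up_fwd G hA hl (hL.event G (by omega)) (ih (by omega)) (dn _ h2)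
  obtain ⟨a1, a2, -⟩ := hA.supp _ _ _ hd
  rcases key_ne G a1 a2 (hA.ne hd) with e | e
  · exact ⟨up k hk0.1 hk s t hd e, up_right hA hl (up k hk0.1 hk) hd e⟩
  · exact ⟨dn_left hA hl (dn k hk) hd e, dn k hk s t hd e⟩

end Diag

end Pool.Agent.Lib.MP_5a3ebe_gt.Ap
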