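import Pool.Agent.Lib.MP_5a3ebe_gt.ApChordA

/-! The action of a short chain of a polygonal model. -/

namespace Pool.Agent.Lib.MP_5a3ebe_gt.Ap

theorem cast_ne_of_lt {n : ℕ} {u v : ℤ} (h1 : u < v) (h2 : v - u < n) :
    (u : ZMod n) ≠ (v : ZMod n) := by
  intro h
  rw [ZMod.intCast_eq_intCast_iff_dvd_sub] at h
  have := Int.le_of_dvd (by omega) h
  omega

/-- Two different common points of an edge and a chord put the edge on the line of the chord. -/
theorem det_eq_zero_of_two {A B U V X Y : ℂ} (hX : X ∈ segment ℝ U V) (hX' : X ∈ segment ℝ A B)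
    (hY : Y ∈ segment ℝ U V) (hY' : Y ∈ segment ℝ A B) (hne : X ≠ Y) :
    (B.re - A.re) * (U.im - A.im) = (U.re - A.re) * (B.im - A.im) ∧
    (B.re - A.re) * (V.im - A.im) = (V.re - A.re) * (B.im - A.im) := by
  rw [segment_eq_image] at hX hX' hY hY'
  obtain ⟨s, -, hs⟩ := hX
  obtain ⟨t, -, ht⟩ := hX'
  obtain ⟨s', -, hs'⟩ := hY
  obtain ⟨t', -, ht'⟩ := hY'
  have hss : s - s' ≠ 0 := by
    intro h
    apply hne
    rw [← hs, ← hs', sub_eq_zero.mp h]
  have e1 := congrArg Complex.re (hs.trans ht.symm)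
  have e2 := congrArg Complex.im (hs.trans ht.symm)
  have e3 := congrArg Complex.re (hs'.trans ht'.symm)
  have e4 := congrArg Complex.im (hs'.trans ht'.symm)
  simp only [Complex.add_re, Complex.add_im, Complex.smul_re, Complex.smul_im, smul_eq_mul]
    at e1 e2 e3 e4
  constructor
  · refine mul_left_cancel₀ hss ?_
    linear_combination (-s') * ((B.re - A.re) * e2 - (B.im - A.im) * e1) +
      s * ((B.re - A.re) * e4 - (B.im - A.im) * e3)
  · refine mul_left_cancel₀ hss ?_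
    linear_combination (1 - s') * ((B.re - A.re) * e2 - (B.im - A.im) * e1) -
      (1 - s) * ((B.re - A.re) * e4 - (B.im - A.im) * e3)

/-- Packing: points near `o` which are separated when their labels have the same parity. -/
theorem card_le_of_sep (S : Finset ℕ) (f : ℕ → ℂ) (o : ℂ) {δ L : ℝ} (hδ : 0 < δ) (hL : 0 ≤ L)
    (hn : ∀ v ∈ S, ‖f v - o‖ ≤ L * δ)
    (hs : ∀ v ∈ S, ∀ w ∈ S, v + 2 ≤ w → δ ≤ ‖f v - f w‖) :
    (S.card : ℝ) ≤ 2 * (4 * L + 3) ^ 2 := by
  let N : ℕ := ⌈2 * L⌉₊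
  have hN : (N : ℝ) < 2 * L + 1 := Nat.ceil_lt_add_one (by positivity)
  have hN' : 2 * L ≤ (N : ℝ) := Nat.le_ceil _
  let g : ℕ → ℕ × ℤ × ℤ := fun v => (v % 2, ⌊2 * (f v - o).re / δ⌋, ⌊2 * (f v - o).im / δ⌋)
  have hfl : ∀ x : ℝ, |x| ≤ L * δ → ⌊2 * x / δ⌋ ∈ Finset.Icc (-(N : ℤ)) N := by
    intro x hx
    obtain ⟨h1, h2⟩ := abs_le.mp hx
    rw [Finset.mem_Icc]
    constructor
    · rw [Int.le_floor, le_div_iff₀ hδ]
      push_cast
      nlinarith
    · have : 2 * x / δ ≤ (N : ℝ) := by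
        rw [div_le_iff₀ hδ]
        nlinarith
      have h3 := Int.floor_mono this
      simpa using h3
  have hclose : ∀ x y : ℝ, ⌊2 * x / δ⌋ = ⌊2 * y / δ⌋ → |x - y| < δ / 2 := by
    intro x y h
    have := Int.abs_sub_lt_one_of_floor_eq_floor h
    rw [show 2 * x / δ - 2 * y / δ = (x - y) / (δ / 2) by field_simp, abs_div,
      abs_of_pos (by positivity : 0 < δ / 2), div_lt_one (by positivity)] at this
    exact this
  have hlt : ∀ v w, g v = g w → ‖f v - f w‖ < δ := by
    intro v w h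
    simp only [g, Prod.mk.injEq] at h
    have h1 := hclose _ _ h.2.1
    have h2 := hclose _ _ h.2.2
    have h3 := Complex.norm_le_abs_re_add_abs_im (f v - f w)
    simp only [Complex.sub_re, Complex.sub_im, sub_sub_sub_cancel_right] at h1 h2 h3
    linarith
  have hcard : S.card ≤ (Finset.range 2 ×ˢ Finset.Icc (-(N : ℤ)) N ×ˢ
      Finset.Icc (-(N : ℤ)) N).card := by
    refine Finset.card_le_card_of_injOn g (fun v hv => ?_) (fun v hv w hw h => ?_)
    · simp only [g, Finset.coe_product, Set.mem_prod, Finset.mem_coe, Finset.mem_range]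
      exact ⟨Nat.mod_lt _ (by norm_num),
        hfl _ ((Complex.abs_re_le_norm _).trans (hn v hv)),
        hfl _ ((Complex.abs_im_le_norm _).trans (hn v hv))⟩
    · have h0 : v % 2 = w % 2 := congrArg Prod.fst h
      by_contra hne
      rcases lt_or_gt_of_ne hne with h' | h'
      · exact absurd (hs v hv w hw (by omega)) (not_le.mpr (hlt v w h))
      · exact absurd (hs w hw v hv (by omega)) (not_le.mpr (hlt w v h.symm))
  rw [Finset.card_product, Finset.card_product, Finset.card_range, Int.card_Icc,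
    show ((N : ℤ) + 1 - -(N : ℤ)).toNat = 2 * N + 1 by omega] at hcard
  have h1 : (S.card : ℝ) ≤ 2 * ((2 * N + 1) * (2 * N + 1)) := by exact_mod_cast hcard
  have h2 : (0 : ℝ) ≤ N := Nat.cast_nonneg _
  nlinarith

/-- The action of a short chain differs from the action of its chord by at most a multiple of
the square of the size of the chain. -/
theorem chord_bound (hS : AreaBound) {C : Set ℂ} {ρ R K d δ : ℝ} {n : ℕ} [NeZero n]
    {z : ZMod n → ℂ} {c : ℂ} (M : Model C ρ R K d δ n z c) (hδ : 0 < δ) (hK : 0 < K)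
    (a b : ℤ) (hab : a ≤ b) (hn : b - a < n) (hd : ∀ v : ℤ, a ≤ v → v ≤ b → ‖z v - z a‖ ≤ d)
    (hK' : ‖z b - z a‖ ≤ K * δ) :
    |∑ v ∈ Finset.Ico a b, act (z v) (z (v + 1 : ℤ)) - act (z a) (z b)| ≤
      1000 * (K + 3) ^ 2 * d ^ 2 := by
  classical
  obtain ⟨r, rfl⟩ : ∃ r : ℕ, b = a + r := ⟨(b - a).toNat, by omega⟩
  let Q : ℕ → ℂ := fun j => z ((a + j : ℤ) : ZMod n)
  have hQ1 : ∀ j : ℕ, Q (j + 1) = z (((a + j : ℤ) : ZMod n) + 1) := by
    intro j
    simp only [Q]
    congr 1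
    push_cast
    ring
  have hsum : ∑ v ∈ Finset.Ico a (a + r), act (z v) (z (v + 1 : ℤ)) =
      ∑ j ∈ Finset.range r, act (Q j) (Q (j + 1)) := by
    symm
    refine Finset.sum_bij (fun j _ => a + (j : ℤ)) ?_ ?_ ?_ ?_
    · intro j hj
      have := Finset.mem_range.mp hj
      rw [Finset.mem_Ico]
      omega
    · intro j _ k _ h
      omega
    · intro v hv
      rw [Finset.mem_Ico] at hv
      exact ⟨(v - a).toNat, Finset.mem_range.mpr (by omega), by omega⟩
    · intro j _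
      simp only [Q]
      congr 3
      push_cast
      ring
  have hQ0 : Q 0 = z a := by simp [Q]
  have hQr : Q r = z ((a + r : ℤ) : ZMod n) := rfl
  rw [hsum, ← hQ0, ← hQr]
  have hpos : 0 ≤ 1000 * (K + 3) ^ 2 * d ^ 2 := by positivity
  rcases (by omega : r = 0 ∨ r = 1 ∨ 2 ≤ r) with rfl | rfl | hr
  · simpa [act_self] using hpos
  · simpa using hpos
  have h3 := M.three
  have hs : ∀ j k, j < k → k < r → ∀ P, P ∈ segment ℝ (Q j) (Q (j + 1)) →
      P ∈ segment ℝ (Q k) (Q (k + 1)) → k = j + 1 ∧ P = Q k := by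
    intro j k hjk hk P h1 h2
    rw [hQ1] at h1 h2
    rcases M.simple _ _ P h1 h2 with h | ⟨h, hP⟩ | ⟨h, -⟩
    · exact absurd h (cast_ne_of_lt (by omega) (by omega))
    · refine ⟨?_, hP⟩
      by_contra hcon
      refine cast_ne_of_lt (n := n) (u := a + j + 1) (v := a + k) (by omega) (by omega) ?_
      rw [h]; push_cast; ring
    · refine absurd ?_ (cast_ne_of_lt (n := n) (u := a + j) (v := a + k + 1) (by omega) (by omega))
      rw [h]; push_cast; ring
  have hne : ∀ j, j < r → Q j ≠ Q (j + 1) := by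
    intro j hj h
    refine cast_ne_of_lt (n := n) (u := a + j) (v := a + (j + 1 : ℕ)) (by omega) (by omega) ?_
    exact M.inj _ _ (congrArg Complex.re h)
  have hgen : ∀ j, 0 < j → j < r → ((Q r).re - (Q 0).re) * ((Q j).im - (Q 0).im) ≠
      ((Q j).re - (Q 0).re) * ((Q r).im - (Q 0).im) := by
    intro j h1 h2
    exact M.genpos _ _ _ (cast_ne_of_lt (by omega) (by omega))
      (cast_ne_of_lt (by omega) (by omega)).symm (cast_ne_of_lt (by omega) (by omega))
  have hu : ∀ j, j < r → ∀ X Y, X ∈ segment ℝ (Q j) (Q (j + 1)) → X ∈ segment ℝ (Q 0) (Q r) →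
      Y ∈ segment ℝ (Q j) (Q (j + 1)) → Y ∈ segment ℝ (Q 0) (Q r) → X = Y := by
    intro j hj X Y h1 h2 h3 h4
    by_contra hcon
    obtain ⟨e1, e2⟩ := det_eq_zero_of_two h1 h2 h3 h4 hcon
    rcases Nat.eq_zero_or_pos j with rfl | h
    · exact hgen (0 + 1) (by omega) (by omega) e2
    · exact hgen j h hj e1
  have hb := chain_bound_aux hS (Q 0) (Q 0) (Q r) d r Q hs hne hu (right_mem_segment _ _ _)
    (fun j hj => by rw [hQ0]; exact hd _ (by omega) (by omega)) (r - 1) 0 (Q 0) (by omega)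
    (left_mem_segment _ _ _) (left_mem_segment _ _ _)
  have hc := card_le_of_sep ((Finset.Ico (0 + 1) r).filter fun j =>
      ∃ P ∈ segment ℝ (Q j) (Q (j + 1)), P ∈ segment ℝ (Q 0) (Q r)) Q (Q 0) hδ
      (by positivity : 0 ≤ K + 2) (by
      intro v hv
      obtain ⟨-, P, hP, hP'⟩ := Finset.mem_filter.mp hv
      have h1 : ‖P - Q 0‖ ≤ K * δ :=
        norm_sub_le_of_mem_segment (by simp; positivity) (by rw [hQ0]; exact hK') hP'
      have h2 : ‖P - Q v‖ ≤ 2 * δ :=
        norm_sub_le_of_mem_segment (by simp; positivity) (by rw [hQ1]; exact M.short _) hP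
      calc ‖Q v - Q 0‖ = ‖(P - Q 0) - (P - Q v)‖ := by congr 1; ring
        _ ≤ ‖P - Q 0‖ + ‖P - Q v‖ := norm_sub_le _ _
        _ ≤ (K + 2) * δ := by linarith) (by
      intro v hv w hw hvw
      have h1 := (Finset.mem_Ico.mp (Finset.mem_filter.mp hv).1).1
      have h2 := (Finset.mem_Ico.mp (Finset.mem_filter.mp hw).1).2
      refine M.sep _ _ (cast_ne_of_lt (by omega) (by omega)) (fun h => ?_) (fun h => ?_)
      · refine cast_ne_of_lt (n := n) (u := a + v + 1) (v := a + w) (by omega) (by omega) ?_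
        rw [h]; push_cast; ring
      · refine cast_ne_of_lt (n := n) (u := a + v) (v := a + w + 1) (by omega) (by omega) ?_
        rw [h]; push_cast; ring)
  have hsplit : ∑ j ∈ Finset.range r, act (Q j) (Q (j + 1)) =
      act (Q 0) (Q (0 + 1)) + ∑ j ∈ Finset.Ico (0 + 1) r, act (Q j) (Q (j + 1)) := by
    rw [Finset.range_eq_Ico, Finset.sum_eq_sum_Ico_succ_bot (by omega : 0 < r)]
  rw [hsplit]
  refine hb.trans ?_
  have hd2 : 0 ≤ 8 * d ^ 2 := by positivity
  have h4 : 2 * (4 * (K + 2) + 3) ^ 2 ≤ 125 * (K + 3) ^ 2 := by nlinarith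
  calc _ ≤ 8 * d ^ 2 * (125 * (K + 3) ^ 2) := mul_le_mul_of_nonneg_left (hc.trans h4) hd2
    _ = _ := by ring

end Pool.Agent.Lib.MP_5a3ebe_gt.Ap
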