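import Pool.Agent.Lib.MP_5a3ebe_gt.ApDefs

/-! The signed area of a simple chain closed by a chord. -/

namespace Pool.Agent.Lib.MP_5a3ebe_gt.Ap

theorem act_self (P : ℂ) : act P P = 0 := by simp [act]

theorem act_swap (P Q : ℂ) : act Q P = -act P Q := by unfold act; ring

/-- `act` is additive for three points of one segment. -/
theorem act_add_of_mem {A B X Y Z : ℂ} (hX : X ∈ segment ℝ A B) (hY : Y ∈ segment ℝ A B)
    (hZ : Z ∈ segment ℝ A B) : act X Z = act X Y + act Y Z := by
  rw [segment_eq_image] at hX hY hZ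
  obtain ⟨s, -, rfl⟩ := hX
  obtain ⟨t, -, rfl⟩ := hY
  obtain ⟨u, -, rfl⟩ := hZ
  simp only [act, Complex.add_re, Complex.add_im, Complex.smul_re, Complex.smul_im, smul_eq_mul]
  ring

theorem norm_sub_le_of_mem_segment {A B X o : ℂ} {d : ℝ} (hA : ‖A - o‖ ≤ d) (hB : ‖B - o‖ ≤ d)
    (hX : X ∈ segment ℝ A B) : ‖X - o‖ ≤ d := by
  have h : segment ℝ A B ⊆ Metric.closedBall o d :=
    (convex_closedBall o d).segment_subset (by simpa [dist_eq_norm] using hA)
      (by simpa [dist_eq_norm] using hB)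
  simpa [dist_eq_norm] using h hX

/-- A simple chain `W 0, …, W m` closed by the chord from `W m` to `W 0`. -/
theorem closed_bound (hS : AreaBound) (o : ℂ) (d : ℝ) (m : ℕ) (hm : 2 ≤ m) (W : ℕ → ℂ)
    (hs : ∀ j k, j < k → k < m → ∀ P, P ∈ segment ℝ (W j) (W (j + 1)) →
      P ∈ segment ℝ (W k) (W (k + 1)) → k = j + 1 ∧ P = W k)
    (hne : ∀ j, j < m → W j ≠ W (j + 1)) (hne0 : W m ≠ W 0)
    (hc : ∀ j, j < m → ∀ P, P ∈ segment ℝ (W j) (W (j + 1)) → P ∈ segment ℝ (W m) (W 0) →
      (j = 0 ∧ P = W 0) ∨ (j + 1 = m ∧ P = W m))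
    (hd : ∀ j, j ≤ m → ‖W j - o‖ ≤ d) :
    |∑ j ∈ Finset.range m, act (W j) (W (j + 1)) + act (W m) (W 0)| ≤ 8 * d ^ 2 := by
  haveI : Fact (1 < m + 1) := ⟨by omega⟩
  let Q : ZMod (m + 1) → ℂ := fun j => W j.val
  have hlt : ∀ j : ZMod (m + 1), j.val < m + 1 := fun j => ZMod.val_lt j
  have hval : ∀ j : ZMod (m + 1), (j + 1).val = if j.val = m then 0 else j.val + 1 := by
    intro j
    rw [ZMod.val_add, ZMod.val_one]
    have := hlt j
    split_ifs with h
    · rw [h, Nat.mod_self]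
    · exact Nat.mod_eq_of_lt (by omega)
  have hsucc : ∀ j k : ZMod (m + 1), k.val = j.val + 1 → k = j + 1 := by
    intro j k h
    apply ZMod.val_injective
    have := hlt k
    rw [hval, if_neg (by omega), h]
  have hwrap : ∀ j k : ZMod (m + 1), j.val = m → k.val = 0 → k = j + 1 := by
    intro j k h h'
    apply ZMod.val_injective
    rw [hval, if_pos h, h']
  have key : ∀ i j : ZMod (m + 1), i.val < j.val → ∀ P : ℂ, P ∈ segment ℝ (Q i) (Q (i + 1)) →
      P ∈ segment ℝ (Q j) (Q (j + 1)) → (j = i + 1 ∧ P = Q j) ∨ (i = j + 1 ∧ P = Q i) := by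
    intro i j hij P hi hj
    have h1 := hlt j
    simp only [Q, hval] at hi hj ⊢
    rw [if_neg (by omega)] at hi
    by_cases hjm : j.val = m
    · rw [if_pos hjm, hjm] at hj
      rcases hc i.val (by omega) P hi hj with ⟨h0, hP⟩ | ⟨h0, hP⟩
      · exact Or.inr ⟨hwrap j i hjm h0, by rw [hP, h0]⟩
      · exact Or.inl ⟨hsucc i j (by omega), by rw [hP, hjm]⟩
    · rw [if_neg hjm] at hj
      obtain ⟨h0, hP⟩ := hs i.val j.val hij (by omega) P hi hj
      exact Or.inl ⟨hsucc i j h0, hP⟩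
  have hsimple : SimplePoly Q := by
    intro i j P hi hj
    rcases lt_trichotomy i.val j.val with h | h | h
    · exact Or.inr (key i j h P hi hj)
    · exact Or.inl (ZMod.val_injective _ h)
    · exact Or.inr (key j i h P hj hi).symm
  have hb := hS (m + 1) Q o d (by omega) hsimple (by
    intro i
    have := hlt i
    simp only [Q, hval]
    split_ifs with h
    · rw [h]; exact hne0
    · exact hne _ (by omega)) (fun i => hd _ (by have := hlt i; omega))
  have hsum : ∑ i : ZMod (m + 1), act (Q i) (Q (i + 1)) =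
      ∑ j ∈ Finset.range (m + 1), act (W j) (W (if j = m then 0 else j + 1)) := by
    rw [← Fin.sum_univ_eq_sum_range (fun j => act (W j) (W (if j = m then 0 else j + 1)))]
    refine Finset.sum_congr rfl fun i _ => ?_
    simp only [Q, hval]
    rfl
  rw [hsum, Finset.sum_range_succ, if_pos rfl] at hb
  have h2 : ∑ j ∈ Finset.range m, act (W j) (W (if j = m then 0 else j + 1)) =
      ∑ j ∈ Finset.range m, act (W j) (W (j + 1)) := by
    refine Finset.sum_congr rfl fun j hj => ?_
    rw [if_neg (by have := Finset.mem_range.mp hj; omega)]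
  rwa [h2] at hb

open Classical in
/-- The chain estimate, started at a point `X` of edge `s` on the chord. -/
theorem chain_bound_aux (hS : AreaBound) (o A B : ℂ) (d : ℝ) (r : ℕ) (Q : ℕ → ℂ)
    (hs : ∀ j k, j < k → k < r → ∀ P, P ∈ segment ℝ (Q j) (Q (j + 1)) →
      P ∈ segment ℝ (Q k) (Q (k + 1)) → k = j + 1 ∧ P = Q k)
    (hne : ∀ j, j < r → Q j ≠ Q (j + 1))
    (hu : ∀ j, j < r → ∀ X Y, X ∈ segment ℝ (Q j) (Q (j + 1)) → X ∈ segment ℝ A B →
      Y ∈ segment ℝ (Q j) (Q (j + 1)) → Y ∈ segment ℝ A B → X = Y)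
    (hr : Q r ∈ segment ℝ A B) (hd : ∀ j, j ≤ r → ‖Q j - o‖ ≤ d) :
    ∀ (t s : ℕ) (X : ℂ), s + t + 1 = r → X ∈ segment ℝ (Q s) (Q (s + 1)) → X ∈ segment ℝ A B →
      |act X (Q (s + 1)) + ∑ j ∈ Finset.Ico (s + 1) r, act (Q j) (Q (j + 1)) - act X (Q r)| ≤
        8 * d ^ 2 * (((Finset.Ico (s + 1) r).filter fun j =>
          ∃ P ∈ segment ℝ (Q j) (Q (j + 1)), P ∈ segment ℝ A B).card : ℝ) := by
  intro t
  induction t using Nat.strong_induction_on with
  | _ t ih =>
  intro s X hst hXs hXI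
  rcases Nat.eq_zero_or_pos t with rfl | ht
  · have : s + 1 = r := by omega
    rw [this]
    simp
  have hex : ∃ i, s < i ∧ i < r ∧ ∃ P ∈ segment ℝ (Q i) (Q (i + 1)), P ∈ segment ℝ A B := by
    refine ⟨r - 1, by omega, by omega, Q r, ?_, hr⟩
    rw [show r - 1 + 1 = r by omega]
    exact right_mem_segment _ _ _
  obtain ⟨i, ⟨hsi, hir, X', hX'i, hX'I⟩, hmin⟩ :
      ∃ i, (s < i ∧ i < r ∧ ∃ P ∈ segment ℝ (Q i) (Q (i + 1)), P ∈ segment ℝ A B) ∧
        ∀ j, s < j → j < i → ∀ P ∈ segment ℝ (Q j) (Q (j + 1)), P ∉ segment ℝ A B := by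
    refine ⟨Nat.find hex, Nat.find_spec hex, fun j h1 h2 P hP hP' => ?_⟩
    have h3 := (Nat.find_spec hex).2.1
    exact Nat.find_min hex h2 ⟨h1, by omega, P, hP, hP'⟩
  have hIH := ih (r - i - 1) (by omega) i X' (by omega) hX'i hX'I
  -- the counts
  have hcard : ((Finset.Ico (i + 1) r).filter fun j =>
          ∃ P ∈ segment ℝ (Q j) (Q (j + 1)), P ∈ segment ℝ A B).card + 1 ≤
      ((Finset.Ico (s + 1) r).filter fun j =>
          ∃ P ∈ segment ℝ (Q j) (Q (j + 1)), P ∈ segment ℝ A B).card := by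
    refine Finset.card_lt_card ⟨fun j hj => ?_, fun h => ?_⟩
    · rw [Finset.mem_filter, Finset.mem_Ico] at hj ⊢
      exact ⟨⟨by omega, hj.1.2⟩, hj.2⟩
    · have hi : i ∈ (Finset.Ico (s + 1) r).filter fun j =>
          ∃ P ∈ segment ℝ (Q j) (Q (j + 1)), P ∈ segment ℝ A B := by
        rw [Finset.mem_filter, Finset.mem_Ico]
        exact ⟨⟨by omega, hir⟩, X', hX'i, hX'I⟩
      have := h hi
      rw [Finset.mem_filter, Finset.mem_Ico] at this
      omega
  have hcard' : (((Finset.Ico (i + 1) r).filter fun j =>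
          ∃ P ∈ segment ℝ (Q j) (Q (j + 1)), P ∈ segment ℝ A B).card : ℝ) + 1 ≤
      (((Finset.Ico (s + 1) r).filter fun j =>
          ∃ P ∈ segment ℝ (Q j) (Q (j + 1)), P ∈ segment ℝ A B).card : ℝ) := by
    exact_mod_cast hcard
  -- the sums
  have hsplit : ∑ j ∈ Finset.Ico (s + 1) r, act (Q j) (Q (j + 1)) =
      ∑ j ∈ Finset.Ico (s + 1) i, act (Q j) (Q (j + 1)) + act (Q i) (Q (i + 1)) +
        ∑ j ∈ Finset.Ico (i + 1) r, act (Q j) (Q (j + 1)) := by
    rw [← Finset.sum_Ico_succ_top (by omega : s + 1 ≤ i),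
      Finset.sum_Ico_consecutive _ (by omega) (by omega)]
  have ha1 : act (Q i) (Q (i + 1)) = act (Q i) X' + act X' (Q (i + 1)) :=
    act_add_of_mem (left_mem_segment _ _ _) hX'i (right_mem_segment _ _ _)
  have ha2 : act X (Q r) = act X X' + act X' (Q r) := act_add_of_mem hXI hX'I hr
  have hd2 : 0 ≤ 8 * d ^ 2 := by positivity
  have hpoly : |act X (Q (s + 1)) + ∑ j ∈ Finset.Ico (s + 1) i, act (Q j) (Q (j + 1)) +
      act (Q i) X' + act X' X| ≤ 8 * d ^ 2 := by
    by_cases hXe : X = Q (s + 1)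
    · have hi : i = s + 1 := by
        by_contra hcon
        exact hmin (s + 1) (by omega) (by omega) X (hXe ▸ left_mem_segment _ _ _) hXI
      subst hi
      have hXX : X' = X :=
        hu (s + 1) hir X' X hX'i hX'I (hXe ▸ left_mem_segment _ _ _) hXI
      rw [hXX, ← hXe]
      simpa [act_self] using hd2
    have hX'ne : X' ≠ Q i := by
      intro h
      by_cases hi : i = s + 1
      · subst hi
        exact hXe (hu s (by omega) X _ hXs hXI (right_mem_segment _ _ _) (h ▸ hX'I))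
      · refine hmin (i - 1) (by omega) (by omega) X' ?_ hX'I
        rw [show i - 1 + 1 = i by omega, h]
        exact right_mem_segment _ _ _
    have hXX : X' ≠ X := by
      intro h
      obtain ⟨h1, h2⟩ := hs s i hsi hir X hXs (h ▸ hX'i)
      exact hXe (h1 ▸ h2)
    obtain ⟨e, rfl⟩ : ∃ e, i = s + e + 1 := ⟨i - s - 1, by omega⟩
    let W : ℕ → ℂ := fun j => if j = 0 then X else if j = e + 2 then X' else Q (s + j)
    have hW0 : W 0 = X := by simp [W]
    have hWm : W (e + 2) = X' := by simp [W]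
    have hWj : ∀ j, 0 < j → j < e + 2 → W j = Q (s + j) := by
      intro j h1 h2
      simp only [W]
      rw [if_neg (by omega), if_neg (by omega)]
    have hWl : ∀ j, j < e + 2 → W j ∈ segment ℝ (Q (s + j)) (Q (s + j + 1)) := by
      intro j hj
      rcases Nat.eq_zero_or_pos j with rfl | h
      · rw [hW0]; exact hXs
      · rw [hWj j h hj]; exact left_mem_segment _ _ _
    have hWr : ∀ j, j < e + 2 → W (j + 1) ∈ segment ℝ (Q (s + j)) (Q (s + j + 1)) := by
      intro j hj
      by_cases h : j = e + 1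
      · subst h; rw [hWm]; exact hX'i
      · rw [hWj (j + 1) (by omega) (by omega)]; exact right_mem_segment _ _ _
    have hsub : ∀ j, j < e + 2 →
        segment ℝ (W j) (W (j + 1)) ⊆ segment ℝ (Q (s + j)) (Q (s + j + 1)) :=
      fun j hj => (convex_segment _ _).segment_subset (hWl j hj) (hWr j hj)
    have hsubI : segment ℝ (W (e + 2)) (W 0) ⊆ segment ℝ A B := by
      rw [hW0, hWm]
      exact (convex_segment _ _).segment_subset hX'I hXI
    have hb := closed_bound hS o d (e + 2) (by omega) W ?_ ?_ (by rw [hW0, hWm]; exact hXX) ?_ ?_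
    · rw [Finset.sum_range_succ, Finset.sum_range_succ', hW0, hWm, hWj 1 (by omega) (by omega),
        hWj (e + 1) (by omega) (by omega)] at hb
      have h3 : ∑ j ∈ Finset.Ico (s + 1) (s + e + 1), act (Q j) (Q (j + 1)) =
          ∑ j ∈ Finset.range e, act (W (j + 1)) (W (j + 1 + 1)) := by
        rw [Finset.sum_Ico_eq_sum_range, show s + e + 1 - (s + 1) = e by omega]
        refine Finset.sum_congr rfl fun j hj => ?_
        have := Finset.mem_range.mp hj
        rw [hWj (j + 1) (by omega) (by omega), hWj (j + 1 + 1) (by omega) (by omega)]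
        congr 2 <;> omega
      rw [h3]
      convert hb using 2
      simp only [zero_add, add_assoc]
      ring
    · intro j k hjk hk P h1 h2
      obtain ⟨h3, h4⟩ := hs (s + j) (s + k) (by omega) (by omega) P (hsub j (by omega) h1)
        (hsub k hk h2)
      exact ⟨by omega, by rw [hWj k (by omega) hk, h4]⟩
    · intro j hj
      rcases Nat.eq_zero_or_pos j with rfl | h
      · rw [hW0, hWj _ (by omega) (by omega)]; exact hXe
      · by_cases h' : j = e + 1
        · subst h'
          rw [hWm, hWj _ (by omega) (by omega)]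
          exact hX'ne.symm
        · rw [hWj j h hj, hWj (j + 1) (by omega) (by omega)]
          exact hne _ (by omega)
    · intro j hj P h1 h2
      have h3 := hsub j hj h1
      have h4 := hsubI h2
      rcases Nat.eq_zero_or_pos j with rfl | h
      · exact Or.inl ⟨rfl, by rw [hW0]; exact hu s (by omega) P X h3 h4 hXs hXI⟩
      · by_cases h' : j = e + 1
        · subst h'
          exact Or.inr ⟨rfl, by rw [hWm]; exact hu _ hir P X' h3 h4 hX'i hX'I⟩
        · exact absurd h4 (hmin (s + j) (by omega) (by omega) P h3)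
    · intro j hj
      rcases Nat.eq_zero_or_pos j with rfl | h
      · exact norm_sub_le_of_mem_segment (hd _ (by omega)) (hd _ (by omega)) (hWl 0 (by omega))
      · obtain ⟨j, rfl⟩ : ∃ j', j = j' + 1 := ⟨j - 1, by omega⟩
        exact norm_sub_le_of_mem_segment (hd _ (by omega)) (hd _ (by omega)) (hWr j (by omega))
  have heq : act X (Q (s + 1)) + ∑ j ∈ Finset.Ico (s + 1) r, act (Q j) (Q (j + 1)) - act X (Q r) =
      (act X (Q (s + 1)) + ∑ j ∈ Finset.Ico (s + 1) i, act (Q j) (Q (j + 1)) +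
      act (Q i) X' + act X' X) + (act X' (Q (i + 1)) +
        ∑ j ∈ Finset.Ico (i + 1) r, act (Q j) (Q (j + 1)) - act X' (Q r)) := by
    rw [hsplit, ha1, ha2, act_swap X X']; ring
  rw [heq]
  refine (abs_add_le _ _).trans ?_
  nlinarith [mul_le_mul_of_nonneg_left hcard' hd2]

end Pool.Agent.Lib.MP_5a3ebe_gt.Ap
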