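import Mathlib

/-! Basic vocabulary for the approximate square theorem: closed polygons. -/

namespace Pool.Agent.Lib.MP_5a3ebe_gt.Ap

/-- The closed polygon with vertices `z i` is simple: two edges meet only in a common vertex of
consecutive edges. -/
def SimplePoly {n : ℕ} (z : ZMod n → ℂ) : Prop :=
  ∀ i j : ZMod n, ∀ P : ℂ, P ∈ segment ℝ (z i) (z (i + 1)) → P ∈ segment ℝ (z j) (z (j + 1)) →
    i = j ∨ (j = i + 1 ∧ P = z j) ∨ (i = j + 1 ∧ P = z i)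

/-- Minus the integral of `y dx` along the segment from `P` to `Q`. -/
noncomputable def act (P Q : ℂ) : ℝ := -((Q.re - P.re) * (P.im + Q.im) / 2)

/-- The segment from `P` to `Q` passes strictly below the point `c`. -/
def Below (P Q c : ℂ) : Prop := ∃ X ∈ segment ℝ P Q, X.re = c.re ∧ X.im < c.im

/-- No three distinct vertices are collinear. -/
def GenPos {n : ℕ} (z : ZMod n → ℂ) : Prop :=
  ∀ i j k : ZMod n, i ≠ j → j ≠ k → i ≠ k →
    ((z j).re - (z i).re) * ((z k).im - (z i).im) ≠ ((z k).re - (z i).re) * ((z j).im - (z i).im)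

/-- The data of a good polygonal model of a curve with image `C`, at resolution `δ`. -/
structure Model (C : Set ℂ) (ρ R K d δ : ℝ) (n : ℕ) [NeZero n] (z : ZMod n → ℂ) (c : ℂ) :
    Prop where
  three : 3 ≤ n
  simple : SimplePoly z
  genpos : GenPos z
  inj : ∀ i j, (z i).re = (z j).re → i = j
  grid : ∃ h : ℝ, 0 < h ∧ ∀ i, ∃ m : ℤ, (z i).re = h * m
  near : ∀ i, ∃ p ∈ C, ‖z i - p‖ ≤ δ
  short : ∀ i, ‖z (i + 1) - z i‖ ≤ 2 * δ
  sep : ∀ i j, i ≠ j → j ≠ i + 1 → i ≠ j + 1 → δ ≤ ‖z i - z j‖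
  loc : ∀ i j, ‖z i - z j‖ ≤ K * δ → ∃ a b : ℤ, a ≤ b ∧ b - a < n ∧
    ((i = a ∧ j = b) ∨ (i = b ∧ j = a)) ∧ ∀ v : ℤ, a ≤ v → v ≤ b → ‖z v - z a‖ ≤ d
  far : ∀ i, ∀ P ∈ segment ℝ (z i) (z (i + 1)), ρ ≤ ‖P - c‖
  bound : ∀ i, ‖z i - c‖ ≤ R
  off : ∀ i, (z i).re ≠ c.re
  odd : Odd (Set.ncard {i : ZMod n | Below (z i) (z (i + 1)) c})

/-- The signed area of a simple polygon is bounded by the size of a disc containing it. -/
def AreaBound : Prop :=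
  ∀ (r : ℕ) [NeZero r] (Q : ZMod r → ℂ) (o : ℂ) (d : ℝ), 3 ≤ r → SimplePoly Q →
    (∀ i, Q i ≠ Q (i + 1)) → (∀ i, ‖Q i - o‖ ≤ d) → |∑ i, act (Q i) (Q (i + 1))| ≤ 8 * d ^ 2

end Pool.Agent.Lib.MP_5a3ebe_gt.Ap
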