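import Pool.Agent.Lib.MP_5a3ebe_gt.ApSys
import Pool.Agent.Lib.MP_5a3ebe_gt.ApDefs

/-! Interfaces between the parts of the proof of the approximate square theorem. -/

namespace Pool.Agent.Lib.MP_5a3ebe_gt.Ap

open Classical

namespace Diag

variable {ι : Type} (D : Diag ι)

/-- Level data with increments `Δ` and period `a`, with values in an abelian group. -/
structure Lev {A : Type} [AddCommGroup A] (Δ F : ℤ → ι → A) (a : A) : Prop where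
  step : ∀ k s, D.Al k s → F (k + 1) s = F k s + Δ k s
  pass : ∀ k s q, D.Pass k s q → F (k + 1) q = F (k + 1) s
  cup : ∀ k s q, D.Cup k s q → F (k + 1) q = F (k + 1) s + if D.dir s then 0 else a
  cap : ∀ k s p, D.Cap k s p → F (k + 1) s = F (k + 1) p + if D.dir p then 0 else a

/-- The diagram has one component. -/
def Conn : Prop :=
  ∀ U : Set ι, (∀ s ∈ D.S, ∀ β, s ∈ U → (D.J (s, β)).1 ∈ U) → ∀ s ∈ D.S, ∀ t ∈ D.S, s ∈ U → t ∈ U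

/-- Between the walls `i0` and `i1` the height `y` separates the strands, with margin `g`. -/
structure Sep (i0 i1 : ℤ) (bot : ι → Prop) (y g : ℝ) : Prop where
  lo : ∀ k s, i0 ≤ k → k < i1 → D.Al k s → bot s → D.key k s ≤ y - g
  hi : ∀ k s, i0 ≤ k → k < i1 → D.Al k s → ¬ bot s → y + g ≤ D.key k s
  ev : ∀ s ∈ D.S, ∀ β, i0 < D.wall (s, β) → D.wall (s, β) < i1 → (bot (D.J (s, β)).1 ↔ bot s)

/-- A level inequality at the wall `i` valid for all admissible level data. -/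
def Le (i e : ℤ) (s t : ι) : Prop :=
  ∀ lam α, D.Adm lam α → lam i t + e * α ≤ lam i s

def Touch (i : ℤ) (s : ι) : Prop := s ∈ D.S ∧ D.b s ≤ i ∧ i ≤ D.e s

end Diag

/-- The total complex: generators sit on walls (`sl = false`) or in slices (`sl = true`). -/
structure TC (ι G : Type) where
  w : G → ℤ
  sl : G → Bool
  st : G → ι
  d : Matrix G G F2
  h : Bool → Matrix G G F2
  ρ : Bool → Matrix G G F2

namespace TC

variable {ι G : Type} (T : TC ι G) (D : Diag ι)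

def v (g : G) : ℤ := T.w g + if T.sl g then 1 else 0

def Step (e : ℤ) (g g' : G) : Prop :=
  ∃ (t : ι) (e1 e2 : ℤ), e1 + e2 + (if T.sl g' then 1 else 0) = e + (if T.sl g then 1 else 0) ∧
    D.Le (T.w g) e1 (T.st g) t ∧ D.Le (T.w g') e2 t (T.st g') ∧
    (T.w g' = T.w g ∨ (T.w g' = T.w g + 1 ∧ D.Al (T.w g) t) ∨
      (T.w g = T.w g' + 1 ∧ D.Al (T.w g') t))

structure Spec [Fintype G] [DecidableEq G] : Prop where
  touch : ∀ g, D.Touch (T.w g) (T.st g)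
  inj : ∀ g g', T.w g = T.w g' → T.sl g = T.sl g' → T.st g = T.st g' → g = g'
  slA : ∀ g, T.sl g = true → D.Al (T.w g) (T.st g)
  slE : ∀ k s, D.Al k s → ∃ g, T.w g = k ∧ T.sl g = true ∧ T.st g = s
  wlE : ∀ k s, D.Quiet k → D.Al k s → ∃ g, T.w g = k + 1 ∧ T.sl g = false ∧ T.st g = s
  dd : T.d * T.d = 1
  hom : ∀ ε, T.d * T.h ε + T.h ε * T.d = 1 + T.ρ ε
  dS : ∀ g g', T.d g g' ≠ 0 → T.Step D (-1) g g' ∧
    xor (D.dir (T.st g')) (T.sl g') ≠ xor (D.dir (T.st g)) (T.sl g) ∧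
    ((T.w g' = T.w g ∧ T.sl g' = T.sl g) ∨
      (T.sl g = true ∧ T.sl g' = false ∧ (T.w g' = T.w g ∨ T.w g' = T.w g + 1)))
  hS : ∀ ε g g', T.h ε g g' ≠ 0 → T.Step D 1 g g' ∧ T.sl g = false ∧
    (if ε then T.w g' = T.w g else T.v g' = T.w g)
  ρS : ∀ ε g g', T.ρ ε g g' ≠ 0 → T.Step D 0 g g' ∧
    (if ε then T.w g' = T.w g + 1 else T.v g' + 1 = T.v g)
  quiet : ∀ g g', D.Quiet (T.w g) → T.sl g = true → T.sl g' = false → T.w g' = T.w g + 1 →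
    T.d g g' = (if T.st g = T.st g' then 1 else 0) ∧
      T.h false g' g = if T.st g = T.st g' then 1 else 0

end TC

/-- One elementary move keeps neighbourhoods, unless the level falls by `c1`. -/
def Tr {X : Type} (Near : X → ℕ → X → Prop) (J : ℕ) (E c1 : ℝ) (σ σ' : X) (δ : ℝ) : Prop :=
  δ ≤ E ∧ ∀ σ0 j, j < J → Near σ0 j σ → Near σ0 (j + 1) σ' ∨ δ ≤ -c1

/-- The combinatorial core: an almost critical quadruple with action in a window. -/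
def CoreStatement : Prop :=
  ∀ R ω : ℝ, 0 < ω → ω ≤ R → ∃ c K0 : ℝ, 0 < c ∧ ∀ K γ W g : ℝ, K0 ≤ K → 0 < γ → 0 < W → 0 < g →
  ∀ (ι : Type) [Fintype ι] [DecidableEq ι], ∃ h0 : ℝ, 0 < h0 ∧ ∀ h : ℝ, 0 < h → h ≤ h0 →
  ∀ (D : Diag ι) (Y F : ℤ → ι → ℝ) (A : ℝ) (j0 : ℤ) (bot : ι → Prop) (yc : ℝ),
    D.Good → D.Conn → D.Lev (fun k s => -(h * D.key k s)) F A →
    (∀ k s, D.Al k s → |D.key k s| ≤ R) → (∀ s ∈ D.S, ∀ t ∈ D.S, h * (D.e s - D.b t) ≤ 2 * R) →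
    D.Sep (j0 - ⌊ω / h⌋) (j0 + ⌊ω / h⌋) bot yc ω → D.Quiet j0 →
    Odd (Set.ncard {s | D.Al j0 s ∧ bot s}) →
    (∀ i s, D.Touch i s → ∃ b1 y1 b2 y2, D.Sep (i - ⌊W / h⌋) (i + ⌊W / h⌋) b1 y1 g ∧
      D.Sep (i - ⌊W / h⌋) (i + ⌊W / h⌋) b2 y2 g ∧ ¬ b1 s ∧ b2 s ∧
      Y i s - γ / 4 ≤ y1 ∧ y2 ≤ Y i s + γ / 4) →
    ∃ (i1 i2 i3 i4 : ℤ) (s1 s2 s3 s4 : ι) (m : ℤ) (x1 x2 x3 x4 u V : ℝ),
      D.Touch i1 s1 ∧ D.Touch i2 s2 ∧ D.Touch i3 s3 ∧ D.Touch i4 s4 ∧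
      x1 = h * i1 ∧ x2 = h * i2 ∧ x3 = h * i3 ∧ x4 = h * i4 ∧ u = x1 - x2 + x3 - x4 ∧
      |(x2 - x4) / 2 - K * u - Y i1 s1| ≤ γ ∧ |(x1 - x3) / 2 + K * u + Y i2 s2| ≤ γ ∧
      |-(x2 - x4) / 2 - K * u - Y i3 s3| ≤ γ ∧ |-(x1 - x3) / 2 + K * u + Y i4 s4| ≤ γ ∧
      V = F i1 s1 - F i2 s2 + F i3 s3 - F i4 s4 + (x1 - x3) * (x2 - x4) / 2 - K * u ^ 2 / 2 +
        m * A ∧ c ≤ V ∧ V ≤ A - c

/-- The height at abscissa `x` of the line through `P` and `Q`. -/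
noncomputable def lineH (P Q : ℂ) (x : ℝ) : ℝ :=
  P.im + (Q.im - P.im) * (x - P.re) / (Q.re - P.re)

/-- The diagram of a polygon whose vertex `i` has abscissa `h * X i`. -/
noncomputable def polyDiag {n : ℕ} [NeZero n] (z : ZMod n → ℂ) (h : ℝ) (X : ZMod n → ℤ) :
    Diag (ZMod n) where
  S := Finset.univ
  b := fun i => min (X i) (X (i + 1))
  e := fun i => max (X i) (X (i + 1))
  dir := fun i => decide (X i < X (i + 1))
  J := fun x => if x.2 = decide (X x.1 < X (x.1 + 1)) then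
      (x.1 + 1, !decide (X (x.1 + 1) < X (x.1 + 1 + 1)))
    else (x.1 - 1, decide (X (x.1 - 1) < X (x.1 - 1 + 1)))
  key := fun k i => lineH (z i) (z (i + 1)) (h * (k + 1 / 2))

end Pool.Agent.Lib.MP_5a3ebe_gt.Ap
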