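import Mathlib

/-! Sliced diagrams of plane curves, and the algebraic data attached to them. -/

namespace Pool.Agent.Lib.MP_5a3ebe_gt.Ap

open Classical

/-- Strands `s ∈ S` live in the slices `b s ≤ k < e s`; slice `k` lies between the walls `k` and
`k + 1`; `J` pairs the ends of strands; `key k` orders the strands of slice `k` by height. -/
structure Diag (ι : Type) where
  S : Finset ι
  b : ι → ℤ
  e : ι → ℤ
  J : ι × Bool → ι × Bool
  dir : ι → Bool
  key : ℤ → ι → ℝ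

namespace Diag

variable {ι : Type} (D : Diag ι)

def wall (x : ι × Bool) : ℤ := if x.2 then D.e x.1 else D.b x.1

@[simp] lemma wall_true (s : ι) : D.wall (s, true) = D.e s := rfl
@[simp] lemma wall_false (s : ι) : D.wall (s, false) = D.b s := rfl

def Al (k : ℤ) (s : ι) : Prop := s ∈ D.S ∧ D.b s ≤ k ∧ k < D.e s

def Cup (k : ℤ) (a c : ι) : Prop :=
  a ∈ D.S ∧ D.J (a, false) = (c, false) ∧ D.b a = k + 1 ∧ D.key (k + 1) a < D.key (k + 1) c

def Cap (k : ℤ) (s p : ι) : Prop :=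
  s ∈ D.S ∧ D.J (s, true) = (p, true) ∧ D.e s = k + 1 ∧ D.key k s < D.key k p

def Pass (k : ℤ) (s q : ι) : Prop :=
  s ∈ D.S ∧ D.J (s, true) = (q, false) ∧ D.e s = k + 1

def Quiet (k : ℤ) : Prop := ∀ s ∈ D.S, D.b s ≠ k + 1 ∧ D.e s ≠ k + 1

structure Good : Prop where
  lt : ∀ s ∈ D.S, D.b s < D.e s
  JS : ∀ s ∈ D.S, ∀ β, (D.J (s, β)).1 ∈ D.S
  JJ : ∀ s ∈ D.S, ∀ β, D.J (D.J (s, β)) = (s, β)
  Jne : ∀ s ∈ D.S, ∀ β, (D.J (s, β)).1 ≠ s
  Jw : ∀ s ∈ D.S, ∀ β, D.wall (D.J (s, β)) = D.wall (s, β)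
  Jdir : ∀ s ∈ D.S, ∀ β, D.dir (D.J (s, β)).1 = D.dir s ↔ (D.J (s, β)).2 ≠ β
  uniq : ∀ s ∈ D.S, ∀ t ∈ D.S, ∀ β β', D.wall (s, β) = D.wall (t, β') →
    (t, β') = (s, β) ∨ (t, β') = D.J (s, β)
  inj : ∀ k s t, D.Al k s → D.Al k t → D.key k s = D.key k t → s = t
  mono : ∀ k s t, D.Al k s → D.Al (k + 1) s → D.Al k t → D.Al (k + 1) t →
    (D.key k s < D.key k t ↔ D.key (k + 1) s < D.key (k + 1) t)
  pass : ∀ k s q t, D.Pass k s q → D.Al k t → D.Al (k + 1) t →
    (D.key k t < D.key k s ↔ D.key (k + 1) t < D.key (k + 1) q)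
  cup : ∀ k a c t, D.Cup k a c → D.Al (k + 1) t → t ≠ a → t ≠ c →
    D.key (k + 1) t < D.key (k + 1) a ∨ D.key (k + 1) c < D.key (k + 1) t
  cap : ∀ k s p t, D.Cap k s p → D.Al k t → t ≠ s → t ≠ p →
    D.key k t < D.key k s ∨ D.key k p < D.key k t

/-- Admissible level data. -/
structure Adm (lam : ℤ → ι → ℝ) (α : ℝ) : Prop where
  mono : ∀ k s t, D.Al k s → D.Al k t → D.key k s < D.key k t →
    lam (k + 1) t - lam k t ≤ lam (k + 1) s - lam k s
  cup : ∀ k a c, D.Cup k a c → lam (k + 1) c = lam (k + 1) a + α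
  cap : ∀ k s p, D.Cap k s p → lam (k + 1) s = lam (k + 1) p + α
  pass : ∀ k s q, D.Pass k s q → lam (k + 1) q = lam (k + 1) s

end Diag

abbrev F2 := ZMod 2

/-- `Sm` is obtained from `B` by cancelling the pair `u → v`. -/
def El {ι : Type} (B Sm : Matrix ι ι F2) (u v : ι) : Prop :=
  B u v = 1 ∧ ∀ x y, x ≠ u → x ≠ v → y ≠ u → y ≠ v → Sm x y = B x y + B x v * B u y

namespace Diag

variable {ι : Type} [Fintype ι] [DecidableEq ι] (D : Diag ι)

noncomputable def P (k : ℤ) : Matrix ι ι F2 := Matrix.diagonal fun s => if D.Al k s then 1 else 0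

structure Alg (d : ℤ → Matrix ι ι F2) : Prop where
  supp : ∀ k s t, d k s t ≠ 0 → D.Al k s ∧ D.Al k t ∧ D.dir s ≠ D.dir t
  sq : ∀ k, d k * d k = D.P k
  quiet : ∀ k, D.Quiet k → d (k + 1) = d k
  pass : ∀ k s q, D.Pass k s q → ∀ u v, d (k + 1) u v = d k (Equiv.swap s q u) (Equiv.swap s q v)
  cup : ∀ k a c, D.Cup k a c → El (d (k + 1)) (d k) a c ∧
    (∀ t, d (k + 1) a t ≠ 0 → t = c ∨ D.key (k + 1) t < D.key (k + 1) a) ∧
    (∀ t, d (k + 1) t c ≠ 0 → t = a ∨ D.key (k + 1) c < D.key (k + 1) t)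
  cap : ∀ k s p, D.Cap k s p → El (d k) (d (k + 1)) p s ∧
    (∀ t, d k p t ≠ 0 → t = s ∨ D.key k p < D.key k t) ∧
    (∀ t, d k t s ≠ 0 → t = p ∨ D.key k t < D.key k s)

def Pos (d : ℤ → Matrix ι ι F2) : Prop :=
  ∀ lam α, D.Adm lam α → ∀ k s t, d k s t ≠ 0 →
    lam k t ≤ lam k s + α ∧ lam (k + 1) t ≤ lam (k + 1) s + α

end Diag

namespace Diag

variable {ι : Type} {D : Diag ι}

lemma Cup.facts (G : D.Good) {k a c} (h : D.Cup k a c) :
    c ∈ D.S ∧ D.b c = k + 1 ∧ c ≠ a ∧ D.J (c, false) = (a, false) ∧ D.dir c ≠ D.dir a ∧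
      D.Al (k + 1) a ∧ D.Al (k + 1) c ∧ ¬ D.Al k a ∧ ¬ D.Al k c := by
  obtain ⟨ha, hJ, hb, -⟩ := h
  have h1 := G.JS a ha false
  have h2 := G.JJ a ha false
  have h3 := G.Jne a ha false
  have h4 := G.Jw a ha false
  have h5 := G.Jdir a ha false
  rw [hJ] at h1 h2 h3 h4 h5
  simp only [wall_false] at h4
  have := G.lt a ha
  have := G.lt c h1
  refine ⟨h1, by omega, h3, h2, by simpa using h5, ⟨ha, by omega, by omega⟩,
    ⟨h1, by omega, by omega⟩, fun h => by have := h.2.1; omega, fun h => by have := h.2.1; omega⟩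

lemma Cap.facts (G : D.Good) {k s p} (h : D.Cap k s p) :
    p ∈ D.S ∧ D.e p = k + 1 ∧ p ≠ s ∧ D.J (p, true) = (s, true) ∧ D.dir p ≠ D.dir s ∧
      D.Al k s ∧ D.Al k p ∧ ¬ D.Al (k + 1) s ∧ ¬ D.Al (k + 1) p := by
  obtain ⟨ha, hJ, hb, -⟩ := h
  have h1 := G.JS s ha true
  have h2 := G.JJ s ha true
  have h3 := G.Jne s ha true
  have h4 := G.Jw s ha true
  have h5 := G.Jdir s ha true
  rw [hJ] at h1 h2 h3 h4 h5
  simp only [wall_true] at h4
  have := G.lt s ha
  have := G.lt p h1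
  refine ⟨h1, by omega, h3, h2, by simpa using h5, ⟨ha, by omega, by omega⟩,
    ⟨h1, by omega, by omega⟩, fun h => by have := h.2.2; omega, fun h => by have := h.2.2; omega⟩

lemma Pass.facts (G : D.Good) {k s q} (h : D.Pass k s q) :
    q ∈ D.S ∧ D.b q = k + 1 ∧ q ≠ s ∧ D.J (q, false) = (s, true) ∧ D.dir q = D.dir s ∧
      D.Al k s ∧ D.Al (k + 1) q ∧ ¬ D.Al (k + 1) s ∧ ¬ D.Al k q := by
  obtain ⟨ha, hJ, hb⟩ := h
  have h1 := G.JS s ha true
  have h2 := G.JJ s ha true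
  have h3 := G.Jne s ha true
  have h4 := G.Jw s ha true
  have h5 := G.Jdir s ha true
  rw [hJ] at h1 h2 h3 h4 h5
  simp only [wall_true, wall_false] at h4
  have := G.lt s ha
  have := G.lt q h1
  refine ⟨h1, by omega, h3, h2, by simpa using h5, ⟨ha, by omega, by omega⟩,
    ⟨h1, by omega, by omega⟩, fun h => by have := h.2.2; omega, fun h => by have := h.2.1; omega⟩

/-- At a cup wall, the other strands pass through. -/
lemma Cup.other (G : D.Good) {k a c} (h : D.Cup k a c) {t} (ht : t ∈ D.S) (h1 : t ≠ a)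
    (h2 : t ≠ c) : D.b t ≠ k + 1 ∧ D.e t ≠ k + 1 := by
  obtain ⟨ha, hJ, hb, -⟩ := h
  constructor
  · intro e
    rcases G.uniq a ha t ht false false (by simp [hb, e]) with h | h
    · exact h1 (congrArg Prod.fst h)
    · rw [hJ] at h; exact h2 (congrArg Prod.fst h)
  · intro e
    rcases G.uniq a ha t ht false true (by simp [hb, e]) with h | h
    · simp at h
    · rw [hJ] at h; simp at h

lemma Cap.other (G : D.Good) {k s p} (h : D.Cap k s p) {t} (ht : t ∈ D.S) (h1 : t ≠ s)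
    (h2 : t ≠ p) : D.b t ≠ k + 1 ∧ D.e t ≠ k + 1 := by
  obtain ⟨ha, hJ, hb, -⟩ := h
  constructor
  · intro e
    rcases G.uniq s ha t ht true false (by simp [hb, e]) with h | h
    · simp at h
    · rw [hJ] at h; simp at h
  · intro e
    rcases G.uniq s ha t ht true true (by simp [hb, e]) with h | h
    · exact h1 (congrArg Prod.fst h)
    · rw [hJ] at h; exact h2 (congrArg Prod.fst h)

lemma Pass.other (G : D.Good) {k s q} (h : D.Pass k s q) {t} (ht : t ∈ D.S) (h1 : t ≠ s)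
    (h2 : t ≠ q) : D.b t ≠ k + 1 ∧ D.e t ≠ k + 1 := by
  obtain ⟨ha, hJ, hb⟩ := h
  constructor
  · intro e
    rcases G.uniq s ha t ht true false (by simp [hb, e]) with h | h
    · simp at h
    · rw [hJ] at h; exact h2 (congrArg Prod.fst h)
  · intro e
    rcases G.uniq s ha t ht true true (by simp [hb, e]) with h | h
    · exact h1 (congrArg Prod.fst h)
    · rw [hJ] at h; simp at h

lemma al_iff_of_ne {k t} (h : t ∈ D.S → D.b t ≠ k + 1 ∧ D.e t ≠ k + 1) :
    D.Al (k + 1) t ↔ D.Al k t := by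
  unfold Al
  constructor
  · rintro ⟨h1, h2, h3⟩
    have := h h1
    exact ⟨h1, by omega, by omega⟩
  · rintro ⟨h1, h2, h3⟩
    have := h h1
    exact ⟨h1, by omega, by omega⟩

lemma Cup.al (G : D.Good) {k a c} (h : D.Cup k a c) {t} (h1 : t ≠ a) (h2 : t ≠ c) :
    D.Al (k + 1) t ↔ D.Al k t := al_iff_of_ne fun ht => h.other G ht h1 h2

lemma Cap.al (G : D.Good) {k s p} (h : D.Cap k s p) {t} (h1 : t ≠ s) (h2 : t ≠ p) :
    D.Al (k + 1) t ↔ D.Al k t := al_iff_of_ne fun ht => h.other G ht h1 h2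

lemma Pass.al (G : D.Good) {k s q} (h : D.Pass k s q) {t} (h1 : t ≠ s) (h2 : t ≠ q) :
    D.Al (k + 1) t ↔ D.Al k t := al_iff_of_ne fun ht => h.other G ht h1 h2

lemma Quiet.al {k} (h : D.Quiet k) {t} : D.Al (k + 1) t ↔ D.Al k t :=
  al_iff_of_ne fun ht => h t ht

/-- A left end paired with a left end gives a cup. -/
lemma cup_of (G : D.Good) {k a c} (ha : a ∈ D.S) (hJ : D.J (a, false) = (c, false))
    (hb : D.b a = k + 1) : D.Cup k a c ∨ D.Cup k c a := by
  have h1 := G.JS a ha false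
  have h2 := G.JJ a ha false
  have h3 := G.Jne a ha false
  have h4 := G.Jw a ha false
  rw [hJ] at h1 h2 h3 h4
  simp only [wall_false] at h4 h1 h3
  have := G.lt a ha
  have := G.lt c h1
  rcases lt_trichotomy (D.key (k + 1) a) (D.key (k + 1) c) with h | h | h
  · exact Or.inl ⟨ha, hJ, hb, h⟩
  · exact absurd (G.inj _ _ _ ⟨ha, by omega, by omega⟩ ⟨h1, by omega, by omega⟩ h).symm h3
  · exact Or.inr ⟨h1, h2, by omega, h⟩

lemma cap_of (G : D.Good) {k a c} (ha : a ∈ D.S) (hJ : D.J (a, true) = (c, true))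
    (hb : D.e a = k + 1) : D.Cap k a c ∨ D.Cap k c a := by
  have h1 := G.JS a ha true
  have h2 := G.JJ a ha true
  have h3 := G.Jne a ha true
  have h4 := G.Jw a ha true
  rw [hJ] at h1 h2 h3 h4
  simp only [wall_true] at h4 h1 h3
  have := G.lt a ha
  have := G.lt c h1
  rcases lt_trichotomy (D.key k a) (D.key k c) with h | h | h
  · exact Or.inl ⟨ha, hJ, hb, h⟩
  · exact absurd (G.inj _ _ _ ⟨ha, by omega, by omega⟩ ⟨h1, by omega, by omega⟩ h).symm h3
  · exact Or.inr ⟨h1, h2, by omega, h⟩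

lemma event (G : D.Good) (k : ℤ) :
    D.Quiet k ∨ (∃ a c, D.Cup k a c) ∨ (∃ s p, D.Cap k s p) ∨ ∃ s q, D.Pass k s q := by
  by_cases hq : D.Quiet k
  · exact Or.inl hq
  right
  simp only [Quiet, not_forall, not_and_or, not_not] at hq
  obtain ⟨s, hs, h | h⟩ := hq
  · rcases hJ : D.J (s, false) with ⟨c, _ | _⟩
    · left
      rcases cup_of G hs hJ h with h | h
      · exact ⟨_, _, h⟩
      · exact ⟨_, _, h⟩
    · right; right
      have h1 := G.JS s hs false
      have h2 := G.JJ s hs false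
      have h4 := G.Jw s hs false
      rw [hJ] at h1 h2 h4
      exact ⟨c, s, h1, h2, by simpa [h] using h4⟩
  · rcases hJ : D.J (s, true) with ⟨c, _ | _⟩
    · right; right
      exact ⟨s, c, hs, hJ, h⟩
    · right; left
      rcases cap_of G hs hJ h with h | h
      · exact ⟨_, _, h⟩
      · exact ⟨_, _, h⟩

lemma key_ne (G : D.Good) {k s t} (hs : D.Al k s) (ht : D.Al k t) (h : s ≠ t) :
    D.key k s < D.key k t ∨ D.key k t < D.key k s :=
  lt_or_gt_of_ne fun e => h (G.inj _ _ _ hs ht e)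

/-! ### The vertical flip -/

def flip (D : Diag ι) : Diag ι := { D with key := fun k s => -D.key k s }

lemma flip_cup (G : D.Good) {k a c} : D.flip.Cup k a c ↔ D.Cup k c a := by
  constructor
  · rintro ⟨ha, hJ, hb, hk⟩
    rcases cup_of G ha hJ hb with h | h
    · have := h.2.2.2
      simp only [flip] at hk
      linarith
    · exact h
  · intro h
    obtain ⟨h1, h2, -, h4, -⟩ := h.facts G
    exact ⟨h1, h4, h2, by simpa [flip] using h.2.2.2⟩

lemma flip_cap (G : D.Good) {k a c} : D.flip.Cap k a c ↔ D.Cap k c a := by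
  constructor
  · rintro ⟨ha, hJ, hb, hk⟩
    rcases cap_of G ha hJ hb with h | h
    · have := h.2.2.2
      simp only [flip] at hk
      linarith
    · exact h
  · intro h
    obtain ⟨h1, h2, -, h4, -⟩ := h.facts G
    exact ⟨h1, h4, h2, by simpa [flip] using h.2.2.2⟩

lemma Good.flip (G : D.Good) : D.flip.Good where
  lt := G.lt
  JS := G.JS
  JJ := G.JJ
  Jne := G.Jne
  Jw := G.Jw
  Jdir := G.Jdir
  uniq := G.uniq
  inj := fun k s t hs ht h => G.inj k s t hs ht (by simpa [Diag.flip] using h)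
  mono := fun k s t h1 h2 h3 h4 => by simpa [Diag.flip] using G.mono k t s h3 h4 h1 h2
  pass := fun k s q t h h1 h2 => by
    have h0 : D.Pass k s q := h
    obtain ⟨-, -, -, -, -, a1, a2, a3, a4⟩ := h0.facts G
    have e1 := G.pass k s q t h h1 h2
    have n1 : t ≠ s := fun e => a3 (e ▸ h2)
    have n2 : t ≠ q := fun e => a4 (e ▸ h1)
    have k1 := key_ne G h1 a1 n1
    have k2 := key_ne G h2 a2 n2
    simp only [Diag.flip, neg_lt_neg_iff]
    constructor
    · intro h'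
      rcases k2 with k2 | k2
      · have := e1.2 k2; linarith
      · exact k2
    · intro h'
      rcases k1 with k1 | k1
      · have := e1.1 k1; linarith
      · exact k1
  cup := fun k a c t h h1 h2 h3 => by
    have := G.cup k c a t ((flip_cup G).1 h) h1 h3 h2
    simpa [Diag.flip, or_comm] using this
  cap := fun k a c t h h1 h2 h3 => by
    have := G.cap k c a t ((flip_cap G).1 h) h1 h3 h2
    simpa [Diag.flip, or_comm] using this

lemma Adm.flip (G : D.Good) {lam α} (h : D.Adm lam α) : D.flip.Adm (fun k s => -lam k s) α where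
  mono := fun k s t hs ht hk => by
    have := h.mono k t s ht hs (by simpa [Diag.flip] using hk)
    linarith
  cup := fun k a c hc => by
    have := h.cup k c a ((flip_cup G).1 hc)
    linarith
  cap := fun k a c hc => by
    have := h.cap k c a ((flip_cap G).1 hc)
    linarith
  pass := fun k s q hp => by
    have := h.pass k s q hp
    linarith

variable [Fintype ι] [DecidableEq ι]

lemma sys_of_flip (G : D.Good) {d} (hA : D.flip.Alg d) (hP : D.flip.Pos d) :
    D.Alg (fun k => (d k).transpose) ∧ D.Pos (fun k => (d k).transpose) := by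
  refine ⟨⟨?_, ?_, ?_, ?_, ?_, ?_⟩, ?_⟩
  · intro k s t h
    obtain ⟨h1, h2, h3⟩ := hA.supp k t s h
    exact ⟨h2, h1, fun e => h3 e.symm⟩
  · intro k
    rw [← Matrix.transpose_mul, hA.sq k]
    simp only [P, Matrix.diagonal_transpose]
    rfl
  · intro k h
    rw [hA.quiet k h]
  · intro k s q h u v
    exact hA.pass k s q h v u
  · intro k a c h
    obtain ⟨⟨e1, e2⟩, g1, g2⟩ := hA.cup k c a ((flip_cup G).2 h)
    refine ⟨⟨e1, fun x y h1 h2 h3 h4 => ?_⟩, fun t ht => ?_, fun t ht => ?_⟩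
    · simp only [Matrix.transpose_apply]
      rw [e2 y x h4 h3 h2 h1, mul_comm]
    · simpa [flip] using g2 t ht
    · simpa [flip] using g1 t ht
  · intro k s p h
    obtain ⟨⟨e1, e2⟩, g1, g2⟩ := hA.cap k p s ((flip_cap G).2 h)
    refine ⟨⟨e1, fun x y h1 h2 h3 h4 => ?_⟩, fun t ht => ?_, fun t ht => ?_⟩
    · simp only [Matrix.transpose_apply]
      rw [e2 y x h4 h3 h2 h1, mul_comm]
    · simpa [flip] using g2 t ht
    · simpa [flip] using g1 t ht
  · intro lam α h k s t ht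
    have := hP _ α (h.flip G) k t s ht
    constructor <;> linarith [this.1, this.2]

end Diag

end Pool.Agent.Lib.MP_5a3ebe_gt.Ap
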