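import Pool.Agent.Lib.MP_5a3ebe_gt.ApDefs

/-! Perturbation to general position and simplicity of separated polygons. -/

namespace Pool.Agent.Lib.MP_5a3ebe_gt.Ap

lemma exists_abscissae {n : ℕ} [NeZero n] (u : ZMod n → ℝ) {η : ℝ} (hη : 0 < η) :
    ∃ x : ZMod n → ℝ, (∀ i, |x i - u i| ≤ η) ∧ (∀ i j, x i = x j → i = j) ∧
      ∃ h : ℝ, 0 < h ∧ ∀ i, ∃ m : ℤ, x i = h * m := by
  have hn : (0 : ℝ) < n := by exact_mod_cast Nat.pos_of_ne_zero (NeZero.ne n)
  have hh : 0 < η / n := by positivity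
  refine ⟨fun i => η / n * ((n * ⌊u i / η⌋ + i.val : ℤ) : ℝ), fun i => ?_, fun i j hij => ?_,
    η / n, hh, fun i => ⟨_, rfl⟩⟩
  · have h1 := Int.floor_le (u i / η)
    have h2 := Int.lt_floor_add_one (u i / η)
    have h3 : (i.val : ℝ) < n := by exact_mod_cast ZMod.val_lt i
    have h4 : (0 : ℝ) ≤ i.val := by positivity
    rw [le_div_iff₀ hη] at h1
    rw [div_lt_iff₀ hη] at h2
    have h5 : η / n * ((n * ⌊u i / η⌋ + i.val : ℤ) : ℝ) = ⌊u i / η⌋ * η + η / n * i.val := by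
      push_cast
      field_simp
    have h6 : η / n * i.val ≤ η := by
      rw [div_mul_eq_mul_div, div_le_iff₀ hn]
      exact mul_le_mul_of_nonneg_left h3.le hη.le
    have h7 : 0 ≤ η / n * i.val := by positivity
    beta_reduce
    rw [h5, abs_le]
    constructor <;> linarith
  · have h1 := Int.cast_injective (mul_left_cancel₀ hh.ne' hij)
    have h2 := congrArg (fun k : ℤ => (k : ZMod n)) h1
    simpa using h2

lemma exists_perturb {n : ℕ} [NeZero n] (w : ZMod n → ℂ) {η : ℝ} (hη : 0 < η) :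
    ∃ z : ZMod n → ℂ, (∀ i, ‖z i - w i‖ ≤ η) ∧ GenPos z ∧ (∀ i j, (z i).re = (z j).re → i = j) ∧
      ∃ h : ℝ, 0 < h ∧ ∀ i, ∃ m : ℤ, (z i).re = h * m := by
  obtain ⟨x, h1, h2, h3⟩ := exists_abscissae (fun i => (w i).re) (half_pos hη)
  obtain ⟨M, hM⟩ := (Set.finite_range fun i => x i ^ 2).bddAbove
  have hM' : ∀ i, x i ^ 2 ≤ M := fun i => hM ⟨i, rfl⟩
  have hM0 : 0 ≤ M := (sq_nonneg _).trans (hM' 0)
  have hε : 0 < η / 2 / (M + 1) := by positivity
  obtain ⟨τ, hτ, hτ'⟩ := (Set.Ioo_infinite hε).exists_notMem_finite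
    (Set.finite_range fun p : ZMod n × ZMod n × ZMod n =>
      ((x p.2.2 - x p.1) * ((w p.2.1).im - (w p.1).im) -
        (x p.2.1 - x p.1) * ((w p.2.2).im - (w p.1).im)) /
        ((x p.2.1 - x p.1) * (x p.2.2 - x p.1) * (x p.2.2 - x p.2.1)))
  refine ⟨fun i => ⟨x i, (w i).im + τ * x i ^ 2⟩, fun i => ?_, fun i j k hij hjk hik he => ?_,
    h2, h3⟩
  · refine (Complex.norm_le_abs_re_add_abs_im _).trans ?_
    have a1 := h1 i
    have a2 : τ * (M + 1) < η / 2 := (lt_div_iff₀ (by positivity)).1 hτ.2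
    have a3 : τ * x i ^ 2 ≤ τ * (M + 1) :=
      mul_le_mul_of_nonneg_left (by linarith [hM' i]) hτ.1.le
    have a4 : 0 ≤ τ * x i ^ 2 := mul_nonneg hτ.1.le (sq_nonneg _)
    simp only [Complex.sub_re, Complex.sub_im, add_sub_cancel_left]
    rw [abs_of_nonneg a4]
    linarith
  · apply hτ'
    refine ⟨(i, j, k), ?_⟩
    have a1 : x j - x i ≠ 0 := sub_ne_zero.2 fun h => hij (h2 _ _ h).symm
    have a2 : x k - x i ≠ 0 := sub_ne_zero.2 fun h => hik (h2 _ _ h).symm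
    have a3 : x k - x j ≠ 0 := sub_ne_zero.2 fun h => hjk (h2 _ _ h).symm
    simp only at he ⊢
    rw [div_eq_iff (mul_ne_zero (mul_ne_zero a1 a2) a3)]
    linear_combination -he

lemma eq_of_mem_segments {A B C P : ℂ} (h1 : P ∈ segment ℝ A B) (h2 : P ∈ segment ℝ B C)
    (h : (B.re - A.re) * (C.im - A.im) ≠ (C.re - A.re) * (B.im - A.im)) : P = B := by
  obtain ⟨a, b, ha, hb, hab, rfl⟩ := h1
  obtain ⟨c, e, hc, he, hce, h3⟩ := h2
  have h4 := congrArg Complex.re h3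
  have h5 := congrArg Complex.im h3
  simp only [Complex.add_re, Complex.add_im, Complex.smul_re, Complex.smul_im,
    smul_eq_mul] at h4 h5
  obtain rfl : b = 1 - a := by linarith
  obtain rfl : c = 1 - e := by linarith
  have h6 : a = 0 := by
    by_contra h0
    apply h
    apply mul_left_cancel₀ h0
    linear_combination (C.im - B.im) * h4 - (C.re - B.re) * h5
  simp [h6]

lemma simple_of_sep {n : ℕ} (hn : 3 ≤ n) {z : ZMod n → ℂ} (hg : GenPos z) {r : ℝ}
    (h1 : ∀ i, ‖z (i + 1) - z i‖ < r)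
    (h2 : ∀ i j, i ≠ j → j ≠ i + 1 → i ≠ j + 1 → r ≤ ‖z i - z j‖) : SimplePoly z := by
  have : Fact (1 < n) := ⟨by omega⟩
  have e1 : ∀ i : ZMod n, i ≠ i + 1 := fun i h => by simp at h
  have e2 : ∀ i : ZMod n, i ≠ i + 1 + 1 := fun i h => by
    have h3 : ((2 : ℕ) : ZMod n) = 0 := by
      push_cast
      linear_combination -h
    have := Nat.le_of_dvd two_pos ((ZMod.natCast_eq_zero_iff 2 n).1 h3)
    omega
  intro i j P hi hj
  by_cases a1 : i = j
  · exact Or.inl a1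
  by_cases a2 : j = i + 1
  · subst a2
    exact Or.inr (Or.inl ⟨rfl, eq_of_mem_segments hi hj (hg _ _ _ (e1 _) (e1 _) (e2 _))⟩)
  by_cases a3 : i = j + 1
  · subst a3
    exact Or.inr (Or.inr ⟨rfl, eq_of_mem_segments hj hi (hg _ _ _ (e1 _) (e1 _) (e2 _))⟩)
  exfalso
  have b1 := h2 i j a1 a2 a3
  have b2 := h2 (i + 1) (j + 1) (by simpa using a1) (by simpa using a2) (by simpa using a3)
  have b3 := dist_add_dist_of_mem_segment hi
  have b4 := dist_add_dist_of_mem_segment hj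
  have b5 := h1 i
  have b6 := h1 j
  have b7 := dist_triangle_right (z i) (z j) P
  have b8 := dist_triangle_left (z (i + 1)) (z (j + 1)) P
  rw [← dist_eq_norm] at b1 b2
  rw [← dist_eq_norm, dist_comm] at b5 b6
  linarith

end Pool.Agent.Lib.MP_5a3ebe_gt.Ap
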