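import Pool.Agent.Lib.MP_5a3ebe_gt.ApDefs

/-! A point of odd crossing parity far from a two-coloured closed polygon. -/

namespace Pool.Agent.Lib.MP_5a3ebe_gt.Ap

open Classical in
lemma odd_card_changes (f : ℤ → Prop) {p q : ℤ} (h : p ≤ q) :
    Odd ((Finset.Ico p q).filter fun v => ¬ (f v ↔ f (v + 1))).card ↔ ¬ (f p ↔ f q) := by
  induction q, h using Int.leInduction with
  | base => simp
  | succ q hq ih =>
    rw [← Finset.insert_Ico_right_eq_Ico_add_one hq, Finset.filter_insert]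
    split_ifs with h1
    · rw [ih]
      tauto
    · rw [Finset.card_insert_of_notMem (by simp), Nat.odd_add_one, ih]
      tauto

lemma cross_iff {A B : ℂ} {x : ℝ} (hA : A.re ≠ x) (hB : B.re ≠ x) :
    (∃ X ∈ segment ℝ A B, X.re = x) ↔ ¬ (A.re < x ↔ B.re < x) := by
  constructor
  · rintro ⟨X, ⟨a, b, ha, hb, hab, rfl⟩, h⟩ h'
    simp only [Complex.add_re, Complex.smul_re, smul_eq_mul] at h
    have h0 : a * (A.re - x) + b * (B.re - x) = 0 := by linear_combination h - x * hab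
    rcases lt_or_gt_of_ne hA with h1 | h1
    · have h2 := h'.1 h1
      have h3 : a * (A.re - x) ≤ 0 := mul_nonpos_of_nonneg_of_nonpos ha (by linarith)
      have h4 : b * (B.re - x) ≤ 0 := mul_nonpos_of_nonneg_of_nonpos hb (by linarith)
      have h5 : a = 0 := (mul_eq_zero.1 (by linarith : a * (A.re - x) = 0)).resolve_right
        (sub_ne_zero.2 hA)
      have h6 : b = 0 := (mul_eq_zero.1 (by linarith : b * (B.re - x) = 0)).resolve_right
        (sub_ne_zero.2 hB)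
      linarith
    · have h2 : x ≤ B.re := not_lt.1 fun h => not_lt.2 h1.le (h'.2 h)
      have h3 : 0 ≤ a * (A.re - x) := mul_nonneg ha (by linarith)
      have h4 : 0 ≤ b * (B.re - x) := mul_nonneg hb (by linarith)
      have h5 : a = 0 := (mul_eq_zero.1 (by linarith : a * (A.re - x) = 0)).resolve_right
        (sub_ne_zero.2 hA)
      have h6 : b = 0 := (mul_eq_zero.1 (by linarith : b * (B.re - x) = 0)).resolve_right
        (sub_ne_zero.2 hB)
      linarith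
  · intro h
    have h1 : x ∈ segment ℝ A.re B.re := by
      rw [segment_eq_uIcc, Set.mem_uIcc]
      by_cases h2 : A.re < x
      · exact Or.inl ⟨h2.le, not_lt.1 fun h3 => h ⟨fun _ => h3, fun _ => h2⟩⟩
      · refine Or.inr ⟨?_, not_lt.1 h2⟩
        by_contra h3
        exact h ⟨fun h4 => absurd h4 h2, fun h4 => absurd h4.le h3⟩
    obtain ⟨a, b, ha, hb, hab, h2⟩ := h1
    exact ⟨_, ⟨a, b, ha, hb, hab, rfl⟩, by simpa using h2⟩

lemma parity_walk {F₁ F₂ : ℝ → ℝ → Prop} {N₁ N₂ : ℝ → ℕ} {ρ : ℝ} (hρ : 0 < ρ)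
    (m1 : ∀ y y', |y - y'| ≤ ρ → F₁ (2 * ρ) y → F₁ ρ y' ∧ N₁ y' = N₁ y)
    (m2 : ∀ y y', |y - y'| ≤ ρ → F₂ (2 * ρ) y → F₂ ρ y' ∧ N₂ y' = N₂ y)
    (hcov : ∀ y, F₁ (2 * ρ) y ∨ F₂ (2 * ρ) y) {a b : ℝ} (ha1 : N₁ a = 0) (ha2 : N₂ a = 0)
    (hb1 : Odd (N₁ b)) (hb2 : Odd (N₂ b)) : ∃ y, F₁ ρ y ∧ F₂ ρ y ∧ Odd (N₁ y + N₂ y) := by
  by_contra hcon
  push Not at hcon
  have h0 : ∀ y : ℝ, |y - y| ≤ ρ := fun y => by simpa using hρ.le
  have step : ∀ y y', |y - y'| ≤ ρ → (F₁ ρ y → Odd (N₁ y)) ∧ (F₂ ρ y → Odd (N₂ y)) →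
      (F₁ ρ y' → Odd (N₁ y')) ∧ (F₂ ρ y' → Odd (N₂ y')) := by
    intro y y' hy ⟨h1, h2⟩
    rcases hcov y with h | h
    · obtain ⟨h3, h4⟩ := m1 y y' hy h
      have h5 : Odd (N₁ y') := h4 ▸ h1 (m1 y y (h0 y) h).1
      refine ⟨fun _ => h5, fun h6 => ?_⟩
      have h7 := hcon y' h3 h6
      rw [Nat.odd_iff] at h5 h7 ⊢
      omega
    · obtain ⟨h3, h4⟩ := m2 y y' hy h
      have h5 : Odd (N₂ y') := h4 ▸ h2 (m2 y y (h0 y) h).1
      refine ⟨fun h6 => ?_, fun _ => h5⟩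
      have h7 := hcon y' h6 h3
      rw [Nat.odd_iff] at h5 h7 ⊢
      omega
  obtain ⟨k, hk⟩ := exists_nat_ge (|b - a| / ρ)
  have hk1 : (0 : ℝ) < k + 1 := by positivity
  have all : ∀ j : ℕ, (F₁ ρ (b + j * ((a - b) / (k + 1))) → Odd (N₁ (b + j * ((a - b) / (k + 1))))) ∧
      (F₂ ρ (b + j * ((a - b) / (k + 1))) → Odd (N₂ (b + j * ((a - b) / (k + 1))))) := by
    intro j
    induction j with
    | zero => simpa using ⟨fun _ => hb1, fun _ => hb2⟩
    | succ j ih =>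
      refine step _ _ ?_ ih
      have e : b + j * ((a - b) / (k + 1)) - (b + (j + 1 : ℕ) * ((a - b) / (k + 1))) =
          (b - a) / (k + 1) := by
        push_cast
        ring
      rw [e, abs_div, abs_of_pos hk1, div_le_iff₀ hk1]
      rw [div_le_iff₀ hρ] at hk
      linarith
  have h1 := all (k + 1)
  have e : b + (k + 1 : ℕ) * ((a - b) / (k + 1)) = a := by
    push_cast
    field_simp
    ring
  rw [e, ha1, ha2] at h1
  rcases hcov a with h | h
  · simpa using h1.1 (m1 a a (h0 a) h).1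
  · simpa using h1.2 (m2 a a (h0 a) h).1

/-- All edges with index in `s` are at distance at least `r` from `c`. -/
def FarFrom (z : ℤ → ℂ) (s : Finset ℤ) (r : ℝ) (c : ℂ) : Prop :=
  ∀ v ∈ s, ∀ P ∈ segment ℝ (z v) (z (v + 1)), r ≤ ‖P - c‖

open Classical in
/-- The number of edges with index in `s` passing below `c`. -/
noncomputable def belowCount (z : ℤ → ℂ) (s : Finset ℤ) (c : ℂ) : ℕ :=
  (s.filter fun v => Below (z v) (z (v + 1)) c).card

lemma FarFrom.move {z : ℤ → ℂ} {s : Finset ℤ} {ρ x y y' : ℝ} (hρ : 0 < ρ) (hy : |y - y'| ≤ ρ)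
    (h : FarFrom z s (2 * ρ) ⟨x, y⟩) :
    FarFrom z s ρ ⟨x, y'⟩ ∧ belowCount z s ⟨x, y'⟩ = belowCount z s ⟨x, y⟩ := by
  constructor
  · intro v hv P hP
    have h1 := h v hv P hP
    have h2 : ‖(⟨x, y'⟩ : ℂ) - ⟨x, y⟩‖ ≤ ρ := by
      refine (Complex.norm_le_abs_re_add_abs_im _).trans ?_
      simpa [abs_sub_comm] using hy
    linarith [norm_sub_le_norm_sub_add_norm_sub P ⟨x, y'⟩ ⟨x, y⟩]
  · classical
    unfold belowCount
    congr 1
    refine Finset.filter_congr fun v hv => exists_congr fun X => and_congr_right fun hX =>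
      and_congr_right fun h1 => ?_
    have h2 := (h v hv X hX).trans (Complex.norm_le_abs_re_add_abs_im _)
    simp only [Complex.sub_re, Complex.sub_im] at h1 h2 ⊢
    rw [h1, sub_self, abs_zero, zero_add] at h2
    obtain ⟨h3, h4⟩ := abs_le.1 hy
    rcases le_abs.1 h2 with h5 | h5 <;> constructor <;> intro <;> linarith

lemma abs_im_le_of_mem {A B X : ℂ} {M : ℝ} (hA : ‖A‖ ≤ M) (hB : ‖B‖ ≤ M)
    (hX : X ∈ segment ℝ A B) : |X.im| ≤ M := by
  refine (Complex.abs_im_le_norm X).trans ?_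
  simpa using (convex_closedBall (0 : ℂ) M).segment_subset (by simpa using hA) (by simpa using hB) hX

lemma belowCount_low {z : ℤ → ℂ} {M : ℝ} (hM : ∀ v, ‖z v‖ ≤ M) (s : Finset ℤ) (x : ℝ) {y : ℝ}
    (hy : y ≤ -M) : belowCount z s ⟨x, y⟩ = 0 := by
  classical
  unfold belowCount
  rw [Finset.card_eq_zero, Finset.filter_eq_empty_iff]
  rintro v - ⟨X, hX, -, h⟩
  have := (abs_le.1 (abs_im_le_of_mem (hM _) (hM _) hX)).1
  simp only at h
  linarith

lemma belowCount_high {z : ℤ → ℂ} {M : ℝ} (hM : ∀ v, ‖z v‖ ≤ M) {x : ℝ} (hx : ∀ v, (z v).re ≠ x)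
    {p q : ℤ} (hpq : p ≤ q) (h : ¬ ((z p).re < x ↔ (z q).re < x)) {y : ℝ} (hy : M < y) :
    Odd (belowCount z (Finset.Ico p q) ⟨x, y⟩) := by
  have h1 := (odd_card_changes (fun v => (z v).re < x) hpq).2 h
  unfold belowCount
  convert h1 using 3 with v
  rw [← cross_iff (hx _) (hx _)]
  refine exists_congr fun X => and_congr_right fun hX => and_iff_left ?_
  exact ((abs_le.1 (abs_im_le_of_mem (hM _) (hM _) hX)).2).trans_lt hy

lemma exists_inside {z : ℤ → ℂ} {M ρ x : ℝ} (hρ : 0 < ρ) (hM : ∀ v, ‖z v‖ ≤ M)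
    (hx : ∀ v, (z v).re ≠ x) {p q r : ℤ} (hpq : p ≤ q) (hqr : q ≤ r) (hp : (z p).re < x)
    (hq : x < (z q).re) (hr : (z r).re < x)
    (hcov : ∀ y, FarFrom z (Finset.Ico p q) (2 * ρ) ⟨x, y⟩ ∨
      FarFrom z (Finset.Ico q r) (2 * ρ) ⟨x, y⟩) :
    ∃ y, |y| ≤ M ∧ FarFrom z (Finset.Ico p r) ρ ⟨x, y⟩ ∧
      Odd (belowCount z (Finset.Ico p r) ⟨x, y⟩) := by
  have h1 : ¬ ((z p).re < x ↔ (z q).re < x) := fun h => not_lt.2 hq.le (h.1 hp)
  have h2 : ¬ ((z q).re < x ↔ (z r).re < x) := fun h => not_lt.2 hq.le (h.2 hr)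
  obtain ⟨y, h3, h4, h5⟩ := parity_walk (F₁ := fun ρ y => FarFrom z (Finset.Ico p q) ρ ⟨x, y⟩)
    (F₂ := fun ρ y => FarFrom z (Finset.Ico q r) ρ ⟨x, y⟩)
    (N₁ := fun y => belowCount z (Finset.Ico p q) ⟨x, y⟩)
    (N₂ := fun y => belowCount z (Finset.Ico q r) ⟨x, y⟩) hρ
    (fun _ _ hy h => h.move hρ hy) (fun _ _ hy h => h.move hρ hy) hcov
    (belowCount_low hM _ x le_rfl) (belowCount_low hM _ x le_rfl)
    (belowCount_high hM hx hpq h1 (lt_add_one M)) (belowCount_high hM hx hqr h2 (lt_add_one M))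
  refine ⟨y, abs_le.2 ⟨?_, ?_⟩, fun v hv => ?_, ?_⟩
  · by_contra h
    rw [belowCount_low hM _ x (not_le.1 h).le, belowCount_low hM _ x (not_le.1 h).le] at h5
    simp at h5
  · by_contra h
    exact Nat.not_odd_iff_even.2 ((belowCount_high hM hx hpq h1 (not_le.1 h)).add_odd
      (belowCount_high hM hx hqr h2 (not_le.1 h))) h5
  · rw [Finset.mem_Ico] at hv
    by_cases h : v < q
    · exact h3 v (Finset.mem_Ico.2 ⟨hv.1, h⟩)
    · exact h4 v (Finset.mem_Ico.2 ⟨not_lt.1 h, hv.2⟩)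
  · classical
    unfold belowCount at h5 ⊢
    rwa [← Finset.Ico_union_Ico_eq_Ico hpq hqr, Finset.filter_union, Finset.card_union_of_disjoint
      (Finset.disjoint_filter_filter (Finset.Ico_disjoint_Ico_consecutive p q r))]

lemma ncard_below {n : ℕ} [NeZero n] (z : ZMod n → ℂ) (p : ℤ) (c : ℂ) :
    Set.ncard {i : ZMod n | Below (z i) (z (i + 1)) c} =
      belowCount (fun v : ℤ => z v) (Finset.Ico p (p + n)) c := by
  have hn : (0 : ℤ) < n := by exact_mod_cast Nat.pos_of_ne_zero (NeZero.ne n)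
  unfold belowCount
  rw [← Set.ncard_coe_finset, ← Set.InjOn.ncard_image (f := fun v : ℤ => (v : ZMod n))]
  · congr 1
    ext i
    simp only [Set.mem_ofPred_eq, Finset.coe_filter, Finset.mem_Ico, Set.mem_image, Int.cast_add,
      Int.cast_one]
    constructor
    · intro h
      obtain ⟨k, hk⟩ : ∃ k : ℕ, k = (i - (p : ZMod n)).val := ⟨_, rfl⟩
      have e : ((p + (k : ℤ) : ℤ) : ZMod n) = i := by simp [hk]
      have e' : k < n := hk ▸ ZMod.val_lt _
      exact ⟨p + (k : ℤ), ⟨⟨by omega, by omega⟩, by rwa [e]⟩, e⟩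
    · rintro ⟨v, ⟨-, h⟩, rfl⟩
      exact h
  · intro a ha b hb hab
    simp only [Finset.coe_filter, Finset.mem_Ico, Set.mem_ofPred_eq] at ha hb
    have h1 := (ZMod.intCast_eq_intCast_iff_dvd_sub a b n).1 hab
    have h2 := Int.eq_zero_of_abs_lt_dvd h1 (abs_lt.2 ⟨by omega, by omega⟩)
    omega

end Pool.Agent.Lib.MP_5a3ebe_gt.Ap
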