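import Pool.Agent.Lib.MP_5a3ebe_gt.ApModelA
import Pool.Agent.Lib.MP_5a3ebe_gt.ApModelB
import Pool.Agent.Lib.MP_5a3ebe_gt.ApModelC

/-! Every Jordan curve has good polygonal models. -/

namespace Pool.Agent.Lib.MP_5a3ebe_gt.Ap

lemma exists_slack {ι : Type} [Finite ι] (P : ι → Prop) (f : ι → ℝ) (h : ∀ i, P i → 0 < f i) :
    ∃ s : ℝ, 0 < s ∧ ∀ i, P i → s ≤ f i := by
  have h1 : ∀ᶠ s in nhdsWithin (0 : ℝ) (Set.Ioi 0), ∀ i, P i → s ≤ f i := by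
    refine Filter.eventually_all.2 fun i => ?_
    by_cases hi : P i
    · exact ((eventually_le_nhds (h i hi)).filter_mono nhdsWithin_le_nhds).mono fun _ h _ => h
    · exact Filter.Eventually.of_forall fun _ h => absurd h hi
  obtain ⟨s, h2, h3⟩ := (h1.and self_mem_nhdsWithin).exists
  exact ⟨s, h3, h2⟩

lemma Chain.exists_index {G : ℝ → ℂ} {κ δ : ℝ} {n : ℕ} {t : ℤ → ℝ} (h : Chain G κ δ n t)
    (a : ℝ) : ∃ p : ℤ, t (p - 1) < a ∧ a ≤ t p := by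
  have h1 := h.shift 0 ⌈a - t 0⌉
  have h2 := h.shift 0 (⌊a - t 0⌋ - 1)
  obtain ⟨p, h3, h4⟩ := Int.exists_least_of_bdd (P := fun p => a ≤ t p)
    ⟨0 + (⌊a - t 0⌋ - 1) * n, fun z hz => by
      refine (h.strictMono.lt_iff_lt.1 ?_).le
      rw [h2]
      push_cast
      linarith [Int.floor_le (a - t 0)]⟩
    ⟨_, by rw [h1]; linarith [Int.le_ceil (a - t 0)]⟩
  refine ⟨p, not_le.1 fun h5 => ?_, h3⟩
  have := h4 _ h5
  omega

lemma Chain.val_cast {G : ℝ → ℂ} (hG : IsLoop G) {κ δ : ℝ} {n : ℕ} [NeZero n] {t : ℤ → ℝ}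
    (h : Chain G κ δ n t) (v : ℤ) : G (t ((v : ZMod n).val : ℕ)) = G (t v) := by
  rw [ZMod.val_intCast, ← hG.per _ (v / n), ← h.shift, Int.emod_add_ediv_mul]

lemma arcs_apart {G : ℝ → ℂ} (hG : IsLoop G) {κ w a b s s' : ℝ} (hκ : κ ≤ 1 / 8)
    (hw : ∀ s t, |s - t| ≤ κ → ‖G s - G t‖ ≤ w) (h1 : a ≤ s) (h2 : s ≤ b) (h3 : b ≤ s')
    (h4 : s' ≤ a + 1) {m : ℤ} (hm : |s - s' - m| ≤ κ) : ‖G s - G a‖ ≤ w ∨ ‖G s - G b‖ ≤ w := by
  obtain ⟨h5, h6⟩ := abs_le.1 hm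
  have h7 : (-2 : ℝ) < m := by linarith
  have h8 : (m : ℝ) < 1 := by linarith
  have h9 : -2 < m := by exact_mod_cast h7
  have h10 : m < 1 := by exact_mod_cast h8
  have h11 : m = -1 ∨ m = 0 := by omega
  rcases h11 with rfl | rfl
  · push_cast at h5 h6
    exact Or.inl (hw _ _ (abs_le.2 ⟨by linarith, by linarith⟩))
  · push_cast at h5 h6
    exact Or.inr (hw _ _ (abs_le.2 ⟨by linarith, by linarith⟩))

lemma exists_rep {n : ℕ} [NeZero n] (u : ℤ) (j : ZMod n) :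
    ∃ v : ℤ, u ≤ v ∧ v < u + n ∧ (v : ZMod n) = j := by
  obtain ⟨k, hk⟩ : ∃ k : ℕ, k = (j - (u : ZMod n)).val := ⟨_, rfl⟩
  have e' : k < n := hk ▸ ZMod.val_lt _
  exact ⟨u + (k : ℤ), by omega, by omega, by simp [hk]⟩

lemma norm_sub_le_three (a b c d : ℂ) : ‖a - d‖ ≤ ‖a - b‖ + ‖b - c‖ + ‖d - c‖ := by
  have h1 := norm_sub_le_norm_sub_add_norm_sub a b d
  have h2 := norm_sub_le_norm_sub_add_norm_sub b c d
  rw [norm_sub_rev c d] at h2
  linarith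

/-- The perturbed minimal chain. -/
lemma exists_polygon {G : ℝ → ℂ} (hG : IsLoop G) {κ δ : ℝ} (hκ : 0 < κ) (hκ' : κ ≤ 1 / 8)
    (hδ : 0 < δ) (hμ : ∀ s t, ‖G s - G t‖ ≤ δ → ∃ m : ℤ, |s - t - m| ≤ κ) :
    ∃ (n : ℕ) (_ : NeZero n) (t : ℤ → ℝ) (z : ZMod n → ℂ), Chain G κ δ n t ∧ 3 ≤ n ∧
      SimplePoly z ∧ GenPos z ∧ (∀ i j, (z i).re = (z j).re → i = j) ∧
      (∃ h : ℝ, 0 < h ∧ ∀ i, ∃ m : ℤ, (z i).re = h * m) ∧
      (∀ v : ℤ, ‖z v - G (t v)‖ ≤ δ / 4) ∧ (∀ i, ‖z (i + 1) - z i‖ ≤ 2 * δ) ∧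
      ∀ i j, i ≠ j → j ≠ i + 1 → i ≠ j + 1 → δ ≤ ‖z i - z j‖ := by
  obtain ⟨n, t, ht, hmin⟩ := exists_min_chain hG hκ hκ' hδ hμ
  have hn := ht.eight_le hκ'
  have : NeZero n := ⟨by omega⟩
  obtain ⟨w, hw⟩ : ∃ w : ZMod n → ℂ, ∀ v : ℤ, w v = G (t v) :=
    ⟨fun i => G (t (i.val : ℕ)), ht.val_cast hG⟩
  have h1 : ∀ i, ‖w (i + 1) - w i‖ ≤ δ := fun i => by
    obtain ⟨v, rfl⟩ := ZMod.intCast_surjective i
    have := (ht.2 v).2.2
    rwa [← hw, ← hw, Int.cast_add, Int.cast_one] at this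
  obtain ⟨s, hs, h2⟩ := exists_slack
    (fun p : ZMod n × ZMod n => p.1 ≠ p.2 ∧ p.2 ≠ p.1 + 1 ∧ p.1 ≠ p.2 + 1)
    (fun p => ‖w p.1 - w p.2‖ - δ) (by
      rintro ⟨i, j⟩ ⟨a1, a2, a3⟩
      obtain ⟨u, rfl⟩ := ZMod.intCast_surjective i
      obtain ⟨v, b1, b2, rfl⟩ := exists_rep u j
      have c1 : v ≠ u := fun h => a1 (by rw [h])
      have c2 : v ≠ u + 1 := fun h => a2 (by rw [h]; simp)
      have c3 : v ≠ u + n - 1 := fun h => a3 (by rw [h]; simp)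
      have := hmin u v (by omega) (by omega)
      simp only [hw]
      rw [norm_sub_rev]
      linarith)
  have hη : 0 < min (s / 5) (δ / 4) := lt_min (by linarith) (by linarith)
  have e1 := min_le_left (s / 5) (δ / 4)
  have e2 := min_le_right (s / 5) (δ / 4)
  obtain ⟨z, z1, z2, z3, z4⟩ := exists_perturb w hη
  have h3 : ∀ i, ‖z (i + 1) - z i‖ < δ + 3 * min (s / 5) (δ / 4) := fun i => by
    linarith [norm_sub_le_three (z (i + 1)) (w (i + 1)) (w i) (z i), z1 i, z1 (i + 1), h1 i]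
  have h4 : ∀ i j, i ≠ j → j ≠ i + 1 → i ≠ j + 1 →
      δ + 3 * min (s / 5) (δ / 4) ≤ ‖z i - z j‖ := fun i j a1 a2 a3 => by
    have a4 := h2 (i, j) ⟨a1, a2, a3⟩
    have a5 := norm_sub_le_three (w i) (z i) (z j) (w j)
    rw [norm_sub_rev (w i) (z i), norm_sub_rev (w j)] at a5
    simp only at a4
    linarith [z1 i, z1 j]
  exact ⟨n, this, t, z, ht, by omega, simple_of_sep (by omega) z2 h3 h4, z2, z3, z4,
    fun v => by rw [← hw]; exact (z1 _).trans e2, fun i => by linarith [h3 i],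
    fun i j a1 a2 a3 => by linarith [h4 i j a1 a2 a3]⟩

lemma Chain.loc {G : ℝ → ℂ} {κ δ d : ℝ} {n : ℕ} {t : ℤ → ℝ} (ht : Chain G κ δ n t)
    (hκ : κ ≤ 1 / 8) (hd : ∀ s t, |s - t| ≤ κ → ‖G s - G t‖ ≤ d / 2) (hδ : δ ≤ d)
    {z : ZMod n → ℂ} (hz : ∀ v : ℤ, ‖z v - G (t v)‖ ≤ δ / 4) {a b : ℤ} (hab : a ≤ b)
    (h : |t a - t b| ≤ κ) : b - a < n ∧ ∀ v : ℤ, a ≤ v → v ≤ b → ‖z v - z a‖ ≤ d := by
  obtain ⟨h1, h2⟩ := abs_le.1 h
  constructor
  · have : b < a + n := ht.strictMono.lt_iff_lt.1 (by rw [ht.1]; linarith)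
    omega
  · intro v h3 h4
    have h5 := ht.strictMono.monotone h3
    have h6 := ht.strictMono.monotone h4
    have h7 := hd (t v) (t a) (abs_le.2 ⟨by linarith, by linarith⟩)
    linarith [norm_sub_le_three (z v) (G (t v)) (G (t a)) (z a), hz v, hz a]

lemma IsLoop.exists_model {G : ℝ → ℂ} (hG : IsLoop G) :
    ∃ ρ R : ℝ, 0 < ρ ∧ 0 < R ∧ ∀ K d : ℝ, 0 < K → 0 < d → ∃ δ : ℝ, 0 < δ ∧ δ ≤ d ∧
      ∃ (n : ℕ) (_ : NeZero n) (z : ZMod n → ℂ) (c : ℂ),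
        Model (Set.range G) ρ R K d δ n z c := by
  obtain ⟨a, b, hab, hba, hre⟩ := hG.exists_re_lt
  obtain ⟨w, hw⟩ : ∃ w : ℝ, (G b).re = (G a).re + 8 * w := ⟨((G b).re - (G a).re) / 8, by ring⟩
  have hw0 : 0 < w := by linarith
  obtain ⟨κ₀, k1, k2, k3⟩ := hG.unif hw0
  obtain ⟨μ₀, m1, m2⟩ := hG.inv k1 k2
  obtain ⟨B, b1, b2⟩ := hG.bounded
  obtain ⟨ρ, r1, r2, r3⟩ : ∃ ρ : ℝ, 0 < ρ ∧ 10 * ρ ≤ μ₀ ∧ 10 * ρ ≤ w :=
    ⟨min μ₀ w / 10, by positivity, by linarith [min_le_left μ₀ w], by linarith [min_le_right μ₀ w]⟩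
  refine ⟨ρ, 3 * (B + ρ), r1, by positivity, fun K d hK hd => ?_⟩
  obtain ⟨κ₁, l1, -, l3⟩ := hG.unif (half_pos hd)
  obtain ⟨κ, n1, n2, n3⟩ : ∃ κ : ℝ, 0 < κ ∧ κ ≤ κ₀ ∧ κ ≤ κ₁ :=
    ⟨min κ₀ κ₁, lt_min k1 l1, min_le_left _ _, min_le_right _ _⟩
  obtain ⟨μ, u1, u2⟩ := hG.inv n1 (n2.trans k2)
  obtain ⟨δ, d1, d2, d3, d4⟩ : ∃ δ : ℝ, 0 < δ ∧ δ ≤ d ∧ δ ≤ ρ ∧ K * δ + δ ≤ μ := by
    refine ⟨min (min d ρ) (μ / (K + 1)), by positivity, (min_le_left _ _).trans (min_le_left _ _),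
      (min_le_left _ _).trans (min_le_right _ _), ?_⟩
    have := (le_div_iff₀ (by positivity)).1 (min_le_right (min d ρ) (μ / (K + 1)))
    linarith
  have d5 : 0 < K * δ := by positivity
  obtain ⟨n, hn, t, z, ht, z1, z2, z3, z4, z5, z6, z7, z8⟩ := exists_polygon hG n1 (n2.trans k2) d1
    fun s t h => u2 s t (by linarith)
  obtain ⟨x, ⟨x1, x2⟩, x3⟩ := (Set.Ioo_infinite (show (G a).re + 3 * w < (G a).re + 5 * w by
    linarith)).exists_notMem_finite (Set.finite_range fun i => (z i).re)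
  have x4 : ∀ i, (z i).re ≠ x := fun i h => x3 ⟨i, h⟩
  obtain ⟨p, p1, p2⟩ := ht.exists_index a
  obtain ⟨q, q1, q2⟩ := ht.exists_index b
  have hpq : p ≤ q := by
    have : p - 1 < q := ht.strictMono.lt_iff_lt.1 (by linarith)
    omega
  have hqp : q ≤ p + n := by
    have : q - 1 < p + n := ht.strictMono.lt_iff_lt.1 (by rw [ht.1]; linarith)
    omega
  have hM : ∀ v : ℤ, ‖z v‖ ≤ B + ρ := fun v => by
    linarith [norm_le_norm_add_norm_sub' (z v) (G (t v)), b2 (t v), z6 v]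
  have hnear : ∀ (v : ℤ) (s : ℝ), t (v - 1) < s → s ≤ t v → |(z v).re - (G s).re| ≤ 2 * w := by
    intro v s h1 h2
    have h3 := (ht.2 (v - 1)).2.1
    rw [sub_add_cancel] at h3
    have h4 := k3 (t v) s (abs_le.2 ⟨by linarith, by linarith⟩)
    have h5 := Complex.abs_re_le_norm (z v - G s)
    rw [Complex.sub_re] at h5
    linarith [norm_sub_le_norm_sub_add_norm_sub (z v) (G (t v)) (G s), z6 v]
  have hp : (z p).re < x := by linarith [(abs_le.1 (hnear p a p1 p2)).2]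
  have hq : x < (z q).re := by linarith [(abs_le.1 (hnear q b q1 q2)).1]
  have hclose : ∀ (v : ℤ) (c : ℂ), ∀ P ∈ segment ℝ (z v) (z (v + 1 : ℤ)), ‖P - c‖ < 2 * ρ →
      ‖G (t v) - c‖ ≤ 5 * ρ := by
    intro v c P hP h1
    have h2 := dist_add_dist_of_mem_segment hP
    have h3 := z7 v
    have h4 := dist_nonneg (x := P) (y := z (v + 1 : ℤ))
    have h5 := norm_sub_le_three (G (t v)) (z v) P c
    rw [norm_sub_rev (G (t v)) (z v), norm_sub_rev c] at h5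
    rw [dist_eq_norm, dist_eq_norm (z v), norm_sub_rev (z v) (z _)] at h2
    push_cast at h2 h4
    linarith [z6 v]
  obtain ⟨y, y1, y2, y3⟩ := exists_inside (z := fun v : ℤ => z v) r1 hM (fun v => x4 v) hpq hqp hp
    hq (by simpa using hp) (fun y => by
      by_contra hcon
      simp only [FarFrom, not_or, not_forall, not_le, Finset.mem_Ico] at hcon
      obtain ⟨⟨v, ⟨v1, v2⟩, P, hP, v3⟩, v', ⟨v4, v5⟩, P', hP', v6⟩ := hcon
      have a1 := hclose v _ P hP v3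
      have a2 := hclose v' _ P' hP' v6
      have a3 := norm_sub_le_norm_sub_add_norm_sub (G (t v)) ⟨x, y⟩ (G (t v'))
      rw [norm_sub_rev ⟨x, y⟩ (G (t v'))] at a3
      obtain ⟨m, hm⟩ := m2 (t v) (t v') (by linarith)
      have a4 := ht.strictMono.monotone v1
      have a5 := ht.strictMono.monotone (show v ≤ q - 1 by omega)
      have a6 := ht.strictMono.monotone v4
      have a7 := ht.strictMono.monotone (show v' ≤ p - 1 + n by omega)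
      rw [ht.1] at a7
      have a8 := (abs_le.1 ((Complex.abs_re_le_norm _).trans a1))
      simp only [Complex.sub_re] at a8
      rcases arcs_apart hG k2 k3 (a := a) (b := b) (by linarith) (by linarith) (by linarith)
        (by linarith) hm with a9 | a9
      · have := (abs_le.1 ((Complex.abs_re_le_norm _).trans a9)).2
        rw [Complex.sub_re] at this
        linarith [a8.1]
      · have := (abs_le.1 ((Complex.abs_re_le_norm _).trans a9)).1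
        rw [Complex.sub_re] at this
        linarith [a8.2])
  refine ⟨δ, d1, d2, n, hn, z, ⟨x, y⟩, z1, z2, z3, z4, z5, fun i => ?_, z7, z8, fun i j hij => ?_,
    fun i P hP => ?_, fun i => ?_, x4, ?_⟩
  · obtain ⟨v, rfl⟩ := ZMod.intCast_surjective i
    exact ⟨_, ⟨t v, rfl⟩, by linarith [z6 v]⟩
  · obtain ⟨u, rfl⟩ := ZMod.intCast_surjective i
    obtain ⟨v, rfl⟩ := ZMod.intCast_surjective j
    have h1 := norm_sub_le_three (G (t u)) (z u) (z v) (G (t v))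
    rw [norm_sub_rev (G (t u)) (z u), norm_sub_rev (G (t v))] at h1
    obtain ⟨m, hm⟩ := u2 (t u) (t v) (by linarith [z6 u, z6 v])
    rw [sub_sub, ← ht.shift] at hm
    have e : (v : ZMod n) = (v + m * n : ℤ) := by simp
    have hd' : ∀ s t, |s - t| ≤ κ → ‖G s - G t‖ ≤ d / 2 := fun s t h => l3 s t (h.trans n3)
    rcases le_total u (v + m * n) with h | h
    · obtain ⟨c1, c2⟩ := ht.loc (n2.trans k2) hd' d2 z6 h hm
      exact ⟨u, _, h, c1, Or.inl ⟨rfl, e⟩, c2⟩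
    · obtain ⟨c1, c2⟩ := ht.loc (n2.trans k2) hd' d2 z6 h (by rwa [abs_sub_comm])
      exact ⟨_, u, h, c1, Or.inr ⟨rfl, e⟩, c2⟩
  · obtain ⟨v, v1, v2, rfl⟩ := exists_rep p i
    exact y2 v (Finset.mem_Ico.2 ⟨v1, v2⟩) P (by simpa using hP)
  · obtain ⟨v, rfl⟩ := ZMod.intCast_surjective i
    have h1 := Complex.norm_le_abs_re_add_abs_im ⟨x, y⟩
    have h2 := abs_le.1 ((Complex.abs_re_le_norm _).trans (hM p))
    have h3 := abs_le.1 ((Complex.abs_re_le_norm _).trans (hM q))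
    have h4 : |x| ≤ B + ρ := abs_le.2 ⟨by linarith [h2.1], by linarith [h3.2]⟩
    simp only at h1
    linarith [norm_sub_le (z v) ⟨x, y⟩, hM v]
  · rwa [ncard_below z p]

theorem exists_model (γ : Circle → ℂ) (hc : Continuous γ) (hi : Function.Injective γ) :
    ∃ ρ R : ℝ, 0 < ρ ∧ 0 < R ∧ ∀ K d : ℝ, 0 < K → 0 < d → ∃ δ : ℝ, 0 < δ ∧ δ ≤ d ∧
      ∃ (n : ℕ) (_ : NeZero n) (z : ZMod n → ℂ) (c : ℂ),
        Model (Set.range γ) ρ R K d δ n z c := by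
  have hπ : (2 * Real.pi) ≠ 0 := by positivity
  have hG : IsLoop fun t : ℝ => γ (Circle.exp (2 * Real.pi * t)) := by
    refine ⟨hc.comp (Circle.exp.continuous.comp (by fun_prop)), fun t m => ?_, fun s t h => ?_⟩
    · exact congrArg γ (Circle.exp_eq_exp.2 ⟨m, by ring⟩)
    · obtain ⟨m, hm⟩ := Circle.exp_eq_exp.1 (hi h)
      exact ⟨m, mul_left_cancel₀ hπ (by linarith)⟩
  have hr : Set.range (fun t : ℝ => γ (Circle.exp (2 * Real.pi * t))) = Set.range γ := by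
    refine Function.Surjective.range_comp (f := fun t : ℝ => Circle.exp (2 * Real.pi * t))
      (fun u => ?_) γ
    obtain ⟨s, rfl⟩ := Circle.exp_surjective u
    exact ⟨s / (2 * Real.pi), by simp only; rw [mul_div_cancel₀ _ hπ]⟩
  exact hr ▸ hG.exists_model

end Pool.Agent.Lib.MP_5a3ebe_gt.Ap
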