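import Pool.Agent.Lib.MP_5a3ebe_gt.ApFinalB
import Pool.Agent.Lib.MP_5a3ebe_gt.ApModel

/-! From the combinatorial core to approximate squares on a Jordan curve. -/

namespace Pool.Agent.Lib.MP_5a3ebe_gt.Ap

section poly

variable {n : ℕ} [NeZero n] {z : ZMod n → ℂ} {h : ℝ} {X : ZMod n → ℤ}

omit [NeZero n] in
lemma corridor_clear {c : ℂ} {ρ : ℝ} (hh : 0 < h) (hρ : h ≤ ρ / 3)
    (far : ∀ i, ∀ P ∈ segment ℝ (z i) (z (i + 1)), ρ ≤ ‖P - c‖) :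
    Clear z (h * ((⌊c.re / h⌋ - ⌊ρ / 3 / h⌋ : ℤ) : ℝ)) (h * ((⌊c.re / h⌋ + ⌊ρ / 3 / h⌋ : ℤ) : ℝ))
      c.im (ρ / 3) := by
  intro v P hP h1 h2
  by_contra hlt
  push Not at hlt
  have a1 : h * (⌊c.re / h⌋ : ℝ) ≤ c.re := by
    have := Int.floor_le (c.re / h)
    rwa [le_div_iff₀ hh, mul_comm] at this
  have a2 : c.re < h * (⌊c.re / h⌋ + 1 : ℝ) := by
    have := Int.lt_floor_add_one (c.re / h)
    rwa [div_lt_iff₀ hh, mul_comm] at this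
  have a3 : h * (⌊ρ / 3 / h⌋ : ℝ) ≤ ρ / 3 := by
    have := Int.floor_le (ρ / 3 / h)
    rwa [le_div_iff₀ hh, mul_comm] at this
  push_cast at h1 h2
  have a4 : |(P - c).re| ≤ 2 * (ρ / 3) := by
    rw [Complex.sub_re, abs_le]
    constructor <;> nlinarith
  have a5 := Complex.norm_le_abs_re_add_abs_im (P - c)
  have a6 := far v P hP
  rw [Complex.sub_im] at a5
  linarith

lemma alive_iff (hn : 3 ≤ n) (hi : ∀ i j, (z i).re = (z j).re → i = j) (hh : 0 < h)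
    (hX : ∀ i, (z i).re = h * X i) {c : ℂ} {ρ : ℝ} (hρ : h ≤ ρ / 3)
    (far : ∀ i, ∀ P ∈ segment ℝ (z i) (z (i + 1)), ρ ≤ ‖P - c‖) (off : ∀ i, (z i).re ≠ c.re)
    (s : ZMod n) :
    ((polyDiag z h X).Al ⌊c.re / h⌋ s ∧
      botP z (h * ((⌊c.re / h⌋ - ⌊ρ / 3 / h⌋ : ℤ) : ℝ)) (h * ((⌊c.re / h⌋ + ⌊ρ / 3 / h⌋ : ℤ) : ℝ))
        c.im s) ↔ Below (z s) (z (s + 1)) c := by
  have hc := corridor_clear hh hρ far
  have a1 : h * (⌊c.re / h⌋ : ℝ) ≤ c.re := by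
    have := Int.floor_le (c.re / h)
    rwa [le_div_iff₀ hh, mul_comm] at this
  have a2 : c.re < h * (⌊c.re / h⌋ + 1 : ℝ) := by
    have := Int.lt_floor_add_one (c.re / h)
    rwa [div_lt_iff₀ hh, mul_comm] at this
  have a3 : (1 : ℝ) ≤ ⌊ρ / 3 / h⌋ := by
    have : (1 : ℤ) ≤ ⌊ρ / 3 / h⌋ := Int.le_floor.2 (by
      rw [le_div_iff₀ hh]; push_cast; linarith)
    exact_mod_cast this
  have b1 : h * ((⌊c.re / h⌋ - ⌊ρ / 3 / h⌋ : ℤ) : ℝ) ≤ c.re := by push_cast; nlinarith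
  have b2 : c.re ≤ h * ((⌊c.re / h⌋ + ⌊ρ / 3 / h⌋ : ℤ) : ℝ) := by push_cast; nlinarith
  constructor
  · rintro ⟨⟨-, h1, h2⟩, hb⟩
    have h1' : ((polyDiag z h X).b s : ℝ) ≤ ⌊c.re / h⌋ := by exact_mod_cast h1
    have h2' : (⌊c.re / h⌋ : ℝ) + 1 ≤ (polyDiag z h X).e s := by exact_mod_cast h2
    have hm := edge_mem hn hi hh hX (v := s) (x := c.re) (by nlinarith) (by nlinarith)
    exact ⟨_, hm, rfl, (bot_iff hc (by linarith) hm b1 b2).1 hb⟩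
  · rintro ⟨P, hP, e1, e2⟩
    obtain ⟨-, f1, f2⟩ := seg_facts (re_ne hn hi s) hP
    have f3 : c.re < max (z s).re (z (s + 1)).re := by
      rw [e1] at f2
      refine lt_of_le_of_ne f2 fun e => ?_
      rcases max_choice (z s).re (z (s + 1)).re with e' | e'
      · exact off s (e'.symm.trans e.symm)
      · exact off (s + 1) (e'.symm.trans e.symm)
    rw [min_re hh hX, e1] at f1
    rw [max_re hh hX] at f3
    refine ⟨⟨Finset.mem_univ _, Int.le_floor.2 ?_, Int.floor_lt.2 ?_⟩,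
      ⟨P, hP, e1 ▸ b1, e1 ▸ b2, e2⟩⟩
    · rwa [le_div_iff₀ hh, mul_comm]
    · rwa [div_lt_iff₀ hh, mul_comm]

lemma quiet_of (hh : 0 < h) (hX : ∀ i, (z i).re = h * X i) {x : ℝ}
    (hx : ∀ i, h < |(z i).re - x|) : (polyDiag z h X).Quiet ⌊x / h⌋ := by
  have a1 : h * (⌊x / h⌋ : ℝ) ≤ x := by
    have := Int.floor_le (x / h)
    rwa [le_div_iff₀ hh, mul_comm] at this
  have a2 : x < h * (⌊x / h⌋ + 1 : ℝ) := by
    have := Int.lt_floor_add_one (x / h)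
    rwa [div_lt_iff₀ hh, mul_comm] at this
  have key : ∀ i, X i ≠ ⌊x / h⌋ + 1 := by
    intro i e
    have := hx i
    rw [hX, e, abs_of_pos (by push_cast; linarith)] at this
    push_cast at this
    linarith
  intro s _
  have k1 := key s
  have k2 := key (s + 1)
  simp only [polyDiag]
  omega

lemma local_sep (hn : 3 ≤ n) (hi : ∀ i j, (z i).re = (z j).re → i = j) (hh : 0 < h)
    (hX : ∀ i, (z i).re = h * X i) {S W δ : ℝ} (hS : 0 < S) (hW : 0 < W) (hδ : 0 < δ)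
    (hsl : ∀ v, ∀ P ∈ segment ℝ (z v) (z (v + 1)), ∀ Q ∈ segment ℝ (z v) (z (v + 1)),
      |P.im - Q.im| ≤ S * |P.re - Q.re|) (hg : S * W ≤ δ / (16 * (n + 1))) (i : ℤ) (s : ZMod n)
    (ht : (polyDiag z h X).Touch i s) :
    ∃ b1 y1 b2 y2, (polyDiag z h X).Sep (i - ⌊W / h⌋) (i + ⌊W / h⌋) b1 y1 (δ / (16 * (n + 1))) ∧
      (polyDiag z h X).Sep (i - ⌊W / h⌋) (i + ⌊W / h⌋) b2 y2 (δ / (16 * (n + 1))) ∧
      ¬ b1 s ∧ b2 s ∧ lineH (z s) (z (s + 1)) (h * i) - δ / 4 ≤ y1 ∧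
      y2 ≤ lineH (z s) (z (s + 1)) (h * i) + δ / 4 := by
  have a1 : h * (⌊W / h⌋ : ℝ) ≤ W := by
    have := Int.floor_le (W / h)
    rwa [le_div_iff₀ hh, mul_comm] at this
  have a2 : (0 : ℝ) ≤ ⌊W / h⌋ := by
    have : (0 : ℤ) ≤ ⌊W / h⌋ := Int.floor_nonneg.2 (by positivity)
    exact_mod_cast this
  have hw : h * ((i + ⌊W / h⌋ : ℤ) : ℝ) - h * ((i - ⌊W / h⌋ : ℤ) : ℝ) ≤ 2 * W := by
    push_cast; linarith
  have hη : 0 < δ / (4 * (n + 1)) := by positivity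
  have hg0 : 0 < δ / (16 * (n + 1)) := by positivity
  have e4 : 4 * (δ / (16 * (n + 1))) = δ / (4 * (n + 1)) := by field_simp; ring
  have e5 : (n + 1) * (δ / (4 * (n + 1))) = δ / 4 := by field_simp
  obtain ⟨m1, p1, q1, c1⟩ := exists_clear (η := -(δ / (4 * (n + 1))))
    (y0 := lineH (z s) (z (s + 1)) (h * i)) hS hsl hw hg (by rw [abs_neg, abs_of_pos hη, e4])
  obtain ⟨m2, p2, q2, c2⟩ := exists_clear (η := δ / (4 * (n + 1)))
    (y0 := lineH (z s) (z (s + 1)) (h * i)) hS hsl hw hg (by rw [abs_of_pos hη, e4])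
  have hm := touch_mem hn hi hh hX ht
  have b1 : h * ((i - ⌊W / h⌋ : ℤ) : ℝ) ≤ (linePt (z s) (z (s + 1)) (h * i)).re := by
    rw [linePt_re]; push_cast; nlinarith
  have b2 : (linePt (z s) (z (s + 1)) (h * i)).re ≤ h * ((i + ⌊W / h⌋ : ℤ) : ℝ) := by
    rw [linePt_re]; push_cast; nlinarith
  have p1' : (1 : ℝ) ≤ m1 := by exact_mod_cast p1
  have p2' : (1 : ℝ) ≤ m2 := by exact_mod_cast p2
  have q1' : (m1 : ℝ) ≤ n + 1 := by exact_mod_cast q1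
  have q2' : (m2 : ℝ) ≤ n + 1 := by exact_mod_cast q2
  refine ⟨_, _, _, _, sep_of_clear hn hi hh hX c1 hg0, sep_of_clear hn hi hh hX c2 hg0, ?_, ?_,
    ?_, ?_⟩
  · rw [bot_iff c1 hg0 hm b1 b2, linePt_im]
    nlinarith
  · rw [bot_iff c2 hg0 hm b1 b2, linePt_im]
    nlinarith
  · nlinarith
  · nlinarith

end poly

/-- Four points close to the vertices `o + e, o + I e, o - e, o - I e` of a large square. -/
lemma square_of_near {C : Set ℂ} {ε r : ℝ} {o e p1 p2 p3 p4 : ℂ} (hε : 0 < ε) (hr : 0 < r)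
    (m1 : p1 ∈ C) (m2 : p2 ∈ C) (m3 : p3 ∈ C) (m4 : p4 ∈ C)
    (h1 : ‖p1 - (o + e)‖ ≤ r) (h2 : ‖p2 - (o + Complex.I * e)‖ ≤ r) (h3 : ‖p3 - (o - e)‖ ≤ r)
    (h4 : ‖p4 - (o - Complex.I * e)‖ ≤ r) (he : 2 * r ≤ ε * ‖e‖) :
    ∃ p1 ∈ C, ∃ p2 ∈ C, ∃ p3 ∈ C, ∃ p4 ∈ C, ∃ w : ℂ,
      w ≠ 0 ∧ ‖p2 - p1 - w‖ ≤ ε * ‖w‖ ∧ ‖p3 - p1 - w - Complex.I * w‖ ≤ ε * ‖w‖ ∧
        ‖p4 - p1 - Complex.I * w‖ ≤ ε * ‖w‖ := by
  have hw : ‖e‖ ≤ ‖(Complex.I - 1) * e‖ := by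
    rw [norm_mul]
    have : 1 ≤ ‖Complex.I - 1‖ := by
      have := Complex.abs_im_le_norm (Complex.I - 1)
      simpa using this
    nlinarith [norm_nonneg e]
  have hw' : 2 * r ≤ ε * ‖(Complex.I - 1) * e‖ := by nlinarith
  refine ⟨p1, m1, p2, m2, p3, m3, p4, m4, (Complex.I - 1) * e, ?_, ?_, ?_, ?_⟩
  · intro e0
    rw [e0, norm_zero] at hw'
    linarith
  · have : p2 - p1 - (Complex.I - 1) * e = (p2 - (o + Complex.I * e)) - (p1 - (o + e)) := by ring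
    rw [this]
    linarith [norm_sub_le (p2 - (o + Complex.I * e)) (p1 - (o + e))]
  · have : p3 - p1 - (Complex.I - 1) * e - Complex.I * ((Complex.I - 1) * e) =
        (p3 - (o - e)) - (p1 - (o + e)) := by
      linear_combination (-e) * Complex.I_mul_I
    rw [this]
    linarith [norm_sub_le (p3 - (o - e)) (p1 - (o + e))]
  · have : p4 - p1 - Complex.I * ((Complex.I - 1) * e) =
        (p4 - (o - Complex.I * e)) - (p1 - (o + e)) := by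
      linear_combination (-e) * Complex.I_mul_I
    rw [this]
    linarith [norm_sub_le (p4 - (o - Complex.I * e)) (p1 - (o + e))]

lemma norm_le_of_parts {w : ℂ} {a b : ℝ} (h1 : |w.re| ≤ a) (h2 : |w.im| ≤ b) : ‖w‖ ≤ a + b := by
  linarith [Complex.norm_le_abs_re_add_abs_im w]

lemma not_window {V t A c : ℝ} {m : ℤ} (hV : V = t + m * A) (ht : |t| < c) (h1 : c ≤ V)
    (h2 : V ≤ A - c) : False := by
  obtain ⟨t1, t2⟩ := abs_lt.1 ht
  have hA : 0 < A := by linarith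
  rcases le_or_gt m 0 with hm | hm
  · have : (m : ℝ) ≤ 0 := by exact_mod_cast hm
    nlinarith
  · have : (1 : ℝ) ≤ m := by exact_mod_cast hm
    nlinarith

lemma num_d {T c : ℝ} (hT : 0 < T) (hc : 0 < c) : ∃ d : ℝ, 0 < d ∧ d ≤ 1 ∧ T * d ^ 2 ≤ c := by
  refine ⟨min 1 (c / T), by positivity, min_le_left _ _, ?_⟩
  have h1 : min 1 (c / T) ≤ 1 := min_le_left _ _
  have h2 : min 1 (c / T) ≤ c / T := min_le_right _ _
  have h3 : 0 < min 1 (c / T) := by positivity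
  rw [le_div_iff₀ hT] at h2
  nlinarith [mul_le_mul_of_nonneg_left h1 (mul_pos h3 hT).le]

lemma num_u {K u R δ : ℝ} (hK : 0 < K) (h1 : |K * u| ≤ R + 1) (h2 : R + 1 ≤ K * δ) : |u| ≤ δ := by
  rw [abs_mul, abs_of_pos hK] at h1
  exact le_of_mul_le_mul_left (h1.trans h2) hK

lemma num_small {ε δ Kr t : ℝ} (hε : 0 < ε) (hε1 : ε ≤ 1) (hδ : 0 < δ) (hK : Kr * ε = 28)
    (h : ε * t < 2 * (5 * δ)) : t + 4 * δ ≤ Kr * δ / 2 := by
  have : ε * (t + 4 * δ) ≤ ε * (Kr * δ / 2) := by nlinarith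
  exact le_of_mul_le_mul_left this hε

lemma num_end {e : ℂ} {Kr δ d K u R c τa τb : ℝ} (hKr : 0 < Kr) (hδ : 0 < δ) (hδd : δ ≤ d)
    (hK : 0 < K) (hc : 0 < c) (he : ‖e‖ + 4 * δ ≤ Kr * δ / 2) (hKu : |K * u| ≤ R + 1)
    (hK2 : 2 * (R + 1) ^ 2 ≤ K * c) (hd : 2004 * (Kr + 3) ^ 2 * d ^ 2 ≤ c / 2)
    (ha : |τa| ≤ 1000 * (Kr + 3) ^ 2 * d ^ 2 + 6 * (Kr * δ / 2) ^ 2)
    (hb : |τb| ≤ 1000 * (Kr + 3) ^ 2 * d ^ 2 + 6 * (Kr * δ / 2) ^ 2) :
    |τa + τb + 2 * (e.re * e.im) + K * u ^ 2 / 2| < c := by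
  have c1 : |2 * (e.re * e.im)| ≤ (Kr * δ / 2) ^ 2 := by
    have a1 : ‖e‖ ^ 2 = e.re ^ 2 + e.im ^ 2 := by
      rw [Complex.sq_norm, Complex.normSq_apply]; ring
    have a2 : ‖e‖ ^ 2 ≤ (Kr * δ / 2) ^ 2 :=
      pow_le_pow_left₀ (norm_nonneg _) (by linarith) 2
    rw [abs_le]
    constructor <;> nlinarith [sq_nonneg (e.re - e.im), sq_nonneg (e.re + e.im)]
  have c2 : (Kr * δ / 2) ^ 2 ≤ (Kr + 3) ^ 2 * d ^ 2 / 4 := by
    have h1 : Kr * δ / 2 ≤ (Kr + 3) * d / 2 := by nlinarith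
    have h2 := pow_le_pow_left₀ (by positivity) h1 2
    calc (Kr * δ / 2) ^ 2 ≤ ((Kr + 3) * d / 2) ^ 2 := h2
      _ = _ := by ring
  have c3 : K * u ^ 2 ≤ c / 2 := by
    have a1 : (K * u) ^ 2 ≤ (R + 1) ^ 2 := by
      rw [← sq_abs (K * u)]
      exact pow_le_pow_left₀ (abs_nonneg _) hKu 2
    have : K * (K * u ^ 2) ≤ K * (c / 2) := by nlinarith
    exact le_of_mul_le_mul_left this hK
  have c4 : 0 ≤ K * u ^ 2 := by positivity
  have c5 : 0 ≤ (Kr + 3) ^ 2 * d ^ 2 := by positivity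
  have a := abs_le.1 ha
  have b := abs_le.1 hb
  have c1' := abs_le.1 c1
  rw [mul_assoc] at a b hd
  rw [abs_lt]
  constructor <;> linarith [a.1, a.2, b.1, b.2, c1'.1, c1'.2]

theorem final_aux (core : CoreStatement)
    (lev : ∀ (n : ℕ) [NeZero n] (D : Diag (ZMod n)), D.Good → D.Conn → ∀ Δ : ℤ → ZMod n → ℝ,
      ∃ F a, D.Lev Δ F a)
    (pg : ∀ (n : ℕ) [NeZero n] (z : ZMod n → ℂ) (h : ℝ) (X : ZMod n → ℤ), 3 ≤ n → SimplePoly z →
      (∀ i j, (z i).re = (z j).re → i = j) → 0 < h → (∀ i, (z i).re = h * X i) →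
      (polyDiag z h X).Good ∧ (polyDiag z h X).Conn)
    (γ : Circle → ℂ) (hc : Continuous γ) (hi : Function.Injective γ) (ε : ℝ) (hε : 0 < ε)
    (hε1 : ε ≤ 1) :
    ∃ p1 ∈ Set.range γ, ∃ p2 ∈ Set.range γ, ∃ p3 ∈ Set.range γ, ∃ p4 ∈ Set.range γ, ∃ w : ℂ,
      w ≠ 0 ∧ ‖p2 - p1 - w‖ ≤ ε * ‖w‖ ∧ ‖p3 - p1 - w - Complex.I * w‖ ≤ ε * ‖w‖ ∧
        ‖p4 - p1 - Complex.I * w‖ ≤ ε * ‖w‖ := by
  obtain ⟨ρ, R0, hρ, -, model⟩ := exists_model γ hc hi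
  obtain ⟨B, hB0, hB⟩ := (isCompact_range hc).isBounded.exists_pos_norm_le
  obtain ⟨R, hR⟩ : ∃ R, R = B + 1 + ρ := ⟨_, rfl⟩
  obtain ⟨c, K0, hc0, core⟩ := core R (ρ / 3) (by positivity) (by linarith)
  obtain ⟨Kr, hKr⟩ : ∃ Kr, Kr = 28 / ε := ⟨_, rfl⟩
  have hKr0 : 0 < Kr := by rw [hKr]; positivity
  have hKε : Kr * ε = 28 := by rw [hKr]; field_simp
  obtain ⟨d, hd0, hd1, hdc⟩ := num_d (T := 2004 * (Kr + 3) ^ 2) (c := c / 2) (by positivity)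
    (by positivity)
  obtain ⟨δ, hδ, hδd, n, _, z, c0, M⟩ := model Kr d hKr0 hd0
  have hzB : ∀ i, ‖z i - 0‖ ≤ R := by
    intro i
    obtain ⟨p, hp, h1⟩ := M.near i
    have h2 := hB p hp
    have := norm_add_le (z i - p) p
    rw [sub_add_cancel] at this
    rw [sub_zero]
    linarith
  have hR0 : 0 < R := by linarith
  obtain ⟨K, hK0, hK1, hK2⟩ : ∃ K : ℝ, K0 ≤ K ∧ (R + 1) / δ ≤ K ∧ 2 * (R + 1) ^ 2 / c ≤ K :=
    ⟨max K0 (max ((R + 1) / δ) (2 * (R + 1) ^ 2 / c)), le_max_left _ _,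
      (le_max_left _ _).trans (le_max_right _ _), (le_max_right _ _).trans (le_max_right _ _)⟩
  have hKpos : 0 < K := lt_of_lt_of_le (by positivity) hK1
  rw [div_le_iff₀ hδ] at hK1
  rw [div_le_iff₀ hc0] at hK2
  obtain ⟨S, hS, hsl⟩ := exists_slope M.three M.inj
  have hg0 : 0 < δ / (16 * (n + 1)) := by positivity
  obtain ⟨h0, hh0, core⟩ := core K δ (δ / (16 * (n + 1)) / S) (δ / (16 * (n + 1))) hK0 hδ
    (by positivity) hg0 (ZMod n)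
  obtain ⟨hg, hhg, hgrid⟩ := M.grid
  choose mm hmm using hgrid
  obtain ⟨μ, hμ0, hμ⟩ : ∃ μ : ℝ, 0 < μ ∧ ∀ i, μ ≤ |(z i).re - c0.re| := by
    obtain ⟨i0, -, hi0⟩ := Finset.exists_min_image Finset.univ (fun i => |(z i).re - c0.re|)
      Finset.univ_nonempty
    exact ⟨_, abs_pos.2 (sub_ne_zero.2 (M.off i0)), fun i => hi0 i (Finset.mem_univ _)⟩
  obtain ⟨N, hN⟩ := exists_nat_gt (hg / min h0 (min (ρ / 3) μ))
  have hmin : 0 < min h0 (min (ρ / 3) μ) := by positivity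
  have hN0 : (0 : ℝ) < N := lt_trans (by positivity) hN
  obtain ⟨h, hhdef⟩ : ∃ h, h = hg / N := ⟨_, rfl⟩
  have hh : 0 < h := by rw [hhdef]; positivity
  have hlt : h < min h0 (min (ρ / 3) μ) := by
    rw [hhdef, div_lt_iff₀ hN0]
    rw [div_lt_iff₀ hmin] at hN
    linarith
  simp only [lt_min_iff] at hlt
  obtain ⟨X, hX⟩ : ∃ X : ZMod n → ℤ, ∀ i, (z i).re = h * X i :=
    ⟨fun i => N * mm i, fun i => by rw [hmm, hhdef]; push_cast; field_simp⟩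
  obtain ⟨G, Cn⟩ := pg n z h X M.three M.simple M.inj hh hX
  obtain ⟨F, A, L⟩ := lev n (polyDiag z h X) G Cn (fun k s => -(h * (polyDiag z h X).key k s))
  have hre : ∀ i, |(z i).re| ≤ R := fun i =>
    (Complex.abs_re_le_norm _).trans (by simpa using hzB i)
  have him : ∀ v, ∀ P ∈ segment ℝ (z v) (z (v + 1)), |P.im| ≤ R := fun v P hP =>
    (Complex.abs_im_le_norm _).trans (by simpa using seg_norm_le hP (hzB v) (hzB (v + 1)))
  obtain ⟨i1, i2, i3, i4, s1, s2, s3, s4, m, x1, x2, x3, x4, u, V, t1, t2, t3, t4, e1, e2, e3,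
    e4, eu, y1, y2, y3, y4, eV, v1, v2⟩ :=
    core h hh hlt.1.le (polyDiag z h X) (fun i v => lineH (z v) (z (v + 1)) (h * i)) F A
      ⌊c0.re / h⌋ _ c0.im G Cn L
      (fun k s hk => him s _ (mid_mem M.three M.inj hh hX hk))
      (fun s _ t _ => by
        rw [mul_sub, ← max_re hh hX, ← min_re hh hX]
        have a1 := abs_le.1 (hre s)
        have a2 := abs_le.1 (hre (s + 1))
        have a3 := abs_le.1 (hre t)
        have a4 := abs_le.1 (hre (t + 1))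
        have b1 := max_le a1.2 a2.2
        have b2 := le_min a3.1 a4.1
        linarith)
      (sep_of_clear M.three M.inj hh hX (corridor_clear hh hlt.2.1.le M.far) (by positivity))
      (quiet_of hh hX fun i => lt_of_lt_of_le hlt.2.2 (hμ i))
      (by
        have := M.odd
        simpa only [alive_iff M.three M.inj hh hX hlt.2.1.le M.far M.off] using this)
      (local_sep M.three M.inj hh hX hS (by positivity) hδ hsl (by
        rw [mul_div_cancel₀ _ hS.ne']))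
  have m1 := touch_mem M.three M.inj hh hX t1
  have m2 := touch_mem M.three M.inj hh hX t2
  have m3 := touch_mem M.three M.inj hh hX t3
  have m4 := touch_mem M.three M.inj hh hX t4
  have hKu : |K * u| ≤ R + 1 := by
    have a1 := abs_le.1 (him _ _ m1)
    have a3 := abs_le.1 (him _ _ m3)
    rw [linePt_im] at a1 a3
    have b1 := abs_le.1 y1
    have b3 := abs_le.1 y3
    rw [abs_le]
    constructor <;> linarith [a1.1, a1.2, a3.1, a3.2, b1.1, b1.2, b3.1, b3.2]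
  have hu : |u| ≤ δ := num_u hKpos hKu hK1
  have hu' := abs_le.1 hu
  obtain ⟨o, ho1, ho2⟩ : ∃ o : ℂ, o.re = (x1 + x3) / 2 ∧ o.im = -(K * u) :=
    ⟨⟨(x1 + x3) / 2, -(K * u)⟩, rfl, rfl⟩
  obtain ⟨e, he1, he2⟩ : ∃ e : ℂ, e.re = (x1 - x3) / 2 ∧ e.im = (x2 - x4) / 2 :=
    ⟨⟨(x1 - x3) / 2, (x2 - x4) / 2⟩, rfl, rfl⟩
  have n1 : ‖linePt (z s1) (z (s1 + 1)) (h * i1) - (o + e)‖ ≤ δ + δ := by
    have b := abs_le.1 y1
    apply norm_le_of_parts <;>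
      simp only [Complex.sub_re, Complex.add_re, Complex.sub_im, Complex.add_im, linePt_re,
        linePt_im, ho1, ho2, he1, he2, abs_le] <;>
      constructor <;> linarith [b.1, b.2]
  have n3 : ‖linePt (z s3) (z (s3 + 1)) (h * i3) - (o - e)‖ ≤ δ + δ := by
    have b := abs_le.1 y3
    apply norm_le_of_parts <;>
      simp only [Complex.sub_re, Complex.add_re, Complex.sub_im, Complex.add_im, linePt_re,
        linePt_im, ho1, ho2, he1, he2, abs_le] <;>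
      constructor <;> linarith [b.1, b.2]
  have n2 : ‖linePt (z s2) (z (s2 + 1)) (h * i2) - (o - Complex.I * e)‖ ≤ δ + δ := by
    have b := abs_le.1 y2
    apply norm_le_of_parts <;>
      simp only [Complex.sub_re, Complex.add_re, Complex.sub_im, Complex.add_im, linePt_re,
        linePt_im, ho1, ho2, he1, he2, abs_le, Complex.mul_re, Complex.mul_im, Complex.I_re,
        Complex.I_im] <;>
      constructor <;> linarith [b.1, b.2, hu'.1, hu'.2]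
  have n4 : ‖linePt (z s4) (z (s4 + 1)) (h * i4) - (o + Complex.I * e)‖ ≤ δ + δ := by
    have b := abs_le.1 y4
    apply norm_le_of_parts <;>
      simp only [Complex.sub_re, Complex.add_re, Complex.sub_im, Complex.add_im, linePt_re,
        linePt_im, ho1, ho2, he1, he2, abs_le, Complex.mul_re, Complex.mul_im, Complex.I_re,
        Complex.I_im] <;>
      constructor <;> linarith [b.1, b.2, hu'.1, hu'.2]
  have vert : ∀ (v : ZMod n) (P q : ℂ), P ∈ segment ℝ (z v) (z (v + 1)) → ‖P - q‖ ≤ δ + δ →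
      ‖z v - q‖ ≤ 4 * δ ∧ ∃ p ∈ Set.range γ, ‖p - q‖ ≤ 5 * δ := by
    intro v P q hP hq
    have a1 : ‖P - z v‖ ≤ 2 * δ := seg_norm_le hP (by simp [hδ.le]) (M.short v)
    have a2 := norm_sub_le (P - q) (P - z v)
    rw [show P - q - (P - z v) = z v - q by ring] at a2
    obtain ⟨p, hp, a3⟩ := M.near v
    have a4 := norm_sub_le (z v - q) (z v - p)
    rw [show z v - q - (z v - p) = p - q by ring] at a4
    exact ⟨by linarith, p, hp, by linarith⟩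
  obtain ⟨w1, p1, q1, r1⟩ := vert _ _ _ m1 n1
  obtain ⟨w2, p2, q2, r2⟩ := vert _ _ _ m2 n2
  obtain ⟨w3, p3, q3, r3⟩ := vert _ _ _ m3 n3
  obtain ⟨w4, p4, q4, r4⟩ := vert _ _ _ m4 n4
  by_cases hbig : 2 * (5 * δ) ≤ ε * ‖e‖
  · exact square_of_near hε (by positivity) q1 q4 q3 q2 r1 r4 r3 r2 hbig
  exfalso
  push Not at hbig
  have hsm : ‖e‖ + 4 * δ ≤ Kr * δ / 2 := num_small hε hε1 hδ hKε hbig
  have near : ∀ (P f : ℂ), ‖f‖ = ‖e‖ → ‖P - (o + f)‖ ≤ 4 * δ → ‖P - o‖ ≤ Kr * δ / 2 := by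
    intro P f hf hP
    have := norm_add_le (P - (o + f)) f
    rw [show P - (o + f) + f = P - o by ring] at this
    linarith
  have f2 : ‖-(Complex.I * e)‖ = ‖e‖ := by simp
  have f3 : ‖-e‖ = ‖e‖ := by simp
  have f4 : ‖Complex.I * e‖ = ‖e‖ := by simp
  rw [sub_eq_add_neg o] at n2 n3 w2 w3
  obtain ⟨ma, τa, ha, ea⟩ := lev_pair M hδ hKr0 hX G L t1 t2 (near _ _ rfl w1) (near _ _ f2 w2)
    (near _ _ rfl (by linarith)) (near _ _ f2 (by linarith)) (by linarith)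
  obtain ⟨mb, τb, hb, eb⟩ := lev_pair M hδ hKr0 hX G L t3 t4 (near _ _ f3 w3) (near _ _ f4 w4)
    (near _ _ f3 (by linarith)) (near _ _ f4 (by linarith)) (by linarith)
  refine not_window (t := τa + τb + 2 * (e.re * e.im) + K * u ^ 2 / 2) (m := ma + mb + m) ?_ ?_
    v1 v2
  · rw [← e1, ← e2, ho2] at ea
    rw [← e3, ← e4, ho2] at eb
    rw [he1, he2]
    push_cast
    linear_combination eV + ea + eb - (K * u) * eu
  · exact num_end hKr0 hδ hδd hKpos hc0 hsm hKu hK2 hdc ha hb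

theorem final_of_core (core : CoreStatement)
    (lev : ∀ (n : ℕ) [NeZero n] (D : Diag (ZMod n)), D.Good → D.Conn → ∀ Δ : ℤ → ZMod n → ℝ,
      ∃ F a, D.Lev Δ F a)
    (pg : ∀ (n : ℕ) [NeZero n] (z : ZMod n → ℂ) (h : ℝ) (X : ZMod n → ℤ), 3 ≤ n → SimplePoly z →
      (∀ i j, (z i).re = (z j).re → i = j) → 0 < h → (∀ i, (z i).re = h * X i) →
      (polyDiag z h X).Good ∧ (polyDiag z h X).Conn)
    (γ : Circle → ℂ) (hc : Continuous γ) (hi : Function.Injective γ) (ε : ℝ) (hε : 0 < ε) :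
    ∃ p1 ∈ Set.range γ, ∃ p2 ∈ Set.range γ, ∃ p3 ∈ Set.range γ, ∃ p4 ∈ Set.range γ, ∃ w : ℂ,
      w ≠ 0 ∧ ‖p2 - p1 - w‖ ≤ ε * ‖w‖ ∧ ‖p3 - p1 - w - Complex.I * w‖ ≤ ε * ‖w‖ ∧
        ‖p4 - p1 - Complex.I * w‖ ≤ ε * ‖w‖ := by
  obtain ⟨p1, h1, p2, h2, p3, h3, p4, h4, w, hw, a1, a2, a3⟩ :=
    final_aux core lev pg γ hc hi (min ε 1) (lt_min hε one_pos) (min_le_right _ _)
  have : min ε 1 * ‖w‖ ≤ ε * ‖w‖ := mul_le_mul_of_nonneg_right (min_le_left _ _) (norm_nonneg _)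
  exact ⟨p1, h1, p2, h2, p3, h3, p4, h4, w, hw, a1.trans this, a2.trans this, a3.trans this⟩

end Pool.Agent.Lib.MP_5a3ebe_gt.Ap
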