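import Pool.Agent.Lib.MP_5a3ebe_gt.ApCore

/-! Plane geometry of the edges of a polygon: points over a given abscissa, separating heights. -/

namespace Pool.Agent.Lib.MP_5a3ebe_gt.Ap

/-- The point with abscissa `x` of the line through `P` and `Q`. -/
noncomputable def linePt (P Q : ℂ) (x : ℝ) : ℂ := ⟨x, lineH P Q x⟩

@[simp] lemma linePt_re (P Q : ℂ) (x : ℝ) : (linePt P Q x).re = x := rfl
@[simp] lemma linePt_im (P Q : ℂ) (x : ℝ) : (linePt P Q x).im = lineH P Q x := rfl

lemma linePt_mem {P Q : ℂ} (h : P.re ≠ Q.re) {x : ℝ} (h1 : min P.re Q.re ≤ x)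
    (h2 : x ≤ max P.re Q.re) : linePt P Q x ∈ segment ℝ P Q := by
  have hd : Q.re - P.re ≠ 0 := sub_ne_zero.2 h.symm
  have ht : 0 ≤ (x - P.re) / (Q.re - P.re) ∧ (x - P.re) / (Q.re - P.re) ≤ 1 := by
    rcases lt_or_gt_of_ne h with h' | h'
    · rw [min_eq_left h'.le] at h1
      rw [max_eq_right h'.le] at h2
      exact ⟨div_nonneg (by linarith) (by linarith),
        (div_le_one (by linarith)).2 (by linarith)⟩
    · rw [min_eq_right h'.le] at h1
      rw [max_eq_left h'.le] at h2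
      exact ⟨div_nonneg_of_nonpos (by linarith) (by linarith),
        (div_le_one_of_neg (by linarith)).2 (by linarith)⟩
  refine ⟨1 - (x - P.re) / (Q.re - P.re), (x - P.re) / (Q.re - P.re), by linarith [ht.2], ht.1,
    by ring, ?_⟩
  apply Complex.ext
  · simp only [Complex.add_re, Complex.smul_re, smul_eq_mul, linePt_re]
    field_simp
    ring
  · simp only [Complex.add_im, Complex.smul_im, smul_eq_mul, linePt_im, lineH]
    field_simp
    ring

lemma seg_facts {P Q T : ℂ} (h : P.re ≠ Q.re) (hT : T ∈ segment ℝ P Q) :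
    T.im = lineH P Q T.re ∧ min P.re Q.re ≤ T.re ∧ T.re ≤ max P.re Q.re := by
  obtain ⟨a, b, ha, hb, hab, rfl⟩ := hT
  have hd : Q.re - P.re ≠ 0 := sub_ne_zero.2 h.symm
  obtain rfl : a = 1 - b := by linarith
  simp only [Complex.add_re, Complex.smul_re, smul_eq_mul, Complex.add_im, Complex.smul_im, lineH]
  refine ⟨?_, ?_, ?_⟩
  · field_simp
    ring
  · have h1 := min_le_left P.re Q.re
    have h2 := min_le_right P.re Q.re
    nlinarith
  · have h1 := le_max_left P.re Q.re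
    have h2 := le_max_right P.re Q.re
    nlinarith

lemma seg_norm_le {P Q T o : ℂ} {r : ℝ} (hT : T ∈ segment ℝ P Q) (hP : ‖P - o‖ ≤ r)
    (hQ : ‖Q - o‖ ≤ r) : ‖T - o‖ ≤ r := by
  have := (convex_closedBall o r).segment_subset (x := P) (y := Q)
    (by simpa [dist_eq_norm] using hP) (by simpa [dist_eq_norm] using hQ) hT
  simpa [dist_eq_norm] using this

section strip

variable {n : ℕ} (z : ZMod n → ℂ)

/-- The edge `v` has a point below the height `y` in the strip `l ≤ re ≤ r`. -/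
def botP (l r y : ℝ) (v : ZMod n) : Prop :=
  ∃ P ∈ segment ℝ (z v) (z (v + 1)), l ≤ P.re ∧ P.re ≤ r ∧ P.im < y

/-- The polygon avoids the band of half width `g` about the height `y` in the strip. -/
def Clear (l r y g : ℝ) : Prop :=
  ∀ v, ∀ P ∈ segment ℝ (z v) (z (v + 1)), l ≤ P.re → P.re ≤ r → g ≤ |P.im - y|

variable {z}

lemma bot_iff {l r y g : ℝ} (hc : Clear z l r y g) (hg : 0 < g) {v : ZMod n} {Q : ℂ}
    (hQ : Q ∈ segment ℝ (z v) (z (v + 1))) (h1 : l ≤ Q.re) (h2 : Q.re ≤ r) :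
    botP z l r y v ↔ Q.im < y := by
  refine ⟨?_, fun h => ⟨Q, hQ, h1, h2, h⟩⟩
  rintro ⟨P, hP, p1, p2, p3⟩
  by_contra hy
  push Not at hy
  have hd : 0 < Q.im - P.im := by linarith
  set t := (y - P.im) / (Q.im - P.im) with ht
  have t0 : 0 ≤ t := div_nonneg (by linarith) hd.le
  have t1 : t ≤ 1 := (div_le_one hd).2 (by linarith)
  have hm := convex_segment (z v) (z (v + 1)) hP hQ (a := 1 - t) (b := t) (by linarith) t0
    (by ring)
  have := hc v _ hm
    (by simp only [Complex.add_re, Complex.smul_re, smul_eq_mul]; nlinarith)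
    (by simp only [Complex.add_re, Complex.smul_re, smul_eq_mul]; nlinarith)
  have e : ((1 - t) • P + t • Q).im - y = 0 := by
    simp only [Complex.add_im, Complex.smul_im, smul_eq_mul, ht]
    field_simp
    ring
  rw [e, abs_zero] at this
  linarith

end strip

section poly

variable {n : ℕ} [NeZero n] {z : ZMod n → ℂ} {h : ℝ} {X : ZMod n → ℤ}

omit [NeZero n] in
lemma succ_ne (hn : 3 ≤ n) (v : ZMod n) : v ≠ v + 1 := by
  intro e
  have h1 : (1 : ZMod n) = 0 := by linear_combination -e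
  have : Fact (1 < n) := ⟨by omega⟩
  exact one_ne_zero h1

omit [NeZero n] in
lemma re_ne (hn : 3 ≤ n) (hi : ∀ i j, (z i).re = (z j).re → i = j) (v : ZMod n) :
    (z v).re ≠ (z (v + 1)).re := fun e => succ_ne hn v (hi _ _ e)

lemma min_re (hh : 0 < h) (hX : ∀ i, (z i).re = h * X i) (v : ZMod n) :
    min (z v).re (z (v + 1)).re = h * ((polyDiag z h X).b v : ℝ) := by
  simp only [polyDiag, hX, Int.cast_min]
  rw [mul_min_of_nonneg _ _ hh.le]

lemma max_re (hh : 0 < h) (hX : ∀ i, (z i).re = h * X i) (v : ZMod n) :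
    max (z v).re (z (v + 1)).re = h * ((polyDiag z h X).e v : ℝ) := by
  simp only [polyDiag, hX, Int.cast_max]
  rw [mul_max_of_nonneg _ _ hh.le]

lemma edge_mem (hn : 3 ≤ n) (hi : ∀ i j, (z i).re = (z j).re → i = j) (hh : 0 < h)
    (hX : ∀ i, (z i).re = h * X i) {v : ZMod n} {x : ℝ}
    (h1 : h * ((polyDiag z h X).b v : ℝ) ≤ x) (h2 : x ≤ h * ((polyDiag z h X).e v : ℝ)) :
    linePt (z v) (z (v + 1)) x ∈ segment ℝ (z v) (z (v + 1)) :=
  linePt_mem (re_ne hn hi v) (by rwa [min_re hh hX]) (by rwa [max_re hh hX])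

lemma mid_mem (hn : 3 ≤ n) (hi : ∀ i j, (z i).re = (z j).re → i = j) (hh : 0 < h)
    (hX : ∀ i, (z i).re = h * X i) {v : ZMod n} {k : ℤ} (hk : (polyDiag z h X).Al k v) :
    linePt (z v) (z (v + 1)) (h * (k + 1 / 2)) ∈ segment ℝ (z v) (z (v + 1)) := by
  obtain ⟨-, h1, h2⟩ := hk
  have h1' : ((polyDiag z h X).b v : ℝ) ≤ k := by exact_mod_cast h1
  have h2' : (k : ℝ) + 1 ≤ (polyDiag z h X).e v := by exact_mod_cast h2
  exact edge_mem hn hi hh hX (by nlinarith) (by nlinarith)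

lemma touch_mem (hn : 3 ≤ n) (hi : ∀ i j, (z i).re = (z j).re → i = j) (hh : 0 < h)
    (hX : ∀ i, (z i).re = h * X i) {v : ZMod n} {k : ℤ} (hk : (polyDiag z h X).Touch k v) :
    linePt (z v) (z (v + 1)) (h * k) ∈ segment ℝ (z v) (z (v + 1)) := by
  obtain ⟨-, h1, h2⟩ := hk
  have h1' : ((polyDiag z h X).b v : ℝ) ≤ k := by exact_mod_cast h1
  have h2' : (k : ℝ) ≤ (polyDiag z h X).e v := by exact_mod_cast h2
  exact edge_mem hn hi hh hX (by nlinarith) (by nlinarith)

lemma wall_fwd (v : ZMod n) :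
    (polyDiag z h X).wall (v, decide (X v < X (v + 1))) = X (v + 1) := by
  by_cases hv : X v < X (v + 1)
  · simp only [hv, decide_true, Diag.wall_true, polyDiag]
    omega
  · simp only [hv, decide_false, Diag.wall_false, polyDiag]
    omega

lemma J_fwd (v : ZMod n) : ((polyDiag z h X).J (v, decide (X v < X (v + 1)))).1 = v + 1 := by
  simp [polyDiag]

lemma sep_of_clear (hn : 3 ≤ n) (hi : ∀ i j, (z i).re = (z j).re → i = j) (hh : 0 < h)
    (hX : ∀ i, (z i).re = h * X i) {i0 i1 : ℤ} {y g : ℝ}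
    (hc : Clear z (h * i0) (h * i1) y g) (hg : 0 < g) :
    (polyDiag z h X).Sep i0 i1 (botP z (h * i0) (h * i1) y) y g := by
  have key : ∀ k s, i0 ≤ k → k < i1 → (polyDiag z h X).Al k s →
      (botP z (h * i0) (h * i1) y s ↔ (polyDiag z h X).key k s < y) ∧
        g ≤ |(polyDiag z h X).key k s - y| := by
    intro k s h0 h1 hk
    have hm := mid_mem hn hi hh hX hk
    have h0' : (i0 : ℝ) ≤ k := by exact_mod_cast h0
    have h1' : (k : ℝ) + 1 ≤ i1 := by exact_mod_cast h1
    have a1 : h * i0 ≤ (linePt (z s) (z (s + 1)) (h * (k + 1 / 2))).re := by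
      rw [linePt_re]; nlinarith
    have a2 : (linePt (z s) (z (s + 1)) (h * (k + 1 / 2))).re ≤ h * i1 := by
      rw [linePt_re]; nlinarith
    exact ⟨bot_iff hc hg hm a1 a2, hc s _ hm a1 a2⟩
  have vert : ∀ v : ZMod n, i0 < X (v + 1) → X (v + 1) < i1 →
      (botP z (h * i0) (h * i1) y (v + 1) ↔ botP z (h * i0) (h * i1) y v) := by
    intro v h0 h1
    have h0' : (i0 : ℝ) ≤ X (v + 1) := by exact_mod_cast h0.le
    have h1' : (X (v + 1) : ℝ) ≤ i1 := by exact_mod_cast h1.le
    have a1 : h * i0 ≤ (z (v + 1)).re := by rw [hX]; nlinarith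
    have a2 : (z (v + 1)).re ≤ h * i1 := by rw [hX]; nlinarith
    rw [bot_iff hc hg (left_mem_segment ℝ _ _) a1 a2,
      bot_iff hc hg (right_mem_segment ℝ _ _) a1 a2]
  refine ⟨fun k s h0 h1 hk hb => ?_, fun k s h0 h1 hk hb => ?_, fun s _ β h0 h1 => ?_⟩
  · obtain ⟨e1, e2⟩ := key k s h0 h1 hk
    have := e1.1 hb
    rw [abs_of_neg (by linarith)] at e2
    linarith
  · obtain ⟨e1, e2⟩ := key k s h0 h1 hk
    have : ¬ (polyDiag z h X).key k s < y := fun e => hb (e1.2 e)
    rw [abs_of_nonneg (by linarith)] at e2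
    linarith
  · by_cases hβ : β = decide (X s < X (s + 1))
    · subst hβ
      rw [wall_fwd] at h0 h1
      rw [J_fwd]
      exact vert s h0 h1
    · have hw : (polyDiag z h X).wall (s, β) = X s := by
        by_cases hv : X s < X (s + 1)
        · obtain rfl : β = false := by simpa [hv] using hβ
          simp only [Diag.wall_false, polyDiag]
          omega
        · obtain rfl : β = true := by simpa [hv] using hβ
          simp only [Diag.wall_true, polyDiag]
          omega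
      have hJ : ((polyDiag z h X).J (s, β)).1 = s - 1 := by
        simp only [polyDiag, hβ, if_false]
      rw [hw] at h0 h1
      rw [hJ]
      have := vert (s - 1) (by rwa [sub_add_cancel]) (by rwa [sub_add_cancel])
      rw [sub_add_cancel] at this
      exact this.symm

/-- A bound for all slopes. -/
lemma exists_slope (hn : 3 ≤ n) (hi : ∀ i j, (z i).re = (z j).re → i = j) :
    ∃ S : ℝ, 0 < S ∧ ∀ v, ∀ P ∈ segment ℝ (z v) (z (v + 1)), ∀ Q ∈ segment ℝ (z v) (z (v + 1)),
      |P.im - Q.im| ≤ S * |P.re - Q.re| := by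
  obtain ⟨S, hS⟩ := (Set.finite_range fun v : ZMod n =>
    |((z (v + 1)).im - (z v).im) / ((z (v + 1)).re - (z v).re)|).bddAbove
  have h0 : 0 ≤ S := (abs_nonneg _).trans (hS ⟨0, rfl⟩)
  refine ⟨S + 1, by linarith, fun v P hP Q hQ => ?_⟩
  have e : P.im - Q.im =
      ((z (v + 1)).im - (z v).im) / ((z (v + 1)).re - (z v).re) * (P.re - Q.re) := by
    rw [(seg_facts (re_ne hn hi v) hP).1, (seg_facts (re_ne hn hi v) hQ).1]
    simp only [lineH]
    ring
  rw [e, abs_mul]
  exact mul_le_mul_of_nonneg_right ((hS ⟨v, rfl⟩).trans (by linarith)) (abs_nonneg _)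

/-- Among `n + 1` well spaced heights, one is avoided by the polygon in a thin strip. -/
lemma exists_clear {S W g l r η y0 : ℝ} (hS : 0 < S)
    (hsl : ∀ v, ∀ P ∈ segment ℝ (z v) (z (v + 1)), ∀ Q ∈ segment ℝ (z v) (z (v + 1)),
      |P.im - Q.im| ≤ S * |P.re - Q.re|) (hW : r - l ≤ 2 * W) (hg : S * W ≤ g)
    (hη : 4 * g ≤ |η|) : ∃ m : ℕ, 1 ≤ m ∧ m ≤ n + 1 ∧ Clear z l r (y0 + m * η) g := by
  by_contra hno
  push Not at hno
  have hb : ∀ m : Fin (n + 1), ∃ v, ∃ P ∈ segment ℝ (z v) (z (v + 1)), l ≤ P.re ∧ P.re ≤ r ∧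
      |P.im - (y0 + ((m.val + 1 : ℕ) : ℝ) * η)| < g := by
    intro m
    have := hno (m.val + 1) (by omega) (by omega)
    simp only [Clear, not_forall, not_le] at this
    obtain ⟨v, P, hP, h1, h2, h3⟩ := this
    exact ⟨v, P, hP, h1, h2, h3⟩
  choose v P hP h1 h2 h3 using hb
  obtain ⟨a, b, hab, e⟩ := Fintype.exists_ne_map_eq_of_card_lt v (by simp [ZMod.card])
  have s1 := hsl (v a) (P a) (hP a) (P b) (e ▸ hP b)
  have s2 : |(P a).re - (P b).re| ≤ 2 * W := by
    rw [abs_le]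
    constructor <;> linarith [h1 a, h2 a, h1 b, h2 b]
  have s3 : |(P a).im - (P b).im| ≤ 2 * g := by nlinarith
  have s4 : (1 : ℝ) ≤ |(a.val : ℝ) - b.val| := by
    have : (1 : ℤ) ≤ |(a.val : ℤ) - b.val| := by
      have : a.val ≠ b.val := fun e => hab (Fin.ext e)
      rcases lt_or_gt_of_ne this with h | h
      · rw [abs_of_neg (by omega)]; omega
      · rw [abs_of_pos (by omega)]; omega
    exact_mod_cast this
  have s5 : |((a.val : ℝ) - b.val) * η| < 4 * g := by
    have a3 := abs_lt.1 (h3 a)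
    have b3 := abs_lt.1 (h3 b)
    have c3 := abs_le.1 s3
    push_cast at a3 b3
    rw [abs_lt]
    constructor <;> nlinarith
  rw [abs_mul] at s5
  nlinarith [abs_nonneg η]

end poly

end Pool.Agent.Lib.MP_5a3ebe_gt.Ap
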