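import Pool.Agent.Lib.MP_5a3ebe_gt.ApFinalA
import Pool.Agent.Lib.MP_5a3ebe_gt.ApChord
import Pool.Agent.Lib.MP_5a3ebe_gt.ApArea

/-! The level function of a polygon is its action, modulo the period. -/

namespace Pool.Agent.Lib.MP_5a3ebe_gt.Ap

/-- At a common end, the levels of two strands differ by a multiple of the period. -/
lemma Diag.Lev.jump {ι : Type} {D : Diag ι} (G : D.Good) {Δ F : ℤ → ι → ℝ} {A : ℝ}
    (L : D.Lev Δ F A) {s : ι} (hs : s ∈ D.S) (β : Bool) :
    ∃ m : ℤ, F (D.wall (s, β)) (D.J (s, β)).1 = F (D.wall (s, β)) s + m * A := by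
  have h1 := G.JS s hs β
  have h2 := G.JJ s hs β
  have h4 := G.Jw s hs β
  obtain ⟨k, hk⟩ : ∃ k, D.wall (s, β) = k + 1 := ⟨D.wall (s, β) - 1, by ring⟩
  rw [hk]
  rcases hJ : D.J (s, β) with ⟨c, β'⟩
  rw [hJ] at h1 h2 h4
  cases β <;> cases β'
  · rcases Diag.cup_of G hs hJ hk with h | h
    · have := L.cup _ _ _ h
      split_ifs at this
      · exact ⟨0, by simp [this]⟩
      · exact ⟨1, by simp [this]⟩
    · have := L.cup _ _ _ h
      split_ifs at this
      · exact ⟨0, by simp [this]⟩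
      · exact ⟨-1, by simp [this]⟩
  · have := L.pass k c s ⟨h1, h2, by simpa [hk] using h4⟩
    exact ⟨0, by simp [this]⟩
  · have := L.pass k s c ⟨hs, hJ, hk⟩
    exact ⟨0, by simp [this]⟩
  · rcases Diag.cap_of G hs hJ hk with h | h
    · have := L.cap _ _ _ h
      split_ifs at this
      · exact ⟨0, by simp [this]⟩
      · exact ⟨-1, by simp [this]⟩
    · have := L.cap _ _ _ h
      split_ifs at this
      · exact ⟨0, by simp [this]⟩
      · exact ⟨1, by simp [this]⟩

lemma act_anti (P Q : ℂ) : act P Q = -act Q P := by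
  simp only [act]; ring

lemma act_shift (P Q o : ℂ) : act P Q = act (P - o) (Q - o) - (Q.re - P.re) * o.im := by
  simp only [act, Complex.sub_re, Complex.sub_im]; ring

lemma act_le {P Q : ℂ} {r : ℝ} (hP : ‖P‖ ≤ r) (hQ : ‖Q‖ ≤ r) : |act P Q| ≤ 2 * r ^ 2 := by
  have a1 := (Complex.abs_re_le_norm P).trans hP
  have a2 := (Complex.abs_re_le_norm Q).trans hQ
  have a3 := (Complex.abs_im_le_norm P).trans hP
  have a4 := (Complex.abs_im_le_norm Q).trans hQ
  have b1 : |Q.re - P.re| ≤ 2 * r := by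
    rw [abs_le] at *; constructor <;> linarith [a1.1, a1.2, a2.1, a2.2]
  have b2 : |P.im + Q.im| ≤ 2 * r := by
    rw [abs_le] at *; constructor <;> linarith [a3.1, a3.2, a4.1, a4.2]
  have hr : 0 ≤ r := (norm_nonneg _).trans hP
  simp only [act, abs_neg, abs_div, abs_mul, abs_two]
  have := mul_le_mul b1 b2 (abs_nonneg _) (by linarith)
  nlinarith

lemma act_step (P Q : ℂ) (h : ℝ) (k : ℤ) :
    act P (linePt P Q (h * ((k + 1 : ℤ) : ℝ))) =
      act P (linePt P Q (h * k)) + -(h * lineH P Q (h * (k + 1 / 2))) := by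
  simp only [act, linePt_re, linePt_im, lineH]
  push_cast
  ring

section poly

variable {n : ℕ} [NeZero n] {z : ZMod n → ℂ} {h : ℝ} {X : ZMod n → ℤ} {F : ℤ → ZMod n → ℝ}
  {A : ℝ}

lemma lev_edge (L : (polyDiag z h X).Lev (fun k s => -(h * (polyDiag z h X).key k s)) F A)
    (v : ZMod n) {i : ℤ} (ht : (polyDiag z h X).Touch i v) :
    F i v - act (z v) (linePt (z v) (z (v + 1)) (h * i)) =
      F ((polyDiag z h X).b v) v -
        act (z v) (linePt (z v) (z (v + 1)) (h * ((polyDiag z h X).b v : ℤ))) := by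
  obtain ⟨hs, h1, h2⟩ := ht
  induction i, h1 using Int.leInduction with
  | base => rfl
  | succ k hk ih =>
    rw [← ih (by omega), L.step k v ⟨hs, hk, by omega⟩, act_step]
    simp only [polyDiag]
    ring

lemma touch_left (v : ZMod n) : (polyDiag z h X).Touch (X v) v :=
  ⟨Finset.mem_univ _, min_le_left _ _, le_max_left _ _⟩

lemma touch_right (v : ZMod n) : (polyDiag z h X).Touch (X (v + 1)) v :=
  ⟨Finset.mem_univ _, min_le_right _ _, le_max_right _ _⟩

lemma lev_pt (hX : ∀ i, (z i).re = h * X i)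
    (L : (polyDiag z h X).Lev (fun k s => -(h * (polyDiag z h X).key k s)) F A)
    {v : ZMod n} {i : ℤ} (ht : (polyDiag z h X).Touch i v) :
    F i v = F (X v) v + act (z v) (linePt (z v) (z (v + 1)) (h * i)) := by
  have e1 := lev_edge L v ht
  have e2 := lev_edge L v (touch_left v)
  have e3 : act (z v) (linePt (z v) (z (v + 1)) (h * X v)) = 0 := by
    simp only [act, linePt_re, ← hX, sub_self]
    ring
  linarith

lemma lev_succ (hn : 3 ≤ n) (hi : ∀ i j, (z i).re = (z j).re → i = j)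
    (hX : ∀ i, (z i).re = h * X i) (G : (polyDiag z h X).Good)
    (L : (polyDiag z h X).Lev (fun k s => -(h * (polyDiag z h X).key k s)) F A) (v : ZMod n) :
    ∃ m : ℤ, F (X (v + 1)) (v + 1) = F (X v) v + act (z v) (z (v + 1)) + m * A := by
  obtain ⟨m, hm⟩ := L.jump G (Finset.mem_univ v) (decide (X v < X (v + 1)))
  rw [wall_fwd, J_fwd] at hm
  have e1 := lev_pt hX L (touch_right v)
  have e2 : linePt (z v) (z (v + 1)) (h * X (v + 1)) = z (v + 1) := by
    rw [← hX]
    apply Complex.ext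
    · rfl
    · exact (seg_facts (re_ne hn hi v) (right_mem_segment ℝ _ _)).1.symm
  rw [e2] at e1
  exact ⟨m, by linarith⟩

lemma lev_chain (hn : 3 ≤ n) (hi : ∀ i j, (z i).re = (z j).re → i = j)
    (hX : ∀ i, (z i).re = h * X i) (G : (polyDiag z h X).Good)
    (L : (polyDiag z h X).Lev (fun k s => -(h * (polyDiag z h X).key k s)) F A) (a b : ℤ)
    (hab : a ≤ b) : ∃ m : ℤ, F (X b) b = F (X a) a +
      ∑ v ∈ Finset.Ico a b, act (z v) (z (v + 1 : ℤ)) + m * A := by
  induction b, hab using Int.leInduction with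
  | base => exact ⟨0, by simp⟩
  | succ k hk ih =>
    obtain ⟨m, hm⟩ := ih
    obtain ⟨m', hm'⟩ := lev_succ hn hi hX G L (k : ZMod n)
    refine ⟨m + m', ?_⟩
    rw [← Finset.insert_Ico_right_eq_Ico_add_one hk, Finset.sum_insert (by simp)]
    push_cast at hm hm' ⊢
    linarith

/-- Two close vertices have levels differing by the action of the chord, up to a small error. -/
lemma lev_close {C : Set ℂ} {ρ R K d δ : ℝ} {c : ℂ} (M : Model C ρ R K d δ n z c) (hδ : 0 < δ)
    (hK : 0 < K) (hX : ∀ i, (z i).re = h * X i) (G : (polyDiag z h X).Good)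
    (L : (polyDiag z h X).Lev (fun k s => -(h * (polyDiag z h X).key k s)) F A) {s t : ZMod n}
    (hst : ‖z s - z t‖ ≤ K * δ) : ∃ (m : ℤ) (τ : ℝ), |τ| ≤ 1000 * (K + 3) ^ 2 * d ^ 2 ∧
      F (X s) s = F (X t) t + act (z t) (z s) + τ + m * A := by
  obtain ⟨a, b, hab, hn, hc, hd⟩ := M.loc s t hst
  obtain ⟨m, hm⟩ := lev_chain M.three M.inj hX G L a b hab
  rcases hc with ⟨rfl, rfl⟩ | ⟨rfl, rfl⟩
  · have := chord_bound areaBound M hδ hK a b hab hn hd (by rwa [norm_sub_rev])
    refine ⟨-m, -(∑ v ∈ Finset.Ico a b, act (z v) (z (v + 1 : ℤ)) - act (z a) (z b)),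
      by rwa [abs_neg], ?_⟩
    rw [act_anti (z b) (z a)]
    push_cast at hm ⊢
    linarith
  · have := chord_bound areaBound M hδ hK a b hab hn hd hst
    exact ⟨m, _, this, by linarith⟩

/-- The same for two points on edges, all near a centre `o`. -/
lemma lev_pair {C : Set ℂ} {ρ R K d δ : ℝ} {c : ℂ} (M : Model C ρ R K d δ n z c) (hδ : 0 < δ)
    (hK : 0 < K) (hX : ∀ i, (z i).re = h * X i) (G : (polyDiag z h X).Good)
    (L : (polyDiag z h X).Lev (fun k s => -(h * (polyDiag z h X).key k s)) F A) {s t : ZMod n}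
    {i j : ℤ} (hs : (polyDiag z h X).Touch i s) (ht : (polyDiag z h X).Touch j t) {o : ℂ} {r : ℝ}
    (h1 : ‖z s - o‖ ≤ r) (h2 : ‖z t - o‖ ≤ r)
    (h3 : ‖linePt (z s) (z (s + 1)) (h * i) - o‖ ≤ r)
    (h4 : ‖linePt (z t) (z (t + 1)) (h * j) - o‖ ≤ r) (hr : 2 * r ≤ K * δ) :
    ∃ (m : ℤ) (τ : ℝ), |τ| ≤ 1000 * (K + 3) ^ 2 * d ^ 2 + 6 * r ^ 2 ∧
      F i s - F j t = -((h * i - h * j) * o.im) + τ + m * A := by
  have hst : ‖z s - z t‖ ≤ K * δ := by
    have := norm_sub_le (z s - o) (z t - o)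
    rw [sub_sub_sub_cancel_right] at this
    linarith
  obtain ⟨m, τ, hτ, e⟩ := lev_close M hδ hK hX G L hst
  have e1 := lev_pt hX L hs
  have e2 := lev_pt hX L ht
  rw [act_shift _ _ o] at e e1 e2
  have b0 := abs_le.1 (act_le h2 h1)
  have b1 := abs_le.1 (act_le h1 h3)
  have b2 := abs_le.1 (act_le h2 h4)
  have b3 := abs_le.1 hτ
  refine ⟨m, τ + act (z t - o) (z s - o) + act (z s - o) (linePt (z s) (z (s + 1)) (h * i) - o) -
    act (z t - o) (linePt (z t) (z (t + 1)) (h * j) - o), ?_, ?_⟩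
  · rw [abs_le]
    constructor <;> linarith [b0.1, b0.2, b1.1, b1.2, b2.1, b2.2, b3.1, b3.2]
  · rw [linePt_re] at e1 e2
    rw [e1, e2, e]
    ring

end poly

end Pool.Agent.Lib.MP_5a3ebe_gt.Ap
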