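import Pool.Agent.Lib.MP_5a3ebe_gt.ApMerge

/-! Removing a finger or an oval at the leftmost cap, and the resulting induction principle. -/

set_option linter.unusedSectionVars false

namespace Pool.Agent.Lib.MP_5a3ebe_gt.Ap

open Classical

namespace Diag

variable {ι : Type} [DecidableEq ι] {D : Diag ι}

/-- No strand ends before the wall `k + 1`. -/
def Left (D : Diag ι) (k : ℤ) : Prop := ∀ t ∈ D.S, k + 1 ≤ D.e t

lemma Left.al {k2 k t} (h : D.Left k2) (hk : k ≤ k2) : D.Al k t ↔ t ∈ D.S ∧ D.b t ≤ k :=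
  ⟨fun a => ⟨a.1, a.2.1⟩, fun a => ⟨a.1, a.2, by have := h t a.1; omega⟩⟩

lemma Left.al_mono {k2 k j t} (h : D.Left k2) (hk : k ≤ j) (hj : j ≤ k2) (a : D.Al k t) :
    D.Al j t := (h.al hj).2 ⟨a.1, a.2.1.trans hk⟩

lemma Left.key (G : D.Good) {k2 k s t} (h : D.Left k2) (hk : k ≤ k2) (hs : D.Al k s)
    (ht : D.Al k t) : D.key k s < D.key k t ↔ D.key k2 s < D.key k2 t := by
  have : ∀ j, k ≤ j → j ≤ k2 → (D.key k s < D.key k t ↔ D.key j s < D.key j t) := by
    intro j hj
    induction j, hj using Int.leInduction with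
    | base => intro _; rfl
    | succ j hj ih =>
      intro h2
      rw [ih (by omega)]
      exact G.mono _ _ _ (h.al_mono hj (by omega) hs) (h.al_mono (by omega) h2 hs)
        (h.al_mono hj (by omega) ht) (h.al_mono (by omega) h2 ht)
  exact this k2 hk le_rfl

lemma Left.event (G : D.Good) {k2 k} (h : D.Left k2) (hk : k < k2) :
    D.Quiet k ∨ ∃ a c, D.Cup k a c := by
  rcases Diag.event G k with e | e | ⟨s, p, e⟩ | ⟨s, p, e⟩
  · exact Or.inl e
  · exact Or.inr e
  · have := h s e.1; have := e.2.2.1; omega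
  · have := h s e.1; have := e.2.2; omega

/-! ### Ovals -/

def oval (D : Diag ι) (s p : ι) : Diag ι := { D with S := (D.S.erase s).erase p }

structure OCfg (D : Diag ι) (k1 k2 : ℤ) (s p : ι) : Prop where
  cup : D.Cup k1 s p
  cap : D.Cap k2 s p
  left : D.Left k2

lemma oval_mem {s p t : ι} : t ∈ (D.oval s p).S ↔ t ∈ D.S ∧ t ≠ s ∧ t ≠ p := by
  simp [oval]; tauto

lemma oval_al {s p t : ι} {k} : (D.oval s p).Al k t ↔ D.Al k t ∧ t ≠ s ∧ t ≠ p := by
  simp only [Al, oval_mem]; simp [oval]; tauto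

lemma OCfg.J_ne (G : D.Good) {k1 k2 s p} (h : D.OCfg k1 k2 s p) {t} (ht : t ∈ D.S) (h1 : t ≠ s)
    (h2 : t ≠ p) (β) : (D.J (t, β)).1 ≠ s ∧ (D.J (t, β)).1 ≠ p := by
  have j1 := h.cup.2.1
  have j2 := h.cap.2.1
  have j3 := (h.cup.facts G).2.2.2.1
  have j4 := (h.cap.facts G).2.2.2.1
  have jj := G.JJ t ht β
  rcases hy : D.J (t, β) with ⟨c, _ | _⟩ <;> rw [hy] at jj <;> constructor <;> rintro rfl <;>
    simp_all

lemma OCfg.good (G : D.Good) {k1 k2 s p} (h : D.OCfg k1 k2 s p) : (D.oval s p).Good := by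
  refine ⟨fun t ht => G.lt t (oval_mem.1 ht).1, fun t ht β => ?_,
    fun t ht => G.JJ t (oval_mem.1 ht).1, fun t ht => G.Jne t (oval_mem.1 ht).1,
    fun t ht => G.Jw t (oval_mem.1 ht).1, fun t ht => G.Jdir t (oval_mem.1 ht).1,
    fun t ht u hu => G.uniq t (oval_mem.1 ht).1 u (oval_mem.1 hu).1,
    fun k t u ht hu => G.inj k t u (oval_al.1 ht).1 (oval_al.1 hu).1,
    fun k t u h1 h2 h3 h4 => G.mono k t u (oval_al.1 h1).1 (oval_al.1 h2).1 (oval_al.1 h3).1
      (oval_al.1 h4).1,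
    fun k a c t hp h1 h2 => G.pass k a c t ⟨(oval_mem.1 hp.1).1, hp.2⟩ (oval_al.1 h1).1
      (oval_al.1 h2).1,
    fun k a c t hp h1 => G.cup k a c t ⟨(oval_mem.1 hp.1).1, hp.2⟩ (oval_al.1 h1).1,
    fun k a c t hp h1 => G.cap k a c t ⟨(oval_mem.1 hp.1).1, hp.2⟩ (oval_al.1 h1).1⟩
  obtain ⟨h1, h2, h3⟩ := oval_mem.1 ht
  exact oval_mem.2 ⟨G.JS t h1 β, h.J_ne G h1 h2 h3 β⟩

/-! ### Fingers -/

noncomputable def finger (D : Diag ι) (s p q : ι) : Diag ι :=
  { D with
    S := D.S.erase p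
    e := Function.update D.e s (D.b p)
    J := fun x => if x = (s, true) then (q, false) else if x = (q, false) then (s, true)
      else D.J x }

structure FCfg (D : Diag ι) (k1 k2 : ℤ) (s p q : ι) : Prop where
  cup : D.Cup k1 p q
  cap : D.Cap k2 s p
  left : D.Left k2
  old : D.b s ≤ k1

section
variable (G : D.Good) {k1 k2 : ℤ} {s p q : ι} (h : D.FCfg k1 k2 s p q)
include G h

lemma FCfg.facts : s ∈ D.S ∧ p ∈ D.S ∧ q ∈ D.S ∧ p ≠ s ∧ q ≠ p ∧ q ≠ s ∧ D.b p = k1 + 1 ∧
    D.b q = k1 + 1 ∧ D.e s = k2 + 1 ∧ D.e p = k2 + 1 ∧ k1 < k2 ∧ k2 + 1 < D.e q ∧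
    D.key k2 s < D.key k2 p ∧ D.key k2 p < D.key k2 q := by
  obtain ⟨q1, q2, q3, q4, q5, a1, a2, -⟩ := h.cup.facts G
  obtain ⟨p1, p2, p3, p4, -⟩ := h.cap.facts G
  have := h.old
  have := h.cup.2.2.1
  have := G.lt p p1
  have qs : q ≠ s := fun e => by subst e; omega
  have := (h.cap.other G q1 qs q3).2
  have := h.left q q1
  exact ⟨h.cap.1, p1, q1, p3, q3, qs, h.cup.2.2.1, q2, h.cap.2.2.1, p2, by omega, by omega,
    h.cap.2.2.2, (h.left.key G (by omega) a1 a2).1 h.cup.2.2.2⟩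

lemma FCfg.al (k : ℤ) (t : ι) :
    (D.finger s p q).Al k t ↔ D.Al k t ∧ t ≠ p ∧ (t = s → k ≤ k1) := by
  obtain ⟨s1, p1, q1, n1, n2, n3, b1, b2, e1, e2, l1, l2, -⟩ := h.facts G
  unfold Al finger
  by_cases e : t = s
  · subst e
    simp [s1, n1.symm]; omega
  · simp [e]; tauto

lemma FCfg.J_eq {x : ι × Bool} (h1 : x ≠ (s, true)) (h2 : x ≠ (q, false)) :
    (D.finger s p q).J x = D.J x := by simp [finger, h1, h2]

lemma FCfg.J_ne {t β} (ht : t ∈ D.S) (h0 : t ≠ p) (h1 : (t, β) ≠ (s, true))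
    (h2 : (t, β) ≠ (q, false)) :
    (D.J (t, β)).1 ≠ p ∧ D.J (t, β) ≠ (s, true) ∧ D.J (t, β) ≠ (q, false) := by
  have j1 := h.cup.2.1
  have j2 := h.cap.2.1
  have j3 := (h.cup.facts G).2.2.2.1
  have j4 := (h.cap.facts G).2.2.2.1
  have jj := G.JJ t ht β
  refine ⟨fun e => ?_, fun e => ?_, fun e => ?_⟩
  · rcases hy : D.J (t, β) with ⟨c, _ | _⟩ <;> rw [hy] at jj e <;> simp only at e <;> subst e
    · exact h2 (by rw [← jj, j1])
    · exact h1 (by rw [← jj, j4])
  · rw [e, j2] at jj; exact h0 (congrArg Prod.fst jj).symm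
  · rw [e, j3] at jj; exact h0 (congrArg Prod.fst jj).symm

lemma FCfg.wall_eq {x : ι × Bool} (h1 : x ≠ (s, true)) : (D.finger s p q).wall x = D.wall x := by
  rcases x with ⟨t, _ | _⟩
  · rfl
  · have : t ≠ s := fun e => h1 (by rw [e])
    simp [finger, this]

lemma FCfg.cup_iff {k a c} : (D.finger s p q).Cup k a c ↔ D.Cup k a c ∧ k ≠ k1 := by
  obtain ⟨s1, p1, q1, n1, n2, n3, b1, b2, e1, e2, l1, l2, -⟩ := h.facts G
  constructor
  · rintro ⟨h1, h2, h3, h4⟩
    have a1 : a ≠ q := fun e => by simp [finger, e] at h2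
    rw [h.J_eq G (by simp) (by simpa using a1)] at h2
    simp only [finger, Finset.mem_erase] at h1
    refine ⟨⟨h1.2, h2, h3, h4⟩, ?_⟩
    rintro rfl
    exact (h.cup.other G h1.2 h1.1 a1).1 h3
  · rintro ⟨⟨h1, h2, h3, h4⟩, hk⟩
    have a1 : a ≠ q := fun e => by subst e; omega
    have a2 : a ≠ p := fun e => by subst e; omega
    exact ⟨by simp [finger, a2, h1], by rw [h.J_eq G (by simp) (by simpa using a1), h2], h3, h4⟩

lemma FCfg.cap_iff {k a c} : (D.finger s p q).Cap k a c ↔ D.Cap k a c ∧ k ≠ k2 := by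
  obtain ⟨s1, p1, q1, n1, n2, n3, b1, b2, e1, e2, l1, l2, -⟩ := h.facts G
  constructor
  · rintro ⟨h1, h2, h3, h4⟩
    have a1 : a ≠ s := fun e => by simp [finger, e] at h2
    rw [h.J_eq G (by simpa using a1) (by simp)] at h2
    simp only [finger, Finset.mem_erase, Function.update_of_ne a1] at h1 h3
    refine ⟨⟨h1.2, h2, h3, h4⟩, ?_⟩
    rintro rfl
    exact (h.cap.other G h1.2 a1 h1.1).2 h3
  · rintro ⟨⟨h1, h2, h3, h4⟩, hk⟩
    have a1 : a ≠ s := fun e => by subst e; omega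
    have a2 : a ≠ p := fun e => by subst e; omega
    exact ⟨by simp [finger, a2, h1], by rw [h.J_eq G (by simpa using a1) (by simp), h2],
      by simpa [finger, a1] using h3, h4⟩

lemma FCfg.pass_iff {k a c} :
    (D.finger s p q).Pass k a c ↔ D.Pass k a c ∨ (k = k1 ∧ a = s ∧ c = q) := by
  obtain ⟨s1, p1, q1, n1, n2, n3, b1, b2, e1, e2, l1, l2, -⟩ := h.facts G
  by_cases a1 : a = s
  · subst a1
    have := h.cap.2.1
    simp [Pass, finger, this, n1.symm, s1, b1, eq_comm, and_comm]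
  · have := (h.cap.facts G).2.2.2.1
    have a2 : D.J (a, true) = (c, false) → a ≠ p := fun h2 e => by rw [e, this] at h2; simp at h2
    simp only [Pass, h.J_eq G (x := (a, true)) (by simpa using a1) (by simp)]
    simp [finger, a1]
    tauto

lemma FCfg.quiet {k} (hq : D.Quiet k ∨ k = k2) : (D.finger s p q).Quiet k := by
  obtain ⟨s1, p1, q1, n1, n2, n3, b1, b2, e1, e2, l1, l2, -⟩ := h.facts G
  have := h.old
  intro t ht
  simp only [finger, Finset.mem_erase] at ht ⊢
  by_cases e : t = s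
  · subst e
    rcases hq with hq | rfl
    · simpa using ⟨(hq t s1).1, (hq p p1).1⟩
    · simp; omega
  rw [Function.update_of_ne e]
  rcases hq with hq | rfl
  · exact hq t ht.2
  · exact h.cap.other G ht.2 e ht.1

/-- Strands born up to the cup lie below `s` or above `q`. -/
lemma FCfg.out {t} (ht : t ∈ D.S) (hb : D.b t ≤ k1 + 1) (h1 : t ≠ s) (h2 : t ≠ p) (h3 : t ≠ q) :
    D.key k2 t < D.key k2 s ∨ D.key k2 q < D.key k2 t := by
  obtain ⟨s1, p1, q1, n1, n2, n3, b1, b2, e1, e2, l1, l2, o1, o2⟩ := h.facts G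
  have a1 : D.Al (k1 + 1) t := (h.left.al (by omega)).2 ⟨ht, hb⟩
  obtain ⟨-, -, -, -, -, a2, a3, -⟩ := h.cup.facts G
  have c1 := G.cup _ _ _ _ h.cup a1 h2 h3
  rw [h.left.key G (by omega) a1 a2, h.left.key G (by omega) a3 a1] at c1
  have c2 := G.cap _ _ _ _ h.cap (h.left.al_mono (by omega) le_rfl a1) h1 h2
  rcases c1 with c1 | c1
  · rcases c2 with c2 | c2
    · exact Or.inl c2
    · linarith
  · exact Or.inr c1

lemma FCfg.good : (D.finger s p q).Good := by
  obtain ⟨s1, p1, q1, n1, n2, n3, b1, b2, e1, e2, l1, l2, o1, o2⟩ := h.facts G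
  have old := h.old
  have mem : ∀ t, t ∈ (D.finger s p q).S ↔ t ≠ p ∧ t ∈ D.S := fun t => by simp [finger]
  have js : (D.finger s p q).J (s, true) = (q, false) := by simp [finger]
  have jq : (D.finger s p q).J (q, false) = (s, true) := by simp [finger]
  have ws : (D.finger s p q).wall (s, true) = k1 + 1 := by simp [finger, b1]
  have wq : (D.finger s p q).wall (q, false) = k1 + 1 := by simp [finger, b2]
  have al : ∀ {k t}, (D.finger s p q).Al k t → D.Al k t := fun a => ((h.al G _ _).1 a).1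
  have w1 : ∀ t ∈ (D.finger s p q).S, ∀ β, (D.finger s p q).wall (t, β) = k1 + 1 →
      (t, β) = (s, true) ∨ (t, β) = (q, false) := by
    intro t ht β e
    by_contra hc
    push Not at hc
    rw [h.wall_eq G hc.1] at e
    rw [mem] at ht
    rcases G.uniq q q1 t ht.2 false β (by simpa [b2] using e.symm) with e | e
    · exact hc.2 e
    · rw [(h.cup.facts G).2.2.2.1] at e
      exact ht.1 (congrArg Prod.fst e)
  refine ⟨fun t ht => ?_, fun t ht β => ?_, fun t ht β => ?_, fun t ht β => ?_, fun t ht β => ?_,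
    fun t ht β => ?_, fun t ht u hu β β' e => ?_,
    fun k t u ht hu => G.inj k t u (al ht) (al hu),
    fun k t u h1 h2 h3 h4 => G.mono k t u (al h1) (al h2) (al h3) (al h4),
    fun k a c t hp h1 h2 => ?_,
    fun k a c t hp h1 => G.cup k a c t ((h.cup_iff G).1 hp).1 (al h1),
    fun k a c t hp h1 => G.cap k a c t ((h.cap_iff G).1 hp).1 (al h1)⟩
  · by_cases e : t = s
    · subst e; simp [finger]; omega
    · simpa [finger, e] using G.lt t ((mem t).1 ht).2
  all_goals try rw [mem] at ht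
  · by_cases x1 : (t, β) = (s, true)
    · rw [x1, js, mem]; exact ⟨n2, q1⟩
    by_cases x2 : (t, β) = (q, false)
    · rw [x2, jq, mem]; exact ⟨n1.symm, s1⟩
    rw [h.J_eq G x1 x2, mem]
    exact ⟨(h.J_ne G ht.2 ht.1 x1 x2).1, G.JS t ht.2 β⟩
  · by_cases x1 : (t, β) = (s, true)
    · rw [x1, js, jq]
    by_cases x2 : (t, β) = (q, false)
    · rw [x2, jq, js]
    have := h.J_ne G ht.2 ht.1 x1 x2
    rw [h.J_eq G x1 x2, h.J_eq G this.2.1 this.2.2, G.JJ t ht.2]
  · by_cases x1 : (t, β) = (s, true)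
    · rw [x1, js]; simp only [Prod.mk.injEq] at x1; rw [x1.1]; exact n3
    by_cases x2 : (t, β) = (q, false)
    · rw [x2, jq]; simp only [Prod.mk.injEq] at x2; rw [x2.1]; exact n3.symm
    rw [h.J_eq G x1 x2]
    exact G.Jne t ht.2 β
  · by_cases x1 : (t, β) = (s, true)
    · rw [x1, js, ws, wq]
    by_cases x2 : (t, β) = (q, false)
    · rw [x2, jq, ws, wq]
    have := h.J_ne G ht.2 ht.1 x1 x2
    rw [h.J_eq G x1 x2, h.wall_eq G this.2.1, h.wall_eq G x1, G.Jw t ht.2]
  · have d1 := (h.cup.facts G).2.2.2.2.1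
    have d2 := (h.cap.facts G).2.2.2.2.1
    have d3 : D.dir q = D.dir s := by
      revert d1 d2; cases D.dir q <;> cases D.dir s <;> cases D.dir p <;> simp
    by_cases x1 : (t, β) = (s, true)
    · rw [x1, js]; simp only [Prod.mk.injEq] at x1; simp [x1, finger, d3]
    by_cases x2 : (t, β) = (q, false)
    · rw [x2, jq]; simp only [Prod.mk.injEq] at x2; simp [x2, finger, d3]
    rw [h.J_eq G x1 x2]
    exact G.Jdir t ht.2 β
  · by_cases x1 : (t, β) = (s, true)
    · rw [x1, ws] at e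
      rw [x1, js]
      exact w1 u hu β' e.symm
    by_cases x2 : (t, β) = (q, false)
    · rw [x2, wq] at e
      rw [x2, jq]
      exact (w1 u hu β' e.symm).symm
    by_cases x3 : (u, β') = (s, true)
    · rw [x3, ws] at e
      exact absurd (w1 t ((mem t).2 ht) β e) (by simp only [x1, x2, or_self, not_false_eq_true])
    rw [h.wall_eq G x1, h.wall_eq G x3] at e
    rw [h.J_eq G x1 x2]
    exact G.uniq t ht.2 u ((mem u).1 hu).2 β β' e
  · rcases (h.pass_iff G).1 hp with hp | ⟨rfl, rfl, rfl⟩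
    · exact G.pass k a c t hp (al h1) (al h2)
    · obtain ⟨a1, t1, -⟩ := (h.al G _ _).1 h1
      obtain ⟨a2, -, t2⟩ := (h.al G _ _).1 h2
      have t3 : t ≠ a := fun e => by have := t2 e; omega
      have t4 : t ≠ c := fun e => by have := a1.2.1; subst e; omega
      have := h.out G a1.1 a2.2.1 t3 t1 t4
      show D.key k t < D.key k a ↔ D.key (k + 1) t < D.key (k + 1) c
      rw [h.left.key G (by omega) a1 ⟨s1, old, by omega⟩,
        h.left.key G (by omega) a2 ⟨q1, by omega, by omega⟩]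
      rcases this with e | e <;> constructor <;> intro <;> linarith

end

variable [Fintype ι]

theorem induct (Q : Diag ι → Prop) (h0 : ∀ D : Diag ι, D.S = ∅ → Q D)
    (hflip : ∀ D : Diag ι, D.Good → Q D.flip → Q D)
    (hmerge : ∀ (D : Diag ι) k s q, D.Good → D.Pass k s q → Q (D.merge s q) → Q D)
    (hoval : ∀ (D : Diag ι) k1 k2 s p, D.Good → D.OCfg k1 k2 s p → Q (D.oval s p) → Q D)
    (hfinger : ∀ (D : Diag ι) k1 k2 s p q, D.Good → D.FCfg k1 k2 s p q → Q (D.finger s p q) → Q D)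
    (D : Diag ι) (G : D.Good) : Q D := by
  induction hn : D.S.card using Nat.strong_induction_on generalizing D with
  | _ n ih =>
  have step : ∀ (D : Diag ι) k2 s p, D.Good → D.S.card = n → D.Cap k2 s p → D.Left k2 →
      D.b s ≤ D.b p → Q D := by
    intro D k2 s p G hn hc hl hb
    obtain ⟨p1, p2, p3, -, -, a1, a2, -⟩ := hc.facts G
    have lp := G.lt p p1
    rcases hy : D.J (p, false) with ⟨q, _ | _⟩
    swap
    · have w := G.Jw p p1 false
      have := G.JS p p1 false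
      rw [hy] at w this
      have := hl q this
      simp at w
      omega
    have hcup := cup_of G (k := D.b p - 1) p1 hy (by omega)
    by_cases hq : q = s
    · subst hq
      rcases hcup with hcup | hcup
      · obtain ⟨-, -, -, -, -, c1, c2, -⟩ := hcup.facts G
        have := (hl.key G (by omega) c1 c2).1 hcup.2.2.2
        have := hc.2.2.2
        linarith
      · have cfg : D.OCfg (D.b p - 1) k2 q p := ⟨hcup, hc, hl⟩
        refine hoval D _ _ _ _ G cfg (ih _ ?_ _ (cfg.good G) rfl)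
        exact lt_of_le_of_lt Finset.card_erase_le (hn ▸ Finset.card_erase_lt_of_mem hc.1)
    · have hb' : D.b s ≤ D.b p - 1 := by
        have : D.b p ≠ D.b s := fun e => by
          rcases G.uniq p p1 s hc.1 false false e with e | e
          · exact p3 (congrArg Prod.fst e).symm
          · rw [hy] at e; exact hq (congrArg Prod.fst e).symm
        omega
      rcases hcup with hcup | hcup
      · have cfg : D.FCfg (D.b p - 1) k2 s p q := ⟨hcup, hc, hl, hb'⟩
        exact hfinger D _ _ _ _ _ G cfg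
          (ih _ (hn ▸ Finset.card_erase_lt_of_mem p1) _ (cfg.good G) rfl)
      · exfalso
        obtain ⟨-, -, n1, -, -, c1, c2, -⟩ := hcup.facts G
        have as : D.Al (D.b p - 1 + 1) s := hl.al (by omega) |>.2 ⟨hc.1, by omega⟩
        have k1 := (hl.key G (by omega) c1 c2).1 hcup.2.2.2
        have k2' := G.cap _ _ _ _ hc (hl.al_mono (by omega) le_rfl c1) hq n1.symm
        have k3 := G.cup _ _ _ _ hcup as (Ne.symm hq) p3.symm
        rw [hl.key G (by omega) as c1, hl.key G (by omega) c2 as] at k3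
        have := hc.2.2.2
        rcases k2' with k2' | k2' <;> rcases k3 with k3 | k3 <;> linarith
  rcases D.S.eq_empty_or_nonempty with he | he
  · exact h0 D he
  obtain ⟨s, hs, hmin⟩ := D.S.exists_min_image D.e he
  have hl : D.Left (D.e s - 1) := fun t ht => by have := hmin t ht; omega
  rcases hy : D.J (s, true) with ⟨c, _ | _⟩
  · have hp : D.Pass (D.e s - 1) s c := ⟨hs, hy, by omega⟩
    exact hmerge D _ _ _ G hp (ih _ (hn ▸ Finset.card_erase_lt_of_mem hs) _ (hp.good_merge G) rfl)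
  · obtain ⟨a, p, hc⟩ : ∃ a p, D.Cap (D.e s - 1) a p := by
      rcases cap_of G (k := D.e s - 1) hs hy (by omega) with h | h <;> exact ⟨_, _, h⟩
    rcases le_total (D.b a) (D.b p) with hb | hb
    · exact step D _ a p G hn hc hl hb
    · exact hflip D G (step D.flip _ p a G.flip hn ((flip_cap G).2 hc) hl hb)

end Diag

end Pool.Agent.Lib.MP_5a3ebe_gt.Ap
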