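import Pool.Agent.Lib.MP_5a3ebe_gt.ApBig

/-! The algebraic system of a diagram from that of a reduced diagram. -/

set_option linter.unusedSectionVars false

namespace Pool.Agent.Lib.MP_5a3ebe_gt.Ap

open Classical Matrix

variable {ι : Type} [Fintype ι] [DecidableEq ι]

lemma big_el {S B : Matrix ι ι F2} {A A' : ι → Prop} {s p a c : ι} {m χ m' χ' : ι → F2}
    (h : InsH S A s p m χ) (h' : InsH B A' s p m' χ') (e : El B S a c) (ac : a ≠ c)
    (ha : ¬ A a) (hc : ¬ A c) (as : a ≠ s) (ap : a ≠ p) (cs : c ≠ s) (cp : c ≠ p)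
    (hm : ∀ t, t ≠ a → m' t = m t) (hχ : ∀ t, t ≠ c → χ' t = χ t) :
    El (big B s p m' χ') (big S s p m χ) a c ∧
      (B *ᵥ χ') a = (B *ᵥ χ) a + χ' c ∧ (m' ᵥ* B) c = (m ᵥ* B) c + m' a := by
  obtain ⟨e1, e2⟩ := e
  have ma := h.m0 ha
  have mc := h.m0 hc
  have ca := h.c0 ha
  have cc := h.c0 hc
  have em : m' = m + Pi.single a (m' a) := by
    funext t
    by_cases t1 : t = a
    · simp [t1, ma]
    · simp [t1, hm t t1]
  have ec : χ' = χ + Pi.single c (χ' c) := by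
    funext t
    by_cases t1 : t = c
    · simp [t1, cc]
    · simp [t1, hχ t t1]
  have b1 : ∀ g, (B *ᵥ χ') g = (B *ᵥ χ) g + B g c * χ' c := fun g => by
    conv_lhs => rw [ec]
    simp [mulVec_add, mul_comm]
  have b2 : ∀ t, (m' ᵥ* B) t = (m ᵥ* B) t + m' a * B a t := fun g => by
    conv_lhs => rw [em]
    simp [add_vecMul]
  have i1 : ∀ g, g ≠ a → g ≠ c → (S *ᵥ χ) g = (B *ᵥ χ) g + B g c * (B *ᵥ χ) a := by
    intro g g1 g2
    simp only [mulVec, dotProduct, Finset.mul_sum, ← Finset.sum_add_distrib]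
    refine Finset.sum_congr rfl fun v _ => ?_
    by_cases v1 : v = a
    · simp [v1, ca]
    by_cases v2 : v = c
    · simp [v2, cc]
    rw [e2 g v g1 g2 v1 v2]; ring
  have i2 : ∀ t, t ≠ a → t ≠ c → (m ᵥ* S) t = (m ᵥ* B) t + (m ᵥ* B) c * B a t := by
    intro g g1 g2
    simp only [vecMul, dotProduct, Finset.sum_mul, ← Finset.sum_add_distrib]
    refine Finset.sum_congr rfl fun v _ => ?_
    by_cases v1 : v = a
    · simp [v1, ma]
    by_cases v2 : v = c
    · simp [v2, mc]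
    rw [e2 v g v1 v2 g1 g2]; ring
  have i3 : m ⬝ᵥ S *ᵥ χ = m ⬝ᵥ B *ᵥ χ + (m ᵥ* B) c * (B *ᵥ χ) a := by
    have : (m ᵥ* B) c = ∑ v, m v * B v c := rfl
    rw [this]
    simp only [dotProduct, Finset.sum_mul, ← Finset.sum_add_distrib]
    refine Finset.sum_congr rfl fun v _ => ?_
    by_cases v1 : v = a
    · simp [v1, ma]
    by_cases v2 : v = c
    · simp [v2, mc]
    rw [i1 v v1 v2]; ring
  have i4 : m' ⬝ᵥ B *ᵥ χ' = m ⬝ᵥ B *ᵥ χ + (m ᵥ* B) c * χ' c + m' a * (B *ᵥ χ') a := by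
    conv_lhs => rw [em]
    rw [add_dotProduct, single_dotProduct]
    congr 1
    have : (m ᵥ* B) c = ∑ v, m v * B v c := rfl
    rw [this]
    simp only [dotProduct, Finset.sum_mul, ← Finset.sum_add_distrib, b1]
    refine Finset.sum_congr rfl fun v _ => by ring
  have m'c : m' c = 0 := by rw [hm c ac.symm, mc]
  have c'a : χ' a = 0 := by rw [hχ a ac, ca]
  refine ⟨⟨?_, fun x y x1 x2 y1 y2 => ?_⟩, by rw [b1, e1, one_mul], by rw [b2, e1, mul_one]⟩
  · rw [InsH.row_g as ap]; simp [e1, c'a, cp]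
  rw [InsH.row_g as ap y]
  by_cases xp : x = p
  · subst xp
    rw [h.row_p, h'.row_p, h'.row_p]
    simp [cs, m'c, hm y y1]
  by_cases xs : x = s
  · subst xs
    rw [h.row_s, h'.row_s, h'.row_s, i2 y y1 y2, i3, i4]
    simp only [b1, b2, e1, c'a, cp, if_false]
    split_ifs <;> grind
  rw [InsH.row_g xs xp, InsH.row_g xs xp, InsH.row_g xs xp, i1 x x1 x2, e2 x y x1 x2 y1 y2]
  simp only [b1, e1, c'a, cp, cs, if_false, m'c, hχ x x2, hm y y1]
  split_ifs <;> grind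

namespace Diag

structure InsCfg (D D' : Diag ι) (d' : ℤ → Matrix ι ι F2) (k1 k2 : ℤ) (s p : ι)
    (m χ : ℤ → ι → F2) : Prop where
  cap : D.Cap k2 s p
  left : D.Left k2
  lt : k1 < k2
  alg : D'.Alg d'
  key : D'.key = D.key
  dir : D'.dir = D.dir
  bs : D.b s ≤ k1 + 1
  bp : D.b p ≤ k1 + 1
  alOut : ∀ k, ¬ (k1 < k ∧ k ≤ k2) → ∀ t, D'.Al k t ↔ D.Al k t
  alIn : ∀ k, k1 < k → k ≤ k2 → ∀ t, D'.Al k t ↔ D.Al k t ∧ t ≠ s ∧ t ≠ p
  evQ : ∀ k, D.Quiet k ∨ k = k2 → D'.Quiet k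
  evCup : ∀ k a c, k ≠ k1 → D.Cup k a c → D'.Cup k a c
  evCap : ∀ k a c, k ≠ k2 → D.Cap k a c → D'.Cap k a c
  evPass : ∀ k a c, D.Pass k a c → D'.Pass k a c
  mS : ∀ k r, k1 < k → k ≤ k2 → m k r ≠ 0 →
    D'.Al k r ∧ D.key k2 p < D.key k2 r ∧ D.dir r = D.dir s
  cS : ∀ k r, k1 < k → k ≤ k2 → χ k r ≠ 0 →
    D'.Al k r ∧ D.key k2 r < D.key k2 s ∧ D.dir r = D.dir p
  stQ : ∀ k, k1 < k → k < k2 → D.Quiet k → m (k + 1) = m k ∧ χ (k + 1) = χ k
  stC : ∀ k a c, k1 < k → k < k2 → D.Cup k a c → (∀ t, t ≠ a → m (k + 1) t = m k t) ∧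
    (∀ t, t ≠ c → χ (k + 1) t = χ k t) ∧
    (D.key k2 p < D.key k2 a → m (k + 1) a = (m k ᵥ* d' (k + 1)) c) ∧
    (D.key k2 c < D.key k2 s → χ (k + 1) c = (d' (k + 1) *ᵥ χ k) a)
  cup1 : ∃ a c, D.Cup k1 a c ∧ El (big (d' (k1 + 1)) s p (m (k1 + 1)) (χ (k1 + 1))) (d' k1) a c ∧
    (∀ t, big (d' (k1 + 1)) s p (m (k1 + 1)) (χ (k1 + 1)) a t ≠ 0 →
      t = c ∨ D.key (k1 + 1) t < D.key (k1 + 1) a) ∧
    (∀ t, big (d' (k1 + 1)) s p (m (k1 + 1)) (χ (k1 + 1)) t c ≠ 0 →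
      t = a ∨ D.key (k1 + 1) c < D.key (k1 + 1) t)

noncomputable def insd (d' : ℤ → Matrix ι ι F2) (k1 k2 : ℤ) (s p : ι) (m χ : ℤ → ι → F2) (k : ℤ) :
    Matrix ι ι F2 := if k1 < k ∧ k ≤ k2 then big (d' k) s p (m k) (χ k) else d' k

variable {D D' : Diag ι} {d' : ℤ → Matrix ι ι F2} {k1 k2 : ℤ} {s p : ι} {m χ : ℤ → ι → F2}

lemma Cup.unique (G : D.Good) {k a c a' c'} (h : D.Cup k a c) (h' : D.Cup k a' c') :
    a' = a ∧ c' = c := by
  have o := h'.2.2.2
  by_cases e1 : a' = a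
  · subst e1
    exact ⟨rfl, congrArg Prod.fst (h'.2.1.symm.trans h.2.1)⟩
  by_cases e2 : a' = c
  · subst e2
    have := congrArg Prod.fst (h'.2.1.symm.trans (h.facts G).2.2.2.1)
    simp only at this
    subst this
    have := h.2.2.2
    linarith
  exact absurd h'.2.2.1 (h.other G h'.1 e1 e2).1

lemma Cap.unique (G : D.Good) {k a c a' c'} (h : D.Cap k a c) (h' : D.Cap k a' c') :
    a' = a ∧ c' = c := by
  have o := h'.2.2.2
  by_cases e1 : a' = a
  · subst e1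
    exact ⟨rfl, congrArg Prod.fst (h'.2.1.symm.trans h.2.1)⟩
  by_cases e2 : a' = c
  · subst e2
    have := congrArg Prod.fst (h'.2.1.symm.trans (h.facts G).2.2.2.1)
    simp only at this
    subst this
    have := h.2.2.2
    linarith
  exact absurd h'.2.2.1 (h.other G h'.1 e1 e2).2

section
variable (G : D.Good) (h : InsCfg D D' d' k1 k2 s p m χ)
include G h

lemma InsCfg.insH {k} (h1 : k1 < k) (h2 : k ≤ k2) : InsH (d' k) (D'.Al k) s p (m k) (χ k) where
  ne := (h.cap.facts G).2.2.1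
  As := fun e => ((h.alIn k h1 h2 s).1 e).2.1 rfl
  Bp := fun e => ((h.alIn k h1 h2 p).1 e).2.2 rfl
  supp := fun x y e => ⟨(h.alg.supp _ _ _ e).1, (h.alg.supp _ _ _ e).2.1⟩
  sq := by rw [h.alg.sq]; rfl
  mA := fun x e => (h.mS k x h1 h2 e).1
  cA := fun x e => (h.cS k x h1 h2 e).1
  mc := fun x => by
    by_contra e
    have := (h.mS k x h1 h2 (left_ne_zero_of_mul e)).2.1
    have := (h.cS k x h1 h2 (right_ne_zero_of_mul e)).2.1
    have := h.cap.2.2.2
    linarith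

/-- The possible entries of the enlarged matrix. -/
lemma InsCfg.entry {k} (h1 : k1 < k) (h2 : k ≤ k2) {g t}
    (e : big (d' k) s p (m k) (χ k) g t ≠ 0) :
    d' k g t ≠ 0 ∨ (g = p ∧ (t = s ∨ m k t ≠ 0)) ∨ (g = s ∧ t = p) ∨
      (g = s ∧ ∃ r, m k r ≠ 0 ∧ d' k r t ≠ 0) ∨ (χ k g ≠ 0 ∧ (t = s ∨ m k t ≠ 0)) ∨
      (t = p ∧ ∃ v, d' k g v ≠ 0 ∧ χ k v ≠ 0) := by
  have H := h.insH G h1 h2
  have aux : ((if t = s then 1 else 0) + m k t : F2) ≠ 0 → t = s ∨ m k t ≠ 0 := fun e => by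
    by_cases ts : t = s
    · exact Or.inl ts
    · simpa [ts] using e
  by_cases gp : g = p
  · subst gp
    rw [H.row_p] at e
    exact Or.inr (Or.inl ⟨rfl, aux e⟩)
  by_cases gs : g = s
  · subst gs
    rw [H.row_s] at e
    by_cases tp : t = p
    · exact Or.inr (Or.inr (Or.inl ⟨rfl, tp⟩))
    · simp only [tp, if_false, add_zero] at e
      exact Or.inr (Or.inr (Or.inr (Or.inl ⟨rfl, F2.sum_ne e⟩)))
  rw [InsH.row_g gs gp] at e
  rcases F2.add_ne e with e | e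
  · rcases F2.add_ne e with e | e
    · exact Or.inl e
    · exact Or.inr (Or.inr (Or.inr (Or.inr (Or.inl
        ⟨left_ne_zero_of_mul e, aux (right_ne_zero_of_mul e)⟩))))
  · by_cases tp : t = p
    · simp only [tp, if_true] at e
      exact Or.inr (Or.inr (Or.inr (Or.inr (Or.inr ⟨tp, F2.sum_ne e⟩))))
    · simp [tp] at e

lemma InsCfg.alg_ins : D.Alg (insd d' k1 k2 s p m χ) := by
  obtain ⟨p1, p2, p3, p4, p5, -⟩ := h.cap.facts G
  have als : ∀ k, k1 < k → k ≤ k2 → D.Al k s := fun k h1 h2 =>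
    (h.left.al h2).2 ⟨h.cap.1, by have := h.bs; omega⟩
  have alp : ∀ k, k1 < k → k ≤ k2 → D.Al k p := fun k h1 h2 =>
    (h.left.al h2).2 ⟨p1, by have := h.bp; omega⟩
  have din : ∀ k, k1 < k → k ≤ k2 → insd d' k1 k2 s p m χ k = big (d' k) s p (m k) (χ k) :=
    fun k h1 h2 => if_pos ⟨h1, h2⟩
  have dout : ∀ k, (k ≤ k1 ∨ k2 < k) → insd d' k1 k2 s p m χ k = d' k :=
    fun k h1 => if_neg (by omega)
  have osp := h.cap.2.2.2
  obtain ⟨a1, c1, cup1, cup2⟩ := h.cup1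
  have lt := h.lt
  refine ⟨fun k g t e => ?_, fun k => ?_, fun k hq => ?_, fun k a c hp => ?_, fun k a c hc => ?_,
    fun k a c hc => ?_⟩
  · by_cases hk : k1 < k ∧ k ≤ k2
    · rw [din k hk.1 hk.2] at e
      have al : ∀ {t}, D'.Al k t → D.Al k t := fun a => ((h.alIn k hk.1 hk.2 _).1 a).1
      have sp : ∀ {g t}, d' k g t ≠ 0 → D.Al k g ∧ D.Al k t ∧ D.dir g ≠ D.dir t := fun e =>
        ⟨al (h.alg.supp _ _ _ e).1, al (h.alg.supp _ _ _ e).2.1,
          h.dir ▸ (h.alg.supp _ _ _ e).2.2⟩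
      have aux : t = s ∨ m k t ≠ 0 → D.Al k t ∧ D.dir t = D.dir s := by
        rintro (rfl | e)
        · exact ⟨als k hk.1 hk.2, rfl⟩
        · exact ⟨al (h.mS k t hk.1 hk.2 e).1, (h.mS k t hk.1 hk.2 e).2.2⟩
      rcases h.entry G hk.1 hk.2 e with e | ⟨rfl, e0⟩ | ⟨rfl, rfl⟩ | ⟨rfl, r, e1, e2⟩ | ⟨e1, e2⟩ |
        ⟨rfl, v, e1, e2⟩
      · exact sp e
      · exact ⟨alp k hk.1 hk.2, (aux e0).1, (aux e0).2 ▸ p5⟩
      · exact ⟨als k hk.1 hk.2, alp k hk.1 hk.2, p5.symm⟩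
      · exact ⟨als k hk.1 hk.2, (sp e2).2.1, (h.mS k r hk.1 hk.2 e1).2.2 ▸ (sp e2).2.2⟩
      · have := h.cS k g hk.1 hk.2 e1
        exact ⟨al this.1, (aux e2).1, by rw [this.2.2, (aux e2).2]; exact p5⟩
      · exact ⟨(sp e1).1, alp k hk.1 hk.2, (h.cS k v hk.1 hk.2 e2).2.2 ▸ (sp e1).2.2⟩
    · rw [dout k (by omega)] at e
      have := h.alg.supp _ _ _ e
      rwa [h.alOut k hk, h.alOut k hk, h.dir] at this
  · by_cases hk : k1 < k ∧ k ≤ k2
    · rw [din k hk.1 hk.2, (h.insH G hk.1 hk.2).big_sq, P]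
      congr 1
      funext t
      have := als k hk.1 hk.2
      have := alp k hk.1 hk.2
      congr 1
      rw [h.alIn k hk.1 hk.2]
      by_cases t1 : t = s
      · simp [*]
      by_cases t2 : t = p
      · simp [*]
      simp [t1, t2]
    · rw [dout k (by omega), h.alg.sq, P, P]
      simp only [h.alOut k hk]
  · have n1 : k ≠ k1 := fun e => (hq a1 cup1.1).1 (e ▸ cup1.2.2.1)
    have n2 : k ≠ k2 := fun e => (hq s h.cap.1).2 (e ▸ h.cap.2.2.1)
    have := h.alg.quiet k (h.evQ k (Or.inl hq))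
    by_cases hk : k1 < k ∧ k < k2
    · rw [din k hk.1 hk.2.le, din (k + 1) (by omega) (by omega), this, (h.stQ k hk.1 hk.2 hq).1,
        (h.stQ k hk.1 hk.2 hq).2]
    · rw [dout k (by omega), dout (k + 1) (by omega), this]
  · have := h.left a hp.1
    have := hp.2.2
    have n2 : k ≠ k2 := by
      rintro rfl
      obtain ⟨q1, q2, -, -, -, -, a2, -⟩ := hp.facts G
      obtain ⟨-, -, -, -, -, -, -, n1, n2⟩ := h.cap.facts G
      exact (h.cap.other G q1 (fun e => n1 (e ▸ a2)) (fun e => n2 (e ▸ a2))).1 q2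
    rw [dout k (by omega), dout (k + 1) (by omega)]
    exact h.alg.pass k a c (h.evPass k a c hp)
  · by_cases n1 : k = k1
    · subst n1
      obtain ⟨rfl, rfl⟩ := cup1.unique G hc
      rw [din (k + 1) (by omega) (by omega), dout k (by omega)]
      exact cup2
    have hc' := h.alg.cup k a c (h.evCup k a c n1 hc)
    rw [h.key] at hc'
    obtain ⟨f1, f2, f3, f4, f5, f6, f7, f8, f9⟩ := hc.facts G
    have n2 : k ≠ k2 := by
      rintro rfl
      obtain ⟨-, -, -, -, -, -, -, n1, n2⟩ := h.cap.facts G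
      exact (h.cap.other G f1 (fun e => n1 (e ▸ f7)) (fun e => n2 (e ▸ f7))).1 f2
    by_cases hk : k1 < k ∧ k < k2
    swap
    · rw [dout k (by omega), dout (k + 1) (by omega)]
      exact hc'
    rw [din k hk.1 hk.2.le, din (k + 1) (by omega) (by omega)]
    have H := h.insH G hk.1 hk.2.le
    have H' := h.insH G (k := k + 1) (by omega) (by omega)
    have s0 := als k hk.1 hk.2.le
    have p0 := alp k hk.1 hk.2.le
    have as : a ≠ s := fun e => f8 (e ▸ s0)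
    have ap : a ≠ p := fun e => f8 (e ▸ p0)
    have cs : c ≠ s := fun e => f9 (e ▸ s0)
    have cp : c ≠ p := fun e => f9 (e ▸ p0)
    have na : ¬ D'.Al k a := fun e => f8 ((h.alIn k hk.1 hk.2.le _).1 e).1
    have nc : ¬ D'.Al k c := fun e => f9 ((h.alIn k hk.1 hk.2.le _).1 e).1
    obtain ⟨r1, r2, r3, r4⟩ := h.stC k a c hk.1 hk.2 hc
    obtain ⟨E, i1, i2⟩ := big_el H H' hc'.1 f3.symm na nc as ap cs cp r1 r2
    have s1 := als (k + 1) (by omega) (by omega)
    have p1' := alp (k + 1) (by omega) (by omega)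
    have kk := fun {u v} (hu : D.Al (k + 1) u) (hv : D.Al (k + 1) v) =>
      h.left.key G (k := k + 1) (by omega) hu hv
    have oac := (kk f6 f7).1 hc.2.2.2
    have side : D.key k2 p < D.key k2 a ∨ D.key k2 c < D.key k2 s := by
      have x1 := G.cap _ _ _ _ h.cap (h.left.al_mono (by omega) le_rfl f6) as ap
      have x2 := G.cap _ _ _ _ h.cap (h.left.al_mono (by omega) le_rfl f7) cs cp
      have x3 := G.cup _ _ _ _ hc s1 as.symm cs.symm
      rw [kk s1 f6, kk f7 s1] at x3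
      rcases x1 with x1 | x1
      · rcases x3 with x3 | x3
        · linarith
        · exact Or.inr x3
      · exact Or.inl x1
    refine ⟨E, fun t e => ?_, fun t e => ?_⟩
    · rw [InsH.row_g as ap, r2 a f3.symm, H.c0 na, zero_mul, add_zero] at e
      rcases F2.add_ne e with e | e
      · exact hc'.2.1 t e
      · by_cases tp : t = p
        · subst tp
          rcases side with x | x
          · exact Or.inr ((kk p1' f6).2 x)
          · rw [if_pos rfl, i1, r4 x, F2.add_self] at e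
            exact absurd rfl e
        · simp [tp] at e
    · have mc : m (k + 1) c = 0 := by rw [r1 c f3, H.m0 nc]
      by_cases tp : t = p
      · subst tp
        rw [H'.row_p] at e
        simp [cs, mc] at e
      by_cases ts : t = s
      · subst ts
        rcases side with x | x
        · rw [H'.row_s, if_neg cp, add_zero, i2, r3 x, F2.add_self] at e
          exact absurd rfl e
        · exact Or.inr ((kk f7 s1).2 x)
      rw [InsH.row_g ts tp] at e
      simp only [cs, cp, if_false, mc, add_zero, mul_zero] at e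
      exact hc'.2.2 t e
  · by_cases n2 : k = k2
    swap
    · have := h.left a hc.1
      have := hc.2.2.1
      rw [dout k (by omega), dout (k + 1) (by omega), ← h.key]
      exact h.alg.cap k a c (h.evCap k a c n2 hc)
    subst n2
    obtain ⟨rfl, rfl⟩ := h.cap.unique G hc
    have H := h.insH G lt le_rfl
    rw [din k lt le_rfl, dout (k + 1) (by omega), h.alg.quiet k (h.evQ k (Or.inr rfl))]
    refine ⟨⟨by simp [H.row_p, H.m0 H.As], fun x y x1 x2 y1 y2 => ?_⟩, fun t e => ?_, fun t e => ?_⟩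
    · rw [InsH.row_g x2 x1, InsH.row_g x2 x1, H.row_p]
      simp only [y1, y2, if_false, if_true, H.d0 (Or.inr H.As), H.m0 H.As, p3.symm]
      grind
    · rw [H.row_p] at e
      by_cases ts : t = a
      · exact Or.inl ts
      · simp only [ts, if_false, zero_add] at e
        exact Or.inr (h.mS k t lt le_rfl e).2.1
    · by_cases tp : t = c
      · exact Or.inl tp
      by_cases ts : t = a
      · subst ts
        rw [H.row_s] at e
        simp [H.md0 H.As, p3.symm] at e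
      rw [InsH.row_g ts tp] at e
      simp only [H.d0 (Or.inr H.As), H.m0 H.As, p3.symm, if_true, if_false, add_zero, zero_add,
        mul_one] at e
      exact Or.inr (h.cS k t lt le_rfl e).2.1

lemma InsCfg.pos_ins {lam α} (hl : D.Adm lam α)
    (h0 : ∀ k g t, k2 < k → d' k g t ≠ 0 →
      lam k t ≤ lam k g + α ∧ lam (k + 1) t ≤ lam (k + 1) g + α)
    (h1 : ∀ g t, d' k2 g t ≠ 0 → lam (k2 + 1) t ≤ lam (k2 + 1) g + α)
    (h2 : ∀ r, m k2 r ≠ 0 → lam (k2 + 1) r ≤ lam (k2 + 1) p + α)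
    (h3 : ∀ r, χ k2 r ≠ 0 → lam (k2 + 1) s ≤ lam (k2 + 1) r + α) {k g t}
    (e : insd d' k1 k2 s p m χ k g t ≠ 0) :
    lam k t ≤ lam k g + α ∧ lam (k + 1) t ≤ lam (k + 1) g + α := by
  have lt := h.lt
  rcases lt_or_ge k2 k with hk | hk
  · rw [insd, if_neg (by omega)] at e
    exact h0 k g t hk e
  refine pos_left G (h.alg_ins G) hl h.left (fun g t e o => ?_) hk e
  rw [insd, if_pos ⟨lt, le_rfl⟩] at e
  have lc := hl.cap _ _ _ h.cap
  have osp := h.cap.2.2.2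
  rcases h.entry G lt le_rfl e with e | ⟨rfl, rfl | e0⟩ | ⟨rfl, rfl⟩ | ⟨rfl, r, e1, e2⟩ |
    ⟨e1, rfl | e2⟩ | ⟨rfl, v, e1, e2⟩
  · exact h1 g t e
  · exact lc.le
  · have := (h.mS _ _ lt le_rfl e0).2.1; linarith
  · linarith
  · have := h1 _ _ e2; have := h2 _ e1; linarith
  · have := (h.cS _ _ lt le_rfl e1).2.1; linarith
  · have := (h.cS _ _ lt le_rfl e1).2.1; have := (h.mS _ _ lt le_rfl e2).2.1; linarith
  · have := h1 _ _ e1; have := h3 _ e2; linarith

end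

end Diag

end Pool.Agent.Lib.MP_5a3ebe_gt.Ap
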