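import Pool.Agent.Lib.MP_5a3ebe_gt.ApCore

/-! Existence of level data on connected sliced diagrams, and parity of the period. -/

set_option linter.unusedSectionVars false

namespace Pool.Agent.Lib.MP_5a3ebe_gt.Ap

open Classical

/-- Running sums starting from the wall `c`. -/
lemma exists_psum {A : Type} [AddCommGroup A] (δ : ℤ → A) (c : ℤ) :
    ∃ σ : ℤ → A, σ c = 0 ∧ ∀ k, c ≤ k → σ (k + 1) = σ k + δ k := by
  refine ⟨fun i => ∑ j ∈ Finset.range (i - c).toNat, δ (c + j), by simp, fun k hk => ?_⟩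
  have h1 : (k + 1 - c).toNat = (k - c).toNat + 1 := by omega
  have h2 : c + ((k - c).toNat : ℤ) = k := by omega
  simp only [h1, Finset.sum_range_succ, h2]

namespace Diag

variable {ι : Type} {A : Type} [AddCommGroup A]

/-- Level data with one period for each component. -/
structure LevV (D : Diag ι) (Δ F : ℤ → ι → A) (a : ι → A) : Prop where
  step : ∀ k s, D.Al k s → F (k + 1) s = F k s + Δ k s
  pass : ∀ k s q, D.Pass k s q → F (k + 1) q = F (k + 1) s
  cup : ∀ k s q, D.Cup k s q → F (k + 1) q = F (k + 1) s + if D.dir s then 0 else a s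
  cap : ∀ k s p, D.Cap k s p → F (k + 1) s = F (k + 1) p + if D.dir p then 0 else a p
  con : ∀ s ∈ D.S, ∀ β, a (D.J (s, β)).1 = a s

variable {D : Diag ι}

lemma levV_flip (G : D.Good) (h : ∀ Δ : ℤ → ι → A, ∃ F a, D.flip.LevV Δ F a)
    (Δ : ℤ → ι → A) : ∃ F a, D.LevV Δ F a := by
  obtain ⟨F, a, L⟩ := h fun k s => -Δ k s
  have con : ∀ s ∈ D.S, ∀ β, a (D.J (s, β)).1 = a s := L.con
  refine ⟨fun k s => -F k s + if D.dir s then a s else 0, a, fun k s hs => ?_,
    fun k s q hp => ?_, fun k s q hc => ?_, fun k s p hc => ?_, con⟩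
  · have := L.step k s hs
    simp only [this]
    abel
  · have e1 := L.pass k s q hp
    have e2 := con s hp.1 true
    rw [hp.2.1] at e2
    simp only at e2
    simp only [e1, e2, (hp.facts G).2.2.2.2.1]
  · have e1 := L.cup k q s ((flip_cup G).2 hc)
    have e2 := con s hc.1 false
    rw [hc.2.1] at e2
    simp only at e2
    have e3 : D.flip.dir q = D.dir q := rfl
    simp only [e1, e2, e3]
    cases D.dir q <;> cases D.dir s <;> simp
  · have e1 := L.cap k p s ((flip_cap G).2 hc)
    have e2 := con s hc.1 true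
    rw [hc.2.1] at e2
    simp only at e2
    have e3 : D.flip.dir s = D.dir s := rfl
    simp only [e1, e2, e3]
    cases D.dir p <;> cases D.dir s <;> simp

variable [DecidableEq ι]

lemma levV_merge (G : D.Good) {k0 s q} (h : D.Pass k0 s q)
    (ih : ∀ Δ : ℤ → ι → A, ∃ F a, (D.merge s q).LevV Δ F a) (Δ : ℤ → ι → A) :
    ∃ F a, D.LevV Δ F a := by
  obtain ⟨F, a, L⟩ := ih fun k t => Δ k (D.ren s q k t)
  obtain ⟨q1, q2, q3, q4, q5, a1, a2, a3, a4⟩ := h.facts G
  have es := h.2.2
  let r : ι → ι := fun t => if t = s then q else t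
  have rs : r s = q := by simp [r]
  have rn : ∀ t, t ≠ s → r t = t := fun t ht => by simp [r, ht]
  have rw' : ∀ t, t ≠ q → Equiv.swap s q t = r t := fun t ht => by
    by_cases e : t = s
    · rw [e, rs, Equiv.swap_apply_left]
    · rw [rn t e, Equiv.swap_apply_of_ne_of_ne e ht]
  have rd : ∀ t, D.dir (r t) = D.dir t := fun t => by
    by_cases e : t = s
    · rw [e, rs, q5]
    · rw [rn t e]
  have rt : ∀ y : ι × Bool, y ≠ (s, true) → y ≠ (q, false) → (tw s q y).1 = r y.1 := by
    rintro ⟨u, _ | _⟩ h1 h2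
    · exact rw' u fun e => h2 (by rw [e])
    · exact (rn u fun e => h1 (by rw [e])).symm
  refine ⟨fun i t => F i (r t), fun t => a (r t), fun k t ht => ?_, fun k c d hp => ?_,
    fun k c d hc => ?_, fun k c d hc => ?_, fun t ht β => ?_⟩
  · have e : D.ren s q k t = r t := by
      by_cases e1 : t = s
      · have := ht.2.2
        subst e1
        unfold ren
        rw [if_pos this, rs, Equiv.swap_apply_left]
      by_cases e2 : t = q
      · have := ht.2.1
        subst e2
        unfold ren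
        rw [if_neg (by omega), rn _ e1]
        rfl
      rw [ren_of_ne _ e1 e2, rn _ e1]
    have := L.step k (D.ren s q k t) (by rw [h.merge_al G, ren_ren]; exact ht)
    simp only [ren_ren] at this
    rw [← e]
    exact this
  · by_cases e : c = s
    · have : d = q := by
        have := hp.2.1
        rw [e, h.2.1] at this
        exact (congrArg Prod.fst this).symm
      simp only [e, this, rs, rn q q3]
    · have d1 : d ≠ q := fun e' => by
        have := (hp.facts G).2.2.2.1
        rw [e', q4] at this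
        exact e (congrArg Prod.fst this).symm
      have := L.pass k c _ ((h.merge_pass G k c d).2 ⟨e, hp⟩)
      simp only [rn c e, ← rw' d d1, this]
  · have c1 : c ≠ q := fun e => by have := hc.2.1; rw [e, q4] at this; simp at this
    have d1 : d ≠ q := fun e => by
      have := (hc.facts G).2.2.2.1
      rw [e, q4] at this; simp at this
    have := L.cup k _ _ ((h.merge_cup G k c d).2 hc)
    rw [rw' c c1, rw' d d1] at this
    have e3 : (D.merge s q).dir (r c) = D.dir c := rd c
    simp only [this, e3]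
  · have c1 : c ≠ s := fun e => by have := hc.2.1; rw [e, h.2.1] at this; simp at this
    have d1 : d ≠ s := fun e => by
      have := (hc.facts G).2.2.2.1
      rw [e, h.2.1] at this; simp at this
    have := L.cap k _ _ ((h.merge_cap G k c d).2 hc)
    have e3 : (D.merge s q).dir d = D.dir d := rfl
    simp only [rn c c1, rn d d1, this, e3]
  · by_cases x1 : (t, β) = (s, true)
    · rw [x1, h.2.1]
      simp only [Prod.mk.injEq] at x1
      simp only [x1.1, rs, rn q q3]
    by_cases x2 : (t, β) = (q, false)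
    · rw [x2, q4]
      simp only [Prod.mk.injEq] at x2
      simp only [x2.1, rs, rn q q3]
    have jj := G.JJ t ht β
    have y1 : D.J (t, β) ≠ (s, true) := fun e => by
      rw [e, h.2.1] at jj; exact x2 jj.symm
    have y2 : D.J (t, β) ≠ (q, false) := fun e => by
      rw [e, q4] at jj; exact x1 jj.symm
    have m : (tw s q (t, β)).1 ∈ (D.merge s q).S := by
      rw [h.ends G, tw_tw]
      exact ⟨ht, x1, x2⟩
    have := L.con _ m (tw s q (t, β)).2
    simp only [merge, Prod.mk.eta, tw_tw] at this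
    rw [rt _ y1 y2, rt _ x1 x2] at this
    exact this

lemma levV_oval (G : D.Good) {k1 k2 s p} (h : D.OCfg k1 k2 s p)
    (ih : ∀ Δ : ℤ → ι → A, ∃ F a, (D.oval s p).LevV Δ F a) (Δ : ℤ → ι → A) :
    ∃ F a, D.LevV Δ F a := by
  obtain ⟨F, a, L⟩ := ih Δ
  obtain ⟨σ, σ0, σ1⟩ := exists_psum (fun k => Δ k s) (k1 + 1)
  obtain ⟨τ, τ0, τ1⟩ := exists_psum (fun k => Δ k p) (k1 + 1)
  obtain ⟨p1, p2, p3, p4, p5, -⟩ := h.cup.facts G
  obtain ⟨-, r2, -, r4, -⟩ := h.cap.facts G
  have j1 := h.cup.2.1
  have j2 := h.cap.2.1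
  have bs := h.cup.2.2.1
  have es := h.cap.2.2.1
  obtain ⟨α, hα⟩ : ∃ α, α = σ (k2 + 1) - τ (k2 + 1) := ⟨_, rfl⟩
  let F' : ℤ → ι → A := fun i t =>
    if t = s then σ i else if t = p then τ i + (if D.dir s then 0 else α) else F i t
  let a' : ι → A := fun t => if t = s ∨ t = p then α else a t
  have Fs : ∀ i, F' i s = σ i := fun i => by simp [F']
  have Fp : ∀ i, F' i p = τ i + (if D.dir s then 0 else α) := fun i => by simp [F', p3]
  have Ft : ∀ i t, t ≠ s → t ≠ p → F' i t = F i t := fun i t h1 h2 => by simp [F', h1, h2]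
  have as : a' s = α := by simp [a']
  have ap : a' p = α := by simp [a']
  have at' : ∀ t, t ≠ s → t ≠ p → a' t = a t := fun t h1 h2 => by simp [a', h1, h2]
  refine ⟨F', a', fun k t ht => ?_, fun k c d hp => ?_,
    fun k c d hc => ?_, fun k c d hc => ?_, fun t ht β => ?_⟩
  · by_cases e1 : t = s
    · subst e1
      rw [Fs, Fs, σ1 k (by have := ht.2.1; omega)]
    by_cases e2 : t = p
    · subst e2
      rw [Fp, Fp, τ1 k (by have := ht.2.1; omega)]
      abel
    rw [Ft _ _ e1 e2, Ft _ _ e1 e2]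
    exact L.step k t (oval_al.2 ⟨ht, e1, e2⟩)
  · have c1 : c ≠ s := fun e => by have := hp.2.1; rw [e, j2] at this; simp at this
    have c2 : c ≠ p := fun e => by have := hp.2.1; rw [e, r4] at this; simp at this
    have := h.J_ne G hp.1 c1 c2 true
    rw [hp.2.1] at this
    rw [Ft _ _ c1 c2, Ft _ _ this.1 this.2]
    exact L.pass k c d ⟨oval_mem.2 ⟨hp.1, c1, c2⟩, hp.2⟩
  · by_cases c1 : c = s
    · subst c1
      have e1 : d = p := by
        have := hc.2.1
        rw [j1] at this
        exact (congrArg Prod.fst this).symm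
      have e2 : k = k1 := by have := hc.2.2.1; omega
      subst e1 e2
      rw [Fs, Fp, as, σ0, τ0]
    by_cases c2 : c = p
    · subst c2
      have e1 : d = s := by
        have := hc.2.1
        rw [p4] at this
        exact (congrArg Prod.fst this).symm
      have e2 : k = k1 := by have := hc.2.2.1; omega
      subst e1 e2
      exact absurd hc.2.2.2 (not_lt.2 h.cup.2.2.2.le)
    have := h.J_ne G hc.1 c1 c2 false
    rw [hc.2.1] at this
    rw [Ft _ _ c1 c2, Ft _ _ this.1 this.2, at' _ c1 c2]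
    exact L.cup k c d ⟨oval_mem.2 ⟨hc.1, c1, c2⟩, hc.2⟩
  · by_cases c1 : c = s
    · subst c1
      have e1 : d = p := by
        have := hc.2.1
        rw [j2] at this
        exact (congrArg Prod.fst this).symm
      have e2 : k = k2 := by have := hc.2.2.1; omega
      subst e1 e2
      rw [Fs, Fp, ap, hα]
      revert p5
      cases D.dir d <;> cases D.dir c <;> simp
    by_cases c2 : c = p
    · subst c2
      have e1 : d = s := by
        have := hc.2.1
        rw [r4] at this
        exact (congrArg Prod.fst this).symm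
      have e2 : k = k2 := by have := hc.2.2.1; omega
      subst e1 e2
      exact absurd hc.2.2.2 (not_lt.2 h.cap.2.2.2.le)
    have := h.J_ne G hc.1 c1 c2 true
    rw [hc.2.1] at this
    rw [Ft _ _ c1 c2, Ft _ _ this.1 this.2, at' _ this.1 this.2]
    exact L.cap k c d ⟨oval_mem.2 ⟨hc.1, c1, c2⟩, hc.2⟩
  · by_cases c1 : t = s
    · subst c1
      cases β
      · rw [j1, as, ap]
      · rw [j2, as, ap]
    by_cases c2 : t = p
    · subst c2
      cases β
      · rw [p4, as, ap]
      · rw [r4, as, ap]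
    have := h.J_ne G ht c1 c2 β
    rw [at' _ c1 c2, at' _ this.1 this.2]
    exact L.con t (oval_mem.2 ⟨ht, c1, c2⟩) β

lemma levV_finger (G : D.Good) {k1 k2 s p q} (h : D.FCfg k1 k2 s p q)
    (ih : ∀ Δ : ℤ → ι → A, ∃ F a, (D.finger s p q).LevV Δ F a) (Δ : ℤ → ι → A) :
    ∃ F a, D.LevV Δ F a := by
  obtain ⟨σ, σ0, σ1⟩ := exists_psum (fun k => Δ k s) (k1 + 1)
  obtain ⟨τ, τ0, τ1⟩ := exists_psum (fun k => Δ k p) (k1 + 1)
  obtain ⟨γ, hγ⟩ : ∃ γ, γ = σ (k2 + 1) - τ (k2 + 1) := ⟨_, rfl⟩
  obtain ⟨F, a, L⟩ := ih fun k t => if k = k1 + 1 ∧ t = q then Δ k t + γ else Δ k t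
  obtain ⟨s1, p1, q1, n1, n2, n3, b1, b2, e1, e2, l1, l2, -⟩ := h.facts G
  have old := h.old
  have j1 := h.cup.2.1
  have j2 := h.cap.2.1
  have j3 := (h.cup.facts G).2.2.2.1
  have j4 := (h.cap.facts G).2.2.2.1
  have mem : ∀ t, t ∈ (D.finger s p q).S ↔ t ≠ p ∧ t ∈ D.S := fun t => by simp [finger]
  have js : (D.finger s p q).J (s, true) = (q, false) := by simp [finger]
  have aq : a q = a s := by
    have := L.con s ((mem s).2 ⟨n1.symm, s1⟩) true
    rwa [js] at this
  have Fq0 : F (k1 + 1) q = F (k1 + 1) s := L.pass k1 s q ((h.pass_iff G).2 (Or.inr ⟨rfl, rfl, rfl⟩))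
  let F' : ℤ → ι → A := fun i t =>
    if t = s ∧ k1 + 1 ≤ i then F (k1 + 1) s + σ i
    else if t = p then τ i + (F (k1 + 1) s + γ - if D.dir p then 0 else a s)
    else if t = q ∧ i = k1 + 1 then F (k1 + 1) s + γ else F i t
  let a' : ι → A := fun t => if t = p then a s else a t
  have Fs : ∀ i, k1 + 1 ≤ i → F' i s = F (k1 + 1) s + σ i := fun i hi => by
    simp only [F', hi, and_self, if_true]
  have Fs' : ∀ i, i ≤ k1 + 1 → F' i s = F i s := fun i hi => by
    by_cases e : i = k1 + 1
    · rw [e, Fs _ le_rfl, σ0, add_zero]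
    · have : ¬ k1 + 1 ≤ i := by omega
      simp only [F', this, n1.symm, n3.symm, and_false, false_and, if_false]
  have Fp : ∀ i, F' i p = τ i + (F (k1 + 1) s + γ - if D.dir p then 0 else a s) := fun i => by
    simp [F', n1]
  have Fq : F' (k1 + 1) q = F (k1 + 1) s + γ := by simp [F', n3, n2]
  have Fq' : ∀ i, i ≠ k1 + 1 → F' i q = F i q := fun i hi => by simp [F', n3, n2, hi]
  have Ft : ∀ i t, t ≠ s → t ≠ p → t ≠ q → F' i t = F i t := fun i t h1 h2 h3 => by
    simp [F', h1, h2, h3]
  have ap : a' p = a s := by simp [a']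
  have at' : ∀ t, t ≠ p → a' t = a t := fun t h1 => by simp [a', h1]
  have Fe : ∀ t β, t ≠ p → (t, β) ≠ (s, true) → (t, β) ≠ (q, false) →
      F' (D.wall (t, β)) t = F (D.wall (t, β)) t := by
    intro t β h0 h1 h2
    by_cases x1 : t = s
    · subst x1
      cases β
      · exact Fs' _ (by simp; omega)
      · exact absurd rfl h1
    by_cases x2 : t = q
    · subst x2
      cases β
      · exact absurd rfl h2
      · exact Fq' _ (by simp; omega)
    exact Ft _ _ x1 h0 x2
  have Fe2 : ∀ c β d β' k, c ∈ D.S → D.J (c, β) = (d, β') → D.wall (c, β) = k → c ≠ p →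
      (c, β) ≠ (s, true) → (c, β) ≠ (q, false) → F' k c = F k c ∧ F' k d = F k d ∧ d ≠ p := by
    intro c β d β' k hc hJ hw h0 h1 h2
    have y := h.J_ne G hc h0 h1 h2
    have w := G.Jw c hc β
    rw [hJ] at y w
    refine ⟨hw ▸ Fe c β h0 h1 h2, ?_, y.1⟩
    rw [← hw, ← w]
    exact Fe d β' y.1 y.2.1 y.2.2
  refine ⟨F', a', fun k t ht => ?_, fun k c d hp => ?_,
    fun k c d hc => ?_, fun k c d hc => ?_, fun t ht β => ?_⟩
  · by_cases x1 : t = s
    · subst x1
      by_cases hk : k ≤ k1
      · have := L.step k t ((h.al G k t).2 ⟨ht, n1.symm, fun _ => hk⟩)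
        rw [Fs' _ (by omega), Fs' _ (by omega), this, if_neg (fun e => n3 e.2.symm)]
      · rw [Fs _ (by omega), Fs _ (by omega), σ1 k (by omega), add_assoc]
    by_cases x2 : t = p
    · subst x2
      rw [Fp, Fp, τ1 k (by have := ht.2.1; omega)]
      abel
    have st := L.step k t ((h.al G k t).2 ⟨ht, x2, fun e => absurd e x1⟩)
    by_cases x3 : t = q
    · subst x3
      by_cases hk : k = k1 + 1
      · subst hk
        rw [Fq, Fq' _ (by omega), st, if_pos ⟨rfl, rfl⟩, Fq0]
        abel
      · have := ht.2.1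
        rw [Fq' _ hk, Fq' _ (by omega), st, if_neg (fun e => hk e.1)]
    rw [Ft _ _ x1 x2 x3, Ft _ _ x1 x2 x3, st, if_neg (fun e => x3 e.2)]
  · have c1 : c ≠ s := fun e => by have := hp.2.1; rw [e, j2] at this; simp at this
    have c2 : c ≠ p := fun e => by have := hp.2.1; rw [e, j4] at this; simp at this
    obtain ⟨f1, f2, -⟩ := Fe2 c true d false (k + 1) hp.1 hp.2.1 hp.2.2 c2 (by simp [c1]) (by simp)
    rw [f1, f2]
    exact L.pass k c d ((h.pass_iff G).2 (Or.inl hp))
  · by_cases hk : k = k1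
    · subst hk
      have c1 : c = p := by
        by_contra c1
        by_cases c2 : c = q
        · have := hc.2.1
          rw [c2, j3] at this
          have e : d = p := (congrArg Prod.fst this).symm
          have := hc.2.2.2
          rw [c2, e] at this
          exact absurd this (not_lt.2 h.cup.2.2.2.le)
        exact (h.cup.other G hc.1 c1 c2).1 hc.2.2.1
      subst c1
      have e : d = q := by
        have := hc.2.1
        rw [j1] at this
        exact (congrArg Prod.fst this).symm
      subst e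
      rw [Fq, Fp, ap, τ0]
      abel
    · have c1 : c ≠ p := fun e => by have := hc.2.2.1; rw [e] at this; omega
      have c2 : c ≠ q := fun e => by have := hc.2.2.1; rw [e] at this; omega
      obtain ⟨f1, f2, -⟩ := Fe2 c false d false (k + 1) hc.1 hc.2.1 hc.2.2.1 c1 (by simp)
        (by simp [c2])
      rw [f1, f2, at' _ c1]
      exact L.cup k c d ((h.cup_iff G).2 ⟨hc, hk⟩)
  · by_cases hk : k = k2
    · subst hk
      have c1 : c = s := by
        by_contra c1
        by_cases c2 : c = p
        · have := hc.2.1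
          rw [c2, j4] at this
          have e : d = s := (congrArg Prod.fst this).symm
          have := hc.2.2.2
          rw [c2, e] at this
          exact absurd this (not_lt.2 h.cap.2.2.2.le)
        exact (h.cap.other G hc.1 c1 c2).2 hc.2.2.1
      subst c1
      have e : d = p := by
        have := hc.2.1
        rw [j2] at this
        exact (congrArg Prod.fst this).symm
      subst e
      rw [Fs _ (by omega), Fp, ap, hγ]
      abel
    · have c1 : c ≠ p := fun e => by have := hc.2.2.1; rw [e] at this; omega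
      have c2 : c ≠ s := fun e => by have := hc.2.2.1; rw [e] at this; omega
      obtain ⟨f1, f2, f3⟩ := Fe2 c true d true (k + 1) hc.1 hc.2.1 hc.2.2.1 c1 (by simp [c2])
        (by simp)
      rw [f1, f2, at' _ f3]
      exact L.cap k c d ((h.cap_iff G).2 ⟨hc, hk⟩)
  · by_cases c1 : t = p
    · subst c1
      cases β
      · rw [j1, ap, at' _ n2, aq]
      · rw [j4, ap, at' _ n1.symm]
    by_cases x1 : (t, β) = (s, true)
    · rw [x1, j2]
      simp only [Prod.mk.injEq] at x1
      rw [x1.1, ap, at' _ n1.symm]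
    by_cases x2 : (t, β) = (q, false)
    · rw [x2, j3]
      simp only [Prod.mk.injEq] at x2
      rw [x2.1, ap, at' _ n2, aq]
    have := L.con t ((mem t).2 ⟨c1, ht⟩) β
    rw [h.J_eq G x1 x2] at this
    rw [at' _ c1, at' _ (h.J_ne G ht c1 x1 x2).1, this]

lemma exists_levV [Fintype ι] (D : Diag ι) (G : D.Good) :
    ∀ Δ : ℤ → ι → A, ∃ F a, D.LevV Δ F a := by
  refine induct (fun D => ∀ Δ : ℤ → ι → A, ∃ F a, D.LevV Δ F a) (fun D h Δ => ?_)
    (fun D G ih => levV_flip G ih) (fun D k s q G h ih => levV_merge G h ih)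
    (fun D k1 k2 s p G h ih => levV_oval G h ih)
    (fun D k1 k2 s p q G h ih => levV_finger G h ih) D G
  refine ⟨0, 0, fun k s hs => ?_, fun k s q hs => ?_, fun k s q hs => ?_, fun k s q hs => ?_,
    fun s hs => ?_⟩
  · exact absurd hs.1 (by simp [h])
  · exact absurd hs.1 (by simp [h])
  · exact absurd hs.1 (by simp [h])
  · exact absurd hs.1 (by simp [h])
  · simp [h] at hs

end Diag

theorem Diag.exists_lev {ι : Type} [Fintype ι] [DecidableEq ι] {A : Type} [AddCommGroup A]
    (D : Diag ι) (G : D.Good) (C : D.Conn) (Δ : ℤ → ι → A) : ∃ F a, D.Lev Δ F a := by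
  obtain ⟨F, a, L⟩ := D.exists_levV G Δ
  obtain ⟨α, hα⟩ : ∃ α, ∀ t ∈ D.S, a t = α := by
    rcases D.S.eq_empty_or_nonempty with h | ⟨s, hs⟩
    · exact ⟨0, by simp [h]⟩
    · refine ⟨a s, fun t ht => C {u | a u = a s} (fun u hu β e => ?_) s hs t ht rfl⟩
      exact (L.con u hu β).trans e
  refine ⟨F, α, L.step, L.pass, fun k s q h => ?_, fun k s p h => ?_⟩
  · rw [L.cup k s q h, hα s h.1]
  · rw [L.cap k s p h, hα p (h.facts G).1]

open Classical in
theorem Diag.Lev.odd {ι : Type} [Fintype ι] [DecidableEq ι] {D : Diag ι} (G : D.Good) {j : ℤ}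
    {bot : ι → Prop} {F : ℤ → ι → ℤ} {a : ℤ}
    (h : D.Lev (fun k s => if k = j ∧ bot s then 1 else 0) F a)
    (ho : Odd (Set.ncard {s | D.Al j s ∧ bot s})) : Odd a := by
  by_contra ha
  rw [Int.not_odd_iff_even] at ha
  have a0 : (a : ZMod 2) = 0 := (ZMod.intCast_zmod_eq_zero_iff_dvd a 2).2 (even_iff_two_dvd.1 ha)
  let f : ι × Bool → ZMod 2 := fun x => (F (D.wall x) x.1 : ZMod 2)
  have off : ∀ (c : Bool) (u v : ℤ), u = v + (if c then 0 else a) → (u : ZMod 2) = v := by
    intro c u v e
    rw [e]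
    cases c <;> simp [a0]
  have fJ : ∀ s ∈ D.S, ∀ β, f (D.J (s, β)) = f (s, β) := by
    intro s hs β
    have w := G.Jw s hs β
    have jj := G.JJ s hs β
    have js := G.JS s hs β
    simp only [f, w]
    obtain ⟨k, hk⟩ : ∃ k, D.wall (s, β) = k + 1 := ⟨D.wall (s, β) - 1, by ring⟩
    rw [hk]
    rcases hy : D.J (s, β) with ⟨c, β'⟩
    rw [hy] at w jj js
    cases β <;> cases β'
    · rcases Diag.cup_of G hs hy hk with e | e
      · exact off _ _ _ (h.cup _ _ _ e)
      · exact (off _ _ _ (h.cup _ _ _ e)).symm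
    · rw [h.pass k c s ⟨js, jj, w.trans hk⟩]
    · rw [h.pass k s c ⟨hs, hy, hk⟩]
    · rcases Diag.cap_of G hs hy hk with e | e
      · exact (off _ _ _ (h.cap _ _ _ e)).symm
      · exact off _ _ _ (h.cap _ _ _ e)
  have s0 : ∑ x ∈ D.S ×ˢ (Finset.univ : Finset Bool), f x = 0 := by
    refine Finset.sum_involution (fun x _ => D.J x) (fun x hx => ?_) (fun x hx _ e => ?_)
      (fun x hx => ?_) (fun x hx => ?_)
    · rw [fJ x.1 (Finset.mem_product.1 hx).1 x.2]
      exact CharTwo.add_self_eq_zero _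
    · exact G.Jne x.1 (Finset.mem_product.1 hx).1 x.2 (congrArg Prod.fst e)
    · exact Finset.mem_product.2 ⟨G.JS x.1 (Finset.mem_product.1 hx).1 x.2, Finset.mem_univ _⟩
    · exact G.JJ x.1 (Finset.mem_product.1 hx).1 x.2
  have tel : ∀ s ∈ D.S, ∀ i, D.b s ≤ i → i ≤ D.e s →
      F i s = F (D.b s) s + if (D.b s ≤ j ∧ j < i) ∧ bot s then 1 else 0 := by
    intro s hs i hi
    induction i, hi using Int.leInduction with
    | base => intro _; rw [if_neg (fun e => by omega), add_zero]
    | succ i hi ih =>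
      intro h2
      rw [h.step i s ⟨hs, hi, by omega⟩, ih (by omega), add_assoc]
      congr 1
      by_cases hb : bot s
      · simp only [hb, and_true]
        split_ifs <;> omega
      · simp [hb]
  rw [Finset.sum_product] at s0
  have s1 : ∑ s ∈ D.S, ∑ β : Bool, f (s, β) =
      ∑ s ∈ D.S, if D.Al j s ∧ bot s then (1 : ZMod 2) else 0 := by
    refine Finset.sum_congr rfl fun s hs => ?_
    have := tel s hs (D.e s) (G.lt s hs).le le_rfl
    simp only [Fintype.sum_bool, f, Diag.wall_true, Diag.wall_false, this, Diag.Al, hs, true_and]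
    push_cast
    rw [add_right_comm, CharTwo.add_self_eq_zero, zero_add]
  rw [s1, Finset.sum_boole] at s0
  have e : {s | D.Al j s ∧ bot s} = ((D.S.filter fun s => D.Al j s ∧ bot s : Finset ι) : Set ι) := by
    ext s
    simp only [Set.mem_ofPred_eq, Finset.coe_filter]
    exact ⟨fun e => ⟨e.1.1, e⟩, fun e => e.2⟩
  rw [e, Set.ncard_coe_finset] at ho
  exact (Nat.not_even_iff_odd.2 ho) (ZMod.natCast_eq_zero_iff_even.1 s0)

end Pool.Agent.Lib.MP_5a3ebe_gt.Ap
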