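import Pool.Agent.Lib.MP_5a3ebe_gt.ApDiag

/-! Merging two strands that continue each other. -/

set_option linter.unusedSectionVars false

namespace Pool.Agent.Lib.MP_5a3ebe_gt.Ap

open Classical

namespace Diag

variable {ι : Type} [DecidableEq ι] {D : Diag ι}

/-- Exchange the left ends of `s` and `q`. -/
def tw (s q : ι) (x : ι × Bool) : ι × Bool := if x.2 then x else (Equiv.swap s q x.1, false)

@[simp] lemma tw_true (s q t : ι) : tw s q (t, true) = (t, true) := rfl
@[simp] lemma tw_false (s q t : ι) : tw s q (t, false) = (Equiv.swap s q t, false) := rfl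
@[simp] lemma tw_tw (s q : ι) (x) : tw s q (tw s q x) = x := by
  rcases x with ⟨t, _ | _⟩ <;> simp
lemma tw_snd (s q : ι) (x) : (tw s q x).2 = x.2 := by
  rcases x with ⟨t, _ | _⟩ <;> simp
lemma tw_eq (s q : ι) (x y) : tw s q x = y ↔ x = tw s q y := by
  constructor <;> rintro rfl <;> simp

noncomputable def merge (D : Diag ι) (s q : ι) : Diag ι where
  S := D.S.erase s
  b := fun t => D.b (Equiv.swap s q t)
  e := D.e
  J := fun x => tw s q (D.J (tw s q x))
  dir := D.dir
  key := fun k t => if t = q ∧ k < D.e s then D.key k s else D.key k t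

lemma merge_wall (s q : ι) (x) : (D.merge s q).wall x = D.wall (tw s q x) := by
  rcases x with ⟨t, _ | _⟩ <;> rfl

/-- The renaming in slice `k`. -/
noncomputable def ren (D : Diag ι) (s q : ι) (k : ℤ) : ι ≃ ι :=
  if k < D.e s then Equiv.swap s q else Equiv.refl ι

lemma ren_ren (s q : ι) (k : ℤ) (t : ι) : D.ren s q k (D.ren s q k t) = t := by
  unfold ren; split_ifs <;> simp

lemma ren_of_ne {s q t : ι} (k : ℤ) (h1 : t ≠ s) (h2 : t ≠ q) : D.ren s q k t = t := by
  unfold ren; split_ifs <;> simp [Equiv.swap_apply_of_ne_of_ne, h1, h2]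

lemma merge_key {s q : ι} (k : ℤ) (t : ι) (ht : t ≠ s) :
    (D.merge s q).key k t = D.key k (D.ren s q k t) := by
  unfold ren merge
  by_cases h2 : t = q
  · subst h2
    split_ifs <;> simp_all
  split_ifs <;> simp [ht, h2, Equiv.swap_apply_of_ne_of_ne]

section
variable (G : D.Good) {k0 : ℤ} {s q : ι} (h : D.Pass k0 s q)
include G h

lemma Pass.merge_al (k : ℤ) (t : ι) : (D.merge s q).Al k t ↔ D.Al k (D.ren s q k t) := by
  obtain ⟨q1, q2, q3, -⟩ := h.facts G
  have l1 := G.lt s h.1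
  have l2 := G.lt q q1
  have e1 := h.2.2
  have s1 := h.1
  unfold Al ren merge
  by_cases h1 : t = s
  · subst h1
    split_ifs <;> simp <;> omega
  by_cases h2 : t = q
  · subst h2
    split_ifs <;> simp [q1, q3, s1] <;> omega
  split_ifs <;> simp [h1, h2, Equiv.swap_apply_of_ne_of_ne]

lemma Pass.swap_mem (t : ι) : Equiv.swap s q t ∈ D.S ↔ t ∈ D.S := by
  obtain ⟨q1, q2, q3, -⟩ := h.facts G
  have s1 := h.1
  by_cases h1 : t = s
  · simp [h1, q1, s1]
  by_cases h2 : t = q
  · simp [h2, q1, s1]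
  simp [h1, h2, Equiv.swap_apply_of_ne_of_ne]

/-- Ends of the merged diagram correspond to the ends other than the two glued ones. -/
lemma Pass.ends (x : ι × Bool) : x.1 ∈ (D.merge s q).S ↔
    (tw s q x).1 ∈ D.S ∧ tw s q x ≠ (s, true) ∧ tw s q x ≠ (q, false) := by
  rcases x with ⟨t, _ | _⟩
  · simp [merge, h.swap_mem G, Equiv.swap_apply_eq_iff, and_comm]
  · simp [merge, and_comm]

lemma Pass.ren_b {k : ℤ} {a : ι} (ha : a ≠ q) (hb : D.b a = k) :
    D.ren s q k (Equiv.swap s q a) = a := by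
  have l1 := G.lt s h.1
  by_cases h1 : a = s
  · subst h1
    unfold ren
    rw [if_pos (by omega)]; simp
  rw [Equiv.swap_apply_of_ne_of_ne h1 ha, ren_of_ne _ h1 ha]

lemma Pass.ren_e {k : ℤ} {a : ι} (ha : a ≠ s) (hb : D.e a = k + 1) : D.ren s q k a = a := by
  obtain ⟨q1, q2, q3, -⟩ := h.facts G
  have l2 := G.lt q q1
  have e1 := h.2.2
  by_cases h1 : a = q
  · subst h1
    unfold ren
    rw [if_neg (by omega)]; simp
  exact ren_of_ne _ ha h1

lemma Pass.merge_cup (k : ℤ) (a c : ι) :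
    (D.merge s q).Cup k (Equiv.swap s q a) (Equiv.swap s q c) ↔ D.Cup k a c := by
  obtain ⟨q1, q2, q3, q4, -⟩ := h.facts G
  have main : a ∈ D.S → D.J (a, false) = (c, false) → D.b a = k + 1 → a ≠ q ∧
      (D.merge s q).key (k + 1) (Equiv.swap s q a) = D.key (k + 1) a ∧
      (D.merge s q).key (k + 1) (Equiv.swap s q c) = D.key (k + 1) c := by
    intro h1 h2 h3
    have a1 : a ≠ q := fun e => by rw [e, q4] at h2; simp at h2
    have c1 : c ≠ q := fun e => by
      have := G.JJ a h1 false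
      rw [h2, e, q4] at this; simp at this
    have c2 : D.b c = k + 1 := by
      have := G.Jw a h1 false
      rw [h2] at this; simpa [h3] using this
    refine ⟨a1, ?_, ?_⟩
    · rw [merge_key _ _ (by simpa [Equiv.swap_apply_eq_iff] using a1), h.ren_b G a1 h3]
    · rw [merge_key _ _ (by simpa [Equiv.swap_apply_eq_iff] using c1), h.ren_b G c1 c2]
  constructor
  · rintro ⟨h1, h2, h3, h4⟩
    simp only [merge, Finset.mem_erase, h.swap_mem G, tw_false, Equiv.swap_apply_self,
      tw_eq] at h1 h2 h3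
    obtain ⟨-, m1, m2⟩ := main h1.2 h2 h3
    exact ⟨h1.2, h2, h3, by rwa [m1, m2] at h4⟩
  · rintro ⟨h1, h2, h3, h4⟩
    obtain ⟨m0, m1, m2⟩ := main h1 h2 h3
    refine ⟨?_, ?_, ?_, by rwa [m1, m2]⟩
    · simpa [merge, h.swap_mem G, Equiv.swap_apply_eq_iff, h1] using m0
    · simp [merge, h2]
    · simp [merge, h3]

lemma Pass.merge_cap (k : ℤ) (a c : ι) : (D.merge s q).Cap k a c ↔ D.Cap k a c := by
  obtain ⟨q1, q2, q3, q4, -⟩ := h.facts G
  have main : a ∈ D.S → D.J (a, true) = (c, true) → D.e a = k + 1 → a ≠ s ∧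
      (D.merge s q).key k a = D.key k a ∧ (D.merge s q).key k c = D.key k c := by
    intro h1 h2 h3
    have a1 : a ≠ s := fun e => by rw [e, h.2.1] at h2; simp at h2
    have c1 : c ≠ s := fun e => by
      have := G.JJ a h1 true
      rw [h2, e, h.2.1] at this; simp at this
    have c2 : D.e c = k + 1 := by
      have := G.Jw a h1 true
      rw [h2] at this; simpa [h3] using this
    refine ⟨a1, ?_, ?_⟩
    · rw [merge_key _ _ a1, h.ren_e G a1 h3]
    · rw [merge_key _ _ c1, h.ren_e G c1 c2]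
  constructor
  · rintro ⟨h1, h2, h3, h4⟩
    simp only [merge, Finset.mem_erase, tw_true, tw_eq] at h1 h2 h3
    obtain ⟨-, m1, m2⟩ := main h1.2 h2 h3
    exact ⟨h1.2, h2, h3, by rwa [m1, m2] at h4⟩
  · rintro ⟨h1, h2, h3, h4⟩
    obtain ⟨m0, m1, m2⟩ := main h1 h2 h3
    refine ⟨?_, ?_, h3, by rwa [m1, m2]⟩
    · simp [merge, h1, m0]
    · simp [merge, h2]

lemma Pass.merge_pass (k : ℤ) (a c : ι) :
    (D.merge s q).Pass k a (Equiv.swap s q c) ↔ a ≠ s ∧ D.Pass k a c := by
  simp [Pass, merge, tw_eq, and_assoc]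

lemma Pass.ren_succ {k : ℤ} (hk : k ≠ k0) : D.ren s q (k + 1) = D.ren s q k := by
  have := h.2.2
  unfold ren
  by_cases h1 : k < D.e s
  · rw [if_pos h1, if_pos (by omega)]
  · rw [if_neg h1, if_neg (by omega)]

lemma Pass.ren0 : D.ren s q k0 = Equiv.swap s q ∧ D.ren s q (k0 + 1) = Equiv.refl ι := by
  have := h.2.2
  unfold ren
  rw [if_pos (by omega), if_neg (by omega)]
  exact ⟨rfl, rfl⟩

lemma Pass.wall_ne {k a c} (h' : D.Pass k a c) (ha : a ≠ s) : k ≠ k0 := by
  rintro rfl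
  by_cases hq : a = q
  · obtain ⟨q1, q2, -⟩ := h.facts G
    have := G.lt q q1
    have := h'.2.2
    subst hq
    omega
  exact (h.other G h'.1 ha hq).2 h'.2.2

lemma Pass.cup_ne {k a c} (h' : D.Cup k a c) : k ≠ k0 := by
  rintro rfl
  obtain ⟨-, -, -, -, -, -, -, n1, n2⟩ := h'.facts G
  obtain ⟨-, -, -, -, -, a1, -⟩ := h.facts G
  exact (h'.other G h.1 (fun e => n1 (e ▸ a1)) (fun e => n2 (e ▸ a1))).2 h.2.2

lemma Pass.cap_ne {k a c} (h' : D.Cap k a c) : k ≠ k0 := by
  rintro rfl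
  obtain ⟨-, -, -, -, -, -, -, n1, n2⟩ := h'.facts G
  obtain ⟨q1, q2, -, -, -, -, a1, -⟩ := h.facts G
  exact (h'.other G q1 (fun e => n1 (e ▸ a1)) (fun e => n2 (e ▸ a1))).1 q2

lemma Pass.merge_ne {k t} (ht : (D.merge s q).Al k t) : t ≠ s := by
  have := ht.1
  simp only [merge, Finset.mem_erase] at this
  exact this.1

lemma Pass.good_merge : (D.merge s q).Good := by
  obtain ⟨q1, q2, q3, q4, q5, a1, a2, a3, a4⟩ := h.facts G
  have hJ : ∀ x : ι × Bool, x.1 ∈ D.S → x ≠ (s, true) → x ≠ (q, false) →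
      (D.J x).1 ∈ D.S ∧ D.J x ≠ (s, true) ∧ D.J x ≠ (q, false) := by
    rintro ⟨t, β⟩ h1 h2 h3
    have := G.JJ t h1 β
    refine ⟨G.JS t h1 β, fun e => ?_, fun e => ?_⟩
    · rw [e, h.2.1] at this; exact h3 this.symm
    · rw [e, q4] at this; exact h2 this.symm
  have dtw : ∀ x, D.dir (tw s q x).1 = D.dir x.1 := by
    rintro ⟨t, _ | _⟩
    · by_cases h1 : t = s
      · simp [h1, q5]
      by_cases h2 : t = q
      · simp [h2, q5]
      simp [Equiv.swap_apply_of_ne_of_ne, h1, h2]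
    · rfl
  have hlt : ∀ t ∈ (D.merge s q).S, (D.merge s q).b t < (D.merge s q).e t := by
    intro t ht
    simp only [merge, Finset.mem_erase] at ht ⊢
    have := G.lt t ht.2
    have := G.lt s h.1
    have := h.2.2
    by_cases h2 : t = q
    · subst h2; simp; omega
    simpa [Equiv.swap_apply_of_ne_of_ne, ht.1, h2]
  have hw : ∀ t ∈ (D.merge s q).S, ∀ β, (D.merge s q).wall ((D.merge s q).J (t, β)) =
      (D.merge s q).wall (t, β) := by
    intro t ht β
    have := (h.ends G (t, β)).1 ht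
    rw [merge_wall, merge_wall]
    simpa [merge] using G.Jw _ this.1 (tw s q (t, β)).2
  refine ⟨hlt, fun t ht β => ?_, fun t ht β => ?_, fun t ht β => ?_, hw, fun t ht β => ?_,
    fun t ht u hu β β' e => ?_, fun k t u ht hu e => ?_, fun k t u h1 h2 h3 h4 => ?_,
    fun k a c t hp h1 h2 => ?_, fun k a c t hp h1 h2 h3 => ?_, fun k a c t hp h1 h2 h3 => ?_⟩
  · obtain ⟨e1, e2, e3⟩ := (h.ends G (t, β)).1 ht
    rw [h.ends G]
    simpa [merge] using hJ _ e1 e2 e3
  · have := (h.ends G (t, β)).1 ht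
    have := G.JJ _ this.1 (tw s q (t, β)).2
    simp only [merge, tw_tw]
    rw [this, tw_tw]
  · intro e
    have w := hw t ht β
    have l := hlt t ht
    obtain ⟨e1, e2, e3⟩ := (h.ends G (t, β)).1 ht
    have ne := G.Jne _ e1 (tw s q (t, β)).2
    have : (D.merge s q).J (t, β) = (t, β) := by
      rcases hx : (D.merge s q).J (t, β) with ⟨u, β'⟩
      rw [hx] at e w
      simp only at e
      subst e
      cases β <;> cases β' <;> simp at w ⊢ <;> omega
    simp only [merge, tw_eq] at this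
    exact ne (congrArg Prod.fst this)
  · obtain ⟨e1, e2, e3⟩ := (h.ends G (t, β)).1 ht
    have : D.dir (D.J (tw s q (t, β))).1 = D.dir (tw s q (t, β)).1 ↔
        (D.J (tw s q (t, β))).2 ≠ (tw s q (t, β)).2 := G.Jdir _ e1 (tw s q (t, β)).2
    simpa only [merge, dtw, tw_snd] using this
  · obtain ⟨e1, e2, e3⟩ := (h.ends G (t, β)).1 ht
    obtain ⟨f1, f2, f3⟩ := (h.ends G (u, β')).1 hu
    rw [merge_wall, merge_wall] at e
    have : tw s q (u, β') = tw s q (t, β) ∨ tw s q (u, β') = D.J (tw s q (t, β)) :=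
      G.uniq _ e1 _ f1 (tw s q (t, β)).2 (tw s q (u, β')).2 e
    rcases this with e | e
    · left
      simpa using congrArg (tw s q) e
    · right
      simpa [merge] using congrArg (tw s q) e
  · rw [merge_key _ _ (h.merge_ne G ht), merge_key _ _ (h.merge_ne G hu)] at e
    rw [h.merge_al G] at ht hu
    exact (D.ren s q k).injective (G.inj _ _ _ ht hu e)
  · have n1 := h.merge_ne G h1
    have n3 := h.merge_ne G h3
    simp only [merge_key _ _ n1, merge_key _ _ n3]
    rw [h.merge_al G] at h1 h2 h3 h4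
    by_cases hk : k = k0
    · subst hk
      rw [(h.ren0 G).1] at h1 h3 ⊢
      rw [(h.ren0 G).2] at h2 h4 ⊢
      simp only [Equiv.refl_apply] at h2 h4 ⊢
      by_cases e1 : t = q <;> by_cases e3 : u = q
      · simp [e1, e3]
      · rw [Equiv.swap_apply_of_ne_of_ne n3 e3] at h3 ⊢
        have := G.flip.pass k s q u h h3 h4
        simpa [flip, e1] using this
      · rw [Equiv.swap_apply_of_ne_of_ne n1 e1] at h1 ⊢
        simpa [e3] using G.pass k s q t h h1 h2
      · rw [Equiv.swap_apply_of_ne_of_ne n1 e1] at h1 ⊢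
        rw [Equiv.swap_apply_of_ne_of_ne n3 e3] at h3 ⊢
        exact G.mono _ _ _ h1 h2 h3 h4
    · rw [h.ren_succ G hk] at h2 h4 ⊢
      exact G.mono _ _ _ h1 h2 h3 h4
  · obtain ⟨c, rfl⟩ := (Equiv.swap s q).surjective c
    obtain ⟨p1, p2⟩ := (h.merge_pass G k a c).1 hp
    obtain ⟨c1, c2, -, c4, -⟩ := p2.facts G
    have c5 : c ≠ q := fun e => by rw [e, q4] at c4; exact p1 (congrArg Prod.fst c4).symm
    have hk := h.wall_ne G p2 p1
    have n1 := h.merge_ne G h1
    rw [merge_key _ _ n1, merge_key _ _ n1, merge_key _ _ p1,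
      merge_key _ _ (by simpa [Equiv.swap_apply_eq_iff] using c5), h.ren_b G c5 c2,
      h.ren_e G p1 p2.2.2]
    rw [h.merge_al G] at h1 h2
    rw [h.ren_succ G hk] at h2 ⊢
    exact G.pass _ _ _ _ p2 h1 h2
  · obtain ⟨c, rfl⟩ := (Equiv.swap s q).surjective c
    obtain ⟨a, rfl⟩ := (Equiv.swap s q).surjective a
    have p2 := (h.merge_cup G k a c).1 hp
    obtain ⟨c1, c2, -, c4, -⟩ := p2.facts G
    have c5 : c ≠ q := fun e => by rw [e, q4] at c4; simp at c4
    have a5 : a ≠ q := fun e => by have := p2.2.1; rw [e, q4] at this; simp at this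
    have r1 := h.ren_b G c5 c2
    have r2 := h.ren_b G a5 p2.2.2.1
    rw [merge_key _ _ (h.merge_ne G h1),
      merge_key _ (Equiv.swap s q c) (by simpa [Equiv.swap_apply_eq_iff] using c5),
      merge_key _ (Equiv.swap s q a) (by simpa [Equiv.swap_apply_eq_iff] using a5), r1, r2]
    rw [h.merge_al G] at h1
    refine G.cup _ _ _ _ p2 h1 (fun e => h2 ?_) (fun e => h3 ?_)
    · exact (D.ren s q (k + 1)).injective (e.trans r2.symm)
    · exact (D.ren s q (k + 1)).injective (e.trans r1.symm)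
  · have p2 := (h.merge_cap G k a c).1 hp
    obtain ⟨c1, c2, -, c4, -⟩ := p2.facts G
    have c5 : c ≠ s := fun e => by rw [e, h.2.1] at c4; simp at c4
    have a5 : a ≠ s := fun e => by have := p2.2.1; rw [e, h.2.1] at this; simp at this
    have r1 := h.ren_e G c5 c2
    have r2 := h.ren_e G a5 p2.2.2.1
    rw [merge_key _ _ (h.merge_ne G h1), merge_key _ _ c5, merge_key _ _ a5, r1, r2]
    rw [h.merge_al G] at h1
    refine G.cap _ _ _ _ p2 h1 (fun e => h2 ?_) (fun e => h3 ?_)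
    · exact (D.ren s q k).injective (e.trans r2.symm)
    · exact (D.ren s q k).injective (e.trans r1.symm)

lemma Pass.merge_quiet {k : ℤ} (hq : D.Quiet k ∨ k = k0) : (D.merge s q).Quiet k := by
  intro t ht
  obtain ⟨q1, q2, q3, q4, -⟩ := h.facts G
  simp only [merge, Finset.mem_erase] at ht ⊢
  rcases hq with hq | rfl
  · exact ⟨(hq _ ((h.swap_mem G t).2 ht.2)).1, (hq _ ht.2).2⟩
  · have := G.lt s h.1
    have := G.lt q q1
    have := h.2.2
    by_cases e : t = q
    · subst e; simp; omega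
    rw [Equiv.swap_apply_of_ne_of_ne ht.1 e]
    exact h.other G ht.2 ht.1 e

/-- Transport of level data (with values in any type) to the merged diagram. -/
lemma Pass.lam_ren {X : Type} (lam : ℤ → ι → X) (hl : lam (k0 + 1) q = lam (k0 + 1) s) {k t}
    (ht : t ≠ s) : lam (k + 1) (D.ren s q (k + 1) t) = lam (k + 1) (D.ren s q k t) := by
  by_cases hk : k = k0
  · subst hk
    rw [(h.ren0 G).1, (h.ren0 G).2]
    by_cases e : t = q
    · simp [e, hl]
    · simp [Equiv.swap_apply_of_ne_of_ne ht e]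
  · rw [h.ren_succ G hk]

lemma Pass.adm_merge {lam α} (hA : D.Adm lam α) :
    (D.merge s q).Adm (fun i t => lam i (D.ren s q i t)) α := by
  obtain ⟨q1, q2, q3, q4, -⟩ := h.facts G
  have hl := hA.pass _ _ _ h
  refine ⟨fun k t u h1 h2 h3 => ?_, fun k a c hc => ?_, fun k a c hc => ?_, fun k a c hc => ?_⟩
  · have n1 := h.merge_ne G h1
    have n2 := h.merge_ne G h2
    rw [merge_key _ _ n1, merge_key _ _ n2] at h3
    rw [h.merge_al G] at h1 h2
    rw [h.lam_ren G lam hl n1, h.lam_ren G lam hl n2]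
    exact hA.mono _ _ _ h1 h2 h3
  · obtain ⟨c, rfl⟩ := (Equiv.swap s q).surjective c
    obtain ⟨a, rfl⟩ := (Equiv.swap s q).surjective a
    have p2 := (h.merge_cup G k a c).1 hc
    obtain ⟨c1, c2, -, c4, -⟩ := p2.facts G
    have c5 : c ≠ q := fun e => by rw [e, q4] at c4; simp at c4
    have a5 : a ≠ q := fun e => by have := p2.2.1; rw [e, q4] at this; simp at this
    rw [h.ren_b G c5 c2, h.ren_b G a5 p2.2.2.1]
    exact hA.cup _ _ _ p2
  · have p2 := (h.merge_cap G k a c).1 hc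
    obtain ⟨c1, c2, -, c4, -⟩ := p2.facts G
    have c5 : c ≠ s := fun e => by rw [e, h.2.1] at c4; simp at c4
    have a5 : a ≠ s := fun e => by have := p2.2.1; rw [e, h.2.1] at this; simp at this
    rw [h.ren_succ G (h.cap_ne G p2), h.ren_e G c5 c2, h.ren_e G a5 p2.2.2.1]
    exact hA.cap _ _ _ p2
  · obtain ⟨c, rfl⟩ := (Equiv.swap s q).surjective c
    obtain ⟨p1, p2⟩ := (h.merge_pass G k a c).1 hc
    obtain ⟨c1, c2, -, c4, -⟩ := p2.facts G
    have c5 : c ≠ q := fun e => by rw [e, q4] at c4; exact p1 (congrArg Prod.fst c4).symm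
    rw [h.ren_b G c5 c2, h.ren_succ G (h.wall_ne G p2 p1), h.ren_e G p1 p2.2.2]
    exact hA.pass _ _ _ p2

variable [Fintype ι]

lemma Pass.sys_of_merge {d} (hA : (D.merge s q).Alg d) (hP : (D.merge s q).Pos d) :
    D.Alg (fun k => (d k).submatrix (D.ren s q k) (D.ren s q k)) ∧
      D.Pos (fun k => (d k).submatrix (D.ren s q k) (D.ren s q k)) := by
  obtain ⟨q1, q2, q3, q4, q5, -⟩ := h.facts G
  have al : ∀ k t, (D.merge s q).Al k (D.ren s q k t) ↔ D.Al k t := fun k t => by
    rw [h.merge_al G, ren_ren]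
  have dr : ∀ k t, D.dir (D.ren s q k t) = D.dir t := fun k t => by
    unfold ren
    by_cases h1 : t = s
    · split_ifs <;> simp [h1, q5]
    by_cases h2 : t = q
    · split_ifs <;> simp [h2, q5]
    split_ifs <;> simp [Equiv.swap_apply_of_ne_of_ne, h1, h2]
  have ky : ∀ k t, D.Al k t → (D.merge s q).key k (D.ren s q k t) = D.key k t := fun k t ht => by
    rw [merge_key _ _ (h.merge_ne G ((al k t).2 ht)), ren_ren]
  have sp : ∀ k t u, d k (D.ren s q k t) (D.ren s q k u) ≠ 0 → D.Al k t ∧ D.Al k u :=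
    fun k t u hd => ⟨(al _ _).1 (hA.supp _ _ _ hd).1, (al _ _).1 (hA.supp _ _ _ hd).2.1⟩
  have flipr : ∀ k t u, D.ren s q k t = u → D.ren s q k u = t := fun k t u e => by
    rw [← e, ren_ren]
  refine ⟨⟨fun k t u hd => ?_, fun k => ?_, fun k hq => ?_, fun k a c hp u v => ?_,
    fun k a c hc => ?_, fun k a c hc => ?_⟩, fun lam α hl k t u hd => ?_⟩
  · have := hA.supp _ _ _ hd
    rw [al, al] at this
    exact ⟨this.1, this.2.1, by simpa [merge, dr] using this.2.2⟩
  · rw [Matrix.submatrix_mul_equiv, hA.sq]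
    simp only [P, Matrix.submatrix_diagonal_equiv]
    congr 1
    funext t
    simp [al]
  · have hk : k ≠ k0 := fun e => (hq s h.1).2 (e ▸ h.2.2)
    rw [h.ren_succ G hk, hA.quiet k (h.merge_quiet G (Or.inl hq))]
  · simp only [Matrix.submatrix_apply]
    by_cases ha : a = s
    · subst ha
      have hc : c = q := by
        have := hp.2.1.symm.trans h.2.1
        exact congrArg Prod.fst this
      have hk : k = k0 := by have := hp.2.2; have := h.2.2; omega
      subst hc hk
      rw [(h.ren0 G).1, (h.ren0 G).2, hA.quiet k (h.merge_quiet G (Or.inr rfl))]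
      simp
    · obtain ⟨c1, c2, -, c4, -⟩ := hp.facts G
      have c5 : c ≠ q := fun e => by rw [e, q4] at c4; exact ha (congrArg Prod.fst c4).symm
      have hk := h.wall_ne G hp ha
      have r1 := flipr _ _ _ (h.ren_b G c5 c2)
      have r2 := h.ren_e G ha hp.2.2
      rw [h.ren_succ G hk] at r1 ⊢
      rw [hA.pass k a _ ((h.merge_pass G k a c).2 ⟨ha, hp⟩), ← r1]
      have : ∀ x, Equiv.swap a (D.ren s q k c) (D.ren s q k x) =
          D.ren s q k (Equiv.swap a c x) := fun x => by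
        rw [(D.ren s q k).injective.map_swap, r2]
      rw [this, this]
  · obtain ⟨c1, c2, -, c4, -, a1, a2, -⟩ := hc.facts G
    have c5 : c ≠ q := fun e => by rw [e, q4] at c4; simp at c4
    have a5 : a ≠ q := fun e => by have := hc.2.1; rw [e, q4] at this; simp at this
    have r1 := flipr _ _ _ (h.ren_b G c5 c2)
    have r2 := flipr _ _ _ (h.ren_b G a5 hc.2.2.1)
    have hk := h.ren_succ G (h.cup_ne G hc)
    obtain ⟨⟨e1, e2⟩, g1, g2⟩ := hA.cup k _ _ ((h.merge_cup G k a c).2 hc)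
    rw [← r1, ← r2] at e1 e2 g1 g2
    have inj := (D.ren s q (k + 1)).injective
    refine ⟨⟨e1, fun x y h1 h2 h3 h4 => ?_⟩, fun t ht => ?_, fun t ht => ?_⟩
    · simp only [Matrix.submatrix_apply]
      rw [← hk]
      exact e2 _ _ (inj.ne h1) (inj.ne h2) (inj.ne h3) (inj.ne h4)
    · have := g1 _ ht
      rwa [ky _ _ (sp _ _ _ ht).2, ky _ _ a1, inj.eq_iff] at this
    · have := g2 _ ht
      rwa [ky _ _ (sp _ _ _ ht).1, ky _ _ a2, inj.eq_iff] at this
  · obtain ⟨c1, c2, -, c4, -, a1, a2, -⟩ := hc.facts G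
    have c5 : c ≠ s := fun e => by rw [e, h.2.1] at c4; simp at c4
    have a5 : a ≠ s := fun e => by have := hc.2.1; rw [e, h.2.1] at this; simp at this
    have r1 := h.ren_e G c5 c2
    have r2 := h.ren_e G a5 hc.2.2.1
    have hk := h.ren_succ G (h.cap_ne G hc)
    obtain ⟨⟨e1, e2⟩, g1, g2⟩ := hA.cap k _ _ ((h.merge_cap G k a c).2 hc)
    rw [← r1, ← r2] at e1 e2 g1 g2
    have inj := (D.ren s q k).injective
    refine ⟨⟨e1, fun x y h1 h2 h3 h4 => ?_⟩, fun t ht => ?_, fun t ht => ?_⟩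
    · simp only [Matrix.submatrix_apply]
      rw [hk]
      exact e2 _ _ (inj.ne h1) (inj.ne h2) (inj.ne h3) (inj.ne h4)
    · have := g1 _ ht
      rwa [ky _ _ (sp _ _ _ ht).2, ky _ _ a2, inj.eq_iff] at this
    · have := g2 _ ht
      rwa [ky _ _ (sp _ _ _ ht).1, ky _ _ a1, inj.eq_iff] at this
  · have := hP _ α (h.adm_merge G hl) k _ _ hd
    have hs := hA.supp _ _ _ hd
    have hl' := hl.pass _ _ _ h
    rw [h.lam_ren G lam hl' (h.merge_ne G hs.1), h.lam_ren G lam hl' (h.merge_ne G hs.2.1)] at this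
    simpa only [ren_ren] using this

end

end Diag

end Pool.Agent.Lib.MP_5a3ebe_gt.Ap
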