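import Pool.Agent.Lib.MP_5a3ebe_gt.ApDefs

/-! Moduli of a simple loop and minimal chains along it. -/

namespace Pool.Agent.Lib.MP_5a3ebe_gt.Ap

/-- A simple closed curve, parametrised with period one. -/
structure IsLoop (G : ℝ → ℂ) : Prop where
  cont : Continuous G
  per : ∀ (t : ℝ) (m : ℤ), G (t + m) = G t
  inj : ∀ s t, G s = G t → ∃ m : ℤ, s - t = m

lemma IsLoop.fract {G : ℝ → ℂ} (h : IsLoop G) (s t : ℝ) : G (s + Int.fract t) = G (s + t) := by
  have := h.per (s + Int.fract t) ⌊t⌋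
  rw [← this, add_assoc, Int.fract_add_floor]

lemma IsLoop.unif {G : ℝ → ℂ} (h : IsLoop G) {ε : ℝ} (hε : 0 < ε) :
    ∃ κ : ℝ, 0 < κ ∧ κ ≤ 1 / 8 ∧ ∀ s t, |s - t| ≤ κ → ‖G s - G t‖ ≤ ε := by
  have hu : UniformContinuousOn G (Set.Icc (-1) 2) :=
    isCompact_Icc.uniformContinuousOn_of_continuous h.cont.continuousOn
  obtain ⟨κ, hκ, H⟩ := Metric.uniformContinuousOn_iff_le.1 hu ε hε
  refine ⟨min κ (1 / 8), lt_min hκ (by norm_num), min_le_right _ _, fun s t hst => ?_⟩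
  have h1 := abs_le.1 (hst.trans (min_le_right _ _))
  have h2 := hst.trans (min_le_left _ _)
  have h3 := Int.floor_le t
  have h4 := Int.lt_floor_add_one t
  have h5 := H (s + (-⌊t⌋ : ℤ)) ⟨by push_cast; linarith [h1.1], by push_cast; linarith [h1.2]⟩
    (t + (-⌊t⌋ : ℤ)) ⟨by push_cast; linarith, by push_cast; linarith⟩
    (by rw [Real.dist_eq]; simpa using h2)
  rwa [h.per, h.per, dist_eq_norm] at h5

lemma IsLoop.inv {G : ℝ → ℂ} (h : IsLoop G) {κ : ℝ} (hκ : 0 < κ) (hκ' : κ ≤ 1 / 8) :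
    ∃ μ : ℝ, 0 < μ ∧ ∀ s t, ‖G s - G t‖ ≤ μ → ∃ m : ℤ, |s - t - m| ≤ κ := by
  have hK : IsCompact (Set.Icc (0 : ℝ) 1 ×ˢ Set.Icc κ (1 - κ)) := isCompact_Icc.prod isCompact_Icc
  have hne : (Set.Icc (0 : ℝ) 1 ×ˢ Set.Icc κ (1 - κ)).Nonempty :=
    ⟨(0, κ), ⟨le_rfl, zero_le_one⟩, le_rfl, by simp only; linarith⟩
  have hf : Continuous fun p : ℝ × ℝ => ‖G (p.2 + p.1) - G p.1‖ := by
    have := h.cont
    fun_prop
  obtain ⟨p, hp, hmin⟩ := hK.exists_isMinOn hne hf.continuousOn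
  have hpos : 0 < ‖G (p.2 + p.1) - G p.1‖ := by
    rw [norm_pos_iff, sub_ne_zero]
    intro he
    obtain ⟨m, hm⟩ := h.inj _ _ he
    have h1 : (0 : ℝ) < m := by linarith [hp.2.1]
    have h2 : (m : ℝ) < 1 := by linarith [hp.2.2]
    have h3 : 0 < m := by exact_mod_cast h1
    have h4 : m < 1 := by exact_mod_cast h2
    omega
  refine ⟨‖G (p.2 + p.1) - G p.1‖ / 2, by linarith, fun s t hst => ?_⟩
  have h0 := Int.fract_nonneg (s - t)
  have h1 := Int.fract_lt_one (s - t)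
  have h2 := Int.fract_add_floor (s - t)
  by_cases ha : Int.fract (s - t) < κ
  · exact ⟨⌊s - t⌋, abs_le.2 ⟨by linarith, by linarith⟩⟩
  by_cases hb : 1 - κ < Int.fract (s - t)
  · exact ⟨⌊s - t⌋ + 1, abs_le.2 ⟨by push_cast; linarith, by push_cast; linarith⟩⟩
  exfalso
  have h3 : ‖G (p.2 + p.1) - G p.1‖ ≤ ‖G (Int.fract (s - t) + Int.fract t) - G (Int.fract t)‖ :=
    hmin (a := (Int.fract t, Int.fract (s - t)))
      ⟨⟨Int.fract_nonneg t, (Int.fract_lt_one t).le⟩, not_lt.1 ha, not_lt.1 hb⟩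
  have h4 : G (Int.fract t) = G t := by simpa using h.fract 0 t
  rw [h.fract, add_comm _ t, h.fract, h4, add_sub_cancel] at h3
  linarith

lemma IsLoop.exists_re_lt {G : ℝ → ℂ} (h : IsLoop G) :
    ∃ a b, a ≤ b ∧ b ≤ a + 1 ∧ (G a).re < (G b).re := by
  have key : ∃ a b, (G a).re < (G b).re := by
    by_contra hcon
    push Not at hcon
    have hc : Continuous fun t : ℝ => (G (t + 1 / 2)).im - (G t).im := by
      have := h.cont
      fun_prop
    have h1 : G (1 / 2 + 1 / 2) = G 0 := by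
      have := h.per 0 1
      norm_num at this ⊢
      exact this
    have h2 : (0 : ℝ) ∈ Set.uIcc ((G (0 + 1 / 2)).im - (G 0).im)
        ((G (1 / 2 + 1 / 2)).im - (G (1 / 2)).im) := by
      rw [h1, zero_add, Set.mem_uIcc]
      rcases le_total (G (1 / 2)).im (G 0).im with h3 | h3
      · left; constructor <;> linarith
      · right; constructor <;> linarith
    obtain ⟨t, -, ht⟩ := intermediate_value_uIcc hc.continuousOn h2
    obtain ⟨m, hm⟩ := h.inj (t + 1 / 2) t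
      (Complex.ext (le_antisymm (hcon _ _) (hcon _ _)) (sub_eq_zero.1 ht))
    have h3 : (0 : ℝ) < m := by linarith
    have h4 : (m : ℝ) < 1 := by linarith
    have h5 : 0 < m := by exact_mod_cast h3
    have h6 : m < 1 := by exact_mod_cast h4
    omega
  obtain ⟨a, b, hab⟩ := key
  refine ⟨a, a + Int.fract (b - a), by linarith [Int.fract_nonneg (b - a)],
    by linarith [Int.fract_lt_one (b - a)], ?_⟩
  rwa [h.fract, add_sub_cancel]

lemma IsLoop.bounded {G : ℝ → ℂ} (h : IsLoop G) : ∃ B : ℝ, 0 < B ∧ ∀ t, ‖G t‖ ≤ B := by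
  obtain ⟨B, hB⟩ := (isCompact_Icc (a := (0 : ℝ)) (b := 1)).exists_bound_of_continuousOn
    h.cont.continuousOn
  refine ⟨|B| + 1, by positivity, fun t => ?_⟩
  have h4 : G (Int.fract t) = G t := by simpa using h.fract 0 t
  have := hB (Int.fract t) ⟨Int.fract_nonneg t, (Int.fract_lt_one t).le⟩
  rw [h4] at this
  linarith [le_abs_self B]

/-- One step of a chain. -/
def Step (G : ℝ → ℂ) (κ δ a b : ℝ) : Prop := a < b ∧ b - a ≤ κ ∧ ‖G b - G a‖ ≤ δ

/-- A closed chain with `n` steps going once around the loop. -/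
def Chain (G : ℝ → ℂ) (κ δ : ℝ) (n : ℕ) (t : ℤ → ℝ) : Prop :=
  (∀ i, t (i + n) = t i + 1) ∧ ∀ i, Step G κ δ (t i) (t (i + 1))

lemma Step.shift {G : ℝ → ℂ} (h : IsLoop G) {κ δ a b : ℝ} (hs : Step G κ δ a b) (m : ℤ) :
    Step G κ δ (a + m) (b + m) :=
  ⟨by linarith [hs.1], by linarith [hs.2.1], by rw [h.per, h.per]; exact hs.2.2⟩

lemma exists_chain_of_fin {G : ℝ → ℂ} (h : IsLoop G) {κ δ : ℝ} {n : ℕ} (hn : 0 < n) (s : ℤ → ℝ)
    (h1 : ∀ i : ℤ, 0 ≤ i → i + 1 < n → Step G κ δ (s i) (s (i + 1)))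
    (h2 : Step G κ δ (s (n - 1)) (s 0 + 1)) : ∃ t, Chain G κ δ n t := by
  have hn' : (0 : ℤ) < n := by exact_mod_cast hn
  refine ⟨fun k => s (k % n) + (k / n : ℤ), fun i => ?_, fun i => ?_⟩
  · have e : (i + n) / n = i / n + 1 := by
      have := Int.add_mul_ediv_right i 1 hn'.ne'
      rwa [one_mul] at this
    simp only [Int.add_emod_right, e]
    push_cast
    ring
  · have e0 := Int.emod_nonneg i hn'.ne'
    have e1 := Int.emod_lt_of_pos i hn'
    have e2 := Int.emod_add_mul_ediv i n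
    by_cases hc : i % n + 1 < n
    · have e3 : (i + 1) / n = i / n ∧ (i + 1) % n = i % n + 1 :=
        (Int.ediv_emod_unique hn').2 ⟨by linarith, by linarith, hc⟩
      simp only [e3.1, e3.2]
      exact (h1 _ e0 hc).shift h _
    · have e3 : (i + 1) / n = i / n + 1 ∧ (i + 1) % n = 0 :=
        (Int.ediv_emod_unique hn').2 ⟨by rw [mul_add]; linarith, le_rfl, hn'⟩
      have e4 : i % n = n - 1 := by omega
      simp only [e3.1, e3.2, e4]
      have := h2.shift h (i / n)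
      push_cast
      convert this using 1
      ring

lemma exists_chain {G : ℝ → ℂ} (h : IsLoop G) {κ δ : ℝ} (hκ : 0 < κ) (hδ : 0 < δ) :
    ∃ n : ℕ, 0 < n ∧ ∃ t, Chain G κ δ n t := by
  obtain ⟨κ', h1, -, h2⟩ := h.unif hδ
  obtain ⟨n, hn⟩ := exists_nat_one_div_lt (lt_min hκ h1)
  have hp : (0 : ℝ) < (n : ℝ) + 1 := by positivity
  refine ⟨n + 1, Nat.succ_pos n, fun i => i / ((n : ℝ) + 1), fun i => ?_, fun i => ?_⟩
  · push_cast
    field_simp
  · have e : ((i + 1 : ℤ) : ℝ) / ((n : ℝ) + 1) - i / ((n : ℝ) + 1) = 1 / ((n : ℝ) + 1) := by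
      push_cast
      ring
    have e' : 0 < 1 / ((n : ℝ) + 1) := by positivity
    refine ⟨by linarith, by linarith [min_le_left κ κ'], h2 _ _ ?_⟩
    rw [e, abs_of_pos e']
    linarith [min_le_right κ κ']

lemma Chain.strictMono {G : ℝ → ℂ} {κ δ : ℝ} {n : ℕ} {t : ℤ → ℝ} (h : Chain G κ δ n t) :
    StrictMono t := strictMono_int_of_lt_succ fun i => (h.2 i).1

lemma Chain.shift {G : ℝ → ℂ} {κ δ : ℝ} {n : ℕ} {t : ℤ → ℝ} (h : Chain G κ δ n t) (i m : ℤ) :
    t (i + m * n) = t i + m := by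
  induction m using Int.induction_on with
  | zero => simp
  | succ k ih =>
    rw [add_mul, one_mul, ← add_assoc, h.1, ih]
    push_cast
    ring
  | pred k ih =>
    have := h.1 (i + (-(k : ℤ) - 1) * n)
    rw [show i + (-(k : ℤ) - 1) * n + n = i + (-k) * n by ring, ih] at this
    push_cast at this ⊢
    linarith

lemma Chain.eight_le {G : ℝ → ℂ} {κ δ : ℝ} {n : ℕ} {t : ℤ → ℝ} (h : Chain G κ δ n t)
    (hκ : κ ≤ 1 / 8) : 8 ≤ n := by
  have h1 : ∀ k : ℕ, t k ≤ t 0 + k / 8 := by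
    intro k
    induction k with
    | zero => simp
    | succ k ih =>
      have := (h.2 k).2.1
      push_cast
      linarith
  have h2 := h.1 0
  rw [zero_add] at h2
  have h3 := h1 n
  have h4 : (8 : ℝ) ≤ n := by linarith
  exact_mod_cast h4

lemma Chain.shortcut {G : ℝ → ℂ} (hG : IsLoop G) {κ δ : ℝ} {n : ℕ} {t : ℤ → ℝ}
    (h : Chain G κ δ n t) {i j : ℤ} (h1 : i + 2 ≤ j) (h2 : j ≤ i + n) (h3 : t j - t i ≤ κ)
    (h4 : ‖G (t j) - G (t i)‖ ≤ δ) : ∃ m : ℕ, m < n ∧ 0 < m ∧ ∃ t', Chain G κ δ m t' := by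
  obtain ⟨m, hm⟩ := Int.eq_ofNat_of_zero_le (show 0 ≤ i + n + 1 - j by omega)
  refine ⟨m, by omega, by omega, exists_chain_of_fin hG (by omega) (fun k => t (j + k))
    (fun k _ _ => by simpa only [add_assoc] using h.2 (j + k)) ?_⟩
  have e : j + (m - 1) = i + n := by omega
  have h5 : Step G κ δ (t i) (t j) := ⟨h.strictMono (by omega), h3, h4⟩
  simpa only [e, add_zero, h.1, Int.cast_one] using h5.shift hG 1

lemma exists_min_chain {G : ℝ → ℂ} (hG : IsLoop G) {κ δ : ℝ} (hκ : 0 < κ) (hκ' : κ ≤ 1 / 8)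
    (hδ : 0 < δ) (hμ : ∀ s t, ‖G s - G t‖ ≤ δ → ∃ m : ℤ, |s - t - m| ≤ κ) :
    ∃ (n : ℕ) (t : ℤ → ℝ), Chain G κ δ n t ∧
      ∀ i j : ℤ, i + 2 ≤ j → j + 2 ≤ i + n → δ < ‖G (t j) - G (t i)‖ := by
  classical
  have hex := exists_chain hG hκ hδ
  obtain ⟨-, t, ht⟩ := Nat.find_spec hex
  refine ⟨Nat.find hex, t, ht, fun i j h1 h2 => ?_⟩
  by_contra hcon
  push Not at hcon
  obtain ⟨m, hm⟩ := hμ _ _ hcon
  have h3 : t i < t j := ht.strictMono (by omega)
  have h4 : t j < t i + 1 := by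
    rw [← ht.1]
    exact ht.strictMono (by omega)
  obtain ⟨h5, h6⟩ := abs_le.1 hm
  have h7 : (-1 : ℝ) < m := by linarith
  have h8 : (m : ℝ) < 2 := by linarith
  have h9 : -1 < m := by exact_mod_cast h7
  have h10 : m < 2 := by exact_mod_cast h8
  have h11 : m = 0 ∨ m = 1 := by omega
  rcases h11 with rfl | rfl
  · obtain ⟨m, a1, a2, a3⟩ := ht.shortcut hG h1 (by omega) (by simpa using h6) hcon
    exact Nat.find_min hex a1 ⟨a2, a3⟩
  · have e : G (t i + 1) = G (t i) := by simpa using hG.per (t i) 1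
    obtain ⟨m, a1, a2, a3⟩ := ht.shortcut hG (i := j) (j := i + Nat.find hex) h2 (by omega)
      (by rw [ht.1]; push_cast at h5; linarith) (by rwa [ht.1, e, norm_sub_rev])
    exact Nat.find_min hex a1 ⟨a2, a3⟩

end Pool.Agent.Lib.MP_5a3ebe_gt.Ap
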