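import Pool.Agent.Lib.MP_5a3ebe_gt.ApCore

/-! Monotone moves with controlled level change. -/

namespace Pool.Agent.Lib.MP_5a3ebe_gt.Ap

open Classical Matrix

structure Zone (G : Type) where
  i0 : ℤ
  i1 : ℤ
  In : G → Prop
  m : Bool → ℝ
  c : ℝ

structure RS (G : Type) where
  w : G → ℤ
  lam : G → ℝ
  a : ℝ
  U : ℝ
  V : Zone G → Prop

namespace RS

variable {G : Type} (S : RS G)

def δ (e : ℤ) (g g' : G) : ℝ := S.lam g' - S.lam g + e * S.a

def ds (ε : Bool) (g g' : G) : ℤ := if ε then S.w g' - S.w g else S.w g - S.w g'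

structure Mv (ε : Bool) (e : ℤ) (n : ℕ) (g g' : G) : Prop where
  lo : 0 ≤ S.ds ε g g'
  hi : S.ds ε g g' ≤ n
  le : S.δ e g g' ≤ S.U * S.ds ε g g'
  zn : ∀ Z, S.V Z → Z.i0 ≤ S.w g → S.w g ≤ Z.i1 → Z.i0 ≤ S.w g' → S.w g' ≤ Z.i1 →
    S.δ e g g' ≤ S.U * S.ds ε g g' - Z.c ∨
      ((Z.In g ↔ Z.In g') ∧ (Z.In g → S.δ e g g' ≤ Z.m ε * S.ds ε g g'))

def MM (ε : Bool) (e : ℤ) (n : ℕ) (X : Matrix G G F2) : Prop :=
  ∀ g g', X g g' ≠ 0 → S.Mv ε e n g g'

variable {S}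

lemma Mv.refl (ε : Bool) (g : G) : S.Mv ε 0 0 g g := by
  have : S.ds ε g g = 0 := by simp [ds]
  refine ⟨this.ge, by simp [this], by simp [this, δ], fun Z _ _ _ _ _ => Or.inr ?_⟩
  simp [this, δ]

lemma Mv.mono {ε e n n' g g'} (h : S.Mv ε e n g g') (hn : n ≤ n') : S.Mv ε e n' g g' :=
  ⟨h.lo, h.hi.trans (by exact_mod_cast hn), h.le, h.zn⟩

lemma Mv.trans {ε e e' n n' g g' g''} (h : S.Mv ε e n g g') (h' : S.Mv ε e' n' g' g'') :
    S.Mv ε (e + e') (n + n') g g'' := by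
  have e1 : S.ds ε g g'' = S.ds ε g g' + S.ds ε g' g'' := by
    unfold ds; split_ifs <;> ring
  have e2 : S.δ (e + e') g g'' = S.δ e g g' + S.δ e' g' g'' := by
    unfold δ; push_cast; ring
  have l1 := h.lo
  have l2 := h'.lo
  have u1 := h.hi
  have u2 := h'.hi
  have a1 := h.le
  have a2 := h'.le
  refine ⟨by omega, by push_cast; omega, by rw [e1, e2]; push_cast; linarith,
    fun Z hZ b1 b2 b3 b4 => ?_⟩
  have b5 : Z.i0 ≤ S.w g' ∧ S.w g' ≤ Z.i1 := by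
    unfold ds at l1 l2
    split_ifs at l1 l2 <;> omega
  rw [e1, e2]
  push_cast
  rcases h.zn Z hZ b1 b2 b5.1 b5.2 with z1 | z1
  · left; linarith
  rcases h'.zn Z hZ b5.1 b5.2 b3 b4 with z2 | z2
  · left; linarith
  refine Or.inr ⟨z1.1.trans z2.1, fun i => ?_⟩
  have := z1.2 i
  have := z2.2 (z1.1.1 i)
  linarith

lemma Mv.abs {ε e n g g'} (h : S.Mv ε e n g g') : S.w g' ≤ S.w g + n ∧ S.w g ≤ S.w g' + n := by
  have l := h.lo
  have u := h.hi
  unfold ds at l u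
  split_ifs at l u <;> omega

lemma Mv.le' {ε e n g g'} (h : S.Mv ε e n g g') (hU : 0 ≤ S.U) : S.δ e g g' ≤ S.U * n :=
  h.le.trans (mul_le_mul_of_nonneg_left (by exact_mod_cast h.hi) hU)

lemma MM.mono {ε e n n' X} (h : S.MM ε e n X) (hn : n ≤ n') : S.MM ε e n' X :=
  fun g g' x => (h g g' x).mono hn

lemma MM.add {ε e n X Y} (h : S.MM ε e n X) (h' : S.MM ε e n Y) : S.MM ε e n (X + Y) :=
  fun g g' x => (F2.add_ne x).elim (h g g') (h' g g')

variable [Fintype G] [DecidableEq G]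

lemma MM.one (ε : Bool) : S.MM ε 0 0 1 := by
  intro g g' x
  obtain rfl : g = g' := by
    by_contra e
    exact x (Matrix.one_apply_ne e)
  exact Mv.refl ε g

omit [DecidableEq G] in
lemma MM.mul {ε e e' n n' X Y} (h : S.MM ε e n X) (h' : S.MM ε e' n' Y) :
    S.MM ε (e + e') (n + n') (X * Y) := by
  intro g g' x
  obtain ⟨v, v1, v2⟩ := F2.sum_ne x
  exact (h _ _ v1).trans (h' _ _ v2)

lemma MM.pow {ε X} (h : S.MM ε 0 1 X) (n : ℕ) : S.MM ε 0 n (X ^ n) := by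
  induction n with
  | zero => simpa using MM.one ε
  | succ n ih => simpa [pow_succ] using ih.mul h

end RS

variable {G : Type} [Fintype G] [DecidableEq G]

/-- The homotopy between `1` and `ρ ^ n`. -/
def hsum (h ρ : Matrix G G F2) (n : ℕ) : Matrix G G F2 := ∑ m ∈ Finset.range n, ρ ^ m * h

lemma madd_self (X : Matrix G G F2) : X + X = 0 := by
  ext i j; exact F2.add_self _

lemma hom_comm {d h ρ : Matrix G G F2} (dd : d * d = 1) (e : d * h + h * d = 1 + ρ) :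
    d * ρ = ρ * d := by
  have : ρ = 1 + (d * h + h * d) := by rw [e, ← add_assoc, madd_self, zero_add]
  rw [this]
  simp only [mul_add, add_mul, mul_one, one_mul, ← mul_assoc, dd]
  rw [mul_assoc h d d, dd, mul_one]
  abel

lemma hsum_hom {d h ρ : Matrix G G F2} (dd : d * d = 1) (e : d * h + h * d = 1 + ρ) (n : ℕ) :
    d * hsum h ρ n + hsum h ρ n * d = 1 + ρ ^ n := by
  have c : ∀ m : ℕ, d * ρ ^ m = ρ ^ m * d := fun m =>
    (Commute.pow_right (hom_comm dd e : Commute d ρ) m).eq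
  induction n with
  | zero => simp [hsum, madd_self]
  | succ n ih =>
    simp only [hsum, Finset.sum_range_succ] at ih ⊢
    have : d * (ρ ^ n * h) + ρ ^ n * h * d = ρ ^ n + ρ ^ (n + 1) := by
      rw [← mul_assoc, c, mul_assoc, mul_assoc, ← mul_add, e, mul_add, mul_one, pow_succ]
    rw [mul_add, add_mul, add_add_add_comm, ih, this, add_assoc, ← add_assoc (ρ ^ n),
      madd_self, zero_add]

lemma hsum_ne {h ρ : Matrix G G F2} {n g g'} (x : hsum h ρ n g g' ≠ 0) :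
    ∃ m < n, (ρ ^ m * h) g g' ≠ 0 := by
  rw [hsum, Matrix.sum_apply] at x
  obtain ⟨m, m1, m2⟩ := Finset.exists_ne_zero_of_sum_ne_zero x
  exact ⟨m, Finset.mem_range.1 m1, m2⟩

lemma RS.MM.hsum {S : RS G} {ε h ρ} (h1 : S.MM ε 1 1 h) (h2 : S.MM ε 0 1 ρ) (n : ℕ) :
    S.MM ε 1 n (hsum h ρ n) := by
  intro g g' x
  obtain ⟨m, m1, m2⟩ := hsum_ne x
  simpa using (((h2.pow m).mul h1) g g' m2).mono (n' := n) (by omega)

lemma pow_pot {ρ : Matrix G G F2} {f : G → ℤ} (h : ∀ g g', ρ g g' ≠ 0 → f g' = f g + 1) (n : ℕ)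
    {g g'} (x : (ρ ^ n) g g' ≠ 0) : f g' = f g + n := by
  induction n generalizing g' with
  | zero =>
    obtain rfl : g = g' := by
      by_contra e
      exact x (Matrix.one_apply_ne e)
    simp
  | succ n ih =>
    rw [pow_succ] at x
    obtain ⟨v, v1, v2⟩ := F2.sum_ne x
    rw [h _ _ v2, ih v1]
    push_cast; ring

/-! The transposed system. -/

def Zone.neg {G : Type} (Z : Zone G) : Zone G := { Z with m := fun ε => Z.m (!ε) }

def RS.neg {G : Type} (S : RS G) : RS G :=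
  { S with lam := fun g => -S.lam g, V := fun Z => S.V Z.neg }

omit [Fintype G] [DecidableEq G] in
lemma RS.MM.transpose {S : RS G} {ε e n X} (h : S.MM (!ε) e n X) : S.neg.MM ε e n Xᵀ := by
  intro g g' x
  have m := h g' g x
  have e1 : S.neg.ds ε g g' = S.ds (!ε) g' g := by cases ε <;> simp [RS.ds, RS.neg]
  have e2 : S.neg.δ e g g' = S.δ e g' g := by simp only [RS.δ, RS.neg]; ring
  refine ⟨e1 ▸ m.lo, e1 ▸ m.hi, by rw [e1, e2]; exact m.le, fun Z hZ b1 b2 b3 b4 => ?_⟩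
  rw [e1, e2]
  rcases m.zn Z.neg hZ b3 b4 b1 b2 with z | z
  · exact Or.inl z
  · refine Or.inr ⟨z.1.symm, fun i => ?_⟩
    simpa [Zone.neg] using z.2 (z.1.2 i)

end Pool.Agent.Lib.MP_5a3ebe_gt.Ap
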