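import Pool.Agent.Lib.MP_5a3ebe_gt.ApSixA

/-! The test cycle and the test cochain: the pairing. -/

set_option linter.unusedSectionVars false

namespace Pool.Agent.Lib.MP_5a3ebe_gt.Ap

open Classical Matrix Function

variable {G : Type} [Fintype G] [DecidableEq G]

namespace RS

variable (S : RS G)

def Bd (e : ℤ) (n : ℕ) (c : ℝ) (g g' : G) : Prop :=
  (S.w g' ≤ S.w g + n ∧ S.w g ≤ S.w g' + n) ∧ S.δ e g g' ≤ S.U * n - c

def BM (e : ℤ) (n : ℕ) (c : ℝ) (X : Matrix G G F2) : Prop :=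
  ∀ g g', X g g' ≠ 0 → S.Bd e n c g g'

def PM (c : ℝ) (sp : G → G → Prop) (X : Matrix G G F2) : Prop :=
  ∀ g g', X g g' ≠ 0 → S.Bd (-1) 1 0 g g' ∧ (S.Bd (-1) 1 c g g' ∨ sp g g')

variable {S}

lemma Bd.trans {e e' n n' c c' g g' g''} (h : S.Bd e n c g g') (h' : S.Bd e' n' c' g' g'') :
    S.Bd (e + e') (n + n') (c + c') g g'' := by
  obtain ⟨⟨a1, a2⟩, a3⟩ := h
  obtain ⟨⟨b1, b2⟩, b3⟩ := h'
  refine ⟨by push_cast; omega, ?_⟩
  simp only [δ] at a3 b3 ⊢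
  push_cast
  linarith

lemma Bd.mono (hU : 0 ≤ S.U) {e e' n n' c c' g g'} (h : S.Bd e n c g g') (he : e = e')
    (hn : n ≤ n') (hc : c' ≤ c) : S.Bd e' n' c' g g' := by
  obtain ⟨⟨a1, a2⟩, a3⟩ := h
  subst he
  have : (n : ℝ) ≤ n' := by exact_mod_cast hn
  exact ⟨by omega, by nlinarith⟩

lemma BM.mul {e e' n n' c c' X Y} (h : S.BM e n c X) (h' : S.BM e' n' c' Y) :
    S.BM (e + e') (n + n') (c + c') (X * Y) := by
  intro g g' x
  obtain ⟨v, v1, v2⟩ := F2.sum_ne x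
  exact (h _ _ v1).trans (h' _ _ v2)

lemma BM.mono (hU : 0 ≤ S.U) {e e' n n' c c' X} (h : S.BM e n c X) (he : e = e')
    (hn : n ≤ n') (hc : c' ≤ c) : S.BM e' n' c' X := fun g g' x => (h g g' x).mono hU he hn hc

lemma MM.bm (hU : 0 ≤ S.U) {ε e n X} (h : S.MM ε e n X) : S.BM e n 0 X :=
  fun g g' x => ⟨(h g g' x).abs, by simpa using (h g g' x).le' hU⟩

lemma PM.bm {c sp X} (h : S.PM c sp X) : S.BM (-1) 1 0 X := fun g g' x => (h g g' x).1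

lemma Bd.refl (g : G) : S.Bd 0 0 0 g g := by simp [Bd, δ]

lemma PM.two {c sp sp' X Y Z e n} (h : S.PM c sp X) (hY : S.BM e n 0 Y) (h' : S.PM c sp' Z)
    (far : ∀ g1 g2 g3 g4, sp g1 g2 → sp' g3 g4 → S.w g3 ≤ S.w g2 + n → S.w g2 ≤ S.w g3 + n →
      False) : S.BM (-1 + e + -1) (1 + n + 1) c (X * Y * Z) := by
  intro g g' x
  obtain ⟨v, v1, v2⟩ := F2.sum_ne x
  obtain ⟨u, u1, u2⟩ := F2.sum_ne v1
  obtain ⟨a1, a2 | a2⟩ := h _ _ u1
  · simpa using (a2.trans (hY _ _ u2)).trans (h' _ _ v2).1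
  obtain ⟨b1, b2 | b2⟩ := h' _ _ v2
  · simpa using (a1.trans (hY _ _ u2)).trans b2
  exact (far _ _ _ _ a2 b2 (hY _ _ u2).1.1 (hY _ _ u2).1.2).elim

end RS

/-- The indicator matrix of a set of generators. -/
noncomputable def ind (P : G → Prop) : Matrix G G F2 := diagonal fun g => if P g then 1 else 0

lemma ind_ne {P : G → Prop} {g g'} (h : ind P g g' ≠ 0) : g = g' ∧ P g := by
  by_cases e : g = g'
  · subst e
    refine ⟨rfl, ?_⟩
    by_contra hc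
    simp [ind, hc] at h
  · simp [ind, e] at h

lemma ind_mul_ne {P : G → Prop} {X : Matrix G G F2} {g g'} (h : (ind P * X) g g' ≠ 0) :
    P g ∧ X g g' ≠ 0 := by
  obtain ⟨v, v1, v2⟩ := F2.sum_ne h
  obtain ⟨rfl, e⟩ := ind_ne v1
  exact ⟨e, v2⟩

lemma RS.BM.ind {S : RS G} (P : G → Prop) : S.BM 0 0 0 (ind P) := by
  intro g g' x
  obtain ⟨rfl, -⟩ := ind_ne x
  exact RS.Bd.refl g

lemma RS.BM.one {S : RS G} : S.BM 0 0 0 1 := by
  intro g g' x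
  obtain rfl : g = g' := by
    by_contra e
    exact x (Matrix.one_apply_ne e)
  exact RS.Bd.refl g

def In0 (w : G → ℤ) (bot : G → Prop) (j0 : ℤ) (Ω : ℕ) (g : G) : Prop :=
  bot g ∧ j0 < w g ∧ w g ≤ j0 + 2 * Ω

def In2 (w : G → ℤ) (bot : G → Prop) (j0 : ℤ) (Ω : ℕ) (g : G) : Prop :=
  w g ≤ j0 ∨ (¬ bot g ∧ w g ≤ j0 + Ω)

structure SixH (S : RS G) (d τ p0 p1 p2 hL hR rL rR : Matrix G G F2) (bot : G → Prop)
    (sp : G → G → Prop) (π : G → F2) (j0 : ℤ) (Ω n : ℕ) (c0 μ : ℝ) (Zb Zt : Zone G) : Prop where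
  U0 : 0 ≤ S.U
  dd : d * d = 1
  eL : bdy d hL = 1 + rL
  eR : bdy d hR = 1 + rR
  eτ : bdy d τ = 0
  e0 : bdy d p0 = 1
  e1 : p1 = p0 + bdy d (ind (In0 S.w bot j0 Ω))
  e2 : p2 = p0 + bdy d (ind (In2 S.w bot j0 Ω))
  mhL : S.MM false 1 n hL
  mhR : S.MM true 1 n hR
  mrL : S.MM false 0 n rL
  mrR : S.MM true 0 n rR
  wL : ∀ g g', rL g g' ≠ 0 → S.w g' + n ≤ S.w g + 1
  wR : ∀ g g', rR g g' ≠ 0 → S.w g' = S.w g + n
  mτ : ∀ g g', τ g g' ≠ 0 → S.δ 1 g g' ≤ S.U * |(S.w g' : ℝ) - S.w g|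
  P0 : S.PM c0 sp p0
  sp0 : ∀ g g', sp g g' → S.w g = j0 ∧ S.w g' = j0 + 1 ∧ bot g'
  P1 : S.PM c0 (fun g g' => S.w g = j0 + 2 * Ω ∧ S.w g' = j0 + 2 * Ω + 1) p1
  P2 : S.PM c0 (fun g g' => S.w g = j0 + Ω ∧ S.w g' = j0 + Ω + 1 ∧ ¬ bot g') p2
  w0 : ∀ g g', p0 g g' ≠ 0 → π g' = π g + 1
  w1 : ∀ g g', p1 g g' ≠ 0 → π g' = π g + 1
  main : ∑ g, ∑ g', (if sp g g' then τ g' g * p0 g g' else 0) = 1
  nΩ : n + 2 ≤ Ω
  ca : c0 ≤ 2 * S.a
  cU : 2 * S.U * (2 * n + 2) < c0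
  zb : S.V Zb ∧ Zb.i0 ≤ j0 - Ω ∧ j0 + 3 * Ω ≤ Zb.i1 ∧ (∀ g, Zb.In g ↔ bot g) ∧ c0 ≤ Zb.c
  zt : S.V Zt ∧ Zt.i0 ≤ j0 - Ω ∧ j0 + 3 * Ω ≤ Zt.i1 ∧ (∀ g, Zt.In g ↔ ¬ bot g) ∧ c0 ≤ Zt.c
  mb : -S.U ≤ Zb.m false
  mm : Zb.m false + Zt.m true ≤ -μ

section
variable {S : RS G} {d τ p0 p1 p2 hL hR rL rR : Matrix G G F2} {bot : G → Prop}
  {sp : G → G → Prop} {π : G → F2} {j0 : ℤ} {Ω n : ℕ} {c0 μ : ℝ} {Zb Zt : Zone G}
  (H : SixH S d τ p0 p1 p2 hL hR rL rR bot sp π j0 Ω n c0 μ Zb Zt)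
include H

lemma SixH.van {Y : Matrix G G F2} {e m c} (h : S.BM e m c Y) (he : e = -1)
    (hm : m ≤ 2 * n + 2) (hc : c0 ≤ c) : trace (τ * Y) = 0 := by
  have h := h.mono H.U0 he hm hc
  by_contra x
  obtain ⟨g, -, x⟩ := Finset.exists_ne_zero_of_sum_ne_zero x
  obtain ⟨g', v1, v2⟩ := F2.sum_ne x
  have a1 := H.mτ _ _ v1
  obtain ⟨⟨a2, a3⟩, a4⟩ := h _ _ v2
  have : |(S.w g' : ℝ) - S.w g| ≤ (2 * n + 2 : ℕ) := by
    rw [abs_le]
    constructor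
    · have : ((S.w g : ℤ) : ℝ) ≤ S.w g' + (2 * n + 2 : ℕ) := by exact_mod_cast a2
      linarith
    · have : ((S.w g' : ℤ) : ℝ) ≤ S.w g + (2 * n + 2 : ℕ) := by exact_mod_cast a3
      linarith
  have := mul_le_mul_of_nonneg_left this H.U0
  have := H.cU
  simp only [RS.δ] at a1 a4
  push_cast at *
  linarith

lemma SixH.pair : sixZ τ (ind (In0 S.w bot j0 Ω)) (1 + ind (In0 S.w bot j0 Ω) +
    ind (In2 S.w bot j0 Ω)) (ind (In2 S.w bot j0 Ω)) p0 p1 p2 hL hR rL rR ⬝ᵥ co p1 p0 = 1 := by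
  rw [sixZ_pair H.dd H.eL H.eR H.eτ H.e0 H.e1 H.e2 rfl]
  have nΩ := H.nΩ
  have z02 : ind (In0 S.w bot j0 Ω) * ind (In2 S.w bot j0 Ω) = 0 := by
    ext g g'
    by_contra x
    obtain ⟨a, x⟩ := ind_mul_ne x
    have b := (ind_ne x).2
    unfold In0 at a
    unfold In2 at b
    rcases b with b | b
    · omega
    · exact b.1 a.1
  have z20 : ind (In2 S.w bot j0 Ω) * ind (In0 S.w bot j0 Ω) = 0 := by
    rw [← z02]
    simp only [ind, diagonal_mul_diagonal, mul_comm]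
  have bhL := H.mhL.bm H.U0
  have bhR := H.mhR.bm H.U0
  have brL := H.mrL.bm H.U0
  have brR := H.mrR.bm H.U0
  have i0 : S.BM 0 0 0 (ind (In0 S.w bot j0 Ω)) := RS.BM.ind _
  have t20 := fun {Y e m} (hY : S.BM e m 0 Y) (hm : m ≤ n) => H.P2.two hY H.P0
    fun g1 g2 g3 g4 a b c e => by have := H.sp0 _ _ b; omega
  have t02 := fun {Y e m} (hY : S.BM e m 0 Y) (hm : m ≤ n) => H.P0.two hY H.P2
    fun g1 g2 g3 g4 a b c e => by have := H.sp0 _ _ a; omega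
  have t12 := fun {Y e m} (hY : S.BM e m 0 Y) (hm : m ≤ n) => H.P1.two hY H.P2
    fun g1 g2 g3 g4 a b c e => by omega
  have ihL : S.BM 1 n 0 _ := (i0.mul bhL).mono H.U0 rfl (by omega) (by simp)
  have t12' := t12 ihL le_rfl
  have v3 : S.BM (-1) 1 c0 (ind (In0 S.w bot j0 Ω) * p0 * ind (In2 S.w bot j0 Ω)) := by
    have : S.BM (-1) 1 c0 (ind (In0 S.w bot j0 Ω) * p0) := by
      intro g g' x
      obtain ⟨a, x⟩ := ind_mul_ne x
      refine (H.P0 _ _ x).2.resolve_right fun b => ?_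
      have := H.sp0 _ _ b
      have := a.2.1
      omega
    simpa using this.mul (RS.BM.ind _)
  rw [z02, z20, H.van v3 rfl (by omega) le_rfl,
    H.van ((t20 RS.BM.one n.zero_le).mul (i0.mul bhL)) rfl (by omega) (by simp),
    H.van ((t12 RS.BM.one n.zero_le).mul (i0.mul bhL)) rfl (by omega) (by simp),
    H.van ((t20 bhR le_rfl).mul (i0.mul brL)) rfl (by omega) (by simp),
    H.van (((t12 RS.BM.one n.zero_le).mul bhR).mul (i0.mul brL)) rfl (by omega) (by simp),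
    H.van ((i0.mul (t02 RS.BM.one n.zero_le)).mul bhR) rfl (by omega) (by simp),
    H.van ((t12 i0 n.zero_le).mul bhR) rfl (by omega) (by simp),
    H.van (((i0.mul bhL).mul (t02 RS.BM.one n.zero_le)).mul brR) rfl (by omega) (by simp),
    H.van (t12'.mul brR) rfl (by omega) (by simp)]
  simp only [mul_zero, trace_zero, add_zero]
  have mn := H.main
  let a : Matrix G G F2 := fun g g' => if sp g g' then p0 g g' else 0
  let b : Matrix G G F2 := fun g g' => if sp g g' then 0 else p0 g g'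
  have ab : p0 = a + b := by
    ext g g'
    simp only [a, b, Matrix.add_apply]
    split_ifs <;> simp
  have hb : S.BM (-1) 1 c0 b := by
    intro g g' x
    simp only [b] at x
    split_ifs at x with e
    · exact absurd rfl x
    · exact (H.P0 _ _ x).2.resolve_right e
  have ea : ind (In2 S.w bot j0 Ω) * a * ind (In0 S.w bot j0 Ω) = a := by
    ext g g'
    simp only [ind, mul_diagonal, diagonal_mul, a]
    by_cases e : sp g g'
    · have := H.sp0 _ _ e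
      have a2 : In2 S.w bot j0 Ω g := Or.inl this.1.le
      have a0 : In0 S.w bot j0 Ω g' := ⟨this.2.2, by omega, by omega⟩
      simp [a2, a0]
    · simp [e]
  rw [ab, mul_add, add_mul, mul_add, trace_add, ea,
    H.van (((RS.BM.ind _).mul hb).mul i0) rfl (by omega) (by simp), add_zero]
  rw [Finset.sum_comm] at mn
  simpa only [trace, diag, Matrix.mul_apply, a, mul_ite, mul_zero] using mn

end

end Pool.Agent.Lib.MP_5a3ebe_gt.Ap
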