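import Pool.Agent.Lib.MP_5a3ebe_gt.ApReal
import Pool.Agent.Lib.MP_5a3ebe_gt.ApSixB

/-! The odd parts of the differential with respect to unit level data. -/

set_option linter.unusedSectionVars false

namespace Pool.Agent.Lib.MP_5a3ebe_gt.Ap

open Classical Matrix

namespace TC

variable {ι G : Type} [Fintype G] [DecidableEq G] (T : TC ι G) (D : Diag ι)

noncomputable def Nn (F0 : ℤ → ι → ℤ) (A0 : ℤ) (bot : ι → Prop) (j0 j : ℤ) (g : G) : ℤ :=
  Diag.uF F0 bot j0 j (T.w g) (T.st g) - if D.dir (T.st g) = true ∧ T.sl g = true then A0 else 0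

noncomputable def pm (κ : G → F2) : Matrix G G F2 :=
  bdy T.d (diagonal κ) + T.d * diagonal (T.par D)

variable {T D}

lemma pm_apply (κ : G → F2) (g g') :
    T.pm D κ g g' = T.d g g' * (κ g + κ g' + T.par D g') := by
  simp only [pm, bdy, Matrix.add_apply, mul_diagonal, diagonal_mul]
  ring

lemma pm_add (κ : G → F2) (P : G → Prop) : T.pm D κ + bdy T.d (ind P) =
    T.pm D (fun g => κ g + if P g then 1 else 0) := by
  ext g g'
  simp only [pm_apply, bdy, ind, Matrix.add_apply, mul_diagonal, diagonal_mul]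
  ring

lemma pm_shift (κ : G → F2) : T.pm D (fun g => κ g + 1) = T.pm D κ := by
  ext g g'
  simp only [pm_apply]
  grind

lemma pm_ne {κ : G → F2} {g g'} (x : T.pm D κ g g' ≠ 0) :
    T.d g g' ≠ 0 ∧ κ g + κ g' + T.par D g' = 1 := by
  rw [pm_apply] at x
  exact ⟨left_ne_zero_of_mul x, F2.eq_one (right_ne_zero_of_mul x)⟩

lemma Nn_diff (F0 : ℤ → ι → ℤ) (A0 : ℤ) (bot : ι → Prop) (j0 j j' : ℤ) (g : G) :
    T.Nn D F0 A0 bot j0 j' g = T.Nn D F0 A0 bot j0 j g + if bot (T.st g) then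
      (if j' < T.w g then 1 else 0) - (if j < T.w g then 1 else 0) else 0 := by
  unfold Nn Diag.uF
  split_ifs <;> ring

variable (Sp : T.Spec D)
include Sp

lemma Spec.bdy_pm (κ : G → F2) : bdy T.d (T.pm D κ) = 1 := by
  have e : T.d * diagonal (T.par D) = T.d + diagonal (T.par D) * T.d := by
    ext g g'
    simp only [Matrix.add_apply, mul_diagonal, diagonal_mul]
    by_cases x : T.d g g' = 0
    · simp [x]
    · rw [Sp.par_d x]; ring
  rw [pm, bdy_add, bdy_bdy Sp.dd, zero_add, bdy, ← mul_assoc, Sp.dd, one_mul, e, add_mul, Sp.dd,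
    mul_assoc, Sp.dd, mul_one, add_comm 1, ← add_assoc, madd_self, zero_add]

section
variable (Gd : D.Good) {i0 i1 j0 : ℤ} {bot : ι → Prop} {y g0 : ℝ} (S : D.Sep i0 i1 bot y g0)
  (hg : 0 < g0) (h0 : i0 ≤ j0) (h1 : j0 < i1) {F0 : ℤ → ι → ℤ} {A0 : ℤ}
  (L : D.Lev (fun k s => if k = j0 ∧ bot s then 1 else 0) F0 A0) (od : Odd A0)
  {lam : ℤ → ι → ℝ} {a h R : ℝ} (hl : D.Adm lam a) (hh : 0 < h)
  (hs : ∀ k s, D.Al k s → lam (k + 1) s - lam k s = -(h * D.key k s))
  (hR : ∀ k s, D.Al k s → |D.key k s| ≤ R) (R0 : 0 ≤ R)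
include Gd S hg h0 h1 L od hl hh hs hR R0

lemma Spec.boxp {g g'} (x : T.d g g' ≠ 0) (u : ℤ) (B : ℕ) (u0 : i0 ≤ u) (u1 : u + B ≤ i1)
    (hw : T.w g' = T.w g + 1 → T.w g < u ∨ u + B ≤ T.w g)
    (ho : ∀ j, u ≤ j → j < u + B → (T.Nn D F0 A0 bot j0 j g : F2) + T.Nn D F0 A0 bot j0 j g' +
      T.par D g' = 1) : (T.rs D lam a h R).δ (-1) g g' ≤ h * R - 2 * g0 * h * B := by
  obtain ⟨st, pr, ps⟩ := Sp.dS _ _ x
  obtain ⟨t, p, sp⟩ := st.spec
  have c0 : ∀ j, u ≤ j → j < u + B →
      D.uL F0 A0 bot j0 j (T.w g') t = D.uL F0 A0 bot j0 j (T.w g) t := by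
    intro j a0 a1
    rcases p with p | ⟨p, al⟩ | ⟨p, al⟩
    · rw [p]
    · have := S.stepU h0 h1 L (j := j) (by omega) (by omega) al
      rw [if_neg (by have := hw p; omega)] at this
      rw [p]; linarith
    · omega
  have c1 : lam (T.w g') t - lam (T.w g) t ≤ h * R := by
    rcases p with p | ⟨p, al⟩ | ⟨p, al⟩
    · rw [p, sub_self]; positivity
    · rw [p, hs _ _ al]
      nlinarith [(abs_le.1 (hR _ _ al)).1]
    · omega
  have dr : ∀ j ∈ Finset.Ico u (u + B), T.lv (D.uL F0 A0 bot j0 j) (A0 / 2) g' + 1 ≤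
      T.lv (D.uL F0 A0 bot j0 j) (A0 / 2) g + A0 / 2 := by
    intro j hj
    obtain ⟨a0, a1⟩ := Finset.mem_Ico.1 hj
    have s1 := sp _ _ (S.admU Gd hg h0 h1 L (j := j) (by omega) (by omega))
    rw [c0 j a0 a1, sub_self] at s1
    let z : ℤ := T.Nn D F0 A0 bot j0 j g - T.Nn D F0 A0 bot j0 j g' +
      if xor (D.dir (T.st g')) (T.sl g') then A0 else 0
    have ez : (z : ℝ) = T.lv (D.uL F0 A0 bot j0 j) (A0 / 2) g -
        T.lv (D.uL F0 A0 bot j0 j) (A0 / 2) g' + A0 / 2 := by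
      simp only [z, Nn, lv, Diag.uL]
      revert pr
      cases D.dir (T.st g') <;> cases T.sl g' <;> cases D.dir (T.st g) <;> cases T.sl g <;>
        simp <;> ring
    have z2 : (z : F2) = 1 := by
      rw [← ho j a0 a1]
      obtain ⟨m, rfl⟩ := od
      simp only [z, par]
      split_ifs <;> push_cast <;> grind
    have z0 : (0 : ℝ) ≤ z := by
      push_cast at s1
      linarith
    have : 1 ≤ z := by
      have : 0 ≤ z := by exact_mod_cast z0
      rcases this.eq_or_lt with e | e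
      · rw [← e] at z2; simp at z2
      · omega
    have : (1 : ℝ) ≤ z := by exact_mod_cast this
    linarith
  have bx := sp _ _ (S.box Gd hg h0 h1 L hh hl hs (Finset.Ico u (u + B)) fun j hj => by
    have := Finset.mem_Ico.1 hj; omega)
  have sm := Finset.sum_le_sum dr
  rw [Finset.sum_congr rfl fun j hj => c0 j (Finset.mem_Ico.1 hj).1 (Finset.mem_Ico.1 hj).2] at bx
  simp only [lv, Finset.sum_add_distrib, Finset.sum_sub_distrib, Finset.sum_const, Int.card_Ico,
    add_sub_cancel_left, Int.toNat_natCast, nsmul_eq_mul] at bx sm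
  simp only [RS.δ, rs, lv]
  have gh : 0 < 2 * g0 * h := by positivity
  have := mul_le_mul_of_nonneg_left sm gh.le
  push_cast at bx ⊢
  split_ifs at bx this ⊢ <;> nlinarith

lemma Spec.pmP (top : Bool) (j : ℤ) (B : ℕ) (b0 : i0 + B ≤ j) (b1 : j + 1 + B ≤ i1) :
    (T.rs D lam a h R).PM (2 * g0 * h * B) (fun g g' => T.sl g = true ∧ T.sl g' = false ∧
      T.w g = j ∧ T.w g' = j + 1 ∧ (bot (T.st g) ↔ top = false) ∧ (bot (T.st g') ↔ top = false))
      (T.pm D fun g => T.Nn D F0 A0 bot j0 j g + if top = true ∧ j < T.w g then 1 else 0) := by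
  intro g g' x
  obtain ⟨x, o⟩ := pm_ne x
  have bd := (Sp.md hl hh hs hR).bm (mul_nonneg hh.le R0) _ _ x
  refine ⟨bd, ?_⟩
  have key := fun u u0 u1 hw ho => Or.inl (b := T.sl g = true ∧ T.sl g' = false ∧
      T.w g = j ∧ T.w g' = j + 1 ∧ (bot (T.st g) ↔ top = false) ∧ (bot (T.st g') ↔ top = false))
    (show (T.rs D lam a h R).Bd (-1) 1 (2 * g0 * h * B) g g' from ⟨bd.1, by
      simpa [rs] using Sp.boxp Gd S hg h0 h1 L od hl hh hs hR R0 x u B u0 u1 hw ho⟩)
  have ps := (Sp.dS _ _ x).2.2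
  have nd := Nn_diff (T := T) (D := D) F0 A0 bot j0 j
  by_cases c1 : T.w g ≤ j ∧ T.w g' ≤ j
  · refine key j (by omega) (by omega) (by omega) fun j' a0 a1 => ?_
    rw [nd j' g, nd j' g', ← o]
    simp [show ¬ j' < T.w g by omega, show ¬ j < T.w g by omega, show ¬ j' < T.w g' by omega,
      show ¬ j < T.w g' by omega]
  by_cases c2 : j < T.w g ∧ j < T.w g'
  · refine key (j + 1 - B) (by omega) (by omega) (by omega) fun j' a0 a1 => ?_
    rw [nd j' g, nd j' g', ← o]
    simp only [show j' < T.w g by omega, c2.1, show j' < T.w g' by omega, c2.2, if_true, and_true,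
      sub_self, ite_self, add_zero]
    grind
  obtain ⟨s1, s2, s3⟩ := ps.resolve_left (by omega)
  have w1 : T.w g = j := by omega
  have w2 : T.w g' = j + 1 := by omega
  simp only [w1, w2, lt_self_iff_false, and_false, if_false, add_zero, lt_add_one, and_true] at o
  by_cases c3 : bot (T.st g) ↔ top = false
  · by_cases c4 : bot (T.st g') ↔ top = false
    · exact Or.inr ⟨s1, s2, w1, w2, c3, c4⟩
    refine key (j + 1) (by omega) (by omega) (by omega) fun j' a0 a1 => ?_
    rw [nd j' g, nd j' g', ← o]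
    simp only [w1, w2, show ¬ j' < j by omega, show ¬ j' < j + 1 by omega, lt_self_iff_false,
      lt_add_one, if_true, if_false, sub_self, ite_self, add_zero]
    cases top <;> by_cases e : bot (T.st g') <;> simp [e] at c4 ⊢
  · refine key (j - B) (by omega) (by omega) (by omega) fun j' a0 a1 => ?_
    rw [nd j' g, nd j' g', ← o]
    simp only [w1, w2, show j' < j by omega, show j' < j + 1 by omega, lt_self_iff_false,
      lt_add_one, if_true, if_false, sub_self, ite_self, add_zero]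
    cases top <;> by_cases e : bot (T.st g) <;> simp [e] at c3 ⊢
    grind

end

lemma Spec.tau {n : ℕ} (hn : 0 < n) {g g'} (s1 : T.sl g = true) (s2 : T.sl g' = false)
    (w : T.w g' = T.w g + 1) :
    (hsum (T.h true) (T.ρ true) n + hsum (T.h false) (T.ρ false) n) g' g = T.h false g' g := by
  have e1 : hsum (T.h true) (T.ρ true) n g' g = 0 := by
    by_contra x
    obtain ⟨m, -, x⟩ := hsum_ne x
    obtain ⟨v, v1, v2⟩ := F2.sum_ne x
    have := Sp.powR v1
    have := (Sp.hS _ _ _ v2).2.2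
    simp only [if_true] at this
    omega
  rw [Matrix.add_apply, e1, zero_add, hsum, Matrix.sum_apply, Finset.sum_eq_single 0]
  · simp
  · intro m _ hm
    by_contra x
    obtain ⟨u, v1, v2⟩ := F2.sum_ne x
    have a1 := Sp.powL v1
    obtain ⟨-, a2, a3⟩ := Sp.hS _ _ _ v2
    simp only [Bool.false_eq_true, if_false, v, s1, s2, a2, if_true] at a1 a3
    omega
  · intro e
    exact absurd (Finset.mem_range.2 hn) e

end TC

end Pool.Agent.Lib.MP_5a3ebe_gt.Ap
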