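import Pool.Agent.Lib.MP_5a3ebe_gt.ApCore

/-! A simple polygon with distinct abscissae on a grid gives a good connected sliced diagram. -/

namespace Pool.Agent.Lib.MP_5a3ebe_gt.Ap

lemma lineH_left (P Q : ℂ) : lineH P Q P.re = P.im := by simp [lineH]

lemma lineH_right {P Q : ℂ} (h : Q.re ≠ P.re) : lineH P Q Q.re = Q.im := by
  have : Q.re - P.re ≠ 0 := sub_ne_zero.2 h
  unfold lineH
  field_simp
  ring

lemma continuous_lineH (P Q : ℂ) : Continuous (lineH P Q) := by
  unfold lineH
  fun_prop

lemma lineH_mem {P Q : ℂ} (h : Q.re ≠ P.re) {x : ℝ} (h1 : min P.re Q.re ≤ x)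
    (h2 : x ≤ max P.re Q.re) : (⟨x, lineH P Q x⟩ : ℂ) ∈ segment ℝ P Q := by
  have hne : Q.re - P.re ≠ 0 := sub_ne_zero.2 h
  have ht : 0 ≤ (x - P.re) / (Q.re - P.re) ∧ (x - P.re) / (Q.re - P.re) ≤ 1 := by
    rcases lt_or_gt_of_ne h with hl | hl
    · rw [min_eq_right hl.le] at h1
      rw [max_eq_left hl.le] at h2
      constructor
      · exact div_nonneg_of_nonpos (by linarith) (by linarith)
      · rw [div_le_one_of_neg (by linarith)]; linarith
    · rw [min_eq_left hl.le] at h1
      rw [max_eq_right hl.le] at h2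
      constructor
      · exact div_nonneg (by linarith) (by linarith)
      · rw [div_le_one (by linarith)]; linarith
  refine ⟨1 - (x - P.re) / (Q.re - P.re), (x - P.re) / (Q.re - P.re), by linarith [ht.2], ht.1,
    by ring, ?_⟩
  apply Complex.ext
  · simp only [Complex.add_re, Complex.smul_re, smul_eq_mul]
    field_simp
    ring
  · simp only [Complex.add_im, Complex.smul_im, smul_eq_mul, lineH]
    field_simp
    ring

lemma lt_iff_of_no_meet {f g : ℝ → ℝ} (hf : Continuous f) (hg : Continuous g) {x x' : ℝ}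
    (hx : x ≤ x') (h0 : ∀ y, x ≤ y → y ≤ x' → f y ≠ g y) : f x < g x ↔ f x' < g x' := by
  have hc : ContinuousOn (fun y => g y - f y) (Set.Icc x x') := (hg.sub hf).continuousOn
  constructor
  · intro h
    by_contra h'
    have : (0 : ℝ) ∈ Set.Icc (g x' - f x') (g x - f x) := ⟨by linarith [not_lt.1 h'], by linarith⟩
    obtain ⟨y, hy, e⟩ := intermediate_value_Icc' hx hc this
    exact h0 y hy.1 hy.2 (by simp only at e; linarith)
  · intro h
    by_contra h'
    have : (0 : ℝ) ∈ Set.Icc (g x - f x) (g x' - f x') := ⟨by linarith [not_lt.1 h'], by linarith⟩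
    obtain ⟨y, hy, e⟩ := intermediate_value_Icc hx hc this
    exact h0 y hy.1 hy.2 (by simp only at e; linarith)

section

variable {n : ℕ} [NeZero n] (z : ZMod n → ℂ) (h : ℝ) (X : ZMod n → ℤ)

/-- The vertex at which an end of an edge sits. -/
def pvtx (x : ZMod n × Bool) : ZMod n :=
  if x.2 = decide (X x.1 < X (x.1 + 1)) then x.1 + 1 else x.1

lemma poly_wall (x : ZMod n × Bool) : (polyDiag z h X).wall x = X (pvtx X x) := by
  obtain ⟨v, β⟩ := x
  cases β <;> by_cases hv : X v < X (v + 1) <;>
    simp [Diag.wall, polyDiag, pvtx, hv] <;> omega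

lemma poly_J_pos {v : ZMod n} {β : Bool} (hb : β = decide (X v < X (v + 1))) :
    (polyDiag z h X).J (v, β) = (v + 1, !decide (X (v + 1) < X (v + 1 + 1))) := by
  simp only [polyDiag]
  rw [if_pos hb]

lemma poly_J_neg {v : ZMod n} {β : Bool} (hb : β ≠ decide (X v < X (v + 1))) :
    (polyDiag z h X).J (v, β) = (v - 1, decide (X (v - 1) < X (v - 1 + 1))) := by
  simp only [polyDiag]
  rw [if_neg hb]

lemma pvtx_J (x : ZMod n × Bool) : pvtx X ((polyDiag z h X).J x) = pvtx X x := by
  obtain ⟨v, β⟩ := x
  by_cases hb : β = decide (X v < X (v + 1))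
  · rw [poly_J_pos z h X hb]
    simp only [pvtx]
    rw [if_pos hb, if_neg (by simp)]
  · rw [poly_J_neg z h X hb]
    simp only [pvtx]
    rw [if_neg hb]
    simp

lemma poly_JJ (x : ZMod n × Bool) : (polyDiag z h X).J ((polyDiag z h X).J x) = x := by
  obtain ⟨v, β⟩ := x
  by_cases hb : β = decide (X v < X (v + 1))
  · rw [poly_J_pos z h X hb, poly_J_neg z h X (by simp)]
    simp [hb]
  · rw [poly_J_neg z h X hb, poly_J_pos z h X rfl]
    simp only [sub_add_cancel, Prod.mk.injEq, true_and]
    cases β <;> simp_all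

lemma zmod_one_ne (hn : 3 ≤ n) : (1 : ZMod n) ≠ 0 := by
  intro e
  have : ((1 : ℕ) : ZMod n) = 0 := by simpa using e
  rw [ZMod.natCast_eq_zero_iff] at this
  have := Nat.le_of_dvd (by norm_num) this
  omega

lemma poly_Jne (hn : 3 ≤ n) (v : ZMod n) (β : Bool) : ((polyDiag z h X).J (v, β)).1 ≠ v := by
  have h1 := zmod_one_ne hn
  by_cases hb : β = decide (X v < X (v + 1))
  · rw [poly_J_pos z h X hb]
    simpa using h1
  · rw [poly_J_neg z h X hb]
    simpa using h1

lemma poly_Jdir (v : ZMod n) (β : Bool) :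
    (polyDiag z h X).dir ((polyDiag z h X).J (v, β)).1 = (polyDiag z h X).dir v ↔
      ((polyDiag z h X).J (v, β)).2 ≠ β := by
  by_cases hb : β = decide (X v < X (v + 1))
  · rw [poly_J_pos z h X hb]
    simp only [polyDiag]
    rw [← hb]
    cases β <;> simp
  · rw [poly_J_neg z h X hb]
    simp only [polyDiag]
    have : decide (X v < X (v + 1)) = !β := by cases β <;> simp_all
    rw [this]
    cases β <;> simp

lemma poly_uniq {x y : ZMod n × Bool} (e : pvtx X x = pvtx X y) :
    y = x ∨ y = (polyDiag z h X).J x := by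
  obtain ⟨v, β⟩ := x
  obtain ⟨t, β'⟩ := y
  by_cases hb : β = decide (X v < X (v + 1))
  · rw [poly_J_pos z h X hb]
    by_cases hb' : β' = decide (X t < X (t + 1))
    · simp only [pvtx] at e
      rw [if_pos hb, if_pos hb', add_left_inj] at e
      subst e
      left; rw [hb, hb']
    · simp only [pvtx] at e
      rw [if_pos hb, if_neg hb'] at e
      subst e
      right
      simp only [Prod.mk.injEq, true_and]
      cases β' <;> simp_all
  · rw [poly_J_neg z h X hb]
    by_cases hb' : β' = decide (X t < X (t + 1))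
    · simp only [pvtx] at e
      rw [if_neg hb, if_pos hb'] at e
      subst e
      right
      simp [hb']
    · simp only [pvtx] at e
      rw [if_neg hb, if_neg hb'] at e
      subst e
      left
      simp only [Prod.mk.injEq, true_and]
      cases β <;> cases β' <;> simp_all

lemma poly_conn : (polyDiag z h X).Conn := by
  intro U hU s _ t _ hs
  have step : ∀ v, v ∈ U → v + 1 ∈ U := by
    intro v hv
    have := hU v (by simp [polyDiag]) (decide (X v < X (v + 1))) hv
    rwa [poly_J_pos z h X rfl] at this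
  have all : ∀ m : ℕ, s + (m : ZMod n) ∈ U := by
    intro m
    induction m with
    | zero => simpa using hs
    | succ m ih =>
      have := step _ ih
      rwa [Nat.cast_succ, ← add_assoc]
  have := all (t - s).val
  rwa [ZMod.natCast_zmod_val, add_sub_cancel] at this

end

section

variable {n : ℕ} [NeZero n] {z : ZMod n → ℂ} {h : ℝ} {X : ZMod n → ℤ}

lemma poly_re_ne (hn : 3 ≤ n) (hi : ∀ i j, (z i).re = (z j).re → i = j) (v : ZMod n) :
    (z (v + 1)).re ≠ (z v).re := by
  intro e
  have := hi _ _ e
  exact zmod_one_ne hn (by simpa using this)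

lemma poly_height (hn : 3 ≤ n) (hi : ∀ i j, (z i).re = (z j).re → i = j)
    (hX : ∀ i, (z i).re = h * X i) (x : ZMod n × Bool) :
    lineH (z x.1) (z (x.1 + 1)) (h * X (pvtx X x)) = (z (pvtx X x)).im := by
  rw [← hX]
  unfold pvtx
  split_ifs
  · exact lineH_right (poly_re_ne hn hi _)
  · exact lineH_left _ _

/-- An edge does not meet another edge over an interior abscissa of the latter. -/
lemma poly_no_meet (hn : 3 ≤ n) (hs : SimplePoly z) (hi : ∀ i j, (z i).re = (z j).re → i = j)
    (hh : 0 < h) (hX : ∀ i, (z i).re = h * X i) {s t : ZMod n} (hst : s ≠ t) {y : ℝ}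
    (s1 : h * ((polyDiag z h X).b s : ℝ) ≤ y) (s2 : y ≤ h * ((polyDiag z h X).e s : ℝ))
    (t1 : h * ((polyDiag z h X).b t : ℝ) < y) (t2 : y < h * ((polyDiag z h X).e t : ℝ)) :
    lineH (z s) (z (s + 1)) y ≠ lineH (z t) (z (t + 1)) y := by
  intro e
  have hmin : ∀ v, h * ((polyDiag z h X).b v : ℝ) = min (z v).re (z (v + 1)).re := by
    intro v
    simp only [polyDiag, hX]
    push_cast
    exact mul_min_of_nonneg _ _ hh.le
  have hmax : ∀ v, h * ((polyDiag z h X).e v : ℝ) = max (z v).re (z (v + 1)).re := by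
    intro v
    simp only [polyDiag, hX]
    push_cast
    exact mul_max_of_nonneg _ _ hh.le
  rw [hmin] at s1 t1
  rw [hmax] at s2 t2
  have m1 := lineH_mem (poly_re_ne hn hi s) s1 s2
  have m2 := lineH_mem (poly_re_ne hn hi t) t1.le t2.le
  rw [e] at m1
  rcases hs s t _ m1 m2 with e' | ⟨-, e'⟩ | ⟨e1, e'⟩
  · exact hst e'
  · have : y = (z t).re := by simpa using congrArg Complex.re e'
    rw [this] at t1 t2
    rcases le_total (z t).re (z (t + 1)).re with hl | hl
    · rw [min_eq_left hl] at t1; exact lt_irrefl _ t1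
    · rw [max_eq_left hl] at t2; exact lt_irrefl _ t2
  · have : y = (z (t + 1)).re := by rw [← e1]; simpa using congrArg Complex.re e'
    rw [this] at t1 t2
    rcases le_total (z t).re (z (t + 1)).re with hl | hl
    · rw [max_eq_right hl] at t2; exact lt_irrefl _ t2
    · rw [min_eq_right hl] at t1; exact lt_irrefl _ t1

/-- The order of two edges is constant over an interval interior to one of them. -/
lemma poly_order (hn : 3 ≤ n) (hs : SimplePoly z) (hi : ∀ i j, (z i).re = (z j).re → i = j)
    (hh : 0 < h) (hX : ∀ i, (z i).re = h * X i) {s t : ZMod n} (hst : s ≠ t) {u u' : ℝ}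
    (hu : u ≤ u') (s1 : ((polyDiag z h X).b s : ℝ) ≤ u) (s2 : u' ≤ ((polyDiag z h X).e s : ℝ))
    (t1 : ((polyDiag z h X).b t : ℝ) < u) (t2 : u' < ((polyDiag z h X).e t : ℝ)) :
    (lineH (z s) (z (s + 1)) (h * u) < lineH (z t) (z (t + 1)) (h * u) ↔
      lineH (z s) (z (s + 1)) (h * u') < lineH (z t) (z (t + 1)) (h * u')) ∧
    (lineH (z t) (z (t + 1)) (h * u) < lineH (z s) (z (s + 1)) (h * u) ↔
      lineH (z t) (z (t + 1)) (h * u') < lineH (z s) (z (s + 1)) (h * u')) := by
  have key : ∀ y, h * u ≤ y → y ≤ h * u' →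
      lineH (z s) (z (s + 1)) y ≠ lineH (z t) (z (t + 1)) y := by
    intro y y1 y2
    refine poly_no_meet hn hs hi hh hX hst ?_ ?_ ?_ ?_
    · exact (mul_le_mul_of_nonneg_left s1 hh.le).trans y1
    · exact y2.trans (mul_le_mul_of_nonneg_left s2 hh.le)
    · exact (mul_lt_mul_of_pos_left t1 hh).trans_le y1
    · exact y2.trans_lt (mul_lt_mul_of_pos_left t2 hh)
  have hx : h * u ≤ h * u' := mul_le_mul_of_nonneg_left hu hh.le
  exact ⟨lt_iff_of_no_meet (continuous_lineH _ _) (continuous_lineH _ _) hx key,
    lt_iff_of_no_meet (continuous_lineH _ _) (continuous_lineH _ _) hx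
      fun y y1 y2 => (key y y1 y2).symm⟩

end

theorem poly_good {n : ℕ} [NeZero n] (z : ZMod n → ℂ) (h : ℝ) (X : ZMod n → ℤ) (hn : 3 ≤ n)
    (hs : SimplePoly z) (hi : ∀ i j, (z i).re = (z j).re → i = j) (hh : 0 < h)
    (hX : ∀ i, (z i).re = h * X i) : (polyDiag z h X).Good ∧ (polyDiag z h X).Conn := by
  refine ⟨?_, poly_conn z h X⟩
  have Xinj : ∀ i j, X i = X j → i = j := fun i j e => hi i j (by rw [hX, hX, e])
  have hlt : ∀ s, (polyDiag z h X).b s < (polyDiag z h X).e s := by
    intro s
    have : X (s + 1) ≠ X s := fun e => zmod_one_ne hn (by simpa using Xinj _ _ e)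
    simp only [polyDiag]
    omega
  have hJw : ∀ x, (polyDiag z h X).wall ((polyDiag z h X).J x) = (polyDiag z h X).wall x := by
    intro x
    rw [poly_wall, poly_wall, pvtx_J]
  have huniq : ∀ x y, (polyDiag z h X).wall x = (polyDiag z h X).wall y →
      y = x ∨ y = (polyDiag z h X).J x := by
    intro x y e
    rw [poly_wall, poly_wall] at e
    exact poly_uniq z h X (Xinj _ _ e)
  have hkey : ∀ k s, (polyDiag z h X).key k s = lineH (z s) (z (s + 1)) (h * ((k : ℝ) + 1 / 2)) :=
    fun _ _ => rfl
  have hjoin : ∀ s β t β', (polyDiag z h X).J (s, β) = (t, β') → ∀ k : ℤ,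
      (polyDiag z h X).wall (s, β) = k →
      lineH (z s) (z (s + 1)) (h * k) = lineH (z t) (z (t + 1)) (h * k) := by
    intro s β t β' e k hk
    have h1 := poly_height hn hi hX (s, β)
    have h2 := poly_height hn hi hX (t, β')
    have h3 : pvtx X (t, β') = pvtx X (s, β) := by rw [← e, pvtx_J]
    rw [poly_wall] at hk
    rw [h3] at h2
    rw [hk] at h1 h2
    exact h1.trans h2.symm
  have cle : ∀ {a b : ℤ}, a ≤ b → (a : ℝ) ≤ b := fun h => by exact_mod_cast h
  have cle1 : ∀ {a b : ℤ}, a < b → (a : ℝ) + 1 ≤ b := fun h => by exact_mod_cast h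
  refine
    { lt := fun s _ => hlt s
      JS := fun s _ β => by simp [polyDiag]
      JJ := fun s _ β => poly_JJ z h X _
      Jne := fun s _ β => poly_Jne z h X hn s β
      Jw := fun s _ β => hJw _
      Jdir := fun s _ β => poly_Jdir z h X s β
      uniq := fun s _ t _ β β' e => huniq _ _ e
      inj := ?_
      mono := ?_
      pass := ?_
      cup := ?_
      cap := ?_ }
  · intro k s t ⟨_, s1, s2⟩ ⟨_, t1, t2⟩ e
    by_contra hst
    have := cle s1; have := cle1 s2; have := cle t1; have := cle1 t2
    rw [hkey, hkey] at e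
    refine poly_no_meet hn hs hi hh hX hst ?_ ?_ ?_ ?_ e
    · exact mul_le_mul_of_nonneg_left (by linarith) hh.le
    · exact mul_le_mul_of_nonneg_left (by linarith) hh.le
    · exact mul_lt_mul_of_pos_left (by linarith) hh
    · exact mul_lt_mul_of_pos_left (by linarith) hh
  · intro k s t ⟨_, s1, _⟩ ⟨_, _, s2⟩ ⟨_, t1, _⟩ ⟨_, _, t2⟩
    by_cases hst : s = t
    · subst hst; simp
    have := cle s1; have := cle1 s2; have := cle t1; have := cle1 t2
    push_cast at *
    simp only [hkey]
    push_cast
    exact (poly_order hn hs hi hh hX hst (u := (k : ℝ) + 1 / 2) (u' := (k : ℝ) + 1 + 1 / 2)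
      (by linarith) (by linarith) (by linarith) (by linarith) (by linarith)).1
  · intro k s q t ⟨_, hJ, he⟩ ⟨_, t1, _⟩ ⟨_, _, t2⟩
    have hb : (polyDiag z h X).b q = k + 1 := by
      have := hJw (s, true)
      rw [hJ] at this
      simpa [he] using this
    have l1 := hlt s
    have l2 := hlt q
    have hst : s ≠ t := by rintro rfl; omega
    have hqt : q ≠ t := by rintro rfl; omega
    have j := hjoin s true q false hJ (k + 1) (by simpa using he)
    have := cle (show (polyDiag z h X).b s ≤ k by omega)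
    have := cle (show k + 1 ≤ (polyDiag z h X).e s by omega)
    have := cle (show (polyDiag z h X).b q ≤ k + 1 by omega)
    have := cle1 (show k + 1 < (polyDiag z h X).e q by omega)
    have := cle t1; have := cle1 t2
    push_cast at *
    simp only [hkey]
    push_cast
    have o1 := (poly_order hn hs hi hh hX hst (u := (k : ℝ) + 1 / 2) (u' := (k : ℝ) + 1)
      (by linarith) (by linarith) (by linarith) (by linarith) (by linarith)).2
    have o2 := (poly_order hn hs hi hh hX hqt (u := (k : ℝ) + 1) (u' := (k : ℝ) + 1 + 1 / 2)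
      (by linarith) (by linarith) (by linarith) (by linarith) (by linarith)).2
    rw [o1, ← o2, j]
  · intro k a c t ⟨_, hJ, hb, _⟩ ⟨_, t1, t2⟩ hta htc
    have hc : (polyDiag z h X).b c = k + 1 := by
      have := hJw (a, false)
      rw [hJ] at this
      simpa [hb] using this
    have ht : (polyDiag z h X).b t ≠ k + 1 := by
      intro e
      rcases huniq (a, false) (t, false) (by simp [hb, e]) with e' | e'
      · exact hta (congrArg Prod.fst e')
      · rw [hJ] at e'; exact htc (congrArg Prod.fst e')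
    have l1 := hlt a
    have l2 := hlt c
    have j := hjoin a false c false hJ (k + 1) (by simpa using hb)
    have := cle (show (polyDiag z h X).b a ≤ k + 1 by omega)
    have := cle1 (show k + 1 < (polyDiag z h X).e a by omega)
    have := cle (show (polyDiag z h X).b c ≤ k + 1 by omega)
    have := cle1 (show k + 1 < (polyDiag z h X).e c by omega)
    have := cle (show (polyDiag z h X).b t ≤ k by omega)
    have := cle1 t2
    push_cast at *
    simp only [hkey]
    push_cast
    have o1 := (poly_order hn hs hi hh hX hta.symm (u := (k : ℝ) + 1) (u' := (k : ℝ) + 1 + 1 / 2)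
      (by linarith) (by linarith) (by linarith) (by linarith) (by linarith)).2
    have o2 := (poly_order hn hs hi hh hX htc.symm (u := (k : ℝ) + 1) (u' := (k : ℝ) + 1 + 1 / 2)
      (by linarith) (by linarith) (by linarith) (by linarith) (by linarith)).1
    have ne := poly_no_meet hn hs hi hh hX hta.symm (y := h * ((k : ℝ) + 1))
      (mul_le_mul_of_nonneg_left (by linarith) hh.le)
      (mul_le_mul_of_nonneg_left (by linarith) hh.le)
      (mul_lt_mul_of_pos_left (by linarith) hh) (mul_lt_mul_of_pos_left (by linarith) hh)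
    rw [← o1, ← o2, ← j]
    exact (lt_or_gt_of_ne ne).symm
  · intro k s p t ⟨_, hJ, he, _⟩ ⟨_, t1, t2⟩ hts htp
    have hp : (polyDiag z h X).e p = k + 1 := by
      have := hJw (s, true)
      rw [hJ] at this
      simpa [he] using this
    have ht : (polyDiag z h X).e t ≠ k + 1 := by
      intro e
      rcases huniq (s, true) (t, true) (by simp [he, e]) with e' | e'
      · exact hts (congrArg Prod.fst e')
      · rw [hJ] at e'; exact htp (congrArg Prod.fst e')
    have l1 := hlt s
    have l2 := hlt p
    have j := hjoin s true p true hJ (k + 1) (by simpa using he)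
    have := cle (show (polyDiag z h X).b s ≤ k by omega)
    have := cle (show k + 1 ≤ (polyDiag z h X).e s by omega)
    have := cle (show (polyDiag z h X).b p ≤ k by omega)
    have := cle (show k + 1 ≤ (polyDiag z h X).e p by omega)
    have := cle t1
    have := cle1 (show k + 1 < (polyDiag z h X).e t by omega)
    push_cast at *
    simp only [hkey]
    have o1 := (poly_order hn hs hi hh hX hts.symm (u := (k : ℝ) + 1 / 2) (u' := (k : ℝ) + 1)
      (by linarith) (by linarith) (by linarith) (by linarith) (by linarith)).2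
    have o2 := (poly_order hn hs hi hh hX htp.symm (u := (k : ℝ) + 1 / 2) (u' := (k : ℝ) + 1)
      (by linarith) (by linarith) (by linarith) (by linarith) (by linarith)).1
    have ne := poly_no_meet hn hs hi hh hX hts.symm (y := h * ((k : ℝ) + 1))
      (mul_le_mul_of_nonneg_left (by linarith) hh.le)
      (mul_le_mul_of_nonneg_left (by linarith) hh.le)
      (mul_lt_mul_of_pos_left (by linarith) hh) (mul_lt_mul_of_pos_left (by linarith) hh)
    rw [o1, o2, ← j]
    exact (lt_or_gt_of_ne ne).symm

end Pool.Agent.Lib.MP_5a3ebe_gt.Ap
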