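import Pool.Agent.Lib.MP_5a3ebe_gt.ApCore

/-! The abstract pushing lemma for filtered complexes over the field with two elements. -/

set_option linter.unusedSectionVars false

namespace Pool.Agent.Lib.MP_5a3ebe_gt.Ap

open Matrix

section reach

variable {X : Type} {Near : X → ℕ → X → Prop} {J : ℕ} {E c1 : ℝ}

/-- A chain of at most `m` elementary moves. -/
def Reach (Near : X → ℕ → X → Prop) (J : ℕ) (E c1 : ℝ) (m : ℕ) (σ σ' : X) (δ : ℝ) : Prop :=
  δ ≤ m * E ∧ ∀ σ0 i, i + m ≤ J → Near σ0 i σ → Near σ0 (i + m) σ' ∨ δ ≤ -c1 + m * E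

lemma near_mono (nm : ∀ σ0 j σ, Near σ0 j σ → Near σ0 (j + 1) σ) {σ0 σ : X} {i j : ℕ}
    (hij : i ≤ j) (h : Near σ0 i σ) : Near σ0 j σ := by
  induction hij with
  | refl => exact h
  | step _ ih => exact nm _ _ _ ih

lemma Tr.reach {σ σ' : X} {δ : ℝ} (hE : 0 ≤ E) (h : Tr Near J E c1 σ σ' δ) :
    Reach Near J E c1 1 σ σ' δ :=
  ⟨by simpa using h.1, fun σ0 i hi hn => (h.2 σ0 i hi hn).imp_right fun h1 => by
    push_cast
    linarith⟩

lemma Reach.trans {m m' n : ℕ} {σ σ' σ'' : X} {δ δ' δ'' : ℝ} (h : Reach Near J E c1 m σ σ' δ)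
    (h' : Reach Near J E c1 m' σ' σ'' δ') (hn : n = m + m') (hd : δ'' = δ + δ') :
    Reach Near J E c1 n σ σ'' δ'' := by
  subst hn hd
  refine ⟨by push_cast; linarith [h.1, h'.1], fun σ0 i hi h0 => ?_⟩
  rcases h.2 σ0 i (by omega) h0 with h1 | h1
  · rcases h'.2 σ0 (i + m) (by omega) h1 with h2 | h2
    · exact Or.inl (by rwa [← add_assoc])
    · exact Or.inr (by push_cast; linarith [h.1])
  · exact Or.inr (by push_cast; linarith [h'.1])

lemma Reach.refl (nm : ∀ σ0 j σ, Near σ0 j σ → Near σ0 (j + 1) σ) (hE : 0 ≤ E) (m : ℕ) (σ : X) :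
    Reach Near J E c1 m σ σ 0 :=
  ⟨by positivity, fun _ _ _ h => Or.inl (near_mono nm (by omega) h)⟩

lemma Reach.near (n0 : ∀ σ, Near σ 0 σ) (nm : ∀ σ0 j σ, Near σ0 j σ → Near σ0 (j + 1) σ) {m : ℕ}
    {σ σ' : X} {δ : ℝ} (h : Reach Near J E c1 m σ σ' δ) (hm : m ≤ J) :
    Near σ J σ' ∨ δ ≤ -c1 + m * E :=
  (h.2 σ 0 (by omega) (n0 σ)).imp_left (near_mono nm (by omega))

end reach

section hom

variable {X : Type} [Fintype X] [DecidableEq X]

lemma vecMul_ne {x : X → F2} {M : Matrix X X F2} {t : X} (h : (x ᵥ* M) t ≠ 0) :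
    ∃ s, x s ≠ 0 ∧ M s t ≠ 0 := F2.sum_ne h

lemma dot_eq_zero {x y : X → F2} (h : ∀ s, x s ≠ 0 → y s ≠ 0 → False) : x ⬝ᵥ y = 0 := by
  by_contra h1
  obtain ⟨s, h2, h3⟩ := F2.sum_ne h1
  exact h s h2 h3

open Classical in
/-- The homotopy built from local contractions. -/
noncomputable def gg (D : Matrix X X F2) (H : X → Matrix X X F2) (act : ℕ → X → Prop) :
    ℕ → Matrix X X F2
  | 0 => 0
  | j + 1 => of fun s => if act (j + 1) s then (1 + D * gg D H act j) s ᵥ* H s else 0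

/-- The remainder of the homotopy. -/
noncomputable def rr (D : Matrix X X F2) (H : X → Matrix X X F2) (act : ℕ → X → Prop) :
    ℕ → Matrix X X F2
  | 0 => 1
  | j + 1 => 1 + D * gg D H act j + gg D H act (j + 1) * D

variable {D : Matrix X X F2} {H : X → Matrix X X F2} {act : ℕ → X → Prop}

lemma mul_rr (dd : D * D = 0) (j : ℕ) : D * rr D H act j = (1 + D * gg D H act j) * D := by
  cases j with
  | zero => simp [rr, gg]
  | succ j => simp [rr, mul_add, add_mul, ← mul_assoc, dd]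

lemma row_mul (A B : Matrix X X F2) (s : X) : (A * B) s = A s ᵥ* B := rfl

lemma rr_act (dd : D * D = 0) {j : ℕ} {s : X} {ρ : Matrix X X F2} (hs : act (j + 1) s)
    (hH : D * H s + H s * D = 1 + ρ) : rr D H act (j + 1) s =
      (1 + D * gg D H act j) s ᵥ* ρ + (D s ᵥ* rr D H act j) ᵥ* H s := by
  have h1 : ρ + D * H s = 1 + H s * D := by
    have h2 : ∀ A : Matrix X X F2, A + A = 0 := fun A => by
      ext a b
      exact F2.add_self _
    have h3 : ρ = D * H s + H s * D - 1 := by rw [hH]; abel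
    rw [h3, sub_eq_add_neg, neg_eq_of_add_eq_zero_right (h2 1), ← sub_eq_zero,
      ← h2 (D * H s)]
    abel
  rw [← row_mul D, mul_rr dd, row_mul, vecMul_vecMul, ← vecMul_add, h1, vecMul_add, vecMul_one,
    ← vecMul_vecMul]
  have h4 : (1 + D * gg D H act j) s ᵥ* H s = gg D H act (j + 1) s := by
    funext t
    simp [gg, hs]
  rw [h4]
  rfl

lemma gg_ne {j : ℕ} {s t : X} (h : gg D H act (j + 1) s t ≠ 0) :
    act (j + 1) s ∧ ((1 + D * gg D H act j) s ᵥ* H s) t ≠ 0 := by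
  by_cases hs : act (j + 1) s
  · exact ⟨hs, by simpa [gg, hs] using h⟩
  · simp [gg, hs] at h

lemma rr_not {j : ℕ} {s : X} (hs : ¬ act (j + 1) s) :
    rr D H act (j + 1) s = (1 + D * gg D H act j) s := by
  have : gg D H act (j + 1) s = 0 := by
    funext t
    simp [gg, hs]
  change _ + (gg D H act (j + 1) * D) s = _
  rw [row_mul, this, zero_vecMul, add_zero]

lemma one_add_ne {g : Matrix X X F2} {s t : X} (h : (1 + D * g) s t ≠ 0) :
    s = t ∨ ∃ u, D s u ≠ 0 ∧ g u t ≠ 0 :=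
  (F2.add_ne h).imp (fun h1 => by_contra fun h2 => h1 (one_apply_ne h2)) F2.sum_ne

end hom

theorem push_step {X : Type} [Fintype X] [DecidableEq X] (D : Matrix X X F2) (L : X → ℝ)
    (par : X → ZMod 2) (Φ : X → ℕ) (P : ℕ) (Near : X → ℕ → X → Prop) (good : X → Prop)
    (a e E c1 θ lo hi : ℝ) (dd : D * D = 0) (he : 0 ≤ e) (heE : e ≤ E) (hθ : 0 < θ)
    (h1 : 20 * (P + 2) * e ≤ θ) (h2 : θ + 20 * (P + 2) * E ≤ c1) (hΦ : ∀ σ, Φ σ ≤ P)
    (n0 : ∀ σ, Near σ 0 σ) (nm : ∀ σ0 j σ, Near σ0 j σ → Near σ0 (j + 1) σ)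
    (hD : ∀ σ σ', D σ σ' ≠ 0 → par σ' = par σ + 1 ∧ L σ' - a - L σ ≤ e ∧
      (Φ σ' < Φ σ ∨ L σ' - a - L σ ≤ -c1) ∧ Tr Near (2 * P + 6) E c1 σ σ' (L σ' - a - L σ))
    (hH : ∀ σ0, good σ0 → ∃ H ρ : Matrix X X F2, D * H + H * D = 1 + ρ ∧
      (∀ σ σ', H σ σ' ≠ 0 → Tr Near (2 * P + 6) E c1 σ σ' (L σ' + a - L σ) ∧
        (Near σ0 (2 * P + 6) σ → L σ' + a - L σ ≤ e)) ∧
      (∀ σ σ', ρ σ σ' ≠ 0 → Tr Near (2 * P + 6) E c1 σ σ' (L σ' - L σ) ∧
        (Near σ0 (2 * P + 6) σ → L σ' - L σ ≤ -θ)))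
    (hg : ∀ (k : ℤ) σ, par σ = k → lo - θ ≤ L σ + a * k → L σ + a * k ≤ hi + θ → good σ)
    (b : ℝ) (hlo : lo < b) (hhi : b ≤ hi) : ∃ g g' r : Matrix X X F2, r = 1 + D * g' + g * D ∧
      ∀ s, par s = 0 → L s + 2 * a < b → ∀ t, (g s t ≠ 0 → L t + 3 * a < hi + θ) ∧
        (r s t ≠ 0 → L t + 2 * a < b - θ / 2) := by
  choose! H ρ hH1 hH2 hH3 using hH
  have hE : 0 ≤ E := he.trans heE
  have hPe : 0 ≤ P * e := by positivity
  have hPE : P * e ≤ P * E := by gcongr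
  let act : ℕ → X → Prop := fun j s => b - 3 * θ / 4 ≤ L s + a * (1 - P + j) ∧ good s
  let Rel : ℕ → X → Prop := fun j s => par s = ((1 - P + j : ℤ) : ZMod 2) ∧
    L s + a * (1 - P + j) < b + (P + 1 - j) * e ∧
      (j ≤ Φ s → L s + a * (1 - P + j) < b + (P + 1 - j) * e - c1)
  have rel : ∀ j s u, Rel (j + 1) s → D s u ≠ 0 → Rel j u := by
    intro j s u ⟨r1, r2, r3⟩ hu
    obtain ⟨d1, d2, d3, -⟩ := hD s u hu
    push_cast at r1 r2 r3
    refine ⟨?_, by linarith, fun hj => ?_⟩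
    · rw [d1, r1, add_assoc, add_assoc, show (1 + 1 : ZMod 2) = 0 from rfl]
      push_cast
      ring
    · rcases d3 with d3 | d3
      · linarith [r3 (by omega)]
      · linarith
  have xx : ∀ j, (∀ s t, Rel j s → gg D H act j s t ≠ 0 →
      Reach Near (2 * P + 6) E c1 (2 * j) s t (L t + a - L s) ∧ L t + a - L s ≤ 2 * j * e) →
      ∀ s t, Rel (j + 1) s → (1 + D * gg D H act j) s t ≠ 0 →
      Reach Near (2 * P + 6) E c1 (2 * j + 1) s t (L t - L s) ∧ L t - L s ≤ (2 * j + 1) * e := by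
    intro j ih s t hs ht
    rcases one_add_ne ht with rfl | ⟨u, hu, hut⟩
    · rw [sub_self]
      exact ⟨Reach.refl nm hE _ _, by positivity⟩
    · obtain ⟨i1, i2⟩ := ih u t (rel j s u hs hu) hut
      obtain ⟨-, d2, -, d4⟩ := hD s u hu
      exact ⟨(d4.reach hE).trans i1 (by ring) (by ring), by linarith⟩
  have gi : ∀ j, j ≤ P + 1 → ∀ s t, Rel j s → gg D H act j s t ≠ 0 →
      Reach Near (2 * P + 6) E c1 (2 * j) s t (L t + a - L s) ∧ L t + a - L s ≤ 2 * j * e := by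
    intro j
    induction j with
    | zero => exact fun _ s t _ h => (h rfl).elim
    | succ j ih =>
      intro hj s t hs ht
      obtain ⟨ha, ht⟩ := gg_ne ht
      obtain ⟨u, hu, hut⟩ := vecMul_ne ht
      obtain ⟨i1, i2⟩ := xx j (ih (by omega)) s u hs hu
      obtain ⟨i3, i4⟩ := hH2 s ha.2 u t hut
      refine ⟨i1.trans (i3.reach hE) (by ring) (by ring), ?_⟩
      have j1 : j * E ≤ P * E := by gcongr; omega
      have j2 : 0 ≤ j * e := by positivity
      push_cast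
      rcases i1.near n0 nm (by omega) with i5 | i5
      · linarith [i4 i5]
      · push_cast at i5
        linarith [i3.1]
  have ri : ∀ j, j ≤ P + 1 → ∀ s t, Rel j s → rr D H act j s t ≠ 0 →
      Reach Near (2 * P + 6) E c1 (2 * j) s t (L t - L s) ∧
        L t + a * (1 - P + j) < b - 3 * θ / 4 + (2 * P + 2 + j) * e := by
    intro j
    induction j with
    | zero =>
      intro _ s t hs ht
      obtain rfl : s = t := by_contra fun h2 => ht (one_apply_ne h2)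
      rw [sub_self]
      have := hs.2.2 (Nat.zero_le _)
      push_cast at this ⊢
      exact ⟨Reach.refl nm hE _ _, by linarith⟩
    | succ j ih =>
      intro hj s t hs ht
      have j1 : j * E ≤ P * E := by gcongr; omega
      have j2 : 0 ≤ j * e := by positivity
      have j3 : j * e ≤ P * e := by gcongr; omega
      have s2 := hs.2.1
      push_cast at s2 ⊢
      by_cases ha : act (j + 1) s
      · rw [rr_act dd ha (hH1 s ha.2)] at ht
        rcases F2.add_ne ht with ht | ht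
        · obtain ⟨u, hu, hut⟩ := vecMul_ne ht
          obtain ⟨i1, i2⟩ := xx j (gi j (by omega)) s u hs hu
          obtain ⟨i3, i4⟩ := hH3 s ha.2 u t hut
          refine ⟨i1.trans (i3.reach hE) (by ring) (by ring), ?_⟩
          rcases i1.near n0 nm (by omega) with i5 | i5
          · linarith [i4 i5]
          · push_cast at i5
            linarith [i3.1]
        · obtain ⟨u, hu, hut⟩ := vecMul_ne ht
          obtain ⟨v, hv, hvu⟩ := vecMul_ne hu
          obtain ⟨i1, i2⟩ := ih (by omega) v u (rel j s v hs hv) hvu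
          obtain ⟨-, d2, -, d4⟩ := hD s v hv
          obtain ⟨i3, i4⟩ := hH2 s ha.2 u t hut
          have i0 := (d4.reach hE).trans i1 (n := 2 * j + 1) (δ'' := L u - a - L s) (by ring)
            (by ring)
          refine ⟨i0.trans (i3.reach hE) (by ring) (by ring), ?_⟩
          rcases i0.near n0 nm (by omega) with i5 | i5
          · linarith [i4 i5]
          · push_cast at i5
            linarith [i3.1]
      · rw [rr_not ha] at ht
        obtain ⟨i1, i2⟩ := xx j (gi j (by omega)) s t hs ht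
        refine ⟨i1.trans (Reach.refl nm hE 1 t) (by ring) (by ring), ?_⟩
        have i3 : L s + a * (1 - P + (j + 1)) < b - 3 * θ / 4 := by
          by_contra i3
          refine ha ⟨by push_cast; linarith, hg _ s hs.1 ?_ ?_⟩ <;> push_cast <;> linarith
        linarith
  refine ⟨gg D H act (P + 1), gg D H act P, rr D H act (P + 1), rfl, fun s s1 s2 t => ?_⟩
  have hs : Rel (P + 1) s := by
    refine ⟨?_, by push_cast; linarith, fun h => absurd (hΦ s) (by omega)⟩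
    rw [s1, show (1 - P + (P + 1 : ℕ) : ℤ) = 2 by push_cast; ring]
    rfl
  refine ⟨fun h => ?_, fun h => ?_⟩
  · have := (gi _ le_rfl s t hs h).2
    push_cast at this
    linarith
  · have := (ri _ le_rfl s t hs h).2
    push_cast at this
    linarith

theorem push {X : Type} [Fintype X] [DecidableEq X] (D : Matrix X X F2) (L : X → ℝ)
    (par : X → ZMod 2) (Φ : X → ℕ) (P : ℕ) (Near : X → ℕ → X → Prop) (good : X → Prop)
    (a e E c1 θ lo hi : ℝ) (dd : D * D = 0) (he : 0 ≤ e) (heE : e ≤ E) (hθ : 0 < θ)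
    (h1 : 20 * (P + 2) * e ≤ θ) (h2 : θ + 20 * (P + 2) * E ≤ c1) (hΦ : ∀ σ, Φ σ ≤ P)
    (n0 : ∀ σ, Near σ 0 σ) (nm : ∀ σ0 j σ, Near σ0 j σ → Near σ0 (j + 1) σ)
    (hD : ∀ σ σ', D σ σ' ≠ 0 → par σ' = par σ + 1 ∧ L σ' - a - L σ ≤ e ∧
      (Φ σ' < Φ σ ∨ L σ' - a - L σ ≤ -c1) ∧ Tr Near (2 * P + 6) E c1 σ σ' (L σ' - a - L σ))
    (hH : ∀ σ0, good σ0 → ∃ H ρ : Matrix X X F2, D * H + H * D = 1 + ρ ∧
      (∀ σ σ', H σ σ' ≠ 0 → Tr Near (2 * P + 6) E c1 σ σ' (L σ' + a - L σ) ∧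
        (Near σ0 (2 * P + 6) σ → L σ' + a - L σ ≤ e)) ∧
      (∀ σ σ', ρ σ σ' ≠ 0 → Tr Near (2 * P + 6) E c1 σ σ' (L σ' - L σ) ∧
        (Near σ0 (2 * P + 6) σ → L σ' - L σ ≤ -θ)))
    (hg : ∀ (k : ℤ) σ, par σ = k → lo - θ ≤ L σ + a * k → L σ + a * k ≤ hi + θ → good σ)
    (Z ξ : X → F2) (hZ : Z ᵥ* D = 0) (hl : ∀ σ, Z σ ≠ 0 → L σ + 2 * a < hi)
    (hξ : ∀ σ, ξ σ ≠ 0 → par σ = 0 ∧ lo ≤ L σ + 2 * a)
    (hδ : ∀ σ, (D *ᵥ ξ) σ ≠ 0 → hi + θ ≤ L σ + 3 * a) : Z ⬝ᵥ ξ = 0 := by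
  have key : ∀ (n : ℕ) (b : ℝ), b ≤ hi → b ≤ lo + n * (θ / 2) → ∀ Z : X → F2, Z ᵥ* D = 0 →
      (∀ σ, Z σ ≠ 0 → L σ + 2 * a < b) → Z ⬝ᵥ ξ = 0 := by
    intro n
    induction n with
    | zero =>
      intro b _ hb Z _ hl
      refine dot_eq_zero fun s s1 s2 => ?_
      push_cast at hb
      linarith [hl s s1, (hξ s s2).2]
    | succ n ih =>
      intro b hhi hb Z hZ hl
      rcases le_or_gt b lo with hlo | hlo
      · exact ih b hhi (hlo.trans (le_add_of_nonneg_right (by positivity))) Z hZ hl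
      obtain ⟨g, g', r, hr, hs⟩ := push_step D L par Φ P Near good a e E c1 θ lo hi dd he heE hθ h1
        h2 hΦ n0 nm hD hH hg b hlo hhi
      let Y : X → F2 := fun s => if par s = 0 then Z s else 0
      have y1 : ∀ s, Y s ≠ 0 → par s = 0 ∧ Z s ≠ 0 := fun s h => by
        by_cases h0 : par s = 0 <;> simp_all [Y]
      have y2 : Z ⬝ᵥ ξ = Y ⬝ᵥ ξ := Finset.sum_congr rfl fun s _ => by
        by_cases h0 : ξ s = 0
        · simp [h0]
        · simp [Y, (hξ s h0).1]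
      have y3 : Y ᵥ* D = 0 := by
        funext t
        by_cases h0 : par t = 1
        · rw [← hZ]
          refine Finset.sum_congr rfl fun s _ => ?_
          by_cases h3 : D s t = 0
          · simp [h3]
          · have h4 := (hD s t h3).1
            rw [h0, right_eq_add] at h4
            simp [Y, h4]
        · by_contra h3
          obtain ⟨s, s1, s2⟩ := vecMul_ne h3
          exact h0 (by rw [(hD s t s2).1, (y1 s s1).1, zero_add])
      have y4 : Y ᵥ* r = Y + (Y ᵥ* g) ᵥ* D := by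
        rw [hr, vecMul_add, vecMul_add, vecMul_one, ← vecMul_vecMul, y3, zero_vecMul, add_zero,
          vecMul_vecMul]
      have y5 : ((Y ᵥ* g) ᵥ* D) ⬝ᵥ ξ = 0 := by
        rw [← dotProduct_mulVec]
        refine dot_eq_zero fun t t1 t2 => ?_
        obtain ⟨s, s1, s2⟩ := vecMul_ne t1
        linarith [hδ t t2, (hs s (y1 s s1).1 (hl s (y1 s s1).2) t).1 s2]
      have y6 : Z ⬝ᵥ ξ = (Y ᵥ* r) ⬝ᵥ ξ := by rw [y2, y4, add_dotProduct, y5, add_zero]
      rw [y6]
      refine ih (b - θ / 2) (by linarith) (by push_cast at hb; linarith) _ ?_ fun t t1 => ?_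
      · rw [y4, add_vecMul, y3, vecMul_vecMul, dd, vecMul_zero, add_zero]
      · obtain ⟨s, s1, s2⟩ := vecMul_ne t1
        exact (hs s (y1 s s1).1 (hl s (y1 s s1).2) t).2 s2
  obtain ⟨n, hn⟩ := exists_nat_ge ((hi - lo) / (θ / 2))
  rw [div_le_iff₀ (by positivity)] at hn
  exact key n hi le_rfl (by linarith) Z hZ hl

end Pool.Agent.Lib.MP_5a3ebe_gt.Ap
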