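import Pool.Agent.Lib.MP_5a3ebe_gt.ApMv
import Pool.Agent.Lib.MP_5a3ebe_gt.ApPush

/-! The fourfold tensor product and the pushing argument in it. -/

namespace Pool.Agent.Lib.MP_5a3ebe_gt.Ap

open Classical Matrix Function

variable {G : Type} [Fintype G] [DecidableEq G]

/-- The matrix `M` acting in the factor `i`. -/
def lft (i : Fin 4) (M : Matrix G G F2) : Matrix (Fin 4 → G) (Fin 4 → G) F2 :=
  fun σ σ' => if σ' = update σ i (σ' i) then M (σ i) (σ' i) else 0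

omit [Fintype G] in
lemma upd_iff {i : Fin 4} {σ σ' : Fin 4 → G} :
    σ' = update σ i (σ' i) ↔ σ = update σ' i (σ i) := by
  constructor <;> intro h <;> funext j <;> by_cases e : j = i
  · simp [e]
  · rw [update_of_ne e, h, update_of_ne e]
  · simp [e]
  · rw [update_of_ne e, h, update_of_ne e]

lemma sum_upd (i : Fin 4) (σ : Fin 4 → G) (f : (Fin 4 → G) → F2) :
    ∑ σ', (if σ' = update σ i (σ' i) then f σ' else 0) = ∑ x, f (update σ i x) := by
  rw [← Finset.sum_filter]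
  refine Finset.sum_bij' (fun σ' _ => σ' i) (fun x _ => update σ i x) (by simp) (by simp)
    (fun σ' h => ((Finset.mem_filter.1 h).2).symm) (by simp)
    fun σ' h => congrArg f (Finset.mem_filter.1 h).2

lemma lft_mulVec (i : Fin 4) (M : Matrix G G F2) (ξ : (Fin 4 → G) → F2) (σ) :
    (lft i M *ᵥ ξ) σ = ∑ x, M (σ i) x * ξ (update σ i x) := by
  simp only [mulVec, dotProduct, lft, ite_mul, zero_mul]
  rw [sum_upd]
  simp

lemma vecMul_lft (i : Fin 4) (M : Matrix G G F2) (Z : (Fin 4 → G) → F2) (σ) :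
    (Z ᵥ* lft i M) σ = ∑ x, Z (update σ i x) * M x (σ i) := by
  simp only [vecMul, dotProduct, lft, mul_ite, mul_zero, upd_iff (σ' := σ)]
  rw [sum_upd]
  simp

lemma lft_mul_apply (i : Fin 4) (M : Matrix G G F2) (X : Matrix (Fin 4 → G) (Fin 4 → G) F2)
    (σ σ') : (lft i M * X) σ σ' = ∑ x, M (σ i) x * X (update σ i x) σ' :=
  lft_mulVec i M (fun τ => X τ σ') σ

lemma lft_mul (i : Fin 4) (M N : Matrix G G F2) : lft i M * lft i N = lft i (M * N) := by
  ext σ σ'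
  rw [lft_mul_apply]
  simp only [lft, update_idem, update_self, Matrix.mul_apply]
  split_ifs <;> simp

lemma lft_one (i : Fin 4) : lft i (1 : Matrix G G F2) = 1 := by
  ext σ σ'
  simp only [lft, Matrix.one_apply]
  by_cases e : σ = σ'
  · simp [e]
  · rw [if_neg e]
    split_ifs with h1 h2
    · exact absurd (by rw [h1, ← h2]; simp) e
    · rfl
    · rfl

omit [Fintype G] in
lemma lft_add (i : Fin 4) (M N : Matrix G G F2) : lft i (M + N) = lft i M + lft i N := by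
  ext σ σ'
  simp only [lft, Matrix.add_apply]
  split_ifs <;> simp

lemma lft_mul_ne {i j : Fin 4} (h : i ≠ j) (M N : Matrix G G F2) (σ σ') :
    (lft i M * lft j N) σ σ' = if σ' = update (update σ i (σ' i)) j (σ' j) then
      M (σ i) (σ' i) * N (σ j) (σ' j) else 0 := by
  rw [lft_mul_apply, Finset.sum_eq_single (σ' i)]
  · simp [lft, update_of_ne h.symm]
  · intro x _ hx
    rw [lft, if_neg, mul_zero]
    intro e
    have := congrFun e i
    rw [update_of_ne h, update_self] at this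
    exact hx this.symm
  · simp

lemma lft_comm {i j : Fin 4} (h : i ≠ j) (M N : Matrix G G F2) :
    lft i M * lft j N = lft j N * lft i M := by
  ext σ σ'
  rw [lft_mul_ne h, lft_mul_ne h.symm, update_comm h, mul_comm]

lemma lft_ne {i : Fin 4} {M : Matrix G G F2} {σ σ'} (h : lft i M σ σ' ≠ 0) :
    ∃ x, σ' = update σ i x ∧ M (σ i) x ≠ 0 := by
  unfold lft at h
  split_ifs at h with e
  · exact ⟨_, e, h⟩
  · exact absurd rfl h

/-- The total differential. -/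
def totD (d : Fin 4 → Matrix G G F2) : Matrix (Fin 4 → G) (Fin 4 → G) F2 := ∑ i, lft i (d i)

lemma totD_hom (d : Fin 4 → Matrix G G F2) (i : Fin 4) (H : Matrix G G F2) :
    totD d * lft i H + lft i H * totD d = lft i (d i * H + H * d i) := by
  rw [totD, Finset.sum_mul, Finset.mul_sum, ← Finset.sum_add_distrib, Finset.sum_eq_single i]
  · rw [lft_mul, lft_mul, lft_add]
  · intro j _ hj
    rw [lft_comm hj, madd_self]
  · simp

lemma totD_sq {d : Fin 4 → Matrix G G F2} (h : ∀ i, d i * d i = 1) : totD d * totD d = 0 := by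
  have e : ∀ i j : Fin 4, i ≠ j → lft i (d i) * lft j (d j) = lft j (d j) * lft i (d i) :=
    fun i j hij => lft_comm hij _ _
  simp only [totD, Fin.sum_univ_four, mul_add, add_mul, lft_mul, h, lft_one]
  rw [e 1 0 (by decide), e 2 0 (by decide), e 3 0 (by decide), e 2 1 (by decide),
    e 3 1 (by decide), e 3 2 (by decide)]
  ext σ σ'
  simp only [Matrix.add_apply, Matrix.zero_apply]
  grind

/-- One factor of the product. -/
structure Fac (S : RS G) (d : Matrix G G F2) (H ρ : Bool → Matrix G G F2) (N M : ℕ) (φ : G → ℕ)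
    (P0 : ℕ) (π : G → F2) (y : G → ℝ) (h r c0 : ℝ) : Prop where
  dd : d * d = 1
  hom : ∀ ε, d * H ε + H ε * d = 1 + ρ ε
  dM : ∃ ε, S.MM ε (-1) 1 d
  dφ : ∀ g g', d g g' ≠ 0 → π g' = π g + 1 ∧ (φ g' < φ g ∨ S.δ (-1) g g' ≤ -S.a)
  φP : ∀ g, φ g ≤ P0
  HM : ∀ ε, S.MM ε 1 N (H ε)
  ρM : ∀ ε, S.MM ε 0 N (ρ ε)
  ρd : ∀ ε g g', ρ ε g g' ≠ 0 → (N : ℤ) - 1 ≤ S.ds ε g g'
  zone : ∀ g, ∃ Z, S.V Z ∧ Z.In g ∧ Z.i0 + M ≤ S.w g ∧ S.w g + M ≤ Z.i1 ∧ c0 ≤ Z.c ∧
    Z.m true ≤ h * (r - y g) ∧ Z.m false ≤ h * (r + y g)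

lemma Fac.transpose {S : RS G} {d H ρ N M φ P0 π y h r c0}
    (F : Fac S d H ρ N M φ P0 π y h r c0) :
    Fac S.neg dᵀ (fun ε => (H (!ε))ᵀ) (fun ε => (ρ (!ε))ᵀ) N M (fun g => P0 - φ g) P0 π
      (fun g => -y g) h r c0 := by
  refine ⟨by rw [← transpose_mul, F.dd, transpose_one], fun ε => ?_, ?_, fun g g' x => ?_,
    fun g => by simp, fun ε => (F.HM _).transpose, fun ε => (F.ρM _).transpose,
    fun ε g g' x => ?_, fun g => ?_⟩
  · rw [← transpose_mul, ← transpose_mul, ← transpose_add, add_comm, F.hom, transpose_add,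
      transpose_one]
  · obtain ⟨ε, e⟩ := F.dM
    exact ⟨!ε, RS.MM.transpose (by simpa using e)⟩
  · obtain ⟨e1, e2⟩ := F.dφ g' g x
    refine ⟨by rw [e1, add_assoc, F2.add_self, add_zero], e2.imp (fun e => ?_) fun e => ?_⟩
    · have := F.φP g
      have := F.φP g'
      omega
    · simp only [RS.δ, RS.neg] at e ⊢
      linarith
  · have := F.ρd _ g' g x
    cases ε <;> simpa [RS.ds, RS.neg] using this
  · obtain ⟨Z, z1, z2, z3, z4, z5, z6, z7⟩ := F.zone g
    refine ⟨Z.neg, ?_, z2, z3, z4, z5, by simpa [Zone.neg] using z7,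
      by simpa [Zone.neg, sub_eq_add_neg] using z6⟩
    simpa [RS.neg, Zone.neg] using z1

theorem tot_push (S : Fin 4 → RS G) (d : Fin 4 → Matrix G G F2)
    (H ρ : Fin 4 → Bool → Matrix G G F2) (N M : ℕ) (φ : Fin 4 → G → ℕ) (P0 : ℕ) (π : G → F2)
    (y : Fin 4 → G → ℝ) (h r c0 : ℝ) (F : ∀ i, Fac (S i) (d i) (H i) (ρ i) N M (φ i) P0 π (y i) h r c0)
    (w : G → ℤ) (a R RK Lip γ c1 lo hi : ℝ) (hw : ∀ i, (S i).w = w) (ha : ∀ i, (S i).a = a)
    (hU : ∀ i, (S i).U = h * R) (q : (Fin 4 → G) → ℝ) (gr : Fin 4 → (Fin 4 → G) → ℝ)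
    (hq : ∀ σ i x, q (update σ i x) ≤ q σ + h * (w x - w (σ i)) * gr i σ)
    (hL : ∀ σ σ' i (m : ℕ), (∀ j, w (σ j) ≤ w (σ' j) + m ∧ w (σ' j) ≤ w (σ j) + m) →
      |gr i σ - gr i σ'| ≤ Lip * h * m)
    (hB : ∀ σ i, |gr i σ| ≤ RK) (hh : 0 < h) (hR : 0 ≤ R) (hRK : 0 ≤ RK) (hγ : 0 < γ)
    (hN : 2 ≤ N)
    (hM : (8 * P0 + 7) * N ≤ M) (k1 : r + Lip * h * ((8 * P0 + 6) * N) ≤ γ / 2)
    (k2 : 20 * (4 * P0 + 2) * (R + RK) ≤ (N - 1) * γ / 2)
    (k3 : (N - 1) * h * γ / 2 + 20 * (4 * P0 + 2) * (N * h * (R + RK)) ≤ c1)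
    (k4 : c1 + N * h * (R + RK) ≤ c0) (k5 : c1 + N * h * (R + RK) ≤ a)
    (hg : ∀ (k : ℤ) (σ : Fin 4 → G), ∑ i, π (σ i) = k →
      lo - (N - 1) * h * γ / 2 ≤ ∑ i, (S i).lam (σ i) + q σ + a * k →
      ∑ i, (S i).lam (σ i) + q σ + a * k ≤ hi + (N - 1) * h * γ / 2 →
      ∃ i, γ < |gr i σ - y i (σ i)|)
    (Z ξ : (Fin 4 → G) → F2) (hZ : Z ᵥ* totD d = 0)
    (hl : ∀ σ, Z σ ≠ 0 → ∑ i, (S i).lam (σ i) + q σ + 2 * a < hi)
    (hξ : ∀ σ, ξ σ ≠ 0 → ∑ i, π (σ i) = 0 ∧ lo ≤ ∑ i, (S i).lam (σ i) + q σ + 2 * a)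
    (hδ : ∀ σ, (totD d *ᵥ ξ) σ ≠ 0 →
      hi + (N - 1) * h * γ / 2 ≤ ∑ i, (S i).lam (σ i) + q σ + 3 * a) : Z ⬝ᵥ ξ = 0 := by
  choose Zn z1 z2 z3 z4 z5 z6 z7 using fun i => (F i).zone
  have N1 : (2 : ℝ) ≤ N := by exact_mod_cast hN
  let L : (Fin 4 → G) → ℝ := fun σ => ∑ i, (S i).lam (σ i) + q σ
  let Near : (Fin 4 → G) → ℕ → (Fin 4 → G) → Prop := fun σ0 j σ => ∀ i,
    (w (σ i) ≤ w (σ0 i) + (j * N : ℕ) ∧ w (σ0 i) ≤ w (σ i) + (j * N : ℕ)) ∧ (Zn i (σ0 i)).In (σ i)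
  have su : ∀ {A : Type} [AddCommGroup A] (f : Fin 4 → G → A) σ i x,
      ∑ j, f j (update σ i x j) = ∑ j, f j (σ j) + (f i x - f i (σ i)) := by
    intro A _ f σ i x
    rw [← sub_eq_iff_eq_add', ← Finset.sum_sub_distrib, Finset.sum_eq_single i]
    · simp
    · intro j _ hj; simp [update_of_ne hj]
    · simp
  have lev : ∀ σ i x (e : ℤ), L (update σ i x) + e * a - L σ ≤
      (S i).δ e (σ i) x + h * (w x - w (σ i)) * gr i σ := by
    intro σ i x e
    have := hq σ i x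
    simp only [L, su (fun j => (S j).lam), RS.δ, ha]
    linarith
  have gq : ∀ σ i x ε, 0 ≤ (S i).ds ε (σ i) x →
      h * (w x - w (σ i)) * gr i σ ≤ h * RK * (S i).ds ε (σ i) x := by
    intro σ i x ε h0
    have := abs_le.1 (hB σ i)
    have h0' : (0 : ℝ) ≤ (S i).ds ε (σ i) x := by exact_mod_cast h0
    cases ε <;> simp only [RS.ds, hw, if_true, Bool.false_eq_true, if_false] at h0' ⊢ <;>
      push_cast at h0' ⊢ <;> nlinarith [mul_nonneg hh.le h0']
  have bd : ∀ σ i x ε e (n : ℕ), (S i).Mv ε e n (σ i) x → ∀ c, (S i).δ e (σ i) x ≤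
      (S i).U * (S i).ds ε (σ i) x - c → L (update σ i x) + e * a - L σ ≤ n * h * (R + RK) - c := by
    intro σ i x ε e n m c hc
    have := lev σ i x e
    have := gq σ i x ε m.lo
    have h1 : ((S i).ds ε (σ i) x : ℝ) ≤ n := by exact_mod_cast m.hi
    rw [hU] at hc
    nlinarith [mul_nonneg (mul_nonneg hh.le (add_nonneg hR hRK)) (sub_nonneg.2 h1)]
  have zn : ∀ σ0 j σ i x ε e, j ≤ 8 * P0 + 6 → Near σ0 j σ → (S i).Mv ε e N (σ i) x →
      L (update σ i x) + e * a - L σ ≤ -c1 ∨ ((Zn i (σ0 i)).In x ∧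
        (S i).δ e (σ i) x ≤ (Zn i (σ0 i)).m ε * (S i).ds ε (σ i) x) := by
    intro σ0 j σ i x ε e hj nr m
    have n1 := (nr i).1
    have n2 := m.abs
    have n3 := z3 i (σ0 i)
    have n4 := z4 i (σ0 i)
    have : j * N + N ≤ M := by nlinarith
    rw [hw] at n2 n3 n4
    rcases m.zn _ (z1 i (σ0 i)) (by rw [hw]; omega) (by rw [hw]; omega) (by rw [hw]; omega)
      (by rw [hw]; omega) with z | z
    · left
      linarith [bd σ i x ε e N m _ z, z5 i (σ0 i)]
    · exact Or.inr ⟨z.1.1 (nr i).2, z.2 (nr i).2⟩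
  have tr : ∀ σ i x ε e, (S i).Mv ε e N (σ i) x → Tr Near (2 * (4 * P0) + 6) (N * h * (R + RK)) c1
      σ (update σ i x) (L (update σ i x) + e * a - L σ) := by
    intro σ i x ε e m
    refine ⟨by simpa using bd σ i x ε e N m 0 (by simpa using m.le), fun σ0 j hj nr => ?_⟩
    rcases zn σ0 j σ i x ε e (by omega) nr m with z | z
    · exact Or.inr z
    refine Or.inl fun l => ?_
    have n1 := (nr l).1
    by_cases el : l = i
    · subst el
      have n2 := m.abs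
      rw [hw] at n2
      rw [update_self]
      push_cast at n1 ⊢
      exact ⟨by constructor <;> nlinarith, z.1⟩
    · rw [update_of_ne el]
      push_cast at n1 ⊢
      exact ⟨by constructor <;> nlinarith, (nr l).2⟩
  have E0 : 0 ≤ h * (R + RK) := by positivity
  refine push (totD d) L (fun σ => ∑ i, π (σ i)) (fun σ => ∑ i, φ i (σ i)) (4 * P0) Near
    (fun σ => ∃ i, γ < |gr i σ - y i (σ i)|) a (h * (R + RK)) (N * h * (R + RK)) c1
    ((N - 1) * h * γ / 2) lo hi (totD_sq fun i => (F i).dd) E0 (by nlinarith)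
    (by have : (0 : ℝ) < N - 1 := by linarith
        positivity)
    (by push_cast; nlinarith) (by push_cast; linarith) (fun σ => ?_)
    (fun σ i => ⟨by simp, z2 i _⟩) (fun σ0 j σ nr i => ?_) (fun σ σ' x0 => ?_) ?_ hg Z ξ hZ hl hξ hδ
  · have := fun i => (F i).φP (σ i)
    simp only [Fin.sum_univ_four]
    linarith [this 0, this 1, this 2, this 3]
  · have n1 := (nr i).1
    push_cast at n1 ⊢
    exact ⟨by constructor <;> nlinarith, (nr i).2⟩
  · rw [totD, Matrix.sum_apply] at x0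
    obtain ⟨i, -, x1⟩ := Finset.exists_ne_zero_of_sum_ne_zero x0
    obtain ⟨x, rfl, hx⟩ := lft_ne x1
    obtain ⟨ε, m⟩ := (F i).dM
    have m := m _ _ hx
    obtain ⟨p1, p2⟩ := (F i).dφ _ _ hx
    have e0 : L (update σ i x) - a - L σ = L (update σ i x) + (-1 : ℤ) * a - L σ := by
      push_cast; ring
    rw [e0]
    refine ⟨by rw [su (fun _ => π), p1]; simp, by simpa using bd σ i x ε _ 1 m 0 (by simpa using m.le),
      p2.imp (fun e => ?_) fun e => ?_, tr σ i x ε _ (m.mono (by omega))⟩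
    · have := su (fun j g => (φ j g : ℤ)) σ i x
      zify at e ⊢
      omega
    · have := lev σ i x (-1)
      have := gq σ i x ε m.lo
      have h1 : ((S i).ds ε (σ i) x : ℝ) ≤ (1 : ℕ) := by exact_mod_cast m.hi
      rw [ha] at e
      push_cast at h1
      nlinarith [mul_nonneg (mul_nonneg hh.le hRK) (sub_nonneg.2 h1), mul_nonneg hh.le hR]
  · rintro σ0 ⟨i, hi⟩
    obtain ⟨ε, hε⟩ : ∃ ε : Bool, ∀ σ x e, Near σ0 (2 * (4 * P0) + 6) σ → (S i).Mv ε e N (σ i) x →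
        L (update σ i x) + e * a - L σ ≤ -c1 ∨
        L (update σ i x) + e * a - L σ ≤ -(h * γ / 2 * (S i).ds ε (σ i) x) := by
      refine ⟨decide (gr i σ0 - y i (σ0 i) < 0), fun σ x e nr m => ?_⟩
      refine (zn σ0 _ σ i x _ e (by omega) nr m).imp_right fun z => ?_
      have l1 := lev σ i x e
      have l2 := abs_le.1 (hL σ σ0 i _ fun j => (nr j).1)
      have h0 := (Int.cast_le (R := ℝ)).2 m.lo
      have z := z.2
      have a6 := z6 i (σ0 i)
      have a7 := z7 i (σ0 i)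
      push_cast at l2
      by_cases s : gr i σ0 - y i (σ0 i) < 0
      · rw [abs_of_neg s] at hi
        simp only [s, decide_true, RS.ds, hw, if_true] at z h0 ⊢
        push_cast at z h0 ⊢
        have : gr i σ + (r - y i (σ0 i)) ≤ -(γ / 2) := by linarith
        nlinarith [mul_nonneg (mul_nonneg hh.le h0) (sub_nonneg.2 this),
          mul_le_mul_of_nonneg_right a6 h0]
      · rw [abs_of_nonneg (not_lt.1 s)] at hi
        simp only [s, decide_false, RS.ds, hw, Bool.false_eq_true, if_false] at z h0 ⊢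
        push_cast at z h0 ⊢
        have : -gr i σ + (r + y i (σ0 i)) ≤ -(γ / 2) := by linarith
        nlinarith [mul_nonneg (mul_nonneg hh.le h0) (sub_nonneg.2 this),
          mul_le_mul_of_nonneg_right a7 h0]
    have c1θ : (N - 1) * h * γ / 2 ≤ c1 := by
      have : 0 ≤ 20 * (4 * (P0 : ℝ) + 2) * (N * h * (R + RK)) := by positivity
      linarith
    have θ0 : 0 ≤ (N - 1) * h * γ / 2 := by
      have : (0 : ℝ) < N - 1 := by linarith
      positivity
    refine ⟨lft i (H i ε), lft i (ρ i ε), by rw [totD_hom, (F i).hom, lft_add, lft_one],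
      fun σ σ' x1 => ?_, fun σ σ' x1 => ?_⟩ <;> obtain ⟨x, rfl, hx⟩ := lft_ne x1
    · have m := (F i).HM ε _ _ hx
      refine ⟨by simpa using tr σ i x ε _ m, fun nr => ?_⟩
      have h0 : (0 : ℝ) ≤ (S i).ds ε (σ i) x := by exact_mod_cast m.lo
      have : 0 ≤ h * γ / 2 * (S i).ds ε (σ i) x := by positivity
      rcases hε σ x 1 nr m with z | z <;> push_cast at z <;> linarith
    · have m := (F i).ρM ε _ _ hx
      refine ⟨by simpa using tr σ i x ε _ m, fun nr => ?_⟩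
      have h0 : (N : ℝ) - 1 ≤ (S i).ds ε (σ i) x := by exact_mod_cast (F i).ρd ε _ _ hx
      have : h * γ / 2 * (N - 1) ≤ h * γ / 2 * (S i).ds ε (σ i) x := by gcongr
      rcases hε σ x 0 nr m with z | z <;> push_cast at z <;> linarith

end Pool.Agent.Lib.MP_5a3ebe_gt.Ap
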