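import Pool.Agent.Lib.MP_5a3ebe_gt.ApZone
import Pool.Agent.Lib.MP_5a3ebe_gt.ApLev
import Pool.Agent.Lib.MP_5a3ebe_gt.ApTot

/-! The real level system on the total complex of a diagram. -/

set_option linter.unusedSectionVars false

namespace Pool.Agent.Lib.MP_5a3ebe_gt.Ap

open Classical Matrix

namespace TC

variable {ι G : Type} (T : TC ι G) (D : Diag ι)

noncomputable def lv (lam : ℤ → ι → ℝ) (α : ℝ) (g : G) : ℝ :=
  lam (T.w g) (T.st g) - if T.sl g then α else 0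

structure ZV (lam : ℤ → ι → ℝ) (a h : ℝ) (Z : Zone G) (I : ι → Prop) : Prop where
  hI : ∀ g, Z.In g ↔ I (T.st g)
  le : ∀ i e s t, Z.i0 ≤ i → i ≤ Z.i1 → D.Le i e s t →
    (I s ↔ I t) ∨ lam i t + e * a ≤ lam i s - Z.c
  key : ∀ k t, Z.i0 ≤ k → k < Z.i1 → D.Al k t → I t →
    -(h * D.key k t) ≤ Z.m true ∧ h * D.key k t ≤ Z.m false

noncomputable def rs (lam : ℤ → ι → ℝ) (a h R : ℝ) : RS G :=
  ⟨T.w, T.lv lam a, a, h * R, fun Z => ∃ I, T.ZV D lam a h Z I⟩

noncomputable def par (g : G) : F2 := if xor (D.dir (T.st g)) (T.sl g) then 1 else 0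

variable {T D}

lemma lv_diff {e e1 e2 : ℤ} {g g'}
    (he : e1 + e2 + (if T.sl g' then 1 else 0) = e + (if T.sl g then 1 else 0)) (lam α) :
    T.lv lam α g' - T.lv lam α g + e * α =
      lam (T.w g') (T.st g') - lam (T.w g) (T.st g) + e1 * α + e2 * α := by
  have : (e1 : ℝ) + e2 + (if T.sl g' then 1 else 0) = e + (if T.sl g then 1 else 0) := by
    exact_mod_cast he
  unfold lv
  split_ifs at this ⊢ <;> linear_combination (-α) * this

lemma Step.spec {e g g'} (h : T.Step D e g g') : ∃ t,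
    (T.w g' = T.w g ∨ (T.w g' = T.w g + 1 ∧ D.Al (T.w g) t) ∨
      (T.w g = T.w g' + 1 ∧ D.Al (T.w g') t)) ∧ ∀ lam α, D.Adm lam α →
      T.lv lam α g' - T.lv lam α g + e * α ≤ lam (T.w g') t - lam (T.w g) t := by
  obtain ⟨t, e1, e2, he, l1, l2, p⟩ := h
  refine ⟨t, p, fun lam α hl => ?_⟩
  rw [lv_diff he]
  linarith [l1 lam α hl, l2 lam α hl]

lemma Step.mv {lam a h R} (hl : D.Adm lam a) (hh : 0 < h)
    (hs : ∀ k s, D.Al k s → lam (k + 1) s - lam k s = -(h * D.key k s))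
    (hR : ∀ k s, D.Al k s → |D.key k s| ≤ R) {ε e g g'} (st : T.Step D e g g')
    (h0 : 0 ≤ (T.rs D lam a h R).ds ε g g') : (T.rs D lam a h R).Mv ε e 1 g g' := by
  obtain ⟨t, e1, e2, he, l1, l2, p⟩ := st
  have eδ : (T.rs D lam a h R).δ e g g' =
      lam (T.w g') (T.st g') - lam (T.w g) (T.st g) + e1 * a + e2 * a := lv_diff he lam a
  have a1 := l1 lam a hl
  have a2 := l2 lam a hl
  have key : (T.rs D lam a h R).ds ε g g' ≤ 1 ∧
      lam (T.w g') t - lam (T.w g) t ≤ h * R * (T.rs D lam a h R).ds ε g g' ∧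
      ∀ Z I, T.ZV D lam a h Z I → Z.i0 ≤ T.w g → T.w g ≤ Z.i1 → Z.i0 ≤ T.w g' → T.w g' ≤ Z.i1 →
        I t → lam (T.w g') t - lam (T.w g) t ≤ Z.m ε * (T.rs D lam a h R).ds ε g g' := by
    rcases p with p | ⟨p, al⟩ | ⟨p, al⟩
    · have : (T.rs D lam a h R).ds ε g g' = 0 := by simp [RS.ds, rs, p]
      simp [this, p]
    · obtain rfl : ε = true := by
        cases ε
        · simp only [RS.ds, rs, Bool.false_eq_true, if_false] at h0; omega
        · rfl
      have : (T.rs D lam a h R).ds true g g' = 1 := by simp [RS.ds, rs, p]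
      rw [this, p, hs _ _ al]
      refine ⟨le_rfl, ?_, fun Z I z b1 b2 b3 b4 i => ?_⟩
      · push_cast
        nlinarith [(abs_le.1 (hR _ _ al)).1]
      · simpa using (z.key _ _ b1 (by omega) al i).1
    · obtain rfl : ε = false := by
        cases ε
        · rfl
        · simp only [RS.ds, rs, if_true] at h0; omega
      have : (T.rs D lam a h R).ds false g g' = 1 := by simp [RS.ds, rs, p]
      have e := hs _ _ al
      rw [this, p]
      refine ⟨le_rfl, ?_, fun Z I z b1 b2 b3 b4 i => ?_⟩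
      · push_cast
        nlinarith [(abs_le.1 (hR _ _ al)).2]
      · have := (z.key _ _ b3 (by omega) al i).2
        push_cast
        linarith
  obtain ⟨k1, k2, k3⟩ := key
  refine ⟨h0, k1, by rw [eδ]; change _ ≤ h * R * _; linarith, fun Z ⟨I, z⟩ b1 b2 b3 b4 => ?_⟩
  rw [eδ]
  change _ ≤ h * R * _ - _ ∨ _
  rcases z.le (T.w g) _ _ _ b1 b2 l1 with z1 | z1
  swap
  · left; linarith
  rcases z.le (T.w g') _ _ _ b3 b4 l2 with z2 | z2
  swap
  · left; linarith
  refine Or.inr ⟨by rw [z.hI, z.hI, z1, z2], fun i => ?_⟩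
  have := k3 Z I z b1 b2 b3 b4 (z1.1 ((z.hI g).1 i))
  linarith

variable [Fintype G] [DecidableEq G] (Sp : T.Spec D)
include Sp

lemma Spec.par_d {g g'} (x : T.d g g' ≠ 0) : T.par D g' = T.par D g + 1 := by
  have := (Sp.dS g g' x).2.1
  unfold par
  revert this
  cases xor (D.dir (T.st g')) (T.sl g') <;> cases xor (D.dir (T.st g)) (T.sl g) <;> simp
  rfl

lemma Spec.nonneg (g : G) {lam α} (hl : D.Adm lam α) : 0 ≤ α := by
  have : (T.d * T.d) g g ≠ 0 := by simp [Sp.dd]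
  obtain ⟨g', v1, v2⟩ := F2.sum_ne this
  obtain ⟨s1, -, p1⟩ := Sp.dS _ _ v1
  obtain ⟨s2, -, p2⟩ := Sp.dS _ _ v2
  have e : T.w g' = T.w g := by
    rcases p1 with p1 | p1
    · exact p1.1
    · rcases p2 with p2 | p2 <;> simp_all
  obtain ⟨t1, -, a1⟩ := s1.spec
  obtain ⟨t2, -, a2⟩ := s2.spec
  have a1 := a1 lam α hl
  have a2 := a2 lam α hl
  rw [e] at a1 a2
  push_cast at a1 a2
  linarith

section
variable {lam : ℤ → ι → ℝ} {a h R : ℝ} (hl : D.Adm lam a) (hh : 0 < h)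
    (hs : ∀ k s, D.Al k s → lam (k + 1) s - lam k s = -(h * D.key k s))
    (hR : ∀ k s, D.Al k s → |D.key k s| ≤ R)
include hl hh hs hR

lemma Spec.md : (T.rs D lam a h R).MM true (-1) 1 T.d := fun g g' x => by
  obtain ⟨s, -, p⟩ := Sp.dS _ _ x
  refine s.mv hl hh hs hR ?_
  simp only [RS.ds, rs, if_true]
  omega

lemma Spec.mh (ε) : (T.rs D lam a h R).MM ε 1 1 (T.h ε) := fun g g' x => by
  obtain ⟨s, -, p⟩ := Sp.hS _ _ _ x
  refine s.mv hl hh hs hR ?_
  cases ε <;> simp only [RS.ds, rs, if_true, Bool.false_eq_true, if_false, v] at p ⊢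
  · split_ifs at p <;> omega
  · omega

lemma Spec.mρ (ε) : (T.rs D lam a h R).MM ε 0 1 (T.ρ ε) := fun g g' x => by
  obtain ⟨s, p⟩ := Sp.ρS _ _ _ x
  refine s.mv hl hh hs hR ?_
  cases ε <;> simp only [RS.ds, rs, if_true, Bool.false_eq_true, if_false, v] at p ⊢
  · split_ifs at p <;> omega
  · omega

end

lemma Spec.powR {n : ℕ} {g g'} (x : (T.ρ true ^ n) g g' ≠ 0) : T.w g' = T.w g + n :=
  pow_pot (f := T.w) (fun g g' x => by simpa using (Sp.ρS _ _ _ x).2) n x

lemma Spec.powL {n : ℕ} {g g'} (x : (T.ρ false ^ n) g g' ≠ 0) : T.v g' + n = T.v g := by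
  have := pow_pot (f := fun g => -T.v g) (fun g g' x => by
    have := (Sp.ρS _ _ _ x).2
    simp only [Bool.false_eq_true, if_false] at this
    omega) n x
  omega

omit Sp in
lemma v_bd (g : G) : T.w g ≤ T.v g ∧ T.v g ≤ T.w g + 1 := by
  unfold v; split_ifs <;> omega

variable [Fintype ι] [DecidableEq ι]

lemma Spec.fac (Gd : D.Good) (C : D.Conn) {lam : ℤ → ι → ℝ} {a h R : ℝ} (hl : D.Adm lam a)
    (hh : 0 < h) (hs : ∀ k s, D.Al k s → lam (k + 1) s - lam k s = -(h * D.key k s))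
    (hR : ∀ k s, D.Al k s → |D.key k s| ≤ R) (N M : ℕ) (Wn : ℤ) (hW : 2 * M ≤ Wn) (hM : 0 < M)
    {Y : ℤ → ι → ℝ} {r g0 : ℝ} (hg : 0 < g0)
    (loc : ∀ i s, D.Touch i s → ∃ b1 y1 b2 y2, D.Sep (i - Wn) (i + Wn) b1 y1 g0 ∧
      D.Sep (i - Wn) (i + Wn) b2 y2 g0 ∧ ¬ b1 s ∧ b2 s ∧ Y i s - r ≤ y1 ∧ y2 ≤ Y i s + r) :
    ∃ φ, Fac (T.rs D lam a h R) T.d (fun ε => hsum (T.h ε) (T.ρ ε) N) (fun ε => T.ρ ε ^ N) N M φ
      (2 * Fintype.card ι + 1) (T.par D) (fun g => Y (T.w g) (T.st g)) h r (2 * g0 * h * M) := by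
  let f : G → Finset ι := fun g => Finset.univ.filter fun s => lam (T.w g) (T.st g) < lam (T.w g) s
  have fb : ∀ g, (f g).card ≤ Fintype.card ι := fun g => Finset.card_le_univ _
  refine ⟨fun g => (f g).card + if T.sl g then Fintype.card ι + 1 else 0, Sp.dd,
    fun ε => hsum_hom Sp.dd (Sp.hom ε) N, ⟨true, Sp.md hl hh hs hR⟩,
    fun g g' x => ⟨Sp.par_d x, ?_⟩, fun g => ?_,
    fun ε => (Sp.mh hl hh hs hR ε).hsum (Sp.mρ hl hh hs hR ε) N,
    fun ε => (Sp.mρ hl hh hs hR ε).pow N, fun ε g g' x => ?_, fun g => ?_⟩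
  · obtain ⟨-, -, ⟨p1, p2⟩ | ⟨p1, p2, -⟩⟩ := Sp.dS _ _ x
    · by_cases o : lam (T.w g) (T.st g) < lam (T.w g) (T.st g')
      · left
        rw [p2]
        refine Nat.add_lt_add_right (Finset.card_lt_card ⟨fun s => ?_, fun e => ?_⟩) _
        · simp only [f, p1, Finset.mem_filter, Finset.mem_univ, true_and]
          exact o.trans
        · have := e (x := T.st g') (by simpa [f] using o)
          simp [f] at this
      · right
        simp only [RS.δ, rs, lv, p1, p2]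
        push_cast
        linarith
    · left
      have := fb g'
      simp only [p1, p2, if_true, Bool.false_eq_true, if_false]
      omega
  · have := fb g
    split_ifs <;> omega
  · cases ε
    · have := Sp.powL x
      have := v_bd (T := T) g
      have := v_bd (T := T) g'
      simp only [RS.ds, rs, Bool.false_eq_true, if_false]
      omega
    · have := Sp.powR x
      simp only [RS.ds, rs, if_true]
      omega
  · obtain ⟨b1, y1, b2, y2, S1, S2, n1, n2, o1, o2⟩ := loc _ _ (Sp.touch g)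
    refine ⟨⟨T.w g - M, T.w g + M, fun g => b2 (T.st g) ∧ ¬ b1 (T.st g),
      fun ε => if ε then h * (r - Y (T.w g) (T.st g)) else h * (r + Y (T.w g) (T.st g)),
      2 * g0 * h * M⟩, ⟨fun s => b2 s ∧ ¬ b1 s, fun _ => Iff.rfl, fun i e s t a0 a1 le => ?_,
        fun k t a0 a1 al i => ?_⟩, ⟨n2, n1⟩, by simp [rs], by simp [rs], le_rfl, by simp, by simp⟩
    · simp only at a0 a1 ⊢
      have dr : ∀ b y, D.Sep (T.w g - Wn) (T.w g + Wn) b y g0 → ¬ (b s ↔ b t) →
          lam i t + e * a ≤ lam i s - 2 * g0 * h * M := fun b y S ne => by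
        obtain ⟨F0, A0, L⟩ := D.exists_lev Gd C
          (fun k s => if k = T.w g ∧ b s then (1 : ℤ) else 0)
        exact S.le_drop Gd hg (by omega) (by omega) L hh hl hs M (by omega) (by omega) le ne
      by_cases e1 : b1 s ↔ b1 t
      · by_cases e2 : b2 s ↔ b2 t
        · left; rw [e1, e2]
        · exact Or.inr (dr _ _ S2 e2)
      · exact Or.inr (dr _ _ S1 e1)
    · simp only at a0 a1 ⊢
      have := S1.hi k t (by omega) (by omega) al i.2
      have := S2.lo k t (by omega) (by omega) al i.1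
      simp only [if_true, Bool.false_eq_true, if_false]
      constructor <;> nlinarith

end TC

end Pool.Agent.Lib.MP_5a3ebe_gt.Ap
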