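import Pool.Agent.Lib.MP_5a3ebe_gt.ApTot

/-! The test cycle and the test cochain: algebra. -/

namespace Pool.Agent.Lib.MP_5a3ebe_gt.Ap

open Classical Matrix Function

variable {G : Type} [Fintype G] [DecidableEq G]

def alt {X : Sort*} (a b : X) (i : Fin 4) : X := if i.val % 2 = 0 then a else b

@[simp] lemma alt0 {X : Sort*} (a b : X) : alt a b 0 = a := rfl
@[simp] lemma alt1 {X : Sort*} (a b : X) : alt a b 1 = b := rfl
@[simp] lemma alt2 {X : Sort*} (a b : X) : alt a b 2 = a := rfl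
@[simp] lemma alt3 {X : Sort*} (a b : X) : alt a b 3 = b := rfl

lemma alt_ind {P : Fin 4 → Prop} (h0 : P 0) (h1 : P 1) (h2 : P 2) (h3 : P 3) (i : Fin 4) : P i := by
  fin_cases i <;> assumption

def bdy (d X : Matrix G G F2) : Matrix G G F2 := d * X + X * d

def ch (φ ψ : Matrix G G F2) (σ : Fin 4 → G) : F2 := φ (σ 3) (σ 0) * ψ (σ 1) (σ 2)

def co (α β : Matrix G G F2) (σ : Fin 4 → G) : F2 := α (σ 0) (σ 1) * β (σ 2) (σ 3)

lemma ch_D (d φ ψ : Matrix G G F2) :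
    ch φ ψ ᵥ* totD (alt d dᵀ) = ch (bdy d φ) ψ + ch φ (bdy d ψ) := by
  funext σ
  simp only [totD, Fin.sum_univ_four, vecMul_add, Pi.add_apply, vecMul_lft, ch, bdy,
    Matrix.add_apply, Matrix.mul_apply]
  simp [update_of_ne, add_mul, mul_add, Finset.sum_mul, Finset.mul_sum]
  simp only [mul_comm, mul_left_comm, mul_assoc]
  abel

lemma D_co (d α β : Matrix G G F2) :
    totD (alt d dᵀ) *ᵥ co α β = co (bdy d α) β + co α (bdy d β) := by
  funext σ
  simp only [totD, Fin.sum_univ_four, add_mulVec, Pi.add_apply, lft_mulVec, co, bdy,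
    Matrix.add_apply, Matrix.mul_apply]
  simp [update_of_ne, add_mul, mul_add, Finset.sum_mul, Finset.mul_sum]
  simp only [mul_comm, mul_left_comm, mul_assoc]
  abel

omit [DecidableEq G] in
lemma sum_four (f : (Fin 4 → G) → F2) :
    ∑ σ, f σ = ∑ a, ∑ b, ∑ c, ∑ e, f ![a, b, c, e] := by
  have : ∀ (n : ℕ) (f : (Fin (n + 1) → G) → F2), ∑ σ, f σ = ∑ a, ∑ τ, f (Fin.cons a τ) := by
    intro n f
    rw [← Fintype.sum_prod_type', ← (Fin.consEquiv fun _ => G).sum_comp]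
    rfl
  simp only [this, Fintype.sum_unique]
  rfl

omit [DecidableEq G] in
lemma ch_co (φ ψ α β : Matrix G G F2) : ch φ ψ ⬝ᵥ co α β = trace (α * ψ * β * φ) := by
  rw [dotProduct, sum_four]
  simp only [ch, co, trace, diag, Matrix.mul_apply, Finset.sum_mul]
  refine Finset.sum_congr rfl fun a _ => ?_
  rw [Finset.sum_comm]
  conv_rhs => rw [Finset.sum_comm]
  refine Finset.sum_congr rfl fun c _ => ?_
  rw [Finset.sum_comm]
  refine Finset.sum_congr rfl fun e _ => Finset.sum_congr rfl fun b _ => ?_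
  simp
  ring

omit [DecidableEq G] in
lemma bdy_add (d X Y : Matrix G G F2) : bdy d (X + Y) = bdy d X + bdy d Y := by
  simp only [bdy, mul_add, add_mul]; abel

lemma bdy_mul (d X Y : Matrix G G F2) : bdy d (X * Y) = bdy d X * Y + X * bdy d Y := by
  simp only [bdy, mul_add, add_mul, mul_assoc]
  rw [add_assoc, ← add_assoc (X * (d * Y)), madd_self, zero_add]

lemma bdy_one (d : Matrix G G F2) : bdy d 1 = 0 := by simp [bdy, madd_self]

lemma bdy_bdy {d : Matrix G G F2} (dd : d * d = 1) (X : Matrix G G F2) : bdy d (bdy d X) = 0 := by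
  simp only [bdy, mul_add, add_mul, ← mul_assoc, dd, one_mul]
  rw [mul_assoc X, dd, mul_one, add_comm (d * X * d) X, madd_self]

/-- The chain whose boundary corrects the basic cycle. -/
def sixV (τ A0 A2 p2 hL hR rL rR : Matrix G G F2) : (Fin 4 → G) → F2 :=
  ch (A0 * τ) A2 + ch (A2 * τ) A0 + ch (A0 * hL * τ) p2 + ch (A0 * rL * τ) (p2 * hR) +
    ch (p2 * hR * τ) A0 + ch (p2 * rR * τ) (A0 * hL)

def sixZ (τ A0 A1 A2 p0 p1 p2 hL hR rL rR : Matrix G G F2) : (Fin 4 → G) → F2 :=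
  ch (A0 * rL * τ) (p2 * rR) + ch ((p0 + p1) * hL * τ) (p2 * 1) +
    ch ((p0 + p1) * rL * τ) (p2 * hR) + ch (A0 * hL * τ) 1 + ch (A0 * rL * τ) hR +
    ch (p2 * rR * τ) (A0 * rL) + ch (hR * τ) A0 + ch (rR * τ) (A0 * hL) +
    ch (p2 * hR * τ) ((p0 + p1) * 1) + ch (p2 * rR * τ) ((p0 + p1) * hL) + ch (p1 * τ) A2 +
    ch (A1 * τ) p0 + ch (A2 * τ) p1 + ch (p0 * τ) A1

section
variable {d τ A0 A1 A2 p0 p1 p2 hL hR rL rR : Matrix G G F2} (dd : d * d = 1)
  (eL : bdy d hL = 1 + rL) (eR : bdy d hR = 1 + rR) (eτ : bdy d τ = 0) (e0 : bdy d p0 = 1)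
  (e1 : p1 = p0 + bdy d A0) (e2 : p2 = p0 + bdy d A2) (eA : A1 = 1 + A0 + A2)
include dd eL eR eτ e0 e1 e2 eA

lemma sixZ_eq : sixZ τ A0 A1 A2 p0 p1 p2 hL hR rL rR =
    ch τ p0 + ch (p0 * τ) 1 + sixV τ A0 A2 p2 hL hR rL rR ᵥ* totD (alt d dᵀ) := by
  have a0 : bdy d A0 = p0 + p1 := by rw [e1, ← add_assoc, madd_self, zero_add]
  have a2 : bdy d A2 = p0 + p2 := by rw [e2, ← add_assoc, madd_self, zero_add]
  have b2 : bdy d p2 = 1 := by rw [e2, bdy_add, e0, bdy_bdy dd, add_zero]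
  have bL : bdy d rL = 0 := by
    have := bdy_bdy dd hL
    rwa [eL, bdy_add, bdy_one, zero_add] at this
  have bR : bdy d rR = 0 := by
    have := bdy_bdy dd hR
    rwa [eR, bdy_add, bdy_one, zero_add] at this
  simp only [sixV, add_vecMul, ch_D, bdy_mul, a0, a2, b2, bL, bR, eL, eR, eτ, sixZ, eA]
  funext σ
  simp only [ch, Pi.add_apply, mul_add, add_mul, mul_one, one_mul, mul_zero, add_zero,
    Matrix.add_apply]
  grind

lemma sixZ_cyc : sixZ τ A0 A1 A2 p0 p1 p2 hL hR rL rR ᵥ* totD (alt d dᵀ) = 0 := by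
  have sq : totD (alt d dᵀ) * totD (alt d dᵀ) = 0 := by
    refine totD_sq (alt_ind ?_ ?_ ?_ ?_) <;> simp [dd, ← transpose_mul]
  rw [sixZ_eq dd eL eR eτ e0 e1 e2 eA, add_vecMul, add_vecMul, vecMul_vecMul, sq, ch_D, ch_D,
    bdy_mul, eτ, e0, bdy_one]
  funext σ
  simp [ch, F2.add_self]

lemma sixZ_pair : sixZ τ A0 A1 A2 p0 p1 p2 hL hR rL rR ⬝ᵥ co p1 p0 =
    trace (τ * (A2 * p0 * A0)) + trace (τ * (p1 * (A2 * A0))) + trace (τ * (A0 * p0 * A2)) +
      trace (τ * (p1 * (A0 * A2))) + trace (τ * (p2 * 1 * p0 * (A0 * hL))) +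
      trace (τ * (p1 * 1 * p2 * (A0 * hL))) + trace (τ * (p2 * hR * p0 * (A0 * rL))) +
      trace (τ * (p1 * 1 * p2 * hR * (A0 * rL))) + trace (τ * (A0 * (p0 * 1 * p2) * hR)) +
      trace (τ * (p1 * A0 * p2 * hR)) + trace (τ * (A0 * hL * (p0 * 1 * p2) * rR)) +
      trace (τ * (p1 * (A0 * hL) * p2 * rR)) := by
  have b1 : bdy d p1 = 1 := by rw [e1, bdy_add, e0, bdy_bdy dd, add_zero]
  have cy : ∀ X Y : Matrix G G F2, trace (X * (Y * τ)) = trace (τ * (X * Y)) := fun X Y => by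
    rw [← mul_assoc, trace_mul_comm]
  have z : ch τ p0 ⬝ᵥ co p1 p0 + ch (p0 * τ) 1 ⬝ᵥ co p1 p0 = 0 := by
    rw [ch_co, ch_co, mul_one, ← mul_assoc, F2.add_self]
  rw [sixZ_eq dd eL eR eτ e0 e1 e2 eA, add_dotProduct, add_dotProduct, z, zero_add,
    ← dotProduct_mulVec, D_co, b1, e0]
  simp only [sixV, add_dotProduct, dotProduct_add, ch_co, cy]
  simp only [mul_one, one_mul, mul_assoc]
  abel

end

end Pool.Agent.Lib.MP_5a3ebe_gt.Ap
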