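import Pool.Agent.Lib.MP_5a3ebe_gt.ApOdd

/-! The test data in the main corridor. -/

set_option linter.unusedSectionVars false

namespace Pool.Agent.Lib.MP_5a3ebe_gt.Ap

open Classical Matrix

namespace TC

variable {ι G : Type} [Fintype G] [DecidableEq G] [Fintype ι] [DecidableEq ι] {T : TC ι G}
  {D : Diag ι} (Sp : T.Spec D)
include Sp

lemma Spec.count {j0 : ℤ} {bot : ι → Prop} (od : Odd (Set.ncard {s | D.Al j0 s ∧ bot s})) :
    ∑ g, (if T.sl g = true ∧ T.w g = j0 ∧ bot (T.st g) then (1 : F2) else 0) = 1 := by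
  rw [Finset.sum_boole]
  have : (Finset.univ.filter fun g => T.sl g = true ∧ T.w g = j0 ∧ bot (T.st g)).card =
      Set.ncard {s | D.Al j0 s ∧ bot s} := by
    rw [← Set.ncard_coe_finset]
    refine Set.ncard_congr (fun g _ => T.st g) (fun g hg => ?_) (fun g g' hg hg' e => ?_)
      fun s hs => ?_
    · simp only [Finset.coe_filter, Finset.mem_univ, true_and, Set.mem_ofPred_eq] at hg
      exact ⟨hg.2.1 ▸ Sp.slA g hg.1, hg.2.2⟩
    · simp only [Finset.coe_filter, Finset.mem_univ, true_and, Set.mem_ofPred_eq] at hg hg'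
      exact Sp.inj _ _ (hg.2.1.trans hg'.2.1.symm) (hg.1.trans hg'.1.symm) e
    · obtain ⟨g, g1, g2, g3⟩ := Sp.slE _ _ hs.1
      exact ⟨g, by simp [g1, g2, g3, hs.2], g3⟩
  rw [this]
  exact (ZMod.natCast_eq_one_iff_odd).2 od

theorem Spec.six (Gd : D.Good) (C : D.Conn) {lam : ℤ → ι → ℝ} {a h R : ℝ} (hl : D.Adm lam a)
    (hh : 0 < h) (hs : ∀ k s, D.Al k s → lam (k + 1) s - lam k s = -(h * D.key k s))
    (hR : ∀ k s, D.Al k s → |D.key k s| ≤ R) (R0 : 0 ≤ R) {j0 Wn : ℤ} {bot : ι → Prop}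
    {yc ω : ℝ} (S : D.Sep (j0 - Wn) (j0 + Wn) bot yc ω) (hω : 0 < ω) (q : D.Quiet j0)
    (od : Odd (Set.ncard {s | D.Al j0 s ∧ bot s})) (Ω n : ℕ) (hΩ : 4 * Ω + 1 ≤ Wn)
    (nΩ : n + 2 ≤ Ω) (cU : 2 * (h * R) * (2 * n + 2) < 2 * ω * h * Ω) :
    ∃ τ p0 p1 p2 hL hR rL rR bt sp Zb Zt, SixH (T.rs D lam a h R) T.d τ p0 p1 p2 hL hR rL rR bt sp
      (T.par D) j0 Ω n (2 * ω * h * Ω) (2 * h * ω) Zb Zt := by
  obtain ⟨F0, A0, L⟩ := D.exists_lev Gd C (fun k s => if k = j0 ∧ bot s then (1 : ℤ) else 0)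
  have oA := L.odd Gd od
  obtain ⟨s0, al0, b0⟩ : {s | D.Al j0 s ∧ bot s}.Nonempty :=
    Set.nonempty_of_ncard_ne_zero (by rintro e; rw [e] at od; simp at od)
  obtain ⟨g0, -⟩ := Sp.slE _ _ al0
  obtain ⟨Mx, hM⟩ : ∃ Mx : ℕ, ∀ g g', T.w g' + 1 < T.w g + Mx := by
    obtain ⟨b, hb⟩ := (Set.finite_range fun x : G × G => T.w x.2 + 1 - T.w x.1).bddAbove
    refine ⟨b.toNat + 1, fun g g' => ?_⟩
    have := hb ⟨(g, g'), rfl⟩
    simp only at this
    omega
  have h0 : j0 - Wn ≤ j0 := by omega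
  have h1 : j0 < j0 + Wn := by omega
  have P := Sp.pmP Gd S hω h0 h1 L oA hl hh hs hR R0
  have mh := Sp.mh hl hh hs hR
  have mρ := Sp.mρ hl hh hs hR
  have nd := Nn_diff (T := T) (D := D) F0 A0 bot j0 j0
  have pw : ∀ κ g g', T.pm D κ g g' ≠ 0 → T.par D g' = T.par D g + 1 := fun κ g g' x =>
    Sp.par_d (pm_ne x).1
  have zn : ∀ (I : ι → Prop) (m : Bool → ℝ), (∀ s t, (bot s ↔ bot t) → (I s ↔ I t)) →
      (∀ k t, j0 - Wn ≤ k → k < j0 + Wn → D.Al k t → I t →
        -(h * D.key k t) ≤ m true ∧ h * D.key k t ≤ m false) →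
      (T.rs D lam a h R).V ⟨j0 - Ω, j0 + 3 * Ω, fun g => I (T.st g), m, 2 * ω * h * Ω⟩ := by
    intro I m hI hm
    refine ⟨I, fun _ => Iff.rfl, fun i e s t a0 a1 le => ?_, fun k t a0 a1 =>
      hm k t (by simp only at a0; omega) (by simp only at a1; omega)⟩
    simp only at a0 a1
    by_cases e : bot s ↔ bot t
    · exact Or.inl (hI s t e)
    · exact Or.inr (S.le_drop Gd hω h0 h1 L hh hl hs Ω (by omega) (by omega) le e)
  refine ⟨hsum (T.h true) (T.ρ true) Mx + hsum (T.h false) (T.ρ false) Mx,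
    T.pm D fun g => T.Nn D F0 A0 bot j0 j0 g + if false = true ∧ j0 < T.w g then 1 else 0,
    T.pm D fun g => T.Nn D F0 A0 bot j0 (j0 + 2 * Ω) g +
      if false = true ∧ j0 + 2 * Ω < T.w g then 1 else 0,
    T.pm D fun g => T.Nn D F0 A0 bot j0 (j0 + Ω) g +
      if true = true ∧ j0 + Ω < T.w g then 1 else 0,
    hsum (T.h false) (T.ρ false) n, hsum (T.h true) (T.ρ true) n, T.ρ false ^ n, T.ρ true ^ n,
    fun g => bot (T.st g), _,
    ⟨j0 - Ω, j0 + 3 * Ω, fun g => bot (T.st g), fun ε => if ε then h * R else h * (yc - ω), _⟩,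
    ⟨j0 - Ω, j0 + 3 * Ω, fun g => ¬ bot (T.st g),
      fun ε => if ε then -(h * (yc + ω)) else h * R, _⟩,
    mul_nonneg hh.le R0, Sp.dd, hsum_hom Sp.dd (Sp.hom _) n, hsum_hom Sp.dd (Sp.hom _) n, ?_,
    Sp.bdy_pm _, ?_, ?_, (mh _).hsum (mρ _) n, (mh _).hsum (mρ _) n, (mρ _).pow n, (mρ _).pow n,
    fun g g' x => ?_, fun g g' x => Sp.powR x, fun g g' x => ?_,
    P false j0 Ω (by omega) (by omega), fun g g' x => ⟨x.2.2.1, x.2.2.2.1, x.2.2.2.2.2.2 rfl⟩,
    fun g g' x => ?_, fun g g' x => ?_, pw _, pw _, ?_, nΩ, ?_, cU,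
    ⟨zn bot _ (fun _ _ e => e) fun k t a0 a1 al i => ?_, le_rfl, le_rfl, fun _ => Iff.rfl, le_rfl⟩,
    ⟨zn (fun s => ¬ bot s) _ (fun _ _ e => not_congr e) fun k t a0 a1 al i => ?_, le_rfl, le_rfl,
      fun _ => Iff.rfl, le_rfl⟩, ?_, ?_⟩
  · have e1 : T.ρ true ^ Mx = 0 := by
      ext g g'
      by_contra x
      have := Sp.powR x
      have := hM g g'
      omega
    have e2 : T.ρ false ^ Mx = 0 := by
      ext g g'
      by_contra x
      have := Sp.powL x
      have := hM g' g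
      have := v_bd (T := T) g
      have := v_bd (T := T) g'
      omega
    rw [bdy_add, bdy, bdy, hsum_hom Sp.dd (Sp.hom _), hsum_hom Sp.dd (Sp.hom _), e1, e2, madd_self]
  · refine Eq.trans ?_ (pm_add _ _).symm
    congr 1
    funext g
    rw [nd (j0 + 2 * Ω) g]
    simp only [In0, rs]
    by_cases b : bot (T.st g) <;> by_cases c1 : j0 < T.w g <;> by_cases c2 : j0 + 2 * Ω < T.w g <;>
      simp [b, c1, c2, ← not_lt] <;> first | omega | grind
  · refine Eq.trans (Eq.trans ?_ (pm_shift _)) (pm_add _ _).symm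
    congr 1
    funext g
    rw [nd (j0 + Ω) g]
    simp only [In2, rs]
    by_cases b : bot (T.st g) <;> by_cases c1 : j0 < T.w g <;> by_cases c2 : j0 + Ω < T.w g <;>
      simp [b, c1, c2, ← not_lt] <;> first | omega | grind
  · have := Sp.powL x
    have := v_bd (T := T) g
    have := v_bd (T := T) g'
    simp only [rs]
    omega
  · have k : ∀ ε, (T.rs D lam a h R).Mv ε 1 Mx g g' → (T.rs D lam a h R).δ 1 g g' ≤
        (T.rs D lam a h R).U * |((T.rs D lam a h R).w g' : ℝ) - (T.rs D lam a h R).w g| := by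
      intro ε m
      refine m.le.trans (mul_le_mul_of_nonneg_left ?_ (mul_nonneg hh.le R0))
      cases ε <;> simp only [RS.ds, if_true, Bool.false_eq_true, if_false] <;> push_cast
      · rw [abs_sub_comm]; exact le_abs_self _
      · exact le_abs_self _
    rcases F2.add_ne x with x | x
    · exact k _ ((mh _).hsum (mρ _) Mx _ _ x)
    · exact k _ ((mh _).hsum (mρ _) Mx _ _ x)
  · have := P false (j0 + 2 * Ω) Ω (by omega) (by omega) g g' x
    exact ⟨this.1, this.2.imp_right fun e => ⟨e.2.2.1, e.2.2.2.1⟩⟩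
  · have := P true (j0 + Ω) Ω (by omega) (by omega) g g' x
    exact ⟨this.1, this.2.imp_right fun e => ⟨e.2.2.1, e.2.2.2.1, by simpa using e.2.2.2.2.2⟩⟩
  · rw [← Sp.count od]
    refine Finset.sum_congr rfl fun g _ => ?_
    by_cases c : T.sl g = true ∧ T.w g = j0 ∧ bot (T.st g)
    swap
    · rw [if_neg c]
      exact Finset.sum_eq_zero fun g' _ => if_neg fun e => c ⟨e.1, e.2.2.1, e.2.2.2.2.1.2 rfl⟩
    obtain ⟨c1, c2, c3⟩ := c
    have al := c2 ▸ Sp.slA g c1
    obtain ⟨g1, e1, e2, e3⟩ := Sp.wlE _ _ q al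
    have mx : 0 < Mx := by have := hM g g; omega
    have qq := fun g' => Sp.quiet g g' (c2 ▸ q) c1
    rw [if_pos ⟨c1, c2, c3⟩, Finset.sum_eq_single g1]
    · rw [if_pos ⟨c1, e2, c2, e1, by simp [c3], by simp [e3, c3]⟩, Sp.tau mx c1 e2 (by omega),
        pm_apply, (qq g1 e2 (by omega)).1, (qq g1 e2 (by omega)).2, if_pos e3.symm]
      have st := L.step _ _ al
      obtain ⟨m, rfl⟩ := oA
      simp only [Nn, Diag.uF, par, e1, e2, e3, c1, c2, st, c3, sub_self, ite_self]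
      cases D.dir (T.st g) <;> simp <;> grind
    · intro g' _ ne
      split_ifs with e
      · rw [Sp.tau mx c1 e.2.1 (by omega), (qq g' e.2.1 (by omega)).2, if_neg, zero_mul]
        exact fun e' => ne (Sp.inj _ _ (by omega) (e.2.1.trans e2.symm) (e'.symm.trans e3.symm))
      · rfl
    · simp
  · have a1 := Sp.nonneg g0 (S.admU Gd hω h0 h1 L h0 h1)
    have a2 := Sp.nonneg g0 (S.box Gd hω h0 h1 L hh hl hs (Finset.Ico j0 (j0 + Ω)) fun j hj => by
      have := Finset.mem_Ico.1 hj; omega)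
    have a3 : (1 : ℝ) ≤ A0 := by
      have : (0 : ℝ) ≤ A0 := by linarith
      have : 0 ≤ A0 := by exact_mod_cast this
      obtain ⟨m, e⟩ := oA
      exact_mod_cast (by omega : 1 ≤ A0)
    simp only [Int.card_Ico, add_sub_cancel_left, Int.toNat_natCast] at a2
    have : 0 ≤ 2 * ω * h * Ω := by positivity
    simp only [rs]
    nlinarith
  · have := S.lo k t a0 a1 al i
    have := abs_le.1 (hR k t al)
    simp only [if_true, Bool.false_eq_true, if_false]
    constructor <;> nlinarith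
  · have := S.hi k t a0 a1 al i
    have := abs_le.1 (hR k t al)
    simp only [if_true, Bool.false_eq_true, if_false]
    constructor <;> nlinarith
  · have := S.lo j0 s0 h0 h1 al0 b0
    have := abs_le.1 (hR _ _ al0)
    simp only [rs, Bool.false_eq_true, if_false]
    nlinarith
  · simp only [if_true, Bool.false_eq_true, if_false]
    linarith

end TC

end Pool.Agent.Lib.MP_5a3ebe_gt.Ap
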