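import Pool.Agent.Lib.MP_5a3ebe_gt.ApIns

/-! Every good diagram carries a positive algebraic system. -/

set_option linter.unusedSectionVars false

namespace Pool.Agent.Lib.MP_5a3ebe_gt.Ap

open Classical Matrix

variable {ι : Type} [Fintype ι] [DecidableEq ι]

lemma exists_seq {X : Type} (k0 : ℤ) (x0 : X) (F : ℤ → X → X) :
    ∃ f : ℤ → X, f k0 = x0 ∧ ∀ k, k0 ≤ k → f (k + 1) = F k (f k) := by
  let g : ℕ → X := fun n => Nat.rec x0 (fun j x => F (k0 + j) x) n
  refine ⟨fun k => g (k - k0).toNat, by simp [g], fun k hk => ?_⟩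
  obtain ⟨n, rfl⟩ := Int.le.dest hk
  have e1 : (k0 + n + 1 - k0).toNat = n + 1 := by omega
  have e2 : (k0 + n - k0).toNat = n := by omega
  simp only [e1, e2, g]

lemma bool_ne_ne {a b c : Bool} (h1 : a ≠ b) (h2 : c ≠ b) : a = c := by
  revert a b c; decide

namespace Diag

variable {D : Diag ι}

lemma OCfg.sys (G : D.Good) {k1 k2 s p} (h : D.OCfg k1 k2 s p) {d} (hA : (D.oval s p).Alg d)
    (hP : (D.oval s p).Pos d) : ∃ d, D.Alg d ∧ D.Pos d := by
  obtain ⟨p1, p2, p3, p4, -⟩ := h.cap.facts G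
  obtain ⟨-, q2, -, q4, -⟩ := h.cup.facts G
  have bs := h.cup.2.2.1
  have es := h.cap.2.2.1
  have lt := G.lt p p1
  have ne : ∀ {a k}, a ∈ D.S → (D.b a = k + 1 ∧ k ≠ k1 ∨ D.e a = k + 1 ∧ k ≠ k2) →
      a ∈ (D.oval s p).S := fun ha hk =>
    oval_mem.2 ⟨ha, fun e => by subst e; omega, fun e => by subst e; omega⟩
  have q : ∀ k, D.Quiet k ∨ k = k2 ∨ k = k1 → (D.oval s p).Quiet k := by
    intro k hk t ht
    obtain ⟨t1, t2, t3⟩ := oval_mem.1 ht
    rcases hk with hk | rfl | rfl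
    · exact hk t t1
    · exact h.cap.other G t1 t2 t3
    · exact h.cup.other G t1 t2 t3
  have H : InsH (d (k1 + 1)) ((D.oval s p).Al (k1 + 1)) s p 0 0 :=
    ⟨p3, fun e => (oval_al.1 e).2.1 rfl, fun e => (oval_al.1 e).2.2 rfl,
      fun x y e => ⟨(hA.supp _ _ _ e).1, (hA.supp _ _ _ e).2.1⟩, by rw [hA.sq]; rfl, by simp,
      by simp, by simp⟩
  have cfg : InsCfg D (D.oval s p) d k1 k2 s p 0 0 := by
    refine ⟨h.cap, h.left, by omega, hA, rfl, rfl, by omega, by omega, fun k hk t => ?_,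
      fun k _ _ t => oval_al, fun k hk => q k (by tauto),
      fun k a c hk hc => ⟨ne hc.1 (Or.inl ⟨hc.2.2.1, hk⟩), hc.2⟩,
      fun k a c hk hc => ⟨ne hc.1 (Or.inr ⟨hc.2.2.1, hk⟩), hc.2⟩,
      fun k a c hc => ⟨oval_mem.2 ⟨hc.1, fun e => ?_, fun e => ?_⟩, hc.2⟩, by simp, by simp,
      by simp, by simp, s, p, h.cup, ⟨by simp [H.row_s], fun x y x1 x2 y1 y2 => ?_⟩,
      fun t e => ?_, fun t e => ?_⟩
    · rw [oval_al]
      refine ⟨fun e => e.1, fun e => ⟨e, fun e' => ?_, fun e' => ?_⟩⟩ <;> subst e' <;>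
        have := e.2 <;> omega
    · have := hc.2.1; rw [e, h.cap.2.1] at this; simp at this
    · have := hc.2.1; rw [e, p4] at this; simp at this
    · simp only [Pi.zero_apply]
      rw [InsH.row_g x1 x2, InsH.row_g x1 x2, hA.quiet k1 (q k1 (by tauto))]
      simp [y2, ← hA.quiet k1 (q k1 (by tauto)), H.d0 (Or.inr H.Bp)]
    · simp only [Pi.zero_apply] at e
      rw [H.row_s] at e
      by_contra hc
      push Not at hc
      simp [hc.1] at e
    · simp only [Pi.zero_apply] at e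
      by_contra hc
      push Not at hc
      by_cases tp : t = p
      · subst tp
        simp [H.row_p, p3] at e
      rw [InsH.row_g hc.1 tp] at e
      simp [H.d0 (Or.inr H.Bp)] at e
  refine ⟨_, cfg.alg_ins G, fun lam α hl k g t e => ?_⟩
  have hl' : (D.oval s p).Adm lam α :=
    ⟨fun k t u h1 h2 => hl.mono k t u (oval_al.1 h1).1 (oval_al.1 h2).1,
      fun k a c hc => hl.cup k a c ⟨(oval_mem.1 hc.1).1, hc.2⟩,
      fun k a c hc => hl.cap k a c ⟨(oval_mem.1 hc.1).1, hc.2⟩,
      fun k a c hc => hl.pass k a c ⟨(oval_mem.1 hc.1).1, hc.2⟩⟩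
  exact cfg.pos_ins G hl (fun k g t _ e => hP lam α hl' k g t e)
    (fun g t e => (hP lam α hl' k2 g t e).2) (by simp) (by simp) e

def Mid (D : Diag ι) (k2 : ℤ) (p q r : ι) : Prop :=
  D.Al k2 r ∧ D.key k2 p < D.key k2 r ∧ D.key k2 r ≤ D.key k2 q

noncomputable def tl (D : Diag ι) (k1 k2 : ℤ) (s p q : ι) (lam : ℤ → ι → ℝ) (α : ℝ) (i : ℤ)
    (r : ι) : ℝ :=
  lam i r - if D.Mid k2 p q r ∧ k1 < i ∧ i ≤ k2 then lam i p + α - lam i s else 0

section
variable (G : D.Good) {k1 k2 : ℤ} {s p q : ι} (h : D.FCfg k1 k2 s p q)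
include G h

lemma FCfg.not_mid {r} (hb : D.b r ≤ k1 + 1) (hq : r ≠ q) : ¬ D.Mid k2 p q r := by
  obtain ⟨s1, p1, q1, n1, n2, n3, b1, b2, e1, e2, l1, l2, o1, o2⟩ := h.facts G
  rintro ⟨m1, m2, m3⟩
  have := h.out G m1.1 hb (fun e => by subst e; linarith) (fun e => by subst e; linarith) hq
  rcases this with e | e <;> linarith

lemma FCfg.alIn {k} (h1 : k1 < k) (t : ι) :
    (D.finger s p q).Al k t ↔ D.Al k t ∧ t ≠ s ∧ t ≠ p := by
  rw [h.al G]
  constructor
  · rintro ⟨a, b, c⟩
    exact ⟨a, fun e => by have := c e; omega, b⟩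
  · rintro ⟨a, b, c⟩
    exact ⟨a, c, fun e => absurd e b⟩

lemma FCfg.cup_mid {k a c} (hc : D.Cup k a c) (h1 : k1 < k) (h2 : k < k2) :
    (D.Mid k2 p q a ↔ D.Mid k2 p q c) ∧ D.key k2 a < D.key k2 c := by
  obtain ⟨s1, p1, q1, n1, n2, n3, b1, b2, e1, e2, l1, l2, o1, o2⟩ := h.facts G
  obtain ⟨f1, f2, f3, f4, f5, f6, f7, f8, f9⟩ := hc.facts G
  have ba := hc.2.2.1
  have kk := fun {u v} (hu : D.Al (k + 1) u) (hv : D.Al (k + 1) v) =>
    h.left.key G (k := k + 1) (by omega) hu hv
  have ap : D.Al (k + 1) p := ⟨p1, by omega, by omega⟩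
  have aq : D.Al (k + 1) q := ⟨q1, by omega, by omega⟩
  have x1 := G.cup _ _ _ _ hc ap (fun e => by subst e; omega) (fun e => by subst e; omega)
  have x2 := G.cup _ _ _ _ hc aq (fun e => by subst e; omega) (fun e => by subst e; omega)
  rw [kk ap f6, kk f7 ap] at x1
  rw [kk aq f6, kk f7 aq] at x2
  have o := (kk f6 f7).1 hc.2.2.2
  refine ⟨?_, o⟩
  simp only [Mid, h.left.al_mono (by omega) le_rfl f6, h.left.al_mono (by omega) le_rfl f7,
    true_and]
  rcases x1 with x1 | x1 <;> rcases x2 with x2 | x2 <;> constructor <;> rintro ⟨y1, y2⟩ <;>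
    constructor <;> linarith

lemma FCfg.adm {lam α} (hl : D.Adm lam α) :
    (D.finger s p q).Adm (D.tl k1 k2 s p q lam α) α := by
  obtain ⟨s1, p1, q1, n1, n2, n3, b1, b2, e1, e2, l1, l2, o1, o2⟩ := h.facts G
  have old := h.old
  have lc := hl.cap _ _ _ h.cap
  have lu := hl.cup _ _ _ h.cup
  have out : ∀ i r, (i ≤ k1 ∨ k2 < i) → D.tl k1 k2 s p q lam α i r = lam i r := fun i r hi => by
    rw [tl, if_neg (by omega), sub_zero]
  have nm : ∀ i r, ¬ D.Mid k2 p q r → D.tl k1 k2 s p q lam α i r = lam i r := fun i r hi => by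
    rw [tl, if_neg (by tauto), sub_zero]
  have ym : ∀ i r, D.Mid k2 p q r → k1 < i → i ≤ k2 + 1 →
      D.tl k1 k2 s p q lam α i r = lam i r - (lam i p + α - lam i s) := fun i r hi h1 h2 => by
    by_cases e : i = k2 + 1
    · rw [out _ _ (by omega), e, lc]; ring
    · rw [tl, if_pos ⟨hi, h1, by omega⟩]
  refine ⟨fun k t u h1 h2 o => ?_, fun k a c hc => ?_, fun k a c hc => ?_, fun k a c hc => ?_⟩
  · have a1 := (h.al G _ _).1 h1
    have a2 := (h.al G _ _).1 h2
    have mo := hl.mono k t u a1.1 a2.1 o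
    by_cases hk : k2 < k
    · simpa only [out _ _ (Or.inr hk), out (k + 1) _ (Or.inr (by omega))] using mo
    by_cases hk1 : k ≤ k1
    · have := a1.1.2.1
      have := a2.1.2.1
      rwa [nm (k + 1) u (h.not_mid G (by omega) (fun e => by subst e; omega)),
        nm (k + 1) t (h.not_mid G (by omega) (fun e => by subst e; omega)), out k u (Or.inl hk1),
        out k t (Or.inl hk1)]
    push Not at hk hk1
    have as : D.Al k s := ⟨s1, by omega, by omega⟩
    have ap : D.Al k p := ⟨p1, by omega, by omega⟩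
    have kk := fun {u v} (hu : D.Al k u) (hv : D.Al k v) => h.left.key G hk hu hv
    have msp := hl.mono k s p as ap ((kk as ap).2 o1)
    have o' : D.key k2 t < D.key k2 u := (kk a1.1 a2.1).1 o
    by_cases m1 : D.Mid k2 p q t <;> by_cases m2 : D.Mid k2 p q u
    · rw [ym _ _ m1 hk1 (by omega), ym _ _ m2 hk1 (by omega), ym _ _ m1 (by omega) (by omega),
        ym _ _ m2 (by omega) (by omega)]
      linarith
    · rw [ym _ _ m1 hk1 (by omega), ym _ _ m1 (by omega) (by omega), nm _ _ m2, nm _ _ m2]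
      linarith
    · rw [ym _ _ m2 hk1 (by omega), ym _ _ m2 (by omega) (by omega), nm _ _ m1, nm _ _ m1]
      have at2 := h.left.al_mono hk le_rfl a1.1
      have ts : D.key k2 t < D.key k2 s :=
        (G.cap _ _ _ _ h.cap at2 (fun e => by have := a1.2.2 e; omega) a1.2.1).resolve_right
          fun e => m1 ⟨at2, e, by linarith [m2.2.2]⟩
      have := hl.mono k t s a1.1 as ((kk a1.1 as).2 ts)
      have := hl.mono k p u ap a2.1 ((kk ap a2.1).2 m2.2.1)
      linarith
    · simpa only [nm _ _ m1, nm _ _ m2] using mo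
  · obtain ⟨hc, hk⟩ := (h.cup_iff G).1 hc
    have := hl.cup _ _ _ hc
    by_cases hk' : k1 < k ∧ k < k2
    · have := (h.cup_mid G hc hk'.1 hk'.2).1
      by_cases m1 : D.Mid k2 p q a
      · rw [ym _ _ m1 (by omega) (by omega), ym _ _ (this.1 m1) (by omega) (by omega)]
        linarith
      · rwa [nm _ _ m1, nm _ _ (fun e => m1 (this.2 e))]
    · rwa [out _ _ (by omega), out _ _ (by omega)]
  · obtain ⟨hc, hk⟩ := (h.cap_iff G).1 hc
    have := h.left a hc.1
    have := hc.2.2.1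
    rw [out _ _ (by omega), out _ _ (by omega)]
    exact hl.cap _ _ _ hc
  · rcases (h.pass_iff G).1 hc with hc | ⟨rfl, rfl, rfl⟩
    · have := h.left a hc.1
      have := hc.2.2
      rw [out _ _ (by omega), out _ _ (by omega)]
      exact hl.pass _ _ _ hc
    · rw [nm _ _ (h.not_mid G (r := a) (by omega) n3.symm),
        ym _ _ ⟨⟨q1, by omega, by omega⟩, o2, le_rfl⟩ (by omega) (by omega), lu]
      ring

lemma FCfg.sys {d} (hA : (D.finger s p q).Alg d) (hP : (D.finger s p q).Pos d) :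
    ∃ d, D.Alg d ∧ D.Pos d := by
  obtain ⟨s1, p1, q1, n1, n2, n3, b1, b2, e1, e2, l1, l2, o1, o2⟩ := h.facts G
  have old := h.old
  have d1 := (h.cup.facts G).2.2.2.2.1
  have d2 := (h.cap.facts G).2.2.2.2.1
  obtain ⟨m, m0, ms⟩ := exists_seq (k1 + 1) (Pi.single q 1 : ι → F2) fun k x r => x r +
    if D.Cup k r (D.J (r, false)).1 ∧ D.key k2 p < D.key k2 r then
      (x ᵥ* d (k + 1)) (D.J (r, false)).1 else 0
  obtain ⟨χ, c0, cs⟩ := exists_seq (k1 + 1)
    (fun g => if D.key k2 g < D.key k2 s then d (k1 + 1) g q else 0 : ι → F2) fun k x r => x r +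
    if D.Cup k (D.J (r, false)).1 r ∧ D.key k2 r < D.key k2 s then
      (d (k + 1) *ᵥ x) (D.J (r, false)).1 else 0
  have almono : ∀ k t, k1 < k → k < k2 → (D.finger s p q).Al k t →
      (D.finger s p q).Al (k + 1) t := fun k t h1 h2 a => by
    rw [h.alIn G (by omega)] at a ⊢
    exact ⟨h.left.al_mono (by omega) (by omega) a.1, a.2⟩
  have al : ∀ {k t}, (D.finger s p q).Al k t → D.Al k t := fun a => ((h.al G _ _).1 a).1
  have G' := h.good G
  have mI : ∀ k, k1 + 1 ≤ k → k ≤ k2 → ∀ r, m k r ≠ 0 →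
      ((D.finger s p q).Al k r ∧ D.Mid k2 p q r ∧ D.dir r = D.dir s) ∧
      ∀ lam α, D.Adm lam α → lam (k + 1) r ≤ lam (k + 1) p + α := by
    have ext : ∀ k r lam α, k1 < k → k ≤ k2 → D.Adm lam α → (D.finger s p q).Al k r →
        D.Mid k2 p q r → lam k r ≤ lam k p + α → lam (k + 1) r ≤ lam (k + 1) p + α := by
      intro k r lam α h1 h2 hl a mi e
      have ap : D.Al k p := ⟨p1, by omega, by omega⟩
      have := hl.mono k p r ap (al a) ((h.left.key G h2 ap (al a)).2 mi.2.1)
      linarith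
    intro k hk
    induction k, hk using Int.leInduction with
    | base =>
      intro _ r e
      have : r = q := by
        by_contra hc
        simp [m0, hc] at e
      subst this
      have a : (D.finger s p r).Al (k1 + 1) r :=
        (h.alIn G (by omega) _).2 ⟨⟨q1, by omega, by omega⟩, n3, n2⟩
      have mi : D.Mid k2 p r r := ⟨⟨q1, by omega, by omega⟩, o2, le_rfl⟩
      exact ⟨⟨a, mi, bool_ne_ne d1 d2.symm⟩, fun lam α hl =>
        ext _ _ _ _ (by omega) (by omega) hl a mi (hl.cup _ _ _ h.cup).le⟩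
    | succ k hk ih =>
      intro h2 r e
      rw [ms k hk] at e
      rcases F2.add_ne e with e | e
      · obtain ⟨⟨i1, i2, i3⟩, i4⟩ := ih (by omega) r e
        have a := almono k r (by omega) (by omega) i1
        exact ⟨⟨a, i2, i3⟩, fun lam α hl => ext _ _ _ _ (by omega) h2 hl a i2 (i4 lam α hl)⟩
      split_ifs at e with hc
      swap
      · exact absurd rfl e
      obtain ⟨hc, o⟩ := hc
      generalize (D.J (r, false)).1 = c at hc e
      obtain ⟨v, v1, v2⟩ := F2.sum_ne e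
      obtain ⟨⟨i1, i2, i3⟩, i4⟩ := ih (by omega) v v1
      have hc' := (h.cup_iff G).2 ⟨hc, by omega⟩
      obtain ⟨f1, f2, f3, f4, f5, f6, f7, f8, f9⟩ := hc'.facts G'
      have g := ((hA.cup _ _ _ hc').2.2 v v2).resolve_left fun e => f8 (e ▸ i1)
      have sv := hA.supp _ _ _ v2
      have g' := (h.left.key G h2 (al f7) (al sv.1)).1 g
      obtain ⟨cm, oc⟩ := h.cup_mid G hc (by omega) (by omega)
      have mi : D.Mid k2 p q r := ⟨h.left.al_mono h2 le_rfl (al f6), o, by linarith [i2.2.2]⟩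
      refine ⟨⟨f6, mi, (bool_ne_ne f5.symm sv.2.2).trans i3⟩, fun lam α hl =>
        ext _ _ _ _ (by omega) h2 hl f6 mi ?_⟩
      have := (hP _ α (h.adm G hl) _ _ _ v2).1
      rw [tl, tl, if_pos ⟨cm.1 mi, by omega, h2⟩, if_pos ⟨i2, by omega, h2⟩] at this
      have := hl.cup _ _ _ hc
      have := i4 lam α hl
      linarith
  have cI : ∀ k, k1 + 1 ≤ k → k ≤ k2 → ∀ r, χ k r ≠ 0 →
      ((D.finger s p q).Al k r ∧ D.key k2 r < D.key k2 s ∧ D.dir r = D.dir p) ∧
      ∀ lam α, D.Adm lam α → lam (k + 1) s ≤ lam (k + 1) r + α := by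
    have ext : ∀ k r lam α, k1 < k → k ≤ k2 → D.Adm lam α → (D.finger s p q).Al k r →
        D.key k2 r < D.key k2 s → lam k s ≤ lam k r + α → lam (k + 1) s ≤ lam (k + 1) r + α := by
      intro k r lam α h1 h2 hl a mi e
      have ap : D.Al k s := ⟨s1, by omega, by omega⟩
      have := hl.mono k r s (al a) ap ((h.left.key G h2 (al a) ap).2 mi)
      linarith
    have nm : ∀ r, D.key k2 r < D.key k2 s → ¬ D.Mid k2 p q r := fun r e mi => by
      linarith [mi.2.1]
    intro k hk
    induction k, hk using Int.leInduction with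
    | base =>
      intro _ r e
      rw [c0] at e
      simp only at e
      split_ifs at e with o
      swap
      · exact absurd rfl e
      have sv := hA.supp _ _ _ e
      refine ⟨⟨sv.1, o, bool_ne_ne sv.2.2 d1.symm⟩, fun lam α hl =>
        ext _ _ _ _ (by omega) (by omega) hl sv.1 o ?_⟩
      have := (hP _ α (h.adm G hl) _ _ _ e).1
      rw [tl, tl, if_pos ⟨⟨⟨q1, by omega, by omega⟩, o2, le_rfl⟩, by omega, by omega⟩,
        if_neg (fun e => nm r o e.1)] at this
      have := hl.cup _ _ _ h.cup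
      linarith
    | succ k hk ih =>
      intro h2 r e
      rw [cs k hk] at e
      rcases F2.add_ne e with e | e
      · obtain ⟨⟨i1, i2, i3⟩, i4⟩ := ih (by omega) r e
        have a := almono k r (by omega) (by omega) i1
        exact ⟨⟨a, i2, i3⟩, fun lam α hl => ext _ _ _ _ (by omega) h2 hl a i2 (i4 lam α hl)⟩
      split_ifs at e with hc
      swap
      · exact absurd rfl e
      obtain ⟨hc, o⟩ := hc
      generalize (D.J (r, false)).1 = a at hc e
      obtain ⟨v, v2, v1⟩ := F2.sum_ne e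
      obtain ⟨⟨i1, i2, i3⟩, i4⟩ := ih (by omega) v v1
      have hc' := (h.cup_iff G).2 ⟨hc, by omega⟩
      obtain ⟨f1, f2, f3, f4, f5, f6, f7, f8, f9⟩ := hc'.facts G'
      have sv := hA.supp _ _ _ v2
      obtain ⟨cm, oc⟩ := h.cup_mid G hc (by omega) (by omega)
      refine ⟨⟨f7, o, (bool_ne_ne f5 sv.2.2.symm).trans i3⟩, fun lam α hl =>
        ext _ _ _ _ (by omega) h2 hl f7 o ?_⟩
      have := (hP _ α (h.adm G hl) _ _ _ v2).1
      rw [tl, tl, if_neg (fun e => nm v i2 e.1),
        if_neg (fun e => nm a (by linarith) e.1)] at this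
      have := hl.cup _ _ _ hc
      have := i4 lam α hl
      linarith
  have H : InsH (d (k1 + 1)) ((D.finger s p q).Al (k1 + 1)) s p (m (k1 + 1)) (χ (k1 + 1)) :=
    ⟨n1, fun e => ((h.alIn G (by omega) _).1 e).2.1 rfl,
      fun e => ((h.alIn G (by omega) _).1 e).2.2 rfl,
      fun x y e => ⟨(hA.supp _ _ _ e).1, (hA.supp _ _ _ e).2.1⟩, by rw [hA.sq]; rfl,
      fun x e => (mI _ le_rfl (by omega) x e).1.1, fun x e => (cI _ le_rfl (by omega) x e).1.1,
      fun x => by
        by_contra e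
        have := (mI _ le_rfl (by omega) x (left_ne_zero_of_mul e)).1.2.1.2.1
        have := (cI _ le_rfl (by omega) x (right_ne_zero_of_mul e)).1.2.1
        linarith⟩
  have qq : d (k1 + 1) q q = 0 := by
    by_contra e
    exact hA.ne e rfl
  have ps := hA.pass k1 s q ((h.pass_iff G).2 (Or.inr ⟨rfl, rfl, rfl⟩))
  have cfg : InsCfg D (D.finger s p q) d k1 k2 s p m χ := by
    refine ⟨h.cap, h.left, l1, hA, rfl, rfl, by omega, by omega, fun k hk t => ?_,
      fun k h1 _ t => h.alIn G h1 t, fun k hk => h.quiet G hk,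
      fun k a c hk hc => (h.cup_iff G).2 ⟨hc, hk⟩, fun k a c hk hc => (h.cap_iff G).2 ⟨hc, hk⟩,
      fun k a c hc => (h.pass_iff G).2 (Or.inl hc),
      fun k r h1 h2 e => ?_, fun k r h1 h2 e => (cI k h1 h2 r e).1, fun k h1 h2 hq => ?_,
      fun k a c h1 h2 hc => ?_, p, q, h.cup,
      ⟨by rw [H.row_p]; simp [m0, n3], fun x y x1 x2 y1 y2 => ?_⟩,
      fun t e => ?_, fun t e => ?_⟩
    · rw [h.al G]
      refine ⟨fun e => e.1, fun e => ⟨e, fun e' => ?_, fun e' => ?_⟩⟩ <;> subst e' <;>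
        have := e.2 <;> omega
    · have := (mI k h1 h2 r e).1
      exact ⟨this.1, this.2.1.2.1, this.2.2⟩
    · have nc : ∀ a c, ¬ D.Cup k a c := fun a c hc => (hq a hc.1).1 hc.2.2.1
      rw [ms k h1, cs k h1]
      simp [nc]
    · obtain ⟨f1, f2, f3, f4, f5, f6, f7, f8, f9⟩ := hc.facts G
      rw [ms k h1, cs k h1]
      refine ⟨fun t ht => ?_, fun t ht => ?_, fun o => ?_, fun o => ?_⟩
      · simp only
        rw [if_neg (fun e => ht (hc.unique G e.1).1), add_zero]
      · simp only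
        rw [if_neg (fun e => ht (hc.unique G e.1).2), add_zero]
      · have : m k a = 0 := by
          by_contra e
          exact f8 (al (mI k h1 h2.le a e).1.1)
        simp only [hc.2.1]
        rw [if_pos ⟨hc, o⟩, this, zero_add]
      · have : χ k c = 0 := by
          by_contra e
          exact f9 (al (cI k h1 h2.le c e).1.1)
        simp only [f4]
        rw [if_pos ⟨hc, o⟩, this, zero_add]
    · have e := ps (Equiv.swap s q x) (Equiv.swap s q y)
      simp only [Equiv.swap_apply_self] at e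
      rw [← e, H.row_p]
      by_cases xs : x = s
      · subst xs
        rw [H.row_s, H.row_s]
        by_cases ys : y = x
        · simp [ys, m0, qq, n1.symm, n2, H.d0 (Or.inr H.As)]
        · simp [ys, m0, qq, y1, y2, n2, Equiv.swap_apply_of_ne_of_ne ys y2]
      · rw [InsH.row_g xs x1, InsH.row_g xs x1, Equiv.swap_apply_of_ne_of_ne xs x2]
        by_cases ys : y = s
        · simp [ys, m0, n1.symm, n2, n3, n3.symm, H.d0 (Or.inr H.As)]
          grind
        · simp [ys, m0, y1, y2, n2, Equiv.swap_apply_of_ne_of_ne ys y2]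
    · rw [H.row_p] at e
      by_cases tq : t = q
      · exact Or.inl tq
      by_cases ts : t = s
      · subst ts
        exact Or.inr ((h.left.key G (by omega) ⟨s1, by omega, by omega⟩
          ⟨p1, by omega, by omega⟩).2 o1)
      simp [m0, tq, ts] at e
    · by_cases tp : t = p
      · exact Or.inl tp
      by_cases ts : t = s
      · subst ts
        rw [H.row_s] at e
        simp [m0, qq, n2] at e
      rw [InsH.row_g ts tp] at e
      simp only [m0, c0, n3, n2, if_false, Pi.single_eq_same, zero_add, mul_one, add_zero] at e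
      split_ifs at e with o
      · exact absurd (F2.add_self _) e
      · rw [add_zero] at e
        have sv := hA.supp _ _ _ e
        have := (h.out G (al sv.1).1 (al sv.1).2.1 ts tp (hA.ne e)).resolve_left o
        exact Or.inr ((h.left.key G (by omega) (al sv.2.1) (al sv.1)).2 this)
  refine ⟨_, cfg.alg_ins G, fun lam α hl k g t e => ?_⟩
  have out : ∀ i r, k2 < i → D.tl k1 k2 s p q lam α i r = lam i r := fun i r hi => by
    rw [tl, if_neg (by omega), sub_zero]
  refine cfg.pos_ins G hl (fun k g t hk e => ?_) (fun g t e => ?_)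
    (fun r e => (mI k2 (by omega) le_rfl r e).2 lam α hl)
    (fun r e => (cI k2 (by omega) le_rfl r e).2 lam α hl) e
  · simpa only [out _ _ hk, out (k + 1) _ (by omega)] using hP _ α (h.adm G hl) k g t e
  · simpa only [out (k2 + 1) _ (by omega)] using (hP _ α (h.adm G hl) k2 g t e).2

end

theorem exists_sys (D : Diag ι) (G : D.Good) : ∃ d, D.Alg d ∧ D.Pos d := by
  refine induct (fun D => ∃ d, D.Alg d ∧ D.Pos d) (fun D h => ?_)
    (fun D G ⟨d, h1, h2⟩ => ⟨_, sys_of_flip G h1 h2⟩)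
    (fun D k s q G h ⟨d, h1, h2⟩ => ⟨_, h.sys_of_merge G h1 h2⟩)
    (fun D k1 k2 s p G h ⟨d, h1, h2⟩ => h.sys G h1 h2)
    (fun D k1 k2 s p q G h ⟨d, h1, h2⟩ => h.sys G h1 h2) D G
  refine ⟨0, ⟨by simp, fun k => ?_, by simp, by simp, ?_, ?_⟩, fun _ _ _ => by simp⟩
  · simp [P, Al, h]
  · intro k a c hc; have := hc.1; simp [h] at this
  · intro k a c hc; have := hc.1; simp [h] at this

end Diag

end Pool.Agent.Lib.MP_5a3ebe_gt.Ap
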