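import Pool.Agent.Lib.MP_5a3ebe_gt.ApTCA

/-! The total complex of a good diagram. -/

set_option linter.unusedSectionVars false

namespace Pool.Agent.Lib.MP_5a3ebe_gt.Ap

open Classical Matrix

variable {ι : Type} [Fintype ι] [DecidableEq ι]

namespace Diag

/-- The slice whose strands label the generators of kind `b` at position `i`. -/
noncomputable def pos (D : Diag ι) (b : Bool) (i : ℤ) : ℤ := if b then i else D.big i

@[simp] lemma pos_true (D : Diag ι) (i : ℤ) : D.pos true i = i := rfl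
@[simp] lemma pos_false (D : Diag ι) (i : ℤ) : D.pos false i = D.big i := rfl

/-- Generators of the total complex. -/
def Gen (D : Diag ι) : Type := {x : ℤ × Bool × ι // D.Al (D.pos x.2.1 x.1) x.2.2}

variable {D : Diag ι}

lemma Gen.touch (g : D.Gen) : D.Touch g.1.1 g.1.2.2 := by
  obtain ⟨⟨i, b, s⟩, h1, h2, h3⟩ := g
  have := D.big_cases i
  cases b
  · simp only [pos_false] at h2 h3
    exact ⟨h1, by simp only; omega, by simp only; omega⟩
  · simp only [pos_true] at h2 h3
    exact ⟨h1, h2, h3.le⟩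

instance : Finite D.Gen := by
  have : Set.Finite {x : ℤ × Bool × ι | D.Al (D.pos x.2.1 x.1) x.2.2} := by
    refine (Set.finite_iUnion (fun s : ι => (Set.finite_Icc (D.b s) (D.e s)).prod
      (Set.finite_univ (α := Bool × ι)))).subset fun x hx => ?_
    have := Gen.touch (D := D) ⟨x, hx⟩
    exact Set.mem_iUnion.2 ⟨x.2.2, ⟨this.2.1, this.2.2⟩, trivial⟩
  exact this.to_subtype

noncomputable instance : Fintype D.Gen := Fintype.ofFinite _

noncomputable instance : DecidableEq D.Gen := Classical.decEq _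

lemma Gen.ext {g g' : D.Gen} (h1 : g.1.1 = g'.1.1) (h2 : g.1.2.1 = g'.1.2.1)
    (h3 : g.1.2.2 = g'.1.2.2) : g = g' :=
  Subtype.ext (Prod.ext h1 (Prod.ext h2 h3))

/-- The block from kind `b` to kind `b'` with shift `j`. -/
noncomputable def blk (D : Diag ι) (b b' : Bool) (j : ℤ) (M : ℤ → Matrix ι ι F2) :
    Matrix D.Gen D.Gen F2 := Matrix.of fun g g' =>
  if g.1.2.1 = b ∧ g'.1.2.1 = b' ∧ g'.1.1 = g.1.1 + j then M g.1.1 g.1.2.2 g'.1.2.2 else 0

lemma blk_apply (b b' : Bool) (j : ℤ) (M : ℤ → Matrix ι ι F2) (g g' : D.Gen) :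
    D.blk b b' j M g g' =
      if g.1.2.1 = b ∧ g'.1.2.1 = b' ∧ g'.1.1 = g.1.1 + j then M g.1.1 g.1.2.2 g'.1.2.2 else 0 :=
  rfl

lemma blk_ne {b b' : Bool} {j : ℤ} {M : ℤ → Matrix ι ι F2} {g g' : D.Gen}
    (h : D.blk b b' j M g g' ≠ 0) :
    g.1.2.1 = b ∧ g'.1.2.1 = b' ∧ g'.1.1 = g.1.1 + j ∧ M g.1.1 g.1.2.2 g'.1.2.2 ≠ 0 := by
  rw [blk_apply] at h
  split_ifs at h with e
  · exact ⟨e.1, e.2.1, e.2.2, h⟩
  · exact absurd rfl h

lemma blk_add (b b' : Bool) (j : ℤ) (M N : ℤ → Matrix ι ι F2) :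
    D.blk b b' j (fun i => M i + N i) = D.blk b b' j M + D.blk b b' j N := by
  ext g g'
  simp only [Matrix.add_apply, blk_apply]
  split_ifs <;> simp

lemma blk_zero (b b' : Bool) (j : ℤ) : D.blk b b' j (fun _ => 0) = 0 := by
  ext g g'
  simp [blk_apply]

lemma blk_congr (b b' : Bool) (j : ℤ) {M N : ℤ → Matrix ι ι F2} (h : ∀ i, M i = N i) :
    D.blk b b' j M = D.blk b b' j N := by
  rw [funext h]

lemma blk_mul_ne {b b' c c' : Bool} (h : b' ≠ c) (j j' : ℤ) (M N : ℤ → Matrix ι ι F2) :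
    D.blk b b' j M * D.blk c c' j' N = 0 := by
  ext g g'
  rw [mul_apply]
  refine Finset.sum_eq_zero fun x _ => ?_
  by_contra e
  exact h ((blk_ne (left_ne_zero_of_mul e)).2.1.symm.trans (blk_ne (right_ne_zero_of_mul e)).1)

lemma blk_mul (b b' c' : Bool) (j j' : ℤ) {M : ℤ → Matrix ι ι F2} (N : ℤ → Matrix ι ι F2)
    (hM : ∀ i x y, M i x y ≠ 0 → D.Al (D.pos b' (i + j)) y) :
    D.blk b b' j M * D.blk b' c' j' N = D.blk b c' (j + j') fun i => M i * N (i + j) := by
  ext g g'
  rw [mul_apply, blk_apply]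
  split_ifs with e
  · obtain ⟨e1, e2, e3⟩ := e
    rw [mul_apply]
    refine Finset.sum_bij_ne_zero (fun x _ _ => x.1.2.2) (fun _ _ _ => Finset.mem_univ _)
      (fun x _ hx y _ hy hxy => ?_) (fun y _ hy => ?_) (fun x _ hx => ?_)
    · have a := blk_ne (left_ne_zero_of_mul hx)
      have a' := blk_ne (left_ne_zero_of_mul hy)
      exact Gen.ext (a.2.2.1.trans a'.2.2.1.symm) (a.2.1.trans a'.2.1.symm) hxy
    · refine ⟨⟨(g.1.1 + j, b', y), hM _ _ _ (left_ne_zero_of_mul hy)⟩, Finset.mem_univ _, ?_, rfl⟩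
      rw [blk_apply, blk_apply, if_pos ⟨e1, rfl, rfl⟩, if_pos ⟨rfl, e2, by simp only; omega⟩]
      exact hy
    · have a := blk_ne (left_ne_zero_of_mul hx)
      have a' := blk_ne (right_ne_zero_of_mul hx)
      rw [blk_apply, blk_apply, if_pos ⟨a.1, a.2.1, a.2.2.1⟩, if_pos ⟨a'.1, a'.2.1, a'.2.2.1⟩,
        a.2.2.1]
  · refine Finset.sum_eq_zero fun x _ => ?_
    by_contra h
    have a := blk_ne (left_ne_zero_of_mul h)
    have a' := blk_ne (right_ne_zero_of_mul h)
    exact e ⟨a.1, a'.2.1, by omega⟩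

lemma blk_one : D.blk false false 0 (fun i => D.P (D.big i)) + D.blk true true 0 D.P = 1 := by
  ext g g'
  simp only [Matrix.add_apply, blk_apply, P_apply, add_zero]
  by_cases h : g = g'
  · subst h
    rw [one_apply_eq]
    obtain ⟨⟨i, b, s⟩, hg⟩ := g
    cases b
    · simp only [pos_false] at hg
      simp [hg]
    · simp only [pos_true] at hg
      simp [hg]
  · rw [one_apply_ne h]
    have n : ∀ b, ¬ ((g.1.2.1 = b ∧ g'.1.2.1 = b ∧ g'.1.1 = g.1.1) ∧ g.1.2.2 = g'.1.2.2) :=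
      fun b e => h (Gen.ext e.1.2.2.symm (e.1.1.trans e.1.2.1.symm) e.2)
    have n1 := n true
    have n2 := n false
    split_ifs <;> simp_all

lemma step_of {T : TC ι D.Gen} {e : ℤ} {g g' : D.Gen} (t : ι) (e1 e2 : ℤ)
    (h0 : e1 + e2 + (if T.sl g' then 1 else 0) = e + (if T.sl g then 1 else 0))
    (h1 : D.Le (T.w g) e1 (T.st g) t) (h2 : D.Le (T.w g') e2 t (T.st g'))
    (h3 : T.w g' = T.w g ∨ (T.w g' = T.w g + 1 ∧ D.Al (T.w g) t) ∨
      (T.w g = T.w g' + 1 ∧ D.Al (T.w g') t)) : T.Step D e g g' :=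
  ⟨t, e1, e2, h0, h1, h2, h3⟩

lemma mul_ne {M N : Matrix ι ι F2} {x y : ι} (h : (M * N) x y ≠ 0) :
    ∃ t, M x t ≠ 0 ∧ N t y ≠ 0 := by
  rw [mul_apply] at h
  exact F2.sum_ne h

end Diag

theorem Diag.exists_tc {ι : Type} [Fintype ι] [DecidableEq ι] (D : Diag ι) (G : D.Good) :
    ∃ (X : Type) (_ : Fintype X) (_ : DecidableEq X) (T : TC ι X), T.Spec D := by
  obtain ⟨d, hA, hP⟩ := D.exists_sys G
  choose iR pR kR hR using Diag.retr_right G hA hP
  choose iL pL kL hL using Diag.retr_left G hA hP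
  have hL' : ∀ i, D.Retr d i (i + -1) (D.big i) (iL (i + -1)) (pL (i + -1)) (kL (i + -1)) := by
    intro i
    have := hL (i + -1)
    rwa [neg_add_cancel_right] at this
  have lev : ∀ k x y, d k x y ≠ 0 → D.Le k (-1) x y ∧ D.Le (k + 1) (-1) x y := by
    intro k x y h
    refine ⟨fun lam α hl => ?_, fun lam α hl => ?_⟩
    · have := (hP lam α hl k x y h).1
      push_cast
      linarith
    · have := (hP lam α hl k x y h).2
      push_cast
      linarith
  have levB : ∀ i x y, d (D.big i) x y ≠ 0 → D.Le i (-1) x y := by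
    intro i x y h
    rcases D.big_cases i with e | e
    · have := (lev _ x y h).1
      rwa [e] at this
    · have := (lev _ x y h).2
      rwa [e] at this
  -- supports
  have cB : ∀ i x y, d (D.big i) x y ≠ 0 → D.Al (D.pos false (i + 0)) y := fun i x y h => by
    simpa using (hA.supp _ _ _ h).2.1
  have cd : ∀ i x y, d i x y ≠ 0 → D.Al (D.pos true (i + 0)) y := fun i x y h => by
    simpa using (hA.supp _ _ _ h).2.1
  have ciR : ∀ i x y, iR i x y ≠ 0 → D.Al (D.pos false (i + 0)) y := fun i x y h => by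
    simpa using ((hR i).incS x y h).2.1
  have ciL : ∀ i x y, iL i x y ≠ 0 → D.Al (D.pos false (i + 1)) y := fun i x y h => by
    simpa using ((hL i).incS x y h).2.1
  have cpR : ∀ i x y, pR i x y ≠ 0 → D.Al (D.pos true (i + 0)) y := fun i x y h => by
    simpa using ((hR i).projS x y h).2.1
  have cpL : ∀ i x y, pL (i + -1) x y ≠ 0 → D.Al (D.pos true (i + -1)) y := fun i x y h => by
    simpa using ((hL' i).projS x y h).2.1
  have ckR : ∀ i x y, kR i x y ≠ 0 → D.Al (D.pos false (i + 0)) y := fun i x y h => by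
    simpa using ((hR i).kapS x y h).2.1
  have ckL : ∀ i x y, kL (i + -1) x y ≠ 0 → D.Al (D.pos false (i + 0)) y := fun i x y h => by
    simpa using ((hL' i).kapS x y h).2.1
  have tf : (true : Bool) ≠ false := by decide
  have ft : (false : Bool) ≠ true := by decide
  let T : TC ι D.Gen :=
    { w := fun g => g.1.1
      sl := fun g => g.1.2.1
      st := fun g => g.1.2.2
      d := D.blk false false 0 (fun i => d (D.big i)) + D.blk true true 0 d +
        D.blk true false 0 iR + D.blk true false 1 iL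
      h := fun ε => if ε then D.blk false true 0 pR + D.blk false false 0 kR else
        D.blk false true (-1) (fun i => pL (i + -1)) + D.blk false false 0 (fun i => kL (i + -1))
      ρ := fun ε => if ε then
          D.blk false false 1 (fun i => pR i * iL i) +
            D.blk true true 1 (fun i => iL i * pR (i + 1)) +
            D.blk true false 1 (fun i => iL i * kR (i + 1))
        else D.blk false false (-1) (fun i => pL (i + -1) * iR (i + -1)) +
            D.blk true true (-1) (fun i => iR i * pL (i + -1)) +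
            D.blk true false 0 (fun i => iR i * kL (i + -1)) }
  have two : ∀ M : Matrix D.Gen D.Gen F2, M + M = 0 := mat_add_self
  refine ⟨D.Gen, inferInstance, inferInstance, T, ?_⟩
  refine ⟨Diag.Gen.touch, fun g g' => Diag.Gen.ext, ?_, ?_, ?_, ?_, ?_, ?_, ?_, ?_, ?_⟩
  · rintro ⟨⟨i, b, s⟩, hg⟩ (rfl : b = true)
    exact hg
  · intro k s h
    exact ⟨⟨(k, true, s), h⟩, rfl, rfl, rfl⟩
  · intro k s q h
    exact ⟨⟨(k + 1, false, s), by simpa [q.big] using q.al.2 h⟩, rfl, rfl, rfl⟩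
  · simp only [T, mul_add, add_mul, Diag.blk_mul_ne tf, Diag.blk_mul_ne ft,
      Diag.blk_mul _ _ _ _ _ _ cB, Diag.blk_mul _ _ _ _ _ _ cd, Diag.blk_mul _ _ _ _ _ _ ciR,
      Diag.blk_mul _ _ _ _ _ _ ciL, add_zero, zero_add, hA.sq, (hR _).si, (hL _).si]
    rw [← Diag.blk_one]
    linear_combination (norm := abel1) two (D.blk true false 0 fun i => iR i * d (D.big i)) +
      two (D.blk true false 1 fun i => iL i * d (D.big (i + 1)))
  · intro ε
    cases ε
    · have e1 : D.blk false false 0 (fun i => pL (i + -1) * iL (i + -1)) +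
          D.blk false false 0 (fun i => D.P (D.big i)) =
          D.blk false false 0 (fun i => d (D.big i) * kL (i + -1)) +
          D.blk false false 0 (fun i => kL (i + -1) * d (D.big i)) := by
        rw [← Diag.blk_add, ← Diag.blk_add]
        exact Diag.blk_congr _ _ _ fun i => (hL' i).pi
      simp only [T, mul_add, add_mul, Diag.blk_mul_ne tf, Diag.blk_mul_ne ft, Bool.false_eq_true,
        if_false, Diag.blk_mul _ _ _ _ _ _ cB,
        Diag.blk_mul _ _ _ _ _ _ ciR, Diag.blk_mul _ _ _ _ _ _ ciL, Diag.blk_mul _ _ _ _ _ _ cpL,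
        Diag.blk_mul _ _ _ _ _ _ ckL, add_zero, zero_add, (hL' _).bp, add_neg_cancel_right,
        add_neg_cancel, neg_add_cancel, (hL _).ip, (hL _).ik, Diag.blk_zero]
      rw [← Diag.blk_one]
      linear_combination (norm := abel1) two (D.blk false true (-1) fun i => pL (i + -1) * d (i + -1)) -
        e1 + two (D.blk false false 0 (fun i => pL (i + -1) * iL (i + -1)))
    · have e1 : D.blk false false 0 (fun i => pR i * iR i) +
          D.blk false false 0 (fun i => D.P (D.big i)) =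
          D.blk false false 0 (fun i => d (D.big i) * kR i) +
          D.blk false false 0 (fun i => kR i * d (D.big i)) := by
        rw [← Diag.blk_add, ← Diag.blk_add]
        exact Diag.blk_congr _ _ _ fun i => (hR i).pi
      simp only [T, mul_add, add_mul, Diag.blk_mul_ne tf, Diag.blk_mul_ne ft, if_true,
        Diag.blk_mul _ _ _ _ _ _ cB,
        Diag.blk_mul _ _ _ _ _ _ ciR, Diag.blk_mul _ _ _ _ _ _ ciL, Diag.blk_mul _ _ _ _ _ _ cpR,
        Diag.blk_mul _ _ _ _ _ _ ckR, add_zero, zero_add, (hR _).bp, (hR _).ip, (hR _).ik,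
        Diag.blk_zero]
      rw [← Diag.blk_one]
      linear_combination (norm := abel1) two (D.blk false true 0 fun i => pR i * d i) -
        e1 + two (D.blk false false 0 (fun i => pR i * iR i))
  · intro g g' h
    simp only [T, Matrix.add_apply] at h
    rcases F2.add_ne h with h | h
    rcases F2.add_ne h with h | h
    rcases F2.add_ne h with h | h
    · obtain ⟨h1, h2, h3, h4⟩ := Diag.blk_ne h
      rw [add_zero] at h3
      refine ⟨Diag.step_of (T.st g) 0 (-1) (by simp [T, h1, h2]) (Diag.Le.rfl0 _ _) ?_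
        (Or.inl h3), ?_, Or.inl ⟨h3, h2.trans h1.symm⟩⟩
      · simp only [T, h3]
        exact levB _ _ _ h4
      · simpa [T, h1, h2] using (hA.supp _ _ _ h4).2.2.symm
    · obtain ⟨h1, h2, h3, h4⟩ := Diag.blk_ne h
      rw [add_zero] at h3
      refine ⟨Diag.step_of (T.st g) 0 (-1) (by simp [T, h1, h2]) (Diag.Le.rfl0 _ _) ?_
        (Or.inl h3), ?_, Or.inl ⟨h3, h2.trans h1.symm⟩⟩
      · simp only [T, h3]
        exact (lev _ _ _ h4).1
      · simpa [T, h1, h2] using (hA.supp _ _ _ h4).2.2.symm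
    · obtain ⟨h1, h2, h3, h4⟩ := Diag.blk_ne h
      rw [add_zero] at h3
      obtain ⟨a1, a2, a3, a4⟩ := (hR _).incS _ _ h4
      refine ⟨Diag.step_of (T.st g) 0 0 (by simp [T, h1, h2]) (Diag.Le.rfl0 _ _) ?_
        (Or.inl h3), ?_, Or.inr ⟨h1, h2, Or.inl h3⟩⟩
      · simp only [T, h3]
        exact a4
      · simp [T, h1, h2, a3]
    · obtain ⟨h1, h2, h3, h4⟩ := Diag.blk_ne h
      obtain ⟨a1, a2, a3, a4⟩ := (hL _).incS _ _ h4
      refine ⟨Diag.step_of (T.st g) 0 0 (by simp [T, h1, h2]) (Diag.Le.rfl0 _ _) ?_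
        (Or.inr (Or.inl ⟨h3, a1⟩)), ?_, Or.inr ⟨h1, h2, Or.inr h3⟩⟩
      · simp only [T, h3]
        exact a4
      · simp [T, h1, h2, a3]
  · intro ε g g' h
    cases ε
    · simp only [T, Bool.false_eq_true, if_false, Matrix.add_apply] at h
      rcases F2.add_ne h with h | h
      · obtain ⟨h1, h2, h3, h4⟩ := Diag.blk_ne h
        obtain ⟨a1, a2, a3⟩ := (hL' _).projS _ _ h4
        refine ⟨Diag.step_of (T.st g') 0 0 (by simp [T, h1, h2]) a3 (Diag.Le.rfl0 _ _)
          (Or.inr (Or.inr ⟨by simp only [T]; omega, ?_⟩)), h1, ?_⟩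
        · simp only [T, h3]
          exact a2
        · simp [T, TC.v, h2, h3]
      · obtain ⟨h1, h2, h3, h4⟩ := Diag.blk_ne h
        rw [add_zero] at h3
        obtain ⟨a1, a2, a3⟩ := (hL' _).kapS _ _ h4
        refine ⟨Diag.step_of (T.st g') 1 0 (by simp [T, h1, h2]) a3 (Diag.Le.rfl0 _ _)
          (Or.inl h3), h1, ?_⟩
        simp [T, TC.v, h2, h3]
    · simp only [T, if_true, Matrix.add_apply] at h
      rcases F2.add_ne h with h | h
      · obtain ⟨h1, h2, h3, h4⟩ := Diag.blk_ne h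
        rw [add_zero] at h3
        obtain ⟨a1, a2, a3⟩ := (hR _).projS _ _ h4
        exact ⟨Diag.step_of (T.st g') 0 0 (by simp [T, h1, h2]) a3 (Diag.Le.rfl0 _ _)
          (Or.inl h3), h1, h3⟩
      · obtain ⟨h1, h2, h3, h4⟩ := Diag.blk_ne h
        rw [add_zero] at h3
        obtain ⟨a1, a2, a3⟩ := (hR _).kapS _ _ h4
        exact ⟨Diag.step_of (T.st g') 1 0 (by simp [T, h1, h2]) a3 (Diag.Le.rfl0 _ _)
          (Or.inl h3), h1, h3⟩
  · intro ε g g' h
    cases ε
    · simp only [T, Bool.false_eq_true, if_false, Matrix.add_apply] at h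
      rcases F2.add_ne h with h | h
      rcases F2.add_ne h with h | h
      · obtain ⟨h1, h2, h3, h4⟩ := Diag.blk_ne h
        obtain ⟨t, t1, t2⟩ := Diag.mul_ne h4
        obtain ⟨a1, a2, a3⟩ := (hL' _).projS _ _ t1
        obtain ⟨b1, b2, b3, b4⟩ := (hR _).incS _ _ t2
        refine ⟨Diag.step_of t 0 0 (by simp [T, h1, h2]) a3 ?_
          (Or.inr (Or.inr ⟨by simp only [T]; omega, ?_⟩)), ?_⟩
        · simp only [T, h3]
          exact b4
        · simp only [T, h3]
          exact a2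
        · simp [T, TC.v, h1, h2, h3]
      · obtain ⟨h1, h2, h3, h4⟩ := Diag.blk_ne h
        obtain ⟨t, t1, t2⟩ := Diag.mul_ne h4
        obtain ⟨a1, a2, a3⟩ := (hL' _).projS _ _ t2
        obtain ⟨b1, b2, b3, b4⟩ := (hR _).incS _ _ t1
        refine ⟨Diag.step_of (T.st g') (0 + 0) 0 (by simp [T, h1, h2]) (b4.trans a3)
          (Diag.Le.rfl0 _ _) (Or.inr (Or.inr ⟨by simp only [T]; omega, ?_⟩)), ?_⟩
        · simp only [T, h3]
          exact a2
        · simp [T, TC.v, h1, h2, h3]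
      · obtain ⟨h1, h2, h3, h4⟩ := Diag.blk_ne h
        rw [add_zero] at h3
        obtain ⟨t, t1, t2⟩ := Diag.mul_ne h4
        obtain ⟨a1, a2, a3⟩ := (hL' _).kapS _ _ t2
        obtain ⟨b1, b2, b3, b4⟩ := (hR _).incS _ _ t1
        refine ⟨Diag.step_of (T.st g') (0 + 1) 0 (by simp [T, h1, h2]) (b4.trans a3)
          (Diag.Le.rfl0 _ _) (Or.inl h3), ?_⟩
        simp [T, TC.v, h1, h2, h3]
    · simp only [T, if_true, Matrix.add_apply] at h
      rcases F2.add_ne h with h | h
      rcases F2.add_ne h with h | h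
      · obtain ⟨h1, h2, h3, h4⟩ := Diag.blk_ne h
        obtain ⟨t, t1, t2⟩ := Diag.mul_ne h4
        obtain ⟨a1, a2, a3⟩ := (hR _).projS _ _ t1
        obtain ⟨b1, b2, b3, b4⟩ := (hL _).incS _ _ t2
        refine ⟨Diag.step_of t 0 0 (by simp [T, h1, h2]) a3 ?_ (Or.inr (Or.inl ⟨h3, a2⟩)), h3⟩
        simp only [T, h3]
        exact b4
      · obtain ⟨h1, h2, h3, h4⟩ := Diag.blk_ne h
        obtain ⟨t, t1, t2⟩ := Diag.mul_ne h4
        obtain ⟨a1, a2, a3⟩ := (hR _).projS _ _ t2
        obtain ⟨b1, b2, b3, b4⟩ := (hL _).incS _ _ t1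
        refine ⟨Diag.step_of (T.st g) 0 (0 + 0) (by simp [T, h1, h2]) (Diag.Le.rfl0 _ _) ?_
          (Or.inr (Or.inl ⟨h3, b1⟩)), h3⟩
        simp only [T, h3]
        exact b4.trans a3
      · obtain ⟨h1, h2, h3, h4⟩ := Diag.blk_ne h
        obtain ⟨t, t1, t2⟩ := Diag.mul_ne h4
        obtain ⟨a1, a2, a3⟩ := (hR _).kapS _ _ t2
        obtain ⟨b1, b2, b3, b4⟩ := (hL _).incS _ _ t1
        refine ⟨Diag.step_of (T.st g) 0 (0 + 1) (by simp [T, h1, h2]) (Diag.Le.rfl0 _ _) ?_
          (Or.inr (Or.inl ⟨h3, b1⟩)), h3⟩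
        simp only [T, h3]
        exact b4.trans a3
  · rintro ⟨⟨i, b, s⟩, hg⟩ ⟨⟨i', b', s'⟩, hg'⟩ q (rfl : b = true) (rfl : b' = false)
      (rfl : i' = i + 1)
    have q' : D.Quiet (i + 1 - 1) := by
      rw [add_sub_cancel_right]
      exact q
    obtain ⟨q1, q2⟩ := (hL i).quiet q'
    simp only [Diag.pos_true] at hg
    constructor
    · simp [T, Diag.blk_apply, q1, Diag.P_apply, hg]
    · by_cases e : s = s'
      · subst e
        simp [T, Diag.blk_apply, q2, Diag.P_apply, hg]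
      · simp [T, Diag.blk_apply, q2, Diag.P_apply, e, Ne.symm e]

end Pool.Agent.Lib.MP_5a3ebe_gt.Ap
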