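import Pool.Agent.Lib.MP_5a3ebe_gt.ApCore

/-! Retractions of the complex of a wall onto the complexes of the two adjacent slices. -/

set_option linter.unusedSectionVars false

namespace Pool.Agent.Lib.MP_5a3ebe_gt.Ap

open Classical Matrix

/-- The ring identities behind the cancellation of a pair. -/
lemma ring_el {R : Type} [Ring R] (h2 : ∀ x : R, x + x = 0) (B K U V Q E : R)
    (hE : E = Q + U + V) (BB : B * B = Q) (QB : Q * B = B) (BQ : B * Q = B) (KK : K * K = 0)
    (QK : Q * K = K) (KQ : K * Q = K) (EK : E * K = 0) (KE : K * E = 0) (EE : E * E = E)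
    (KBU : K * B * U = 0) (KBV : K * B * V = V) (UBK : U * B * K = U) (VBK : V * B * K = 0) :
    (E * (B + B * K * B) * E) * (E * (1 + B * K)) = (E * (1 + B * K)) * B ∧
    B * ((1 + K * B) * E) = ((1 + K * B) * E) * (E * (B + B * K * B) * E) ∧
    (E * (1 + B * K)) * ((1 + K * B) * E) = E ∧
    ((1 + K * B) * E) * (E * (1 + B * K)) + Q = B * K + K * B ∧
    (E * (1 + B * K)) * K = 0 := by
  have a1 : (B + B * K * B) * E * (1 + B * K) = B + B * K * B + K := by
    have e1 : (B + B * K * B) * E = B + B * K * B + B * U := by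
      rw [hE]
      calc (B + B * K * B) * (Q + U + V) = B * Q + B * K * (B * Q) + B * U + B * (K * B * U) +
            B * V + B * (K * B * V) := by noncomm_ring
        _ = B + B * K * B + B * U + (B * V + B * V) := by
            rw [BQ, KBU, KBV]; noncomm_ring
        _ = _ := by rw [h2, add_zero]
    rw [e1]
    calc (B + B * K * B + B * U) * (1 + B * K) = B + B * K * B + B * U + B * B * K +
          B * K * (B * B) * K + B * (U * B * K) := by noncomm_ring
      _ = B + B * K * B + K + B * (K * K) + (B * U + B * U) := by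
          rw [BB, UBK, QK, mul_assoc (B * K) Q K, QK]; noncomm_ring
      _ = _ := by rw [h2, KK, mul_zero, add_zero, add_zero]
  have a2 : (1 + K * B) * E * (B + B * K * B) = B + B * K * B + K := by
    have e1 : E * (B + B * K * B) = B + B * K * B + V * B := by
      rw [hE]
      calc (Q + U + V) * (B + B * K * B) = Q * B + (Q * B) * K * B + U * B + (U * B * K) * B +
            V * B + (V * B * K) * B := by noncomm_ring
        _ = B + B * K * B + V * B + (U * B + U * B) := by
            rw [QB, UBK, VBK]; noncomm_ring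
        _ = _ := by rw [h2, add_zero]
    rw [mul_assoc, e1]
    calc (1 + K * B) * (B + B * K * B + V * B) = B + B * K * B + V * B + K * (B * B) +
          K * ((B * B) * K) * B + (K * B * V) * B := by noncomm_ring
      _ = B + B * K * B + K + (K * K) * B + (V * B + V * B) := by
          rw [BB, KBV, QK, KQ]; noncomm_ring
      _ = _ := by rw [h2, KK, zero_mul, add_zero, add_zero]
  refine ⟨?_, ?_, ?_, ?_, ?_⟩
  · calc (E * (B + B * K * B) * E) * (E * (1 + B * K))
        = E * ((B + B * K * B) * (E * E) * (1 + B * K)) := by noncomm_ring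
      _ = E * (1 + B * K) * B + E * K := by rw [EE, a1]; noncomm_ring
      _ = _ := by rw [EK, add_zero]
  · symm
    calc ((1 + K * B) * E) * (E * (B + B * K * B) * E)
        = ((1 + K * B) * (E * E) * (B + B * K * B)) * E := by noncomm_ring
      _ = B * ((1 + K * B) * E) + K * E := by rw [EE, a2]; noncomm_ring
      _ = _ := by rw [KE, add_zero]
  · calc (E * (1 + B * K)) * ((1 + K * B) * E)
        = E * E + (E * K) * B * E + E * B * (K * E) + E * B * (K * K) * B * E := by noncomm_ring
      _ = _ := by rw [EE, EK, KE, KK]; noncomm_ring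
  · calc ((1 + K * B) * E) * (E * (1 + B * K)) + Q
        = (1 + K * B) * (E * E) * (1 + B * K) + Q := by noncomm_ring
      _ = (Q + K * (B * Q) + U + K * B * U + V + K * B * V) * (1 + B * K) + Q := by
          rw [EE, hE]; noncomm_ring
      _ = (Q + K * B + U) * (1 + B * K) + Q := by
          rw [BQ, KBU, KBV, add_zero, add_assoc (Q + K * B + U), h2, add_zero]
      _ = (Q * B) * K + K * B + K * ((B * B) * K) + (U + U * B * K) + (Q + Q) := by noncomm_ring
      _ = _ := by rw [QB, BB, QK, KK, UBK, h2, h2]; simp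
  · calc (E * (1 + B * K)) * K = E * K + E * B * (K * K) := by noncomm_ring
      _ = _ := by rw [EK, KK]; noncomm_ring

variable {ι : Type} [Fintype ι] [DecidableEq ι]

lemma mat_add_self {κ : Type} (M : Matrix κ κ F2) : M + M = 0 := by
  ext x y
  exact F2.add_self _

namespace Diag

variable {D : Diag ι} {d : ℤ → Matrix ι ι F2}

lemma Le.rfl0 (i : ℤ) (s : ι) : D.Le i 0 s s := fun _ _ _ => by simp

lemma Le.trans {i e e' : ℤ} {s t u : ι} (h : D.Le i e s t) (h' : D.Le i e' t u) :
    D.Le i (e + e') s u := fun lam α hl => by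
  have := h lam α hl
  have := h' lam α hl
  push_cast
  linarith

lemma P_apply (k : ℤ) (x y : ι) : D.P k x y = if D.Al k x ∧ x = y then 1 else 0 := by
  unfold P
  by_cases h : x = y
  · subst h; simp
  · simp [h]

lemma P_mul (hA : D.Alg d) (k : ℤ) : D.P k * d k = d k := by
  ext x y
  rw [P, diagonal_mul]
  split_ifs with h
  · simp
  · rw [zero_mul]
    by_contra e
    exact h (hA.supp _ _ _ (Ne.symm e)).1

lemma mul_P (hA : D.Alg d) (k : ℤ) : d k * D.P k = d k := by
  ext x y
  rw [P, mul_diagonal]
  split_ifs with h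
  · simp
  · rw [mul_zero]
    by_contra e
    exact h (hA.supp _ _ _ (Ne.symm e)).2.1

lemma P_P (k : ℤ) : D.P k * D.P k = D.P k := by
  rw [P, diagonal_mul_diagonal]
  congr 1
  funext x
  split_ifs <;> simp

/-- A retraction, at the wall `i`, of the complex of slice `w` onto that of slice `k`. -/
structure Retr (D : Diag ι) (d : ℤ → Matrix ι ι F2) (i k w : ℤ) (inc proj kap : Matrix ι ι F2) :
    Prop where
  si : d k * inc = inc * d w
  bp : d w * proj = proj * d k
  ip : inc * proj = D.P k
  pi : proj * inc + D.P w = d w * kap + kap * d w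
  ik : inc * kap = 0
  incS : ∀ x y, inc x y ≠ 0 → D.Al k x ∧ D.Al w y ∧ D.dir y = D.dir x ∧ D.Le i 0 x y
  projS : ∀ x y, proj x y ≠ 0 → D.Al w x ∧ D.Al k y ∧ D.Le i 0 x y
  kapS : ∀ x y, kap x y ≠ 0 → D.Al w x ∧ D.Al w y ∧ D.Le i 1 x y
  quiet : D.Quiet (i - 1) → inc = D.P k ∧ proj = D.P k

lemma retr_perm (hA : D.Alg d) {i k w : ℤ} (σ : ι ≃ ι)
    (hB : ∀ x y, d w x y = d k (σ x) (σ y))
    (hl : ∀ x, D.Al w x → D.dir (σ x) = D.dir x ∧ D.Le i 0 x (σ x) ∧ D.Le i 0 (σ x) x)
    (hq : D.Quiet (i - 1) → σ = Equiv.refl ι) :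
    ∃ inc proj kap, D.Retr d i k w inc proj kap := by
  have eB : d w = (d k).submatrix σ σ := by ext x y; exact hB x y
  have eP : D.P w = (D.P k).submatrix σ σ := by
    rw [← hA.sq w, eB, submatrix_mul_equiv, hA.sq]
  have al : ∀ x, D.Al k (σ x) → D.Al w x := fun x h => by
    have := congrFun (congrFun eP x) x
    rw [submatrix_apply, P_apply, P_apply, if_pos (⟨h, rfl⟩ : D.Al k (σ x) ∧ σ x = σ x)] at this
    by_contra e
    simp [e] at this
  refine ⟨(D.P k).submatrix id σ, (D.P k).submatrix σ id, 0, ?_, ?_, ?_, ?_, ?_, ?_, ?_, ?_, ?_⟩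
  · rw [eB, submatrix_mul_equiv, P_mul hA]
    have := submatrix_mul_equiv (d k) (D.P k) id (Equiv.refl ι) σ
    rw [mul_P hA] at this
    exact this
  · rw [eB, submatrix_mul_equiv, mul_P hA]
    have := submatrix_mul_equiv (D.P k) (d k) σ (Equiv.refl ι) id
    rw [P_mul hA] at this
    exact this.symm
  · rw [submatrix_mul_equiv, P_P]; rfl
  · have := submatrix_mul_equiv (D.P k) (D.P k) σ (Equiv.refl ι) σ
    rw [P_P] at this
    rw [eP, ← this, mul_zero, zero_mul, add_zero]
    exact mat_add_self _
  · exact mul_zero _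
  · intro x y h
    rw [submatrix_apply, P_apply] at h
    split_ifs at h with e
    · obtain ⟨e1, e2⟩ := e
      simp only [id] at e1 e2
      subst e2
      have a := al y e1
      exact ⟨e1, a, (hl y a).1.symm, (hl y a).2.2⟩
    · exact absurd rfl h
  · intro x y h
    rw [submatrix_apply, P_apply] at h
    split_ifs at h with e
    · obtain ⟨e1, e2⟩ := e
      simp only [id] at e2
      subst e2
      have a := al x e1
      exact ⟨a, e1, (hl x a).2.1⟩
    · exact absurd rfl h
  · intro x y h
    exact absurd rfl h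
  · intro h
    rw [hq h]
    exact ⟨rfl, rfl⟩

lemma retr_el (hA : D.Alg d) (hP : D.Pos d) {i k w : ℤ} {u v : ι} (hw : w = i ∨ w + 1 = i)
    (he : El (d w) (d k) u v) (nu : ¬ D.Al k u) (nv : ¬ D.Al k v)
    (al : ∀ t, t ≠ u → t ≠ v → (D.Al w t ↔ D.Al k t))
    (lv : ∀ lam α, D.Adm lam α → lam i v = lam i u + α) (hq : ¬ D.Quiet (i - 1)) :
    ∃ inc proj kap, D.Retr d i k w inc proj kap := by
  obtain ⟨e1, e2⟩ := he
  have n0 : d w u v ≠ 0 := by rw [e1]; exact one_ne_zero
  obtain ⟨au, av, dir⟩ := hA.supp _ _ _ n0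
  have uv : u ≠ v := hA.ne n0
  have uu : d w u u = 0 := by by_contra e; exact hA.ne e rfl
  have vv : d w v v = 0 := by by_contra e; exact hA.ne e rfl
  have up : ∀ t, D.Al k t → D.Al w t := fun t h =>
    (al t (fun e => nu (e ▸ h)) (fun e => nv (e ▸ h))).2 h
  have lB : ∀ x y, d w x y ≠ 0 → ∀ lam α, D.Adm lam α → lam i y ≤ lam i x + α := by
    intro x y h lam α hl
    have := hP lam α hl w x y h
    rcases hw with rfl | rfl
    · exact this.1
    · exact this.2
  have hE : D.P k = D.P w + single u u 1 + single v v 1 := by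
    ext x y
    simp only [Matrix.add_apply, P_apply, single_apply]
    by_cases x1 : x = u
    · subst x1
      by_cases y1 : x = y
      · subst y1; simp [nu, au, uv.symm, F2.add_self]
      · simp [y1, uv.symm]
    by_cases x2 : x = v
    · subst x2
      by_cases y1 : x = y
      · subst y1; simp [nv, av, uv, F2.add_self]
      · simp [y1, uv]
    simp [Ne.symm x1, Ne.symm x2, al x x1 x2]
  have eS : d k = D.P k * (d w + d w * single v u 1 * d w) * D.P k := by
    ext x y
    rw [P, mul_diagonal, diagonal_mul]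
    by_cases hx : D.Al k x
    · by_cases hy : D.Al k y
      · rw [if_pos hx, if_pos hy, one_mul, mul_one, e2 x y (fun e => nu (e ▸ hx))
          (fun e => nv (e ▸ hx)) (fun e => nu (e ▸ hy)) (fun e => nv (e ▸ hy)), Matrix.add_apply]
        congr 1
        rw [mul_apply, Finset.sum_eq_single u]
        · simp
        · intro z _ hz
          rw [mul_single_apply_of_ne (hbj := hz), zero_mul]
        · simp
      · rw [if_neg hy, mul_zero]
        by_contra e
        exact hy (hA.supp _ _ _ e).2.1
    · rw [if_neg hx, zero_mul, zero_mul]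
      by_contra e
      exact hx (hA.supp _ _ _ e).1
  obtain ⟨r1, r2, r3, r4, r5⟩ := ring_el mat_add_self (d w) (single v u 1) (single u u 1)
    (single v v 1) (D.P w) (D.P k) hE (hA.sq w) (P_mul hA w) (mul_P hA w)
    (single_mul_single_of_ne _ _ _ _ uv _)
    (by
      ext x y
      rw [P, diagonal_mul, single_apply]
      split_ifs with h1 h2 h2 <;> simp_all)
    (by
      ext x y
      rw [P, mul_diagonal, single_apply]
      split_ifs with h1 h2 h2 <;> simp_all)
    (by
      ext x y
      rw [P, diagonal_mul, single_apply]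
      split_ifs with h1 h2 h2 <;> simp_all)
    (by
      ext x y
      rw [P, mul_diagonal, single_apply]
      split_ifs with h1 h2 h2 <;> simp_all)
    (P_P k)
    (by rw [single_mul_mul_single, uu]; simp)
    (by rw [single_mul_mul_single, e1]; simp)
    (by rw [single_mul_mul_single, e1]; simp)
    (by rw [single_mul_mul_single, vv]; simp)
  rw [← eS] at r1 r2
  refine ⟨_, _, _, r1, r2, r3, r4, r5, ?_, ?_, ?_, fun h => absurd h hq⟩
  · intro x y h
    rw [P, diagonal_mul] at h
    have hx : D.Al k x := by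
      by_contra e
      simp [e] at h
    rw [if_pos hx, one_mul, Matrix.add_apply] at h
    rcases F2.add_ne h with h | h
    · have : x = y := by
        by_contra e
        exact h (one_apply_ne e)
      subst this
      exact ⟨hx, up x hx, rfl, Le.rfl0 _ _⟩
    · have : y = u := by
        by_contra e
        exact h (mul_single_apply_of_ne (hbj := e) ..)
      subst this
      rw [mul_single_apply_same, mul_one] at h
      refine ⟨hx, au, bool_ne_ne dir (hA.supp _ _ _ h).2.2, fun lam α hl => ?_⟩
      have := lB _ _ h lam α hl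
      have := lv lam α hl
      push_cast
      linarith
  · intro x y h
    rw [P, mul_diagonal] at h
    have hy : D.Al k y := by
      by_contra e
      simp [e] at h
    rw [if_pos hy, mul_one, Matrix.add_apply] at h
    rcases F2.add_ne h with h | h
    · have : x = y := by
        by_contra e
        exact h (one_apply_ne e)
      subst this
      exact ⟨up x hy, hy, Le.rfl0 _ _⟩
    · have : x = v := by
        by_contra e
        exact h (single_mul_apply_of_ne (h := e) ..)
      subst this
      rw [single_mul_apply_same, one_mul] at h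
      refine ⟨av, hy, fun lam α hl => ?_⟩
      have := lB _ _ h lam α hl
      have := lv lam α hl
      push_cast
      linarith
  · intro x y h
    rw [single_apply] at h
    split_ifs at h with e
    · obtain ⟨rfl, rfl⟩ := e
      refine ⟨av, au, fun lam α hl => ?_⟩
      have := lv lam α hl
      push_cast
      linarith
    · exact absurd rfl h

/-- The slice whose complex is placed on the wall `i`. -/
noncomputable def big (D : Diag ι) (i : ℤ) : ℤ := if ∃ s p, D.Cap (i - 1) s p then i - 1 else i

lemma big_cases (D : Diag ι) (i : ℤ) : D.big i = i ∨ D.big i + 1 = i := by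
  unfold big
  split_ifs
  · right; omega
  · left; rfl

lemma big_cap {k s p} (h : D.Cap k s p) : D.big (k + 1) = k := by
  unfold big
  rw [add_sub_cancel_right, if_pos ⟨s, p, h⟩]

lemma big_nocap {k} (h : ∀ s p, ¬ D.Cap k s p) : D.big (k + 1) = k + 1 := by
  unfold big
  rw [add_sub_cancel_right, if_neg (fun ⟨s, p, e⟩ => h s p e)]

lemma Quiet.big {k} (h : D.Quiet k) : D.big (k + 1) = k + 1 :=
  big_nocap fun s _ e => (h s e.1).2 e.2.2.1

lemma retr_refl (hA : D.Alg d) {i k w : ℤ} (h : d w = d k) :
    ∃ inc proj kap, D.Retr d i k w inc proj kap :=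
  retr_perm hA (Equiv.refl ι) (fun x y => by rw [h]; rfl)
    (fun x _ => ⟨rfl, Le.rfl0 _ _, Le.rfl0 _ _⟩) fun _ => rfl

lemma retr_right (G : D.Good) (hA : D.Alg d) (hP : D.Pos d) (i : ℤ) :
    ∃ inc proj kap, D.Retr d i i (D.big i) inc proj kap := by
  obtain ⟨k, rfl⟩ : ∃ k, i = k + 1 := ⟨i - 1, by omega⟩
  by_cases h : ∃ s p, D.Cap k s p
  · obtain ⟨s, p, h⟩ := h
    obtain ⟨-, -, -, -, -, -, -, n1, n2⟩ := h.facts G
    rw [big_cap h]
    refine retr_el hA hP (Or.inr rfl) (hA.cap k s p h).1 n2 n1
      (fun t h1 h2 => (h.al G h2 h1).symm) (fun lam α hl => hl.cap k s p h) fun q => ?_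
    rw [add_sub_cancel_right] at q
    exact (q s h.1).2 h.2.2.1
  · rw [big_nocap fun s p e => h ⟨s, p, e⟩]
    exact retr_refl hA rfl

lemma retr_left (G : D.Good) (hA : D.Alg d) (hP : D.Pos d) (k : ℤ) :
    ∃ inc proj kap, D.Retr d (k + 1) k (D.big (k + 1)) inc proj kap := by
  rcases event G k with h | ⟨a, c, h⟩ | ⟨s, p, h⟩ | ⟨s, q, h⟩
  · rw [h.big]
    exact retr_refl hA (hA.quiet k h)
  · obtain ⟨-, -, -, -, -, -, -, n1, n2⟩ := h.facts G
    rw [big_nocap fun s p e => by
      obtain ⟨-, -, -, -, -, a1, -⟩ := e.facts G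
      exact (h.other G e.1 (fun z => n1 (z ▸ a1)) (fun z => n2 (z ▸ a1))).2 e.2.2.1]
    refine retr_el hA hP (Or.inl rfl) (hA.cup k a c h).1 n1 n2
      (fun t h1 h2 => h.al G h1 h2) (fun lam α hl => hl.cup k a c h) fun q => ?_
    rw [add_sub_cancel_right] at q
    exact (q a h.1).1 h.2.2.1
  · rw [big_cap h]
    exact retr_refl hA rfl
  · obtain ⟨-, -, -, -, f5, -, -, f8, -⟩ := h.facts G
    rw [big_nocap fun s p e => h.cap_ne G e rfl]
    refine retr_perm hA (Equiv.swap s q) (hA.pass k s q h) (fun x hx => ?_) fun z => ?_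
    · by_cases xq : x = q
      · subst xq
        rw [Equiv.swap_apply_right]
        refine ⟨f5.symm, fun lam α hl => ?_, fun lam α hl => ?_⟩ <;>
          simp [hl.pass k s x h]
      · rw [Equiv.swap_apply_of_ne_of_ne (fun e : x = s => f8 (e ▸ hx)) xq]
        exact ⟨rfl, Le.rfl0 _ _, Le.rfl0 _ _⟩
    · rw [add_sub_cancel_right] at z
      exact absurd h.2.2 (z s h.1).2

end Diag

end Pool.Agent.Lib.MP_5a3ebe_gt.Ap
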