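import Pool.Agent.Lib.MP_5a3ebe_gt.ApSixC
import Pool.Agent.Lib.MP_5a3ebe_gt.ApSixD
import Pool.Agent.Lib.MP_5a3ebe_gt.ApTC

/-! The window theorem. -/

namespace Pool.Agent.Lib.MP_5a3ebe_gt.Ap

open Classical Matrix Function Filter Topology

lemma small (C B : ℝ) (hB : 0 < B) : ∀ᶠ h in 𝓝 (0 : ℝ), C * h ≤ B := by
  have : Tendsto (fun h : ℝ => C * h) (𝓝 0) (𝓝 (C * 0)) := (continuous_const.mul continuous_id).tendsto 0
  exact this.eventually (eventually_le_nhds (by simpa using hB))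

lemma floor_div {h W : ℝ} (hh : 0 < h) (hW : 0 < W) (r m : ℕ) (hm : 0 < m) (hr : r * h ≤ W) :
    ∃ M : ℕ, (m * M + r : ℤ) ≤ ⌊W / h⌋ ∧ W - (r + m) * h ≤ m * (h * M) ∧ m * (h * M) ≤ W := by
  have f0 : (r : ℤ) ≤ ⌊W / h⌋ := Int.le_floor.2 (by rw [le_div_iff₀ hh]; exact_mod_cast hr)
  obtain ⟨t, ht⟩ := Int.le.dest f0
  have a1 : (⌊W / h⌋ : ℝ) * h ≤ W := (le_div_iff₀ hh).1 (Int.floor_le _)
  have a2 : W < (⌊W / h⌋ + 1 : ℝ) * h := (div_lt_iff₀ hh).1 (Int.lt_floor_add_one _)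
  have d1 := Nat.div_add_mod t m
  have d2 := Nat.mod_lt t hm
  have e1 : (m * (t / m : ℕ) : ℝ) + (t % m : ℕ) = t := by exact_mod_cast d1
  have e2 : ((t % m : ℕ) : ℝ) + 1 ≤ m := by exact_mod_cast d2
  have e3 : (r : ℝ) + t = ⌊W / h⌋ := by exact_mod_cast ht
  have e4 : (0 : ℝ) ≤ (t % m : ℕ) := Nat.cast_nonneg _
  have e5 : (0 : ℝ) ≤ r := Nat.cast_nonneg _
  refine ⟨t / m, ?_, by nlinarith, by nlinarith⟩
  have : (m * (t / m : ℕ) : ℤ) + (t % m : ℕ) = t := by exact_mod_cast d1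
  omega

lemma numerics {h R ω l c K θ : ℝ} {Ω n : ℕ} (hh : 0 < h) (hω : 0 < ω) (R0 : 0 < R) (l0 : 0 < l)
    (K0 : 0 < K) (l1 : 2000 * R * l = ω ^ 2) (l2 : 2000 * l ≤ ω) (hc : c = ω * l / 20)
    (K1 : 2 * R ^ 2 / K < c) (z1 : ω / 5 ≤ h * Ω ∧ h * Ω ≤ ω / 4) (z2 : l / 2 ≤ h * n)
    (z3 : h * (2 * n + 2) ≤ 3 * l) (s3 : 12 * R * h ≤ ω * l) (s4 : h ≤ 1)
    (s5 : (2 * R + 1 / 2 + 2 * K) * h ≤ c) (s6 : θ ≤ c) :
    SixN h R K c (2 * ω * h * Ω) (2 * h * ω) θ Ω n ∧ 2 * ω ^ 2 / 5 ≤ 2 * ω * h * Ω ∧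
      2 * (h * R) * (2 * n + 2) < 2 * ω * h * Ω := by
  have z4 : 0 ≤ h * (2 * n + 2) := by positivity
  have nΩ : 2 * n + 2 ≤ Ω := by
    have : h * (2 * n + 2) ≤ h * Ω := by linarith
    exact_mod_cast le_of_mul_le_mul_left this hh
  have z5 : 2 * ω ^ 2 / 5 ≤ 2 * ω * h * Ω := by nlinarith
  have z6 : R * (h * (2 * n + 2)) ≤ 3 * ω ^ 2 / 2000 := by nlinarith
  have z7 : (h * (2 * n + 2)) ^ 2 ≤ 9 * (ω * l) / 2000 := by nlinarith
  have z8 : ω * l ≤ ω ^ 2 / 2000 := by nlinarith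
  have z9 : 2 * h * R + h ^ 2 / 2 + 2 * K * h ^ 2 ≤ c := by
    have : h ^ 2 ≤ h := by nlinarith
    nlinarith
  have z10 : ω ^ 2 / 25 ≤ (h * Ω) ^ 2 := by nlinarith
  have w2 : 0 < ω ^ 2 := by positivity
  have w3 : 0 < h ^ 2 := by positivity
  have w4 : 0 < ω * l := by positivity
  have z11 : h * (2 * n + 2) * (h * Ω) ≤ 3 * l * (ω / 4) :=
    mul_le_mul z3 z1.2 (by positivity) (by positivity)
  have z12 := mul_le_mul_of_nonneg_left z2 hω.le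
  exact ⟨⟨hh, R0.le, K0, by linarith, by linarith, nΩ, by linarith, K1, by linarith,
      by linarith, by linarith⟩, z5, by linarith⟩

lemma Fac.alt {G : Type} [Fintype G] [DecidableEq G] {S S' : RS G} {d d' H H' ρ ρ' N M φ φ' P0 π y y'
    h r c0} (F : Fac S d H ρ N M φ P0 π y h r c0) (F' : Fac S' d' H' ρ' N M φ' P0 π y' h r c0) :
    ∀ i, Fac (alt S S' i) (alt d d' i) (alt H H' i) (alt ρ ρ' i) N M (alt φ φ' i) P0 π (alt y y' i)
      h r c0 := alt_ind F F' F F'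

noncomputable def grd (K x1 x2 x3 x4 : ℝ) (i : Fin 4) : ℝ :=
  alt (if i = 0 then 1 else -1) 0 i * (x2 - x4) / 2 + alt 0 (if i = 1 then 1 else -1) i * (x1 - x3) / 2 +
    alt (-1) 1 i * K * (x1 - x2 + x3 - x4)

lemma qf_upd {X : Type} [DecidableEq X] (w : X → ℤ) {h K : ℝ} (K0 : 0 < K) (σ : Fin 4 → X)
    (i : Fin 4) (x : X) :
    qf K (h * w (update σ i x 0)) (h * w (update σ i x 1)) (h * w (update σ i x 2))
      (h * w (update σ i x 3)) ≤ qf K (h * w (σ 0)) (h * w (σ 1)) (h * w (σ 2)) (h * w (σ 3)) +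
      h * (w x - w (σ i)) * grd K (h * w (σ 0)) (h * w (σ 1)) (h * w (σ 2)) (h * w (σ 3)) i := by
  revert i
  refine alt_ind ?_ ?_ ?_ ?_ <;> simp [qf, grd, update_of_ne]
  · linarith [mul_nonneg K0.le (sq_nonneg (h * w x - h * w (σ 0)))]
  · linarith [mul_nonneg K0.le (sq_nonneg (h * w x - h * w (σ 1)))]
  · linarith [mul_nonneg K0.le (sq_nonneg (h * w x - h * w (σ 2)))]
  · linarith [mul_nonneg K0.le (sq_nonneg (h * w x - h * w (σ 3)))]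

lemma grd_lip {X : Type} (w : X → ℤ) {h K : ℝ} (hh : 0 < h) (K0 : 0 < K) (σ σ' : Fin 4 → X)
    (i : Fin 4) (m : ℕ) (hm : ∀ j, w (σ j) ≤ w (σ' j) + m ∧ w (σ' j) ≤ w (σ j) + m) :
    |grd K (h * w (σ 0)) (h * w (σ 1)) (h * w (σ 2)) (h * w (σ 3)) i -
      grd K (h * w (σ' 0)) (h * w (σ' 1)) (h * w (σ' 2)) (h * w (σ' 3)) i| ≤
      (1 + 4 * K) * h * m := by
  have b := fun j => abs_le.1 (int_abs hh (z := w (σ j) - w (σ' j)) (m := m)
    (by have := hm j; omega) (by have := hm j; omega))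
  have b0 := b 0
  have b1 := b 1
  have b2 := b 2
  have b3 := b 3
  push_cast at b0 b1 b2 b3
  have u1 := mul_le_mul_of_nonneg_left (add_le_add (add_le_add b0.1 b2.1)
    (add_le_add (neg_le_neg b1.2) (neg_le_neg b3.2))) K0.le
  have u2 := mul_le_mul_of_nonneg_left (add_le_add (add_le_add b0.2 b2.2)
    (add_le_add (neg_le_neg b1.1) (neg_le_neg b3.1))) K0.le
  revert i
  refine alt_ind ?_ ?_ ?_ ?_ <;> simp [grd, abs_le] <;> constructor <;>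
    linarith [b0.1, b0.2, b1.1, b1.2, b2.1, b2.2, b3.1, b3.2]

lemma grd_bd {X : Type} (w : X → ℤ) {h K R : ℝ} (K0 : 0 < K)
    (pos : ∀ g g', h * w g - h * w g' ≤ 2 * R) (σ : Fin 4 → X) (i : Fin 4) :
    |grd K (h * w (σ 0)) (h * w (σ 1)) (h * w (σ 2)) (h * w (σ 3)) i| ≤ R + 4 * K * R := by
  have u1 := mul_le_mul_of_nonneg_left (add_le_add (pos (σ 0) (σ 1)) (pos (σ 2) (σ 3))) K0.le
  have u2 := mul_le_mul_of_nonneg_left (add_le_add (pos (σ 1) (σ 0)) (pos (σ 3) (σ 2))) K0.le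
  revert i
  refine alt_ind ?_ ?_ ?_ ?_ <;> simp [grd, abs_le] <;> constructor <;>
    linarith [pos (σ 0) (σ 2), pos (σ 2) (σ 0), pos (σ 1) (σ 3), pos (σ 3) (σ 1)]

theorem core : CoreStatement := by
  intro R ω hω hωR
  have R0 : 0 < R := hω.trans_le hωR
  obtain ⟨l, hl⟩ : ∃ l, l = ω ^ 2 / (2000 * R) := ⟨_, rfl⟩
  have l0 : 0 < l := by rw [hl]; positivity
  have l1 : 2000 * R * l = ω ^ 2 := by rw [hl]; field_simp
  have l2 : 2000 * l ≤ ω := by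
    have : ω * (2000 * l) ≤ ω * ω := by nlinarith
    exact le_of_mul_le_mul_left this hω
  obtain ⟨c, hc⟩ : ∃ c, c = ω * l / 20 := ⟨_, rfl⟩
  have c0 : 0 < c := by rw [hc]; positivity
  refine ⟨c, 2 * R ^ 2 / c + 1, c0, fun K γ W g hK hγ hW hg ι _ _ => ?_⟩
  have K0 : 0 < K := lt_of_lt_of_le (by positivity) hK
  have K1 : 2 * R ^ 2 / K < c := by
    rw [div_lt_iff₀ K0]
    have : 2 * R ^ 2 / c < K := by linarith
    rw [div_lt_iff₀ c0] at this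
    linarith
  obtain ⟨P0, hP0⟩ : ∃ P0, P0 = 2 * Fintype.card ι + 1 := ⟨_, rfl⟩
  obtain ⟨N, N2, hN⟩ : ∃ N : ℕ, 2 ≤ N ∧
      20 * (4 * P0 + 2) * (R + (R + 4 * K * R)) ≤ (N - 1) * γ / 2 := by
    obtain ⟨N, hN⟩ := exists_nat_ge (40 * (4 * P0 + 2) * (R + (R + 4 * K * R)) / γ)
    rw [div_le_iff₀ hγ] at hN
    exact ⟨N + 2, by omega, by push_cast; nlinarith⟩
  have ev : ∀ᶠ h in 𝓝 (0 : ℝ), 25 * h ≤ ω ∧ 2 * h ≤ l ∧ 12 * R * h ≤ ω * l ∧ 1 * h ≤ 1 ∧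
      (2 * R + 1 / 2 + 2 * K) * h ≤ c ∧ (N - 1) * γ / 2 * h ≤ c ∧ 4 * h ≤ W ∧
      4 * ((8 * P0 + 7) * N + 1) * h ≤ W ∧ (1 + 4 * K) * ((8 * P0 + 6) * N) * h ≤ γ / 4 ∧
      ((N - 1) * γ / 2 + (20 * (4 * P0 + 2) + 1) * N * (R + (R + 4 * K * R))) * h ≤ g * W / 2 ∧
      ((N - 1) * γ / 2 + (20 * (4 * P0 + 2) + 1) * N * (R + (R + 4 * K * R))) * h ≤ ω ^ 2 / 5 := by
    simp only [eventually_and]
    refine ⟨?_, ?_, ?_, ?_, ?_, ?_, ?_, ?_, ?_, ?_, ?_⟩ <;> exact small _ _ (by positivity)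
  obtain ⟨h0, h00, ev⟩ := Metric.eventually_nhds_iff.1 ev
  refine ⟨h0 / 2, by positivity, fun h hh hh0 D Y F A j0 bot yc Gd C L hR pos S q od loc => ?_⟩
  obtain ⟨s1, s2, s3, s4, s5, s6, s7, s8, s9, s10, s11⟩ := ev (y := h)
    (by rw [Real.dist_eq, sub_zero, abs_of_pos hh]; linarith)
  obtain ⟨Ω, Ω1, Ω2, Ω3⟩ := floor_div hh hω 1 4 (by omega) (by push_cast; linarith)
  obtain ⟨n, -, n2, n3⟩ := floor_div hh l0 0 1 (by omega) (by push_cast; linarith)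
  obtain ⟨M, M1, M2, M3⟩ := floor_div hh hW 0 2 (by omega) (by push_cast; linarith)
  push_cast at Ω1 Ω2 Ω3 n2 n3 M1 M2 M3
  obtain ⟨X, _, _, T, Sp⟩ := D.exists_tc Gd
  have hl := L.adm Gd fun k s t _ _ o => neg_le_neg (mul_le_mul_of_nonneg_left o.le hh.le)
  have hs : ∀ k s, D.Al k s → (F (k + 1) s - if D.dir s then A / 2 else 0) -
      (F k s - if D.dir s then A / 2 else 0) = -(h * D.key k s) := fun k s al => by
    rw [L.step k s al]; ring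
  have hM : (8 * P0 + 7) * N + 1 ≤ M := by
    have : h * ((8 * P0 + 7) * N + 1) ≤ h * M := by linarith
    exact_mod_cast le_of_mul_le_mul_left this hh
  obtain ⟨Nm, z5, cU⟩ := numerics (θ := (N - 1) * h * γ / 2) (Ω := Ω) (n := n) hh hω R0 l0 K0 l1 l2
    hc K1 ⟨by linarith, by linarith⟩ (by linarith) (by linarith) s3 (by linarith) s5 (by linarith)
  have nΩ := Nm.c2'
  have z6 : g * W / 2 ≤ 2 * g * h * M := by
    have : g * (W / 2) ≤ g * (2 * (h * M)) := mul_le_mul_of_nonneg_left (by linarith) hg.le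
    linarith
  obtain ⟨τ, p0, p1, p2, hL, hR', rL, rR, bt, sp, Zb, Zt, H⟩ := Sp.six Gd C hl hh hs hR R0.le S hω q
    od Ω n Ω1 (by omega) cU
  obtain ⟨φ, Fc⟩ := Sp.fac Gd C hl hh hs hR N M _ (by omega) (by omega) hg loc
  rw [← hP0] at Fc
  have pos' : ∀ g g', h * T.w g - h * T.w g' ≤ 2 * R := fun g g' => by
    obtain ⟨a1, a2, a3⟩ := Sp.touch g
    obtain ⟨b1, b2, b3⟩ := Sp.touch g'
    have : (T.w g : ℝ) - T.w g' ≤ D.e (T.st g) - D.b (T.st g') := by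
      exact_mod_cast (by omega : T.w g - T.w g' ≤ D.e (T.st g) - D.b (T.st g'))
    linarith [pos _ a1 _ b1, mul_le_mul_of_nonneg_left this hh.le]
  have ha : ω ^ 2 / 5 ≤ A / 2 := by
    have := H.ca
    simp only [TC.rs] at this
    linarith
  by_contra hcon
  generalize hS : T.rs D (fun i s => F i s - if D.dir s then A / 2 else 0) (A / 2) h R = S0 at H Fc
  have Sw : S0.w = T.w := by rw [← hS]; rfl
  have Sa : S0.a = A / 2 := by rw [← hS]; rfl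
  have SU : S0.U = h * R := by rw [← hS]; rfl
  have Sl : ∀ g, S0.lam g = F (T.w g) (T.st g) -
      ((if D.dir (T.st g) then 1 else 0) + (if T.sl g then 1 else 0) : ℤ) * (A / 2) := fun g => by
    rw [← hS]
    simp only [TC.rs, TC.lv]
    split_ifs <;> push_cast <;> ring
  have lv : ∀ σ : Fin 4 → X, ∑ i, (alt S0 S0.neg i).lam (σ i) +
      qf K (h * T.w (σ 0)) (h * T.w (σ 1)) (h * T.w (σ 2)) (h * T.w (σ 3)) =
      lv2 S0 h K σ - A := fun σ => by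
    simp only [Fin.sum_univ_four, alt0, alt1, alt2, alt3, lv2, RS.neg, Sw, Sa]
    ring
  have := tot_push (alt S0 S0.neg) (alt T.d T.dᵀ) _ _ N M _ P0 (T.par D) _ h (γ / 4) _
    (Fc.alt Fc.transpose) T.w (A / 2) R (R + 4 * K * R) (1 + 4 * K) γ
    ((N - 1) * h * γ / 2 + 20 * (4 * P0 + 2) * (N * h * (R + (R + 4 * K * R)))) (2 * c)
    (A - 2 * c) (alt_ind Sw Sw Sw Sw) (alt_ind Sa Sa Sa Sa) (alt_ind SU SU SU SU)
    (fun σ => qf K (h * T.w (σ 0)) (h * T.w (σ 1)) (h * T.w (σ 2)) (h * T.w (σ 3)))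
    (fun i σ => grd K (h * T.w (σ 0)) (h * T.w (σ 1)) (h * T.w (σ 2)) (h * T.w (σ 3)) i)
    (qf_upd T.w K0) (grd_lip T.w hh K0) (grd_bd T.w K0 pos') hh R0.le (by positivity) hγ N2
    (by omega) (by linarith) hN le_rfl (by linarith) (by linarith) (fun k σ pk a0 a1 => ?_)
    _ (co p1 p0) (sixZ_cyc H.dd H.eL H.eR H.eτ H.e0 H.e1 H.e2 rfl) (fun σ x => ?_)
    (fun σ x => ?_) (fun σ x => ?_)
  · rw [H.pair] at this
    exact one_ne_zero this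
  · by_contra hn
    push Not at hn
    have pt : ∀ g, T.par D g =
        ((if D.dir (T.st g) then 1 else 0) + (if T.sl g then 1 else 0) : ℤ) := fun g => by
      unfold TC.par
      cases D.dir (T.st g) <;> cases T.sl g <;> simp
      rfl
    simp only [Fin.sum_univ_four, alt0, alt1, alt2, alt3, RS.neg, Sl, pt] at pk a0 a1
    generalize ((if D.dir (T.st (σ 0)) then 1 else 0) + (if T.sl (σ 0) then 1 else 0) : ℤ) = t0
      at pk a0 a1
    generalize ((if D.dir (T.st (σ 1)) then 1 else 0) + (if T.sl (σ 1) then 1 else 0) : ℤ) = t1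
      at pk a0 a1
    generalize ((if D.dir (T.st (σ 2)) then 1 else 0) + (if T.sl (σ 2) then 1 else 0) : ℤ) = t2
      at pk a0 a1
    generalize ((if D.dir (T.st (σ 3)) then 1 else 0) + (if T.sl (σ 3) then 1 else 0) : ℤ) = t3
      at pk a0 a1
    obtain ⟨m, hm⟩ : (2 : ℤ) ∣ k - (t0 + t1 + t2 + t3) :=
      (ZMod.intCast_eq_intCast_iff_dvd_sub _ _ 2).1 (by push_cast; exact pk)
    have hk : (k : ℝ) = t0 + t1 + t2 + t3 + 2 * m := by
      exact_mod_cast (by omega : k = t0 + t1 + t2 + t3 + 2 * m)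
    have n0 := hn 0
    have n1 := hn 1
    have n2 := hn 2
    have n3 := hn 3
    simp [grd, abs_le] at n0 n1 n2 n3
    refine hcon ⟨T.w (σ 0), T.w (σ 1), T.w (σ 2), T.w (σ 3), T.st (σ 0), T.st (σ 1), T.st (σ 2),
      T.st (σ 3), m + t1 + t3, _, _, _, _, _, _, Sp.touch _, Sp.touch _, Sp.touch _, Sp.touch _,
      rfl, rfl, rfl, rfl, rfl, ?_, ?_, ?_, ?_, rfl, ?_, ?_⟩
    · exact abs_le.2 ⟨by linarith [n0.1], by linarith [n0.2]⟩
    · exact abs_le.2 ⟨by linarith [n1.1], by linarith [n1.2]⟩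
    · exact abs_le.2 ⟨by linarith [n2.1], by linarith [n2.2]⟩
    · exact abs_le.2 ⟨by linarith [n3.1], by linarith [n3.2]⟩
    · simp only [qf, hk] at a0
      push_cast
      linarith
    · simp only [qf, hk] at a1
      push_cast
      linarith
  · have := H.levZ Nm SU (by rw [Sw]; exact pos') x
    rw [lv]
    linarith
  · have := H.levξ Nm SU x
    rw [lv]
    exact ⟨this.1, by linarith [this.2]⟩
  · have := H.levδ Nm SU x
    rw [lv]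
    linarith

end Pool.Agent.Lib.MP_5a3ebe_gt.Ap
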