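import Pool.Agent.Lib.MP_5a3ebe_gt.ApMv

/-! Unit level data in a corridor and the resulting action estimates. -/

namespace Pool.Agent.Lib.MP_5a3ebe_gt.Ap

open Classical Matrix

namespace Diag

variable {ι : Type} {D : Diag ι}

lemma Lev.adm (G : D.Good) {Δ F : ℤ → ι → ℝ} {A : ℝ} (h : D.Lev Δ F A)
    (hm : ∀ k s t, D.Al k s → D.Al k t → D.key k s < D.key k t → Δ k t ≤ Δ k s) :
    D.Adm (fun i s => F i s - if D.dir s then A / 2 else 0) (A / 2) := by
  refine ⟨fun k s t hs ht o => ?_, fun k a c hc => ?_, fun k a c hc => ?_, fun k a c hc => ?_⟩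
  · rw [h.step k s hs, h.step k t ht]
    linarith [hm k s t hs ht o]
  · have := (hc.facts G).2.2.2.2.1
    rw [h.cup _ _ _ hc]
    cases h1 : D.dir a <;> cases h2 : D.dir c <;> simp_all <;> ring
  · have := (hc.facts G).2.2.2.2.1
    rw [h.cap _ _ _ hc]
    cases h1 : D.dir a <;> cases h2 : D.dir c <;> simp_all <;> ring
  · have := (hc.facts G).2.2.2.2.1
    rw [h.pass _ _ _ hc, this]

/-- Unit data concentrated on the bottom strands of the slice `j`. -/
noncomputable def uF (F0 : ℤ → ι → ℤ) (bot : ι → Prop) (j0 j i : ℤ) (s : ι) : ℤ :=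
  F0 i s + if bot s then (if j < i then 1 else 0) - (if j0 < i then 1 else 0) else 0

noncomputable def uL (D : Diag ι) (F0 : ℤ → ι → ℤ) (A0 : ℤ) (bot : ι → Prop) (j0 j i : ℤ)
    (s : ι) : ℝ :=
  (uF F0 bot j0 j i s : ℝ) - if D.dir s then (A0 : ℝ) / 2 else 0

section
variable (G : D.Good) {i0 i1 j0 : ℤ} {bot : ι → Prop} {y g : ℝ} (S : D.Sep i0 i1 bot y g)
  (hg : 0 < g) (h0 : i0 ≤ j0) (h1 : j0 < i1) {F0 : ℤ → ι → ℤ} {A0 : ℤ}
  (L : D.Lev (fun k s => if k = j0 ∧ bot s then 1 else 0) F0 A0)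
include G S hg h0 h1 L

omit G hg in
lemma Sep.levF {j} (a0 : i0 ≤ j) (a1 : j < i1) :
    D.Lev (fun k s => if k = j ∧ bot s then (1 : ℝ) else 0)
      (fun i s => (uF F0 bot j0 j i s : ℝ)) A0 := by
  have ev : ∀ k s q β β', s ∈ D.S → D.J (s, β) = (q, β') → D.wall (s, β) = k + 1 →
      uF F0 bot j0 j (k + 1) q - F0 (k + 1) q = uF F0 bot j0 j (k + 1) s - F0 (k + 1) s := by
    intro k s q β β' hs hJ hw
    simp only [uF, add_sub_cancel_left]
    by_cases hk : i0 < k + 1 ∧ k + 1 < i1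
    · have := S.ev s hs β (by omega) (by omega)
      rw [hJ] at this
      simp only [this]
    · split_ifs <;> omega
  refine ⟨fun k s hs => ?_, fun k s q hc => ?_, fun k s q hc => ?_, fun k s q hc => ?_⟩
  · have := L.step k s hs
    have e : uF F0 bot j0 j (k + 1) s = uF F0 bot j0 j k s + if k = j ∧ bot s then 1 else 0 := by
      simp only [uF, this]
      by_cases hb : bot s
      · simp only [hb, and_true, if_true]
        split_ifs <;> omega
      · simp [hb]
    rw [e]
    push_cast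
    rfl
  · have := ev k s q true false hc.1 hc.2.1 hc.2.2
    have := L.pass _ _ _ hc
    norm_cast
    omega
  · have e1 := ev k s q false false hc.1 hc.2.1 hc.2.2.1
    have e2 := L.cup _ _ _ hc
    have : uF F0 bot j0 j (k + 1) q = uF F0 bot j0 j (k + 1) s + if D.dir s then 0 else A0 := by
      omega
    rw [this]
    push_cast
    rfl
  · have e1 := ev k s q true true hc.1 hc.2.1 hc.2.2.1
    have e2 := L.cap _ _ _ hc
    have : uF F0 bot j0 j (k + 1) s = uF F0 bot j0 j (k + 1) q + if D.dir q then 0 else A0 := by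
      omega
    rw [this]
    push_cast
    rfl

omit G h0 h1 L in
lemma Sep.bot_mono {k s t} (a0 : i0 ≤ k) (a1 : k < i1) (hs : D.Al k s) (ht : D.Al k t)
    (o : D.key k s < D.key k t) (hb : bot t) : bot s := by
  by_contra e
  have := S.lo k t a0 a1 ht hb
  have := S.hi k s a0 a1 hs e
  linarith

lemma Sep.admU {j} (a0 : i0 ≤ j) (a1 : j < i1) : D.Adm (D.uL F0 A0 bot j0 j) (A0 / 2) := by
  refine (S.levF h0 h1 L a0 a1).adm G fun k s t hs ht o => ?_
  by_cases e : k = j ∧ bot t
  · obtain ⟨rfl, e⟩ := e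
    simp [e, S.bot_mono hg a0 a1 hs ht o e]
  · rw [if_neg e]
    split_ifs <;> norm_num

omit G hg in
lemma Sep.stepU {j} (a0 : i0 ≤ j) (a1 : j < i1) {k s} (hs : D.Al k s) :
    D.uL F0 A0 bot j0 j (k + 1) s - D.uL F0 A0 bot j0 j k s = if k = j ∧ bot s then 1 else 0 := by
  have := (S.levF h0 h1 L a0 a1).step k s hs
  simp only [uL] at this ⊢
  linarith

lemma Sep.box {lam a h} (hh : 0 < h) (hl : D.Adm lam a)
    (hs : ∀ k s, D.Al k s → lam (k + 1) s - lam k s = -(h * D.key k s)) (Bx : Finset ℤ)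
    (hB : ∀ j ∈ Bx, i0 ≤ j ∧ j < i1) :
    D.Adm (fun i s => lam i s - 2 * g * h * ∑ j ∈ Bx, D.uL F0 A0 bot j0 j i s)
      (a - 2 * g * h * (Bx.card * (A0 / 2))) := by
  have ad := fun j hj => S.admU G hg h0 h1 L (hB j hj).1 (hB j hj).2
  refine ⟨fun k s t as at' o => ?_, fun k s t hc => ?_, fun k s t hc => ?_, fun k s t hc => ?_⟩
  · have st : ∀ s, D.Al k s → ∑ j ∈ Bx, D.uL F0 A0 bot j0 j (k + 1) s =
        ∑ j ∈ Bx, D.uL F0 A0 bot j0 j k s + if k ∈ Bx ∧ bot s then 1 else 0 := by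
      intro s as
      rw [← sub_eq_iff_eq_add', ← Finset.sum_sub_distrib,
        Finset.sum_congr rfl fun j hj => S.stepU h0 h1 L (hB j hj).1 (hB j hj).2 as]
      by_cases hb : bot s <;> simp [hb]
    rw [st s as, st t at']
    have m := hl.mono k s t as at' o
    have gh : 0 < 2 * g * h := by positivity
    by_cases e1 : k ∈ Bx ∧ bot s <;> by_cases e2 : k ∈ Bx ∧ bot t
    · rw [if_pos e1, if_pos e2]; linarith
    · rw [if_pos e1, if_neg e2]
      have b := hB k e1.1
      have := S.lo k s b.1 b.2 as e1.2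
      have := S.hi k t b.1 b.2 at' fun e => e2 ⟨e1.1, e⟩
      have := hs k s as
      have := hs k t at'
      nlinarith
    · have b := hB k e2.1
      exact absurd ⟨e2.1, S.bot_mono hg b.1 b.2 as at' o e2.2⟩ e1
    · rw [if_neg e1, if_neg e2]; linarith
  · rw [Finset.sum_congr rfl fun j hj => (ad j hj).cup _ _ _ hc, hl.cup _ _ _ hc,
      Finset.sum_add_distrib]
    simp; ring
  · rw [Finset.sum_congr rfl fun j hj => (ad j hj).cap _ _ _ hc, hl.cap _ _ _ hc,
      Finset.sum_add_distrib]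
    simp; ring
  · rw [Finset.sum_congr rfl fun j hj => (ad j hj).pass _ _ _ hc, hl.pass _ _ _ hc]

lemma Sep.le_drop {lam a h} (hh : 0 < h) (hl : D.Adm lam a)
    (hs : ∀ k s, D.Al k s → lam (k + 1) s - lam k s = -(h * D.key k s)) (B : ℕ) {i e s t}
    (b0 : i0 + B ≤ i) (b1 : i + B ≤ i1) (le : D.Le i e s t) (ne : ¬ (bot s ↔ bot t)) :
    lam i t + e * a ≤ lam i s - 2 * g * h * B := by
  rcases Nat.eq_zero_or_pos B with rfl | hB
  · simpa using le lam a hl
  have key : ∀ u : ℤ, i0 ≤ u → u + B ≤ i1 → (∀ j, u ≤ j → j < u + B →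
      D.uL F0 A0 bot j0 j i t + e * (A0 / 2) + 1 ≤ D.uL F0 A0 bot j0 j i s) →
      lam i t + e * a ≤ lam i s - 2 * g * h * B := by
    intro u u0 u1 hj
    have := le _ _ (S.box G hg h0 h1 L hh hl hs (Finset.Ico u (u + B)) fun j hj => by
      have := Finset.mem_Ico.1 hj; omega)
    have sm := Finset.sum_le_sum (s := Finset.Ico u (u + B)) fun j hj' =>
      hj j (Finset.mem_Ico.1 hj').1 (Finset.mem_Ico.1 hj').2
    simp only [Finset.sum_add_distrib, Finset.sum_const, Int.card_Ico, add_sub_cancel_left,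
      Int.toNat_natCast, nsmul_eq_mul] at this sm
    have gh : 0 < 2 * g * h := by positivity
    nlinarith
  by_cases hb : bot s
  · have hb' : ¬ bot t := fun e => ne (by tauto)
    refine key (i - B) (by omega) (by omega) fun j a0 a1 => ?_
    have := le _ _ (S.admU G hg h0 h1 L (j := i) (by omega) (by omega))
    have lt : j < i := by omega
    simp only [uL, uF, hb, hb', lt, lt_self_iff_false, if_true, if_false] at this ⊢
    push_cast at this ⊢
    linarith
  · have hb' : bot t := by tauto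
    refine key i (by omega) (by omega) fun j a0 a1 => ?_
    have := le _ _ (S.admU G hg h0 h1 L (j := i - 1) (by omega) (by omega))
    have lt : ¬ j < i := by omega
    have lt' : i - 1 < i := by omega
    simp only [uL, uF, hb, hb', lt, lt', if_true, if_false] at this ⊢
    push_cast at this ⊢
    linarith

end

end Diag

end Pool.Agent.Lib.MP_5a3ebe_gt.Ap
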