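import Mathlib

/-!
Unit speed arcs of curvature at most one, and linear certificates excluding squares near them.
-/

set_option autoImplicit false
set_option linter.unusedSectionVars false
set_option linter.unusedVariables false

namespace Pool.Agent.Lib.MP_5a3ebe_gt

open Real Complex

/-- a unit speed curve with a `1`-Lipschitz tangent angle -/
structure Arc (β : ℝ → ℂ) (ψ : ℝ → ℝ) : Prop where
  d : ∀ s, HasDerivAt β (Complex.exp (ψ s * I)) s
  lip : ∀ s t, |ψ s - ψ t| ≤ |s - t|

namespace Arc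
variable {β : ℝ → ℂ} {ψ : ℝ → ℝ}

lemma cont (h : Arc β ψ) : Continuous ψ := by
  have : LipschitzWith 1 ψ := LipschitzWith.of_dist_le_mul fun s t => by
    simpa [Real.dist_eq] using h.lip s t
  exact this.continuous

lemma contβ (h : Arc β ψ) : Continuous β :=
  continuous_iff_continuousAt.2 fun s => (h.d s).continuousAt

lemma shift (h : Arc β ψ) (c : ℝ) : Arc (fun s => β (s + c)) (fun s => ψ (s + c)) :=
  ⟨fun s => (h.d (s + c)).comp_add_const s c, fun s t => by simpa using h.lip (s + c) (t + c)⟩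

lemma turn (h : Arc β ψ) (ω : ℝ) :
    Arc (fun s => Complex.exp (-ω * I) * β s) (fun s => ψ s - ω) := by
  refine ⟨fun s => ?_, fun s t => by simpa using h.lip s t⟩
  refine ((h.d s).const_mul (Complex.exp (-ω * I))).congr_deriv ?_
  rw [← Complex.exp_add]; congr 1; push_cast; ring

lemma flip (h : Arc β ψ) : Arc (fun s => (starRingEnd ℂ) (β s)) (fun s => -ψ s) := by
  refine ⟨fun s => ?_, fun s t => ?_⟩
  · refine (h.d s).star.congr_deriv ?_
    simp [← Complex.exp_conj]
  · rw [← abs_neg]; convert h.lip s t using 2; ring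

lemma rev (h : Arc β ψ) : Arc (fun s => -β (-s)) (fun s => ψ (-s)) := by
  refine ⟨fun s => ?_, fun s t => ?_⟩
  · refine ((h.d (-s)).scomp s (hasDerivAt_neg s)).neg.congr_deriv ?_
    simp
  · rw [← abs_neg (s - t)]; convert h.lip (-s) (-t) using 2; ring

lemma scale (h : Arc β ψ) {k : ℝ} (hk : 1 ≤ k) :
    Arc (fun s => k * β (s / k)) (fun s => ψ (s / k)) := by
  have hk0 : 0 < k := by linarith
  refine ⟨fun s => ?_, fun s t => ?_⟩
  · refine (((h.d (s / k)).scomp s ((hasDerivAt_id s).div_const k)).const_mul (k : ℂ)).congr_deriv ?_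
    have : (k : ℂ) ≠ 0 := by exact_mod_cast hk0.ne'
    simp; field_simp
  · refine (h.lip _ _).trans ?_
    rw [← sub_div, abs_div, abs_of_pos hk0]
    exact div_le_self (abs_nonneg _) hk

lemma int_le (h : Arc β ψ) (Λ : ℂ) {a b : ℝ} (hab : a ≤ b) {g : ℝ → ℝ} (hg : Continuous g)
    (hle : ∀ s ∈ Set.Icc a b, g s ≤ (Λ * Complex.exp (ψ s * I)).re) :
    ∫ s in a..b, g s ≤ (Λ * (β b - β a)).re := by
  have hc : Continuous fun s => (Λ * Complex.exp (ψ s * I)).re := by
    have := h.cont
    fun_prop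
  have hd : ∀ s ∈ Set.uIcc a b, HasDerivAt (fun s => (Λ * β s).re)
      ((Λ * Complex.exp (ψ s * I)).re) s := fun s _ =>
    (Complex.reCLM.hasFDerivAt.comp_hasDerivAt s ((h.d s).const_mul Λ))
  have := intervalIntegral.integral_eq_sub_of_hasDerivAt hd (hc.intervalIntegrable a b)
  rw [mul_sub, Complex.sub_re, ← this]
  exact intervalIntegral.integral_mono_on hab (hg.intervalIntegrable a b)
    (hc.intervalIntegrable a b) hle

end Arc

lemma trig_le {p q x w : ℝ} (hp : 0 ≤ p) (hx : |x| ≤ w) (hw : w ≤ π / 2) :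
    p * Real.cos w - |q| * Real.sin w ≤ ((p + q * I) * Complex.exp (x * I)).re := by
  have h0 : 0 ≤ |x| := abs_nonneg _
  have h1 : Real.cos w ≤ Real.cos x := by
    rw [← Real.cos_abs x]
    exact Real.cos_le_cos_of_nonneg_of_le_pi h0 (by linarith [pi_pos]) hx
  have h2 : |Real.sin x| ≤ Real.sin w := by
    rw [Real.abs_sin_eq_sin_abs_of_abs_le_pi (by linarith [pi_pos])]
    exact Real.sin_le_sin_of_le_of_le_pi_div_two (by linarith [pi_pos]) hw hx
  have h3 : q * Real.sin x ≤ |q| * Real.sin w :=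
    (le_abs_self _).trans (by rw [abs_mul]; exact mul_le_mul_of_nonneg_left h2 (abs_nonneg _))
  simp [Complex.exp_ofReal_mul_I_re, Complex.exp_ofReal_mul_I_im]
  nlinarith [mul_le_mul_of_nonneg_left h1 hp]

/-- primitive of `sin |t|` -/
noncomputable def Kf (t : ℝ) : ℝ := ∫ s in (0 : ℝ)..t, Real.sin |s|

lemma Kf_pos {t : ℝ} (ht : 0 ≤ t) : Kf t = 1 - Real.cos t := by
  unfold Kf
  rw [intervalIntegral.integral_congr (g := Real.sin)]
  · simp
  · intro s hs
    rw [Set.uIcc_of_le ht] at hs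
    simp [abs_of_nonneg hs.1]

lemma Kf_neg {t : ℝ} (ht : t ≤ 0) : Kf t = Real.cos t - 1 := by
  unfold Kf
  rw [intervalIntegral.integral_congr (g := fun s => -Real.sin s)]
  · simp
  · intro s hs
    rw [Set.uIcc_of_ge ht] at hs
    simp [abs_of_nonpos hs.2]

lemma int_cs (p q a b : ℝ) : ∫ s in a..b, (p * Real.cos |s| - q * Real.sin |s|) =
    p * (Real.sin b - Real.sin a) - q * (Kf b - Kf a) := by
  have c1 : Continuous fun s : ℝ => Real.sin |s| := by fun_prop
  rw [intervalIntegral.integral_sub (by apply Continuous.intervalIntegrable; fun_prop)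
    (by apply Continuous.intervalIntegrable; fun_prop), intervalIntegral.integral_const_mul,
    intervalIntegral.integral_const_mul]
  simp only [Real.cos_abs, integral_cos, Kf]
  rw [intervalIntegral.integral_interval_sub_left (c1.intervalIntegrable _ _)
    (c1.intervalIntegrable _ _)]

/-- the basic one-interval estimate -/
lemma Arc.est {β : ℝ → ℂ} {ψ : ℝ → ℝ} (h : Arc β ψ) {p : ℝ} (q : ℝ) (hp : 0 ≤ p) {a b : ℝ}
    (hab : a ≤ b) (ha : -(π / 2) ≤ a) (hb : b ≤ π / 2) (hψ : ∀ s ∈ Set.Icc a b, |ψ s| ≤ |s|) :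
    p * (Real.sin b - Real.sin a) - |q| * (Kf b - Kf a) ≤ ((p + q * I) * (β b - β a)).re := by
  rw [← int_cs]
  refine h.int_le _ hab (by fun_prop) fun s hs => trig_le hp (hψ s hs) ?_
  exact abs_le.2 ⟨by linarith [hs.1], by linarith [hs.2]⟩

end Pool.Agent.Lib.MP_5a3ebe_gt
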