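import Pool.Agent.Lib.MP_5a3ebe_gt.Twist

/-!
Modifying the test map near the four corners of the configuration space.
-/

set_option autoImplicit false
set_option linter.unusedSectionVars false
set_option linter.unusedVariables false

namespace Pool.Agent.Lib.MP_5a3ebe_gt

lemma gp_nonneg {p : ℝ × ℝ × ℝ × ℝ} (h : Ord4 p) (k : Fin 4) : 0 ≤ gp p k := by
  obtain ⟨h1, h2, h3, h4⟩ := h
  fin_cases k <;> simp [gp] <;> linarith

lemma kkm_of (c : Fin 4 → ℝ) {p : ℝ × ℝ × ℝ × ℝ} (hp : Ord4 p) (h0 : ∀ k, 0 ≤ c k)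
    (h1 : ∀ k, gp p k = 0 → c k = 0) : ∃ j, 0 < gp p j ∧ ∀ k, c k ≤ c j := by
  obtain ⟨j, -, hj⟩ := Finset.exists_max_image Finset.univ c ⟨0, Finset.mem_univ _⟩
  rcases (h0 j).lt_or_eq with hpos | hz
  · refine ⟨j, (gp_nonneg hp j).lt_of_ne fun he => ?_, fun k => hj k (Finset.mem_univ _)⟩
    exact hpos.ne' (h1 j he.symm)
  · have : ∃ i, 0 < gp p i := by
      by_contra hc
      push Not at hc
      have a0 := hc 0
      have a1 := hc 1
      have a2 := hc 2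
      have a3 := hc 3
      simp [gp] at a0 a1 a2 a3
      linarith
    obtain ⟨i, hi⟩ := this
    exact ⟨i, hi, fun k => (hj k (Finset.mem_univ _)).trans (hz ▸ h0 i)⟩

theorem corner_engine (F0 h0 : ℝ × ℝ × ℝ × ℝ → ℝ) (S : ℝ × ℝ × ℝ × ℝ → Fin 4 → ℝ)
    (H : ℝ × ℝ × ℝ × ℝ → ℝ) (U : ℝ × ℝ × ℝ × ℝ → Prop)
    (cF : Continuous F0) (ch : Continuous h0) (cS : ∀ k, Continuous fun p => S p k)
    (cH : Continuous H)
    (per : ∀ p, F0 (rot (rot (rot (rot p)))) = F0 p) (anti : ∀ p, h0 (rot p) = - h0 p)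
    (perS : ∀ p, S (rot (rot (rot (rot p)))) = S p)
    (perH : ∀ p, H (rot (rot (rot (rot p)))) = H p)
    (perU : ∀ p, U (rot (rot (rot (rot p)))) ↔ U p)
    (off : ∀ p, ¬ U p → (∀ k, S p k = cv F0 p k) ∧ H p = h0 p)
    (disj : ∀ p, U p → ¬ U (rot p) ∧ ¬ U (rot (rot p)) ∧ ¬ U (rot (rot (rot p))))
    (b0 : ∀ p, 0 ≤ F0 p) (b1 : ∀ p, gp p 0 = 0 → F0 p = 0)
    (s0 : ∀ p, U p → ∀ k, 0 ≤ S p k ∧ (gp p k = 0 → S p k = 0))
    (nz : ∀ p, Ord4 p → U p → (∀ k, S p k = S p 0) → H p ≠ 0) :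
    ∃ p, Ord4 p ∧ (¬ U p ∧ ¬ U (rot p) ∧ ¬ U (rot (rot p)) ∧ ¬ U (rot (rot (rot p)))) ∧
      (∀ k, cv F0 p k = F0 p) ∧ h0 p = 0 := by
  have r := continuous_rot
  let F : ℝ × ℝ × ℝ × ℝ → ℝ := fun p =>
    S p 0 + S (rot p) 3 + S (rot (rot p)) 2 + S (rot (rot (rot p))) 1 - 3 * F0 p
  let h : ℝ × ℝ × ℝ × ℝ → ℝ := fun p =>
    H p - H (rot p) + H (rot (rot p)) - H (rot (rot (rot p))) - 3 * h0 p
  have cF' : Continuous F :=
    ((((cS 0).add ((cS 3).comp r)).add ((cS 2).comp (r.comp r))).add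
      ((cS 1).comp (r.comp (r.comp r)))).sub (continuous_const.mul cF)
  have ch' : Continuous h :=
    (((cH.sub (cH.comp r)).add (cH.comp (r.comp r))).sub (cH.comp (r.comp (r.comp r)))).sub
      (continuous_const.mul ch)
  have perF : ∀ p, F (rot (rot (rot (rot p)))) = F p := by
    intro p; simp only [F, perS, per]
  have antih : ∀ p, h (rot p) = - h p := by
    intro p; simp only [h, perH, anti]; ring
  have inU : ∀ q, U q → (∀ k, cv F q k = S q k) ∧ h q = H q := by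
    intro q hq
    obtain ⟨d1, d2, d3⟩ := disj q hq
    obtain ⟨a1, e1⟩ := off _ d1
    obtain ⟨a2, e2⟩ := off _ d2
    obtain ⟨a3, e3⟩ := off _ d3
    refine ⟨fun k => ?_, ?_⟩
    · fin_cases k <;> simp [cv, F, perS, a1, a2, a3, per] <;> ring
    · simp only [h, e1, e2, e3, anti]; ring
  have outU : ∀ p, ¬ U p → ¬ U (rot p) → ¬ U (rot (rot p)) → ¬ U (rot (rot (rot p))) →
      (∀ k, cv F p k = cv F0 p k) ∧ h p = h0 p := by
    intro q d0 d1 d2 d3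
    obtain ⟨a0, e0⟩ := off _ d0
    obtain ⟨a1, e1⟩ := off _ d1
    obtain ⟨a2, e2⟩ := off _ d2
    obtain ⟨a3, e3⟩ := off _ d3
    refine ⟨fun k => ?_, ?_⟩
    · fin_cases k <;> simp [cv, F, perS, a0, a1, a2, a3, per] <;> ring
    · simp only [h, e0, e1, e2, e3, anti]; ring
  have kk : ∀ p, (∃ j, 0 < gp (rot p) j ∧ ∀ k, cv F (rot p) k ≤ cv F (rot p) j) →
      ∃ j, 0 < gp p j ∧ ∀ k, cv F p k ≤ cv F p j := by
    rintro p ⟨j, h1, h2⟩
    refine ⟨j + 1, by rwa [gp_rot] at h1, fun k => ?_⟩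
    have := h2 (k - 1)
    rw [cv_rot (perF p), cv_rot (perF p)] at this
    simpa using this
  have kU : ∀ q, Ord4 q → U q → ∃ j, 0 < gp q j ∧ ∀ k, cv F q k ≤ cv F q j := by
    intro q hq hU
    refine kkm_of _ hq (fun k => ?_) (fun k hk => ?_)
    · rw [(inU q hU).1]; exact (s0 q hU k).1
    · rw [(inU q hU).1]; exact (s0 q hU k).2 hk
  obtain ⟨p, hp, hz1, hz2⟩ := twisted_zero F h cF'.continuousOn ch'.continuousOn
    (fun p _ => perF p) (fun p _ => antih p) (by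
      intro p hp
      by_cases d0 : U p
      · exact kU p hp d0
      by_cases d1 : U (rot p)
      · exact kk _ (kU _ hp.rot d1)
      by_cases d2 : U (rot (rot p))
      · exact kk _ (kk _ (kU _ hp.rot.rot d2))
      by_cases d3 : U (rot (rot (rot p)))
      · exact kk _ (kk _ (kk _ (kU _ hp.rot.rot.rot d3)))
      obtain ⟨a, -⟩ := outU p d0 d1 d2 d3
      refine kkm_of _ hp (fun k => ?_) (fun k hk => ?_)
      · rw [a]; fin_cases k <;> exact b0 _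
      · rw [a]
        fin_cases k
        · exact b1 _ hk
        · exact b1 (rot p) (by rw [gp_rot]; exact hk)
        · exact b1 (rot (rot p)) (by rw [gp_rot, gp_rot]; exact hk)
        · exact b1 (rot (rot (rot p))) (by rw [gp_rot, gp_rot, gp_rot]; exact hk))
  have zr : ∀ q, ((∀ k, cv F q k = F q) ∧ h q = 0) →
      ((∀ k, cv F (rot q) k = F (rot q)) ∧ h (rot q) = 0) := by
    rintro q ⟨h1, h2⟩
    refine ⟨fun k => ?_, by rw [antih, h2, neg_zero]⟩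
    rw [cv_rot (perF q), h1]
    exact (h1 1).symm
  have nU : ∀ q, Ord4 q → ((∀ k, cv F q k = F q) ∧ h q = 0) → ¬ U q := by
    rintro q hq ⟨h1, h2⟩ hU
    obtain ⟨a, e⟩ := inU q hU
    refine nz q hq hU (fun k => ?_) (e ▸ h2)
    rw [← a, ← a, h1, h1]
  have d0 := nU p hp ⟨hz1, hz2⟩
  have d1 := nU _ hp.rot (zr _ ⟨hz1, hz2⟩)
  have d2 := nU _ hp.rot.rot (zr _ (zr _ ⟨hz1, hz2⟩))
  have d3 := nU _ hp.rot.rot.rot (zr _ (zr _ (zr _ ⟨hz1, hz2⟩)))
  obtain ⟨a, e⟩ := outU p d0 d1 d2 d3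
  refine ⟨p, hp, ⟨d0, d1, d2, d3⟩, fun k => ?_, e ▸ hz2⟩
  rw [← a, hz1, ← hz1 0, a]
  rfl

end Pool.Agent.Lib.MP_5a3ebe_gt
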