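import Pool.Agent.Lib.MP_5a3ebe_gt.Side

/-!
No square near an arc of length `3π/4` with two opposite vertices near the end points.
-/

set_option autoImplicit false
set_option linter.unusedSectionVars false
set_option linter.unusedVariables false

namespace Pool.Agent.Lib.MP_5a3ebe_gt

open Real Complex

lemma sin_le_of {s x : ℝ} (hs : -(π / 2) ≤ s) (h1 : s ≤ x) (h2 : x ≤ π - s) :
    Real.sin s ≤ Real.sin x := by
  rcases le_total x (π / 2) with h | h
  · exact Real.sin_le_sin_of_le_of_le_pi_div_two hs h h1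
  · rw [← Real.sin_pi_sub x]
    exact Real.sin_le_sin_of_le_of_le_pi_div_two hs (by linarith) (by linarith)

lemma Arc.im_ge {β : ℝ → ℂ} {ψ : ℝ → ℝ} (h : Arc β ψ) {a b : ℝ} (hab : a ≤ b) (ω : ℝ)
    {g : ℝ → ℝ} (hg : Continuous g) (hle : ∀ s ∈ Set.Icc a b, g s ≤ Real.sin (ψ s - ω)) :
    ∫ s in a..b, g s ≤ (Complex.exp (-ω * I) * (β b - β a)).im := by
  have := (h.turn ω).int_le (-I) hab hg fun s hs => (hle s hs).trans (by
    simp only [neg_mul, Complex.neg_re, Complex.I_mul_re, neg_neg, Complex.exp_ofReal_mul_I_im,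
      le_refl])
  rw [← mul_sub] at this
  simpa only [neg_mul, Complex.neg_re, Complex.I_mul_re, neg_neg] using this

lemma Arc.re_ge {β : ℝ → ℂ} {ψ : ℝ → ℝ} (h : Arc β ψ) {a b : ℝ} (hab : a ≤ b) (c : ℝ)
    (ha : c - π ≤ a) (hb : b ≤ c + π) :
    Real.sin (b - c) - Real.sin (a - c) ≤ (Complex.exp (-(ψ c) * I) * (β b - β a)).re := by
  have := (h.turn (ψ c)).int_le 1 hab (g := fun s => Real.cos (s - c)) (by fun_prop)
    fun s hs => by
      rw [one_mul, Complex.exp_ofReal_mul_I_re, ← Real.cos_abs (s - c), ← Real.cos_abs (ψ s - ψ c)]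
      exact Real.cos_le_cos_of_nonneg_of_le_pi (abs_nonneg _)
        (abs_le.2 ⟨by linarith [hs.1], by linarith [hs.2]⟩) (h.lip s c)
  rw [intervalIntegral.integral_comp_sub_right (fun s => Real.cos s), integral_cos] at this
  simpa [mul_sub] using this

lemma Arc.jlow {β : ℝ → ℂ} {ψ : ℝ → ℝ} (h : Arc β ψ) {w : ℝ} (hw : 0 ≤ w) (hw2 : w ≤ π / 2) :
    0 ≤ (Complex.exp (-((max (max (ψ w - w) (ψ (-w) - w)) (ψ 0 - π / 2) : ℝ) : ℂ) * I) *
      (β w - β (-w))).im := by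
  have hab : -w ≤ w := by linarith
  rcases max_choice (max (ψ w - w) (ψ (-w) - w)) (ψ 0 - π / 2) with e | e
  · rw [e]
    rcases max_choice (ψ w - w) (ψ (-w) - w) with e | e
    · rw [e]
      refine le_trans ?_ (h.im_ge hab _ Real.continuous_sin fun s hs => ?_)
      · simp
      · have := abs_le.1 ((h.lip s w).trans (abs_of_nonpos (by linarith [hs.2])).le)
        exact sin_le_of (by linarith [hs.1]) (by linarith [this.1]) (by linarith [this.2])
    · rw [e]
      refine le_trans ?_ (h.im_ge hab _ (g := fun s => Real.sin (-s)) (by fun_prop) fun s hs => ?_)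
      · simp
      · have := abs_le.1 ((h.lip s (-w)).trans (abs_of_nonneg (by linarith [hs.1])).le)
        exact sin_le_of (by linarith [hs.2]) (by linarith [this.1]) (by linarith [this.2])
  · rw [e]
    refine le_trans ?_ (h.im_ge hab _ (g := fun s => 0) (by fun_prop) fun s hs => ?_)
    · simp
    · have h1 : |s - 0| ≤ π / 2 := abs_le.2 ⟨by linarith [hs.1], by linarith [hs.2]⟩
      have := abs_le.1 ((h.lip s 0).trans h1)
      exact Real.sin_nonneg_of_nonneg_of_le_pi (by linarith [this.1]) (by linarith [this.2])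

lemma Arc.frame {β : ℝ → ℂ} {ψ : ℝ → ℝ} (h : Arc β ψ) {w : ℝ} (hw : 0 ≤ w) (hw2 : w ≤ π / 2) :
    ∃ ω : ℝ, |ψ w - ω| ≤ w ∧ |ψ (-w) - ω| ≤ w ∧
      (Complex.exp (-ω * I) * (β w - β (-w))).im = 0 ∧
      2 * Real.sin w ≤ (Complex.exp (-ω * I) * (β w - β (-w))).re := by
  have hpi := pi_pos
  rcases hw.eq_or_lt with rfl | hw0
  · exact ⟨ψ 0, by simp⟩
  have l1 := h.jlow hw hw2
  have l2 := h.flip.jlow hw hw2
  set lo := max (max (ψ w - w) (ψ (-w) - w)) (ψ 0 - π / 2) with hlo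
  set hi := max (max (-ψ w - w) (-ψ (-w) - w)) (-ψ 0 - π / 2) with hhi
  have a1 := abs_le.1 ((h.lip w (-w)).trans (abs_of_nonneg (by linarith)).le)
  have a2 := abs_le.1 ((h.lip w 0).trans (abs_of_nonneg (by linarith)).le)
  have a3 := abs_le.1 ((h.lip 0 (-w)).trans (abs_of_nonneg (by linarith)).le)
  have hle : lo ≤ -hi := by
    rw [le_neg]
    refine max_le (max_le ?_ ?_) ?_ <;> rw [le_neg] <;> refine max_le (max_le ?_ ?_) ?_ <;>
      linarith [a1.1, a1.2, a2.1, a2.2, a3.1, a3.2]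
  have hc : Continuous fun ω : ℝ => (Complex.exp (-ω * I) * (β w - β (-w))).im := by fun_prop
  have l3 : (Complex.exp (-((-hi : ℝ) : ℂ) * I) * (β w - β (-w))).im ≤ 0 := by
    have : Complex.exp (-((-hi : ℝ) : ℂ) * I) * (β w - β (-w)) =
        (starRingEnd ℂ) (Complex.exp (-(hi : ℂ) * I) *
          ((starRingEnd ℂ) (β w) - (starRingEnd ℂ) (β (-w)))) := by
      simp [← Complex.exp_conj]
    rw [this, Complex.conj_im]
    linarith
  obtain ⟨ω, hω, hz⟩ := intermediate_value_Icc' hle hc.continuousOn ⟨l3, l1⟩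
  have b1 := max_le_iff.1 hω.1
  have b2 := max_le_iff.1 b1.1
  have b3 := max_le_iff.1 (le_neg.1 hω.2)
  have b4 := max_le_iff.1 b3.1
  refine ⟨ω, abs_le.2 ⟨by linarith [b4.1], by linarith [b2.1]⟩,
    abs_le.2 ⟨by linarith [b4.2], by linarith [b2.2]⟩, hz, ?_⟩
  have r1 := h.re_ge (a := -w) (b := w) (by linarith) 0 (by linarith) (by linarith)
  have e : Complex.exp (-(ψ 0) * I) * (β w - β (-w)) =
      Complex.exp (((ω - ψ 0 : ℝ) : ℂ) * I) * (Complex.exp (-ω * I) * (β w - β (-w))) := by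
    rw [← mul_assoc, ← Complex.exp_add]; congr 2; push_cast; ring
  simp only [] at hz
  rw [e, Complex.mul_re, hz, Complex.exp_ofReal_mul_I_re] at r1
  simp only [sub_zero, Real.sin_neg, mul_zero] at r1
  have c0 : 0 ≤ Real.cos (ω - ψ 0) :=
    Real.cos_nonneg_of_mem_Icc ⟨by linarith [b1.2], by linarith [b3.2]⟩
  have c1 := Real.cos_le_one (ω - ψ 0)
  have s1 : 0 < Real.sin w := Real.sin_pos_of_pos_of_lt_pi hw0 (by linarith)
  generalize (Complex.exp (-ω * I) * (β w - β (-w))).re = ρ at r1 ⊢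
  have : 0 < ρ := by
    by_contra hn
    nlinarith
  nlinarith

theorem Arc.diagA {β : ℝ → ℂ} {ψ : ℝ → ℝ} (h : Arc β ψ) {δ : ℝ}
    (hδ : δ < √2 - 1) {A B C D : ℂ} {w m : ℝ} (hA : ‖A - β (-(3 * π / 8 + m))‖ ≤ δ)
    (hC : ‖C - β (3 * π / 8 - m)‖ ≤ δ) (hB : ‖B - β (-w)‖ ≤ δ) (hD : ‖D - β w‖ ≤ δ)
    (hw : 0 ≤ w) (h1 : w ≤ 3 * π / 8 + m) (h2 : w ≤ 3 * π / 8 - m) (hm : |m| ≤ π / 8)
    (e : D - B = I * (C - A)) : False := by
  have hpi := pi_pos
  obtain ⟨ω, f1, f2, f3, f4⟩ := h.frame hw (by linarith)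
  have hm' := abs_le.1 hm
  have i1 := (h.turn ω).est (p := 1) 0 zero_le_one (a := -(3 * π / 8 + m)) (b := -w)
    (by linarith) (by linarith) (by linarith) fun s hs => by
      have := abs_sub_le (ψ s) (ψ (-w)) ω
      have h3 := h.lip s (-w)
      rw [abs_of_nonpos (by linarith [hs.2] : s - -w ≤ 0)] at h3
      rw [abs_of_nonpos (by linarith [hs.2] : s ≤ 0)]
      linarith
  have i3 := (h.turn ω).est (p := 1) 0 zero_le_one (a := w) (b := 3 * π / 8 - m)
    (by linarith) (by linarith) (by linarith) fun s hs => by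
      have := abs_sub_le (ψ s) (ψ w) ω
      have h3 := h.lip s w
      rw [abs_of_nonneg (by linarith [hs.1] : 0 ≤ s - w)] at h3
      rw [abs_of_nonneg (by linarith [hs.1] : 0 ≤ s)]
      linarith
  set E := Complex.exp (-ω * I) with hE
  have nE : ‖E‖ ≤ 1 := by
    rw [hE, show (-ω * I : ℂ) = ((-ω : ℝ) : ℂ) * I by push_cast; ring,
      Complex.norm_exp_ofReal_mul_I]
  have n1 := re_le_of hA (Λ := -E) (r := 1) (by rwa [norm_neg])
  have n2 := re_le_of hC nE
  have n3 := re_le_of hB (Λ := -(I * E)) (r := 1) (by simpa using nE)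
  have n4 := re_le_of hD (Λ := I * E) (r := 1) (by simpa using nE)
  have e' : D = B + I * (C - A) := by linear_combination e
  subst e'
  have c1 : Real.cos (π / 8) ≤ Real.cos m := by
    rw [← Real.cos_abs m]
    exact Real.cos_le_cos_of_nonneg_of_le_pi (abs_nonneg _) (by linarith) hm
  simp only [Real.sin_neg, Real.sin_add, Real.sin_sub, sin38, cos38, Complex.add_re,
    Complex.mul_re, Complex.mul_im, Complex.add_im, Complex.sub_re, Complex.neg_re, Complex.neg_im,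
    Complex.sub_im, Complex.ofReal_re, Complex.ofReal_im, Complex.I_re, Complex.I_im, abs_zero]
    at i1 i3 f3 f4 n1 n2 n3 n4
  have q2 : √2 ^ 2 = 2 := Real.sq_sqrt (by norm_num)
  have q0 : √2 ≤ 1.42 := Real.sqrt_le_iff.2 ⟨by norm_num, by norm_num⟩
  nlinarith [bb8, mul_le_mul_of_nonneg_left c1 b8_pos.le]

lemma s8_bounds : 0.38 ≤ Real.sin (π / 8) ∧ Real.sin (π / 8) ≤ 0.383 ∧
    0.923 ≤ Real.cos (π / 8) := by
  have q0 : √2 ≤ 1.4143 := Real.sqrt_le_iff.2 ⟨by norm_num, by norm_num⟩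
  have q1 : 1.4142 ≤ √2 := Real.le_sqrt_of_sq_le (by norm_num)
  have e := Real.sin_sq_add_cos_sq (π / 8)
  have e2 := bb8
  refine ⟨?_, ?_, ?_⟩
  · nlinarith [s8_pos]
  · nlinarith [s8_pos]
  · nlinarith [b8_pos]

theorem Arc.diagB {β : ℝ → ℂ} {ψ : ℝ → ℝ} (h : Arc β ψ) (h0 : ψ 0 = 0) {δ : ℝ}
    (hδ : δ < √2 - 1) {A B C D : ℂ} {u v : ℝ} (hA : ‖A - β (-(3 * π / 8))‖ ≤ δ)
    (hC : ‖C - β (3 * π / 8)‖ ≤ δ) (hB : ‖B - β u‖ ≤ δ) (hD : ‖D - β v‖ ≤ δ)
    (huv : u ≤ v) (hv : v ≤ 3 * π / 8) (hm : π / 4 ≤ u + v)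
    (e : D - B = I * (C - A)) (e2 : A + C = B + D) : False := by
  have hpi := pi_gt_d2
  have hpi2 := pi_lt_d2
  have hψ : ∀ s, |ψ s| ≤ |s| := fun s => by simpa [h0] using h.lip s 0
  have i1 := h.est (p := 1) 0 zero_le_one (a := -(3 * π / 8)) (b := u)
    (by linarith) (by linarith) (by linarith) fun s _ => hψ s
  have i2 := h.est (p := 5 / 6) (1 / 2) (by norm_num) huv
    (by linarith) (by linarith) fun s _ => hψ s
  have i3 := h.est (p := 1 / 3) (-(1 / 3)) (by norm_num) hv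
    (by linarith) (by linarith) fun s _ => hψ s
  have n1 := re_le_of hA (norm_le_of (p := -1) (q := 0) (r := 1) (by positivity) (by norm_num))
  have n2 := re_le_of hC (norm_le_of (p := 1 / 3) (q := -(1 / 3)) (r := 0.472) (by positivity)
    (by norm_num))
  have n3 := re_le_of hB (norm_le_of (p := 1 / 6) (q := -(1 / 2)) (r := 0.528) (by positivity)
    (by norm_num))
  have n4 := re_le_of hD (norm_le_of (p := 1 / 2) (q := 5 / 6) (r := 0.972) (by positivity)
    (by norm_num))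
  have eB : B = (A + C - I * (C - A)) / 2 := by linear_combination -(e + e2) / 2
  have eD : D = (A + C + I * (C - A)) / 2 := by linear_combination (e - e2) / 2
  have q0 : √2 ≤ 1.4143 := Real.sqrt_le_iff.2 ⟨by norm_num, by norm_num⟩
  obtain ⟨t1, t2, t3⟩ := s8_bounds
  rw [Kf_pos (t := v) (by linarith)] at i2 i3
  rw [Kf_pos (t := 3 * π / 8) (by linarith)] at i3
  have hb : 1.06 + 1.15 * (v - 0.39) ≤ 3 * Real.sin v + Real.cos v - 1 := by
    have a1 := Real.sin_ge_sub_cube (x := v) (by linarith)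
    have a2 := Real.one_sub_sq_div_two_le_cos (x := v)
    have a3 : 0.39 ≤ v := by linarith
    have a4 : v ≤ 1.19 := by linarith
    nlinarith [mul_nonneg (sub_nonneg.2 a3) (sub_nonneg.2 a4),
      mul_nonneg (mul_nonneg (sub_nonneg.2 a3) (sub_nonneg.2 a4)) (by linarith : 0 ≤ v)]
  have ha : 1.25 ≤ Real.sin u + 3 * Kf u + (3 * Real.sin v + Real.cos v - 1) := by
    rcases le_total u 0 with hu | hu
    · rw [Kf_neg hu]
      have a1 : u ≤ Real.sin u := by
        have := Real.sin_le (x := -u) (by linarith)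
        rw [Real.sin_neg] at this
        linarith
      have a2 := Real.one_sub_sq_div_two_le_cos (x := u)
      nlinarith
    · rw [Kf_pos hu]
      have a1 := Real.sin_ge_sub_cube hu
      have a2 := Real.cos_le_one u
      have a4 : u ≤ 1.19 := by linarith
      have a5 : u ^ 3 ≤ 1.5 * u := by nlinarith [mul_nonneg hu hu]
      rcases le_total v 0.56 with h5 | h5
      · have := Real.sin_ge_sub_cube (x := 0.22) (by norm_num)
        have := Real.sin_le_sin_of_le_of_le_pi_div_two (x := 0.22) (y := u) (by linarith)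
          (by linarith) (by linarith)
        linarith
      · linarith
  have eBr := congrArg Complex.re eB
  have eBi := congrArg Complex.im eB
  have eDr := congrArg Complex.re eD
  have eDi := congrArg Complex.im eD
  rw [abs_neg] at i3
  rw [abs_of_pos (by norm_num : (0 : ℝ) < 1 / 2)] at i2
  rw [abs_of_pos (by norm_num : (0 : ℝ) < 1 / 3)] at i3
  simp only [Real.sin_neg, sin38, cos38, Complex.add_re, Complex.div_ofNat_re, Complex.div_ofNat_im,
    Complex.mul_re, Complex.mul_im, Complex.add_im, Complex.sub_re,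
    Complex.sub_im, Complex.ofReal_re, Complex.ofReal_im, Complex.I_re, Complex.I_im, abs_zero]
    at i1 i2 i3 n1 n2 n3 n4 eBr eBi eDr eDi
  linarith

/-- no square with two adjacent vertices near the end points -/
theorem Arc.side {β : ℝ → ℂ} {ψ : ℝ → ℝ} (h : Arc β ψ) {δ : ℝ}
    (hδ : δ < √2 - 1) {A B C D : ℂ} {a b u v : ℝ} (hA : ‖A - β a‖ ≤ δ)
    (hB : ‖B - β b‖ ≤ δ) (hC : ‖C - β u‖ ≤ δ) (hD : ‖D - β v‖ ≤ δ) (hab : b - a = 3 * π / 4)
    (hu : a ≤ u ∧ u ≤ b) (hv : a ≤ v ∧ v ≤ b) (e1 : A + C = B + D)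
    (e2 : D - B = I * (C - A) ∨ D - B = -(I * (C - A))) : False := by
  have main : ∀ {β : ℝ → ℂ} {ψ : ℝ → ℝ} (h : Arc β ψ) {A B C D : ℂ} (hA : ‖A - β a‖ ≤ δ)
      (hB : ‖B - β b‖ ≤ δ) (hC : ‖C - β u‖ ≤ δ) (hD : ‖D - β v‖ ≤ δ) (e1 : A + C = B + D)
      (e2 : D - B = I * (C - A)), False := by
    intro β ψ h A B C D hA hB hC hD e1 e2
    set c := (a + b) / 2 with hc
    set E := Complex.exp (-(ψ (0 + c)) * I) with hE
    have nE : ‖E‖ = 1 := by
      rw [hE, show (-(ψ (0 + c)) * I : ℂ) = ((-ψ (0 + c) : ℝ) : ℂ) * I by push_cast; ring,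
        Complex.norm_exp_ofReal_mul_I]
    have tr : ∀ {Z : ℂ} {x y : ℝ}, ‖Z - β x‖ ≤ δ → y + c = x → ‖E * Z - E * β (y + c)‖ ≤ δ := by
      intro Z x y hZ hy
      rwa [← mul_sub, norm_mul, nE, one_mul, hy]
    refine ((h.shift c).turn (ψ (0 + c))).side0 (sub_self _) hδ (A := E * A) (B := E * B)
      (C := E * C) (D := E * D) (u := u - c) (v := v - c) (tr hA (by linarith))
      (tr hB (by linarith)) (tr hC (by ring)) (tr hD (by ring))
      (abs_le.2 ⟨by linarith [hu.1], by linarith [hu.2]⟩)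
      (abs_le.2 ⟨by linarith [hv.1], by linarith [hv.2]⟩) ?_ ?_
    · linear_combination E * (1 + I) / 2 * e1 + E * (1 + I) / 2 * e2 +
        E * (C - A) / 2 * I_mul_I
    · linear_combination E * (I - 1) / 2 * e1 + E * (1 + I) / 2 * e2 +
        E * (C - A) / 2 * I_mul_I
  rcases e2 with e2 | e2
  · exact main h hA hB hC hD e1 e2
  · have cj : ∀ {Z : ℂ} {x : ℝ}, ‖Z - β x‖ ≤ δ →
        ‖(starRingEnd ℂ) Z - (starRingEnd ℂ) (β x)‖ ≤ δ := by
      intro Z x hZ; rwa [← map_sub, Complex.norm_conj]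
    refine main h.flip (cj hA) (cj hB) (cj hC) (cj hD) (by rw [← map_add, ← map_add, e1]) ?_
    rw [← map_sub, e2]; simp

/-- no square with two opposite vertices near the end points -/
theorem Arc.diag {β : ℝ → ℂ} {ψ : ℝ → ℝ} (h : Arc β ψ) {δ : ℝ}
    (hδ : δ < √2 - 1) {A B C D : ℂ} {a c u v : ℝ} (hA : ‖A - β a‖ ≤ δ)
    (hC : ‖C - β c‖ ≤ δ) (hB : ‖B - β u‖ ≤ δ) (hD : ‖D - β v‖ ≤ δ) (hac : c - a = 3 * π / 4)
    (hu : a ≤ u ∧ u ≤ c) (hv : a ≤ v ∧ v ≤ c) (e1 : A + C = B + D)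
    (e2 : D - B = I * (C - A) ∨ D - B = -(I * (C - A))) : False := by
  have m1 : ∀ {β : ℝ → ℂ} {ψ : ℝ → ℝ} (h : Arc β ψ) {A B C D : ℂ} {a c u v : ℝ}
      (hA : ‖A - β a‖ ≤ δ) (hC : ‖C - β c‖ ≤ δ) (hB : ‖B - β u‖ ≤ δ) (hD : ‖D - β v‖ ≤ δ)
      (hac : c - a = 3 * π / 4) (huv : u ≤ v) (hv : v ≤ c) (hm : π / 4 + (a + c) ≤ u + v)
      (e1 : A + C = B + D) (e2 : D - B = I * (C - A)), False := by
    intro β ψ h A B C D a c u v hA hC hB hD hac huv hv hm e1 e2
    set o := (a + c) / 2 with hc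
    set E := Complex.exp (-(ψ (0 + o)) * I) with hE
    have nE : ‖E‖ = 1 := by
      rw [hE, show (-(ψ (0 + o)) * I : ℂ) = ((-ψ (0 + o) : ℝ) : ℂ) * I by push_cast; ring,
        Complex.norm_exp_ofReal_mul_I]
    have tr : ∀ {Z : ℂ} {x y : ℝ}, ‖Z - β x‖ ≤ δ → y + o = x → ‖E * Z - E * β (y + o)‖ ≤ δ := by
      intro Z x y hZ hy
      rwa [← mul_sub, norm_mul, nE, one_mul, hy]
    exact ((h.shift o).turn (ψ (0 + o))).diagB (sub_self _) hδ (A := E * A) (B := E * B)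
      (C := E * C) (D := E * D) (u := u - o) (v := v - o) (tr hA (by linarith))
      (tr hC (by linarith)) (tr hB (by ring)) (tr hD (by ring)) (by linarith) (by linarith)
      (by linarith) (by linear_combination E * e2) (by linear_combination E * e1)
  have m2 : ∀ {β : ℝ → ℂ} {ψ : ℝ → ℝ} (h : Arc β ψ) {A B C D : ℂ} {u v : ℝ}
      (hA : ‖A - β a‖ ≤ δ) (hC : ‖C - β c‖ ≤ δ) (hB : ‖B - β u‖ ≤ δ) (hD : ‖D - β v‖ ≤ δ)
      (hu : a ≤ u) (huv : u ≤ v) (hv : v ≤ c)
      (e1 : A + C = B + D) (e2 : D - B = I * (C - A)), False := by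
    intro β ψ h A B C D u v hA hC hB hD hu huv hv e1 e2
    rcases le_total (π / 4 + (a + c)) (u + v) with hm | hm
    · exact m1 h hA hC hB hD hac huv hv hm e1 e2
    rcases le_total (u + v) (a + c - π / 4) with hm2 | hm2
    · have ng : ∀ {Z : ℂ} {x : ℝ}, ‖Z - β x‖ ≤ δ → ‖-Z - -β (- -x)‖ ≤ δ := by
        intro Z x hZ; rwa [neg_neg, neg_sub_neg, norm_sub_rev]
      exact m1 h.rev (ng hC) (ng hA) (ng hD) (ng hB) (by linarith) (by linarith) (by linarith)
        (by linarith) (by linear_combination -e1) (by linear_combination e2)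
    · have tr : ∀ {Z : ℂ} {x y : ℝ}, ‖Z - β x‖ ≤ δ → y + (u + v) / 2 = x →
          ‖Z - β (y + (u + v) / 2)‖ ≤ δ := by
        intro Z x y hZ hy
        rwa [hy]
      exact (h.shift ((u + v) / 2)).diagA hδ (w := (v - u) / 2) (m := (u + v) / 2 - (a + c) / 2)
        (tr hA (by linarith)) (tr hC (by linarith)) (tr hB (by ring)) (tr hD (by ring))
        (by linarith) (by linarith) (by linarith) (abs_le.2 ⟨by linarith, by linarith⟩) e2
  have cj : ∀ {Z : ℂ} {x : ℝ}, ‖Z - β x‖ ≤ δ →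
      ‖(starRingEnd ℂ) Z - (starRingEnd ℂ) (β x)‖ ≤ δ := by
    intro Z x hZ; rwa [← map_sub, Complex.norm_conj]
  rcases le_total u v with huv | huv <;> rcases e2 with e2 | e2
  · exact m2 h hA hC hB hD hu.1 huv hv.2 e1 e2
  · refine m2 h.flip (cj hA) (cj hC) (cj hB) (cj hD) hu.1 huv hv.2
      (by rw [← map_add, ← map_add, e1]) ?_
    rw [← map_sub, e2]; simp
  · refine m2 h.flip (cj hA) (cj hC) (cj hD) (cj hB) hv.1 huv hu.2
      (by rw [← map_add, ← map_add, e1, add_comm]) ?_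
    rw [← map_sub, ← neg_sub, e2]; simp
  · exact m2 h hA hC hD hB hv.1 huv hu.2 (by rw [e1, add_comm]) (by linear_combination -e2)

/-- no square near an arc whose parameters spread over exactly `3π/4` -/
theorem Arc.no_square {β : ℝ → ℂ} {ψ : ℝ → ℝ} (h : Arc β ψ) {δ : ℝ} (hδ : δ < √2 - 1)
    (P : Fin 4 → ℂ) (x : Fin 4 → ℝ) (hP : ∀ k, ‖P k - β (x k)‖ ≤ δ) (i j : Fin 4)
    (hij : x j - x i = 3 * π / 4) (hx : ∀ k, x i ≤ x k ∧ x k ≤ x j)
    (e1 : P 0 + P 2 = P 1 + P 3)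
    (e2 : P 3 - P 1 = I * (P 2 - P 0) ∨ P 3 - P 1 = -(I * (P 2 - P 0))) : False := by
  have hpi := pi_pos
  have r1 : P 0 - P 2 = I * (P 3 - P 1) ∨ P 0 - P 2 = -(I * (P 3 - P 1)) :=
    e2.imp (fun e => by linear_combination (-I) * e - (P 2 - P 0) * I_mul_I)
      (fun e => by linear_combination I * e - (P 2 - P 0) * I_mul_I)
  have sw : ∀ {a b c d : ℂ}, (a - b = I * (c - d) ∨ a - b = -(I * (c - d))) →
      (b - a = I * (c - d) ∨ b - a = -(I * (c - d))) := fun e =>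
    e.symm.imp (fun e => by linear_combination -e) (fun e => by linear_combination -e)
  have sw2 : ∀ {a b c d : ℂ}, (a - b = I * (c - d) ∨ a - b = -(I * (c - d))) →
      (a - b = I * (d - c) ∨ a - b = -(I * (d - c))) := fun e =>
    e.symm.imp (fun e => by linear_combination e) (fun e => by linear_combination e)
  fin_cases i <;> fin_cases j
  · simp at hij; linarith
  · exact h.side hδ (hP 0) (hP 1) (hP 2) (hP 3) hij (hx 2) (hx 3) e1 e2
  · exact h.diag hδ (hP 0) (hP 2) (hP 1) (hP 3) hij (hx 1) (hx 3) e1 e2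
  · exact h.side hδ (hP 0) (hP 3) (hP 2) (hP 1) hij (hx 2) (hx 1) (by linear_combination e1) (sw e2)
  · exact h.side hδ (hP 1) (hP 0) (hP 3) (hP 2) hij (hx 3) (hx 2) (by linear_combination -e1)
      (sw r1)
  · simp at hij; linarith
  · exact h.side hδ (hP 1) (hP 2) (hP 3) (hP 0) hij (hx 3) (hx 0) (by linear_combination -e1) r1
  · exact h.diag hδ (hP 1) (hP 3) (hP 2) (hP 0) hij (hx 2) (hx 0) (by linear_combination -e1) r1
  · exact h.diag hδ (hP 2) (hP 0) (hP 1) (hP 3) hij (hx 1) (hx 3) (by linear_combination e1)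
      (sw2 e2)
  · exact h.side hδ (hP 2) (hP 1) (hP 0) (hP 3) hij (hx 0) (hx 3) (by linear_combination e1)
      (sw2 e2)
  · simp at hij; linarith
  · exact h.side hδ (hP 2) (hP 3) (hP 0) (hP 1) hij (hx 0) (hx 1) (by linear_combination e1)
      (sw (sw2 e2))
  · exact h.side hδ (hP 3) (hP 0) (hP 1) (hP 2) hij (hx 1) (hx 2) (by linear_combination -e1)
      (sw (sw2 r1))
  · exact h.diag hδ (hP 3) (hP 1) (hP 2) (hP 0) hij (hx 2) (hx 0) (by linear_combination -e1)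
      (sw2 r1)
  · exact h.side hδ (hP 3) (hP 2) (hP 1) (hP 0) hij (hx 1) (hx 0) (by linear_combination -e1)
      (sw2 r1)
  · simp at hij; linarith

end Pool.Agent.Lib.MP_5a3ebe_gt
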