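import Mathlib

/-!
Elementary plane geometry of equilateral quadrilaterals.
-/

set_option autoImplicit false
set_option linter.unusedSectionVars false
set_option linter.unusedVariables false

namespace Pool.Agent.Lib.MP_5a3ebe_gt

open Real Complex

lemma norm_eq_sq {z : ℂ} {a : ℝ} (h : ‖z‖ = a) : z.re ^ 2 + z.im ^ 2 = a ^ 2 := by
  rw [← h, Complex.sq_norm, Complex.normSq_apply]; ring

lemma zero_cases {A B C D : ℂ} {a s : ℝ} (h1 : ‖B - A‖ = a) (h2 : ‖C - B‖ = a)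
    (h3 : ‖D - C‖ = a) (h4 : ‖A - D‖ = a) (hs : s ≤ 1) (hs0 : 0 ≤ s)
    (h5 : max ‖C - A‖ (s * a) = ‖D - B‖) :
    (A + C = B + D ∧ (D - B = I * (C - A) ∨ D - B = -(I * (C - A)))) ∨ A = C ∨ B = D := by
  by_cases hAC : A = C
  · exact Or.inr (Or.inl hAC)
  by_cases hBD : B = D
  · exact Or.inr (Or.inr hBD)
  left
  have a0 : 0 ≤ a := h1 ▸ norm_nonneg _
  have e1 := norm_eq_sq h1
  have e2 := norm_eq_sq h2
  have e3 := norm_eq_sq h3
  have e4 := norm_eq_sq h4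
  have e5 := norm_eq_sq (z := C - A) rfl
  have e6 := norm_eq_sq (z := D - B) rfl
  have n5 : 0 < ‖C - A‖ := norm_pos_iff.2 (sub_ne_zero.2 (Ne.symm hAC))
  have n6 : 0 < ‖D - B‖ := norm_pos_iff.2 (sub_ne_zero.2 (Ne.symm hBD))
  simp only [Complex.sub_re, Complex.sub_im] at e1 e2 e3 e4 e5 e6
  obtain ⟨d1, hd1⟩ : ∃ d, d = C.re - A.re := ⟨_, rfl⟩
  obtain ⟨d2, hd2⟩ : ∃ d, d = C.im - A.im := ⟨_, rfl⟩
  obtain ⟨f1, hf1⟩ : ∃ d, d = D.re - B.re := ⟨_, rfl⟩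
  obtain ⟨f2, hf2⟩ : ∃ d, d = D.im - B.im := ⟨_, rfl⟩
  obtain ⟨m1, hm1⟩ : ∃ d, d = A.re + C.re - B.re - D.re := ⟨_, rfl⟩
  obtain ⟨m2, hm2⟩ : ∃ d, d = A.im + C.im - B.im - D.im := ⟨_, rfl⟩
  have df : d1 * f1 + d2 * f2 = 0 := by
    rw [hd1, hd2, hf1, hf2]; linear_combination (e2 + e4 - e1 - e3) / 2
  have md : m1 * d1 + m2 * d2 = 0 := by
    rw [hd1, hd2, hm1, hm2]; linear_combination (e2 + e3 - e1 - e4) / 2
  have mf : m1 * f1 + m2 * f2 = 0 := by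
    rw [hf1, hf2, hm1, hm2]; linear_combination (e1 + e2 - e3 - e4) / 2
  rw [← hd1, ← hd2] at e5
  rw [← hf1, ← hf2] at e6
  have cr : (d1 * f2 - d2 * f1) ^ 2 = ‖C - A‖ ^ 2 * ‖D - B‖ ^ 2 := by
    rw [← e5, ← e6]; linear_combination -(d1 * f1 + d2 * f2) * df
  have cr0 : d1 * f2 - d2 * f1 ≠ 0 := by
    intro h; rw [h] at cr
    have : 0 < ‖C - A‖ ^ 2 * ‖D - B‖ ^ 2 := by positivity
    linarith
  have z1 : m1 = 0 := by
    have : m1 * (d1 * f2 - d2 * f1) = 0 := by linear_combination f2 * md - d2 * mf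
    exact (mul_eq_zero.1 this).resolve_right cr0
  have z2 : m2 = 0 := by
    have : m2 * (d1 * f2 - d2 * f1) = 0 := by linear_combination d1 * mf - f1 * md
    exact (mul_eq_zero.1 this).resolve_right cr0
  have sum : ‖C - A‖ ^ 2 + ‖D - B‖ ^ 2 = 4 * a ^ 2 := by
    rw [← e5, ← e6, hd1, hd2, hf1, hf2]
    linear_combination e1 + e2 + e3 + e4 + (A.re + C.re - B.re - D.re) * (hm1 - z1) +
      (A.im + C.im - B.im - D.im) * (hm2 - z2)
  have eq : ‖C - A‖ = ‖D - B‖ := by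
    rcases le_total (s * a) ‖C - A‖ with h | h
    · rwa [max_eq_left h] at h5
    · rw [max_eq_right h] at h5
      have : s * a ≤ a := by nlinarith
      nlinarith
  refine ⟨Complex.ext (by simp only [Complex.add_re]; linarith)
    (by simp only [Complex.add_im]; linarith), ?_⟩
  rw [← eq] at cr e6
  have dpos : 0 < d1 ^ 2 + d2 ^ 2 := by rw [e5]; positivity
  have : (d1 * f2 - d2 * f1 - (d1 ^ 2 + d2 ^ 2)) * (d1 * f2 - d2 * f1 + (d1 ^ 2 + d2 ^ 2)) = 0 := by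
    rw [e5]; linear_combination cr
  rcases mul_eq_zero.1 this with h | h
  · left
    have k1 : (d1 ^ 2 + d2 ^ 2) * (f1 + d2) = 0 := by linear_combination d1 * df - d2 * h
    have k2 : (d1 ^ 2 + d2 ^ 2) * (f2 - d1) = 0 := by linear_combination d2 * df + d1 * h
    have k1 := (mul_eq_zero.1 k1).resolve_left dpos.ne'
    have k2 := (mul_eq_zero.1 k2).resolve_left dpos.ne'
    apply Complex.ext <;> simp <;> linarith
  · right
    have k1 : (d1 ^ 2 + d2 ^ 2) * (f1 - d2) = 0 := by linear_combination d1 * df - d2 * h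
    have k2 : (d1 ^ 2 + d2 ^ 2) * (f2 + d1) = 0 := by linear_combination d2 * df + d1 * h
    have k1 := (mul_eq_zero.1 k1).resolve_left dpos.ne'
    have k2 := (mul_eq_zero.1 k2).resolve_left dpos.ne'
    apply Complex.ext <;> simp <;> linarith

/-- the spread of four reals -/
def spr (a b c d : ℝ) : ℝ := max (max a b) (max c d) - min (min a b) (min c d)

lemma spr_le {a b c d r : ℝ} (h1 : |a - b| ≤ r) (h2 : |a - c| ≤ r) (h3 : |a - d| ≤ r)
    (h4 : |b - c| ≤ r) (h5 : |b - d| ≤ r) (h6 : |c - d| ≤ r) : spr a b c d ≤ r := by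
  have := abs_nonneg (a - b)
  rw [abs_le] at h1 h2 h3 h4 h5 h6
  unfold spr
  simp only [max_def, min_def]
  split_ifs <;> linarith [h1.1, h1.2, h2.1, h2.2, h3.1, h3.2, h4.1, h4.2, h5.1, h5.2, h6.1, h6.2]

lemma le_spr (x : Fin 4 → ℝ) (i j : Fin 4) : |x i - x j| ≤ spr (x 0) (x 1) (x 2) (x 3) := by
  have h1 : ∀ k, x k ≤ max (max (x 0) (x 1)) (max (x 2) (x 3)) := by
    intro k; fin_cases k <;> simp
  have h2 : ∀ k, min (min (x 0) (x 1)) (min (x 2) (x 3)) ≤ x k := by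
    intro k; fin_cases k <;> simp
  unfold spr
  exact abs_le.2 ⟨by linarith [h1 j, h2 i], by linarith [h1 i, h2 j]⟩

lemma exists_spr (x : Fin 4 → ℝ) : ∃ i j, x j - x i = spr (x 0) (x 1) (x 2) (x 3) ∧
    ∀ k, x i ≤ x k ∧ x k ≤ x j := by
  obtain ⟨j, -, hj⟩ := Finset.exists_max_image Finset.univ x ⟨0, Finset.mem_univ _⟩
  obtain ⟨i, -, hi⟩ := Finset.exists_min_image Finset.univ x ⟨0, Finset.mem_univ _⟩
  simp only [Finset.mem_univ, true_imp_iff] at hi hj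
  refine ⟨i, j, le_antisymm ((le_abs_self _).trans (le_spr x j i)) ?_, fun k => ⟨hi k, hj k⟩⟩
  have : ∀ a b, |x a - x b| ≤ x j - x i := fun a b =>
    abs_le.2 ⟨by linarith [hi a, hj b], by linarith [hj a, hi b]⟩
  exact spr_le (this _ _) (this _ _) (this _ _) (this _ _) (this _ _) (this _ _)

lemma spr_add (a b c d L : ℝ) : spr (a + L) (b + L) (c + L) (d + L) = spr a b c d := by
  simp only [spr, max_add_add_right, min_add_add_right]; ring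

lemma flat_square {A B C D : ℂ} {δ : ℝ} (hA : |A.im| ≤ δ) (hB : |B.im| ≤ δ) (hC : |C.im| ≤ δ)
    (hD : |D.im| ≤ δ) (e1 : A + C = B + D)
    (e2 : D - B = I * (C - A) ∨ D - B = -(I * (C - A))) : spr A.re B.re C.re D.re ≤ 2 * δ := by
  have a1 := congrArg Complex.re e1
  have a2 := congrArg Complex.im e1
  rw [abs_le] at hA hB hC hD
  rcases e2 with e2 | e2 <;>
  · have a3 := congrArg Complex.re e2
    have a4 := congrArg Complex.im e2
    simp at a1 a2 a3 a4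
    refine spr_le ?_ ?_ ?_ ?_ ?_ ?_ <;> rw [abs_le] <;> constructor <;>
      linarith [hA.1, hA.2, hB.1, hB.2, hC.1, hC.2, hD.1, hD.2]

lemma flat_triangle {A B D : ℂ} {δ a : ℝ} (hA : |A.im| ≤ δ) (hB : |B.im| ≤ δ)
    (hD : |D.im| ≤ δ) (h1 : ‖B - A‖ = a) (h2 : ‖A - D‖ = a) (h3 : ‖D - B‖ = a) : a ≤ 3 * δ := by
  have a0 : 0 ≤ a := h1 ▸ norm_nonneg _
  have d0 : 0 ≤ δ := (abs_nonneg _).trans hA
  have e1 := norm_eq_sq h1
  have e2 := norm_eq_sq h2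
  have e3 := norm_eq_sq h3
  simp only [Complex.sub_re, Complex.sub_im] at e1 e2 e3
  obtain ⟨u1, hu1⟩ : ∃ d, d = B.re - A.re := ⟨_, rfl⟩
  obtain ⟨u2, hu2⟩ : ∃ d, d = B.im - A.im := ⟨_, rfl⟩
  obtain ⟨w1, hw1⟩ : ∃ d, d = D.re - A.re := ⟨_, rfl⟩
  obtain ⟨w2, hw2⟩ : ∃ d, d = D.im - A.im := ⟨_, rfl⟩
  have f1 : u1 ^ 2 + u2 ^ 2 = a ^ 2 := by rw [hu1, hu2]; exact e1
  have f2 : w1 ^ 2 + w2 ^ 2 = a ^ 2 := by rw [hw1, hw2]; linear_combination e2
  have f3 : u1 * w1 + u2 * w2 = a ^ 2 / 2 := by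
    rw [hu1, hu2, hw1, hw2]; linear_combination (e1 + e2 - e3) / 2
  have g1 : (u1 * w2 - u2 * w1) ^ 2 = 3 / 4 * a ^ 4 := by
    have : (u1 * w2 - u2 * w1) ^ 2 = (u1 ^ 2 + u2 ^ 2) * (w1 ^ 2 + w2 ^ 2) -
      (u1 * w1 + u2 * w2) ^ 2 := by ring
    rw [this, f1, f2, f3]; ring
  have g2 : a ^ 2 * (u2 ^ 2 + w2 ^ 2 - u2 * w2) = 3 / 4 * a ^ 4 := by
    rw [← g1]; linear_combination -(w2 ^ 2) * f1 - u2 ^ 2 * f2 + 2 * u2 * w2 * f3
  rw [abs_le] at hA hB hD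
  have b1 : u2 ^ 2 ≤ (2 * δ) ^ 2 := sq_le_sq' (by linarith [hA.2, hB.1]) (by linarith [hA.1, hB.2])
  have b2 : w2 ^ 2 ≤ (2 * δ) ^ 2 := sq_le_sq' (by linarith [hA.2, hD.1]) (by linarith [hA.1, hD.2])
  have b3 : (u2 - w2) ^ 2 ≤ (2 * δ) ^ 2 :=
    sq_le_sq' (by linarith [hD.2, hB.1]) (by linarith [hD.1, hB.2])
  by_contra hn
  have hn := not_le.1 hn
  have apos : 0 < a ^ 2 := by have : 0 < a := by linarith
                              positivity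
  have g3 : u2 ^ 2 + w2 ^ 2 - u2 * w2 = 3 / 4 * a ^ 2 :=
    mul_left_cancel₀ apos.ne' (by rw [g2]; ring)
  nlinarith

lemma line_case {a b c d r : ℝ} (h1 : |b - a| = r) (h2 : |c - b| = r) (h3 : |d - c| = r)
    (h4 : |a - d| ≤ r) (h5 : max |c - a| r = |d - b|) : r = 0 := by
  have r0 : 0 ≤ r := h1 ▸ abs_nonneg _
  have k1 := le_max_left |c - a| r
  have k2 := le_max_right |c - a| r
  have k3 := max_choice |c - a| r
  rw [h5] at k1 k2 k3
  rw [abs_le] at h4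
  rcases (abs_eq r0).1 h1 with h1 | h1 <;> rcases (abs_eq r0).1 h2 with h2 | h2 <;>
    rcases (abs_eq r0).1 h3 with h3 | h3 <;>
    rcases abs_cases (c - a) with ⟨m1, -⟩ | ⟨m1, -⟩ <;>
    rcases abs_cases (d - b) with ⟨m2, -⟩ | ⟨m2, -⟩ <;>
    rcases k3 with k3 | k3 <;> linarith [h4.1, h4.2]

lemma square_out {A B C D : ℂ} {X : Set ℂ} (hA : A ∈ X) (hB : B ∈ X) (hC : C ∈ X) (hD : D ∈ X)
    (h1 : A ≠ B) (h2 : A ≠ D) (e1 : A + C = B + D)
    (e2 : D - B = I * (C - A) ∨ D - B = -(I * (C - A))) :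
    ∃ z w : ℂ, w ≠ 0 ∧ z ∈ X ∧ z + w ∈ X ∧ z + w + I * w ∈ X ∧ z + I * w ∈ X := by
  rcases e2 with e2 | e2
  · refine ⟨A, B - A, sub_ne_zero.2 h1.symm, hA, by simpa using hB, ?_, ?_⟩
    · convert hC using 1
      linear_combination -(1 + I) / 2 * e1 - (1 + I) / 2 * e2 - (C - A) / 2 * I_mul_I
    · convert hD using 1
      linear_combination -(I - 1) / 2 * e1 - (1 + I) / 2 * e2 - (C - A) / 2 * I_mul_I
  · refine ⟨A, D - A, sub_ne_zero.2 h2.symm, hA, by simpa using hD, ?_, ?_⟩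
    · convert hC using 1
      linear_combination -(1 + I) / 2 * e1 + (1 + I) / 2 * e2 - (C - A) / 2 * I_mul_I
    · convert hB using 1
      linear_combination -(I - 1) / 2 * e1 + (1 + I) / 2 * e2 - (C - A) / 2 * I_mul_I

end Pool.Agent.Lib.MP_5a3ebe_gt
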