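import Pool.Agent.Lib.MP_5a3ebe_gt.Diag

/-!
Normal coordinates in the tube around an arc of curvature at most one.
-/

set_option autoImplicit false
set_option linter.unusedSectionVars false
set_option linter.unusedVariables false

namespace Pool.Agent.Lib.MP_5a3ebe_gt

open Real Complex

lemma half_sin_lt {w d : ℝ} (hw : 0 < w) (hw2 : w ≤ 3 * π / 4) (hd : |d| ≤ w) :
    |Real.sin d| / 2 < Real.sin w := by
  have hpi := pi_pos
  rcases le_total w (π / 2) with h | h
  · have h2 : |Real.sin d| ≤ Real.sin w := by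
      rw [Real.abs_sin_eq_sin_abs_of_abs_le_pi (by linarith)]
      exact Real.sin_le_sin_of_le_of_le_pi_div_two (by linarith [abs_nonneg d]) h hd
    have := Real.sin_pos_of_pos_of_lt_pi hw (by linarith)
    linarith
  · have h1 := sin_le_of (s := π / 4) (x := w) (by linarith) (by linarith) (by linarith)
    rw [Real.sin_pi_div_four] at h1
    have q1 : 1.4 ≤ √2 := Real.le_sqrt_of_sq_le (by norm_num)
    have := Real.abs_sin_le_one d
    linarith

lemma normal_re (a b y : ℝ) :
    (Complex.exp (-a * I) * (y * I * Complex.exp (b * I))).re = -(y * Real.sin (b - a)) := by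
  have : Complex.exp (-a * I) * (y * I * Complex.exp (b * I)) =
      y * (I * Complex.exp (((b - a : ℝ) : ℂ) * I)) := by
    rw [show (((b - a : ℝ) : ℂ) * I) = -a * I + b * I by push_cast; ring, Complex.exp_add]; ring
  rw [this, Complex.re_ofReal_mul, Complex.I_mul_re, Complex.exp_ofReal_mul_I_im]; ring

namespace Arc
variable {β : ℝ → ℂ} {ψ : ℝ → ℝ}

lemma foot_neg (h : Arc β ψ) {x0 y x : ℝ} (hy : |y| ≤ 1 / 2) (h1 : x0 < x)
    (h2 : x ≤ x0 + 3 * π / 4) :
    (Complex.exp (-(ψ x) * I) * (β x0 + y * I * Complex.exp (ψ x0 * I) - β x)).re < 0 := by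
  have hpi := pi_pos
  have a1 := h.re_ge h1.le x (by linarith) (by linarith)
  have a2 := half_sin_lt (w := x - x0) (d := ψ x0 - ψ x) (by linarith) (by linarith)
    ((h.lip x0 x).trans (by rw [abs_sub_comm, abs_of_pos (by linarith)]))
  have a3 : |y * Real.sin (ψ x0 - ψ x)| ≤ 1 / 2 * |Real.sin (ψ x0 - ψ x)| := by
    rw [abs_mul]; exact mul_le_mul_of_nonneg_right hy (abs_nonneg _)
  rw [show β x0 + y * I * Complex.exp (ψ x0 * I) - β x =
    y * I * Complex.exp (ψ x0 * I) - (β x - β x0) by ring, mul_sub, Complex.sub_re, normal_re]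
  rw [sub_self, Real.sin_zero, ← neg_sub x x0, Real.sin_neg] at a1
  linarith [neg_abs_le (y * Real.sin (ψ x0 - ψ x))]

lemma foot_pos (h : Arc β ψ) {x0 y x : ℝ} (hy : |y| ≤ 1 / 2) (h1 : x < x0)
    (h2 : x0 ≤ x + 3 * π / 4) :
    0 < (Complex.exp (-(ψ x) * I) * (β x0 + y * I * Complex.exp (ψ x0 * I) - β x)).re := by
  have hpi := pi_pos
  have a1 := h.re_ge h1.le x (by linarith) (by linarith)
  have a2 := half_sin_lt (w := x0 - x) (d := ψ x0 - ψ x) (by linarith) (by linarith)
    ((h.lip x0 x).trans (by rw [abs_of_pos (by linarith)]))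
  have a3 : |y * Real.sin (ψ x0 - ψ x)| ≤ 1 / 2 * |Real.sin (ψ x0 - ψ x)| := by
    rw [abs_mul]; exact mul_le_mul_of_nonneg_right hy (abs_nonneg _)
  rw [show β x0 + y * I * Complex.exp (ψ x0 * I) - β x =
    y * I * Complex.exp (ψ x0 * I) + (β x0 - β x) by ring, mul_add, Complex.add_re, normal_re]
  rw [sub_self, Real.sin_zero] at a1
  linarith [le_abs_self (y * Real.sin (ψ x0 - ψ x))]

lemma tube_inj (h : Arc β ψ) {x y x' y' : ℝ} (hy : |y| ≤ 1 / 2) (hx : |x - x'| ≤ 3 * π / 4)
    (e : β x + y * I * Complex.exp (ψ x * I) = β x' + y' * I * Complex.exp (ψ x' * I)) :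
    x = x' ∧ y = y' := by
  have hz : (Complex.exp (-(ψ x') * I) * (β x + y * I * Complex.exp (ψ x * I) - β x')).re = 0 := by
    rw [e, add_sub_cancel_left, normal_re]; simp
  have hx' := abs_le.1 hx
  have : x = x' := by
    rcases lt_trichotomy x x' with l | l | l
    · exact absurd hz (h.foot_neg hy l (by linarith)).ne
    · exact l
    · exact absurd hz (h.foot_pos hy l (by linarith)).ne'
  subst this
  refine ⟨rfl, ?_⟩
  have e2 := mul_right_cancel₀ (Complex.exp_ne_zero _) (add_left_cancel e)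
  exact_mod_cast mul_right_cancel₀ Complex.I_ne_zero e2

lemma chord_ge (h : Arc β ψ) {a b : ℝ} (hab : a ≤ b) (h2 : b ≤ a + π) :
    Real.sin (b - a) ≤ ‖β b - β a‖ := by
  have a1 := h.re_ge hab a (by linarith [pi_pos]) h2
  have a2 := Complex.re_le_norm (Complex.exp (-(ψ a) * I) * (β b - β a))
  rw [norm_mul, show (-(ψ a) * I : ℂ) = ((-ψ a : ℝ) : ℂ) * I by push_cast; ring,
    Complex.norm_exp_ofReal_mul_I, one_mul] at a2
  rw [show (-(ψ a) * I : ℂ) = ((-ψ a : ℝ) : ℂ) * I by push_cast; ring] at a1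
  simp only [sub_self, Real.sin_zero] at a1
  linarith

lemma exists_foot (h : Arc β ψ) {z : ℂ} {φ δ : ℝ} (hδ : δ ≤ √2 - 1) (hz : ‖z - β φ‖ ≤ δ) :
    ∃ x y : ℝ, |x - φ| ≤ π / 3 ∧ |y| ≤ δ ∧ z = β x + y * I * Complex.exp (ψ x * I) := by
  have hpi := pi_pos
  have hc : Continuous fun x => ‖z - β x‖ ^ 2 := by have := h.contβ; fun_prop
  obtain ⟨x, hx, hmin⟩ := (isCompact_Icc (a := φ - π / 3) (b := φ + π / 3)).exists_isMinOn
    ⟨φ, by constructor <;> linarith⟩ hc.continuousOn
  have h1 : ‖z - β x‖ ≤ δ :=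
    ((sq_le_sq₀ (norm_nonneg _) (norm_nonneg _)).1
      (hmin (a := φ) ⟨by linarith, by linarith⟩)).trans hz
  have q0 : √2 ≤ 1.4143 := Real.sqrt_le_iff.2 ⟨by norm_num, by norm_num⟩
  have q3 : 1.7 ≤ √3 := Real.le_sqrt_of_sq_le (by norm_num)
  have h2 : ‖β x - β φ‖ ≤ 2 * δ := by
    have := norm_sub_le (z - β φ) (z - β x)
    rw [show z - β φ - (z - β x) = β x - β φ by ring] at this
    linarith
  have hx1 : x ≠ φ - π / 3 := by
    rintro rfl
    have := h.chord_ge (a := φ - π / 3) (b := φ) (by linarith) (by linarith)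
    rw [sub_sub_cancel, Real.sin_pi_div_three, norm_sub_rev] at this
    linarith
  have hx2 : x ≠ φ + π / 3 := by
    rintro rfl
    have := h.chord_ge (a := φ) (b := φ + π / 3) (by linarith) (by linarith)
    rw [add_sub_cancel_left, Real.sin_pi_div_three] at this
    linarith
  have hloc : IsLocalMin (fun x => ‖z - β x‖ ^ 2) x :=
    hmin.isLocalMin (Icc_mem_nhds (lt_of_le_of_ne hx.1 hx1.symm) (lt_of_le_of_ne hx.2 hx2))
  have hd := hloc.hasDerivAt_eq_zero ((h.d x).const_sub z).norm_sq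
  set E := Complex.exp (ψ x * I) with hE
  have nE : ‖E‖ = 1 := Complex.norm_exp_ofReal_mul_I _
  have nE2 : E.re ^ 2 + E.im ^ 2 = 1 := by
    rw [hE, Complex.exp_ofReal_mul_I_re, Complex.exp_ofReal_mul_I_im]
    exact Real.cos_sq_add_sin_sq _
  generalize hw : z - β x = w at h1 hd
  have hd' : w.re * E.re + w.im * E.im = 0 := by
    simp [Complex.inner, Complex.mul_re] at hd
    linarith
  have e : w = ((w.im * E.re - w.re * E.im : ℝ) : ℂ) * I * E := by
    apply Complex.ext
    · simp [Complex.mul_re, Complex.mul_im]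
      linear_combination (E.re) * hd' - w.re * nE2
    · simp [Complex.mul_re, Complex.mul_im]
      linear_combination (E.im) * hd' - w.im * nE2
  refine ⟨x, w.im * E.re - w.re * E.im, abs_le.2 ⟨by linarith [hx.1], by linarith [hx.2]⟩, ?_, ?_⟩
  · rw [e, norm_mul, norm_mul, nE, Complex.norm_I, Complex.norm_real] at h1
    simpa using h1
  · rw [← e, ← hw]; ring

theorem normal_coords (h : Arc β ψ) {g : ℝ → ℂ} {φ : ℝ → ℝ} {δ : ℝ} (hδ : δ ≤ √2 - 1)
    (hg : Continuous g) (hφ : Continuous φ) (hz : ∀ t, ‖g t - β (φ t)‖ ≤ δ) :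
    ∃ x y : ℝ → ℝ, Continuous x ∧ Continuous y ∧ ∀ t, |x t - φ t| ≤ π / 3 ∧ |y t| ≤ δ ∧
      g t = β (x t) + y t * I * Complex.exp (ψ (x t) * I) := by
  have hpi := pi_pos
  choose x y hx hy he using fun t => h.exists_foot hδ (hz t)
  have q0 : √2 ≤ 1.4143 := Real.sqrt_le_iff.2 ⟨by norm_num, by norm_num⟩
  have hy2 : ∀ t, |y t| ≤ 1 / 2 := fun t => (hy t).trans (by linarith)
  have cx : Continuous x := by
    refine continuous_iff_continuousAt.2 fun t0 => ?_
    rw [ContinuousAt, Metric.tendsto_nhds]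
    intro ε hε
    set η := min (ε / 2) (π / 24) with hη
    have η0 : 0 < η := by positivity
    have η1 : η ≤ ε / 2 := min_le_left _ _
    have η2 : η ≤ π / 24 := min_le_right _ _
    have c1 : ∀ c : ℝ, Continuous fun t => (Complex.exp (-(ψ c) * I) * (g t - β c)).re := by
      intro c; fun_prop
    have e1 := ((c1 (x t0 + η)).continuousAt (x := t0)).eventually_lt continuousAt_const
      (by rw [he t0]; exact h.foot_neg (hy2 t0) (by linarith) (by linarith))
    have e2 := continuousAt_const.eventually_lt ((c1 (x t0 - η)).continuousAt (x := t0))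
      (by rw [he t0]; exact h.foot_pos (hy2 t0) (by linarith) (by linarith))
    have e3 := Metric.tendsto_nhds.1 (hφ.continuousAt (x := t0)) (π / 24) (by positivity)
    filter_upwards [e1, e2, e3] with t a1 a2 a3
    rw [Real.dist_eq] at a3 ⊢
    have b1 := abs_le.1 (hx t)
    have b2 := abs_le.1 (hx t0)
    have b3 := abs_lt.1 a3
    rw [he t] at a1 a2
    have l1 : x t ≤ x t0 + η := by
      by_contra hn
      exact lt_asymm a1 (h.foot_pos (hy2 t) (not_le.1 hn) (by linarith))
    have l2 : x t0 - η ≤ x t := by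
      by_contra hn
      exact lt_asymm a2 (h.foot_neg (hy2 t) (not_le.1 hn) (by linarith))
    exact abs_lt.2 ⟨by linarith, by linarith⟩
  refine ⟨x, y, cx, ?_, fun t => ⟨hx t, hy t, he t⟩⟩
  have : y = fun t => (Complex.exp (-(ψ (x t)) * I) * (g t - β (x t))).im := by
    funext t
    rw [he t, add_sub_cancel_left, show Complex.exp (-(ψ (x t)) * I) *
      (y t * I * Complex.exp (ψ (x t) * I)) =
      y t * I * (Complex.exp (-(ψ (x t)) * I + ψ (x t) * I)) by rw [Complex.exp_add]; ring]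
    simp
  rw [this]
  have := h.cont
  have := h.contβ
  fun_prop

lemma period_ge (h : Arc β ψ) {L : ℝ} (hL : 0 < L) (e : β L = β 0) : 2 * π ≤ L := by
  by_contra hn
  have hn := not_le.1 hn
  have a1 := h.re_ge hL.le (L / 2) (by linarith) (by linarith)
  rw [e, sub_self, mul_zero, Complex.zero_re, show L - L / 2 = L / 2 by ring, zero_sub,
    Real.sin_neg] at a1
  have := Real.sin_pos_of_pos_of_lt_pi (x := L / 2) (by linarith) (by linarith)
  linarith

end Arc

lemma lift_lip {ψ : ℝ → ℝ} (hc : Continuous ψ)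
    (h : ∀ s t, ‖Complex.exp (ψ s * I) - Complex.exp (ψ t * I)‖ ≤ |s - t|) (s t : ℝ) :
    |ψ s - ψ t| ≤ |s - t| := by
  have hs : ∀ s t, |Real.sin (ψ s - ψ t)| ≤ |s - t| := by
    intro s t
    refine le_trans ?_ (h s t)
    have e : Complex.exp (((ψ s - ψ t : ℝ) : ℂ) * I) - 1 =
        Complex.exp (((-ψ t : ℝ) : ℂ) * I) * (Complex.exp (ψ s * I) - Complex.exp (ψ t * I)) := by
      rw [mul_sub, ← Complex.exp_add, ← Complex.exp_add]
      congr 1
      · congr 1; push_cast; ring
      · rw [← Complex.exp_zero]; congr 1; push_cast; ring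
    have := Complex.abs_im_le_norm (Complex.exp (((ψ s - ψ t : ℝ) : ℂ) * I) - 1)
    rw [Complex.sub_im, Complex.exp_ofReal_mul_I_im, e, norm_mul, Complex.norm_exp_ofReal_mul_I]
      at this
    simpa using this
  have main : ∀ f : ℝ → ℝ, Continuous f → (∀ s t, |Real.sin (f s - f t)| ≤ |s - t|) →
      ∀ a b, a ≤ b → f b - f a ≤ b - a := by
    intro f hf hs a b hab
    have := image_le_of_liminf_slope_right_le_deriv_boundary (f := f) (a := a) (b := b)
      hf.continuousOn (B := fun x => f a + (x - a)) (B' := fun _ => 1) (by simp) (by fun_prop)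
      (fun x _ => (((hasDerivAt_id x).sub_const a).const_add (f a)).hasDerivWithinAt)
      (fun x _ r hr => ?_) (x := b) ⟨hab, le_rfl⟩
    · linarith
    have r0 : 0 < 1 - 1 / r := by
      rw [sub_pos, div_lt_one (by linarith)]; exact hr
    have c1 : ContinuousAt (fun z => (f z - f x) ^ 2 / 6) x := by fun_prop
    have e1 := c1.eventually_lt continuousAt_const (g := fun _ => 1 - 1 / r) (by simpa using r0)
    have e2 : ∀ᶠ z in nhdsWithin x (Set.Ioi x), x < z := self_mem_nhdsWithin
    refine ((e1.filter_mono nhdsWithin_le_nhds).and e2).frequently.mono ?_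
    rintro z ⟨h1, h2⟩
    rw [slope_def_field, div_lt_iff₀ (by linarith)]
    rcases le_or_gt (f z - f x) 0 with d | d
    · nlinarith
    · have a1 := Real.sin_ge_sub_cube d.le
      have a2 := (le_abs_self _).trans (hs z x)
      rw [abs_of_pos (by linarith)] at a2
      generalize f z - f x = d' at *
      have a3 : d' * (1 / r) < z - x := by nlinarith
      rwa [mul_one_div, div_lt_iff₀ (by linarith), mul_comm] at a3
  have m2 := main (fun s => -ψ s) hc.neg fun s t => by
    rw [show -ψ s - -ψ t = -(ψ s - ψ t) by ring, Real.sin_neg, abs_neg]; exact hs s t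
  rcases le_total s t with l | l
  · rw [abs_of_nonpos (by linarith : s - t ≤ 0)]
    exact abs_le.2 ⟨by linarith [main ψ hc hs s t l], by linarith [m2 s t l]⟩
  · rw [abs_of_nonneg (by linarith : 0 ≤ s - t)]
    exact abs_le.2 ⟨by linarith [m2 t s l], by linarith [main ψ hc hs t s l]⟩

lemma exists_angle {T : ℝ → ℂ} (hc : Continuous T) (h1 : ∀ s, ‖T s‖ = 1) {L : ℝ}
    (per : ∀ s, T (s + L) = T s) : ∃ (ψ : ℝ → ℝ) (c : ℝ), Continuous ψ ∧
      (∀ s, Complex.exp (ψ s * I) = T s) ∧ ∀ s, ψ (s + L) = ψ s + c := by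
  have hm : ∀ s, T s ∈ Submonoid.unitSphere ℂ := fun s => mem_sphere_zero_iff_norm.2 (h1 s)
  let f : C(ℝ, Circle) := ⟨fun s => ⟨T s, hm s⟩, hc.subtype_mk hm⟩
  obtain ⟨F, ⟨-, hF⟩, -⟩ := Circle.isCoveringMap_exp.existsUnique_continuousMap_lifts f 0
    (Complex.arg (f 0)) (Circle.exp_arg _)
  have hF' : ∀ s, Circle.exp (F s) = f s := fun s => congrFun hF s
  have fp : ∀ s, f (s + L) = f s := fun s => Subtype.ext (per s)
  refine ⟨F, F (0 + L) - F 0, F.continuous, fun s => ?_, fun s => ?_⟩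
  · rw [← Circle.coe_exp, hF']; rfl
  · have := Circle.isCoveringMap_exp.eq_of_comp_eq (g₁ := fun s => F (s + L))
      (g₂ := fun s => F s + (F (0 + L) - F 0)) (by fun_prop) (by fun_prop) (by
        funext s
        simp only [Function.comp_apply, Circle.exp_add, Circle.exp_sub, hF', fp]
        simp) 0 (by simp)
    exact congrFun this s

end Pool.Agent.Lib.MP_5a3ebe_gt
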