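import Pool.Agent.Lib.MP_5a3ebe_gt.Corner
import Pool.Agent.Lib.MP_5a3ebe_gt.Tube
import Pool.Agent.Lib.MP_5a3ebe_gt.Plane

/-!
Flattening the tube, and the inscribed square theorem in normal coordinates.
-/

set_option autoImplicit false
set_option linter.unusedSectionVars false
set_option linter.unusedVariables false

namespace Pool.Agent.Lib.MP_5a3ebe_gt

open Real Complex

/-- the arc with tangent angle `l * ψ` -/
noncomputable def bent (ψ : ℝ → ℝ) (l x : ℝ) : ℂ :=
  ∫ s in (0 : ℝ)..x, Complex.exp (((l * ψ s : ℝ) : ℂ) * I)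

lemma bent_arc {β : ℝ → ℂ} {ψ : ℝ → ℝ} (h : Arc β ψ) {l : ℝ} (h0 : 0 ≤ l) (h1 : l ≤ 1) :
    Arc (bent ψ l) (fun s => l * ψ s) := by
  have := h.cont
  refine ⟨fun s => ?_, fun s t => ?_⟩
  · exact (by fun_prop : Continuous fun s => Complex.exp (((l * ψ s : ℝ) : ℂ) * I)).deriv_integral
      _ 0 s ▸ (intervalIntegral.integral_hasDerivAt_right
        (Continuous.intervalIntegrable (by fun_prop) _ _)
        (Continuous.stronglyMeasurableAtFilter (by fun_prop) _ _)
        (by fun_prop : Continuous fun s =>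
          Complex.exp (((l * ψ s : ℝ) : ℂ) * I)).continuousAt).differentiableAt.hasDerivAt
  · rw [← mul_sub, abs_mul, abs_of_nonneg h0]
    nlinarith [h.lip s t, abs_nonneg (ψ s - ψ t)]

lemma bent_cont {ψ : ℝ → ℝ} (h : Continuous ψ) : Continuous fun q : ℝ × ℝ => bent ψ q.1 q.2 :=
  intervalIntegral.continuous_parametric_primitive_of_continuous
    (f := fun (l : ℝ) (s : ℝ) => Complex.exp (((l * ψ s : ℝ) : ℂ) * I)) (by fun_prop)

lemma bent_zero (ψ : ℝ → ℝ) (x : ℝ) : bent ψ 0 x = x := by simp [bent]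

lemma bent_one {β : ℝ → ℂ} {ψ : ℝ → ℝ} (h : Arc β ψ) (x : ℝ) : bent ψ 1 x = β x - β 0 := by
  have := h.cont
  simp only [bent, one_mul]
  exact intervalIntegral.integral_eq_sub_of_hasDerivAt (fun s _ => h.d s)
    (Continuous.intervalIntegrable (by fun_prop) _ _)

lemma bent_shift {ψ : ℝ → ℝ} (h : Continuous ψ) {L c : ℝ} (hψ : ∀ s, ψ (s + L) = ψ s + c)
    (l x : ℝ) : bent ψ l (x + L) = bent ψ l L + Complex.exp (((l * c : ℝ) : ℂ) * I) * bent ψ l x := by
  unfold bent
  rw [← intervalIntegral.integral_add_adjacent_intervals (b := L)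
    (Continuous.intervalIntegrable (by fun_prop) _ _)
    (Continuous.intervalIntegrable (by fun_prop) _ _), ← intervalIntegral.integral_const_mul]
  congr 1
  have := intervalIntegral.integral_comp_add_right (a := 0) (b := x)
    (fun s => Complex.exp (((l * ψ s : ℝ) : ℂ) * I)) L
  rw [zero_add] at this
  rw [← this]
  congr 1
  funext s
  rw [hψ, ← Complex.exp_add]; congr 1; push_cast; ring

/-- the deformed point -/
noncomputable def dpt (ψ : ℝ → ℝ) (l m x y : ℝ) : ℂ :=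
  bent ψ l x + ((m * y : ℝ) : ℂ) * I * Complex.exp (((l * ψ x : ℝ) : ℂ) * I)

lemma dpt_shift {ψ : ℝ → ℝ} (h : Continuous ψ) {L c : ℝ} (hψ : ∀ s, ψ (s + L) = ψ s + c)
    (l m x y x' y' : ℝ) : ‖dpt ψ l m (x + L) y - dpt ψ l m (x' + L) y'‖ =
      ‖dpt ψ l m x y - dpt ψ l m x' y'‖ := by
  have : ∀ x y, dpt ψ l m (x + L) y =
      bent ψ l L + Complex.exp (((l * c : ℝ) : ℂ) * I) * dpt ψ l m x y := by
    intro x y
    rw [dpt, dpt, bent_shift h hψ, hψ, show (((l * (ψ x + c) : ℝ) : ℂ) * I) =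
      ((l * c : ℝ) : ℂ) * I + ((l * ψ x : ℝ) : ℂ) * I by push_cast; ring, Complex.exp_add]
    ring
  rw [this, this, add_sub_add_left_eq_sub, ← mul_sub, norm_mul, Complex.norm_exp_ofReal_mul_I,
    one_mul]

lemma dpt_zero (ψ : ℝ → ℝ) (m x y : ℝ) : dpt ψ 0 m x y = x + ((m * y : ℝ) : ℂ) * I := by
  simp [dpt, bent_zero]

/-- clamping to the unit interval -/
def cl (t : ℝ) : ℝ := max 0 (min 1 t)

lemma cl_cont : Continuous cl := by unfold cl; fun_prop
lemma cl_nonneg (t : ℝ) : 0 ≤ cl t := le_max_left _ _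
lemma cl_le (t : ℝ) : cl t ≤ 1 := max_le zero_le_one (min_le_left _ _)
lemma cl_one {t : ℝ} (h : 1 ≤ t) : cl t = 1 := by simp [cl, h]
lemma cl_zero {t : ℝ} (h : t ≤ 0) : cl t = 0 := by simp [cl, h]

/-- the analysis of the zeros of the deformed test map -/
lemma no_zero {β : ℝ → ℂ} {ψ : ℝ → ℝ} (h : Arc β ψ) {δ s1 : ℝ} (hδ : δ ≤ √2 - 1)
    (hs1 : 2 ≤ s1) (hs2 : s1 < 3 * π / 4)
    (x y : Fin 4 → ℝ) (hy : ∀ k, |y k| ≤ δ) (σ l s m M a : ℝ) (P : Fin 4 → ℂ)
    (hσ : σ = spr (x 0) (x 1) (x 2) (x 3)) (hU : σ < 3 * π / 4)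
    (hl : l = cl ((σ - s1) / (3 * π / 4 - s1))) (hs : s = cl (4 * (s1 - σ)))
    (hm : m = cl (4 * (σ - s1) + 2) * cl (σ / (3 * π / 4)) ^ 2) (hM : M = max 0 (s1 - 1 / 2 - σ))
    (hP : ∀ k, P k = dpt ψ l m (x k) (y k))
    (i02 : x 0 = x 2 → y 0 = y 2 → x 0 = x 1 ∧ y 0 = y 1)
    (i13 : x 1 = x 3 → y 1 = y 3 → x 1 = x 2 ∧ y 1 = y 2)
    (h1 : ‖P 1 - P 0‖ = a) (h2 : ‖P 2 - P 1‖ = a) (h3 : ‖P 3 - P 2‖ = a)
    (h4 : ‖P 0 - P 3‖ + M = a) (h5 : max ‖P 2 - P 0‖ (s * a) = ‖P 3 - P 1‖) : False := by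
  have hpi := pi_pos
  have q0 : √2 ≤ 1.4143 := Real.sqrt_le_iff.2 ⟨by norm_num, by norm_num⟩
  have d0 : 0 ≤ δ := (abs_nonneg _).trans (hy 0)
  have hx : ∀ i j, |x i - x j| ≤ σ := fun i j => hσ ▸ le_spr x i j
  have m1 : |m| ≤ 1 := by
    rw [hm, abs_of_nonneg (mul_nonneg (cl_nonneg _) (sq_nonneg _))]
    exact mul_le_one₀ (cl_le _) (sq_nonneg _) (pow_le_one₀ (cl_nonneg _) (cl_le _))
  rcases le_total σ (s1 - 1 / 2) with c1 | c1
  · rw [cl_zero (div_nonpos_of_nonpos_of_nonneg (by linarith) (by linarith))] at hl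
    rw [cl_one (by linarith)] at hs
    rw [cl_zero (by linarith), zero_mul] at hm
    rw [max_eq_right (by linarith)] at hM
    have e : ∀ i j, ‖P i - P j‖ = |x i - x j| := by
      intro i j
      rw [hP, hP, hl, hm, dpt_zero, dpt_zero]
      simp only [zero_mul, Complex.ofReal_zero, add_zero]
      rw [← Complex.ofReal_sub, Complex.norm_real, Real.norm_eq_abs]
    rw [e] at h1 h2 h3 h4
    rw [e, e, hs, one_mul] at h5
    have a0 := line_case h1 h2 h3 (by linarith) h5
    rw [a0, abs_eq_zero, sub_eq_zero] at h1 h2 h3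
    have : σ ≤ 0 := by rw [hσ, h3, h2, h1]; simp [spr]
    linarith [abs_nonneg (x 0 - x 3)]
  rw [max_eq_left (by linarith)] at hM
  rw [hM, add_zero] at h4
  have hz := zero_cases h1 h2 h3 h4 (hs ▸ cl_le _) (hs ▸ cl_nonneg _) h5
  have flat : l = 0 → (P 0 + P 2 = P 1 + P 3 ∧
      (P 3 - P 1 = I * (P 2 - P 0) ∨ P 3 - P 1 = -(I * (P 2 - P 0)))) → False := by
    rintro hl0 ⟨e1, e2⟩
    have im : ∀ k, |(P k).im| ≤ δ := by
      intro k
      rw [hP, hl0, dpt_zero]
      simp only [Complex.add_im, Complex.ofReal_im, Complex.mul_I_im, Complex.ofReal_re, zero_add,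
        abs_mul]
      nlinarith [hy k, abs_nonneg (y k), abs_nonneg m]
    have re : ∀ k, (P k).re = x k := by
      intro k; rw [hP, hl0, dpt_zero]; simp
    have := flat_square (im 0) (im 1) (im 2) (im 3) e1 e2
    rw [re, re, re, re, ← hσ] at this
    linarith
  rcases le_total σ (s1 - 1 / 4) with c2 | c2
  · rw [cl_zero (div_nonpos_of_nonpos_of_nonneg (by linarith) (by linarith))] at hl
    rw [cl_one (by linarith)] at hs
    rw [hs, one_mul] at h5
    have im : ∀ k, |(P k).im| ≤ δ := by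
      intro k
      rw [hP, hl, dpt_zero]
      simp only [Complex.add_im, Complex.ofReal_im, Complex.mul_I_im, Complex.ofReal_re, zero_add,
        abs_mul]
      nlinarith [hy k, abs_nonneg (y k), abs_nonneg m]
    have re : ∀ i j, |x i - x j| ≤ ‖P i - P j‖ := by
      intro i j
      refine le_trans (le_of_eq ?_) (Complex.abs_re_le_norm _)
      rw [hP, hP, hl, dpt_zero, dpt_zero]; simp
    have a0 : 0 ≤ a := h1 ▸ norm_nonneg _
    have fin : ‖P 0 - P 2‖ ≤ a → ‖P 1 - P 3‖ ≤ a → σ ≤ a := by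
      intro k1 k2
      rw [hσ]
      rw [norm_sub_rev] at h1 h2 h3
      exact spr_le ((re _ _).trans h1.le) ((re _ _).trans k1) ((re _ _).trans h4.le)
        ((re _ _).trans h2.le) ((re _ _).trans k2) ((re _ _).trans h3.le)
    rcases hz with hz | hz | hz
    · exact flat hl hz
    · rw [hz, sub_self, norm_zero, max_eq_right a0] at h5
      have := flat_triangle (im 0) (im 1) (im 3) h1 h4 h5.symm
      have := fin (by rw [hz, sub_self, norm_zero]; exact a0) (by rw [norm_sub_rev, h5])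
      linarith
    · rw [hz, sub_self, norm_zero] at h5
      have k1 := le_max_left ‖P 2 - P 0‖ a
      have k2 := le_max_right ‖P 2 - P 0‖ a
      have := fin (by rw [norm_sub_rev]; linarith) (by rw [hz, sub_self, norm_zero]; exact a0)
      linarith
  have σ0 : 0 < σ := by linarith
  have ρ1 : σ / (3 * π / 4) < 1 := (div_lt_one (by linarith)).2 hU
  have ρ0 : 0 < σ / (3 * π / 4) := by positivity
  rw [cl_one (by linarith), one_mul, cl, min_eq_right ρ1.le, max_eq_right ρ0.le] at hm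
  have hb := bent_arc h (hl ▸ cl_nonneg _ : 0 ≤ l) (hl ▸ cl_le _ : l ≤ 1)
  have inj : ∀ i j, P i = P j → x i = x j ∧ y i = y j := by
    intro i j e
    rw [hP, hP] at e
    have := hb.tube_inj (y := m * y i) (by
      rw [abs_mul]; nlinarith [hy i, abs_nonneg (y i), abs_nonneg m]) ((hx i j).trans hU.le) e
    exact ⟨this.1, mul_left_cancel₀ (by rw [hm]; positivity) this.2⟩
  have a0 : a ≠ 0 := by
    rintro rfl
    rw [norm_eq_zero, sub_eq_zero] at h1 h2 h3
    have : σ ≤ 0 := by rw [hσ, (inj _ _ h3).1, (inj _ _ h2).1, (inj _ _ h1).1]; simp [spr]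
    linarith
  rcases hz with hz | hz | hz
  · rcases le_total σ s1 with c3 | c3
    · exact flat (hl.trans (cl_zero
        (div_nonpos_of_nonpos_of_nonneg (by linarith) (by linarith)))) hz
    · obtain ⟨i, j, e, hij⟩ := exists_spr x
      rw [← hσ] at e
      set k := 3 * π / 4 / σ with hk
      have k1 : 1 ≤ k := (one_le_div σ0).2 hU.le
      have k0 : 0 < k := by linarith
      have k3 : k * m = σ / (3 * π / 4) := by rw [hk, hm]; field_simp
      have q1 : 1.4 ≤ √2 := Real.le_sqrt_of_sq_le (by norm_num)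
      have k2 : k * m * δ < √2 - 1 := by rw [k3]; nlinarith
      refine (hb.scale k1).no_square k2 (fun n => k * P n) (fun n => k * x n)
        (fun n => ?_) i j ?_ (fun n => ⟨mul_le_mul_of_nonneg_left (hij n).1 k0.le,
          mul_le_mul_of_nonneg_left (hij n).2 k0.le⟩) (by linear_combination k * hz.1)
          (hz.2.imp (fun e => by linear_combination k * e) (fun e => by linear_combination k * e))
      · rw [mul_div_cancel_left₀ _ k0.ne', ← mul_sub, hP, dpt, add_sub_cancel_left, norm_mul,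
          norm_mul, norm_mul, Complex.norm_exp_ofReal_mul_I, Complex.norm_I, Complex.norm_real,
          Complex.norm_real, Real.norm_eq_abs, Real.norm_eq_abs, abs_of_pos k0]
        have m0 : 0 ≤ m := by rw [hm]; positivity
        rw [abs_mul, abs_of_nonneg m0, mul_one, mul_one, ← mul_assoc]
        exact mul_le_mul_of_nonneg_left (hy n) (mul_nonneg k0.le m0)
      · rw [← mul_sub, e, hk]; field_simp
  · obtain ⟨e1, e2⟩ := i02 (inj _ _ hz).1 (inj _ _ hz).2
    exact a0 (by rw [← h1, hP, hP, e1, e2, sub_self, norm_zero])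
  · obtain ⟨e1, e2⟩ := i13 (inj _ _ hz).1 (inj _ _ hz).2
    exact a0 (by rw [← h2, hP, hP, e1, e2, sub_self, norm_zero])

end Pool.Agent.Lib.MP_5a3ebe_gt
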