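import Pool.Agent.Lib.MP_5a3ebe_gt.GridTame

/-! Cramer-rule test that four segments carry no large square, and its use on a family of
twelve-sided polygons. -/

namespace Pool.Agent.Lib.MP_5a3ebe_gt.Grid

structure Seg (R : Type) where
  x : R
  y : R
  u : R
  v : R

section defs
variable {R : Type} [Add R] [Sub R] [Mul R] [Neg R]

def a3 (s1 s3 : Seg R) : R := -(s3.u * s1.u + s3.v * s1.v)
def b3 (s2 s3 : Seg R) : R := s3.u * (s2.v + s2.u) - s3.v * (s2.u - s2.v)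
def p3 (s1 s2 s3 : Seg R) : R := s2.x - (s2.y - s1.y) - s3.x
def q3 (s1 s2 s3 : Seg R) : R := s2.y + (s2.x - s1.x) - s3.y
def g3 (s1 s2 s3 : Seg R) : R := s3.u * q3 s1 s2 s3 - s3.v * p3 s1 s2 s3
def a4 (s1 s4 : Seg R) : R := s4.u * (s1.v - s1.u) - s4.v * (s1.u + s1.v)
def b4 (s2 s4 : Seg R) : R := s4.u * s2.u + s4.v * s2.v
def p4 (s1 s2 s4 : Seg R) : R := s1.x - (s2.y - s1.y) - s4.x
def q4 (s1 s2 s4 : Seg R) : R := s1.y + (s2.x - s1.x) - s4.y
def g4 (s1 s2 s4 : Seg R) : R := s4.u * q4 s1 s2 s4 - s4.v * p4 s1 s2 s4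
def det (s1 s2 s3 s4 : Seg R) : R := a3 s1 s3 * b4 s2 s4 - b3 s2 s3 * a4 s1 s4
def n1 (s1 s2 s3 s4 : Seg R) : R := b3 s2 s3 * g4 s1 s2 s4 - g3 s1 s2 s3 * b4 s2 s4
def n2 (s1 s2 s3 s4 : Seg R) : R := g3 s1 s2 s3 * a4 s1 s4 - a3 s1 s3 * g4 s1 s2 s4
def t3 (s1 s2 s3 : Seg R) (d m n : R) : R :=
  s3.u * (d * p3 s1 s2 s3 + m * s1.v + n * (s2.u - s2.v)) +
    s3.v * (d * q3 s1 s2 s3 - m * s1.u + n * (s2.v + s2.u))
def t4 (s1 s2 s4 : Seg R) (d m n : R) : R :=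
  s4.u * (d * p4 s1 s2 s4 + m * (s1.u + s1.v) - n * s2.v) +
    s4.v * (d * q4 s1 s2 s4 + m * (s1.v - s1.u) + n * s2.u)
def wx (s1 s2 : Seg R) (d m n : R) : R := d * (s2.x - s1.x) + n * s2.u - m * s1.u
def wy (s1 s2 : Seg R) (d m n : R) : R := d * (s2.y - s1.y) + n * s2.v - m * s1.v
def len (s : Seg R) : R := s.u * s.u + s.v * s.v

/-- The nine test quantities; positivity of any of them excludes a large square. -/
def Q (K : R) (s1 s2 s3 s4 : Seg R) (d m n : R) : ℕ → R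
  | 0 => -(m * d)
  | 1 => (m - d) * d
  | 2 => -(n * d)
  | 3 => (n - d) * d
  | 4 => -(t3 s1 s2 s3 d m n * d)
  | 5 => (t3 s1 s2 s3 d m n - d * len s3) * d
  | 6 => -(t4 s1 s2 s4 d m n * d)
  | 7 => (t4 s1 s2 s4 d m n - d * len s4) * d
  | _ => K * (d * d) - (wx s1 s2 d m n * wx s1 s2 d m n + wy s1 s2 d m n * wy s1 s2 d m n)

def QQ (K : R) (s1 s2 s3 s4 : Seg R) (j : ℕ) : R :=
  Q K s1 s2 s3 s4 (det s1 s2 s3 s4) (n1 s1 s2 s3 s4) (n2 s1 s2 s3 s4) j

end defs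

lemma sound (K : ℝ) (s1 s2 s3 s4 : Seg ℝ) (j : ℕ) (h : 0 < QQ K s1 s2 s3 s4 j)
    (r1 r2 r3 r4 a b : ℝ) (h1 : r1 ∈ Set.Icc (0 : ℝ) 1) (h2 : r2 ∈ Set.Icc (0 : ℝ) 1)
    (h3 : r3 ∈ Set.Icc (0 : ℝ) 1) (h4 : r4 ∈ Set.Icc (0 : ℝ) 1)
    (e2x : s2.x + r2 * s2.u = s1.x + r1 * s1.u + a) (e2y : s2.y + r2 * s2.v = s1.y + r1 * s1.v + b)
    (e3x : s3.x + r3 * s3.u = s1.x + r1 * s1.u + a - b)
    (e3y : s3.y + r3 * s3.v = s1.y + r1 * s1.v + b + a)
    (e4x : s4.x + r4 * s4.u = s1.x + r1 * s1.u - b)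
    (e4y : s4.y + r4 * s4.v = s1.y + r1 * s1.v + a) : a * a + b * b < K := by
  have ha : a = s2.x + r2 * s2.u - (s1.x + r1 * s1.u) := by linarith
  have hb : b = s2.y + r2 * s2.v - (s1.y + r1 * s1.v) := by linarith
  have P3 : p3 s1 s2 s3 + r1 * s1.v + r2 * (s2.u - s2.v) = r3 * s3.u := by
    unfold p3; linarith
  have Q3 : q3 s1 s2 s3 - r1 * s1.u + r2 * (s2.v + s2.u) = r3 * s3.v := by
    unfold q3; linarith
  have P4 : p4 s1 s2 s4 + r1 * (s1.u + s1.v) - r2 * s2.v = r4 * s4.u := by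
    unfold p4; linarith
  have Q4 : q4 s1 s2 s4 + r1 * (s1.v - s1.u) + r2 * s2.u = r4 * s4.v := by
    unfold q4; linarith
  have E3 : a3 s1 s3 * r1 + b3 s2 s3 * r2 + g3 s1 s2 s3 = 0 := by
    unfold a3 b3 g3; linear_combination s3.u * Q3 - s3.v * P3
  have E4 : a4 s1 s4 * r1 + b4 s2 s4 * r2 + g4 s1 s2 s4 = 0 := by
    unfold a4 b4 g4; linear_combination s4.u * Q4 - s4.v * P4
  have M : n1 s1 s2 s3 s4 = det s1 s2 s3 s4 * r1 := by
    unfold n1 det; linear_combination b3 s2 s3 * E4 - b4 s2 s4 * E3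
  have N : n2 s1 s2 s3 s4 = det s1 s2 s3 s4 * r2 := by
    unfold n2 det; linear_combination a4 s1 s4 * E3 - a3 s1 s3 * E4
  unfold QQ at h
  rw [M, N] at h
  generalize det s1 s2 s3 s4 = d at h
  have T3 : t3 s1 s2 s3 d (d * r1) (d * r2) = d * (r3 * len s3) := by
    unfold t3 len; linear_combination d * s3.u * P3 + d * s3.v * Q3
  have T4 : t4 s1 s2 s4 d (d * r1) (d * r2) = d * (r4 * len s4) := by
    unfold t4 len; linear_combination d * s4.u * P4 + d * s4.v * Q4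
  have WX : wx s1 s2 d (d * r1) (d * r2) = d * a := by unfold wx; rw [ha]; ring
  have WY : wy s1 s2 d (d * r1) (d * r2) = d * b := by unfold wy; rw [hb]; ring
  have L3 : 0 ≤ len s3 := by unfold len; exact add_nonneg (mul_self_nonneg _) (mul_self_nonneg _)
  have L4 : 0 ≤ len s4 := by unfold len; exact add_nonneg (mul_self_nonneg _) (mul_self_nonneg _)
  have dd : 0 ≤ d * d := mul_self_nonneg d
  obtain ⟨h1a, h1b⟩ := h1
  obtain ⟨h2a, h2b⟩ := h2
  obtain ⟨h3a, h3b⟩ := h3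
  obtain ⟨h4a, h4b⟩ := h4
  match j, h with
  | 0, h => exfalso; simp only [Q] at h; linarith only [h, mul_nonneg dd h1a]
  | 1, h => exfalso; simp only [Q] at h; linarith only [h, mul_nonneg dd (sub_nonneg.2 h1b)]
  | 2, h => exfalso; simp only [Q] at h; linarith only [h, mul_nonneg dd h2a]
  | 3, h => exfalso; simp only [Q] at h; linarith only [h, mul_nonneg dd (sub_nonneg.2 h2b)]
  | 4, h => exfalso; simp only [Q, T3] at h; linarith only [h, mul_nonneg dd (mul_nonneg h3a L3)]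
  | 5, h =>
    exfalso; simp only [Q, T3] at h
    linarith only [h, mul_nonneg dd (mul_nonneg (sub_nonneg.2 h3b) L3)]
  | 6, h => exfalso; simp only [Q, T4] at h; linarith only [h, mul_nonneg dd (mul_nonneg h4a L4)]
  | 7, h =>
    exfalso; simp only [Q, T4] at h
    linarith only [h, mul_nonneg dd (mul_nonneg (sub_nonneg.2 h4b) L4)]
  | (j + 8), h =>
    simp only [Q, WX, WY] at h
    by_contra hc
    push Not at hc
    linarith only [h, mul_nonneg dd (sub_nonneg.2 hc)]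

/-- Leading coefficients and constant terms of the twelve vertices. -/
def vtx : ℕ → ℤ × ℤ × ℤ × ℤ
  | 0 => (2, 3, 1, 6)
  | 1 => (1, 7, 1, 5)
  | 2 => (1, 3, 2, 3)
  | 3 => (0, 1, 2, 1)
  | 4 => (0, 7, 1, 5)
  | 5 => (1, 1, 1, 6)
  | 6 => (0, 4, 1, 2)
  | 7 => (0, 7, 0, 7)
  | 8 => (1, 5, 0, 6)
  | 9 => (1, 6, 1, 1)
  | 10 => (1, 7, 0, 4)
  | 11 => (2, 5, 0, 6)
  | _ => (2, 3, 1, 6)

def seg {R : Type} [Ring R] (N : R) (i : ℕ) : Seg R where
  x := (vtx i).1 * N + (vtx i).2.1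
  y := (vtx i).2.2.1 * N + (vtx i).2.2.2
  u := (((vtx (i + 1)).1 - (vtx i).1 : ℤ) : R) * N + (((vtx (i + 1)).2.1 - (vtx i).2.1 : ℤ) : R)
  v := (((vtx (i + 1)).2.2.1 - (vtx i).2.2.1 : ℤ) : R) * N +
    (((vtx (i + 1)).2.2.2 - (vtx i).2.2.2 : ℤ) : R)

def N0 : ℤ := 1125899906842624

def segI (i : ℕ) : Seg ℤ where
  x := (vtx i).1 * N0 + (vtx i).2.1
  y := (vtx i).2.2.1 * N0 + (vtx i).2.2.2
  u := ((vtx (i + 1)).1 - (vtx i).1) * N0 + ((vtx (i + 1)).2.1 - (vtx i).2.1)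
  v := ((vtx (i + 1)).2.2.1 - (vtx i).2.2.1) * N0 + ((vtx (i + 1)).2.2.2 - (vtx i).2.2.2)

def okI (s1 s2 s3 s4 : Seg ℤ) : Bool :=
  (List.range 9).any fun j => decide (0 < QQ 441 s1 s2 s3 s4 j)

def row (i : ℕ) : Bool :=
  (List.range 12).all fun j => (List.range 12).all fun k => (List.range 12).all fun l =>
    (i == j && j == k && k == l) || okI (segI i) (segI j) (segI k) (segI l)

theorem row0 : row 0 = true := by decide +kernel
theorem row1 : row 1 = true := by decide +kernel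
theorem row2 : row 2 = true := by decide +kernel
theorem row3 : row 3 = true := by decide +kernel
theorem row4 : row 4 = true := by decide +kernel
theorem row5 : row 5 = true := by decide +kernel
theorem row6 : row 6 = true := by decide +kernel
theorem row7 : row 7 = true := by decide +kernel
theorem row8 : row 8 = true := by decide +kernel
theorem row9 : row 9 = true := by decide +kernel
theorem row10 : row 10 = true := by decide +kernel
theorem row11 : row 11 = true := by decide +kernel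

theorem row_all (i : ℕ) (hi : i < 12) : row i = true := by
  interval_cases i
  exacts [row0, row1, row2, row3, row4, row5, row6, row7, row8, row9, row10, row11]


end Pool.Agent.Lib.MP_5a3ebe_gt.Grid
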