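import Pool.Agent.Lib.MP_5a3ebe_gt.GridWalk

/-! A simple closed lattice walk is the image of a continuous injective map of the circle. -/

namespace Pool.Agent.Lib.MP_5a3ebe_gt.Grid

open Complex Set
open scoped Real

noncomputable def interp (v : ℕ → ℂ) (n : ℕ) (t : ℝ) : ℂ :=
  v 0 + ∑ i ∈ Finset.range n, ((max 0 (min 1 (t - i)) : ℝ) : ℂ) * (v (i + 1) - v i)

lemma interp_continuous (v : ℕ → ℂ) (n : ℕ) : Continuous (interp v n) := by
  unfold interp; fun_prop

lemma interp_of_ge (v : ℕ → ℂ) (n : ℕ) {t : ℝ} (ht : (n : ℝ) ≤ t) : interp v n t = v n := by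
  induction n with
  | zero => simp [interp]
  | succ n ih =>
    push_cast at ht
    have := ih (by linarith)
    unfold interp at this ⊢
    rw [Finset.sum_range_succ, ← add_assoc, this, min_eq_left (by linarith),
      max_eq_right zero_le_one]
    simp

lemma interp_eq (v : ℕ → ℂ) {n k : ℕ} (hk : k < n) {s : ℝ} (h0 : 0 ≤ s) (h1 : s ≤ 1) :
    interp v n (k + s) = v k + s * (v (k + 1) - v k) := by
  induction n with
  | zero => omega
  | succ n ih =>
    by_cases h : k < n
    · have := ih h
      unfold interp at this ⊢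
      have hkn : (k : ℝ) + 1 ≤ n := by exact_mod_cast h
      rw [Finset.sum_range_succ, ← add_assoc, this, max_eq_left]
      · simp
      · exact (min_le_right _ _).trans (by linarith)
    · obtain rfl : k = n := by omega
      have := interp_of_ge v k (t := k + s) (by linarith)
      unfold interp at this ⊢
      rw [Finset.sum_range_succ, ← add_assoc, this, min_eq_right (by linarith),
        max_eq_right (by linarith)]
      simp

lemma exists_split {n : ℕ} {t : ℝ} (ht : t ∈ Ico (0 : ℝ) n) :
    ∃ k < n, ∃ s ∈ Ico (0 : ℝ) 1, t = k + s := by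
  refine ⟨⌊t⌋₊, (Nat.floor_lt ht.1).2 ht.2, t - ⌊t⌋₊,
    ⟨sub_nonneg.2 (Nat.floor_le ht.1), by linarith [Nat.lt_floor_add_one t]⟩, by ring⟩

lemma int_eq_of_close {a b : ℤ} {x : ℝ} (h : (a : ℝ) = b + x) (h0 : -1 < x) (h1 : x < 1) :
    a = b := by
  have e1 : (a : ℝ) < b + 1 := by linarith
  have e2 : (b : ℝ) < a + 1 := by linarith
  have e1' : a < b + 1 := by exact_mod_cast e1
  have e2' : b < a + 1 := by exact_mod_cast e2
  omega

lemma coord {a a' b b' : ℤ} {s t : ℝ} (hs : s ∈ Ico (0 : ℝ) 1) (ht : t ∈ Ico (0 : ℝ) 1)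
    (ha : (a' - a).natAbs ≤ 1) (hb : (b' - b).natAbs ≤ 1)
    (h : (a : ℝ) + s * (a' - a) = b + t * (b' - b)) :
    (a = b ∧ (a' = a → b' = b ∨ t = 0) ∧ (b' = b → a' = a ∨ s = 0) ∧
      (a' ≠ a → b' ≠ b → s = t)) ∨ (a = b' ∧ a' = b ∧ a ≠ b) := by
  obtain ⟨s0, s1⟩ := hs
  obtain ⟨t0, t1⟩ := ht
  have h1 : a' = a ∨ a' = a + 1 ∨ a' = a - 1 := by omega
  have h2 : b' = b ∨ b' = b + 1 ∨ b' = b - 1 := by omega
  rcases h1 with rfl | rfl | rfl <;> rcases h2 with rfl | rfl | rfl <;> push_cast at h
  · left
    have := int_eq_of_close (a := a') (b := b') (x := 0) (by linarith) (by norm_num) (by norm_num)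
    simp [this]
  · left
    have := int_eq_of_close (a := a') (b := b) (x := t) (by linarith) (by linarith) (by linarith)
    subst this
    refine ⟨rfl, fun _ => Or.inr (by linarith), by simp, by simp⟩
  · left
    have := int_eq_of_close (a := a') (b := b) (x := -t) (by linarith) (by linarith) (by linarith)
    subst this
    refine ⟨rfl, fun _ => Or.inr (by linarith), by simp, by simp⟩
  · left
    have := int_eq_of_close (a := a) (b := b') (x := -s) (by linarith) (by linarith) (by linarith)
    subst this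
    refine ⟨rfl, by simp, fun _ => Or.inr (by linarith), by simp⟩
  · left
    have := int_eq_of_close (a := a) (b := b) (x := t - s) (by linarith) (by linarith) (by linarith)
    subst this
    refine ⟨rfl, by simp, by simp, fun _ _ => by linarith⟩
  · by_cases e : a = b
    · left
      subst e
      refine ⟨rfl, by simp, by intro h; omega, fun _ _ => by linarith⟩
    · right
      have e1 : (a : ℝ) ≤ b := by linarith
      have e2 : a ≤ b := by exact_mod_cast e1
      have e3 : (b : ℝ) < a + 2 := by linarith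
      have e4 : b < a + 2 := by exact_mod_cast e3
      omega
  · left
    have := int_eq_of_close (a := a) (b := b') (x := s) (by linarith) (by linarith) (by linarith)
    subst this
    refine ⟨rfl, by intro h; omega, fun _ => Or.inr (by linarith), by simp⟩
  · by_cases e : a = b
    · left
      subst e
      refine ⟨rfl, by intro h; omega, by simp, fun _ _ => by linarith⟩
    · right
      have e1 : (b : ℝ) ≤ a := by linarith
      have e2 : b ≤ a := by exact_mod_cast e1
      have e3 : (a : ℝ) < b + 2 := by linarith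
      have e4 : a < b + 2 := by exact_mod_cast e3
      omega
  · left
    have := int_eq_of_close (a := a) (b := b) (x := s - t) (by linarith) (by linarith) (by linarith)
    subst this
    refine ⟨rfl, by intro h; omega, by intro h; omega, fun _ _ => by linarith⟩

lemma exists_jordan {n : ℕ} {v : ℕ → ℤ × ℤ} (hn : 3 ≤ n) (hc : v n = v 0)
    (hs : ∀ k < n, Step (v k) (v (k + 1))) (hi : ∀ i < n, ∀ j < n, v i = v j → i = j) :
    ∃ γ : Circle → ℂ, Continuous γ ∧ Function.Injective γ ∧
      range γ = trace (fun k => emb (v k)) n := by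
  have hn' : (0 : ℝ) < n := by exact_mod_cast (show 0 < n by omega)
  have : Fact ((0 : ℝ) < n) := ⟨hn'⟩
  set F := interp (fun k => emb (v k)) n with hF
  have succ_eq : ∀ k < n, ∀ l < n, v (k + 1) = v l → k + 1 = l ∨ (k + 1 = n ∧ l = 0) := by
    intro k hk l hl e
    by_cases h : k + 1 < n
    · exact Or.inl (hi _ h _ hl e)
    · have h' : k + 1 = n := by omega
      rw [h', hc] at e
      exact Or.inr ⟨h', (hi _ (by omega) _ hl e).symm⟩
  have hinj : InjOn F (Ico (0 : ℝ) n) := by
    intro x hx y hy e
    obtain ⟨k, hk, s, hs', rfl⟩ := exists_split hx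
    obtain ⟨l, hl, t, ht', rfl⟩ := exists_split hy
    rw [hF, interp_eq _ hk hs'.1 hs'.2.le, interp_eq _ hl ht'.1 ht'.2.le] at e
    have ex := congrArg re e
    have ey := congrArg im e
    simp [emb] at ex ey
    have s1 := hs k hk
    have s2 := hs l hl
    unfold Step at s1 s2
    have c1 := coord hs' ht' (by omega) (by omega) ex
    have c2 := coord hs' ht' (by omega) (by omega) ey
    have nk : v (k + 1) ≠ v k := fun e => by have := succ_eq k hk k hk e; omega
    have nl : v (l + 1) ≠ v l := fun e => by have := succ_eq l hl l hl e; omega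
    have swap : ¬ (v k = v (l + 1) ∧ v (k + 1) = v l) := by
      rintro ⟨e1, e2⟩
      have := succ_eq l hl k hk e1.symm
      have := succ_eq k hk l hl e2
      omega
    rw [Ne, Prod.ext_iff] at nk nl
    rw [Prod.ext_iff, Prod.ext_iff] at swap
    rcases c1 with c1 | c1
    · rcases c2 with c2 | c2
      · obtain rfl : k = l := hi k hk l hl (Prod.ext c1.1 c2.1)
        by_cases h : (v (k + 1)).1 = (v k).1
        · have h2 : (v (k + 1)).2 ≠ (v k).2 := fun e => nk ⟨h, e⟩
          rw [c2.2.2.2 h2 h2]
        · rw [c1.2.2.2 h h]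
      · exfalso; apply swap; omega
    · rcases c2 with c2 | c2
      · exfalso; apply swap; omega
      · exfalso; omega
  have h0 : F 0 = emb (v 0) := by
    have := interp_eq (fun k => emb (v k)) (n := n) (k := 0) (by omega) le_rfl zero_le_one
    simpa using this
  have hFn : F n = emb (v 0) := by rw [hF, interp_of_ge _ _ le_rfl, hc]
  refine ⟨AddCircle.liftIco (n : ℝ) 0 F ∘ (AddCircle.homeomorphCircle hn'.ne').symm, ?_, ?_, ?_⟩
  · exact (AddCircle.liftIco_zero_continuous (h0.trans hFn.symm)
      (interp_continuous _ _).continuousOn).comp (Homeomorph.continuous _)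
  · refine Function.Injective.comp ?_ (Homeomorph.injective _)
    intro x y e
    apply (AddCircle.equivIco (n : ℝ) 0).injective
    apply Subtype.ext
    exact hinj (by simpa using (AddCircle.equivIco (n : ℝ) 0 x).2)
      (by simpa using (AddCircle.equivIco (n : ℝ) 0 y).2) e
  · rw [(Homeomorph.surjective _).range_comp]
    have hr : range (AddCircle.liftIco (n : ℝ) 0 F) = F '' Ico (0 : ℝ) n := by
      ext z
      constructor
      · rintro ⟨x, rfl⟩
        exact ⟨_, by simpa using (AddCircle.equivIco (n : ℝ) 0 x).2, rfl⟩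
      · rintro ⟨t, ht, rfl⟩
        exact ⟨t, AddCircle.liftIco_zero_coe_apply ht⟩
    rw [hr]
    ext z
    simp only [trace, mem_iUnion, Finset.mem_range, segment_eq_image']
    constructor
    · rintro ⟨x, hx, rfl⟩
      obtain ⟨k, hk, s, hs', rfl⟩ := exists_split hx
      exact ⟨k, hk, s, ⟨hs'.1, hs'.2.le⟩, by rw [hF, interp_eq _ hk hs'.1 hs'.2.le]; simp⟩
    · rintro ⟨k, hk, s, hs', rfl⟩
      have hk' : (k : ℝ) + 1 ≤ n := by exact_mod_cast hk
      have hk0 : (0 : ℝ) ≤ k := Nat.cast_nonneg _
      have e : F (k + s) = emb (v k) + s • (emb (v (k + 1)) - emb (v k)) := by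
        rw [hF, interp_eq _ hk hs'.1 hs'.2]; simp
      by_cases h : (k : ℝ) + s < n
      · exact ⟨k + s, ⟨by linarith [hs'.1], h⟩, e⟩
      · have h' : (k : ℝ) + s = n := by linarith [hs'.2]
        exact ⟨0, ⟨le_rfl, hn'⟩, by rw [h0, ← hFn, ← h']; exact e⟩

end Pool.Agent.Lib.MP_5a3ebe_gt.Grid
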