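import Pool.Agent.Lib.MP_5a3ebe_gt.GridCheck

/-! Every square on the twelve-sided polygon with a large parameter has side below 21. -/

namespace Pool.Agent.Lib.MP_5a3ebe_gt.Grid

structure TameSeg (s : ℝ → Seg ℝ) : Prop where
  x : Tame (fun N => (s N).x) 9
  y : Tame (fun N => (s N).y) 9
  u : Tame (fun N => (s N).u) 9
  v : Tame (fun N => (s N).v) 9

lemma tameSeg_seg (i : ℕ) (hi : i < 12) : TameSeg (fun N : ℝ => seg N i) := by
  refine ⟨(Tame.lin _ _).mono ?_, (Tame.lin _ _).mono ?_, (Tame.lin _ _).mono ?_,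
    (Tame.lin _ _).mono ?_⟩ <;> interval_cases i <;> decide

section
variable {s1 s2 s3 s4 : ℝ → Seg ℝ}

lemma tame_a3 (h1 : TameSeg s1) (h3 : TameSeg s3) : Tame (fun N => a3 (s1 N) (s3 N)) 162 :=
  ((h3.u.mul h1.u).add (h3.v.mul h1.v)).neg
lemma tame_b3 (h2 : TameSeg s2) (h3 : TameSeg s3) : Tame (fun N => b3 (s2 N) (s3 N)) 324 :=
  (h3.u.mul (h2.v.add h2.u)).sub (h3.v.mul (h2.u.sub h2.v))
lemma tame_p3 (h1 : TameSeg s1) (h2 : TameSeg s2) (h3 : TameSeg s3) :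
    Tame (fun N => p3 (s1 N) (s2 N) (s3 N)) 36 := (h2.x.sub (h2.y.sub h1.y)).sub h3.x
lemma tame_q3 (h1 : TameSeg s1) (h2 : TameSeg s2) (h3 : TameSeg s3) :
    Tame (fun N => q3 (s1 N) (s2 N) (s3 N)) 36 := (h2.y.add (h2.x.sub h1.x)).sub h3.y
lemma tame_g3 (h1 : TameSeg s1) (h2 : TameSeg s2) (h3 : TameSeg s3) :
    Tame (fun N => g3 (s1 N) (s2 N) (s3 N)) 648 :=
  (h3.u.mul (tame_q3 h1 h2 h3)).sub (h3.v.mul (tame_p3 h1 h2 h3))
lemma tame_a4 (h1 : TameSeg s1) (h4 : TameSeg s4) : Tame (fun N => a4 (s1 N) (s4 N)) 324 :=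
  (h4.u.mul (h1.v.sub h1.u)).sub (h4.v.mul (h1.u.add h1.v))
lemma tame_b4 (h2 : TameSeg s2) (h4 : TameSeg s4) : Tame (fun N => b4 (s2 N) (s4 N)) 162 :=
  (h4.u.mul h2.u).add (h4.v.mul h2.v)
lemma tame_p4 (h1 : TameSeg s1) (h2 : TameSeg s2) (h4 : TameSeg s4) :
    Tame (fun N => p4 (s1 N) (s2 N) (s4 N)) 36 := (h1.x.sub (h2.y.sub h1.y)).sub h4.x
lemma tame_q4 (h1 : TameSeg s1) (h2 : TameSeg s2) (h4 : TameSeg s4) :
    Tame (fun N => q4 (s1 N) (s2 N) (s4 N)) 36 := (h1.y.add (h2.x.sub h1.x)).sub h4.y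
lemma tame_g4 (h1 : TameSeg s1) (h2 : TameSeg s2) (h4 : TameSeg s4) :
    Tame (fun N => g4 (s1 N) (s2 N) (s4 N)) 648 :=
  (h4.u.mul (tame_q4 h1 h2 h4)).sub (h4.v.mul (tame_p4 h1 h2 h4))

lemma tame_QQ (h1 : TameSeg s1) (h2 : TameSeg s2) (h3 : TameSeg s3) (h4 : TameSeg s4) (j : ℕ) :
    Tame (fun N => QQ 441 (s1 N) (s2 N) (s3 N) (s4 N) j) 1000000000000000 := by
  have hd : Tame (fun N => det (s1 N) (s2 N) (s3 N) (s4 N)) 131220 :=
    ((tame_a3 h1 h3).mul (tame_b4 h2 h4)).sub ((tame_b3 h2 h3).mul (tame_a4 h1 h4))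
  have hm : Tame (fun N => n1 (s1 N) (s2 N) (s3 N) (s4 N)) 314928 :=
    ((tame_b3 h2 h3).mul (tame_g4 h1 h2 h4)).sub ((tame_g3 h1 h2 h3).mul (tame_b4 h2 h4))
  have hn : Tame (fun N => n2 (s1 N) (s2 N) (s3 N) (s4 N)) 314928 :=
    ((tame_g3 h1 h2 h3).mul (tame_a4 h1 h4)).sub ((tame_a3 h1 h3).mul (tame_g4 h1 h2 h4))
  have ht3 : Tame (fun N => t3 (s1 N) (s2 N) (s3 N) (det (s1 N) (s2 N) (s3 N) (s4 N))
      (n1 (s1 N) (s2 N) (s3 N) (s4 N)) (n2 (s1 N) (s2 N) (s3 N) (s4 N))) 300000000 :=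
    ((h3.u.mul (((hd.mul (tame_p3 h1 h2 h3)).add (hm.mul h1.v)).add (hn.mul (h2.u.sub h2.v)))).add
      (h3.v.mul (((hd.mul (tame_q3 h1 h2 h3)).sub (hm.mul h1.u)).add
        (hn.mul (h2.v.add h2.u))))).mono (by norm_num)
  have ht4 : Tame (fun N => t4 (s1 N) (s2 N) (s4 N) (det (s1 N) (s2 N) (s3 N) (s4 N))
      (n1 (s1 N) (s2 N) (s3 N) (s4 N)) (n2 (s1 N) (s2 N) (s3 N) (s4 N))) 300000000 :=
    ((h4.u.mul (((hd.mul (tame_p4 h1 h2 h4)).add (hm.mul (h1.u.add h1.v))).sub (hn.mul h2.v))).add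
      (h4.v.mul (((hd.mul (tame_q4 h1 h2 h4)).add (hm.mul (h1.v.sub h1.u))).add
        (hn.mul h2.u)))).mono (by norm_num)
  have hl3 : Tame (fun N => len (s3 N)) 162 := (h3.u.mul h3.u).add (h3.v.mul h3.v)
  have hl4 : Tame (fun N => len (s4 N)) 162 := (h4.u.mul h4.u).add (h4.v.mul h4.v)
  have hwx : Tame (fun N => wx (s1 N) (s2 N) (det (s1 N) (s2 N) (s3 N) (s4 N))
      (n1 (s1 N) (s2 N) (s3 N) (s4 N)) (n2 (s1 N) (s2 N) (s3 N) (s4 N))) 9000000 :=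
    (((hd.mul (h2.x.sub h1.x)).add (hn.mul h2.u)).sub (hm.mul h1.u)).mono (by norm_num)
  have hwy : Tame (fun N => wy (s1 N) (s2 N) (det (s1 N) (s2 N) (s3 N) (s4 N))
      (n1 (s1 N) (s2 N) (s3 N) (s4 N)) (n2 (s1 N) (s2 N) (s3 N) (s4 N))) 9000000 :=
    (((hd.mul (h2.y.sub h1.y)).add (hn.mul h2.v)).sub (hm.mul h1.v)).mono (by norm_num)
  have hK : Tame (fun _ => (441 : ℝ)) 441 := by simpa using Tame.const 441
  match j with
  | 0 => exact (hm.mul hd).neg.mono (by norm_num)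
  | 1 => exact ((hm.sub hd).mul hd).mono (by norm_num)
  | 2 => exact (hn.mul hd).neg.mono (by norm_num)
  | 3 => exact ((hn.sub hd).mul hd).mono (by norm_num)
  | 4 => exact (ht3.mul hd).neg.mono (by norm_num)
  | 5 => exact ((ht3.sub (hd.mul hl3)).mul hd).mono (by norm_num)
  | 6 => exact (ht4.mul hd).neg.mono (by norm_num)
  | 7 => exact ((ht4.sub (hd.mul hl4)).mul hd).mono (by norm_num)
  | (j + 8) => exact ((hK.mul (hd.mul hd)).sub ((hwx.mul hwx).add (hwy.mul hwy))).mono (by norm_num)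

end

def Seg.cast (s : Seg ℤ) : Seg ℝ := ⟨s.x, s.y, s.u, s.v⟩

lemma cast_QQ (s1 s2 s3 s4 : Seg ℤ) (j : ℕ) :
    ((QQ 441 s1 s2 s3 s4 j : ℤ) : ℝ) = QQ 441 s1.cast s2.cast s3.cast s4.cast j := by
  match j with
  | 0 | 1 | 2 | 3 | 4 | 5 | 6 | 7 | (j + 8) =>
    simp only [QQ, Q, det, n1, n2, t3, t4, wx, wy, len, a3, b3, g3, p3, q3, a4, b4, g4, p4, q4,
      Seg.cast]
    push_cast
    rfl

lemma cast_segI (i : ℕ) : (segI i).cast = seg ((N0 : ℤ) : ℝ) i := by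
  simp only [segI, Seg.cast, seg]
  push_cast
  rfl

/-- Real-coordinate form of the main estimate. -/
lemma small_real (N : ℝ) (hN : (N0 : ℝ) ≤ N) (i j k l : ℕ) (hi : i < 12) (hj : j < 12)
    (hk : k < 12) (hl : l < 12)
    (r1 r2 r3 r4 a b : ℝ) (h1 : r1 ∈ Set.Icc (0 : ℝ) 1) (h2 : r2 ∈ Set.Icc (0 : ℝ) 1)
    (h3 : r3 ∈ Set.Icc (0 : ℝ) 1) (h4 : r4 ∈ Set.Icc (0 : ℝ) 1)
    (e2x : (seg N j).x + r2 * (seg N j).u = (seg N i).x + r1 * (seg N i).u + a)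
    (e2y : (seg N j).y + r2 * (seg N j).v = (seg N i).y + r1 * (seg N i).v + b)
    (e3x : (seg N k).x + r3 * (seg N k).u = (seg N i).x + r1 * (seg N i).u + a - b)
    (e3y : (seg N k).y + r3 * (seg N k).v = (seg N i).y + r1 * (seg N i).v + b + a)
    (e4x : (seg N l).x + r4 * (seg N l).u = (seg N i).x + r1 * (seg N i).u - b)
    (e4y : (seg N l).y + r4 * (seg N l).v = (seg N i).y + r1 * (seg N i).v + a) :
    a * a + b * b < 441 := by
  have hN0 : (N0 : ℝ) = 1125899906842624 := by simp [N0]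
  have hrow := row_all i hi
  simp only [row, List.all_eq_true, List.mem_range] at hrow
  have h := hrow j hj k hk l hl
  rw [Bool.or_eq_true] at h
  rcases h with h | h
  · simp only [Bool.and_eq_true, beq_iff_eq] at h
    obtain ⟨⟨rfl, rfl⟩, rfl⟩ := h
    generalize seg N i = s at *
    have ea : a = (r2 - r1) * s.u := by linarith
    have eb : b = (r2 - r1) * s.v := by linarith
    have eb' : -b = (r4 - r1) * s.u := by linarith
    have ea' : a = (r4 - r1) * s.v := by linarith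
    have : a * a + b * b = 0 := by
      linear_combination a * ea + (r2 - r1) * s.u * ea' + b * eb - (r2 - r1) * s.v * eb'
    linarith
  · simp only [okI, List.any_eq_true, List.mem_range, decide_eq_true_eq] at h
    obtain ⟨t, -, ht⟩ := h
    have ht' : (0 : ℝ) < ((QQ 441 (segI i) (segI j) (segI k) (segI l) t : ℤ) : ℝ) := by
      exact_mod_cast ht
    rw [cast_QQ, cast_segI, cast_segI, cast_segI, cast_segI] at ht'
    have := (tame_QQ (tameSeg_seg i hi) (tameSeg_seg j hj) (tameSeg_seg k hk) (tameSeg_seg l hl)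
      t).pos (x := (N0 : ℝ)) (y := N) (by rw [hN0]; norm_num) (by
        refine le_trans ?_ hN; rw [hN0]; norm_num) ht'
    exact sound 441 _ _ _ _ t this r1 r2 r3 r4 a b h1 h2 h3 h4 e2x e2y e3x e3y e4x e4y

/-- The vertices as complex numbers. -/
noncomputable def V (N : ℝ) (i : ℕ) : ℂ := ⟨(seg N i).x, (seg N i).y⟩

lemma V_succ (N : ℝ) (i : ℕ) :
    V N (i + 1) = V N i + ⟨(seg N i).u, (seg N i).v⟩ := by
  apply Complex.ext <;> simp [V, seg] <;> ring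

/-- The polygon as a plane set. -/
def poly (N : ℝ) : Set ℂ := ⋃ i ∈ Finset.range 12, segment ℝ (V N i) (V N (i + 1))

lemma mem_poly {N : ℝ} {z : ℂ} (h : z ∈ poly N) : ∃ i < 12, ∃ r ∈ Set.Icc (0 : ℝ) 1,
    z.re = (seg N i).x + r * (seg N i).u ∧ z.im = (seg N i).y + r * (seg N i).v := by
  simp only [poly, Set.mem_iUnion, Finset.mem_range] at h
  obtain ⟨i, hi, hz⟩ := h
  rw [segment_eq_image'] at hz
  obtain ⟨r, hr, rfl⟩ := hz
  refine ⟨i, hi, r, hr, ?_, ?_⟩ <;> (rw [V_succ]; simp [V])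

lemma isCompact_poly (N : ℝ) : IsCompact (poly N) := by
  unfold poly
  refine Finset.isCompact_biUnion _ fun i _ => ?_
  rw [segment_eq_image']
  exact isCompact_Icc.image (by fun_prop)

theorem small_square (N : ℝ) (hN : (N0 : ℝ) ≤ N) (z w : ℂ) (h1 : z ∈ poly N)
    (h2 : z + w ∈ poly N) (h3 : z + w + Complex.I * w ∈ poly N)
    (h4 : z + Complex.I * w ∈ poly N) : ‖w‖ < 21 := by
  obtain ⟨i, hi, r1, hr1, x1, y1⟩ := mem_poly h1
  obtain ⟨j, hj, r2, hr2, x2, y2⟩ := mem_poly h2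
  obtain ⟨k, hk, r3, hr3, x3, y3⟩ := mem_poly h3
  obtain ⟨l, hl, r4, hr4, x4, y4⟩ := mem_poly h4
  simp at x2 y2 x3 y3 x4 y4
  have := small_real N hN i j k l hi hj hk hl r1 r2 r3 r4 w.re w.im hr1 hr2 hr3 hr4
    (by linarith) (by linarith) (by linarith) (by linarith) (by linarith) (by linarith)
  have h : ‖w‖ ^ 2 = w.re * w.re + w.im * w.im := by
    rw [Complex.sq_norm, Complex.normSq_apply]
  by_contra hc
  push Not at hc
  nlinarith

/-- Robust form: near the polygon all squares have side below 22. -/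
theorem small_near (N : ℝ) (hN : (N0 : ℝ) ≤ N) : ∃ δ > 0, ∀ z w : ℂ,
    (∃ p ∈ poly N, ‖z - p‖ ≤ δ) → (∃ p ∈ poly N, ‖z + w - p‖ ≤ δ) →
    (∃ p ∈ poly N, ‖z + w + Complex.I * w - p‖ ≤ δ) →
    (∃ p ∈ poly N, ‖z + Complex.I * w - p‖ ≤ δ) → ‖w‖ < 22 := by
  have hK := isCompact_poly N
  let C : Set (ℂ × ℂ × ℂ × ℂ) :=
    (poly N ×ˢ poly N ×ˢ poly N ×ˢ poly N) ∩ {q | 21 ≤ ‖q.2.1 - q.1‖}
  have hC : IsCompact C :=
    (hK.prod (hK.prod (hK.prod hK))).inter_right (isClosed_le (by fun_prop) (by fun_prop))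
  let g : ℂ × ℂ × ℂ × ℂ → ℝ := fun q =>
    ‖q.2.2.1 - (q.2.1 + Complex.I * (q.2.1 - q.1))‖ + ‖q.2.2.2 - (q.1 + Complex.I * (q.2.1 - q.1))‖
  have hg : Continuous g := by fun_prop
  have hpos : ∀ q ∈ C, 0 < g q := by
    rintro ⟨z1, z2, z3, z4⟩ ⟨⟨h1, h2, h3, h4⟩, h5⟩
    by_contra hc
    push Not at hc
    simp only [g] at hc
    have e3 : ‖z3 - (z2 + Complex.I * (z2 - z1))‖ = 0 :=
      le_antisymm (by linarith [norm_nonneg (z4 - (z1 + Complex.I * (z2 - z1)))]) (norm_nonneg _)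
    have e4 : ‖z4 - (z1 + Complex.I * (z2 - z1))‖ = 0 :=
      le_antisymm (by linarith [norm_nonneg (z3 - (z2 + Complex.I * (z2 - z1)))]) (norm_nonneg _)
    rw [norm_eq_zero, sub_eq_zero] at e3 e4
    have := small_square N hN z1 (z2 - z1) h1 (by simpa using h2)
      (by simp only [add_sub_cancel]; rw [← e3]; exact h3) (by rw [← e4]; exact h4)
    simp only [Set.mem_ofPred_eq] at h5
    linarith
  obtain ⟨μ, hμ, hμ'⟩ := hC.exists_forall_le' hg.continuousOn hpos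
  refine ⟨min (1 / 2) (μ / 9), by positivity, ?_⟩
  rintro z w ⟨p1, hp1, d1⟩ ⟨p2, hp2, d2⟩ ⟨p3, hp3, d3⟩ ⟨p4, hp4, d4⟩
  have m1 := min_le_left (1 / 2 : ℝ) (μ / 9)
  have m2 := min_le_right (1 / 2 : ℝ) (μ / 9)
  generalize min (1 / 2 : ℝ) (μ / 9) = δ at *
  by_contra hc
  push Not at hc
  have hmem : (p1, p2, p3, p4) ∈ C := by
    refine ⟨⟨hp1, hp2, hp3, hp4⟩, ?_⟩
    simp only [Set.mem_ofPred_eq]
    have : w = (p2 - p1) + (z + w - p2) - (z - p1) := by ring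
    have h := norm_sub_le ((p2 - p1) + (z + w - p2)) (z - p1)
    have h' := norm_add_le (p2 - p1) (z + w - p2)
    rw [← this] at h
    linarith
  have := hμ' _ hmem
  simp only [g] at this
  have n1 : ‖Complex.I * (z - p1)‖ ≤ δ := by rw [norm_mul, Complex.norm_I, one_mul]; exact d1
  have n2 : ‖Complex.I * (z + w - p2)‖ ≤ δ := by rw [norm_mul, Complex.norm_I, one_mul]; exact d2
  have e3 : p3 - (p2 + Complex.I * (p2 - p1)) = (z + w - p2) + Complex.I * (z + w - p2) -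
      Complex.I * (z - p1) - (z + w + Complex.I * w - p3) := by ring
  have e4 : p4 - (p1 + Complex.I * (p2 - p1)) = (z - p1) + Complex.I * (z + w - p2) -
      Complex.I * (z - p1) - (z + Complex.I * w - p4) := by ring
  rw [e3, e4] at this
  have k : ∀ a b c d : ℂ, ‖a + b - c - d‖ ≤ ‖a‖ + ‖b‖ + ‖c‖ + ‖d‖ := fun a b c d => by
    linarith [norm_sub_le (a + b - c) d, norm_sub_le (a + b) c, norm_add_le a b]
  linarith [k (z + w - p2) (Complex.I * (z + w - p2)) (Complex.I * (z - p1))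
    (z + w + Complex.I * w - p3), k (z - p1) (Complex.I * (z + w - p2)) (Complex.I * (z - p1))
    (z + Complex.I * w - p4)]

end Pool.Agent.Lib.MP_5a3ebe_gt.Grid
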