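import Pool.Agent.Lib.MP_5a3ebe_gt.GridJordan
import Pool.Agent.Lib.MP_5a3ebe_gt.GridPoly

/-! Grid Jordan curves that surround a big square and carry only tiny squares. -/

namespace Pool.Agent.Lib.MP_5a3ebe_gt.Grid

open Complex Set
open scoped Real

lemma seg_lin {a b z : ℂ} (hz : z ∈ segment ℝ a b) (α β t : ℝ) (ha : t ≤ α * a.re + β * a.im)
    (hb : t ≤ α * b.re + β * b.im) : t ≤ α * z.re + β * z.im := by
  obtain ⟨x, y, hx, hy, hxy, rfl⟩ := hz
  have e : t = x * t + y * t := by rw [← add_mul, hxy, one_mul]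
  have h1 := mul_le_mul_of_nonneg_left ha hx
  have h2 := mul_le_mul_of_nonneg_left hb hy
  simp only [add_re, add_im, smul_re, smul_im, smul_eq_mul]
  nlinarith

lemma step_near {S : Set ℂ} {p q : ℤ × ℤ} (hp : p ∈ near S) (hs : Step p q) {z : ℂ}
    (hz : z ∈ segment ℝ (emb p) (emb q)) : ∃ y ∈ S, |z.re - y.re| ≤ 3 ∧ |z.im - y.im| ≤ 3 := by
  obtain ⟨y, hy, h1, h2⟩ := hp
  unfold Step at hs
  have a1 : (p.1 : ℝ) - 1 ≤ q.1 := by exact_mod_cast (show p.1 - 1 ≤ q.1 by omega)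
  have a2 : (q.1 : ℝ) ≤ p.1 + 1 := by exact_mod_cast (show q.1 ≤ p.1 + 1 by omega)
  have a3 : (p.2 : ℝ) - 1 ≤ q.2 := by exact_mod_cast (show p.2 - 1 ≤ q.2 by omega)
  have a4 : (q.2 : ℝ) ≤ p.2 + 1 := by exact_mod_cast (show q.2 ≤ p.2 + 1 by omega)
  have b1 := seg_lin hz 1 0 (p.1 - 1) (by simp [emb]) (by simpa [emb] using a1)
  have b2 := seg_lin hz (-1) 0 (-(p.1 + 1)) (by simp [emb]) (by simp [emb]; linarith)
  have b3 := seg_lin hz 0 1 (p.2 - 1) (by simp [emb]) (by simpa [emb] using a3)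
  have b4 := seg_lin hz 0 (-1) (-(p.2 + 1)) (by simp [emb]) (by simp [emb]; linarith)
  rw [abs_le] at h1 h2
  refine ⟨y, hy, abs_le.2 ⟨?_, ?_⟩, abs_le.2 ⟨?_, ?_⟩⟩ <;> linarith [h1.1, h1.2, h2.1, h2.2]

lemma arg_div_pos {a b : ℂ} (h : 0 < a.re * b.im - a.im * b.re) : 0 < arg (b / a) := by
  have ha : a ≠ 0 := by rintro rfl; simp at h
  have hn : 0 < normSq a := normSq_pos.2 ha
  have him : 0 < (b / a).im := by
    rw [div_im, ← sub_div]; exact div_pos (by linarith) hn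
  refine lt_of_le_of_ne (arg_nonneg_iff.2 him.le) fun e => ?_
  exact him.ne' (arg_eq_zero_iff.1 e.symm).2

/-- Scaled lattice vertices. -/
def W (M N : ℕ) (i : ℕ) : ℤ × ℤ :=
  (M * ((vtx i).1 * N + (vtx i).2.1), M * ((vtx i).2.2.1 * N + (vtx i).2.2.2))

lemma emb_W (M N i : ℕ) : emb (W M N i) = (M : ℂ) * V N i := by
  apply Complex.ext <;> simp [emb, W, V, seg]

def big (M N : ℕ) : Set ℂ := {y | ∃ p ∈ poly N, y = (M : ℂ) * p}

lemma seg_big (M N i : ℕ) (hi : i < 12) :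
    segment ℝ (emb (W M N i)) (emb (W M N (i + 1))) ⊆ big M N := by
  rintro z ⟨x, y, hx, hy, hxy, rfl⟩
  refine ⟨x • V N i + y • V N (i + 1), ?_, ?_⟩
  · simp only [poly, mem_iUnion, Finset.mem_range]
    exact ⟨i, hi, x, y, hx, hy, hxy, rfl⟩
  · rw [emb_W, emb_W]; simp only [real_smul]; ring

lemma V_bounds (N : ℝ) (hN : 0 ≤ N) (i : ℕ) (hi : i < 13) :
    1 ≤ (V N i).re ∧ (V N i).re ≤ 2 * N + 7 ∧ 1 ≤ (V N i).im ∧ (V N i).im ≤ 2 * N + 7 := by
  interval_cases i <;> simp [V, seg, vtx] <;> (try constructor) <;> (try constructor) <;>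
    (try constructor) <;> linarith

lemma poly_bounds {N : ℝ} (hN : 0 ≤ N) {p : ℂ} (hp : p ∈ poly N) :
    1 ≤ p.re ∧ p.re ≤ 2 * N + 7 ∧ 1 ≤ p.im ∧ p.im ≤ 2 * N + 7 := by
  simp only [poly, mem_iUnion, Finset.mem_range] at hp
  obtain ⟨i, hi, hp⟩ := hp
  have h1 := V_bounds N hN i (by omega)
  have h2 := V_bounds N hN (i + 1) (by omega)
  have b1 := seg_lin hp 1 0 1 (by linarith) (by linarith)
  have b2 := seg_lin hp (-1) 0 (-(2 * N + 7)) (by linarith) (by linarith)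
  have b3 := seg_lin hp 0 1 1 (by linarith) (by linarith)
  have b4 := seg_lin hp 0 (-1) (-(2 * N + 7)) (by linarith) (by linarith)
  refine ⟨?_, ?_, ?_, ?_⟩ <;> linarith

lemma seg_side {N : ℝ} (hN : 0 ≤ N) {i : ℕ} (hi : i < 12) {p : ℂ}
    (hp : p ∈ segment ℝ (V N i) (V N (i + 1))) :
    ((i ≤ 1 ∨ 8 ≤ i) → N + 1 ≤ p.re) ∧ (2 ≤ i ∧ i ≤ 5 → N + 1 ≤ p.im) ∧ (i = 6 → p.re ≤ 7) ∧
      (i = 7 → p.im ≤ 7) := by
  refine ⟨fun h => ?_, fun h => ?_, fun h => ?_, fun h => ?_⟩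
  · have := seg_lin hp 1 0 (N + 1) ?_ ?_
    · linarith
    all_goals interval_cases i <;> first | omega | (simp [V, seg, vtx] <;> linarith)
  · have := seg_lin hp 0 1 (N + 1) ?_ ?_
    · linarith
    all_goals interval_cases i <;> first | omega | (simp [V, seg, vtx] <;> linarith)
  · subst h
    have := seg_lin hp (-1) 0 (-7) (by simp [V, seg, vtx]; norm_num) (by simp [V, seg, vtx])
    linarith
  · subst h
    have := seg_lin hp 0 (-1) (-7) (by simp [V, seg, vtx]) (by simp [V, seg, vtx]; norm_num)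
    linarith

lemma poly_side {N : ℝ} (hN : 0 ≤ N) {p : ℂ} (hp : p ∈ poly N) :
    N + 1 ≤ p.re ∨ N + 1 ≤ p.im ∨ p.re ≤ 7 ∨ p.im ≤ 7 := by
  simp only [poly, mem_iUnion, Finset.mem_range] at hp
  obtain ⟨i, hi, hp⟩ := hp
  obtain ⟨h1, h2, h3, h4⟩ := seg_side hN hi hp
  have : (i ≤ 1 ∨ 8 ≤ i) ∨ (2 ≤ i ∧ i ≤ 5) ∨ i = 6 ∨ i = 7 := by omega
  rcases this with h | h | h | h
  exacts [Or.inl (h1 h), Or.inr (Or.inl (h2 h)), Or.inr (Or.inr (Or.inl (h3 h))),
    Or.inr (Or.inr (Or.inr (h4 h)))]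

noncomputable def ctr (M N : ℕ) : ℂ := ⟨M * (N + 8) / 2, M * (N + 8) / 2⟩

lemma edge_walk (M N : ℕ) (hM : 3 ≤ M) (hN : 20 ≤ N) (i : ℕ) (hi : i < 12) (u : ℂ)
    (hu : ((i ≤ 1 ∨ 8 ≤ i) ∧ u = 1) ∨ ((2 ≤ i ∧ i ≤ 5) ∧ u = -I) ∨ (i = 6 ∧ u = -1) ∨
      (i = 7 ∧ u = I)) :
    ∃ θ, Walk (near (big M N) ∩ {p | 0 < (u * (emb p - ctr M N)).re}) (ctr M N) (W M N i)
      (W M N (i + 1)) θ := by
  obtain ⟨θ, h⟩ := staircase (ctr M N) (W M N i) (W M N (i + 1))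
  refine ⟨θ, h.mono ?_⟩
  rintro p ⟨z, hz, h1, h2⟩
  refine ⟨⟨z, seg_big M N i hi hz, h1, h2⟩, ?_⟩
  have hM' : (3 : ℝ) ≤ M := by exact_mod_cast hM
  have hN' : (20 : ℝ) ≤ N := by exact_mod_cast hN
  obtain ⟨x, y, hx, hy, hxy, rfl⟩ := hz
  have hq : x • V N i + y • V N (i + 1) ∈ segment ℝ (V N i) (V N (i + 1)) :=
    ⟨x, y, hx, hy, hxy, rfl⟩
  have e : x • emb (W M N i) + y • emb (W M N (i + 1)) =
      (M : ℂ) * (x • V N i + y • V N (i + 1)) := by
    rw [emb_W, emb_W]; simp only [real_smul]; ring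
  rw [e] at h1 h2
  obtain ⟨s1, s2, s3, s4⟩ := seg_side (by linarith) hi hq
  generalize x • V N i + y • V N (i + 1) = q at *
  simp only [mul_re, mul_im, natCast_re, natCast_im, zero_mul, sub_zero, add_zero] at h1 h2
  rw [abs_le] at h1 h2
  rcases hu with ⟨h, rfl⟩ | ⟨h, rfl⟩ | ⟨h, rfl⟩ | ⟨h, rfl⟩
  · have := s1 h
    simp [emb, ctr]; nlinarith [h1.1, h1.2]
  · have := s2 h
    simp [emb, ctr]; nlinarith [h2.1, h2.2]
  · have := s3 h
    simp [emb, ctr]; nlinarith [h1.1, h1.2]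
  · have := s4 h
    simp [emb, ctr]; nlinarith [h2.1, h2.2]

lemma closed_walk (M N : ℕ) (hM : 3 ≤ M) (hN : 20 ≤ N) :
    ∃ θ, θ ≠ 0 ∧ Walk (near (big M N)) (ctr M N) (W M N 8) (W M N 8) θ := by
  have hM' : (3 : ℝ) ≤ M := by exact_mod_cast hM
  have hN' : (20 : ℝ) ≤ N := by exact_mod_cast hN
  have E := edge_walk M N hM hN
  obtain ⟨_, h8⟩ := E 8 (by omega) 1 (by simp)
  obtain ⟨_, h9⟩ := E 9 (by omega) 1 (by simp)
  obtain ⟨_, h10⟩ := E 10 (by omega) 1 (by simp)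
  obtain ⟨_, h11⟩ := E 11 (by omega) 1 (by simp)
  obtain ⟨_, h0⟩ := E 0 (by omega) 1 (by simp)
  obtain ⟨_, h1⟩ := E 1 (by omega) 1 (by simp)
  obtain ⟨_, h2⟩ := E 2 (by omega) (-I) (by simp)
  obtain ⟨_, h3⟩ := E 3 (by omega) (-I) (by simp)
  obtain ⟨_, h4⟩ := E 4 (by omega) (-I) (by simp)
  obtain ⟨_, h5⟩ := E 5 (by omega) (-I) (by simp)
  obtain ⟨_, h6⟩ := E 6 (by omega) (-1) (by simp)
  obtain ⟨_, h7⟩ := E 7 (by omega) I (by simp)
  have e12 : W M N (11 + 1) = W M N 0 := rfl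
  rw [e12] at h11
  have wR := ((((h8.trans h9).trans h10).trans h11).trans h0).trans h1
  have wT := ((h2.trans h3).trans h4).trans h5
  have hMM : 0 < (M : ℝ) * M := by positivity
  have pR := wR.half fun p hp => hp.2
  have pT := wT.half fun p hp => hp.2
  have pL := h6.half fun p hp => hp.2
  have pB := h7.half fun p hp => hp.2
  have key : ∀ i j, 0 < ((V N i).re - (N + 8) / 2) * ((V N j).im - (N + 8) / 2) -
      ((V N i).im - (N + 8) / 2) * ((V N j).re - (N + 8) / 2) →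
      0 < arg ((emb (W M N j) - ctr M N) / (emb (W M N i) - ctr M N)) := by
    intro i j h
    apply arg_div_pos
    rw [emb_W, emb_W]
    have := mul_pos hMM h
    simp only [sub_re, sub_im, mul_re, mul_im, natCast_re, natCast_im, ctr]
    nlinarith
  have qR := key 8 (1 + 1) (by simp [V, seg, vtx]; nlinarith)
  have qT := key 2 (5 + 1) (by simp [V, seg, vtx]; nlinarith)
  have qL := key 6 (6 + 1) (by simp [V, seg, vtx]; nlinarith)
  have qB := key 7 (7 + 1) (by simp [V, seg, vtx]; nlinarith)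
  refine ⟨_, ?_, (((wR.mono inter_subset_left).trans (wT.mono inter_subset_left)).trans
    (h6.mono inter_subset_left)).trans (h7.mono inter_subset_left)⟩
  linarith

theorem main (ε : ℝ) (hε : 0 < ε) :
    ∃ (n m a b : ℕ) (γ : Circle → ℂ), Continuous γ ∧ Function.Injective γ ∧
      (∀ z ∈ range γ, ∃ p q : ℤ, ∃ u ∈ ({1, I} : Set ℂ),
        z ∈ segment ℝ (p + q * I : ℂ) (p + q * I + u) ∧
        segment ℝ (p + q * I : ℂ) (p + q * I + u) ⊆ range γ) ∧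
      range γ ⊆ Icc (0 : ℝ) n ×ℂ Icc (0 : ℝ) n ∧ 0 < m ∧ (n : ℝ) ≤ (2 + ε) * m ∧
      (∃ c : ℂ, Bornology.IsBounded (connectedComponentIn (range γ)ᶜ c) ∧
        Ioo (a : ℝ) (a + m) ×ℂ Ioo (b : ℝ) (b + m) ⊆ connectedComponentIn (range γ)ᶜ c) ∧
      ∀ z w : ℂ, z ∈ range γ → z + w ∈ range γ → z + w + I * w ∈ range γ →
        z + I * w ∈ range γ → ‖w‖ ≤ ε * m := by
  obtain ⟨K, hK⟩ := exists_nat_ge (max (N0 : ℝ) (24 / ε))
  have hK1 : (N0 : ℝ) ≤ K := (le_max_left _ _).trans hK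
  have hK2 : 24 ≤ ε * K := by
    have := (le_max_right _ _).trans hK
    rwa [div_le_iff₀ hε, mul_comm] at this
  have hK3 : (20 : ℝ) ≤ K := le_trans (by simp [N0]; norm_num) hK1
  have hK4 : 20 ≤ K := by exact_mod_cast hK3
  set N := K + 8 with hNdef
  have hN' : (N : ℝ) = K + 8 := by rw [hNdef]; push_cast; ring
  obtain ⟨δ, hδ, hsq⟩ := small_near (N : ℝ) (by linarith)
  obtain ⟨M, hM⟩ := exists_nat_ge (max 3 (6 / δ))
  have hM1 : (3 : ℝ) ≤ M := (le_max_left _ _).trans hM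
  have hM2 : 6 ≤ δ * M := by
    have := (le_max_right _ _).trans hM
    rwa [div_le_iff₀ hδ, mul_comm] at this
  have hM3 : 3 ≤ M := by exact_mod_cast hM1
  have hM0 : (0 : ℝ) < M := by linarith
  -- points close to the scaled polygon avoid the inner square
  have avoid : ∀ z : ℂ, (∃ y ∈ big M N, |z.re - y.re| ≤ 3 ∧ |z.im - y.im| ≤ 3) →
      z ∉ Ioo ((8 * M : ℕ) : ℝ) ((8 * M : ℕ) + (M * K : ℕ)) ×ℂ
        Ioo ((8 * M : ℕ) : ℝ) ((8 * M : ℕ) + (M * K : ℕ)) := by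
    rintro z ⟨y, ⟨p, hp, rfl⟩, h1, h2⟩ ⟨⟨x1, x2⟩, ⟨y1, y2⟩⟩
    simp only [mul_re, mul_im, natCast_re, natCast_im, zero_mul, sub_zero, add_zero] at h1 h2
    push_cast at x1 x2 y1 y2
    rw [abs_le] at h1 h2
    rcases poly_side (by linarith) hp with h | h | h | h <;> nlinarith [h1.1, h1.2, h2.1, h2.2]
  have hctr : ctr M N ∈ Ioo ((8 * M : ℕ) : ℝ) ((8 * M : ℕ) + (M * K : ℕ)) ×ℂ
      Ioo ((8 * M : ℕ) : ℝ) ((8 * M : ℕ) + (M * K : ℕ)) := by
    have : (M : ℝ) * (N + 8) / 2 ∈ Ioo ((8 * M : ℕ) : ℝ) ((8 * M : ℕ) + (M * K : ℕ)) := by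
      rw [hN']; push_cast; constructor <;> nlinarith
    exact ⟨this, this⟩
  obtain ⟨θ, hθ, hw⟩ := closed_walk M N hM3 (by omega)
  obtain ⟨n, v, hn, hc, hv, hs, hwind, hinj⟩ := exists_simple hw hθ
    fun p hp q hq hz => avoid _ (step_near hp hq hz) hctr
  obtain ⟨γ, hγ1, hγ2, hγ3⟩ := exists_jordan hn hc hs hinj
  have close : ∀ z ∈ range γ, ∃ y ∈ big M N, |z.re - y.re| ≤ 3 ∧ |z.im - y.im| ≤ 3 := by
    intro z hz
    rw [hγ3] at hz
    simp only [trace, mem_iUnion, Finset.mem_range] at hz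
    obtain ⟨k, hk, hz⟩ := hz
    exact step_near (hv k hk.le) (hs k hk) hz
  refine ⟨M * (2 * N + 8), M * K, 8 * M, 8 * M, γ, hγ1, hγ2, ?_, ?_, by positivity, ?_, ?_, ?_⟩
  · intro z hz
    rw [hγ3] at hz ⊢
    simp only [trace, mem_iUnion, Finset.mem_range] at hz
    obtain ⟨k, hk, hz⟩ := hz
    have hsub : segment ℝ (emb (v k)) (emb (v (k + 1))) ⊆ trace (fun k => emb (v k)) n := by
      intro y hy
      simp only [trace, mem_iUnion, Finset.mem_range]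
      exact ⟨k, hk, hy⟩
    have hne : v (k + 1) ≠ v k := by
      intro e
      by_cases h : k + 1 < n
      · have := hinj _ h _ hk e; omega
      · have h' : k + 1 = n := by omega
        rw [h', hc] at e
        have := hinj _ (by omega) _ hk e; omega
    have hst := hs k hk
    unfold Step at hst
    rw [Ne, Prod.ext_iff] at hne
    generalize v k = p at *
    generalize v (k + 1) = q at *
    have ep : emb p = p.1 + p.2 * I := by apply Complex.ext <;> simp [emb]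
    have eq : emb q = q.1 + q.2 * I := by apply Complex.ext <;> simp [emb]
    have : (q.1 = p.1 + 1 ∧ q.2 = p.2) ∨ (q.1 = p.1 ∧ q.2 = p.2 + 1) ∨
        (p.1 = q.1 + 1 ∧ p.2 = q.2) ∨ (p.1 = q.1 ∧ p.2 = q.2 + 1) := by omega
    rcases this with h | h | h | h
    · have e : emb q = p.1 + p.2 * I + 1 := by rw [eq, h.1, h.2]; push_cast; ring
      rw [e, ep] at hz hsub
      exact ⟨p.1, p.2, 1, by simp, hz, hsub⟩
    · have e : emb q = p.1 + p.2 * I + I := by rw [eq, h.1, h.2]; push_cast; ring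
      rw [e, ep] at hz hsub
      exact ⟨p.1, p.2, I, by simp, hz, hsub⟩
    · have e : emb p = q.1 + q.2 * I + 1 := by rw [ep, h.1, h.2]; push_cast; ring
      rw [segment_symm, e, eq] at hz hsub
      exact ⟨q.1, q.2, 1, by simp, hz, hsub⟩
    · have e : emb p = q.1 + q.2 * I + I := by rw [ep, h.1, h.2]; push_cast; ring
      rw [segment_symm, e, eq] at hz hsub
      exact ⟨q.1, q.2, I, by simp, hz, hsub⟩
  · intro z hz
    obtain ⟨y, ⟨p, hp, rfl⟩, h1, h2⟩ := close z hz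
    simp only [mul_re, mul_im, natCast_re, natCast_im, zero_mul, sub_zero, add_zero] at h1 h2
    rw [abs_le] at h1 h2
    obtain ⟨b1, b2, b3, b4⟩ := poly_bounds (by linarith) hp
    refine ⟨⟨?_, ?_⟩, ⟨?_, ?_⟩⟩ <;> push_cast <;> nlinarith [h1.1, h1.2, h2.1, h2.2]
  · push_cast; rw [hN']; nlinarith
  · have hsub : Ioo ((8 * M : ℕ) : ℝ) ((8 * M : ℕ) + (M * K : ℕ)) ×ℂ
        Ioo ((8 * M : ℕ) : ℝ) ((8 * M : ℕ) + (M * K : ℕ)) ⊆ (range γ)ᶜ :=
      fun z hz hz' => avoid z (close z hz') hz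
    refine ⟨ctr M N, ?_, IsPreconnected.subset_connectedComponentIn ?_ hctr hsub⟩
    · have := hsub hctr
      rw [hγ3] at this ⊢
      exact bounded_component (by simp only [hc]) hwind this
    · refine Convex.isPreconnected ?_
      exact ((convex_Ioo _ _).linear_preimage reLm).inter ((convex_Ioo _ _).linear_preimage imLm)
  · intro z w h1 h2 h3 h4
    have hMc : (M : ℂ) ≠ 0 := by exact_mod_cast hM0.ne'
    have scale : ∀ z ∈ range γ, ∃ p ∈ poly N, ‖z / M - p‖ ≤ δ := by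
      intro z hz
      obtain ⟨y, ⟨p, hp, rfl⟩, a1, a2⟩ := close z hz
      refine ⟨p, hp, ?_⟩
      have e : z / M - p = (z - M * p) / M := by field_simp
      have := norm_le_abs_re_add_abs_im (z - M * p)
      rw [sub_re, sub_im] at this
      rw [e, norm_div, Complex.norm_natCast, div_le_iff₀ hM0]
      linarith
    have := hsq (z / M) (w / M) (scale _ h1) (by rw [← add_div]; exact scale _ h2)
      (by rw [← mul_div_assoc, ← add_div, ← add_div]; exact scale _ h3)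
      (by rw [← mul_div_assoc, ← add_div]; exact scale _ h4)
    rw [norm_div, Complex.norm_natCast, div_lt_iff₀ hM0] at this
    push_cast; nlinarith

end Pool.Agent.Lib.MP_5a3ebe_gt.Grid
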