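import Mathlib

/-! Integer polynomial functions with bounded coefficients: the sign at one large point decides
the sign at every large point. -/

namespace Pool.Agent.Lib.MP_5a3ebe_gt.Grid

def ev : List ℤ → ℝ → ℝ
  | [], _ => 0
  | a :: l, x => a + x * ev l x

def nrm : List ℤ → ℕ
  | [] => 0
  | a :: l => a.natAbs + nrm l

def ladd : List ℤ → List ℤ → List ℤ
  | [], m => m
  | a :: l, [] => a :: l
  | a :: l, b :: m => (a + b) :: ladd l m

def lsmul (c : ℤ) : List ℤ → List ℤ
  | [] => []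
  | a :: l => (c * a) :: lsmul c l

def lmul : List ℤ → List ℤ → List ℤ
  | [], _ => []
  | a :: l, m => ladd (lsmul a m) (0 :: lmul l m)

lemma ev_ladd (l m : List ℤ) (x : ℝ) : ev (ladd l m) x = ev l x + ev m x := by
  induction l generalizing m with
  | nil => simp [ladd, ev]
  | cons a l ih =>
    cases m with
    | nil => simp [ladd, ev]
    | cons b m => simp [ladd, ev, ih]; ring

lemma nrm_ladd (l m : List ℤ) : nrm (ladd l m) ≤ nrm l + nrm m := by
  induction l generalizing m with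
  | nil => simp [ladd, nrm]
  | cons a l ih =>
    cases m with
    | nil => simp [ladd, nrm]
    | cons b m =>
      have := ih m
      have h := Int.natAbs_add_le a b
      simp only [ladd, nrm]; omega

lemma ev_lsmul (c : ℤ) (l : List ℤ) (x : ℝ) : ev (lsmul c l) x = c * ev l x := by
  induction l with
  | nil => simp [lsmul, ev]
  | cons a l ih => simp [lsmul, ev, ih]; ring

lemma nrm_lsmul (c : ℤ) (l : List ℤ) : nrm (lsmul c l) = c.natAbs * nrm l := by
  induction l with
  | nil => simp [lsmul, nrm]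
  | cons a l ih => simp [lsmul, nrm, ih, Int.natAbs_mul]; ring

lemma ev_lmul (l m : List ℤ) (x : ℝ) : ev (lmul l m) x = ev l x * ev m x := by
  induction l with
  | nil => simp [lmul, ev]
  | cons a l ih => simp [lmul, ev, ev_ladd, ev_lsmul, ih]; ring

lemma nrm_lmul (l m : List ℤ) : nrm (lmul l m) ≤ nrm l * nrm m := by
  induction l with
  | nil => simp [lmul, nrm]
  | cons a l ih =>
    have h := nrm_ladd (lsmul a m) (0 :: lmul l m)
    simp only [lmul, nrm, nrm_lsmul, Int.natAbs_zero, zero_add] at h ⊢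
    nlinarith

lemma tri (l : List ℤ) : (∀ x : ℝ, ev l x = 0) ∨ (∀ x : ℝ, nrm l + 1 ≤ x → 1 ≤ ev l x) ∨
    (∀ x : ℝ, nrm l + 1 ≤ x → ev l x ≤ -1) := by
  induction l with
  | nil => left; simp [ev]
  | cons a l ih =>
    have ha : (|(a : ℝ)|) = (a.natAbs : ℝ) := by
      rw [Nat.cast_natAbs]; simp
    have h0 : (0 : ℝ) ≤ nrm l := Nat.cast_nonneg _
    have h1 := le_abs_self (a : ℝ)
    have h2 := neg_abs_le (a : ℝ)
    have h3 := abs_nonneg (a : ℝ)
    rcases ih with h | h | h
    · rcases lt_trichotomy a 0 with hl | hl | hl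
      · right; right; intro x _
        have : (a : ℝ) ≤ -1 := by exact_mod_cast (show a ≤ -1 by omega)
        simp [ev, h, this]
      · left; intro x; simp [ev, h, hl]
      · right; left; intro x _
        have : (1 : ℝ) ≤ a := by exact_mod_cast (show 1 ≤ a by omega)
        simp [ev, h, this]
    · right; left; intro x hx
      simp only [nrm, Nat.cast_add, ← ha] at hx
      have := h x (by linarith)
      simp only [ev]; nlinarith
    · right; right; intro x hx
      simp only [nrm, Nat.cast_add, ← ha] at hx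
      have := h x (by linarith)
      simp only [ev]; nlinarith

/-- `f` is an integer polynomial function whose coefficients have absolute sum at most `B`. -/
def Tame (f : ℝ → ℝ) (B : ℕ) : Prop := ∃ l : List ℤ, (∀ x, f x = ev l x) ∧ nrm l ≤ B

lemma Tame.add {f g : ℝ → ℝ} {A B : ℕ} (hf : Tame f A) (hg : Tame g B) :
    Tame (fun x => f x + g x) (A + B) := by
  obtain ⟨l, hl, hA⟩ := hf
  obtain ⟨m, hm, hB⟩ := hg
  exact ⟨ladd l m, fun x => by rw [ev_ladd, ← hl, ← hm], (nrm_ladd l m).trans (by omega)⟩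

lemma Tame.sub {f g : ℝ → ℝ} {A B : ℕ} (hf : Tame f A) (hg : Tame g B) :
    Tame (fun x => f x - g x) (A + B) := by
  obtain ⟨l, hl, hA⟩ := hf
  obtain ⟨m, hm, hB⟩ := hg
  refine ⟨ladd l (lsmul (-1) m), fun x => ?_, (nrm_ladd _ _).trans ?_⟩
  · rw [ev_ladd, ev_lsmul, ← hl, ← hm]; push_cast; ring
  · rw [nrm_lsmul]; simp; omega

lemma Tame.mul {f g : ℝ → ℝ} {A B : ℕ} (hf : Tame f A) (hg : Tame g B) :
    Tame (fun x => f x * g x) (A * B) := by
  obtain ⟨l, hl, hA⟩ := hf
  obtain ⟨m, hm, hB⟩ := hg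
  exact ⟨lmul l m, fun x => by rw [ev_lmul, ← hl, ← hm],
    (nrm_lmul l m).trans (Nat.mul_le_mul hA hB)⟩

lemma Tame.neg {f : ℝ → ℝ} {A : ℕ} (hf : Tame f A) : Tame (fun x => - f x) A := by
  obtain ⟨l, hl, hA⟩ := hf
  refine ⟨lsmul (-1) l, fun x => ?_, ?_⟩
  · rw [ev_lsmul, ← hl]; push_cast; ring
  · rw [nrm_lsmul]; simpa using hA

lemma Tame.mono {f : ℝ → ℝ} {A B : ℕ} (hf : Tame f A) (h : A ≤ B) : Tame f B := by
  obtain ⟨l, hl, hA⟩ := hf
  exact ⟨l, hl, hA.trans h⟩

lemma Tame.lin (a c : ℤ) : Tame (fun x => (a : ℝ) * x + c) (a.natAbs + c.natAbs) :=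
  ⟨[c, a], fun x => by simp [ev]; ring, by simp [nrm]; omega⟩

lemma Tame.const (c : ℕ) : Tame (fun _ => (c : ℝ)) c :=
  ⟨[c], fun x => by simp [ev], by simp [nrm]⟩

lemma Tame.pos {f : ℝ → ℝ} {B : ℕ} (hf : Tame f B) {x y : ℝ} (hx : (B : ℝ) + 1 ≤ x)
    (hy : (B : ℝ) + 1 ≤ y) (h : 0 < f x) : 0 < f y := by
  obtain ⟨l, hl, hB⟩ := hf
  have hB' : (nrm l : ℝ) ≤ B := by exact_mod_cast hB
  rw [hl] at h ⊢
  rcases tri l with h1 | h1 | h1
  · rw [h1] at h; exact absurd h (lt_irrefl _)
  · have := h1 y (by linarith); linarith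
  · have := h1 x (by linarith); linarith

end Pool.Agent.Lib.MP_5a3ebe_gt.Grid
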