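import Pool.Agent.Lib.MP_5a3ebe_gt.GridWind

/-! Lattice walks: staircases along segments, shortest essential closed walks are simple, and a
simple closed lattice walk is a Jordan curve. -/

namespace Pool.Agent.Lib.MP_5a3ebe_gt.Grid

open Complex Set
open scoped Real

def emb (a : ℤ × ℤ) : ℂ := ⟨a.1, a.2⟩

def Step (a b : ℤ × ℤ) : Prop := (b.1 - a.1).natAbs + (b.2 - a.2).natAbs ≤ 1

def Walk (A : Set (ℤ × ℤ)) (c : ℂ) (a b : ℤ × ℤ) (θ : ℝ) : Prop :=
  ∃ (n : ℕ) (v : ℕ → ℤ × ℤ), v 0 = a ∧ v n = b ∧ (∀ k ≤ n, v k ∈ A) ∧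
    (∀ k < n, Step (v k) (v (k + 1))) ∧ wind (fun k => emb (v k)) n c = θ

lemma wind_congr {v w : ℕ → ℂ} {n : ℕ} (p : ℂ) (h : ∀ k ≤ n, v k = w k) :
    wind v n p = wind w n p := by
  unfold wind
  refine Finset.sum_congr rfl fun i hi => ?_
  have := Finset.mem_range.1 hi
  rw [h i (by omega), h (i + 1) (by omega)]

lemma wind_add (v : ℕ → ℂ) (n m : ℕ) (p : ℂ) :
    wind v (n + m) p = wind v n p + wind (fun k => v (n + k)) m p := by
  unfold wind
  rw [Finset.sum_range_add]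
  rfl

lemma Walk.refl {A : Set (ℤ × ℤ)} (c : ℂ) {a : ℤ × ℤ} (ha : a ∈ A) : Walk A c a a 0 :=
  ⟨0, fun _ => a, rfl, rfl, fun _ _ => ha, fun _ h => absurd h (by omega), by simp [wind]⟩

lemma Walk.single {A : Set (ℤ × ℤ)} (c : ℂ) {a b : ℤ × ℤ} (ha : a ∈ A) (hb : b ∈ A)
    (h : Step a b) : ∃ θ, Walk A c a b θ := by
  refine ⟨_, 1, fun k => if k = 0 then a else b, rfl, rfl, fun k _ => ?_, fun k hk => ?_, rfl⟩
  · by_cases h0 : k = 0 <;> simp [h0, ha, hb]
  · obtain rfl : k = 0 := by omega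
    simpa using h

lemma Walk.mono {A B : Set (ℤ × ℤ)} {c : ℂ} {a b : ℤ × ℤ} {θ : ℝ} (h : Walk A c a b θ)
    (hAB : A ⊆ B) : Walk B c a b θ := by
  obtain ⟨n, v, h0, hn, hA, hs, hw⟩ := h
  exact ⟨n, v, h0, hn, fun k hk => hAB (hA k hk), hs, hw⟩

lemma Walk.trans {A : Set (ℤ × ℤ)} {c : ℂ} {a b d : ℤ × ℤ} {θ φ : ℝ} (h : Walk A c a b θ)
    (h' : Walk A c b d φ) : Walk A c a d (θ + φ) := by
  obtain ⟨n, v, h0, hn, hA, hs, hw⟩ := h
  obtain ⟨m, w, h0', hn', hA', hs', hw'⟩ := h'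
  have key : ∀ k, (if n + k ≤ n then v (n + k) else w (n + k - n)) = w k := by
    intro k
    by_cases hk : k = 0
    · subst hk; simp [hn, h0']
    · rw [if_neg (by omega)]; congr 1; omega
  refine ⟨n + m, fun k => if k ≤ n then v k else w (k - n), by simpa using h0, ?_, ?_, ?_, ?_⟩
  · exact (key m).trans hn'
  · intro k hk
    by_cases h1 : k ≤ n
    · simp only [if_pos h1]; exact hA k h1
    · simp only [if_neg h1]; exact hA' _ (by omega)
  · intro k hk
    by_cases h1 : k < n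
    · simp only [if_pos h1.le, if_pos (show k + 1 ≤ n by omega)]; exact hs k h1
    · obtain ⟨j, rfl⟩ : ∃ j, k = n + j := ⟨k - n, by omega⟩
      have e1 := key j
      have e2 := key (j + 1)
      simp only [add_assoc] at e1 e2 ⊢
      rw [e1, e2]
      exact hs' j (by omega)
  · rw [wind_add, ← hw, ← hw']
    congr 1
    · exact wind_congr c fun k hk => by simp only [if_pos hk]
    · exact wind_congr c fun k _ => by simp only [key k]

lemma Walk.half {A : Set (ℤ × ℤ)} {c u : ℂ} {a b : ℤ × ℤ} {θ : ℝ} (h : Walk A c a b θ)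
    (hA : ∀ p ∈ A, 0 < (u * (emb p - c)).re) : θ = arg ((emb b - c) / (emb a - c)) := by
  obtain ⟨n, v, h0, hn, hA', hs, hw⟩ := h
  rw [← hw, wind_half (u := u) fun i hi => hA _ (hA' i hi), hn, h0,
    arg_div_half (u := u) (hA _ (h0 ▸ hA' 0 (by omega))) (hA _ (hn ▸ hA' n le_rfl))]

/-- Lattice points within two units of a set. -/
def near (S : Set ℂ) : Set (ℤ × ℤ) :=
  {p | ∃ z ∈ S, |(p.1 : ℝ) - z.re| ≤ 2 ∧ |(p.2 : ℝ) - z.im| ≤ 2}

lemma staircase (c : ℂ) (a b : ℤ × ℤ) :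
    ∃ θ, Walk (near (segment ℝ (emb a) (emb b))) c a b θ := by
  obtain ⟨L, hL, hx, hy⟩ : ∃ L : ℕ, 0 < L ∧ |(b.1 : ℝ) - a.1| ≤ L ∧ |(b.2 : ℝ) - a.2| ≤ L := by
    obtain ⟨L, hL⟩ := exists_nat_ge (|(b.1 : ℝ) - a.1| + |(b.2 : ℝ) - a.2| + 1)
    have h1 := abs_nonneg ((b.1 : ℝ) - a.1)
    have h2 := abs_nonneg ((b.2 : ℝ) - a.2)
    refine ⟨L, ?_, by linarith, by linarith⟩
    exact_mod_cast (show (0 : ℝ) < L by linarith)
  have hL' : (0 : ℝ) < L := by exact_mod_cast hL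
  let X : ℕ → ℝ := fun k => a.1 + k / L * (b.1 - a.1)
  let Y : ℕ → ℝ := fun k => a.2 + k / L * (b.2 - a.2)
  have hmem : ∀ k ≤ L, (⟨X k, Y k⟩ : ℂ) ∈ segment ℝ (emb a) (emb b) := by
    intro k hk
    have hk' : (k : ℝ) ≤ L := by exact_mod_cast hk
    rw [segment_eq_image']
    refine ⟨k / L, ⟨by positivity, by rw [div_le_one hL']; exact hk'⟩, ?_⟩
    apply Complex.ext <;> simp [emb, X, Y]
  have dX : ∀ k, |X (k + 1) - X k| ≤ 1 := by
    intro k
    have : X (k + 1) - X k = (b.1 - a.1) / L := by simp only [X]; push_cast; field_simp; ring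
    rw [this, abs_div, abs_of_pos hL', div_le_one hL']; exact hx
  have dY : ∀ k, |Y (k + 1) - Y k| ≤ 1 := by
    intro k
    have : Y (k + 1) - Y k = (b.2 - a.2) / L := by simp only [Y]; push_cast; field_simp; ring
    rw [this, abs_div, abs_of_pos hL', div_le_one hL']; exact hy
  have fl : ∀ s t : ℝ, |s - t| ≤ 1 → (⌊s⌋ - ⌊t⌋).natAbs ≤ 1 := by
    intro s t h
    obtain ⟨h1, h2⟩ := abs_le.1 h
    have e1 : ⌊s⌋ ≤ ⌊t⌋ + 1 := by rw [← Int.floor_add_one]; exact Int.floor_le_floor (by linarith)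
    have e2 : ⌊t⌋ ≤ ⌊s⌋ + 1 := by rw [← Int.floor_add_one]; exact Int.floor_le_floor (by linarith)
    omega
  have fl2 : ∀ s t : ℝ, |s - t| ≤ 1 → |((⌊s⌋ : ℤ) : ℝ) - t| ≤ 2 := by
    intro s t h
    obtain ⟨h1, h2⟩ := abs_le.1 h
    have := Int.floor_le s
    have := Int.lt_floor_add_one s
    rw [abs_le]; constructor <;> linarith
  have key : ∀ k ≤ L, ∃ θ, Walk (near (segment ℝ (emb a) (emb b))) c a (⌊X k⌋, ⌊Y k⌋) θ := by
    have hn : ∀ k ≤ L, (⌊X k⌋, ⌊Y k⌋) ∈ near (segment ℝ (emb a) (emb b)) := fun k hk =>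
      ⟨_, hmem k hk, fl2 _ _ (by simp), fl2 _ _ (by simp)⟩
    intro k hk
    induction k with
    | zero =>
      have : (⌊X 0⌋, ⌊Y 0⌋) = a := by simp [X, Y]
      have h := hn 0 hk
      rw [this] at h ⊢
      exact ⟨0, Walk.refl c h⟩
    | succ k ih =>
      obtain ⟨θ, h⟩ := ih (by omega)
      have hm : (⌊X (k + 1)⌋, ⌊Y k⌋) ∈ near (segment ℝ (emb a) (emb b)) :=
        ⟨_, hmem k (by omega), fl2 _ _ (dX k), fl2 _ _ (by simp)⟩
      obtain ⟨θ1, h1⟩ := Walk.single c (hn k (by omega)) hm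
        (by simpa [Step] using fl _ _ (dX k))
      obtain ⟨θ2, h2⟩ := Walk.single c hm (hn (k + 1) hk) (by simpa [Step] using fl _ _ (dY k))
      exact ⟨_, (h.trans h1).trans h2⟩
  have := key L le_rfl
  have e : (⌊X L⌋, ⌊Y L⌋) = b := by
    simp only [X, Y, div_self hL'.ne', one_mul, add_sub_cancel, Int.floor_intCast]
  rwa [e] at this

lemma exists_simple {A : Set (ℤ × ℤ)} {c : ℂ} {a : ℤ × ℤ} {θ : ℝ} (h : Walk A c a a θ)
    (hθ : θ ≠ 0) (hA : ∀ p ∈ A, ∀ q, Step p q → c ∉ segment ℝ (emb p) (emb q)) :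
    ∃ (n : ℕ) (v : ℕ → ℤ × ℤ), 3 ≤ n ∧ v n = v 0 ∧ (∀ k ≤ n, v k ∈ A) ∧
      (∀ k < n, Step (v k) (v (k + 1))) ∧ wind (fun k => emb (v k)) n c ≠ 0 ∧
      ∀ i < n, ∀ j < n, v i = v j → i = j := by
  classical
  have hex : ∃ n : ℕ, ∃ v : ℕ → ℤ × ℤ, v n = v 0 ∧ (∀ k ≤ n, v k ∈ A) ∧
      (∀ k < n, Step (v k) (v (k + 1))) ∧ wind (fun k => emb (v k)) n c ≠ 0 := by
    obtain ⟨n, v, h0, hn, hA', hs, hw⟩ := h
    exact ⟨n, v, by rw [h0, hn], hA', hs, by rwa [hw]⟩
  obtain ⟨v, hc, hv, hs, hw⟩ := Nat.find_spec hex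
  have hmin := fun m => Nat.find_min hex (m := m)
  generalize Nat.find hex = n at *
  have inj : ∀ i j, i < j → j < n → v i ≠ v j := by
    intro i j hij hj e
    obtain ⟨d, rfl⟩ : ∃ d, j = i + d := ⟨j - i, by omega⟩
    obtain ⟨m, rfl⟩ : ∃ m, n = i + d + m := ⟨n - (i + d), by omega⟩
    have key : ∀ k, (if i + k ≤ i then v (i + k) else v (i + k + d)) = v (i + d + k) := by
      intro k
      by_cases hk : k = 0
      · subst hk; simpa using e
      · rw [if_neg (by omega)]; congr 1; omega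
    by_cases h1 : wind (fun k => emb (v (i + k))) d c = 0
    · refine hmin (i + m) (by omega) ⟨fun k => if k ≤ i then v k else v (k + d), ?_, ?_, ?_, ?_⟩
      · simp only [key m, hc, Nat.zero_le, if_true]
      · intro k hk
        by_cases h2 : k ≤ i
        · simp only [if_pos h2]; exact hv k (by omega)
        · simp only [if_neg h2]; exact hv _ (by omega)
      · intro k hk
        by_cases h2 : k < i
        · simp only [if_pos h2.le, if_pos (show k + 1 ≤ i by omega)]; exact hs k (by omega)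
        · obtain ⟨t, rfl⟩ : ∃ t, k = i + t := ⟨k - i, by omega⟩
          have e1 := key t
          have e2 := key (t + 1)
          simp only [add_assoc] at e1 e2 ⊢
          rw [e1, e2]
          have := hs (i + d + t) (by omega)
          simpa only [add_assoc] using this
      · rw [wind_add, wind_add, h1, add_zero] at hw
        rw [wind_add]
        convert hw using 2
        · exact wind_congr c fun k hk => by simp only [if_pos hk]
        · exact wind_congr c fun k _ => by simp only [key k]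
    · exact hmin d (by omega) ⟨fun k => v (i + k), by simpa using e.symm,
        fun k hk => hv _ (by omega), fun k hk => hs (i + k) (by omega), h1⟩
  refine ⟨n, v, ?_, hc, hv, hs, hw, fun i hi j hj e => ?_⟩
  · by_contra hn
    apply hw
    have hsl : ∀ k < n, (emb (v (k + 1)) - c) / (emb (v k) - c) ∈ slitPlane := fun k hk =>
      ratio_mem_slit (hA _ (hv k hk.le) _ (hs k hk))
    have : n = 0 ∨ n = 1 ∨ n = 2 := by omega
    rcases this with rfl | rfl | rfl
    · simp [wind]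
    · have h0 := slitPlane_ne_zero (hsl 0 (by omega))
      simp only [zero_add, hc] at h0
      have h1 : emb (v 0) - c ≠ 0 := fun e => h0 (by rw [e]; simp)
      simp [wind, hc, div_self h1]
    · have h0 := slitPlane_arg_ne_pi (hsl 0 (by omega))
      simp only [wind, Finset.sum_range_succ, Finset.range_zero, Finset.sum_empty, zero_add] at h0 ⊢
      rw [show (1 + 1 : ℕ) = 2 from rfl, hc, ← inv_div (emb (v 1) - c), arg_inv, if_neg h0]
      ring
  · rcases lt_trichotomy i j with h1 | h1 | h1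
    · exact absurd e (inj i j h1 hj)
    · exact h1
    · exact absurd e.symm (inj j i h1 hi)

end Pool.Agent.Lib.MP_5a3ebe_gt.Grid
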