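import Mathlib

/-! Total turning angle of a closed polygonal walk around a point. -/

namespace Pool.Agent.Lib.MP_5a3ebe_gt.Grid

open Complex Set
open scoped Real

noncomputable def wind (v : ℕ → ℂ) (n : ℕ) (p : ℂ) : ℝ :=
  ∑ i ∈ Finset.range n, arg ((v (i + 1) - p) / (v i - p))

/-- The union of the segments of the walk. -/
def trace (v : ℕ → ℂ) (n : ℕ) : Set ℂ := ⋃ i ∈ Finset.range n, segment ℝ (v i) (v (i + 1))

lemma not_mem_trace {v : ℕ → ℂ} {n : ℕ} {p : ℂ} :
    p ∉ trace v n ↔ ∀ i < n, p ∉ segment ℝ (v i) (v (i + 1)) := by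
  simp [trace]

lemma ratio_mem_slit {a b p : ℂ} (h : p ∉ segment ℝ a b) : (b - p) / (a - p) ∈ slitPlane := by
  have ha : a - p ≠ 0 := fun e => h (by rw [← sub_eq_zero.1 e]; exact left_mem_segment _ _ _)
  by_contra hc
  rw [mem_slitPlane_iff] at hc
  push Not at hc
  obtain ⟨h1, h2⟩ := hc
  set r := (b - p) / (a - p) with hr
  have hb : b - p = r * (a - p) := by rw [hr]; field_simp
  have hr' : r = (r.re : ℂ) := Complex.ext (by simp) (by simp [h2])
  apply h
  have hpos : 0 < 1 - r.re := by linarith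
  refine ⟨-r.re / (1 - r.re), 1 / (1 - r.re), by apply div_nonneg <;> linarith, by positivity,
    by field_simp; ring, ?_⟩
  have hne : ((1 : ℂ) - (r.re : ℂ)) ≠ 0 := by exact_mod_cast hpos.ne'
  rw [hr'] at hb
  simp only [real_smul]
  push_cast
  field_simp
  linear_combination hb

lemma wind_mem {v : ℕ → ℂ} {n : ℕ} {p : ℂ} (hc : v n = v 0) (h : p ∉ trace v n) :
    ∃ k : ℤ, wind v n p = 2 * π * k := by
  rw [not_mem_trace] at h
  have key : ∀ m ≤ n, ((wind v m p : ℝ) : Real.Angle) = arg (v m - p) - arg (v 0 - p) := by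
    intro m hm
    induction m with
    | zero => simp [wind]
    | succ m ih =>
      have hs := h m (by omega)
      have ha : v m - p ≠ 0 := fun e => hs (by rw [← sub_eq_zero.1 e]; exact left_mem_segment _ _ _)
      have hb : v (m + 1) - p ≠ 0 :=
        fun e => hs (by rw [← sub_eq_zero.1 e]; exact right_mem_segment _ _ _)
      have := ih (by omega)
      unfold wind at this ⊢
      rw [Finset.sum_range_succ, Real.Angle.coe_add, this, arg_div_coe_angle hb ha]
      abel
  have := key n le_rfl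
  rw [hc, sub_self, ← Real.Angle.coe_zero, Real.Angle.angle_eq_iff_two_pi_dvd_sub] at this
  simpa using this

lemma wind_continuousOn (v : ℕ → ℂ) (n : ℕ) : ContinuousOn (wind v n) (trace v n)ᶜ := by
  intro p hp
  have h := not_mem_trace.1 hp
  refine ContinuousAt.continuousWithinAt ?_
  unfold wind
  refine tendsto_finsetSum _ fun i hi => ?_
  have hs := h i (Finset.mem_range.1 hi)
  have ha : v i - p ≠ 0 := fun e => hs (by rw [← sub_eq_zero.1 e]; exact left_mem_segment _ _ _)
  have h1 : ContinuousAt (fun q : ℂ => (v (i + 1) - q) / (v i - q)) p :=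
    ContinuousAt.div (by fun_prop) (by fun_prop) ha
  exact ContinuousAt.comp (f := fun q : ℂ => (v (i + 1) - q) / (v i - q))
    (continuousAt_arg (ratio_mem_slit hs)) h1

lemma wind_const {v : ℕ → ℂ} {n : ℕ} (hc : v n = v 0) {T : Set ℂ} (hT : IsPreconnected T)
    (hs : T ⊆ (trace v n)ᶜ) {p q : ℂ} (hp : p ∈ T) (hq : q ∈ T) : wind v n p = wind v n q := by
  have key : ∀ p ∈ T, ∀ q ∈ T, ¬ wind v n p < wind v n q := by
    intro p hp q hq hlt
    obtain ⟨k, hk⟩ := wind_mem hc (hs hp)
    obtain ⟨l, hl⟩ := wind_mem hc (hs hq)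
    have hpi := Real.pi_pos
    have hkl : (k : ℝ) < l := by
      rw [hk, hl] at hlt
      exact lt_of_mul_lt_mul_left hlt (by positivity)
    have hkl' : (k : ℝ) + 1 ≤ l := by exact_mod_cast (show k + 1 ≤ l by exact_mod_cast hkl)
    have hm : 2 * π * (k + 1 / 2) ∈ Icc (wind v n p) (wind v n q) := by
      rw [hk, hl]; constructor <;> nlinarith
    obtain ⟨r, hr, hr'⟩ := hT.intermediate_value hp hq ((wind_continuousOn v n).mono hs) hm
    obtain ⟨j, hj⟩ := wind_mem hc (hs hr)
    rw [hj] at hr'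
    have h2 : (j : ℝ) = k + 1 / 2 := mul_left_cancel₀ (by positivity) hr'
    have h3 : ((2 * j : ℤ) : ℝ) = ((2 * k + 1 : ℤ) : ℝ) := by push_cast; linarith
    have h4 : 2 * j = 2 * k + 1 := by exact_mod_cast h3
    omega
  exact le_antisymm (not_lt.1 (key q hq p hp)) (not_lt.1 (key p hp q hq))

lemma arg_div_half {u a b : ℂ} (ha : 0 < (u * a).re) (hb : 0 < (u * b).re) :
    arg (b / a) = arg (u * b) - arg (u * a) := by
  have ha0 : u * a ≠ 0 := fun e => by rw [e] at ha; simp at ha
  have hb0 : u * b ≠ 0 := fun e => by rw [e] at hb; simp at hb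
  have hu : u ≠ 0 := left_ne_zero_of_mul ha0
  have h1 := abs_lt.1 (abs_arg_lt_pi_div_two_iff.2 (Or.inl ha))
  have h2 := abs_lt.1 (abs_arg_lt_pi_div_two_iff.2 (Or.inl hb))
  have e : b / a = (u * b) / (u * a) := by rw [mul_div_mul_left _ _ hu]
  rw [e, ← arg_coe_angle_toReal_eq_arg, arg_div_coe_angle hb0 ha0, ← Real.Angle.coe_sub,
    Real.Angle.toReal_coe_eq_self_iff]
  constructor <;> linarith [h1.1, h1.2, h2.1, h2.2]

lemma wind_half {v : ℕ → ℂ} {n : ℕ} {p u : ℂ} (h : ∀ i ≤ n, 0 < (u * (v i - p)).re) :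
    wind v n p = arg (u * (v n - p)) - arg (u * (v 0 - p)) := by
  induction n with
  | zero => simp [wind]
  | succ n ih =>
    have := ih fun i hi => h i (by omega)
    unfold wind at this ⊢
    rw [Finset.sum_range_succ, this, arg_div_half (h n (by omega)) (h (n + 1) le_rfl)]
    ring

lemma bounded_component {v : ℕ → ℂ} {n : ℕ} (hc : v n = v 0) {c : ℂ} (hw : wind v n c ≠ 0)
    (hcm : c ∉ trace v n) : Bornology.IsBounded (connectedComponentIn (trace v n)ᶜ c) := by
  obtain ⟨R, hR⟩ : ∃ R : ℝ, ∀ i ≤ n, ‖v i‖ ≤ R :=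
    ⟨∑ i ∈ Finset.range (n + 1), ‖v i‖, fun i hi =>
      Finset.single_le_sum (f := fun i => ‖v i‖) (fun _ _ => norm_nonneg _)
        (Finset.mem_range.2 (by omega))⟩
  refine (Metric.isBounded_closedBall (x := (0 : ℂ)) (r := R)).subset fun p hp => ?_
  by_contra hout
  simp only [Metric.mem_closedBall, dist_zero_right, not_le] at hout
  have e := wind_const hc isPreconnected_connectedComponentIn (connectedComponentIn_subset _ _)
    hp (mem_connectedComponentIn hcm)
  have h0 : wind v n p = 0 := by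
    rw [wind_half (u := -(starRingEnd ℂ p)), hc, sub_self]
    intro i hi
    have h1 : (-(starRingEnd ℂ p) * (v i - p)).re = ‖p‖ ^ 2 - (starRingEnd ℂ p * v i).re := by
      rw [Complex.sq_norm, Complex.normSq_apply]; simp; ring
    have h2 : (starRingEnd ℂ p * v i).re ≤ ‖p‖ * ‖v i‖ := by
      refine (re_le_norm _).trans ?_
      rw [norm_mul, Complex.norm_conj]
    have h3 := hR i hi
    have h4 := norm_nonneg (v i)
    rw [h1]; nlinarith
  exact hw (e ▸ h0)

end Pool.Agent.Lib.MP_5a3ebe_gt.Grid
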