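import Pool.Agent.Lib.MP_5a3ebe_gt.H46Lift

/-! Simple polygons inscribed in an arc. -/

namespace Pool.Agent.Lib.MP_5a3ebe_gt.H46

open Set Filter Topology Complex

lemma adj_simple {a b c p : ℂ} {δ : ℝ} (h1 : dist a b ≤ δ) (h2 : dist b c ≤ δ) (h3 : δ < dist a c)
    (hp : p ∈ segment ℝ a b) (hq : p ∈ segment ℝ b c) : p = b := by
  by_contra hne
  rw [segment_symm] at hp
  obtain ⟨μ, a0, a1, e1⟩ := mem_seg.1 hp
  obtain ⟨ν, b0, b1, e2⟩ := mem_seg.1 hq
  have hμ : 0 < μ := lt_of_le_of_ne a0 (by rintro rfl; simp at e1; exact hne e1)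
  have hν : 0 < ν := lt_of_le_of_ne b0 (by rintro rfl; simp at e2; exact hne e2)
  have hμ' : (μ : ℂ) ≠ 0 := by exact_mod_cast hμ.ne'
  have hν' : (ν : ℂ) ≠ 0 := by exact_mod_cast hν.ne'
  have e : (μ : ℂ) * (a - b) = ν * (c - b) := by linear_combination e2 - e1
  rcases le_total μ ν with h | h
  · have : c ∈ segment ℝ b a := mem_seg.2 ⟨μ / ν, by positivity, (div_le_one hν).2 h, by
      push_cast; field_simp; linear_combination -e⟩
    have := dist_add_dist_of_mem_segment this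
    have := dist_nonneg (x := b) (y := c)
    rw [dist_comm a c] at h3; rw [dist_comm a b] at h1
    linarith
  · have : a ∈ segment ℝ b c := mem_seg.2 ⟨ν / μ, by positivity, (div_le_one hμ).2 h, by
      push_cast; field_simp; linear_combination e⟩
    have := dist_add_dist_of_mem_segment this
    have := dist_nonneg (x := b) (y := a)
    linarith

theorem exists_inscribed {σ : ℝ → ℂ} (hc : Continuous σ) (hi : InjOn σ (Icc 0 1)) {δ : ℝ}
    (hδ : 0 < δ) : ∃ (n : ℕ) (t : ℕ → ℝ), Monotone t ∧ t 0 = 0 ∧ t (n + 1) = 1 ∧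
      (∀ i, t i ∈ Icc (0 : ℝ) 1) ∧ (∀ i, dist (σ (t i)) (σ (t (i + 1))) ≤ δ) ∧
      Simple (fun i => σ (t i)) (n + 1) := by
  classical
  obtain ⟨η, hη, Hη⟩ := Metric.uniformContinuousOn_iff.1
    (isCompact_Icc.uniformContinuousOn_of_continuous (hc.continuousOn (s := Icc (0 : ℝ) 1))) δ hδ
  let A : ℝ → Set ℝ := fun s => Icc (0 : ℝ) 1 ∩ {u | dist (σ s) (σ u) ≤ δ}
  have hA : ∀ s, IsCompact (A s) := fun s =>
    isCompact_Icc.inter_right (isClosed_le (by fun_prop) continuous_const)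
  let nxt : ℝ → ℝ := fun s => sSup (A s)
  have h1 : ∀ s ∈ Icc (0 : ℝ) 1, nxt s ∈ A s := fun s hs =>
    (hA s).sSup_mem ⟨s, hs, by simpa using hδ.le⟩
  have h2 : ∀ s, ∀ u ∈ A s, u ≤ nxt s := fun s u hu => le_csSup (hA s).bddAbove hu
  have h3 : ∀ s ∈ Icc (0 : ℝ) 1, min 1 (s + η / 2) ≤ nxt s := by
    intro s hs
    have hm : min 1 (s + η / 2) ∈ Icc (0 : ℝ) 1 :=
      ⟨le_min zero_le_one (by linarith [hs.1]), min_le_left _ _⟩
    refine h2 s _ ⟨hm, (Hη s hs _ hm ?_).le⟩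
    rw [Real.dist_eq, abs_lt]
    have := min_le_right 1 (s + η / 2)
    have : s ≤ min 1 (s + η / 2) := le_min hs.2 (by linarith)
    constructor <;> linarith
  let t : ℕ → ℝ := fun i => nxt^[i] 0
  have ht : ∀ i, t (i + 1) = nxt (t i) := fun i => Function.iterate_succ_apply' _ _ _
  have hI : ∀ i, t i ∈ Icc (0 : ℝ) 1 := by
    intro i
    induction i with
    | zero => exact ⟨le_rfl, zero_le_one⟩
    | succ i ih => rw [ht]; exact (h1 _ ih).1
  have hmono : Monotone t := monotone_nat_of_le_succ fun i => by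
    rw [ht]; exact (le_min (hI i).2 (by linarith)).trans (h3 _ (hI i))
  have hex : ∃ i, t i = 1 := by
    have key : ∀ i : ℕ, min 1 (i * (η / 2)) ≤ t i := by
      intro i
      induction i with
      | zero => simp [t]
      | succ i ih =>
        rw [ht]
        refine le_trans ?_ (h3 _ (hI i))
        rcases min_le_iff.1 ih with h | h
        · exact min_le_iff.2 (Or.inl (le_min le_rfl (by linarith)))
        · exact min_le_min le_rfl (by push_cast; linarith)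
    obtain ⟨i, hi⟩ := exists_nat_ge (1 / (η / 2))
    rw [div_le_iff₀ (by linarith)] at hi
    exact ⟨i, le_antisymm (hI i).2 ((le_min le_rfl hi).trans (key i))⟩
  obtain ⟨n, hn⟩ : ∃ n, Nat.find hex = n + 1 := by
    refine ⟨Nat.find hex - 1, ?_⟩
    have : Nat.find hex ≠ 0 := fun e => by
      have := Nat.find_spec hex
      rw [e] at this; simp [t] at this
    omega
  have hlt : ∀ i ≤ n, t i < t (i + 1) := by
    intro i hi
    have : t i ≠ 1 := Nat.find_min hex (by omega)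
    rw [ht]
    exact (lt_min (lt_of_le_of_ne (hI i).2 this) (by linarith)).trans_le (h3 _ (hI i))
  have hd : ∀ i, dist (σ (t i)) (σ (t (i + 1))) ≤ δ := fun i => by rw [ht]; exact (h1 _ (hI i)).2
  have hfar : ∀ i m, i + 2 ≤ m → m ≤ n + 1 → δ < dist (σ (t i)) (σ (t m)) := by
    intro i m a1 a2
    by_contra hc
    have := h2 (t i) (t m) ⟨hI m, not_lt.1 hc⟩
    rw [← ht] at this
    exact absurd ((hlt (i + 1) (by omega)).trans_le (hmono a1)) (not_lt.2 this)
  refine ⟨n, t, hmono, rfl, hn ▸ Nat.find_spec hex, hI, hd, fun i hi' e => ?_,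
    fun i j hij hj p hp hq => ?_⟩
  · exact (hlt i (by omega)).ne (hi (hI i) (hI (i + 1)) e)
  · rcases eq_or_lt_of_le (Nat.succ_le_of_lt hij) with rfl | h
    · exact ⟨rfl, adj_simple (hd i) (hd (i + 1)) (hfar i (i + 2) le_rfl (by omega)) hp hq⟩
    · exfalso
      have a1 := dist_add_dist_of_mem_segment hp
      have a2 := dist_add_dist_of_mem_segment hq
      have a3 := hfar i j h (by omega)
      have a4 := hfar (i + 1) (j + 1) (by omega) (by omega)
      have a5 := dist_triangle_right (σ (t i)) (σ (t j)) p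
      have a6 := dist_triangle_left (σ (t (i + 1))) (σ (t (j + 1))) p
      have a7 := hd i
      have a8 := hd j
      linarith

/-- the arc together with its two horizontal tails -/
def Kset (σ : ℝ → ℂ) : Set ℂ :=
  {p | (p.im = 0 ∧ p.re ≤ 0) ∨ p ∈ σ '' Icc 0 1 ∨ (p.im = 0 ∧ 1 ≤ p.re)}

def Tame0 (σ : ℝ → ℂ) : Prop := ∀ ε > 0, ∃ η > 0, ∀ (m : ℕ) (t : ℕ → ℝ), Monotone t →
  (∀ i ≤ m, 0 ≤ t i ∧ t i ≤ η) → |zs (fun i => σ (t i)) m| ≤ ε

def Tame1 (σ : ℝ → ℂ) : Prop := ∀ ε > 0, ∃ η > 0, ∀ (m : ℕ) (t : ℕ → ℝ), Monotone t →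
  (∀ i ≤ m, 1 - η ≤ t i ∧ t i ≤ 1) → |zs (fun i => σ (t i)) m| ≤ ε

lemma inv_cont {σ : ℝ → ℂ} (hc : Continuous σ) (hi : InjOn σ (Icc 0 1)) {s η : ℝ}
    (hs : s ∈ Icc (0 : ℝ) 1) (hη : 0 < η) :
    ∃ r > 0, ∀ u ∈ Icc (0 : ℝ) 1, ‖σ u - σ s‖ < r → |u - s| ≤ η := by
  obtain ⟨r, hr, H⟩ := (isCompact_Icc.inter_right (isClosed_le continuous_const
    (by fun_prop : Continuous fun u : ℝ => |u - s|)) : IsCompact (Icc (0 : ℝ) 1 ∩ {u | η ≤ |u - s|})
    ).exists_forall_le' (f := fun u => ‖σ u - σ s‖) (by fun_prop) (a := 0) (by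
      rintro u ⟨h1, h2⟩
      refine norm_pos_iff.2 (sub_ne_zero.2 fun e => ?_)
      rw [hi h1 hs e] at h2
      simp at h2; linarith)
  refine ⟨r, hr, fun u hu h => ?_⟩
  by_contra hc
  exact absurd (H u ⟨hu, (not_le.1 hc).le⟩) (not_le.2 h)

theorem exists_lift {σ : ℝ → ℂ} (hc : Continuous σ) (hi : InjOn σ (Icc 0 1)) (h0 : σ 0 = 0)
    (h1 : σ 1 = 1) (hre : ∀ u ∈ Icc (0 : ℝ) 1, 0 ≤ (σ u).re ∧ (σ u).re ≤ 1)
    (T0 : Tame0 σ) (T1 : Tame1 σ) {ε : ℝ} (hε : 0 < ε) :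
    ∃ r > 0, ∀ δ > 0, ∃ (Λ : Set (ℂ × ℝ)) (c : ℝ), Gen Λ ∧ ∀ p ∈ Λ,
      (∃ q ∈ Kset σ, ‖p.1 - q‖ ≤ δ) ∧ (p.1.re ≤ r → |p.1.im| ≤ r → |p.2| ≤ ε) ∧
        (1 - r ≤ p.1.re → |p.1.im| ≤ r → |p.2 - c| ≤ ε) := by
  obtain ⟨η0, hη0, H0⟩ := T0 (ε / 2) (by linarith)
  obtain ⟨η1, hη1, H1⟩ := T1 (ε / 2) (by linarith)
  obtain ⟨r0, hr0, R0⟩ := inv_cont hc hi (s := 0) ⟨le_rfl, zero_le_one⟩ hη0
  obtain ⟨r1, hr1, R1⟩ := inv_cont hc hi (s := 1) ⟨zero_le_one, le_rfl⟩ hη1
  set r := min (min (r0 / 4) (r1 / 4)) (min (1 / 2) (ε / 2)) with hr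
  have hr' : 0 < r := by positivity
  have g1 : r ≤ r0 / 4 := (min_le_left _ _).trans (min_le_left _ _)
  have g2 : r ≤ r1 / 4 := (min_le_left _ _).trans (min_le_right _ _)
  have g3 : r ≤ 1 / 2 := (min_le_right _ _).trans (min_le_left _ _)
  have g4 : r ≤ ε / 2 := (min_le_right _ _).trans (min_le_right _ _)
  refine ⟨r, hr', fun δ hδ => ?_⟩
  obtain ⟨n, t, hm, t0, t1, hI, hd, hS⟩ := exists_inscribed hc hi (lt_min hδ hr')
  have hSt : Strip (fun i => σ (t i)) (n + 1) 0 1 :=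
    ⟨by simp [t0, h0], by simp [t1, h1], fun i _ => hre _ (hI i)⟩
  refine ⟨_, zs (fun i => σ (t i)) (n + 1), gen_lift n _ hS hSt, ?_⟩
  rintro p (hp | ⟨m, hm', hp⟩ | hp)
  · refine ⟨⟨p.1, Or.inl ⟨hp.1, hp.2.1⟩, by simp [hδ.le]⟩, fun _ _ => by simp [hp.2.2, hε.le],
      fun h _ => ?_⟩
    linarith [hp.2.1]
  · have hseg := edge_seg hp
    have a1 := dist_add_dist_of_mem_segment hseg
    have a2 := hd m
    have a3 : ‖p.1 - σ (t m)‖ ≤ min δ r := by
      rw [← dist_eq_norm, dist_comm]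
      linarith [dist_nonneg (x := p.1) (y := σ (t (m + 1)))]
    have a4 := a3.trans (min_le_right _ _)
    have a5 := hSt.seg (by omega) (by omega) hseg
    obtain ⟨s, -, -, hs⟩ := hp
    have e : p.2 = zs (fun i => σ (t i)) m + trap (σ (t m)) p.1 := by rw [hs]
    have htrap : |p.1.im| ≤ r → |trap (σ (t m)) p.1| ≤ ε / 2 := by
      intro b1
      have b2 := (abs_re_le_norm _).trans a4
      have b3 := (abs_im_le_norm _).trans a4
      rw [sub_re] at b2
      rw [sub_im] at b3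
      have b4 : |(σ (t m)).im + p.1.im| ≤ 3 * r := by
        rw [abs_le] at *; constructor <;> linarith
      unfold trap
      rw [abs_div, abs_mul, abs_two]
      have : |(σ (t m)).im + p.1.im| * |p.1.re - (σ (t m)).re| ≤ 3 * r * r := by gcongr
      nlinarith
    refine ⟨⟨σ (t m), Or.inr (Or.inl ⟨_, hI m, rfl⟩), a3.trans (min_le_left _ _)⟩,
      fun b0 b1 => ?_, fun b0 b1 => ?_⟩
    · have b2 : ‖σ (t m) - σ 0‖ < r0 := by
        rw [h0, sub_zero]
        have := norm_sub_norm_le (σ (t m)) p.1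
        rw [norm_sub_rev] at this
        have := norm_le_abs_re_add_abs_im p.1
        rw [abs_of_nonneg a5.1] at this
        linarith
      have b3 := R0 _ (hI m) b2
      have b4 := H0 m t hm fun i hi => ⟨(hI i).1, (hm hi).trans (by linarith [(abs_le.1 b3).2])⟩
      rw [e]
      refine (abs_add_le _ _).trans ?_
      linarith [htrap b1]
    · have b2 : ‖σ (t m) - σ 1‖ < r1 := by
        rw [h1]
        have := norm_sub_le_norm_sub_add_norm_sub (σ (t m)) p.1 1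
        rw [norm_sub_rev (σ (t m)) p.1] at this
        have := norm_le_abs_re_add_abs_im (p.1 - 1)
        rw [sub_re, sub_im, one_re, one_im, sub_zero, abs_of_nonpos (by linarith [a5.2])] at this
        linarith
      have b3 := R1 _ (hI m) b2
      have b4 := H1 (n + 1 - m) (fun i => t (m + i)) (fun i j hij => hm (by omega))
        fun i _ => ⟨le_trans (by linarith [(abs_le.1 b3).1]) (hm (Nat.le_add_right m i)), (hI _).2⟩
      have b5 : zs (fun i => σ (t i)) (n + 1) = zs (fun i => σ (t i)) m +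
          zs (fun i => σ (t (m + i))) (n + 1 - m) := by
        conv_lhs => rw [show n + 1 = m + (n + 1 - m) by omega]
        exact Finset.sum_range_add _ _ _
      rw [e, b5, add_sub_add_left_eq_sub]
      refine (abs_sub _ _).trans ?_
      linarith [htrap b1]
  · refine ⟨⟨p.1, Or.inr (Or.inr ⟨hp.1, hp.2.1⟩), by simp [hδ.le]⟩, fun h _ => ?_,
      fun _ _ => by simp [hp.2.2, hε.le]⟩
    linarith [hp.2.1]

end Pool.Agent.Lib.MP_5a3ebe_gt.H46
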