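import Pool.Agent.Lib.MP_5a3ebe_gt.H46Per

/-! The area inequality for four periodic polygons. -/

namespace Pool.Agent.Lib.MP_5a3ebe_gt.H46

open Set Filter Topology Complex

variable {L : ℝ} {n : ℕ} {v : ℤ → ℂ}

lemma per_shift (h : PeriodicPolygon L n v) (j : ℤ) {p : ℂ} (hp : p ∈ polygonTrace v) :
    p + (j * L : ℝ) ∈ polygonTrace v := by
  have key : ∀ j i : ℤ, v (i + j * n) = v i + (j * L : ℝ) := by
    intro j
    induction j using Int.induction_on with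
    | zero => simp
    | succ j ih =>
      intro i
      rw [show i + (j + 1) * n = i + j * n + n by ring, h.2.1, ih]; push_cast; ring
    | pred j ih =>
      intro i
      have := h.2.1 (i + (-j - 1) * n)
      rw [show i + (-j - 1) * n + n = i + -j * n by ring, ih] at this
      rw [← sub_eq_iff_eq_add.2 this]; push_cast; ring
  obtain ⟨i, hi⟩ := mem_iUnion.1 hp
  obtain ⟨μ, h0, h1, rfl⟩ := mem_seg.1 hi
  refine mem_iUnion.2 ⟨i + j * n, mem_seg.2 ⟨μ, h0, h1, ?_⟩⟩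
  rw [show i + j * n + 1 = i + 1 + j * n by ring, key, key]; ring

lemma per_compact (hL : 0 < L) (h : PeriodicPolygon L n v) : ∃ B : ℝ,
    (∀ p ∈ polygonTrace v, |p.im| ≤ B) ∧ ∀ R : ℝ, ∃ K, IsCompact K ∧ K ⊆ polygonTrace v ∧
      ∀ p ∈ polygonTrace v, |p.re| ≤ R → p ∈ K := by
  obtain ⟨B, hB⟩ := per_vertex h
  have hn : (0 : ℝ) < n := by exact_mod_cast h.1
  have hLn : 0 < L / n := by positivity
  refine ⟨B, fun p hp => ?_, fun R => ?_⟩
  · obtain ⟨i, hi⟩ := mem_iUnion.1 hp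
    exact seg_im hi (hB _).1 (hB _).1
  · obtain ⟨I, hI⟩ := exists_nat_ge ((R + B) / (L / n) + 1)
    refine ⟨⋃ i ∈ Icc (-I : ℤ) I, segment ℝ (v i) (v (i + 1)),
      (finite_Icc _ _).isCompact_biUnion fun i _ => ?_, iUnion₂_subset fun i _ => subset_iUnion
        (fun i => segment ℝ (v i) (v (i + 1))) i, fun p hp hR => ?_⟩
    · rw [segment_eq_image']; exact isCompact_Icc.image (by fun_prop)
    · obtain ⟨i, hi⟩ := mem_iUnion.1 hp
      have a1 := abs_le.1 (hB i).2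
      have a2 := abs_le.1 (hB (i + 1)).2
      push_cast at a2
      have a3 := seg_re (s := L / n * i - B) (t := L / n * (i + 1) + B) hi
        ⟨by linarith, by linarith⟩ ⟨by linarith, by linarith⟩
      have a4 := abs_le.1 hR
      have a5 : R + B ≤ (I - 1) * (L / n) := (div_le_iff₀ hLn).1 (by linarith)
      refine mem_biUnion (x := i) ⟨?_, ?_⟩ hi
      · have : (-I : ℝ) ≤ i := by nlinarith
        exact_mod_cast this
      · have : (i : ℝ) ≤ I := by nlinarith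
        exact_mod_cast this

lemma no_approx {n1 n2 n3 n4 : ℕ} {v1 v2 v3 v4 : ℤ → ℂ} (hL : 0 < L)
    (h1 : PeriodicPolygon L n1 v1) (h2 : PeriodicPolygon L n2 v2) (h3 : PeriodicPolygon L n3 v3)
    (h4 : PeriodicPolygon L n4 v4)
    (hno : ∀ z w : ℂ, z ∈ polygonTrace v1 → z + w ∈ polygonTrace v2 →
      z + w + I * w ∈ polygonTrace v3 → z + I * w ∉ polygonTrace v4) :
    ∃ κ > 0, ∀ q1 ∈ polygonTrace v1, ∀ q2 ∈ polygonTrace v2, ∀ q3 ∈ polygonTrace v3,
      ∀ q4 ∈ polygonTrace v4, ∀ d x a b : ℝ, |d| ≤ κ → ¬ ASq κ d x a b q1 q2 q3 q4 := by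
  obtain ⟨B1, b1, c1⟩ := per_compact hL h1
  obtain ⟨B2, b2, c2⟩ := per_compact hL h2
  obtain ⟨B3, b3, c3⟩ := per_compact hL h3
  obtain ⟨B4, b4, c4⟩ := per_compact hL h4
  set R := L + 2 * (|B2| + |B3| + |B4|) + 4 with hR
  obtain ⟨K1, k1, s1, t1⟩ := c1 R
  obtain ⟨K2, k2, s2, t2⟩ := c2 R
  obtain ⟨K3, k3, s3, t3⟩ := c3 R
  obtain ⟨K4, k4, s4, t4⟩ := c4 R
  obtain ⟨κ0, hκ0, H⟩ := ((k1.prod k2).prod (k3.prod k4)).exists_forall_le'
    (f := fun q => ‖q.2.1 - q.1.2 - I * (q.1.2 - q.1.1)‖ + ‖q.2.2 - q.1.1 - I * (q.1.2 - q.1.1)‖)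
    (by fun_prop) (a := 0) (by
      rintro ⟨⟨q1, q2⟩, q3, q4⟩ ⟨⟨a1, a2⟩, a3, a4⟩
      by_contra hc
      simp only [not_lt] at hc
      have e1 : q3 - q2 - I * (q2 - q1) = 0 :=
        norm_eq_zero.1 (le_antisymm (le_trans (by simp) hc) (norm_nonneg _))
      have e2 : q4 - q1 - I * (q2 - q1) = 0 :=
        norm_eq_zero.1 (le_antisymm (le_trans (by simp) hc) (norm_nonneg _))
      exact hno q1 (q2 - q1) (s1 a1) (by simpa using s2 a2)
        (by convert s3 a3 using 1; linear_combination -e1)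
        (by convert s4 a4 using 1; linear_combination -e2))
  refine ⟨min 1 (κ0 / 30), by positivity, ?_⟩
  intro q1 a1 q2 a2 q3 a3 q4 a4 d x a b hd ⟨e1, e2, e3, e4, e5, e6, e7⟩
  set κ := min 1 (κ0 / 30)
  have g1 : κ ≤ 1 := min_le_left _ _
  have g2 : κ ≤ κ0 / 30 := min_le_right _ _
  set j : ℤ := -⌊x / L⌋ with hj
  have j1 : 0 ≤ x + j * L := by
    have := Int.floor_le (x / L)
    rw [le_div_iff₀ hL] at this
    rw [hj]; push_cast; linarith
  have j2 : x + j * L ≤ L := by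
    have := Int.lt_floor_add_one (x / L)
    rw [div_lt_iff₀ hL] at this
    rw [hj]; push_cast; linarith
  have i2 := abs_le.1 ((b2 _ a2).trans (le_abs_self _))
  have i3 := abs_le.1 ((b3 _ a3).trans (le_abs_self _))
  have i4 := abs_le.1 ((b4 _ a4).trans (le_abs_self _))
  have := abs_nonneg B2
  have := abs_nonneg B3
  have := abs_nonneg B4
  rw [abs_le] at e1 e2 e3 e4 e5 e6 e7 hd
  have hn : ∀ z : ℂ, |z.re| ≤ 5 * κ → |z.im| ≤ 5 * κ → ‖z‖ ≤ 10 * κ := fun z a1 a2 => by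
    linarith [norm_le_abs_re_add_abs_im z]
  have := H ((q1 + (j * L : ℝ), q2 + (j * L : ℝ)), (q3 + (j * L : ℝ), q4 + (j * L : ℝ)))
    ⟨⟨t1 _ (per_shift h1 j a1) (by rw [add_re, ofReal_re, abs_le]; constructor <;> linarith),
      t2 _ (per_shift h2 j a2) (by rw [add_re, ofReal_re, abs_le]; constructor <;> linarith)⟩,
      t3 _ (per_shift h3 j a3) (by rw [add_re, ofReal_re, abs_le]; constructor <;> linarith),
      t4 _ (per_shift h4 j a4) (by rw [add_re, ofReal_re, abs_le]; constructor <;> linarith)⟩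
  simp only [add_sub_add_right_eq_sub] at this
  have n1 := hn (q3 - q2 - I * (q2 - q1))
    (by simp only [sub_re, mul_re, I_re, I_im, sub_im]; rw [abs_le]; constructor <;> linarith)
    (by simp only [sub_re, mul_im, I_re, I_im, sub_im]; rw [abs_le]; constructor <;> linarith)
  have n2 := hn (q4 - q1 - I * (q2 - q1))
    (by simp only [sub_re, mul_re, I_re, I_im, sub_im]; rw [abs_le]; constructor <;> linarith)
    (by simp only [sub_re, mul_im, I_re, I_im, sub_im]; rw [abs_le]; constructor <;> linarith)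
  linarith

theorem area_ineq {n1 n2 n3 n4 : ℕ} {v1 v2 v3 v4 : ℤ → ℂ} (hL : 0 < L)
    (h1 : PeriodicPolygon L n1 v1) (h2 : PeriodicPolygon L n2 v2) (h3 : PeriodicPolygon L n3 v3)
    (h4 : PeriodicPolygon L n4 v4)
    (ha : polygonArea n1 v1 - polygonArea n2 v2 + polygonArea n3 v3 - polygonArea n4 v4 = 0) :
    ∃ z w : ℂ, z ∈ polygonTrace v1 ∧ z + w ∈ polygonTrace v2 ∧ z + w + I * w ∈ polygonTrace v3 ∧
      z + I * w ∈ polygonTrace v4 := by
  by_contra hno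
  push Not at hno
  obtain ⟨κ, hκ, Hκ⟩ := no_approx hL h1 h2 h3 h4 hno
  obtain ⟨C1, P1⟩ := per_lift hL h1
  obtain ⟨C2, P2⟩ := per_lift hL h2
  obtain ⟨C3, P3⟩ := per_lift hL h3
  obtain ⟨C4, P4⟩ := per_lift hL h4
  set C := |C1| + |C2| + |C3| + |C4| with hC
  have := abs_nonneg C1
  have := abs_nonneg C2
  have := abs_nonneg C3
  have := abs_nonneg C4
  have := le_abs_self C1
  have := le_abs_self C2
  have := le_abs_self C3
  have := le_abs_self C4
  set c1 := polygonArea n1 v1 / L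
  set c2 := polygonArea n2 v2 / L
  set c3 := polygonArea n3 v3 / L
  set c4 := polygonArea n4 v4 / L
  have hc : c1 - c2 + c3 - c4 = 0 := by
    simp only [c1, c2, c3, c4]
    rw [← sub_div, ← add_div, ← sub_div, ha, zero_div]
  set D := 2 * C + 3 with hD
  set V := C + (|c1| + |c2| + |c3| + |c4|) * D + D * D with hV
  have hV0 : 0 ≤ V := by positivity
  let φ : ContDiffBump (0 : ℝ) := ⟨1 / 2, 1, by norm_num, by norm_num⟩
  obtain ⟨hφ, Cφ, hCφ⟩ := UC1.of_compact (φ.contDiff (n := 1)) (φ.hasCompactSupport.fderiv ℝ)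
  have hC0 : 0 ≤ Cφ := (norm_nonneg _).trans (hCφ 0)
  set R := (2 * V + 1) * (Cφ + 1) / κ with hR
  have hR0 : 0 < R := by positivity
  obtain ⟨N, hN⟩ := exists_nat_ge (2 * (R + C + D) / L)
  rw [div_le_iff₀ hL] at hN
  obtain ⟨Λ1, G1, Q1⟩ := P1 N
  obtain ⟨Λ2, G2, Q2⟩ := P2 N
  obtain ⟨Λ3, G3, Q3⟩ := P3 N
  obtain ⟨Λ4, G4, Q4⟩ := P4 N
  let h : ℝ → ℝ := fun x => (2 * V + 1) * φ ((x - N * L / 2) / R)
  have hz : ∀ x, R ≤ |x - N * L / 2| → h x = 0 := by
    intro x hx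
    simp only [h]
    rw [φ.zero_of_le_dist, mul_zero]
    rw [Real.dist_eq, sub_zero, abs_div, abs_of_pos hR0, le_div_iff₀ hR0]
    simpa [φ] using hx
  have hh : UC1 h := by
    refine (UC1.of_compact (contDiff_const.mul ((φ.contDiff (n := 1)).comp (by fun_prop)))
      (HasCompactSupport.fderiv ℝ (HasCompactSupport.intro
        (isCompact_closedBall (N * L / 2 : ℝ) R) fun x hx => hz x ?_))).1
    rw [Metric.mem_closedBall, Real.dist_eq, not_le] at hx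
    exact hx.le
  have hd : ∀ x, |deriv h x| ≤ κ := by
    intro x
    have a1 : HasDerivAt (fun x : ℝ => (x - N * L / 2) / R) (1 / R) x :=
      ((hasDerivAt_id x).sub_const _).div_const _
    have a2 := (((hφ.1 _).hasDerivAt.comp x a1).const_mul (2 * V + 1)).deriv
    change deriv h x = _ at a2
    have a3 := hCφ ((x - N * L / 2) / R)
    rw [← norm_deriv_eq_norm_fderiv, Real.norm_eq_abs] at a3
    rw [a2, abs_mul, abs_mul, abs_of_pos (by positivity : 0 < 2 * V + 1),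
      abs_of_pos (by positivity : 0 < 1 / R)]
    have e : (2 * V + 1) * ((Cφ + 1) * (1 / R)) = κ := by rw [hR]; field_simp
    rw [← e]
    gcongr
    linarith
  have hη : 0 < min 1 κ := lt_min one_pos hκ
  have hη1 := min_le_left 1 κ
  have hη2 := min_le_right 1 κ
  have pos : ∀ p1 ∈ Λ1, ∀ p2 ∈ Λ2, ∀ p3 ∈ Λ3, ∀ p4 ∈ Λ4, ∀ d x a b : ℝ,
      ASq (min 1 κ) d x a b p1.1 p2.1 p3.1 p4.1 → |a| ≤ D ∧ |b| ≤ D ∧ |p1.1.re - x| ≤ D ∧
        |p2.1.re - x| ≤ D ∧ |p3.1.re - x| ≤ D ∧ |p4.1.re - x| ≤ D := by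
    intro p1 a1 p2 a2 p3 a3 p4 a4 d x a b ⟨e1, e2, e3, e4, e5, e6, e7⟩
    have i2 := abs_le.1 (Q2 p2 a2).1
    have i3 := abs_le.1 (Q3 p3 a3).1
    have i4 := abs_le.1 (Q4 p4 a4).1
    rw [abs_le] at e1 e2 e3 e4 e5 e6
    refine ⟨abs_le.2 ⟨?_, ?_⟩, abs_le.2 ⟨?_, ?_⟩, abs_le.2 ⟨?_, ?_⟩, abs_le.2 ⟨?_, ?_⟩,
      abs_le.2 ⟨?_, ?_⟩, abs_le.2 ⟨?_, ?_⟩⟩ <;> linarith
  have val : ∀ p1 ∈ Λ1, ∀ p2 ∈ Λ2, ∀ p3 ∈ Λ3, ∀ p4 ∈ Λ4, ∀ d x a b : ℝ,
      ASq (min 1 κ) d x a b p1.1 p2.1 p3.1 p4.1 →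
        |p1.2 - p2.2 + p3.2 - p4.2 + (b * b - a * a) / 2| ≤ V := by
    intro p1 a1 p2 a2 p3 a3 p4 a4 d x a b hs
    obtain ⟨f1, f2, f3, f4, f5, f6⟩ := pos p1 a1 p2 a2 p3 a3 p4 a4 d x a b hs
    have key : ∀ c y : ℝ, |y - x| ≤ D →
        |c * max 0 (min y (N * L)) - c * max 0 (min x (N * L))| ≤ |c| * D := by
      intro c y hy
      rw [← mul_sub, abs_mul]
      gcongr
      refine (abs_max_sub_max_le_max _ _ _ _).trans (max_le (by simp; linarith) ?_)
      exact (abs_min_sub_min_le_max _ _ _ _).trans (max_le hy (by simp; linarith))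
    have k1 := abs_le.1 (key c1 _ f3)
    have k2 := abs_le.1 (key c2 _ f4)
    have k3 := abs_le.1 (key c3 _ f5)
    have k4 := abs_le.1 (key c4 _ f6)
    have z1 := abs_le.1 (Q1 p1 a1).2.2
    have z2 := abs_le.1 (Q2 p2 a2).2.2
    have z3 := abs_le.1 (Q3 p3 a3).2.2
    have z4 := abs_le.1 (Q4 p4 a4).2.2
    have f7 : a * a ≤ D * D := by rw [← abs_mul_abs_self a]; gcongr
    have f8 : b * b ≤ D * D := by rw [← abs_mul_abs_self b]; gcongr
    have f10 := mul_self_nonneg a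
    have f11 := mul_self_nonneg b
    have e : c1 * max 0 (min x (N * L)) - c2 * max 0 (min x (N * L)) + c3 * max 0 (min x (N * L))
      - c4 * max 0 (min x (N * L)) = 0 := by linear_combination max 0 (min x (N * L)) * hc
    exact abs_le.2 ⟨by linarith, by linarith⟩
  have := link4 G1 G2 G3 G4 hh (B := 2 * V + 1)
    (fun x => by simp only [h]; nlinarith [φ.le_one (x := (x - N * L / 2) / R)]) (ε := V) hη ?_
    (fun p1 a1 p2 a2 p3 a3 p4 a4 x a b hs => (abs_le.1 (val p1 a1 p2 a2 p3 a3 p4 a4 _ x a b hs)).1)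
    (N * L / 2)
  · simp only [h, sub_self, zero_div] at this
    rw [φ.one_of_mem_closedBall (Metric.mem_closedBall_self (by norm_num [φ]))] at this
    linarith
  · intro p1 a1 p2 a2 p3 a3 p4 a4 x a b hs
    by_cases hx : R ≤ |x - N * L / 2|
    · rw [hz x hx, add_zero]
      exact (abs_le.1 (val p1 a1 p2 a2 p3 a3 p4 a4 _ x a b hs)).2
    · exfalso
      obtain ⟨-, -, f3, f4, f5, f6⟩ := pos p1 a1 p2 a2 p3 a3 p4 a4 _ x a b hs
      rw [not_le, abs_lt] at hx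
      rw [abs_le] at f3 f4 f5 f6
      obtain ⟨e1, e2, e3, e4, e5, e6, e7⟩ := hs
      exact Hκ _ ((Q1 p1 a1).2.1 (by linarith) (by linarith)) _
        ((Q2 p2 a2).2.1 (by linarith) (by linarith)) _ ((Q3 p3 a3).2.1 (by linarith) (by linarith))
        _ ((Q4 p4 a4).2.1 (by linarith) (by linarith)) _ x a b (hd x)
        ⟨e1.trans hη2, e2.trans hη2, e3.trans hη2, e4.trans hη2, e5.trans hη2, e6.trans hη2,
          e7.trans hη2⟩

end Pool.Agent.Lib.MP_5a3ebe_gt.H46
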