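import Pool.Agent.Shared.Kuhn.Sperner

/-! Descent deformations and a linking inequality for functions that are quadratic at infinity. -/

namespace Pool.Agent.Lib.MP_5a3ebe_gt.H46

open Set Filter Topology

section UC
variable {E E' : Type} [NormedAddCommGroup E] [NormedSpace ℝ E]
  [NormedAddCommGroup E'] [NormedSpace ℝ E']

/-- differentiable with uniformly continuous derivative -/
def UC1 (S : E → ℝ) : Prop := Differentiable ℝ S ∧ UniformContinuous (fderiv ℝ S)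

lemma UC1.add {S T : E → ℝ} (hS : UC1 S) (hT : UC1 T) : UC1 (fun m => S m + T m) := by
  refine ⟨hS.1.add hT.1, ?_⟩
  have : fderiv ℝ (fun m => S m + T m) = fun m => fderiv ℝ S m + fderiv ℝ T m :=
    funext fun m => ((hS.1 m).hasFDerivAt.add (hT.1 m).hasFDerivAt).fderiv
  rw [this]
  exact hS.2.add hT.2

lemma UC1.neg {S : E → ℝ} (hS : UC1 S) : UC1 (fun m => - S m) := by
  refine ⟨hS.1.neg, ?_⟩
  have : fderiv ℝ (fun m => - S m) = fun m => - fderiv ℝ S m :=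
    funext fun m => ((hS.1 m).hasFDerivAt.neg).fderiv
  rw [this]
  exact hS.2.neg

lemma UC1.sub {S T : E → ℝ} (hS : UC1 S) (hT : UC1 T) : UC1 (fun m => S m - T m) := by
  simpa [sub_eq_add_neg] using hS.add hT.neg

lemma UC1.comp {S : E → ℝ} (hS : UC1 S) (L : E' →L[ℝ] E) : UC1 (fun m => S (L m)) := by
  refine ⟨hS.1.comp L.differentiable, ?_⟩
  have : fderiv ℝ (fun m => S (L m)) =
      fun m => ((ContinuousLinearMap.compL ℝ E' E ℝ).flip L) (fderiv ℝ S (L m)) :=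
    funext fun m => ((hS.1 (L m)).hasFDerivAt.comp m L.hasFDerivAt).fderiv
  rw [this]
  exact (ContinuousLinearMap.uniformContinuous _).comp (hS.2.comp L.uniformContinuous)

lemma UC1.mul_clm (a b : E →L[ℝ] ℝ) : UC1 (fun m => a m * b m) := by
  refine ⟨a.differentiable.mul b.differentiable, ?_⟩
  have : fderiv ℝ (fun m => a m * b m) = fun m => a.smulRight b m + b.smulRight a m :=
    funext fun m => (a.hasFDerivAt.mul b.hasFDerivAt).fderiv
  rw [this]
  exact (a.smulRight b).uniformContinuous.add (b.smulRight a).uniformContinuous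

lemma UC1.const_mul {S : E → ℝ} (hS : UC1 S) (c : ℝ) : UC1 (fun m => c * S m) := by
  refine ⟨hS.1.const_mul c, ?_⟩
  have : fderiv ℝ (fun m => c * S m) = fun m => c • fderiv ℝ S m :=
    funext fun m => ((hS.1 m).hasFDerivAt.const_mul c).fderiv
  rw [this]
  exact hS.2.const_smul c

lemma UC1.zero : UC1 (fun _ : E => (0 : ℝ)) := by
  refine ⟨differentiable_const _, ?_⟩
  have : fderiv ℝ (fun _ : E => (0 : ℝ)) = fun _ => 0 := by
    funext m; simp
  rw [this]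
  exact uniformContinuous_const

/-- a `C¹` function whose derivative has compact support -/
lemma UC1.of_compact {S : E → ℝ} (hS : ContDiff ℝ 1 S) (hc : HasCompactSupport (fderiv ℝ S)) :
    UC1 S ∧ ∃ C, ∀ m, ‖fderiv ℝ S m‖ ≤ C := by
  have hcont : Continuous (fderiv ℝ S) := hS.continuous_fderiv (by norm_num)
  exact ⟨⟨hS.differentiable (by norm_num), hc.uniformContinuous_of_continuous hcont⟩,
    hc.exists_bound_of_continuous hcont⟩

lemma descent {S : E → ℝ} (hS : UC1 S) {δ η : ℝ} (hδ : 0 < δ) (hη : 0 < η) :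
    ∃ (r : ℝ) (Φ : E → E), 0 < r ∧ r ≤ η ∧ Continuous Φ ∧ (∀ m, ‖Φ m - m‖ ≤ 1) ∧
      (∀ m, S (Φ m) ≤ S m + r) ∧ (∀ m, δ < ‖fderiv ℝ S m‖ → S (Φ m) ≤ S m - r) := by
  have hcont : Continuous (fderiv ℝ S) := hS.2.continuous
  obtain ⟨X, hX⟩ : ∃ X : C(E, E), ∀ m,
      X m ∈ {v : E | ‖v‖ ≤ 1 ∧ ‖fderiv ℝ S m‖ - δ / 4 < fderiv ℝ S m v} := by
    refine exists_continuous_forall_mem_convex_of_local_const (fun m => ?_) (fun m => ?_)
    · have h1 : Convex ℝ {v : E | ‖v‖ ≤ 1} := by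
        have : {v : E | ‖v‖ ≤ 1} = Metric.closedBall 0 1 := by ext; simp
        rw [this]; exact convex_closedBall _ _
      exact h1.inter (convex_halfSpace_gt (fderiv ℝ S m).toLinearMap.isLinear _)
    · obtain ⟨v, hv1, hv2⟩ : ∃ v : E, ‖v‖ ≤ 1 ∧ ‖fderiv ℝ S m‖ - δ / 4 < fderiv ℝ S m v := by
        obtain ⟨x, hx1, hx2⟩ := (fderiv ℝ S m).exists_lt_apply_of_lt_opNorm
          (r := ‖fderiv ℝ S m‖ - δ / 4) (by linarith)
        rcases le_total 0 (fderiv ℝ S m x) with h | h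
        · exact ⟨x, hx1.le, by rwa [Real.norm_eq_abs, abs_of_nonneg h] at hx2⟩
        · refine ⟨-x, by simpa using hx1.le, ?_⟩
          rw [Real.norm_eq_abs, abs_of_nonpos h] at hx2
          simpa using hx2
      refine ⟨v, ?_⟩
      have h1 : Continuous fun y => ‖fderiv ℝ S y‖ - δ / 4 := by fun_prop
      have h2 : Continuous fun y => fderiv ℝ S y v := hcont.clm_apply continuous_const
      filter_upwards [(isOpen_lt h1 h2).mem_nhds hv2] with y hy
      exact ⟨hv1, hy⟩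
  obtain ⟨ρ0, hρ0, hρ⟩ := Metric.uniformContinuous_iff.1 hS.2 (δ / 4) (by linarith)
  set ρ := min (ρ0 / 2) (min 1 (η / δ)) with hρdef
  have hρpos : 0 < ρ := lt_min (by linarith) (lt_min one_pos (by positivity))
  have hρ1 : ρ ≤ 1 := (min_le_right _ _).trans (min_le_left _ _)
  have hρ2 : ρ ≤ η / δ := (min_le_right _ _).trans (min_le_right _ _)
  have hρ3 : ρ < ρ0 := (min_le_left _ _).trans_lt (by linarith)
  have key : ∀ m, S (m - ρ • X m) ≤ S m - ρ * (‖fderiv ℝ S m‖ - δ / 2) := by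
    intro m
    have hn : ‖ρ • X m‖ ≤ ρ := by
      rw [norm_smul, Real.norm_eq_abs, abs_of_pos hρpos]
      nlinarith [(hX m).1]
    have := Convex.norm_image_sub_le_of_norm_hasFDerivWithin_le' (f := S) (f' := fderiv ℝ S)
      (s := Metric.closedBall m ρ) (C := δ / 4) (φ := fderiv ℝ S m) (x := m) (y := m - ρ • X m)
      (fun x _ => (hS.1 x).hasFDerivAt.hasFDerivWithinAt)
      (fun x hx => by
        rw [← dist_eq_norm]
        exact (hρ ((Metric.mem_closedBall.1 hx).trans_lt hρ3)).le)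
      (convex_closedBall _ _) (Metric.mem_closedBall_self hρpos.le)
      (by rw [Metric.mem_closedBall, dist_eq_norm]; simpa using hn)
    have e : m - ρ • X m - m = -(ρ • X m) := by abel
    rw [e, map_neg, map_smul, norm_neg, Real.norm_eq_abs, smul_eq_mul] at this
    have h3 := (abs_le.1 this).2
    have h4 := (hX m).2
    nlinarith
  refine ⟨ρ * δ / 2, fun m => m - ρ • X m, by positivity, ?_, by fun_prop, fun m => ?_,
    fun m => ?_, fun m hm => ?_⟩
  · rw [le_div_iff₀ hδ] at hρ2; linarith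
  · have e : m - ρ • X m - m = -(ρ • X m) := by abel
    rw [e, norm_neg, norm_smul, Real.norm_eq_abs, abs_of_pos hρpos]
    nlinarith [(hX m).1, norm_nonneg (X m)]
  · have := key m
    nlinarith [norm_nonneg (fderiv ℝ S m)]
  · have := key m
    nlinarith

omit [NormedSpace ℝ E] in
lemma iter_disp {Φ : E → E} (h : ∀ m, ‖Φ m - m‖ ≤ 1) (k : ℕ) (m : E) : ‖Φ^[k] m - m‖ ≤ k := by
  induction k with
  | zero => simp
  | succ k ih =>
    rw [Function.iterate_succ_apply']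
    have := norm_sub_le_norm_sub_add_norm_sub (Φ (Φ^[k] m)) (Φ^[k] m) m
    have := h (Φ^[k] m)
    push_cast; linarith

lemma push_down {S : E → ℝ} (hS : UC1 S) {δ η ε : ℝ} (hδ : 0 < δ) (hη : 0 < η)
    (hc : ∀ m, ‖fderiv ℝ S m‖ ≤ δ → S m ≤ ε) (c : ℝ) :
    ∃ (Ψ : E → E) (D : ℝ), Continuous Ψ ∧ (∀ m, ‖Ψ m - m‖ ≤ D) ∧
      ∀ m, S m ≤ c → S (Ψ m) ≤ ε + η := by
  obtain ⟨r, Φ, hr, hrη, hΦ, hd, h1, h2⟩ := descent hS hδ hη
  have key : ∀ (k : ℕ) m, S (Φ^[k] m) ≤ max (ε + η) (S m - k * r) := by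
    intro k m
    induction k with
    | zero => simp
    | succ k ih =>
      rw [Function.iterate_succ_apply']
      by_cases h : δ < ‖fderiv ℝ S (Φ^[k] m)‖
      · have := h2 _ h
        rcases le_max_iff.1 ih with h3 | h3
        · exact le_max_of_le_left (by linarith)
        · exact le_max_of_le_right (by push_cast; linarith)
      · have := hc _ (not_lt.1 h)
        have := h1 (Φ^[k] m)
        exact le_max_of_le_left (by linarith)
  obtain ⟨k, hk⟩ := exists_nat_ge ((c - ε) / r)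
  rw [div_le_iff₀ hr] at hk
  refine ⟨Φ^[k], k, hΦ.iterate k, iter_disp hd k, fun m hm => (key k m).trans ?_⟩
  exact max_le le_rfl (by linarith)

lemma push_down' {S : E → ℝ} (hS : UC1 S) {δ ε : ℝ} (hδ : 0 < δ)
    (hc : ∀ m, ‖fderiv ℝ S m‖ ≤ δ → -ε ≤ S m) (c : ℝ) :
    ∃ (Ψ : E → E) (D : ℝ), Continuous Ψ ∧ (∀ m, ‖Ψ m - m‖ ≤ D) ∧
      ∀ m, S m < -ε → S (Ψ m) < c := by
  obtain ⟨r, Φ, hr, -, hΦ, hd, -, h2⟩ := descent hS hδ one_pos
  have key : ∀ (k : ℕ) m, S m < -ε → S (Φ^[k] m) ≤ S m - k * r := by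
    intro k m hm
    induction k with
    | zero => simp
    | succ k ih =>
      rw [Function.iterate_succ_apply']
      have h0 : 0 ≤ (k : ℝ) * r := by positivity
      have h : δ < ‖fderiv ℝ S (Φ^[k] m)‖ := by
        by_contra h
        have := hc _ (not_lt.1 h)
        linarith
      have := h2 _ h
      push_cast; linarith
  obtain ⟨k, hk⟩ := exists_nat_ge ((-ε - c) / r)
  rw [div_le_iff₀ hr] at hk
  refine ⟨Φ^[k], k, hΦ.iterate k, iter_disp hd k, fun m hm => (key k m hm).trans_lt ?_⟩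
  linarith

end UC

section LS
variable {F : Type} [NormedAddCommGroup F] [NormedSpace ℝ F]

/-- a nondegenerate quadratic form, diagonal in suitable linear coordinates -/
def Diag (Q : F → ℝ) : Prop :=
  ∃ (ι : Type) (_ : Fintype ι) (e : F ≃L[ℝ] (ι → ℝ)) (c : ι → ℝ),
    (∀ i, c i ≠ 0) ∧ ∀ ξ, Q ξ = ∑ i, c i * (e ξ i) ^ 2

/-- quadratic at infinity in the fibre variables -/
def QInf (S : ℝ × F → ℝ) : Prop :=
  ∃ Q : F → ℝ, Diag Q ∧ ∃ C : ℝ, ∀ m, |S m - Q m.2| ≤ C * (1 + ‖m.2‖)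

lemma lower_bound {ι : Type} [Fintype ι] (e : F ≃L[ℝ] (ι → ℝ)) (c : ι → ℝ) (hc : ∀ i, c i ≠ 0)
    (C : ℝ) : ∃ B : ℝ, ∀ ξ, (∀ i, c i < 0 → e ξ i = 0) →
      -B ≤ ∑ i, c i * (e ξ i) ^ 2 - C * (1 + ‖ξ‖) := by
  obtain ⟨c0, hc0, hc1⟩ : ∃ c0 > 0, ∀ i, c0 ≤ |c i| := by
    have : ∀ᶠ x in 𝓝[>] (0 : ℝ), ∀ i, x ≤ |c i| :=
      eventually_all.2 fun i => mem_nhdsWithin_of_mem_nhds (Iic_mem_nhds (abs_pos.2 (hc i)))
    obtain ⟨x, hx1, hx2⟩ := (this.and self_mem_nhdsWithin).exists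
    exact ⟨x, hx2, hx1⟩
  set K := ‖(e.symm : (ι → ℝ) →L[ℝ] F)‖
  refine ⟨|C| + (|C| * K) ^ 2 / (4 * c0), fun ξ hξ => ?_⟩
  set Q := ∑ i, c i * (e ξ i) ^ 2 with hQ
  have hterm : ∀ i, c0 * (e ξ i) ^ 2 ≤ c i * (e ξ i) ^ 2 := by
    intro i
    rcases lt_or_gt_of_ne (hc i) with h | h
    · simp [hξ i h]
    · have := hc1 i
      rw [abs_of_pos h] at this
      exact mul_le_mul_of_nonneg_right this (sq_nonneg _)
  have hnn : ∀ i, 0 ≤ c i * (e ξ i) ^ 2 := fun i => le_trans (by positivity) (hterm i)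
  have h1 : c0 * ‖e ξ‖ ^ 2 ≤ Q := by
    have hQ0 : 0 ≤ Q := Finset.sum_nonneg fun i _ => hnn i
    have : ‖e ξ‖ ≤ √(Q / c0) := by
      refine (pi_norm_le_iff_of_nonneg (Real.sqrt_nonneg _)).2 fun i => ?_
      refine Real.abs_le_sqrt ?_
      rw [le_div_iff₀ hc0]
      have := Finset.single_le_sum (f := fun i => c i * (e ξ i) ^ 2) (fun i _ => hnn i)
        (Finset.mem_univ i)
      have := hterm i
      linarith
    have h2 : ‖e ξ‖ ^ 2 ≤ Q / c0 := by
      calc ‖e ξ‖ ^ 2 ≤ √(Q / c0) ^ 2 := by gcongr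
        _ = Q / c0 := Real.sq_sqrt (by positivity)
    rw [le_div_iff₀ hc0] at h2
    linarith
  have h2 : ‖ξ‖ ≤ K * ‖e ξ‖ := by
    have := (e.symm : (ι → ℝ) →L[ℝ] F).le_opNorm (e ξ)
    simpa using this
  have h3 : C * (1 + ‖ξ‖) ≤ |C| + |C| * K * ‖e ξ‖ := by
    have := le_abs_self C
    have := abs_nonneg C
    have := norm_nonneg ξ
    nlinarith
  have h4 : |C| * K * ‖e ξ‖ ≤ c0 * ‖e ξ‖ ^ 2 + (|C| * K) ^ 2 / (4 * c0) := by
    have : 0 ≤ (2 * c0 * ‖e ξ‖ - |C| * K) ^ 2 / (4 * c0) := by positivity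
    have e1 : (2 * c0 * ‖e ξ‖ - |C| * K) ^ 2 / (4 * c0) =
      c0 * ‖e ξ‖ ^ 2 + (|C| * K) ^ 2 / (4 * c0) - |C| * K * ‖e ξ‖ := by field_simp; ring
    linarith
  linarith

/-- The linking inequality. -/
theorem ls {S : ℝ × F → ℝ} (hS : UC1 S) (hQ : QInf S) {h : ℝ → ℝ} (hh : UC1 h) {B : ℝ}
    (hb : ∀ x, h x ≤ B) {δ ε : ℝ} (hδ : 0 < δ)
    (h1 : ∀ m, ‖fderiv ℝ (fun m : ℝ × F => S m + h m.1) m‖ ≤ δ → S m + h m.1 ≤ ε)
    (h2 : ∀ m, ‖fderiv ℝ S m‖ ≤ δ → -ε ≤ S m) (x0 : ℝ) : h x0 ≤ 2 * ε := by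
  classical
  by_contra hlt
  push Not at hlt
  obtain ⟨Q, ⟨ι, _, e, c, hc, hQe⟩, C, hC⟩ := hQ
  obtain ⟨B1, hB1⟩ := lower_bound e c hc C
  obtain ⟨B2, hB2⟩ := lower_bound e (fun i => - c i) (fun i => neg_ne_zero.2 (hc i)) C
  have hSh : UC1 (fun m : ℝ × F => S m + h m.1) :=
    hS.add (hh.comp (ContinuousLinearMap.fst ℝ ℝ F))
  obtain ⟨Ψ, D1, hΨ, hD1, hΨ'⟩ := push_down hSh hδ (η := (h x0 - 2 * ε) / 2) (by linarith) h1
    (B2 + B)
  obtain ⟨Φ, D2, hΦ, hD2, hΦ'⟩ := push_down' hS hδ h2 (-B1)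
  have hD1' : 0 ≤ D1 := (norm_nonneg _).trans (hD1 0)
  have hD2' : 0 ≤ D2 := (norm_nonneg _).trans (hD2 0)
  set K := ‖(e : F →L[ℝ] (ι → ℝ))‖
  have hK : 0 ≤ K := norm_nonneg _
  set R := D1 + K * (D1 + D2) + 1 with hR
  have hR0 : 0 < R := by positivity
  let m0 : (Option ι → ℝ) → ℝ × F := fun y =>
    (x0 + y none, e.symm fun i => if c i < 0 then y (some i) else 0)
  have hm0 : Continuous m0 := by
    refine Continuous.prodMk (by fun_prop) (e.symm.continuous.comp (continuous_pi fun i => ?_))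
    split_ifs <;> fun_prop
  let G : (Option ι → ℝ) → Option ι → ℝ := fun y j =>
    j.elim ((Ψ (m0 y)).1 - x0) fun i => if c i < 0 then e (Φ (Ψ (m0 y))).2 i else y (some i)
  have hG : Continuous G := by
    refine continuous_pi fun j => ?_
    cases j with
    | none => simp only [G, Option.elim]; fun_prop
    | some i =>
      simp only [G, Option.elim]
      split_ifs
      · exact (continuous_apply i).comp (e.continuous.comp
          (continuous_snd.comp (hΦ.comp (hΨ.comp hm0))))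
      · fun_prop
  have hGy : ∀ y j, |G y j - y j| ≤ R := by
    intro y j
    cases j with
    | none =>
      simp only [G, Option.elim]
      have h3 : ‖(Ψ (m0 y) - m0 y).1‖ ≤ D1 := (norm_fst_le _).trans (hD1 _)
      have e1 : (Ψ (m0 y)).1 - x0 - y none = (Ψ (m0 y) - m0 y).1 := by simp [m0]; ring
      rw [e1]
      refine h3.trans ?_
      have : 0 ≤ K * (D1 + D2) := by positivity
      linarith
    | some i =>
      simp only [G, Option.elim]
      split_ifs with hi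
      · have h3 : ‖Φ (Ψ (m0 y)) - m0 y‖ ≤ D1 + D2 := by
          have := norm_sub_le_norm_sub_add_norm_sub (Φ (Ψ (m0 y))) (Ψ (m0 y)) (m0 y)
          have := hD1 (m0 y)
          have := hD2 (Ψ (m0 y))
          linarith
        have h4 : ‖(Φ (Ψ (m0 y)) - m0 y).2‖ ≤ D1 + D2 := (norm_snd_le _).trans h3
        have e1 : e (Φ (Ψ (m0 y))).2 i - y (some i) = e (Φ (Ψ (m0 y)) - m0 y).2 i := by
          simp [m0, hi]
        rw [e1]
        have h5 := norm_le_pi_norm (e (Φ (Ψ (m0 y)) - m0 y).2) i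
        have h6 := (e : F →L[ℝ] (ι → ℝ)).le_opNorm (Φ (Ψ (m0 y)) - m0 y).2
        have h7 : K * ‖(Φ (Ψ (m0 y)) - m0 y).2‖ ≤ K * (D1 + D2) := by gcongr
        rw [Real.norm_eq_abs] at h5
        simp only [ContinuousLinearEquiv.coe_coe] at h6
        linarith
      · simpa using hR0.le
  obtain ⟨y, -, hy⟩ := Pool.Agent.Shared.Kuhn.poincare_miranda (I := Option ι)
    (a := fun _ => -R) (b := fun _ => R) (fun _ => by linarith) G hG.continuousOn
    (fun y _ j hj => by have := (abs_le.1 (hGy y j)).2; linarith)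
    (fun y _ j hj => by have := (abs_le.1 (hGy y j)).1; linarith)
  have hy0 : (Ψ (m0 y)).1 = x0 := by
    have := congrFun hy none
    simp only [G, Option.elim, Pi.zero_apply] at this
    linarith
  have hy1 : ∀ i, c i < 0 → e (Φ (Ψ (m0 y))).2 i = 0 := by
    intro i hi
    have := congrFun hy (some i)
    simpa [G, hi] using this
  have a1 : S (m0 y) + h (m0 y).1 ≤ B2 + B := by
    have h3 := hB2 (m0 y).2 (fun i hi => by
      have : ¬ c i < 0 := by simp at hi; linarith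
      simp [m0, this])
    have h4 := (abs_le.1 (hC (m0 y))).2
    rw [hQe] at h4
    have h5 := hb (m0 y).1
    simp only [neg_mul, Finset.sum_neg_distrib] at h3
    linarith
  have a2 := hΨ' _ a1
  rw [hy0] at a2
  have a3 := hΦ' (Ψ (m0 y)) (by linarith)
  have a4 := hB1 _ hy1
  have a5 := (abs_le.1 (hC (Φ (Ψ (m0 y))))).1
  rw [hQe] at a5
  linarith

lemma Diag.neg {Q : F → ℝ} (h : Diag Q) : Diag (fun ξ => - Q ξ) := by
  obtain ⟨ι, _, e, c, hc, hQ⟩ := h
  exact ⟨ι, inferInstance, e, fun i => - c i, fun i => neg_ne_zero.2 (hc i), fun ξ => by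
    simp [hQ]⟩

lemma Diag.prod {F' : Type} [NormedAddCommGroup F'] [NormedSpace ℝ F'] {Q : F → ℝ} {Q' : F' → ℝ}
    (h : Diag Q) (h' : Diag Q') : Diag (fun ξ : F × F' => Q ξ.1 + Q' ξ.2) := by
  obtain ⟨ι, _, e, c, hc, hQ⟩ := h
  obtain ⟨ι', _, e', c', hc', hQ'⟩ := h'
  refine ⟨ι ⊕ ι', inferInstance,
    (e.prodCongr e').trans (ContinuousLinearEquiv.sumPiEquivProdPi ℝ ι ι' (fun _ => ℝ)).symm,
    Sum.elim c c', ?_, fun ξ => ?_⟩
  · rintro (i | i)
    · exact hc i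
    · exact hc' i
  · simp only [Fintype.sum_sum_type, hQ, hQ']
    rfl

lemma diag_sq : Diag (fun p : ℝ × ℝ => (p.2 * p.2 - p.1 * p.1) / 2) := by
  refine ⟨Fin 2, inferInstance, (ContinuousLinearEquiv.finTwoArrow ℝ ℝ).symm, ![-1 / 2, 1 / 2],
    ?_, fun ξ => ?_⟩
  · intro i; fin_cases i <;> norm_num
  · simp [Fin.sum_univ_two]; ring

lemma diag_hyp : Diag (fun p : ℝ × ℝ => p.2 * p.1) := by
  let l : (ℝ × ℝ) ≃ₗ[ℝ] (ℝ × ℝ) :=
    { toFun := fun p => (p.1 + p.2, p.1 - p.2)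
      invFun := fun p => ((p.1 + p.2) / 2, (p.1 - p.2) / 2)
      map_add' := fun p q => by ext <;> simp <;> ring
      map_smul' := fun a p => by ext <;> simp <;> ring
      left_inv := fun p => by ext <;> simp
      right_inv := fun p => by ext <;> simp <;> ring }
  refine ⟨Fin 2, inferInstance,
    l.toContinuousLinearEquiv.trans (ContinuousLinearEquiv.finTwoArrow ℝ ℝ).symm, ![1 / 4, -1 / 4],
    ?_, fun ξ => ?_⟩
  · intro i; fin_cases i <;> norm_num
  · simp [Fin.sum_univ_two, l]; ring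

lemma diag_zero : Diag (fun _ : Fin 0 → ℝ => (0 : ℝ)) :=
  ⟨Fin 0, inferInstance, ContinuousLinearEquiv.refl ℝ _, fun _ => 1, fun _ => one_ne_zero,
    fun ξ => by simp⟩

end LS

end Pool.Agent.Lib.MP_5a3ebe_gt.H46
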