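import Mathlib

namespace Pool.Agent.Lib.MP_5a3ebe_gt

/-- `c` has finite `p`-variation near the parameter `a` for some `p < 2`
(`p = 1`: finite length near `a`). -/
def FiniteVarAt (c : ℝ → ℂ) (a : ℝ) : Prop :=
  ∃ p : ℝ, 0 < p ∧ p < 2 ∧ ∃ η > 0, ∃ V : ℝ, ∀ (n : ℕ) (t : ℕ → ℝ), Monotone t →
    (∀ i ≤ n, |t i - a| ≤ η) → ∑ i ∈ Finset.range n, ‖c (t (i + 1)) - c (t i)‖ ^ p ≤ V

/-- The signed area swept around `c a` by a polygon inscribed in `c` tends to `0` uniformly as the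
parameters of its vertices tend to `a`. -/
def SmallAreaAt (c : ℝ → ℂ) (a : ℝ) : Prop :=
  ∀ ε > 0, ∃ η > 0, ∀ (n : ℕ) (t : ℕ → ℝ), Monotone t → (∀ i ≤ n, |t i - a| ≤ η) →
    |∑ i ∈ Finset.range n, (starRingEnd ℂ (c (t i) - c a) * (c (t (i + 1)) - c a)).im| ≤ ε

end Pool.Agent.Lib.MP_5a3ebe_gt
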