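import Pool.Agent.Lib.MP_5a3ebe_gt.H46Poly

/-! Every simple polygonal path crossing a vertical strip has an empty triangle. -/

namespace Pool.Agent.Lib.MP_5a3ebe_gt.H46

open Set Filter Topology Complex Pool.Agent.Lib.MP_5a3ebe_gt.Grid

variable {v : ℕ → ℂ} {n : ℕ}

lemma Simple.nearest (h : Simple v n) {k : ℕ} (hk : k + 2 ≤ n) (hE : ¬ Empty v n k) :
    ∃ l s t, Bary (v k) (v (k + 1)) (v (k + 2)) s t ∧
      cr (v k - v (k + 1)) (v (k + 2) - v (k + 1)) ≠ 0 ∧ l ≤ n ∧ l ≠ k ∧ l ≠ k + 1 ∧ l ≠ k + 2 ∧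
      0 < s (v l) ∧ 0 < t (v l) ∧ s (v l) + t (v l) ≤ 1 ∧
      (∀ i ≤ n, ∀ j ≤ n, (∀ x ∈ segment ℝ (v i) (v j), (x ∈ segment ℝ (v k) (v (k + 1)) ∨
        x ∈ segment ℝ (v (k + 1)) (v (k + 2))) → x = v k ∨ x = v (k + 2)) →
        ∀ p ∈ openSegment ℝ (v (k + 1)) (v l), p ∉ segment ℝ (v i) (v j)) ∧
      (∀ p ∈ openSegment ℝ (v (k + 1)) (v l), ∀ m < n, p ∉ segment ℝ (v m) (v (m + 1))) := by
  classical
  unfold Empty at hE
  push Not at hE
  obtain ⟨m0, hm0, hm1, hm2, hm3, hm4⟩ := hE
  have hvt : ∀ m ≤ n, (v m ∈ segment ℝ (v k) (v (k + 1)) ∨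
      v m ∈ segment ℝ (v (k + 1)) (v (k + 2))) → m = k ∨ m = k + 1 ∨ m = k + 2 := by
    rintro m hm (h1 | h1)
    · have := h.vtx hm (by omega) h1; omega
    · have := h.vtx hm (by omega) h1; omega
  have hD : cr (v k - v (k + 1)) (v (k + 2) - v (k + 1)) ≠ 0 := by
    rcases h.dir hk with hD | ⟨c, hc, e⟩
    · exact hD
    · have := hvt m0 hm0 (tri_degen hc e hm1); omega
  obtain ⟨s, t, B⟩ := exists_bary hD
  obtain ⟨g0, g1, g2⟩ := B.mem_tri.1 hm1
  have g0' : 0 < s (v m0) := by
    refine lt_of_le_of_ne g0 fun e => ?_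
    have := hvt m0 hm0 (Or.inr (B.memQR g1 (by linarith) e.symm)); omega
  have g1' : 0 < t (v m0) := by
    refine lt_of_le_of_ne g1 fun e => ?_
    have := hvt m0 hm0 (Or.inl (B.memPQ g0 (by linarith) e.symm)); omega
  obtain ⟨l, hl, hmin⟩ := Finset.exists_min_image
    ((Finset.range (n + 1)).filter fun m => 0 < s (v m) ∧ 0 < t (v m))
    (fun m => s (v m) + t (v m)) ⟨m0, by simp [g0', g1']; omega⟩
  simp only [Finset.mem_filter, Finset.mem_range, Nat.lt_succ_iff] at hl hmin
  obtain ⟨hl0, hl1, hl2⟩ := hl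
  have hl3 : s (v l) + t (v l) ≤ 1 := (hmin m0 ⟨hm0, g0', g1'⟩).trans g2
  have hop : ∀ p ∈ openSegment ℝ (v (k + 1)) (v l), 0 < s p ∧ 0 < t p ∧
      s p + t p < s (v l) + t (v l) := by
    intro p hp
    obtain ⟨μ, h0, h1, rfl⟩ := mem_oseg.1 hp
    rw [B.saff, B.taff, B.sQ, B.tQ]
    refine ⟨by nlinarith, by nlinarith, by nlinarith⟩
  have NC : ∀ i ≤ n, ∀ j ≤ n, (∀ x ∈ segment ℝ (v i) (v j), (x ∈ segment ℝ (v k) (v (k + 1)) ∨
      x ∈ segment ℝ (v (k + 1)) (v (k + 2))) → x = v k ∨ x = v (k + 2)) →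
      ∀ p ∈ openSegment ℝ (v (k + 1)) (v l), p ∉ segment ℝ (v i) (v j) := by
    intro i hi j hj hne p hp hp'
    obtain ⟨a1, a2, a3⟩ := hop p hp
    have la : s (v l) + t (v l) ≤ s (v i) + t (v i) := by
      by_contra hc
      have := B.core hl3 a1 a2 a3.le (not_le.1 hc) fun x hx => hne x (seg_sub_left hp' hx)
      exact hc (hmin i ⟨hi, this⟩)
    have lb : s (v l) + t (v l) ≤ s (v j) + t (v j) := by
      by_contra hc
      have := B.core hl3 a1 a2 a3.le (not_le.1 hc) fun x hx => hne x (seg_sub_right hp' hx)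
      exact hc (hmin j ⟨hj, this⟩)
    obtain ⟨μ, h0, h1, rfl⟩ := mem_seg.1 hp'
    rw [B.saff, B.taff] at a3
    nlinarith
  refine ⟨l, s, t, B, hD, hl0, ?_, ?_, ?_, hl1, hl2, hl3, NC, fun p hp m hm hp' => ?_⟩
  · rintro rfl; rw [B.tP] at hl2; exact lt_irrefl _ hl2
  · rintro rfl; rw [B.tQ] at hl2; exact lt_irrefl _ hl2
  · rintro rfl; rw [B.sR] at hl1; exact lt_irrefl _ hl1
  · obtain ⟨a1, a2, a3⟩ := hop p hp
    by_cases h1 : m = k
    · subst h1
      obtain ⟨μ, h0, h1, rfl⟩ := mem_seg.1 hp'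
      rw [B.taff, B.tP, B.tQ] at a2; simp at a2
    by_cases h2 : m = k + 1
    · subst h2
      obtain ⟨μ, h0, h1, rfl⟩ := mem_seg.1 hp'
      rw [B.saff, B.sQ, B.sR] at a1; simp at a1
    exact NC m hm.le (m + 1) hm
      (fun x hx hx' => (h.other hk hm h1 h2 hx hx').imp And.right And.right) p hp hp'

lemma arg_ratio_pos {a b : ℂ} (h : 0 < cr a b) : 0 < arg (b / a) := by
  have ha : a ≠ 0 := by rintro rfl; simp [cr] at h
  have : 0 < (b / a).im := by
    have hn := normSq_pos.2 ha
    have e : (b / a).im = cr a b / normSq a := by rw [div_im, cr]; field_simp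
    rw [e]; positivity
  exact lt_of_le_of_ne (arg_nonneg_iff.2 this.le) fun e => this.ne' (arg_eq_zero_iff.1 e.symm).2

lemma arg_ratio_neg {a b : ℂ} (h : cr a b < 0) : arg (b / a) < 0 := by
  have ha : a ≠ 0 := by rintro rfl; simp [cr] at h
  have hn := normSq_pos.2 ha
  have e : (b / a).im = cr a b / normSq a := by rw [div_im, cr]; field_simp
  rw [arg_neg_iff, e]
  exact div_neg_of_neg_of_pos h hn

lemma wind_ne {c : ℕ → ℂ} {N k : ℕ} (hc : c N = c 0) (hk : k + 2 ≤ N) {q u : ℂ}
    (hu : ∀ m ≤ N, m ≠ k + 1 → 0 < (u * (c m - q)).re) {s t : ℝ} (hs : 0 < s) (ht : 0 < t)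
    (hst : s + t < 1) (hq : q = c (k + 1) + s * (c k - c (k + 1)) + t * (c (k + 2) - c (k + 1)))
    (hD : cr (c k - c (k + 1)) (c (k + 2) - c (k + 1)) ≠ 0) : wind c N q ≠ 0 := by
  have h0 : ∑ m ∈ Finset.range N, (arg (u * (c (m + 1) - q)) - arg (u * (c m - q))) = 0 := by
    rw [Finset.sum_range_sub (fun m => arg (u * (c m - q))), hc, sub_self]
  have h1 : wind c N q = ∑ m ∈ Finset.range N, (arg ((c (m + 1) - q) / (c m - q)) -
      (arg (u * (c (m + 1) - q)) - arg (u * (c m - q)))) := by
    rw [Finset.sum_sub_distrib, h0, sub_zero, wind]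
  rw [h1, Finset.sum_eq_add_of_mem k (k + 1) (by simp; omega) (by simp; omega) (by omega)]
  swap
  · intro m hm hne
    rw [Finset.mem_range] at hm
    rw [arg_div_half (hu m hm.le hne.2) (hu (m + 1) hm (by omega)), sub_self]
  have h2 := arg_div_half (hu (k + 2) hk (by omega)) (hu k (by omega) (by omega))
  set D := cr (c k - c (k + 1)) (c (k + 2) - c (k + 1)) with hD'
  have e1 : cr (c k - q) (c (k + 1) - q) = -t * D := by rw [hq, hD']; simp [cr]; ring
  have e2 : cr (c (k + 1) - q) (c (k + 2) - q) = -s * D := by rw [hq, hD']; simp [cr]; ring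
  have e3 : cr (c (k + 2) - q) (c k - q) = -(1 - s - t) * D := by rw [hq, hD']; simp [cr]; ring
  rcases lt_or_gt_of_ne hD with h | h
  · have a1 := arg_ratio_pos (a := c k - q) (b := c (k + 1) - q) (by rw [e1]; nlinarith)
    have a2 := arg_ratio_pos (a := c (k + 1) - q) (b := c (k + 2) - q) (by rw [e2]; nlinarith)
    have a3 := arg_ratio_pos (a := c (k + 2) - q) (b := c k - q) (by rw [e3]; nlinarith)
    intro e; linarith
  · have a1 := arg_ratio_neg (a := c k - q) (b := c (k + 1) - q) (by rw [e1]; nlinarith)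
    have a2 := arg_ratio_neg (a := c (k + 1) - q) (b := c (k + 2) - q) (by rw [e2]; nlinarith)
    have a3 := arg_ratio_neg (a := c (k + 2) - q) (b := c k - q) (by rw [e3]; nlinarith)
    intro e; linarith

lemma exists_extreme (h : Simple v n) {i j : ℕ} (hij : i + 2 ≤ j) (hj : j ≤ n)
    (hw : v (i + 1) ∉ segment ℝ (v i) (v j)) : ∃ (k : ℕ) (u : ℂ), i ≤ k ∧ k + 2 ≤ j ∧
      ∀ m, i ≤ m → m ≤ j → m ≠ k + 1 → 0 < (u * (v m - v (k + 1))).re := by
  obtain ⟨f, c, hf1, hf2⟩ := geometric_hahn_banach_closed_point (convex_segment (v i) (v j))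
    (by rw [segment_eq_image']; exact (isCompact_Icc.image (by fun_prop)).isClosed) hw
  have hf : ∀ p : ℂ, f p = f 1 * p.re + f I * p.im := by
    intro p
    conv_lhs => rw [← re_add_im p]
    rw [map_add, ← mul_one (p.re : ℂ), ← real_smul, ← real_smul, map_smul, map_smul]
    simp; ring
  obtain ⟨ε, hε1, hε0⟩ : ∃ ε : ℝ, (f (v i) + ε * normSq (v i) < f (v (i + 1)) + ε * normSq (v (i + 1))
      ∧ f (v j) + ε * normSq (v j) < f (v (i + 1)) + ε * normSq (v (i + 1))) ∧ 0 < ε := by
    have key : ∀ a ∈ segment ℝ (v i) (v j), ∀ᶠ ε : ℝ in 𝓝[>] 0,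
        f a + ε * normSq a < f (v (i + 1)) + ε * normSq (v (i + 1)) := by
      intro a ha
      refine mem_nhdsWithin_of_mem_nhds ((isOpen_lt (by fun_prop) (by fun_prop)).mem_nhds ?_)
      simpa using (hf1 a ha).trans hf2
    exact (((key _ (left_mem_segment _ _ _)).and (key _ (right_mem_segment _ _ _))).and
      self_mem_nhdsWithin).exists
  obtain ⟨k, hk, hmax⟩ := Finset.exists_max_image (Finset.Icc i j)
    (fun m => f (v m) + ε * normSq (v m)) ⟨i, by simp; omega⟩
  simp only [Finset.mem_Icc] at hk hmax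
  have h1 := hmax (i + 1) ⟨by omega, by omega⟩
  have hki : k ≠ i := by rintro rfl; linarith [hε1.1]
  have hkj : k ≠ j := by rintro rfl; linarith [hε1.2]
  obtain ⟨k, rfl⟩ : ∃ k', k = k' + 1 := ⟨k - 1, by omega⟩
  refine ⟨k, ⟨-(f 1 + 2 * ε * (v (k + 1)).re), f I + 2 * ε * (v (k + 1)).im⟩, by omega, by omega,
    fun m h2 h3 h4 => ?_⟩
  have h5 := hmax m ⟨h2, h3⟩
  have h6 : 0 < normSq (v m - v (k + 1)) :=
    normSq_pos.2 (sub_ne_zero.2 fun e => h4 (h.inj (by omega) (by omega) e))
  rw [hf (v m), hf (v (k + 1))] at h5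
  simp only [normSq_apply, sub_re, sub_im, mul_re] at h5 h6 ⊢
  nlinarith

/-- the path runs from `a` to `b` inside the vertical strip over `[a, b]` -/
def Strip (v : ℕ → ℂ) (n : ℕ) (a b : ℝ) : Prop :=
  v 0 = a ∧ v n = b ∧ ∀ i ≤ n, a ≤ (v i).re ∧ (v i).re ≤ b

lemma Strip.seg {a b : ℝ} (h : Strip v n a b) {i j : ℕ} (hi : i ≤ n) (hj : j ≤ n) {p : ℂ}
    (hp : p ∈ segment ℝ (v i) (v j)) : a ≤ p.re ∧ p.re ≤ b := by
  obtain ⟨μ, h0, h1, rfl⟩ := mem_seg.1 hp
  have h2 := h.2.2 i hi
  have h3 := h.2.2 j hj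
  simp only [add_re, mul_re, ofReal_re, ofReal_im, sub_re, zero_mul, sub_zero]
  constructor <;> nlinarith

def Dg (v : ℕ → ℂ) (n i j : ℕ) : Prop := i + 2 ≤ j ∧ j ≤ n ∧
  ∀ p ∈ openSegment ℝ (v i) (v j), ∀ m < n, p ∉ segment ℝ (v m) (v (m + 1))

theorem exists_empty (h : Simple v n) {a b : ℝ} (hS : Strip v n a b) (hn : 2 ≤ n) :
    ∃ k, k + 2 ≤ n ∧ Empty v n k := by
  by_contra hcon
  push Not at hcon
  have hvT : ∀ m ≤ n, ∃ m' < n, v m ∈ segment ℝ (v m') (v (m' + 1)) := by
    intro m hm
    rcases eq_or_lt_of_le hm with rfl | h1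
    · obtain ⟨m', rfl⟩ : ∃ k, m = k + 1 := ⟨m - 1, by omega⟩
      exact ⟨m', by omega, right_mem_segment _ _ _⟩
    · exact ⟨m, h1, left_mem_segment _ _ _⟩
  have main : ∀ d i j, j = i + d → ¬ Dg v n i j := by
    intro d
    induction d using Nat.strong_induction_on with
    | _ d ih =>
    rintro i j hd ⟨hij, hj, hdg⟩
    have hvD : ∀ m ≤ n, v m ∈ segment ℝ (v i) (v j) → m = i ∨ m = j := by
      intro m hm hv
      rcases seg_cases hv with h1 | h1 | h1
      · exact Or.inl (h.inj hm (by omega) h1)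
      · exact Or.inr (h.inj hm hj h1)
      · obtain ⟨m', h2, h3⟩ := hvT m hm
        exact (hdg _ h1 m' h2 h3).elim
    obtain ⟨k, u, hik, hkj, hu⟩ := exists_extreme h hij hj
      (fun hv => by have := hvD (i + 1) (by omega) hv; omega)
    obtain ⟨l, s, t, B, hD, hl, l1, l2, l3, ls, lt, lst, NC, hop⟩ :=
      h.nearest (k := k) (by omega) (hcon k (by omega))
    by_cases hin : i ≤ l ∧ l ≤ j
    · rcases lt_or_gt_of_ne l2 with h1 | h1
      · exact ih (k + 1 - l) (by omega) l (k + 1) (by omega)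
          ⟨by omega, by omega, fun p hp => hop p (by rwa [openSegment_symm])⟩
      · exact ih (l - (k + 1)) (by omega) (k + 1) l (by omega) ⟨by omega, hl, hop⟩
    let c : ℕ → ℂ := fun m => if m ≤ d then v (i + m) else v i
    have hc : c (d + 1) = c 0 := by simp [c]
    have hcm : ∀ m ≤ d, c m = v (i + m) := fun m hm => if_pos hm
    have htr : ∀ p, p ∈ trace c (d + 1) → (∃ m, i ≤ m ∧ m < j ∧ p ∈ segment ℝ (v m) (v (m + 1))) ∨
        p ∈ segment ℝ (v i) (v j) := by
      intro p hp
      by_contra hc'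
      push Not at hc'
      refine (not_mem_trace.2 fun m hm => ?_) hp
      rcases Nat.lt_succ_iff_lt_or_eq.1 hm with h1 | rfl
      · rw [hcm m h1.le, hcm (m + 1) h1]
        exact hc'.1 (i + m) (by omega) (by omega)
      · rw [hcm m le_rfl, hc, hcm 0 (by omega), ← hd, segment_symm]
        exact hc'.2
    have hvC : ∀ m ≤ n, (m < i ∨ j < m) → v m ∉ trace c (d + 1) := by
      intro m hm hm' hv
      rcases htr _ hv with ⟨m', a1, a2, a3⟩ | a1
      · have := h.vtx hm (by omega) a3; omega
      · have := hvD m hm a1; omega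
    have heC : ∀ m < n, (m + 1 < i ∨ j < m) → segment ℝ (v m) (v (m + 1)) ⊆ (trace c (d + 1))ᶜ := by
      intro m hm hm' p hp hv
      rcases htr _ hv with ⟨m', a1, a2, a3⟩ | a1
      · rcases hm' with a4 | a4
        · have := (h.2 m m' (by omega) (by omega) p hp a3).1; omega
        · have := (h.2 m' m (by omega) hm p a3 hp).1; omega
      · rcases seg_cases a1 with rfl | rfl | a2
        · have := h.vtx (by omega) hm hp; omega
        · have := h.vtx hj hm hp; omega
        · exact hdg _ a2 m hm hp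
    have hre : ∀ p ∈ trace c (d + 1), a ≤ p.re ∧ p.re ≤ b := by
      intro p hp
      rcases htr _ hp with ⟨m', a1, a2, a3⟩ | a1
      · exact hS.seg (by omega) (by omega) a3
      · exact hS.seg (by omega) hj a1
    have hcre : ∀ m, a ≤ (c m).re ∧ (c m).re ≤ b := by
      intro m
      simp only [c]
      split_ifs
      · exact hS.2.2 _ (by omega)
      · exact hS.2.2 _ (by omega)
    have hw0 : wind c (d + 1) (v l) = 0 := by
      rcases (by omega : l < i ∨ j < l) with hli | hli
      · have key : ∀ m < i, wind c (d + 1) (v m) = 0 := by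
          intro m
          induction m with
          | zero =>
            intro hi
            have h1 : wind c (d + 1) ((a - 1 : ℝ) : ℂ) = 0 := by
              rw [wind_half (u := 1), hc, sub_self]
              intro m _
              have := (hcre m).1
              simp; linarith
            rw [← h1]
            refine wind_const hc (convex_segment (v 0) ((a - 1 : ℝ) : ℂ)).isPreconnected ?_
              (left_mem_segment _ _ _) (right_mem_segment _ _ _)
            intro p hp hp'
            obtain ⟨μ, a1, a2, rfl⟩ := mem_seg.1 hp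
            have a3 := (hre _ hp').1
            have : μ = 0 := by
              rw [hS.1] at a3
              simp at a3; linarith
            rw [this] at hp'
            exact hvC 0 (by omega) (Or.inl hi) (by simpa using hp')
          | succ m ihm =>
            intro hi
            rw [← ihm (by omega)]
            exact wind_const hc (convex_segment _ _).isPreconnected (heC m (by omega) (Or.inl hi))
              (right_mem_segment _ _ _) (left_mem_segment _ _ _)
        exact key l hli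
      · have key : ∀ e m, m + e = n → j < m → wind c (d + 1) (v m) = 0 := by
          intro e
          induction e with
          | zero =>
            rintro m rfl hi
            have h1 : wind c (d + 1) ((b + 1 : ℝ) : ℂ) = 0 := by
              rw [wind_half (u := -1), hc, sub_self]
              intro m _
              have := (hcre m).2
              simp; linarith
            rw [← h1]
            refine wind_const hc (convex_segment (v m) ((b + 1 : ℝ) : ℂ)).isPreconnected ?_
              (left_mem_segment _ _ _) (right_mem_segment _ _ _)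
            intro p hp hp'
            obtain ⟨μ, a1, a2, rfl⟩ := mem_seg.1 hp
            have a3 := (hre _ hp').2
            have : μ = 0 := by
              have e := hS.2.1
              rw [add_zero] at e
              rw [e] at a3
              simp at a3; linarith
            rw [this] at hp'
            exact hvC m (by omega) (Or.inr hi) (by simpa using hp')
          | succ e ihe =>
            intro m hm hi
            rw [← ihe (m + 1) (by omega) (by omega)]
            exact wind_const hc (convex_segment _ _).isPreconnected (heC m (by omega) (Or.inr hi))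
              (left_mem_segment _ _ _) (right_mem_segment _ _ _)
        exact key (n - l) l (by omega) hli
    obtain ⟨μ, ⟨hμ, hμ1⟩, hμ0⟩ : ∃ μ : ℝ, ((∀ m ∈ Finset.Icc i j, m ≠ k + 1 →
        0 < (u * (v m - (v (k + 1) + μ * (v l - v (k + 1))))).re) ∧ μ < 1) ∧ 0 < μ := by
      refine ((Eventually.and ?_ (mem_nhdsWithin_of_mem_nhds (Iio_mem_nhds one_pos))).and
        (self_mem_nhdsWithin (s := Ioi (0 : ℝ)))).exists
      rw [eventually_all_finset]
      intro m hm
      rw [Finset.mem_Icc] at hm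
      by_cases h1 : m = k + 1
      · simp [h1]
      · have : ∀ᶠ μ : ℝ in 𝓝[>] 0, 0 < (u * (v m - (v (k + 1) + μ * (v l - v (k + 1))))).re := by
          refine mem_nhdsWithin_of_mem_nhds ((isOpen_lt (by fun_prop) (by fun_prop)).mem_nhds ?_)
          simpa using hu m hm.1 hm.2 h1
        filter_upwards [this] with μ hμ _ using hμ
    set q := v (k + 1) + μ * (v l - v (k + 1)) with hq
    have hqo : q ∈ openSegment ℝ (v (k + 1)) (v l) := mem_oseg.2 ⟨μ, hμ0, hμ1, rfl⟩
    have e0 : c (k - i) = v k := by rw [hcm _ (by omega)]; congr 1; omega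
    have e1 : c (k - i + 1) = v (k + 1) := by rw [hcm _ (by omega)]; congr 1; omega
    have e2 : c (k - i + 2) = v (k + 2) := by rw [hcm _ (by omega)]; congr 1; omega
    have hw1 : wind c (d + 1) q ≠ 0 := by
      refine wind_ne (k := k - i) (u := u) (s := s q) (t := t q) hc (by omega) ?_ ?_ ?_ ?_ ?_ ?_
      · intro m hm hm'
        simp only [c]
        split_ifs with h1
        · exact hμ _ (by simp; omega) (by omega)
        · exact hμ _ (by simp; omega) (by omega)
      · rw [hq, B.saff, B.sQ]; nlinarith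
      · rw [hq, B.taff, B.tQ]; nlinarith
      · rw [hq, B.saff, B.taff, B.sQ, B.tQ]; nlinarith
      · rw [e0, e1, e2]; exact B.rec' q
      · rw [e0, e1, e2]; exact hD
    refine hw1 (hw0 ▸ wind_const hc (convex_segment q (v l)).isPreconnected ?_
      (left_mem_segment _ _ _) (right_mem_segment _ _ _))
    intro p hp hp'
    have hpo : p = v l ∨ p ∈ openSegment ℝ (v (k + 1)) (v l) := by
      obtain ⟨ν, a1, a2, rfl⟩ := mem_seg.1 hp
      rcases eq_or_lt_of_le a2 with rfl | a2
      · left; simp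
      · right
        refine mem_oseg.2 ⟨μ + ν * (1 - μ), by nlinarith, by nlinarith, ?_⟩
        rw [hq]; push_cast; ring
    rcases hpo with rfl | hpo
    · exact hvC l hl (by omega) hp'
    rcases htr _ hp' with ⟨m', a1, a2, a3⟩ | a1
    · exact hop p hpo m' (by omega) a3
    · refine NC i (by omega) j hj (fun x hx hx' => ?_) p hpo a1
      rcases seg_cases hx with rfl | rfl | a2
      · rcases hx' with a3 | a3
        · have := h.vtx (by omega) (by omega) a3
          left; congr 1; omega
        · have := h.vtx (by omega) (by omega) a3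
          omega
      · rcases hx' with a3 | a3
        · have := h.vtx hj (by omega) a3
          omega
        · have := h.vtx hj (by omega) a3
          right; congr 1; omega
      · rcases hx' with a3 | a3
        · exact (hdg _ a2 k (by omega) a3).elim
        · exact (hdg _ a2 (k + 1) (by omega) a3).elim
  obtain ⟨l, s, t, B, hD, hl, l1, l2, l3, ls, lt, lst, NC, hop⟩ :=
    h.nearest (k := 0) (by omega) (hcon 0 (by omega))
  exact main (l - 1) 1 l (by omega) ⟨by omega, hl, hop⟩

end Pool.Agent.Lib.MP_5a3ebe_gt.H46
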