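import Pool.Agent.Lib.MP_5a3ebe_gt.H46Glue

/-! Replacing a segment by two sides of a triangle keeps generating functions. -/

namespace Pool.Agent.Lib.MP_5a3ebe_gt.H46

open Set Filter Topology Complex

/-- the integral of `y dx` along the segment from `a` to `b` -/
noncomputable def trap (a b : ℂ) : ℝ := (a.im + b.im) * (b.re - a.re) / 2

/-- the Legendrian lift of the segment from `a` to `b` starting at height `z` -/
def edge (a b : ℂ) (z : ℝ) : Set (ℂ × ℝ) :=
  {p | ∃ s : ℝ, 0 ≤ s ∧ s ≤ 1 ∧ p = (a + s * (b - a), z + trap a (a + s * (b - a)))}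

/-- the closed triangle -/
def tri (P Q R : ℂ) : Set ℂ :=
  {p | ∃ s t : ℝ, 0 ≤ s ∧ 0 ≤ t ∧ s + t ≤ 1 ∧ p = Q + s * (P - Q) + t * (R - Q)}

lemma im_seg_le (a b : ℂ) {s : ℝ} (h0 : 0 ≤ s) (h1 : s ≤ 1) :
    |(a + s * (b - a)).im| ≤ |a.im| + |b.im| := by
  have e : (a + s * (b - a)).im = (1 - s) * a.im + s * b.im := by simp; ring
  rw [e]
  refine (abs_add_le _ _).trans ?_
  rw [abs_mul, abs_mul, abs_of_nonneg h0, abs_of_nonneg (by linarith : 0 ≤ 1 - s)]
  nlinarith [abs_nonneg a.im, abs_nonneg b.im]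

theorem ear_vert {Λm Λp : Set (ℂ × ℝ)} {Km Kp : Set ℂ} {P Q R : ℂ} {z0 M : ℝ}
    (hm : ∀ a ∈ Λm, a.1 ∈ Km) (hp : ∀ a ∈ Λp, a.1 ∈ Kp) (cm : IsClosed Km) (cp : IsClosed Kp)
    (hd : Disjoint Km Kp) (bm : ∀ p ∈ Km, |p.im| ≤ M ∧ p.re ≤ M)
    (bp : ∀ p ∈ Kp, |p.im| ≤ M ∧ -M ≤ p.re)
    (tm : ∀ p ∈ Km, p ∈ tri P Q R → p = P) (tp : ∀ p ∈ Kp, p ∈ tri P Q R → p = R)
    (hs : 0 < (Q.re - P.re) * (R.re - Q.re)) (h : Gen (Λm ∪ edge P R z0 ∪ Λp)) :
    Gen (Λm ∪ edge P Q z0 ∪ edge Q R (z0 + trap P Q) ∪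
      (fun a => (a.1, a.2 + (trap P Q + trap Q R - trap P R))) '' Λp) := by
  set Δ := R.re - P.re with hΔ
  have hΔ0 : Δ ≠ 0 := fun e => by
    have : R.re - Q.re = -(Q.re - P.re) := by linarith
    rw [this] at hs; nlinarith [sq_nonneg (Q.re - P.re)]
  have hΔ2 : 0 < Δ ^ 2 := by positivity
  set q := (Q.re - P.re) / Δ with hq
  have hqΔ : q * Δ = Q.re - P.re := by rw [hq]; field_simp
  have hq0 : 0 < q := by
    have : 0 < q * Δ ^ 2 := by
      have : q * Δ ^ 2 = (Q.re - P.re) ^ 2 + (Q.re - P.re) * (R.re - Q.re) := by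
        rw [sq, ← mul_assoc, hqΔ, hΔ]; ring
      rw [this]; positivity
    exact (mul_pos_iff_of_pos_right hΔ2).1 this
  have hq1 : q < 1 := by
    have : 0 < (1 - q) * Δ ^ 2 := by
      have : (1 - q) * Δ ^ 2 = (R.re - Q.re) ^ 2 + (Q.re - P.re) * (R.re - Q.re) := by
        rw [sq, ← mul_assoc, sub_mul, hqΔ, hΔ]; ring
      rw [this]; positivity
    linarith [(mul_pos_iff_of_pos_right hΔ2).1 this]
  set η := Q.im - P.im - q * (R.im - P.im) with hη
  have hQ : Q = P + q * (R - P) + η * I := by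
    apply Complex.ext
    · simp only [add_re, mul_re, ofReal_re, ofReal_im, sub_re, sub_im, I_re, I_im]
      rw [← hΔ, hqΔ]; ring
    · simp only [add_im, mul_im, ofReal_re, ofReal_im, sub_re, sub_im, I_re, I_im, hη]; ring
  have hQre : Q.re = P.re + q * Δ := by linarith
  have hQim : Q.im = P.im + q * (R.im - P.im) + η := by linarith
  have hRre : R.re = P.re + Δ := by linarith
  have hq1' : 1 - q ≠ 0 := by linarith
  refine Gen.approx fun ε hε => ?_
  have hK : 0 < |η| * (1 + |Δ|) + 1 := by positivity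
  set θ := ε / (|η| * (1 + |Δ|) + 1) with hθ
  have hθ0 : 0 < θ := by positivity
  have hθ1 : θ * (|η| * (1 + |Δ|) + 1) = ε := by rw [hθ]; field_simp
  have hθ2 : |η| * θ ≤ ε := by nlinarith [abs_nonneg η, abs_nonneg Δ, mul_nonneg (abs_nonneg η) (abs_nonneg Δ)]
  have hθ3 : |η| * |Δ| * θ ≤ ε := by nlinarith [abs_nonneg η, abs_nonneg Δ, mul_nonneg (abs_nonneg η) (abs_nonneg Δ)]
  let F : ℝ → ℝ := fun x => η * Δ * Gt q θ ((x - P.re) / Δ)
  let f : ℝ → ℝ := fun x => η * gt q θ ((x - P.re) / Δ)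
  have hFf : ∀ x, HasDerivAt F (f x) x := by
    intro x
    have h1 : HasDerivAt (fun x : ℝ => (x - P.re) / Δ) (1 / Δ) x :=
      ((hasDerivAt_id x).sub_const _).div_const _
    refine (((Gt_deriv q θ _).comp x h1).const_mul (η * Δ)).congr_deriv ?_
    simp only [f]; field_simp
  have hf : Continuous f := by
    have := gt_cont q θ
    simp only [f]; fun_prop
  have hF : ContDiff ℝ 1 F := by
    rw [contDiff_one_iff_deriv]
    refine ⟨fun x => (hFf x).differentiableAt, ?_⟩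
    have : deriv F = f := funext fun x => (hFf x).deriv
    rw [this]; exact hf
  have hc : ∀ τ : ℝ, ((P + τ * (R - P)).re - P.re) / Δ = τ := by
    intro τ
    simp only [add_re, mul_re, ofReal_re, ofReal_im, sub_re, sub_im]
    rw [← hΔ]; field_simp; ring
  let k : ℝ × ℝ → ℂ := fun τ => P + τ.1 * (R - P) + τ.2 * f (P + τ.1 * (R - P)).re * I
  have hk : Continuous k := by simp only [k]; fun_prop
  have hkt : ∀ τ ∈ Icc (0 : ℝ) 1 ×ˢ Icc (0 : ℝ) 1, k τ ∈ tri P Q R := by
    rintro ⟨τ, t⟩ ⟨⟨h0, h1⟩, h2, h3⟩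
    simp only at h0 h1 h2 h3
    have g0 : 0 ≤ gt q θ τ := le_max_left _ _
    have g1 : gt q θ τ ≤ tent q τ := max_le (tent_nonneg hq0 hq1 h0 h1) (by linarith)
    have g2 : tent q τ * q ≤ τ := (le_div_iff₀ hq0).1 (min_le_left _ _)
    have g3 : tent q τ * (1 - q) ≤ 1 - τ := (le_div_iff₀ (by linarith)).1 (min_le_right _ _)
    have g4 : t * gt q θ τ ≤ tent q τ := by nlinarith
    have g5 : 0 ≤ t * gt q θ τ := by positivity
    refine ⟨1 - τ - t * gt q θ τ * (1 - q), τ - t * gt q θ τ * q, by nlinarith, by nlinarith,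
      by nlinarith, ?_⟩
    simp only [k, f, hc]
    push_cast
    linear_combination (-(t : ℂ) * gt q θ τ) * hQ
  obtain ⟨w, C, ρ, hw, hC, hD, hρ, w1, w2, w3⟩ := exists_w (P := P) (R := R)
    (r0 := θ * min q (1 - q) * |Δ|) (α := F R.re) hF cm cp
    ((isCompact_Icc.prod isCompact_Icc).image hk) hd bm bp
    (fun p hp ⟨τ, hτ, e⟩ => tm p hp (e ▸ hkt τ hτ)) (fun p hp ⟨τ, hτ, e⟩ => tp p hp (e ▸ hkt τ hτ))
    (by have := lt_min hq0 (sub_pos.2 hq1); have := abs_pos.2 hΔ0; positivity)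
    (fun x hx => by
      simp only [F]
      rw [Gt_zero hq0, mul_zero]
      rw [abs_div, div_le_iff₀ (abs_pos.2 hΔ0)]
      exact hx.trans (by gcongr; exact min_le_left _ _))
    (fun x hx => by
      simp only [F]
      rw [Gt_one hq1, ← hΔ, div_self hΔ0]
      have : (x - P.re) / Δ - 1 = (x - R.re) / Δ := by rw [hRre]; field_simp; ring
      rw [this, abs_div, div_le_iff₀ (abs_pos.2 hΔ0)]
      exact hx.trans (by gcongr; exact min_le_right _ _))
  have hclose : ∀ τ : ℝ, 0 ≤ τ → τ ≤ 1 → |η * Δ * Gt q θ τ - η * Δ * Gt q 0 τ| ≤ ε := by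
    intro τ h0 h1
    rw [← mul_sub, abs_mul, abs_mul]
    exact le_trans (by gcongr; exact Gt_close hθ0.le h0 h1) hθ3
  refine ⟨Λm ∪ {b | ∃ τ : ℝ, 0 ≤ τ ∧ τ ≤ 1 ∧ b = (P + τ * (R - P) + f (P + τ * (R - P)).re * I,
    z0 + trap P (P + τ * (R - P)) + F (P + τ * (R - P)).re)} ∪
    (fun a => (a.1, a.2 + F R.re)) '' Λp,
    h.push (M := |M| + |P.im| + |R.im|) ?_ hw hC hρ hD ?_, ?_⟩
  · rintro a ((ha | ⟨s, h0, h1, rfl⟩) | ha)
    · have := (bm _ (hm a ha)).1
      linarith [le_abs_self M, abs_nonneg P.im, abs_nonneg R.im]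
    · have := im_seg_le P R h0 h1
      simp only
      linarith [abs_nonneg M]
    · have := (bp _ (hp a ha)).1
      linarith [le_abs_self M, abs_nonneg P.im, abs_nonneg R.im]
  · rintro a ((ha | ⟨s, h0, h1, rfl⟩) | ha)
    · refine ⟨fun _ => 0, fun _ => 0, fun x => hasDerivAt_const _ _, fun t _ _ p hp' => ?_, ?_⟩
      · exact w1 _ (hm a ha) p (by simpa using hp')
      · left; left; simpa using ha
    · refine ⟨F, f, hFf, fun t h2 h3 p hp' => ?_, ?_⟩
      · exact w2 _ ⟨(s, t), ⟨⟨h0, h1⟩, h2, h3⟩, rfl⟩ p hp'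
      · left; right; exact ⟨s, h0, h1, rfl⟩
    · refine ⟨fun _ => F R.re, fun _ => 0, fun x => hasDerivAt_const _ _, fun t _ _ p hp' => ?_, ?_⟩
      · exact w3 _ (hp a ha) p (by simpa using hp')
      · right; exact ⟨a, ha, by simp⟩
  · rintro a ((ha | ⟨τ, h0, h1, rfl⟩) | ⟨a, ha, rfl⟩)
    · exact ⟨a, by left; left; left; exact ha, by simp [hε.le]⟩
    · refine ⟨(P + τ * (R - P) + (η * gt q 0 τ : ℝ) * I,
        z0 + trap P (P + τ * (R - P)) + η * Δ * Gt q 0 τ), ?_, ?_, ?_⟩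
      · left
        have g0 : gt q 0 τ = tent q τ := by
          unfold gt; rw [sub_zero, max_eq_right (tent_nonneg hq0 hq1 h0 h1)]
        rcases le_total τ q with hτ | hτ
        · left; right
          refine ⟨τ / q, by positivity, (div_le_one hq0).2 hτ, ?_⟩
          rw [g0, tent_left hq0 hq1 hτ, Gt_left hq0 hq1 h0 hτ]
          refine Prod.ext (Complex.ext ?_ ?_) ?_
          · simp only [add_re, mul_re, ofReal_re, ofReal_im, sub_re, sub_im, I_re, I_im]
            rw [hQre, hRre]; field_simp; ring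
          · simp only [add_im, mul_im, ofReal_re, ofReal_im, sub_re, sub_im, I_re, I_im]
            rw [hQim]; field_simp; ring
          · simp only [trap, add_im, mul_im, add_re, mul_re, ofReal_re, ofReal_im, sub_re, sub_im]
            rw [hQim, hQre, hRre]; field_simp; ring
        · right
          refine ⟨(τ - q) / (1 - q), div_nonneg (by linarith) (by linarith),
            (div_le_one (by linarith)).2 (by linarith), ?_⟩
          rw [g0, tent_right hq0 hq1 hτ, Gt_right hq0 hq1 hτ h1]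
          refine Prod.ext (Complex.ext ?_ ?_) ?_
          · simp only [add_re, mul_re, ofReal_re, ofReal_im, sub_re, sub_im, I_re, I_im]
            rw [hQre, hRre]; field_simp; ring
          · simp only [add_im, mul_im, ofReal_re, ofReal_im, sub_re, sub_im, I_re, I_im]
            rw [hQim]; field_simp; ring
          · simp only [trap, add_im, mul_im, add_re, mul_re, ofReal_re, ofReal_im, sub_re, sub_im]
            rw [hQim, hQre, hRre]; field_simp; ring
      · simp only [f, hc]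
        rw [add_sub_add_left_eq_sub, ← sub_mul, norm_mul, norm_I, mul_one, ← ofReal_sub, norm_real,
          Real.norm_eq_abs, ← mul_sub, abs_mul]
        exact le_trans (by gcongr; exact gt_close hθ0.le) hθ2
      · simp only [F, hc]
        rw [add_sub_add_left_eq_sub]
        exact hclose τ h0 h1
    · refine ⟨_, Or.inr (mem_image_of_mem _ ha), by simp [hε.le], ?_⟩
      simp only [F]
      rw [add_sub_add_left_eq_sub, ← hΔ, div_self hΔ0]
      have e : trap P Q + trap Q R - trap P R = η * Δ * Gt q 0 1 := by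
        rw [Gt_right hq0 hq1 hq1.le le_rfl]
        simp only [trap]
        rw [hQim, hQre, hRre]; field_simp; ring
      rw [e]
      exact hclose 1 zero_le_one le_rfl

/-- the planar part of the shear -/
noncomputable def sh (l : ℝ) (p : ℂ) : ℂ := p + l * p.im

lemma sh_sh (l : ℝ) (p : ℂ) : sh (-l) (sh l p) = p := by
  apply Complex.ext <;> simp [sh]

lemma sh_sh' (l : ℝ) (p : ℂ) : sh l (sh (-l) p) = p := by
  apply Complex.ext <;> simp [sh]

lemma shear_shear (l : ℝ) (a : ℂ × ℝ) : shear (-l) (shear l a) = a := by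
  refine Prod.ext (sh_sh l a.1) ?_
  simp [shear]; ring

lemma shear_edge (l : ℝ) (a b : ℂ) (z : ℝ) {p : ℂ × ℝ} (h : p ∈ edge a b z) :
    shear l p ∈ edge (sh l a) (sh l b) (z + l * a.im ^ 2 / 2) := by
  obtain ⟨s, h0, h1, rfl⟩ := h
  refine ⟨s, h0, h1, Prod.ext (Complex.ext ?_ ?_) ?_⟩
  · simp [shear, sh]; ring
  · simp [shear, sh]
  · simp only [shear, sh, trap, add_im, mul_im, add_re, mul_re, ofReal_re, ofReal_im, sub_re,
      sub_im]
    ring

lemma sh_tri (l : ℝ) {P Q R p : ℂ} (h : p ∈ tri P Q R) :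
    sh l p ∈ tri (sh l P) (sh l Q) (sh l R) := by
  obtain ⟨s, t, h0, h1, h2, rfl⟩ := h
  refine ⟨s, t, h0, h1, h2, Complex.ext ?_ ?_⟩
  · simp [sh]; ring
  · simp [sh]

lemma trap_sh (l : ℝ) (a b : ℂ) :
    trap (sh l a) (sh l b) = trap a b + l * (b.im ^ 2 - a.im ^ 2) / 2 := by
  simp [trap, sh]; ring

theorem ear {Λm Λp : Set (ℂ × ℝ)} {Km Kp : Set ℂ} {P Q R : ℂ} {z0 M l : ℝ}
    (hm : ∀ a ∈ Λm, a.1 ∈ Km) (hp : ∀ a ∈ Λp, a.1 ∈ Kp) (cm : IsClosed Km) (cp : IsClosed Kp)
    (hd : Disjoint Km Kp) (bm : ∀ p ∈ Km, |p.im| ≤ M ∧ p.re ≤ M)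
    (bp : ∀ p ∈ Kp, |p.im| ≤ M ∧ -M ≤ p.re)
    (tm : ∀ p ∈ Km, p ∈ tri P Q R → p = P) (tp : ∀ p ∈ Kp, p ∈ tri P Q R → p = R)
    (hs : 0 < ((sh l Q).re - (sh l P).re) * ((sh l R).re - (sh l Q).re))
    (h : Gen (Λm ∪ edge P R z0 ∪ Λp)) :
    Gen (Λm ∪ edge P Q z0 ∪ edge Q R (z0 + trap P Q) ∪
      (fun a => (a.1, a.2 + (trap P Q + trap Q R - trap P R))) '' Λp) := by
  have hcont : Continuous (sh (-l)) := by unfold sh; fun_prop
  have hM := le_abs_self M
  have hM0 := abs_nonneg M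
  have h1 : Gen (shear l '' Λm ∪ edge (sh l P) (sh l R) (z0 + l * P.im ^ 2 / 2) ∪ shear l '' Λp) := by
    refine (h.shear (M := |M| + |P.im| + |R.im|) ?_ l).mono ?_
    · rintro a ((ha | ⟨s, h0, h1, rfl⟩) | ha)
      · have := (bm _ (hm a ha)).1
        linarith [abs_nonneg P.im, abs_nonneg R.im]
      · have := im_seg_le P R h0 h1
        simp only
        linarith
      · have := (bp _ (hp a ha)).1
        linarith [abs_nonneg P.im, abs_nonneg R.im]
    · rintro _ ⟨a, (ha | ha) | ha, rfl⟩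
      · left; left; exact mem_image_of_mem _ ha
      · left; right; exact shear_edge l _ _ _ ha
      · right; exact mem_image_of_mem _ ha
  have hb : ∀ p : ℂ, |(sh (-l) p).im| ≤ M → |p.im| ≤ |M| + |l| * |M| ∧
      |p.re - (sh (-l) p).re| ≤ |l| * |M| := by
    intro p hp
    have e1 : (sh (-l) p).im = p.im := by simp [sh]
    have e2 : p.re - (sh (-l) p).re = l * p.im := by simp [sh]
    rw [e1] at hp
    rw [e2, abs_mul]
    have : |l| * |p.im| ≤ |l| * |M| := mul_le_mul_of_nonneg_left (hp.trans hM) (abs_nonneg _)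
    have : 0 ≤ |l| * |M| := by positivity
    exact ⟨by linarith, by linarith⟩
  have h2 := ear_vert (Km := sh (-l) ⁻¹' Km) (Kp := sh (-l) ⁻¹' Kp) (M := |M| + |l| * |M|)
    (by
      rintro _ ⟨a, ha, rfl⟩
      show sh (-l) (sh l a.1) ∈ Km
      rw [sh_sh]; exact hm a ha)
    (by
      rintro _ ⟨a, ha, rfl⟩
      show sh (-l) (sh l a.1) ∈ Kp
      rw [sh_sh]; exact hp a ha)
    (cm.preimage hcont) (cp.preimage hcont) (hd.preimage _)
    (fun p hp => by
      have h3 := bm _ hp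
      have h4 := hb p h3.1
      exact ⟨h4.1, by linarith [(abs_le.1 h4.2).2]⟩)
    (fun p hp => by
      have h3 := bp _ hp
      have h4 := hb p h3.1
      exact ⟨h4.1, by linarith [(abs_le.1 h4.2).1]⟩)
    (fun p hp ht => by
      have h3 := sh_tri (-l) ht
      simp only [sh_sh] at h3
      rw [← tm _ hp h3, sh_sh'])
    (fun p hp ht => by
      have h3 := sh_tri (-l) ht
      simp only [sh_sh] at h3
      rw [← tp _ hp h3, sh_sh'])
    hs h1
  have him : ∀ p, (sh l p).im = p.im := fun p => by simp [sh]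
  refine (h2.shear (M := |M| + |P.im| + |Q.im| + |R.im|) ?_ (-l)).mono ?_
  · have := abs_nonneg P.im
    have := abs_nonneg Q.im
    have := abs_nonneg R.im
    rintro _ (((⟨a, ha, rfl⟩ | ⟨s, h0, h1, rfl⟩) | ⟨s, h0, h1, rfl⟩) | ⟨_, ⟨a, ha, rfl⟩, rfl⟩)
    · have := (bm _ (hm a ha)).1
      have e : (shear l a).1.im = a.1.im := him _
      rw [e]; linarith
    · have := im_seg_le (sh l P) (sh l Q) h0 h1
      simp only [him] at this
      simp only
      linarith
    · have := im_seg_le (sh l Q) (sh l R) h0 h1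
      simp only [him] at this
      simp only
      linarith
    · have := (bp _ (hp a ha)).1
      have e : (shear l a).1.im = a.1.im := him _
      simp only [e]; linarith
  · rintro _ ⟨_, (((⟨a, ha, rfl⟩ | ha) | ha) | ⟨_, ⟨a, ha, rfl⟩, rfl⟩), rfl⟩
    · left; left; left; rwa [shear_shear]
    · left; left; right
      have := shear_edge (-l) _ _ _ ha
      simp only [sh_sh, him] at this
      convert this using 2; ring
    · left; right
      have := shear_edge (-l) _ _ _ ha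
      simp only [sh_sh, him, trap_sh] at this
      convert this using 2; ring
    · right
      refine ⟨a, ha, Prod.ext (sh_sh l a.1).symm ?_⟩
      simp only [trap_sh]
      simp [shear]; ring

end Pool.Agent.Lib.MP_5a3ebe_gt.H46
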