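import Pool.Agent.Lib.MP_5a3ebe_gt.H46Deform

/-! Sets of points of the 1-jet space that are approximated by generating functions. -/

namespace Pool.Agent.Lib.MP_5a3ebe_gt.H46

open Set Filter Topology Complex

/-- `Gen Λ`: there are functions, quadratic at infinity, whose almost fibre-critical points have
their 1-jets (position, slope, value) arbitrarily close to `Λ`. -/
def Gen (Λ : Set (ℂ × ℝ)) : Prop :=
  ∀ ε > 0, ∃ (F : Type) (_ : NormedAddCommGroup F) (_ : NormedSpace ℝ F) (S : ℝ × F → ℝ),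
    UC1 S ∧ QInf S ∧ ∃ δ > 0, ∀ m : ℝ × F, (∀ η : F, |fderiv ℝ S m (0, η)| ≤ δ * ‖η‖) →
      ∃ a ∈ Λ, |m.1 - a.1.re| ≤ ε ∧ |fderiv ℝ S m (1, 0) - a.1.im| ≤ ε ∧ |S m - a.2| ≤ ε

lemma gen_zero : Gen {a | a.1.im = 0 ∧ a.2 = 0} := by
  intro ε hε
  refine ⟨Fin 0 → ℝ, inferInstance, inferInstance, fun _ => 0, UC1.zero,
    ⟨_, diag_zero, 0, fun m => by simp⟩, 1, one_pos, fun m _ => ⟨((m.1 : ℂ), 0), by simp, ?_⟩⟩
  simp [hε.le]

lemma Gen.approx {Λ : Set (ℂ × ℝ)}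
    (h : ∀ ε > 0, ∃ Λ0, Gen Λ0 ∧ ∀ a ∈ Λ0, ∃ b ∈ Λ, ‖a.1 - b.1‖ ≤ ε ∧ |a.2 - b.2| ≤ ε) :
    Gen Λ := by
  intro ε hε
  obtain ⟨Λ0, h0, h1⟩ := h (ε / 2) (by linarith)
  obtain ⟨F, _, _, S, hS, hQ, δ, hδ, H⟩ := h0 (ε / 2) (by linarith)
  refine ⟨F, inferInstance, inferInstance, S, hS, hQ, δ, hδ, fun m hm => ?_⟩
  obtain ⟨a, ha, e1, e2, e3⟩ := H m hm
  obtain ⟨b, hb, e4, e5⟩ := h1 a ha
  have e6 := (abs_re_le_norm _).trans e4
  have e7 := (abs_im_le_norm _).trans e4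
  simp only [sub_re, sub_im] at e6 e7
  rw [abs_le] at *
  refine ⟨b, hb, abs_le.2 ⟨?_, ?_⟩, abs_le.2 ⟨?_, ?_⟩, abs_le.2 ⟨?_, ?_⟩⟩ <;> linarith

lemma Gen.mono {Λ Λ' : Set (ℂ × ℝ)} (h : Gen Λ) (hs : Λ ⊆ Λ') : Gen Λ' :=
  Gen.approx fun ε hε => ⟨Λ, h, fun a ha => ⟨a, hs ha, by simp [hε.le]⟩⟩

section step
variable {F : Type} [NormedAddCommGroup F] [NormedSpace ℝ F]

noncomputable def cU : ℝ × (F × (ℝ × ℝ)) →L[ℝ] ℝ :=
  (ContinuousLinearMap.fst ℝ ℝ ℝ).comp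
    ((ContinuousLinearMap.snd ℝ F (ℝ × ℝ)).comp (ContinuousLinearMap.snd ℝ ℝ _))
noncomputable def cY : ℝ × (F × (ℝ × ℝ)) →L[ℝ] ℝ :=
  (ContinuousLinearMap.snd ℝ ℝ ℝ).comp
    ((ContinuousLinearMap.snd ℝ F (ℝ × ℝ)).comp (ContinuousLinearMap.snd ℝ ℝ _))
noncomputable def cW : ℝ × (F × (ℝ × ℝ)) →L[ℝ] ℂ :=
  ofRealCLM.comp (ContinuousLinearMap.fst ℝ ℝ _) + (cY (F := F)).smulRight I
noncomputable def cS : ℝ × (F × (ℝ × ℝ)) →L[ℝ] ℝ × F :=
  ContinuousLinearMap.prod (ContinuousLinearMap.fst ℝ ℝ (F × (ℝ × ℝ)) - cU (F := F))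
    ((ContinuousLinearMap.fst ℝ F (ℝ × ℝ)).comp (ContinuousLinearMap.snd ℝ ℝ _))

@[simp] lemma cU_apply (m : ℝ × (F × (ℝ × ℝ))) : cU m = m.2.2.1 := rfl
@[simp] lemma cY_apply (m : ℝ × (F × (ℝ × ℝ))) : cY m = m.2.2.2 := rfl
@[simp] lemma cW_apply (m : ℝ × (F × (ℝ × ℝ))) : cW m = (m.1 : ℂ) + m.2.2.2 * I := rfl
@[simp] lemma cS_apply (m : ℝ × (F × (ℝ × ℝ))) : cS m = (m.1 - m.2.2.1, m.2.1) := rfl

end step

theorem Gen.step {Λ Λ' : Set (ℂ × ℝ)} (hΛ : Gen Λ) {W : ℂ → ℝ} (hW : UC1 W) {C : ℝ}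
    (hC : ∀ p, |W p| ≤ C)
    (H : ∀ ε > 0, ∃ η > 0, ∀ a ∈ Λ, ∀ X y u : ℝ, |X - u - a.1.re| ≤ η → |y - a.1.im| ≤ η →
      |u - fderiv ℝ W (X + y * I) I| ≤ η → ∃ b ∈ Λ', |X - b.1.re| ≤ ε ∧
        |y - fderiv ℝ W (X + y * I) 1 - b.1.im| ≤ ε ∧ |a.2 + y * u - W (X + y * I) - b.2| ≤ ε) :
    Gen Λ' := by
  intro ε hε
  obtain ⟨η, hη, H⟩ := H (ε / 2) (by linarith)
  have hm : 0 < min (η / 2) (ε / 2) := lt_min (by linarith) (by linarith)
  have hm1 := min_le_left (η / 2) (ε / 2)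
  have hm2 := min_le_right (η / 2) (ε / 2)
  obtain ⟨F, _, _, S, hS, ⟨Q, hQ, C', hC'⟩, δ, hδ, HS⟩ := hΛ _ hm
  let S' : ℝ × (F × (ℝ × ℝ)) → ℝ := fun m => cY m * cU m - W (cW m) + S (cS m)
  have hD : ∀ m v, fderiv ℝ S' m v =
      cY m * cU v + cU m * cY v - fderiv ℝ W (cW m) (cW v) + fderiv ℝ S (cS m) (cS v) := by
    intro m v
    have := (((cY.hasFDerivAt (x := m)).mul cU.hasFDerivAt).sub
      ((hW.1 (cW m)).hasFDerivAt.comp m (cW (F := F)).hasFDerivAt)).add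
      ((hS.1 (cS m)).hasFDerivAt.comp m (cS (F := F)).hasFDerivAt)
    have e := this.fderiv
    change fderiv ℝ S' m = _ at e
    rw [e]
    simp
  refine ⟨F × (ℝ × ℝ), inferInstance, inferInstance, S',
    ((UC1.mul_clm cY cU).sub (hW.comp cW)).add (hS.comp cS),
    ⟨_, hQ.prod diag_hyp, C + |C'|, fun m => ?_⟩, min δ (min (η / 2) (ε / 2)), lt_min hδ hm,
    fun m hm' => ?_⟩
  · have h1 := hC' (cS m)
    have h2 := hC (cW m)
    have h3 : ‖(cS m).2‖ ≤ ‖m.2‖ := norm_fst_le m.2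
    have h4 : C' * (1 + ‖(cS m).2‖) ≤ |C'| * (1 + ‖m.2‖) :=
      (mul_le_mul_of_nonneg_right (le_abs_self _) (by positivity)).trans (by gcongr)
    have h5 : 0 ≤ C := (abs_nonneg _).trans h2
    have h6 : 0 ≤ C * ‖m.2‖ := by positivity
    have e : S' m - (Q m.2.1 + m.2.2.2 * m.2.2.1) = (S (cS m) - Q (cS m).2) - W (cW m) := by
      simp [S']; ring
    rw [e]
    refine (abs_sub _ _).trans ?_
    nlinarith
  · have hδ1 := min_le_left δ (min (η / 2) (ε / 2))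
    have hδ2 := min_le_right δ (min (η / 2) (ε / 2))
    obtain ⟨a, ha, e1, e2, e3⟩ := HS (cS m) (fun ξ => by
      have := hm' (ξ, (0, 0))
      rw [hD] at this
      simp only [cU_apply, cY_apply, cW_apply, cS_apply, mul_zero, ofReal_zero, zero_mul, add_zero,
        map_zero, sub_zero, zero_add, Prod.norm_mk, norm_zero, max_self] at this
      rw [max_eq_left (norm_nonneg _)] at this
      exact this.trans (by gcongr))
    have e4 := hm' (0, (1, 0))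
    have e5 := hm' (0, (0, 1))
    rw [hD] at e4 e5
    have e6 : fderiv ℝ S (cS m) (-1, 0) = - fderiv ℝ S (cS m) (1, 0) := by
      rw [← map_neg]; simp
    have e7 : fderiv ℝ S (cS m) (0, 0) = 0 := map_zero _
    simp only [cU_apply, cY_apply, cW_apply, cS_apply, mul_zero, ofReal_zero, zero_mul, add_zero,
      map_zero, sub_zero, zero_add, Prod.norm_mk, norm_zero, norm_one, mul_one, zero_sub,
      ofReal_one, one_mul, zero_le_one, max_eq_left, max_eq_right] at e4 e5 e1 e2 e3 e6 e7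
    rw [e6] at e4
    rw [e7] at e5
    rw [abs_le] at e1 e2 e3 e4 e5
    obtain ⟨b, hb, f1, f2, f3⟩ := H a ha m.1 m.2.2.2 m.2.2.1 (abs_le.2 ⟨by linarith, by linarith⟩)
      (abs_le.2 ⟨by linarith, by linarith⟩) (abs_le.2 ⟨by linarith, by linarith⟩)
    refine ⟨b, hb, by linarith, ?_, ?_⟩
    · rw [hD]
      simp only [cU_apply, cY_apply, cW_apply, cS_apply, Prod.fst_zero, Prod.snd_zero, mul_zero,
        ofReal_zero, zero_mul, add_zero, ofReal_one, sub_zero, zero_sub]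
      rw [abs_le] at f2 ⊢
      constructor <;> linarith
    · simp only [S', cU_apply, cY_apply, cW_apply, cS_apply]
      rw [abs_le] at f3 ⊢
      constructor <;> linarith

/-- horizontal shear -/
noncomputable def shear (l : ℝ) (a : ℂ × ℝ) : ℂ × ℝ :=
  (a.1 + l * a.1.im, a.2 + l * a.1.im ^ 2 / 2)

theorem Gen.shear {Λ : Set (ℂ × ℝ)} (hΛ : Gen Λ) {M : ℝ} (hM : ∀ a ∈ Λ, |a.1.im| ≤ M) (l : ℝ) :
    Gen (shear l '' Λ) := by
  let φ : ContDiffBump (0 : ℝ) := ⟨|M| + 2, |M| + 3, by positivity, by linarith⟩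
  let G : ℝ → ℝ := fun y => φ y * (l * y ^ 2 / 2)
  have hG : ContDiff ℝ 1 G := (φ.contDiff (n := 1)).mul (by fun_prop)
  have hGc : HasCompactSupport G := φ.hasCompactSupport.mul_right
  obtain ⟨C, hC⟩ := hGc.exists_bound_of_continuous hG.continuous
  have hU := (UC1.of_compact hG (hGc.fderiv ℝ)).1
  have hG1 : ∀ y, |y| ≤ |M| + 1 → G =ᶠ[𝓝 y] fun y => l * y ^ 2 / 2 := by
    intro y hy
    have : Metric.ball (0 : ℝ) (|M| + 2) ∈ 𝓝 y :=
      Metric.isOpen_ball.mem_nhds (by simp; linarith)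
    filter_upwards [this] with z hz
    simp only [G]
    rw [φ.one_of_mem_closedBall (Metric.ball_subset_closedBall hz), one_mul]
  have hD : ∀ p v : ℂ, |p.im| ≤ |M| + 1 →
      fderiv ℝ (fun p : ℂ => G (imCLM p)) p v = l * p.im * v.im := by
    intro p v hp
    have h1 : HasDerivAt (fun y : ℝ => l * y ^ 2 / 2) (l * p.im) p.im := by
      have := ((hasDerivAt_pow 2 p.im).const_mul l).div_const 2
      refine this.congr_deriv ?_
      norm_num; ring
    have h2 := (h1.congr_of_eventuallyEq (hG1 _ hp)).hasFDerivAt.comp p imCLM.hasFDerivAt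
    have e := h2.fderiv
    change fderiv ℝ (fun p : ℂ => G (imCLM p)) p = _ at e
    rw [e]; simp; ring
  refine hΛ.step (hU.comp imCLM) (C := C) (fun p => hC _) fun ε hε => ?_
  have hK : 0 < (|l| + 2) * (|M| + 1) := by positivity
  refine ⟨min 1 (ε / ((|l| + 2) * (|M| + 1))), lt_min one_pos (by positivity), ?_⟩
  intro a ha X y u e1 e2 e3
  set η := min 1 (ε / ((|l| + 2) * (|M| + 1)))
  have hη1 : η ≤ 1 := min_le_left _ _
  have hη2 : η * ((|l| + 2) * (|M| + 1)) ≤ ε := (le_div_iff₀ hK).1 (min_le_right _ _)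
  have hη0 : 0 ≤ η := (abs_nonneg _).trans e1
  have ha' := (hM a ha).trans (le_abs_self M)
  have hy : |y| ≤ |M| + 1 := by
    have := abs_sub_abs_le_abs_sub y a.1.im
    linarith
  have hy' : |((X : ℂ) + y * I).im| ≤ |M| + 1 := by simpa using hy
  rw [hD _ _ hy'] at e3
  refine ⟨_, mem_image_of_mem _ ha, ?_, ?_, ?_⟩
  · have e : X - (H46.shear l a).1.re = (X - u - a.1.re) + (u - l * y) + l * (y - a.1.im) := by
      simp [H46.shear]; ring
    rw [e]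
    have h1 : |l * (y - a.1.im)| ≤ |l| * η := by rw [abs_mul]; gcongr
    have h2 : |u - l * y| ≤ η := by simpa using e3
    have := abs_add_three (X - u - a.1.re) (u - l * y) (l * (y - a.1.im))
    nlinarith [abs_nonneg l, abs_nonneg M, mul_nonneg hη0 (abs_nonneg M),
      mul_nonneg (mul_nonneg hη0 (abs_nonneg M)) (abs_nonneg l)]
  · rw [hD _ _ hy']
    have : |y - a.1.im| ≤ ε := by
      nlinarith [abs_nonneg l, abs_nonneg M, mul_nonneg hη0 (abs_nonneg M),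
        mul_nonneg (mul_nonneg hη0 (abs_nonneg M)) (abs_nonneg l), mul_nonneg hη0 (abs_nonneg l)]
    simpa [H46.shear] using this
  · have e0 : G (imCLM ((X : ℂ) + y * I)) = l * y ^ 2 / 2 := by
      have := (hG1 y hy).self_of_nhds
      simpa using this
    have e : a.2 + y * u - G (imCLM ((X : ℂ) + y * I)) - (H46.shear l a).2 =
        y * (u - l * y) + l * ((y - a.1.im) * ((y + a.1.im) / 2)) := by
      rw [e0]; simp [H46.shear]; ring
    rw [e]
    have h2 : |u - l * y| ≤ η := by simpa using e3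
    have h1 : |y * (u - l * y)| ≤ (|M| + 1) * η := by rw [abs_mul]; gcongr
    have h3 : |(y + a.1.im) / 2| ≤ |M| + 1 := by
      rw [abs_div, abs_two]
      have := abs_add_le y a.1.im
      linarith
    have h4 : |l * ((y - a.1.im) * ((y + a.1.im) / 2))| ≤ |l| * (η * (|M| + 1)) := by
      rw [abs_mul, abs_mul]; gcongr
    have := abs_add_le (y * (u - l * y)) (l * ((y - a.1.im) * ((y + a.1.im) / 2)))
    nlinarith [mul_nonneg hη0 (abs_nonneg M)]

theorem Gen.vstep {Λ : Set (ℂ × ℝ)} (hΛ : Gen Λ) {M : ℝ} (hM : ∀ a ∈ Λ, |a.1.im| ≤ M)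
    {w : ℂ → ℝ} (hw : UC1 w) {C ρ : ℝ} (hC : ∀ p, |w p| ≤ C) (hρ : 0 < ρ)
    (hD : ∀ p, ‖fderiv ℝ w p‖ ≤ ρ / 4)
    (h0 : ∀ a ∈ Λ, ∀ q, dist q a.1 < ρ → fderiv ℝ w q I = 0) :
    Gen ((fun a : ℂ × ℝ => (a.1 + fderiv ℝ w a.1 1 * I, a.2 + w a.1)) '' Λ) := by
  have hneg : ∀ p v, fderiv ℝ (fun p => - w p) p v = - fderiv ℝ w p v := by
    intro p v
    have e := ((hw.1 p).hasFDerivAt.neg).fderiv
    change fderiv ℝ (fun p => - w p) p = _ at e
    rw [e]; simp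
  refine hΛ.step hw.neg (C := C) (fun p => by simpa using hC p) fun ε hε => ?_
  obtain ⟨η1, hη1, H1⟩ := Metric.uniformContinuous_iff.1 hw.2 (ε / 2) (by linarith)
  have hK : 0 < |M| + 2 + ρ := by positivity
  refine ⟨min (min 1 (ρ / 8)) (min (η1 / 4) (ε / (|M| + 2 + ρ))),
    lt_min (lt_min one_pos (by positivity)) (lt_min (by positivity) (by positivity)), ?_⟩
  intro a ha X y u e1 e2 e3
  set η := min (min 1 (ρ / 8)) (min (η1 / 4) (ε / (|M| + 2 + ρ)))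
  have hη1' : η ≤ 1 := (min_le_left _ _).trans (min_le_left _ _)
  have hη2 : η ≤ ρ / 8 := (min_le_left _ _).trans (min_le_right _ _)
  have hη3 : η ≤ η1 / 4 := (min_le_right _ _).trans (min_le_left _ _)
  have hη4 : η * (|M| + 2 + ρ) ≤ ε :=
    (le_div_iff₀ hK).1 ((min_le_right _ _).trans (min_le_right _ _))
  have hη0 : 0 ≤ η := (abs_nonneg _).trans e1
  have ha' := (hM a ha).trans (le_abs_self M)
  set q : ℂ := X + y * I with hq
  have hd : dist q a.1 ≤ 2 * η + |u| := by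
    rw [dist_eq_norm]
    refine (norm_le_abs_re_add_abs_im _).trans ?_
    have h1 : (q - a.1).re = (X - u - a.1.re) + u := by simp [hq]; ring
    have h2 : (q - a.1).im = y - a.1.im := by simp [hq]
    rw [h1, h2]
    have := abs_add_le (X - u - a.1.re) u
    linarith
  rw [hneg] at e3
  have hu : |u| ≤ η + ρ / 4 := by
    have h1 : |fderiv ℝ w q I| ≤ ρ / 4 := by
      have := (fderiv ℝ w q).le_opNorm I
      rw [norm_I, mul_one, Real.norm_eq_abs] at this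
      exact this.trans (hD q)
    rw [abs_le] at *
    constructor <;> linarith
  rw [h0 a ha q (by linarith), neg_zero, sub_zero] at e3
  have hM0 := abs_nonneg M
  refine ⟨_, mem_image_of_mem _ ha, ?_, ?_, ?_⟩
  · have e : X - (a.1 + fderiv ℝ w a.1 1 * I).re = (X - u - a.1.re) + u := by
      simp; ring
    rw [e]
    have := abs_add_le (X - u - a.1.re) u
    nlinarith
  · rw [hneg]
    have e : y - -fderiv ℝ w q 1 - (a.1 + fderiv ℝ w a.1 1 * I).im =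
        (y - a.1.im) + (fderiv ℝ w q - fderiv ℝ w a.1) 1 := by simp; ring
    rw [e]
    have h1 := H1 (a := q) (b := a.1) (by linarith)
    rw [dist_eq_norm] at h1
    have h2 := (fderiv ℝ w q - fderiv ℝ w a.1).le_opNorm 1
    rw [norm_one, mul_one, Real.norm_eq_abs] at h2
    have := abs_add_le (y - a.1.im) ((fderiv ℝ w q - fderiv ℝ w a.1) 1)
    nlinarith
  · have e : a.2 + y * u - -w q - (a.2 + w a.1) = y * u + (w q - w a.1) := by ring
    rw [e]
    have h1 : ‖w q - w a.1‖ ≤ ρ / 4 * ‖q - a.1‖ :=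
      Convex.norm_image_sub_le_of_norm_fderiv_le (fun x _ => hw.1 x) (fun x _ => hD x)
        convex_univ (mem_univ _) (mem_univ _)
    rw [Real.norm_eq_abs, ← dist_eq_norm] at h1
    have hy : |y| ≤ |M| + 1 := by
      have := abs_sub_abs_le_abs_sub y a.1.im
      linarith
    have h2 : |y * u| ≤ (|M| + 1) * η := by rw [abs_mul]; gcongr
    have h3 : ρ / 4 * dist q a.1 ≤ ρ / 4 * (3 * η) := by gcongr; linarith
    have := abs_add_le (y * u) (w q - w a.1)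
    nlinarith

lemma fderiv_dir {w : ℂ → ℝ} {q v : ℂ} {g : ℝ → ℝ} {f : ℝ}
    (hg : HasDerivAt g f q.re) (h : w =ᶠ[𝓝 q] fun p => g p.re) :
    fderiv ℝ w q v = f * v.re := by
  have h2 := (hg.hasFDerivAt.comp q reCLM.hasFDerivAt).congr_of_eventuallyEq h
  rw [h2.fderiv]; simp; ring

/-- vertical push -/
theorem Gen.push {Λ Λ' : Set (ℂ × ℝ)} (hΛ : Gen Λ) {M : ℝ} (hM : ∀ a ∈ Λ, |a.1.im| ≤ M)
    {w : ℂ → ℝ} (hw : UC1 w) {C ρ : ℝ} (hC : ∀ p, |w p| ≤ C) (hρ : 0 < ρ)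
    (hD : ∀ p, ‖fderiv ℝ w p‖ ≤ C)
    (H : ∀ a ∈ Λ, ∃ g f : ℝ → ℝ, (∀ x, HasDerivAt g (f x) x) ∧
      (∀ t : ℝ, 0 ≤ t → t ≤ 1 → ∀ q, dist q (a.1 + t * f a.1.re * I) < ρ → w q = g q.re) ∧
      (a.1 + f a.1.re * I, a.2 + g a.1.re) ∈ Λ') : Gen Λ' := by
  have hC0 : 0 ≤ C := (abs_nonneg _).trans (hC 0)
  obtain ⟨N, hN⟩ := exists_nat_ge (4 * C / ρ + 1)
  have hN0 : (0 : ℝ) < N := lt_of_lt_of_le (by positivity) hN
  have hsm : ∀ p v, fderiv ℝ (fun p => (N : ℝ)⁻¹ * w p) p v = (N : ℝ)⁻¹ * fderiv ℝ w p v := by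
    intro p v
    rw [((hw.1 p).hasFDerivAt.const_mul _).fderiv]; simp
  have hloc : ∀ a ∈ Λ, ∀ t : ℝ, 0 ≤ t → t ≤ 1 → ∀ q,
      dist q (a.1 + t * fderiv ℝ w a.1 1 * I) < ρ → fderiv ℝ w q I = 0 ∧
        (q.re = a.1.re → fderiv ℝ w q 1 = fderiv ℝ w a.1 1 ∧ w q = w a.1) := by
    intro a ha t ht0 ht1 q hq
    obtain ⟨g, f, hg, h1, -⟩ := H a ha
    have h2 : ∀ t : ℝ, 0 ≤ t → t ≤ 1 → ∀ q, dist q (a.1 + t * f a.1.re * I) < ρ →
        ∀ v, fderiv ℝ w q v = f q.re * v.re := by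
      intro t ht0 ht1 q hq v
      refine fderiv_dir (hg _) ?_
      filter_upwards [Metric.isOpen_ball.mem_nhds (Metric.mem_ball.2 hq)] with p hp
      exact h1 t ht0 ht1 p hp
    have h3 : fderiv ℝ w a.1 1 = f a.1.re := by
      rw [h2 0 le_rfl zero_le_one a.1 (by simpa using hρ)]; simp
    rw [h3] at hq ⊢
    refine ⟨by rw [h2 t ht0 ht1 q hq]; simp, fun hre => ⟨by rw [h2 t ht0 ht1 q hq, hre]; simp, ?_⟩⟩
    rw [h1 t ht0 ht1 q hq, h1 0 le_rfl zero_le_one a.1 (by simpa using hρ), hre]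
  have key : ∀ k : ℕ, k ≤ N → Gen ((fun a : ℂ × ℝ =>
      (a.1 + (k / N : ℝ) * fderiv ℝ w a.1 1 * I, a.2 + k / N * w a.1)) '' Λ) := by
    intro k
    induction k with
    | zero => intro _; simpa using hΛ
    | succ k ih =>
      intro hk
      have ht0 : (0 : ℝ) ≤ k / N := by positivity
      have ht1 : (k / N : ℝ) ≤ 1 := by
        rw [div_le_one hN0]; exact_mod_cast (by omega : k ≤ N)
      have := (ih (by omega)).vstep (M := M + C) ?_ (hw.const_mul (N : ℝ)⁻¹) (C := (N : ℝ)⁻¹ * C)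
        (fun p => by rw [abs_mul, abs_of_pos (inv_pos.2 hN0)]; gcongr; exact hC p) hρ ?_ ?_
      · refine this.mono ?_
        rintro _ ⟨_, ⟨a, ha, rfl⟩, rfl⟩
        refine ⟨a, ha, ?_⟩
        obtain ⟨-, h1⟩ := hloc a ha _ ht0 ht1 _ (by rw [dist_self]; exact hρ)
        obtain ⟨h2, h3⟩ := h1 (by simp)
        simp only [hsm]
        rw [h2, h3]
        ext
        · push_cast; field_simp; ring
        · push_cast; field_simp; ring
      · rintro _ ⟨a, ha, rfl⟩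
        have h1 : |fderiv ℝ w a.1 1| ≤ C := by
          have := (fderiv ℝ w a.1).le_opNorm 1
          rw [norm_one, mul_one, Real.norm_eq_abs] at this
          exact this.trans (hD _)
        have e : (a.1 + (k / N : ℝ) * fderiv ℝ w a.1 1 * I).im =
            a.1.im + k / N * fderiv ℝ w a.1 1 := by
          simp only [add_im, mul_im, mul_re, ofReal_re, ofReal_im, I_re, I_im]; ring
        simp only [e]
        have h2 : |k / N * fderiv ℝ w a.1 1| ≤ 1 * C := by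
          rw [abs_mul, abs_of_nonneg ht0]; gcongr
        have := abs_add_le a.1.im (k / N * fderiv ℝ w a.1 1)
        have := hM a ha
        linarith
      · intro p
        rw [((hw.1 p).hasFDerivAt.const_mul _).fderiv, norm_smul, Real.norm_eq_abs,
          abs_of_pos (inv_pos.2 hN0), inv_mul_le_iff₀ hN0]
        have h1 : 4 * C / ρ ≤ N := by linarith
        rw [div_le_iff₀ hρ] at h1
        have := hD p
        linarith
      · rintro _ ⟨a, ha, rfl⟩ q hq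
        rw [hsm, (hloc a ha _ ht0 ht1 q hq).1, mul_zero]
  refine (key N le_rfl).mono ?_
  rintro _ ⟨a, ha, rfl⟩
  obtain ⟨g, f, hg, h1, h2⟩ := H a ha
  have h3 : fderiv ℝ w a.1 1 = f a.1.re := by
    rw [fderiv_dir (hg _) (q := a.1)]
    · simp
    · filter_upwards [Metric.ball_mem_nhds a.1 hρ] with p hp
      exact h1 0 le_rfl zero_le_one p (by simpa using hp)
  have h4 := h1 0 le_rfl zero_le_one a.1 (by simpa using hρ)
  simpa [div_self hN0.ne', h3, h4] using h2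

end Pool.Agent.Lib.MP_5a3ebe_gt.H46
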