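import Pool.Agent.Lib.MP_5a3ebe_gt.H46Gen

/-! The Hamiltonian used to push a segment across a triangle, and tent functions. -/

namespace Pool.Agent.Lib.MP_5a3ebe_gt.H46

open Set Filter Topology Complex
open scoped Manifold

lemma sep {K C : Set ℂ} (hK : IsCompact K) (hC : IsClosed C) (hd : Disjoint K C) :
    ∃ d > 0, ∀ p ∈ K, ∀ q ∈ C, d ≤ dist q p := by
  obtain ⟨d, hd0, h⟩ := hK.exists_thickening_subset_open hC.isOpen_compl
    (subset_compl_iff_disjoint_right.2 hd)
  refine ⟨d, hd0, fun p hp q hq => ?_⟩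
  by_contra hlt
  exact h (Metric.mem_thickening_iff.2 ⟨p, hp, not_le.1 hlt⟩) hq

lemma uc1_trans : UC1 Real.smoothTransition ∧ ∃ C, ∀ m, ‖fderiv ℝ Real.smoothTransition m‖ ≤ C := by
  refine UC1.of_compact Real.smoothTransition.contDiff
    (HasCompactSupport.intro (isCompact_Icc (a := (0 : ℝ)) (b := 1)) fun x hx => ?_)
  rw [mem_Icc, not_and_or, not_le, not_le] at hx
  rcases hx with hx | hx
  · have : Real.smoothTransition =ᶠ[𝓝 x] fun _ => 0 := by
      filter_upwards [Iio_mem_nhds hx] with y hy using Real.smoothTransition.zero_of_nonpos hy.le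
    rw [this.fderiv_eq]; simp
  · have : Real.smoothTransition =ᶠ[𝓝 x] fun _ => 1 := by
      filter_upwards [Ioi_mem_nhds hx] with y hy using Real.smoothTransition.one_of_one_le hy.le
    rw [this.fderiv_eq]; simp

theorem exists_w {Km Kp K0 : Set ℂ} {P R : ℂ} {M r0 α : ℝ} {F : ℝ → ℝ} (hF : ContDiff ℝ 1 F)
    (cm : IsClosed Km) (cp : IsClosed Kp) (c0 : IsCompact K0) (hd : Disjoint Km Kp)
    (bm : ∀ p ∈ Km, |p.im| ≤ M ∧ p.re ≤ M) (bp : ∀ p ∈ Kp, |p.im| ≤ M ∧ -M ≤ p.re)
    (tm : ∀ p ∈ Km, p ∈ K0 → p = P) (tp : ∀ p ∈ Kp, p ∈ K0 → p = R) (hr0 : 0 < r0)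
    (hP : ∀ x, |x - P.re| ≤ r0 → F x = 0) (hR : ∀ x, |x - R.re| ≤ r0 → F x = α) :
    ∃ (w : ℂ → ℝ) (C ρ : ℝ), UC1 w ∧ (∀ p, |w p| ≤ C) ∧ (∀ p, ‖fderiv ℝ w p‖ ≤ C) ∧ 0 < ρ ∧
      (∀ k ∈ Km, ∀ q, dist q k < ρ → w q = 0) ∧ (∀ k ∈ K0, ∀ q, dist q k < ρ → w q = F q.re) ∧
      (∀ k ∈ Kp, ∀ q, dist q k < ρ → w q = α) := by
  obtain ⟨d1, hd1, H1⟩ := sep (c0.diff (Metric.isOpen_ball (x := P) (ε := r0 / 2))) cm
    (disjoint_left.2 fun p hp hq => hp.2 (by rw [tm p hq hp.1]; exact Metric.mem_ball_self (by linarith)))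
  obtain ⟨d2, hd2, H2⟩ := sep (c0.diff (Metric.isOpen_ball (x := R) (ε := r0 / 2))) cp
    (disjoint_left.2 fun p hp hq => hp.2 (by rw [tp p hq hp.1]; exact Metric.mem_ball_self (by linarith)))
  obtain ⟨d3, hd3, H3⟩ : ∃ d > 0, ∀ p ∈ Km, ∀ q ∈ Kp, d ≤ dist q p := by
    have hc : IsCompact (Km ∩ Metric.closedBall 0 (2 * |M| + 1)) :=
      (isCompact_closedBall _ _).inter_left cm
    obtain ⟨d, hd0, H⟩ := sep hc cp (hd.mono_left inter_subset_left)
    refine ⟨min d 1, lt_min hd0 one_pos, fun p hp q hq => ?_⟩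
    by_cases h : ‖p‖ ≤ 2 * |M| + 1
    · exact (min_le_left _ _).trans (H p ⟨hp, by simpa using h⟩ q hq)
    · refine (min_le_right _ _).trans ?_
      have h1 := norm_le_abs_re_add_abs_im p
      have h2 := bm p hp
      have h3 := bp q hq
      have h4 := le_abs_self M
      have h5 := (le_abs_self _).trans (abs_re_le_norm (q - p))
      rw [dist_eq_norm]
      rw [sub_re] at h5
      rcases abs_cases p.re with h6 | h6 <;> linarith [abs_nonneg M]
  obtain ⟨B, hB⟩ := c0.isBounded.exists_norm_le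
  set ρ := min (min (r0 / 6) 1) (min (d1 / 4) (min (d2 / 4) (d3 / 4))) with hρ
  have hρ0 : 0 < ρ := by positivity
  have hρ1 : ρ ≤ r0 / 6 := (min_le_left _ _).trans (min_le_left _ _)
  have hρ2 : ρ ≤ 1 := (min_le_left _ _).trans (min_le_right _ _)
  have hρ3 : ρ ≤ d1 / 4 := (min_le_right _ _).trans (min_le_left _ _)
  have hρ4 : ρ ≤ d2 / 4 := (min_le_right _ _).trans ((min_le_right _ _).trans (min_le_left _ _))
  have hρ5 : ρ ≤ d3 / 4 := (min_le_right _ _).trans ((min_le_right _ _).trans (min_le_right _ _))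
  set L := |B| + 2 * |M| + 6 with hL
  let χ : ℂ → ℝ := fun p => α * Real.smoothTransition (reCLM p)
  have hχ : ContDiff ℝ 1 χ :=
    contDiff_const.mul (Real.smoothTransition.contDiff.comp reCLM.contDiff)
  have hM := le_abs_self M
  have hM0 := abs_nonneg M
  have hB' := le_abs_self B
  have hB0 := abs_nonneg B
  obtain ⟨w, hw⟩ := exists_contMDiffMap_forall_mem_convex_of_local (n := 1) 𝓘(ℝ, ℂ) (F := ℝ)
    (t := fun y : ℂ => {v : ℝ | ((∃ k ∈ Km, dist y k < ρ) → v = 0) ∧
      ((∃ k ∈ K0, dist y k < ρ) → v = F y.re) ∧ ((∃ k ∈ Kp, dist y k < ρ) → v = α) ∧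
      (L ≤ ‖y‖ → v = χ y)}) (fun y => by
      have key : ∀ (c : ℝ) (p : Prop), Convex ℝ {v : ℝ | p → v = c} := by
        intro c p
        by_cases h : p
        · simp [h]
        · simpa [h] using convex_univ
      exact (key _ _).inter ((key _ _).inter ((key _ _).inter (key _ _)))) (fun y0 => by
      refine ⟨Metric.ball y0 ρ, Metric.ball_mem_nhds _ hρ0, ?_⟩
      have hn : ∀ y k : ℂ, dist y k < ρ → ‖y‖ - 1 ≤ ‖k‖ ∧ ‖k‖ ≤ ‖y‖ + 1 ∧ |y.re - k.re| ≤ 1 := by
        intro y k h
        rw [dist_eq_norm] at h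
        have h1 := abs_le.1 (abs_norm_sub_norm_le y k)
        have h2 := abs_re_le_norm (y - k)
        rw [sub_re] at h2
        exact ⟨by linarith, by linarith, by linarith⟩
      have htri : ∀ y k : ℂ, y ∈ Metric.ball y0 ρ → dist y k < ρ → dist y0 k < 2 * ρ := by
        intro y k h1 h2
        have := dist_triangle_left y0 k y
        rw [Metric.mem_ball] at h1
        linarith
      by_cases hfar : L - 1 ≤ ‖y0‖
      · refine ⟨χ, hχ.contMDiff.contMDiffOn, fun y hy => ⟨?_, ?_, ?_, fun _ => rfl⟩⟩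
        · rintro ⟨k, hk, h⟩
          have h1 := hn y k h
          have h2 := hn y y0 hy
          have h3 := norm_le_abs_re_add_abs_im k
          have h4 := bm k hk
          have h5 := abs_le.1 h1.2.2
          have : y.re ≤ 0 := by rcases abs_cases k.re with h6 | h6 <;> linarith
          simp [χ, Real.smoothTransition.zero_of_nonpos this]
        · rintro ⟨k, hk, h⟩
          have h1 := hn y k h
          have h2 := hn y y0 hy
          have := hB k hk
          linarith
        · rintro ⟨k, hk, h⟩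
          have h1 := hn y k h
          have h2 := hn y y0 hy
          have h3 := norm_le_abs_re_add_abs_im k
          have h4 := bp k hk
          have h5 := abs_le.1 h1.2.2
          have : 1 ≤ y.re := by rcases abs_cases k.re with h6 | h6 <;> linarith
          simp [χ, Real.smoothTransition.one_of_one_le this]
      · have hf : ∀ y ∈ Metric.ball y0 ρ, ¬ L ≤ ‖y‖ := fun y hy h => by
          have := hn y y0 hy
          linarith
        by_cases h0 : ∃ k ∈ K0, dist y0 k < 2 * ρ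
        · obtain ⟨k0, hk0, h0⟩ := h0
          have hcl : ∀ y ∈ Metric.ball y0 ρ, ∀ A : ℂ, k0 ∈ Metric.ball A (r0 / 2) →
              |y.re - A.re| ≤ r0 := by
            intro y hy A hA
            have h1 := dist_triangle4 y y0 k0 A
            have h2 := abs_re_le_norm (y - A)
            rw [sub_re, ← dist_eq_norm] at h2
            rw [Metric.mem_ball] at hy hA
            linarith
          refine ⟨fun y => F (reCLM y), (hF.comp reCLM.contDiff).contMDiff.contMDiffOn,
            fun y hy => ⟨?_, fun _ => rfl, ?_, fun h => (hf y hy h).elim⟩⟩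
          · rintro ⟨k, hk, h⟩
            refine hP _ (hcl y hy P ?_)
            by_contra hc
            have h1 := H1 k0 ⟨hk0, hc⟩ k hk
            have h2 := htri y k hy h
            have := dist_triangle_left k k0 y0
            linarith
          · rintro ⟨k, hk, h⟩
            refine hR _ (hcl y hy R ?_)
            by_contra hc
            have h1 := H2 k0 ⟨hk0, hc⟩ k hk
            have h2 := htri y k hy h
            have := dist_triangle_left k k0 y0
            linarith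
        · by_cases h1 : ∃ k ∈ Km, dist y0 k < 2 * ρ
          · obtain ⟨k1, hk1, h1⟩ := h1
            refine ⟨fun _ => 0, contMDiffOn_const, fun y hy => ⟨fun _ => rfl, ?_, ?_,
              fun h => (hf y hy h).elim⟩⟩
            · rintro ⟨k, hk, h⟩
              exact (h0 ⟨k, hk, htri y k hy h⟩).elim
            · rintro ⟨k, hk, h⟩
              have h2 := H3 k1 hk1 k hk
              have h3 := htri y k hy h
              have := dist_triangle_left k k1 y0
              linarith
          · refine ⟨fun _ => α, contMDiffOn_const, fun y hy => ⟨?_, ?_, fun _ => rfl,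
              fun h => (hf y hy h).elim⟩⟩
            · rintro ⟨k, hk, h⟩
              exact (h1 ⟨k, hk, htri y k hy h⟩).elim
            · rintro ⟨k, hk, h⟩
              exact (h0 ⟨k, hk, htri y k hy h⟩).elim)
  have hwc : ContDiff ℝ 1 w := w.contMDiff.contDiff
  have hc : HasCompactSupport (fun p => w p - χ p) := by
    refine HasCompactSupport.intro (isCompact_closedBall (0 : ℂ) L) fun p hp => ?_
    rw [(hw p).2.2.2 (by simp at hp; exact hp.le), sub_self]
  obtain ⟨hU, C1, hC1⟩ := UC1.of_compact (hwc.sub hχ) (hc.fderiv ℝ)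
  obtain ⟨C2, hC2⟩ := hc.exists_bound_of_continuous (hwc.sub hχ).continuous
  obtain ⟨hT, C3, hC3⟩ := uc1_trans
  have hχU : UC1 χ := (hT.comp reCLM).const_mul α
  have e : (w : ℂ → ℝ) = fun p => (w p - χ p) + χ p := by ext; ring
  have hC1' : 0 ≤ C1 := (norm_nonneg _).trans (hC1 0)
  have hC2' : 0 ≤ C2 := (norm_nonneg _).trans (hC2 0)
  have hC3' : 0 ≤ C3 := (norm_nonneg _).trans (hC3 0)
  refine ⟨w, C1 + C2 + |α| * (1 + C3), ρ, e ▸ hU.add hχU, fun p => ?_, fun p => ?_, hρ0,
    fun k hk q h => (hw q).1 ⟨k, hk, h⟩, fun k hk q h => (hw q).2.1 ⟨k, hk, h⟩,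
    fun k hk q h => (hw q).2.2.1 ⟨k, hk, h⟩⟩
  · have h1 := hC2 p
    have h2 : |χ p| ≤ |α| * 1 := by
      simp only [χ]
      rw [abs_mul, abs_of_nonneg (Real.smoothTransition.nonneg _)]
      gcongr
      exact Real.smoothTransition.le_one _
    have h3 := abs_add_le (w p - χ p) (χ p)
    rw [Real.norm_eq_abs] at h1
    rw [sub_add_cancel] at h3
    nlinarith [mul_nonneg (abs_nonneg α) hC3']
  · have h1 : fderiv ℝ w p = fderiv ℝ (fun p => w p - χ p) p +
        α • (fderiv ℝ Real.smoothTransition (reCLM p)).comp reCLM := by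
      have := (hU.1 p).hasFDerivAt.add
        (((hT.1 (reCLM p)).hasFDerivAt.comp p reCLM.hasFDerivAt).const_mul α)
      rw [← this.fderiv]
      congr 1
    rw [h1]
    refine (norm_add_le _ _).trans ?_
    have h2 := hC1 p
    have h3 : ‖α • (fderiv ℝ Real.smoothTransition (reCLM p)).comp reCLM‖ ≤ |α| * (C3 * 1) := by
      rw [norm_smul, Real.norm_eq_abs]
      gcongr
      refine (ContinuousLinearMap.opNorm_comp_le _ _).trans ?_
      rw [reCLM_norm]
      gcongr
      exact hC3 _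
    nlinarith [abs_nonneg α]

noncomputable def tent (q σ : ℝ) : ℝ := min (σ / q) ((1 - σ) / (1 - q))
noncomputable def gt (q θ σ : ℝ) : ℝ := max 0 (tent q σ - θ)
noncomputable def Gt (q θ τ : ℝ) : ℝ := ∫ σ in (0 : ℝ)..τ, gt q θ σ

lemma gt_cont (q θ : ℝ) : Continuous (gt q θ) := by
  unfold gt tent; fun_prop

lemma Gt_deriv (q θ τ : ℝ) : HasDerivAt (Gt q θ) (gt q θ τ) τ :=
  ((gt_cont q θ).integral_hasStrictDerivAt 0 τ).hasDerivAt

lemma tent_left {q σ : ℝ} (h0 : 0 < q) (h1 : q < 1) (h : σ ≤ q) : tent q σ = σ / q := by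
  refine min_eq_left ?_
  rw [div_le_div_iff₀ h0 (by linarith)]; nlinarith

lemma tent_right {q σ : ℝ} (h0 : 0 < q) (h1 : q < 1) (h : q ≤ σ) :
    tent q σ = (1 - σ) / (1 - q) := by
  refine min_eq_right ?_
  rw [div_le_div_iff₀ (by linarith) h0]; nlinarith

lemma tent_nonneg {q σ : ℝ} (h0 : 0 < q) (h1 : q < 1) (h : 0 ≤ σ) (h' : σ ≤ 1) : 0 ≤ tent q σ :=
  le_min (by positivity) (div_nonneg (by linarith) (by linarith))

lemma Gt_zero {q θ τ : ℝ} (h0 : 0 < q) (h : |τ| ≤ θ * q) : Gt q θ τ = 0 := by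
  unfold Gt
  rw [intervalIntegral.integral_congr (g := fun _ => 0), intervalIntegral.integral_zero]
  intro σ hσ
  refine max_eq_left ?_
  have h1 : tent q σ ≤ σ / q := min_le_left _ _
  have h2 : σ / q ≤ θ := by
    rw [div_le_iff₀ h0]
    have := hσ.2
    have := abs_nonneg τ
    have := le_abs_self τ
    rcases le_max_iff.1 hσ.2 with h3 | h3 <;> linarith
  linarith

lemma Gt_one {q θ τ : ℝ} (h1 : q < 1) (h : |τ - 1| ≤ θ * (1 - q)) : Gt q θ τ = Gt q θ 1 := by
  unfold Gt
  rw [← sub_eq_zero, intervalIntegral.integral_interval_sub_left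
    ((gt_cont q θ).intervalIntegrable _ _) ((gt_cont q θ).intervalIntegrable _ _),
    intervalIntegral.integral_congr (g := fun _ => 0), intervalIntegral.integral_zero]
  intro σ hσ
  refine max_eq_left ?_
  have h1' : tent q σ ≤ (1 - σ) / (1 - q) := min_le_right _ _
  have h2 : (1 - σ) / (1 - q) ≤ θ := by
    rw [div_le_iff₀ (by linarith)]
    have := abs_nonneg (τ - 1)
    have := neg_abs_le (τ - 1)
    rcases min_le_iff.1 hσ.1 with h3 | h3 <;> linarith
  linarith

lemma gt_close {q θ σ : ℝ} (hθ : 0 ≤ θ) : |gt q θ σ - gt q 0 σ| ≤ θ := by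
  unfold gt
  rw [abs_le]
  rcases max_cases 0 (tent q σ - θ) with h | h <;> rcases max_cases 0 (tent q σ - 0) with h' | h' <;>
    constructor <;> linarith

lemma Gt_close {q θ τ : ℝ} (hθ : 0 ≤ θ) (h0 : 0 ≤ τ) (h1 : τ ≤ 1) :
    |Gt q θ τ - Gt q 0 τ| ≤ θ := by
  unfold Gt
  rw [← intervalIntegral.integral_sub ((gt_cont q θ).intervalIntegrable _ _)
    ((gt_cont q 0).intervalIntegrable _ _)]
  have := intervalIntegral.norm_integral_le_of_norm_le_const (a := 0) (b := τ) (C := θ)
    (f := fun σ => gt q θ σ - gt q 0 σ) (fun σ _ => gt_close hθ)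
  rw [Real.norm_eq_abs, sub_zero, abs_of_nonneg h0] at this
  nlinarith

lemma Gt_left {q τ : ℝ} (h0 : 0 < q) (h1 : q < 1) (h : 0 ≤ τ) (h' : τ ≤ q) :
    Gt q 0 τ = τ ^ 2 / (2 * q) := by
  unfold Gt
  rw [intervalIntegral.integral_congr (g := fun σ => σ / q)]
  · rw [intervalIntegral.integral_div, integral_id]; field_simp; ring
  · intro σ hσ
    rw [uIcc_of_le h] at hσ
    unfold gt
    rw [sub_zero, max_eq_right (tent_nonneg h0 h1 hσ.1 (by linarith [hσ.2])),
      tent_left h0 h1 (by linarith [hσ.2])]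

lemma Gt_right {q τ : ℝ} (h0 : 0 < q) (h1 : q < 1) (h : q ≤ τ) (h' : τ ≤ 1) :
    Gt q 0 τ = q / 2 + ((1 - q) ^ 2 - (1 - τ) ^ 2) / (2 * (1 - q)) := by
  have e := Gt_left h0 h1 h0.le le_rfl
  unfold Gt at e ⊢
  rw [← intervalIntegral.integral_add_adjacent_intervals (b := q)
    ((gt_cont q 0).intervalIntegrable _ _) ((gt_cont q 0).intervalIntegrable _ _), e,
    intervalIntegral.integral_congr (g := fun σ => (1 - σ) / (1 - q))]
  · rw [intervalIntegral.integral_div, intervalIntegral.integral_sub (by simp) (by simp), integral_id]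
    have : 1 - q ≠ 0 := by linarith
    simp only [intervalIntegral.integral_const, smul_eq_mul, mul_one]
    field_simp; ring
  · intro σ hσ
    rw [uIcc_of_le h] at hσ
    unfold gt
    rw [sub_zero, max_eq_right (tent_nonneg h0 h1 (by linarith [hσ.1]) (by linarith [hσ.2])),
      tent_right h0 h1 hσ.1]

end Pool.Agent.Lib.MP_5a3ebe_gt.H46
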