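import Pool.Agent.Lib.MP_5a3ebe_gt.H46Diag

/-! The Legendrian lift of a simple polygonal path with horizontal tails has generating
functions. -/

namespace Pool.Agent.Lib.MP_5a3ebe_gt.H46

open Set Filter Topology Complex

noncomputable def zs (v : ℕ → ℂ) (m : ℕ) : ℝ := ∑ i ∈ Finset.range m, trap (v i) (v (i + 1))

def lift (v : ℕ → ℂ) (n : ℕ) (a b : ℝ) : Set (ℂ × ℝ) :=
  {p | (p.1.im = 0 ∧ p.1.re ≤ a ∧ p.2 = 0) ∨ (∃ m < n, p ∈ edge (v m) (v (m + 1)) (zs v m)) ∨
    (p.1.im = 0 ∧ b ≤ p.1.re ∧ p.2 = zs v n)}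

lemma edge_seg {a b : ℂ} {z : ℝ} {p : ℂ × ℝ} (h : p ∈ edge a b z) : p.1 ∈ segment ℝ a b := by
  obtain ⟨s, h0, h1, rfl⟩ := h
  exact mem_seg.2 ⟨s, h0, h1, rfl⟩

lemma edge_shift {a b : ℂ} {z c : ℝ} {p : ℂ × ℝ} (h : p ∈ edge a b z) :
    (p.1, p.2 + c) ∈ edge a b (z + c) := by
  obtain ⟨s, h0, h1, rfl⟩ := h
  exact ⟨s, h0, h1, Prod.ext rfl (by simp only; ring)⟩

lemma isClosed_seg (a b : ℂ) : IsClosed (segment ℝ a b) := by
  rw [segment_eq_image']; exact (isCompact_Icc.image (by fun_prop)).isClosed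

lemma chord_tri {P Q R p : ℂ} (h : p ∈ segment ℝ P R) : p ∈ tri P Q R := by
  obtain ⟨μ, h0, h1, rfl⟩ := mem_seg.1 h
  exact ⟨1 - μ, μ, by linarith, h0, by linarith, by push_cast; ring⟩

/-- delete the vertex `k + 1` -/
def cut (v : ℕ → ℂ) (k m : ℕ) : ℂ := if m ≤ k then v m else v (m + 1)

lemma cut_le (v : ℕ → ℂ) {k m : ℕ} (h : m ≤ k) : cut v k m = v m := if_pos h
lemma cut_gt (v : ℕ → ℂ) {k m : ℕ} (h : k < m) : cut v k m = v (m + 1) := if_neg (not_le.2 h)

lemma Simple.cut {v : ℕ → ℂ} {n k : ℕ} (h : Simple v (n + 1)) (hk : k + 2 ≤ n + 1)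
    (hE : Empty v (n + 1) k) : Simple (cut v k) n := by
  refine ⟨fun i hi e => ?_, fun i j hij hj p hp hq => ?_⟩
  · rcases lt_trichotomy i k with h1 | rfl | h1
    · rw [cut_le v h1.le, cut_le v h1] at e
      exact h.1 i (by omega) e
    · rw [cut_le v le_rfl, cut_gt v (by omega)] at e
      have := h.inj (by omega) (by omega) e; omega
    · rw [cut_gt v h1, cut_gt v (by omega)] at e
      exact h.1 (i + 1) (by omega) e
  · rcases lt_trichotomy i k with h1 | rfl | h1
    · rw [cut_le v h1.le, cut_le v h1] at hp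
      rcases lt_trichotomy j k with h2 | rfl | h2
      · rw [cut_le v h2.le, cut_le v h2] at hq
        rw [cut_le v h2.le]
        exact h.2 i j hij (by omega) p hp hq
      · rw [cut_le v le_rfl, cut_gt v (by omega)] at hq
        rw [cut_le v le_rfl]
        rcases h.ear_edges hk hE (j := i) (by omega) (by omega) (by omega) hp (chord_tri hq)
          with h3 | h3
        · exact ⟨h3.1.symm, h3.2⟩
        · omega
      · rw [cut_gt v h2, cut_gt v (by omega)] at hq
        have := (h.2 i (j + 1) (by omega) (by omega) p hp hq).1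
        omega
    · rw [cut_le v le_rfl, cut_gt v (by omega)] at hp
      rw [cut_gt v hij, cut_gt v (by omega)] at hq
      rw [cut_gt v hij]
      rcases h.ear_edges hk hE (j := j + 1) (by omega) (by omega) (by omega) hq (chord_tri hp)
        with h3 | h3
      · omega
      · exact ⟨by omega, by rw [h3.1]; exact h3.2⟩
    · rw [cut_gt v h1, cut_gt v (by omega)] at hp
      rw [cut_gt v (by omega), cut_gt v (by omega)] at hq
      rw [cut_gt v (by omega)]
      have := h.2 (i + 1) (j + 1) (by omega) (by omega) p hp hq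
      exact ⟨by omega, this.2⟩

lemma zs_succ (v : ℕ → ℂ) (m : ℕ) : zs v (m + 1) = zs v m + trap (v m) (v (m + 1)) :=
  Finset.sum_range_succ _ _

lemma zs_cut_le (v : ℕ → ℂ) {k m : ℕ} (h : m ≤ k) : zs (cut v k) m = zs v m := by
  induction m with
  | zero => rfl
  | succ m ih => rw [zs_succ, zs_succ, ih (by omega), cut_le v h, cut_le v (by omega)]

lemma zs_cut_gt (v : ℕ → ℂ) {k m : ℕ} (h : k < m) : zs (cut v k) m +
    (trap (v k) (v (k + 1)) + trap (v (k + 1)) (v (k + 2)) - trap (v k) (v (k + 2))) =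
      zs v (m + 1) := by
  induction m, h using Nat.le_induction with
  | base =>
    rw [zs_succ, zs_succ, zs_succ, zs_cut_le v le_rfl, cut_le v le_rfl, cut_gt v (by omega)]
    ring
  | succ m hm ih =>
    rw [zs_succ, zs_succ v (m + 1), ← ih, cut_gt v (by omega), cut_gt v (by omega)]
    ring

theorem gen_lift {a b : ℝ} : ∀ (n : ℕ) (v : ℕ → ℂ), Simple v (n + 1) → Strip v (n + 1) a b →
    Gen (lift v (n + 1) a b) := by
  intro n
  induction n with
  | zero =>
    intro v h hS
    have h0 := hS.1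
    have h1 : v 1 = b := hS.2.1
    have hab : a < b := by
      have := (hS.2.2 0 (by omega)).2
      rw [h0] at this
      exact lt_of_le_of_ne this fun e => h.1 0 (by omega) (by rw [h0, zero_add, h1, e])
    refine gen_zero.mono ?_
    rintro ⟨p, z⟩ ⟨e1, e2⟩
    simp only at e1 e2
    rcases le_total p.re a with h2 | h2
    · exact Or.inl ⟨e1, h2, e2⟩
    rcases le_total b p.re with h3 | h3
    · exact Or.inr (Or.inr ⟨e1, h3, by simp [zs, trap, h0, h1, e2]⟩)
    refine Or.inr (Or.inl ⟨0, by omega, (p.re - a) / (b - a), div_nonneg (by linarith) (by linarith),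
      (div_le_one (by linarith)).2 (by linarith), Prod.ext (Complex.ext ?_ ?_) ?_⟩)
    · have : b - a ≠ 0 := by linarith
      simp only [zero_add, h0, h1, add_re, mul_re, ofReal_re, ofReal_im, sub_re, zero_mul, sub_zero]
      field_simp; ring
    · simp only [zero_add, h0, h1, add_im, mul_im, ofReal_re, ofReal_im, sub_im, zero_mul, e1]
      ring
    · simp only [zero_add, h0, h1, zs, trap, add_im, mul_im, ofReal_re, ofReal_im, sub_im,
        zero_mul, e2, Finset.range_zero, Finset.sum_empty]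
      ring
  | succ n ih =>
    intro v h hS
    obtain ⟨k, hk, hE⟩ := exists_empty h hS (by omega)
    have hS' : Strip (cut v k) (n + 1) a b := by
      refine ⟨by rw [cut_le v (by omega)]; exact hS.1, by rw [cut_gt v (by omega)]; exact hS.2.1,
        fun i hi => ?_⟩
      unfold cut
      split_ifs
      · exact hS.2.2 _ (by omega)
      · exact hS.2.2 _ (by omega)
    have hG := ih _ (h.cut hk hE) hS'
    obtain ⟨l, hl⟩ := h.exists_shear hk
    obtain ⟨M, hM⟩ : ∃ M : ℝ, ∀ i ≤ n + 2, ‖v i‖ ≤ M :=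
      ⟨∑ i ∈ Finset.range (n + 3), ‖v i‖, fun i hi =>
        Finset.single_le_sum (f := fun i => ‖v i‖) (fun _ _ => norm_nonneg _)
          (Finset.mem_range.2 (by omega))⟩
    have hM0 : 0 ≤ M := (norm_nonneg _).trans (hM 0 (by omega))
    have hMs : ∀ m < n + 2, ∀ p ∈ segment ℝ (v m) (v (m + 1)), |p.im| ≤ M ∧ |p.re| ≤ M := by
      intro m hm p hp
      have : p ∈ Metric.closedBall (0 : ℂ) M := (convex_closedBall _ _).segment_subset
        (by simpa using hM m (by omega)) (by simpa using hM (m + 1) (by omega)) hp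
      rw [mem_closedBall_zero_iff] at this
      exact ⟨(abs_im_le_norm _).trans this, (abs_re_le_norm _).trans this⟩
    have hab : a ≤ b := by
      have := hS.2.2 0 (by omega); linarith
    have hMa : |a| ≤ M := by simpa [hS.1] using hM 0 (by omega)
    have hMb : |b| ≤ M := by simpa [hS.2.1] using hM (n + 2) (by omega)
    have hL : ∀ p : ℂ, p.im = 0 → p.re ≤ a → a ≤ p.re → p = v 0 := fun p h1 h2 h3 => by
      rw [hS.1]; exact Complex.ext (by simp; linarith) (by simpa using h1)
    have hR : ∀ p : ℂ, p.im = 0 → b ≤ p.re → p.re ≤ b → p = v (n + 2) := fun p h1 h2 h3 => by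
      rw [hS.2.1]; exact Complex.ext (by simp; linarith) (by simpa using h1)
    have htri : ∀ p ∈ tri (v k) (v (k + 1)) (v (k + 2)), a ≤ p.re ∧ p.re ≤ b := by
      rintro _ ⟨s, t, h0, h1, h2, rfl⟩
      have a0 := hS.2.2 k (by omega)
      have a1 := hS.2.2 (k + 1) (by omega)
      have a2 := hS.2.2 (k + 2) (by omega)
      simp only [add_re, mul_re, ofReal_re, ofReal_im, sub_re, zero_mul, sub_zero]
      have h3 : 0 ≤ 1 - s - t := by linarith
      constructor <;> nlinarith [mul_nonneg h0 (sub_nonneg.2 a0.1), mul_nonneg h1 (sub_nonneg.2 a2.1),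
        mul_nonneg h3 (sub_nonneg.2 a1.1), mul_nonneg h0 (sub_nonneg.2 a0.2),
        mul_nonneg h1 (sub_nonneg.2 a2.2), mul_nonneg h3 (sub_nonneg.2 a1.2)]
    set α := trap (v k) (v (k + 1)) + trap (v (k + 1)) (v (k + 2)) - trap (v k) (v (k + 2))
      with hα
    have := ear (P := v k) (Q := v (k + 1)) (R := v (k + 2)) (z0 := zs v k) (M := M) (l := l)
      (Λm := {p | (p.1.im = 0 ∧ p.1.re ≤ a ∧ p.2 = 0) ∨
        ∃ m < k, p ∈ edge (v m) (v (m + 1)) (zs v m)})
      (Λp := {p | (p.1.im = 0 ∧ b ≤ p.1.re ∧ p.2 + α = zs v (n + 2)) ∨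
        ∃ m, (k + 2 ≤ m ∧ m < n + 2) ∧ p ∈ edge (v m) (v (m + 1)) (zs v m - α)})
      (Km := {p | p.im = 0 ∧ p.re ≤ a} ∪ ⋃ m ∈ Iio k, segment ℝ (v m) (v (m + 1)))
      (Kp := {p | p.im = 0 ∧ b ≤ p.re} ∪ ⋃ m ∈ Ico (k + 2) (n + 2), segment ℝ (v m) (v (m + 1)))
      ?_ ?_ ?_ ?_ ?_ ?_ ?_ ?_ ?_ hl (hG.mono ?_)
    · refine this.mono ?_
      rintro p ((((hp | ⟨m, hm, hp⟩) | hp) | hp) | ⟨p, hp | ⟨m, hm, hp⟩, rfl⟩)
      · exact Or.inl hp
      · exact Or.inr (Or.inl ⟨m, by omega, hp⟩)
      · exact Or.inr (Or.inl ⟨k, by omega, hp⟩)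
      · exact Or.inr (Or.inl ⟨k + 1, by omega, by rw [zs_succ]; exact hp⟩)
      · exact Or.inr (Or.inr hp)
      · refine Or.inr (Or.inl ⟨m, hm.2, ?_⟩)
        have := edge_shift (c := α) hp
        rwa [sub_add_cancel] at this
    · rintro p (hp | ⟨m, hm, hp⟩)
      · exact Or.inl ⟨hp.1, hp.2.1⟩
      · exact Or.inr (mem_biUnion hm (edge_seg hp))
    · rintro p (hp | ⟨m, hm, hp⟩)
      · exact Or.inl ⟨hp.1, hp.2.1⟩
      · exact Or.inr (mem_biUnion hm (edge_seg hp))
    · exact ((isClosed_eq continuous_im continuous_const).inter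
        (isClosed_le continuous_re continuous_const)).union
        ((finite_Iio k).isClosed_biUnion fun _ _ => isClosed_seg _ _)
    · exact ((isClosed_eq continuous_im continuous_const).inter
        (isClosed_le continuous_const continuous_re)).union
        ((finite_Ico _ _).isClosed_biUnion fun _ _ => isClosed_seg _ _)
    · rw [disjoint_left]
      simp only [mem_union, mem_ofPred_eq, mem_iUnion, mem_Iio, mem_Ico, exists_prop]
      rintro p (hp | ⟨m, hm, hp⟩) (hq | ⟨m', hm', hq⟩)
      · have := h.inj (by omega) le_rfl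
          ((hL p hp.1 hp.2 (by linarith [hq.2])).symm.trans (hR p hp.1 hq.2 (by linarith [hp.2])))
        omega
      · rw [hL p hp.1 hp.2 (hS.seg (by omega) (by omega) hq).1] at hq
        have := h.vtx (by omega) hm'.2 hq; omega
      · rw [hR p hq.1 hq.2 (hS.seg (by omega) (by omega) hp).2] at hp
        have := h.vtx le_rfl (by omega) hp; omega
      · have := (h.2 m m' (by omega) hm'.2 p hp hq).1; omega
    · simp only [mem_union, mem_ofPred_eq, mem_iUnion, mem_Iio, exists_prop]
      rintro p (hp | ⟨m, hm, hp⟩)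
      · exact ⟨by simpa [hp.1] using hM0, by linarith [hp.2, le_abs_self a]⟩
      · have := hMs m (by omega) p hp
        exact ⟨this.1, (le_abs_self _).trans this.2⟩
    · simp only [mem_union, mem_ofPred_eq, mem_iUnion, mem_Ico, exists_prop]
      rintro p (hp | ⟨m, hm, hp⟩)
      · exact ⟨by simpa [hp.1] using hM0, by linarith [hp.2, neg_abs_le b]⟩
      · have := hMs m (by omega) p hp
        exact ⟨this.1, (abs_le.1 this.2).1⟩
    · simp only [mem_union, mem_ofPred_eq, mem_iUnion, mem_Iio, exists_prop]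
      rintro p (hp | ⟨m, hm, hp⟩) ht
      · have e := hL p hp.1 hp.2 (htri p ht).1
        rw [e] at ht ⊢
        have := hE 0 (by omega) ht
        congr 1; omega
      · rcases h.ear_edges hk hE (j := m) (by omega) (by omega) (by omega) hp ht with h1 | h1
        · exact h1.2
        · omega
    · simp only [mem_union, mem_ofPred_eq, mem_iUnion, mem_Ico, exists_prop]
      rintro p (hp | ⟨m, hm, hp⟩) ht
      · have e := hR p hp.1 hp.2 (htri p ht).2
        rw [e] at ht ⊢
        have := hE (n + 2) (by omega) ht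
        congr 1; omega
      · rcases h.ear_edges hk hE (j := m) (by omega) (by omega) (by omega) hp ht with h1 | h1
        · omega
        · exact h1.2
    · rintro p (hp | ⟨m, hm, hp⟩ | hp)
      · exact Or.inl (Or.inl (Or.inl hp))
      · rcases lt_trichotomy m k with h1 | rfl | h1
        · rw [cut_le v h1.le, cut_le v h1, zs_cut_le v h1.le] at hp
          exact Or.inl (Or.inl (Or.inr ⟨m, h1, hp⟩))
        · rw [cut_le v le_rfl, cut_gt v (by omega), zs_cut_le v le_rfl] at hp
          exact Or.inl (Or.inr hp)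
        · rw [cut_gt v h1, cut_gt v (by omega)] at hp
          refine Or.inr (Or.inr ⟨m + 1, by omega, ?_⟩)
          rw [← zs_cut_gt v h1, add_sub_cancel_right]
          exact hp
      · refine Or.inr (Or.inl ⟨hp.1, hp.2.1, ?_⟩)
        rw [hp.2.2]
        exact zs_cut_gt v (by omega)

end Pool.Agent.Lib.MP_5a3ebe_gt.H46
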