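import Pool.Agent.Lib.MP_5a3ebe_gt.H46Gen

/-! The generating function whose critical points are squares. -/

namespace Pool.Agent.Lib.MP_5a3ebe_gt.H46

open Set Filter Topology Complex

/-- `p1, p2, p3, p4` are, up to `η`, the vertices `(x, y), (x + a, y + b), (x + a - b, y + a + b),
(x - b, y + a)` of a square, the height of the first vertex being wrong by `d` -/
def ASq (η d x a b : ℝ) (p1 p2 p3 p4 : ℂ) : Prop :=
  |x - p1.re| ≤ η ∧ |x + a - p2.re| ≤ η ∧ |x + a - b - p3.re| ≤ η ∧ |x - b - p4.re| ≤ η ∧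
    |p3.im - p2.im - a| ≤ η ∧ |p4.im - p3.im + b| ≤ η ∧ |p1.im - p2.im + p3.im - p4.im + d| ≤ η

theorem link4 {Λ1 Λ2 Λ3 Λ4 : Set (ℂ × ℝ)} (G1 : Gen Λ1) (G2 : Gen Λ2) (G3 : Gen Λ3) (G4 : Gen Λ4)
    {h : ℝ → ℝ} (hh : UC1 h) {B : ℝ} (hb : ∀ x, h x ≤ B) {ε η : ℝ} (hη : 0 < η)
    (H1 : ∀ p1 ∈ Λ1, ∀ p2 ∈ Λ2, ∀ p3 ∈ Λ3, ∀ p4 ∈ Λ4, ∀ x a b : ℝ,
      ASq η (deriv h x) x a b p1.1 p2.1 p3.1 p4.1 →
        p1.2 - p2.2 + p3.2 - p4.2 + (b * b - a * a) / 2 + h x ≤ ε)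
    (H2 : ∀ p1 ∈ Λ1, ∀ p2 ∈ Λ2, ∀ p3 ∈ Λ3, ∀ p4 ∈ Λ4, ∀ x a b : ℝ,
      ASq η 0 x a b p1.1 p2.1 p3.1 p4.1 → -ε ≤ p1.2 - p2.2 + p3.2 - p4.2 + (b * b - a * a) / 2)
    (x0 : ℝ) : h x0 ≤ 2 * ε := by
  refine le_of_forall_pos_le_add fun ε' hε' => ?_
  have hη' : 0 < min (η / 5) (ε' / 8) := lt_min (by linarith) (by linarith)
  have hη1 := min_le_left (η / 5) (ε' / 8)
  have hη2 := min_le_right (η / 5) (ε' / 8)
  set θ := min (η / 5) (ε' / 8)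
  obtain ⟨F1, _, _, S1, hS1, ⟨Q1, hQ1, C1, hC1⟩, δ1, hδ1, K1⟩ := G1 θ hη'
  obtain ⟨F2, _, _, S2, hS2, ⟨Q2, hQ2, C2, hC2⟩, δ2, hδ2, K2⟩ := G2 θ hη'
  obtain ⟨F3, _, _, S3, hS3, ⟨Q3, hQ3, C3, hC3⟩, δ3, hδ3, K3⟩ := G3 θ hη'
  obtain ⟨F4, _, _, S4, hS4, ⟨Q4, hQ4, C4, hC4⟩, δ4, hδ4, K4⟩ := G4 θ hη'
  let F := ((F1 × F2) × (F3 × F4)) × (ℝ × ℝ)
  let cx : ℝ × F →L[ℝ] ℝ := ContinuousLinearMap.fst ℝ ℝ F
  let cf : ℝ × F →L[ℝ] (F1 × F2) × (F3 × F4) :=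
    (ContinuousLinearMap.fst ℝ _ _).comp (ContinuousLinearMap.snd ℝ ℝ F)
  let cab : ℝ × F →L[ℝ] ℝ × ℝ :=
    (ContinuousLinearMap.snd ℝ _ _).comp (ContinuousLinearMap.snd ℝ ℝ F)
  let ca : ℝ × F →L[ℝ] ℝ := (ContinuousLinearMap.fst ℝ _ _).comp cab
  let cb : ℝ × F →L[ℝ] ℝ := (ContinuousLinearMap.snd ℝ _ _).comp cab
  let L1 : ℝ × F →L[ℝ] ℝ × F1 := cx.prod
    ((ContinuousLinearMap.fst ℝ _ _).comp ((ContinuousLinearMap.fst ℝ _ _).comp cf))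
  let L2 : ℝ × F →L[ℝ] ℝ × F2 := (cx + ca).prod
    ((ContinuousLinearMap.snd ℝ _ _).comp ((ContinuousLinearMap.fst ℝ _ _).comp cf))
  let L3 : ℝ × F →L[ℝ] ℝ × F3 := (cx + ca - cb).prod
    ((ContinuousLinearMap.fst ℝ _ _).comp ((ContinuousLinearMap.snd ℝ _ _).comp cf))
  let L4 : ℝ × F →L[ℝ] ℝ × F4 := (cx - cb).prod
    ((ContinuousLinearMap.snd ℝ _ _).comp ((ContinuousLinearMap.snd ℝ _ _).comp cf))
  have eL1 : ∀ m, L1 m = (m.1, m.2.1.1.1) := fun _ => rfl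
  have eL2 : ∀ m, L2 m = (m.1 + m.2.2.1, m.2.1.1.2) := fun _ => rfl
  have eL3 : ∀ m, L3 m = (m.1 + m.2.2.1 - m.2.2.2, m.2.1.2.1) := fun _ => rfl
  have eL4 : ∀ m, L4 m = (m.1 - m.2.2.2, m.2.1.2.2) := fun _ => rfl
  have ea : ∀ m, ca m = m.2.2.1 := fun _ => rfl
  have eb : ∀ m, cb m = m.2.2.2 := fun _ => rfl
  let T : ℝ × F → ℝ := fun m =>
    S1 (L1 m) - S2 (L2 m) + S3 (L3 m) - S4 (L4 m) + 2⁻¹ * (cb m * cb m - ca m * ca m)
  have hT : UC1 T := ((((hS1.comp L1).sub (hS2.comp L2)).add (hS3.comp L3)).sub (hS4.comp L4)).add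
    (((UC1.mul_clm cb cb).sub (UC1.mul_clm ca ca)).const_mul _)
  have hQ : QInf T := by
    refine ⟨_, ((hQ1.prod hQ2.neg).prod (hQ3.prod hQ4.neg)).prod diag_sq,
      |C1| + |C2| + |C3| + |C4|, fun m => ?_⟩
    have key : ∀ (C x y : ℝ), 0 ≤ y → y ≤ ‖m.2‖ → |x| ≤ C * (1 + y) → |x| ≤ |C| * (1 + ‖m.2‖) :=
      fun C x y h0 h1 h2 => h2.trans ((mul_le_mul_of_nonneg_right (le_abs_self _)
        (by positivity)).trans (by gcongr))
    have a1 := key _ _ _ (norm_nonneg _)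
      ((norm_fst_le _).trans ((norm_fst_le _).trans (norm_fst_le m.2))) (hC1 (L1 m))
    have a2 := key _ _ _ (norm_nonneg _)
      ((norm_snd_le _).trans ((norm_fst_le _).trans (norm_fst_le m.2))) (hC2 (L2 m))
    have a3 := key _ _ _ (norm_nonneg _)
      ((norm_fst_le _).trans ((norm_snd_le _).trans (norm_fst_le m.2))) (hC3 (L3 m))
    have a4 := key _ _ _ (norm_nonneg _)
      ((norm_snd_le _).trans ((norm_snd_le _).trans (norm_fst_le m.2))) (hC4 (L4 m))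
    simp only [T, ea, eb]
    simp only [eL1, eL2, eL3, eL4] at a1 a2 a3 a4 ⊢
    rw [abs_le] at *
    constructor <;> linarith [a1.1, a1.2, a2.1, a2.2, a3.1, a3.2, a4.1, a4.2]
  set δ := min (min (min δ1 δ2) (min δ3 δ4)) θ with hδ
  have hδ0 : 0 < δ := lt_min (lt_min (lt_min hδ1 hδ2) (lt_min hδ3 hδ4)) hη'
  have d1 : δ ≤ δ1 := (min_le_left _ _).trans ((min_le_left _ _).trans (min_le_left _ _))
  have d2 : δ ≤ δ2 := (min_le_left _ _).trans ((min_le_left _ _).trans (min_le_right _ _))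
  have d3 : δ ≤ δ3 := (min_le_left _ _).trans ((min_le_right _ _).trans (min_le_left _ _))
  have d4 : δ ≤ δ4 := (min_le_left _ _).trans ((min_le_right _ _).trans (min_le_right _ _))
  have d5 : δ ≤ θ := min_le_right _ _
  have crit : ∀ g : ℝ → ℝ, Differentiable ℝ g → ∀ m,
      ‖fderiv ℝ (fun m : ℝ × F => T m + g m.1) m‖ ≤ δ →
      ∃ p1 ∈ Λ1, ∃ p2 ∈ Λ2, ∃ p3 ∈ Λ3, ∃ p4 ∈ Λ4,
        ASq η (deriv g m.1) m.1 m.2.2.1 m.2.2.2 p1.1 p2.1 p3.1 p4.1 ∧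
        |T m - (p1.2 - p2.2 + p3.2 - p4.2 + (m.2.2.2 * m.2.2.2 - m.2.2.1 * m.2.2.1) / 2)| ≤
          4 * θ := by
    intro g hg m hm
    have hD : ∀ v, |fderiv ℝ S1 (L1 m) (L1 v) - fderiv ℝ S2 (L2 m) (L2 v) +
        fderiv ℝ S3 (L3 m) (L3 v) - fderiv ℝ S4 (L4 m) (L4 v) + (cb m * cb v - ca m * ca v) +
        deriv g m.1 * v.1| ≤ δ * ‖v‖ := by
      intro v
      have := ((((((hS1.1 (L1 m)).hasFDerivAt.comp m L1.hasFDerivAt).sub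
        ((hS2.1 (L2 m)).hasFDerivAt.comp m L2.hasFDerivAt)).add
        ((hS3.1 (L3 m)).hasFDerivAt.comp m L3.hasFDerivAt)).sub
        ((hS4.1 (L4 m)).hasFDerivAt.comp m L4.hasFDerivAt)).add
        (((cb.hasFDerivAt.mul cb.hasFDerivAt).sub (ca.hasFDerivAt.mul ca.hasFDerivAt)).const_mul
          2⁻¹)).add ((hg (cx m)).hasDerivAt.hasFDerivAt.comp m cx.hasFDerivAt)
      have e := this.fderiv
      change fderiv ℝ (fun m : ℝ × F => T m + g m.1) m = _ at e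
      have h1 := (fderiv ℝ (fun m : ℝ × F => T m + g m.1) m).le_opNorm v
      refine le_trans (le_of_eq ?_) (h1.trans (by gcongr))
      rw [e, Real.norm_eq_abs]
      congr 1
      simp [cx]; ring
    have hD' : ∀ (x : ℝ) (ξ1 : F1) (ξ2 : F2) (ξ3 : F3) (ξ4 : F4) (a b N : ℝ), ‖x‖ ≤ N → ‖ξ1‖ ≤ N →
        ‖ξ2‖ ≤ N → ‖ξ3‖ ≤ N → ‖ξ4‖ ≤ N → ‖a‖ ≤ N → ‖b‖ ≤ N →
        |fderiv ℝ S1 (L1 m) (x, ξ1) - fderiv ℝ S2 (L2 m) (x + a, ξ2) +
          fderiv ℝ S3 (L3 m) (x + a - b, ξ3) - fderiv ℝ S4 (L4 m) (x - b, ξ4) +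
          (m.2.2.2 * b - m.2.2.1 * a) + deriv g m.1 * x| ≤ δ * N := by
      intro x ξ1 ξ2 ξ3 ξ4 a b N h0 h1 h2 h3 h4 h5 h6
      refine (hD (x, (((ξ1, ξ2), (ξ3, ξ4)), (a, b)))).trans ?_
      gcongr
      exact max_le h0 (max_le (max_le (max_le h1 h2) (max_le h3 h4)) (max_le h5 h6))
    have z1 : fderiv ℝ S1 (L1 m) (0, 0) = 0 := map_zero _
    have z2 : fderiv ℝ S2 (L2 m) (0, 0) = 0 := map_zero _
    have z3 : fderiv ℝ S3 (L3 m) (0, 0) = 0 := map_zero _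
    have z4 : fderiv ℝ S4 (L4 m) (0, 0) = 0 := map_zero _
    have n3 : fderiv ℝ S3 (L3 m) (-1, 0) = - fderiv ℝ S3 (L3 m) (1, 0) := by rw [← map_neg]; simp
    have n4 : fderiv ℝ S4 (L4 m) (-1, 0) = - fderiv ℝ S4 (L4 m) (1, 0) := by rw [← map_neg]; simp
    obtain ⟨p1, hp1, a1, b1, c1⟩ := K1 (L1 m) fun ξ => by
      have := hD' 0 ξ 0 0 0 0 0 ‖ξ‖ (by simp) (by simp) (by simp) (by simp) (by simp) (by simp)
        (by simp)
      simp only [add_zero, sub_zero, z2, z3, z4, mul_zero] at this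
      exact this.trans (by gcongr)
    obtain ⟨p2, hp2, a2, b2, c2⟩ := K2 (L2 m) fun ξ => by
      have := hD' 0 0 ξ 0 0 0 0 ‖ξ‖ (by simp) (by simp) (by simp) (by simp) (by simp) (by simp)
        (by simp)
      simp only [add_zero, sub_zero, z1, z3, z4, mul_zero, zero_sub, abs_neg] at this
      exact this.trans (by gcongr)
    obtain ⟨p3, hp3, a3, b3, c3⟩ := K3 (L3 m) fun ξ => by
      have := hD' 0 0 0 ξ 0 0 0 ‖ξ‖ (by simp) (by simp) (by simp) (by simp) (by simp) (by simp)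
        (by simp)
      simp only [add_zero, sub_zero, z1, z2, z4, mul_zero, zero_add] at this
      exact this.trans (by gcongr)
    obtain ⟨p4, hp4, a4, b4, c4⟩ := K4 (L4 m) fun ξ => by
      have := hD' 0 0 0 0 ξ 0 0 ‖ξ‖ (by simp) (by simp) (by simp) (by simp) (by simp) (by simp)
        (by simp)
      simp only [add_zero, sub_zero, z1, z2, z3, mul_zero, zero_sub, abs_neg] at this
      exact this.trans (by gcongr)
    have e1 := hD' 1 0 0 0 0 0 0 1 (by simp) (by simp) (by simp) (by simp) (by simp) (by simp)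
      (by simp)
    have e2 := hD' 0 0 0 0 0 1 0 1 (by simp) (by simp) (by simp) (by simp) (by simp) (by simp)
      (by simp)
    have e3 := hD' 0 0 0 0 0 0 1 1 (by simp) (by simp) (by simp) (by simp) (by simp) (by simp)
      (by simp)
    simp only [add_zero, sub_zero, z1, z2, z4, n3, n4, mul_zero, zero_sub, zero_add, mul_one]
      at e1 e2 e3
    refine ⟨p1, hp1, p2, hp2, p3, hp3, p4, hp4, ⟨a1.trans (by linarith), a2.trans (by linarith),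
      a3.trans (by linarith), a4.trans (by linarith), ?_, ?_, ?_⟩, ?_⟩
    · rw [abs_le] at *; constructor <;> linarith [b2.1, b2.2, b3.1, b3.2, e2.1, e2.2]
    · rw [abs_le] at *; constructor <;> linarith [b4.1, b4.2, b3.1, b3.2, e3.1, e3.2]
    · rw [abs_le] at *
      constructor <;> linarith [b1.1, b1.2, b2.1, b2.2, b3.1, b3.2, b4.1, b4.2, e1.1, e1.2]
    · simp only [T, ea, eb]
      rw [abs_le] at *
      constructor <;> linarith [c1.1, c1.2, c2.1, c2.2, c3.1, c3.2, c4.1, c4.2]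
  have := ls hT hQ hh hb hδ0 (ε := ε + 4 * θ) (fun m hm => ?_) (fun m hm => ?_) x0
  · linarith
  · obtain ⟨p1, hp1, p2, hp2, p3, hp3, p4, hp4, a1, a2⟩ := crit h hh.1 m hm
    have := H1 p1 hp1 p2 hp2 p3 hp3 p4 hp4 _ _ _ a1
    linarith [(abs_le.1 a2).2]
  · obtain ⟨p1, hp1, p2, hp2, p3, hp3, p4, hp4, a1, a2⟩ := crit (fun _ => 0)
      (differentiable_const _) m (by simpa using hm)
    have := H2 p1 hp1 p2 hp2 p3 hp3 p4 hp4 _ _ _ (by simpa using a1)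
    linarith [(abs_le.1 a2).1]

end Pool.Agent.Lib.MP_5a3ebe_gt.H46
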