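import Pool.Agent.Lib.MP_5a3ebe_gt.H46Approx
import Pool.Agent.Lib.MP_5a3ebe_gt.H46Square

/-! Two arcs with common acute end points. -/

namespace Pool.Agent.Lib.MP_5a3ebe_gt.H46

open Set Filter Topology Complex

lemma corner_left {J : Set ℂ} (hA : ∀ p ∈ J, ∀ q ∈ J, 0 ≤ p.re * q.re + p.im * q.im) (h1 : 1 ∈ J)
    {t u : ℂ} (ht : t.im = 0) (ht' : t.re < 0) (hu : u ≠ 0)
    (a1 : ((t + u).im = 0 ∧ (t + u).re ≤ 0) ∨ t + u ∈ J ∨ ((t + u).im = 0 ∧ 1 ≤ (t + u).re))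
    (a2 : ((t + I * u).im = 0 ∧ (t + I * u).re ≤ 0) ∨ t + I * u ∈ J ∨
      ((t + I * u).im = 0 ∧ 1 ≤ (t + I * u).re)) : False := by
  have hre : ∀ p ∈ J, 0 ≤ p.re := fun p hp => by simpa using hA p hp 1 h1
  have hu' : ¬ (u.re = 0 ∧ u.im = 0) := fun h => hu (Complex.ext h.1 h.2)
  have b1 : t + u ∈ J → 0 ≤ t.re + u.re := fun h => by simpa using hre _ h
  have b2 : t + I * u ∈ J → 0 ≤ t.re - u.im := fun h => by
    have := hre _ h
    simp at this; linarith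
  have b3 : t + u ∈ J → t + I * u ∈ J → False := fun h h' => by
    have := hA _ h _ h'
    have := b1 h
    have := b2 h'
    simp only [add_re, add_im, mul_re, mul_im, I_re, I_im, ht] at *
    nlinarith
  simp only [add_re, add_im, mul_re, mul_im, I_re, I_im, ht, zero_mul, one_mul, zero_add,
    zero_sub] at a1 a2
  rcases a1 with a1 | a1 | a1 <;> rcases a2 with a2 | a2 | a2
  · exact hu' ⟨a2.1, a1.1⟩
  · have := b2 a2; linarith [a1.1]
  · exact hu' ⟨a2.1, a1.1⟩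
  · have := b1 a1; linarith [a2.1]
  · exact b3 a1 a2
  · have := b1 a1; linarith [a2.1]
  · exact hu' ⟨a2.1, a1.1⟩
  · have := b2 a2; linarith [a1.1]
  · exact hu' ⟨a2.1, a1.1⟩

lemma corner {J : Set ℂ} (hA : ∀ p ∈ J, ∀ q ∈ J, 0 ≤ p.re * q.re + p.im * q.im)
    (hB : ∀ p ∈ J, ∀ q ∈ J, 0 ≤ (p.re - 1) * (q.re - 1) + p.im * q.im) (h0 : 0 ∈ J) (h1 : 1 ∈ J)
    {t u : ℂ} (hu : u ≠ 0)
    (a0 : (t.im = 0 ∧ t.re ≤ 0) ∨ t ∈ J ∨ (t.im = 0 ∧ 1 ≤ t.re))
    (a1 : ((t + u).im = 0 ∧ (t + u).re ≤ 0) ∨ t + u ∈ J ∨ ((t + u).im = 0 ∧ 1 ≤ (t + u).re))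
    (a2 : ((t + I * u).im = 0 ∧ (t + I * u).re ≤ 0) ∨ t + I * u ∈ J ∨
      ((t + I * u).im = 0 ∧ 1 ≤ (t + I * u).re)) : t ∈ J := by
  rcases a0 with a0 | a0 | a0
  · rcases eq_or_lt_of_le a0.2 with h | h
    · rwa [show t = 0 from Complex.ext h a0.1]
    · exact (corner_left hA h1 a0.1 h hu a1 a2).elim
  · exact a0
  · rcases eq_or_lt_of_le a0.2 with h | h
    · rwa [show t = 1 from Complex.ext h.symm a0.1]
    · exfalso
      refine corner_left (J := {p | 1 - p ∈ J}) (t := 1 - t) (u := -u) (fun p hp q hq => ?_)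
        (by simpa using h0) (by simpa using a0.1) (by simpa using h) (neg_ne_zero.2 hu) ?_ ?_
      · have := hB _ hp _ hq
        simp only [sub_re, one_re, sub_im, one_im] at this
        linarith
      · rcases a1 with a1 | a1 | a1
        · right; right
          simp only [add_re, add_im, sub_re, sub_im, neg_re, neg_im, one_re, one_im] at a1 ⊢
          exact ⟨by linarith [a1.1], by linarith [a1.2]⟩
        · right; left
          show 1 - (1 - t + -u) ∈ J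
          convert a1 using 1; ring
        · left
          simp only [add_re, add_im, sub_re, sub_im, neg_re, neg_im, one_re, one_im] at a1 ⊢
          exact ⟨by linarith [a1.1], by linarith [a1.2]⟩
      · rw [mul_neg]
        rcases a2 with a1 | a1 | a1
        · right; right
          simp only [add_re, add_im, sub_re, sub_im, neg_re, neg_im, one_re, one_im] at a1 ⊢
          exact ⟨by linarith [a1.1], by linarith [a1.2]⟩
        · right; left
          show 1 - (1 - t + -(I * u)) ∈ J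
          convert a1 using 1; ring
        · left
          simp only [add_re, add_im, sub_re, sub_im, neg_re, neg_im, one_re, one_im] at a1 ⊢
          exact ⟨by linarith [a1.1], by linarith [a1.2]⟩

lemma isClosed_Kset {σ : ℝ → ℂ} (hc : Continuous σ) : IsClosed (Kset σ) :=
  ((isClosed_eq continuous_im continuous_const).inter
    (isClosed_le continuous_re continuous_const)).union ((isCompact_Icc.image hc).isClosed.union
      ((isClosed_eq continuous_im continuous_const).inter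
        (isClosed_le continuous_const continuous_re)))

lemma approx_sq {K1 K2 : Set ℂ} (c1 : IsClosed K1) (c2 : IsClosed K2) {M : ℝ}
    (hM : ∀ p ∈ K1 ∪ K2, |p.im| ≤ M ∧ ((p.re < 0 ∨ 1 < p.re) → p.im = 0))
    (hsq : ∀ z w : ℂ, z ∈ K1 → z + w ∈ K1 → z + w + I * w ∈ K2 → z + I * w ∈ K2 →
      w = 0 ∧ z.im = 0 ∧ (z.re ≤ 0 ∨ 1 ≤ z.re)) {r : ℝ} (hr : 0 < r) :
    ∃ κ > 0, ∀ q1 ∈ K1, ∀ q2 ∈ K1, ∀ q3 ∈ K2, ∀ q4 ∈ K2, ∀ d x a b : ℝ, |d| ≤ κ →
      ASq κ d x a b q1 q2 q3 q4 →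
        |a| ≤ r ∧ |b| ≤ r ∧ |q1.im| ≤ r ∧ (q1.re ≤ r ∨ 1 - r ≤ q1.re) := by
  set L := 20 * |M| + 20 with hL
  have k1 : IsCompact (K1 ∩ Metric.closedBall 0 L) := (isCompact_closedBall _ _).inter_left c1
  have k2 : IsCompact (K2 ∩ Metric.closedBall 0 L) := (isCompact_closedBall _ _).inter_left c2
  have hZ : IsClosed {q : (ℂ × ℂ) × (ℂ × ℂ) | r / 2 ≤ ‖q.1.2 - q.1.1‖ ∨ r ≤ |q.1.1.im| ∨
      (r ≤ q.1.1.re ∧ q.1.1.re ≤ 1 - r)} := by
    refine IsClosed.union (s₁ := {q : (ℂ × ℂ) × (ℂ × ℂ) | r / 2 ≤ ‖q.1.2 - q.1.1‖})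
      (isClosed_le continuous_const (by fun_prop))
      (IsClosed.union (s₁ := {q : (ℂ × ℂ) × (ℂ × ℂ) | r ≤ |q.1.1.im|})
        (isClosed_le continuous_const (by fun_prop))
        (IsClosed.inter (s₁ := {q : (ℂ × ℂ) × (ℂ × ℂ) | r ≤ q.1.1.re})
          (s₂ := {q : (ℂ × ℂ) × (ℂ × ℂ) | q.1.1.re ≤ 1 - r})
          (isClosed_le continuous_const (by fun_prop))
          (isClosed_le (by fun_prop) continuous_const)))
  obtain ⟨κ0, hκ0, H⟩ := (((k1.prod k1).prod (k2.prod k2)).inter_right hZ).exists_forall_le'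
    (f := fun q => ‖q.2.1 - q.1.2 - I * (q.1.2 - q.1.1)‖ + ‖q.2.2 - q.1.1 - I * (q.1.2 - q.1.1)‖)
    (by fun_prop) (a := 0) (by
      rintro ⟨⟨q1, q2⟩, q3, q4⟩ ⟨⟨⟨h1, h2⟩, h3, h4⟩, h5⟩
      by_contra hc
      simp only [not_lt] at hc
      have e1 : q3 - q2 - I * (q2 - q1) = 0 :=
        norm_eq_zero.1 (le_antisymm (le_trans (by simp) hc) (norm_nonneg _))
      have e2 : q4 - q1 - I * (q2 - q1) = 0 :=
        norm_eq_zero.1 (le_antisymm (le_trans (by simp) hc) (norm_nonneg _))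
      obtain ⟨a1, a2, a3⟩ := hsq q1 (q2 - q1) h1.1 (by simpa using h2.1)
        (by convert h3.1 using 1; linear_combination -e1)
        (by convert h4.1 using 1; linear_combination -e2)
      simp only [mem_ofPred_eq, a1, a2, norm_zero, abs_zero] at h5
      rcases h5 with h5 | h5 | h5
      · linarith
      · linarith
      · rcases a3 with a3 | a3 <;> linarith [h5.1, h5.2])
  refine ⟨min (min 1 (r / 6)) (κ0 / 30), by positivity, ?_⟩
  intro q1 h1 q2 h2 q3 h3 q4 h4 d x a b hd ⟨e1, e2, e3, e4, e5, e6, e7⟩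
  set κ := min (min 1 (r / 6)) (κ0 / 30)
  have g1 : κ ≤ 1 := (min_le_left _ _).trans (min_le_left _ _)
  have g2 : κ ≤ r / 6 := (min_le_left _ _).trans (min_le_right _ _)
  have g3 : κ ≤ κ0 / 30 := min_le_right _ _
  have m1 := hM q1 (Or.inl h1)
  have m2 := hM q2 (Or.inl h2)
  have m3 := hM q3 (Or.inr h3)
  have m4 := hM q4 (Or.inr h4)
  have hM' := le_abs_self M
  have hM0 := abs_nonneg M
  have i1 := abs_le.1 m1.1
  have i2 := abs_le.1 m2.1
  have i3 := abs_le.1 m3.1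
  have i4 := abs_le.1 m4.1
  rw [abs_le] at e1 e2 e3 e4 e5 e6 e7 hd
  by_cases hx : x < -(4 * |M| + 4)
  · have j1 := m1.2 (Or.inl (by linarith))
    have j2 := m2.2 (Or.inl (by linarith))
    have j3 := m3.2 (Or.inl (by linarith))
    have j4 := m4.2 (Or.inl (by linarith))
    exact ⟨abs_le.2 ⟨by linarith, by linarith⟩, abs_le.2 ⟨by linarith, by linarith⟩,
      by simp [j1, hr.le], Or.inl (by linarith)⟩
  by_cases hx' : 4 * |M| + 5 < x
  · have j1 := m1.2 (Or.inr (by linarith))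
    have j2 := m2.2 (Or.inr (by linarith))
    have j3 := m3.2 (Or.inr (by linarith))
    have j4 := m4.2 (Or.inr (by linarith))
    exact ⟨abs_le.2 ⟨by linarith, by linarith⟩, abs_le.2 ⟨by linarith, by linarith⟩,
      by simp [j1, hr.le], Or.inr (by linarith)⟩
  have hb : ∀ q : ℂ, |q.re| ≤ 10 * |M| + 10 → |q.im| ≤ M → q ∈ Metric.closedBall (0 : ℂ) L := by
    intro q a1 a2
    rw [mem_closedBall_zero_iff]
    linarith [norm_le_abs_re_add_abs_im q]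
  have hn : ∀ z : ℂ, |z.re| ≤ 5 * κ → |z.im| ≤ 5 * κ → ‖z‖ ≤ 10 * κ := fun z a1 a2 => by
    linarith [norm_le_abs_re_add_abs_im z]
  have hgood : ¬ (r / 2 ≤ ‖q2 - q1‖ ∨ r ≤ |q1.im| ∨ (r ≤ q1.re ∧ q1.re ≤ 1 - r)) := by
    intro hbad
    have := H ((q1, q2), (q3, q4))
      ⟨⟨⟨⟨h1, hb _ (abs_le.2 ⟨by linarith, by linarith⟩) m1.1⟩,
        ⟨h2, hb _ (abs_le.2 ⟨by linarith, by linarith⟩) m2.1⟩⟩,
        ⟨h3, hb _ (abs_le.2 ⟨by linarith, by linarith⟩) m3.1⟩,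
        ⟨h4, hb _ (abs_le.2 ⟨by linarith, by linarith⟩) m4.1⟩⟩, hbad⟩
    have n1 := hn (q3 - q2 - I * (q2 - q1))
      (by simp only [sub_re, mul_re, I_re, I_im, sub_im]; rw [abs_le]; constructor <;> linarith)
      (by simp only [sub_re, mul_im, I_re, I_im, sub_im]; rw [abs_le]; constructor <;> linarith)
    have n2 := hn (q4 - q1 - I * (q2 - q1))
      (by simp only [sub_re, mul_re, I_re, I_im, sub_im]; rw [abs_le]; constructor <;> linarith)
      (by simp only [sub_re, mul_im, I_re, I_im, sub_im]; rw [abs_le]; constructor <;> linarith)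
    simp only at this
    linarith
  push Not at hgood
  obtain ⟨b1, b2, b3⟩ := hgood
  have b4 := abs_le.1 ((abs_re_le_norm (q2 - q1)).trans b1.le)
  have b5 := abs_le.1 ((abs_im_le_norm (q2 - q1)).trans b1.le)
  rw [sub_re] at b4
  rw [sub_im] at b5
  refine ⟨abs_le.2 ⟨by linarith, by linarith⟩, abs_le.2 ⟨by linarith, by linarith⟩, b2.le, ?_⟩
  by_cases h : r ≤ q1.re
  · exact Or.inr (b3 h).le
  · exact Or.inl (not_le.1 h).le

lemma ASq.near {η κ δ d x a b : ℝ} {p1 p2 p3 p4 q1 q2 q3 q4 : ℂ} (h : ASq η d x a b p1 p2 p3 p4)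
    (h1 : ‖p1 - q1‖ ≤ δ) (h2 : ‖p2 - q2‖ ≤ δ) (h3 : ‖p3 - q3‖ ≤ δ) (h4 : ‖p4 - q4‖ ≤ δ)
    (hκ : η + 4 * δ ≤ κ) : ASq κ d x a b q1 q2 q3 q4 := by
  obtain ⟨e1, e2, e3, e4, e5, e6, e7⟩ := h
  have hδ : 0 ≤ δ := (norm_nonneg _).trans h1
  have a1 := (abs_re_le_norm _).trans h1
  have a2 := (abs_re_le_norm _).trans h2
  have a3 := (abs_re_le_norm _).trans h3
  have a4 := (abs_re_le_norm _).trans h4
  have b1 := (abs_im_le_norm _).trans h1
  have b2 := (abs_im_le_norm _).trans h2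
  have b3 := (abs_im_le_norm _).trans h3
  have b4 := (abs_im_le_norm _).trans h4
  simp only [sub_re, sub_im] at a1 a2 a3 a4 b1 b2 b3 b4
  rw [abs_le] at *
  refine ⟨abs_le.2 ⟨?_, ?_⟩, abs_le.2 ⟨?_, ?_⟩, abs_le.2 ⟨?_, ?_⟩, abs_le.2 ⟨?_, ?_⟩,
    abs_le.2 ⟨?_, ?_⟩, abs_le.2 ⟨?_, ?_⟩, abs_le.2 ⟨?_, ?_⟩⟩ <;> linarith

theorem core {σ1 σ2 : ℝ → ℂ} (c1 : Continuous σ1) (c2 : Continuous σ2)
    (i1 : InjOn σ1 (Icc 0 1)) (i2 : InjOn σ2 (Icc 0 1)) (s0 : σ1 0 = 0) (s1 : σ1 1 = 1)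
    (t0 : σ2 0 = 0) (t1 : σ2 1 = 1)
    (hdisj : ∀ p ∈ σ1 '' Icc 0 1, p ∈ σ2 '' Icc 0 1 → p = 0 ∨ p = 1) {J : Set ℂ}
    (j1 : σ1 '' Icc 0 1 ⊆ J) (j2 : σ2 '' Icc 0 1 ⊆ J)
    (hA : ∀ p ∈ J, ∀ q ∈ J, 0 ≤ p.re * q.re + p.im * q.im)
    (hB : ∀ p ∈ J, ∀ q ∈ J, 0 ≤ (p.re - 1) * (q.re - 1) + p.im * q.im)
    (T01 : Tame0 σ1) (T11 : Tame1 σ1) (T02 : Tame0 σ2) (T12 : Tame1 σ2) :
    ∃ z w : ℂ, w ≠ 0 ∧ z ∈ J ∧ z + w ∈ J ∧ z + w + I * w ∈ J ∧ z + I * w ∈ J := by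
  by_contra hno
  push Not at hno
  have h0 : (0 : ℂ) ∈ J := j1 ⟨0, ⟨le_rfl, zero_le_one⟩, s0⟩
  have h1 : (1 : ℂ) ∈ J := j1 ⟨1, ⟨zero_le_one, le_rfl⟩, s1⟩
  have hre : ∀ p ∈ J, 0 ≤ p.re ∧ p.re ≤ 1 := fun p hp =>
    ⟨by simpa using hA p hp 1 h1, by simpa using hB p hp 0 h0⟩
  have hK : ∀ p ∈ Kset σ1 ∪ Kset σ2, (p.im = 0 ∧ p.re ≤ 0) ∨ p ∈ J ∨ (p.im = 0 ∧ 1 ≤ p.re) := by
    rintro p (hp | hp)
    · exact hp.imp_right (Or.imp_left fun h => j1 h)
    · exact hp.imp_right (Or.imp_left fun h => j2 h)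
  obtain ⟨M, hM⟩ := ((isCompact_Icc (a := (0 : ℝ)) (b := 1)).image c1).union
    (isCompact_Icc.image c2) |>.isBounded.exists_norm_le
  have hM0 : 0 ≤ M := by simpa [s0] using hM (σ1 0) (Or.inl ⟨0, ⟨le_rfl, zero_le_one⟩, rfl⟩)
  have hsq := fun r hr => approx_sq (isClosed_Kset c1) (isClosed_Kset c2) (M := M) (r := r)
    (fun p hp => ⟨by
      rcases hp with (hp | hp | hp) | (hp | hp | hp)
      · simpa [hp.1] using hM0
      · exact (abs_im_le_norm p).trans (hM p (Or.inl hp))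
      · simpa [hp.1] using hM0
      · simpa [hp.1] using hM0
      · exact (abs_im_le_norm p).trans (hM p (Or.inr hp))
      · simpa [hp.1] using hM0, fun h => by
      rcases hK p hp with a | a | a
      · exact a.1
      · have := hre p a
        rcases h with h | h <;> linarith
      · exact a.1⟩)
    (fun z w a1 a2 a3 a4 => by
      have b1 := hK _ (Or.inl a1)
      have b2 := hK _ (Or.inl a2)
      have b3 := hK _ (Or.inr a3)
      have b4 := hK _ (Or.inr a4)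
      have hw : w = 0 := by
        by_contra hw
        have hI : I * w ≠ 0 := mul_ne_zero I_ne_zero hw
        have e1 : z + w + I * (I * w) = z := by linear_combination w * I_mul_I
        have e2 : z + w + I * w + -w = z + I * w := by ring
        have e3 : z + w + I * w + I * -w = z + w := by ring
        have e4 : z + I * w + -(I * w) = z := by ring
        have e5 : z + I * w + I * -(I * w) = z + w + I * w := by linear_combination (-w) * I_mul_I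
        exact hno z w hw (corner hA hB h0 h1 hw b1 b2 b4)
          (corner hA hB h0 h1 hI b2 b3 (by rw [e1]; exact b1))
          (corner hA hB h0 h1 (neg_ne_zero.2 hw) b3 (by rw [e2]; exact b4) (by rw [e3]; exact b2))
          (corner hA hB h0 h1 (neg_ne_zero.2 hI) b4 (by rw [e4]; exact b1) (by rw [e5]; exact b3))
      refine ⟨hw, ?_⟩
      rw [hw, mul_zero, add_zero] at a4
      rcases a1 with a1 | a1 | a1
      · exact ⟨a1.1, Or.inl a1.2⟩
      · rcases a4 with a4 | a4 | a4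
        · exact ⟨a4.1, Or.inl a4.2⟩
        · rcases hdisj z a1 a4 with rfl | rfl <;> simp
        · exact ⟨a4.1, Or.inr a4.2⟩
      · exact ⟨a1.1, Or.inr a1.2⟩) hr
  obtain ⟨κ0, hκ0, H0⟩ := hsq (1 / 5) (by norm_num)
  let φ : ContDiffBump (1 / 2 : ℝ) := ⟨1 / 12, 1 / 6, by norm_num, by norm_num⟩
  obtain ⟨hφ, C, hC⟩ := UC1.of_compact (φ.contDiff (n := 1)) (φ.hasCompactSupport.fderiv ℝ)
  have hC0 : 0 ≤ C := (norm_nonneg _).trans (hC 0)
  set H := κ0 / (C + 1) with hH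
  have hH0 : 0 < H := by positivity
  have hder : ∀ x, deriv (fun x => H * φ x) x = H * deriv φ x := fun x => deriv_const_mul _ (hφ.1 x)
  have hd1 : ∀ x, |deriv (fun x => H * φ x) x| ≤ κ0 := by
    intro x
    rw [hder, abs_mul, abs_of_pos hH0, ← Real.norm_eq_abs, norm_deriv_eq_norm_fderiv]
    have : H * (C + 1) = κ0 := by rw [hH]; field_simp
    nlinarith [hC x]
  have hd2 : ∀ x : ℝ, (x ≤ 1 / 4 ∨ 3 / 4 ≤ x) → φ x = 0 ∧ deriv φ x = 0 := by
    intro x hx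
    have : (φ : ℝ → ℝ) =ᶠ[𝓝 x] fun _ => 0 := by
      have h2 : {y : ℝ | 1 / 6 < dist y (1 / 2)} ∈ 𝓝 x := by
        refine (isOpen_lt continuous_const (by fun_prop)).mem_nhds ?_
        rw [mem_ofPred_eq, Real.dist_eq, lt_abs]
        rcases hx with hx | hx
        · right; linarith
        · left; linarith
      filter_upwards [h2] with y hy using φ.zero_of_le_dist (le_of_lt hy)
    exact ⟨this.self_of_nhds, by rw [this.deriv_eq]; simp⟩
  obtain ⟨r1, hr1, R1⟩ := exists_lift c1 i1 s0 s1 (fun u hu => hre _ (j1 ⟨u, hu, rfl⟩)) T01 T11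
    (ε := H / 20) (by positivity)
  obtain ⟨r2, hr2, R2⟩ := exists_lift c2 i2 t0 t1 (fun u hu => hre _ (j2 ⟨u, hu, rfl⟩)) T02 T12
    (ε := H / 20) (by positivity)
  set r := min (min (r1 / 10) (r2 / 10)) (min (1 / 20) (H / 20)) with hr
  have hr0 : 0 < r := by positivity
  have g1 : r ≤ r1 / 10 := (min_le_left _ _).trans (min_le_left _ _)
  have g2 : r ≤ r2 / 10 := (min_le_left _ _).trans (min_le_right _ _)
  have g3 : r ≤ 1 / 20 := (min_le_right _ _).trans (min_le_left _ _)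
  have g4 : r ≤ H / 20 := (min_le_right _ _).trans (min_le_right _ _)
  obtain ⟨κ1, hκ1, H1⟩ := hsq r hr0
  set κ := min (min κ0 κ1) r with hκ
  have hκ' : 0 < κ := by positivity
  have k1 : κ ≤ κ0 := (min_le_left _ _).trans (min_le_left _ _)
  have k2 : κ ≤ κ1 := (min_le_left _ _).trans (min_le_right _ _)
  have k3 : κ ≤ r := min_le_right _ _
  obtain ⟨Λ1, z1, G1, L1⟩ := R1 (κ / 8) (by positivity)
  obtain ⟨Λ2, z2, G2, L2⟩ := R2 (κ / 8) (by positivity)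
  have small : ∀ p1 ∈ Λ1, ∀ p2 ∈ Λ1, ∀ p3 ∈ Λ2, ∀ p4 ∈ Λ2, ∀ x a b : ℝ,
      ASq (κ / 2) 0 x a b p1.1 p2.1 p3.1 p4.1 →
        |p1.2 - p2.2 + p3.2 - p4.2 + (b * b - a * a) / 2| ≤ H / 4 := by
    intro p1 h1 p2 h2 p3 h3 p4 h4 x a b hs
    obtain ⟨⟨q1, a1, b1⟩, l1, u1⟩ := L1 p1 h1
    obtain ⟨⟨q2, a2, b2⟩, l2, u2⟩ := L1 p2 h2
    obtain ⟨⟨q3, a3, b3⟩, l3, u3⟩ := L2 p3 h3
    obtain ⟨⟨q4, a4, b4⟩, l4, u4⟩ := L2 p4 h4
    obtain ⟨f1, f2, f3, f4⟩ := H1 q1 a1 q2 a2 q3 a3 q4 a4 0 x a b (by simpa using hκ1.le)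
      (hs.near b1 b2 b3 b4 (by linarith))
    obtain ⟨e1, e2, e3, e4, e5, e6, e7⟩ := hs
    have f5 := (abs_re_le_norm _).trans b1
    have f6 := (abs_im_le_norm _).trans b1
    rw [sub_re] at f5
    rw [sub_im] at f6
    have f7 : a * a ≤ r * r := by rw [← abs_mul_abs_self a]; gcongr
    have f8 : b * b ≤ r * r := by rw [← abs_mul_abs_self b]; gcongr
    have f9 : r * r ≤ H / 20 := by nlinarith
    have f10 := mul_self_nonneg a
    have f11 := mul_self_nonneg b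
    rw [abs_le] at e1 e2 e3 e4 e5 e6 e7 f1 f2 f3 f5 f6
    have n1 : |p1.1.im| ≤ r1 := abs_le.2 ⟨by linarith, by linarith⟩
    have n2 : |p2.1.im| ≤ r1 := abs_le.2 ⟨by linarith, by linarith⟩
    have n3 : |p3.1.im| ≤ r2 := abs_le.2 ⟨by linarith, by linarith⟩
    have n4 : |p4.1.im| ≤ r2 := abs_le.2 ⟨by linarith, by linarith⟩
    rcases f4 with f4 | f4
    · have v1 := abs_le.1 (l1 (by linarith) n1)
      have v2 := abs_le.1 (l2 (by linarith) n2)
      have v3 := abs_le.1 (l3 (by linarith) n3)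
      have v4 := abs_le.1 (l4 (by linarith) n4)
      exact abs_le.2 ⟨by linarith, by linarith⟩
    · have v1 := abs_le.1 (u1 (by linarith) n1)
      have v2 := abs_le.1 (u2 (by linarith) n2)
      have v3 := abs_le.1 (u3 (by linarith) n3)
      have v4 := abs_le.1 (u4 (by linarith) n4)
      exact abs_le.2 ⟨by linarith, by linarith⟩
  have := link4 G1 G1 G2 G2 (hφ.const_mul H) (B := H) (fun x => by nlinarith [φ.le_one (x := x)])
    (ε := H / 4) (η := κ / 2) (by positivity) ?_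
    (fun p1 h1 p2 h2 p3 h3 p4 h4 x a b hs => (abs_le.1 (small p1 h1 p2 h2 p3 h3 p4 h4 x a b hs)).1)
    (1 / 2)
  · rw [φ.one_of_mem_closedBall (Metric.mem_closedBall_self (by norm_num [φ]))] at this
    linarith
  · intro p1 h1 p2 h2 p3 h3 p4 h4 x a b hs
    obtain ⟨⟨q1, a1, b1⟩, -⟩ := L1 p1 h1
    obtain ⟨⟨q2, a2, b2⟩, -⟩ := L1 p2 h2
    obtain ⟨⟨q3, a3, b3⟩, -⟩ := L2 p3 h3
    obtain ⟨⟨q4, a4, b4⟩, -⟩ := L2 p4 h4
    obtain ⟨-, -, -, f4⟩ := H0 q1 a1 q2 a2 q3 a3 q4 a4 _ x a b (hd1 x)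
      (hs.near b1 b2 b3 b4 (by linarith))
    have f5 := abs_le.1 (hs.near b1 b2 b3 b4 (κ := κ) (by linarith)).1
    obtain ⟨f6, f7⟩ := hd2 x (f4.imp (fun h => by linarith) fun h => by linarith)
    rw [hder, f7, mul_zero] at hs
    rw [f6, mul_zero, add_zero]
    exact (abs_le.1 (small p1 h1 p2 h2 p3 h3 p4 h4 x a b hs)).2

end Pool.Agent.Lib.MP_5a3ebe_gt.H46
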