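import Mathlib

namespace Pool.Agent.Lib.MP_5a3ebe_gt

/-- `v` lists the vertices of a simple polygonal path that is invariant under the horizontal
translation by `L`, with `n` edges per period. -/
def PeriodicPolygon (L : ℝ) (n : ℕ) (v : ℤ → ℂ) : Prop :=
  0 < n ∧ (∀ i, v (i + n) = v i + L) ∧ (∀ i, v i ≠ v (i + 1)) ∧
    ∀ i j, i < j → ∀ p, p ∈ segment ℝ (v i) (v (i + 1)) → p ∈ segment ℝ (v j) (v (j + 1)) →
      j = i + 1 ∧ p = v j

/-- The union of the edges. -/
def polygonTrace (v : ℤ → ℂ) : Set ℂ := ⋃ i, segment ℝ (v i) (v (i + 1))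

/-- The integral of `y dx` along one period. -/
noncomputable def polygonArea (n : ℕ) (v : ℤ → ℂ) : ℝ :=
  ∑ i ∈ Finset.range n, ((v i).im + (v (i + 1)).im) / 2 * ((v (i + 1)).re - (v i).re)

end Pool.Agent.Lib.MP_5a3ebe_gt
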