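import Pool.Agent.Lib.MP_5a3ebe_gt.H46Lift
import Pool.Agent.Lib.MP_5a3ebe_gt.H46Square
import Pool.Agent.Lib.MP_5a3ebe_gt.H46PerDefs

/-! Periodic polygons: the area inequality. -/

namespace Pool.Agent.Lib.MP_5a3ebe_gt.H46

open Set Filter Topology Complex

lemma seg_re {a b p : ℂ} {s t : ℝ} (hp : p ∈ segment ℝ a b) (ha : s ≤ a.re ∧ a.re ≤ t)
    (hb : s ≤ b.re ∧ b.re ≤ t) : s ≤ p.re ∧ p.re ≤ t := by
  obtain ⟨μ, h0, h1, rfl⟩ := mem_seg.1 hp
  simp only [add_re, mul_re, ofReal_re, ofReal_im, sub_re, zero_mul, sub_zero]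
  constructor <;> nlinarith [ha.1, ha.2, hb.1, hb.2]

lemma seg_im {a b p : ℂ} {t : ℝ} (hp : p ∈ segment ℝ a b) (ha : |a.im| ≤ t)
    (hb : |b.im| ≤ t) : |p.im| ≤ t := by
  obtain ⟨μ, h0, h1, rfl⟩ := mem_seg.1 hp
  simp only [add_im, mul_im, ofReal_re, ofReal_im, sub_im, zero_mul, add_zero]
  rw [abs_le] at *
  constructor <;> nlinarith [ha.1, ha.2, hb.1, hb.2]

lemma seg_end {a b p : ℂ} (hp : p ∈ segment ℝ a b) (h : a.re ≠ b.re) (e : p.re = b.re) : p = b := by
  obtain ⟨μ, h0, h1, rfl⟩ := mem_seg.1 hp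
  simp only [add_re, mul_re, ofReal_re, ofReal_im, sub_re, zero_mul, sub_zero] at e
  have : (1 - μ) * (a.re - b.re) = 0 := by linarith
  rcases mul_eq_zero.1 this with h2 | h2
  · have : μ = 1 := by linarith
    simp [this]
  · exact (h (by linarith)).elim

def cons (a : ℂ) (u : ℕ → ℂ) : ℕ → ℂ
  | 0 => a
  | k + 1 => u k

def snoc (u : ℕ → ℂ) (m : ℕ) (b : ℂ) (k : ℕ) : ℂ := if k ≤ m then u k else b

lemma Simple.cons {u : ℕ → ℂ} {m : ℕ} (h : Simple u m) {a : ℂ} (ha : a.re < (u 0).re)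
    (hu : ∀ k ≤ m, (u 0).re ≤ (u k).re) : Simple (cons a u) (m + 1) := by
  refine ⟨fun i hi e => ?_, fun i j hij hj p hp hq => ?_⟩
  · rcases i with _ | i
    · exact ha.ne (congrArg re e)
    · exact h.1 i (by omega) e
  · obtain ⟨j, rfl⟩ : ∃ k, j = k + 1 := ⟨j - 1, by omega⟩
    rcases i with _ | i
    · have a1 := (seg_re (s := a.re) (t := (u 0).re) hp ⟨le_rfl, ha.le⟩ ⟨ha.le, le_rfl⟩).2
      have a2 := (seg_re (s := (u 0).re) (t := max (u j).re (u (j + 1)).re) hq
        ⟨hu j (by omega), le_max_left _ _⟩ ⟨hu (j + 1) (by omega), le_max_right _ _⟩).1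
      have e : p = u 0 := seg_end hp ha.ne (le_antisymm a1 a2)
      rw [e] at hq
      have : j = 0 := by have := h.vtx (m := 0) (j := j) (by omega) (by omega) hq; omega
      subst this
      exact ⟨rfl, e⟩
    · have := h.2 i j (by omega) (by omega) p hp hq
      exact ⟨by omega, this.2⟩

lemma Simple.snoc {u : ℕ → ℂ} {m : ℕ} (h : Simple u m) {b : ℂ} (hb : (u m).re < b.re)
    (hu : ∀ k ≤ m, (u k).re ≤ (u m).re) : Simple (snoc u m b) (m + 1) := by
  have e1 : ∀ k ≤ m, H46.snoc u m b k = u k := fun k hk => if_pos hk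
  have e2 : H46.snoc u m b (m + 1) = b := if_neg (by omega)
  refine ⟨fun i hi e => ?_, fun i j hij hj p hp hq => ?_⟩
  · rcases Nat.lt_succ_iff_lt_or_eq.1 hi with h1 | rfl
    · rw [e1 i h1.le, e1 (i + 1) h1] at e
      exact h.1 i h1 e
    · rw [e1 i le_rfl, e2] at e
      exact hb.ne (congrArg re e)
  · rw [e1 i (by omega), e1 (i + 1) (by omega)] at hp
    rw [e1 j (by omega)] at hq ⊢
    rcases Nat.lt_succ_iff_lt_or_eq.1 hj with h1 | rfl
    · rw [e1 (j + 1) h1] at hq
      exact h.2 i j hij h1 p hp hq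
    · rw [e2] at hq
      have a1 := (seg_re (s := (u j).re) (t := b.re) hq ⟨le_rfl, hb.le⟩ ⟨hb.le, le_rfl⟩).1
      have a2 := (seg_re (s := min (u i).re (u (i + 1)).re) (t := (u j).re) hp
        ⟨min_le_left _ _, hu i (by omega)⟩ ⟨min_le_right _ _, hu (i + 1) (by omega)⟩).2
      have e : p = u j := seg_end (by rwa [segment_symm]) hb.ne' (le_antisymm a2 a1)
      rw [e] at hp
      have := h.vtx le_rfl hij hp
      exact ⟨by omega, e⟩

lemma per_bound {f : ℤ → ℝ} {n : ℕ} (hn : 0 < n) (hf : ∀ i, f (i + n) = f i) :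
    ∃ B, ∀ i, |f i| ≤ B := by
  have hp : Function.Periodic f (n : ℤ) := hf
  refine ⟨∑ k ∈ Finset.range n, |f k|, fun i => ?_⟩
  have h0 : (0 : ℤ) < n := by exact_mod_cast hn
  have e : f i = f ((i % n).toNat : ℕ) := by
    rw [Int.toNat_of_nonneg (Int.emod_nonneg _ h0.ne')]
    conv_lhs => rw [← Int.emod_add_ediv_mul i n]
    exact hp.int_mul _ _
  rw [e]
  refine Finset.single_le_sum (f := fun k : ℕ => |f k|) (fun _ _ => abs_nonneg _) ?_
  have := Int.emod_lt_of_pos i h0
  have := Int.emod_nonneg i h0.ne'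
  rw [Finset.mem_range]; omega

lemma per_sum {f : ℤ → ℝ} {n : ℕ} (hn : 0 < n) (hf : ∀ i, f (i + n) = f i)
    (h0 : ∑ k ∈ Finset.range n, f k = 0) :
    ∃ B, ∀ (i : ℤ) (m : ℕ), |∑ k ∈ Finset.range m, f (i + k)| ≤ B := by
  obtain ⟨B, hB⟩ := per_bound hn hf
  have hB0 : 0 ≤ B := (abs_nonneg _).trans (hB 0)
  have step : ∀ i : ℤ, ∑ k ∈ Finset.range n, f (i + 1 + k) = ∑ k ∈ Finset.range n, f (i + k) := by
    intro i
    have a1 := Finset.sum_range_succ (fun k : ℕ => f (i + k)) n
    have a2 := Finset.sum_range_succ' (fun k : ℕ => f (i + k)) n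
    simp only [Nat.cast_add, Nat.cast_one, Nat.cast_zero, add_zero, hf] at a1 a2
    have : ∀ k : ℕ, i + 1 + k = i + (k + 1) := fun k => by ring
    simp only [this]
    linarith
  have h1 : ∀ i : ℤ, ∑ k ∈ Finset.range n, f (i + k) = 0 := by
    intro i
    induction i using Int.induction_on with
    | zero => simpa using h0
    | succ i ih => rw [step, ih]
    | pred i ih => rw [← step, sub_add_cancel, ih]
  refine ⟨n * B, fun i m => ?_⟩
  induction m using Nat.strong_induction_on with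
  | _ m ih =>
  rcases lt_or_ge m n with h | h
  · refine (Finset.abs_sum_le_sum_abs _ _).trans ((Finset.sum_le_sum fun k _ => hB _).trans ?_)
    rw [Finset.sum_const, Finset.card_range, nsmul_eq_mul]
    gcongr
  · obtain ⟨m, rfl⟩ : ∃ k, m = k + n := ⟨m - n, by omega⟩
    rw [Finset.sum_range_add]
    have := h1 (i + m)
    simp only [add_assoc] at this
    simp only [Nat.cast_add, this, add_zero]
    exact ih m (by omega)

variable {L : ℝ} {n : ℕ} {v : ℤ → ℂ}

lemma per_vertex (h : PeriodicPolygon L n v) :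
    ∃ B, ∀ i : ℤ, |(v i).im| ≤ B ∧ |(v i).re - L / n * i| ≤ B := by
  have hn : (n : ℝ) ≠ 0 := by exact_mod_cast h.1.ne'
  obtain ⟨B1, h1⟩ := per_bound (f := fun i => (v i).im) h.1 fun i => by simp [h.2.1]
  obtain ⟨B2, h2⟩ := per_bound (f := fun i => (v i).re - L / n * i) h.1 fun i => by
    simp only [h.2.1, add_re, ofReal_re]; push_cast; field_simp; ring
  exact ⟨max B1 B2, fun i => ⟨(h1 i).trans (le_max_left _ _), (h2 i).trans (le_max_right _ _)⟩⟩

theorem per_lift (hL : 0 < L) (h : PeriodicPolygon L n v) : ∃ C : ℝ, ∀ N : ℕ, ∃ Λ, Gen Λ ∧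
    ∀ p ∈ Λ, |p.1.im| ≤ C ∧ (C ≤ p.1.re → p.1.re ≤ N * L - C → p.1 ∈ polygonTrace v) ∧
      |p.2 - polygonArea n v / L * max 0 (min p.1.re (N * L))| ≤ C := by
  have hn : (0 : ℝ) < n := by exact_mod_cast h.1
  have hn1 : (1 : ℝ) ≤ n := by exact_mod_cast h.1
  obtain ⟨B, hB⟩ := per_vertex h
  have hB0 : 0 ≤ B := (abs_nonneg _).trans (hB 0).1
  set c := polygonArea n v with hc
  obtain ⟨B', hB'⟩ := per_sum (f := fun i => trap (v i) (v (i + 1)) - c / n) h.1
    (fun i => by
      simp only [show i + n + 1 = i + 1 + n by ring, h.2.1]; simp [trap])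
    (by
      rw [Finset.sum_sub_distrib, Finset.sum_const, Finset.card_range, nsmul_eq_mul, hc,
        polygonArea, sub_eq_zero, mul_div_cancel₀ _ hn.ne']
      exact Finset.sum_congr rfl fun i _ => by simp only [trap]; ring)
  have hB'0 : 0 ≤ B' := (abs_nonneg _).trans (hB' 0 0)
  set s := |c / L| with hs
  have hs0 : 0 ≤ s := abs_nonneg _
  set E := 2 * B + L + 1 with hE
  have hE0 : 0 ≤ E := by positivity
  refine ⟨B' + 3 * B * E + s * (6 * E) + E, fun N => ?_⟩
  obtain ⟨i0, hi0, hmin⟩ := Finset.exists_min_image (Finset.range (n * N + 1))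
    (fun k : ℕ => (v k).re) ⟨0, by simp⟩
  rw [Finset.mem_range] at hi0
  obtain ⟨m, hm, hmax⟩ := Finset.exists_max_image (Finset.range (n * N - i0 + 1))
    (fun k : ℕ => (v ((i0 : ℤ) + k)).re) ⟨0, by simp⟩
  rw [Finset.mem_range] at hm
  set u : ℕ → ℂ := fun k => v ((i0 : ℤ) + k) with hu
  have hS : Simple u m := by
    refine ⟨fun i _ => by simpa only [hu, Nat.cast_add, Nat.cast_one, ← add_assoc] using h.2.2.1 _,
      fun i j hij _ p hp hq => ?_⟩
    simp only [hu, Nat.cast_add, Nat.cast_one, ← add_assoc] at hp hq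
    have := h.2.2.2 _ _ (by omega) p hp hq
    exact ⟨by omega, this.2⟩
  have u0 : ∀ k ≤ m, (u 0).re ≤ (u k).re := fun k hk => by
    have := hmin (i0 + k) (Finset.mem_range.2 (by omega))
    simpa [hu] using this
  have um : ∀ k ≤ m, (u k).re ≤ (u m).re := fun k hk => hmax k (Finset.mem_range.2 (by omega))
  have hK : L / n * ((n * N : ℕ) : ℝ) = N * L := by push_cast; field_simp
  have hLn : 0 < L / n := by positivity
  have hLn1 : L / n ≤ L := div_le_self hL.le hn1
  have r0 : |(u 0).re| ≤ B := by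
    have a1 := hmin 0 (by simp)
    have a2 := abs_le.1 (hB 0).2
    have a3 := abs_le.1 (hB i0).2
    have a4 : 0 ≤ L / n * ((i0 : ℤ) : ℝ) := by positivity
    simp only [hu, Nat.cast_zero, Int.cast_zero, mul_zero, sub_zero, add_zero] at a1 a2 ⊢
    exact abs_le.2 ⟨by linarith, by linarith⟩
  have r1 : |(u m).re - N * L| ≤ B := by
    have a1 := hmax (n * N - i0) (by simp)
    have e : (i0 : ℤ) + ((n * N - i0 : ℕ) : ℤ) = ((n * N : ℕ) : ℤ) := by omega
    simp only [e] at a1
    have a2 := abs_le.1 (hB ((n * N : ℕ) : ℤ)).2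
    have a3 := abs_le.1 (hB ((i0 : ℤ) + m)).2
    have a4 : L / n * (((i0 : ℤ) + m : ℤ) : ℝ) ≤ L / n * ((n * N : ℕ) : ℝ) := by
      gcongr
      exact_mod_cast (by omega : i0 + m ≤ n * N)
    rw [Int.cast_natCast, hK] at a2
    rw [hK] at a4
    exact abs_le.2 ⟨by linarith, by linarith⟩
  set a : ℝ := (u 0).re - 1 with ha
  set b : ℝ := (u m).re + 1 with hb
  set w := snoc (cons a u) (m + 1) b with hw
  have w0 : w 0 = a := if_pos (by omega)
  have w1 : ∀ k ≤ m, w (k + 1) = u k := fun k hk => if_pos (by omega)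
  have w2 : w (m + 2) = b := if_neg (by omega)
  have hSw : Simple w (m + 1 + 1) := (hS.cons (a := a) (by simp [ha]) u0).snoc
    (by simp [cons, hb]) fun k hk => by
      rcases k with _ | k
      · have := u0 m le_rfl
        simp only [cons, ofReal_re]; linarith
      · exact um k (by omega)
  have wc : ∀ k ≤ m + 2, k = 0 ∨ (∃ j ≤ m, k = j + 1) ∨ k = m + 2 := fun k hk => by
    rcases k with _ | k
    · exact Or.inl rfl
    · by_cases h1 : k ≤ m
      · exact Or.inr (Or.inl ⟨k, h1, rfl⟩)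
      · exact Or.inr (Or.inr (by omega))
  have hSt : Strip w (m + 1 + 1) a b := by
    refine ⟨w0, w2, fun k hk => ?_⟩
    have := u0 m le_rfl
    rcases wc k hk with rfl | ⟨j, hj, rfl⟩ | rfl
    · rw [w0, ofReal_re]; constructor <;> linarith
    · rw [w1 j hj]; constructor <;> linarith [u0 j hj, um j hj]
    · rw [w2, ofReal_re]; constructor <;> linarith
  have wim : ∀ k ≤ m + 2, |(w k).im| ≤ B := fun k hk => by
    rcases wc k hk with rfl | ⟨j, hj, rfl⟩ | rfl
    · simpa [w0] using hB0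
    · rw [w1 j hj]; exact (hB _).1
    · simpa [w2] using hB0
  have wre : ∀ k < m + 2, |(w (k + 1)).re - (w k).re| ≤ E := fun k hk => by
    rcases wc k hk.le with rfl | ⟨j, hj, rfl⟩ | rfl
    · rw [w1 0 (by omega), w0, ofReal_re, ha, sub_sub_cancel, abs_one]; linarith
    · rcases eq_or_lt_of_le hj with rfl | hj'
      · rw [w2, w1 j hj, ofReal_re, hb, add_sub_cancel_left, abs_one]; linarith
      · rw [w1 j hj, w1 (j + 1) hj']
        have a1 := abs_le.1 (hB ((i0 : ℤ) + j)).2
        have a2 := abs_le.1 (hB ((i0 : ℤ) + (j + 1 : ℕ))).2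
        push_cast at a1 a2
        simp only [hu]
        push_cast
        exact abs_le.2 ⟨by linarith, by linarith⟩
    · omega
  have htrap : ∀ p q : ℂ, |p.im| ≤ B → |q.im| ≤ B → |q.re - p.re| ≤ E → |trap p q| ≤ B * E := by
    intro p q a1 a2 a3
    unfold trap
    rw [abs_div, abs_mul, abs_two]
    have := mul_le_mul ((abs_add_le _ _).trans (add_le_add a1 a2)) a3 (abs_nonneg _) (by linarith)
    linarith
  have wz1 : ∀ j ≤ m, |zs w (j + 1) - c / L * (u j).re| ≤ B' + B * E + s * (2 * E) := by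
    intro j hj
    have e : zs w (j + 1) = trap (w 0) (w 1) +
        (∑ k ∈ Finset.range j, (trap (v (i0 + k)) (v (i0 + k + 1)) - c / n) + c / n * j) := by
      rw [zs, Finset.sum_range_succ', add_comm, Finset.sum_sub_distrib, Finset.sum_const,
        Finset.card_range, nsmul_eq_mul, mul_comm, sub_add_cancel]
      congr 1
      refine Finset.sum_congr rfl fun k hk => ?_
      rw [Finset.mem_range] at hk
      rw [w1 k (by omega), w1 (k + 1) (by omega)]
      simp only [hu, Nat.cast_add, Nat.cast_one, ← add_assoc]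
    have a1 := abs_le.1 (hB' i0 j)
    have a2 := abs_le.1 (htrap _ _ (wim 0 (by omega)) (wim 1 (by omega)) (wre 0 (by omega)))
    have a3 : |c / L * (L / n * j - (u j).re)| ≤ s * (2 * E) := by
      rw [abs_mul]
      gcongr
      have b1 := abs_le.1 (hB ((i0 : ℤ) + j)).2
      have b2 := abs_le.1 (hB (i0 : ℤ)).2
      have b3 := abs_le.1 r0
      simp only [hu, Nat.cast_zero, add_zero] at b3 ⊢
      push_cast at b1 b2
      exact abs_le.2 ⟨by linarith, by linarith⟩
    have e2 : c / L * (L / n * j - (u j).re) = c / n * j - c / L * (u j).re := by field_simp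
    rw [e2] at a3
    rw [e]
    rw [abs_le] at a3 ⊢
    constructor <;> linarith
  have hsm : ∀ x y t : ℝ, |x - y| ≤ t → |c / L * x - c / L * y| ≤ s * t := fun x y t h1 => by
    rw [← mul_sub, abs_mul]; gcongr
  have wz : ∀ k ≤ m + 2, |zs w k - c / L * (w k).re| ≤ B' + 2 * B * E + s * (3 * E) := by
    intro k hk
    have b0 : 0 ≤ B * E := by positivity
    have b1 : 0 ≤ s * E := by positivity
    rcases wc k hk with rfl | ⟨j, hj, rfl⟩ | rfl
    · have := hsm 0 a E (by rw [zero_sub, abs_neg, ha]; linarith [abs_sub (u 0).re 1, abs_one (α := ℝ)])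
      rw [w0, ofReal_re]
      simp only [zs, Finset.range_zero, Finset.sum_empty, mul_zero] at this ⊢
      linarith
    · rw [w1 j hj]; linarith [wz1 j hj]
    · have a1 := abs_le.1 (wz1 m le_rfl)
      have a2 := abs_le.1 (htrap _ _ (wim (m + 1) (by omega)) (wim (m + 2) le_rfl)
        (wre (m + 1) (by omega)))
      have a3 := abs_le.1 (hsm (u m).re b E (by rw [hb, sub_add_cancel_left, abs_neg, abs_one]; linarith))
      rw [zs_succ, w2, ofReal_re]
      rw [w2] at a2
      exact abs_le.2 ⟨by linarith, by linarith⟩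
  have hNL : 0 ≤ (N : ℝ) * L := by positivity
  have b0 : 0 ≤ B * E := by positivity
  have b1 : 0 ≤ s * E := by positivity
  have r0' := abs_le.1 r0
  have r1' := abs_le.1 r1
  refine ⟨_, gen_lift (m + 1) w hSw hSt, ?_⟩
  rintro p (hp | ⟨k, hk, hp⟩ | hp)
  · refine ⟨by rw [hp.1, abs_zero]; linarith, fun h1 _ => by linarith [hp.2.1], ?_⟩
    have := hsm 0 (max 0 (min p.1.re (N * L))) E (by
      rw [zero_sub, abs_neg, abs_of_nonneg (le_max_left _ _)]
      exact max_le hE0 ((min_le_left _ _).trans (by linarith [hp.2.1])))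
    rw [mul_zero] at this
    rw [hp.2.2]; linarith
  · have hseg := edge_seg hp
    have a1 := seg_im hseg (wim k (by omega)) (wim (k + 1) (by omega))
    have a2 := hSt.seg (by omega) (by omega) hseg
    have a3 := abs_le.1 (wre k hk)
    have a4 := seg_re (s := (w k).re - E) (t := (w k).re + E) hseg ⟨by linarith, by linarith⟩
      ⟨by linarith, by linarith⟩
    refine ⟨by linarith, fun h1 h2 => ?_, ?_⟩
    · rcases wc k hk.le with rfl | ⟨j, hj, rfl⟩ | rfl
      · rw [w0, w1 0 (by omega)] at hseg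
        have := (seg_re (s := a) (t := (u 0).re) hseg ⟨le_rfl, by simp [ha]⟩
          ⟨by simp [ha], le_rfl⟩).2
        linarith
      · rcases eq_or_lt_of_le hj with rfl | hj'
        · rw [w2, w1 j hj] at hseg
          have := (seg_re (s := (u j).re) (t := b) hseg ⟨le_rfl, by simp [hb]⟩
            ⟨by simp [hb], le_rfl⟩).1
          linarith
        · rw [w1 j hj, w1 (j + 1) hj'] at hseg
          refine mem_iUnion.2 ⟨(i0 : ℤ) + j, ?_⟩
          simpa only [hu, Nat.cast_add, Nat.cast_one, ← add_assoc] using hseg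
      · omega
    · obtain ⟨t, -, -, ht⟩ := hp
      have e : p.2 = zs w k + trap (w k) p.1 := by rw [ht]
      have a5 := abs_le.1 (wz k (by omega))
      have a6 := abs_le.1 (htrap (w k) p.1 (wim k (by omega)) a1 (abs_le.2 ⟨by linarith, by linarith⟩))
      have a7 := abs_le.1 (hsm (w k).re (max 0 (min p.1.re (N * L))) (2 * E) (by
        rcases max_cases 0 (min p.1.re (N * L)) with h1 | h1 <;>
          rcases min_cases p.1.re (N * L) with h2 | h2 <;>
          exact abs_le.2 ⟨by linarith, by linarith⟩))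
      rw [e]
      exact abs_le.2 ⟨by linarith, by linarith⟩
  · refine ⟨by rw [hp.1, abs_zero]; linarith, fun _ h1 => by linarith [hp.2.1], ?_⟩
    have a5 := abs_le.1 (wz (m + 2) le_rfl)
    rw [w2, ofReal_re] at a5
    have a6 := hp.2.1
    have a7 := abs_le.1 (hsm b (max 0 (min p.1.re (N * L))) E (by
      rcases max_cases 0 (min p.1.re (N * L)) with h1 | h1 <;>
        rcases min_cases p.1.re (N * L) with h2 | h2 <;>
        exact abs_le.2 ⟨by linarith, by linarith⟩))
    rw [hp.2.2]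
    exact abs_le.2 ⟨by linarith, by linarith⟩

end Pool.Agent.Lib.MP_5a3ebe_gt.H46
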