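import Pool.Agent.Lib.MP_5a3ebe_gt.H46Ear
import Pool.Agent.Lib.MP_5a3ebe_gt.GridWind

/-! Simple polygonal paths and their empty triangles. -/

namespace Pool.Agent.Lib.MP_5a3ebe_gt.H46

open Set Filter Topology Complex Pool.Agent.Lib.MP_5a3ebe_gt.Grid

lemma mem_seg {a b p : ℂ} :
    p ∈ segment ℝ a b ↔ ∃ μ : ℝ, 0 ≤ μ ∧ μ ≤ 1 ∧ p = a + μ * (b - a) := by
  rw [segment_eq_image']
  simp only [mem_image, mem_Icc, real_smul, and_assoc, eq_comm]

lemma mem_oseg {a b p : ℂ} :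
    p ∈ openSegment ℝ a b ↔ ∃ μ : ℝ, 0 < μ ∧ μ < 1 ∧ p = a + μ * (b - a) := by
  rw [openSegment_eq_image']
  simp only [mem_image, mem_Ioo, real_smul, and_assoc, eq_comm]

lemma seg_cases {a b p : ℂ} (h : p ∈ segment ℝ a b) : p = a ∨ p = b ∨ p ∈ openSegment ℝ a b := by
  rw [← insert_endpoints_openSegment] at h
  simpa using h

/-- the polygonal path `v 0, ..., v n` is simple -/
def Simple (v : ℕ → ℂ) (n : ℕ) : Prop :=
  (∀ i < n, v i ≠ v (i + 1)) ∧ ∀ i j, i < j → j < n → ∀ p, p ∈ segment ℝ (v i) (v (i + 1)) →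
    p ∈ segment ℝ (v j) (v (j + 1)) → j = i + 1 ∧ p = v j

variable {v : ℕ → ℂ} {n : ℕ}

lemma Simple.vtx (h : Simple v n) {m j : ℕ} (hm : m ≤ n) (hj : j < n)
    (hv : v m ∈ segment ℝ (v j) (v (j + 1))) : m = j ∨ m = j + 1 := by
  by_contra hc
  push Not at hc
  rcases lt_or_gt_of_ne hc.1 with h1 | h1
  · obtain ⟨rfl, e⟩ := h.2 m j h1 hj _ (left_mem_segment _ _ _) hv
    exact h.1 m (by omega) e
  · obtain ⟨m, rfl⟩ : ∃ k, m = k + 1 := ⟨m - 1, by omega⟩
    obtain ⟨-, e⟩ := h.2 j m (by omega) (by omega) _ hv (right_mem_segment _ _ _)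
    exact h.1 m (by omega) e.symm

lemma Simple.inj (h : Simple v n) {i j : ℕ} (hi : i ≤ n) (hj : j ≤ n) (e : v i = v j) : i = j := by
  wlog hij : i < j generalizing i j
  · rcases eq_or_lt_of_le (not_lt.1 hij) with h1 | h1
    · exact h1.symm
    · exact (this hj hi e.symm h1).symm
  rcases h.vtx hj (j := i) (by omega) (e ▸ left_mem_segment _ _ _) with h1 | h1
  · omega
  · subst h1; exact (h.1 i (by omega) e).elim

lemma Simple.other (h : Simple v n) {k j : ℕ} (hk : k + 2 ≤ n) (hj : j < n) (h1 : j ≠ k)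
    (h2 : j ≠ k + 1) {p : ℂ} (hp : p ∈ segment ℝ (v j) (v (j + 1)))
    (hq : p ∈ segment ℝ (v k) (v (k + 1)) ∨ p ∈ segment ℝ (v (k + 1)) (v (k + 2))) :
    (j + 1 = k ∧ p = v k) ∨ (j = k + 2 ∧ p = v (k + 2)) := by
  rcases hq with hq | hq
  · rcases lt_or_gt_of_ne h1 with h3 | h3
    · obtain ⟨e1, e2⟩ := h.2 j k h3 (by omega) p hp hq
      exact Or.inl ⟨e1.symm, e2⟩
    · obtain ⟨e1, e2⟩ := h.2 k j h3 hj p hq hp
      omega
  · rcases lt_or_gt_of_ne h2 with h3 | h3
    · obtain ⟨e1, e2⟩ := h.2 j (k + 1) h3 (by omega) p hp hq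
      omega
    · obtain ⟨e1, e2⟩ := h.2 (k + 1) j h3 hj p hq hp
      exact Or.inr ⟨e1, e1 ▸ e2⟩

def cr (a b : ℂ) : ℝ := a.re * b.im - a.im * b.re

lemma Simple.dir (h : Simple v n) {k : ℕ} (hk : k + 2 ≤ n) :
    cr (v k - v (k + 1)) (v (k + 2) - v (k + 1)) ≠ 0 ∨
      ∃ c : ℝ, 0 < c ∧ v (k + 2) - v (k + 1) = c * (v (k + 1) - v k) := by
  by_cases hD : cr (v k - v (k + 1)) (v (k + 2) - v (k + 1)) = 0
  swap
  · exact Or.inl hD
  right
  have hu : v k - v (k + 1) ≠ 0 := sub_ne_zero.2 (h.1 k (by omega))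
  have hw : v (k + 2) - v (k + 1) ≠ 0 := sub_ne_zero.2 (h.1 (k + 1) (by omega)).symm
  set u := v k - v (k + 1) with hu'
  set w := v (k + 2) - v (k + 1) with hw'
  have hn : 0 < normSq u := normSq_pos.2 hu
  have e : w = ((w.re * u.re + w.im * u.im) / normSq u : ℝ) * u := by
    unfold cr at hD
    rw [normSq_apply] at hn
    apply Complex.ext
    · simp only [mul_re, ofReal_re, ofReal_im, normSq_apply, zero_mul, sub_zero]
      rw [div_mul_eq_mul_div, eq_div_iff hn.ne']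
      linear_combination (-u.im) * hD
    · simp only [mul_im, ofReal_re, ofReal_im, normSq_apply, zero_mul, add_zero]
      rw [div_mul_eq_mul_div, eq_div_iff hn.ne']
      linear_combination (u.re) * hD
  set c := (w.re * u.re + w.im * u.im) / normSq u
  rcases lt_trichotomy c 0 with hc | hc | hc
  · exact ⟨-c, by linarith, by rw [e, hu']; push_cast; ring⟩
  · rw [hc] at e; simp at e; exact (hw e).elim
  · exfalso
    have hm : 0 < min c 1 := lt_min hc one_pos
    have := (h.2 k (k + 1) (by omega) (by omega) (v (k + 1) + (min c 1 : ℝ) * u)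
      (by rw [segment_symm]; exact mem_seg.2 ⟨_, hm.le, min_le_right _ _, rfl⟩)
      (mem_seg.2 ⟨min c 1 / c, by positivity, (div_le_one hc).2 (min_le_left _ _), by
        have : (c : ℂ) ≠ 0 := by exact_mod_cast hc.ne'
        rw [← hw', e]; push_cast; field_simp⟩)).2
    simp only [add_eq_left, mul_eq_zero, ofReal_eq_zero] at this
    rcases this with h1 | h1
    · exact hm.ne' h1
    · exact hu h1

lemma Simple.exists_shear (h : Simple v n) {k : ℕ} (hk : k + 2 ≤ n) : ∃ l : ℝ,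
    0 < ((sh l (v (k + 1))).re - (sh l (v k)).re) *
      ((sh l (v (k + 2))).re - (sh l (v (k + 1))).re) := by
  have hu : v (k + 1) - v k ≠ 0 := sub_ne_zero.2 (h.1 k (by omega)).symm
  suffices H : ∃ l : ℝ, 0 < ((v (k + 1) - v k).re + l * (v (k + 1) - v k).im) *
      ((v (k + 2) - v (k + 1)).re + l * (v (k + 2) - v (k + 1)).im) by
    obtain ⟨l, hl⟩ := H
    refine ⟨l, ?_⟩
    convert hl using 1
    simp [sh]; ring
  rcases h.dir hk with hD | ⟨c, hc, e⟩
  · have hD' : cr (v (k + 1) - v k) (v (k + 2) - v (k + 1)) ≠ 0 := by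
      intro e; apply hD; unfold cr at e ⊢; simp only [sub_re, sub_im] at e ⊢; linarith
    set u := v (k + 1) - v k
    set w := v (k + 2) - v (k + 1)
    unfold cr at hD'
    have key : ∀ t : ℝ, 0 < t → w.im - t * u.im ≠ 0 → ∃ l : ℝ,
        0 < (u.re + l * u.im) * (w.re + l * w.im) := by
      intro t ht h1
      refine ⟨(t * u.re - w.re) / (w.im - t * u.im), ?_⟩
      have : (u.re + (t * u.re - w.re) / (w.im - t * u.im) * u.im) *
          (w.re + (t * u.re - w.re) / (w.im - t * u.im) * w.im) =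
          t * ((u.re * w.im - u.im * w.re) / (w.im - t * u.im)) ^ 2 := by
        field_simp; ring
      rw [this]
      have := div_ne_zero hD' h1
      positivity
    by_cases h1 : w.im - 1 * u.im = 0
    · refine key 2 two_pos fun h2 => hD' ?_
      have h3 : u.im = 0 := by linarith
      have h4 : w.im = 0 := by linarith
      simp [h3, h4]
    · exact key 1 one_pos h1
  · rw [e]
    set u := v (k + 1) - v k
    have key : ∀ l : ℝ, u.re + l * u.im ≠ 0 →
        0 < (u.re + l * u.im) * ((c * u).re + l * (c * u).im) := by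
      intro l hl
      have : (u.re + l * u.im) * ((c * u).re + l * (c * u).im) = c * (u.re + l * u.im) ^ 2 := by
        simp; ring
      rw [this]; positivity
    by_cases h1 : u.re + 0 * u.im = 0
    · refine ⟨1, key 1 fun h2 => hu (Complex.ext ?_ ?_)⟩
      · simpa using h1
      · simp only [zero_im]; linarith
    · exact ⟨0, key 0 h1⟩

/-- barycentric coordinates -/
structure Bary (P Q R : ℂ) (s t : ℂ → ℝ) : Prop where
  saff : ∀ (a b : ℂ) (μ : ℝ), s (a + μ * (b - a)) = s a + μ * (s b - s a)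
  taff : ∀ (a b : ℂ) (μ : ℝ), t (a + μ * (b - a)) = t a + μ * (t b - t a)
  rec' : ∀ p, p = Q + s p * (P - Q) + t p * (R - Q)
  suniq : ∀ σ τ : ℝ, s (Q + σ * (P - Q) + τ * (R - Q)) = σ
  tuniq : ∀ σ τ : ℝ, t (Q + σ * (P - Q) + τ * (R - Q)) = τ

lemma exists_bary {P Q R : ℂ} (hD : cr (P - Q) (R - Q) ≠ 0) : ∃ s t, Bary P Q R s t := by
  refine ⟨fun p => cr (p - Q) (R - Q) / cr (P - Q) (R - Q),
    fun p => cr (P - Q) (p - Q) / cr (P - Q) (R - Q), fun a b μ => ?_, fun a b μ => ?_,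
    fun p => ?_, fun σ τ => ?_, fun σ τ => ?_⟩
  · field_simp; simp [cr]; ring
  · field_simp; simp [cr]; ring
  · apply Complex.ext
    · simp only [add_re, mul_re, ofReal_re, ofReal_im, zero_mul, sub_zero]
      field_simp; simp [cr]; ring
    · simp only [add_im, mul_im, ofReal_re, ofReal_im, zero_mul, add_zero]
      field_simp; simp [cr]; ring
  · field_simp; simp [cr]; ring
  · field_simp; simp [cr]; ring

namespace Bary
variable {P Q R : ℂ} {s t : ℂ → ℝ}

lemma sP (h : Bary P Q R s t) : s P = 1 := by simpa using h.suniq 1 0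
lemma tP (h : Bary P Q R s t) : t P = 0 := by simpa using h.tuniq 1 0
lemma sQ (h : Bary P Q R s t) : s Q = 0 := by simpa using h.suniq 0 0
lemma tQ (h : Bary P Q R s t) : t Q = 0 := by simpa using h.tuniq 0 0
lemma sR (h : Bary P Q R s t) : s R = 0 := by simpa using h.suniq 0 1
lemma tR (h : Bary P Q R s t) : t R = 1 := by simpa using h.tuniq 0 1

lemma mem_tri (h : Bary P Q R s t) {p : ℂ} :
    p ∈ tri P Q R ↔ 0 ≤ s p ∧ 0 ≤ t p ∧ s p + t p ≤ 1 := by
  constructor
  · rintro ⟨σ, τ, h0, h1, h2, rfl⟩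
    rw [h.suniq, h.tuniq]; exact ⟨h0, h1, h2⟩
  · rintro ⟨h0, h1, h2⟩
    exact ⟨_, _, h0, h1, h2, h.rec' p⟩

lemma memPQ (h : Bary P Q R s t) {p : ℂ} (h0 : 0 ≤ s p) (h1 : s p ≤ 1) (h2 : t p = 0) :
    p ∈ segment ℝ P Q := by
  rw [segment_symm]
  refine mem_seg.2 ⟨_, h0, h1, ?_⟩
  have := h.rec' p
  rw [h2] at this; simpa using this

lemma memQR (h : Bary P Q R s t) {p : ℂ} (h0 : 0 ≤ t p) (h1 : t p ≤ 1) (h2 : s p = 0) :
    p ∈ segment ℝ Q R := by
  refine mem_seg.2 ⟨_, h0, h1, ?_⟩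
  have := h.rec' p
  rw [h2] at this; simpa using this

lemma core (h : Bary P Q R s t) {a r : ℂ} {τ0 : ℝ} (hτ : τ0 ≤ 1) (hs : 0 < s r) (ht : 0 < t r)
    (hr : s r + t r ≤ τ0) (ha : s a + t a < τ0)
    (hne : ∀ p ∈ segment ℝ a r, (p ∈ segment ℝ P Q ∨ p ∈ segment ℝ Q R) → p = P ∨ p = R) :
    0 < s a ∧ 0 < t a := by
  by_contra hc
  have h0 : min (s a) (t a) ≤ 0 := by
    by_contra h1
    exact hc (lt_min_iff.1 (not_le.1 h1))
  obtain ⟨μ, ⟨hμ0, hμ1⟩, hμ⟩ := intermediate_value_Icc (zero_le_one' ℝ)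
    (f := fun μ : ℝ => min (s a + μ * (s r - s a)) (t a + μ * (t r - t a))) (by fun_prop)
    (show (0 : ℝ) ∈ _ from ⟨by simpa using h0, by simp [hs.le, ht.le]⟩)
  simp only at hμ
  rw [← h.saff, ← h.taff] at hμ
  set p := a + μ * (r - a) with hp
  have hμ2 : μ ≠ 1 := by
    rintro rfl
    have : p = r := by simp [hp]
    rw [this] at hμ
    exact (lt_min hs ht).ne' hμ
  have hl : s p + t p < τ0 := by
    rw [hp, h.saff, h.taff]
    have : 0 < 1 - μ := by have := lt_of_le_of_ne hμ1 hμ2; linarith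
    nlinarith
  have h1 : 0 ≤ s p := hμ ▸ min_le_left _ _
  have h2 : 0 ≤ t p := hμ ▸ min_le_right _ _
  have h3 : p = P ∨ p = R := by
    refine hne p (mem_seg.2 ⟨μ, hμ0, hμ1, rfl⟩) ?_
    rcases min_eq_iff.1 hμ with h4 | h4
    · exact Or.inr (h.memQR h2 (by linarith) h4.1)
    · exact Or.inl (h.memPQ h1 (by linarith) h4.1)
  rcases h3 with h3 | h3
  · rw [h3, h.sP, h.tP] at hl; linarith
  · rw [h3, h.sR, h.tR] at hl; linarith

end Bary

lemma seg_sub_left {a b r : ℂ} (h : r ∈ segment ℝ a b) : segment ℝ a r ⊆ segment ℝ a b :=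
  (convex_segment a b).segment_subset (left_mem_segment _ _ _) h

lemma seg_sub_right {a b r : ℂ} (h : r ∈ segment ℝ a b) : segment ℝ b r ⊆ segment ℝ a b :=
  (convex_segment a b).segment_subset (right_mem_segment _ _ _) h

lemma tri_degen {P Q R p : ℂ} {c : ℝ} (hc : 0 < c) (e : R - Q = c * (Q - P)) (hp : p ∈ tri P Q R) :
    p ∈ segment ℝ P Q ∨ p ∈ segment ℝ Q R := by
  obtain ⟨s, t, h0, h1, h2, rfl⟩ := hp
  have := mul_nonneg h1 hc.le
  rcases le_total (t * c) s with h | h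
  · left
    rw [segment_symm]
    exact mem_seg.2 ⟨s - t * c, by linarith, by linarith, by rw [e]; push_cast; ring⟩
  · right
    refine mem_seg.2 ⟨(t * c - s) / c, div_nonneg (by linarith) hc.le,
      (div_le_one hc).2 (by nlinarith), ?_⟩
    have : (c : ℂ) ≠ 0 := by exact_mod_cast hc.ne'
    rw [e]; push_cast; field_simp; ring

/-- no other vertex lies in the triangle at `k, k+1, k+2` -/
def Empty (v : ℕ → ℂ) (n k : ℕ) : Prop :=
  ∀ m ≤ n, v m ∈ tri (v k) (v (k + 1)) (v (k + 2)) → m = k ∨ m = k + 1 ∨ m = k + 2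

lemma Simple.ear_edges (h : Simple v n) {k j : ℕ} (hk : k + 2 ≤ n) (hE : Empty v n k)
    (hj : j < n) (h1 : j ≠ k) (h2 : j ≠ k + 1) {p : ℂ} (hp : p ∈ segment ℝ (v j) (v (j + 1)))
    (hq : p ∈ tri (v k) (v (k + 1)) (v (k + 2))) :
    (j + 1 = k ∧ p = v k) ∨ (j = k + 2 ∧ p = v (k + 2)) := by
  rcases h.dir hk with hD | ⟨c, hc, e⟩
  swap
  · exact h.other hk hj h1 h2 hp (tri_degen hc e hq)
  obtain ⟨s, t, B⟩ := exists_bary hD
  obtain ⟨g0, g1, g2⟩ := B.mem_tri.1 hq
  rcases eq_or_lt_of_le g0 with g0 | g0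
  · exact h.other hk hj h1 h2 hp (Or.inr (B.memQR g1 (by linarith) g0.symm))
  rcases eq_or_lt_of_le g1 with g1 | g1
  · exact h.other hk hj h1 h2 hp (Or.inl (B.memPQ g0.le (by linarith) g1.symm))
  exfalso
  have hin : ∀ m ≤ n, 0 < s (v m) → 0 < t (v m) → s (v m) + t (v m) ≤ 1 → False := by
    intro m hm a1 a2 a3
    rcases hE m hm (B.mem_tri.2 ⟨a1.le, a2.le, a3⟩) with rfl | rfl | rfl
    · rw [B.tP] at a2; exact lt_irrefl _ a2
    · rw [B.tQ] at a2; exact lt_irrefl _ a2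
    · rw [B.sR] at a1; exact lt_irrefl _ a1
  have hne : ∀ x ∈ segment ℝ (v j) (v (j + 1)), (x ∈ segment ℝ (v k) (v (k + 1)) ∨
      x ∈ segment ℝ (v (k + 1)) (v (k + 2))) → x = v k ∨ x = v (k + 2) := fun x hx hx' =>
    (h.other hk hj h1 h2 hx hx').imp And.right And.right
  have la : 1 ≤ s (v j) + t (v j) := by
    by_contra hc
    have := B.core le_rfl g0 g1 g2 (not_le.1 hc) fun x hx => hne x (seg_sub_left hp hx)
    exact hin j hj.le this.1 this.2 (not_le.1 hc).le
  have lb : 1 ≤ s (v (j + 1)) + t (v (j + 1)) := by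
    by_contra hc
    have := B.core le_rfl g0 g1 g2 (not_le.1 hc) fun x hx => hne x (seg_sub_right hp hx)
    exact hin (j + 1) hj this.1 this.2 (not_le.1 hc).le
  obtain ⟨μ, hμ0, hμ1, rfl⟩ := mem_seg.1 hp
  rw [B.saff] at g0 g2
  rw [B.taff] at g1 g2
  rcases eq_or_lt_of_le hμ0 with rfl | hμ0
  · exact hin j hj.le (by linarith) (by linarith) (by linarith)
  rcases eq_or_lt_of_le hμ1 with rfl | hμ1
  · exact hin (j + 1) hj (by linarith) (by linarith) (by linarith)
  have ea : s (v j) + t (v j) = 1 := by nlinarith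
  have eb : s (v (j + 1)) + t (v (j + 1)) = 1 := by nlinarith
  have na : s (v j) ≤ 0 ∨ 1 ≤ s (v j) := by
    by_contra hc
    push Not at hc
    exact hin j hj.le hc.1 (by linarith) ea.le
  have nb : s (v (j + 1)) ≤ 0 ∨ 1 ≤ s (v (j + 1)) := by
    by_contra hc
    push Not at hc
    exact hin (j + 1) hj hc.1 (by linarith) eb.le
  have hmem : ∀ x, s x + t x = 1 → s (v j) ≠ s (v (j + 1)) →
      0 ≤ (s x - s (v j)) / (s (v (j + 1)) - s (v j)) →
      (s x - s (v j)) / (s (v (j + 1)) - s (v j)) ≤ 1 → x ∈ segment ℝ (v j) (v (j + 1)) := by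
    intro x hx hne a1 a2
    refine mem_seg.2 ⟨_, a1, a2, ?_⟩
    have hne' : s (v (j + 1)) - s (v j) ≠ 0 := sub_ne_zero.2 hne.symm
    rw [B.rec' (v j + _), B.saff, B.taff]
    have e1 : s (v j) + (s x - s (v j)) / (s (v (j + 1)) - s (v j)) * (s (v (j + 1)) - s (v j)) =
      s x := by field_simp; ring
    have e2 : t (v j) + (s x - s (v j)) / (s (v (j + 1)) - s (v j)) * (t (v (j + 1)) - t (v j)) =
        t x := by
      have : t (v (j + 1)) - t (v j) = - (s (v (j + 1)) - s (v j)) := by linarith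
      rw [this]; field_simp; linarith
    rw [e1, e2]; exact B.rec' x
  have hboth : v k ∈ segment ℝ (v j) (v (j + 1)) ∧ v (k + 2) ∈ segment ℝ (v j) (v (j + 1)) := by
    rcases na with na | na <;> rcases nb with nb | nb
    · exfalso; nlinarith
    · have : 0 < s (v (j + 1)) - s (v j) := by linarith
      exact ⟨hmem _ (by rw [B.sP, B.tP]; ring) (by linarith)
          (by rw [B.sP]; exact div_nonneg (by linarith) this.le)
          (by rw [B.sP, div_le_one this]; linarith),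
        hmem _ (by rw [B.sR, B.tR]; ring) (by linarith)
          (by rw [B.sR]; exact div_nonneg (by linarith) this.le)
          (by rw [B.sR, div_le_one this]; linarith)⟩
    · have : s (v (j + 1)) - s (v j) < 0 := by linarith
      exact ⟨hmem _ (by rw [B.sP, B.tP]; ring) (by linarith)
          (by rw [B.sP]; exact div_nonneg_of_nonpos (by linarith) this.le)
          (by rw [B.sP, div_le_one_of_neg this]; linarith),
        hmem _ (by rw [B.sR, B.tR]; ring) (by linarith)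
          (by rw [B.sR]; exact div_nonneg_of_nonpos (by linarith) this.le)
          (by rw [B.sR, div_le_one_of_neg this]; linarith)⟩
    · exfalso; nlinarith
  have a1 := h.vtx (by omega) hj hboth.1
  have a2 := h.vtx hk hj hboth.2
  omega

end Pool.Agent.Lib.MP_5a3ebe_gt.H46
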