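import Pool.Agent.Lib.MP_5a3ebe_gt.H46Main
import Pool.Agent.Lib.MP_5a3ebe_gt.H46Defs

/-! The Young estimate and the normalisation of the two arcs. -/

namespace Pool.Agent.Lib.MP_5a3ebe_gt.H46

open Set Filter Topology Complex

lemma cross_zs (v : ℕ → ℂ) (n : ℕ) :
    ∑ i ∈ Finset.range n, (starRingEnd ℂ (v i) * v (i + 1)).im =
      -2 * zs v n + ((v n).re * (v n).im - (v 0).re * (v 0).im) := by
  induction n with
  | zero => simp [zs]
  | succ n ih =>
    rw [Finset.sum_range_succ, ih, zs_succ]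
    simp [trap]; ring

lemma young {c : ℝ → ℂ} {a η q V : ℝ} (hq : 0 < q)
    (H : ∀ (n : ℕ) (t : ℕ → ℝ), Monotone t → (∀ i ≤ n, |t i - a| ≤ η) →
      ∑ i ∈ Finset.range n, ‖c (t (i + 1)) - c (t i)‖ ^ q ≤ V) :
    ∀ (n : ℕ) (t : ℕ → ℝ), Monotone t → (∀ i ≤ n + 1, |t i - a| ≤ η) →
      |zs (fun i => c (t i)) (n + 1) - trap (c (t 0)) (c (t (n + 1)))| ≤
        V ^ (2 / q) * ∑ m ∈ Finset.range n, 1 / ((m + 1 : ℕ) : ℝ) ^ (2 / q) := by
  intro n
  induction n with
  | zero => intro t _ _; simp [zs]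
  | succ n ih =>
    intro t hm ht
    set d : ℕ → ℝ := fun i => ‖c (t (i + 1)) - c (t i)‖ with hd
    have hd0 : ∀ i, 0 ≤ d i := fun i => norm_nonneg _
    have h1 := H (n + 2) t hm ht
    have hV : 0 ≤ V := le_trans (Finset.sum_nonneg fun i _ => by positivity) h1
    obtain ⟨k, hk, hk'⟩ : ∃ k ∈ Finset.range (n + 1), (d k * d (k + 1)) ^ (q / 2) ≤ V / (n + 1) := by
      refine Finset.exists_le_of_sum_le ⟨0, by simp⟩ ?_
      have e : ∑ _i ∈ Finset.range (n + 1), V / (n + 1) = V := by
        rw [Finset.sum_const, Finset.card_range, nsmul_eq_mul]; push_cast; field_simp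
      rw [e]
      have a1 : ∑ i ∈ Finset.range (n + 1), d i ^ q ≤ V := by
        rw [Finset.sum_range_succ] at h1
        exact le_trans (le_add_of_nonneg_right (by positivity)) h1
      have a2 : ∑ i ∈ Finset.range (n + 1), d (i + 1) ^ q ≤ V := by
        rw [Finset.sum_range_succ'] at h1
        exact le_trans (le_add_of_nonneg_right (by positivity)) h1
      have a3 : ∀ i, (d i * d (i + 1)) ^ (q / 2) ≤ (d i ^ q + d (i + 1) ^ q) / 2 := by
        intro i
        have e1 : ∀ x : ℝ, 0 ≤ x → x ^ q = (x ^ (q / 2)) ^ 2 := fun x hx => by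
          rw [← Real.rpow_natCast, ← Real.rpow_mul hx]; congr 1; push_cast; ring
        rw [Real.mul_rpow (hd0 _) (hd0 _), e1 _ (hd0 i), e1 _ (hd0 (i + 1))]
        nlinarith [sq_nonneg (d i ^ (q / 2) - d (i + 1) ^ (q / 2))]
      refine (Finset.sum_le_sum fun i _ => a3 i).trans ?_
      rw [← Finset.sum_div, Finset.sum_add_distrib]
      linarith
    rw [Finset.mem_range] at hk
    have h2 : d k * d (k + 1) ≤ V ^ (2 / q) * (1 / ((n + 1 : ℕ) : ℝ) ^ (2 / q)) := by
      have h3 := Real.rpow_le_rpow (by have := hd0 k; have := hd0 (k + 1); positivity) hk'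
        (z := 2 / q) (by positivity)
      rw [← Real.rpow_mul (mul_nonneg (hd0 _) (hd0 _)), show q / 2 * (2 / q) = 1 by field_simp,
        Real.rpow_one, Real.div_rpow hV (by positivity)] at h3
      push_cast
      rwa [mul_one_div]
    let t' : ℕ → ℝ := fun m => if m ≤ k then t m else t (m + 1)
    have e : (fun i => c (t' i)) = cut (fun i => c (t i)) k := by
      funext i; simp only [t', cut]; split_ifs <;> rfl
    have h3 := ih t' (monotone_nat_of_le_succ fun m => by
        simp only [t']; split_ifs <;> exact hm (by omega))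
      (fun i hi => by simp only [t']; split_ifs <;> exact ht _ (by omega))
    have e0 : t' 0 = t 0 := if_pos (Nat.zero_le _)
    have e1 : t' (n + 1) = t (n + 2) := if_neg (by omega)
    rw [e, e0, e1] at h3
    rw [← zs_cut_gt _ (k := k) (by omega), Finset.sum_range_succ, mul_add]
    have h4 : |trap (c (t k)) (c (t (k + 1))) + trap (c (t (k + 1))) (c (t (k + 2))) -
        trap (c (t k)) (c (t (k + 2)))| ≤ d k * d (k + 1) := by
      have e2 : trap (c (t k)) (c (t (k + 1))) + trap (c (t (k + 1))) (c (t (k + 2))) -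
          trap (c (t k)) (c (t (k + 2))) = -(starRingEnd ℂ (c (t (k + 1)) - c (t k)) *
            (c (t (k + 2)) - c (t (k + 1)))).im / 2 := by simp [trap]; ring
      rw [e2, abs_div, abs_neg, abs_two]
      have := abs_im_le_norm (starRingEnd ℂ (c (t (k + 1)) - c (t k)) *
            (c (t (k + 2)) - c (t (k + 1))))
      rw [norm_mul, norm_conj] at this
      have := mul_nonneg (hd0 k) (hd0 (k + 1))
      simp only [hd] at this ⊢
      linarith
    rw [abs_le] at *
    constructor <;> linarith [h3.1, h3.2, h4.1, h4.2]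

lemma near_of_cont {c : ℝ → ℂ} (hc : Continuous c) (a : ℝ) {ρ : ℝ} (hρ : 0 < ρ) :
    ∃ η > 0, ∀ t, |t - a| ≤ η → ‖c t - c a‖ ≤ ρ := by
  obtain ⟨η, hη, H⟩ := Metric.continuousAt_iff.1 (hc.continuousAt (x := a)) ρ hρ
  refine ⟨η / 2, by linarith, fun t ht => ?_⟩
  rw [← dist_eq_norm]
  exact (H (by rw [Real.dist_eq]; linarith)).le

lemma re_im_le {z : ℂ} {ρ : ℝ} (h : ‖z‖ ≤ ρ) : |z.re * z.im| ≤ ρ ^ 2 := by
  have h0 : 0 ≤ ρ := (norm_nonneg _).trans h
  rw [abs_mul, sq]
  exact mul_le_mul ((abs_re_le_norm _).trans h) ((abs_im_le_norm _).trans h) (abs_nonneg _) h0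

theorem smallArea_of_var {c : ℝ → ℂ} (hc : Continuous c) {a : ℝ} (h : FiniteVarAt c a) :
    SmallAreaAt c a := by
  obtain ⟨p, hp0, hp2, η, hη, V, H⟩ := h
  intro ε hε
  set q := (p + 2) / 2 with hq
  have hq0 : 0 < q := by linarith
  have hq1 : 0 < q - p := by linarith
  have hq2 : 1 < 2 / q := by rw [lt_div_iff₀ hq0]; linarith
  have hs : Summable fun m : ℕ => 1 / ((m + 1 : ℕ) : ℝ) ^ (2 / q) :=
    (summable_nat_add_iff 1).2 (Real.summable_one_div_nat_rpow.2 hq2)
  set Z := ∑' m : ℕ, 1 / ((m + 1 : ℕ) : ℝ) ^ (2 / q)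
  have hV : 0 ≤ V := by simpa using H 0 (fun _ => a) monotone_const (by simp [hη.le])
  obtain ⟨ρ, hρ1, hρ⟩ : ∃ ρ : ℝ, 2 * (((2 * ρ) ^ (q - p) * V) ^ (2 / q) * Z) + 6 * ρ ^ 2 < ε ∧
      0 < ρ := by
    refine (Eventually.and (f := 𝓝[>] 0)
      (mem_nhdsWithin_of_mem_nhds ((isOpen_lt ?_ continuous_const).mem_nhds ?_))
        (self_mem_nhdsWithin (s := Ioi (0 : ℝ)))).exists
    · have h1 : Continuous fun ρ : ℝ => (2 * ρ) ^ (q - p) :=
        Continuous.rpow_const (by fun_prop) fun _ => Or.inr hq1.le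
      have h2 : Continuous fun ρ : ℝ => ((2 * ρ) ^ (q - p) * V) ^ (2 / q) :=
        Continuous.rpow_const (h1.mul continuous_const) fun _ => Or.inr (by positivity)
      fun_prop
    · simp [Real.zero_rpow hq1.ne', Real.zero_rpow (by positivity : 2 / q ≠ 0), hε]
  obtain ⟨η', hη', H'⟩ := near_of_cont hc a hρ
  refine ⟨min η η', lt_min hη hη', fun n t hm ht => ?_⟩
  rcases n with _ | n
  · simp [hε.le]
  have h1 := young (c := fun s => c s - c a) (a := a) (η := min η η') (V := (2 * ρ) ^ (q - p) * V)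
    hq0 (fun n t hm ht => by
      refine le_trans (Finset.sum_le_sum (g := fun i => (2 * ρ) ^ (q - p) *
        ‖c (t (i + 1)) - c (t i)‖ ^ p) fun i hi => ?_) ?_
      · rw [Finset.mem_range] at hi
        have a1 := H' _ ((ht i hi.le).trans (min_le_right _ _))
        have a2 := H' _ ((ht (i + 1) hi).trans (min_le_right _ _))
        have a3 := norm_sub_le (c (t (i + 1)) - c a) (c (t i) - c a)
        rw [sub_sub_sub_cancel_right] at a3 ⊢
        have e : q = (q - p) + p := by ring
        conv_lhs => rw [e]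
        rw [Real.rpow_add' (norm_nonneg _) (by linarith)]
        gcongr
        linarith
      · rw [← Finset.mul_sum]
        gcongr
        exact H n t hm fun i hi => (ht i hi).trans (min_le_left _ _)) n t hm ht
  have h2 : ∑ m ∈ Finset.range n, 1 / ((m + 1 : ℕ) : ℝ) ^ (2 / q) ≤ Z :=
    hs.sum_le_tsum _ fun _ _ => by positivity
  have h3 := h1.trans (mul_le_mul_of_nonneg_left h2 (by positivity))
  rw [cross_zs (fun i => c (t i) - c a)]
  have a0 := H' _ ((ht 0 (by omega)).trans (min_le_right _ _))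
  have a1 := H' _ ((ht (n + 1) le_rfl).trans (min_le_right _ _))
  have b0 := re_im_le a0
  have b1 := re_im_le a1
  have b2 : |trap (c (t 0) - c a) (c (t (n + 1)) - c a)| ≤ 2 * ρ ^ 2 := by
    unfold trap
    rw [abs_div, abs_mul, abs_two]
    have i0 := (abs_im_le_norm _).trans a0
    have i1 := (abs_im_le_norm _).trans a1
    have r0 := (abs_re_le_norm _).trans a0
    have r1 := (abs_re_le_norm _).trans a1
    have := mul_le_mul ((abs_add_le _ _).trans (add_le_add i0 i1))
      ((abs_sub _ _).trans (add_le_add r1 r0)) (abs_nonneg _) (by linarith)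
    linarith
  rw [abs_le] at *
  constructor <;> linarith [h3.1, h3.2, b0.1, b0.2, b1.1, b1.2, b2.1, b2.2]

lemma tame_aux {c : ℝ → ℂ} (hc : Continuous c) {a : ℝ} (h : SmallAreaAt c a) (L s0 x0 : ℝ)
    {D : ℂ} (hD : D ≠ 0) {ε : ℝ} (hε : 0 < ε) : ∃ η > 0, ∀ (m : ℕ) (t : ℕ → ℝ), Monotone t →
      (∀ i ≤ m, |t i - s0| ≤ η) →
      |zs (fun i => (c (a + (t i - s0) * L) - c a) / D + x0) m| ≤ ε := by
  have hn : 0 < normSq D := normSq_pos.2 hD
  obtain ⟨η, hη, H⟩ := h (ε * normSq D) (by positivity)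
  obtain ⟨η', hη', H'⟩ := near_of_cont hc a (ρ := ‖D‖ * min 1 (ε / 2)) (by positivity)
  have hL : 0 < |L| + 1 := by positivity
  refine ⟨min η η' / (|L| + 1), by positivity, fun m t hm ht => ?_⟩
  have h1 : ∀ i ≤ m, |a + (t i - s0) * L - a| ≤ min η η' := by
    intro i hi
    have := ht i hi
    rw [le_div_iff₀ hL] at this
    rw [add_sub_cancel_left, abs_mul]
    nlinarith [abs_nonneg (t i - s0)]
  set v : ℕ → ℂ := fun i => c (a + (t i - s0) * L) - c a with hv
  have h2 : |∑ i ∈ Finset.range m, (starRingEnd ℂ (v i) * v (i + 1)).im| ≤ ε * normSq D := by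
    rcases le_total 0 L with h0 | h0
    · exact H m (fun i => a + (t i - s0) * L) (fun i j hij => by
        have := hm hij
        simp only; nlinarith) fun i hi => (h1 i hi).trans (min_le_left _ _)
    · have := H m (fun i => a + (t (m - i) - s0) * L) (fun i j hij => by
        have := hm (show m - j ≤ m - i by omega)
        simp only; nlinarith) fun i hi => (h1 _ (by omega)).trans (min_le_left _ _)
      rw [← Finset.sum_range_reflect, ← abs_neg, ← Finset.sum_neg_distrib] at this
      convert this using 2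
      refine Finset.sum_congr rfl fun i hi => ?_
      rw [Finset.mem_range] at hi
      rw [show m - (m - 1 - i) = i + 1 by omega, show m - (m - 1 - i + 1) = i by omega]
      simp [hv]; ring
  have e1 : zs (fun i => v i / D + x0) m = zs (fun i => v i / D) m :=
    Finset.sum_congr rfl fun i _ => by simp [trap]
  have e2 : ∑ i ∈ Finset.range m, (starRingEnd ℂ (v i / D) * (v (i + 1) / D)).im =
      (∑ i ∈ Finset.range m, (starRingEnd ℂ (v i) * v (i + 1)).im) / normSq D := by
    rw [Finset.sum_div]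
    refine Finset.sum_congr rfl fun i _ => ?_
    rw [map_div₀, div_mul_div_comm, ← normSq_eq_conj_mul_self, div_ofReal_im]
  have e3 := cross_zs (fun i => v i / D) m
  rw [e2] at e3
  have h3 : |(∑ i ∈ Finset.range m, (starRingEnd ℂ (v i) * v (i + 1)).im) / normSq D| ≤ ε := by
    rw [abs_div, abs_of_pos hn, div_le_iff₀ hn]; exact h2
  have h4 : ∀ i ≤ m, |(v i / D).re * (v i / D).im| ≤ ε / 2 := by
    intro i hi
    have : ‖v i / D‖ ≤ min 1 (ε / 2) := by
      rw [norm_div, div_le_iff₀ (norm_pos_iff.2 hD), mul_comm]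
      exact H' _ ((h1 i hi).trans (min_le_right _ _))
    refine (re_im_le this).trans ?_
    have a1 := min_le_left 1 (ε / 2)
    have a2 := min_le_right 1 (ε / 2)
    have a3 : 0 < min 1 (ε / 2) := by positivity
    nlinarith
  have h5 := h4 0 (by omega)
  have h6 := h4 m le_rfl
  show |zs (fun i => v i / D + x0) m| ≤ ε
  rw [e1]
  rw [abs_le] at *
  constructor <;> linarith [h3.1, h3.2, h5.1, h5.2, h6.1, h6.2]

lemma smallArea_shift {c : ℝ → ℂ} {a T : ℝ} (hT : ∀ s, c (s + T) = c s) (h : SmallAreaAt c a) :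
    SmallAreaAt c (a - T) := by
  intro ε hε
  obtain ⟨η, hη, H⟩ := h ε hε
  refine ⟨η, hη, fun n t hm ht => ?_⟩
  have := H n (fun i => t i + T) (fun i j hij => by have := hm hij; simp only; linarith)
    fun i hi => by convert ht i hi using 2; ring
  have e : c (a - T) = c a := by rw [← hT, sub_add_cancel]
  simpa only [hT, e] using this

lemma arc_tame {c : ℝ → ℂ} (hc : Continuous c) {a b : ℝ} (ha : SmallAreaAt c a)
    (hb : SmallAreaAt c b) (hD : c b - c a ≠ 0) :
    Tame0 (fun s => (c (a + s * (b - a)) - c a) / (c b - c a)) ∧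
      Tame1 (fun s => (c (a + s * (b - a)) - c a) / (c b - c a)) := by
  constructor
  · intro ε hε
    obtain ⟨η, hη, H⟩ := tame_aux hc ha (b - a) 0 0 hD hε
    refine ⟨η, hη, fun m t hm ht => ?_⟩
    simpa using H m t hm fun i hi => by rw [sub_zero, abs_of_nonneg (ht i hi).1]; exact (ht i hi).2
  · intro ε hε
    obtain ⟨η, hη, H⟩ := tame_aux hc hb (b - a) 1 1 hD hε
    refine ⟨η, hη, fun m t hm ht => ?_⟩
    convert H m t hm fun i hi => abs_le.2 ⟨by linarith [(ht i hi).1], by linarith [(ht i hi).2]⟩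
      using 3
    funext i
    rw [show b + (t i - 1) * (b - a) = a + t i * (b - a) by ring]
    push_cast; field_simp; ring

theorem acute {γ : Circle → ℂ} (hγ : Continuous γ) (hi : Function.Injective γ) {a b : ℝ}
    (hab : a < b) (hba : b < a + 2 * Real.pi)
    (hA : ∀ s t, 0 ≤ inner ℝ (γ s - γ (Circle.exp a)) (γ t - γ (Circle.exp a)))
    (hB : ∀ s t, 0 ≤ inner ℝ (γ s - γ (Circle.exp b)) (γ t - γ (Circle.exp b)))
    (ta : SmallAreaAt (fun θ => γ (Circle.exp θ)) a)
    (tb : SmallAreaAt (fun θ => γ (Circle.exp θ)) b) :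
    ∃ z w : ℂ, w ≠ 0 ∧ z ∈ range γ ∧ z + w ∈ range γ ∧ z + w + I * w ∈ range γ ∧
      z + I * w ∈ range γ := by
  set c : ℝ → ℂ := fun θ => γ (Circle.exp θ) with hc
  have hcc : Continuous c := hγ.comp Circle.exp.continuous
  have hT : ∀ s, c (s + 2 * Real.pi) = c s := fun s => by simp only [hc, Circle.exp_add_two_pi]
  have hinj : ∀ s t, c s = c t → |s - t| < 2 * Real.pi → s = t := by
    intro s t e h
    obtain ⟨m, hm⟩ := Circle.exp_eq_exp.1 (hi e)
    have hpi := Real.pi_pos
    rw [hm, add_sub_cancel_left, abs_mul, abs_of_pos (by linarith : 0 < 2 * Real.pi)] at h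
    have : |(m : ℝ)| < 1 := by nlinarith
    have : m = 0 := Int.abs_lt_one_iff.1 (by exact_mod_cast this)
    simp [hm, this]
  have hD : c b - c a ≠ 0 := sub_ne_zero.2 fun e =>
    hab.ne' (hinj _ _ e (abs_lt.2 ⟨by linarith [Real.pi_pos], by linarith⟩))
  have eb : c (b - 2 * Real.pi) = c b := by rw [← hT, sub_add_cancel]
  have T1 := arc_tame hcc ta tb hD
  have T2 := arc_tame hcc ta (smallArea_shift hT tb) (by rwa [eb])
  rw [eb] at T2
  set D := c b - c a with hDdef
  have hn : 0 < normSq D := normSq_pos.2 hD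
  have hinner : ∀ u v : ℂ, 0 ≤ inner ℝ u v → 0 ≤ (u / D).re * (v / D).re + (u / D).im * (v / D).im := by
    intro u v h
    have e : (u / D).re * (v / D).re + (u / D).im * (v / D).im = inner ℝ u v / normSq D := by
      rw [Complex.inner, div_re, div_re, div_im, div_im]
      simp only [mul_re, conj_re, conj_im]
      field_simp
      rw [normSq_apply]; ring
    rw [e]; positivity
  have arc_inj : ∀ L : ℝ, L ≠ 0 → |L| < 2 * Real.pi →
      InjOn (fun s => (c (a + s * L) - c a) / D) (Icc 0 1) := by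
    intro L hL hL' s hs t ht e
    simp only at e
    rw [div_left_inj' hD, sub_left_inj] at e
    have := hinj _ _ e (by
      rw [add_sub_add_left_eq_sub, ← sub_mul, abs_mul]
      have : |s - t| ≤ 1 := abs_le.2 ⟨by linarith [hs.1, ht.2], by linarith [hs.2, ht.1]⟩
      nlinarith [abs_nonneg L])
    exact mul_right_cancel₀ hL (add_left_cancel this)
  obtain ⟨z, w, hw, h1, h2, h3, h4⟩ := core (J := range fun s => (γ s - c a) / D)
    (by fun_prop) (by fun_prop)
    (arc_inj (b - a) (by linarith) (abs_lt.2 ⟨by linarith [Real.pi_pos], by linarith⟩))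
    (arc_inj (b - 2 * Real.pi - a) (by linarith) (abs_lt.2 ⟨by linarith, by linarith [Real.pi_pos]⟩))
    (by simp) (by simp [← hDdef, hD]) (by simp) (by simp [eb, ← hDdef, hD])
    (by
      rintro _ ⟨s, hs, rfl⟩ ⟨t, ht, e⟩
      simp only at e ⊢
      rw [div_left_inj' hD, sub_left_inj] at e
      rcases eq_or_lt_of_le hs.1 with rfl | h0
      · left; simp
      rcases eq_or_lt_of_le hs.2 with rfl | h1
      · right; simp [← hDdef, hD]
      exfalso
      have a1 : 0 < s * (b - a) := mul_pos h0 (by linarith)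
      have a2 : s * (b - a) < b - a := by nlinarith
      have a3 : t * (b - 2 * Real.pi - a) ≤ 0 := by nlinarith [ht.1]
      have a4 : b - 2 * Real.pi - a ≤ t * (b - 2 * Real.pi - a) := by nlinarith [ht.2]
      have := hinj _ _ e (abs_lt.2 ⟨by linarith, by linarith [Real.pi_pos]⟩)
      linarith)
    (by rintro _ ⟨s, -, rfl⟩; exact ⟨_, rfl⟩) (by rintro _ ⟨s, -, rfl⟩; exact ⟨_, rfl⟩)
    (by rintro _ ⟨s, rfl⟩ _ ⟨t, rfl⟩; exact hinner _ _ (hA s t))
    (by
      rintro _ ⟨s, rfl⟩ _ ⟨t, rfl⟩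
      have e : ∀ s, (γ s - c b) / D = (γ s - c a) / D - 1 := fun s => by
        field_simp; rw [hDdef]; ring
      have := hinner _ _ (hB s t)
      rw [e, e] at this
      simpa using this)
    T1.1 T1.2 T2.1 T2.2
  have key : ∀ p, p ∈ (range fun s => (γ s - c a) / D) → c a + D * p ∈ range γ := by
    rintro _ ⟨s, rfl⟩
    exact ⟨s, by field_simp; ring⟩
  refine ⟨c a + D * z, D * w, mul_ne_zero hD hw, key _ h1, ?_, ?_, ?_⟩
  · convert key _ h2 using 1; ring
  · convert key _ h3 using 1; ring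
  · convert key _ h4 using 1; ring

end Pool.Agent.Lib.MP_5a3ebe_gt.H46
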