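import Pool.Agent.Lib.MP_5a3ebe_gt.PiFlat

/-! Flat polygons close to a regular curve. -/

set_option linter.unusedSectionVars false
set_option linter.unusedVariables false

namespace Pool.Agent.Lib.MP_5a3ebe_gt.PI

open Ap Classical

/-- Piecewise linear interpolation of a sequence. -/
noncomputable def approxPL (w : ℤ → ℂ) (x : ℝ) : ℂ :=
  w ⌊x⌋ + ((x - ⌊x⌋ : ℝ) : ℂ) * (w (⌊x⌋ + 1) - w ⌊x⌋)

lemma approx_eq (w : ℤ → ℂ) {k : ℤ} {x : ℝ} (h1 : (k : ℝ) ≤ x) (h2 : x ≤ k + 1) :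
    approxPL w x = w k + ((x - k : ℝ) : ℂ) * (w (k + 1) - w k) := by
  rcases h2.lt_or_eq with h | h
  · rw [approxPL, Int.floor_eq_iff.2 ⟨h1, h⟩]
  · have h3 : ⌊x⌋ = k + 1 := by rw [h]; exact_mod_cast Int.floor_intCast (R := ℝ) (k + 1)
    rw [approxPL, h3, h]
    push_cast
    ring

lemma approx_int (w : ℤ → ℂ) (k : ℤ) : approxPL w k = w k := by
  simp [approxPL]

lemma approx_lip0 (w : ℤ → ℂ) (T : ℂ) (L : ℝ) (k : ℤ) (j : ℕ)
    (h : ∀ i : ℤ, k ≤ i → i < k + j → ‖w (i + 1) - w i - T‖ ≤ L) :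
    ∀ x y : ℝ, (k : ℝ) ≤ x → x ≤ y → y ≤ k + j →
      ‖approxPL w y - approxPL w x - ((y - x : ℝ) : ℂ) * T‖ ≤ L * (y - x) := by
  induction j with
  | zero =>
    intro x y h1 h2 h3
    obtain rfl : x = y := by push_cast at h3; linarith
    simp
  | succ j ih =>
    have ih' := ih fun i h1 h2 => h i h1 (by push_cast; omega)
    have last : ∀ x y : ℝ, ((k + j : ℤ) : ℝ) ≤ x → x ≤ y → y ≤ (k + j : ℤ) + 1 →
        ‖approxPL w y - approxPL w x - ((y - x : ℝ) : ℂ) * T‖ ≤ L * (y - x) := by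
      intro x y h1 h2 h3
      rw [approx_eq w h1 (h2.trans h3), approx_eq w (h1.trans h2) h3]
      have e : w (k + j) + ((y - (k + j : ℤ) : ℝ) : ℂ) * (w (k + j + 1) - w (k + j)) -
          (w (k + j) + ((x - (k + j : ℤ) : ℝ) : ℂ) * (w (k + j + 1) - w (k + j))) -
          ((y - x : ℝ) : ℂ) * T = ((y - x : ℝ) : ℂ) * (w (k + j + 1) - w (k + j) - T) := by
        push_cast
        ring
      rw [e, norm_mul, Complex.norm_real, Real.norm_of_nonneg (sub_nonneg.2 h2), mul_comm]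
      exact mul_le_mul_of_nonneg_right (h _ (by omega) (by push_cast; omega)) (sub_nonneg.2 h2)
    intro x y h1 h2 h3
    push_cast at h3 last
    rcases le_total y (k + j) with h4 | h4
    · exact ih' x y h1 h2 h4
    rcases le_total (k + j : ℝ) x with h5 | h5
    · exact_mod_cast last x y h5 h2 (by linarith)
    have a1 := ih' x (k + j) h1 h5 le_rfl
    have a2 := last (k + j) y le_rfl h4 (by linarith)
    have e : approxPL w y - approxPL w x - ((y - x : ℝ) : ℂ) * T =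
        (approxPL w y - approxPL w (k + j) - ((y : ℂ) - ((k + j : ℝ) : ℂ)) * T) +
        (approxPL w (k + j) - approxPL w x - ((k + j - x : ℝ) : ℂ) * T) := by
      push_cast
      ring
    rw [e]
    refine (norm_add_le _ _).trans ?_
    linarith

lemma approx_lip (w : ℤ → ℂ) (T : ℂ) (L : ℝ) (x y : ℝ)
    (h : ∀ i : ℤ, min x y - 1 ≤ i → (i : ℝ) ≤ max x y → ‖w (i + 1) - w i - T‖ ≤ L) :
    ‖approxPL w y - approxPL w x - ((y - x : ℝ) : ℂ) * T‖ ≤ L * |y - x| := by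
  wlog hxy : x ≤ y generalizing x y
  · have h1 := this y x (by rwa [min_comm, max_comm]) (le_of_not_ge hxy)
    rw [abs_sub_comm, ← norm_neg]
    refine le_of_eq_of_le (congrArg _ ?_) h1
    push_cast
    ring
  rw [min_eq_left hxy, max_eq_right hxy] at h
  have h1 : ⌊x⌋ ≤ ⌊y⌋ := Int.floor_mono hxy
  obtain ⟨j, hj⟩ := Int.eq_ofNat_of_zero_le (show 0 ≤ ⌊y⌋ + 1 - ⌊x⌋ by omega)
  have h2 : (⌊y⌋ : ℝ) + 1 - ⌊x⌋ = j := by exact_mod_cast hj
  rw [abs_of_nonneg (sub_nonneg.2 hxy)]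
  refine approx_lip0 w T L ⌊x⌋ j (fun i a1 a2 => h i ?_ ?_) x y (Int.floor_le x) hxy ?_
  · have a3 : (⌊x⌋ : ℝ) ≤ i := by exact_mod_cast a1
    linarith [Int.sub_one_lt_floor x]
  · exact Int.le_floor.1 (by omega)
  · linarith [Int.lt_floor_add_one y]

lemma approx_cont (w : ℤ → ℂ) (L : ℝ) (h : ∀ i, ‖w (i + 1) - w i‖ ≤ L) :
    Continuous (approxPL w) := by
  have h0 : 0 ≤ L := (norm_nonneg _).trans (h 0)
  refine (LipschitzWith.of_dist_le_mul (K := ⟨L, h0⟩) fun x y => ?_).continuous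
  have h1 := approx_lip w 0 L y x fun i _ _ => by simpa using h i
  rw [mul_zero, sub_zero] at h1
  rw [dist_eq_norm, Real.dist_eq]
  exact h1

lemma approx_per (w : ℤ → ℂ) (n : ℤ) (h : ∀ i, w (i + n) = w i) (x : ℝ) :
    approxPL w (x + n) = approxPL w x := by
  rw [approxPL, approxPL, Int.floor_add_intCast, h, add_right_comm, h]
  push_cast
  ring

lemma approx_seg (w : ℤ → ℂ) (k : ℤ) (p : ℂ) : p ∈ segment ℝ (w k) (w (k + 1)) ↔
    ∃ x : ℝ, (k : ℝ) ≤ x ∧ x ≤ k + 1 ∧ approxPL w x = p := by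
  rw [segment_eq_image']
  constructor
  · rintro ⟨u, ⟨h1, h2⟩, rfl⟩
    refine ⟨k + u, by linarith, by linarith, ?_⟩
    rw [approx_eq w (k := k) (by linarith) (by linarith), add_sub_cancel_left]
    simp
  · rintro ⟨x, h1, h2, rfl⟩
    refine ⟨x - k, ⟨by linarith, by linarith⟩, ?_⟩
    rw [approx_eq w h1 h2]
    simp

lemma approx_grid {n : ℕ} [NeZero n] (p : ZMod n → ℂ) {η : ℝ} (hη : 0 < η) :
    ∃ (z : ZMod n → ℂ) (hg : ℝ), 0 < hg ∧ (∀ i j, (z i).re = (z j).re → i = j) ∧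
      (∀ i j, (z i).im = (z j).im → i = j) ∧
      (∀ i, ∃ a b : ℤ, (z i).re = hg * a ∧ (z i).im = hg * b) ∧ ∀ i, ‖z i - p i‖ ≤ η := by
  have hn : (0 : ℝ) < n := by exact_mod_cast NeZero.pos n
  obtain ⟨g, hg⟩ : ∃ g, g = η / (2 * n) := ⟨_, rfl⟩
  have g0 : 0 < g := by rw [hg]; positivity
  have g1 : n * g = η / 2 := by rw [hg]; field_simp
  let f : ℝ → ZMod n → ℤ := fun a i => n * ⌊a / (n * g)⌋ + i.val
  have f1 : ∀ a b i j, g * f a i = g * f b j → i = j := fun a b i j h => by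
    have h1 : f a i = f b j := by exact_mod_cast mul_left_cancel₀ g0.ne' h
    simpa [f] using congrArg (Int.cast : ℤ → ZMod n) h1
  have f2 : ∀ a i, |g * f a i - a| ≤ η / 2 := fun a i => by
    have h1 := Int.floor_le (a / (n * g))
    have h2 := Int.lt_floor_add_one (a / (n * g))
    have h3 : (i.val : ℝ) ≤ n := by exact_mod_cast (ZMod.val_lt i).le
    have h4 : (0 : ℝ) ≤ i.val := Nat.cast_nonneg _
    rw [le_div_iff₀ (by positivity)] at h1
    rw [div_lt_iff₀ (by positivity)] at h2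
    have h5 := mul_le_mul_of_nonneg_left h3 g0.le
    have h6 := mul_nonneg g0.le h4
    simp only [f]
    rw [Int.cast_add, Int.cast_mul, Int.cast_natCast, Int.cast_natCast, abs_le]
    constructor <;> nlinarith
  refine ⟨fun i => ⟨g * f (p i).re i, g * f (p i).im i⟩, g, g0, fun i j => f1 _ _ i j,
    fun i j => f1 _ _ i j, fun i => ⟨_, _, rfl, rfl⟩, fun i => ?_⟩
  refine (Complex.norm_le_abs_re_add_abs_im _).trans ?_
  have h1 := f2 (p i).re i
  have h2 := f2 (p i).im i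
  simp only [Complex.sub_re, Complex.sub_im]
  linarith

lemma approx_range {n : ℕ} [NeZero n] (z : ZMod n → ℂ) :
    Set.range (fun t : ℝ => approxPL (fun k => z k) (n * t)) = polySet z := by
  have hn : (0 : ℝ) < n := by exact_mod_cast NeZero.pos n
  ext p
  simp only [polySet, Set.mem_iUnion, Set.mem_range]
  constructor
  · rintro ⟨t, rfl⟩
    have h := (approx_seg (fun k => z k) ⌊n * t⌋ _).2
      ⟨n * t, Int.floor_le _, (Int.lt_floor_add_one _).le, rfl⟩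
    rw [Int.cast_add, Int.cast_one] at h
    exact ⟨_, h⟩
  · rintro ⟨v, hv⟩
    obtain ⟨k, rfl⟩ := ZMod.intCast_surjective v
    obtain ⟨x, -, -, hx⟩ := (approx_seg (fun k => z k) k p).1 (by
      rw [Int.cast_add, Int.cast_one]; exact hv)
    exact ⟨x / n, by rw [mul_div_cancel₀ _ hn.ne', hx]⟩

lemma approx_simple {n : ℕ} [NeZero n] (z : ZMod n → ℂ)
    (h : ∀ s t : ℝ, approxPL (fun k => z k) (n * s) = approxPL (fun k => z k) (n * t) →
      ∃ k : ℤ, t = s + k) : SimplePoly z := by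
  have hn : (0 : ℝ) < n := by exact_mod_cast NeZero.pos n
  intro i j P hi hj
  obtain ⟨a, rfl⟩ := ZMod.intCast_surjective i
  obtain ⟨b, rfl⟩ := ZMod.intCast_surjective j
  obtain ⟨x, x1, x2, hx⟩ := (approx_seg (fun k => z k) a P).1 (by
    rw [Int.cast_add, Int.cast_one]; exact hi)
  obtain ⟨y, y1, y2, hy⟩ := (approx_seg (fun k => z k) b P).1 (by
    rw [Int.cast_add, Int.cast_one]; exact hj)
  obtain ⟨k, hk⟩ := h (x / n) (y / n) (by
    rw [mul_div_cancel₀ _ hn.ne', mul_div_cancel₀ _ hn.ne', hx, hy])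
  have e : y = x + n * k := by
    field_simp at hk
    linarith
  obtain ⟨c, hc⟩ : ∃ c : ℤ, c = b - n * k := ⟨_, rfl⟩
  have c0 : (b : ZMod n) = c := by simp [hc]
  have c1 : (c : ℝ) = b - n * k := by rw [hc]; push_cast; ring
  have c2 : c ≤ a + 1 := by exact_mod_cast (show (c : ℝ) ≤ a + 1 by linarith)
  have c3 : a ≤ c + 1 := by exact_mod_cast (show (a : ℝ) ≤ c + 1 by linarith)
  rw [c0]
  obtain h1 | h1 | h1 : a = c ∨ c = a + 1 ∨ a = c + 1 := by omega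
  · exact Or.inl (by rw [h1])
  · have h2 : (c : ℝ) = a + 1 := by exact_mod_cast h1
    refine Or.inr (Or.inl ⟨by rw [h1]; push_cast; rfl, ?_⟩)
    rw [← hx, show x = c by linarith, approx_int]
  · have h2 : (a : ℝ) = c + 1 := by exact_mod_cast h1
    refine Or.inr (Or.inr ⟨by rw [h1]; push_cast; rfl, ?_⟩)
    rw [← hx, show x = a by linarith, approx_int]

lemma approx_loc {γ : ℝ → ℂ} {w : ℤ → ℂ} {n κ δ0 t0 : ℝ} {T : ℂ} (hn : 0 < n)
    (hδ : 2 ≤ n * δ0) (hw : ∀ k : ℤ, ‖w k - γ (k / n)‖ ≤ κ / (2 * n))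
    (h : ∀ s t, |s - t0| ≤ δ0 → |t - t0| ≤ δ0 →
      ‖γ t - γ s - ((t - s : ℝ) : ℂ) * T‖ ≤ κ * |t - s|) (s t : ℝ) (hs : |s - t0| ≤ δ0 / 2)
    (ht : |t - t0| ≤ δ0 / 2) :
    ‖approxPL w (n * t) - approxPL w (n * s) - ((t - s : ℝ) : ℂ) * T‖ ≤ 2 * κ * |t - s| := by
  have hn' : (n : ℂ) ≠ 0 := by exact_mod_cast hn.ne'
  rw [abs_le] at hs ht
  have key : ∀ u : ℝ, n * (t0 - δ0) ≤ u → u ≤ n * (t0 + δ0) → |u / n - t0| ≤ δ0 := fun u h1 h2 => by
    rw [abs_le, le_sub_iff_add_le, sub_le_iff_le_add, le_div_iff₀ hn, div_le_iff₀ hn]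
    constructor <;> linarith
  have h1 := approx_lip w (T / n) (2 * κ / n) (n * s) (n * t) fun i a1 a2 => by
    have b1 : n * (t0 - δ0 / 2) ≤ min (n * s) (n * t) :=
      le_min (mul_le_mul_of_nonneg_left (by linarith) hn.le)
        (mul_le_mul_of_nonneg_left (by linarith) hn.le)
    have b2 : max (n * s) (n * t) ≤ n * (t0 + δ0 / 2) :=
      max_le (mul_le_mul_of_nonneg_left (by linarith) hn.le)
        (mul_le_mul_of_nonneg_left (by linarith) hn.le)
    have b3 := h (i / n) ((i + 1 : ℤ) / n) (key _ (by linarith) (by linarith))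
      (key _ (by push_cast; linarith) (by push_cast; linarith))
    have b4 : ((i + 1 : ℤ) : ℝ) / n - i / n = 1 / n := by push_cast; ring
    rw [b4, abs_of_pos (by positivity)] at b3
    have e : w (i + 1) - w i - T / n = (γ ((i + 1 : ℤ) / n) - γ (i / n) - ((1 / n : ℝ) : ℂ) * T) +
        (w (i + 1) - γ ((i + 1 : ℤ) / n)) - (w i - γ (i / n)) := by
      push_cast
      ring
    rw [e]
    refine (norm_sub_le _ _).trans ((add_le_add_left (norm_add_le _ _) _).trans ?_)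
    have b5 : κ * (1 / n) + κ / (2 * n) + κ / (2 * n) = 2 * κ / n := by ring
    linarith [hw i, hw (i + 1)]
  have e1 : ((n * t - n * s : ℝ) : ℂ) * (T / n) = ((t - s : ℝ) : ℂ) * T := by
    push_cast
    field_simp
  rw [e1, ← mul_sub, abs_mul, abs_of_pos hn] at h1
  refine h1.trans (le_of_eq ?_)
  field_simp

lemma approx_close {γ : ℝ → ℂ} {w : ℤ → ℂ} {n κ δ0 : ℝ} (hn : 0 < n) (hκ : 0 ≤ κ)
    (hδ : 2 ≤ n * δ0) (hw : ∀ k : ℤ, ‖w k - γ (k / n)‖ ≤ κ / (2 * n))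
    (h : ∀ t0, ∃ T : ℂ, ∀ s t, |s - t0| ≤ δ0 → |t - t0| ≤ δ0 →
      ‖γ t - γ s - ((t - s : ℝ) : ℂ) * T‖ ≤ κ * |t - s|) (t : ℝ) :
    ‖approxPL w (n * t) - γ t‖ ≤ 4 * κ / n := by
  obtain ⟨T, hT⟩ := h t
  have h0 : 1 / n ≤ δ0 / 2 := by rw [div_le_iff₀ hn]; linarith
  have h1 : 0 < 1 / n := by positivity
  have h2 : |(⌊n * t⌋ : ℝ) / n - t| ≤ 1 / n := by
    have a1 := Int.floor_le (n * t)
    have a2 := Int.lt_floor_add_one (n * t)
    rw [show (⌊n * t⌋ : ℝ) / n - t = (⌊n * t⌋ - n * t) / n by field_simp, abs_div, abs_of_pos hn]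
    refine div_le_div_of_nonneg_right (abs_le.2 ⟨?_, ?_⟩) hn.le <;> linarith
  have h3 := approx_loc hn hδ hw hT (⌊n * t⌋ / n) t (h2.trans h0) (by simp; linarith)
  have h4 := hT (⌊n * t⌋ / n) t (by linarith) (by simp; linarith)
  have h5 := hw ⌊n * t⌋
  rw [mul_div_cancel₀ _ hn.ne', approx_int] at h3
  rw [abs_sub_comm] at h2
  have h6 := mul_le_mul_of_nonneg_left h2 hκ
  have e : approxPL w (n * t) - γ t =
      (approxPL w (n * t) - w ⌊n * t⌋ - ((t - ⌊n * t⌋ / n : ℝ) : ℂ) * T) +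
        (w ⌊n * t⌋ - γ (⌊n * t⌋ / n)) -
        (γ t - γ (⌊n * t⌋ / n) - ((t - ⌊n * t⌋ / n : ℝ) : ℂ) * T) := by ring
  rw [e]
  refine (norm_sub_le _ _).trans ((add_le_add_left (norm_add_le _ _) _).trans ?_)
  have h7 : 3 * (κ * (1 / n)) + κ / (2 * n) + κ / (2 * n) = 4 * κ / n := by ring
  have h8 : 0 ≤ κ / (2 * n) := by positivity
  linarith

lemma approx_far {γ : ℝ → ℂ} {m δ0 ρ θ : ℝ} (H : AL γ m δ0 ρ θ) (hm : 0 < m) (hδ : 0 < δ0)
    (hθ : θ ≤ 1 / 2) (s t : ℝ) (h : ∀ k : ℤ, δ0 / 2 ≤ |t - s - k|) :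
    min ρ (m * δ0 / 4) ≤ ‖γ t - γ s‖ := by
  by_cases h1 : ∀ k : ℤ, δ0 ≤ |t - s - k|
  · exact (min_le_left _ _).trans (H.far s t h1).le
  push Not at h1
  obtain ⟨k, hk⟩ := h1
  obtain ⟨T, hT, h2⟩ := H.loc s
  have h3 := h2 s (t - k) (by simp; linarith) (by rw [sub_right_comm]; exact hk.le)
  have h4 : γ (t - k) = γ t := by simpa using H.per.sub_int_mul_eq (x := t) k
  have h5 := h k
  rw [h4, sub_right_comm t] at h3
  have h6 := norm_sub_norm_le (((t - s - k : ℝ) : ℂ) * T) (γ t - γ s)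
  have h7 := norm_sub_le (γ t - γ s) (γ t - γ s - ((t - s - k : ℝ) : ℂ) * T)
  rw [sub_sub_cancel, norm_mul, Complex.norm_real, Real.norm_eq_abs] at h7
  refine (min_le_right _ _).trans ?_
  have h8 : 0 ≤ |t - s - k| := abs_nonneg _
  have h9 := mul_le_mul_of_nonneg_left hT h8
  have h10 := mul_le_mul_of_nonneg_left h5 hm.le
  have h11 := mul_le_mul_of_nonneg_right hθ (mul_nonneg hm.le h8)
  linarith

theorem Curve.poly {γ : ℝ → ℂ} (H : Curve γ) {ϑ : ℝ} (hϑ : 0 < ϑ) :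
    ∃ ρ : ℝ, 0 < ρ ∧ ∀ δ : ℝ, 0 < δ → ∃ (n : ℕ) (_ : NeZero n) (z : ZMod n → ℂ) (hg : ℝ),
      GP z hg ∧ Flat (polySet z) ρ ϑ ∧ ∀ p ∈ polySet z, ∃ t, ‖p - γ t‖ ≤ δ := by
  obtain ⟨m, hm, h0⟩ := H.al
  obtain ⟨θ, θ0, θ1, θ2⟩ : ∃ θ : ℝ, 0 < θ ∧ θ ≤ 1 / 6 ∧ 4 * θ ≤ ϑ :=
    ⟨min (1 / 6) (ϑ / 4), by positivity, min_le_left _ _, by
      linarith [min_le_right (1 / 6) (ϑ / 4)]⟩
  obtain ⟨δ0, ρ, hδ0, hρ, -, A⟩ := h0 θ θ0
  obtain ⟨r, hr⟩ : ∃ r, r = min ρ (m * δ0 / 4) := ⟨_, rfl⟩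
  have r0 : 0 < r := by rw [hr]; positivity
  have r1 : r ≤ m * δ0 / 4 := hr ▸ min_le_right _ _
  refine ⟨r / 4, by positivity, fun δ hδ => ?_⟩
  obtain ⟨n, hn⟩ := exists_nat_ge (3 + 2 / δ0 + m / δ + m / (r / 4))
  have p1 : 0 < 2 / δ0 := by positivity
  have p2 : 0 < m / δ := by positivity
  have p3 : 0 < m / (r / 4) := by positivity
  have n3 : 3 ≤ n := by exact_mod_cast (show (3 : ℝ) ≤ n by linarith)
  have n0 : (0 : ℝ) < n := by linarith
  have : NeZero n := ⟨by omega⟩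
  have q1 : 2 ≤ n * δ0 := (div_le_iff₀ hδ0).1 (by linarith)
  have q2 : m ≤ n * δ := (div_le_iff₀ hδ).1 (by linarith)
  have q3 : m ≤ n * (r / 4) := (div_le_iff₀ (by positivity)).1 (by linarith)
  have q4 : 4 * (θ * m) ≤ m := by nlinarith
  obtain ⟨z, hg, g0, g1, g2, g3, g4⟩ := approx_grid (n := n) (fun v => γ (v.val / n))
    (η := θ * m / (2 * n)) (by positivity)
  have hw : ∀ k : ℤ, ‖z k - γ (k / n)‖ ≤ θ * m / (2 * n) := fun k => by
    have e1 : (((k : ZMod n).val : ℤ) : ℝ) = (k - n * (k / n) : ℤ) := by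
      rw [ZMod.val_intCast, Int.emod_def]
    have e2 : (((k : ZMod n).val : ℝ)) / n = k / n - (k / n : ℤ) * 1 := by
      rw [Int.cast_natCast, Int.cast_sub, Int.cast_mul, Int.cast_natCast] at e1
      rw [e1]
      field_simp
    have e3 := g4 k
    rwa [e2, H.per.sub_int_mul_eq] at e3
  have cl := approx_close (w := fun k => z k) n0 (by positivity) q1 hw fun t0 =>
    (A.loc t0).imp fun T hT => hT.2
  have A' : AL (fun t : ℝ => approxPL (fun k => z k) (n * t)) m (δ0 / 2) (r / 4) (2 * θ) := by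
    refine ⟨?_, fun t => ?_, fun t0 => ?_, fun s t h => ?_⟩
    · refine (approx_cont _ (∑ v, ‖z (v + 1) - z v‖) fun i => ?_).comp (by fun_prop)
      rw [Int.cast_add, Int.cast_one]
      exact Finset.single_le_sum (f := fun v => ‖z (v + 1) - z v‖) (fun _ _ => norm_nonneg _)
        (Finset.mem_univ _)
    · have := approx_per (fun k => z k) n (fun i => by simp) (n * t)
      simpa [mul_add] using this
    · obtain ⟨T, hT, h1⟩ := A.loc t0
      refine ⟨T, hT, fun s t hs ht => ?_⟩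
      rw [mul_assoc 2]
      exact approx_loc (w := fun k => z k) n0 q1 hw h1 s t hs ht
    · have a1 := approx_far A hm hδ0 (by linarith) s t h
      have a2 : 4 * (θ * m) / n ≤ r / 4 := by rw [div_le_iff₀ n0]; linarith
      have a3 := cl s
      have a4 := cl t
      rw [← hr] at a1
      generalize approxPL (fun k => z k) (n * t) = a, approxPL (fun k => z k) (n * s) = b at *
      have e : γ t - γ s = (a - b) - (a - γ t) + (b - γ s) := by ring
      rw [e] at a1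
      have a5 := (norm_add_le _ _).trans (add_le_add_left (norm_sub_le (a - b) (a - γ t)) ‖b - γ s‖)
      linarith
  have fl := A'.flat hm (by positivity) (by positivity) (by linarith) (by positivity) (by linarith)
  rw [approx_range] at fl
  refine ⟨n, this, z, hg, ⟨n3, approx_simple z fun s t e => A'.inj hm (by positivity)
    (by linarith) e, g1, g2, g0, g3⟩, fun p hp => ?_, fun p hp => ?_⟩
  · obtain ⟨τ, h1, h2, h3⟩ := fl p hp
    refine ⟨τ, h1, fun a ha b hb h4 h5 => (h2 a ha b hb h4 h5).trans ?_, h3⟩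
    exact mul_le_mul_of_nonneg_right (by linarith) (norm_nonneg _)
  · rw [← approx_range] at hp
    obtain ⟨t, rfl⟩ := hp
    refine ⟨t, (cl t).trans ?_⟩
    rw [div_le_iff₀ n0]
    linarith

end Pool.Agent.Lib.MP_5a3ebe_gt.PI
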