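import Pool.Agent.Lib.MP_5a3ebe_gt.PiSeg

/-! The base point of a polygon. -/

set_option linter.unusedSectionVars false
set_option linter.unusedVariables false

namespace Pool.Agent.Lib.MP_5a3ebe_gt.PI

open Ap Classical

lemma base_cle {a b : ℤ} (h : a ≤ b) : (a : ℝ) ≤ b := by exact_mod_cast h

lemma base_cle1 {a b : ℤ} (h : a < b) : (a : ℝ) + 1 ≤ b := by exact_mod_cast h

/-- An abscissa in the interior of a slice lies under the edges alive in the slice only. -/
lemma base_al {n : ℕ} [NeZero n] {z : ZMod n → ℂ} {h : ℝ} {X : ZMod n → ℤ} (hh : 0 < h)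
    (hX : ∀ i, (z i).re = h * X i) {k : ℤ} {u : ℝ} (u1 : (k : ℝ) < u) (u2 : u < k + 1)
    (t : ZMod n) : Under z t (h * u) ↔ (polyDiag z h X).Al k t := by
  have e1 : min (z t).re (z (t + 1)).re = h * ((min (X t) (X (t + 1)) : ℤ) : ℝ) := by
    simp only [hX]
    push_cast
    exact (mul_min_of_nonneg _ _ hh.le).symm
  have e2 : max (z t).re (z (t + 1)).re = h * ((max (X t) (X (t + 1)) : ℤ) : ℝ) := by
    simp only [hX]
    push_cast
    exact (mul_max_of_nonneg _ _ hh.le).symm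
  unfold Under
  rw [e1, e2, mul_le_mul_iff_right₀ hh, mul_le_mul_iff_right₀ hh]
  change _ ↔ t ∈ Finset.univ ∧ min (X t) (X (t + 1)) ≤ k ∧ k < max (X t) (X (t + 1))
  generalize min (X t) (X (t + 1)) = a
  generalize max (X t) (X (t + 1)) = b
  constructor
  · rintro ⟨h1, h2⟩
    have h3 : (a : ℝ) < k + 1 := by linarith
    have h4 : (k : ℝ) < b := by linarith
    have h5 : a < k + 1 := by exact_mod_cast h3
    exact ⟨Finset.mem_univ _, by omega, by exact_mod_cast h4⟩
  · rintro ⟨-, h1, h2⟩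
    exact ⟨by linarith [base_cle h1], by linarith [base_cle1 h2]⟩

/-- The order of two edges alive in a slice is the same over all interior abscissae. -/
lemma base_order {n : ℕ} [NeZero n] {z : ZMod n → ℂ} (hn : 3 ≤ n) (hs : SimplePoly z)
    (hi : ∀ i j, (z i).re = (z j).re → i = j) {h : ℝ} {X : ZMod n → ℤ} (hh : 0 < h)
    (hX : ∀ i, (z i).re = h * X i) {k : ℤ} {u : ℝ} (u1 : (k : ℝ) < u) (u2 : u < k + 1)
    {s t : ZMod n} (hst : s ≠ t) (h1 : (polyDiag z h X).Al k s) (h2 : (polyDiag z h X).Al k t)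
    (hk : (polyDiag z h X).key k s ≤ (polyDiag z h X).key k t) :
    eh z s (h * u) < eh z t (h * u) := by
  have hlt : (polyDiag z h X).key k s < (polyDiag z h X).key k t :=
    lt_of_le_of_ne hk fun e => hst ((poly_good z h X hn hs hi hh hX).1.inj k s t h1 h2 e)
  obtain ⟨-, s1, s2⟩ := h1
  obtain ⟨-, t1, t2⟩ := h2
  have := base_cle s1
  have := base_cle1 s2
  have := base_cle t1
  have := base_cle1 t2
  rcases le_total u (k + 1 / 2) with hu | hu
  · exact (poly_order hn hs hi hh hX hst hu (by linarith) (by linarith) (by linarith)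
      (by linarith)).1.2 hlt
  · exact (poly_order hn hs hi hh hX hst hu (by linarith) (by linarith) (by linarith)
      (by linarith)).1.1 hlt

theorem exists_base {n : ℕ} [NeZero n] {z : ZMod n → ℂ} {hg : ℝ} (H : GP z hg) :
    ∃ (s0 : ZMod n) (q : ℕ) (a b : ℤ), 0 < q ∧ Under z s0 (hg / q * a) ∧
      eh z s0 (hg / q * a) = hg / q * b ∧ (∀ v, (z v).re ≠ hg / q * a) ∧
      (∀ v, (z v).im ≠ hg / q * b) ∧
      ∀ t, t ≠ s0 → Under z t (hg / q * a) → hg / q * b < eh z t (hg / q * a) := by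
  obtain ⟨hn, hs, hi, him, hh, hgr⟩ := H
  choose X Y hX hY using hgr
  have hne : ∀ v, X (v + 1) ≠ X v := fun v e => poly_re_ne hn hi v (by rw [hX, hX, e])
  have hne' : ∀ v, Y (v + 1) ≠ Y v := fun v e =>
    zmod_one_ne hn (by simpa using him (v + 1) v (by rw [hY, hY, e]))
  set k : ℤ := min (X 0) (X (0 + 1)) with hk
  have h0 : (polyDiag z hg X).Al k 0 := by
    have := hne 0
    refine ⟨Finset.mem_univ _, le_rfl, ?_⟩
    change k < max (X 0) (X (0 + 1))
    omega
  obtain ⟨s0, hs0, hmin⟩ := (Finset.univ.filter fun t => (polyDiag z hg X).Al k t).exists_min_image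
    ((polyDiag z hg X).key k) ⟨0, Finset.mem_filter.2 ⟨Finset.mem_univ _, h0⟩⟩
  have hs1 := (Finset.mem_filter.1 hs0).2
  have d1 : ((X (s0 + 1) : ℚ) - X s0) ≠ 0 := sub_ne_zero.2 (by exact_mod_cast hne s0)
  have d2 : ((Y (s0 + 1) : ℚ) - Y s0) ≠ 0 := sub_ne_zero.2 (by exact_mod_cast hne' s0)
  set r : ℚ → ℚ := fun u => Y s0 + (Y (s0 + 1) - Y s0) * (u - X s0) / (X (s0 + 1) - X s0) with hr
  have rinj : Function.Injective r := fun u u' e => by
    simp only [hr, add_right_inj, div_left_inj' d1, mul_right_inj' d2, sub_left_inj] at e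
    exact e
  have hfin : (r ⁻¹' Set.range fun v => (Y v : ℚ)).Finite :=
    (Set.finite_range _).preimage rinj.injOn
  obtain ⟨u, ⟨u1, u2⟩, hu⟩ := (Set.Ioo_infinite (by linarith : (k : ℚ) < k + 1)).exists_notMem_finite
    hfin
  have v1 : (k : ℝ) < u := by exact_mod_cast u1
  have v2 : (u : ℝ) < k + 1 := by exact_mod_cast u2
  have p1 : (u.den : ℝ) ≠ 0 := by exact_mod_cast u.den_ne_zero
  have p2 : ((r u).den : ℝ) ≠ 0 := by exact_mod_cast (r u).den_ne_zero
  have ea : hg / ((u.den * (r u).den : ℕ) : ℝ) * ((u.num * (r u).den : ℤ) : ℝ) = hg * u := by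
    rw [Rat.cast_def u]
    push_cast
    field_simp
  have eb : hg / ((u.den * (r u).den : ℕ) : ℝ) * (((r u).num * u.den : ℤ) : ℝ) = hg * r u := by
    rw [Rat.cast_def (r u)]
    push_cast
    field_simp
  have ee : eh z s0 (hg * u) = hg * r u := by
    have d3 : ((X (s0 + 1) : ℝ) - X s0) ≠ 0 := sub_ne_zero.2 (by exact_mod_cast hne s0)
    simp only [eh, lineH, hX, hY, hr]
    push_cast
    rw [← mul_sub, ← mul_sub, ← mul_sub]
    field_simp
  refine ⟨s0, u.den * (r u).den, u.num * (r u).den, (r u).num * u.den,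
    Nat.mul_pos u.den_pos (r u).den_pos, ?_⟩
  rw [ea, eb]
  refine ⟨(base_al hh hX v1 v2 s0).2 hs1, ee, fun v e => ?_, fun v e => ?_, fun t ht hu' => ?_⟩
  · rw [hX, mul_right_inj' hh.ne'] at e
    rw [← e] at v1 v2
    have w1 : k < X v := by exact_mod_cast v1
    have w2 : X v < k + 1 := by exact_mod_cast v2
    omega
  · rw [hY, mul_right_inj' hh.ne'] at e
    exact hu ⟨v, by exact_mod_cast e⟩
  · have h2 := (base_al hh hX v1 v2 t).1 hu'
    rw [← ee]
    exact base_order hn hs hi hh hX v1 v2 ht.symm hs1 h2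
      (hmin t (Finset.mem_filter.2 ⟨Finset.mem_univ _, h2⟩))

/-- The lowest edge over a generic abscissa is the lowest strand of the diagram. -/
lemma lowest_key {n : ℕ} [NeZero n] {z : ZMod n → ℂ} (hn : 3 ≤ n) (hs : SimplePoly z)
    (hi : ∀ i j, (z i).re = (z j).re → i = j) {h : ℝ} {X : ZMod n → ℤ} (hh : 0 < h)
    (hX : ∀ i, (z i).re = h * X i) {i0 : ℤ} {s0 : ZMod n} (hx : ∀ v, (z v).re ≠ h * i0)
    (hu : Under z s0 (h * i0))
    (low : ∀ t, t ≠ s0 → Under z t (h * i0) → eh z s0 (h * i0) < eh z t (h * i0)) :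
    ∀ t, (polyDiag z h X).Al i0 t → t ≠ s0 →
      (polyDiag z h X).key i0 s0 < (polyDiag z h X).key i0 t := by
  intro t ht hts
  have hv : ∀ v, X v ≠ i0 := fun v e => hx v (by rw [hX, e])
  obtain ⟨-, s1, s2⟩ := (under_iff hh hX i0 s0).2 hu
  obtain ⟨t0, t1, t2⟩ := ht
  have s3 : i0 < (polyDiag z h X).e s0 := by
    have a1 := hv s0
    have a2 := hv (s0 + 1)
    change i0 ≤ max (X s0) (X (s0 + 1)) at s2
    change i0 < max (X s0) (X (s0 + 1))
    omega
  have t3 : (polyDiag z h X).b t < i0 := by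
    have a1 := hv t
    have a2 := hv (t + 1)
    change min (X t) (X (t + 1)) ≤ i0 at t1
    change min (X t) (X (t + 1)) < i0
    omega
  have := base_cle s1
  have := base_cle1 s3
  have := base_cle1 t3
  have := base_cle1 t2
  exact (poly_order hn hs hi hh hX hts.symm (u := (i0 : ℝ)) (u' := (i0 : ℝ) + 1 / 2) (by linarith)
    (by linarith) (by linarith) (by linarith) (by linarith)).1.1
    (low t hts ((under_iff hh hX i0 t).1 ⟨t0, t1, t2.le⟩))

end Pool.Agent.Lib.MP_5a3ebe_gt.PI
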