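import Pool.Agent.Lib.MP_5a3ebe_gt.PiMv

/-! The base strand gives a box in the factor. -/

set_option linter.unusedSectionVars false
set_option linter.unusedVariables false

namespace Pool.Agent.Lib.MP_5a3ebe_gt.PI

open Ap Classical

variable {κ Γ : Type} [Fintype κ] [DecidableEq κ] [Fintype Γ] [DecidableEq Γ] {D : Diag κ}
  {T : TC κ Γ}

lemma box_aux_quiet {G : Geo κ} {h gb : ℝ} {i0 : ℤ} {s0 : κ} {B : ℕ}
    (H : G.Base D h gb i0 s0 B) {k : ℤ} (h1 : i0 - 4 * B ≤ k + 1) (h2 : k + 1 ≤ i0 + 4 * B) :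
    D.Quiet k := by
  intro s hs
  have a1 := H.quiet s hs false
  have a2 := H.quiet s hs true
  simp only [Diag.wall_true, Diag.wall_false] at a1 a2
  constructor <;> omega

lemma box_aux_al {G : Geo κ} {h gb : ℝ} {i0 : ℤ} {s0 : κ} {B : ℕ}
    (H : G.Base D h gb i0 s0 B) {k : ℤ} (hk : |k - i0| ≤ 4 * B) : D.Al k s0 :=
  H.alive (i := i0) ⟨H.al.1, H.al.2.1, H.al.2.2.le⟩ (by simp) hk

/-- The entry from a slice of the base strand to the wall on its left. -/
lemma box_aux_left {G : Bool → Geo κ} {side b1 b2 P ω rz ζ S R gb μ cm i0 s0 B}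
    (H : FacH T D G side b1 b2 P ω rz ζ S R gb μ cm i0 s0 B) {g g' : Γ}
    (h1 : T.sl g = true) (h2 : T.st g = s0) (h3 : |T.w g - i0| + 1 ≤ 4 * B)
    (h4 : T.sl g' = false) (h5 : T.w g' = T.w g) (h6 : T.st g' = s0) : T.d g g' ≠ 0 := by
  have Sp := H.spec
  have e1 : T.ρ true g g = 0 := by
    by_contra x
    have := (Sp.ρS true g g x).2
    simp at this
  have e2 : (T.h true * T.d) g g = 0 := by
    by_contra x
    obtain ⟨u, v1, v2⟩ := F2.sum_ne x
    have := (Sp.hS true g u v1).2.1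
    simp [h1] at this
  have e3 : (T.d * T.h true) g g ≠ 0 := by
    have := congrFun (congrFun (Sp.hom true) g) g
    simp only [Matrix.add_apply, e1, e2, add_zero, Matrix.one_apply_eq] at this
    rw [this]
    exact one_ne_zero
  obtain ⟨x, v1, v2⟩ := F2.sum_ne e3
  obtain ⟨⟨t, a1, a2, ha, la1, la2, -⟩, -, -⟩ := Sp.dS g x v1
  obtain ⟨⟨t', c1, c2, hc, lc1, lc2, -⟩, sx, wx⟩ := Sp.hS true x g v2
  simp only [if_true] at wx
  simp only [h1, sx, if_true, Bool.false_eq_true, if_false] at ha hc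
  have es : T.st x = s0 := by
    by_contra ne
    have ad := (H.ok true).adm H.good H.h0
    have l1 : D.Le (T.w g) 0 s0 (T.st x) := by
      intro lam α hl
      have u1 := la1 lam α hl
      have u2 := la2 lam α hl
      have u3 : (a1 : ℝ) + a2 = 0 := by exact_mod_cast (by omega : a1 + a2 = 0)
      rw [← wx] at u2
      rw [h2] at u1
      have u4 : (a1 : ℝ) * α + a2 * α = 0 := by rw [← add_mul, u3, zero_mul]
      push_cast
      linarith
    have l2 : (G true).lam D (T.w g) s0 ≤ (G true).lam D (T.w g) (T.st x) := by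
      have u1 := lc1 _ _ ad
      have u2 := lc2 _ _ ad
      have u3 : (c1 : ℝ) + c2 = 0 := by exact_mod_cast (by omega : c1 + c2 = 0)
      rw [← wx] at u1
      rw [h2] at u2
      have u4 : (c1 : ℝ) * ((G true).A / 2) + c2 * ((G true).A / 2) = 0 := by
        rw [← add_mul, u3, zero_mul]
      linarith
    have hb := abs_le.1 (show |T.w g - i0| ≤ 4 * B - 1 by omega)
    have alx : D.Al i0 (T.st x) :=
      (H.base true).alive (Sp.touch x) (by rw [← wx]; omega) (by simp)
    have kne : D.key i0 (T.st x) ≠ D.key i0 s0 := fun e =>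
      ne (H.good.inj i0 _ _ alx (H.base true).al e)
    have cut := (H.base true).cut H.good H.h0 (H.ok true)
      (bot := fun t => D.key i0 t ≤ min (D.key i0 (T.st x)) (D.key i0 s0))
      (fun s t _ _ p q => lt_of_le_of_lt p (not_le.1 q))
    have cm0 : 0 < cm := by
      have p1 := H.c2
      have p2 := H.c00
      have p3 : 0 ≤ (ω + P.RK) * ζ := mul_nonneg (add_nonneg H.ω0.le H.RK0) H.ζ0
      by_contra q
      have := mul_nonpos_of_nonneg_of_nonpos H.ω0.le (not_lt.1 q)
      linarith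
    have gb0 : 0 < gb * P.h := by
      by_contra q
      have := mul_nonpos_of_nonpos_of_nonneg (not_lt.1 q) (Nat.cast_nonneg (α := ℝ) B)
      linarith [H.c3]
    have dr := cut.le_drop H.good H.conn gb0.le ad 1 (by push_cast; omega) (by push_cast; omega) l1
      (by
        simp only [le_min_iff, le_refl, and_true, true_and]
        intro q
        rcases lt_or_gt_of_ne kne with r | r
        · exact absurd (q.2 r.le) (not_le.2 r)
        · exact absurd (q.1 r.le) (not_le.2 r))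
    push_cast at dr
    linarith
  have : x = g' := Sp.inj _ _ (by rw [h5, wx]) (by rw [sx, h4]) (by rw [es, h6])
  rwa [← this]

lemma box_aux_right {G : Bool → Geo κ} {side b1 b2 P ω rz ζ S R gb μ cm i0 s0 B}
    (H : FacH T D G side b1 b2 P ω rz ζ S R gb μ cm i0 s0 B) {g g' : Γ}
    (h1 : T.sl g = true) (h2 : T.st g = s0) (h3 : |T.w g - i0| + 1 ≤ 4 * B)
    (h4 : T.sl g' = false) (h5 : T.w g' = T.w g + 1) (h6 : T.st g' = s0) : T.d g g' ≠ 0 := by
  have hb := abs_le.1 (show |T.w g - i0| ≤ 4 * B - 1 by omega)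
  have := (H.spec.quiet g g' (box_aux_quiet (H.base true) (by omega) (by omega)) h1 h4 h5).1
  rw [this, if_pos (by rw [h2, h6])]
  exact one_ne_zero

lemma box_aux_cast (a : ℤ) : (a : F2) = if a % 2 = 1 then 1 else 0 := by
  have h2 : (2 : F2) = 0 := rfl
  rcases Int.emod_two_eq_zero_or_one a with r | r
  · have : a = 2 * (a / 2) := by omega
    rw [if_neg (by omega), this]
    push_cast
    rw [h2, zero_mul]
  · have : a = 2 * (a / 2) + 1 := by omega
    rw [if_pos r, this]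
    push_cast
    rw [h2, zero_mul, zero_add]

theorem FacH.box {G : Bool → Geo κ} {side b1 b2 P ω rz ζ S R gb μ cm i0 s0 B}
    (H : FacH T D G side b1 b2 P ω rz ζ S R gb μ cm i0 s0 B) :
    ∃ b : ℤ → ℤ → Γ × ℤ, (facRD T G side b1 b2 ω rz ζ i0 s0 B P.M).Box P
        (LEnt (kap T D) (-1) T.d) (shU Γ (-1)) (fun y => T.par D y.1) b (2 * B) true (-1)
        (if D.dir s0 then 1 else 0) i0 ∧
      (∀ a m : ℤ, |a| ≤ (2 * B : ℕ) → T.st (b a m).1 = s0 ∧ (b a m).2 = m) ∧
      ∀ y : Γ × ℤ, T.st y.1 = s0 → |T.w y.1 - i0| + 1 ≤ B →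
        ∃ a : ℤ, |a| ≤ (2 * B : ℕ) ∧ y = b a y.2 := by
  have Sp := H.spec
  have MB := H.MB
  have ex : ∀ a : ℤ, ∃ g : Γ, |a| ≤ (2 * B : ℕ) →
      T.w g = i0 + a / 2 ∧ T.sl g = decide (a % 2 = 1) ∧ T.st g = s0 := by
    intro a
    by_cases ha : |a| ≤ (2 * B : ℕ)
    · have hb := abs_le.1 ha
      push_cast at hb
      rcases Int.emod_two_eq_zero_or_one a with r | r
      · obtain ⟨g, p1, p2, p3⟩ := Sp.wlE (i0 + a / 2 - 1) s0
          (box_aux_quiet (H.base true) (by omega) (by omega))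
          (box_aux_al (H.base true) (abs_le.2 ⟨by omega, by omega⟩))
        exact ⟨g, fun _ => ⟨by omega, by simp [p2, r], p3⟩⟩
      · obtain ⟨g, p1, p2, p3⟩ := Sp.slE (i0 + a / 2) s0
          (box_aux_al (H.base true) (abs_le.2 ⟨by omega, by omega⟩))
        exact ⟨g, fun _ => ⟨p1, by simp [p2, r], p3⟩⟩
    · obtain ⟨g, -⟩ := Sp.slE i0 s0 (H.base true).al
      exact ⟨g, fun h => absurd h ha⟩
  choose gn hg using ex
  have hg' : ∀ a : ℤ, -(2 * B : ℤ) ≤ a → a ≤ 2 * B →
      T.w (gn a) = i0 + a / 2 ∧ T.sl (gn a) = decide (a % 2 = 1) ∧ T.st (gn a) = s0 :=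
    fun a h1 h2 => hg a (abs_le.2 ⟨by push_cast; omega, by push_cast; omega⟩)
  have bd : ∀ {a c : ℤ}, |a| + c ≤ (2 * B : ℕ) → -(2 * B : ℤ) + c ≤ a ∧ a + c ≤ 2 * B := by
    intro a c h
    have := abs_le.1 (show |a| ≤ 2 * B - c by push_cast at h; omega)
    omega
  have bd0 : ∀ {a : ℤ}, |a| ≤ (2 * B : ℕ) → -(2 * B : ℤ) ≤ a ∧ a ≤ 2 * B := by
    intro a h
    have := abs_le.1 h
    push_cast at this
    omega
  have hIn : ∀ (a m : ℤ) (y : Γ × ℤ), -(2 * B : ℤ) ≤ a → a ≤ 2 * B →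
      ((facRD T G side b1 b2 ω rz ζ i0 s0 B P.M).In (gn a, m) y ↔ T.st y.1 = s0 ∧ y.2 = m) := by
    intro a m y h1 h2
    obtain ⟨p1, -, p3⟩ := hg' a h1 h2
    have : T.st (gn a) = s0 ∧ |T.w (gn a) - i0| ≤ 2 * B :=
      ⟨p3, by rw [p1]; exact abs_le.2 ⟨by omega, by omega⟩⟩
    simp only [facRD]
    rw [if_pos this]
  have rec1 : ∀ (g : Γ) (a : ℤ), -(2 * B : ℤ) ≤ a → a ≤ 2 * B → T.st g = s0 →
      T.w g = i0 + a / 2 → T.sl g = decide (a % 2 = 1) → g = gn a := by
    intro g a h1 h2 q1 q2 q3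
    obtain ⟨p1, p2, p3⟩ := hg' a h1 h2
    exact Sp.inj _ _ (by rw [p1, q2]) (by rw [p2, q3]) (by rw [p3, q1])
  have rec2 : ∀ (g : Γ), T.st g = s0 → -(2 * B : ℤ) ≤ 2 * (T.w g - i0) →
      2 * (T.w g - i0) + 1 ≤ 2 * B → ∃ a : ℤ, |a| ≤ (2 * B : ℕ) ∧ g = gn a := by
    intro g q1 h1 h2
    cases q : T.sl g
    · refine ⟨2 * (T.w g - i0), abs_le.2 ⟨by push_cast; omega, by push_cast; omega⟩,
        rec1 g _ h1 (by omega) q1 (by omega) ?_⟩
      rw [q]
      symm
      rw [decide_eq_false_iff_not]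
      omega
    · refine ⟨2 * (T.w g - i0) + 1, abs_le.2 ⟨by push_cast; omega, by push_cast; omega⟩,
        rec1 g _ (by omega) h2 q1 (by omega) ?_⟩
      rw [q]
      symm
      rw [decide_eq_true_iff]
      omega
  have vt : ∀ a : ℤ, vtx true a ↔ a % 2 = 0 := by
    intro a
    simp [vtx, Int.even_iff]
  -- the entries between generators of the base strand in one sheet
  have ent : ∀ (g g' : Γ) (m : ℤ), T.st g = s0 → T.st g' = s0 →
      LEnt (kap T D) (-1) T.d (g, m) (g', m) →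
      T.sl g = true ∧ T.sl g' = false ∧ (T.w g' = T.w g ∨ T.w g' = T.w g + 1) := by
    intro g g' m q1 q2 ⟨e1, e2⟩
    simp only [kap, q1, q2] at e2
    obtain ⟨-, -, ⟨-, p⟩ | p⟩ := Sp.dS _ _ e1
    · simp only at p
      rw [p] at e2
      omega
    · exact p
  have ent' : ∀ (a c m : ℤ), -(2 * B : ℤ) ≤ a → a ≤ 2 * B → -(2 * B : ℤ) ≤ c → c ≤ 2 * B →
      a % 2 = 1 → (c = a + 1 ∨ c = a - 1) → LEnt (kap T D) (-1) T.d (gn a, m) (gn c, m) := by
    intro a c m h1 h2 h3 h4 r hc
    obtain ⟨p1, p2, p3⟩ := hg' a h1 h2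
    obtain ⟨q1, q2, q3⟩ := hg' c h3 h4
    have p2' : T.sl (gn a) = true := by simp [p2, r]
    have q2' : T.sl (gn c) = false := by
      rw [q2, decide_eq_false_iff_not]
      omega
    have hw : |T.w (gn a) - i0| + 1 ≤ 4 * B := by
      have : |T.w (gn a) - i0| ≤ 4 * B - 1 := by rw [p1]; exact abs_le.2 ⟨by omega, by omega⟩
      omega
    refine ⟨?_, by simp [kap, p2', q2', p3, q3]; ring⟩
    rcases hc with hc | hc
    · exact box_aux_right H p2' p3 hw q2' (by simp only; omega) q3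
    · exact box_aux_left H p2' p3 hw q2' (by simp only; omega) q3
  refine ⟨fun a m => (gn a, m), ⟨fun a m ha => (hg a ha).1, ?_, fun a m => rfl, by decide, ?_, ?_,
    ?_, ?_, ?_⟩, fun a m ha => ⟨(hg a ha).2.2, rfl⟩, ?_⟩
  · intro a m a' m' ha ha' e
    obtain ⟨e1, e2⟩ := Prod.ext_iff.1 e
    simp only at e1 e2
    obtain ⟨p1, p2, -⟩ := hg a ha
    obtain ⟨q1, q2, -⟩ := hg a' ha'
    rw [e1, q1] at p1
    rw [e1, q2, decide_eq_decide] at p2
    exact ⟨by omega, e2⟩
  · intro a m ha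
    obtain ⟨-, p2, p3⟩ := hg a ha
    simp only [TC.par, p2, p3, box_aux_cast a]
    by_cases r : a % 2 = 1 <;> cases D.dir s0 <;> simp [r]
    rfl
  · intro a m y ha hi hw
    have hb := bd (c := 2 * P.M + 2) (by rw [← add_assoc]; exact ha)
    obtain ⟨q1, q2⟩ := (hIn a m y (by omega) (by omega)).1 hi
    obtain ⟨p1, -, -⟩ := hg' a (by omega) (by omega)
    simp only [facRD, p1] at hw
    have hw' := abs_le.1 hw
    obtain ⟨a', h1, h2⟩ := rec2 y.1 q1 (by omega) (by omega)
    exact ⟨a', h1, Prod.ext h2 q2⟩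
  · intro a m ha
    have hb := bd ha
    exact ⟨(hIn a m _ (by omega) (by omega)).2 ⟨(hg' (a + 1) (by omega) (by omega)).2.2, rfl⟩,
      (hIn a m _ (by omega) (by omega)).2 ⟨(hg' (a - 1) (by omega) (by omega)).2.2, rfl⟩⟩
  · intro a m ⟨g, m'⟩ ha hi
    have hb := bd ha
    obtain ⟨q1, q2⟩ := (hIn a m _ (by omega) (by omega)).1 hi
    simp only at q1 q2
    subst q2
    obtain ⟨p1, p2, p3⟩ := hg' a (by omega) (by omega)
    rw [vt]
    constructor
    · intro e
      obtain ⟨u1, u2, u3⟩ := ent _ _ _ p3 q1 e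
      rw [p2, decide_eq_true_iff] at u1
      refine ⟨by omega, ?_⟩
      rcases u3 with u3 | u3
      · right
        refine Prod.ext (rec1 g (a - 1) (by omega) (by omega) q1 (by omega) ?_) rfl
        rw [u2]
        symm
        rw [decide_eq_false_iff_not]
        omega
      · left
        refine Prod.ext (rec1 g (a + 1) (by omega) (by omega) q1 (by omega) ?_) rfl
        rw [u2]
        symm
        rw [decide_eq_false_iff_not]
        omega
    · rintro ⟨r, e | e⟩ <;> rw [e]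
      · exact ent' _ _ _ (by omega) (by omega) (by omega) (by omega) (by omega) (Or.inl rfl)
      · exact ent' _ _ _ (by omega) (by omega) (by omega) (by omega) (by omega) (Or.inr rfl)
  · intro a m ⟨g, m'⟩ ha hi
    have hb := bd ha
    obtain ⟨q1, q2⟩ := (hIn a m _ (by omega) (by omega)).1 hi
    simp only at q1 q2
    subst q2
    obtain ⟨p1, p2, p3⟩ := hg' a (by omega) (by omega)
    rw [vt]
    constructor
    · intro e
      obtain ⟨u1, u2, u3⟩ := ent _ _ _ q1 p3 e
      rw [p2, decide_eq_false_iff_not] at u2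
      refine ⟨by omega, ?_⟩
      rcases u3 with u3 | u3
      · left
        refine Prod.ext (rec1 g (a + 1) (by omega) (by omega) q1 (by omega) ?_) rfl
        rw [u1]
        symm
        rw [decide_eq_true_iff]
        omega
      · right
        refine Prod.ext (rec1 g (a - 1) (by omega) (by omega) q1 (by omega) ?_) rfl
        rw [u1]
        symm
        rw [decide_eq_true_iff]
        omega
    · rintro ⟨r, e | e⟩ <;> rw [e]
      · exact ent' _ _ _ (by omega) (by omega) (by omega) (by omega) (by omega)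
          (Or.inr (by omega))
      · exact ent' _ _ _ (by omega) (by omega) (by omega) (by omega) (by omega)
          (Or.inl (by omega))
  · intro y q1 hw
    have hw' := abs_le.1 (show |T.w y.1 - i0| ≤ B - 1 by omega)
    obtain ⟨a', h1, h2⟩ := rec2 y.1 q1 (by omega) (by omega)
    exact ⟨a', h1, Prod.ext h2 rfl⟩

end Pool.Agent.Lib.MP_5a3ebe_gt.PI
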