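import Pool.Agent.Lib.MP_5a3ebe_gt.PiDefs

/-! Polynomials on concyclic points form a clean Lagrangian subspace. -/

set_option linter.unusedSectionVars false
set_option linter.unusedVariables false

namespace Pool.Agent.Lib.MP_5a3ebe_gt.PI

open Ap Classical

section Lin

open Polynomial ComplexConjugate

variable {ι : Type} [Fintype ι] [DecidableEq ι] {n : ℕ} {q : ι → ℂ}

theorem lin_mul_conj (h1 : ∀ i, ‖q i‖ = 1) (i : ι) : q i * conj (q i) = 1 := by
  rw [Complex.mul_conj, Complex.normSq_eq_norm_sq, h1]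
  simp

theorem lin_gen_mem {k : ℕ} (hk : k < n) : (fun i => q i ^ k) ∈ evV n q :=
  Submodule.subset_span ⟨⟨k, hk⟩, rfl⟩

theorem lin_star_mem (h1 : ∀ i, ‖q i‖ = 1) {v : ι → ℂ} (hv : v ∈ evV n q) :
    (fun i => q i ^ (n - 1) * conj (v i)) ∈ evV n q := by
  induction hv using Submodule.span_induction with
  | mem x hx =>
    obtain ⟨k, rfl⟩ := hx
    have hk := k.2
    have he : (fun i => q i ^ (n - 1) * conj (q i ^ (k : ℕ))) = fun i => q i ^ (n - 1 - k) := by
      funext i
      have h2 : n - 1 = (n - 1 - k) + k := by omega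
      rw [map_pow]
      nth_rewrite 1 [h2]
      rw [pow_add, mul_assoc, ← mul_pow, lin_mul_conj h1, one_pow, mul_one]
    rw [he]
    exact lin_gen_mem (by omega)
  | zero =>
    have he : (fun i => q i ^ (n - 1) * conj ((0 : ι → ℂ) i)) = 0 := by
      funext i
      simp
    rw [he]
    exact Submodule.zero_mem _
  | add x y _ _ hx hy =>
    have he : (fun i => q i ^ (n - 1) * conj ((x + y) i)) =
        (fun i => q i ^ (n - 1) * conj (x i)) + fun i => q i ^ (n - 1) * conj (y i) := by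
      funext i
      simp [mul_add]
    rw [he]
    exact Submodule.add_mem _ hx hy
  | smul c x _ hx =>
    have he : (fun i => q i ^ (n - 1) * conj ((c • x) i)) =
        conj c • fun i => q i ^ (n - 1) * conj (x i) := by
      funext i
      simp only [Pi.smul_apply, smul_eq_mul, map_mul]
      ring
    rw [he]
    exact Submodule.smul_mem _ _ hx

theorem lin_poly {v : ι → ℂ} (hv : v ∈ evV n q) :
    ∃ P : ℂ[X], P.natDegree ≤ n - 1 ∧ ∀ i, v i = P.eval (q i) := by
  induction hv using Submodule.span_induction with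
  | mem x hx =>
    obtain ⟨k, rfl⟩ := hx
    have hk := k.2
    exact ⟨X ^ (k : ℕ), by rw [natDegree_X_pow]; omega, fun i => by simp⟩
  | zero => exact ⟨0, by simp, fun i => by simp⟩
  | add x y _ _ hx hy =>
    obtain ⟨P, hP, h1⟩ := hx
    obtain ⟨Q, hQ, h2⟩ := hy
    exact ⟨P + Q, (natDegree_add_le _ _).trans (max_le hP hQ), fun i => by simp [h1, h2]⟩
  | smul c x _ hx =>
    obtain ⟨P, hP, h1⟩ := hx
    exact ⟨C c * P, (natDegree_C_mul_le _ _).trans hP, fun i => by simp [h1]⟩

theorem lin_orth (hn : 1 ≤ n) (hc : Fintype.card ι = 2 * n) (hq : Function.Injective q)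
    {v v' : ι → ℂ} (hv : v ∈ evV n q) (hv' : v' ∈ evV n q) :
    ∑ i, v i * v' i / ∏ m ∈ Finset.univ.erase i, (q i - q m) = 0 := by
  obtain ⟨P, hP, h1⟩ := lin_poly hv
  obtain ⟨Q, hQ, h2⟩ := lin_poly hv'
  have hd : (P * Q).natDegree < 2 * n - 1 := lt_of_le_of_lt natDegree_mul_le (by omega)
  have hd2 : (P * Q).degree < ((Finset.univ : Finset ι).card : ℕ) := by
    refine lt_of_le_of_lt degree_le_natDegree ?_
    rw [Finset.card_univ, hc]
    exact_mod_cast (by omega : (P * Q).natDegree < 2 * n)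
  have h3 := Lagrange.coeff_eq_sum (s := Finset.univ) (v := q) hq.injOn hd2
  rw [Finset.card_univ, hc, coeff_eq_zero_of_natDegree_lt hd] at h3
  rw [h3]
  exact Finset.sum_congr rfl fun i _ => by rw [eval_mul, h1, h2]

theorem lin_const (hn : 1 ≤ n) (hc : Fintype.card ι = 2 * n) (hq : Function.Injective q)
    (h1 : ∀ i, ‖q i‖ = 1) (l : ι) {v : ι → ℂ} (hv : v ∈ evV n q)
    (him : ∀ i, i ≠ l → (v i).im = 0) (i k : ι) : v i = v k := by
  obtain ⟨P, hP, h2⟩ := lin_poly hv
  obtain ⟨Q, hQ, h3⟩ := lin_poly (lin_star_mem h1 hv)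
  have hd : (X ^ (n - 1) * P - Q).natDegree < 2 * n - 1 := by
    refine lt_of_le_of_lt (natDegree_sub_le _ _) (max_lt ?_ (by omega))
    refine lt_of_le_of_lt natDegree_mul_le ?_
    rw [natDegree_X_pow]
    omega
  have h0 : X ^ (n - 1) * P - Q = 0 := by
    refine eq_zero_of_degree_lt_of_eval_index_eq_zero (Finset.univ.erase l) hq.injOn ?_ ?_
    · refine lt_of_le_of_lt degree_le_natDegree ?_
      rw [Finset.card_erase_of_mem (Finset.mem_univ l), Finset.card_univ, hc]
      exact_mod_cast hd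
    · intro i hi
      have h4 := him i (Finset.ne_of_mem_erase hi)
      rw [eval_sub, eval_mul, eval_pow, eval_X, ← h2, ← h3, Complex.conj_eq_iff_im.2 h4, sub_self]
  have hP0 : P.natDegree = 0 := by
    by_cases hz : P = 0
    · rw [hz, natDegree_zero]
    · have h5 : X ^ (n - 1) * P = Q := sub_eq_zero.1 h0
      have h6 := natDegree_X_pow_mul (n - 1) hz
      rw [h5] at h6
      omega
  rw [h2, h2, eq_C_of_natDegree_eq_zero hP0, eval_C, eval_C]

theorem lin_conj_prod (hn : 1 ≤ n) (hc : Fintype.card ι = 2 * n) (h1 : ∀ i, ‖q i‖ = 1) (i : ι) :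
    conj (∏ m ∈ Finset.univ.erase i, (q i - q m)) * (q i ^ (2 * n - 2) * ∏ m, q m) =
      -∏ m ∈ Finset.univ.erase i, (q i - q m) := by
  have hcard : (Finset.univ.erase i).card = 2 * n - 1 := by
    rw [Finset.card_erase_of_mem (Finset.mem_univ i), Finset.card_univ, hc]
  have e1 : q i ^ (2 * n - 2) * ∏ m, q m = ∏ m ∈ Finset.univ.erase i, (q i * q m) := by
    rw [Finset.prod_mul_distrib, Finset.prod_const, hcard,
      ← Finset.mul_prod_erase _ _ (Finset.mem_univ i), ← mul_assoc, ← pow_succ]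
    congr 2
    omega
  have e2 : -∏ m ∈ Finset.univ.erase i, (q i - q m) =
      ∏ m ∈ Finset.univ.erase i, (-1 * (q i - q m)) := by
    rw [Finset.prod_mul_distrib, Finset.prod_const, hcard, Odd.neg_one_pow ⟨n - 1, by omega⟩]
    ring
  rw [e1, e2, map_prod, ← Finset.prod_mul_distrib]
  refine Finset.prod_congr rfl fun m _ => ?_
  have a1 := lin_mul_conj h1 i
  have a2 := lin_mul_conj h1 m
  rw [map_sub]
  linear_combination q m * a1 - q i * a2

theorem lin_weights (hn : 1 ≤ n) (hc : Fintype.card ι = 2 * n) (hq : Function.Injective q)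
    (h1 : ∀ i, ‖q i‖ = 1) : ∃ (ω : ι → ℝ) (κ : ℂ), ‖κ‖ = 1 ∧
      ∀ i, (ω i : ℂ) = κ * q i ^ (n - 1) / ∏ m ∈ Finset.univ.erase i, (q i - q m) := by
  obtain ⟨κ, hκ⟩ := IsAlgClosed.exists_eq_mul_self (-∏ m, q m)
  have hk : ‖κ‖ = 1 := by
    have h2 : ‖κ‖ * ‖κ‖ = 1 := by
      rw [← norm_mul, ← hκ, norm_neg, norm_prod]
      exact Finset.prod_eq_one fun m _ => h1 m
    nlinarith [norm_nonneg κ]
  have hkc : κ * conj κ = 1 := by
    rw [Complex.mul_conj, Complex.normSq_eq_norm_sq, hk]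
    simp
  refine ⟨fun i => (κ * q i ^ (n - 1) / ∏ m ∈ Finset.univ.erase i, (q i - q m)).re, κ, hk,
    fun i => ?_⟩
  refine Complex.conj_eq_iff_re.1 ?_
  have hD : ∏ m ∈ Finset.univ.erase i, (q i - q m) ≠ 0 :=
    Finset.prod_ne_zero_iff.2 fun m hm =>
      sub_ne_zero.2 fun h => Finset.ne_of_mem_erase hm (hq h).symm
  have hD' : conj (∏ m ∈ Finset.univ.erase i, (q i - q m)) ≠ 0 :=
    (_root_.map_ne_zero _).2 hD
  have h3 := lin_conj_prod hn hc h1 i
  have h4 : q i ^ (n - 1) * conj (q i ^ (n - 1)) = 1 := by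
    rw [map_pow, ← mul_pow, lin_mul_conj h1, one_pow]
  have h5 : q i ^ (2 * n - 2) = q i ^ (n - 1) * q i ^ (n - 1) := by
    rw [← pow_add]
    congr 1
    omega
  rw [map_div₀, map_mul, div_eq_div_iff hD' hD]
  rw [h5] at h3
  have h6 : ∏ m, q m = -(κ * κ) := by rw [← hκ, neg_neg]
  rw [h6] at h3
  set D := ∏ m ∈ Finset.univ.erase i, (q i - q m)
  set u := q i ^ (n - 1)
  have h7 : D = conj D * (u * u * (κ * κ)) := by linear_combination h3
  calc conj κ * conj u * D = conj κ * conj u * (conj D * (u * u * (κ * κ))) := by rw [← h7]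
    _ = (κ * conj κ) * (u * conj u) * (κ * u * conj D) := by ring
    _ = κ * u * conj D := by rw [hkc, h4]; ring

theorem lin_ev_mem (c : Fin n → ℂ) : (fun i => ∑ k, c k * q i ^ (k : ℕ)) ∈ evV n q :=
  (Submodule.mem_span_range_iff_exists_fun ℂ).2 ⟨c, by
    funext i
    simp [Finset.sum_apply]⟩

theorem lin_exists_ev {v : ι → ℂ} (hv : v ∈ evV n q) :
    ∃ c : Fin n → ℂ, v = fun i => ∑ k, c k * q i ^ (k : ℕ) := by
  obtain ⟨c, hc⟩ := (Submodule.mem_span_range_iff_exists_fun ℂ).1 hv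
  refine ⟨c, ?_⟩
  rw [← hc]
  funext i
  simp [Finset.sum_apply]

theorem lin_ev_inj (hc : Fintype.card ι = 2 * n) (hq : Function.Injective q) (c : Fin n → ℂ)
    (h : ∀ i, ∑ k, c k * q i ^ (k : ℕ) = 0) : c = 0 := by
  have h0 : (∑ k : Fin n, C (c k) * X ^ (k : ℕ) : ℂ[X]) = 0 := by
    refine eq_zero_of_degree_lt_of_eval_index_eq_zero Finset.univ hq.injOn ?_ ?_
    · refine lt_of_lt_of_le (degree_sum_fin_lt c) ?_
      rw [Finset.card_univ, hc]
      exact_mod_cast (by omega : n ≤ 2 * n)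
    · intro i _
      rw [eval_finsetSum, ← h i]
      exact Finset.sum_congr rfl fun k _ => by simp
  funext k
  have h1 := congrArg (fun P : ℂ[X] => P.coeff k) h0
  simp only [finsetSum_coeff, coeff_C_mul_X_pow, coeff_zero] at h1
  rw [Finset.sum_eq_single k] at h1
  · simpa using h1
  · intro b _ hb
    exact if_neg fun h' => hb (Fin.ext h'.symm)
  · intro h'
    exact absurd (Finset.mem_univ k) h'

theorem lin_fr_norm (l k : ι) : conj (fr l k) * fr l k = 1 := by
  unfold fr
  split_ifs <;> simp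

/-- A real linear functional of the values, in the turned frame. -/
noncomputable def linMap (n : ℕ) (q : ι → ℂ) (l : ι) (f : ℂ →ₗ[ℝ] ℝ) (ω : ι → ℝ) :
    (Fin n → ℂ) →ₗ[ℝ] (ι → ℝ) where
  toFun c := fun i => ω i * f (fr l i * ∑ k, c k * q i ^ (k : ℕ))
  map_add' c c' := by
    funext i
    simp only [Pi.add_apply, add_mul, Finset.sum_add_distrib, mul_add, map_add]
  map_smul' r c := by
    funext i
    have h : fr l i * ∑ k, (r • c) k * q i ^ (k : ℕ) =
        r • (fr l i * ∑ k, c k * q i ^ (k : ℕ)) := by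
      simp only [Pi.smul_apply, Complex.real_smul, Finset.mul_sum]
      exact Finset.sum_congr rfl fun k _ => by ring
    rw [h, map_smul, RingHom.id_apply, Pi.smul_apply, smul_eq_mul, smul_eq_mul]
    ring

theorem lin_frame (hn : 1 ≤ n) (hc : Fintype.card ι = 2 * n) (hq : Function.Injective q)
    (h1 : ∀ i, ‖q i‖ = 1) {ω : ι → ℝ} (hω : ∀ i, ω i ≠ 0)
    (hs : ∀ v ∈ evV n q, ∀ v' ∈ evV n q, ∑ i, (ω i : ℂ) * (conj (v i) * v' i) = 0) (l : ι) :
    ∃ Sm : Matrix ι ι ℝ, Sm.IsSymm ∧ ∀ z, z ∈ evV n q ↔ ∀ i, mis Sm ω l z i = 0 := by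
  set Ψ := linMap n q l Complex.reLm (fun _ => 1) with hΨ
  have hΨa : ∀ c i, Ψ c i = (fr l i * ∑ k, c k * q i ^ (k : ℕ)).re := fun c i => by
    simp only [hΨ, linMap, LinearMap.coe_mk, AddHom.coe_mk, one_mul, Complex.reLm_coe]
  set T := linMap n q l Complex.imLm ω with hT
  have hTa : ∀ c i, T c i = ω i * (fr l i * ∑ k, c k * q i ^ (k : ℕ)).im := fun c i => by
    simp only [hT, linMap, LinearMap.coe_mk, AddHom.coe_mk, Complex.imLm_coe]
  have hinj : Function.Injective Ψ := by
    refine (injective_iff_map_eq_zero Ψ).2 fun c h0 => lin_ev_inj hc hq c ?_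
    have hre : ∀ i, i ≠ l → (∑ k, c k * q i ^ (k : ℕ)).re = 0 := fun i hi => by
      have h2 := hΨa c i
      rw [h0, fr, if_neg hi, one_mul] at h2
      exact h2.symm
    have him : (∑ k, c k * q l ^ (k : ℕ)).im = 0 := by
      have h2 := hΨa c l
      rw [h0, fr, if_pos rfl] at h2
      set w := ∑ k, c k * q l ^ (k : ℕ)
      simpa using h2.symm
    have hcst := lin_const hn hc hq h1 l (Submodule.smul_mem _ Complex.I (lin_ev_mem (q := q) c))
      (fun i hi => by
        have h2 := hre i hi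
        simp only [Pi.smul_apply, smul_eq_mul]
        set w := ∑ k, c k * q i ^ (k : ℕ)
        simpa using h2)
    have hcst' : ∀ i k' : ι, ∑ k, c k * q i ^ (k : ℕ) = ∑ k, c k * q k' ^ (k : ℕ) := fun i k' =>
      mul_left_cancel₀ Complex.I_ne_zero (hcst i k')
    obtain ⟨i0, hi0⟩ := Fintype.exists_ne_of_one_lt_card (by omega : 1 < Fintype.card ι) l
    intro i
    refine Complex.ext ?_ ?_
    · rw [hcst' i i0]
      exact hre i0 hi0
    · rw [hcst' i l]
      exact him
  have hsurj : Function.Surjective Ψ := by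
    refine (LinearMap.injective_iff_surjective_of_finrank_eq_finrank ?_).1 hinj
    rw [Module.finrank_pi_fintype, Module.finrank_fintype_fun_eq_card, hc]
    simp [mul_comm]
  set e := LinearEquiv.ofBijective Ψ ⟨hinj, hsurj⟩ with he
  have hsym : ∀ c c', ∑ i, Ψ c i * T c' i = ∑ i, Ψ c' i * T c i := by
    intro c c'
    have h2 := congrArg Complex.im (hs _ (lin_ev_mem c) _ (lin_ev_mem c'))
    rw [Complex.im_sum, Complex.zero_im] at h2
    rw [← sub_eq_zero, ← Finset.sum_sub_distrib, ← h2]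
    refine Finset.sum_congr rfl fun i _ => ?_
    rw [hΨa, hΨa, hTa, hTa]
    set u := ∑ k, c k * q i ^ (k : ℕ)
    set u' := ∑ k, c' k * q i ^ (k : ℕ)
    have h3 : conj u * u' = conj (fr l i * u) * (fr l i * u') := by
      rw [map_mul]
      linear_combination (-(conj u * u')) * lin_fr_norm l i
    rw [h3]
    set a := fr l i * u
    set a' := fr l i * u'
    simp only [Complex.mul_im, Complex.ofReal_re, Complex.ofReal_im, Complex.conj_re,
      Complex.conj_im, Complex.mul_re]
    ring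
  have hΨe : ∀ x, Ψ (e.symm x) = x := fun x => e.apply_symm_apply x
  refine ⟨LinearMap.toMatrix' (T ∘ₗ e.symm.toLinearMap), ?_, fun z => ?_⟩
  · refine Matrix.IsSymm.ext fun i k => ?_
    have h2 := hsym (e.symm (Pi.single i 1)) (e.symm (Pi.single k 1))
    rw [hΨe, hΨe] at h2
    simp only [Pi.single_apply, ite_mul, one_mul, zero_mul, Finset.sum_ite_eq',
      Finset.mem_univ, if_true] at h2
    rw [LinearMap.toMatrix'_apply, LinearMap.toMatrix'_apply]
    exact h2.symm
  · have hm : ∀ x, (LinearMap.toMatrix' (T ∘ₗ e.symm.toLinearMap)).mulVec x = T (e.symm x) :=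
      fun x => by rw [LinearMap.toMatrix'_mulVec]; rfl
    constructor
    · intro hz i
      obtain ⟨c, rfl⟩ := lin_exists_ev hz
      have h2 : (fun k => (fr l k * ∑ k', c k' * q k ^ (k' : ℕ)).re) = e c := by
        funext k
        exact (hΨa c k).symm
      unfold mis
      rw [hm, h2, e.symm_apply_apply, hTa, sub_self]
    · intro hz
      set c := e.symm fun k => (fr l k * z k).re with hcd
      have h2 : z = fun i => ∑ k, c k * q i ^ (k : ℕ) := by
        funext i
        have h3 := hz i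
        unfold mis at h3
        rw [hm, ← hcd, hTa, ← mul_sub, mul_eq_zero, sub_eq_zero] at h3
        have h4 := congrFun (hΨe fun k => (fr l k * z k).re) i
        rw [← hcd, hΨa] at h4
        have h5 : fr l i * z i = fr l i * ∑ k, c k * q i ^ (k : ℕ) :=
          Complex.ext h4.symm (h3.resolve_left (hω i)).symm
        refine mul_left_cancel₀ (fun h0 => ?_) h5
        have h6 := lin_fr_norm l i
        rw [h0, mul_zero] at h6
        exact zero_ne_one h6
      rw [h2]
      exact lin_ev_mem c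

end Lin

theorem exists_vd {ι : Type} [Fintype ι] [DecidableEq ι] (n : ℕ) (hn : 1 ≤ n)
    (hc : Fintype.card ι = 2 * n) (q : ι → ℂ) (hq : Function.Injective q) (h1 : ∀ i, ‖q i‖ = 1) :
    ∃ ω : ι → ℝ, VD (evV n q) ω ∧
      ∀ i, |ω i| * ∏ m ∈ Finset.univ.erase i, ‖q i - q m‖ = 1 := by
  obtain ⟨ω, κ, hκ, hω⟩ := lin_weights hn hc hq h1
  have habs : ∀ i, |ω i| * ∏ m ∈ Finset.univ.erase i, ‖q i - q m‖ = 1 := by
    intro i
    have hD : ∏ m ∈ Finset.univ.erase i, ‖q i - q m‖ ≠ 0 :=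
      Finset.prod_ne_zero_iff.2 fun m hm => norm_ne_zero_iff.2
        (sub_ne_zero.2 fun h => Finset.ne_of_mem_erase hm (hq h).symm)
    have h2 := congrArg norm (hω i)
    rw [Complex.norm_real, Real.norm_eq_abs, norm_div, norm_mul, norm_pow, hκ, h1, one_pow,
      one_mul, norm_prod] at h2
    rw [h2]
    exact one_div_mul_cancel hD
  have hne : ∀ i, ω i ≠ 0 := fun i h0 => by
    have h2 := habs i
    rw [h0, abs_zero, zero_mul] at h2
    exact zero_ne_one h2
  have hs : ∀ v ∈ evV n q, ∀ v' ∈ evV n q,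
      ∑ i, (ω i : ℂ) * ((starRingEnd ℂ) (v i) * v' i) = 0 := by
    intro v hv v' hv'
    have h2 := lin_orth hn hc hq (lin_star_mem h1 hv) hv'
    have h3 := congrArg (fun x => κ * x) h2
    simp only [mul_zero, Finset.mul_sum] at h3
    rw [← h3]
    refine Finset.sum_congr rfl fun i _ => ?_
    rw [hω]
    ring
  have hone : (fun _ => 1) ∈ evV n q := by
    simpa using lin_gen_mem (q := q) (k := 0) (n := n) hn
  refine ⟨ω, ⟨hne, hone, fun v hv => ?_, fun v hv him i k => ?_, lin_frame hn hc hq h1 hne hs⟩,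
    habs⟩
  · simpa using hs _ hone v hv
  · exact lin_const hn hc hq h1 i hv (fun i _ => him i) i k

end Pool.Agent.Lib.MP_5a3ebe_gt.PI
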