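import Pool.Agent.Lib.MP_5a3ebe_gt.PiDefs

/-! Configurations away from the subspace. -/

set_option linter.unusedSectionVars false
set_option linter.unusedVariables false

namespace Pool.Agent.Lib.MP_5a3ebe_gt.PI

open Ap Classical

variable {ι : Type} [Fintype ι] [DecidableEq ι] {V : Submodule ℂ (ι → ℂ)} {ω : ι → ℝ}

/-- Quantitative form of cleanness. -/
theorem VD.osc (H : VD V ω) : ∃ C : ℝ, 0 < C ∧ ∀ v ∈ V, ∀ s : ℝ,
    (∀ i k, |(v i - v k).im| ≤ s) → ∀ i k, ‖v i - v k‖ ≤ C * s := by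
  rcases isEmpty_or_nonempty ι with hι | ⟨⟨k0⟩⟩
  · exact ⟨1, one_pos, fun v _ s _ i => (hι.false i).elim⟩
  let W : Submodule ℝ (ι → ℂ) :=
    V.restrictScalars ℝ ⊓ LinearMap.ker (LinearMap.proj (R := ℝ) (φ := fun _ : ι => ℂ) k0)
  let Φ : W →ₗ[ℝ] (ι → ℝ) :=
    (LinearMap.pi fun i => Complex.imLm ∘ₗ LinearMap.proj (R := ℝ) (φ := fun _ : ι => ℂ) i) ∘ₗ
      W.subtype
  have hΦ : ∀ (w : W) (i : ι), Φ w i = (w.1 i).im := fun w i => rfl
  have hker : LinearMap.ker Φ = ⊥ := by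
    rw [LinearMap.ker_eq_bot']
    intro w hw
    have h1 : w.1 ∈ V := w.2.1
    have h2 : w.1 k0 = 0 := w.2.2
    have h3 := H.clean w.1 h1 fun i => by rw [← hΦ, hw]; rfl
    apply Subtype.ext
    funext i
    rw [h3 i k0, h2]
    rfl
  obtain ⟨K, hK0, hK⟩ := LinearMap.exists_antilipschitzWith Φ hker
  have hK0' : (0 : ℝ) < K := hK0
  refine ⟨2 * K, by positivity, fun v hv s hs i k => ?_⟩
  have hs0 : 0 ≤ s := (abs_nonneg _).trans (hs k0 k0)
  have hw : (fun i => v i - v k0) ∈ W := by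
    refine ⟨?_, ?_⟩
    · have h1 : v - v k0 • (fun _ : ι => (1 : ℂ)) ∈ V := V.sub_mem hv (V.smul_mem _ H.one)
      have h2 : (fun i => v i - v k0) = v - v k0 • (fun _ : ι => (1 : ℂ)) := by
        funext i
        simp
      rw [h2]
      exact h1
    · change v k0 - v k0 = 0
      exact sub_self _
  have h1 : ‖(⟨_, hw⟩ : W)‖ ≤ K * ‖Φ ⟨_, hw⟩‖ := ZeroHomClass.bound_of_antilipschitz Φ hK _
  have h2 : ‖Φ ⟨_, hw⟩‖ ≤ s := by
    rw [pi_norm_le_iff_of_nonneg hs0]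
    intro m
    rw [hΦ, Real.norm_eq_abs]
    exact hs m k0
  have h3 : ∀ m, ‖v m - v k0‖ ≤ K * s := by
    intro m
    have h4 : ‖v m - v k0‖ ≤ ‖(fun i => v i - v k0)‖ := norm_le_pi_norm (fun i => v i - v k0) m
    have h5 : ‖(fun i => v i - v k0)‖ = ‖(⟨_, hw⟩ : W)‖ := rfl
    have h6 := mul_le_mul_of_nonneg_left h2 hK0'.le
    linarith
  calc ‖v i - v k‖ = ‖(v i - v k0) - (v k - v k0)‖ := by congr 1; ring
    _ ≤ ‖v i - v k0‖ + ‖v k - v k0‖ := norm_sub_le _ _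
    _ ≤ 2 * K * s := by linarith [h3 i, h3 k]

theorem nc_loc (H : VD V ω) {j i1 : ι} (hij : i1 ≠ j) : ∃ ϑ : ℝ, 0 < ϑ ∧
    ∀ (P : Set ℂ) (ρ : ℝ), 0 < ρ → Flat P ρ ϑ → ∀ v ∈ V, (∀ i, i ≠ j → v i ∈ P) →
      (∀ i, ‖v i - v i1‖ ≤ ρ / 2) → ∀ i, v i = v i1 := by
  obtain ⟨C, hC, hosc⟩ := H.osc
  have hω : 0 < |ω j| := abs_pos.mpr (H.ne j)
  set β : ℝ := (∑ i, |ω i|) / |ω j| with hβ
  have hβ0 : 0 ≤ β := div_nonneg (Finset.sum_nonneg fun i _ => abs_nonneg _) hω.le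
  have hM : 0 < C + 2 * C * β + 2 * β := by positivity
  refine ⟨1 / (2 * (C + 2 * C * β + 2 * β)), by positivity, ?_⟩
  set ϑ : ℝ := 1 / (2 * (C + 2 * C * β + 2 * β)) with hϑ
  have hϑ0 : 0 < ϑ := by positivity
  have hϑ1 : ϑ * (C + 2 * C * β + 2 * β) = 1 / 2 := by
    rw [hϑ]
    field_simp
  intro P ρ hρ hF v hv hP hnear
  obtain ⟨τ, hτ, hcone, hgraph⟩ := hF (v i1) (hP i1 hij)
  set σ : ℂ := (starRingEnd ℂ) τ with hσ
  have hσ1 : ‖σ‖ = 1 := by rw [hσ, Complex.norm_conj, hτ]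
  obtain ⟨q, hqP, hqn, hqre⟩ := hgraph ((v j - v i1) * σ).re (by
    refine (Complex.abs_re_le_norm _).trans ?_
    rw [norm_mul, hσ1, mul_one]
    exact hnear j)
  set a : ι → ℂ := Function.update v j q with ha
  have haP : ∀ i, a i ∈ P := by
    intro i
    by_cases hi : i = j
    · subst hi
      rw [ha, Function.update_self]
      exact hqP
    · rw [ha, Function.update_of_ne hi]
      exact hP i hi
  have han : ∀ i, ‖a i - v i1‖ ≤ ρ := by
    intro i
    by_cases hi : i = j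
    · subst hi
      rw [ha, Function.update_self]
      exact hqn
    · rw [ha, Function.update_of_ne hi]
      linarith [hnear i]
  obtain ⟨x, -, hx⟩ := Finset.exists_max_image (Finset.univ : Finset (ι × ι))
    (fun x => ‖a x.1 - a x.2‖) ⟨(j, j), Finset.mem_univ _⟩
  set D : ℝ := ‖a x.1 - a x.2‖ with hD
  have hD0 : 0 ≤ D := norm_nonneg _
  have hcD : ∀ i k, |((a i - a k) * σ).im| ≤ ϑ * D := fun i k =>
    (hcone _ (haP i) _ (haP k) (han i) (han k)).trans
      (mul_le_mul_of_nonneg_left (hx (i, k) (Finset.mem_univ _)) hϑ0.le)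
  set d : ℝ := |((v j - q) * σ).im| with hd
  have hd0 : 0 ≤ d := abs_nonneg _
  have hre : ((v j - q) * σ).re = 0 := by
    have h1 : (v j - q) * σ = (v j - v i1) * σ - (q - v i1) * σ := by ring
    rw [h1, Complex.sub_re, hqre, sub_self]
  have hnd : ‖v j - q‖ = d := by
    have h1 : ‖v j - q‖ = ‖(v j - q) * σ‖ := by rw [norm_mul, hσ1, mul_one]
    rw [h1, hd, Complex.abs_im_eq_norm.mpr hre]
  have he : ∀ i, ‖v i - a i‖ ≤ d := by
    intro i
    by_cases hi : i = j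
    · subst hi
      rw [ha, Function.update_self, hnd]
    · rw [ha, Function.update_of_ne hi, sub_self, norm_zero]
      exact hd0
  have hei : ∀ i, |((v i - a i) * σ).im| ≤ d := by
    intro i
    refine (Complex.abs_im_le_norm _).trans ?_
    rw [norm_mul, hσ1, mul_one]
    exact he i
  have hs0 : ∑ i, (ω i : ℂ) = 0 := by simpa using H.sum _ H.one
  have hs1 := H.sum v hv
  have hs2 : ∑ i, (ω i : ℂ) * ((a i - a j) * σ) = -((ω j : ℂ) * ((v j - q) * σ)) := by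
    have h1 : ∀ i, (ω i : ℂ) * ((a i - a j) * σ) =
        (ω i : ℂ) * v i * σ - (ω i : ℂ) * (q * σ) -
          if i = j then (ω j : ℂ) * ((v j - q) * σ) else 0 := by
      intro i
      by_cases hi : i = j
      · subst hi
        rw [if_pos rfl]
        ring
      · rw [if_neg hi, ha, Function.update_of_ne hi, Function.update_self]
        ring
    simp only [h1]
    rw [Finset.sum_sub_distrib, Finset.sum_sub_distrib, ← Finset.sum_mul, ← Finset.sum_mul, hs0,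
      hs1, Finset.sum_ite_eq' Finset.univ j, if_pos (Finset.mem_univ _)]
    ring
  have hs3 : |ω j| * d ≤ (∑ i, |ω i|) * (ϑ * D) := by
    have h1 := congrArg Complex.im hs2
    rw [Complex.im_sum, Complex.neg_im, Complex.im_ofReal_mul] at h1
    simp only [Complex.im_ofReal_mul] at h1
    rw [hd, ← abs_mul, ← abs_neg, ← h1, Finset.sum_mul]
    refine (Finset.abs_sum_le_sum_abs _ _).trans (Finset.sum_le_sum fun i _ => ?_)
    rw [abs_mul]
    exact mul_le_mul_of_nonneg_left (hcD i j) (abs_nonneg _)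
  have hs4 : d ≤ β * (ϑ * D) := by
    rw [hβ, div_mul_eq_mul_div, le_div_iff₀ hω]
    linarith
  have hw : ∀ i k, ‖v i - v k‖ ≤ C * (ϑ * D + 2 * d) := by
    intro i k
    have h1 := hosc (σ • v) (V.smul_mem σ hv) (ϑ * D + 2 * d) (fun i k => by
      have h2 : (σ • v) i - (σ • v) k =
          (a i - a k) * σ + (v i - a i) * σ - (v k - a k) * σ := by
        simp only [Pi.smul_apply, smul_eq_mul]
        ring
      rw [h2, Complex.sub_im, Complex.add_im]
      have h3 := abs_le.mp (hcD i k)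
      have h4 := abs_le.mp (hei i)
      have h5 := abs_le.mp (hei k)
      rw [abs_le]
      constructor <;> linarith [h3.1, h3.2, h4.1, h4.2, h5.1, h5.2]) i k
    have h2 : (σ • v) i - (σ • v) k = (v i - v k) * σ := by
      simp only [Pi.smul_apply, smul_eq_mul]
      ring
    rwa [h2, norm_mul, hσ1, mul_one] at h1
  have hDle : D ≤ C * (ϑ * D + 2 * d) + 2 * d := by
    have h1 : a x.1 - a x.2 = (v x.1 - v x.2) - (v x.1 - a x.1) + (v x.2 - a x.2) := by ring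
    have h2 : D ≤ ‖v x.1 - v x.2‖ + ‖v x.1 - a x.1‖ + ‖v x.2 - a x.2‖ := by
      rw [hD, h1]
      exact (norm_add_le _ _).trans (add_le_add (norm_sub_le _ _) le_rfl)
    linarith [hw x.1 x.2, he x.1, he x.2]
  have hDz : D = 0 := by
    have h1 : C * (2 * d) ≤ C * (2 * (β * (ϑ * D))) :=
      mul_le_mul_of_nonneg_left (by linarith) hC.le
    have h2 : ϑ * (C + 2 * C * β + 2 * β) * D = 1 / 2 * D := by rw [hϑ1]
    nlinarith
  have hdz : d = 0 := by
    rw [hDz] at hs4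
    linarith
  intro i
  have h1 := hw i i1
  rw [hDz, hdz] at h1
  have h2 : ‖v i - v i1‖ ≤ 0 := by linarith
  exact sub_eq_zero.mp (norm_le_zero_iff.mp h2)

lemma nc_cont (Sm : Matrix ι ι ℝ) (ω : ι → ℝ) (l : ι) :
    Continuous fun z : ι → ℂ => fun i => mis Sm ω l z i := by
  refine continuous_pi fun i => ?_
  unfold mis Matrix.mulVec dotProduct
  fun_prop

lemma nc_add (Sm : Matrix ι ι ℝ) (ω : ι → ℝ) (l : ι) (z z' : ι → ℂ) (i : ι) :
    mis Sm ω l (z + z') i = mis Sm ω l z i + mis Sm ω l z' i := by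
  unfold mis Matrix.mulVec dotProduct
  simp only [Pi.add_apply, mul_add, Complex.add_re, Complex.add_im, Finset.sum_add_distrib]
  ring

lemma nc_cpt {Sm : Matrix ι ι ℝ} {l : ι} (hV : ∀ z, z ∈ V ↔ ∀ i, mis Sm ω l z i = 0)
    {K : Set (ι → ℂ)} (hK : IsCompact K) (h : ∀ z ∈ K, z ∉ V) :
    ∃ γ : ℝ, 0 < γ ∧ ∀ z ∈ K, ∃ i, γ ≤ |mis Sm ω l z i| := by
  obtain ⟨γ, hγ, hb⟩ := hK.exists_forall_le' (a := (0 : ℝ))
    (f := fun z : ι → ℂ => ‖fun i => mis Sm ω l z i‖) (nc_cont Sm ω l).norm.continuousOn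
    (fun z hz => by
      rw [norm_pos_iff]
      intro h0
      exact h z hz ((hV z).mpr fun i => congrFun h0 i))
  refine ⟨γ, hγ, fun z hz => ?_⟩
  by_contra hn
  push Not at hn
  have h1 : ‖fun i => mis Sm ω l z i‖ < γ := (pi_norm_lt_iff hγ).mpr fun i => hn i
  exact absurd (hb z hz) (not_le.mpr h1)

theorem nc_far {Sm : Matrix ι ι ℝ} {l : ι} (hV : ∀ z, z ∈ V ↔ ∀ i, mis Sm ω l z i = 0)
    {P : Set ℂ} (hP : IsCompact P) (hno : ∀ v ∈ V, (∀ i, v i ∈ P) → ∀ i k, v i = v k) (j : ι)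
    {ε : ℝ} (hε : 0 < ε) : ∃ γ : ℝ, 0 < γ ∧ ∀ z : ι → ℂ, (∀ i, z i ∈ P) →
      (∃ i, ε ≤ ‖z i - z j‖) → ∃ i, γ ≤ |mis Sm ω l z i| := by
  have hc : IsCompact ((Set.univ.pi fun _ : ι => P) ∩ ⋃ i, {z : ι → ℂ | ε ≤ ‖z i - z j‖}) :=
    (isCompact_univ_pi fun _ => hP).inter_right (isClosed_iUnion_of_finite fun i =>
      isClosed_le continuous_const (by fun_prop))
  obtain ⟨γ, hγ, h⟩ := nc_cpt hV hc (fun z hz hzV => by
    obtain ⟨i, hi⟩ := Set.mem_iUnion.mp hz.2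
    have h1 := hno z hzV (fun i => hz.1 i (Set.mem_univ _)) i j
    have h2 : ε ≤ ‖z i - z j‖ := hi
    rw [h1, sub_self, norm_zero] at h2
    linarith)
  refine ⟨γ, hγ, fun z hz hi => h z ⟨fun i _ => hz i, ?_⟩⟩
  obtain ⟨i, hi⟩ := hi
  exact Set.mem_iUnion.mpr ⟨i, hi⟩

theorem nc_disp {Sm : Matrix ι ι ℝ} {l : ι} (hV : ∀ z, z ∈ V ↔ ∀ i, mis Sm ω l z i = 0)
    {P : Set ℂ} (hP : IsCompact P) (hno : ∀ v ∈ V, (∀ i, v i ∈ P) → ∀ i k, v i = v k)
    {j i1 : ι} (hij : i1 ≠ j) {ρ : ℝ} (hρ : 0 < ρ)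
    (hloc : ∀ v ∈ V, (∀ i, i ≠ j → v i ∈ P) → (∀ i, ‖v i - v i1‖ ≤ ρ / 2) → ∀ i, v i = v i1) :
    ∃ η : ℝ, 0 < η ∧ ∀ K : Set ℂ, IsCompact K → (∀ a ∈ K, a ∉ P ∧ ∃ p ∈ P, ‖a - p‖ ≤ η) →
      ∃ γ : ℝ, 0 < γ ∧ ∀ z : ι → ℂ, (∀ i, i ≠ j → z i ∈ P) → z j ∈ K →
        ∃ i, γ ≤ |mis Sm ω l z i| := by
  obtain ⟨γ0, hγ0, hfar⟩ := nc_far hV hP hno i1 (ε := ρ / 8) (by positivity)
  obtain ⟨η1, hη1, hsm⟩ := Metric.continuousAt_iff.mp
    ((nc_cont Sm ω l).continuousAt (x := 0)) γ0 hγ0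
  refine ⟨min (η1 / 2) (ρ / 8), by positivity, fun K hK hKP => ?_⟩
  have hc : IsCompact (Set.univ.pi fun i : ι => if i = j then K else P) :=
    isCompact_univ_pi fun i => by split_ifs <;> assumption
  obtain ⟨γ, hγ, h⟩ := nc_cpt hV hc (fun z hz hzV => by
    have hzj : z j ∈ K := by simpa using hz j (Set.mem_univ _)
    have hzP : ∀ i, i ≠ j → z i ∈ P := fun i hi => by simpa [hi] using hz i (Set.mem_univ _)
    obtain ⟨hnP, p, hp, hpn⟩ := hKP _ hzj
    have hpn1 : ‖z j - p‖ ≤ η1 / 2 := hpn.trans (min_le_left _ _)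
    have hpn2 : ‖z j - p‖ ≤ ρ / 8 := hpn.trans (min_le_right _ _)
    set z' : ι → ℂ := Function.update z j p with hz'
    have hz'P : ∀ i, z' i ∈ P := by
      intro i
      by_cases hi : i = j
      · subst hi
        rw [hz', Function.update_self]
        exact hp
      · rw [hz', Function.update_of_ne hi]
        exact hzP i hi
    have hdi : ∀ i, ‖z i - z' i‖ ≤ ‖z j - p‖ := by
      intro i
      by_cases hi : i = j
      · subst hi
        rw [hz', Function.update_self]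
      · rw [hz', Function.update_of_ne hi, sub_self, norm_zero]
        exact norm_nonneg _
    have hdn : dist (z' - z) 0 < η1 := by
      rw [dist_zero_right]
      refine lt_of_le_of_lt ((pi_norm_le_iff_of_nonneg (norm_nonneg (z j - p))).mpr fun i => ?_)
        (by linarith)
      rw [Pi.sub_apply, norm_sub_rev]
      exact hdi i
    have hsmall : ∀ i, |mis Sm ω l z' i| < γ0 := by
      intro i
      have h1 := (dist_le_pi_dist _ _ i).trans_lt (hsm hdn)
      have h2 : mis Sm ω l 0 i = 0 := (hV 0).mp V.zero_mem i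
      have h3 : mis Sm ω l z' i = mis Sm ω l (z' - z) i := by
        have h4 := nc_add Sm ω l z (z' - z) i
        rw [add_sub_cancel, (hV z).mp hzV i, zero_add] at h4
        exact h4
      rw [h3]
      simpa [h2, Real.dist_eq] using h1
    have hclose : ∀ i, ‖z' i - z' i1‖ < ρ / 8 := by
      intro i
      by_contra hi
      obtain ⟨k, hk⟩ := hfar z' hz'P ⟨i, not_lt.mp hi⟩
      exact absurd (hsmall k) (not_lt.mpr hk)
    have hall := hloc z hzV hzP fun i => by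
      have h1 : z i - z i1 = (z i - z' i) + (z' i - z' i1) := by
        rw [hz', Function.update_of_ne hij]
        ring
      rw [h1]
      refine (norm_add_le _ _).trans ?_
      linarith [hdi i, hclose i]
    exact hnP (hall j ▸ hzP i1 hij))
  refine ⟨γ, hγ, fun z hz hzj => h z fun i _ => ?_⟩
  by_cases hi : i = j
  · subst hi
    simpa using hzj
  · simpa [hi] using hz i hi

lemma VD.neg (H : VD V ω) : VD V fun i => -ω i := by
  refine ⟨fun i => neg_ne_zero.mpr (H.ne i), H.one, fun v hv => ?_, H.clean, fun l => ?_⟩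
  · have h := H.sum v hv
    simp only [Complex.ofReal_neg, neg_mul, Finset.sum_neg_distrib, h, neg_zero]
  · obtain ⟨Sm, hS, hV⟩ := H.frame l
    refine ⟨-Sm, hS.neg, fun z => ?_⟩
    rw [hV z]
    refine forall_congr' fun i => ?_
    have h : mis (-Sm) (fun i => -ω i) l z i = -mis Sm ω l z i := by
      unfold mis
      rw [Matrix.neg_mulVec, Pi.neg_apply]
      ring
    rw [h, neg_eq_zero]

end Pool.Agent.Lib.MP_5a3ebe_gt.PI
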