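import Pool.Agent.Lib.MP_5a3ebe_gt.PiFlat
import Pool.Agent.Lib.MP_5a3ebe_gt.PiNC
import Pool.Agent.Lib.MP_5a3ebe_gt.PiLin

/-! Removing the condition on the weights. -/

set_option linter.unusedSectionVars false
set_option linter.unusedVariables false

namespace Pool.Agent.Lib.MP_5a3ebe_gt.PI

open Ap Classical

/-- The value of the polynomial with coefficient vector `c`. -/
noncomputable def circ_ev {n : ℕ} (c : Fin n → ℂ) (z : ℂ) : ℂ := ∑ j, c j * z ^ (j : ℕ)

lemma circ_mem {ι : Type} {n : ℕ} (q : ι → ℂ) (v : ι → ℂ) :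
    v ∈ evV n q ↔ ∃ c : Fin n → ℂ, ∀ i, v i = circ_ev c (q i) := by
  unfold evV
  rw [Submodule.mem_span_range_iff_exists_fun]
  constructor
  · rintro ⟨c, hc⟩
    refine ⟨c, fun i => ?_⟩
    rw [← hc]
    simp [circ_ev, Finset.sum_apply]
  · rintro ⟨c, hc⟩
    refine ⟨c, ?_⟩
    funext i
    rw [hc]
    simp [circ_ev, Finset.sum_apply]

lemma circ_cont {n : ℕ} : Continuous fun p : (Fin n → ℂ) × ℂ => circ_ev p.1 p.2 := by
  unfold circ_ev
  fun_prop

lemma circ_cont1 {n : ℕ} (z : ℂ) : Continuous fun c : Fin n → ℂ => circ_ev c z := by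
  unfold circ_ev
  fun_prop

lemma circ_bound {n : ℕ} (f : Fin n → ℂ) (hf : Function.Injective f) :
    ∃ K : ℝ, ∀ (c : Fin n → ℂ) (R : ℝ), 0 ≤ R → (∀ j, ‖circ_ev c (f j)‖ ≤ R) → ‖c‖ ≤ K * R := by
  let L : (Fin n → ℂ) →ₗ[ℂ] (Fin n → ℂ) :=
    { toFun := fun c j => circ_ev c (f j)
      map_add' := fun a b => by
        funext j
        simp [circ_ev, add_mul, Finset.sum_add_distrib]
      map_smul' := fun a b => by
        funext j
        simp [circ_ev, Finset.mul_sum, mul_assoc] }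
  have hL : LinearMap.ker L = ⊥ := by
    rw [LinearMap.ker_eq_bot']
    intro c hc
    exact Matrix.eq_zero_of_forall_index_sum_mul_pow_eq_zero hf fun j => congrFun hc j
  obtain ⟨K, -, hK⟩ := L.exists_antilipschitzWith hL
  refine ⟨K, fun c R hR h => ?_⟩
  have h1 := hK.le_mul_dist c 0
  rw [map_zero, dist_zero_right, dist_zero_right] at h1
  have h2 : ‖L c‖ ≤ R := (pi_norm_le_iff_of_nonneg hR).2 h
  exact h1.trans (mul_le_mul_of_nonneg_left h2 K.2)

lemma circ_const {n : ℕ} (hn : 1 ≤ n) (f : Fin n → ℂ) (hf : Function.Injective f)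
    (c : Fin n → ℂ) (a : ℂ) (h : ∀ j, circ_ev c (f j) = a) (z : ℂ) : circ_ev c z = a := by
  have key : ∀ z : ℂ, circ_ev (c - Pi.single (⟨0, hn⟩ : Fin n) a) z = circ_ev c z - a := by
    intro z
    unfold circ_ev
    simp only [Pi.sub_apply, sub_mul, Finset.sum_sub_distrib]
    congr 1
    rw [Finset.sum_eq_single (⟨0, hn⟩ : Fin n)]
    · simp
    · intro b _ hb
      simp [Pi.single_eq_of_ne hb]
    · intro h
      exact absurd (Finset.mem_univ _) h
  have h0 : c - Pi.single (⟨0, hn⟩ : Fin n) a = 0 := by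
    refine Matrix.eq_zero_of_forall_index_sum_mul_pow_eq_zero hf fun j => ?_
    have := key (f j)
    rw [h j, sub_self] at this
    exact this
  have := key z
  rw [h0] at this
  simp [circ_ev] at this
  exact (sub_eq_zero.1 this.symm)

lemma circ_fin (a b : ℂ) (A B : ℝ) (hA : 0 < A) (hB : 0 < B) (ha : ‖a‖ = 1) (hb : ‖b‖ = 1)
    (hab : a ≠ b) : Set.Finite {z : ℂ | ‖z‖ = 1 ∧ ‖a - z‖ * A = ‖b - z‖ * B} := by
  set w : ℂ := (A : ℂ) ^ 2 * a - (B : ℂ) ^ 2 * b with hw
  have hw0 : w ≠ 0 := by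
    intro h0
    have h1 : (A : ℂ) ^ 2 * a = (B : ℂ) ^ 2 * b := sub_eq_zero.1 h0
    have h2 := congrArg norm h1
    simp only [norm_mul, norm_pow, Complex.norm_real, ha, hb, mul_one, Real.norm_eq_abs,
      sq_abs] at h2
    have h3 : (A : ℂ) ^ 2 = (B : ℂ) ^ 2 := by exact_mod_cast h2
    rw [h3] at h1
    have h4 : (B : ℂ) ^ 2 ≠ 0 := pow_ne_zero _ (by exact_mod_cast hB.ne')
    exact hab (mul_left_cancel₀ h4 h1)
  let p : Polynomial ℂ := Polynomial.C ((starRingEnd ℂ) w) * Polynomial.X ^ 2 +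
    Polynomial.C (-2 * ((A : ℂ) ^ 2 - (B : ℂ) ^ 2)) * Polynomial.X + Polynomial.C w
  have hp : p ≠ 0 := by
    intro h0
    have h1 := congrArg (Polynomial.eval 0) h0
    simp [p] at h1
    exact hw0 h1
  refine (Polynomial.finite_setOfPred_isRoot hp).subset ?_
  rintro z ⟨hz, hz2⟩
  have e1 : ∀ u : ℂ, ((‖u‖ : ℝ) : ℂ) ^ 2 = u * (starRingEnd ℂ) u := by
    intro u
    rw [Complex.mul_conj, Complex.normSq_eq_norm_sq]
    push_cast
    ring
  have hz3 : ((‖a - z‖ : ℝ) : ℂ) ^ 2 * (A : ℂ) ^ 2 = ((‖b - z‖ : ℝ) : ℂ) ^ 2 * (B : ℂ) ^ 2 := by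
    have : (‖a - z‖ * A) ^ 2 = (‖b - z‖ * B) ^ 2 := by rw [hz2]
    rw [mul_pow, mul_pow] at this
    exact_mod_cast this
  rw [e1, e1, map_sub, map_sub] at hz3
  have ez := e1 z
  have ea := e1 a
  have eb := e1 b
  rw [hz] at ez
  rw [ha] at ea
  rw [hb] at eb
  simp only [Complex.ofReal_one, one_pow] at ez ea eb
  have ecw : (starRingEnd ℂ) w = (A : ℂ) ^ 2 * (starRingEnd ℂ) a -
      (B : ℂ) ^ 2 * (starRingEnd ℂ) b := by
    rw [hw]
    simp [map_sub, map_mul, map_pow, Complex.conj_ofReal]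
  change p.IsRoot z
  rw [Polynomial.IsRoot.def]
  simp only [p, Polynomial.eval_add, Polynomial.eval_mul, Polynomial.eval_C, Polynomial.eval_pow,
    Polynomial.eval_X]
  rw [ecw, hw]
  generalize (starRingEnd ℂ) a = a' at *
  generalize (starRingEnd ℂ) b = b' at *
  generalize (starRingEnd ℂ) z = z' at *
  linear_combination (-z) * hz3 - z * (A : ℂ) ^ 2 * ea + z * (B : ℂ) ^ 2 * eb +
    ((A : ℂ) ^ 2 * (a - z) - (B : ℂ) ^ 2 * (b - z)) * ez

lemma circ_near (a : ℂ) (ha : ‖a‖ = 1) (S : Set ℂ) (hS : S.Finite) (ε : ℝ) (hε : 0 < ε) :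
    ∃ z : ℂ, ‖z‖ = 1 ∧ ‖z - a‖ < ε ∧ z ∉ S := by
  have ha0 : a ≠ 0 := by
    intro h
    rw [h, norm_zero] at ha
    exact zero_ne_one ha
  let f : ℝ → ℂ := fun t => a * Complex.exp (Complex.I * t)
  have hinj : Set.InjOn f (Set.Ioo 0 (min ε 1)) := by
    intro s hs t ht e
    have e1 : Complex.exp (Complex.I * s) = Complex.exp (Complex.I * t) := mul_left_cancel₀ ha0 e
    have e2 := congrArg Complex.im e1
    rw [mul_comm Complex.I, mul_comm Complex.I, Complex.exp_ofReal_mul_I_im,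
      Complex.exp_ofReal_mul_I_im] at e2
    have hpi : (1 : ℝ) ≤ Real.pi / 2 := by linarith [Real.pi_gt_three]
    have hs2 := lt_of_lt_of_le hs.2 (min_le_right _ _)
    have ht2 := lt_of_lt_of_le ht.2 (min_le_right _ _)
    exact Real.injOn_sin ⟨by linarith [hs.1], by linarith⟩ ⟨by linarith [ht.1], by linarith⟩ e2
  have hinf : (f '' Set.Ioo 0 (min ε 1)).Infinite :=
    (Set.Ioo_infinite (lt_min hε one_pos)).image hinj
  obtain ⟨z, ⟨t, ht, rfl⟩, hz⟩ := hinf.exists_notMem_finite hS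
  refine ⟨f t, ?_, ?_, hz⟩
  · simp only [f, norm_mul, ha, one_mul]
    rw [mul_comm, Complex.norm_exp_ofReal_mul_I]
  · have e : f t - a = a * (Complex.exp (Complex.I * t) - 1) := by
      simp only [f]
      ring
    rw [e, norm_mul, ha, one_mul]
    refine lt_of_le_of_lt Real.norm_exp_I_mul_ofReal_sub_one_le ?_
    rw [Real.norm_eq_abs, abs_of_pos ht.1]
    exact lt_of_lt_of_le ht.2 (min_le_left _ _)

lemma circ_prod {ι : Type} [Fintype ι] [DecidableEq ι] (q : ι → ℂ) (i0 i : ι) (hi : i ≠ i0)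
    (z : ℂ) : ∏ m ∈ Finset.univ.erase i, ‖Function.update q i0 z i - Function.update q i0 z m‖ =
      ‖q i - z‖ * ∏ m ∈ (Finset.univ.erase i).erase i0, ‖q i - q m‖ := by
  rw [← Finset.mul_prod_erase (Finset.univ.erase i) _
    (Finset.mem_erase.2 ⟨hi.symm, Finset.mem_univ i0⟩)]
  rw [Function.update_self, Function.update_of_ne hi]
  congr 1
  refine Finset.prod_congr rfl fun m hm => ?_
  rw [Function.update_of_ne (Finset.mem_erase.1 hm).1]

lemma circ_pert (hc : CurveSt) (n : ℕ) (hn : 2 ≤ n) (q : Fin (2 * n) → ℂ)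
    (hq : Function.Injective q) (h1 : ∀ i, ‖q i‖ = 1) (γ : ℝ → ℂ) (hγ : Curve γ)
    (i0 i1 i2 : Fin (2 * n)) (h10 : i1 ≠ i0) (h20 : i2 ≠ i0) (h12 : i1 ≠ i2) (ε : ℝ)
    (hε : 0 < ε) : ∃ (z : ℂ) (c : Fin n → ℂ), ‖z - q i0‖ < ε ∧ circ_ev c z ∈ Set.range γ ∧
      (∀ i, i ≠ i0 → circ_ev c (q i) ∈ Set.range γ) ∧ ∃ x y, circ_ev c x ≠ circ_ev c y := by
  have hpos : ∀ i, 0 < ∏ m ∈ (Finset.univ.erase i).erase i0, ‖q i - q m‖ := by
    intro i
    refine Finset.prod_pos fun m hm => norm_pos_iff.2 (sub_ne_zero.2 fun e => ?_)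
    exact (Finset.mem_erase.1 (Finset.mem_erase.1 hm).2).1 (hq e).symm
  have hfin := (circ_fin (q i1) (q i2) _ _ (hpos i1) (hpos i2) (h1 i1) (h1 i2)
    (fun e => h12 (hq e))).union (Set.finite_range q)
  obtain ⟨z, hz1, hz2, hz3⟩ := circ_near (q i0) (h1 i0) _ hfin ε hε
  have hzq : ∀ i, q i ≠ z := fun i e => hz3 (Or.inr ⟨i, e⟩)
  have hq' : Function.Injective (Function.update q i0 z) := by
    intro a b e
    by_cases ha : a = i0
    · by_cases hb : b = i0
      · rw [ha, hb]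
      · rw [ha, Function.update_self, Function.update_of_ne hb] at e
        exact absurd e.symm (hzq b)
    · by_cases hb : b = i0
      · rw [hb, Function.update_self, Function.update_of_ne ha] at e
        exact absurd e (hzq a)
      · rw [Function.update_of_ne ha, Function.update_of_ne hb] at e
        exact hq e
  have h1' : ∀ i, ‖Function.update q i0 z i‖ = 1 := by
    intro i
    by_cases hi : i = i0
    · rw [hi, Function.update_self, hz1]
    · rw [Function.update_of_ne hi, h1]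
  obtain ⟨ω, hV, hω⟩ := exists_vd n (by omega) (Fintype.card_fin _) _ hq' h1'
  have hne : |ω i1| ≠ |ω i2| := by
    intro e
    have e1 := hω i1
    have e2 := hω i2
    rw [circ_prod q i0 i1 h10] at e1
    rw [circ_prod q i0 i2 h20, ← e] at e2
    have h0 : |ω i1| ≠ 0 := abs_ne_zero.2 (hV.ne i1)
    exact hz3 (Or.inl ⟨hz1, mul_left_cancel₀ h0 (e1.trans e2.symm)⟩)
  obtain ⟨v, hv, hv1, i, k, hik⟩ := hc _ _ ω hV (by rw [Fintype.card_fin]; omega)
    ⟨i1, i2, hne⟩ γ hγ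
  obtain ⟨c, hcv⟩ := (circ_mem _ _).1 hv
  rw [hcv i, hcv k] at hik
  refine ⟨z, c, hz2, ?_, fun i hi => ?_, _, _, hik⟩
  · have := hv1 i0
    rwa [hcv, Function.update_self] at this
  · have := hv1 i
    rwa [hcv, Function.update_of_ne hi] at this

theorem circ_thm (hc : CurveSt) : CircSt := by
  intro n hn q hq h1 γ hγ
  let i0 : Fin (2 * n) := ⟨0, by omega⟩
  let i1 : Fin (2 * n) := ⟨1, by omega⟩
  let i2 : Fin (2 * n) := ⟨2, by omega⟩
  have h10 : i1 ≠ i0 := by simp [i0, i1]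
  have h20 : i2 ≠ i0 := by simp [i0, i2]
  have h12 : i1 ≠ i2 := by simp [i1, i2]
  let e : Fin n → Fin (2 * n) := fun j => ⟨j + 1, by omega⟩
  have he : Function.Injective e := by
    intro a b h
    have := congrArg Fin.val h
    simp only [e] at this
    exact Fin.ext (by omega)
  have he0 : ∀ j, e j ≠ i0 := by
    intro j h
    have := congrArg Fin.val h
    simp [e, i0] at this
  have hqe : Function.Injective fun j => q (e j) := hq.comp he
  obtain ⟨K, hK⟩ := circ_bound _ hqe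
  obtain ⟨ω, hV, -⟩ := exists_vd n (by omega) (Fintype.card_fin _) q hq h1
  obtain ⟨ϑ, hϑ, hloc⟩ := nc_loc hV h10
  obtain ⟨ρ, hρ, hflat⟩ := hγ.flat hϑ
  have hcomp := hγ.compact
  obtain ⟨R, hR⟩ := hcomp.isBounded.exists_norm_le
  have hR0 : 0 ≤ R := (norm_nonneg _).trans (hR (γ 0) ⟨0, rfl⟩)
  choose z c hz hc0 hc1 hc2 using fun k : ℕ =>
    circ_pert hc n hn q hq h1 γ hγ i0 i1 i2 h10 h20 h12 (1 / ((k : ℝ) + 1)) Nat.one_div_pos_of_nat
  have hosc : ∀ k, ρ / 2 ≤ ‖fun i => circ_ev (c k) (q i) - circ_ev (c k) (q i1)‖ := by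
    intro k
    by_contra hlt
    push Not at hlt
    have h2 := hloc _ ρ hρ hflat (fun i => circ_ev (c k) (q i))
      ((circ_mem _ _).2 ⟨c k, fun _ => rfl⟩) (hc1 k) fun i =>
        (norm_le_pi_norm (fun i => circ_ev (c k) (q i) - circ_ev (c k) (q i1)) i).trans hlt.le
    obtain ⟨x, y, hxy⟩ := hc2 k
    have h3 := circ_const (by omega) _ hqe (c k) _ fun j => h2 (e j)
    exact hxy ((h3 x).trans (h3 y).symm)
  have hbd : ∀ k, c k ∈ Metric.closedBall (0 : Fin n → ℂ) (K * R) := by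
    intro k
    rw [mem_closedBall_zero_iff]
    exact hK _ R hR0 fun j => hR _ (hc1 k _ (he0 j))
  obtain ⟨a, -, φ, hφ, hlim⟩ := (isCompact_closedBall _ _).tendsto_subseq hbd
  have hzlim : Filter.Tendsto z Filter.atTop (nhds (q i0)) := by
    rw [tendsto_iff_norm_sub_tendsto_zero]
    exact squeeze_zero (fun k => norm_nonneg _) (fun k => (hz k).le)
      tendsto_one_div_add_atTop_nhds_zero_nat
  have hcl := hcomp.isClosed
  refine ⟨fun i => circ_ev a (q i), (circ_mem _ _).2 ⟨a, fun _ => rfl⟩, fun i => ?_, ?_⟩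
  · by_cases hi : i = i0
    · rw [hi]
      have h2 := (circ_cont.tendsto (a, q i0)).comp
        (hlim.prodMk_nhds (hzlim.comp hφ.tendsto_atTop))
      exact hcl.mem_of_tendsto h2 (Filter.Eventually.of_forall fun k => hc0 (φ k))
    · have h2 := ((circ_cont1 (q i)).tendsto a).comp hlim
      exact hcl.mem_of_tendsto h2 (Filter.Eventually.of_forall fun k => hc1 (φ k) i hi)
  · have hco : Continuous fun b : Fin n → ℂ =>
        ‖fun i => circ_ev b (q i) - circ_ev b (q i1)‖ :=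
      (continuous_pi fun i => (circ_cont1 _).sub (circ_cont1 _)).norm
    have h2 := ge_of_tendsto' ((hco.tendsto a).comp hlim) fun k => hosc (φ k)
    by_contra hno
    push Not at hno
    have h3 : (fun i => circ_ev a (q i) - circ_ev a (q i1)) = 0 := by
      funext i
      rw [hno i i1, sub_self]
      rfl
    rw [h3, norm_zero] at h2
    linarith

end Pool.Agent.Lib.MP_5a3ebe_gt.PI
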