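import Pool.Agent.Lib.MP_5a3ebe_gt.PiDefs

/-! The abstract contradiction. -/

set_option linter.unusedSectionVars false
set_option linter.unusedVariables false

namespace Pool.Agent.Lib.MP_5a3ebe_gt.PI

open Ap Classical

/-- The projection onto the generators with a property. -/
noncomputable def contra_pr {X : Type} (P : X → Prop) : En X where
  toFun := Finsupp.filter P
  map_add' := fun _ _ => Finsupp.filter_add
  map_smul' := fun _ _ => Finsupp.filter_smul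

lemma contra_pr_ne {X : Type} {P : X → Prop} {y : Ch X} {t : X} (h : contra_pr P y t ≠ 0) :
    P t ∧ y t ≠ 0 := by
  change Finsupp.filter P y t ≠ 0 at h
  rw [Finsupp.filter_apply] at h
  split_ifs at h with h1
  · exact ⟨h1, h⟩
  · exact absurd rfl h

lemma contra_pr_eq {X : Type} {P : X → Prop} {y : Ch X} (h : ∀ t, y t ≠ 0 → P t) :
    contra_pr P y = y :=
  (Finsupp.filter_eq_self_iff P y).2 h

lemma contra_pr_zero {X : Type} {P : X → Prop} {y : Ch X} (h : ∀ t, y t ≠ 0 → ¬ P t) :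
    contra_pr P y = 0 := by
  ext t
  by_contra h1
  exact h t (contra_pr_ne h1).2 (contra_pr_ne h1).1

lemma contra_comm {X : Type} {D : En X} {par : X → F2} (m : F2)
    (hD : ∀ s t, Ent D s t → par t = par s + 1) (y : Ch X) :
    D (contra_pr (fun s => par s = m) y) = contra_pr (fun s => par s ≠ m) (D y) := by
  have h1 : ∀ a b : F2, a = b ↔ a + 1 ≠ b := by decide
  have : D * contra_pr (fun s => par s = m) = contra_pr (fun s => par s ≠ m) * D := by
    refine ext_sg fun s => ?_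
    rw [Module.End.mul_apply, Module.End.mul_apply]
    by_cases h : par s = m
    · rw [contra_pr_eq fun t ht => sg_ne ht ▸ h,
        contra_pr_eq fun t ht => hD s t ht ▸ (h1 _ _).1 h]
    · rw [contra_pr_zero fun t ht => sg_ne ht ▸ h, map_zero,
        contra_pr_zero fun t ht => hD s t ht ▸ fun h2 => h ((h1 _ _).2 h2)]
  exact LinearMap.congr_fun this y

theorem contra {X : Type} (D K : En X) (L : X → ℝ) (par : X → F2) (m : F2)
    (inner NI : X → Prop) (p0 : Ch X) (ξ : Ch X →ₗ[F2] F2) (c0 c1 e θ : ℝ) (he : 0 ≤ e)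
    (hθ : 20 * e ≤ θ) (θ0 : 0 < θ) (hc : c1 + 6 * θ ≤ c0)
    (hD : ∀ s t, Ent D s t → par t = par s + 1 ∧ L t ≤ L s + e)
    (hP : ∀ b, ∃ g g', PushSpec D L inner NI θ b g g')
    (K1 : ∀ s t, Ent K s t → L t ≤ L s + e)
    (K2 : ∀ s t, NI s → par s ≠ m → Ent (1 + K * D + D * K) s t → L t ≤ L s - θ)
    (p1 : ∀ s, p0 s ≠ 0 → par s = m)
    (p2 : ∀ t, D p0 t ≠ 0 → L t < c0 - 5 * θ)
    (X1 : ∀ s, NI s → L s < c1 + θ → ξ (D (sg s)) = 0)
    (X2 : ∀ s, ξ (sg s) ≠ 0 → c1 - e ≤ L s)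
    (X3 : ξ (D (D p0)) = 1)
    (X4 : ∀ t, D (D p0) t ≠ 0 → L t ≤ c1 + e ∧ (inner t ∨ L t < c1 - 2 * θ))
    (X5 : ∀ s t, Ent (D * D) s t → L t ≤ L s - (c0 - c1)) : False := by
  have hpar : ∀ a b : F2, a = b → a + 1 ≠ b := by decide
  let Gd : Ch X → Prop := fun Z => ∀ s, Z s ≠ 0 → par s = m ∧ L s ≤ c0 - 4 * θ
  have a1 : ∀ Z, Gd Z → ∀ t, D (p0 + Z) t ≠ 0 → par t ≠ m := fun Z hZ t ht => by
    obtain ⟨s, h1, h2⟩ := apply_ne D ht
    rw [(hD s t h2).1]
    exact hpar _ _ ((F2.add_ne h1).elim (p1 s) fun h => (hZ s h).1)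
  have a2 : ∀ Z, Gd Z → ∀ t, D (D Z) t ≠ 0 → L t ≤ c1 - 4 * θ := fun Z hZ t ht => by
    obtain ⟨s, h1, h2⟩ := apply_ne (D * D) ht
    linarith [X5 s t h2, (hZ s h1).2]
  have a3 : ∀ Z, Gd Z → ∀ t, D (D (p0 + Z)) t ≠ 0 →
      L t ≤ c1 + e ∧ (inner t ∨ L t < c1 - 2 * θ) := fun Z hZ t ht => by
    rw [map_add, map_add] at ht
    refine (F2.add_ne ht).elim (X4 t) fun h => ?_
    have := a2 Z hZ t h
    exact ⟨by linarith, Or.inr (by linarith)⟩
  have a4 : ∀ Z w, Gd Z → (∀ s, w s ≠ 0 → L s ≤ c0 - 4 * θ) →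
      Gd (Z + contra_pr (fun s => par s = m) w) ∧
      ∀ t, D (p0 + (Z + contra_pr (fun s => par s = m) w)) t ≠ 0 → (D (p0 + Z) + D w) t ≠ 0 :=
    fun Z w hZ hw => by
    refine ⟨fun s hs => (F2.add_ne hs).elim (hZ s) fun h =>
      ⟨(contra_pr_ne h).1, hw s (contra_pr_ne h).2⟩, fun t ht => ?_⟩
    rw [← add_assoc, map_add, contra_comm m fun s t h => (hD s t h).1,
      ← contra_pr_eq (a1 Z hZ), ← map_add] at ht
    exact (contra_pr_ne ht).2
  have s1 : ∀ b, c1 ≤ b → b ≤ c0 - 5 * θ → (∃ Z, Gd Z ∧ ∀ t, D (p0 + Z) t ≠ 0 → L t < b) →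
      ∃ Z, Gd Z ∧ ∀ t, D (p0 + Z) t ≠ 0 → L t < b - θ / 2 ∨ (NI t ∧ L t < b + θ / 4) := by
    rintro b hb1 hb2 ⟨Z, hZ, hy⟩
    obtain ⟨g, g', hg⟩ := hP b
    obtain ⟨h1, h2⟩ := a4 Z (g (D (p0 + Z))) hZ fun t ht => by
      obtain ⟨s, h1, h2⟩ := apply_ne g ht
      linarith [((hg s).2 (hy s h1) t).1 h2]
    refine ⟨_, h1, fun t ht => ?_⟩
    have h3 : g' (D (D (p0 + Z))) = 0 := by
      by_contra h
      obtain ⟨s, h4, h5⟩ := map_ne g' h
      exact h5 ((hg s).1 ((a3 Z hZ s h4).2.symm.imp_left fun h => by linarith))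
    have h4 : (1 + g' * D + D * g) (D (p0 + Z)) t ≠ 0 := by
      rw [LinearMap.add_apply, LinearMap.add_apply, Module.End.mul_apply, h3, add_zero]
      exact h2 t ht
    obtain ⟨s, h5, h6⟩ := apply_ne _ h4
    exact ((hg s).2 (hy s h5) t).2 h6
  have s2 : ∀ b, b ≤ c0 - 5 * θ →
      (∃ Z, Gd Z ∧ ∀ t, D (p0 + Z) t ≠ 0 → L t < b - θ / 2 ∨ (NI t ∧ L t < b + θ / 4)) →
      ∃ Z, Gd Z ∧ ∀ t, D (p0 + Z) t ≠ 0 → L t < max (b - θ / 4) (c1 + θ / 4) := by
    rintro b hb ⟨Z, hZ, hy⟩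
    have hy' : ∀ t, D (p0 + Z) t ≠ 0 → L t < b + θ / 4 := fun t ht =>
      (hy t ht).elim (fun h => by linarith) fun h => h.2
    obtain ⟨h1, h2⟩ := a4 Z (K (D (p0 + Z))) hZ fun t ht => by
      obtain ⟨s, h1, h2⟩ := apply_ne K ht
      linarith [K1 s t h2, hy' s h1]
    refine ⟨_, h1, fun t ht => ?_⟩
    have h3 : D (p0 + Z) + D (K (D (p0 + Z))) =
        (1 + K * D + D * K) (D (p0 + Z)) + K (D (D (p0 + Z))) := by
      rw [LinearMap.add_apply, LinearMap.add_apply, Module.End.mul_apply, Module.End.mul_apply,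
        Module.End.one_apply, add_right_comm _ (K _), add_assoc _ (K _), ch_two, add_zero]
    have h4 := h2 t ht
    rw [h3] at h4
    rcases F2.add_ne h4 with h | h
    · obtain ⟨s, h5, h6⟩ := apply_ne _ h
      refine lt_max_of_lt_left ?_
      rcases hy s h5 with h7 | h7
      · rcases ent_add h6 with h8 | h8
        · rcases ent_add h8 with h8 | h8
          · rw [← ent_one h8]
            linarith
          · obtain ⟨u, h9, h10⟩ := ent_mul h8
            linarith [(hD s u h9).2, K1 u t h10]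
        · obtain ⟨u, h9, h10⟩ := ent_mul h8
          linarith [(hD u t h10).2, K1 s u h9]
      · linarith [K2 s t h7.1 (a1 Z hZ s h5) h6, h7.2]
    · obtain ⟨s, h5, h6⟩ := apply_ne K h
      refine lt_max_of_lt_right ?_
      linarith [K1 s t h6, (a3 Z hZ s h5).1]
  have it : ∀ n : ℕ, ∃ Z, Gd Z ∧ ∀ t, D (p0 + Z) t ≠ 0 →
      L t < max (c0 - 5 * θ - n * (θ / 4)) (c1 + θ / 4) := by
    intro n
    induction n with
    | zero =>
      refine ⟨0, fun s hs => absurd rfl hs, fun t ht => lt_max_of_lt_left ?_⟩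
      rw [add_zero] at ht
      simpa using p2 t ht
    | succ n ih =>
      have h0 : 0 ≤ n * (θ / 4) := by positivity
      have h1 : max (c0 - 5 * θ - n * (θ / 4)) (c1 + θ / 4) ≤ c0 - 5 * θ :=
        max_le (by linarith) (by linarith)
      obtain ⟨Z, hZ, hy⟩ := s2 _ h1 (s1 _ (le_max_of_le_right (by linarith)) h1 ih)
      refine ⟨Z, hZ, fun t ht => (hy t ht).trans_le (max_le ?_ (le_max_right _ _))⟩
      rw [← max_sub_sub_right]
      exact max_le_max (by push_cast; linarith) (by linarith)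
  obtain ⟨n, hn⟩ := exists_nat_ge ((c0 - c1) / (θ / 4))
  rw [div_le_iff₀ (by positivity)] at hn
  have h1 := it n
  rw [max_eq_right (by linarith)] at h1
  obtain ⟨Z, hZ, hy⟩ := s1 _ (by linarith) (by linarith) h1
  have h2 : ξ (D (D Z)) = 0 := by
    by_contra h
    obtain ⟨s, h3, h4⟩ := map_ne ξ h
    linarith [a2 Z hZ s h3, X2 s h4]
  have h3 : (ξ.comp D) (D (p0 + Z)) ≠ 0 := by
    rw [LinearMap.comp_apply, map_add, map_add, map_add, X3, h2, add_zero]
    exact one_ne_zero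
  obtain ⟨s, h4, h5⟩ := map_ne _ h3
  rcases hy s h4 with h6 | h6
  · obtain ⟨u, h7, h8⟩ := map_ne ξ h5
    linarith [(hD s u h7).2, X2 u h8]
  · exact h5 (X1 s h6.1 (by linarith [h6.2]))

end Pool.Agent.Lib.MP_5a3ebe_gt.PI
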