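import Pool.Agent.Lib.MP_5a3ebe_gt.PiCoreC

/-! Choice of the numerical constants. -/

set_option linter.unusedSectionVars false
set_option linter.unusedVariables false

namespace Pool.Agent.Lib.MP_5a3ebe_gt.PI

open Filter

lemma floor_nat {h W : ℝ} (hh : 0 < h) (hW : 0 ≤ W) :
    ∃ M : ℕ, M * h ≤ W ∧ W < M * h + h := by
  refine ⟨⌊W / h⌋₊, (le_div_iff₀ hh).1 (Nat.floor_le (by positivity)), ?_⟩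
  have := (div_lt_iff₀ hh).1 (Nat.lt_floor_add_one (W / h))
  linarith

lemma num_a (n : ℕ) {R ε gb γ1 Cf l0 l1 Lip Ω ωm δ : ℝ} (R0 : 0 < R) (ε0 : 0 < ε) (gb0 : 0 < gb)
    (γ10 : 0 < γ1) (C0 : 0 ≤ Cf) (l00 : 0 < l0) (ωm0 : 0 < ωm) (δ0 : 0 < δ) :
    ∃ η0 : ℝ, 0 < η0 ∧ ∀ η, 0 < η → η ≤ η0 → ∃ ζ, η ≤ 1 ∧
      100 * (n + 1) ^ 3 * R * (2 * Cf * η) ≤ ζ ∧ 2 * Cf * η ≤ ζ ∧ 2 * η * (l0 + |l1| * ε) ≤ ζ ∧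
      (Ω + 4 * Lip * R) * ζ ≤ ωm * (gb * ε / 8) / 2 ∧
      Ω * (n * (4 * R * (Cf * η))) + (Ω + 4 * Lip * R) * ζ ≤ δ * (gb * ε) / 2 ∧
      Ω * (ζ + η * l0) ≤ γ1 / 4 := by
  obtain ⟨Kz, hK⟩ : ∃ Kz, Kz = 100 * (n + 1) ^ 3 * R * (2 * Cf) + 2 * Cf + 2 * (l0 + |l1| * ε) :=
    ⟨_, rfl⟩
  have q1 : 0 ≤ 100 * ((n : ℝ) + 1) ^ 3 * R * (2 * Cf) := by positivity
  have q2 : 0 ≤ 2 * (l0 + |l1| * ε) := by positivity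
  obtain ⟨η0, η00, hη⟩ := ev_pos (p := fun η => 1 * η ≤ 1 ∧
      (Ω + 4 * Lip * R) * Kz * η ≤ ωm * (gb * ε / 8) / 2 ∧
      (Ω * (n * (4 * R * Cf)) + (Ω + 4 * Lip * R) * Kz) * η ≤ δ * (gb * ε) / 2 ∧
      Ω * (Kz + l0) * η ≤ γ1 / 4) (by
    simp only [eventually_and]
    refine ⟨?_, ?_, ?_, ?_⟩ <;> exact small_ev _ _ (by positivity))
  refine ⟨η0, η00, fun η h1 h2 => ?_⟩
  obtain ⟨a1, a2, a3, a4⟩ := hη η h1 h2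
  have b1 := mul_nonneg q1 h1.le
  have b2 := mul_nonneg q2 h1.le
  have b3 := mul_nonneg C0 h1.le
  refine ⟨Kz * η, by linarith, ?_, ?_, ?_, by linarith, by linarith, by linarith⟩
  · rw [hK]; linarith
  · rw [hK]; linarith
  · rw [hK]; linarith

lemma num_e {R γ γ1 : ℝ} (γ0 : 0 < γ) (γ10 : 0 < γ1) : ∃ εE : ℝ, 0 < εE ∧ εE ≤ 1 ∧
    εE * (2 * R) ≤ γ / 8 ∧ εE * (2 * R) ≤ γ1 / 8 := by
  obtain ⟨x, x0, hx⟩ := ev_pos (p := fun x => 1 * x ≤ 1 ∧ 2 * R * x ≤ γ / 8 ∧ 2 * R * x ≤ γ1 / 8)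
    (by
      simp only [eventually_and]
      refine ⟨?_, ?_, ?_⟩ <;> exact small_ev _ _ (by positivity))
  obtain ⟨b1, b2, b3⟩ := hx x x0 le_rfl
  exact ⟨x, x0, by linarith, by linarith, by linarith⟩

lemma num_w (n : ℕ) {S ε γ1 γ Lip Ω a Cq r : ℝ} (ε0 : 0 < ε) (γ0 : 0 < γ) (γ10 : 0 < γ1)
    (r1 : 0 < r) : ∃ γ' rz g W : ℝ, 0 < γ' ∧ 0 < rz ∧ 0 < g ∧ 0 < W ∧ 8 * γ' ≤ γ ∧ 8 * γ' ≤ γ1 ∧
      16 * Cq * γ' ≤ r ∧ Ω * rz ≤ γ' ∧ 8 * (n + 2) * g ≤ rz ∧ 6 * S * W ≤ g ∧ 2 * S * W ≤ rz ∧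
      2 * W ≤ r / 8 ∧ Lip * 2 * W ≤ γ' ∧ Ω * a * 2 * W ≤ γ' ∧ 64 * W ≤ ε := by
  obtain ⟨γ', γ'0, g1, g2, g3⟩ : ∃ x : ℝ, 0 < x ∧ 8 * x ≤ γ ∧ 8 * x ≤ γ1 ∧ 16 * Cq * x ≤ r := by
    obtain ⟨x, x0, hx⟩ := ev_pos (p := fun x => 8 * x ≤ γ ∧ 8 * x ≤ γ1 ∧ 16 * Cq * x ≤ r) (by
      simp only [eventually_and]
      refine ⟨?_, ?_, ?_⟩ <;> exact small_ev _ _ (by positivity))
    exact ⟨x, x0, hx x x0 le_rfl⟩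
  obtain ⟨rz, rz0, z1⟩ : ∃ x : ℝ, 0 < x ∧ Ω * x ≤ γ' := by
    obtain ⟨x, x0, hx⟩ := ev_pos (small_ev Ω γ' γ'0)
    exact ⟨x, x0, hx x x0 le_rfl⟩
  obtain ⟨g, g0, z2⟩ : ∃ x : ℝ, 0 < x ∧ 8 * (n + 2) * x ≤ rz := by
    obtain ⟨x, x0, hx⟩ := ev_pos (small_ev (8 * (n + 2)) rz rz0)
    exact ⟨x, x0, hx x x0 le_rfl⟩
  obtain ⟨x, x0, hx⟩ := ev_pos (p := fun x => 6 * S * x ≤ g ∧ 2 * S * x ≤ rz ∧
    2 * x ≤ r / 8 ∧ Lip * 2 * x ≤ γ' ∧ Ω * a * 2 * x ≤ γ' ∧ 64 * x ≤ ε) (by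
    simp only [eventually_and]
    refine ⟨?_, ?_, ?_, ?_, ?_, ?_⟩ <;> exact small_ev _ _ (by positivity))
  exact ⟨γ', rz, g, x, γ'0, rz0, g0, x0, g1, g2, g3, z1, z2, hx x x0 le_rfl⟩

lemma num_N {a γ' : ℝ} (γ'0 : 0 < γ') : ∃ N : ℕ, 2 ≤ N ∧ a ≤ (N - 1) * γ' / 4 := by
  obtain ⟨N, hN⟩ := exists_nat_ge (a * 4 / γ')
  rw [div_le_iff₀ γ'0] at hN
  exact ⟨N + 2, by omega, by push_cast; linarith⟩

lemma num_m {h W S : ℝ} {M : ℕ} (k1 : 0 < h) (S0 : 0 < S) (s2 : 2 * h ≤ W) (M1 : M * h ≤ W)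
    (M2 : W < M * h + h) : 1 ≤ M ∧ S * h * (4 * M + 2) ≤ 6 * S * W ∧ S * h * (M + 1) ≤ 2 * S * W ∧
      W / 2 ≤ M * h := by
  refine ⟨?_, ?_, ?_, by linarith⟩
  · have : (1 : ℝ) * h ≤ M * h := by linarith
    exact_mod_cast le_of_mul_le_mul_right this k1
  · have := mul_le_mul_of_nonneg_left (show h * (4 * M + 2) ≤ 6 * W by linarith) S0.le
    linarith
  · have := mul_le_mul_of_nonneg_left (show h * (M + 1) ≤ 2 * W by linarith) S0.le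
    linarith

lemma num_b (n cι : ℕ) {S R ε gb γ1 Cf l0 l1 η γ Lip Ω ωm δ slj ζ εE Cq r Θ c Ce h0 : ℝ}
    (S0 : 0 < S) (R0 : 0 < R) (ε0 : 0 < ε) (gb0 : 0 < gb) (γ10 : 0 < γ1) (L1 : 1 ≤ Lip)
    (Ω0 : 0 < Ω) (ωm0 : 0 < ωm) (δ0 : 0 < δ) (η0 : 0 < η) (γ0 : 0 < γ) (Cq0 : 0 < Cq) (r1 : 0 < r)
    (Θ0 : 0 < Θ) (c0 : 0 < c) (Ce0 : 0 < Ce) (h00 : 0 < h0) (r3 : r ≤ ε / 32) (a1 : η ≤ 1)
    (ζ1 : 100 * (n + 1) ^ 3 * R * (2 * Cf * η) ≤ ζ) (ζ2 : 2 * Cf * η ≤ ζ)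
    (ζ3 : 2 * η * (l0 + |l1| * ε) ≤ ζ) (a2 : (Ω + 4 * Lip * R) * ζ ≤ ωm * (gb * ε / 8) / 2)
    (a3 : Ω * (n * (4 * R * (Cf * η))) + (Ω + 4 * Lip * R) * ζ ≤ δ * (gb * ε) / 2)
    (a4 : Ω * (ζ + η * l0) ≤ γ1 / 4) (e1 : εE ≤ 1) (e2 : εE * (2 * R) ≤ γ / 8)
    (e3 : εE * (2 * R) ≤ γ1 / 8) : ∃ h1 : ℝ, 0 < h1 ∧ ∀ h, 0 < h → h ≤ h1 → h ≤ h0 ∧
      ∃ (γ' rz g W cf θ : ℝ) (B M N : ℕ), Num n cι S R ε gb γ1 Cf l0 l1 η γ h Lip Ω ωm δ slj ζ εE Cq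
        r (ε / 32) Θ c Ce γ' rz g W cf θ B M N := by
  obtain ⟨γ', rz, g, W, γ'0, rz0, g0, W0, g1, g2, g3, z1, z2, w1, w2, w3, w4, w5, w6⟩ :=
    num_w n (S := S) (Lip := Lip) (Ω := Ω) (a := |slj| + |l1|) (Cq := Cq) ε0 γ0 γ10 r1
  obtain ⟨cf, cf0, f1, f2⟩ : ∃ x : ℝ, 0 < x ∧ x ≤ ωm * (g * W / 4) ∧ x ≤ ωm * (gb * ε / 8) / 2 :=
    ⟨min _ _, lt_min (by positivity) (by positivity), min_le_left _ _, min_le_right _ _⟩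
  obtain ⟨PP, hPP⟩ : ∃ PP : ℕ, PP = cι * (2 * n + 1) := ⟨_, rfl⟩
  obtain ⟨RR, hRR⟩ : ∃ RR, RR = Ω * R + 4 * Lip * R := ⟨_, rfl⟩
  have RR0 : 0 < RR := by rw [hRR]; positivity
  obtain ⟨N, N2, N3⟩ := num_N (a := 20 * (PP + 2) * (2 * RR) + 20 * (Ce + 2 * RR)) γ'0
  obtain ⟨θ', hθ⟩ : ∃ θ', θ' = ((N : ℝ) - 1) * γ' / 4 := ⟨_, rfl⟩
  rw [← hθ] at N3
  obtain ⟨h1', h10, hh⟩ := ev_pos (p := fun h => 1 * h ≤ h0 ∧ 2 * h ≤ W ∧ 64 * h ≤ ε ∧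
      ((2 * PP + 7) * N + 1) * h ≤ W ∧ Lip * (2 * ((2 * PP + 7) * N)) * h ≤ γ' / 2 ∧
      (θ' + (20 * (PP + 2) + 1) * (N * (2 * RR))) * h ≤ cf ∧
      6 * θ' * h ≤ cf ∧ 6 * θ' * h ≤ Θ ∧ 48 * θ' * h ≤ c * r ^ 2 ∧
      ((2 * PP + 6) * N + 1) * h ≤ r / 4 ∧ 3 * θ' * h ≤ δ * (gb * ε) / 2) (by
    simp only [eventually_and]
    refine ⟨?_, ?_, ?_, ?_, ?_, ?_, ?_, ?_, ?_, ?_, ?_⟩ <;> exact small_ev _ _ (by positivity))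
  refine ⟨h1', h10, fun h k1 k2 => ?_⟩
  obtain ⟨s1, s2, s3, s4, s5, s6, s7, s8, s9, s10, s11⟩ := hh h k1 k2
  obtain ⟨B, B1, B2⟩ := floor_nat (W := ε / 4) k1 (by positivity)
  obtain ⟨M, M1, M2⟩ := floor_nat k1 W0.le
  obtain ⟨m1, m2, m3, m4⟩ := num_m k1 S0 s2 M1 M2
  have t3 := mul_le_mul_of_nonneg_right N3 k1.le
  have t4 : 0 ≤ 20 * ((PP : ℝ) + 2) * (2 * RR) * h := by positivity
  have t5 : 0 ≤ 20 * (Ce + 2 * RR) * h := by positivity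
  have t6 : (2 * PP + 7) * N ≤ M := by
    have : ((2 * PP + 7) * N : ℝ) * h ≤ M * h := by linarith only [s4, M2]
    exact_mod_cast le_of_mul_le_mul_right this k1
  have t7 : M + 2 ≤ B := by
    have : (M + 2 : ℝ) * h ≤ B * h := by linarith only [M1, B2, w6, s3, ε0]
    exact_mod_cast le_of_mul_le_mul_right this k1
  have t8 : ωm * (g * W / 4) ≤ ωm * (g * h / 2 * M) := by
    refine mul_le_mul_of_nonneg_left ?_ ωm0.le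
    linarith only [mul_le_mul_of_nonneg_left m4 g0.le]
  have t9 : 0 < ωm * (gb * ε) := by positivity
  refine ⟨by linarith only [s1], γ', rz, g, W, cf, θ' * h, B, M, N, η0, a1, k1, g0, r1, cf0, c0, γ'0,
    Cq0, Ce0.le, rz0.le, e1, ζ1, ζ2, ζ3, by linarith only [B1], by linarith only [B2, s3, ε0], t7,
    by exact_mod_cast m1, z2, m2.trans w1, m3.trans w2, f1.trans t8, by linarith only [f2, a2],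
    by linarith only [a3, s11], by linarith only [M1, s2, k1], z1, e2, e3, g1, g2,
    by linarith only [w4], by linarith only [w5], a4, w3, g3, N2, by rw [← hPP]; exact t6,
    by rw [← hPP]; linarith only [s5], by rw [hθ]; ring,
    by rw [← hPP, ← hRR]; linarith only [t3, t5], by rw [← hPP, ← hRR]; linarith only [s6],
    by linarith only [f2, t9], by rw [← hRR]; linarith only [t3, t4], by linarith only [s7],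
    by linarith only [s8], by linarith only [s9], by rw [← hPP]; push_cast; linarith only [s10], r3,
    by linarith only [M1, B2, w6, s3, ε0]⟩

end Pool.Agent.Lib.MP_5a3ebe_gt.PI
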