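import Pool.Agent.Lib.MP_5a3ebe_gt.PiLatB
import Pool.Agent.Lib.MP_5a3ebe_gt.PiCoreD

/-! The combinatorial core. -/

set_option linter.unusedSectionVars false
set_option linter.unusedVariables false

namespace Pool.Agent.Lib.MP_5a3ebe_gt.PI

open Ap Classical

lemma ff_low {ι : Type} [Fintype ι] [DecidableEq ι] (j : ι) (H : Matrix ι ι ℝ) (E : ι → ℝ)
    (μ κ' : ℝ) {Θ r0 r1 : ℝ} (Θ0 : 0 < Θ) (r00 : 0 < r0) (r10 : 0 < r1) : ∃ r : ℝ, 0 < r ∧ r ≤ r0 ∧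
      r ≤ r1 ∧ ∀ x : ι → ℝ, ‖x‖ ≤ r → -(Θ / 2) ≤ Ff j H E μ κ' x := by
  have ct : Continuous (Ff j H E μ κ') := by
    unfold Ff Matrix.mulVec dotProduct
    fun_prop
  have z : Ff j H E μ κ' 0 = 0 := by simp [Ff]
  obtain ⟨d, d0, hd⟩ := Metric.continuous_iff.1 ct 0 (Θ / 2) (by positivity)
  refine ⟨min (d / 2) (min r0 r1), by positivity, (min_le_right _ _).trans (min_le_left _ _),
    (min_le_right _ _).trans (min_le_right _ _), fun x hx => ?_⟩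
  have := hd x (by rw [dist_zero_right]; linarith [min_le_left (d / 2) (min r0 r1)])
  rw [z, Real.dist_eq, sub_zero] at this
  exact (abs_lt.1 this).1.le

theorem core : CoreSt := by
  intro ι _ _ j i1 ω Sm n S R ε gb γ1 Cf l0 l1 xs ys sl hij hω hw hS S0 R0 ε0 gb0 γ10 C0 l00 crit
  obtain ⟨Lip, hL⟩ : ∃ Lip, Lip = ∑ i, ∑ k, |Sm i k| + 1 := ⟨_, rfl⟩
  have L1 : 1 ≤ Lip := by linarith [abs_nonneg (Sm j j), entry_le hL.ge j j]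
  obtain ⟨Ω, hΩ⟩ : ∃ Ω, ∀ i, |ω i| ≤ Ω := ⟨∑ i, |ω i|, fun i =>
    Finset.single_le_sum (f := fun i => |ω i|) (fun i _ => abs_nonneg _) (Finset.mem_univ i)⟩
  obtain ⟨im, -, him⟩ := Finset.exists_min_image Finset.univ (fun i => |ω i|) ⟨j, Finset.mem_univ _⟩
  obtain ⟨ωm, ωm0, hωm⟩ : ∃ ωm, 0 < ωm ∧ ∀ i, ωm ≤ |ω i| :=
    ⟨_, abs_pos.2 (hω im), fun i => him i (Finset.mem_univ _)⟩
  have Ω0 : 0 < Ω := ωm0.trans_le ((hωm j).trans (hΩ j))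
  have ωj : 0 < ω j := (abs_nonneg _).trans_lt hw
  have δ0 : 0 < ω j - |ω i1| := sub_pos.2 hw
  obtain ⟨η0, η00, hη⟩ := num_a n (l1 := l1) (Lip := Lip) (Ω := Ω) R0 ε0 gb0 γ10 C0 l00 ωm0 δ0
  refine ⟨η0, η00, fun η h1 h2 γ γ0 => ?_⟩
  obtain ⟨ζ, a1, ζ1, ζ2, ζ3, a2, a3, a4⟩ := hη η h1 h2
  obtain ⟨εE, εE0, e1, e2, e3⟩ := num_e (R := R) γ0 γ10
  obtain ⟨E, hE, ⟨Cq, Cq0, hC⟩, hM⟩ := morse_quad ι j (Sm - Matrix.diagonal fun i => ω i * sl i)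
    (hS.sub (Matrix.isSymm_diagonal _)) εE εE0
  have hM' : MorseF fun h => lat (fun i => decide (0 < ω i)) h
      (Ff j (Sm - Matrix.diagonal fun i => ω i * sl i) E (ω j * η * l0) (ω j * η * l1 / 2)) :=
    hM _ _ _ (mul_pos (mul_pos ωj h1) l00)
  obtain ⟨m, hm⟩ := hM'
  have ε32 : 0 < ε / 32 := div_pos ε0 (by norm_num)
  obtain ⟨r0, Θ, c, Ce, h0, r00, Θ0, c0, Ce0, h00, hMD⟩ := hm (ε / 32) ε32
  obtain ⟨r, r1, r2, r3, hf⟩ := ff_low j (Sm - Matrix.diagonal fun i => ω i * sl i) E (ω j * η * l0)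
    (ω j * η * l1 / 2) Θ0 r00 ε32
  obtain ⟨h1', h10, hh⟩ := num_b n (Fintype.card ι) (slj := sl j) S0 R0 ε0 gb0 γ10 L1 Ω0 ωm0 δ0 h1 γ0
    Cq0 r1 Θ0 c0 Ce0 h00 r3 a1 ζ1 ζ2 ζ3 a2 a3 a4 e1 e2 e3
  refine ⟨h1', h10, fun h k1 k2 κ _ _ hn D G i0 s0 hD hG hF low hDD nrm cx cΔ NC1 NC2 => ?_⟩
  obtain ⟨s1, γ', rz, g, W, cf, θ, B, M, N, Nm⟩ := hh h k1 k2
  obtain ⟨K, p, ξ, md⟩ := hMD h k1 s1
  exact core_h hij hw hS S0 R0 ε0 gb0 C0 l00 crit hL.ge hΩ ωm0 hωm hE hC Nm (md.mono r2) hf hn D G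
    i0 s0 hD hG hF low hDD nrm cx cΔ NC1 NC2

end Pool.Agent.Lib.MP_5a3ebe_gt.PI
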