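import Pool.Agent.Lib.MP_5a3ebe_gt.PiLift

/-! Moves, transposition and boxes. -/

set_option linter.unusedSectionVars false
set_option linter.unusedVariables false

namespace Pool.Agent.Lib.MP_5a3ebe_gt.PI

open Ap Classical

section rel

variable {Y : Type} {S : RD Y} {P : Prm}

lemma rel_ds (ε : Bool) (y y' : Y) : S.neg.ds ε y y' = S.ds (!ε) y' y := by
  cases ε <;> simp [RD.ds, RD.neg]

lemma rel_tot (y y' : Y) : S.neg.tot P y y' = S.tot P y' y := by
  change -S.Λ y' - -S.Λ y + P.RK * |S.X y' - S.X y| = S.Λ y - S.Λ y' + P.RK * |S.X y - S.X y'|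
  rw [abs_sub_comm]
  ring

lemma RD.Mv.refl (ε : Bool) (y : Y) : S.Mv P ε 0 y y := by
  have : S.ds ε y y = 0 := by simp [RD.ds]
  have h1 : S.dX ε y y = 0 := by simp [RD.dX]
  refine ⟨this.ge, by simp [this], by simp [RD.tot], fun y0 _ _ h => Or.inr ?_⟩
  simp [this, h1, h.elim id id]

lemma RD.Mv.mono (he : 0 ≤ P.e0) {ε n n' y y'} (h : S.Mv P ε n y y') (hn : n ≤ n') :
    S.Mv P ε n' y y' := by
  have h1 : (n : ℝ) * P.e0 ≤ n' * P.e0 := mul_le_mul_of_nonneg_right (by exact_mod_cast hn) he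
  refine ⟨h.lo, h.hi.trans (by exact_mod_cast hn), h.le.trans h1, fun y0 a b c => ?_⟩
  rcases h.zn y0 a b c with z | z
  · left; linarith
  · exact Or.inr z

lemma RD.Mv.trans (hR : 0 ≤ P.RK) {ε n n' y y' y''} (h : S.Mv P ε n y y')
    (h' : S.Mv P ε n' y' y'') : S.Mv P ε (n + n') y y'' := by
  have e1 : S.ds ε y y'' = S.ds ε y y' + S.ds ε y' y'' := by
    unfold RD.ds; split_ifs <;> ring
  have e3 : S.dX ε y y'' = S.dX ε y y' + S.dX ε y' y'' := by
    unfold RD.dX; split_ifs <;> ring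
  have e2 : S.tot P y y'' ≤ S.tot P y y' + S.tot P y' y'' := by
    have := mul_le_mul_of_nonneg_left (abs_sub_le (S.X y'') (S.X y') (S.X y)) hR
    unfold RD.tot
    linarith
  have l1 := h.lo
  have l2 := h'.lo
  have u1 := h.hi
  have u2 := h'.hi
  have a1 := h.le
  have a2 := h'.le
  refine ⟨by omega, by push_cast; omega, by push_cast; linarith, fun y0 b1 b2 b3 => ?_⟩
  have b5 : |S.w y' - S.w y0| ≤ P.M := by
    unfold RD.ds at l1 l2
    rw [abs_le] at b1 b2 ⊢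
    split_ifs at l1 l2 <;> omega
  push_cast
  by_cases c1 : S.tot P y y' ≤ n * P.e0 - P.c0
  · left; linarith
  by_cases c2 : S.tot P y' y'' ≤ n' * P.e0 - P.c0
  · left; linarith
  have i1 : S.In y0 y' := b3.elim (fun i => ((h.zn y0 b1 b5 (Or.inl i)).resolve_left c1).2.1)
    fun i => ((h'.zn y0 b5 b2 (Or.inr i)).resolve_left c2).1
  obtain ⟨z1, -, z2, z3, z4⟩ := (h.zn y0 b1 b5 (Or.inr i1)).resolve_left c1
  obtain ⟨-, z5, z6, z7, z8⟩ := (h'.zn y0 b5 b2 (Or.inl i1)).resolve_left c2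
  refine Or.inr ⟨z1, z5, ?_, ?_, by linarith⟩
  · rw [e1, e3]; push_cast; linarith
  · rw [e1, e3]; push_cast; linarith

lemma RD.Mv.neg {ε n y y'} (h : S.Mv P (!ε) n y' y) : S.neg.Mv P ε n y y' := by
  have e1 : S.neg.ds ε y y' = S.ds (!ε) y' y := rel_ds ε y y'
  have e3 : S.neg.dX ε y y' = S.dX (!ε) y' y := by cases ε <;> simp [RD.dX, RD.neg]
  have e2 : S.neg.tot P y y' = S.tot P y' y := rel_tot y y'
  refine ⟨e1 ▸ h.lo, e1 ▸ h.hi, e2 ▸ h.le, fun y0 b1 b2 b3 => ?_⟩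
  rw [e1, e2, e3]
  rcases h.zn y0 b2 b1 b3.symm with z | ⟨z1, z2, z3, z4, z5⟩
  · exact Or.inl z
  · refine Or.inr ⟨z2, z1, z3, z4, ?_⟩
    change -S.Λ y' - -S.Λ y ≤ -(-S.sl (!ε) y0 * (S.X y' - S.X y))
    linarith

lemma RD.Rel.neg {Ed Eh Eρ U φ P0 π v a} (h : S.Rel P Ed Eh Eρ U φ P0 π v a) :
    S.neg.Rel P (fun y y' => Ed y' y) (fun ε y y' => Eh (!ε) y' y) (fun ε y y' => Eρ (!ε) y' y)
      U.symm (fun y => P0 - φ y) P0 π (fun ε y => -v (!ε) y) a := by
  refine ⟨h.refl, ?_, fun ε y y' x => (h.hM _ _ _ x).neg, fun ε y y' x => (h.ρM _ _ _ x).neg,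
    fun y y' x => ?_, fun y => Nat.sub_le _ _, fun ε y y' x => ?_, fun ε y y' => ?_, fun y => ?_⟩
  · obtain ⟨ε, hε⟩ := h.dM
    exact ⟨!ε, fun y y' x => RD.Mv.neg (by rw [Bool.not_not]; exact hε _ _ x)⟩
  · obtain ⟨h1, h2⟩ := h.dφ _ _ x
    refine ⟨by rw [h1, add_assoc, F2.add_self, add_zero], h2.imp (fun h3 => ?_) fun h3 => ?_⟩
    · have := h.φP y'
      omega
    · rwa [rel_tot]
  · have := h.pot _ _ _ x
    omega
  · have := h.vw (!ε) y' y
    rw [rel_ds]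
    omega
  · rw [rel_tot]
    simpa using h.Ud (U.symm y)

lemma RD.Box.neg {Ed U π b B0 τ u π0 i0} (h : S.Box P Ed U π b B0 τ u π0 i0) :
    S.neg.Box P (fun y y' => Ed y' y) U.symm π b B0 (!τ) (-u) π0 i0 := by
  have e1 : ∀ a, vtx (!τ) a ↔ ¬ vtx τ a := fun a => by
    unfold vtx
    cases τ <;> simp
  refine ⟨h.w, h.inj, fun a m => ?_, neg_ne_zero.2 h.u0, h.par, h.near, h.inN,
    fun a m y h1 h2 => ?_, fun a m y h1 h2 => ?_⟩
  · rw [Equiv.symm_apply_eq, h.U, neg_add_cancel_right]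
  · rw [e1, not_not]
    exact h.inn a m y h1 h2
  · rw [e1]
    exact h.out a m y h1 h2

/-- Inside the box the differential is that of the line, up to terms with a large drop. -/
lemma RD.Box.del {d : En Y} {Eh Eρ U φ P0 π v a' b B0 τ u π0 i0}
    (R : S.Rel P (Ent d) Eh Eρ U φ P0 π v a') (h : S.Box P (Ent d) U π b B0 τ u π0 i0)
    (hM : 1 ≤ P.M) {a m : ℤ} (ha : |a| + 1 ≤ B0) {y : Y}
    (hy : (d (sg (b a m)) + sh (fun a => b a m) (lineδ τ (sg a))) y ≠ 0) :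
    S.tot P (b a m) y ≤ P.e0 - P.c0 := by
  rw [Finsupp.add_apply, lineδ, gen_sg] at hy
  have h1 : b (a + 1) m ≠ b (a - 1) m := fun e => by
    have h2 := abs_le.1 (show |a| ≤ (B0 : ℤ) - 1 by omega)
    have := (h.inj _ _ _ _ (abs_le.2 ⟨by omega, by omega⟩) (abs_le.2 ⟨by omega, by omega⟩) e).1
    omega
  by_cases i : S.In (b a m) y
  · exfalso
    have o := h.out a m y ha i
    by_cases hv : vtx τ a
    · rw [if_pos hv, map_zero, Finsupp.zero_apply, add_zero] at hy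
      exact (o.1 hy).1 hv
    rw [if_neg hv, map_add, sh_sg, sh_sg, Finsupp.add_apply] at hy
    by_cases e1 : y = b (a + 1) m
    · have h2 := F2.eq_one (o.2 ⟨hv, Or.inl e1⟩)
      rw [h2, e1, Finsupp.single_eq_same, Finsupp.single_eq_of_ne h1, add_zero] at hy
      exact hy (F2.add_self _)
    by_cases e2 : y = b (a - 1) m
    · have h2 := F2.eq_one (o.2 ⟨hv, Or.inr e2⟩)
      rw [h2, e2, Finsupp.single_eq_same, Finsupp.single_eq_of_ne h1.symm, zero_add] at hy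
      exact hy (F2.add_self _)
    rw [Finsupp.single_eq_of_ne e1, Finsupp.single_eq_of_ne e2, add_zero, add_zero] at hy
    exact (o.1 hy).2.elim e1 e2
  have e1 : y ≠ b (a + 1) m := fun e => i (e ▸ (h.inN a m ha).1)
  have e2 : y ≠ b (a - 1) m := fun e => i (e ▸ (h.inN a m ha).2)
  have h2 : Ent d (b a m) y := by
    by_cases hv : vtx τ a
    · rwa [if_pos hv, map_zero, Finsupp.zero_apply, add_zero] at hy
    · rwa [if_neg hv, map_add, sh_sg, sh_sg, Finsupp.add_apply, Finsupp.single_eq_of_ne e1,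
        Finsupp.single_eq_of_ne e2, add_zero, add_zero] at hy
  obtain ⟨ε, hε⟩ := R.dM
  have mv := hε _ _ h2
  have l := mv.lo
  have u' := mv.hi
  have h3 : |S.w y - S.w (b a m)| ≤ P.M := by
    unfold RD.ds at l u'
    rw [abs_le]
    split_ifs at l u' <;> omega
  rcases mv.zn (b a m) (by simp) h3 (Or.inl (R.refl _)) with z | z
  · simpa using z
  · exact absurd z.2.1 i

/-- The iterated homotopies of a factor. -/
lemma RD.Fac.iter (he : 0 ≤ P.e0) (hR : 0 ≤ P.RK) {d h ρ U φ P0 π v a}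
    (F : S.Fac P d h ρ U φ P0 π v a) (ε : Bool) (N : ℕ) :
    ∃ H r : En Y, d * H + H * d = 1 + r ∧ (∀ y y', Ent H y y' → S.Mv P ε N y y') ∧
      ∀ y y', Ent r y y' → S.Mv P ε N y y' ∧ (N : ℤ) - 1 ≤ S.ds ε y y' := by
  have c0 : d * ρ ε = ρ ε * d := by
    have : ρ ε = 1 + (d * h ε + h ε * d) := by rw [F.hom, ← add_assoc, hom_two, zero_add]
    rw [this]
    simp only [mul_add, add_mul, mul_one, one_mul, ← mul_assoc, F.dd]
    rw [mul_assoc (h ε) d d, F.dd, F.Uh]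
    abel
  have c : ∀ m : ℕ, d * ρ ε ^ m = ρ ε ^ m * d := fun m =>
    (Commute.pow_right (c0 : Commute d (ρ ε)) m).eq
  have pw : ∀ (m : ℕ) y y', Ent (ρ ε ^ m) y y' → S.Mv P ε m y y' ∧ v ε y' = v ε y + m := by
    intro m
    induction m with
    | zero =>
      intro y y' x
      rw [pow_zero] at x
      obtain rfl := ent_one x
      exact ⟨RD.Mv.refl ε y, by simp⟩
    | succ m ih =>
      intro y y' x
      rw [pow_succ'] at x
      obtain ⟨z, z1, z2⟩ := ent_mul x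
      refine ⟨(ih _ _ z1).1.trans hR (F.rel.ρM ε _ _ z2), ?_⟩
      rw [F.rel.pot ε _ _ z2, (ih _ _ z1).2]
      push_cast
      ring
  refine ⟨∑ m ∈ Finset.range N, h ε * ρ ε ^ m, ρ ε ^ N, ?_, fun y y' x => ?_, fun y y' x => ?_⟩
  · induction N with
    | zero => simp only [Finset.sum_range_zero, mul_zero, zero_mul, add_zero, pow_zero, hom_two]
    | succ n ih =>
      have : d * (h ε * ρ ε ^ n) + h ε * ρ ε ^ n * d = ρ ε ^ n + ρ ε ^ (n + 1) := by
        rw [mul_assoc (h ε), ← c, ← mul_assoc, ← mul_assoc, ← add_mul, F.hom, add_mul, one_mul,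
          pow_succ']
      rw [Finset.sum_range_succ, mul_add, add_mul, add_add_add_comm, ih, this, add_assoc,
        ← add_assoc (ρ ε ^ n), hom_two, zero_add]
  · obtain ⟨m, m1, m2⟩ := ent_sum x
    obtain ⟨z, z1, z2⟩ := ent_mul m2
    exact ((pw m _ _ z1).1.trans hR (F.rel.hM ε _ _ z2)).mono he (Finset.mem_range.1 m1)
  · have h1 := F.rel.vw ε y y'
    obtain ⟨h2, h3⟩ := pw N _ _ x
    exact ⟨h2, by omega⟩

end rel

/-- A move in one coordinate changes the total level by at most `tot`. -/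
lemma Sys.OK.upd {ι : Type} [Fintype ι] [DecidableEq ι] {Y : ι → Type} {Z : Sys ι Y} {P P0 Lip}
    (H : Z.OK P P0 Lip) (σ : ∀ i, Y i) (i : ι) (y : Y i) :
    Z.L (Function.update σ i y) - Z.L σ ≤ (Z.S i).tot P (σ i) y := by
  have h1 : Z.X (Function.update σ i y) = Function.update (Z.X σ) i ((Z.S i).X y) := by
    funext l
    exact Function.apply_update (fun l (s : Y l) => (Z.S l).X s) σ i y l
  have h2 : ∑ l, ((Z.S l).Λ (Function.update σ i y l) - (Z.S l).Λ (σ l)) =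
      (Z.S i).Λ y - (Z.S i).Λ (σ i) := by
    rw [Finset.sum_eq_single i, Function.update_self]
    · intro l _ hl
      rw [Function.update_of_ne hl, sub_self]
    · exact fun h => absurd (Finset.mem_univ i) h
  have h3 := H.q3 σ i y
  rw [Finset.sum_sub_distrib] at h2
  unfold Sys.L RD.tot
  rw [h1]
  linarith

lemma Sys.OK.sq {ι : Type} [Fintype ι] [DecidableEq ι] {Y : ι → Type} {Z : Sys ι Y} {P P0 Lip}
    (H : Z.OK P P0 Lip) :
    Z.D * Z.D = ∑ i, sh fun σ : ∀ i, Y i => Function.update σ i (Z.U i (σ i)) := by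
  rw [Sys.D, tot_sq]
  exact Finset.sum_congr rfl fun i _ => by rw [(H.fac i).dd, lft_sh]

end Pool.Agent.Lib.MP_5a3ebe_gt.PI
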