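import Pool.Agent.Lib.MP_5a3ebe_gt.PiMv
import Pool.Agent.Lib.MP_5a3ebe_gt.PiRel

/-! The factor of a diagram and its transpose. -/

set_option linter.unusedSectionVars false
set_option linter.unusedVariables false

namespace Pool.Agent.Lib.MP_5a3ebe_gt.PI

open Ap Classical

variable {κ Γ : Type} [Fintype κ] [DecidableEq κ] [Fintype Γ] [DecidableEq Γ] {D : Diag κ}
  {T : TC κ Γ}

lemma fac_tot {G : Bool → Geo κ} {side b1 b2 P ω rz ζ S R gb μ cm i0 s0 B}
    (H : FacH T D G side b1 b2 P ω rz ζ S R gb μ cm i0 s0 B) {y y' : Γ × ℤ}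
    (hw : T.w y'.1 = T.w y.1) (hm : |y'.2 - y.2| ≤ 1) :
    (facRD T G side b1 b2 ω rz ζ i0 s0 B P.M).tot P y y' ≤
      ω * (lev T (G true) y' - lev T (G true) y + ζ) + P.RK * ζ := by
  have h1 := (abs_le.1 (H.sd.cmp y y' true hm)).2
  have h2 : |(G (side y')).x (T.w y'.1) - (G (side y)).x (T.w y.1)| ≤ ζ := by
    rw [hw]
    have a := H.sd.cx (T.w y.1)
    have b := H.ζ0
    cases side y' <;> cases side y
    · simpa using b
    · rwa [abs_sub_comm]
    · exact a
    · simpa using b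
  have h3 := mul_le_mul_of_nonneg_left h2 H.RK0
  have h4 := mul_le_mul_of_nonneg_left h1 H.ω0.le
  change ω * lev T (G (side y')) y' - ω * lev T (G (side y)) y +
    P.RK * |(G (side y')).x (T.w y'.1) - (G (side y)).x (T.w y.1)| ≤ _
  linarith

lemma fac_per {G : Bool → Geo κ} {side b1 b2 P ω rz ζ S R gb μ cm i0 s0 B}
    (H : FacH T D G side b1 b2 P ω rz ζ S R gb μ cm i0 s0 B) :
    ω * (-((G true).A / 2) + ζ) + P.RK * ζ ≤ -P.c0 := by
  have h1 : 0 < ω * cm := by
    have := mul_nonneg (add_nonneg H.ω0.le H.RK0) H.ζ0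
    linarith [H.c2, H.c00]
  have h2 : 0 < cm := (mul_pos_iff_of_pos_left H.ω0).1 h1
  have h3 : 0 ≤ gb := by
    by_contra hc
    have := mul_nonpos_of_nonpos_of_nonneg
      (mul_nonpos_of_nonpos_of_nonneg (not_le.1 hc).le H.h0.le) (Nat.cast_nonneg (α := ℝ) B)
    linarith [H.c3]
  have h4 := Geo.Base.period H.good H.conn H.spec H.h0 h3 (by have := H.MB; omega) (H.ok true)
    (H.base true)
  have h5 : ω * cm ≤ ω * ((G true).A / 2) :=
    mul_le_mul_of_nonneg_left (by linarith [H.c3]) H.ω0.le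
  linarith [H.c2]

theorem FacH.rel {G : Bool → Geo κ} {side b1 b2 P ω rz ζ S R gb μ cm i0 s0 B}
    (H : FacH T D G side b1 b2 P ω rz ζ S R gb μ cm i0 s0 B) {n : ℕ} (hn : Fintype.card κ ≤ n) :
    ∃ φ v, (facRD T G side b1 b2 ω rz ζ i0 s0 B P.M).Rel P (LEnt (kap T D) (-1) T.d)
      (fun ε => LEnt (kap T D) 1 (T.h ε)) (fun ε => LEnt (kap T D) 0 (T.ρ ε)) (shU Γ (-1)) φ
      (2 * n + 1) (fun y => T.par D y.1) v (ω * ((G true).A - ζ) - P.RK * ζ) := by
  let f : Γ → Finset κ := fun g => Finset.univ.filter fun s =>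
    (G true).lam D (T.w g) (T.st g) < (G true).lam D (T.w g) s
  have fb : ∀ g, (f g).card ≤ n := fun g => (Finset.card_le_univ _).trans hn
  have Sp := H.spec
  refine ⟨fun y => (f y.1).card + if T.sl y.1 then n + 1 else 0,
    fun ε y => if ε then T.w y.1 else -T.v y.1, fun y => ?_, ⟨true, fun y y' x => ?_⟩,
    fun ε y y' x => ?_, fun ε y y' x => ?_, fun y y' x => ⟨Sp.par_d x.1, ?_⟩, fun y => ?_,
    fun ε y y' x => ?_, fun ε y y' => ?_, fun y => ?_⟩
  · simp only [facRD]
    split_ifs with c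
    · exact ⟨c.1, trivial⟩
    · exact ⟨(H.zone y).n2, (H.zone y).n1, trivial, fun a b => c ⟨b, a⟩⟩
  · obtain ⟨s, -, p⟩ := Sp.dS _ _ x.1
    refine H.mv (by decide) ⟨s, x.2⟩ true ?_
    simp only [RD.ds, facRD, if_true]
    omega
  · obtain ⟨s, -, p⟩ := Sp.hS _ _ _ x.1
    refine H.mv (by decide) ⟨s, x.2⟩ ε ?_
    cases ε <;> simp only [RD.ds, facRD, if_true, Bool.false_eq_true, if_false, TC.v] at p ⊢
    · split_ifs at p <;> omega
    · omega
  · obtain ⟨s, p⟩ := Sp.ρS _ _ _ x.1
    refine H.mv (by decide) ⟨s, x.2⟩ ε ?_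
    cases ε <;> simp only [RD.ds, facRD, if_true, Bool.false_eq_true, if_false, TC.v] at p ⊢
    · split_ifs at p <;> omega
    · omega
  · obtain ⟨-, -, ⟨p1, p2⟩ | ⟨p1, p2, -⟩⟩ := Sp.dS _ _ x.1
    · by_cases o : (G true).lam D (T.w y.1) (T.st y.1) < (G true).lam D (T.w y.1) (T.st y'.1)
      · left
        simp only [p2]
        refine Nat.add_lt_add_right (Finset.card_lt_card ⟨fun s => ?_, fun e => ?_⟩) _
        · simp only [f, p1, Finset.mem_filter, Finset.mem_univ, true_and]
          exact o.trans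
        · have := e (x := T.st y'.1) (by simpa [f] using o)
          simp [f] at this
      · right
        have e := x.2
        simp only [kap, p2] at e
        have hm : |y'.2 - y.2| ≤ 1 := by
          rw [abs_le]
          split_ifs at e <;> omega
        have e2 : lev T (G true) y' - lev T (G true) y =
            (G true).lam D (T.w y.1) (T.st y'.1) - (G true).lam D (T.w y.1) (T.st y.1) -
              (G true).A / 2 := by
          have e3 : (2 * y'.2 + (if D.dir (T.st y'.1) then 1 else 0) : ℝ) =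
              2 * y.2 + (if D.dir (T.st y.1) then 1 else 0) - 1 := by
            have : 2 * y'.2 + (if D.dir (T.st y'.1) then 1 else 0) =
                2 * y.2 + (if D.dir (T.st y.1) then 1 else 0) - 1 := by omega
            exact_mod_cast this
          simp only [lev, Geo.lam, p1]
          split_ifs at e3 ⊢ <;> linear_combination ((G true).A / 2) * e3
        refine (fac_tot H p1 hm).trans (le_trans ?_ (fac_per H))
        have := mul_le_mul_of_nonneg_left (not_lt.1 o) H.ω0.le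
        rw [e2]
        linarith
    · left
      have := fb y'.1
      simp only [p1, p2, if_true, Bool.false_eq_true, if_false]
      omega
  · have := fb y.1
    split_ifs <;> omega
  · obtain ⟨-, p⟩ := Sp.ρS _ _ _ x.1
    cases ε <;> simp only [if_true, Bool.false_eq_true, if_false] at p ⊢ <;> omega
  · have := TC.v_bd (T := T) y.1
    have := TC.v_bd (T := T) y'.1
    cases ε <;> simp only [RD.ds, facRD, if_true, Bool.false_eq_true, if_false] <;> omega
  · refine (fac_tot H (y := y) (y' := shU Γ (-1) y) rfl (by simp [shU])).trans (le_of_eq ?_)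
    simp only [lev, shU, Equiv.prodCongr_apply, Equiv.coe_refl, Prod.map_fst, id_eq, Prod.map_snd,
      Equiv.coe_addRight]
    push_cast
    ring

lemma fac_pure (Sp : T.Spec D) {g g' : Γ} (x : T.d g g' ≠ 0) :
    Even (kap T D g + -1 - kap T D g') ∧ Even (kap T D g' + 1 - kap T D g) := by
  have := (Sp.dS g g' x).2.1
  unfold kap
  revert this
  cases D.dir (T.st g') <;> cases T.sl g' <;> cases D.dir (T.st g) <;> cases T.sl g <;> decide

lemma fac_lift_one (c : Γ → ℤ) : lift c 0 (1 : Matrix Γ Γ F2) = 1 := by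
  have h := lift_one c 0
  rw [mul_zero] at h
  rw [h]
  refine ext_sg fun s => ?_
  simp [shU]

lemma fac_ent (c : Γ → ℤ) (e : ℤ) (M : Matrix Γ Γ F2) : Ent (lift c e M) = LEnt c e M := by
  funext y y'
  exact propext (ent_lift c e M y y')

lemma fac_entT (c : Γ → ℤ) {e e' : ℤ} (he : e + e' = 0) (M : Matrix Γ Γ F2) :
    Ent (lift c e M.transpose) = fun y y' => LEnt c e' M y' y := by
  funext y y'
  rw [fac_ent]
  exact propext (and_congr Iff.rfl (by omega))

theorem fac_of_rel (Sp : T.Spec D) {S : RD (Γ × ℤ)} {P φ P0 π v a}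
    (R : S.Rel P (LEnt (kap T D) (-1) T.d) (fun ε => LEnt (kap T D) 1 (T.h ε))
      (fun ε => LEnt (kap T D) 0 (T.ρ ε)) (shU Γ (-1)) φ P0 π v a) :
    S.Fac P (lift (kap T D) (-1) T.d) (fun ε => lift (kap T D) 1 (T.h ε))
      (fun ε => lift (kap T D) 0 (T.ρ ε)) (shU Γ (-1)) φ P0 π v a ∧
    S.neg.Fac P (lift (kap T D) 1 T.d.transpose)
      (fun ε => lift (kap T D) (-1) (T.h (!ε)).transpose)
      (fun ε => lift (kap T D) 0 (T.ρ (!ε)).transpose) (shU Γ (-1)).symm (fun y => P0 - φ y) P0 π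
      (fun ε y => -v (!ε) y) a := by
  have p1 : ∀ g g', T.d g g' ≠ 0 → Even (kap T D g + -1 - kap T D g') :=
    fun g g' x => (fac_pure Sp x).1
  have p2 : ∀ g g', T.d.transpose g g' ≠ 0 → Even (kap T D g + 1 - kap T D g') :=
    fun g g' x => (fac_pure Sp x).2
  have eU : (shU Γ (-1)).symm = shU Γ 1 := by
    ext y <;> simp [shU]
  refine ⟨⟨?_, fun ε => lift_shU _ _ _ _, fun ε => ?_, ?_⟩, ⟨?_, fun ε => ?_, fun ε => ?_, ?_⟩⟩
  · rw [lift_mul _ _ _ _ _ (Or.inl p1), Sp.dd]
    have e := lift_one (kap T D) (-1)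
    rwa [two_mul] at e
  · rw [lift_mul _ _ _ _ _ (Or.inr p1), lift_mul _ _ _ _ _ (Or.inl p1), add_neg_cancel,
      neg_add_cancel, ← lift_add, add_comm, Sp.hom, lift_add, fac_lift_one]
  · simpa only [fac_ent] using R
  · rw [lift_mul _ _ _ _ _ (Or.inl p2), ← Matrix.transpose_mul, Sp.dd, Matrix.transpose_one, eU]
    have e := lift_one (kap T D) 1
    rwa [two_mul] at e
  · rw [eU]
    exact lift_shU _ _ _ _
  · rw [lift_mul _ _ _ _ _ (Or.inr p2), lift_mul _ _ _ _ _ (Or.inl p2), add_neg_cancel,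
      neg_add_cancel, ← lift_add, ← Matrix.transpose_mul, ← Matrix.transpose_mul,
      ← Matrix.transpose_add, Sp.hom, Matrix.transpose_add, Matrix.transpose_one, lift_add,
      fac_lift_one]
  · simpa only [fac_entT _ (add_neg_cancel 1), fac_entT _ (neg_add_cancel 1),
      fac_entT _ (add_zero 0)] using R.neg

end Pool.Agent.Lib.MP_5a3ebe_gt.PI
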