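import Pool.Agent.Lib.MP_5a3ebe_gt.PiPer

/-! The two sides of the kink. -/

set_option linter.unusedSectionVars false
set_option linter.unusedVariables false

namespace Pool.Agent.Lib.MP_5a3ebe_gt.PI

open Ap Classical

variable {κ Γ : Type} [Fintype κ] [DecidableEq κ] [Fintype Γ] [DecidableEq Γ] {D : Diag κ}
  {T : TC κ Γ}

/-- The values of unit data along one strand. -/
lemma ramp_unit {i0 : ℤ} {s0 : κ} {F0 : ℤ → κ → ℤ} {A0 : ℤ}
    (L : D.Lev (fun k s => if k = i0 ∧ s = s0 then 1 else 0) F0 A0) {s : κ} (hs : s ∈ D.S)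
    (i : ℤ) (h1 : D.b s ≤ i) (h2 : i ≤ D.e s) :
    F0 i s = F0 (D.b s) s + if s = s0 ∧ D.b s ≤ i0 ∧ i0 < i then 1 else 0 := by
  induction i, h1 using Int.leInduction with
  | base =>
    rw [if_neg (by omega)]
    simp
  | succ i h1 ih =>
    rw [L.step i s ⟨hs, h1, by omega⟩, ih (by omega)]
    by_cases e : s = s0
    · simp only [e, and_true, true_and]
      subst e
      split_ifs <;> omega
    · simp [e]

/-- The level difference along a lifted step. -/
lemma ramp_diff {e e1 e2 : ℤ} {y y' : Γ × ℤ}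
    (he : e1 + e2 + (if T.sl y'.1 then 1 else 0) = e + (if T.sl y.1 then 1 else 0))
    (hk : 2 * y'.2 + kap T D y'.1 = 2 * y.2 + kap T D y.1 + e) (F : ℤ → κ → ℝ) (A : ℝ) :
    (F (T.w y'.1) (T.st y'.1) + y'.2 * A) - (F (T.w y.1) (T.st y.1) + y.2 * A) =
      (F (T.w y'.1) (T.st y'.1) - if D.dir (T.st y'.1) then A / 2 else 0) -
        (F (T.w y.1) (T.st y.1) - if D.dir (T.st y.1) then A / 2 else 0) +
        e1 * (A / 2) + e2 * (A / 2) := by
  have h : 2 * y'.2 + (if D.dir (T.st y'.1) then 1 else 0) =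
      2 * y.2 + (if D.dir (T.st y.1) then 1 else 0) + e1 + e2 := by
    unfold kap at hk
    omega
  have h' : 2 * (y'.2 : ℝ) + (if D.dir (T.st y'.1) then 1 else 0) =
      2 * y.2 + (if D.dir (T.st y.1) then 1 else 0) + e1 + e2 := by exact_mod_cast h
  split_ifs at h' ⊢ <;> linear_combination (A / 2) * h'

lemma ramp_inc {G : Geo κ} {h S R : ℝ} (hh : 0 < h) (O : G.OK D h S R) {k : ℤ} {t : κ}
    (al : D.Al k t) : |G.F (k + 1) t - G.F k t| ≤ 2 * h * R := by
  have a1 := abs_le.1 (O.bdY k t ⟨al.1, al.2.1, al.2.2.le⟩)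
  have a2 := abs_le.1 (O.bdY (k + 1) t ⟨al.1, by have := al.2.1; omega, by have := al.2.2; omega⟩)
  have a3 := O.xs k
  rw [O.lev.step k t al, add_sub_cancel_left]
  unfold Geo.Δ Geo.avg
  rw [abs_neg, abs_mul]
  have b1 : |(G.Y k t + G.Y (k + 1) t) / 2| ≤ R := abs_le.2 ⟨by linarith, by linarith⟩
  have b2 : |G.x (k + 1) - G.x k| ≤ 2 * h := abs_le.2 ⟨by linarith, by linarith⟩
  calc _ ≤ R * (2 * h) := mul_le_mul b1 b2 (abs_nonneg _) ((abs_nonneg _).trans b1)
    _ = 2 * h * R := by ring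

theorem exists_side (Gd : D.Good) (C : D.Conn) (Sp : T.Spec D) {G : Bool → Geo κ}
    {h S R gb z ζ : ℝ} {i0 : ℤ} {s0 : κ} {B n : ℕ} (hh : 0 < h) (hgb : 0 ≤ gb) (hB : 1 ≤ B)
    (hz : 0 ≤ z) (hn : Fintype.card κ ≤ n) (O : ∀ σ, (G σ).OK D h S R)
    (H : ∀ σ, (G σ).Base D h gb i0 s0 B)
    (low : ∀ t, D.Al i0 t → t ≠ s0 → D.key i0 s0 < D.key i0 t)
    (nrm : (G true).F i0 s0 = (G false).F i0 s0)
    (hc : ∀ k s, D.Al k s → |(G true).Δ k s - (G false).Δ k s| ≤ z * h)
    (hζ : 100 * (n + 1) ^ 3 * R * z ≤ ζ) (cx : ∀ i, |(G true).x i - (G false).x i| ≤ ζ)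
    (cy : ∀ i, |i - i0| ≤ 4 * B → |(G true).Y i s0 - (G false).Y i s0| ≤ ζ) :
    ∃ side, Side T D G side h R ζ (gb * h * B) i0 s0 B := by
  have al0 : D.Al i0 s0 := (H true).al
  have hR : 0 ≤ R :=
    (abs_nonneg _).trans ((O true).bdY i0 s0 ⟨al0.1, al0.2.1, al0.2.2.le⟩)
  obtain ⟨F0, A0, L, hF0⟩ : ∃ (F0 : ℤ → κ → ℤ) (A0 : ℤ),
      D.Lev (fun k s => if k = i0 ∧ s = s0 then 1 else 0) F0 A0 ∧ F0 i0 s0 = 0 := by
    obtain ⟨F1, A1, L1⟩ := D.exists_lev Gd C (fun k s => if k = i0 ∧ s = s0 then (1 : ℤ) else 0)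
    refine ⟨fun i s => F1 i s - F1 i0 s0, A1, ⟨fun k s a => ?_, fun k s q a => ?_,
      fun k s q a => ?_, fun k s q a => ?_⟩, by simp⟩
    · rw [L1.step k s a]; ring
    · rw [L1.pass k s q a]
    · rw [L1.cup k s q a]; ring
    · rw [L1.cap k s q a]; ring
  have cut : ∀ σ, Cut D ((G σ).lam D) (i0 - 4 * B) (i0 + 4 * B) (fun s => s = s0) (gb * h) :=
    fun σ => (H σ).cut Gd hh (O σ) fun s t _ ht e ne => by
      subst e
      exact low t ht ne
  have hμ : 0 ≤ gb * h := mul_nonneg hgb hh.le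
  have adm : ∀ σ, D.Adm ((G σ).lam D) ((G σ).A / 2) := fun σ => (O σ).adm Gd hh
  have box := fun σ Bx hBx => (cut σ).box Gd hμ (adm σ) (j0 := i0) (by omega) (by omega)
    (F0 := F0) (A0 := A0) (by convert L) Bx hBx
  have admU := (box true ∅ (by simp)).1
  have hA0 : A0 = 1 := by
    rcases unit_period Gd al0 L with e | e
    · exact e
    · obtain ⟨g, -⟩ := Sp.slE i0 s0 al0
      have := Sp.nonneg g (admU i0 (by omega) (by omega))
      rw [e] at this
      norm_num at this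
  subst hA0
  have base0 : ∀ i, D.Touch i s0 → F0 i s0 = if i0 < i then 1 else 0 := by
    intro i ht
    have e1 := ramp_unit L al0.1 i ht.2.1 ht.2.2
    have e2 := ramp_unit L al0.1 i0 al0.2.1 al0.2.2.le
    have := al0.2.1
    simp only [true_and] at e1 e2
    split_ifs at e1 e2 ⊢ <;> omega
  have bdF : ∀ i s, D.Touch i s → |F0 i s| ≤ 2 * ((n : ℤ) + 1) ^ 2 := by
    have LR : D.Lev (fun k s => ((if k = i0 ∧ s = s0 then 1 else 0 : ℤ) : ℝ))
        (fun i s => (F0 i s : ℝ)) ((1 : ℤ) : ℝ) := by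
      refine ⟨fun k s a => ?_, fun k s q a => ?_, fun k s q a => ?_, fun k s q a => ?_⟩
      · rw [L.step k s a]; push_cast; rfl
      · rw [L.pass k s q a]
      · rw [L.cup k s q a]; push_cast; rfl
      · rw [L.cap k s q a]; push_cast; rfl
    have := (lev_bound Gd C LR (t := 1) (fun i i' s a a' => by
      have e1 := ramp_unit L a.1 i a.2.1 a.2.2
      have e2 := ramp_unit L a.1 i' a'.2.1 a'.2.2
      have : |F0 i s - F0 i' s| ≤ 1 := by
        rw [abs_le]
        split_ifs at e1 e2 <;> omega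
      exact_mod_cast this) al0 hn).2
    intro i s a
    have := this i s a
    rw [hF0] at this
    have e : |(F0 i s : ℝ)| ≤ 2 * ((n : ℝ) + 1) ^ 2 := by
      simp only [Int.cast_zero, sub_zero] at this
      linarith
    exact_mod_cast e
  refine ⟨fun y => decide (0 < F0 (T.w y.1) (T.st y.1) + y.2), fun y hs hw => ?_,
    fun e y y' he st ne => ?_, fun y y' σ hm => ?_, nrm, cx, cy⟩
  · have t := Sp.touch y.1
    rw [hs] at t
    rw [hs, base0 _ t]
    refine decide_eq_decide.2 ?_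
    split_ifs <;> omega
  · have ne' : ¬ (0 < F0 (T.w y.1) (T.st y.1) + y.2 ↔ 0 < F0 (T.w y'.1) (T.st y'.1) + y'.2) :=
      fun q => ne (by rw [decide_eq_decide.2 q])
    obtain ⟨⟨t, e1, e2, hee, l1, l2, p⟩, hk⟩ := st
    have inc : ∀ σ, (G σ).F (T.w y'.1) t - (G σ).F (T.w y.1) t ≤ 2 * h * R := by
      intro σ
      rcases p with p | ⟨p, a⟩ | ⟨p, a⟩
      · rw [p, sub_self]; positivity
      · rw [p]; exact (abs_le.1 (ramp_inc hh (O σ) a)).2
      · rw [p]; linarith [(abs_le.1 (ramp_inc hh (O σ) a)).1]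
    have dif : ∀ σ, lev T (G σ) y' - lev T (G σ) y =
        (G σ).lam D (T.w y'.1) (T.st y'.1) - (G σ).lam D (T.w y.1) (T.st y.1) +
          e1 * ((G σ).A / 2) + e2 * ((G σ).A / 2) := fun σ => ramp_diff hee hk _ _
    have lamt : ∀ σ, (G σ).lam D (T.w y'.1) t - (G σ).lam D (T.w y.1) t =
        (G σ).F (T.w y'.1) t - (G σ).F (T.w y.1) t := fun σ => by
      unfold Geo.lam; ring
    -- the integer defect
    set β : ℤ → ℤ := fun j =>
      (Diag.uF F0 (fun s => s = s0) i0 j (T.w y'.1) (T.st y'.1) + y'.2) -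
        (Diag.uF F0 (fun s => s = s0) i0 j (T.w y.1) (T.st y.1) + y.2) -
        (Diag.uF F0 (fun s => s = s0) i0 j (T.w y'.1) t -
          Diag.uF F0 (fun s => s = s0) i0 j (T.w y.1) t) with hβ
    have βr : ∀ j, (β j : ℝ) =
        (D.uL F0 1 (fun s => s = s0) i0 j (T.w y'.1) (T.st y'.1) + e2 * (((1 : ℤ) : ℝ) / 2) -
          D.uL F0 1 (fun s => s = s0) i0 j (T.w y'.1) t) +
        (D.uL F0 1 (fun s => s = s0) i0 j (T.w y.1) t + e1 * (((1 : ℤ) : ℝ) / 2) -
          D.uL F0 1 (fun s => s = s0) i0 j (T.w y.1) (T.st y.1)) := by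
      intro j
      have := ramp_diff hee hk
        (fun i s => (Diag.uF F0 (fun s => s = s0) i0 j i s : ℝ)) ((1 : ℤ) : ℝ)
      simp only [hβ, Diag.uL]
      push_cast at this ⊢
      linarith
    have β0 : ∀ j, i0 - 4 * B ≤ j → j < i0 + 4 * B → β j ≤ 0 := by
      intro j a0 a1
      have b1 := l1 _ _ (admU j a0 a1)
      have b2 := l2 _ _ (admU j a0 a1)
      have : (β j : ℝ) ≤ 0 := by rw [βr]; linarith
      exact_mod_cast this
    have drop : ∀ u : ℤ, i0 - 4 * B ≤ u → u + B ≤ i0 + 4 * B →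
        (∀ j, u ≤ j → j < u + B → β j ≤ -1) →
        ∀ σ, lev T (G σ) y' - lev T (G σ) y ≤ 2 * h * R - gb * h * B := by
      intro u u0 u1 hj σ
      have ad := (box σ (Finset.Ico u (u + B)) fun j hj => by
        have := Finset.mem_Ico.1 hj; omega).2
      have b1 := l1 _ _ ad
      have b2 := l2 _ _ ad
      have sm : ∑ j ∈ Finset.Ico u (u + B), (β j : ℝ) ≤ ∑ j ∈ Finset.Ico u (u + B), (-1 : ℝ) :=
        Finset.sum_le_sum fun j hj' => by
          exact_mod_cast hj j (Finset.mem_Ico.1 hj').1 (Finset.mem_Ico.1 hj').2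
      simp only [βr, Finset.sum_add_distrib, Finset.sum_sub_distrib, Finset.sum_const,
        Int.card_Ico, add_sub_cancel_left, Int.toNat_natCast, nsmul_eq_mul] at sm b1 b2
      rw [dif]
      have := lamt σ
      have := inc σ
      have := mul_le_mul_of_nonneg_left sm hμ
      nlinarith
    have tF : F0 (T.w y'.1) t = F0 (T.w y.1) t ∨ (t = s0 ∧
        ((T.w y.1 = i0 ∧ T.w y'.1 = i0 + 1) ∨ (T.w y.1 = i0 + 1 ∧ T.w y'.1 = i0))) := by
      rcases p with p | ⟨p, a⟩ | ⟨p, a⟩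
      · left; rw [p]
      · have := L.step _ _ a
        rw [← p] at this
        split_ifs at this with q
        · exact Or.inr ⟨q.2, Or.inl ⟨q.1, by omega⟩⟩
        · left; omega
      · have := L.step _ _ a
        rw [← p] at this
        split_ifs at this with q
        · exact Or.inr ⟨q.2, Or.inr ⟨by omega, q.1⟩⟩
        · left; omega
    have pw : T.w y'.1 = T.w y.1 ∨ T.w y'.1 = T.w y.1 + 1 ∨ T.w y.1 = T.w y'.1 + 1 := by
      rcases p with p | ⟨p, a⟩ | ⟨p, a⟩ <;> simp [p]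
    have βi : β i0 = (F0 (T.w y'.1) (T.st y'.1) + y'.2) - (F0 (T.w y.1) (T.st y.1) + y.2) -
        (F0 (T.w y'.1) t - F0 (T.w y.1) t) := by
      simp [hβ, Diag.uF]
    have βn := β0 i0 (by omega) (by omega)
    by_cases c1 : i0 < T.w y.1 ∧ i0 < T.w y'.1
    · left
      refine drop (i0 + 1 - B) (by omega) (by omega) fun j a0 a1 => ?_
      have : β j = β i0 := by
        have q1 : j < T.w y.1 := by omega
        have q2 : j < T.w y'.1 := by omega
        simp [hβ, Diag.uF, q1, q2, c1.1, c1.2]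
      omega
    by_cases c2 : T.w y.1 ≤ i0 ∧ T.w y'.1 ≤ i0
    · left
      refine drop i0 (by omega) (by omega) fun j a0 a1 => ?_
      have : β j = β i0 := by
        have q1 : ¬ j < T.w y.1 := by omega
        have q2 : ¬ j < T.w y'.1 := by omega
        have q3 : ¬ i0 < T.w y.1 := by omega
        have q4 : ¬ i0 < T.w y'.1 := by omega
        simp [hβ, Diag.uF, q1, q2, q3, q4]
      omega
    have c3 : (T.w y.1 = i0 ∧ T.w y'.1 = i0 + 1) ∨ (T.w y.1 = i0 + 1 ∧ T.w y'.1 = i0) := by omega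
    by_cases d1 : T.st y.1 = s0 ↔ t = s0
    swap
    · left
      intro σ
      have b1 := (cut σ).le_drop Gd C hμ (adm σ) B (by omega) (by omega) l1 d1
      have b2 := l2 _ _ (adm σ)
      rw [dif]
      linarith [lamt σ, inc σ]
    by_cases d2 : t = s0 ↔ T.st y'.1 = s0
    swap
    · left
      intro σ
      have b1 := l1 _ _ (adm σ)
      have b2 := (cut σ).le_drop Gd C hμ (adm σ) B (by omega) (by omega) l2 d2
      rw [dif]
      linarith [lamt σ, inc σ]
    have βc : ∀ j, β j = β i0 := by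
      intro j
      by_cases d : t = s0
      · simp only [hβ, Diag.uF, d1.2 d, d2.1 d, d, if_true]
        ring
      · have d3 : ¬ T.st y.1 = s0 := fun q => d (d1.1 q)
        have d4 : ¬ T.st y'.1 = s0 := fun q => d (d2.2 q)
        simp only [hβ, Diag.uF, d, d3, d4, if_false]
    by_cases d5 : β i0 ≤ -1
    · left
      exact drop i0 (by omega) (by omega) fun j _ _ => by rw [βc]; exact d5
    right
    have d : t = s0 := by
      rcases tF with q | q
      · omega
      · exact q.1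
    have t1 := Sp.touch y.1
    have t2 := Sp.touch y'.1
    rw [d1.2 d] at t1
    rw [d2.1 d] at t2
    have f1 := base0 _ t1
    have f2 := base0 _ t2
    rw [d1.2 d, d2.1 d, d] at βi
    rw [d1.2 d, d2.1 d] at ne'
    refine ⟨d1.2 d, d2.1 d, ?_, ?_, c3⟩
    · split_ifs at f1 f2 <;> omega
    · split_ifs at f1 f2 <;> omega
  · obtain ⟨gA, gF⟩ := geo_close Gd C hh (O true) (O false) hz hc al0 hn
    have hRz : 0 ≤ R * z := mul_nonneg hR hz
    have hn0 : (0 : ℝ) ≤ n := Nat.cast_nonneg n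
    have gF' : ∀ y : Γ × ℤ, |(G true).F (T.w y.1) (T.st y.1) - (G false).F (T.w y.1) (T.st y.1)| ≤
        (n + 1) ^ 2 * (8 * R * z) := fun y => by
      have := gF _ _ (Sp.touch y.1)
      rwa [nrm, sub_self, sub_zero] at this
    have p2 : ((n : ℝ) + 1) ^ 2 ≤ (n + 1) ^ 3 := by nlinarith [sq_nonneg ((n : ℝ) + 1)]
    have p1 : (n : ℝ) ≤ (n + 1) ^ 3 := by nlinarith [sq_nonneg ((n : ℝ) + 1)]
    have p3 : ((n : ℝ) + 1) ^ 2 * n ≤ (n + 1) ^ 3 := by nlinarith [sq_nonneg ((n : ℝ) + 1)]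
    have one : ∀ y : Γ × ℤ, |y.2| ≤ 2 * ((n : ℤ) + 1) ^ 2 + 1 →
        |lev T (G true) y - lev T (G false) y| ≤ ζ := by
      intro y hy
      have hy' : |(y.2 : ℝ)| ≤ 2 * ((n : ℝ) + 1) ^ 2 + 1 := by exact_mod_cast hy
      have e : lev T (G true) y - lev T (G false) y =
          ((G true).F (T.w y.1) (T.st y.1) - (G false).F (T.w y.1) (T.st y.1)) +
            y.2 * ((G true).A - (G false).A) := by
        unfold lev; ring
      rw [e]
      refine (abs_add_le _ _).trans ?_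
      rw [abs_mul]
      have q := mul_le_mul hy' gA (abs_nonneg _) (by positivity)
      have := gF' y
      have := mul_le_mul_of_nonneg_right p1 hRz
      have := mul_le_mul_of_nonneg_right p2 hRz
      have := mul_le_mul_of_nonneg_right p3 hRz
      have : 0 ≤ ((n : ℝ) + 1) ^ 3 * (R * z) := by positivity
      nlinarith
    have two : |(lev T (G true) y' - lev T (G false) y') -
        (lev T (G true) y - lev T (G false) y)| ≤ ζ := by
      have hm' : |((y'.2 : ℝ) - y.2)| ≤ 1 := by exact_mod_cast hm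
      have e : (lev T (G true) y' - lev T (G false) y') - (lev T (G true) y - lev T (G false) y) =
          (((G true).F (T.w y'.1) (T.st y'.1) - (G false).F (T.w y'.1) (T.st y'.1)) -
          ((G true).F (T.w y.1) (T.st y.1) - (G false).F (T.w y.1) (T.st y.1))) +
            ((y'.2 : ℝ) - y.2) * ((G true).A - (G false).A) := by
        unfold lev; ring
      rw [e]
      refine (abs_add_le _ _).trans ?_
      rw [abs_mul]
      have q := mul_le_mul hm' gA (abs_nonneg _) (by positivity)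
      have := gF' y
      have := gF' y'
      have := abs_sub ((G true).F (T.w y'.1) (T.st y'.1) - (G false).F (T.w y'.1) (T.st y'.1))
        ((G true).F (T.w y.1) (T.st y.1) - (G false).F (T.w y.1) (T.st y.1))
      have := mul_le_mul_of_nonneg_right p1 hRz
      have := mul_le_mul_of_nonneg_right p2 hRz
      have : 0 ≤ ((n : ℝ) + 1) ^ 3 * (R * z) := by positivity
      nlinarith
    have hζ0 : 0 ≤ ζ := (abs_nonneg _).trans two
    have b1 := abs_le.1 (bdF _ _ (Sp.touch y.1))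
    have b2 := abs_le.1 (bdF _ _ (Sp.touch y'.1))
    have b3 := abs_le.1 hm
    have t2 := abs_le.1 two
    by_cases q1 : 0 < F0 (T.w y.1) (T.st y.1) + y.2 <;>
      by_cases q2 : 0 < F0 (T.w y'.1) (T.st y'.1) + y'.2 <;>
      simp only [q1, q2, decide_true, decide_false]
    · cases σ <;> rw [abs_le] <;> constructor <;> linarith
    · have o1 := abs_le.1 (one y (abs_le.2 ⟨by linarith, by linarith⟩))
      have o2 := abs_le.1 (one y' (abs_le.2 ⟨by linarith, by linarith⟩))
      cases σ <;> rw [abs_le] <;> constructor <;> linarith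
    · have o1 := abs_le.1 (one y (abs_le.2 ⟨by linarith, by linarith⟩))
      have o2 := abs_le.1 (one y' (abs_le.2 ⟨by linarith, by linarith⟩))
      cases σ <;> rw [abs_le] <;> constructor <;> linarith
    · cases σ <;> rw [abs_le] <;> constructor <;> linarith

theorem side_const {G : Bool → Geo κ} (hG : G true = G false) (h R cm : ℝ) (i0 : ℤ) (s0 : κ)
    (B : ℕ) : ∃ side, Side T D G side h R 0 cm i0 s0 B := by
  have e : ∀ b, G b = G true := fun b => by
    cases b
    · exact hG.symm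
    · rfl
  refine ⟨fun y => decide (0 < y.2 ∨ (y.2 = 0 ∧ i0 < T.w y.1)), fun y _ _ => rfl,
    fun _ y y' _ _ ne => absurd ((e _).trans (e _).symm) ne, fun y y' σ _ => ?_, by rw [hG],
    fun i => by simp [hG], fun i _ => by simp [hG]⟩
  rw [e σ, e (decide (0 < y.2 ∨ (y.2 = 0 ∧ i0 < T.w y.1))),
    e (decide (0 < y'.2 ∨ (y'.2 = 0 ∧ i0 < T.w y'.1)))]
  simp

end Pool.Agent.Lib.MP_5a3ebe_gt.PI
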