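import Pool.Agent.Lib.MP_5a3ebe_gt.PiZone
import Pool.Agent.Lib.MP_5a3ebe_gt.PiRamp
import Pool.Agent.Lib.MP_5a3ebe_gt.PiFac
import Pool.Agent.Lib.MP_5a3ebe_gt.PiBox

/-! Signed factors and the quadratic part of the level. -/

set_option linter.unusedSectionVars false
set_option linter.unusedVariables false

namespace Pool.Agent.Lib.MP_5a3ebe_gt.PI

open Ap Classical

lemma MD.mono_e {T : Type} {C : Cx T} {m r R Θ c e e' K p ξ} (H : MD C m r R Θ c e K p ξ)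
    (h : e ≤ e') : MD C m r R Θ c e' K p ξ :=
  ⟨fun s t a b => ⟨by linarith [(H.k1 s t a b).1], (H.k1 s t a b).2⟩, H.k2,
    fun t a => ⟨(H.p1 t a).1, (H.p1 t a).2.1, by linarith [(H.p1 t a).2.2]⟩, H.p2, H.x1,
    fun s a b => by linarith [H.x2 s a b], H.x3, H.x4, fun t a b => by linarith [H.x5 t a b]⟩

section pack

variable {κ Γ : Type} [Fintype κ] [DecidableEq κ] [Fintype Γ] [DecidableEq Γ] {D : Diag κ}
  {T : TC κ Γ}

/-- What a diagram with a signed weight contributes to the product. -/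
structure Pack (T : TC κ Γ) (G : Bool → Geo κ) (side : Γ × ℤ → Bool) (P : Prm) (ω rz ζ : ℝ)
    (i0 : ℤ) (s0 : κ) (B n : ℕ) (S : RD (Γ × ℤ)) (d : En (Γ × ℤ)) (h ρ : Bool → En (Γ × ℤ))
    (U : Γ × ℤ ≃ Γ × ℤ) (φ : Γ × ℤ → ℕ) (π : Γ × ℤ → F2) (v : Bool → Γ × ℤ → ℤ)
    (b : ℤ → ℤ → Γ × ℤ) (u : ℤ) (π0 : F2) : Prop where
  fac : S.Fac P d h ρ U φ (2 * n + 1) π v (|ω| * ((G true).A - ζ) - P.RK * ζ)
  box : S.Box P (Ent d) U π b (2 * B) (decide (0 < ω)) u π0 i0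
  w : ∀ y, S.w y = T.w y.1
  X : ∀ y, S.X y = (G (side y)).x (T.w y.1)
  Λ : ∀ y, S.Λ y = ω * lev T (G (side y)) y
  lo : ∀ y, S.sl true y = ω * (G (side y)).Y (T.w y.1) (T.st y.1) -
    |ω| * (rz + if Kink T i0 s0 P.M y then ζ else 0)
  hi : ∀ y, S.sl false y = ω * (G (side y)).Y (T.w y.1) (T.st y.1) +
    |ω| * (rz + if Kink T i0 s0 P.M y then ζ else 0)
  uω : ω * u = -|ω|
  st : ∀ a m : ℤ, |a| ≤ (2 * B : ℕ) → T.st (b a m).1 = s0 ∧ (b a m).2 = m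
  sur : ∀ y : Γ × ℤ, T.st y.1 = s0 → |T.w y.1 - i0| + 1 ≤ B →
    ∃ a : ℤ, |a| ≤ (2 * B : ℕ) ∧ y = b a y.2

theorem FacH.pack {G : Bool → Geo κ} {side b1 b2 P ω rz ζ S R gb μ cm i0 s0 B}
    (H : FacH T D G side b1 b2 P |ω| rz ζ S R gb μ cm i0 s0 B) {n : ℕ}
    (hn : Fintype.card κ ≤ n) :
    ∃ S d h ρ U φ π v b u π0, Pack T G side P ω rz ζ i0 s0 B n S d h ρ U φ π v b u π0 := by
  obtain ⟨φ, v, R⟩ := H.rel hn
  obtain ⟨b, bx, bs, bu⟩ := H.box
  obtain ⟨f1, f2⟩ := fac_of_rel H.spec R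
  have e1 : Ent (lift (kap T D) (-1) T.d) = LEnt (kap T D) (-1) T.d := by
    funext y y'
    exact propext (ent_lift _ _ _ _ _)
  have e2 : Ent (lift (kap T D) 1 T.d.transpose) = fun y y' => LEnt (kap T D) (-1) T.d y' y := by
    funext y y'
    rw [ent_lift]
    simp only [LEnt, Matrix.transpose_apply]
    exact propext ⟨fun a => ⟨a.1, by omega⟩, fun a => ⟨a.1, by omega⟩⟩
  by_cases hω : 0 < ω
  · have ea : |ω| = ω := abs_of_pos hω
    refine ⟨_, _, _, _, _, _, _, _, b, -1, (if D.dir s0 then 1 else 0), f1, ?_, fun _ => rfl,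
      fun _ => rfl, fun y => ?_,
      fun y => ?_, fun y => ?_, by rw [ea]; push_cast; ring, bs, bu⟩
    · rw [e1, decide_eq_true hω]
      exact bx
    · simp only [facRD, ea]
    · simp only [facRD, ea, if_true]
      ring
    · simp only [facRD, ea, Bool.false_eq_true, if_false]
      ring
  · have ea : |ω| = -ω := abs_of_nonpos (not_lt.1 hω)
    refine ⟨_, _, _, _, _, _, _, _, b, - -1, (if D.dir s0 then 1 else 0), f2, ?_, fun _ => rfl,
      fun _ => rfl, fun y => ?_,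
      fun y => ?_, fun y => ?_, by rw [ea]; push_cast; ring, bs, bu⟩
    · rw [e2, decide_eq_false hω]
      exact bx.neg
    · simp only [facRD, RD.neg, ea]
      ring
    · simp only [facRD, RD.neg, ea, Bool.not_true, Bool.false_eq_true, if_false]
      ring
    · simp only [facRD, RD.neg, ea, Bool.not_false, if_true]
      ring

end pack

section quad

variable {ι : Type} [Fintype ι] [DecidableEq ι]

noncomputable def Qf (Sm : Matrix ι ι ℝ) (E xs x : ι → ℝ) : ℝ :=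
  (x ⬝ᵥ Sm.mulVec x + ∑ i, E i * (x i - xs i) ^ 2) / 2

noncomputable def grf (Sm : Matrix ι ι ℝ) (E xs : ι → ℝ) (i : ι) (x : ι → ℝ) : ℝ :=
  Sm.mulVec x i + E i * (x i - xs i)

lemma symm_dot {Sm : Matrix ι ι ℝ} (hS : Sm.IsSymm) (x y : ι → ℝ) :
    x ⬝ᵥ Sm.mulVec y = y ⬝ᵥ Sm.mulVec x := by
  rw [Matrix.dotProduct_mulVec, ← Matrix.mulVec_transpose, hS.eq, dotProduct_comm]

lemma Qf_add {Sm : Matrix ι ι ℝ} (hS : Sm.IsSymm) (E xs x u : ι → ℝ) :
    Qf Sm E xs (x + u) = Qf Sm E xs x + ∑ i, grf Sm E xs i x * u i +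
      (u ⬝ᵥ Sm.mulVec u + ∑ i, E i * u i ^ 2) / 2 := by
  have e1 : (x + u) ⬝ᵥ Sm.mulVec (x + u) =
      x ⬝ᵥ Sm.mulVec x + 2 * (u ⬝ᵥ Sm.mulVec x) + u ⬝ᵥ Sm.mulVec u := by
    rw [Matrix.mulVec_add, add_dotProduct, dotProduct_add, dotProduct_add, symm_dot hS x u]
    ring
  have e2 : ∑ i, E i * ((x + u) i - xs i) ^ 2 = ∑ i, E i * (x i - xs i) ^ 2 +
      2 * ∑ i, E i * (x i - xs i) * u i + ∑ i, E i * u i ^ 2 := by
    rw [Finset.mul_sum, ← Finset.sum_add_distrib, ← Finset.sum_add_distrib]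
    refine Finset.sum_congr rfl fun i _ => ?_
    simp only [Pi.add_apply]
    ring
  have e3 : ∑ i, grf Sm E xs i x * u i = u ⬝ᵥ Sm.mulVec x + ∑ i, E i * (x i - xs i) * u i := by
    rw [dotProduct, ← Finset.sum_add_distrib]
    refine Finset.sum_congr rfl fun i _ => ?_
    simp only [grf]
    ring
  rw [Qf, Qf, e1, e2, e3]
  ring

lemma mulVec_le {Sm : Matrix ι ι ℝ} {Lip : ℝ} (hL : ∑ i, ∑ k, |Sm i k| + 1 ≤ Lip) {x : ι → ℝ}
    {s : ℝ} (hx : ∀ l, |x l| ≤ s) (i : ι) : |Sm.mulVec x i| ≤ (Lip - 1) * s := by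
  have s0 : 0 ≤ s := (abs_nonneg _).trans (hx i)
  have h1 : |Sm.mulVec x i| ≤ (∑ k, |Sm i k|) * s := by
    rw [Matrix.mulVec, dotProduct, Finset.sum_mul]
    refine (Finset.abs_sum_le_sum_abs _ _).trans (Finset.sum_le_sum fun k _ => ?_)
    rw [abs_mul]
    exact mul_le_mul_of_nonneg_left (hx k) (abs_nonneg _)
  have h2 : ∑ k, |Sm i k| ≤ ∑ i, ∑ k, |Sm i k| :=
    Finset.single_le_sum (f := fun i => ∑ k, |Sm i k|)
      (fun i _ => Finset.sum_nonneg fun k _ => abs_nonneg _) (Finset.mem_univ i)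
  exact h1.trans (mul_le_mul_of_nonneg_right (by linarith) s0)

lemma entry_le {Sm : Matrix ι ι ℝ} {Lip : ℝ} (hL : ∑ i, ∑ k, |Sm i k| + 1 ≤ Lip) (i k : ι) :
    |Sm i k| ≤ Lip - 1 := by
  have h1 : |Sm i k| ≤ ∑ k, |Sm i k| :=
    Finset.single_le_sum (f := fun k => |Sm i k|) (fun k _ => abs_nonneg _) (Finset.mem_univ k)
  have h2 : ∑ k, |Sm i k| ≤ ∑ i, ∑ k, |Sm i k| :=
    Finset.single_le_sum (f := fun i => ∑ k, |Sm i k|)
      (fun i _ => Finset.sum_nonneg fun k _ => abs_nonneg _) (Finset.mem_univ i)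
  linarith

lemma Qf_upd {Sm : Matrix ι ι ℝ} (hS : Sm.IsSymm) {Lip : ℝ}
    (hL : ∑ i, ∑ k, |Sm i k| + 1 ≤ Lip) {E : ι → ℝ} (hE : ∀ i, |E i| ≤ 1) (xs x : ι → ℝ) (i : ι)
    (u : ℝ) : Qf Sm E xs (Function.update x i u) ≤
      Qf Sm E xs x + grf Sm E xs i x * (u - x i) + Lip * (u - x i) ^ 2 := by
  have e : Function.update x i u = x + Pi.single i (u - x i) := by
    funext l
    by_cases h : l = i
    · subst h; simp
    · simp [h]
  have e1 : ∑ l, grf Sm E xs l x * (Pi.single i (u - x i) : ι → ℝ) l =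
      grf Sm E xs i x * (u - x i) := by
    rw [Finset.sum_eq_single i]
    · simp
    · intro l _ h; simp [h]
    · simp
  have e2 : ∑ l, E l * (Pi.single i (u - x i) : ι → ℝ) l ^ 2 = E i * (u - x i) ^ 2 := by
    rw [Finset.sum_eq_single i]
    · simp
    · intro l _ h; simp [h]
    · simp
  have e3 : (Pi.single i (u - x i) : ι → ℝ) ⬝ᵥ Sm.mulVec (Pi.single i (u - x i)) =
      Sm i i * (u - x i) ^ 2 := by
    rw [single_dotProduct, Matrix.mulVec_single]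
    simp
    ring
  rw [e, Qf_add hS, e1, e2, e3]
  have a1 := abs_le.1 (entry_le hL i i)
  have a2 := abs_le.1 (hE i)
  have a3 := sq_nonneg (u - x i)
  nlinarith

lemma grf_lip {Sm : Matrix ι ι ℝ} {Lip : ℝ} (hL : ∑ i, ∑ k, |Sm i k| + 1 ≤ Lip) {E : ι → ℝ}
    (hE : ∀ i, |E i| ≤ 1) (xs : ι → ℝ) (i : ι) (x x' : ι → ℝ) (s : ℝ)
    (h : ∀ l, |x l - x' l| ≤ s) : |grf Sm E xs i x - grf Sm E xs i x'| ≤ Lip * s := by
  have a1 := mulVec_le hL (x := x - x') h i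
  rw [Matrix.mulVec_sub, Pi.sub_apply] at a1
  have a2 : |E i * (x i - x' i)| ≤ 1 * s := by
    rw [abs_mul]
    exact mul_le_mul (hE i) (h i) (abs_nonneg _) zero_le_one
  have e : grf Sm E xs i x - grf Sm E xs i x' =
      (Sm.mulVec x i - Sm.mulVec x' i) + E i * (x i - x' i) := by
    simp only [grf]; ring
  rw [e]
  linarith [abs_add_le (Sm.mulVec x i - Sm.mulVec x' i) (E i * (x i - x' i))]

lemma Qf_upd_le {Sm : Matrix ι ι ℝ} (hS : Sm.IsSymm) {Lip R : ℝ}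
    (hL : ∑ i, ∑ k, |Sm i k| + 1 ≤ Lip) {E : ι → ℝ} (hE : ∀ i, |E i| ≤ 1) {xs x : ι → ℝ}
    (hxs : ∀ i, |xs i| ≤ R) (hx : ∀ i, |x i| ≤ R) (i : ι) {u : ℝ} (hu : |u| ≤ R) :
    Qf Sm E xs (Function.update x i u) ≤ Qf Sm E xs x + 4 * Lip * R * |u - x i| := by
  have a0 := Qf_upd hS hL hE xs x i u
  have R0 : 0 ≤ R := (abs_nonneg _).trans hu
  have L1 : 1 ≤ Lip := by linarith [abs_nonneg (Sm i i), entry_le hL i i]
  have a1 := mulVec_le hL hx i
  have a2 : |E i * (x i - xs i)| ≤ 1 * (2 * R) := by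
    rw [abs_mul]
    refine mul_le_mul (hE i) ?_ (abs_nonneg _) zero_le_one
    linarith [abs_sub (x i) (xs i), hx i, hxs i]
  have a3 : |grf Sm E xs i x| ≤ 2 * Lip * R := by
    have := abs_add_le (Sm.mulVec x i) (E i * (x i - xs i))
    simp only [grf]
    nlinarith
  have a4 : |u - x i| ≤ 2 * R := by linarith [abs_sub u (x i), hx i]
  have a5 : grf Sm E xs i x * (u - x i) ≤ 2 * Lip * R * |u - x i| := by
    refine (le_abs_self _).trans ?_
    rw [abs_mul]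
    exact mul_le_mul_of_nonneg_right a3 (abs_nonneg _)
  have a6 : Lip * (u - x i) ^ 2 ≤ 2 * Lip * R * |u - x i| := by
    rw [← sq_abs]
    have := mul_le_mul_of_nonneg_right a4 (abs_nonneg (u - x i))
    nlinarith
  linarith

end quad

lemma small_ev (C B : ℝ) (hB : 0 < B) : ∀ᶠ h in nhds (0 : ℝ), C * h ≤ B := by
  have : Filter.Tendsto (fun h : ℝ => C * h) (nhds 0) (nhds (C * 0)) :=
    (continuous_const.mul continuous_id).tendsto 0
  exact this.eventually (eventually_le_nhds (by simpa using hB))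

lemma ev_pos {p : ℝ → Prop} (h : ∀ᶠ x in nhds (0 : ℝ), p x) :
    ∃ x0 : ℝ, 0 < x0 ∧ ∀ x, 0 < x → x ≤ x0 → p x := by
  obtain ⟨d, d0, hd⟩ := Metric.eventually_nhds_iff.1 h
  exact ⟨d / 2, by positivity, fun x a b => hd (by
    rw [Real.dist_eq, sub_zero, abs_of_pos a]; linarith)⟩

end Pool.Agent.Lib.MP_5a3ebe_gt.PI
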