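import Pool.Agent.Lib.MP_5a3ebe_gt.PiCoreA

/-! The level on the boxes, and the classification of generators. -/

set_option linter.unusedSectionVars false
set_option linter.unusedVariables false

namespace Pool.Agent.Lib.MP_5a3ebe_gt.PI

open Ap Classical

variable {ι : Type} [Fintype ι] [DecidableEq ι] {κ : Type} [Fintype κ] [DecidableEq κ]
  {Γ : ι → Type}

/-- The model function near a critical point. -/
noncomputable def Ff (j : ι) (H : Matrix ι ι ℝ) (E : ι → ℝ) (μ κ' : ℝ) (x : ι → ℝ) : ℝ :=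
  (x ⬝ᵥ H.mulVec x + ∑ i, E i * x i ^ 2) / 2 - (μ * |x j| + κ' * (x j * |x j|))

lemma pos_le {h : ℝ} (hh : 0 < h) {a : ℤ} {B : ℕ} (ha : |a| ≤ (2 * B : ℕ)) :
    |a / 2| ≤ B ∧ |h * ((a / 2 : ℤ) : ℝ)| ≤ B * h := by
  have h1 : |a / 2| ≤ B := by
    push_cast at ha
    rw [abs_le] at ha ⊢
    omega
  refine ⟨h1, ?_⟩
  have h2 : |((a / 2 : ℤ) : ℝ)| ≤ B := by exact_mod_cast h1
  rw [abs_mul, abs_of_pos hh, mul_comm]
  exact mul_le_mul_of_nonneg_right h2 hh.le

section

variable {j : ι} {ω : ι → ℝ} {Sm : Matrix ι ι ℝ} {xs ys sl : ι → ℝ} {η l0 l1 h S R ε gb : ℝ}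
  {D : ι → Diag κ} {G : ι → Bool → Geo κ} {i0 : ι → ℤ} {s0 : ι → κ} {T : ∀ i, TC κ (Γ i)}
  {side : ∀ i, Γ i × ℤ → Bool} {B : ℕ}
  (hS : Sm.IsSymm) (crit : ∀ i, Sm.mulVec xs i = ω i * ys i) (hh : 0 < h)
  (hG : ∀ i, i ≠ j → G i true = G i false)
  (hF : ∀ i σ, (G i σ).Frame (D i) h S R ε gb (xs i)
    (ys i + if i = j then (if σ then η else -η) * l0 else 0)
    (sl i + if i = j then (if σ then η else -η) * l1 else 0) (i0 i) (s0 i))
  (hB : 4 * B * h ≤ ε)

include hh hF hB in
lemma box_x (i : ι) (σ : Bool) {a : ℤ} (ha : |a| ≤ (2 * B : ℕ)) :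
    (G i σ).x (i0 i + a / 2) = xs i + pos h a ∧
    (G i σ).Y (i0 i + a / 2) (s0 i) = (ys i + if i = j then (if σ then η else -η) * l0 else 0) +
      (sl i + if i = j then (if σ then η else -η) * l1 else 0) * pos h a := by
  have p := (pos_le hh ha).2
  have B0 : 0 ≤ (B : ℝ) * h := by positivity
  have e : h * ((i0 i + a / 2 : ℤ) : ℝ) - xs i = pos h a := by
    rw [(hF i σ).x0, pos]; push_cast; ring
  have r : |h * ((i0 i + a / 2 : ℤ) : ℝ) - xs i| ≤ ε := by
    rw [e, pos]; linarith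
  refine ⟨?_, ?_⟩
  · rw [(hF i σ).xx _ r]; linarith
  · rw [(hF i σ).ht _ r, e]

include hS crit hh hG hF hB in
lemma level_eq (E : ι → ℝ) (nrm : (G j true).F (i0 j) (s0 j) = (G j false).F (i0 j) (s0 j))
    (sb : ∀ y : Γ j × ℤ, (T j).st y.1 = s0 j → |(T j).w y.1 - i0 j| ≤ 4 * B →
      side j y = decide (0 < y.2 ∨ (y.2 = 0 ∧ i0 j < (T j).w y.1)))
    (σ : ∀ i, Γ i × ℤ) (k a : ι → ℤ) (hk : k j = 0) (ha : ∀ i, |a i| ≤ (2 * B : ℕ))
    (hσ : ∀ i, (T i).st (σ i).1 = s0 i ∧ (σ i).2 = k i ∧ (T i).w (σ i).1 = i0 i + a i / 2) :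
    ∑ i, ω i * lev (T i) (G i (side i (σ i))) (σ i) + Qf Sm E xs (fun i => xs i + pos h (a i)) =
      (∑ i, ω i * ((G i true).F (i0 i) (s0 i) + k i * (G i true).A) + Qf Sm E xs xs) +
        Ff j (Sm - Matrix.diagonal fun i => ω i * sl i) E (ω j * η * l0) (ω j * η * l1 / 2)
          fun i => pos h (a i) := by
  set u : ι → ℝ := fun i => pos h (a i) with hu
  have B0 : 0 ≤ (B : ℝ) * h := by positivity
  have e1 : ∀ i, ω i * lev (T i) (G i (side i (σ i))) (σ i) =
      ω i * ((G i true).F (i0 i) (s0 i) + k i * (G i true).A) - ω i * ys i * u i -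
        ω i * sl i * u i ^ 2 / 2 -
        if i = j then ω j * η * l0 * |u j| + ω j * η * l1 / 2 * (u j * |u j|) else 0 := by
    intro i
    obtain ⟨a1, a2, a3⟩ := hσ i
    have p := pos_le hh (ha i)
    have lv := (hF i (side i (σ i))).level hh (a i / 2) (by linarith [p.2])
    have eu : h * ((a i / 2 : ℤ) : ℝ) = u i := rfl
    rw [eu] at lv
    rw [lev, a1, a2, a3, lv]
    by_cases hi : i = j
    · subst hi
      have sd := sb (σ i) a1 (by rw [a3, add_sub_cancel_left]; linarith [p.1])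
      rw [a2, hk, a3] at sd
      have nr : (G i (side i (σ i))).F (i0 i) (s0 i) = (G i true).F (i0 i) (s0 i) := by
        cases side i (σ i)
        · exact nrm.symm
        · rfl
      rw [nr, hk]
      simp only [if_true]
      by_cases hq : 0 < a i / 2
      · have : side i (σ i) = true := by rw [sd]; simp [hq]
        have u0 : 0 < u i := by
          rw [← eu]
          exact mul_pos hh (by exact_mod_cast hq)
        rw [this, abs_of_pos u0]
        simp only [if_true]
        push_cast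
        ring
      · have : side i (σ i) = false := by rw [sd]; simp [hq]
        have u0 : u i ≤ 0 := by
          rw [← eu]
          exact mul_nonpos_of_nonneg_of_nonpos hh.le (by exact_mod_cast not_lt.1 hq)
        rw [this, abs_of_nonpos u0]
        simp only [Bool.false_eq_true, if_false]
        push_cast
        ring
    · have : G i (side i (σ i)) = G i true := by
        cases side i (σ i)
        · exact (hG i hi).symm
        · rfl
      rw [this]
      simp only [hi, if_false]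
      ring
  have e2 := Qf_add hS E xs xs u
  have e3 : ∑ i, grf Sm E xs i xs * u i = ∑ i, ω i * ys i * u i :=
    Finset.sum_congr rfl fun i _ => by simp [grf, crit]
  have e4 : u ⬝ᵥ (Sm - Matrix.diagonal fun i => ω i * sl i).mulVec u =
      u ⬝ᵥ Sm.mulVec u - ∑ i, ω i * sl i * u i ^ 2 := by
    rw [Matrix.sub_mulVec, dotProduct_sub]
    congr 1
    refine Finset.sum_congr rfl fun i _ => ?_
    rw [Matrix.mulVec_diagonal]
    ring
  have e5 : (fun i => xs i + pos h (a i)) = xs + u := rfl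
  rw [e5, e2, e3, Finset.sum_congr rfl fun i _ => e1 i, Ff, e4]
  simp only [Finset.sum_sub_distrib, Finset.sum_ite_eq', Finset.mem_univ, if_true]
  rw [← Finset.sum_div]
  ring

include hS crit hh hG hF hB in
lemma dicho {E : ι → ℝ} {M : ℕ} {Lip Ω W rz ζ γ γ1 γ' εE Cq r : ℝ}
    (hL : ∑ i, ∑ k, |Sm i k| + 1 ≤ Lip) (hΩ : ∀ i, |ω i| ≤ Ω) (hE : ∀ i, |E i| ≤ εE)
    (touch : ∀ i g, (D i).Touch ((T i).w g) ((T i).st g))
    (hC : ∀ (x : ι → ℝ) (s : ℝ), 0 ≤ s → x j = 0 → (∀ i, i ≠ j →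
      |(Sm - Matrix.diagonal fun i => ω i * sl i).mulVec x i + E i * x i| ≤ s) → ‖x‖ ≤ Cq * s)
    (NC1 : ∀ (k : ι → ℤ) (s : ι → κ), (∀ i, i ≠ j → (D i).Touch (k i) (s i)) →
      (∃ i, i ≠ j ∧ ¬ (s i = s0 i ∧ |h * k i - xs i| ≤ ε / 8)) →
      ∃ i, γ1 ≤ |Sm.mulVec (fun l => if l = j then xs j else (G l true).x (k l)) i -
        ω i * if i = j then ys j else (G i true).Y (k i) (s i)|)
    (NC2 : ∀ (σ : Bool) (k : ι → ℤ) (s : ι → κ), (∀ i, (D i).Touch (k i) (s i)) →
      ∃ i, γ ≤ |Sm.mulVec (fun l => (G l σ).x (k l)) i - ω i * (G i σ).Y (k i) (s i)|)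
    (b : ∀ i, ℤ → ℤ → Γ i × ℤ)
    (bw : ∀ i (a m : ℤ), |a| ≤ (2 * B : ℕ) → (T i).w (b i a m).1 = i0 i + a / 2)
    (sur : ∀ i (y : Γ i × ℤ), (T i).st y.1 = s0 i → |(T i).w y.1 - i0 i| + 1 ≤ B →
      ∃ a : ℤ, |a| ≤ (2 * B : ℕ) ∧ y = b i a y.2)
    (η0 : 0 ≤ η) (η1 : η ≤ 1) (l00 : 0 ≤ l0) (rz0 : 0 ≤ rz) (ζ0 : 0 ≤ ζ) (γ0 : 0 < γ')
    (Cq0 : 0 < Cq) (MB : M + 2 ≤ B) (n1 : ε / 8 < B * h) (n2 : h * (M + 1) ≤ 2 * W)
    (n3 : Ω * rz ≤ γ') (n4 : εE * (2 * R) ≤ γ / 8) (n5 : εE * (2 * R) ≤ γ1 / 8)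
    (n6 : 8 * γ' ≤ γ) (n7 : 8 * γ' ≤ γ1) (n8 : Lip * (2 * W) ≤ γ')
    (n9 : Ω * ((|sl j| + |l1|) * (2 * W)) ≤ γ') (n10 : Ω * (ζ + η * l0) ≤ γ1 / 4)
    (n11 : 2 * W ≤ r / 8) (n12 : 16 * Cq * γ' ≤ r) (σ : ∀ i, Γ i × ℤ) :
    (∃ k a : ι → ℤ, k j = 0 ∧ ‖fun i => pos h (a i)‖ ≤ r / 4 ∧ σ = fun i => b i (a i) (k i)) ∨
    ∃ i, γ' + |ω i| * (rz + if Kink (T i) (i0 i) (s0 i) M (σ i) then (if i = j then ζ else 0)
      else 0) ≤ |grf Sm E xs i (fun l => (G l (side l (σ l))).x ((T l).w (σ l).1)) -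
        ω i * (G i (side i (σ i))).Y ((T i).w (σ i).1) ((T i).st (σ i).1)| := by
  set X : ι → ℝ := fun l => (G l (side l (σ l))).x ((T l).w (σ l).1) with hX
  have Ge : ∀ i, i ≠ j → ∀ s s', G i s = G i s' := fun i hi s s' => by
    cases s <;> cases s' <;> simp [hG i hi]
  have bX : ∀ l, |X l| ≤ R := fun l => (hF l _).ok.bdx _ _ (touch l _)
  have ε0 : 0 ≤ ε := le_trans (by positivity) hB
  have bxs : ∀ l, |xs l| ≤ R := fun l => by
    have f := hF l true
    have a := f.al
    have := f.ok.bdx (i0 l) (s0 l) ⟨a.1, a.2.1, a.2.2.le⟩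
    rwa [f.xx _ (by rw [← f.x0]; simpa using ε0), ← f.x0] at this
  have bE : ∀ i, |E i * (X i - xs i)| ≤ εE * (2 * R) := fun i => by
    rw [abs_mul]
    refine mul_le_mul (hE i) ?_ (abs_nonneg _) ((abs_nonneg _).trans (hE i))
    linarith [abs_sub (X i) (xs i), bX i, bxs i]
  have Ω0 : 0 ≤ Ω := (abs_nonneg _).trans (hΩ j)
  have brz : ∀ i, |ω i| * rz ≤ γ' := fun i =>
    (mul_le_mul_of_nonneg_right (hΩ i) rz0).trans n3
  have L1 : 1 ≤ Lip := by linarith [abs_nonneg (Sm j j), entry_le hL j j]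
  by_cases hK : Kink (T j) (i0 j) (s0 j) M (σ j)
  swap
  · right
    obtain ⟨i, hi⟩ := NC2 (side j (σ j)) (fun i => (T i).w (σ i).1) (fun i => (T i).st (σ i).1)
      fun i => touch i _
    have e : ∀ l, G l (side j (σ j)) = G l (side l (σ l)) := fun l => by
      by_cases hl : l = j
      · rw [hl]
      · exact Ge l hl _ _
    simp only [e] at hi
    refine ⟨i, ?_⟩
    have z : (if Kink (T i) (i0 i) (s0 i) M (σ i) then (if i = j then ζ else 0) else 0) = 0 := by
      by_cases hl : i = j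
      · subst hl; simp [hK]
      · simp [hl]
    rw [z, add_zero, grf]
    have a1 := bE i
    have a2 := brz i
    rw [abs_le] at a1
    rcases le_abs.1 hi with c | c
    · exact le_abs.2 (Or.inl (by linarith))
    · exact le_abs.2 (Or.inr (by linarith))
  obtain ⟨k1, k2, k3⟩ := hK
  have MB' : (M : ℤ) + 2 ≤ B := by exact_mod_cast MB
  obtain ⟨aj, aj1, aj2⟩ := sur j (σ j) k1 (by omega)
  have wj : (T j).w (σ j).1 = i0 j + aj / 2 := by rw [aj2]; exact bw j _ _ aj1
  have uj : |pos h aj| ≤ 2 * W := by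
    have : |aj / 2| ≤ M + 1 := by rwa [wj, add_sub_cancel_left] at k3
    have h2 : |((aj / 2 : ℤ) : ℝ)| ≤ M + 1 := by exact_mod_cast this
    rw [pos, abs_mul, abs_of_pos hh]
    exact (mul_le_mul_of_nonneg_left h2 hh.le).trans n2
  obtain ⟨xj, yj⟩ := box_x hh hF hB j (side j (σ j)) aj1
  have W0 : 0 ≤ W := by linarith [abs_nonneg (pos h aj)]
  by_cases hall : ∀ i, i ≠ j → (T i).st (σ i).1 = s0 i ∧ |(T i).w (σ i).1 - i0 i| + 1 ≤ B
  · have ex : ∀ i, ∃ a : ℤ, |a| ≤ (2 * B : ℕ) ∧ σ i = b i a (σ i).2 ∧ (i = j → a = aj) ∧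
        (T i).st (σ i).1 = s0 i := fun i => by
      by_cases hi : i = j
      · subst hi
        exact ⟨aj, aj1, aj2, fun _ => rfl, k1⟩
      · obtain ⟨a, a1, a2⟩ := sur i (σ i) (hall i hi).1 (hall i hi).2
        exact ⟨a, a1, a2, fun e => absurd e hi, (hall i hi).1⟩
    choose a a1 a2 a3 a4 using ex
    by_cases hN : ‖fun i => pos h (a i)‖ ≤ r / 4
    · exact Or.inl ⟨fun i => (σ i).2, a, k2, hN, funext a2⟩
    right
    set u : ι → ℝ := fun i => pos h (a i) with hu
    have w : ∀ i, (T i).w (σ i).1 = i0 i + a i / 2 := fun i => by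
      rw [a2 i]; exact bw i _ _ (a1 i)
    have eX : X = xs + u := funext fun i => by
      simp only [hX, w i]
      exact (box_x hh hF hB i _ (a1 i)).1
    have uj' : |u j| ≤ 2 * W := by simpa only [hu, a3 j rfl] using uj
    have r0 : 0 < r := by nlinarith
    by_contra hno
    push Not at hno
    have := hC (Function.update u j 0) (4 * γ') (by positivity) (by simp) fun i hi => by
      have c := hno i
      rw [w i, a4 i, (box_x hh hF hB i _ (a1 i)).2, eX] at c
      simp only [hi, if_false, ite_self, add_zero] at c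
      have e1 : (Sm - Matrix.diagonal fun i => ω i * sl i).mulVec (Function.update u j 0) i +
          E i * Function.update u j 0 i = (grf Sm E xs i (xs + u) - ω i * (ys i + sl i * u i)) -
            Sm.mulVec (u - Function.update u j 0) i := by
        rw [Matrix.sub_mulVec, Pi.sub_apply, Matrix.mulVec_diagonal, grf, Matrix.mulVec_add,
          Matrix.mulVec_sub, Function.update_of_ne hi]
        simp only [Pi.add_apply, Pi.sub_apply, crit]
        ring
      have e2 := mulVec_le hL (x := u - Function.update u j 0) (s := 2 * W) (fun l => by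
        by_cases hl : l = j
        · subst hl; simpa using uj'
        · simp [Function.update_of_ne hl, W0]) i
      rw [e1]
      have := abs_sub (grf Sm E xs i (xs + u) - ω i * (ys i + sl i * u i))
        (Sm.mulVec (u - Function.update u j 0) i)
      have := brz i
      change |grf Sm E xs i (xs + u) - ω i * (ys i + sl i * u i)| < _ at c
      nlinarith
    refine hN ((pi_norm_le_iff_of_nonneg (by positivity)).2 fun i => ?_)
    by_cases hi : i = j
    · subst hi
      rw [Real.norm_eq_abs]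
      linarith
    · have h1 := norm_le_pi_norm (Function.update u j 0) i
      rw [Function.update_of_ne hi] at h1
      linarith
  right
  push Not at hall
  obtain ⟨i', hi', hb⟩ := hall
  obtain ⟨i, hi⟩ := NC1 (fun i => (T i).w (σ i).1) (fun i => (T i).st (σ i).1)
    (fun i _ => touch i _) ⟨i', hi', fun c => by
      have c1 := hb c.1
      have c2 := c.2
      rw [(hF i' true).x0, ← mul_sub, abs_mul, abs_of_pos hh] at c2
      have c3 : (B : ℤ) ≤ |(T i').w (σ i').1 - i0 i'| := by omega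
      have c4 : (B : ℝ) ≤ |((T i').w (σ i').1 : ℝ) - i0 i'| := by exact_mod_cast c3
      nlinarith⟩
  refine ⟨i, ?_⟩
  set x' : ι → ℝ := fun l => if l = j then xs j else (G l true).x ((T l).w (σ l).1) with hx'
  have d1 := mulVec_le hL (x := X - x') (s := 2 * W) (fun l => by
    by_cases hl : l = j
    · subst hl
      simp only [Pi.sub_apply, hX, hx', if_true, wj, xj, add_sub_cancel_left]
      exact uj
    · simp [hX, hx', hl, Ge l hl (side l (σ l)) true, W0]) i
  rw [Matrix.mulVec_sub, Pi.sub_apply] at d1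
  have d2 : |ω i * (G i (side i (σ i))).Y ((T i).w (σ i).1) ((T i).st (σ i).1) -
      ω i * if i = j then ys j else (G i true).Y ((T i).w (σ i).1) ((T i).st (σ i).1)| ≤
      Ω * (η * l0) + γ' := by
    by_cases hl : i = j
    · subst hl
      rw [if_pos rfl, wj, k1, yj, ← mul_sub, abs_mul]
      simp only [if_true]
      have t1 : |(if side i (σ i) = true then η else -η)| = η := by
        split_ifs
        · exact abs_of_nonneg η0
        · rw [abs_neg]; exact abs_of_nonneg η0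
      have t2 : |(if side i (σ i) = true then η else -η) * l0| = η * l0 := by
        rw [abs_mul, t1, abs_of_nonneg l00]
      have t3 : |sl i + (if side i (σ i) = true then η else -η) * l1| ≤ |sl i| + |l1| := by
        refine (abs_add_le _ _).trans ?_
        rw [abs_mul, t1]
        nlinarith [abs_nonneg l1]
      have t4 : |(sl i + (if side i (σ i) = true then η else -η) * l1) * pos h aj| ≤
          (|sl i| + |l1|) * (2 * W) := by
        rw [abs_mul]
        exact mul_le_mul t3 uj (abs_nonneg _) (by positivity)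
      have t5 := abs_add_le ((if side i (σ i) = true then η else -η) * l0)
        ((sl i + (if side i (σ i) = true then η else -η) * l1) * pos h aj)
      have t6 : |ys i + (if side i (σ i) = true then η else -η) * l0 +
          (sl i + (if side i (σ i) = true then η else -η) * l1) * pos h aj - ys i| ≤
          η * l0 + (|sl i| + |l1|) * (2 * W) := by
        rw [add_assoc, add_sub_cancel_left]
        linarith
      have := mul_le_mul (hΩ i) t6 (abs_nonneg _) Ω0
      linarith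
    · rw [if_neg hl, Ge i hl (side i (σ i)) true, sub_self, abs_zero]
      positivity
  have d3 : |ω i| * (if Kink (T i) (i0 i) (s0 i) M (σ i) then (if i = j then ζ else 0) else 0) ≤
      Ω * ζ := by
    refine mul_le_mul (hΩ i) ?_ ?_ Ω0 <;> split_ifs <;> first | exact le_rfl | exact ζ0
  have a1 := bE i
  have a2 := brz i
  rw [abs_le] at a1 d1 d2
  rw [grf]
  have : (Lip - 1) * (2 * W) ≤ γ' := by nlinarith
  rcases le_abs.1 hi with c | c
  · exact le_abs.2 (Or.inl (by linarith))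
  · exact le_abs.2 (Or.inr (by linarith))

end

end Pool.Agent.Lib.MP_5a3ebe_gt.PI
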