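import Pool.Agent.Lib.MP_5a3ebe_gt.PiRel
import Pool.Agent.Lib.MP_5a3ebe_gt.PiContra

/-! The contradiction in the product complex. -/

set_option linter.unusedSectionVars false
set_option linter.unusedVariables false

namespace Pool.Agent.Lib.MP_5a3ebe_gt.PI

open Ap Classical

section aux

variable {ι : Type} [Fintype ι] [DecidableEq ι]

lemma totbox_adj (τ : ι → Bool) {h : ℝ} (h0 : 0 < h) (F : (ι → ℝ) → ℝ) {a a' : ι → ℤ}
    (H : Ent (lat τ h F).b a a') : (lat τ h F).N a' ≤ (lat τ h F).N a + h := by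
  obtain ⟨i, -, h1⟩ := ent_sum H
  obtain ⟨y, rfl, h2⟩ := ent_lft (Y := fun _ => ℤ) h1
  have h3 : y = a i + 1 ∨ y = a i - 1 := by
    unfold Ent lineδ at h2
    rw [gen_sg] at h2
    split_ifs at h2
    · exact absurd rfl h2
    · exact (F2.add_ne h2).imp (fun e => (sg_ne e).symm) fun e => (sg_ne e).symm
  have h4 : ∀ l, |pos h (a l)| ≤ (lat τ h F).N a := fun l =>
    norm_le_pi_norm (fun i => pos h (a i)) l
  have h5 : 0 ≤ (lat τ h F).N a := norm_nonneg _
  refine (pi_norm_le_iff_of_nonneg (by positivity)).2 fun l => ?_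
  by_cases hl : l = i
  · subst hl
    have h6 : |((y / 2 : ℤ) : ℝ) - ((a l / 2 : ℤ) : ℝ)| ≤ 1 := by
      have : |y / 2 - a l / 2| ≤ 1 := by rw [abs_le]; omega
      exact_mod_cast this
    have h7 : |pos h y - pos h (a l)| ≤ h := by
      unfold pos
      rw [← mul_sub, abs_mul, abs_of_pos h0]
      exact mul_le_of_le_one_right h0.le h6
    have h8 := abs_sub_abs_le_abs_sub (pos h y) (pos h (a l))
    have h9 := h4 l
    simp only [Function.update_self, Real.norm_eq_abs]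
    linarith
  · simp only [Function.update_of_ne hl, Real.norm_eq_abs]
    linarith [h4 l]

lemma totbox_N (τ : ι → Bool) {h : ℝ} (h0 : 0 < h) (F : (ι → ℝ) → ℝ) {a a' : ι → ℤ} {n : ℕ}
    (H : ∀ i, |a' i / 2 - a i / 2| ≤ n) : (lat τ h F).N a' ≤ (lat τ h F).N a + h * n := by
  have h5 : 0 ≤ (lat τ h F).N a := norm_nonneg _
  refine (pi_norm_le_iff_of_nonneg (by positivity)).2 fun l => ?_
  have h4 : |pos h (a l)| ≤ (lat τ h F).N a := norm_le_pi_norm (fun i => pos h (a i)) l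
  have h6 : |((a' l / 2 : ℤ) : ℝ) - ((a l / 2 : ℤ) : ℝ)| ≤ n := by exact_mod_cast H l
  have h7 : |pos h (a' l) - pos h (a l)| ≤ h * n := by
    unfold pos
    rw [← mul_sub, abs_mul, abs_of_pos h0]
    exact mul_le_mul_of_nonneg_left h6 h0.le
  have h8 := abs_sub_abs_le_abs_sub (pos h (a' l)) (pos h (a l))
  simp only [Real.norm_eq_abs]
  linarith

lemma totbox_sh {X X' X'' : Type} (u : X → X') (v : X' → X'') (y : Ch X) :
    sh v (sh u y) = sh (fun x => v (u x)) y :=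
  (Finsupp.mapDomain_comp (f := u) (g := v) (v := y)).symm

lemma totbox_congr {X : Type} {V : Type} [AddCommGroup V] [Module F2 V] {M N : Ch X →ₗ[F2] V}
    {y : Ch X} (h : ∀ s, y s ≠ 0 → M (sg s) = N (sg s)) : M y = N y := by
  by_contra e
  obtain ⟨s, h1, h2⟩ := map_ne (M - N) (y := y) (sub_ne_zero.2 e)
  exact h2 (sub_eq_zero.2 (h s h1))

lemma totbox_del {Y : ι → Type} {Z : Sys ι Y} {P : Prm} {P0 : ℕ} {Lip : ℝ} (H : Z.OK P P0 Lip)
    {b : ∀ i, ℤ → ℤ → Y i} {B0 : ℕ} {τ : ι → Bool} {u : ι → ℤ} {π0 : ι → F2} {w0 : ι → ℤ}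
    (hB : ∀ i, (Z.S i).Box P (Ent (Z.d i)) (Z.U i) (Z.π i) (b i) B0 (τ i) (u i) (π0 i) (w0 i))
    (M1 : 1 ≤ P.M) (F : (ι → ℝ) → ℝ) (k : ι → ℤ) {a : ι → ℤ} (ha : ∀ i, |a i| + 1 ≤ B0)
    {t : ∀ i, Y i}
    (ht : Ent (Z.D.comp (sh fun a i => b i (a i) (k i)) +
      (sh fun a i => b i (a i) (k i)).comp (lat τ P.h F).b) a t) :
    Z.L t ≤ Z.L (fun i => b i (a i) (k i)) + P.e0 - P.c0 := by
  have e : (Z.D.comp (sh fun (a : ι → ℤ) i => b i (a i) (k i)) +
      (sh fun (a : ι → ℤ) i => b i (a i) (k i)).comp (lat τ P.h F).b) (sg a) =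
      ∑ i, sh (Function.update (fun i => b i (a i) (k i)) i)
        (Z.d i (sg (b i (a i) (k i))) + sh (fun x => b i x (k i)) (lineδ (τ i) (sg (a i)))) := by
    simp only [LinearMap.add_apply, LinearMap.comp_apply, sh_sg, Sys.D, lat, LinearMap.sum_apply,
      map_sum, map_add, Finset.sum_add_distrib, lft, gen_sg, totbox_sh]
    congr 1
    refine Finset.sum_congr rfl fun i _ => ?_
    congr 2
    funext x l
    by_cases hl : l = i
    · subst hl
      simp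
    · simp [Function.update_of_ne hl]
  unfold Ent at ht
  rw [e, Finsupp.finsetSum_apply] at ht
  obtain ⟨i, -, h1⟩ := Finset.exists_ne_zero_of_sum_ne_zero ht
  obtain ⟨y, h2, rfl⟩ := sh_ne h1
  have h3 := RD.Box.del (H.fac i).rel (hB i) M1 (ha i) h2
  have h4 := H.upd (fun i => b i (a i) (k i)) i y
  linarith

end aux

theorem tot_contra {ι : Type} [Fintype ι] [DecidableEq ι] {Y : ι → Type} (Z : Sys ι Y) (P : Prm)
    (P0 : ℕ) (Lip : ℝ) (H : Z.OK P P0 Lip) (j i0 : ι) (hij : i0 ≠ j)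
    (b : ∀ i, ℤ → ℤ → Y i) (B0 : ℕ) (τ : ι → Bool) (u : ι → ℤ) (π0 : ι → F2) (w0 : ι → ℤ)
    (hB : ∀ i, (Z.S i).Box P (Ent (Z.d i)) (Z.U i) (Z.π i) (b i) B0 (τ i) (u i) (π0 i) (w0 i))
    (F : (ι → ℝ) → ℝ) (cc : (ι → ℤ) → ℝ)
    (hL : ∀ k a : ι → ℤ, k j = 0 → (∀ i, |a i| ≤ B0) →
      Z.L (fun i => b i (a i) (k i)) = cc k + (lat τ P.h F).f a)
    (m : F2) (r R Θ c e θ E : ℝ) (K : En (ι → ℤ)) (p : Ch (ι → ℤ)) (ξ : Ch (ι → ℤ) →ₗ[F2] F2)
    (hMD : MD (lat τ P.h F) m r R Θ c e K p ξ) (N J : ℕ)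
    (hR : ∀ a : ι → ℤ, (lat τ P.h F).N a ≤ R → ∀ i, |a i| + 2 * P.M + 2 ≤ B0) (rR : r ≤ R)
    (r0 : 0 < r) (c0 : 0 < c)
    (hf : ∀ a, (lat τ P.h F).N a ≤ r → -(Θ / 2) ≤ (lat τ P.h F).f a)
    (hE : cc (Pi.single i0 (u i0)) = cc 0 - E) (ha : ∀ i, E ≤ Z.a i) (haj : E + 3 * θ ≤ Z.a j)
    (M1 : 1 ≤ P.M) (hJ : J * N ≤ P.M) (hJr : P.h * (J * N + 1) ≤ r / 4)
    (e0 : P.e0 ≤ e) (n1 : 20 * e ≤ θ) (θ0 : 0 < θ) (n2 : 6 * θ ≤ E) (n3 : 6 * θ ≤ Θ)
    (n4 : 6 * θ ≤ P.c0) (n5 : 48 * θ ≤ c * r ^ 2)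
    (inner : (∀ i, Y i) → Prop)
    (hin : ∀ σ, inner σ ↔ ∃ k a : ι → ℤ, k j = 0 ∧ (lat τ P.h F).N a ≤ r / 4 ∧
      σ = fun i => b i (a i) (k i))
    (hP : ∀ b0, ∃ g g', PushSpec Z.D Z.L inner (fun t => ∃ s0, inner s0 ∧ Z.Near P N s0 J t)
      θ b0 g g') : False := by
  have hadj := fun a a' => totbox_adj τ H.h0 F (a := a) (a' := a')
  have hNN := fun a a' => totbox_N τ H.h0 F (a := a) (a' := a') (n := J * N)
  have hdel := fun k a ha t => totbox_del H hB M1 F k (a := a) ha (t := t)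
  have hdeg : ∀ a, (lat τ P.h F).deg a = ∑ i, (a i : F2) := fun _ => rfl
  have hN0 : ∀ a, 0 ≤ (lat τ P.h F).N a := fun _ => norm_nonneg _
  generalize lat τ P.h F = C at *
  obtain ⟨β, hβ⟩ : ∃ β : (ι → ℤ) → (ι → ℤ) → ∀ i, Y i, β = fun k a i => b i (a i) (k i) :=
    ⟨_, rfl⟩
  have he : 0 ≤ e := H.e0.trans e0
  have h0 := H.h0
  have box : ∀ a, C.N a ≤ R → ∀ i, |a i| ≤ B0 := fun a h i => by
    have := hR a h i
    omega
  have hL' : ∀ k a, k j = 0 → C.N a ≤ R → Z.L (β k a) = cc k + C.f a := fun k a hk h => by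
    rw [hβ]; exact hL k a hk (box a h)
  have hdel' : ∀ k a, C.N a ≤ R → ∀ t, Ent (Z.D.comp (sh (β k)) + (sh (β k)).comp C.b) a t →
      Z.L t ≤ Z.L (β k a) + P.e0 - P.c0 := fun k a h t => by
    rw [hβ]
    exact hdel k a (fun i => by have := hR a h i; omega) t
  have inj : ∀ k a k' a', C.N a ≤ R → C.N a' ≤ R → β k a = β k' a' → k = k' ∧ a = a' := by
    intro k a k' a' h h' e
    rw [hβ] at e
    have := fun i => (hB i).inj _ _ _ _ (box a h i) (box a' h' i) (congrFun e i)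
    exact ⟨funext fun i => (this i).2, funext fun i => (this i).1⟩
  have hpar : ∀ k a, C.N a ≤ R → ∑ i, Z.π i (β k a i) = ∑ i, π0 i + C.deg a := fun k a h => by
    rw [hdeg, ← Finset.sum_add_distrib, hβ]
    exact Finset.sum_congr rfl fun i _ => (hB i).par _ _ (box a h i)
  have hU : ∀ i a, Function.update (β 0 a) i (Z.U i (β 0 a i)) = β (Pi.single i (u i)) a := by
    intro i a
    rw [hβ]
    funext l
    by_cases hl : l = i
    · subst hl
      simp [(hB l).U]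
    · simp [Function.update_of_ne hl, Pi.single_eq_of_ne hl]
  have hUL : ∀ (σ : ∀ i, Y i) i, Z.L (Function.update σ i (Z.U i (σ i))) ≤ Z.L σ - Z.a i :=
    fun σ i => by
      have h1 := H.upd σ i (Z.U i (σ i))
      have h2 := (H.fac i).rel.Ud (σ i)
      linarith
  have hNI : ∀ t, (∃ s0, inner s0 ∧ Z.Near P N s0 J t) →
      ∃ k a, k j = 0 ∧ C.N a + P.h ≤ r ∧ t = β k a := by
    rintro t ⟨s0, h1, h2⟩
    obtain ⟨k, a, hk, h3, rfl⟩ := (hin s0).1 h1
    have h4 : C.N a ≤ R := by linarith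
    choose a' h5 h6 using fun i => (hB i).near (a i) (k i) (t i) (hR a h4 i) (h2 i).2.1
      ((h2 i).1.trans (by exact_mod_cast hJ))
    refine ⟨k, a', hk, ?_, by rw [hβ]; exact funext h6⟩
    have h7 := hNN a a' fun i => by
      have h8 := (h2 i).1
      simp only at h8
      rw [h6 i, (hB i).w _ _ (h5 i), (hB i).w _ _ (box a h4 i)] at h8
      rwa [add_sub_add_left_eq_sub] at h8
    push_cast at h7
    linarith
  obtain ⟨KG, hK1, hK2⟩ : ∃ KG : En (∀ i, Y i),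
      (∀ k a, k j = 0 → C.N a ≤ r → KG (sg (β k a)) = sh (β k) (K (sg a))) ∧
      ∀ s, KG (sg s) ≠ 0 → ∃ k a, k j = 0 ∧ C.N a ≤ r ∧ s = β k a := by
    refine ⟨gen fun s => if h : ∃ x : (ι → ℤ) × (ι → ℤ), x.1 j = 0 ∧ C.N x.2 ≤ r ∧ s = β x.1 x.2
      then sh (β h.choose.1) (K (sg h.choose.2)) else 0, fun k a hk h => ?_, fun s hs => ?_⟩
    · have h1 : ∃ x : (ι → ℤ) × (ι → ℤ), x.1 j = 0 ∧ C.N x.2 ≤ r ∧ β k a = β x.1 x.2 :=
        ⟨(k, a), hk, h, rfl⟩
      rw [gen_sg, dif_pos h1]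
      obtain ⟨-, h2, h3⟩ := h1.choose_spec
      obtain ⟨h4, h5⟩ := inj _ _ _ _ (h.trans rR) (h2.trans rR) h3
      rw [← h4, ← h5]
    · rw [gen_sg] at hs
      split_ifs at hs with h
      · obtain ⟨x, hx⟩ := h
        exact ⟨x.1, x.2, hx⟩
      · exact absurd rfl hs
  set ks : ι → ℤ := Pi.single i0 (u i0) with hks
  have ksj : ks j = 0 := Pi.single_eq_of_ne hij.symm _
  obtain ⟨ξG, hξ1, hξ2⟩ : ∃ ξG : Ch (∀ i, Y i) →ₗ[F2] F2,
      (∀ a, C.N a ≤ r → ξG (sg (β ks a)) = ξ (sg a)) ∧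
      ∀ s, ξG (sg s) ≠ 0 → ∃ a, C.N a ≤ r ∧ s = β ks a := by
    refine ⟨Finsupp.linearCombination F2 fun s => if h : ∃ a, C.N a ≤ r ∧ s = β ks a
      then ξ (sg h.choose) else 0, fun a h => ?_, fun s hs => ?_⟩
    · have h1 : ∃ a', C.N a' ≤ r ∧ β ks a = β ks a' := ⟨a, h, rfl⟩
      rw [sg, Finsupp.linearCombination_single, one_smul, dif_pos h1]
      obtain ⟨h2, h3⟩ := h1.choose_spec
      rw [← (inj _ _ _ _ (h.trans rR) (h2.trans rR) h3).2]
    · rw [sg, Finsupp.linearCombination_single, one_smul] at hs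
      split_ifs at hs with h
      · exact h
      · exact absurd rfl hs
  have hξ3 : ∀ k (y : Ch (ι → ℤ)), k ≠ ks → (∀ a, y a ≠ 0 → C.N a ≤ R) → ξG (sh (β k) y) = 0 := by
    intro k y hk hy
    by_contra hn
    obtain ⟨a, h1, h2⟩ := map_ne (ξG.comp (sh (β k))) hn
    rw [LinearMap.comp_apply, sh_sg] at h2
    obtain ⟨a', h3, h4⟩ := hξ2 _ h2
    exact hk (inj _ _ _ _ (hy a h1) (h3.trans rR) h4).1
  have K1 : ∀ s t, Ent KG s t → Z.L t ≤ Z.L s + e := by
    intro s t h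
    obtain ⟨k, a, hk, h1, rfl⟩ := hK2 s fun e => h (by rw [e]; rfl)
    unfold Ent at h
    rw [hK1 k a hk h1] at h
    obtain ⟨a', h2, rfl⟩ := sh_ne h
    obtain ⟨h3, h4⟩ := hMD.k1 a a' h1 h2
    rw [hL' k a hk (h1.trans rR), hL' k a' hk h4]
    linarith
  have X2 : ∀ s, ξG (sg s) ≠ 0 → cc 0 - E - e ≤ Z.L s := by
    intro s hs
    obtain ⟨a, h1, rfl⟩ := hξ2 s hs
    rw [hξ1 a h1] at hs
    have := hMD.x2 a h1 hs
    rw [hL' ks a ksj (h1.trans rR), hE]
    linarith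
  have split : ∀ k (y : Ch (ι → ℤ)), Z.D (sh (β k) y) =
      sh (β k) (C.b y) + (Z.D.comp (sh (β k)) + (sh (β k)).comp C.b) y := fun k y => by
    rw [LinearMap.add_apply, LinearMap.comp_apply, LinearMap.comp_apply, add_left_comm, ch_two,
      add_zero]
  have hDD : Z.D (Z.D (sh (β 0) p)) = ∑ i, sh (β (Pi.single i (u i))) p := by
    rw [← Module.End.mul_apply, H.sq, LinearMap.sum_apply]
    refine Finset.sum_congr rfl fun i _ => ?_
    rw [totbox_sh]
    simp only [hU]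
  refine contra Z.D KG Z.L (fun σ => ∑ i, Z.π i (σ i)) (∑ i, π0 i + m) inner _ (sh (β 0) p) ξG
    (cc 0) (cc 0 - E) e θ he n1 θ0 (by linarith) ?_ hP K1 ?_ ?_ ?_ ?_ X2 ?_ ?_ ?_
  · intro s t h
    obtain ⟨i, -, h1⟩ := ent_sum h
    obtain ⟨y, rfl, h2⟩ := ent_lft h1
    refine ⟨?_, ?_⟩
    · have h3 := ((H.fac i).rel.dφ _ _ h2).1
      rw [← Finset.add_sum_erase _ _ (Finset.mem_univ i),
        ← Finset.add_sum_erase _ (fun i => Z.π i (s i)) (Finset.mem_univ i), Function.update_self,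
        h3, add_right_comm]
      congr 2
      exact Finset.sum_congr rfl fun l hl => by
        rw [Function.update_of_ne (Finset.ne_of_mem_erase hl)]
    · obtain ⟨ε, hε⟩ := (H.fac i).rel.dM
      have h3 := (hε _ _ h2).le
      have h4 := H.upd s i y
      push_cast at h3
      linarith
  · intro s t hs hp h
    obtain ⟨k, a, hk, h1, rfl⟩ := hNI s hs
    have h2 : C.N a ≤ r := by linarith
    have h3 : ξ (sg a) = 0 := by
      by_contra hn
      exact hp (by rw [hpar k a (h2.trans rR), hMD.x1 a hn])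
    have e1 : KG (sh (β k) (C.b (sg a))) = sh (β k) (K (C.b (sg a))) :=
      totbox_congr (M := KG.comp (sh (β k))) (N := (sh (β k)).comp K) fun a' ha' => by
        rw [LinearMap.comp_apply, LinearMap.comp_apply, sh_sg]
        exact hK1 k a' hk ((hadj a a' ha').trans h1)
    have e2 : (1 + KG * Z.D + Z.D * KG) (sg (β k a)) =
        sh (β k) ((1 + K * C.b + C.b * K) (sg a) + ξ (sg a) • p) +
          (KG ((Z.D.comp (sh (β k)) + (sh (β k)).comp C.b) (sg a)) +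
          (Z.D.comp (sh (β k)) + (sh (β k)).comp C.b) (K (sg a))) := by
      have e3 := split k (sg a)
      rw [sh_sg] at e3
      rw [h3, zero_smul, add_zero]
      simp only [LinearMap.add_apply (1 + _), LinearMap.add_apply 1, Module.End.mul_apply,
        Module.End.one_apply]
      rw [hK1 k a hk h2, split k (K (sg a)), e3, map_add KG, e1, map_add (sh (β k)),
        map_add (sh (β k)), sh_sg]
      abel
    unfold Ent at h
    rw [e2] at h
    have hLs := hL' k a hk (h2.trans rR)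
    rcases F2.add_ne h with h | h
    · obtain ⟨a', h4, rfl⟩ := sh_ne h
      obtain ⟨h5, h6⟩ := hMD.k2 a a' h2 h4
      have h7 := hf a h2
      rw [hL' k a' hk h6, hLs]
      linarith
    rcases F2.add_ne h with h | h
    · obtain ⟨s', h4, h5⟩ := apply_ne _ h
      have h6 := hdel' k a (h2.trans rR) s' h4
      have h7 := K1 _ _ h5
      linarith
    · obtain ⟨a', h4, h5⟩ := apply_ne _ h
      obtain ⟨h6, h7⟩ := hMD.k1 a a' h2 h4
      have h8 := hdel' k a' h7 t h5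
      rw [hL' k a' hk h7] at h8
      linarith
  · intro s hs
    obtain ⟨a, h1, rfl⟩ := sh_ne hs
    obtain ⟨h2, h3, -⟩ := hMD.p1 a h1
    rw [hpar 0 a h3, h2]
  · intro t ht
    rw [split] at ht
    rcases F2.add_ne ht with h | h
    · obtain ⟨a, h1, rfl⟩ := sh_ne h
      obtain ⟨h2, h3⟩ := hMD.p2 a h1
      rw [hL' 0 a rfl h3]
      linarith
    · obtain ⟨a, h1, h2⟩ := apply_ne _ h
      obtain ⟨-, h3, h4⟩ := hMD.p1 a h1
      have h5 := hdel' 0 a h3 t h2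
      rw [hL' 0 a rfl h3] at h5
      have h6 : 0 ≤ c * C.N a ^ 2 := by positivity
      linarith
  · intro s hs hl
    obtain ⟨k, a, hk, h1, rfl⟩ := hNI s hs
    have h2 : C.N a ≤ r := by linarith
    have e3 := split k (sg a)
    rw [sh_sg] at e3
    have h3 : ξG (sh (β k) (C.b (sg a))) = 0 := by
      by_cases hkk : k = ks
      · subst hkk
        rw [← hMD.x3 a]
        exact totbox_congr (M := ξG.comp (sh (β _))) (N := ξ) fun a' ha' => by
          rw [LinearMap.comp_apply, sh_sg]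
          exact hξ1 a' ((hadj a a' ha').trans h1)
      · exact hξ3 k _ hkk fun a' ha' => ((hadj a a' ha').trans h1).trans rR
    rw [e3, map_add, h3, zero_add]
    by_contra hn
    obtain ⟨t, h4, h5⟩ := map_ne ξG hn
    have h6 := hdel' k a (h2.trans rR) t h4
    have h7 := X2 t h5
    linarith
  · rw [hDD, map_sum, Finset.sum_eq_single_of_mem i0 (Finset.mem_univ _), ← hMD.x4]
    · refine totbox_congr (M := ξG.comp (sh (β _))) (N := ξ) fun a ha => ?_
      rw [LinearMap.comp_apply, sh_sg]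
      by_cases h1 : C.N a ≤ r
      · exact hξ1 a h1
      obtain ⟨-, h2, h3⟩ := hMD.p1 a ha
      have h4 : c * r ^ 2 ≤ c * C.N a ^ 2 := by
        have := not_le.1 h1
        gcongr
      have h5 : ξ (sg a) = 0 := by
        by_contra hn
        have := hMD.x5 a ha hn
        linarith
      rw [h5]
      by_contra hn
      obtain ⟨a', h6, h7⟩ := hξ2 _ hn
      exact h1 ((inj _ _ _ _ h2 (h6.trans rR) h7).2 ▸ h6)
    · intro i _ hi
      refine hξ3 _ p (fun e => (hB i0).u0 ?_) fun a ha => (hMD.p1 a ha).2.1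
      have := congrFun e i0
      rw [hks, Pi.single_eq_same, Pi.single_eq_of_ne hi.symm] at this
      exact this.symm
  · intro t ht
    rw [hDD, Finsupp.finsetSum_apply] at ht
    obtain ⟨i, -, h1⟩ := Finset.exists_ne_zero_of_sum_ne_zero ht
    obtain ⟨a, h2, rfl⟩ := sh_ne h1
    obtain ⟨-, h3, h4⟩ := hMD.p1 a h2
    have h5 := hUL (β 0 a) i
    rw [hU, hL' 0 a rfl h3] at h5
    have h6 : 0 ≤ c * C.N a ^ 2 := by positivity
    have h7 := ha i
    refine ⟨by linarith, ?_⟩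
    by_cases hi : i = j
    · subst hi
      exact Or.inr (by linarith)
    by_cases h8 : C.N a ≤ r / 4
    · exact Or.inl ((hin _).2 ⟨_, a, Pi.single_eq_of_ne (Ne.symm hi) _, h8, by rw [hβ]⟩)
    · have h9 : c * (r / 4) ^ 2 ≤ c * C.N a ^ 2 := by
        have := not_le.1 h8
        gcongr
      exact Or.inr (by nlinarith)
  · intro s t h
    rw [H.sq] at h
    obtain ⟨i, -, h1⟩ := ent_sum h
    have h2 := hUL s i
    rw [ent_sh h1] at h2
    have h3 := ha i
    linarith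

end Pool.Agent.Lib.MP_5a3ebe_gt.PI
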