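import Pool.Agent.Lib.MP_5a3ebe_gt.PiDefs

/-! The pushing lemma for curved filtered complexes. -/

set_option linter.unusedSectionVars false
set_option linter.unusedVariables false

namespace Pool.Agent.Lib.MP_5a3ebe_gt.PI

open Ap Classical

section hom

variable {X : Type}

/-- The homotopy built from local contractions. -/
noncomputable def push_gg (D : En X) (H : X → En X) (act : X → Prop) : ℕ → En X
  | 0 => 0
  | j + 1 => gen fun s => if act s then H s ((1 + push_gg D H act j * D) (sg s)) else 0

/-- The remainder of the homotopy. -/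
noncomputable def push_rr (D : En X) (H : X → En X) (act : X → Prop) : ℕ → En X
  | 0 => 1
  | j + 1 => 1 + push_gg D H act j * D + D * push_gg D H act (j + 1)

variable {D : En X} {H : X → En X} {act : X → Prop}

lemma push_gg_not {s : X} (hs : ¬ act s) (j : ℕ) : push_gg D H act j (sg s) = 0 := by
  cases j with
  | zero => rfl
  | succ j => simp [push_gg, hs]

lemma push_gg_act {s : X} (hs : act s) (j : ℕ) :
    push_gg D H act (j + 1) (sg s) = H s ((1 + push_gg D H act j * D) (sg s)) := by
  simp only [push_gg, gen_sg, if_pos hs]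

lemma push_gg_zero {y : Ch X} (hy : ∀ u, y u ≠ 0 → ¬ act u) (j : ℕ) :
    push_gg D H act j y = 0 := by
  by_contra h
  obtain ⟨u, h1, h2⟩ := map_ne _ h
  exact h2 (push_gg_not (hy u h1) j)

lemma push_mul_rr {y : Ch X} (hy : ∀ u, D y u ≠ 0 → ¬ act u) (j : ℕ) :
    y + D (push_gg D H act j y) = push_rr D H act j y := by
  cases j with
  | zero => simp [push_rr, push_gg]
  | succ j =>
    simp only [push_rr, LinearMap.add_apply, Module.End.mul_apply, Module.End.one_apply,
      push_gg_zero hy j, add_zero]

lemma push_rr_act {s : X} {ρ : En X} (hs : act s) (hH : D * H s + H s * D = 1 + ρ)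
    (hz : ∀ u, Ent (D * D) s u → ¬ act u) (j : ℕ) : push_rr D H act (j + 1) (sg s) =
      ρ ((1 + push_gg D H act j * D) (sg s)) + H s (push_rr D H act j (D (sg s))) := by
  rw [← push_mul_rr (y := D (sg s)) hz j]
  have h1 : push_rr D H act (j + 1) (sg s) = (1 + push_gg D H act j * D) (sg s)
      + D (H s ((1 + push_gg D H act j * D) (sg s))) := by
    rw [← push_gg_act hs]
    rfl
  have h2 : D (sg s) + D (push_gg D H act j (D (sg s)))
      = D ((1 + push_gg D H act j * D) (sg s)) := by
    rw [← map_add]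
    rfl
  rw [h1, h2]
  generalize (1 + push_gg D H act j * D) (sg s) = x
  have h3 : D (H s x) + H s (D x) = x + ρ x := LinearMap.congr_fun hH x
  have h4 := ch_two (H s (D x))
  have h5 := ch_two x
  calc x + D (H s x) = x + (D (H s x) + H s (D x)) + H s (D x) := by
        rw [add_assoc, add_assoc, h4, add_zero]
    _ = ρ x + H s (D x) := by rw [h3, ← add_assoc, h5, zero_add]

lemma push_rr_not {s : X} (hs : ¬ act s) (j : ℕ) :
    push_rr D H act (j + 1) (sg s) = (1 + push_gg D H act j * D) (sg s) := by
  change _ + D (push_gg D H act (j + 1) (sg s)) = _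
  rw [push_gg_not hs, map_zero, add_zero]

end hom

theorem push_step {X : Type} (D : En X) (L : X → ℝ) (Φ : X → ℕ) (P : ℕ)
    (Near : X → ℕ → X → Prop) (inner : X → Prop) (e E c1 θ : ℝ) (he : 0 ≤ e) (heE : e ≤ E)
    (hθ : 0 < θ) (h1 : 20 * (P + 2) * e ≤ θ) (h2 : θ + 20 * (P + 2) * E ≤ c1)
    (hΦ : ∀ s, Φ s ≤ P) (n0 : ∀ s, Near s 0 s)
    (nm : ∀ s0 j s, Near s0 j s → Near s0 (j + 1) s)
    (hD : ∀ s t, Ent D s t → L t - L s ≤ e ∧ (Φ t < Φ s ∨ L t - L s ≤ -c1) ∧
      Tr Near (2 * P + 6) E c1 s t (L t - L s))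
    (hDD : ∀ s t, Ent (D * D) s t → L t - L s ≤ -c1)
    (hH : ∀ s0, ¬ inner s0 → ∃ H ρ : En X, D * H + H * D = 1 + ρ ∧
      (∀ s t, Ent H s t → Tr Near (2 * P + 6) E c1 s t (L t - L s) ∧
        (Near s0 (2 * P + 6) s → L t - L s ≤ e)) ∧
      (∀ s t, Ent ρ s t → Tr Near (2 * P + 6) E c1 s t (L t - L s) ∧
        (Near s0 (2 * P + 6) s → L t - L s ≤ -θ)))
    (b : ℝ) : ∃ g g' : En X,
      PushSpec D L inner (fun t => ∃ s0, inner s0 ∧ Near s0 (2 * P + 6) t) θ b g g' := by
  choose! H ρ hH1 hH2 hH3 using hH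
  have hE : 0 ≤ E := he.trans heE
  have hPe : 0 ≤ P * e := by positivity
  have hPE : P * e ≤ P * E := by gcongr
  let act : X → Prop := fun s => b - 3 * θ / 4 ≤ L s ∧ ¬ inner s
  let Rel : ℕ → X → Prop := fun j s => L s < b + (P + 1 - j) * e ∧
      (j ≤ Φ s → L s < b + (P + 1 - j) * e - c1)
  have rel : ∀ j s u, Rel (j + 1) s → Ent D s u → Rel j u := by
    intro j s u ⟨r2, r3⟩ hu
    obtain ⟨d2, d3, -⟩ := hD s u hu
    push_cast at r2 r3
    refine ⟨by linarith, fun hj => ?_⟩
    rcases d3 with d3 | d3
    · linarith [r3 (by omega)]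
    · linarith
  have xx : ∀ j, (∀ s t, Rel j s → Ent (push_gg D H act j) s t →
      Reach Near (2 * P + 6) E c1 (2 * j) s t (L t - L s) ∧ L t - L s ≤ 2 * j * e) →
      ∀ s t, Rel (j + 1) s → Ent (1 + push_gg D H act j * D) s t →
      Reach Near (2 * P + 6) E c1 (2 * j + 1) s t (L t - L s) ∧ L t - L s ≤ (2 * j + 1) * e := by
    intro j ih s t hs ht
    rcases ent_add ht with ht | ht
    · obtain rfl := ent_one ht
      rw [sub_self]
      exact ⟨Reach.refl nm hE _ _, by positivity⟩
    · obtain ⟨u, hu, hut⟩ := ent_mul ht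
      obtain ⟨i1, i2⟩ := ih u t (rel j s u hs hu) hut
      obtain ⟨d2, -, d4⟩ := hD s u hu
      exact ⟨(d4.reach hE).trans i1 (by ring) (by ring), by linarith⟩
  have gi : ∀ j, j ≤ P + 1 → ∀ s t, Rel j s → Ent (push_gg D H act j) s t →
      Reach Near (2 * P + 6) E c1 (2 * j) s t (L t - L s) ∧ L t - L s ≤ 2 * j * e := by
    intro j
    induction j with
    | zero => exact fun _ s t _ h => (h rfl).elim
    | succ j ih =>
      intro hj s t hs ht
      have ha : act s := by
        by_contra ha
        exact ht (by rw [push_gg_not ha]; rfl)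
      unfold Ent at ht
      rw [push_gg_act ha] at ht
      obtain ⟨u, hu, hut⟩ := apply_ne _ ht
      obtain ⟨i1, i2⟩ := xx j (ih (by omega)) s u hs hu
      obtain ⟨i3, i4⟩ := hH2 s ha.2 u t hut
      refine ⟨i1.trans (i3.reach hE) (by ring) (by ring), ?_⟩
      have j1 : j * E ≤ P * E := by gcongr; omega
      have j2 : 0 ≤ j * e := by positivity
      push_cast
      rcases i1.near n0 nm (by omega) with i5 | i5
      · linarith [i4 i5]
      · push_cast at i5
        linarith [i3.1]
  have ri : ∀ j, j ≤ P + 1 → ∀ s t, Rel j s → Ent (push_rr D H act j) s t →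
      Reach Near (2 * P + 6) E c1 (2 * j) s t (L t - L s) ∧
        (L t < b - 3 * θ / 4 + (2 * P + 2 + j) * e ∨
          ∃ s0, inner s0 ∧ Near s0 (2 * j) t ∧ L t < b + (P + j) * e) := by
    intro j
    induction j with
    | zero =>
      intro _ s t hs ht
      obtain rfl : s = t := ent_one ht
      rw [sub_self]
      have := hs.2 (Nat.zero_le _)
      push_cast at this ⊢
      exact ⟨Reach.refl nm hE _ _, Or.inl (by linarith)⟩
    | succ j ih =>
      intro hj s t hs ht
      have j1 : j * E ≤ P * E := by gcongr; omega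
      have j2 : 0 ≤ j * e := by positivity
      have j3 : j * e ≤ P * e := by gcongr; omega
      have s2 := hs.1
      push_cast at s2 ⊢
      unfold Ent at ht
      by_cases ha : act s
      · rw [push_rr_act ha (hH1 s ha.2) (fun u hu hu' => by
          have := hDD s u hu
          have := hu'.1
          linarith)] at ht
        rcases F2.add_ne ht with ht | ht
        · obtain ⟨u, hu, hut⟩ := apply_ne _ ht
          obtain ⟨i1, i2⟩ := xx j (gi j (by omega)) s u hs hu
          obtain ⟨i3, i4⟩ := hH3 s ha.2 u t hut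
          refine ⟨i1.trans (i3.reach hE) (by ring) (by ring), Or.inl ?_⟩
          rcases i1.near n0 nm (by omega) with i5 | i5
          · linarith [i4 i5]
          · push_cast at i5
            linarith [i3.1]
        · obtain ⟨u, hu, hut⟩ := apply_ne _ ht
          obtain ⟨v, hv, hvu⟩ := apply_ne _ hu
          obtain ⟨i1, i2⟩ := ih (by omega) v u (rel j s v hs hv) hvu
          obtain ⟨d2, -, d4⟩ := hD s v hv
          obtain ⟨i3, i4⟩ := hH2 s ha.2 u t hut
          have i0 := (d4.reach hE).trans i1 (n := 2 * j + 1) (δ'' := L u - L s) (by ring)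
            (by ring)
          refine ⟨i0.trans (i3.reach hE) (by ring) (by ring), ?_⟩
          rcases i0.near n0 nm (by omega) with i5 | i5
          · rcases i2 with i2 | ⟨s0, k1, k2, k3⟩
            · exact Or.inl (by linarith [i4 i5])
            · rcases i3.2 s0 (2 * j) (by omega) k2 with k4 | k4
              · exact Or.inr ⟨s0, k1, near_mono nm (by omega) k4, by linarith [i4 i5]⟩
              · exact Or.inl (by linarith)
          · push_cast at i5
            exact Or.inl (by linarith [i3.1])
      · rw [push_rr_not ha] at ht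
        obtain ⟨i1, i2⟩ := xx j (gi j (by omega)) s t hs ht
        refine ⟨i1.trans (Reach.refl nm hE 1 t) (by ring) (by ring), ?_⟩
        by_cases hi : inner s
        · rcases i1.2 s 0 (by omega) (n0 s) with k4 | k4
          · exact Or.inr ⟨s, hi, near_mono nm (by omega) k4, by linarith⟩
          · push_cast at k4
            exact Or.inl (by linarith)
        · have i3 : L s < b - 3 * θ / 4 := by
            by_contra i3
            exact ha ⟨not_lt.1 i3, hi⟩
          exact Or.inl (by linarith)
  refine ⟨push_gg D H act (P + 1), push_gg D H act P, fun s => ⟨fun h => ?_, fun s2 t => ?_⟩⟩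
  · refine push_gg_not (fun ha => ?_) P
    rcases h with h | h
    · linarith [ha.1]
    · exact ha.2 h
  have hs : Rel (P + 1) s :=
    ⟨by push_cast; linarith, fun h => absurd (hΦ s) (by omega)⟩
  refine ⟨fun h => ?_, fun h => ?_⟩
  · have := (gi _ le_rfl s t hs h).2
    push_cast at this
    linarith
  · rcases (ri _ le_rfl s t hs h).2 with k | ⟨s0, k1, k2, k3⟩
    · push_cast at k
      exact Or.inl (by linarith)
    · push_cast at k3
      exact Or.inr ⟨⟨s0, k1, near_mono nm (by omega) k2⟩, by linarith⟩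

end Pool.Agent.Lib.MP_5a3ebe_gt.PI
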