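import Pool.Agent.Lib.MP_5a3ebe_gt.PiRel
import Pool.Agent.Lib.MP_5a3ebe_gt.PiPush

/-! Pushing in the product complex. -/

set_option linter.unusedSectionVars false
set_option linter.unusedVariables false

namespace Pool.Agent.Lib.MP_5a3ebe_gt.PI

open Ap Classical

lemma totPush_sum {ι : Type} [Fintype ι] [DecidableEq ι] {Y : ι → Type} {A : Type}
    [AddCommGroup A] (f : ∀ i, Y i → A) (σ : ∀ i, Y i) (i : ι) (x : Y i) :
    ∑ j, f j (Function.update σ i x j) = ∑ j, f j (σ j) + (f i x - f i (σ i)) := by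
  rw [← sub_eq_iff_eq_add', ← Finset.sum_sub_distrib, Finset.sum_eq_single i]
  · simp
  · intro j _ hj
    simp [Function.update_of_ne hj]
  · simp

lemma totPush_X {ι : Type} [Fintype ι] [DecidableEq ι] {Y : ι → Type} (Z : Sys ι Y)
    (σ : ∀ i, Y i) (i : ι) (x : Y i) :
    Z.X (Function.update σ i x) = Function.update (Z.X σ) i ((Z.S i).X x) := by
  funext l
  by_cases e : l = i
  · subst e
    simp [Sys.X]
  · simp [Sys.X, Function.update_of_ne e]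

lemma totPush_abs {Y : Type} {S : RD Y} {P : Prm} {ε n y y'} (m : S.Mv P ε n y y') :
    |S.w y' - S.w y| ≤ n := by
  have h1 := m.lo
  have h2 := m.hi
  rw [abs_le]
  cases ε <;> simp only [RD.ds, if_true, Bool.false_eq_true, if_false] at h1 h2 <;>
    constructor <;> omega

theorem tot_push {ι : Type} [Fintype ι] [DecidableEq ι] {Y : ι → Type} (Z : Sys ι Y) (P : Prm)
    (P0 : ℕ) (Lip γ θ c1 : ℝ) (H : Z.OK P P0 Lip) (N PP : ℕ) (inner : (∀ i, Y i) → Prop)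
    (hPP : PP = Fintype.card ι * P0) (hγ : 0 < γ) (hN : 2 ≤ N)
    (hM : (2 * PP + 7) * N ≤ P.M) (k1 : Lip * (2 * P.h * ((2 * PP + 7) * N)) ≤ γ / 2)
    (hθ : θ = (N - 1) * P.h * γ / 4) (k2 : 20 * (PP + 2) * P.e0 ≤ θ)
    (k3 : θ + 20 * (PP + 2) * (N * P.e0) ≤ c1) (k4 : c1 + N * P.e0 ≤ P.c0)
    (k5 : ∀ i, c1 ≤ Z.a i) (hg : ∀ σ, inner σ ∨ Z.good γ σ) (b : ℝ) :
    ∃ g g', PushSpec Z.D Z.L inner (fun t => ∃ s0, inner s0 ∧ Z.Near P N s0 (2 * PP + 6) t)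
      θ b g g' := by
  have N1 : (2 : ℝ) ≤ N := by exact_mod_cast hN
  have hh := H.h0
  have he := H.e0
  have hL := H.Lip0
  have θ0 : 0 < θ := by
    have : (0 : ℝ) < N - 1 := by linarith
    rw [hθ]
    positivity
  have E0 : 0 ≤ N * P.e0 := by positivity
  have c1θ : θ ≤ c1 := by
    have : 0 ≤ 20 * ((PP : ℝ) + 2) * (N * P.e0) := by positivity
    linarith
  have zn : ∀ σ0 j σ i x ε, j ≤ 2 * PP + 6 → Z.Near P N σ0 j σ → (Z.S i).Mv P ε N (σ i) x →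
      Z.L (Function.update σ i x) - Z.L σ ≤ -c1 ∨ ((Z.S i).In (σ0 i) x ∧
        P.h / 2 * (Z.S i).ds ε (σ i) x ≤ (Z.S i).dX ε (σ i) x ∧
        (Z.S i).dX ε (σ i) x ≤ 2 * P.h * (Z.S i).ds ε (σ i) x ∧
        (Z.S i).Λ x - (Z.S i).Λ (σ i) ≤
          -((Z.S i).sl ε (σ0 i) * ((Z.S i).X x - (Z.S i).X (σ i)))) := by
    intro σ0 j σ i x ε hj nr m
    have n1 := abs_le.1 (nr i).1
    have n2 := abs_le.1 (totPush_abs m)
    have n3 : j * N + N ≤ P.M := by nlinarith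
    rcases m.zn (σ0 i) (abs_le.2 ⟨by omega, by omega⟩) (abs_le.2 ⟨by omega, by omega⟩)
      (Or.inl (nr i).2.1) with z | z
    · left
      linarith [H.upd σ i x]
    · exact Or.inr z.2
  have aX : ∀ (σ : ∀ i, Y i) i x ε, (Z.S i).Mv P ε N (σ i) x →
      P.h / 2 * (Z.S i).ds ε (σ i) x ≤ (Z.S i).dX ε (σ i) x →
      (Z.S i).dX ε (σ i) x ≤ 2 * P.h * (Z.S i).ds ε (σ i) x →
      0 ≤ (Z.S i).dX ε (σ i) x ∧ (Z.S i).dX ε (σ i) x ≤ 2 * P.h * N := by
    intro σ i x ε m a1 a2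
    have h0 : (0 : ℝ) ≤ (Z.S i).ds ε (σ i) x := by exact_mod_cast m.lo
    have h1 : ((Z.S i).ds ε (σ i) x : ℝ) ≤ N := by exact_mod_cast m.hi
    exact ⟨le_trans (by positivity) a1, a2.trans (by gcongr)⟩
  have tr : ∀ σ i x ε, (Z.S i).Mv P ε N (σ i) x → Tr (Z.Near P N) (2 * PP + 6) (N * P.e0) c1
      σ (Function.update σ i x) (Z.L (Function.update σ i x) - Z.L σ) := by
    intro σ i x ε m
    refine ⟨(H.upd σ i x).trans m.le, fun σ0 j hj nr => ?_⟩
    rcases zn σ0 j σ i x ε (by omega) nr m with z | z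
    · exact Or.inr z
    refine Or.inl fun l => ?_
    obtain ⟨n1, n2, n3⟩ := nr l
    have e1 : (j + 1) * N = j * N + N := by ring
    have n1 := abs_le.1 n1
    have n3 := abs_le.1 n3
    have hN0 : 0 ≤ 2 * P.h * N := by positivity
    rw [e1]
    push_cast at n3 ⊢
    by_cases el : l = i
    · subst el
      have n4 := abs_le.1 (totPush_abs m)
      obtain ⟨a1, a2⟩ := aX σ l x ε m z.2.1 z.2.2.1
      rw [Function.update_self]
      push_cast at n1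
      refine ⟨abs_le.2 ⟨by omega, by omega⟩, z.1, abs_le.2 ?_⟩
      cases ε <;> simp only [RD.dX, if_true, Bool.false_eq_true, if_false] at a1 a2 <;>
        constructor <;> linarith
    · rw [Function.update_of_ne el]
      push_cast at n1
      exact ⟨abs_le.2 ⟨by omega, by omega⟩, n2, abs_le.2 ⟨by linarith, by linarith⟩⟩
  refine push_step Z.D Z.L (fun σ => ∑ i, Z.φ i (σ i)) PP (Z.Near P N) inner P.e0 (N * P.e0) c1 θ
    he (by nlinarith) θ0 k2 k3 (fun σ => ?_) (fun σ i => ⟨by simp, (H.fac i).rel.refl _, by simp⟩)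
    (fun σ0 j σ nr i => ?_) (fun σ σ' x0 => ?_) (fun σ σ' x0 => ?_) (fun σ0 h0 => ?_) b
  · rw [hPP]
    simpa using Finset.sum_le_card_nsmul Finset.univ (fun i => Z.φ i (σ i)) P0
      fun i _ => (H.fac i).rel.φP _
  · obtain ⟨n1, n2, n3⟩ := nr i
    have e1 : j * N ≤ (j + 1) * N := by nlinarith
    refine ⟨n1.trans (by exact_mod_cast e1), n2, n3.trans ?_⟩
    have : ((j * N : ℕ) : ℝ) ≤ ((j + 1) * N : ℕ) := by exact_mod_cast e1
    gcongr
  · obtain ⟨i, -, x1⟩ := ent_sum x0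
    obtain ⟨x, rfl, hx⟩ := ent_lft x1
    obtain ⟨ε, m⟩ := (H.fac i).rel.dM
    have m := m _ _ hx
    obtain ⟨-, p2⟩ := (H.fac i).rel.dφ _ _ hx
    have u := H.upd σ i x
    refine ⟨u.trans (by simpa using m.le), p2.imp (fun e => ?_) fun e => by linarith,
      tr σ i x ε (m.mono he (by omega))⟩
    have := totPush_sum (fun j g => (Z.φ j g : ℤ)) σ i x
    zify at e ⊢
    omega
  · rw [H.sq] at x0
    obtain ⟨i, -, x1⟩ := ent_sum x0
    rw [← ent_sh x1]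
    linarith [H.upd σ i (Z.U i (σ i)), (H.fac i).rel.Ud (σ i), k5 i]
  · obtain ⟨i, hi⟩ := (hg σ0).resolve_left h0
    obtain ⟨ε, hε⟩ : ∃ ε : Bool, (ε = true ∧ Z.gr i (Z.X σ0) ≤ (Z.S i).sl true (σ0 i) - γ) ∨
        (ε = false ∧ (Z.S i).sl false (σ0 i) + γ ≤ Z.gr i (Z.X σ0)) :=
      hi.elim (fun h => ⟨true, Or.inl ⟨rfl, h⟩⟩) fun h => ⟨false, Or.inr ⟨rfl, h⟩⟩
    have key : ∀ σ x, Z.Near P N σ0 (2 * PP + 6) σ → (Z.S i).Mv P ε N (σ i) x →
        Z.L (Function.update σ i x) - Z.L σ ≤ -c1 ∨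
        Z.L (Function.update σ i x) - Z.L σ ≤ -(γ / 2 * (P.h / 2 * (Z.S i).ds ε (σ i) x)) := by
      intro σ x nr m
      refine (zn σ0 _ σ i x ε le_rfl nr m).imp_right fun z => ?_
      obtain ⟨-, z1, z2, z3⟩ := z
      obtain ⟨a1, a2⟩ := aX σ i x ε m z1 z2
      have l1 := H.q1 (Z.X σ) i ((Z.S i).X x)
      have l2 := abs_le.1 (H.q2 i (Z.X σ) (Z.X σ0) _ fun l => (nr l).2.2)
      have l3 : Z.L (Function.update σ i x) - Z.L σ = (Z.S i).Λ x - (Z.S i).Λ (σ i) +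
          (Z.Q (Function.update (Z.X σ) i ((Z.S i).X x)) - Z.Q (Z.X σ)) := by
        simp only [Sys.L, totPush_sum (fun j => (Z.S j).Λ), totPush_X]
        ring
      have l4 : Z.X σ i = (Z.S i).X (σ i) := rfl
      have l5 := mul_le_mul_of_nonneg_left a2 hL
      have l6 : γ / 2 * (P.h / 2 * (Z.S i).ds ε (σ i) x) ≤ γ / 2 * (Z.S i).dX ε (σ i) x := by
        gcongr
      rw [l4] at l1
      push_cast at l2
      rw [l3]
      rcases hε with ⟨rfl, hi⟩ | ⟨rfl, hi⟩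
      · simp only [RD.dX, if_true] at a1 l5 l6
        generalize (Z.S i).X x - (Z.S i).X (σ i) = u at *
        have : Z.gr i (Z.X σ) - (Z.S i).sl true (σ0 i) + Lip * u ≤ -(γ / 2) := by nlinarith
        nlinarith [mul_le_mul_of_nonneg_left this a1]
      · simp only [RD.dX, Bool.false_eq_true, if_false] at a1 l5 l6
        rw [← neg_sub ((Z.S i).X (σ i))] at l1 z3
        generalize (Z.S i).X (σ i) - (Z.S i).X x = u at *
        have : (Z.S i).sl false (σ0 i) - Z.gr i (Z.X σ) + Lip * u ≤ -(γ / 2) := by nlinarith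
        nlinarith [mul_le_mul_of_nonneg_left this a1]
    obtain ⟨K, r, e1, e2, e3⟩ := (H.fac i).iter he H.RK ε N
    refine ⟨lft i K, lft i r, by rw [Sys.D, tot_hom, e1, lft_add, lft_one],
      fun σ σ' x1 => ?_, fun σ σ' x1 => ?_⟩ <;> obtain ⟨x, rfl, hx⟩ := ent_lft x1
    · have m := e2 _ _ hx
      refine ⟨tr σ i x ε m, fun nr => ?_⟩
      have h0 : (0 : ℝ) ≤ (Z.S i).ds ε (σ i) x := by exact_mod_cast m.lo
      have : 0 ≤ γ / 2 * (P.h / 2 * (Z.S i).ds ε (σ i) x) := by positivity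
      rcases key σ x nr m with z | z <;> linarith
    · obtain ⟨m, m1⟩ := e3 _ _ hx
      refine ⟨tr σ i x ε m, fun nr => ?_⟩
      have h0 : (N : ℝ) - 1 ≤ (Z.S i).ds ε (σ i) x := by exact_mod_cast m1
      have : γ / 2 * (P.h / 2 * (N - 1)) ≤ γ / 2 * (P.h / 2 * (Z.S i).ds ε (σ i) x) := by gcongr
      rcases key σ x nr m with z | z <;> linarith

end Pool.Agent.Lib.MP_5a3ebe_gt.PI
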