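import Pool.Agent.Lib.MP_5a3ebe_gt.PiCoreB
import Pool.Agent.Lib.MP_5a3ebe_gt.PiTotPush
import Pool.Agent.Lib.MP_5a3ebe_gt.PiTotBox

/-! The core at a fixed mesh size. -/

set_option linter.unusedSectionVars false
set_option linter.unusedVariables false

namespace Pool.Agent.Lib.MP_5a3ebe_gt.PI

open Ap Classical

/-- The numerical side conditions. -/
structure Num (n cι : ℕ) (S R ε gb γ1 Cf l0 l1 η γ h Lip Ω ωm δw slj ζ εE Cq r R' Θ c Ce γ' rz g W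
    c0 θ : ℝ) (B M N : ℕ) : Prop where
  η0 : 0 < η
  η1 : η ≤ 1
  h0 : 0 < h
  g0 : 0 < g
  r0 : 0 < r
  c00 : 0 < c0
  cc0 : 0 < c
  γ0 : 0 < γ'
  Cq0 : 0 < Cq
  Ce0 : 0 ≤ Ce
  rz0 : 0 ≤ rz
  εE1 : εE ≤ 1
  ζ1 : 100 * (n + 1) ^ 3 * R * (2 * Cf * η) ≤ ζ
  ζ2 : 2 * Cf * η ≤ ζ
  ζ3 : 2 * η * (l0 + |l1| * ε) ≤ ζ
  B1 : 4 * B * h ≤ ε
  B2 : ε / 8 < B * h
  MB : M + 2 ≤ B
  M1 : 1 ≤ M
  z1 : 8 * (n + 2) * g ≤ rz
  z2 : S * h * (4 * M + 2) ≤ g
  z3 : S * h * (M + 1) ≤ rz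
  c1 : c0 ≤ ωm * (g * h / 2 * M)
  c2 : c0 + (Ω + 4 * Lip * R) * ζ ≤ ωm * (gb * ε / 8)
  mg : Ω * (n * (4 * R * (Cf * η))) + (Ω + 4 * Lip * R) * ζ + 3 * θ ≤ δw * (gb * ε)
  n2 : h * (M + 1) ≤ 2 * W
  n3 : Ω * rz ≤ γ'
  n4 : εE * (2 * R) ≤ γ / 8
  n5 : εE * (2 * R) ≤ γ1 / 8
  n6 : 8 * γ' ≤ γ
  n7 : 8 * γ' ≤ γ1
  n8 : Lip * (2 * W) ≤ γ'
  n9 : Ω * ((|slj| + |l1|) * (2 * W)) ≤ γ'
  n10 : Ω * (ζ + η * l0) ≤ γ1 / 4
  n11 : 2 * W ≤ r / 8
  n12 : 16 * Cq * γ' ≤ r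
  N2 : 2 ≤ N
  hM : (2 * (cι * (2 * n + 1)) + 7) * N ≤ M
  k1 : Lip * (2 * h * ((2 * (cι * (2 * n + 1) : ℕ) + 7) * N)) ≤ γ' / 2
  hθ : θ = (N - 1) * h * γ' / 4
  k2 : 20 * ((cι * (2 * n + 1) : ℕ) + 2) * (2 * h * (Ω * R + 4 * Lip * R)) ≤ θ
  k4 : θ + (20 * ((cι * (2 * n + 1) : ℕ) + 2) + 1) * (N * (2 * h * (Ω * R + 4 * Lip * R))) ≤ c0
  k5 : c0 ≤ ωm * (gb * ε)
  k6 : 20 * ((Ce + 2 * (Ω * R + 4 * Lip * R)) * h) ≤ θ
  k7 : 6 * θ ≤ c0
  k8 : 6 * θ ≤ Θ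
  k9 : 48 * θ ≤ c * r ^ 2
  hJr : h * (((2 * (cι * (2 * n + 1)) + 6 : ℕ) : ℝ) * N + 1) ≤ r / 4
  rR : r ≤ R'
  hR : 2 * R' + h * (2 * M + 3) ≤ 2 * (B * h)

theorem core_h {ι : Type} [Fintype ι] [DecidableEq ι] {j i1 : ι} {ω : ι → ℝ} {Sm : Matrix ι ι ℝ}
    {n : ℕ} {S R ε gb γ1 Cf l0 l1 η γ h Lip Ω ωm ζ εE Cq r R' Θ c Ce γ' rz g W c0 θ : ℝ}
    {B M N : ℕ} {xs ys sl E : ι → ℝ} (hij : i1 ≠ j) (hw : |ω i1| < ω j) (hS : Sm.IsSymm)
    (S0 : 0 < S) (R0 : 0 < R) (ε0 : 0 < ε) (gb0 : 0 < gb) (C0 : 0 ≤ Cf) (l00 : 0 < l0)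
    (crit : ∀ i, Sm.mulVec xs i = ω i * ys i) (hL : ∑ i, ∑ k, |Sm i k| + 1 ≤ Lip)
    (hΩ : ∀ i, |ω i| ≤ Ω) (ωm0 : 0 < ωm) (hωm : ∀ i, ωm ≤ |ω i|) (hE : ∀ i, |E i| ≤ εE)
    (hC : ∀ (x : ι → ℝ) (s : ℝ), 0 ≤ s → x j = 0 → (∀ i, i ≠ j →
      |(Sm - Matrix.diagonal fun i => ω i * sl i).mulVec x i + E i * x i| ≤ s) → ‖x‖ ≤ Cq * s)
    (Nm : Num n (Fintype.card ι) S R ε gb γ1 Cf l0 l1 η γ h Lip Ω ωm (ω j - |ω i1|) (sl j) ζ εE Cq
      r R' Θ c Ce γ' rz g W c0 θ B M N)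
    {m : F2} {K p ξ} (hMD : MD (lat (fun i => decide (0 < ω i)) h
      (Ff j (Sm - Matrix.diagonal fun i => ω i * sl i) E (ω j * η * l0) (ω j * η * l1 / 2)))
      m r R' Θ c (Ce * h) K p ξ)
    (hf : ∀ x : ι → ℝ, ‖x‖ ≤ r → -(Θ / 2) ≤
      Ff j (Sm - Matrix.diagonal fun i => ω i * sl i) E (ω j * η * l0) (ω j * η * l1 / 2) x)
    {κ : Type} [Fintype κ] [DecidableEq κ] (hn : Fintype.card κ ≤ n)
    (D : ι → Diag κ) (G : ι → Bool → Geo κ) (i0 : ι → ℤ) (s0 : ι → κ)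
    (hD : ∀ i, (D i).Good ∧ (D i).Conn) (hG : ∀ i, i ≠ j → G i true = G i false)
    (hF : ∀ i σ, (G i σ).Frame (D i) h S R ε gb (xs i)
      (ys i + if i = j then (if σ then η else -η) * l0 else 0)
      (sl i + if i = j then (if σ then η else -η) * l1 else 0) (i0 i) (s0 i))
    (low : ∀ t, (D j).Al (i0 j) t → t ≠ s0 j → (D j).key (i0 j) (s0 j) < (D j).key (i0 j) t)
    (hDD : D i1 = D j) (nrm : (G j true).F (i0 j) (s0 j) = (G j false).F (i0 j) (s0 j))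
    (cx : ∀ σ i, |(G j σ).x i - (G i1 true).x i| ≤ Cf * η)
    (cΔ : ∀ σ k s, (D j).Al k s → |(G j σ).Δ k s - (G i1 true).Δ k s| ≤ Cf * η * h)
    (NC1 : ∀ (k : ι → ℤ) (s : ι → κ), (∀ i, i ≠ j → (D i).Touch (k i) (s i)) →
      (∃ i, i ≠ j ∧ ¬ (s i = s0 i ∧ |h * k i - xs i| ≤ ε / 8)) →
      ∃ i, γ1 ≤ |Sm.mulVec (fun l => if l = j then xs j else (G l true).x (k l)) i -
        ω i * if i = j then ys j else (G i true).Y (k i) (s i)|)
    (NC2 : ∀ (σ : Bool) (k : ι → ℤ) (s : ι → κ), (∀ i, (D i).Touch (k i) (s i)) →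
      ∃ i, γ ≤ |Sm.mulVec (fun l => (G l σ).x (k l)) i - ω i * (G i σ).Y (k i) (s i)|) :
    False := by
  have hh := Nm.h0
  have η0 := Nm.η0
  choose Γ fin dec T Sp using fun i => (D i).exists_tc (hD i).1
  have L1 : 1 ≤ Lip := by linarith [abs_nonneg (Sm j j), entry_le hL j j]
  have Ω0 : 0 ≤ Ω := (abs_nonneg _).trans (hΩ j)
  have ζ0 : 0 ≤ ζ := le_trans (by positivity) Nm.ζ2
  have ωj : 0 < ω j := (abs_nonneg _).trans_lt hw
  have hE1 : ∀ i, |E i| ≤ 1 := fun i => (hE i).trans Nm.εE1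
  have B1 : 1 ≤ B := by have := Nm.MB; omega
  have base : ∀ i σ, (G i σ).Base (D i) h gb (i0 i) (s0 i) B := fun i σ => (hF i σ).base hh Nm.B1
  have cm : gb * ε / 8 ≤ gb * h * B := by nlinarith [Nm.B2]
  obtain ⟨P, hP⟩ : ∃ P : Prm, P = ⟨h, 4 * Lip * R, 2 * h * (Ω * R + 4 * Lip * R), c0, M⟩ :=
    ⟨_, rfl⟩
  have Ph : P.h = h := by rw [hP]
  have PR : P.RK = 4 * Lip * R := by rw [hP]
  have Pe : P.e0 = 2 * h * (Ω * R + 4 * Lip * R) := by rw [hP]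
  have Pc : P.c0 = c0 := by rw [hP]
  have PM : P.M = M := by rw [hP]
  have sides : ∀ i, ∃ side, Side (T i) (D i) (G i) side h R (if i = j then ζ else 0) (gb * h * B)
      (i0 i) (s0 i) B := fun i => by
    by_cases hi : i = j
    · subst hi
      rw [if_pos rfl]
      refine exists_side (z := 2 * Cf * η) (hD i).1 (hD i).2 (Sp i) hh gb0.le B1 (by positivity) hn
        (fun σ => (hF i σ).ok) (base i) low nrm (fun k s al => ?_) Nm.ζ1 (fun k => ?_)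
        fun k hk => ?_
      · have a := abs_le.1 (cΔ true k s al)
        have b := abs_le.1 (cΔ false k s al)
        exact abs_le.2 ⟨by linarith, by linarith⟩
      · have a := abs_le.1 (cx true k)
        have b := abs_le.1 (cx false k)
        exact abs_le.2 ⟨by linarith [Nm.ζ2], by linarith [Nm.ζ2]⟩
      · have r1 : |h * k - xs i| ≤ ε := by
          rw [(hF i true).x0, ← mul_sub, abs_mul, abs_of_pos hh]
          have : |(k : ℝ) - i0 i| ≤ 4 * B := by exact_mod_cast hk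
          nlinarith [Nm.B1]
        rw [(hF i true).ht k r1, (hF i false).ht k r1]
        simp only [if_true, Bool.false_eq_true, if_false]
        have e : ys i + η * l0 + (sl i + η * l1) * (h * k - xs i) -
            (ys i + -η * l0 + (sl i + -η * l1) * (h * k - xs i)) =
            2 * η * (l0 + l1 * (h * k - xs i)) := by ring
        have t : |l0 + l1 * (h * k - xs i)| ≤ l0 + |l1| * ε := by
          refine (abs_add_le _ _).trans ?_
          rw [abs_of_pos l00, abs_mul]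
          linarith [mul_le_mul_of_nonneg_left r1 (abs_nonneg l1)]
        rw [e, abs_mul, abs_of_pos (by positivity : 0 < 2 * η)]
        exact (mul_le_mul_of_nonneg_left t (by positivity)).trans Nm.ζ3
    · rw [if_neg hi]
      exact side_const (hG i hi) _ _ _ _ _ _
  choose side sd using sides
  choose b1 b2 zn using fun i (y : Γ i × ℤ) => exists_zone (hD i).1 hh S0.le
    (hF i (side i y)).ok hn Nm.g0 Nm.z1 Nm.z2 ((Sp i).touch y.1)
  have ζi : ∀ i, 0 ≤ (if i = j then ζ else 0) ∧ (if i = j then ζ else 0) ≤ ζ := fun i => by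
    split_ifs <;> simp [ζ0]
  have fh : ∀ i, FacH (T i) (D i) (G i) (side i) (b1 i) (b2 i) P |ω i| rz (if i = j then ζ else 0)
      S R gb (g * h / 2) (gb * h * B) (i0 i) (s0 i) B := fun i => by
    have g0 := Nm.g0
    refine ⟨(hD i).1, (hD i).2, Sp i, fun σ => by rw [Ph]; exact (hF i σ).ok,
      fun σ => by rw [Ph]; exact base i σ, by rw [Ph]; exact sd i, by rw [PM]; exact zn i,
      by rw [Ph]; exact hh, ωm0.trans_le (hωm i), by rw [PR]; positivity, (ζi i).1,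
      by positivity, S0.le, by rw [Pc]; exact Nm.c00, by rw [PM]; exact Nm.MB, ?_, ?_, ?_,
      by rw [Ph], by rw [Ph, PM]; exact Nm.z3⟩
    · rw [Ph, PR, Pe]
      have := mul_le_mul_of_nonneg_right (hΩ i) R0.le
      nlinarith
    · rw [Pc, PM]
      exact Nm.c1.trans (mul_le_mul_of_nonneg_right (hωm i) (by positivity))
    · rw [Pc, PR]
      have a1 : (|ω i| + 4 * Lip * R) * (if i = j then ζ else 0) ≤ (Ω + 4 * Lip * R) * ζ :=
        mul_le_mul (by linarith [hΩ i]) (ζi i).2 (ζi i).1 (by positivity)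
      have a2 : ωm * (gb * ε / 8) ≤ |ω i| * (gb * h * B) :=
        mul_le_mul (hωm i) cm (by positivity) (abs_nonneg _)
      linarith [Nm.c2]
  choose RS d hm ρ U φ π v b u π0 pk using fun i => (fh i).pack hn
  let Z : Sys ι fun i => Γ i × ℤ := ⟨RS, d, hm, ρ, U, φ, π, v,
    fun i => |ω i| * ((G i true).A - if i = j then ζ else 0) - P.RK * if i = j then ζ else 0,
    Qf Sm E xs, grf Sm E xs⟩
  have bxs : ∀ l, |xs l| ≤ R := fun l => by
    have f := hF l true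
    have a := f.al
    have := f.ok.bdx (i0 l) (s0 l) ⟨a.1, a.2.1, a.2.2.le⟩
    rwa [f.xx _ (by rw [← f.x0]; simpa using ε0.le), ← f.x0] at this
  have bX : ∀ i y, |(RS i).X y| ≤ R := fun i y => by
    rw [(pk i).X]
    exact (hF i _).ok.bdx _ _ ((Sp i).touch _)
  have OK : Z.OK P (2 * n + 1) Lip :=
    ⟨fun i => (pk i).fac, fun x i u => Qf_upd hS hL hE1 xs x i u, grf_lip hL hE1 xs,
      fun σ i y => by
        rw [PR]
        exact Qf_upd_le hS hL hE1 bxs (fun l => bX l _) i (bX i y),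
      by rw [Ph]; exact hh, by rw [Pe]; positivity, by rw [PR]; positivity, by linarith⟩
  have per : ∀ i, gb * ε ≤ (G i true).A := fun i => by
    have := (base i true).period (hD i).1 (hD i).2 (Sp i) hh gb0.le B1 (hF i true).ok
    linarith
  obtain ⟨im, him, hmin⟩ := Finset.exists_min_image (Finset.univ.erase j)
    (fun i => |ω i| * (G i true).A) ⟨i1, by simp [hij]⟩
  have imj : im ≠ j := (Finset.mem_erase.1 him).1
  have E1 : ωm * (gb * ε) ≤ |ω im| * (G im true).A :=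
    mul_le_mul (hωm im) (per im) (by positivity) (abs_nonneg _)
  have θ0 : 0 < θ := by
    have : (2 : ℝ) ≤ N := by exact_mod_cast Nm.N2
    have : (0 : ℝ) < N - 1 := by linarith
    have := Nm.γ0
    rw [Nm.hθ]
    positivity
  have aj : |ω im| * (G im true).A + 3 * θ ≤ Z.a j := by
    have a1 := hmin i1 (by simp [hij])
    have O' : (G i1 true).OK (D j) h S R := hDD ▸ (hF i1 true).ok
    have a2 := (geo_close (z := Cf * η) (hD j).1 (hD j).2 hh (hF j true).ok O' (by positivity)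
      (cΔ true) (hF j true).al hn).1
    have a3 := per i1
    have a4 : (ω j - |ω i1|) * (gb * ε) ≤ (ω j - |ω i1|) * (G i1 true).A :=
      mul_le_mul_of_nonneg_left a3 (by linarith)
    have a5 : ω j * ((G i1 true).A - n * (4 * R * (Cf * η))) ≤ ω j * (G j true).A :=
      mul_le_mul_of_nonneg_left (by linarith [(abs_le.1 a2).1]) ωj.le
    have a6 : ω j ≤ Ω := (le_abs_self _).trans (hΩ j)
    have a7 : ω j * (n * (4 * R * (Cf * η))) ≤ Ω * (n * (4 * R * (Cf * η))) :=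
      mul_le_mul_of_nonneg_right a6 (by positivity)
    have a8 : ω j * ζ ≤ Ω * ζ := mul_le_mul_of_nonneg_right a6 ζ0
    have := Nm.mg
    simp only [Z, if_true, PR, abs_of_pos ωj]
    linarith
  have ha : ∀ i, |ω im| * (G im true).A ≤ Z.a i := fun i => by
    by_cases hi : i = j
    · rw [hi]; linarith
    · have := hmin i (by simp [hi])
      simp only [Z, hi, if_false, sub_zero, mul_zero]
      exact this
  have bw : ∀ i (a m : ℤ), |a| ≤ (2 * B : ℕ) → (T i).w (b i a m).1 = i0 i + a / 2 :=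
    fun i a m ha => by rw [← (pk i).w]; exact (pk i).box.w a m ha
  have e00 : 0 ≤ (N : ℝ) * (2 * h * (Ω * R + 4 * Lip * R)) := by positivity
  have push := tot_push Z P (2 * n + 1) Lip γ' θ
    (θ + 20 * ((Fintype.card ι * (2 * n + 1) : ℕ) + 2) * (N * P.e0)) OK N _
    (fun σ => ∃ k a : ι → ℤ, k j = 0 ∧ ‖fun i => pos h (a i)‖ ≤ r / 4 ∧
      σ = fun i => b i (a i) (k i)) rfl Nm.γ0 Nm.N2 (by rw [PM]; exact Nm.hM)
    (by rw [Ph]; exact Nm.k1) (by rw [Ph]; exact Nm.hθ) (by rw [Pe]; exact Nm.k2) le_rfl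
    (by rw [Pe, Pc]; linarith [Nm.k4])
    (fun i => by rw [Pe]; linarith [Nm.k4, Nm.k5, ha i]) fun σ => by
      refine (dicho (side := side) hS crit hh hG hF Nm.B1 hL hΩ hE (fun i => (Sp i).touch) hC NC1
        NC2 b bw (fun i => (pk i).sur) η0.le Nm.η1 l00.le Nm.rz0 ζ0 Nm.γ0 Nm.Cq0 Nm.MB Nm.B2 Nm.n2
        Nm.n3 Nm.n4 Nm.n5 Nm.n6 Nm.n7 Nm.n8 Nm.n9 Nm.n10 Nm.n11 Nm.n12 σ).imp_right ?_
      rintro ⟨i, hi⟩
      refine ⟨i, ?_⟩
      have eX : Z.X σ = fun l => (G l (side l (σ l))).x ((T l).w (σ l).1) :=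
        funext fun l => (pk l).X _
      change grf Sm E xs i (Z.X σ) ≤ (RS i).sl true (σ i) - γ' ∨
        (RS i).sl false (σ i) + γ' ≤ grf Sm E xs i (Z.X σ)
      rw [eX, (pk i).lo, (pk i).hi, PM]
      rcases le_abs.1 hi with c | c
      · right; linarith
      · left; linarith
  have NL : ∀ a : ι → ℤ, (lat (fun i => decide (0 < ω i)) P.h (Ff j (Sm - Matrix.diagonal
      fun i => ω i * sl i) E (ω j * η * l0) (ω j * η * l1 / 2))).N a = ‖fun i => pos h (a i)‖ :=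
    fun a => by rw [Ph]; rfl
  refine tot_contra Z P (2 * n + 1) Lip OK j im imj b (2 * B) (fun i => decide (0 < ω i)) u π0 i0
    (fun i => (pk i).box)
    (Ff j (Sm - Matrix.diagonal fun i => ω i * sl i) E (ω j * η * l0) (ω j * η * l1 / 2))
    (fun k => ∑ i, ω i * ((G i true).F (i0 i) (s0 i) + k i * (G i true).A) + Qf Sm E xs xs)
    (fun k a hk ha => ?_) m r R' Θ c ((Ce + 2 * (Ω * R + 4 * Lip * R)) * h) θ
    (|ω im| * (G im true).A) K p ξ (by rw [Ph]; exact hMD.mono_e (by nlinarith [mul_nonneg Ω0 R0.le, mul_nonneg (zero_le_one.trans L1) R0.le])) N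
    (2 * (Fintype.card ι * (2 * n + 1)) + 6) (fun a ha i => ?_) Nm.rR Nm.r0 Nm.cc0
    (fun a ha => ?_) ?_ ha aj (by rw [PM]; exact Nm.M1) (by rw [PM]; have := Nm.hM; nlinarith)
    (by rw [Ph]; exact Nm.hJr) (by rw [Pe]; nlinarith [Nm.Ce0]) Nm.k6 θ0
    (by linarith [Nm.k7, Nm.k5]) Nm.k8 (by rw [Pc]; exact Nm.k7) Nm.k9 _
    (fun σ => by simp only [NL]) push
  · have hσ : ∀ i, (T i).st (b i (a i) (k i)).1 = s0 i ∧ (b i (a i) (k i)).2 = k i ∧
        (T i).w (b i (a i) (k i)).1 = i0 i + a i / 2 := fun i =>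
      ⟨((pk i).st _ _ (ha i)).1, ((pk i).st _ _ (ha i)).2, bw i _ _ (ha i)⟩
    have := level_eq (side := side) hS crit hh hG hF Nm.B1 E nrm (sd j).base
      (fun i => b i (a i) (k i)) k a hk ha hσ
    have eX : Z.X (fun i => b i (a i) (k i)) = fun i => xs i + pos h (a i) := funext fun i => by
      change (RS i).X _ = _
      rw [(pk i).X, (hσ i).2.2]
      exact (box_x hh hF Nm.B1 i _ (ha i)).1
    change ∑ i, (RS i).Λ _ + Qf Sm E xs (Z.X _) = _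
    rw [eX, Finset.sum_congr rfl fun i _ => (pk i).Λ _, this, Ph]
    rfl
  · rw [NL] at ha
    have a1 := (norm_le_pi_norm (fun i => pos h (a i)) i).trans ha
    rw [Real.norm_eq_abs, pos, abs_mul, abs_of_pos hh] at a1
    have a2 : |a i| ≤ 2 * |a i / 2| + 1 := by
      rcases le_total 0 (a i) with c | c
      · rw [abs_of_nonneg c, abs_of_nonneg (by omega)]; omega
      · rw [abs_of_nonpos c, abs_of_nonpos (by omega)]; omega
    have a3 : |(a i : ℝ)| ≤ 2 * |((a i / 2 : ℤ) : ℝ)| + 1 := by exact_mod_cast a2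
    have a4 : h * (|(a i : ℝ)| + 2 * M + 2) ≤ h * (2 * B) := by nlinarith [Nm.hR]
    have a5 := le_of_mul_le_mul_left a4 hh
    rw [PM]
    exact_mod_cast a5
  · rw [NL] at ha
    rw [Ph]
    exact hf _ ha
  · have e : ∑ i, ω i * ((G i true).F (i0 i) (s0 i) + (Pi.single im (u im) : ι → ℤ) i *
        (G i true).A) = ∑ i, ω i * ((G i true).F (i0 i) (s0 i) + (0 : ι → ℤ) i * (G i true).A) +
        ω im * u im * (G im true).A := by
      rw [← sub_eq_iff_eq_add', ← Finset.sum_sub_distrib, Finset.sum_eq_single im]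
      · simp; ring
      · intro i _ hi; simp [hi]
      · simp
    simp only [e, (pk im).uω]
    ring

end Pool.Agent.Lib.MP_5a3ebe_gt.PI
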