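import Pool.Agent.Lib.MP_5a3ebe_gt.PiApprox
import Pool.Agent.Lib.MP_5a3ebe_gt.PiNC

/-! From polygons to curves. -/

set_option linter.unusedSectionVars false
set_option linter.unusedVariables false

namespace Pool.Agent.Lib.MP_5a3ebe_gt.PI

open Ap Classical

theorem curve_aux (hp : PolySt) {ι : Type} [Fintype ι] [DecidableEq ι] {V : Submodule ℂ (ι → ℂ)}
    {ω : ι → ℝ} {j i1 l : ι} (H : VD V ω) (h1 : i1 ≠ j) (h2 : l ≠ j) (h3 : l ≠ i1)
    (h4 : |ω i1| < ω j) {γ : ℝ → ℂ} (hγ : Curve γ) :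
    ∃ v ∈ V, (∀ i, v i ∈ Set.range γ) ∧ ∃ i k, v i ≠ v k := by
  obtain ⟨ϑ, hϑ, hP⟩ := hp ι V ω j i1 l H h1 h2 h3 h4
  obtain ⟨ρ, hρ, hA⟩ := hγ.poly hϑ
  have hK : IsCompact (Set.pi Set.univ fun _ : ι => Set.range γ) :=
    isCompact_univ_pi fun _ => hγ.compact
  have hC : IsClosed ((V : Set (ι → ℂ)) ∩ ⋃ i, {v | ρ / 2 ≤ ‖v i - v i1‖}) :=
    V.closed_of_finiteDimensional.inter (isClosed_iUnion_of_finite fun i =>
      isClosed_le continuous_const (by fun_prop))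
  by_contra hno
  obtain ⟨δ, hδ, hs⟩ := hK.exists_cthickening_subset_open hC.isOpen_compl fun v hv hv' => by
    obtain ⟨i, hi⟩ := Set.mem_iUnion.1 hv'.2
    refine hno ⟨v, hv'.1, fun k => hv k trivial, i, i1, fun e => ?_⟩
    simp only [Set.mem_ofPred_eq, e, sub_self, norm_zero] at hi
    linarith
  obtain ⟨n, _, z, hg, hG, hF, hz⟩ := hA δ hδ
  obtain ⟨v, hv, hvz, i, hi⟩ := hP ρ hρ n z hg hG hF
  choose t ht using fun k => hz (v k) (hvz k)
  refine hs (Metric.mem_cthickening_of_dist_le v (fun k => γ (t k)) δ _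
    (fun k _ => ⟨t k, rfl⟩) ((dist_pi_le_iff hδ.le).2 fun k => ?_))
    ⟨hv, Set.mem_iUnion.2 ⟨i, hi.le⟩⟩
  rw [dist_eq_norm]
  exact ht k

theorem curve_thm (hp : PolySt) : CurveSt := by
  intro ι _ _ V ω H hc ⟨a, b, hab⟩ γ hγ
  obtain ⟨j, -, hj⟩ := Finset.exists_max_image Finset.univ (fun i => |ω i|) ⟨a, Finset.mem_univ a⟩
  obtain ⟨i1, hi⟩ : ∃ i1, |ω i1| < |ω j| := by
    by_contra hn
    push Not at hn
    exact hab (((hj a (Finset.mem_univ a)).antisymm (hn a)).trans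
      ((hj b (Finset.mem_univ b)).antisymm (hn b)).symm)
  have h1 : i1 ≠ j := fun e => by simp [e] at hi
  obtain ⟨l, hl⟩ : ∃ l, l ∉ ({j, i1} : Finset ι) := by
    by_contra hn
    push Not at hn
    have h := Finset.card_le_card (fun x _ => hn x : Finset.univ ⊆ ({j, i1} : Finset ι))
    have h' := Finset.card_le_two (a := j) (b := i1)
    rw [Finset.card_univ] at h
    omega
  simp only [Finset.mem_insert, Finset.mem_singleton, not_or] at hl
  rcases le_total 0 (ω j) with h | h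
  · exact curve_aux hp H h1 hl.1 hl.2 (by rwa [abs_of_nonneg h] at hi) hγ
  · exact curve_aux hp H.neg h1 hl.1 hl.2 (by rwa [abs_neg, ← abs_of_nonpos h]) hγ

end Pool.Agent.Lib.MP_5a3ebe_gt.PI
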