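import Pool.Agent.Lib.MP_5a3ebe_gt.PiDefs

/-! Cuts and the drop of the level across them. -/

set_option linter.unusedSectionVars false
set_option linter.unusedVariables false

namespace Pool.Agent.Lib.MP_5a3ebe_gt.PI

open Ap Classical

variable {κ : Type} [Fintype κ] [DecidableEq κ] {D : Diag κ}

lemma Geo.OK.adm (Gd : D.Good) {G : Geo κ} {h S R : ℝ} (hh : 0 < h) (H : G.OK D h S R) :
    D.Adm (G.lam D) (G.A / 2) := by
  refine H.lev.adm Gd fun k s t hs ht o => ?_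
  obtain ⟨o1, o2⟩ := H.ord k s t hs ht o
  have hx : 0 ≤ G.x (k + 1) - G.x k := by linarith [(H.xs k).1]
  have ha : G.avg k s ≤ G.avg k t := by
    unfold Geo.avg
    linarith
  unfold Geo.Δ
  exact neg_le_neg (mul_le_mul_of_nonneg_right ha hx)

lemma cut_levF {lam : ℤ → κ → ℝ} {μ : ℝ} {i0 i1 j0 : ℤ} {bot : κ → Prop}
    (c : Cut D lam i0 i1 bot μ) (h0 : i0 ≤ j0) (h1 : j0 < i1)
    {F0 : ℤ → κ → ℤ} {A0 : ℤ} (L : D.Lev (fun k s => if k = j0 ∧ bot s then 1 else 0) F0 A0)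
    {j : ℤ} (a0 : i0 ≤ j) (a1 : j < i1) :
    D.Lev (fun k s => if k = j ∧ bot s then (1 : ℝ) else 0)
      (fun i s => (Diag.uF F0 bot j0 j i s : ℝ)) A0 := by
  have ev : ∀ k s q β β', s ∈ D.S → D.J (s, β) = (q, β') → D.wall (s, β) = k + 1 →
      Diag.uF F0 bot j0 j (k + 1) q - F0 (k + 1) q =
        Diag.uF F0 bot j0 j (k + 1) s - F0 (k + 1) s := by
    intro k s q β β' hs hJ hw
    simp only [Diag.uF, add_sub_cancel_left]
    by_cases hk : i0 < k + 1 ∧ k + 1 < i1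
    · have := c.ev s hs β (by omega) (by omega)
      rw [hJ] at this
      simp only [this]
    · split_ifs <;> omega
  refine ⟨fun k s hs => ?_, fun k s q hc => ?_, fun k s q hc => ?_, fun k s q hc => ?_⟩
  · have := L.step k s hs
    have e : Diag.uF F0 bot j0 j (k + 1) s =
        Diag.uF F0 bot j0 j k s + if k = j ∧ bot s then 1 else 0 := by
      simp only [Diag.uF, this]
      by_cases hb : bot s
      · simp only [hb, and_true, if_true]
        split_ifs <;> omega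
      · simp [hb]
    rw [e]
    push_cast
    rfl
  · have := ev k s q true false hc.1 hc.2.1 hc.2.2
    have := L.pass _ _ _ hc
    norm_cast
    omega
  · have e1 := ev k s q false false hc.1 hc.2.1 hc.2.2.1
    have e2 := L.cup _ _ _ hc
    have : Diag.uF F0 bot j0 j (k + 1) q =
        Diag.uF F0 bot j0 j (k + 1) s + if D.dir s then 0 else A0 := by
      omega
    rw [this]
    push_cast
    rfl
  · have e1 := ev k s q true true hc.1 hc.2.1 hc.2.2.1
    have e2 := L.cap _ _ _ hc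
    have : Diag.uF F0 bot j0 j (k + 1) s =
        Diag.uF F0 bot j0 j (k + 1) q + if D.dir q then 0 else A0 := by
      omega
    rw [this]
    push_cast
    rfl

lemma cut_bot_mono {lam : ℤ → κ → ℝ} {μ : ℝ} {i0 i1 : ℤ} {bot : κ → Prop}
    (c : Cut D lam i0 i1 bot μ) {k : ℤ} {s t : κ} (a0 : i0 ≤ k) (a1 : k < i1) (hs : D.Al k s)
    (ht : D.Al k t) (o : D.key k s < D.key k t) (hb : bot t) : bot s := by
  by_contra e
  have := (c.gap k t s a0 a1 ht hs hb e).1
  linarith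

lemma cut_admU (Gd : D.Good) {lam : ℤ → κ → ℝ} {μ : ℝ} {i0 i1 j0 : ℤ} {bot : κ → Prop}
    (c : Cut D lam i0 i1 bot μ) (h0 : i0 ≤ j0) (h1 : j0 < i1)
    {F0 : ℤ → κ → ℤ} {A0 : ℤ} (L : D.Lev (fun k s => if k = j0 ∧ bot s then 1 else 0) F0 A0)
    {j : ℤ} (a0 : i0 ≤ j) (a1 : j < i1) : D.Adm (D.uL F0 A0 bot j0 j) (A0 / 2) := by
  refine (cut_levF c h0 h1 L a0 a1).adm Gd fun k s t hs ht o => ?_
  by_cases e : k = j ∧ bot t
  · obtain ⟨rfl, e⟩ := e
    simp [e, cut_bot_mono c a0 a1 hs ht o e]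
  · rw [if_neg e]
    split_ifs <;> norm_num

lemma cut_stepU {lam : ℤ → κ → ℝ} {μ : ℝ} {i0 i1 j0 : ℤ} {bot : κ → Prop}
    (c : Cut D lam i0 i1 bot μ) (h0 : i0 ≤ j0) (h1 : j0 < i1)
    {F0 : ℤ → κ → ℤ} {A0 : ℤ} (L : D.Lev (fun k s => if k = j0 ∧ bot s then 1 else 0) F0 A0)
    {j : ℤ} (a0 : i0 ≤ j) (a1 : j < i1) {k : ℤ} {s : κ} (hs : D.Al k s) :
    D.uL F0 A0 bot j0 j (k + 1) s - D.uL F0 A0 bot j0 j k s = if k = j ∧ bot s then 1 else 0 := by
  have := (cut_levF c h0 h1 L a0 a1).step k s hs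
  simp only [Diag.uL] at this ⊢
  linarith

/-- Subtracting unit data in the slices `Bx` keeps the data admissible. -/
lemma Cut.box (Gd : D.Good) {lam : ℤ → κ → ℝ} {a μ : ℝ} {i0 i1 j0 : ℤ} {bot : κ → Prop}
    (c : Cut D lam i0 i1 bot μ) (hμ : 0 ≤ μ) (hl : D.Adm lam a) (h0 : i0 ≤ j0) (h1 : j0 < i1)
    {F0 : ℤ → κ → ℤ} {A0 : ℤ} (L : D.Lev (fun k s => if k = j0 ∧ bot s then 1 else 0) F0 A0)
    (Bx : Finset ℤ) (hB : ∀ j ∈ Bx, i0 ≤ j ∧ j < i1) :
    (∀ j, i0 ≤ j → j < i1 → D.Adm (D.uL F0 A0 bot j0 j) (A0 / 2)) ∧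
    D.Adm (fun i s => lam i s - μ * ∑ j ∈ Bx, D.uL F0 A0 bot j0 j i s)
      (a - μ * (Bx.card * (A0 / 2))) := by
  refine ⟨fun j a0 a1 => cut_admU Gd c h0 h1 L a0 a1, ?_⟩
  have ad := fun j hj => cut_admU Gd c h0 h1 L (hB j hj).1 (hB j hj).2
  refine ⟨fun k s t as at' o => ?_, fun k s t hc => ?_, fun k s t hc => ?_, fun k s t hc => ?_⟩
  · have st : ∀ s, D.Al k s → ∑ j ∈ Bx, D.uL F0 A0 bot j0 j (k + 1) s =
        ∑ j ∈ Bx, D.uL F0 A0 bot j0 j k s + if k ∈ Bx ∧ bot s then 1 else 0 := by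
      intro s as
      rw [← sub_eq_iff_eq_add', ← Finset.sum_sub_distrib,
        Finset.sum_congr rfl fun j hj => cut_stepU c h0 h1 L (hB j hj).1 (hB j hj).2 as]
      by_cases hb : bot s <;> simp [hb]
    rw [st s as, st t at']
    have m := hl.mono k s t as at' o
    by_cases e1 : k ∈ Bx ∧ bot s <;> by_cases e2 : k ∈ Bx ∧ bot t
    · rw [if_pos e1, if_pos e2]; linarith
    · rw [if_pos e1, if_neg e2]
      have b := hB k e1.1
      have := (c.gap k s t b.1 b.2 as at' e1.2 fun e => e2 ⟨e1.1, e⟩).2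
      linarith
    · have b := hB k e2.1
      exact absurd ⟨e2.1, cut_bot_mono c b.1 b.2 as at' o e2.2⟩ e1
    · rw [if_neg e1, if_neg e2]; linarith
  · rw [Finset.sum_congr rfl fun j hj => (ad j hj).cup _ _ _ hc, hl.cup _ _ _ hc,
      Finset.sum_add_distrib]
    simp; ring
  · rw [Finset.sum_congr rfl fun j hj => (ad j hj).cap _ _ _ hc, hl.cap _ _ _ hc,
      Finset.sum_add_distrib]
    simp; ring
  · rw [Finset.sum_congr rfl fun j hj => (ad j hj).pass _ _ _ hc, hl.pass _ _ _ hc]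

lemma Cut.le_drop (Gd : D.Good) (C : D.Conn) {lam : ℤ → κ → ℝ} {a μ : ℝ} {i0 i1 : ℤ}
    {bot : κ → Prop} (c : Cut D lam i0 i1 bot μ) (hμ : 0 ≤ μ) (hl : D.Adm lam a) (B : ℕ)
    {i e : ℤ} {s t : κ} (b0 : i0 + B ≤ i) (b1 : i + B ≤ i1) (le : D.Le i e s t)
    (ne : ¬ (bot s ↔ bot t)) : lam i t + e * a ≤ lam i s - μ * B := by
  rcases Nat.eq_zero_or_pos B with rfl | hB
  · simpa using le lam a hl
  have h0 : i0 ≤ i0 := le_rfl
  have h1 : i0 < i1 := by omega
  obtain ⟨F0, A0, L⟩ := D.exists_lev Gd C (fun k s => if k = i0 ∧ bot s then (1 : ℤ) else 0)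
  have key : ∀ u : ℤ, i0 ≤ u → u + B ≤ i1 → (∀ j, u ≤ j → j < u + B →
      D.uL F0 A0 bot i0 j i t + e * (A0 / 2) + 1 ≤ D.uL F0 A0 bot i0 j i s) →
      lam i t + e * a ≤ lam i s - μ * B := by
    intro u u0 u1 hj
    have := le _ _ (c.box Gd hμ hl h0 h1 L (Finset.Ico u (u + B)) fun j hj => by
      have := Finset.mem_Ico.1 hj; omega).2
    have sm := Finset.sum_le_sum (s := Finset.Ico u (u + B)) fun j hj' =>
      hj j (Finset.mem_Ico.1 hj').1 (Finset.mem_Ico.1 hj').2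
    simp only [Finset.sum_add_distrib, Finset.sum_const, Int.card_Ico, add_sub_cancel_left,
      Int.toNat_natCast, nsmul_eq_mul] at this sm
    nlinarith [mul_le_mul_of_nonneg_left sm hμ]
  by_cases hb : bot s
  · have hb' : ¬ bot t := fun e => ne (by tauto)
    refine key (i - B) (by omega) (by omega) fun j a0 a1 => ?_
    have := le _ _ (cut_admU Gd c h0 h1 L (j := i) (by omega) (by omega))
    have lt : j < i := by omega
    simp only [Diag.uL, Diag.uF, hb, hb', lt, lt_self_iff_false, if_true, if_false] at this ⊢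
    push_cast at this ⊢
    linarith
  · have hb' : bot t := by tauto
    refine key i (by omega) (by omega) fun j a0 a1 => ?_
    have := le _ _ (cut_admU Gd c h0 h1 L (j := i - 1) (by omega) (by omega))
    have lt : ¬ j < i := by omega
    have lt' : i - 1 < i := by omega
    simp only [Diag.uL, Diag.uF, hb, hb', lt, lt', if_true, if_false] at this ⊢
    push_cast at this ⊢
    linarith

/-- A strand touching a wall of the corridor crosses the whole corridor. -/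
lemma Geo.Base.alive {G : Geo κ} {h gb : ℝ} {i0 : ℤ} {s0 : κ} {B : ℕ} (H : G.Base D h gb i0 s0 B)
    {i k : ℤ} {s : κ} (ht : D.Touch i s) (hi : |i - i0| ≤ 4 * B) (hk : |k - i0| ≤ 4 * B) :
    D.Al k s := by
  obtain ⟨hs, t1, t2⟩ := ht
  have q1 := H.quiet s hs false
  have q2 := H.quiet s hs true
  simp only [Diag.wall_true, Diag.wall_false] at q1 q2
  rw [abs_le] at hi hk
  exact ⟨hs, by omega, by omega⟩

lemma cut_order (Gd : D.Good) {s t : κ} {a b : ℤ} (hab : a ≤ b)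
    (hs : ∀ k, a ≤ k → k ≤ b → D.Al k s) (ht : ∀ k, a ≤ k → k ≤ b → D.Al k t) :
    D.key a s < D.key a t ↔ D.key b s < D.key b t := by
  induction b, hab using Int.leInduction with
  | base => exact Iff.rfl
  | succ n hn ih =>
    refine (ih (fun k k0 k1 => hs k k0 (by omega)) fun k k0 k1 => ht k k0 (by omega)).trans ?_
    exact Gd.mono n s t (hs n hn (by omega)) (hs _ (by omega) le_rfl) (ht n hn (by omega))
      (ht _ (by omega) le_rfl)

lemma Geo.Base.cut (Gd : D.Good) {G : Geo κ} {h S R gb : ℝ} {i0 : ℤ} {s0 : κ} {B : ℕ}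
    (hh : 0 < h) (O : G.OK D h S R) (H : G.Base D h gb i0 s0 B) {bot : κ → Prop}
    (hb : ∀ s t, D.Al i0 s → D.Al i0 t → bot s → ¬ bot t → D.key i0 s < D.key i0 t) :
    Cut D (G.lam D) (i0 - 4 * B) (i0 + 4 * B) bot (gb * h) := by
  refine ⟨fun s hs β a0 a1 => ?_, fun k s t a0 a1 hs ht bs bt => ?_⟩
  · have := H.quiet s hs β
    omega
  have hk : |k - i0| ≤ 4 * B := by rw [abs_le]; omega
  have hk1 : |k + 1 - i0| ≤ 4 * B := by rw [abs_le]; omega
  have al : ∀ u, D.Al k u → ∀ l, i0 - 4 * B ≤ l → l ≤ i0 + 4 * B → D.Al l u := fun u hu l l0 l1 =>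
    H.alive (i := k) ⟨hu.1, hu.2.1, hu.2.2.le⟩ hk (by rw [abs_le]; omega)
  have o0 := hb s t (al s hs i0 (by omega) (by omega)) (al t ht i0 (by omega) (by omega)) bs bt
  have o : D.key k s < D.key k t := by
    rcases le_total k i0 with e | e
    · exact (cut_order Gd e (fun l l0 l1 => al s hs l (by omega) (by omega))
        fun l l0 l1 => al t ht l (by omega) (by omega)).2 o0
    · exact (cut_order Gd e (fun l l0 l1 => al s hs l (by omega) (by omega))
        fun l l0 l1 => al t ht l (by omega) (by omega)).1 o0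
  refine ⟨o, ?_⟩
  have g := H.gap k s t a0 a1 hs ht o
  have dx : G.x (k + 1) - G.x k = h := by
    rw [H.xs _ hk1, H.xs _ hk]
    push_cast
    ring
  have e1 := O.lev.step k s hs
  have e2 := O.lev.step k t ht
  simp only [Geo.Δ, dx] at e1 e2
  simp only [Geo.lam, e1, e2]
  nlinarith [mul_le_mul_of_nonneg_right g hh.le]

end Pool.Agent.Lib.MP_5a3ebe_gt.PI
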