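import Pool.Agent.Lib.MP_5a3ebe_gt.ApPush
import Pool.Agent.Lib.MP_5a3ebe_gt.ApReal
import Pool.Agent.Lib.MP_5a3ebe_gt.ApTC
import Pool.Agent.Lib.MP_5a3ebe_gt.ApPoly
import Pool.Agent.Lib.MP_5a3ebe_gt.ApFinalA

/-! Vocabulary for the polynomial inscription theorem. -/

namespace Pool.Agent.Lib.MP_5a3ebe_gt.PI

open Ap Classical

/-! ### Chains and operators -/

abbrev Ch (X : Type) := X →₀ F2

abbrev En (X : Type) := Module.End F2 (Ch X)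

noncomputable abbrev sg {X : Type} (s : X) : Ch X := Finsupp.single s 1

/-- The linear map with prescribed values on generators. -/
noncomputable def gen {X X' : Type} (f : X → Ch X') : Ch X →ₗ[F2] Ch X' :=
  Finsupp.linearCombination F2 f

/-- The linear map induced by a map of generators. -/
noncomputable def sh {X X' : Type} (u : X → X') : Ch X →ₗ[F2] Ch X' := Finsupp.lmapDomain F2 F2 u

/-- The generator `t` occurs in the image of the generator `s`. -/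
def Ent {X X' : Type} (M : Ch X →ₗ[F2] Ch X') (s : X) (t : X') : Prop := M (sg s) t ≠ 0

section basic

variable {X X' X'' : Type}

@[simp] lemma gen_sg (f : X → Ch X') (s : X) : gen f (sg s) = f s := by
  simp [gen, sg]

@[simp] lemma sh_sg (u : X → X') (s : X) : sh u (sg s) = sg (u s) := by
  simp [sh, sg]

lemma ext_sg {V : Type} [AddCommGroup V] [Module F2 V] {M N : Ch X →ₗ[F2] V}
    (h : ∀ s, M (sg s) = N (sg s)) : M = N := by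
  refine Finsupp.lhom_ext' fun s => LinearMap.ext_ring ?_
  simpa using h s

lemma sg_ne {s t : X} (h : sg s t ≠ 0) : s = t := by
  by_contra e
  exact h (Finsupp.single_eq_of_ne (Ne.symm e))

lemma eq_sum_sg (y : Ch X) : y = ∑ s ∈ y.support, y s • sg s := by
  conv_lhs => rw [← Finsupp.sum_single y]
  simp [Finsupp.sum, sg]

lemma map_ne {V : Type} [AddCommGroup V] [Module F2 V] (M : Ch X →ₗ[F2] V) {y : Ch X}
    (h : M y ≠ 0) : ∃ s, y s ≠ 0 ∧ M (sg s) ≠ 0 := by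
  rw [eq_sum_sg y, map_sum] at h
  obtain ⟨s, hs, e⟩ := Finset.exists_ne_zero_of_sum_ne_zero h
  refine ⟨s, Finsupp.mem_support_iff.1 hs, fun z => e ?_⟩
  rw [map_smul, z, smul_zero]

lemma apply_ne (M : Ch X →ₗ[F2] Ch X') {y : Ch X} {t : X'} (h : M y t ≠ 0) :
    ∃ s, y s ≠ 0 ∧ Ent M s t :=
  map_ne ((Finsupp.lapply t : Ch X' →ₗ[F2] F2).comp M) h

lemma ent_comp {M : Ch X' →ₗ[F2] Ch X''} {N : Ch X →ₗ[F2] Ch X'} {s t}
    (h : Ent (M.comp N) s t) : ∃ u, Ent N s u ∧ Ent M u t := apply_ne M h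

lemma ent_mul {M N : En X} {s t} (h : Ent (M * N) s t) : ∃ u, Ent N s u ∧ Ent M u t :=
  apply_ne M h

lemma ent_add {M N : Ch X →ₗ[F2] Ch X'} {s t} (h : Ent (M + N) s t) : Ent M s t ∨ Ent N s t :=
  F2.add_ne h

lemma ent_one {s t : X} (h : Ent (1 : En X) s t) : s = t := sg_ne h

lemma ent_sh {u : X → X'} {s t} (h : Ent (sh u) s t) : u s = t := by
  unfold Ent at h
  rw [sh_sg] at h
  exact sg_ne h

lemma ent_sum {α : Type} {A : Finset α} {M : α → Ch X →ₗ[F2] Ch X'} {s t}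
    (h : Ent (∑ i ∈ A, M i) s t) : ∃ i ∈ A, Ent (M i) s t := by
  unfold Ent at h
  rw [LinearMap.sum_apply, Finsupp.finsetSum_apply] at h
  exact Finset.exists_ne_zero_of_sum_ne_zero h

lemma sh_ne {u : X → X'} {y : Ch X} {t} (h : sh u y t ≠ 0) : ∃ s, y s ≠ 0 ∧ u s = t := by
  obtain ⟨s, h1, h2⟩ := apply_ne _ h
  exact ⟨s, h1, ent_sh h2⟩

lemma ch_two (y : Ch X) : y + y = 0 := by
  ext t
  exact F2.add_self _

lemma hom_two (M : Ch X →ₗ[F2] Ch X') : M + M = 0 := by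
  ext1 s
  ext1
  exact ch_two _

end basic

/-- What one round of pushing below the level `b` achieves. -/
def PushSpec {X : Type} (D : En X) (L : X → ℝ) (inner NI : X → Prop) (θ b : ℝ) (g g' : En X) :
    Prop :=
  ∀ s, ((L s < b - 3 * θ / 4 ∨ inner s) → g' (sg s) = 0) ∧
    (L s < b → ∀ t, (Ent g s t → L t < b + θ / 4) ∧
      (Ent (1 + g' * D + D * g) s t → L t < b - θ / 2 ∨ (NI t ∧ L t < b + θ / 4)))

/-! ### Lattice complexes and their Morse data -/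

/-- Vertices of the line complex of type `τ`; the other integers are edges. -/
def vtx (τ : Bool) (a : ℤ) : Prop := (Even a ↔ τ = true)

/-- The boundary operator of the line. -/
noncomputable def lineδ (τ : Bool) : En ℤ :=
  gen fun a => if vtx τ a then 0 else sg (a + 1) + sg (a - 1)

/-- The position of a cell of the line. -/
noncomputable def pos (h : ℝ) (a : ℤ) : ℝ := h * ((a / 2 : ℤ) : ℝ)

structure Cx (T : Type) where
  b : En T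
  N : T → ℝ
  deg : T → F2
  f : T → ℝ

/-- The product of a complex with a line. -/
noncomputable def Cx.ext {T : Type} (C : Cx T) (τ : Bool) (h : ℝ) (ψ : ℤ → T → ℝ) :
    Cx (ℤ × T) where
  b := gen fun x : ℤ × T =>
    sh (fun a => (a, x.2)) (lineδ τ (sg x.1)) + sh (fun t => (x.1, t)) (C.b (sg x.2))
  N := fun x => max |pos h x.1| (C.N x.2)
  deg := fun x => (x.1 : F2) + C.deg x.2
  f := fun x => C.f x.2 + ψ x.1 x.2

/-- Morse data: a filtered contraction of the complex, near the origin, onto one class. -/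
structure MD {T : Type} (C : Cx T) (m : F2) (r R Θ c e : ℝ) (K : En T) (p : Ch T)
    (ξ : Ch T →ₗ[F2] F2) : Prop where
  k1 : ∀ s t, C.N s ≤ r → Ent K s t → C.f t ≤ C.f s + e ∧ C.N t ≤ R
  k2 : ∀ s t, C.N s ≤ r → ((1 + K * C.b + C.b * K) (sg s) + ξ (sg s) • p) t ≠ 0 →
    C.f t ≤ -Θ ∧ C.N t ≤ R
  p1 : ∀ t, p t ≠ 0 → C.deg t = m ∧ C.N t ≤ R ∧ C.f t ≤ e - c * C.N t ^ 2
  p2 : ∀ t, C.b p t ≠ 0 → C.f t ≤ -Θ ∧ C.N t ≤ R
  x1 : ∀ s, ξ (sg s) ≠ 0 → C.deg s = m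
  x2 : ∀ s, C.N s ≤ r → ξ (sg s) ≠ 0 → -e ≤ C.f s
  x3 : ∀ s, ξ (C.b (sg s)) = 0
  x4 : ξ p = 1
  x5 : ∀ t, p t ≠ 0 → ξ (sg t) ≠ 0 → -e ≤ C.f t

lemma MD.mono {T : Type} {C : Cx T} {m r r' R Θ c e K p ξ} (H : MD C m r R Θ c e K p ξ)
    (h : r' ≤ r) : MD C m r' R Θ c e K p ξ :=
  ⟨fun s t a => H.k1 s t (a.trans h), fun s t a => H.k2 s t (a.trans h), H.p1, H.p2, H.x1,
    fun s a => H.x2 s (a.trans h), H.x3, H.x4, H.x5⟩

/-- Morse data exist at all small mesh sizes, inside any prescribed radius. -/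
def MorseF {T : Type} (C : ℝ → Cx T) : Prop :=
  ∃ m : F2, ∀ R : ℝ, 0 < R → ∃ r Θ c Ce h0 : ℝ, 0 < r ∧ 0 < Θ ∧ 0 < c ∧ 0 < Ce ∧ 0 < h0 ∧
    ∀ h : ℝ, 0 < h → h ≤ h0 → ∃ K p ξ, MD (C h) m r R Θ c (Ce * h) K p ξ

structure Reg {T : Type} (C : Cx T) (l : T → ℝ) (h Λ R1 : ℝ) : Prop where
  bb : C.b * C.b = 0
  N0 : ∀ t, 0 ≤ C.N t
  adj : ∀ t t', Ent C.b t t' → C.N t' ≤ C.N t + h ∧ C.deg t' = C.deg t + 1 ∧
    |l t' - l t| ≤ Λ * h ∧ (C.N t ≤ R1 → |C.f t' - C.f t| ≤ Λ * h)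
  lb : ∀ t, |l t| ≤ Λ * C.N t
  fb : ∀ t, C.N t ≤ R1 → |C.f t| ≤ Λ * C.N t

structure Prof (φ : ℝ → ℝ) (Λ κ R1 : ℝ) : Prop where
  zero : φ 0 = 0
  mono : MonotoneOn φ (Set.Icc 0 R1)
  anti : AntitoneOn φ (Set.Icc (-R1) 0)
  lip : ∀ u v, |u| ≤ R1 → |v| ≤ R1 → |φ u - φ v| ≤ Λ * |u - v|
  low : ∀ u, |u| ≤ R1 → κ * u ^ 2 ≤ φ u

/-- An operator acting in one coordinate of a product. -/
noncomputable def lft {ι : Type} [DecidableEq ι] {Y : ι → Type} (i : ι) (M : En (Y i)) :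
    En (∀ i, Y i) :=
  gen fun σ => sh (Function.update σ i) (M (sg (σ i)))

/-- The cubical complex of the lattice, with the level function `F`. -/
noncomputable def lat {ι : Type} [Fintype ι] [DecidableEq ι] (τ : ι → Bool) (h : ℝ)
    (F : (ι → ℝ) → ℝ) : Cx (ι → ℤ) where
  b := ∑ i, lft (Y := fun _ => ℤ) i (lineδ (τ i))
  N := fun a => ‖fun i => pos h (a i)‖
  deg := fun a => ∑ i, (a i : F2)
  f := fun a => F fun i => pos h (a i)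

/-! ### One factor -/

structure Prm where
  h : ℝ
  RK : ℝ
  e0 : ℝ
  c0 : ℝ
  M : ℕ

structure RD (Y : Type) where
  w : Y → ℤ
  X : Y → ℝ
  Λ : Y → ℝ
  In : Y → Y → Prop
  sl : Bool → Y → ℝ

namespace RD

variable {Y : Type} (S : RD Y) (P : Prm)

def ds (ε : Bool) (y y' : Y) : ℤ := if ε then S.w y' - S.w y else S.w y - S.w y'

def dX (ε : Bool) (y y' : Y) : ℝ := if ε then S.X y' - S.X y else S.X y - S.X y'

def tot (y y' : Y) : ℝ := S.Λ y' - S.Λ y + P.RK * |S.X y' - S.X y|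

/-- A monotone move of at most `n` steps. -/
structure Mv (ε : Bool) (n : ℕ) (y y' : Y) : Prop where
  lo : 0 ≤ S.ds ε y y'
  hi : S.ds ε y y' ≤ n
  le : S.tot P y y' ≤ n * P.e0
  zn : ∀ y0, |S.w y - S.w y0| ≤ P.M → |S.w y' - S.w y0| ≤ P.M → S.In y0 y ∨ S.In y0 y' →
    S.tot P y y' ≤ n * P.e0 - P.c0 ∨ (S.In y0 y ∧ S.In y0 y' ∧
      P.h / 2 * S.ds ε y y' ≤ S.dX ε y y' ∧ S.dX ε y y' ≤ 2 * P.h * S.ds ε y y' ∧
      S.Λ y' - S.Λ y ≤ -(S.sl ε y0 * (S.X y' - S.X y)))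

def neg : RD Y := { S with Λ := fun y => -S.Λ y, sl := fun ε y => -S.sl (!ε) y }

/-- The relational part of a factor. -/
structure Rel (Ed : Y → Y → Prop) (Eh Eρ : Bool → Y → Y → Prop) (U : Y ≃ Y) (φ : Y → ℕ)
    (P0 : ℕ) (π : Y → F2) (v : Bool → Y → ℤ) (a : ℝ) : Prop where
  refl : ∀ y, S.In y y
  dM : ∃ ε, ∀ y y', Ed y y' → S.Mv P ε 1 y y'
  hM : ∀ ε y y', Eh ε y y' → S.Mv P ε 1 y y'
  ρM : ∀ ε y y', Eρ ε y y' → S.Mv P ε 1 y y'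
  dφ : ∀ y y', Ed y y' → π y' = π y + 1 ∧ (φ y' < φ y ∨ S.tot P y y' ≤ -P.c0)
  φP : ∀ y, φ y ≤ P0
  pot : ∀ ε y y', Eρ ε y y' → v ε y' = v ε y + 1
  vw : ∀ ε y y', v ε y' - v ε y - 1 ≤ S.ds ε y y'
  Ud : ∀ y, S.tot P y (U y) ≤ -a

/-- A factor: a curved complex with two homotopies. -/
structure Fac (d : En Y) (h ρ : Bool → En Y) (U : Y ≃ Y) (φ : Y → ℕ) (P0 : ℕ) (π : Y → F2)
    (v : Bool → Y → ℤ) (a : ℝ) : Prop where
  dd : d * d = sh U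
  Uh : ∀ ε, (sh U : En Y) * h ε = h ε * (sh U : En Y)
  hom : ∀ ε, d * h ε + h ε * d = 1 + ρ ε
  rel : S.Rel P (Ent d) (fun ε => Ent (h ε)) (fun ε => Ent (ρ ε)) U φ P0 π v a

/-- A family of copies `b · m` of a piece of the line complex inside a factor. -/
structure Box (Ed : Y → Y → Prop) (U : Y ≃ Y) (π : Y → F2) (b : ℤ → ℤ → Y) (B0 : ℕ) (τ : Bool)
    (u : ℤ) (π0 : F2) (i0 : ℤ) : Prop where
  w : ∀ a m : ℤ, |a| ≤ B0 → S.w (b a m) = i0 + a / 2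
  inj : ∀ a m a' m' : ℤ, |a| ≤ B0 → |a'| ≤ B0 → b a m = b a' m' → a = a' ∧ m = m'
  U : ∀ a m, U (b a m) = b a (m + u)
  u0 : u ≠ 0
  par : ∀ a m : ℤ, |a| ≤ B0 → π (b a m) = π0 + a
  near : ∀ (a m : ℤ) y, |a| + 2 * P.M + 2 ≤ B0 → S.In (b a m) y → |S.w y - S.w (b a m)| ≤ P.M →
    ∃ a' : ℤ, |a'| ≤ B0 ∧ y = b a' m
  inN : ∀ a m : ℤ, |a| + 1 ≤ B0 → S.In (b a m) (b (a + 1) m) ∧ S.In (b a m) (b (a - 1) m)
  out : ∀ (a m : ℤ) y, |a| + 1 ≤ B0 → S.In (b a m) y →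
    (Ed (b a m) y ↔ ¬ vtx τ a ∧ (y = b (a + 1) m ∨ y = b (a - 1) m))
  inn : ∀ (a m : ℤ) y, |a| + 1 ≤ B0 → S.In (b a m) y →
    (Ed y (b a m) ↔ vtx τ a ∧ (y = b (a + 1) m ∨ y = b (a - 1) m))

end RD

/-- The lift of a matrix to an operator of degree `e` on the cyclic cover. -/
noncomputable def lift {G : Type} [Fintype G] (κ : G → ℤ) (e : ℤ) (M : Matrix G G F2) :
    En (G × ℤ) :=
  gen fun y => ∑ g', if Even (κ y.1 + e - κ g') then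
    M y.1 g' • sg (g', y.2 + (κ y.1 + e - κ g') / 2) else 0

/-- The entries of a lifted matrix. -/
def LEnt {G : Type} (κ : G → ℤ) (e : ℤ) (M : Matrix G G F2) (y y' : G × ℤ) : Prop :=
  M y.1 y'.1 ≠ 0 ∧ 2 * y'.2 + κ y'.1 = 2 * y.2 + κ y.1 + e

/-- The deck transformation. -/
def shU (G : Type) (q : ℤ) : G × ℤ ≃ G × ℤ := (Equiv.refl G).prodCongr (Equiv.addRight q)

/-! ### The product -/

structure Sys (ι : Type) (Y : ι → Type) where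
  S : ∀ i, RD (Y i)
  d : ∀ i, En (Y i)
  h : ∀ i, Bool → En (Y i)
  ρ : ∀ i, Bool → En (Y i)
  U : ∀ i, Y i ≃ Y i
  φ : ∀ i, Y i → ℕ
  π : ∀ i, Y i → F2
  v : ∀ i, Bool → Y i → ℤ
  a : ι → ℝ
  Q : (ι → ℝ) → ℝ
  gr : ι → (ι → ℝ) → ℝ

namespace Sys

variable {ι : Type} [Fintype ι] [DecidableEq ι] {Y : ι → Type} (Z : Sys ι Y)

def X (σ : ∀ i, Y i) : ι → ℝ := fun i => (Z.S i).X (σ i)

noncomputable def L (σ : ∀ i, Y i) : ℝ := ∑ i, (Z.S i).Λ (σ i) + Z.Q (Z.X σ)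

noncomputable def D : En (∀ i, Y i) := ∑ i, lft i (Z.d i)

def good (γ : ℝ) (σ : ∀ i, Y i) : Prop :=
  ∃ i, Z.gr i (Z.X σ) ≤ (Z.S i).sl true (σ i) - γ ∨ (Z.S i).sl false (σ i) + γ ≤ Z.gr i (Z.X σ)

def Near (P : Prm) (N : ℕ) (σ0 : ∀ i, Y i) (n : ℕ) (σ : ∀ i, Y i) : Prop :=
  ∀ i, |(Z.S i).w (σ i) - (Z.S i).w (σ0 i)| ≤ (n * N : ℕ) ∧ (Z.S i).In (σ0 i) (σ i) ∧
    |(Z.S i).X (σ i) - (Z.S i).X (σ0 i)| ≤ 2 * P.h * (n * N : ℕ)

structure OK (P : Prm) (P0 : ℕ) (Lip : ℝ) : Prop where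
  fac : ∀ i, (Z.S i).Fac P (Z.d i) (Z.h i) (Z.ρ i) (Z.U i) (Z.φ i) P0 (Z.π i) (Z.v i) (Z.a i)
  q1 : ∀ x i u, Z.Q (Function.update x i u) ≤ Z.Q x + Z.gr i x * (u - x i) + Lip * (u - x i) ^ 2
  q2 : ∀ i x x' s, (∀ l, |x l - x' l| ≤ s) → |Z.gr i x - Z.gr i x'| ≤ Lip * s
  q3 : ∀ σ i y, Z.Q (Function.update (Z.X σ) i ((Z.S i).X y)) ≤
    Z.Q (Z.X σ) + P.RK * |(Z.S i).X y - (Z.S i).X (σ i)|
  h0 : 0 < P.h
  e0 : 0 ≤ P.e0
  RK : 0 ≤ P.RK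
  Lip0 : 0 ≤ Lip

end Sys

/-! ### Geometric data on a diagram -/

structure Geo (κ : Type) where
  x : ℤ → ℝ
  Y : ℤ → κ → ℝ
  F : ℤ → κ → ℝ
  A : ℝ

namespace Geo

variable {κ : Type} (G : Geo κ)

noncomputable def avg (k : ℤ) (s : κ) : ℝ := (G.Y k s + G.Y (k + 1) s) / 2

noncomputable def Δ (k : ℤ) (s : κ) : ℝ := -(G.avg k s * (G.x (k + 1) - G.x k))

noncomputable def lam (D : Diag κ) (i : ℤ) (s : κ) : ℝ := G.F i s - if D.dir s then G.A / 2 else 0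

structure OK (D : Diag κ) (h S R : ℝ) : Prop where
  lev : D.Lev G.Δ G.F G.A
  xs : ∀ k, h / 2 ≤ G.x (k + 1) - G.x k ∧ G.x (k + 1) - G.x k ≤ 2 * h
  ord : ∀ k s t, D.Al k s → D.Al k t → D.key k s < D.key k t →
    G.Y k s ≤ G.Y k t ∧ G.Y (k + 1) s ≤ G.Y (k + 1) t
  lip : ∀ k s, D.Al k s → |G.Y (k + 1) s - G.Y k s| ≤ S * h
  ev : ∀ s ∈ D.S, ∀ β, G.Y (D.wall (s, β)) (D.J (s, β)).1 = G.Y (D.wall (s, β)) s
  bdY : ∀ i s, D.Touch i s → |G.Y i s| ≤ R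
  bdx : ∀ i s, D.Touch i s → |G.x i| ≤ R

/-- A corridor of `8 B` slices without events, in which the strands are `gb` apart. -/
structure Base (D : Diag κ) (h gb : ℝ) (i0 : ℤ) (s0 : κ) (B : ℕ) : Prop where
  quiet : ∀ s ∈ D.S, ∀ β, D.wall (s, β) < i0 - 4 * B ∨ i0 + 4 * B < D.wall (s, β)
  al : D.Al i0 s0
  gap : ∀ k s t, i0 - 4 * B ≤ k → k < i0 + 4 * B → D.Al k s → D.Al k t → D.key k s < D.key k t →
    gb ≤ G.avg k t - G.avg k s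
  xs : ∀ i, |i - i0| ≤ 4 * B → G.x i = h * i

/-- The same in terms of lengths, with the height of the base strand. -/
structure Frame (D : Diag κ) (h S R ε gb xs ys sl : ℝ) (i0 : ℤ) (s0 : κ) : Prop where
  ok : G.OK D h S R
  x0 : xs = h * i0
  quiet : ∀ s ∈ D.S, ∀ β, ε < |h * D.wall (s, β) - xs|
  al : D.Al i0 s0
  gap : ∀ (k : ℤ) s t, |h * k - xs| ≤ ε → |h * (k + 1) - xs| ≤ ε → D.Al k s → D.Al k t →
    D.key k s < D.key k t → gb ≤ G.avg k t - G.avg k s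
  xx : ∀ i : ℤ, |h * i - xs| ≤ ε → G.x i = h * i
  ht : ∀ i : ℤ, |h * i - xs| ≤ ε → G.Y i s0 = ys + sl * (h * i - xs)

end Geo

/-- Between the walls `i0` and `i1` the strands in `bot` lie below the others, and the increments
of `lam` differ by at least `μ`. -/
structure Cut {κ : Type} (D : Diag κ) (lam : ℤ → κ → ℝ) (i0 i1 : ℤ) (bot : κ → Prop) (μ : ℝ) :
    Prop where
  ev : ∀ s ∈ D.S, ∀ β, i0 < D.wall (s, β) → D.wall (s, β) < i1 → (bot (D.J (s, β)).1 ↔ bot s)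
  gap : ∀ k s t, i0 ≤ k → k < i1 → D.Al k s → D.Al k t → bot s → ¬ bot t →
    D.key k s < D.key k t ∧ lam (k + 1) t - lam k t + μ ≤ lam (k + 1) s - lam k s

section factor

variable {κ Γ : Type} (T : TC κ Γ) (D : Diag κ)

/-- The degree offset of a generator. -/
def kap (g : Γ) : ℤ := (if D.dir (T.st g) then 1 else 0) + if T.sl g then 1 else 0

/-- A lifted step of degree `e`. -/
def LS (e : ℤ) (y y' : Γ × ℤ) : Prop :=
  T.Step D e y.1 y'.1 ∧ 2 * y'.2 + kap T D y'.1 = 2 * y.2 + kap T D y.1 + e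

/-- The level of a lifted generator for the geometry `G`. -/
noncomputable def lev (G : Geo κ) (y : Γ × ℤ) : ℝ := G.F (T.w y.1) (T.st y.1) + y.2 * G.A

/-- The step crosses the slice `i0` along the base strand in the sheet zero. -/
def Cross (i0 : ℤ) (s0 : κ) (y y' : Γ × ℤ) : Prop :=
  T.st y.1 = s0 ∧ T.st y'.1 = s0 ∧ y.2 = 0 ∧ y'.2 = 0 ∧
    ((T.w y.1 = i0 ∧ T.w y'.1 = i0 + 1) ∨ (T.w y.1 = i0 + 1 ∧ T.w y'.1 = i0))

/-- Two geometries glued along a choice of side. -/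
structure Side (G : Bool → Geo κ) (side : Γ × ℤ → Bool) (h R ζ cm : ℝ) (i0 : ℤ) (s0 : κ)
    (B : ℕ) : Prop where
  base : ∀ y : Γ × ℤ, T.st y.1 = s0 → |T.w y.1 - i0| ≤ 4 * B →
    side y = decide (0 < y.2 ∨ (y.2 = 0 ∧ i0 < T.w y.1))
  chg : ∀ e y y', |e| ≤ 1 → LS T D e y y' → G (side y) ≠ G (side y') →
    (∀ σ, lev T (G σ) y' - lev T (G σ) y ≤ 2 * h * R - cm) ∨ Cross T i0 s0 y y'
  cmp : ∀ (y y' : Γ × ℤ) σ, |y'.2 - y.2| ≤ 1 →
    |(lev T (G (side y')) y' - lev T (G (side y)) y) - (lev T (G σ) y' - lev T (G σ) y)| ≤ ζ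
  nrm : (G true).F i0 s0 = (G false).F i0 s0
  cx : ∀ i, |(G true).x i - (G false).x i| ≤ ζ
  cy : ∀ i, |i - i0| ≤ 4 * B → |(G true).Y i s0 - (G false).Y i s0| ≤ ζ

/-- Generators close to the kink. -/
def Kink (i0 : ℤ) (s0 : κ) (M : ℕ) (y : Γ × ℤ) : Prop :=
  T.st y.1 = s0 ∧ y.2 = 0 ∧ |T.w y.1 - i0| ≤ M + 1

/-- The data of the factor; `b1 y0`, `b2 y0` are the cuts below and above the strand of `y0`. -/
noncomputable def facRD (G : Bool → Geo κ) (side : Γ × ℤ → Bool) (b1 b2 : Γ × ℤ → κ → Prop)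
    (ω rz ζ : ℝ) (i0 : ℤ) (s0 : κ) (B M : ℕ) : RD (Γ × ℤ) where
  w := fun y => T.w y.1
  X := fun y => (G (side y)).x (T.w y.1)
  Λ := fun y => ω * lev T (G (side y)) y
  In := fun y0 y =>
    if T.st y0.1 = s0 ∧ |T.w y0.1 - i0| ≤ 2 * B then T.st y.1 = s0 ∧ y.2 = y0.2
    else b2 y0 (T.st y.1) ∧ ¬ b1 y0 (T.st y.1) ∧ G (side y) = G (side y0) ∧
      (|T.w y0.1 - i0| ≤ 2 * B → T.st y.1 ≠ s0)
  sl := fun ε y => ω * ((G (side y)).Y (T.w y.1) (T.st y.1) +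
    (if ε then -1 else 1) * (rz + if Kink T i0 s0 M y then ζ else 0))

/-- The cuts `b1`, `b2` enclose the strand `s` near the wall `i`, within the height `rz`. -/
structure Zn (G : Geo κ) (i : ℤ) (s : κ) (M : ℕ) (μ rz : ℝ) (b1 b2 : κ → Prop) : Prop where
  c1 : Cut D (G.lam D) (i - 2 * M) (i + 2 * M) b1 μ
  c2 : Cut D (G.lam D) (i - 2 * M) (i + 2 * M) b2 μ
  n1 : ¬ b1 s
  n2 : b2 s
  ht : ∀ k t, i - 2 * M ≤ k → k < i + 2 * M → D.Al k t → b2 t → ¬ b1 t →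
    |G.avg k t - G.Y i s| ≤ rz

end factor

/-! ### Plane geometry -/

/-- The trace of a closed polygon. -/
def polySet {n : ℕ} (z : ZMod n → ℂ) : Set ℂ := ⋃ v, segment ℝ (z v) (z (v + 1))

/-- At the scale `ρ` the set is a graph of small slope over a segment. -/
def Flat (P : Set ℂ) (ρ ϑ : ℝ) : Prop :=
  ∀ p ∈ P, ∃ τ : ℂ, ‖τ‖ = 1 ∧
    (∀ a ∈ P, ∀ b ∈ P, ‖a - p‖ ≤ ρ → ‖b - p‖ ≤ ρ →
      |((a - b) * (starRingEnd ℂ) τ).im| ≤ ϑ * ‖a - b‖) ∧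
    ∀ u : ℝ, |u| ≤ ρ / 2 → ∃ q ∈ P, ‖q - p‖ ≤ ρ ∧ ((q - p) * (starRingEnd ℂ) τ).re = u

/-- A generic simple polygon with vertices on a grid. -/
structure GP {n : ℕ} (z : ZMod n → ℂ) (hg : ℝ) : Prop where
  three : 3 ≤ n
  simple : SimplePoly z
  re : ∀ i j, (z i).re = (z j).re → i = j
  im : ∀ i j, (z i).im = (z j).im → i = j
  hg0 : 0 < hg
  grid : ∀ i, ∃ a b : ℤ, (z i).re = hg * a ∧ (z i).im = hg * b

/-- The abscissa `x` lies under the edge `s`. -/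
def Under {n : ℕ} (z : ZMod n → ℂ) (s : ZMod n) (x : ℝ) : Prop :=
  min (z s).re (z (s + 1)).re ≤ x ∧ x ≤ max (z s).re (z (s + 1)).re

/-- The height of the edge `s` over `x`. -/
noncomputable def eh {n : ℕ} (z : ZMod n → ℂ) (s : ZMod n) (x : ℝ) : ℝ :=
  lineH (z s) (z (s + 1)) x

/-- A displacement field along a polygon whose horizontal part depends on the abscissa only. -/
structure Fld {n : ℕ} (z : ZMod n → ℂ) (g : ℝ → ℝ) (ψ : ZMod n → ℝ → ℝ) (C xs ε1 l0 l1 : ℝ)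
    (s0 : ZMod n) : Prop where
  C0 : 0 ≤ C
  glip : ∀ x x', |g x - g x'| ≤ C * |x - x'|
  gbd : ∀ x, |g x| ≤ C
  g0 : ∀ x, |x - xs| ≤ ε1 → g x = 0
  plip : ∀ s x x', |ψ s x - ψ s x'| ≤ C * |x - x'|
  pbd : ∀ s x, Under z s x → |ψ s x| ≤ C
  p0 : ∀ x, |x - xs| ≤ ε1 → ψ s0 x = l0 + l1 * (x - xs)
  vert : ∀ v, ψ v (z (v + 1)).re = ψ (v + 1) (z (v + 1)).re
  ord : ∀ s t x, Under z s x → Under z t x → |ψ s x - ψ t x| ≤ C * |eh z s x - eh z t x|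

/-- The displaced point. -/
noncomputable def disp {n : ℕ} (z : ZMod n → ℂ) (g : ℝ → ℝ) (ψ : ZMod n → ℝ → ℝ) (t : ℝ)
    (s : ZMod n) (x : ℝ) : ℂ := ⟨x + t * g x, eh z s x + t * ψ s x⟩

/-- The geometry of the displaced polygon on the grid of mesh `h`. -/
noncomputable def pgeo {n : ℕ} (z : ZMod n → ℂ) (g : ℝ → ℝ) (ψ : ZMod n → ℝ → ℝ) (h t : ℝ)
    (F : ℤ → ZMod n → ℝ) (A : ℝ) : Geo (ZMod n) where
  x := fun i => (disp z g ψ t 0 (h * i)).re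
  Y := fun i s => (disp z g ψ t s (h * i)).im
  F := F
  A := A

/-- The frame in which the coordinate `l` is turned by a right angle. -/
noncomputable def fr {ι : Type} [DecidableEq ι] (l k : ι) : ℂ := if k = l then -Complex.I else 1

/-- The defect of the configuration `z` in the coordinate `i`. -/
noncomputable def mis {ι : Type} [Fintype ι] [DecidableEq ι] (Sm : Matrix ι ι ℝ) (ω : ι → ℝ)
    (l : ι) (z : ι → ℂ) (i : ι) : ℝ :=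
  (Sm.mulVec fun k => (fr l k * z k).re) i - ω i * (fr l i * z i).im

/-- A complex subspace which is Lagrangian for the weights `ω` and meets the real points cleanly
in the constants. -/
structure VD {ι : Type} [Fintype ι] [DecidableEq ι] (V : Submodule ℂ (ι → ℂ)) (ω : ι → ℝ) :
    Prop where
  ne : ∀ i, ω i ≠ 0
  one : (fun _ => 1) ∈ V
  sum : ∀ v ∈ V, ∑ i, (ω i : ℂ) * v i = 0
  clean : ∀ v ∈ V, (∀ i, (v i).im = 0) → ∀ i k, v i = v k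
  frame : ∀ l, ∃ Sm : Matrix ι ι ℝ, Sm.IsSymm ∧ ∀ z, z ∈ V ↔ ∀ i, mis Sm ω l z i = 0

/-- Values at the points `q` of the polynomials of degree less than `n`. -/
noncomputable def evV {ι : Type} (n : ℕ) (q : ι → ℂ) : Submodule ℂ (ι → ℂ) :=
  Submodule.span ℂ (Set.range fun k : Fin n => fun i => q i ^ (k : ℕ))

/-- A regular closed simple curve of class `C¹` and period one. -/
structure Curve (γ : ℝ → ℂ) : Prop where
  smooth : ContDiff ℝ 1 γ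
  per : Function.Periodic γ 1
  inj : Set.InjOn γ (Set.Ico 0 1)
  reg : ∀ t, deriv γ t ≠ 0

/-- A closed curve which is almost linear at the parameter scale `δ0`. -/
structure AL (c : ℝ → ℂ) (m δ0 ρ ϑ : ℝ) : Prop where
  cont : Continuous c
  per : Function.Periodic c 1
  loc : ∀ t0 : ℝ, ∃ T : ℂ, m ≤ ‖T‖ ∧ ∀ s t : ℝ, |s - t0| ≤ δ0 → |t - t0| ≤ δ0 →
    ‖c t - c s - ((t - s : ℝ) : ℂ) * T‖ ≤ ϑ * m * |t - s|
  far : ∀ s t : ℝ, (∀ k : ℤ, δ0 ≤ |t - s - k|) → ρ < ‖c t - c s‖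

/-- The theorem for flat polygons. -/
def PolySt : Prop :=
  ∀ (ι : Type) [Fintype ι] [DecidableEq ι] (V : Submodule ℂ (ι → ℂ)) (ω : ι → ℝ) (j i1 l : ι),
    VD V ω → i1 ≠ j → l ≠ j → l ≠ i1 → |ω i1| < ω j → ∃ ϑ : ℝ, 0 < ϑ ∧ ∀ ρ : ℝ, 0 < ρ →
    ∀ (n : ℕ) [NeZero n] (z : ZMod n → ℂ) (hg : ℝ), GP z hg → Flat (polySet z) ρ ϑ →
      ∃ v ∈ V, (∀ i, v i ∈ polySet z) ∧ ∃ i, ρ / 2 < ‖v i - v i1‖

/-- The theorem for curves, when the weights are not all equal. -/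
def CurveSt : Prop :=
  ∀ (ι : Type) [Fintype ι] [DecidableEq ι] (V : Submodule ℂ (ι → ℂ)) (ω : ι → ℝ),
    VD V ω → 3 ≤ Fintype.card ι → (∃ i k, |ω i| ≠ |ω k|) → ∀ γ, Curve γ →
      ∃ v ∈ V, (∀ i, v i ∈ Set.range γ) ∧ ∃ i k, v i ≠ v k

/-- The theorem for points of the unit circle. -/
def CircSt : Prop :=
  ∀ (n : ℕ), 2 ≤ n → ∀ q : Fin (2 * n) → ℂ, Function.Injective q → (∀ i, ‖q i‖ = 1) →
    ∀ γ, Curve γ → ∃ v ∈ evV n q, (∀ i, v i ∈ Set.range γ) ∧ ∃ i k, v i ≠ v k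

/-- The combinatorial core. -/
def CoreSt : Prop :=
  ∀ (ι : Type) [Fintype ι] [DecidableEq ι] (j i1 : ι) (ω : ι → ℝ) (Sm : Matrix ι ι ℝ) (n : ℕ)
    (S R ε gb γ1 C l0 l1 : ℝ) (xs ys sl : ι → ℝ),
    i1 ≠ j → (∀ i, ω i ≠ 0) → |ω i1| < ω j → Sm.IsSymm → 0 < S → 0 < R → 0 < ε → 0 < gb →
    0 < γ1 → 0 ≤ C → 0 < l0 → (∀ i, Sm.mulVec xs i = ω i * ys i) →
    ∃ η0 : ℝ, 0 < η0 ∧ ∀ η : ℝ, 0 < η → η ≤ η0 → ∀ γ : ℝ, 0 < γ → ∃ h0 : ℝ, 0 < h0 ∧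
    ∀ h : ℝ, 0 < h → h ≤ h0 → ∀ (κ : Type) [Fintype κ] [DecidableEq κ], Fintype.card κ ≤ n →
    ∀ (D : ι → Diag κ) (G : ι → Bool → Geo κ) (i0 : ι → ℤ) (s0 : ι → κ),
      (∀ i, (D i).Good ∧ (D i).Conn) → (∀ i, i ≠ j → G i true = G i false) →
      (∀ i σ, (G i σ).Frame (D i) h S R ε gb (xs i)
        (ys i + if i = j then (if σ then η else -η) * l0 else 0)
        (sl i + if i = j then (if σ then η else -η) * l1 else 0) (i0 i) (s0 i)) →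
      (∀ t, (D j).Al (i0 j) t → t ≠ s0 j → (D j).key (i0 j) (s0 j) < (D j).key (i0 j) t) →
      D i1 = D j → (G j true).F (i0 j) (s0 j) = (G j false).F (i0 j) (s0 j) →
      (∀ σ i, |(G j σ).x i - (G i1 true).x i| ≤ C * η) →
      (∀ σ k s, (D j).Al k s → |(G j σ).Δ k s - (G i1 true).Δ k s| ≤ C * η * h) →
      (∀ (k : ι → ℤ) (s : ι → κ), (∀ i, i ≠ j → (D i).Touch (k i) (s i)) →
        (∃ i, i ≠ j ∧ ¬ (s i = s0 i ∧ |h * k i - xs i| ≤ ε / 8)) →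
        ∃ i, γ1 ≤ |Sm.mulVec (fun l => if l = j then xs j else (G l true).x (k l)) i -
          ω i * if i = j then ys j else (G i true).Y (k i) (s i)|) →
      (∀ (σ : Bool) (k : ι → ℤ) (s : ι → κ), (∀ i, (D i).Touch (k i) (s i)) →
        ∃ i, γ ≤ |Sm.mulVec (fun l => (G l σ).x (k l)) i - ω i * (G i σ).Y (k i) (s i)|) →
      False

end Pool.Agent.Lib.MP_5a3ebe_gt.PI
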