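import Pool.Agent.Lib.MP_5a3ebe_gt.PiSeg

/-! A displacement field moving a polygon off itself. -/

set_option linter.unusedSectionVars false
set_option linter.unusedVariables false

namespace Pool.Agent.Lib.MP_5a3ebe_gt.PI

open Ap Classical

lemma field_min {ι : Type} [Finite ι] [Nonempty ι] (f : ι → ℝ) (h : ∀ i, 0 < f i) :
    ∃ δ, 0 < δ ∧ ∀ i, δ ≤ f i := by
  obtain ⟨i, hi⟩ := Finite.exists_min f
  exact ⟨f i, h i, hi⟩

lemma field_max {ι : Type} [Finite ι] [Nonempty ι] (f : ι → ℝ) :
    ∃ M, 0 ≤ M ∧ ∀ i, f i ≤ M := by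
  obtain ⟨i, hi⟩ := Finite.exists_max f
  exact ⟨max 0 (f i), le_max_left _ _, fun j => (hi j).trans (le_max_right _ _)⟩

/-- A bounded Lipschitz function with prescribed values, vanishing near a given point. -/
lemma field_g {ι : Type} [Fintype ι] [Nonempty ι] (c : ι → ℝ) (hc : ∀ i j, c i = c j → i = j)
    (a : ι → ℝ) (xs : ℝ) (hx : ∀ v, c v ≠ xs) :
    ∃ (g : ℝ → ℝ) (L ε : ℝ), 0 < ε ∧ 0 ≤ L ∧ (∀ x x', |g x - g x'| ≤ L * |x - x'|) ∧
      (∀ x, |g x| ≤ L) ∧ (∀ x, |x - xs| ≤ ε → g x = 0) ∧ ∀ v, g (c v) = a v := by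
  obtain ⟨δ, hδ, hδ'⟩ := field_min
    (fun p : ι × ι => if p.1 = p.2 then |c p.1 - xs| / 2 else |c p.1 - c p.2|) (by
      rintro ⟨v, w⟩
      by_cases e : v = w
      · simp only [if_pos e]
        exact half_pos (abs_pos.2 (sub_ne_zero.2 (hx v)))
      · simp only [if_neg e]
        exact abs_pos.2 (sub_ne_zero.2 fun e' => e (hc _ _ e')))
  have h1 : ∀ v, 2 * δ ≤ |c v - xs| := by
    intro v
    have := hδ' (v, v)
    simp only [if_true] at this
    linarith
  have h2 : ∀ v w, v ≠ w → δ ≤ |c v - c w| := by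
    intro v w e
    have := hδ' (v, w)
    simpa only [if_neg e] using this
  set T : ℝ → ℝ := fun u => max (1 - |u| / δ) 0 with hT
  have T0 : ∀ u, δ ≤ |u| → T u = 0 := by
    intro u hu
    have : 1 ≤ |u| / δ := (one_le_div hδ).2 hu
    exact max_eq_right (by linarith)
  have T1 : T 0 = 1 := by simp [hT]
  have Tb : ∀ u, |T u| ≤ 1 := by
    intro u
    have : 0 ≤ |u| / δ := div_nonneg (abs_nonneg _) hδ.le
    rw [abs_of_nonneg (le_max_right _ _)]
    exact max_le (by linarith) zero_le_one
  have Tl : ∀ u u', |T u - T u'| ≤ |u - u'| / δ := by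
    intro u u'
    refine (abs_max_sub_max_le_abs _ _ _).trans ?_
    have e : 1 - |u| / δ - (1 - |u'| / δ) = (|u'| - |u|) / δ := by ring
    rw [e, abs_div, abs_of_pos hδ]
    refine div_le_div_of_nonneg_right ?_ hδ.le
    rw [abs_sub_comm u u']
    exact abs_abs_sub_abs_le_abs_sub _ _
  have hS : 0 ≤ ∑ v, |a v| := Finset.sum_nonneg fun _ _ => abs_nonneg _
  have hi : 0 < 1 / δ := by positivity
  refine ⟨fun x => ∑ v, a v * T (x - c v), (∑ v, |a v|) * (1 + 1 / δ), δ, hδ, by positivity,
    ?_, ?_, ?_, ?_⟩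
  · intro x x'
    rw [← Finset.sum_sub_distrib]
    refine (Finset.abs_sum_le_sum_abs _ _).trans ?_
    rw [mul_assoc, Finset.sum_mul]
    refine Finset.sum_le_sum fun v _ => ?_
    rw [← mul_sub, abs_mul]
    refine mul_le_mul_of_nonneg_left ((Tl _ _).trans ?_) (abs_nonneg _)
    have e : x - c v - (x' - c v) = x - x' := by ring
    rw [e]
    have : |x - x'| / δ = 1 / δ * |x - x'| := by ring
    rw [this]
    exact mul_le_mul_of_nonneg_right (by linarith) (abs_nonneg _)
  · intro x
    refine (Finset.abs_sum_le_sum_abs _ _).trans ?_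
    rw [Finset.sum_mul]
    refine Finset.sum_le_sum fun v _ => ?_
    rw [abs_mul]
    exact mul_le_mul_of_nonneg_left ((Tb _).trans (by linarith)) (abs_nonneg _)
  · intro x hxx
    refine Finset.sum_eq_zero fun v _ => ?_
    rw [T0, mul_zero]
    have := abs_sub_le (c v) x xs
    rw [abs_sub_comm (c v) x] at this
    linarith [h1 v]
  · intro v
    show ∑ w, a w * T (c v - c w) = a v
    rw [Finset.sum_eq_single v]
    · rw [sub_self, T1, mul_one]
    · intro w _ e
      rw [T0 _ (h2 v w (Ne.symm e)), mul_zero]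
    · intro e
      exact absurd (Finset.mem_univ v) e

/-- The horizontal extent of an edge. -/
noncomputable def field_d {n : ℕ} (z : ZMod n → ℂ) (s : ZMod n) : ℝ := (z (s + 1)).re - (z s).re

/-- The slope of an edge. -/
noncomputable def field_m {n : ℕ} (z : ZMod n → ℂ) (s : ZMod n) : ℝ :=
  ((z (s + 1)).im - (z s).im) / field_d z s

section

variable {n : ℕ} [NeZero n] {z : ZMod n → ℂ}

lemma field_eh (s : ZMod n) (x x' : ℝ) : eh z s x' = eh z s x + field_m z s * (x' - x) := by
  unfold eh lineH field_m field_d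
  ring

lemma field_d_ne (hn : 3 ≤ n) (hi : ∀ i j, (z i).re = (z j).re → i = j) (s : ZMod n) :
    field_d z s ≠ 0 := sub_ne_zero.2 (poly_re_ne hn hi s)

lemma field_ul {s : ZMod n} {x : ℝ} (h : Under z s x) : 0 ≤ field_d z s * (x - (z s).re) := by
  obtain ⟨h1, h2⟩ := h
  unfold field_d
  rcases le_total (z s).re (z (s + 1)).re with hl | hl
  · rw [min_eq_left hl] at h1
    exact mul_nonneg (by linarith) (by linarith)
  · rw [max_eq_left hl] at h2
    exact mul_nonneg_of_nonpos_of_nonpos (by linarith) (by linarith)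

lemma field_ur {s : ZMod n} {x : ℝ} (h : Under z s x) :
    field_d z s * (x - (z (s + 1)).re) ≤ 0 := by
  obtain ⟨h1, h2⟩ := h
  unfold field_d
  rcases le_total (z s).re (z (s + 1)).re with hl | hl
  · rw [max_eq_right hl] at h2
    exact mul_nonpos_of_nonneg_of_nonpos (by linarith) (by linarith)
  · rw [min_eq_right hl] at h1
    exact mul_nonpos_of_nonpos_of_nonneg (by linarith) (by linarith)

lemma field_u0 (s : ZMod n) : Under z s (z s).re := ⟨min_le_left _ _, le_max_left _ _⟩

lemma field_u1 (s : ZMod n) : Under z s (z (s + 1)).re := ⟨min_le_right _ _, le_max_right _ _⟩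

lemma field_join (hn : 3 ≤ n) (hi : ∀ i j, (z i).re = (z j).re → i = j) (s : ZMod n) :
    eh z s (z (s + 1)).re = eh z (s + 1) (z (s + 1)).re := by
  unfold eh
  rw [lineH_right (poly_re_ne hn hi s), lineH_left]

lemma field_mem (hn : 3 ≤ n) (hi : ∀ i j, (z i).re = (z j).re → i = j) {s : ZMod n} {x : ℝ}
    (h : Under z s x) : (⟨x, eh z s x⟩ : ℂ) ∈ segment ℝ (z s) (z (s + 1)) :=
  lineH_mem (poly_re_ne hn hi s) h.1 h.2

lemma field_meet (hn : 3 ≤ n) (hs : SimplePoly z) (hi : ∀ i j, (z i).re = (z j).re → i = j)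
    {s r : ZMod n} {x : ℝ} (h1 : Under z s x) (h2 : Under z r x) (e : eh z s x = eh z r x) :
    s = r ∨ (r = s + 1 ∧ x = (z r).re) ∨ (s = r + 1 ∧ x = (z s).re) := by
  have m1 := field_mem hn hi h1
  have m2 := field_mem hn hi h2
  rw [← e] at m2
  rcases hs s r _ m1 m2 with e' | ⟨e1, e'⟩ | ⟨e1, e'⟩
  · exact Or.inl e'
  · exact Or.inr (Or.inl ⟨e1, by simpa using congrArg Complex.re e'⟩)
  · exact Or.inr (Or.inr ⟨e1, by simpa using congrArg Complex.re e'⟩)

lemma field_two_ne (hn : 3 ≤ n) : (1 + 1 : ZMod n) ≠ 0 := by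
  intro e
  have : ((2 : ℕ) : ZMod n) = 0 := by
    rw [← e]
    push_cast
    norm_num
  rw [ZMod.natCast_eq_zero_iff] at this
  have := Nat.le_of_dvd (by norm_num) this
  omega

/-- Consecutive edges of the same slope meet only over their common vertex. -/
lemma field_same (hn : 3 ≤ n) (hs : SimplePoly z) (hi : ∀ i j, (z i).re = (z j).re → i = j)
    {s : ZMod n} (hm : field_m z s = field_m z (s + 1)) {x : ℝ} (h1 : Under z s x)
    (h2 : Under z (s + 1) x) : x = (z (s + 1)).re := by
  have e : eh z s x = eh z (s + 1) x := by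
    rw [field_eh s (z (s + 1)).re x, field_eh (s + 1) (z (s + 1)).re x, field_join hn hi, hm]
  rcases field_meet hn hs hi h1 h2 e with e' | ⟨-, e'⟩ | ⟨e1, -⟩
  · exact absurd (by simpa using e') (zmod_one_ne hn)
  · exact e'
  · exact absurd (by rw [add_assoc] at e1; simpa using e1) (field_two_ne hn)

lemma field_noback (hn : 3 ≤ n) (hs : SimplePoly z) (hi : ∀ i j, (z i).re = (z j).re → i = j)
    {s : ZMod n} (hm : field_m z s = field_m z (s + 1)) : 0 < field_d z s * field_d z (s + 1) := by
  have n1 := field_d_ne hn hi s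
  have n2 := field_d_ne hn hi (s + 1)
  rcases lt_or_gt_of_ne n1 with l1 | l1 <;> rcases lt_or_gt_of_ne n2 with l2 | l2
  · exact mul_pos_of_neg_of_neg l1 l2
  · exfalso
    unfold field_d at l1 l2
    have := field_same hn hs hi hm (x := min (z s).re (z (s + 1 + 1)).re)
      ⟨le_min (min_le_left _ _) ((min_le_right _ _).trans (by linarith)),
        (min_le_left _ _).trans (le_max_left _ _)⟩
      ⟨le_min ((min_le_left _ _).trans (by linarith)) (min_le_right _ _),
        (min_le_right _ _).trans (le_max_right _ _)⟩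
    have h3 : (z (s + 1)).re < min (z s).re (z (s + 1 + 1)).re := lt_min (by linarith) (by linarith)
    linarith
  · exfalso
    unfold field_d at l1 l2
    have := field_same hn hs hi hm (x := max (z s).re (z (s + 1 + 1)).re)
      ⟨(min_le_left _ _).trans (le_max_left _ _),
        max_le (le_max_left _ _) (le_trans (by linarith) (le_max_right _ _))⟩
      ⟨(min_le_right _ _).trans (le_max_right _ _),
        max_le (le_trans (by linarith) (le_max_left _ _)) (le_max_right _ _)⟩
    have h3 : max (z s).re (z (s + 1 + 1)).re < (z (s + 1)).re := max_lt (by linarith) (by linarith)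
    linarith
  · exact mul_pos l1 l2

/-- A vector at each vertex pointing to the same side of both edges. -/
lemma field_normal (hn : 3 ≤ n) (hs : SimplePoly z) (hi : ∀ i j, (z i).re = (z j).re → i = j)
    (s : ZMod n) : ∃ a b : ℝ, 0 < field_d z s * (b - field_m z s * a) ∧
      0 < field_d z (s + 1) * (b - field_m z (s + 1) * a) := by
  have n1 := field_d_ne hn hi s
  have n2 := field_d_ne hn hi (s + 1)
  by_cases hm : field_m z s = field_m z (s + 1)
  · refine ⟨0, field_d z s, ?_, ?_⟩
    · simpa using n1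
    · have := field_noback hn hs hi hm
      simpa [mul_comm] using this
  · have hm' : field_m z (s + 1) - field_m z s ≠ 0 := sub_ne_zero.2 (Ne.symm hm)
    refine ⟨(field_d z s - field_d z (s + 1)) / (field_m z (s + 1) - field_m z s),
      field_d z s + field_m z s *
        ((field_d z s - field_d z (s + 1)) / (field_m z (s + 1) - field_m z s)), ?_, ?_⟩
    · simpa using n1
    · have e : field_d z s + field_m z s *
          ((field_d z s - field_d z (s + 1)) / (field_m z (s + 1) - field_m z s)) -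
          field_m z (s + 1) *
          ((field_d z s - field_d z (s + 1)) / (field_m z (s + 1) - field_m z s)) =
          field_d z (s + 1) := by
        field_simp
        ring
      rw [e]
      exact mul_self_pos.2 n2

/-- Edges without a common vertex are a positive distance apart. -/
lemma field_far (hs : SimplePoly z) {s r : ZMod n} (h0 : s ≠ r) (h1 : r ≠ s + 1)
    (h2 : s ≠ r + 1) : ∃ d : ℝ, 0 < d ∧ ∀ p ∈ segment ℝ (z s) (z (s + 1)),
      ∀ q ∈ segment ℝ (z r) (z (r + 1)), d ≤ ‖p - q‖ := by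
  have cpt : ∀ P Q : ℂ, IsCompact (segment ℝ P Q) := by
    intro P Q
    rw [segment_eq_image]
    exact isCompact_Icc.image (by fun_prop)
  have dis : Disjoint (segment ℝ (z s) (z (s + 1))) (segment ℝ (z r) (z (r + 1))) := by
    rw [Set.disjoint_left]
    intro p m1 m2
    rcases hs s r p m1 m2 with e | ⟨e, -⟩ | ⟨e, -⟩
    · exact h0 e
    · exact h1 e
    · exact h2 e
  obtain ⟨d, hd, H⟩ := Metric.exists_pos_forall_lt_edist (cpt _ _) (cpt _ _).isClosed dis
  refine ⟨d, hd, fun p hp q hq => ?_⟩
  have := H p hp q hq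
  rw [edist_nndist] at this
  have : d < nndist p q := by exact_mod_cast this
  have : (d : ℝ) < dist p q := by exact_mod_cast this
  rw [dist_eq_norm] at this
  exact this.le

/-- The order condition for two edges with a common vertex over `c`. -/
lemma field_ord_adj {ψ : ZMod n → ℝ → ℝ} {K c : ℝ} {s r : ZMod n} (hK : 0 ≤ K)
    (lip : ∀ s x x', |ψ s x - ψ s x'| ≤ K * |x - x'|) (e1 : eh z s c = eh z r c)
    (e2 : ψ s c = ψ r c)
    (hm : field_m z s = field_m z r → ∀ x, Under z s x → Under z r x → x = c) :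
    ∃ C : ℝ, ∀ x, Under z s x → Under z r x → |ψ s x - ψ r x| ≤ C * |eh z s x - eh z r x| := by
  by_cases h : field_m z s = field_m z r
  · refine ⟨0, fun x h1 h2 => ?_⟩
    rw [hm h x h1 h2, e2]
    simp
  · have hp : 0 < |field_m z s - field_m z r| := abs_pos.2 (sub_ne_zero.2 h)
    refine ⟨2 * K / |field_m z s - field_m z r|, fun x h1 h2 => ?_⟩
    have e : eh z s x - eh z r x = (field_m z s - field_m z r) * (x - c) := by
      rw [field_eh s c x, field_eh r c x, e1]
      ring
    have e' : 2 * K / |field_m z s - field_m z r| * |eh z s x - eh z r x| = 2 * K * |x - c| := by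
      rw [e, abs_mul]
      field_simp
    rw [e']
    have e3 : ψ s x - ψ r x = (ψ s x - ψ s c) - (ψ r x - ψ r c) := by
      rw [e2]
      ring
    rw [e3]
    have := abs_sub (ψ s x - ψ s c) (ψ r x - ψ r c)
    linarith [lip s x c, lip r x c]

lemma field_ord (hn : 3 ≤ n) (hs : SimplePoly z) (hi : ∀ i j, (z i).re = (z j).re → i = j)
    {ψ : ZMod n → ℝ → ℝ} {K : ℝ} (hK : 0 ≤ K)
    (lip : ∀ s x x', |ψ s x - ψ s x'| ≤ K * |x - x'|) (bd : ∀ s x, Under z s x → |ψ s x| ≤ K)
    (vert : ∀ v, ψ v (z (v + 1)).re = ψ (v + 1) (z (v + 1)).re) (s r : ZMod n) :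
    ∃ C : ℝ, ∀ x, Under z s x → Under z r x → |ψ s x - ψ r x| ≤ C * |eh z s x - eh z r x| := by
  by_cases h0 : s = r
  · subst h0
    exact ⟨0, fun x _ _ => by simp⟩
  by_cases h1 : r = s + 1
  · subst h1
    exact field_ord_adj hK lip (field_join hn hi s) (vert s)
      fun hm x a b => field_same hn hs hi hm a b
  by_cases h2 : s = r + 1
  · subst h2
    exact field_ord_adj hK lip (field_join hn hi r).symm (vert r).symm
      fun hm x a b => field_same hn hs hi hm.symm b a
  obtain ⟨d, hd, H⟩ := field_far hs h0 h1 h2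
  refine ⟨2 * K / d, fun x a b => ?_⟩
  have h3 := H _ (field_mem hn hi a) _ (field_mem hn hi b)
  have e : (⟨x, eh z s x⟩ : ℂ) - ⟨x, eh z r x⟩ = ((eh z s x - eh z r x : ℝ) : ℂ) * Complex.I := by
    apply Complex.ext <;> simp
  rw [e, norm_mul, Complex.norm_I, mul_one, Complex.norm_real, Real.norm_eq_abs] at h3
  have h4 : 2 * K / d * d ≤ 2 * K / d * |eh z s x - eh z r x| :=
    mul_le_mul_of_nonneg_left h3 (by positivity)
  rw [div_mul_cancel₀ _ hd.ne'] at h4
  have := abs_sub (ψ s x) (ψ r x)
  linarith [bd s x a, bd r x b]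

/-- The displaced edge misses an edge with which it shares a vertex over `c`. -/
lemma field_dis_adj {g : ℝ → ℝ} {ψ : ZMod n → ℝ → ℝ} {K c σ : ℝ} {s r : ZMod n} (hK : 0 ≤ K)
    (glip : ∀ x x', |g x - g x'| ≤ K * |x - x'|) (gbd : ∀ x, |g x| ≤ K)
    (lip : ∀ s x x', |ψ s x - ψ s x'| ≤ K * |x - x'|) (bd : ∀ s x, Under z s x → |ψ s x| ≤ K)
    (sgn : ∀ s x, Under z s x → 0 < σ * field_d z s * (ψ s x - field_m z s * g x))
    (e1 : eh z s c = eh z r c) (e2 : ψ s c = ψ r c) (hc : Under z r c)
    (ori : ∀ x x', Under z s x → Under z r x' →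
      field_d z s * (x - c) * (field_d z r * (x' - c)) ≤ 0) :
    ∃ t0 : ℝ, 0 < t0 ∧ ∀ t, t ≠ 0 → |t| ≤ t0 → ∀ x, Under z s x → Under z r (x + t * g x) →
      eh z s x + t * ψ s x ≠ eh z r (x + t * g x) := by
  have eq1 : ∀ t x, eh z s x + t * ψ s x = eh z r (x + t * g x) →
      (field_m z r - field_m z s) * (x + t * g x - c) = t * (ψ s x - field_m z s * g x) := by
    intro t x e
    rw [field_eh s c x, field_eh r c (x + t * g x), e1] at e
    linear_combination -e
  by_cases hm : field_m z r = field_m z s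
  · refine ⟨1, one_pos, fun t ht _ x a b e => ?_⟩
    have h1 := eq1 t x e
    rw [hm, sub_self, zero_mul] at h1
    have h2 := sgn s x a
    rcases mul_eq_zero.1 h1.symm with h | h
    · exact ht h
    · rw [h, mul_zero] at h2
      exact lt_irrefl _ h2
  have hp : 0 < |field_m z r - field_m z s| := abs_pos.2 (sub_ne_zero.2 hm)
  have hB := sgn r c hc
  set B := σ * field_d z r * (ψ r c - field_m z r * g c) with hBd
  set W := |σ * field_d z r| * (K + |field_m z r| * K) * (K + |field_m z r| * K) with hW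
  have hW0 : 0 ≤ W := by positivity
  refine ⟨B * |field_m z r - field_m z s| / (W + 1), by positivity, fun t ht ht0 x a b e => ?_⟩
  have h1 := eq1 t x e
  have h2 : (field_m z r - field_m z s) * (x - c) = t * (ψ s x - field_m z r * g x) := by
    linear_combination h1
  have hA := sgn s x a
  have b1 : |ψ s x - field_m z r * g x| ≤ K + |field_m z r| * K := by
    have := abs_sub (ψ s x) (field_m z r * g x)
    rw [abs_mul] at this
    have := mul_le_mul_of_nonneg_left (gbd x) (abs_nonneg (field_m z r))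
    linarith [bd s x a]
  have b2 : |field_m z r - field_m z s| * |x - c| ≤ |t| * (K + |field_m z r| * K) := by
    rw [← abs_mul, h2, abs_mul]
    exact mul_le_mul_of_nonneg_left b1 (abs_nonneg _)
  have b3 : |(ψ s x - field_m z r * g x) - (ψ r c - field_m z r * g c)| ≤
      (K + |field_m z r| * K) * |x - c| := by
    have e3 : (ψ s x - field_m z r * g x) - (ψ r c - field_m z r * g c) =
        (ψ s x - ψ s c) - field_m z r * (g x - g c) := by
      rw [e2]
      ring
    rw [e3]
    have := abs_sub (ψ s x - ψ s c) (field_m z r * (g x - g c))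
    rw [abs_mul] at this
    have := mul_le_mul_of_nonneg_left (glip x c) (abs_nonneg (field_m z r))
    have := lip s x c
    linarith
  have b4 : |σ * field_d z r * (ψ s x - field_m z r * g x) - B| * |field_m z r - field_m z s| ≤
      W * |t| := by
    have e3 : σ * field_d z r * (ψ s x - field_m z r * g x) - B = σ * field_d z r *
        ((ψ s x - field_m z r * g x) - (ψ r c - field_m z r * g c)) := by
      rw [hBd]
      ring
    rw [e3, abs_mul]
    calc |σ * field_d z r| * |(ψ s x - field_m z r * g x) - (ψ r c - field_m z r * g c)| *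
          |field_m z r - field_m z s|
        ≤ |σ * field_d z r| * ((K + |field_m z r| * K) * |x - c|) *
          |field_m z r - field_m z s| := by gcongr
      _ = |σ * field_d z r| * (K + |field_m z r| * K) *
          (|field_m z r - field_m z s| * |x - c|) := by ring
      _ ≤ |σ * field_d z r| * (K + |field_m z r| * K) * (|t| * (K + |field_m z r| * K)) := by
          gcongr
      _ = W * |t| := by
          rw [hW]
          ring
  have b5 : W * |t| < B * |field_m z r - field_m z s| := by
    have h3 : |t| * (W + 1) ≤ B * |field_m z r - field_m z s| := by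
      rwa [le_div_iff₀ (by positivity)] at ht0
    have : 0 < |t| := abs_pos.2 ht
    linarith
  have b6 : |σ * field_d z r * (ψ s x - field_m z r * g x) - B| < B :=
    lt_of_mul_lt_mul_right (b4.trans_lt b5) hp.le
  have hB' : 0 < σ * field_d z r * (ψ s x - field_m z r * g x) := by
    have := (abs_lt.1 b6).1
    linarith
  have h5 := ori x _ a b
  have h6 : ((field_m z r - field_m z s) * σ) ^ 2 *
      (field_d z s * (x - c) * (field_d z r * (x + t * g x - c))) =
      t ^ 2 * ((σ * field_d z s * (ψ s x - field_m z s * g x)) *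
        (σ * field_d z r * (ψ s x - field_m z r * g x))) := by
    have : ((field_m z r - field_m z s) * σ) ^ 2 *
      (field_d z s * (x - c) * (field_d z r * (x + t * g x - c))) =
      σ ^ 2 * field_d z s * field_d z r * ((field_m z r - field_m z s) * (x + t * g x - c)) *
        ((field_m z r - field_m z s) * (x - c)) := by ring
    rw [this, h1, h2]
    ring
  have h7 : 0 < t ^ 2 * ((σ * field_d z s * (ψ s x - field_m z s * g x)) *
        (σ * field_d z r * (ψ s x - field_m z r * g x))) :=
    mul_pos (by positivity) (mul_pos hA hB')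
  have h8 := mul_nonpos_of_nonneg_of_nonpos (sq_nonneg ((field_m z r - field_m z s) * σ)) h5
  linarith

lemma field_dis (hn : 3 ≤ n) (hs : SimplePoly z) (hi : ∀ i j, (z i).re = (z j).re → i = j)
    {g : ℝ → ℝ} {ψ : ZMod n → ℝ → ℝ} {K σ : ℝ} (hK : 0 ≤ K)
    (glip : ∀ x x', |g x - g x'| ≤ K * |x - x'|) (gbd : ∀ x, |g x| ≤ K)
    (lip : ∀ s x x', |ψ s x - ψ s x'| ≤ K * |x - x'|) (bd : ∀ s x, Under z s x → |ψ s x| ≤ K)
    (sgn : ∀ s x, Under z s x → 0 < σ * field_d z s * (ψ s x - field_m z s * g x))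
    (vert : ∀ v, ψ v (z (v + 1)).re = ψ (v + 1) (z (v + 1)).re) (s r : ZMod n) :
    ∃ t0 : ℝ, 0 < t0 ∧ ∀ t, t ≠ 0 → |t| ≤ t0 → ∀ x, Under z s x →
      disp z g ψ t s x ∉ segment ℝ (z r) (z (r + 1)) := by
  have red : (∃ t0 : ℝ, 0 < t0 ∧ ∀ t, t ≠ 0 → |t| ≤ t0 → ∀ x, Under z s x →
      Under z r (x + t * g x) → eh z s x + t * ψ s x ≠ eh z r (x + t * g x)) →
      ∃ t0 : ℝ, 0 < t0 ∧ ∀ t, t ≠ 0 → |t| ≤ t0 → ∀ x, Under z s x →
        disp z g ψ t s x ∉ segment ℝ (z r) (z (r + 1)) := by
    rintro ⟨t0, h0, H⟩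
    refine ⟨t0, h0, fun t a b x c m => ?_⟩
    rw [mem_seg_iff hn hi] at m
    exact H t a b x c m.1 m.2
  by_cases h0 : s = r
  · subst h0
    refine red ⟨1, one_pos, fun t ht _ x a b e => ?_⟩
    rw [field_eh s x (x + t * g x)] at e
    have h1 : t * (ψ s x - field_m z s * g x) = 0 := by linear_combination e
    have h2 := sgn s x a
    rcases mul_eq_zero.1 h1 with h | h
    · exact ht h
    · rw [h, mul_zero] at h2
      exact lt_irrefl _ h2
  by_cases h1 : r = s + 1
  · subst h1
    exact red (field_dis_adj hK glip gbd lip bd sgn (field_join hn hi s) (vert s) (field_u0 _)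
      fun x x' a b => mul_nonpos_of_nonpos_of_nonneg (field_ur a) (field_ul b))
  by_cases h2 : s = r + 1
  · subst h2
    exact red (field_dis_adj hK glip gbd lip bd sgn (field_join hn hi r).symm (vert r).symm
      (field_u1 _) fun x x' a b => mul_nonpos_of_nonneg_of_nonpos (field_ul a) (field_ur b))
  obtain ⟨d, hd, H⟩ := field_far hs h0 h1 h2
  refine ⟨d / (2 * K + 1), by positivity, fun t ht ht0 x a m => ?_⟩
  have h3 := H _ (field_mem hn hi a) _ m
  have h4 := Complex.norm_le_abs_re_add_abs_im ((⟨x, eh z s x⟩ : ℂ) - disp z g ψ t s x)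
  have e1 : ((⟨x, eh z s x⟩ : ℂ) - disp z g ψ t s x).re = -(t * g x) := by simp [disp]
  have e2 : ((⟨x, eh z s x⟩ : ℂ) - disp z g ψ t s x).im = -(t * ψ s x) := by simp [disp]
  rw [e1, e2, abs_neg, abs_neg, abs_mul, abs_mul] at h4
  have h5 := mul_le_mul_of_nonneg_left (gbd x) (abs_nonneg t)
  have h6 := mul_le_mul_of_nonneg_left (bd s x a) (abs_nonneg t)
  rw [le_div_iff₀ (by positivity)] at ht0
  have : 0 < |t| := abs_pos.2 ht
  linarith

end

theorem exists_field {n : ℕ} [NeZero n] (z : ZMod n → ℂ) (hn : 3 ≤ n) (hs : SimplePoly z)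
    (hi : ∀ i j, (z i).re = (z j).re → i = j) (xs : ℝ) (hx : ∀ v, (z v).re ≠ xs) (s0 : ZMod n) :
    ∃ (g : ℝ → ℝ) (ψ : ZMod n → ℝ → ℝ) (C ε1 l0 l1 t0 : ℝ), 0 < ε1 ∧ 0 < t0 ∧
      (Under z s0 xs → 0 < l0) ∧ Fld z g ψ C xs ε1 l0 l1 s0 ∧
      ∀ t, t ≠ 0 → |t| ≤ t0 → ∀ s x, Under z s x → disp z g ψ t s x ∉ polySet z := by
  have dne := field_d_ne hn hi
  choose a0 b0 ha hb using fun v => field_normal hn hs hi (v - 1)
  simp only [sub_add_cancel] at hb
  have ha' : ∀ s, 0 < field_d z s * (b0 (s + 1) - field_m z s * a0 (s + 1)) := by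
    intro s
    have := ha (s + 1)
    rwa [add_sub_cancel_right] at this
  set σ := field_d z s0 with hσ
  have σ2 : 0 < σ * σ := mul_self_pos.2 (dne s0)
  obtain ⟨g, L, ε, hε, hL, glip, gbd, g0, gv⟩ :=
    field_g (fun v => (z v).re) hi (fun v => σ * a0 v) xs hx
  set p : ZMod n → ℝ := fun s => σ * (b0 s - field_m z s * a0 s) with hp
  set q : ZMod n → ℝ := fun s => σ * (b0 (s + 1) - field_m z s * a0 (s + 1)) with hq
  set ψ : ZMod n → ℝ → ℝ := fun s x =>
    field_m z s * g x + (p s + (q s - p s) * ((x - (z s).re) / field_d z s)) with hψ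
  have hθ : ∀ s x, Under z s x →
      0 ≤ (x - (z s).re) / field_d z s ∧ (x - (z s).re) / field_d z s ≤ 1 := by
    intro s x h
    have h1 := field_ul h
    have h2 := field_ur h
    have h3 : 0 < field_d z s * field_d z s := mul_self_pos.2 (dne s)
    have e : (x - (z s).re) / field_d z s =
        field_d z s * (x - (z s).re) / (field_d z s * field_d z s) := by
      have := dne s
      field_simp
    rw [e]
    refine ⟨div_nonneg h1 h3.le, (div_le_one h3).2 ?_⟩
    have e' : field_d z s * (x - (z s).re) =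
        field_d z s * (x - (z (s + 1)).re) + field_d z s * field_d z s := by
      unfold field_d
      ring
    linarith
  have sgn : ∀ s x, Under z s x → 0 < σ * field_d z s * (ψ s x - field_m z s * g x) := by
    intro s x h
    obtain ⟨h1, h2⟩ := hθ s x h
    have e : σ * field_d z s * (ψ s x - field_m z s * g x) =
        σ * σ * ((1 - (x - (z s).re) / field_d z s) * (field_d z s * (b0 s - field_m z s * a0 s)) +
          (x - (z s).re) / field_d z s *
            (field_d z s * (b0 (s + 1) - field_m z s * a0 (s + 1)))) := by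
      simp only [hψ, hp, hq]
      ring
    rw [e]
    refine mul_pos σ2 ?_
    have h3 := hb s
    have h4 := ha' s
    rcases eq_or_lt_of_le h1 with h5 | h5
    · rw [← h5]
      linarith
    · have := mul_pos h5 h4
      have := mul_nonneg (sub_nonneg.2 h2) h3.le
      linarith
  have vert : ∀ v, ψ v (z (v + 1)).re = ψ (v + 1) (z (v + 1)).re := by
    intro v
    have e : ((z (v + 1)).re - (z v).re) / field_d z v = 1 := div_self (dne v)
    simp only [hψ, hp, hq, gv, e, sub_self, zero_div]
    ring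
  obtain ⟨K0, hK0, HK⟩ := field_max fun s =>
    |field_m z s| * L + |(q s - p s) / field_d z s| + (|p s| + |q s - p s|)
  have lip : ∀ s x x', |ψ s x - ψ s x'| ≤ (L + K0) * |x - x'| := by
    intro s x x'
    have e : ψ s x - ψ s x' = field_m z s * (g x - g x') + (q s - p s) / field_d z s * (x - x') := by
      simp only [hψ]
      ring
    rw [e]
    refine (abs_add_le _ _).trans ?_
    rw [abs_mul, abs_mul]
    have h1 := mul_le_mul_of_nonneg_left (glip x x') (abs_nonneg (field_m z s))
    have h2 : |field_m z s| * L + |(q s - p s) / field_d z s| ≤ L + K0 := by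
      have := HK s
      have := abs_nonneg (p s)
      have := abs_nonneg (q s - p s)
      linarith
    have h3 := mul_le_mul_of_nonneg_right h2 (abs_nonneg (x - x'))
    linarith
  have bd : ∀ s x, Under z s x → |ψ s x| ≤ L + K0 := by
    intro s x h
    obtain ⟨h1, h2⟩ := hθ s x h
    have h3 := abs_add_le (field_m z s * g x) (p s + (q s - p s) * ((x - (z s).re) / field_d z s))
    have h4 := abs_add_le (p s) ((q s - p s) * ((x - (z s).re) / field_d z s))
    rw [abs_mul] at h3
    rw [abs_mul (q s - p s), abs_of_nonneg h1] at h4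
    have h5 := mul_le_mul_of_nonneg_left (gbd x) (abs_nonneg (field_m z s))
    have h6 := mul_le_mul_of_nonneg_left h2 (abs_nonneg (q s - p s))
    have h7 := HK s
    have h8 := abs_nonneg ((q s - p s) / field_d z s)
    show |field_m z s * g x + (p s + (q s - p s) * ((x - (z s).re) / field_d z s))| ≤ L + K0
    linarith
  have hK : 0 ≤ L + K0 := by linarith
  have glip' : ∀ x x', |g x - g x'| ≤ (L + K0) * |x - x'| := fun x x' =>
    (glip x x').trans (mul_le_mul_of_nonneg_right (by linarith) (abs_nonneg _))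
  have gbd' : ∀ x, |g x| ≤ L + K0 := fun x => (gbd x).trans (by linarith)
  choose C1 hC1 using field_ord hn hs hi hK lip bd vert
  obtain ⟨C, hC, HC⟩ := field_max fun w : ZMod n × ZMod n => C1 w.1 w.2
  choose t1 ht1 Ht1 using field_dis hn hs hi hK glip' gbd' lip bd sgn vert
  obtain ⟨t0, ht0, Ht0⟩ := field_min (fun w : ZMod n × ZMod n => t1 w.1 w.2) fun w => ht1 _ _
  refine ⟨g, ψ, L + K0 + C, ε, p s0 + (q s0 - p s0) * ((xs - (z s0).re) / field_d z s0),
    (q s0 - p s0) / field_d z s0, t0, hε, ht0, ?_, ⟨by linarith, ?_, ?_, g0, ?_, ?_, ?_, vert, ?_⟩,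
    ?_⟩
  · intro h
    have h1 := sgn s0 xs h
    have e : ψ s0 xs - field_m z s0 * g xs =
        p s0 + (q s0 - p s0) * ((xs - (z s0).re) / field_d z s0) := by
      simp only [hψ]
      ring
    rw [e] at h1
    exact (pos_iff_pos_of_mul_pos h1).1 σ2
  · exact fun x x' => (glip' x x').trans (mul_le_mul_of_nonneg_right (by linarith) (abs_nonneg _))
  · exact fun x => (gbd' x).trans (by linarith)
  · exact fun s x x' => (lip s x x').trans (mul_le_mul_of_nonneg_right (by linarith) (abs_nonneg _))
  · exact fun s x h => (bd s x h).trans (by linarith)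
  · intro x h
    simp only [hψ, g0 x h]
    ring
  · intro s t x a b
    refine (hC1 s t x a b).trans (mul_le_mul_of_nonneg_right ?_ (abs_nonneg _))
    have := HC (s, t)
    simp only at this
    linarith
  · intro t h1 h2 s x h m
    obtain ⟨r, hr⟩ := Set.mem_iUnion.1 m
    exact Ht1 s r t h1 (h2.trans (Ht0 (s, r))) x h hr

end Pool.Agent.Lib.MP_5a3ebe_gt.PI
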