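import Pool.Agent.Lib.MP_5a3ebe_gt.PiDefs

/-! From the unit circle to any circle. -/

set_option linter.unusedSectionVars false
set_option linter.unusedVariables false

namespace Pool.Agent.Lib.MP_5a3ebe_gt.PI

open Ap Classical

theorem final_thm (hc : CircSt) (n : ℕ) (hn : 2 ≤ n) (Q : Finset ℂ) (hQ : Q.card = 2 * n)
    (c : ℂ) (r : ℝ) (hcr : ∀ z ∈ Q, ‖z - c‖ = r) (γ : ℝ → ℂ) (h1 : ContDiff ℝ 1 γ)
    (h2 : Function.Periodic γ 1) (h3 : Set.InjOn γ (Set.Ico 0 1)) (h4 : ∀ t, deriv γ t ≠ 0) :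
    ∃ p : Polynomial ℂ, 1 ≤ p.natDegree ∧ p.natDegree ≤ n - 1 ∧
      ∀ z ∈ Q, p.eval z ∈ Set.range γ := by
  let e : Fin (2 * n) ≃ Q := (Finset.equivFinOfCardEq hQ).symm
  have hr0 : r ≠ 0 := by
    intro h0
    have h1c : Q.card ≤ 1 := by
      refine Finset.card_le_one.2 fun a ha b hb => ?_
      have ha' := hcr a ha
      have hb' := hcr b hb
      rw [h0, norm_eq_zero, sub_eq_zero] at ha' hb'
      rw [ha', hb']
    omega
  have hrC : (r : ℂ) ≠ 0 := by exact_mod_cast hr0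
  have hrn : 0 ≤ r := by
    have h := hcr (e ⟨0, by omega⟩) (e ⟨0, by omega⟩).2
    rw [← h]; exact norm_nonneg _
  let q : Fin (2 * n) → ℂ := fun i => (r : ℂ)⁻¹ * ((e i : ℂ) - c)
  have hqi : Function.Injective q := by
    intro i k hik
    have h : ((e i : ℂ) - c) = ((e k : ℂ) - c) := mul_left_cancel₀ (inv_ne_zero hrC) hik
    exact e.injective (Subtype.ext (sub_left_injective h))
  have hqn : ∀ i, ‖q i‖ = 1 := by
    intro i
    simp only [q, norm_mul, norm_inv, hcr _ (e i).2, Complex.norm_real, Real.norm_eq_abs,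
      abs_of_nonneg hrn]
    exact inv_mul_cancel₀ hr0
  obtain ⟨v, hv, hvr, i, k, hik⟩ := hc n hn q hqi hqn γ ⟨h1, h2, h3, h4⟩
  obtain ⟨a, ha⟩ := (Submodule.mem_span_range_iff_exists_fun ℂ).1 hv
  let P : Polynomial ℂ := ∑ m : Fin n, Polynomial.C (a m) *
    (Polynomial.C (r : ℂ)⁻¹ * (Polynomial.X - Polynomial.C c)) ^ (m : ℕ)
  have hP : ∀ j, P.eval (e j : ℂ) = v j := by
    intro j
    rw [← ha]
    simp only [P, q, Polynomial.eval_finsetSum, Polynomial.eval_mul, Polynomial.eval_C,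
      Polynomial.eval_pow, Polynomial.eval_sub, Polynomial.eval_X, Finset.sum_apply,
      Pi.smul_apply, smul_eq_mul]
  refine ⟨P, ?_, ?_, ?_⟩
  · by_contra hlt
    have h0 : P.natDegree = 0 := by omega
    have hC := Polynomial.eq_C_of_natDegree_eq_zero h0
    apply hik
    rw [← hP i, ← hP k, hC, Polynomial.eval_C, Polynomial.eval_C]
  · refine Polynomial.natDegree_sum_le_of_forall_le _ _ fun m _ => ?_
    refine (Polynomial.natDegree_C_mul_le _ _).trans ?_
    refine Polynomial.natDegree_pow_le.trans ?_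
    have hd : (Polynomial.C (r : ℂ)⁻¹ * (Polynomial.X - Polynomial.C c)).natDegree ≤ 1 :=
      (Polynomial.natDegree_C_mul_le _ _).trans (Polynomial.natDegree_X_sub_C_le c)
    have hm := m.2
    calc (m : ℕ) * (Polynomial.C (r : ℂ)⁻¹ * (Polynomial.X - Polynomial.C c)).natDegree
        ≤ (m : ℕ) * 1 := Nat.mul_le_mul_left _ hd
      _ ≤ n - 1 := by omega
  · intro z hz
    have h := hP (e.symm ⟨z, hz⟩)
    rw [e.apply_symm_apply] at h
    exact h ▸ hvr _

end Pool.Agent.Lib.MP_5a3ebe_gt.PI
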