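import Pool.Agent.Lib.MP_5a3ebe_gt.PiDefs

/-! Regular curves are flat at small scales. -/

set_option linter.unusedSectionVars false
set_option linter.unusedVariables false

namespace Pool.Agent.Lib.MP_5a3ebe_gt.PI

open Ap Classical

theorem flat_per {α : Type} {c : ℝ → α} (h : Function.Periodic c 1) (t : ℝ) (k : ℤ) :
    c (t - k) = c t := by
  simpa using h.sub_int_mul_eq (x := t) k

theorem flat_fract {α : Type} {c : ℝ → α} (h : Function.Periodic c 1) (t : ℝ) :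
    c (Int.fract t) = c t := flat_per h t ⌊t⌋

theorem flat_near {c : ℝ → ℂ} {m δ0 ρ ϑ : ℝ} (H : AL c m δ0 ρ ϑ) {t0 t : ℝ}
    (h : ‖c t - c t0‖ ≤ ρ) : ∃ k : ℤ, |t - k - t0| < δ0 := by
  by_contra hn
  push Not at hn
  have := H.far t0 t fun k => by
    have e : t - t0 - k = t - k - t0 := by ring
    rw [e]
    exact hn k
  linarith

theorem flat_tau {T : ℂ} (hT : 0 < ‖T‖) :
    ‖T / (‖T‖ : ℂ)‖ = 1 ∧ T * (starRingEnd ℂ) (T / (‖T‖ : ℂ)) = (‖T‖ : ℂ) := by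
  have h : (‖T‖ : ℂ) ≠ 0 := by exact_mod_cast hT.ne'
  refine ⟨?_, ?_⟩
  · rw [norm_div, Complex.norm_real, norm_norm, div_self hT.ne']
  · rw [map_div₀, Complex.conj_ofReal, ← mul_div_assoc, Complex.mul_conj', div_eq_iff h, sq]

theorem flat_parts {T τ w : ℂ} {d ε : ℝ} (h1 : ‖τ‖ = 1)
    (h2 : T * (starRingEnd ℂ) τ = (‖T‖ : ℂ)) (h : ‖w - (d : ℂ) * T‖ ≤ ε) :
    |(w * (starRingEnd ℂ) τ).im| ≤ ε ∧ |(w * (starRingEnd ℂ) τ).re - d * ‖T‖| ≤ ε ∧
      |d| * ‖T‖ - ε ≤ ‖w‖ ∧ ‖w‖ ≤ |d| * ‖T‖ + ε := by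
  have e : (w - (d : ℂ) * T) * (starRingEnd ℂ) τ
      = w * (starRingEnd ℂ) τ - ((d * ‖T‖ : ℝ) : ℂ) := by
    rw [sub_mul, mul_assoc, h2]
    push_cast
    ring
  have hn : ‖(w - (d : ℂ) * T) * (starRingEnd ℂ) τ‖ ≤ ε := by
    rw [norm_mul, Complex.norm_conj, h1, mul_one]
    exact h
  have hd : ‖(d : ℂ) * T‖ = |d| * ‖T‖ := by rw [norm_mul, Complex.norm_real, Real.norm_eq_abs]
  refine ⟨?_, ?_, ?_, ?_⟩
  · have := (Complex.abs_im_le_norm _).trans hn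
    rwa [e, Complex.sub_im, Complex.ofReal_im, sub_zero] at this
  · have := (Complex.abs_re_le_norm _).trans hn
    rwa [e, Complex.sub_re, Complex.ofReal_re] at this
  · have := norm_sub_norm_le ((d : ℂ) * T) w
    rw [norm_sub_rev] at this
    linarith
  · have := norm_sub_norm_le w ((d : ℂ) * T)
    linarith

theorem AL.flat {c : ℝ → ℂ} {m δ0 ρ ϑ : ℝ} (H : AL c m δ0 ρ ϑ) (hm : 0 < m) (hδ : 0 < δ0)
    (hρ : 0 < ρ) (hρm : ρ ≤ m * δ0) (h0 : 0 ≤ ϑ) (h1 : ϑ ≤ 1 / 3) :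
    Flat (Set.range c) ρ (2 * ϑ) := by
  rintro _ ⟨t0, rfl⟩
  obtain ⟨T, hT, hl⟩ := H.loc t0
  have hT0 : 0 < ‖T‖ := hm.trans_le hT
  obtain ⟨e1, e2⟩ := flat_tau hT0
  refine ⟨T / (‖T‖ : ℂ), e1, ?_, ?_⟩
  · rintro _ ⟨t, rfl⟩ _ ⟨s, rfl⟩ ht hs
    obtain ⟨k, hk⟩ := flat_near H ht
    obtain ⟨l, hl'⟩ := flat_near H hs
    have h := hl (s - l) (t - k) hl'.le hk.le
    rw [flat_per H.per, flat_per H.per] at h
    obtain ⟨p1, -, p3, -⟩ := flat_parts e1 e2 h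
    have hd := abs_nonneg (t - k - (s - l))
    generalize |t - k - (s - l)| = d at *
    have q1 : d * m ≤ d * ‖T‖ := mul_le_mul_of_nonneg_left hT hd
    have q2 : 0 ≤ d * m := mul_nonneg hd hm.le
    have q3 : ϑ * (d * m) ≤ 1 / 3 * (d * m) := mul_le_mul_of_nonneg_right h1 q2
    have q4 : d * m ≤ 2 * ‖c t - c s‖ := by nlinarith
    have q5 := mul_le_mul_of_nonneg_left q4 h0
    nlinarith
  · intro u hu
    obtain ⟨r, hr⟩ : ∃ r : ℝ, r = 3 * ρ / (4 * ‖T‖) := ⟨_, rfl⟩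
    have r0 : 0 < r := by rw [hr]; positivity
    have r1 : r * ‖T‖ = 3 * ρ / 4 := by rw [hr]; field_simp
    have r2 : r * m ≤ 3 * ρ / 4 := by nlinarith
    have r3 : r ≤ δ0 := by
      by_contra hn
      push Not at hn
      nlinarith
    have r4 : ϑ * (r * m) ≤ ρ / 4 := by
      have : 0 ≤ r * m := by positivity
      nlinarith
    have key : ∀ t, |t - t0| ≤ r →
        |((c t - c t0) * (starRingEnd ℂ) (T / (‖T‖ : ℂ))).re - (t - t0) * ‖T‖| ≤ ρ / 4 ∧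
          ‖c t - c t0‖ ≤ ρ := by
      intro t ht
      have h := hl t0 t (by simpa using hδ.le) (ht.trans r3)
      have h' : ϑ * m * |t - t0| ≤ ρ / 4 := by
        have : ϑ * m * |t - t0| ≤ ϑ * m * r := mul_le_mul_of_nonneg_left ht (by positivity)
        nlinarith
      obtain ⟨-, p2, -, p4⟩ := flat_parts e1 e2 (h.trans h')
      refine ⟨p2, ?_⟩
      have := mul_le_mul_of_nonneg_right ht hT0.le
      linarith
    have hc : Continuous fun t => ((c t - c t0) * (starRingEnd ℂ) (T / (‖T‖ : ℂ))).re :=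
      Complex.continuous_re.comp ((H.cont.sub continuous_const).mul continuous_const)
    have ha := (key (t0 - r) (by rw [sub_sub_cancel_left, abs_neg, abs_of_pos r0])).1
    have hb := (key (t0 + r) (by rw [add_sub_cancel_left, abs_of_pos r0])).1
    rw [sub_sub_cancel_left, abs_le] at ha
    rw [add_sub_cancel_left, abs_le] at hb
    rw [abs_le] at hu
    obtain ⟨t, ht, e⟩ := intermediate_value_Icc (a := t0 - r) (b := t0 + r) (by linarith)
      hc.continuousOn (show u ∈ Set.Icc _ _ from ⟨by nlinarith [ha.2], by nlinarith [hb.1]⟩)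
    exact ⟨c t, ⟨t, rfl⟩, (key t (abs_le.2 ⟨by linarith [ht.1], by linarith [ht.2]⟩)).2, e⟩

theorem AL.inj {c : ℝ → ℂ} {m δ0 ρ ϑ : ℝ} (H : AL c m δ0 ρ ϑ) (hm : 0 < m) (hρ : 0 ≤ ρ)
    (h1 : ϑ < 1) {s t : ℝ} (e : c s = c t) : ∃ k : ℤ, t = s + k := by
  obtain ⟨k, hk⟩ := flat_near H (t0 := s) (t := t) (by rw [e, sub_self, norm_zero]; exact hρ)
  obtain ⟨T, hT, hl⟩ := H.loc s
  have h := hl s (t - k) (by simpa using ((abs_nonneg _).trans hk.le)) hk.le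
  rw [flat_per H.per, e, sub_self, zero_sub, norm_neg, norm_mul, Complex.norm_real,
    Real.norm_eq_abs] at h
  refine ⟨k, ?_⟩
  have hd := abs_nonneg (t - k - s)
  have q1 := mul_le_mul_of_nonneg_left hT hd
  have q2 : |t - k - s| ≤ 0 := by
    by_contra hn
    push Not at hn
    have : 0 < |t - k - s| * m := by positivity
    nlinarith
  have := abs_eq_zero.1 (le_antisymm q2 hd)
  linarith

theorem flat_dper {γ : ℝ → ℂ} (H : Curve γ) : Function.Periodic (deriv γ) 1 := by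
  intro t
  have e : (fun x => γ (x + 1)) = γ := funext H.per
  rw [← deriv_comp_add_const, e]

theorem flat_unif {f : ℝ → ℂ} (hc : Continuous f) (hp : Function.Periodic f 1) {ε : ℝ}
    (hε : 0 < ε) : ∃ δ : ℝ, 0 < δ ∧ ∀ s t, |s - t| ≤ δ → ‖f s - f t‖ ≤ ε := by
  have hu := (isCompact_Icc (a := (-1 : ℝ)) (b := 2)).uniformContinuousOn_of_continuous
    hc.continuousOn
  obtain ⟨δ, hδ, h⟩ := Metric.uniformContinuousOn_iff_le.1 hu ε hε
  refine ⟨min δ 1, lt_min hδ one_pos, fun s t hst => ?_⟩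
  have h1 := abs_le.1 (hst.trans (min_le_right _ _))
  have h2 := Int.floor_le t
  have h3 := Int.lt_floor_add_one t
  have := h (s - ⌊t⌋) ⟨by linarith, by linarith⟩ (t - ⌊t⌋) ⟨by linarith, by linarith⟩
    (by rw [Real.dist_eq, sub_sub_sub_cancel_right]; exact hst.trans (min_le_left _ _))
  rwa [flat_per hp, flat_per hp, dist_eq_norm] at this

theorem flat_far {γ : ℝ → ℂ} (H : Curve γ) {δ : ℝ} (hδ : 0 < δ) :
    ∃ ρ : ℝ, 0 < ρ ∧ ∀ s t : ℝ, (∀ k : ℤ, δ ≤ |t - s - k|) → ρ ≤ ‖γ t - γ s‖ := by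
  have hc := H.smooth.continuous
  have hK : IsCompact (Set.Icc (0 : ℝ) 1 ×ˢ Set.Icc δ (1 - δ)) := isCompact_Icc.prod isCompact_Icc
  have hf : Continuous fun x : ℝ × ℝ => ‖γ (x.1 + x.2) - γ x.1‖ := by fun_prop
  obtain ⟨ρ, hρ, h⟩ := hK.exists_forall_le' hf.continuousOn (a := 0) (by
    rintro ⟨s, d⟩ ⟨-, h1, h2⟩
    simp only at h1 h2 ⊢
    rw [norm_pos_iff, sub_ne_zero]
    intro e
    rw [← flat_fract H.per (s + d), ← flat_fract H.per s] at e
    have e' := H.inj ⟨Int.fract_nonneg _, Int.fract_lt_one _⟩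
      ⟨Int.fract_nonneg _, Int.fract_lt_one _⟩ e
    obtain ⟨z, hz⟩ := Int.fract_eq_fract.1 e'
    have z0 : (0 : ℝ) < z := by linarith
    have z1 : (z : ℝ) < 1 := by linarith
    have z2 : 0 < z := by exact_mod_cast z0
    have z3 : z < 1 := by exact_mod_cast z1
    omega)
  refine ⟨ρ, hρ, fun s t hst => ?_⟩
  have a1 := hst ⌊t - s⌋
  have a2 := hst (⌊t - s⌋ + 1)
  have b1 := Int.floor_le (t - s)
  have b2 := Int.lt_floor_add_one (t - s)
  rw [abs_of_nonneg (by linarith)] at a1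
  rw [abs_of_nonpos (by push_cast; linarith)] at a2
  push_cast at a2
  have := h (Int.fract s, t - s - ⌊t - s⌋)
    ⟨⟨Int.fract_nonneg _, (Int.fract_lt_one _).le⟩, a1, by simp only; linarith⟩
  have e : Int.fract s + (t - s - ⌊t - s⌋) = t - ((⌊s⌋ + ⌊t - s⌋ : ℤ) : ℝ) := by
    rw [Int.fract]
    push_cast
    ring
  simp only at this
  rwa [e, flat_per H.per, flat_fract H.per] at this

theorem Curve.al {γ : ℝ → ℂ} (H : Curve γ) : ∃ m : ℝ, 0 < m ∧ ∀ ϑ : ℝ, 0 < ϑ →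
    ∃ δ0 ρ : ℝ, 0 < δ0 ∧ 0 < ρ ∧ ρ ≤ m * δ0 ∧ AL γ m δ0 ρ ϑ := by
  have hd : Continuous (deriv γ) := H.smooth.continuous_deriv le_rfl
  have hdiff : Differentiable ℝ γ := H.smooth.differentiable one_ne_zero
  obtain ⟨m, hm, h⟩ := (isCompact_Icc (a := (0 : ℝ)) (b := 1)).exists_forall_le'
    (f := fun t => ‖deriv γ t‖) hd.norm.continuousOn (a := 0) fun t _ => norm_pos_iff.2 (H.reg t)
  refine ⟨m, hm, fun ϑ hϑ => ?_⟩
  obtain ⟨δ, hδ, hu⟩ := flat_unif hd (flat_dper H) (mul_pos hϑ hm)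
  obtain ⟨ρ, hρ, hf⟩ := flat_far H hδ
  refine ⟨δ, min (ρ / 2) (m * δ), hδ, lt_min (by positivity) (by positivity), min_le_right _ _,
    H.smooth.continuous, H.per, fun t0 => ⟨deriv γ t0, ?_, fun s t hs ht => ?_⟩, fun s t hst => ?_⟩
  · rw [← flat_fract (flat_dper H) t0]
    exact h _ ⟨Int.fract_nonneg _, (Int.fract_lt_one _).le⟩
  · have hg : ∀ x ∈ Metric.closedBall t0 δ,
        HasDerivWithinAt (fun y : ℝ => γ y - (y : ℂ) * deriv γ t0) (deriv γ x - deriv γ t0)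
          (Metric.closedBall t0 δ) x := by
      intro x _
      have h1 : HasDerivAt (fun y : ℝ => (y : ℂ) * deriv γ t0) (deriv γ t0) x := by
        simpa using (Complex.ofRealCLM.hasDerivAt (x := x)).mul_const (deriv γ t0)
      exact ((hdiff x).hasDerivAt.sub h1).hasDerivWithinAt
    have := (convex_closedBall t0 δ).norm_image_sub_le_of_norm_hasDerivWithin_le hg
      (C := ϑ * m) (fun x hx => hu x t0 (by simpa [Real.dist_eq] using hx))
      (x := s) (y := t) (by simpa [Real.dist_eq] using hs) (by simpa [Real.dist_eq] using ht)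
    rw [Real.norm_eq_abs] at this
    refine le_trans (le_of_eq ?_) this
    congr 1
    push_cast
    ring
  · have := hf s t hst
    have := min_le_left (ρ / 2) (m * δ)
    linarith

theorem Curve.flat {γ : ℝ → ℂ} (H : Curve γ) {ϑ : ℝ} (hϑ : 0 < ϑ) :
    ∃ ρ : ℝ, 0 < ρ ∧ Flat (Set.range γ) ρ ϑ := by
  obtain ⟨m, hm, h⟩ := H.al
  have h0 : 0 < min (ϑ / 2) (1 / 3) := lt_min (by positivity) (by norm_num)
  obtain ⟨δ0, ρ, hδ, hρ, hρm, hA⟩ := h _ h0
  refine ⟨ρ, hρ, fun p hp => ?_⟩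
  obtain ⟨τ, e, h1, h2⟩ := hA.flat hm hδ hρ hρm h0.le (min_le_right _ _) p hp
  refine ⟨τ, e, fun a ha b hb ha' hb' => (h1 a ha b hb ha' hb').trans ?_, h2⟩
  have := min_le_left (ϑ / 2) (1 / 3)
  exact mul_le_mul_of_nonneg_right (by linarith) (norm_nonneg _)

theorem Curve.compact {γ : ℝ → ℂ} (H : Curve γ) : IsCompact (Set.range γ) :=
  H.per.compact_of_continuous one_ne_zero H.smooth.continuous

end Pool.Agent.Lib.MP_5a3ebe_gt.PI
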