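import Pool.Agent.Lib.MP_5a3ebe_gt.PiSeg

/-! The geometry of a displaced polygon. -/

set_option linter.unusedSectionVars false
set_option linter.unusedVariables false

namespace Pool.Agent.Lib.MP_5a3ebe_gt.PI

open Ap Classical

/-- The slope of an edge. -/
noncomputable def frame_sl {n : ℕ} (z : ZMod n → ℂ) (s : ZMod n) : ℝ :=
  ((z (s + 1)).im - (z s).im) / ((z (s + 1)).re - (z s).re)

lemma frame_eh {n : ℕ} (z : ZMod n → ℂ) (s : ZMod n) (x x' : ℝ) :
    eh z s x = eh z s x' + frame_sl z s * (x - x') := by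
  unfold eh lineH frame_sl
  ring

lemma frame_eh_lip {n : ℕ} (z : ZMod n → ℂ) (s : ZMod n) {σ : ℝ} (hσ : |frame_sl z s| ≤ σ)
    (x x' : ℝ) : |eh z s x - eh z s x'| ≤ σ * |x - x'| := by
  rw [frame_eh z s x x', add_sub_cancel_left, abs_mul]
  exact mul_le_mul_of_nonneg_right hσ (abs_nonneg _)

lemma frame_ne {n : ℕ} [NeZero n] {z : ZMod n → ℂ} (hn : 3 ≤ n) (hs : SimplePoly z)
    (hi : ∀ i j, (z i).re = (z j).re → i = j) {s t : ZMod n} (hst : s ≠ t) {y : ℝ}
    (us : Under z s y) (ut : Under z t y) (hy : ∀ v, (z v).re ≠ y) : eh z s y ≠ eh z t y := by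
  intro e
  have m1 := lineH_mem (poly_re_ne hn hi s) us.1 us.2
  have m2 := lineH_mem (poly_re_ne hn hi t) ut.1 ut.2
  unfold eh at e
  rw [e] at m1
  rcases hs s t _ m1 m2 with e' | ⟨-, e'⟩ | ⟨-, e'⟩
  · exact hst e'
  · exact hy t (by simpa using (congrArg Complex.re e').symm)
  · exact hy s (by simpa using (congrArg Complex.re e').symm)

lemma frame_between {n : ℕ} {z : ZMod n → ℂ} {s : ZMod n} {a b y : ℝ} (ua : Under z s a)
    (ub : Under z s b) (h1 : a ≤ y) (h2 : y ≤ b) : Under z s y :=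
  ⟨ua.1.trans h1, h2.trans ub.2⟩

lemma frame_al {n : ℕ} [NeZero n] {z : ZMod n → ℂ} {h : ℝ} {X : ZMod n → ℤ} (hh : 0 < h)
    (hX : ∀ i, (z i).re = h * X i) {k : ℤ} {s : ZMod n} (a : (polyDiag z h X).Al k s) :
    Under z s (h * k) ∧ Under z s (h * ((k + 1 : ℤ) : ℝ)) :=
  ⟨(under_iff hh hX k s).1 ⟨a.1, a.2.1, a.2.2.le⟩,
    (under_iff hh hX (k + 1) s).1 ⟨a.1, by have := a.2.1; omega, by have := a.2.2; omega⟩⟩

/-- The order of the keys is the weak order of the heights at both walls. -/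
lemma frame_ord {n : ℕ} [NeZero n] {z : ZMod n → ℂ} (hn : 3 ≤ n) (hs : SimplePoly z)
    (hi : ∀ i j, (z i).re = (z j).re → i = j) {h : ℝ} {X : ZMod n → ℤ} (hh : 0 < h)
    (hX : ∀ i, (z i).re = h * X i) {k : ℤ} {s t : ZMod n} (as : (polyDiag z h X).Al k s)
    (bt : (polyDiag z h X).Al k t) (hk : (polyDiag z h X).key k s < (polyDiag z h X).key k t) :
    eh z s (h * k) ≤ eh z t (h * k) ∧
      eh z s (h * ((k + 1 : ℤ) : ℝ)) ≤ eh z t (h * ((k + 1 : ℤ) : ℝ)) := by
  have hst : s ≠ t := by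
    rintro rfl
    exact lt_irrefl _ hk
  have hk' : eh z s (h * ((k : ℝ) + 1 / 2)) < eh z t (h * ((k : ℝ) + 1 / 2)) := hk
  obtain ⟨s1, s2⟩ := frame_al hh hX as
  obtain ⟨t1, t2⟩ := frame_al hh hX bt
  have key : ∀ y, h * k < y → y < h * ((k + 1 : ℤ) : ℝ) → eh z s y ≠ eh z t y := by
    intro y y1 y2
    refine frame_ne hn hs hi hst (frame_between s1 s2 y1.le y2.le)
      (frame_between t1 t2 y1.le y2.le) fun v e => ?_
    rw [← e, hX] at y1 y2
    have a1 : (k : ℝ) < X v := lt_of_mul_lt_mul_left y1 hh.le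
    have a2 : (X v : ℝ) < ((k + 1 : ℤ) : ℝ) := lt_of_mul_lt_mul_left y2 hh.le
    have b1 : k < X v := by exact_mod_cast a1
    have b2 : X v < k + 1 := by exact_mod_cast a2
    omega
  have hc : Continuous fun y => eh z t y - eh z s y :=
    (continuous_lineH _ _).sub (continuous_lineH _ _)
  have m1 : h * k < h * ((k : ℝ) + 1 / 2) := by nlinarith
  have m2 : h * ((k : ℝ) + 1 / 2) < h * ((k + 1 : ℤ) : ℝ) := by push_cast; nlinarith
  constructor
  · by_contra c
    have c' := not_le.1 c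
    have : (0 : ℝ) ∈ Set.Ioo (eh z t (h * k) - eh z s (h * k))
        (eh z t (h * ((k : ℝ) + 1 / 2)) - eh z s (h * ((k : ℝ) + 1 / 2))) :=
      ⟨by linarith, by linarith⟩
    obtain ⟨y, hy, e⟩ := intermediate_value_Ioo m1.le hc.continuousOn this
    exact key y hy.1 (hy.2.trans m2) (by simp only at e; linarith)
  · by_contra c
    have c' := not_le.1 c
    have : (0 : ℝ) ∈ Set.Ioo (eh z t (h * ((k + 1 : ℤ) : ℝ)) - eh z s (h * ((k + 1 : ℤ) : ℝ)))
        (eh z t (h * ((k : ℝ) + 1 / 2)) - eh z s (h * ((k : ℝ) + 1 / 2))) :=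
      ⟨by linarith, by linarith⟩
    obtain ⟨y, hy, e⟩ := intermediate_value_Ioo' m2.le hc.continuousOn this
    exact key y (m1.trans hy.1) hy.2 (by simp only at e; linarith)

lemma frame_pos {α : Type} [Fintype α] (f : α → ℝ) (p : α → Prop) (hf : ∀ a, p a → 0 < f a) :
    ∃ d : ℝ, 0 < d ∧ ∀ a, p a → d ≤ f a := by
  by_cases he : (Finset.univ.filter p).Nonempty
  · obtain ⟨a, ha, hm⟩ := Finset.exists_min_image _ f he
    exact ⟨f a, hf a (Finset.mem_filter.1 ha).2, fun b hb => hm b (by simpa using hb)⟩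
  · exact ⟨1, one_pos, fun b hb => absurd ⟨b, by simpa using hb⟩ he⟩

lemma frame_bd {α : Type} [Fintype α] (f : α → ℝ) : ∃ B : ℝ, 0 ≤ B ∧ ∀ a, |f a| ≤ B :=
  ⟨∑ a, |f a|, Finset.sum_nonneg fun _ _ => abs_nonneg _,
    fun a => Finset.single_le_sum (f := fun a => |f a|) (fun _ _ => abs_nonneg _)
      (Finset.mem_univ a)⟩

/-- Without a vertex between two abscissae, the same edges lie over them. -/
lemma frame_move {n : ℕ} {z : ZMod n → ℂ} {s : ZMod n} {x xs ε : ℝ} (u : Under z s x)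
    (hx : |x - xs| ≤ ε) (hv : ∀ v, ε < |(z v).re - xs|) : Under z s xs := by
  obtain ⟨u1, u2⟩ := u
  obtain ⟨x1, x2⟩ := abs_le.1 hx
  have a := hv s
  have b := hv (s + 1)
  rw [lt_abs] at a b
  constructor
  · rcases min_cases (z s).re (z (s + 1)).re with ⟨e, -⟩ | ⟨e, -⟩ <;> rw [e] at u1 ⊢
    · rcases a with a | a <;> linarith
    · rcases b with b | b <;> linarith
  · rcases max_cases (z s).re (z (s + 1)).re with ⟨e, -⟩ | ⟨e, -⟩ <;> rw [e] at u2 ⊢
    · rcases a with a | a <;> linarith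
    · rcases b with b | b <;> linarith

lemma frame_tm {t C a b : ℝ} (ht : |t| * C ≤ 1 / 2) (hb : 0 ≤ b) (ha : |a| ≤ C * b) :
    |t * a| ≤ b / 2 := by
  rw [abs_mul]
  have := mul_le_mul_of_nonneg_left ha (abs_nonneg t)
  nlinarith

lemma frame_x {n : ℕ} (z : ZMod n → ℂ) (g ψ) (h t : ℝ) (F A) (i : ℤ) :
    (pgeo z g ψ h t F A).x i = h * i + t * g (h * i) := rfl

lemma frame_Y {n : ℕ} (z : ZMod n → ℂ) (g ψ) (h t : ℝ) (F A) (i : ℤ) (s) :
    (pgeo z g ψ h t F A).Y i s = eh z s (h * i) + t * ψ s (h * i) := rfl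

theorem frame_of_field {n : ℕ} [NeZero n] {z : ZMod n → ℂ} (hn : 3 ≤ n) (hs : SimplePoly z)
    (hi : ∀ i j, (z i).re = (z j).re → i = j) {g ψ C xs ε1 l0 l1 s0} (hε : 0 < ε1)
    (H : Fld z g ψ C xs ε1 l0 l1 s0) (hx : ∀ v, (z v).re ≠ xs) (hu : Under z s0 xs) :
    ∃ S R ε gb t0 C' sl : ℝ, 0 < S ∧ 0 < R ∧ 0 < ε ∧ 0 < gb ∧ 0 < t0 ∧ 0 ≤ C' ∧
      ∀ (h : ℝ) (X : ZMod n → ℤ) (i0 : ℤ), 0 < h → (∀ i, (z i).re = h * X i) → xs = h * i0 →
      ∀ t, |t| ≤ t0 →
        (∀ F A, (polyDiag z h X).Lev (pgeo z g ψ h t 0 0).Δ F A →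
          (pgeo z g ψ h t F A).Frame (polyDiag z h X) h S R ε gb xs (eh z s0 xs + t * l0)
            (sl + t * l1) i0 s0) ∧
        ∀ k s, (polyDiag z h X).Al k s →
          |(pgeo z g ψ h t 0 0).Δ k s - (pgeo z g ψ h 0 0 0).Δ k s| ≤ C' * |t| * h := by
  obtain ⟨σ, σ0, hσ⟩ := frame_bd (frame_sl z)
  obtain ⟨Rx, Rx0, hRx⟩ := frame_bd fun v => (z v).re
  obtain ⟨Ry, Ry0, hRy⟩ := frame_bd fun v => (z v).im
  obtain ⟨d1, d10, hd1⟩ := frame_pos (fun v => |(z v).re - xs|) (fun _ => True)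
    fun v _ => abs_pos.2 (sub_ne_zero.2 (hx v))
  obtain ⟨d0, d00, hd0⟩ := frame_pos (fun p : ZMod n × ZMod n => |eh z p.1 xs - eh z p.2 xs|)
    (fun p => p.1 ≠ p.2 ∧ Under z p.1 xs ∧ Under z p.2 xs)
    fun p hp => abs_pos.2 (sub_ne_zero.2 (frame_ne hn hs hi hp.1 hp.2.1 hp.2.2 hx))
  have C0 := H.C0
  obtain ⟨ε, ε0, e1, e2, e3⟩ : ∃ ε : ℝ, 0 < ε ∧ ε ≤ ε1 ∧ ε < d1 ∧ σ * ε ≤ d0 / 4 := by
    refine ⟨min ε1 (min (d1 / 2) (d0 / (4 * (σ + 1)))), by positivity, min_le_left _ _, ?_, ?_⟩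
    · have : min ε1 (min (d1 / 2) (d0 / (4 * (σ + 1)))) ≤ d1 / 2 :=
        (min_le_right _ _).trans (min_le_left _ _)
      linarith
    · have a : min ε1 (min (d1 / 2) (d0 / (4 * (σ + 1)))) ≤ d0 / (4 * (σ + 1)) :=
        (min_le_right _ _).trans (min_le_right _ _)
      have b : σ * (d0 / (4 * (σ + 1))) ≤ d0 / 4 := by
        rw [mul_div_assoc', div_le_div_iff₀ (by positivity) (by norm_num)]
        nlinarith
      exact (mul_le_mul_of_nonneg_left a σ0).trans b
  have hv : ∀ v, ε < |(z v).re - xs| := fun v => e2.trans_le (hd1 v trivial)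
  have bx : ∀ s x, Under z s x → |x| ≤ Rx := by
    intro s x u
    have a := abs_le.1 (hRx s)
    have b := abs_le.1 (hRx (s + 1))
    exact abs_le.2 ⟨(le_min a.1 b.1).trans u.1, u.2.trans (max_le a.2 b.2)⟩
  obtain ⟨B1, B10, by'⟩ : ∃ B1 : ℝ, 0 ≤ B1 ∧ ∀ s x, Under z s x → |eh z s x| ≤ B1 := by
    refine ⟨Ry + σ * (2 * Rx), by positivity, fun s x u => ?_⟩
    have a := frame_eh_lip z s (hσ s) x (z s).re
    have b : eh z s (z s).re = (z s).im := lineH_left _ _
    have c : |x - (z s).re| ≤ 2 * Rx := by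
      have a := abs_le.1 (bx s x u)
      have b := abs_le.1 (hRx s)
      exact abs_le.2 ⟨by linarith, by linarith⟩
    have d := mul_le_mul_of_nonneg_left c σ0
    have e := abs_le.1 (hRy s)
    rw [b] at a
    have f := abs_le.1 (a.trans d)
    exact abs_le.2 ⟨by linarith, by linarith⟩
  refine ⟨σ + 1, B1 + Rx + 1, ε, d0 / 4, 1 / (2 * (C + 1)), C * (B1 + 2), frame_sl z s0,
    by positivity, by positivity, ε0, by positivity, by positivity, by positivity, ?_⟩
  intro h X i0 hh hX hxs t ht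
  have tC : |t| * C ≤ 1 / 2 := by
    have a := mul_le_mul_of_nonneg_right ht C0
    have b : 1 / (2 * (C + 1)) * C ≤ 1 / 2 := by
      rw [div_mul_eq_mul_div, div_le_div_iff₀ (by positivity) (by norm_num)]
      nlinarith
    exact a.trans b
  have stp : ∀ k : ℤ, |h * ((k + 1 : ℤ) : ℝ) - h * k| = h := by
    intro k
    rw [show h * ((k + 1 : ℤ) : ℝ) - h * k = h by push_cast; ring, abs_of_pos hh]
  have dg : ∀ k : ℤ, |g (h * ((k + 1 : ℤ) : ℝ)) - g (h * k)| ≤ C * h := by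
    intro k
    have := H.glip (h * ((k + 1 : ℤ) : ℝ)) (h * k)
    rwa [stp] at this
  have gap : ∀ s s' x, Under z s x → Under z s' x → eh z s x ≤ eh z s' x →
      (eh z s' x - eh z s x) / 2 ≤ (eh z s' x + t * ψ s' x) - (eh z s x + t * ψ s x) := by
    intro s s' x u u' l
    have a := H.ord s' s x u' u
    rw [abs_of_nonneg (sub_nonneg.2 l)] at a
    have b := abs_le.1 (frame_tm tC (sub_nonneg.2 l) a)
    nlinarith [b.1]
  refine ⟨fun F A L => ⟨⟨L, fun k => ?_, fun k s s' a a' hk => ?_, fun k s a => ?_,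
    fun s _ β => ?_, fun i s a => ?_, fun i s a => ?_⟩, hxs, fun s _ β => ?_, ?_,
    fun k s s' k1 k2 a a' hk => ?_, fun i hi' => ?_, fun i hi' => ?_⟩, fun k s a => ?_⟩
  · rw [frame_x, frame_x]
    have a := abs_le.1 (frame_tm tC hh.le (dg k))
    have b : h * ((k + 1 : ℤ) : ℝ) = h * k + h := by push_cast; ring
    constructor <;> nlinarith [a.1, a.2]
  · simp only [frame_Y]
    obtain ⟨o1, o2⟩ := frame_ord hn hs hi hh hX a a' hk
    obtain ⟨s1, s2⟩ := frame_al hh hX a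
    obtain ⟨t1, t2⟩ := frame_al hh hX a'
    have g1 := gap _ _ _ s1 t1 o1
    have g2 := gap _ _ _ s2 t2 o2
    constructor <;> linarith
  · simp only [frame_Y]
    have a1 := frame_eh_lip z s (hσ s) (h * ((k + 1 : ℤ) : ℝ)) (h * k)
    have a2 := H.plip s (h * ((k + 1 : ℤ) : ℝ)) (h * k)
    rw [stp] at a1 a2
    have a3 := abs_le.1 (frame_tm tC hh.le a2)
    have a4 := abs_le.1 a1
    exact abs_le.2 ⟨by nlinarith [a3.1, a4.1], by nlinarith [a3.2, a4.2]⟩
  · simp only [frame_Y]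
    have h1 := poly_height hn hi hX (s, β)
    have h2 := poly_height hn hi hX ((polyDiag z h X).J (s, β))
    rw [pvtx_J] at h2
    rw [poly_wall]
    have h3 : eh z ((polyDiag z h X).J (s, β)).1 (h * X (pvtx X (s, β))) =
        eh z s (h * X (pvtx X (s, β))) := h2.trans h1.symm
    have h4 : ψ ((polyDiag z h X).J (s, β)).1 (h * X (pvtx X (s, β))) =
        ψ s (h * X (pvtx X (s, β))) := by
      rw [← hX]
      by_cases hb : β = decide (X s < X (s + 1))
      · rw [poly_J_pos z h X hb]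
        simp only [pvtx]
        rw [if_pos hb]
        exact (H.vert s).symm
      · rw [poly_J_neg z h X hb]
        simp only [pvtx]
        rw [if_neg hb]
        have := H.vert (s - 1)
        rwa [sub_add_cancel] at this
    rw [h3, h4]
  · rw [frame_Y]
    have u := (under_iff hh hX i s).1 a
    have a1 := abs_le.1 (by' _ _ u)
    have a2 := abs_le.1 (frame_tm (b := 1) tC zero_le_one (by simpa using H.pbd s _ u))
    exact abs_le.2 ⟨by linarith, by linarith⟩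
  · rw [frame_x]
    have u := (under_iff hh hX i s).1 a
    have a1 := abs_le.1 (bx _ _ u)
    have a2 := abs_le.1 (frame_tm (b := 1) tC zero_le_one (by simpa using H.gbd (h * i)))
    exact abs_le.2 ⟨by linarith, by linarith⟩
  · rw [poly_wall, ← hX]
    exact hv _
  · have u : (polyDiag z h X).Touch i0 s0 := (under_iff hh hX i0 s0).2 (hxs ▸ hu)
    refine ⟨u.1, u.2.1, lt_of_le_of_ne u.2.2 fun e => ?_⟩
    have w := poly_wall z h X (s0, true)
    rw [Diag.wall_true, ← e] at w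
    exact hx (pvtx X (s0, true)) (by rw [hX, ← w, hxs])
  · simp only [Geo.avg, frame_Y]
    have hst : s' ≠ s := by
      rintro rfl
      exact lt_irrefl _ hk
    obtain ⟨o1, o2⟩ := frame_ord hn hs hi hh hX a a' hk
    obtain ⟨s1, s2⟩ := frame_al hh hX a
    obtain ⟨t1, t2⟩ := frame_al hh hX a'
    have g1 := gap _ _ _ s1 t1 o1
    have g2 := gap _ _ _ s2 t2 o2
    have d := hd0 (s', s) ⟨hst, frame_move t1 k1 hv, frame_move s1 k1 hv⟩
    have far : ∀ x, |x - xs| ≤ ε → eh z s x ≤ eh z s' x → d0 / 2 ≤ eh z s' x - eh z s x := by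
      intro x hx' l
      have b := (mul_le_mul_of_nonneg_left hx' σ0).trans e3
      have b1 := abs_le.1 ((frame_eh_lip z s (hσ s) x xs).trans b)
      have b2 := abs_le.1 ((frame_eh_lip z s' (hσ s') x xs).trans b)
      simp only at d
      rcases le_abs.1 d with d | d <;> linarith [b1.1, b1.2, b2.1, b2.2]
    have f1 := far _ k1 o1
    have f2 := far _ (by push_cast; exact k2) o2
    linarith
  · rw [frame_x, H.g0 _ (hi'.trans e1)]
    ring
  · rw [frame_Y, H.p0 _ (hi'.trans e1), frame_eh z s0 (h * i) xs]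
    ring
  · obtain ⟨s1, s2⟩ := frame_al hh hX a
    simp only [Geo.Δ, Geo.avg, frame_x, frame_Y]
    have a1 := by' _ _ s1
    have a2 := by' _ _ s2
    have p1 := H.pbd _ _ s1
    have p2 := H.pbd _ _ s2
    have q := dg k
    have b : h * ((k + 1 : ℤ) : ℝ) = h * k + h := by push_cast; ring
    generalize eh z s (h * k) = y1 at *
    generalize eh z s (h * ((k + 1 : ℤ) : ℝ)) = y2 at *
    generalize ψ s (h * k) = u1 at *
    generalize ψ s (h * ((k + 1 : ℤ) : ℝ)) = u2 at *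
    generalize g (h * k) = v1 at *
    generalize g (h * ((k + 1 : ℤ) : ℝ)) = v2 at *
    rw [b]
    have c1 : |(y1 + y2) / 2| ≤ B1 := by
      have := abs_le.1 a1
      have := abs_le.1 a2
      exact abs_le.2 ⟨by linarith, by linarith⟩
    have c2 : |(u1 + u2) / 2| ≤ C := by
      have := abs_le.1 p1
      have := abs_le.1 p2
      exact abs_le.2 ⟨by linarith, by linarith⟩
    have c3 : |h + t * (v2 - v1)| ≤ 2 * h := by
      have := abs_le.1 (frame_tm tC hh.le q)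
      exact abs_le.2 ⟨by linarith, by linarith⟩
    have c4 : |(y1 + y2) / 2 * (v2 - v1)| ≤ B1 * (C * h) := by
      rw [abs_mul]
      exact mul_le_mul c1 q (abs_nonneg _) B10
    have c5 : |(u1 + u2) / 2 * (h + t * (v2 - v1))| ≤ C * (2 * h) := by
      rw [abs_mul]
      exact mul_le_mul c2 c3 (abs_nonneg _) C0
    have c6 := (abs_add_le _ _).trans (add_le_add c4 c5)
    have c7 := mul_le_mul_of_nonneg_left c6 (abs_nonneg t)
    rw [← abs_mul, ← abs_neg] at c7
    refine le_of_eq_of_le (congrArg abs (by ring)) (c7.trans (le_of_eq (by ring)))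

end Pool.Agent.Lib.MP_5a3ebe_gt.PI
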