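import Pool.Agent.Lib.MP_5a3ebe_gt.PiDefs

/-! Operators on products and on cyclic covers. -/

set_option linter.unusedSectionVars false
set_option linter.unusedVariables false

namespace Pool.Agent.Lib.MP_5a3ebe_gt.PI

open Ap Classical

lemma lift_sh_sh {X X' X'' : Type} (u : X' → X'') (v : X → X') (y : Ch X) :
    sh u (sh v y) = sh (fun a => u (v a)) y := by
  have : (sh u).comp (sh v) = sh (fun a => u (v a)) := ext_sg fun s => by simp
  exact LinearMap.congr_fun this y

lemma lift_sh_id {X : Type} (y : Ch X) : sh (fun a => a) y = y := by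
  have : (sh (fun a : X => a)) = LinearMap.id := ext_sg fun s => by simp
  exact LinearMap.congr_fun this y

lemma lift_swap {A B X : Type} (f : A → B → X) (y : Ch A) (z : Ch B) :
    gen (fun b => sh (fun a => f a b) y) z = gen (fun a => sh (fun b => f a b) z) y := by
  have h1 : ∀ (a : A), gen (fun b => sh (fun a => f a b) (sg a)) = sh (fun b => f a b) :=
    fun a => ext_sg fun s => by simp
  have h2 : ∀ y y' : Ch A, gen (fun b => sh (fun a => f a b) (y + y')) =
      gen (fun b => sh (fun a => f a b) y) + gen (fun b => sh (fun a => f a b) y') :=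
    fun y y' => ext_sg fun s => by simp
  have h3 : gen (fun b => sh (fun a => f a b) (0 : Ch A)) = 0 := ext_sg fun s => by simp
  induction y using Finsupp.induction_linear with
  | zero => rw [h3]; simp
  | add y y' hy hy' => rw [h2, LinearMap.add_apply, hy, hy', map_add]
  | single a c =>
    by_cases hc : c = 0
    · subst hc
      rw [Finsupp.single_zero, h3]; simp
    · rw [F2.eq_one hc]
      change gen (fun b => sh (fun a => f a b) (sg a)) z = gen _ (sg a)
      rw [h1, gen_sg]

section prod

variable {ι : Type} [DecidableEq ι] {Y : ι → Type}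

lemma lift_lft_sg (i : ι) (M : En (Y i)) (σ : ∀ i, Y i) :
    lft i M (sg σ) = sh (Function.update σ i) (M (sg (σ i))) := by
  unfold lft
  rw [gen_sg]

lemma lift_lft_upd (i : ι) (M : En (Y i)) (σ : ∀ i, Y i) (y : Ch (Y i)) :
    lft i M (sh (Function.update σ i) y) = sh (Function.update σ i) (M y) := by
  have : (lft i M).comp (sh (Function.update σ i)) = (sh (Function.update σ i)).comp M := by
    refine ext_sg fun s => ?_
    rw [LinearMap.comp_apply, LinearMap.comp_apply, sh_sg, lift_lft_sg, Function.update_self]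
    congr 2
    funext a
    exact Function.update_idem _ _ _
  exact LinearMap.congr_fun this y

lemma lift_lft_ne {i j : ι} (h : i ≠ j) (M : En (Y i)) (σ : ∀ i, Y i) (z : Ch (Y j)) :
    lft i M (sh (Function.update σ j) z) =
      gen (fun b => sh (fun a => Function.update (Function.update σ j b) i a) (M (sg (σ i)))) z := by
  have : (lft i M).comp (sh (Function.update σ j)) =
      gen (fun b => sh (fun a => Function.update (Function.update σ j b) i a) (M (sg (σ i)))) := by
    refine ext_sg fun s => ?_
    rw [LinearMap.comp_apply, sh_sg, lift_lft_sg, gen_sg, Function.update_of_ne h]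
  exact LinearMap.congr_fun this z

lemma lft_mul (i : ι) (M N : En (Y i)) : lft i M * lft i N = lft i (M * N) := by
  refine ext_sg fun σ => ?_
  rw [Module.End.mul_apply, lift_lft_sg, lift_lft_upd, lift_lft_sg, Module.End.mul_apply]

lemma lft_add (i : ι) (M N : En (Y i)) : lft i (M + N) = lft i M + lft i N := by
  refine ext_sg fun σ => ?_
  rw [LinearMap.add_apply, lift_lft_sg, lift_lft_sg, lift_lft_sg, LinearMap.add_apply, map_add]

lemma lft_one (i : ι) : lft i (1 : En (Y i)) = 1 := by
  refine ext_sg fun σ => ?_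
  rw [lift_lft_sg, Module.End.one_apply, Module.End.one_apply, sh_sg, Function.update_eq_self]

lemma lft_comm {i j : ι} (h : i ≠ j) (M : En (Y i)) (N : En (Y j)) :
    lft i M * lft j N = lft j N * lft i M := by
  refine ext_sg fun σ => ?_
  rw [Module.End.mul_apply, Module.End.mul_apply, lift_lft_sg, lift_lft_sg, lift_lft_ne h,
    lift_lft_ne h.symm,
    lift_swap (fun a b => Function.update (Function.update σ j b) i a)]
  congr 2
  funext a
  congr 2
  funext b
  exact Function.update_comm h.symm _ _ _

lemma lft_sh (i : ι) (u : Y i → Y i) :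
    lft i (sh u) = sh fun σ : ∀ i, Y i => Function.update σ i (u (σ i)) := by
  refine ext_sg fun σ => ?_
  rw [lift_lft_sg, sh_sg, sh_sg, sh_sg]

lemma ent_lft {i : ι} {M : En (Y i)} {σ σ' : ∀ i, Y i} (h : Ent (lft i M) σ σ') :
    ∃ y, σ' = Function.update σ i y ∧ Ent M (σ i) y := by
  unfold Ent at h
  rw [lift_lft_sg] at h
  obtain ⟨y, h1, h2⟩ := sh_ne h
  exact ⟨y, h2.symm, h1⟩

lemma lift_anti (A : Finset ι) (d : ∀ i, En (Y i)) (i : ι) (hi : i ∉ A) (H : En (Y i)) :
    (∑ l ∈ A, lft l (d l)) * lft i H + lft i H * (∑ l ∈ A, lft l (d l)) = 0 := by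
  rw [Finset.sum_mul, Finset.mul_sum, ← Finset.sum_add_distrib]
  refine Finset.sum_eq_zero fun l hl => ?_
  have : l ≠ i := fun e => hi (e ▸ hl)
  rw [lft_comm this]
  exact hom_two _

lemma lift_tot_sq (A : Finset ι) (d : ∀ i, En (Y i)) :
    (∑ i ∈ A, lft i (d i)) * (∑ i ∈ A, lft i (d i)) = ∑ i ∈ A, lft i (d i * d i) := by
  induction A using Finset.induction_on with
  | empty => simp
  | insert i A hi ih =>
    rw [Finset.sum_insert hi, Finset.sum_insert hi, ← ih, ← lft_mul]
    have := lift_anti A d i hi (d i)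
    calc _ = lft i (d i) * lft i (d i) + (∑ i ∈ A, lft i (d i)) * (∑ i ∈ A, lft i (d i)) +
          ((∑ l ∈ A, lft l (d l)) * lft i (d i) + lft i (d i) * (∑ l ∈ A, lft l (d l))) := by
          noncomm_ring
      _ = _ := by rw [this, add_zero]

variable [Fintype ι]

lemma tot_sq (d : ∀ i, En (Y i)) :
    (∑ i, lft i (d i)) * (∑ i, lft i (d i)) = ∑ i, lft i (d i * d i) :=
  lift_tot_sq _ d

lemma tot_hom (d : ∀ i, En (Y i)) (i : ι) (H : En (Y i)) :
    (∑ l, lft l (d l)) * lft i H + lft i H * (∑ l, lft l (d l)) = lft i (d i * H + H * d i) := by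
  have := lift_anti (Finset.univ.erase i) d i (Finset.notMem_erase _ _) H
  rw [← Finset.add_sum_erase _ _ (Finset.mem_univ i), lft_add, ← lft_mul, ← lft_mul]
  calc _ = lft i (d i) * lft i H + lft i H * lft i (d i) +
        ((∑ l ∈ Finset.univ.erase i, lft l (d l)) * lft i H +
          lft i H * (∑ l ∈ Finset.univ.erase i, lft l (d l))) := by
        noncomm_ring
    _ = _ := by rw [this, add_zero]

end prod

section cover

variable {G : Type} [Fintype G] [DecidableEq G] (κ : G → ℤ)

lemma lift_sg (e : ℤ) (M : Matrix G G F2) (y : G × ℤ) :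
    lift κ e M (sg y) = ∑ g', if Even (κ y.1 + e - κ g') then
      M y.1 g' • sg (g', y.2 + (κ y.1 + e - κ g') / 2) else 0 := by
  unfold lift
  rw [gen_sg]

lemma ent_lift (e : ℤ) (M : Matrix G G F2) (y y' : G × ℤ) :
    Ent (lift κ e M) y y' ↔ LEnt κ e M y y' := by
  obtain ⟨g', m'⟩ := y'
  unfold Ent LEnt
  rw [lift_sg, Finsupp.finsetSum_apply, Finset.sum_eq_single g']
  · by_cases he : Even (κ y.1 + e - κ g')
    · rw [if_pos he, Finsupp.smul_apply, smul_eq_mul]
      obtain ⟨r, hr⟩ := he
      constructor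
      · intro h
        refine ⟨left_ne_zero_of_mul h, ?_⟩
        have h2 := sg_ne (right_ne_zero_of_mul h)
        have h3 : y.2 + (κ y.1 + e - κ g') / 2 = m' := congrArg Prod.snd h2
        dsimp only
        omega
      · rintro ⟨h1, h2⟩
        dsimp only at h1 h2
        have h3 : y.2 + (κ y.1 + e - κ g') / 2 = m' := by omega
        rw [h3, Finsupp.single_eq_same, mul_one]
        exact h1
    · rw [if_neg he]
      constructor
      · intro h
        exact absurd rfl h
      · rintro ⟨h1, h2⟩
        dsimp only at h2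
        exact absurd ⟨m' - y.2, by omega⟩ he
  · intro g _ hg
    split_ifs
    · rw [Finsupp.smul_apply, Finsupp.single_eq_of_ne, smul_zero]
      intro e
      exact hg (congrArg Prod.fst e).symm
    · rfl
  · intro h
    exact absurd (Finset.mem_univ _) h

lemma lift_add (e : ℤ) (M N : Matrix G G F2) : lift κ e (M + N) = lift κ e M + lift κ e N := by
  refine ext_sg fun y => ?_
  rw [LinearMap.add_apply, lift_sg, lift_sg, lift_sg, ← Finset.sum_add_distrib]
  refine Finset.sum_congr rfl fun g _ => ?_
  split_ifs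
  · rw [Matrix.add_apply, add_smul]
  · rw [add_zero]

lemma lift_mul (e e' : ℤ) (M M' : Matrix G G F2)
    (h : (∀ g g', M g g' ≠ 0 → Even (κ g + e - κ g')) ∨
      ∀ g g', M' g g' ≠ 0 → Even (κ g + e' - κ g')) :
    lift κ e' M' * lift κ e M = lift κ (e + e') (M * M') := by
  refine ext_sg fun y => ?_
  rw [Module.End.mul_apply, lift_sg, lift_sg, map_sum]
  have key : ∀ g g' : G, (if Even (κ y.1 + e - κ g) then M y.1 g •
      (if Even (κ g + e' - κ g') then
        M' g g' • sg (g', y.2 + (κ y.1 + e - κ g) / 2 + (κ g + e' - κ g') / 2) else 0) else 0) =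
      if Even (κ y.1 + (e + e') - κ g') then
        (M y.1 g * M' g g') • sg (g', y.2 + (κ y.1 + (e + e') - κ g') / 2) else 0 := by
    intro g g'
    by_cases h1 : M y.1 g = 0
    · simp [h1]
    by_cases h2 : M' g g' = 0
    · simp [h2]
    have h3 : Even (κ y.1 + e - κ g) ∨ Even (κ g + e' - κ g') :=
      h.imp (fun a => a _ _ h1) (fun a => a _ _ h2)
    by_cases a1 : Even (κ y.1 + e - κ g)
    · by_cases a2 : Even (κ g + e' - κ g')
      · have a3 : Even (κ y.1 + (e + e') - κ g') := by
          rw [Int.even_iff] at *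
          omega
        have a4 : y.2 + (κ y.1 + e - κ g) / 2 + (κ g + e' - κ g') / 2 =
            y.2 + (κ y.1 + (e + e') - κ g') / 2 := by
          rw [Int.even_iff] at *
          omega
        rw [if_pos a1, if_pos a2, if_pos a3, a4, mul_smul]
      · have a3 : ¬ Even (κ y.1 + (e + e') - κ g') := by
          rw [Int.even_iff] at *
          omega
        rw [if_pos a1, if_neg a2, if_neg a3, smul_zero]
    · have a2 := h3.resolve_left a1
      have a3 : ¬ Even (κ y.1 + (e + e') - κ g') := by
        rw [Int.even_iff] at a1 a2 ⊢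
        omega
      rw [if_neg a1, if_neg a3]
  calc _ = ∑ g, ∑ g', if Even (κ y.1 + (e + e') - κ g') then
        (M y.1 g * M' g g') • sg (g', y.2 + (κ y.1 + (e + e') - κ g') / 2) else 0 := by
        refine Finset.sum_congr rfl fun g _ => ?_
        rw [← Finset.sum_congr rfl fun g' _ => key g g']
        split_ifs
        · rw [map_smul, lift_sg, Finset.smul_sum]
        · rw [map_zero, Finset.sum_const_zero]
    _ = _ := by
        rw [Finset.sum_comm]
        refine Finset.sum_congr rfl fun g' _ => ?_
        split_ifs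
        · rw [Matrix.mul_apply, Finset.sum_smul]
        · rw [Finset.sum_const_zero]

lemma lift_one (q : ℤ) : lift κ (2 * q) 1 = sh (shU G q) := by
  refine ext_sg fun y => ?_
  rw [lift_sg, sh_sg, Finset.sum_eq_single y.1]
  · have a1 : Even (κ y.1 + 2 * q - κ y.1) := ⟨q, by ring⟩
    have a2 : (κ y.1 + 2 * q - κ y.1) / 2 = q := by omega
    rw [if_pos a1, a2, Matrix.one_apply_eq, one_smul]
    rfl
  · intro g _ hg
    rw [Matrix.one_apply_ne hg.symm, zero_smul, ite_self]
  · intro h
    exact absurd (Finset.mem_univ _) h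

lemma lift_shU (e q : ℤ) (M : Matrix G G F2) :
    (sh (shU G q) : En (G × ℤ)) * lift κ e M = lift κ e M * (sh (shU G q) : En (G × ℤ)) := by
  rw [← lift_one κ q]
  have h1 : ∀ g g' : G, (1 : Matrix G G F2) g g' ≠ 0 → Even (κ g + 2 * q - κ g') := by
    intro g g' h
    have : g = g' := by
      by_contra e
      exact h (Matrix.one_apply_ne e)
    subst this
    exact ⟨q, by ring⟩
  rw [lift_mul κ e (2 * q) M 1 (Or.inr h1), lift_mul κ (2 * q) e 1 M (Or.inl h1), mul_one, one_mul,
    add_comm]

end cover

end Pool.Agent.Lib.MP_5a3ebe_gt.PI
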