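import Pool.Agent.Lib.MP_5a3ebe_gt.PiDefs

/-! The Morse lemma: adding a direction in which the level has a maximum. -/

set_option linter.unusedSectionVars false
set_option linter.unusedVariables false

namespace Pool.Agent.Lib.MP_5a3ebe_gt.PI

open Ap Classical

/-! ### The line -/

lemma max_vtx_add (τ : Bool) (a : ℤ) : vtx τ (a + 1) ↔ ¬ vtx τ a := by
  unfold vtx; rw [Int.even_add_one]; tauto

lemma max_vtx_sub (τ : Bool) (a : ℤ) : vtx τ (a - 1) ↔ ¬ vtx τ a := by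
  unfold vtx; rw [Int.even_sub_one]; tauto

lemma max_vtx_iff (τ : Bool) (a : ℤ) : vtx τ a ↔ a % 2 = if τ then 0 else 1 := by
  unfold vtx; rw [Int.even_iff]; cases τ <;> simp

lemma max_δ_apply (τ : Bool) (y : Ch ℤ) (x : ℤ) :
    lineδ τ y x = if vtx τ x then y (x - 1) + y (x + 1) else 0 := by
  have : (Finsupp.lapply x : Ch ℤ →ₗ[F2] F2).comp (lineδ τ) = if vtx τ x then
      (Finsupp.lapply (x - 1) : Ch ℤ →ₗ[F2] F2) + Finsupp.lapply (x + 1) else 0 := by
    refine ext_sg fun a => ?_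
    simp only [LinearMap.comp_apply, lineδ, gen_sg, Finsupp.lapply_apply]
    have h1 := max_vtx_iff τ a
    have h2 := max_vtx_iff τ x
    by_cases ha : vtx τ a <;> by_cases hx : vtx τ x <;>
      simp only [ha, hx, if_true, if_false, Finsupp.coe_zero, Pi.zero_apply, LinearMap.add_apply,
        Finsupp.lapply_apply, Finsupp.add_apply, sg, Finsupp.single_apply, LinearMap.zero_apply,
        true_iff, false_iff] at h1 h2 ⊢ <;>
      split_ifs <;> first | rfl | (exfalso; cases τ <;> simp at h1 h2 <;> omega)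
  have h := LinearMap.congr_fun this y
  simp only [LinearMap.comp_apply, Finsupp.lapply_apply] at h
  rw [h]; split_ifs <;> simp

/-- The sum of the edges between `u` and `v`. -/
noncomputable def max_E (τ : Bool) (u v : ℤ) : Ch ℤ :=
  Finsupp.onFinset (Finset.Ico (min u v) (max u v))
    (fun x => if vtx τ x then 0 else (if x < u then 1 else 0) + if x < v then 1 else 0) (by
      intro x hx
      rw [Finset.mem_Ico]
      split_ifs at hx <;> first | omega | exact absurd rfl hx)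

lemma max_E_apply (τ : Bool) (u v x : ℤ) : max_E τ u v x =
    if vtx τ x then 0 else (if x < u then 1 else 0) + if x < v then 1 else 0 := rfl

lemma max_E_ne {τ : Bool} {u v x : ℤ} (h : max_E τ u v x ≠ 0) :
    ¬ vtx τ x ∧ ((u ≤ x ∧ x < v) ∨ (v ≤ x ∧ x < u)) := by
  rw [max_E_apply] at h
  split_ifs at h <;> first | exact absurd rfl h | (refine ⟨by assumption, ?_⟩; omega)

lemma max_E_add (τ : Bool) (u v w : ℤ) : max_E τ u v + max_E τ v w = max_E τ u w := by
  ext x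
  simp only [Finsupp.add_apply, max_E_apply]
  split_ifs <;> rfl

lemma max_E_edge {τ : Bool} {a : ℤ} (ha : ¬ vtx τ a) (v : ℤ) :
    max_E τ (a + 1) v + max_E τ (a - 1) v = sg a := by
  ext x
  have h1 := max_vtx_iff τ a
  have h2 := max_vtx_iff τ x
  simp only [Finsupp.add_apply, max_E_apply, sg, Finsupp.single_apply]
  by_cases hx : vtx τ x <;> simp only [ha, hx, if_true, if_false, true_iff, false_iff] at h1 h2 ⊢ <;>
    split_ifs <;> first | rfl | (exfalso; cases τ <;> simp at h1 h2 <;> omega)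

lemma max_δ_E {τ : Bool} {u v : ℤ} (hu : vtx τ u) (hv : vtx τ v) :
    lineδ τ (max_E τ u v) = sg u + sg v := by
  ext x
  have h1 := (max_vtx_iff τ u).1 hu
  have h2 := (max_vtx_iff τ v).1 hv
  have h3 := max_vtx_iff τ x
  simp only [max_δ_apply, max_E_apply, max_vtx_add, max_vtx_sub, Finsupp.add_apply, sg,
    Finsupp.single_apply]
  by_cases hx : vtx τ x <;> simp only [hx, if_true, if_false, true_iff, false_iff, not_true,
    not_false_iff] at h3 ⊢ <;>
    split_ifs <;> first | rfl | (exfalso; cases τ <;> simp at h1 h2 h3 <;> omega)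

/-! ### Products -/

section alg

variable {T : Type}

/-- The product of two chains. -/
noncomputable def max_tn : Ch ℤ →ₗ[F2] Ch T →ₗ[F2] Ch (ℤ × T) :=
  Finsupp.linearCombination F2 fun a => sh fun t => (a, t)

lemma max_tn_sg (a : ℤ) : (max_tn (sg a) : Ch T →ₗ[F2] _) = sh fun t => (a, t) := by
  simp [max_tn, sg]

lemma max_tn_sg2 (a : ℤ) (t : T) : max_tn (sg a) (sg t) = sg (a, t) := by
  rw [max_tn_sg, sh_sg]

lemma max_tn_sg' (x : Ch ℤ) (t : T) : max_tn x (sg t) = sh (fun a => (a, t)) x := by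
  have : (max_tn (T := T)).flip (sg t) = sh fun a => (a, t) :=
    ext_sg fun a => by rw [LinearMap.flip_apply, max_tn_sg2, sh_sg]
  exact LinearMap.congr_fun this x

lemma max_tn_ne {x : Ch ℤ} {y : Ch T} {u : ℤ × T} (h : max_tn x y u ≠ 0) :
    x u.1 ≠ 0 ∧ y u.2 ≠ 0 := by
  obtain ⟨t, h1, h2⟩ := apply_ne (max_tn x) h
  unfold Ent at h2
  rw [max_tn_sg'] at h2
  obtain ⟨a, h3, rfl⟩ := sh_ne h2
  exact ⟨h3, h1⟩

/-- A linear map on the product given fibre by fibre. -/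
noncomputable def max_fam {X : Type} (F : ℤ → Ch T →ₗ[F2] Ch X) : Ch (ℤ × T) →ₗ[F2] Ch X :=
  gen fun x => F x.1 (sg x.2)

lemma max_fam_tn {X : Type} (F : ℤ → Ch T →ₗ[F2] Ch X) (a : ℤ) (y : Ch T) :
    max_fam F (max_tn (sg a) y) = F a y := by
  have : (max_fam F).comp (max_tn (sg a)) = F a :=
    ext_sg fun t => by rw [LinearMap.comp_apply, max_tn_sg2, max_fam, gen_sg]
  exact LinearMap.congr_fun this y

lemma max_D (C : Cx T) (τ : Bool) (h : ℝ) (ψ : ℤ → T → ℝ) (x : Ch ℤ) (y : Ch T) :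
    (C.ext τ h ψ).b (max_tn x y) = max_tn (lineδ τ x) y + max_tn x (C.b y) := by
  have : (max_tn (T := T)).compr₂ (C.ext τ h ψ).b =
      (max_tn (T := T)).comp (lineδ τ) + (max_tn (T := T)).compl₂ C.b := by
    refine ext_sg fun a => ext_sg fun t => ?_
    simp only [LinearMap.compr₂_apply, LinearMap.add_apply, LinearMap.comp_apply,
      LinearMap.compl₂_apply, max_tn_sg2]
    rw [max_tn_sg' (lineδ τ (sg a)), max_tn_sg]
    exact gen_sg _ _
  exact LinearMap.congr_fun (LinearMap.congr_fun this x) y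

/-- The projection onto the generators with `c t < a`. -/
noncomputable def max_σ (c : T → ℤ) (a : ℤ) : En T := gen fun t => if c t < a then sg t else 0

lemma max_σ_apply (c : T → ℤ) (a : ℤ) (y : Ch T) (t : T) :
    max_σ c a y t = if c t < a then y t else 0 := by
  have : (Finsupp.lapply t : Ch T →ₗ[F2] F2).comp (max_σ c a) =
      if c t < a then (Finsupp.lapply t : Ch T →ₗ[F2] F2) else 0 := by
    refine ext_sg fun s => ?_
    simp only [LinearMap.comp_apply, max_σ, gen_sg, Finsupp.lapply_apply]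
    by_cases e : s = t
    · subst e; split_ifs <;> simp
    · split_ifs <;> simp [sg, Finsupp.single_eq_of_ne (Ne.symm e)]
  have h := LinearMap.congr_fun this y
  simp only [LinearMap.comp_apply, Finsupp.lapply_apply] at h
  rw [h]; split_ifs <;> simp

variable (τ : Bool) (c : T → ℤ) (b : En T) (Bm Bp : ℤ)

noncomputable def max_k : En (ℤ × T) := max_fam fun a => if vtx τ a then
  max_tn (max_E τ a Bm) + (max_tn (max_E τ Bm Bp)).comp (max_σ c a) else 0

noncomputable def max_ϱ : En (ℤ × T) := max_fam fun a => if vtx τ a then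
  max_tn (sg Bm) + (max_tn (sg Bm + sg Bp)).comp (max_σ c a) else 0

noncomputable def max_π : Ch (ℤ × T) →ₗ[F2] Ch T := max_fam fun a => if vtx τ a then
  max_σ c a * b + b * max_σ c a else max_σ c (a + 1) + max_σ c (a - 1)

variable {τ c b Bm Bp}

lemma max_δ_v {a : ℤ} (h : vtx τ a) : lineδ τ (sg a) = 0 := by simp [lineδ, h]

lemma max_δ_e {a : ℤ} (h : ¬ vtx τ a) : lineδ τ (sg a) = sg (a + 1) + sg (a - 1) := by
  simp [lineδ, h]

lemma max_hom (C : Cx T) (h : ℝ) (ψ : ℤ → T → ℝ) (hm : vtx τ Bm) (hp : vtx τ Bp)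
    (y : Ch (ℤ × T)) :
    (C.ext τ h ψ).b (max_k τ c Bm Bp y) + max_k τ c Bm Bp ((C.ext τ h ψ).b y) =
      y + max_ϱ τ c Bm Bp y + max_tn (max_E τ Bm Bp) (max_π τ c C.b y) := by
  have : (C.ext τ h ψ).b * max_k τ c Bm Bp + max_k τ c Bm Bp * (C.ext τ h ψ).b =
      1 + max_ϱ τ c Bm Bp + (max_tn (max_E τ Bm Bp)).comp (max_π τ c C.b) := by
    refine ext_sg fun ⟨a, t⟩ => ?_
    rw [← max_tn_sg2]
    generalize sg t = y
    simp only [LinearMap.add_apply, Module.End.mul_apply, Module.End.one_apply,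
      LinearMap.comp_apply, max_D]
    by_cases ha : vtx τ a
    · simp only [max_δ_v ha, max_k, max_ϱ, max_π, max_fam_tn, ha, if_true, LinearMap.add_apply,
        LinearMap.comp_apply, map_add, max_D, max_δ_E ha hm, max_δ_E hm hp, map_zero,
        LinearMap.zero_apply, Module.End.mul_apply]
      linear_combination (norm := abel1) ch_two (max_tn (max_E τ a Bm) (C.b y))
    · have h1 := (max_vtx_add τ a).2 ha
      have h2 := (max_vtx_sub τ a).2 ha
      have h3 := congrArg (fun x => max_tn x y) (max_E_edge ha Bm)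
      simp only [max_δ_e ha, max_k, max_ϱ, max_π, max_fam_tn, ha, h1, h2, if_true, if_false,
        LinearMap.add_apply, LinearMap.comp_apply, map_add, map_zero,
        LinearMap.zero_apply] at h3 ⊢
      linear_combination (norm := abel1) h3
  exact LinearMap.congr_fun this y

lemma max_πD (C : Cx T) (h : ℝ) (ψ : ℤ → T → ℝ) (hb : C.b * C.b = 0) (y : Ch (ℤ × T)) :
    max_π τ c C.b ((C.ext τ h ψ).b y) = C.b (max_π τ c C.b y) := by
  have hb' : ∀ y, C.b (C.b y) = 0 := fun y => LinearMap.congr_fun hb y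
  have : (max_π τ c C.b).comp (C.ext τ h ψ).b = LinearMap.comp C.b (max_π τ c C.b) := by
    refine ext_sg fun ⟨a, t⟩ => ?_
    rw [← max_tn_sg2]
    generalize sg t = y
    simp only [LinearMap.comp_apply, max_D]
    by_cases ha : vtx τ a
    · simp only [max_δ_v ha, max_π, max_fam_tn, ha, if_true, LinearMap.add_apply, map_add,
        map_zero, LinearMap.zero_apply, Module.End.mul_apply, hb', zero_add, add_zero]
    · have h1 := (max_vtx_add τ a).2 ha
      have h2 := (max_vtx_sub τ a).2 ha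
      simp only [max_δ_e ha, max_π, max_fam_tn, ha, h1, h2, if_true, if_false,
        LinearMap.add_apply, map_add, Module.End.mul_apply]
      linear_combination (norm := abel1) ch_two (max_σ c (a + 1) (C.b y)) +
        ch_two (max_σ c (a - 1) (C.b y))
  exact LinearMap.congr_fun this y

lemma max_π_e (hc : ∀ t, ¬ vtx τ (c t)) {a : ℤ} (ha : ¬ vtx τ a) (t : T) :
    max_π τ c b (sg (a, t)) = if a = c t then sg t else 0 := by
  have h1 := max_vtx_iff τ a
  have h2 := max_vtx_iff τ (c t)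
  simp only [ha, hc t, false_iff] at h1 h2
  simp only [max_π, max_fam, gen_sg, ha, if_false, LinearMap.add_apply, max_σ]
  split_ifs <;> first | exact ch_two _ | exact add_zero _ |
    (exfalso; cases τ <;> simp at h1 h2 <;> omega)

lemma max_π_ne (hc : ∀ t, ¬ vtx τ (c t)) {a : ℤ} {t t' : T} (h : Ent (max_π τ c b) (a, t) t') :
    (¬ vtx τ a ∧ a = c t ∧ t' = t) ∨
      (vtx τ a ∧ Ent b t t' ∧ ((c t < a ∧ a ≤ c t') ∨ (c t' < a ∧ a ≤ c t))) := by
  unfold Ent at h
  by_cases ha : vtx τ a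
  · right
    simp only [max_π, max_fam, gen_sg, ha, if_true, LinearMap.add_apply, Module.End.mul_apply,
      Finsupp.add_apply, max_σ_apply] at h
    simp only [max_σ, gen_sg] at h
    refine ⟨ha, ?_⟩
    unfold Ent
    split_ifs at h with h1 h2 h2
    · exact absurd (F2.add_self _) h
    · exact ⟨by simpa using h, by omega⟩
    · exact ⟨by simpa using h, by omega⟩
    · simp at h
  · left
    rw [max_π_e hc ha] at h
    split_ifs at h with h1
    · exact ⟨ha, h1, (sg_ne h).symm⟩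
    · simp at h

lemma max_πι (hc : ∀ t, ¬ vtx τ (c t)) {y : Ch T} (hy : ∀ t, y t ≠ 0 → Bm ≤ c t ∧ c t < Bp) :
    max_π τ c b (max_tn (max_E τ Bm Bp) y) = y := by
  have h1 : ∀ t, max_π τ c b (max_tn (max_E τ Bm Bp) (sg t)) = max_E τ Bm Bp (c t) • sg t := by
    intro t
    conv_lhs => rw [eq_sum_sg (max_E τ Bm Bp)]
    conv_rhs => rw [eq_sum_sg (max_E τ Bm Bp)]
    rw [map_sum, LinearMap.sum_apply, map_sum, Finsupp.finsetSum_apply, Finset.sum_smul]
    refine Finset.sum_congr rfl fun a ha => ?_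
    rw [map_smul, LinearMap.smul_apply, map_smul, max_tn_sg2,
      max_π_e hc (max_E_ne (Finsupp.mem_support_iff.1 ha)).1, Finsupp.smul_apply, smul_assoc,
      Finsupp.single_apply]
    split_ifs <;> simp
  conv_lhs => rw [eq_sum_sg y]
  conv_rhs => rw [eq_sum_sg y]
  rw [map_sum, map_sum]
  refine Finset.sum_congr rfl fun t ht => ?_
  have h2 := hy t (Finsupp.mem_support_iff.1 ht)
  rw [map_smul, map_smul, h1, max_E_apply, if_neg (hc t), if_neg (not_lt.2 h2.1), if_pos h2.2,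
    zero_add, one_smul]

lemma max_k_ne {a : ℤ} {t : T} {u : ℤ × T} (h : Ent (max_k τ c Bm Bp) (a, t) u) :
    u.2 = t ∧ ((c t < a ∧ max_E τ a Bp u.1 ≠ 0) ∨ (a ≤ c t ∧ max_E τ a Bm u.1 ≠ 0)) := by
  unfold Ent at h
  simp only [max_k, max_fam, gen_sg] at h
  split_ifs at h with ha
  · simp only [LinearMap.add_apply, LinearMap.comp_apply, max_σ, gen_sg] at h
    split_ifs at h with h1
    · rw [← LinearMap.add_apply, ← map_add, max_E_add] at h
      exact ⟨(sg_ne (max_tn_ne h).2).symm, Or.inl ⟨h1, (max_tn_ne h).1⟩⟩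
    · rw [map_zero, add_zero] at h
      exact ⟨(sg_ne (max_tn_ne h).2).symm, Or.inr ⟨not_lt.1 h1, (max_tn_ne h).1⟩⟩
  · simp at h

lemma max_bd_ne {y : Ch T} {u : ℤ × T} (h : max_tn (sg Bm + sg Bp) y u ≠ 0) :
    (u.1 = Bm ∨ u.1 = Bp) ∧ y u.2 ≠ 0 :=
  ⟨(F2.add_ne (max_tn_ne h).1).imp (fun e => (sg_ne e).symm) (fun e => (sg_ne e).symm),
    (max_tn_ne h).2⟩

lemma max_ϱ_ne {a : ℤ} {t : T} {u : ℤ × T} (h : Ent (max_ϱ τ c Bm Bp) (a, t) u) :
    (u.1 = Bm ∨ u.1 = Bp) ∧ u.2 = t := by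
  unfold Ent at h
  simp only [max_ϱ, max_fam, gen_sg] at h
  split_ifs at h with ha
  · rcases F2.add_ne h with h | h
    · exact ⟨Or.inl (sg_ne (max_tn_ne h).1).symm, (sg_ne (max_tn_ne h).2).symm⟩
    · refine ⟨(max_bd_ne h).1, ?_⟩
      have h2 := (max_bd_ne h).2
      rw [max_σ_apply] at h2
      split_ifs at h2
      · exact (sg_ne h2).symm
      · exact absurd rfl h2
  · simp at h

end alg

/-! ### Estimates -/

lemma max_pos_mono {h : ℝ} (h0 : 0 < h) {a a' : ℤ} (e : a ≤ a') : pos h a ≤ pos h a' := by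
  unfold pos
  have : a / 2 ≤ a' / 2 := by omega
  exact mul_le_mul_of_nonneg_left (by exact_mod_cast this) h0.le

lemma max_pos_cell (h : ℝ) (q : ℤ) (σ : Bool) : pos h (2 * q + if σ then 1 else 0) = h * q := by
  unfold pos
  congr 2
  cases σ
  · simp
  · simp only [if_true]; omega

lemma max_par {τ : Bool} {a : ℤ} (h : ¬ vtx τ a) : (a : F2) = if τ then 1 else 0 := by
  have h1 := max_vtx_iff τ a
  simp only [h, false_iff] at h1
  rw [← ZMod.intCast_mod a 2]
  cases τ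
  · have : a % (2 : ℕ) = 0 := by simp at h1 ⊢; omega
    rw [this]; rfl
  · have : a % (2 : ℕ) = 1 := by simp at h1 ⊢; omega
    rw [this]; rfl

lemma max_prof {φ : ℝ → ℝ} {Λ κ R1 : ℝ} (hφ : Prof φ Λ κ R1) (hκ : 0 < κ) {u : ℝ}
    (hu : |u| ≤ R1) : 0 ≤ φ u ∧ φ u ≤ Λ * |u| := by
  have h1 := hφ.low u hu
  have h2 := hφ.lip u 0 hu (by rw [abs_zero]; exact (abs_nonneg u).trans hu)
  rw [hφ.zero, sub_zero, sub_zero] at h2
  exact ⟨(by positivity : 0 ≤ κ * u ^ 2).trans h1, (le_abs_self _).trans h2⟩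

lemma max_core {T : Type} (C : Cx T) (l : T → ℝ) (φ : ℝ → ℝ)
    {h Λ κ R1 B R' r r' R Θ' c' e' : ℝ} {m : F2} {K : En T} {p : Ch T} {ξ : Ch T →ₗ[F2] F2}
    (τ : Bool) (hreg : Reg C l h Λ R1) (hφ : Prof φ Λ κ R1) (H : MD C m r' R' Θ' c' e' K p ξ)
    (h0 : 0 < h) (hΛ : 0 < Λ) (hκ : 0 < κ) (hc' : 0 < c') (he' : 0 ≤ e') (hr : 0 < r)
    (b1 : B ≤ R) (b2 : 2 * B ≤ R1) (b3 : 4 * h ≤ B) (b4 : 4 * (Λ * R') ≤ B) (b5 : 2 * R' ≤ B)
    (b6 : r ≤ R') (b7 : r + h ≤ r') (b8 : (Λ + 1) * h ≤ R1)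
    (b9 : Λ * (r + h) + e' ≤ κ * B ^ 2 / 8) :
    ∃ K p ξ, MD (C.ext τ h fun a t => -φ (pos h a - l t)) (m + if τ then 1 else 0) r R
      (min Θ' (κ * B ^ 2 / 8)) (min (κ / 2) (c' / (2 * Λ ^ 2 + 1))) (e' + Λ * (Λ + 2) * h)
      K p ξ := by
  obtain ⟨n, hn1, hn2⟩ : ∃ n : ℤ, h * n ≤ B ∧ B - h < h * n := by
    refine ⟨⌊B / h⌋, ?_, ?_⟩
    · rw [mul_comm, ← le_div_iff₀ h0]; exact Int.floor_le _
    · have := (div_lt_iff₀ h0).1 (Int.lt_floor_add_one (B / h))
      linarith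
  obtain ⟨c, hc, hq⟩ : ∃ c : T → ℤ, (∀ t, ¬ vtx τ (c t)) ∧ ∀ t, |pos h (c t) - l t| ≤ h / 2 := by
    refine ⟨fun t => 2 * round (l t / h) + if τ then 1 else 0, fun t => ?_, fun t => ?_⟩
    · rw [max_vtx_iff]; cases τ <;> simp
    · rw [max_pos_cell]
      have h1 := abs_sub_round (l t / h)
      have h2 : h * round (l t / h) - l t = -(h * (l t / h - round (l t / h))) := by
        field_simp; ring
      rw [h2, abs_neg, abs_mul, abs_of_pos h0]
      nlinarith
  obtain ⟨Bp, hp, pp⟩ : ∃ a, vtx τ a ∧ pos h a = h * n :=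
    ⟨2 * n + if (!τ) then 1 else 0, by rw [max_vtx_iff]; cases τ <;> simp,
      max_pos_cell h n _⟩
  obtain ⟨Bm, hm, pm⟩ : ∃ a, vtx τ a ∧ pos h a = -(h * n) :=
    ⟨2 * (-n) + if (!τ) then 1 else 0, by rw [max_vtx_iff]; cases τ <;> simp <;> omega,
      by rw [max_pos_cell]; push_cast; ring⟩
  have hΛh : 0 < Λ * h := by positivity
  have hΛ2 : 0 < Λ * Λ * h := by positivity
  have hlt : ∀ a, |pos h a| < h * n → Bm < a ∧ a < Bp := fun a ha => by
    have := abs_lt.1 ha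
    constructor <;> by_contra e <;> have := max_pos_mono h0 (not_lt.1 e) <;> linarith
  have hmp : Bm < Bp := by
    have := hlt 0 (by simp only [pos, Int.zero_ediv, Int.cast_zero, mul_zero, abs_zero]; linarith)
    omega
  have F2' : ∀ a, Bm ≤ a → a ≤ Bp → |pos h a| ≤ B := fun a h1 h2 => by
    have h3 := max_pos_mono h0 h1
    have h4 := max_pos_mono h0 h2
    rw [abs_le]; constructor <;> linarith
  have F3 : ∀ t, C.N t ≤ R' → |l t| ≤ B / 4 := fun t ht => by
    have := (hreg.lb t).trans (mul_le_mul_of_nonneg_left ht hΛ.le)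
    linarith
  have F4 : ∀ a t, Bm ≤ a → a ≤ Bp → C.N t ≤ R' → |pos h a - l t| ≤ R1 := fun a t h1 h2 h3 => by
    have := abs_sub (pos h a) (l t)
    have := F2' a h1 h2
    have := F3 t h3
    linarith
  set C' := C.ext τ h fun a t => -φ (pos h a - l t) with hC'
  have eN : ∀ u : ℤ × T, C'.N u = max |pos h u.1| (C.N u.2) := fun u => rfl
  have ef : ∀ u : ℤ × T, C'.f u = C.f u.2 - φ (pos h u.1 - l u.2) := fun u =>
    (sub_eq_add_neg _ _).symm
  have ed : ∀ u : ℤ × T, C'.deg u = (u.1 : F2) + C.deg u.2 := fun u => rfl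
  have F6 : ∀ u : ℤ × T, Bm ≤ u.1 → u.1 ≤ Bp → C.N u.2 ≤ R' →
      C'.f u ≤ C.f u.2 - κ * (pos h u.1 - l u.2) ^ 2 ∧ C'.N u ≤ R := fun u h1 h2 h3 => by
    have h4 := hφ.low _ (F4 _ _ h1 h2 h3)
    have h5 := F2' _ h1 h2
    rw [ef, eN]
    exact ⟨by linarith, max_le (by linarith) (by linarith)⟩
  have F5 : ∀ u : ℤ × T, u.1 = Bm ∨ u.1 = Bp → C.N u.2 ≤ R' →
      C'.f u ≤ C.f u.2 - κ * B ^ 2 / 4 ∧ C'.N u ≤ R := fun u h1 h3 => by
    have h4 := F6 u (by omega) (by omega) h3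
    have h5 := abs_le.1 (F3 _ h3)
    have h6 : (B / 2) ^ 2 ≤ (pos h u.1 - l u.2) ^ 2 := by
      rcases h1 with h1 | h1 <;> rw [h1]
      · rw [pm, ← neg_sq (-(h * n) - l u.2)]
        exact pow_le_pow_left₀ (by linarith) (by linarith) 2
      · rw [pp]
        exact pow_le_pow_left₀ (by linarith) (by linarith) 2
    have h7 := mul_le_mul_of_nonneg_left h6 hκ.le
    exact ⟨by linarith [h4.1], h4.2⟩
  have F8 : ∀ (y : Ch T) (u : ℤ × T), max_tn (max_E τ Bm Bp) y u ≠ 0 → ¬ vtx τ u.1 ∧ y u.2 ≠ 0 ∧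
      (C.N u.2 ≤ R' → C'.f u ≤ C.f u.2 - κ * (pos h u.1 - l u.2) ^ 2 ∧ C'.f u ≤ C.f u.2 ∧
        C'.N u ≤ R) := fun y u hu => by
    obtain ⟨h1, h2⟩ := max_tn_ne hu
    have h3 := max_E_ne h1
    refine ⟨h3.1, h2, fun h4 => ?_⟩
    have h5 := F6 u (by omega) (by omega) h4
    have h6 : 0 ≤ κ * (pos h u.1 - l u.2) ^ 2 := by positivity
    exact ⟨h5.1, by linarith [h5.1], h5.2⟩
  have F7 : ∀ (s : ℤ × T) t', Ent (max_π τ c C.b) s t' →
      C'.deg s = C.deg t' + (if τ then 1 else 0) ∧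
        (C'.N s ≤ r → C.N t' ≤ r + h ∧ C.f t' ≤ C'.f s + Λ * (Λ + 2) * h) := by
    rintro ⟨a, t⟩ t' hs
    rw [ed, eN, ef]
    rcases max_π_ne hc hs with ⟨h1, rfl, rfl⟩ | ⟨h1, h2, h3⟩
    · refine ⟨by rw [max_par h1, add_comm], fun h4 => ⟨by linarith [(max_le_iff.1 h4).2], ?_⟩⟩
      have h5 := hq t'
      have h6 := (max_prof hφ hκ (h5.trans (by linarith))).2
      have h7 := mul_le_mul_of_nonneg_left h5 hΛ.le
      simp only
      linarith
    · obtain ⟨g1, g2, g3, g4⟩ := hreg.adj t t' h2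
      refine ⟨?_, fun h4 => ?_⟩
      · have h5 := max_par (τ := τ) (a := a + 1) (by rw [max_vtx_add]; exact not_not.2 h1)
        rw [g2, ← h5]
        push_cast
        linear_combination -F2.add_self 1
      · have h5 := (max_le_iff.1 h4).2
        simp only at h5 ⊢
        have h6 := abs_le.1 (g4 (by linarith))
        have h7 := abs_le.1 (hq t)
        have h8 := abs_le.1 (hq t')
        have h9 := abs_le.1 g3
        have h10 : |pos h a - l t| ≤ (Λ + 1) * h := by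
          rw [abs_le]
          rcases h3 with ⟨h3, h3'⟩ | ⟨h3, h3'⟩ <;> have := max_pos_mono h0 h3.le <;>
            have := max_pos_mono h0 h3' <;> constructor <;> linarith
        have h11 := (max_prof hφ hκ (h10.trans b8)).2
        have h12 := mul_le_mul_of_nonneg_left h10 hΛ.le
        exact ⟨by linarith, by linarith⟩
  have hπι : max_π τ c C.b (max_tn (max_E τ Bm Bp) p) = p := max_πι hc fun t ht => by
    have h1 := F3 t (H.p1 t ht).2.1
    have h2 := abs_sub_abs_le_abs_sub (pos h (c t)) (l t)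
    have h3 := hq t
    have := hlt (c t) (by linarith)
    omega
  have hD : ∀ y, C'.b (max_tn (max_E τ Bm Bp) y) =
      max_tn (sg Bm + sg Bp) y + max_tn (max_E τ Bm Bp) (C.b y) := fun y => by
    rw [hC', max_D, max_δ_E hm hp]
  have hΘ1 := min_le_left Θ' (κ * B ^ 2 / 8)
  have hΘ2 := min_le_right Θ' (κ * B ^ 2 / 8)
  have hΛr : 0 < Λ * r := by positivity
  refine ⟨max_k τ c Bm Bp + (max_tn (max_E τ Bm Bp)).comp (LinearMap.comp K (max_π τ c C.b)),
    max_tn (max_E τ Bm Bp) p, ξ.comp (max_π τ c C.b), ?_, ?_, ?_, ?_, ?_, ?_, ?_, ?_, ?_⟩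
  · rintro ⟨a, t⟩ ⟨a', t'⟩ hs hu
    rcases ent_add hu with hu | hu
    · obtain ⟨e, h1⟩ := max_k_ne hu
      simp only at e h1
      subst e
      rw [eN, max_le_iff] at hs
      simp only at hs
      have h2 := hlt a (by linarith [hs.1])
      have h3 : C.N t' ≤ R' := hs.2.trans b6
      have h4 : Bm ≤ a' ∧ a' ≤ Bp := by
        rcases h1 with ⟨-, h1⟩ | ⟨-, h1⟩ <;> have := (max_E_ne h1).2 <;> omega
      refine ⟨?_, (F6 (a', t') h4.1 h4.2 h3).2⟩
      have h5 := F4 a t' h2.1.le h2.2.le h3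
      have h6 := F4 a' t' h4.1 h4.2 h3
      have h7 := abs_le.1 (hq t')
      have h8 := (max_prof hφ hκ h6).1
      have h9 := (max_prof hφ hκ h5).2
      have h10 : φ (pos h a - l t') ≤ φ (pos h a' - l t') + Λ * h := by
        rcases h1 with ⟨h1, h1'⟩ | ⟨h1, h1'⟩
        · have g1 := max_pos_mono h0 h1.le
          have g2 := max_pos_mono h0 (show a ≤ a' by have := (max_E_ne h1').2; omega)
          rcases le_total 0 (pos h a - l t') with g3 | g3
          · have := hφ.mono ⟨g3, (abs_le.1 h5).2⟩ ⟨by linarith, (abs_le.1 h6).2⟩ (by linarith)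
            linarith
          · rw [abs_of_nonpos g3] at h9
            nlinarith
        · have g1 := max_pos_mono h0 h1
          have g2 := max_pos_mono h0 (show a' ≤ a by have := (max_E_ne h1').2; omega)
          rcases le_total 0 (pos h a - l t') with g3 | g3
          · rw [abs_of_nonneg g3] at h9
            nlinarith
          · have := hφ.anti ⟨(abs_le.1 h6).1, by linarith⟩ ⟨(abs_le.1 h5).1, g3⟩ (by linarith)
            linarith
      rw [ef, ef]
      simp only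
      linarith
    · obtain ⟨-, h1, h2⟩ := F8 _ _ hu
      obtain ⟨t1, h3, h4⟩ := apply_ne K h1
      obtain ⟨h5, h6⟩ := (F7 _ _ h3).2 hs
      obtain ⟨h7, h8⟩ := H.k1 _ _ (h5.trans b7) h4
      obtain ⟨-, h9, h10⟩ := h2 h8
      exact ⟨by linarith, h10⟩
  · intro s u hs hu
    have e : (1 + (max_k τ c Bm Bp + (max_tn (max_E τ Bm Bp)).comp
          (LinearMap.comp K (max_π τ c C.b))) * C'.b + C'.b * (max_k τ c Bm Bp +
          (max_tn (max_E τ Bm Bp)).comp (LinearMap.comp K (max_π τ c C.b)))) (sg s) +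
          (ξ.comp (max_π τ c C.b)) (sg s) • max_tn (max_E τ Bm Bp) p =
        max_ϱ τ c Bm Bp (sg s) + max_tn (max_E τ Bm Bp)
          (((1 + K * C.b + C.b * K : En T) + ξ.smulRight p) (max_π τ c C.b (sg s))) +
          max_tn (sg Bm + sg Bp) (K (max_π τ c C.b (sg s))) := by
      have h1 := max_hom (τ := τ) (c := c) C h (fun a t => -φ (pos h a - l t)) hm hp (sg s)
      have h2 := max_πD (τ := τ) (c := c) C h (fun a t => -φ (pos h a - l t)) hreg.bb (sg s)
      rw [← hC'] at h1 h2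
      simp only [LinearMap.add_apply, Module.End.mul_apply, Module.End.one_apply,
        LinearMap.comp_apply, map_add C'.b, map_add (max_tn (max_E τ Bm Bp)), hD, h2,
        LinearMap.smulRight_apply, map_smul]
      linear_combination (norm := abel1) h1 + ch_two (sg s)
    rw [e] at hu
    have hs2 : C.N s.2 ≤ r := (le_max_right _ _).trans hs
    rcases F2.add_ne hu with hu | hu
    · rcases F2.add_ne hu with hu | hu
      · obtain ⟨h1, h2⟩ := max_ϱ_ne (a := s.1) (t := s.2) hu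
        obtain ⟨h3, h4⟩ := F5 u h1 (by rw [h2]; linarith)
        have h5 := (le_abs_self _).trans ((hreg.fb s.2 (by linarith)).trans
          (mul_le_mul_of_nonneg_left hs2 hΛ.le))
        rw [h2] at h3
        exact ⟨by linarith, h4⟩
      · obtain ⟨-, h1, h2⟩ := F8 _ _ hu
        obtain ⟨t1, h3, h4⟩ := apply_ne _ h1
        obtain ⟨h5, -⟩ := (F7 _ _ h3).2 hs
        obtain ⟨h7, h8⟩ := H.k2 _ _ (h5.trans b7) h4
        obtain ⟨-, h9, h10⟩ := h2 h8
        exact ⟨by linarith, h10⟩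
    · obtain ⟨h1, h2⟩ := max_bd_ne hu
      obtain ⟨t1, h3, h4⟩ := apply_ne K h2
      obtain ⟨h5, -⟩ := (F7 _ _ h3).2 hs
      obtain ⟨h7, h8⟩ := H.k1 _ _ (h5.trans b7) h4
      obtain ⟨h9, h10⟩ := F5 u h1 h8
      have h11 := (le_abs_self _).trans ((hreg.fb t1 (by linarith)).trans
        (mul_le_mul_of_nonneg_left h5 hΛ.le))
      exact ⟨by linarith, h10⟩
  · intro u hu
    obtain ⟨h1, h2, h3⟩ := F8 _ _ hu
    obtain ⟨h4, h5, h6⟩ := H.p1 _ h2
    obtain ⟨h7, -, h8⟩ := h3 h5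
    refine ⟨by rw [ed, max_par h1, h4, add_comm], h8, ?_⟩
    have g0 := hreg.N0 u.2
    have g1 : C'.N u ^ 2 ≤ 2 * (pos h u.1 - l u.2) ^ 2 + (2 * Λ ^ 2 + 1) * C.N u.2 ^ 2 := by
      have g2 : l u.2 ^ 2 ≤ (Λ * C.N u.2) ^ 2 := by
        rw [← sq_abs]; exact pow_le_pow_left₀ (abs_nonneg _) (hreg.lb _) 2
      rw [eN]
      rcases max_choice |pos h u.1| (C.N u.2) with e | e <;> rw [e]
      · rw [sq_abs]
        nlinarith [sq_nonneg (pos h u.1 - 2 * l u.2), sq_nonneg (C.N u.2)]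
      · nlinarith [sq_nonneg (pos h u.1 - l u.2), sq_nonneg (Λ * C.N u.2)]
    have g3 := min_le_left (κ / 2) (c' / (2 * Λ ^ 2 + 1))
    have g4 := (le_div_iff₀ (by positivity)).1 (min_le_right (κ / 2) (c' / (2 * Λ ^ 2 + 1)))
    have g5 : 0 ≤ min (κ / 2) (c' / (2 * Λ ^ 2 + 1)) := by positivity
    generalize min (κ / 2) (c' / (2 * Λ ^ 2 + 1)) = c0 at g3 g4 g5 ⊢
    have g6 := mul_le_mul_of_nonneg_left g1 g5
    have g7 := mul_le_mul_of_nonneg_right g3 (sq_nonneg (pos h u.1 - l u.2))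
    have g8 := mul_le_mul_of_nonneg_right g4 (sq_nonneg (C.N u.2))
    linarith
  · intro u hu
    rw [hD] at hu
    rcases F2.add_ne hu with hu | hu
    · obtain ⟨h1, h2⟩ := max_bd_ne hu
      obtain ⟨-, h5, h6⟩ := H.p1 _ h2
      obtain ⟨h9, h10⟩ := F5 u h1 h5
      have : 0 ≤ c' * C.N u.2 ^ 2 := by positivity
      exact ⟨by linarith, h10⟩
    · obtain ⟨-, h1, h2⟩ := F8 _ _ hu
      obtain ⟨h7, h8⟩ := H.p2 _ h1
      obtain ⟨-, h9, h10⟩ := h2 h8
      exact ⟨by linarith, h10⟩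
  · intro s hs
    obtain ⟨t, h1, h2⟩ := map_ne ξ hs
    rw [(F7 _ _ h1).1, H.x1 t h2]
  · intro s hs hx
    obtain ⟨t, h1, h2⟩ := map_ne ξ hx
    obtain ⟨h3, h4⟩ := (F7 _ _ h1).2 hs
    have := H.x2 t (h3.trans b7) h2
    linarith
  · intro s
    have h1 : ξ.comp C.b = 0 := ext_sg H.x3
    rw [LinearMap.comp_apply, hC', max_πD C h _ hreg.bb]
    exact LinearMap.congr_fun h1 _
  · rw [LinearMap.comp_apply, hπι, H.x4]
  · rintro ⟨a, t⟩ hu hx
    obtain ⟨h1, h2, -⟩ := F8 _ _ hu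
    rw [LinearMap.comp_apply, max_π_e hc h1] at hx
    split_ifs at hx with h3
    · have h4 := H.x5 t h2 hx
      have h5 := hq t
      have h6 := (max_prof hφ hκ (h5.trans (by linarith))).2
      have h7 := mul_le_mul_of_nonneg_left h5 hΛ.le
      rw [ef, h3]
      simp only
      linarith
    · exact absurd (map_zero ξ) hx

theorem morse_max {T : Type} (C : ℝ → Cx T) (l : ℝ → T → ℝ) (φ : ℝ → ℝ) (Λ κ R1 : ℝ)
    (hΛ : 0 < Λ) (hκ : 0 < κ) (hR : 0 < R1)
    (hreg : ∀ h, 0 < h → h ≤ 1 → Reg (C h) (l h) h Λ R1) (hφ : Prof φ Λ κ R1) (τ : Bool)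
    (hM : MorseF C) :
    MorseF fun h => (C h).ext τ h fun a t => -φ (pos h a - l h t) := by
  obtain ⟨m, hM⟩ := hM
  refine ⟨m + if τ then 1 else 0, fun R hR0 => ?_⟩
  obtain ⟨B, hB, b1, b2⟩ : ∃ B : ℝ, 0 < B ∧ B ≤ R ∧ 2 * B ≤ R1 :=
    ⟨min R (R1 / 2), by positivity, min_le_left _ _, by linarith [min_le_right R (R1 / 2)]⟩
  obtain ⟨R', hR', b4, b5⟩ : ∃ R' : ℝ, 0 < R' ∧ 4 * (Λ * R') ≤ B ∧ 2 * R' ≤ B :=
    ⟨min (B / (4 * Λ)) (B / 2), by positivity, by
      linarith [(le_div_iff₀ (by positivity)).1 (min_le_left (B / (4 * Λ)) (B / 2))],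
      by linarith [min_le_right (B / (4 * Λ)) (B / 2)]⟩
  obtain ⟨r', Θ', c', Ce, h0, hr', hΘ, hc', hCe, hh0, hM⟩ := hM R' hR'
  obtain ⟨r, hr, b6, r1, r2⟩ : ∃ r : ℝ, 0 < r ∧ r ≤ R' ∧ r ≤ r' / 2 ∧ r ≤ κ * B ^ 2 / 16 / Λ :=
    ⟨min R' (min (r' / 2) (κ * B ^ 2 / 16 / Λ)), by positivity, min_le_left _ _,
      (min_le_right _ _).trans (min_le_left _ _), (min_le_right _ _).trans (min_le_right _ _)⟩
  refine ⟨r, min Θ' (κ * B ^ 2 / 8), min (κ / 2) (c' / (2 * Λ ^ 2 + 1)), Ce + Λ * (Λ + 2),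
    min (min h0 1) (min (min (B / 4) (r' / 2))
      (min (R1 / (Λ + 1)) (κ * B ^ 2 / 16 / (Λ + Ce)))), hr, by positivity, by positivity,
    by positivity, by positivity, fun h hh hle => ?_⟩
  simp only [le_min_iff] at hle
  obtain ⟨⟨g1, g2⟩, ⟨g3, g4⟩, g5, g6⟩ := hle
  obtain ⟨K, p, ξ, H⟩ := hM h hh g1
  rw [le_div_iff₀ (by positivity)] at g5 g6 r2
  rw [add_mul]
  exact max_core (C h) (l h) φ τ (hreg h hh g2) hφ H hh hΛ hκ hc' (by positivity) hr b1 b2
    (by linarith) b4 b5 b6 (by linarith) (by linarith) (by linarith)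

end Pool.Agent.Lib.MP_5a3ebe_gt.PI
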