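import Pool.Agent.Lib.MP_5a3ebe_gt.PiMin
import Pool.Agent.Lib.MP_5a3ebe_gt.PiMax
import Pool.Agent.Lib.MP_5a3ebe_gt.PiLift

/-! The Morse lemma for lattices: one coordinate at a time. -/

set_option linter.unusedSectionVars false
set_option linter.unusedVariables false

namespace Pool.Agent.Lib.MP_5a3ebe_gt.PI

open Ap Classical

lemma latA_sh_sh {X X' X'' : Type} (u : X → X') (v : X' → X'') (y : Ch X) :
    sh v (sh u y) = sh (fun s => v (u s)) y := by
  have : (sh v).comp (sh u) = sh (fun s => v (u s)) := ext_sg fun s => by simp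
  exact LinearMap.congr_fun this y

lemma latA_symm_sh {X X' : Type} (e : X ≃ X') (y : Ch X) : sh e.symm (sh e y) = y := by
  have : (sh e.symm).comp (sh e) = (LinearMap.id : En X) := ext_sg fun s => by simp
  exact LinearMap.congr_fun this y

lemma latA_sh_symm {X X' : Type} (e : X ≃ X') (y : Ch X') : sh e (sh e.symm y) = y :=
  latA_symm_sh e.symm y

lemma latA_symm_apply {X X' : Type} (e : X ≃ X') (y : Ch X') (t : X) :
    sh e.symm y t = y (e t) := by
  have := Finsupp.mapDomain_apply (f := e.symm) e.symm.injective y (e t)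
  rw [Equiv.symm_apply_apply] at this
  exact this

/-- Morse data are carried along a bijection of the generators. -/
lemma latA_md {T T' : Type} (e : T ≃ T') (C : Cx T) (C' : Cx T')
    (hb : ∀ s, C'.b (sg (e s)) = sh e (C.b (sg s))) (hN : ∀ s, C'.N (e s) = C.N s)
    (hd : ∀ s, C'.deg (e s) = C.deg s) (hf : ∀ s, C'.f (e s) = C.f s)
    {m : F2} {r R Θ c ε : ℝ} {K : En T'} {p : Ch T'} {ξ : Ch T' →ₗ[F2] F2}
    (H : MD C' m r R Θ c ε K p ξ) :
    MD C m r R Θ c ε ((sh e.symm).comp (K.comp (sh e))) (sh e.symm p) (ξ.comp (sh e)) := by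
  have h1 : ∀ y, C'.b (sh e y) = sh e (C.b y) := by
    have : C'.b.comp (sh e) = (sh e).comp C.b := ext_sg fun s => by simp [hb]
    exact fun y => LinearMap.congr_fun this y
  have h2 : ∀ y, C.b (sh e.symm y) = sh e.symm (C'.b y) := by
    intro y
    conv_rhs => rw [← latA_sh_symm e y, h1, latA_symm_sh]
  refine ⟨?_, ?_, ?_, ?_, ?_, ?_, ?_, ?_, ?_⟩
  · intro s t hs h
    rw [← hN, ← hf, ← hf]
    refine H.k1 (e s) (e t) (by rwa [hN]) ?_
    unfold Ent at h ⊢
    rwa [LinearMap.comp_apply, LinearMap.comp_apply, sh_sg, latA_symm_apply] at h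
  · intro s t hs h
    rw [← hN, ← hf]
    refine H.k2 (e s) (e t) (by rwa [hN]) ?_
    rw [← latA_symm_apply]
    convert h using 2
    simp only [map_add, map_smul, LinearMap.add_apply, Module.End.mul_apply, Module.End.one_apply,
      LinearMap.comp_apply, sh_sg, Equiv.symm_apply_apply, h2, hb]
  · intro t h
    rw [latA_symm_apply] at h
    rw [← hN, ← hf, ← hd]
    exact H.p1 _ h
  · intro t h
    rw [h2, latA_symm_apply] at h
    rw [← hN, ← hf]
    exact H.p2 _ h
  · intro s h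
    rw [LinearMap.comp_apply, sh_sg] at h
    rw [← hd]
    exact H.x1 _ h
  · intro s hs h
    rw [LinearMap.comp_apply, sh_sg] at h
    rw [← hf]
    exact H.x2 _ (by rwa [hN]) h
  · intro s
    rw [LinearMap.comp_apply, ← hb]
    exact H.x3 _
  · rw [LinearMap.comp_apply, latA_sh_symm]
    exact H.x4
  · intro t h h'
    rw [latA_symm_apply] at h
    rw [LinearMap.comp_apply, sh_sg] at h'
    rw [← hf]
    exact H.x5 _ h h'

lemma latA_morse {T T' : Type} (e : T ≃ T') (C : ℝ → Cx T) (C' : ℝ → Cx T')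
    (hb : ∀ h s, (C' h).b (sg (e s)) = sh e ((C h).b (sg s)))
    (hN : ∀ h s, (C' h).N (e s) = (C h).N s)
    (hd : ∀ h s, (C' h).deg (e s) = (C h).deg s) (hf : ∀ h s, (C' h).f (e s) = (C h).f s)
    (H : MorseF C') : MorseF C := by
  obtain ⟨m, H⟩ := H
  refine ⟨m, fun R hR => ?_⟩
  obtain ⟨r, Θ, c, Ce, h0, a1, a2, a3, a4, a5, H⟩ := H R hR
  refine ⟨r, Θ, c, Ce, h0, a1, a2, a3, a4, a5, fun h b1 b2 => ?_⟩
  obtain ⟨K, p, ξ, H⟩ := H h b1 b2
  exact ⟨_, _, _, latA_md e (C h) (C' h) (hb h) (hN h) (hd h) (hf h) H⟩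

lemma latA_vtx_add (τ : Bool) {a : ℤ} (h : ¬ vtx τ a) : vtx τ (a + 1) := by
  unfold vtx at h ⊢
  rw [Int.even_add_one]
  tauto

lemma latA_vtx_sub (τ : Bool) {a : ℤ} (h : ¬ vtx τ a) : vtx τ (a - 1) := by
  unfold vtx at h ⊢
  rw [Int.even_sub_one]
  tauto

lemma latA_line_sq (τ : Bool) : lineδ τ * lineδ τ = 0 := by
  refine ext_sg fun a => ?_
  rw [Module.End.mul_apply, LinearMap.zero_apply]
  by_cases h : vtx τ a
  · simp [lineδ, h]
  · simp [lineδ, h, latA_vtx_add τ h, latA_vtx_sub τ h]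

lemma latA_ent_line {τ : Bool} {a y : ℤ} (h : Ent (lineδ τ) a y) : y = a + 1 ∨ y = a - 1 := by
  unfold Ent lineδ at h
  rw [gen_sg] at h
  split_ifs at h with hv
  · exact absurd rfl h
  · rcases F2.add_ne h with h | h
    · exact Or.inl (sg_ne h).symm
    · exact Or.inr (sg_ne h).symm

lemma latA_lft_zero {ι : Type} [DecidableEq ι] {Y : ι → Type} (i : ι) :
    lft i (0 : En (Y i)) = 0 := ext_sg fun σ => by simp [lft]

lemma latA_pos {h : ℝ} (h0 : 0 < h) {a y : ℤ} (hy : y = a + 1 ∨ y = a - 1) :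
    |pos h y - pos h a| ≤ h := by
  unfold pos
  have h1 : |y / 2 - a / 2| ≤ 1 := by
    rw [abs_le]
    omega
  have h2 : |((y / 2 : ℤ) : ℝ) - ((a / 2 : ℤ) : ℝ)| ≤ 1 := by exact_mod_cast h1
  rw [← mul_sub, abs_mul, abs_of_pos h0]
  nlinarith

lemma latA_reg {ι : Type} [Fintype ι] [DecidableEq ι] (τ : ι → Bool) (F : (ι → ℝ) → ℝ)
    (l : (ι → ℝ) →ₗ[ℝ] ℝ) (Λ R1 : ℝ) (hΛ : 0 < Λ) (hR : 0 < R1) (h0 : F 0 = 0)
    (hF : ∀ x y, ‖x‖ ≤ R1 + 1 → ‖y‖ ≤ R1 + 1 → |F x - F y| ≤ Λ * ‖x - y‖)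
    (hl : ∀ x, |l x| ≤ Λ * ‖x‖) (h : ℝ) (hp : 0 < h) (h1 : h ≤ 1) :
    Reg (lat τ h F) (fun t => l fun m => pos h (t m)) h Λ R1 := by
  refine ⟨?_, fun t => norm_nonneg _, ?_, fun t => hl _, ?_⟩
  · show (∑ i, lft (Y := fun _ => ℤ) i (lineδ (τ i))) *
      (∑ i, lft (Y := fun _ => ℤ) i (lineδ (τ i))) = 0
    rw [tot_sq (Y := fun _ => ℤ) fun i => lineδ (τ i)]
    refine Finset.sum_eq_zero fun i _ => ?_
    rw [latA_line_sq]
    exact latA_lft_zero (Y := fun _ => ℤ) i
  · intro t t' he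
    obtain ⟨m, -, he1⟩ := ent_sum (M := fun i => lft (Y := fun _ => ℤ) i (lineδ (τ i))) he
    obtain ⟨y, rfl, he2⟩ := ent_lft (Y := fun _ => ℤ) he1
    have hy := latA_ent_line he2
    have hd : ‖(fun i => pos h (Function.update t m y i)) - fun i => pos h (t i)‖ ≤ h := by
      refine (pi_norm_le_iff_of_nonneg hp.le).2 fun i => ?_
      rw [Pi.sub_apply, Real.norm_eq_abs]
      by_cases hi : i = m
      · subst hi
        rw [Function.update_self]
        exact latA_pos hp hy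
      · rw [Function.update_of_ne hi, sub_self, abs_zero]
        exact hp.le
    have hn : ‖fun i => pos h (Function.update t m y i)‖ ≤ ‖fun i => pos h (t i)‖ + h := by
      have := norm_sub_norm_le (fun i => pos h (Function.update t m y i)) fun i => pos h (t i)
      linarith
    refine ⟨hn, ?_, ?_, ?_⟩
    · show ∑ i, ((Function.update t m y i : ℤ) : F2) = ∑ i, ((t i : ℤ) : F2) + 1
      rw [Fintype.sum_eq_add_sum_subtype_ne _ m,
        Fintype.sum_eq_add_sum_subtype_ne (fun i => ((t i : ℤ) : F2)) m, Function.update_self]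
      have e1 : ∑ i : {i // i ≠ m}, ((Function.update t m y i : ℤ) : F2) =
          ∑ i : {i // i ≠ m}, ((t i : ℤ) : F2) :=
        Finset.sum_congr rfl fun i _ => by rw [Function.update_of_ne i.2]
      have e2 : (y : F2) = (t m : F2) + 1 := by
        rcases hy with rfl | rfl
        · push_cast
          rfl
        · push_cast
          rw [sub_eq_add_neg, CharTwo.neg_eq]
      rw [e1, e2]
      ring
    · rw [← map_sub]
      exact (hl _).trans (mul_le_mul_of_nonneg_left hd hΛ.le)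
    · intro hN
      have hN' : ‖fun i => pos h (t i)‖ ≤ R1 := hN
      exact (hF _ _ (by linarith) (by linarith)).trans (mul_le_mul_of_nonneg_left hd hΛ.le)
  · intro t hN
    have hN' : ‖fun i => pos h (t i)‖ ≤ R1 := hN
    have := hF (fun i => pos h (t i)) 0 (by linarith) (by rw [norm_zero]; linarith)
    rw [h0, sub_zero, sub_zero] at this
    exact this

lemma latA_split {ι : Type} [Fintype ι] [DecidableEq ι] (i : ι) (τ : ι → Bool)
    (F : (ι → ℝ) → ℝ) (F' : ({x // x ≠ i} → ℝ) → ℝ) (ψ : ℝ → ℤ → ({x // x ≠ i} → ℤ) → ℝ)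
    (hF : ∀ (h : ℝ) (s : ι → ℤ), F (fun m => pos h (s m)) =
      F' (fun m => pos h (s m)) + ψ h (s i) fun m => s m)
    (hM : MorseF fun h => (lat (fun m : {x // x ≠ i} => τ m) h F').ext (τ i) h (ψ h)) :
    MorseF fun h => lat τ h F := by
  refine latA_morse (Equiv.funSplitAt i ℤ) _ _ ?_ ?_ ?_ ?_ hM
  · intro h s
    have e0 : Equiv.funSplitAt i ℤ s = (s i, fun m : {x // x ≠ i} => s m) := rfl
    show gen _ _ = sh _ ((∑ m, lft (Y := fun _ => ℤ) m (lineδ (τ m))) (sg s))
    rw [gen_sg, LinearMap.sum_apply, map_sum, Fintype.sum_eq_add_sum_subtype_ne _ i, e0]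
    congr 1
    · simp only [lft, gen_sg, latA_sh_sh]
      congr 2
      funext a
      refine Prod.ext (by simp) (funext fun m => ?_)
      exact (Function.update_of_ne m.2 a s).symm
    · show sh _ ((∑ m : {x // x ≠ i}, lft (Y := fun _ => ℤ) m (lineδ (τ m))) _) = _
      rw [LinearMap.sum_apply, map_sum]
      refine Finset.sum_congr rfl fun m _ => ?_
      simp only [lft, gen_sg, latA_sh_sh]
      congr 2
      funext a
      refine Prod.ext ?_ (funext fun m' => ?_)
      · exact (Function.update_of_ne (Ne.symm m.2) a s).symm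
      · show Function.update (fun m : {x // x ≠ i} => s m) m a m' = Function.update s m a m'
        by_cases hm : m' = m
        · subst hm
          simp
        · rw [Function.update_of_ne hm, Function.update_of_ne fun e => hm (Subtype.ext e)]
  · intro h s
    show max |pos h (s i)| ‖fun m : {x // x ≠ i} => pos h (s m)‖ = ‖fun m => pos h (s m)‖
    refine le_antisymm (max_le ?_ ?_) ?_
    · exact norm_le_pi_norm (fun m => pos h (s m)) i
    · exact (pi_norm_le_iff_of_nonneg (norm_nonneg _)).2 fun m =>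
        norm_le_pi_norm (fun m => pos h (s m)) m.1
    · refine (pi_norm_le_iff_of_nonneg (le_max_of_le_left (abs_nonneg _))).2 fun m => ?_
      by_cases hm : m = i
      · subst hm
        exact le_max_left _ _
      · exact le_max_of_le_right
          (norm_le_pi_norm (fun m : {x // x ≠ i} => pos h (s m)) ⟨m, hm⟩)
  · intro h s
    exact (Fintype.sum_eq_add_sum_subtype_ne (fun m => ((s m : ℤ) : F2)) i).symm
  · intro h s
    exact (hF h s).symm

theorem morse_lat_empty {ι : Type} [Fintype ι] [DecidableEq ι] [IsEmpty ι] (τ : ι → Bool)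
    (F : (ι → ℝ) → ℝ) (hF : ∀ x, F x = 0) : MorseF fun h => lat τ h F := by
  refine ⟨0, fun R hR => ⟨1, 1, 1, 1, 1, one_pos, one_pos, one_pos, one_pos, one_pos,
    fun h hp h1 => ⟨0, sg default, Finsupp.linearCombination F2 fun _ => 1, ?_⟩⟩⟩
  have hb : (lat τ h F).b = 0 := by simp [lat]
  have hN : ∀ s, (lat τ h F).N s = 0 := fun s => by
    show ‖fun i => pos h (s i)‖ = 0
    rw [norm_eq_zero]
    exact Subsingleton.elim _ _
  have hd : ∀ s, (lat τ h F).deg s = 0 := fun s => by simp [lat]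
  have hf : ∀ s, (lat τ h F).f s = 0 := fun s => hF _
  have hx : ∀ s : ι → ℤ, (Finsupp.linearCombination F2 fun _ => (1 : F2)) (sg s) = 1 :=
    fun s => by simp [sg]
  refine ⟨?_, ?_, ?_, ?_, ?_, ?_, ?_, ?_, ?_⟩
  · intro s t _ he
    exact absurd rfl he
  · intro s t _ he
    refine absurd ?_ he
    rw [hb, hx, one_smul, zero_mul, add_zero, add_zero, Module.End.one_apply,
      Subsingleton.elim s default, ch_two]
    rfl
  · intro t _
    rw [hd, hN, hf]
    exact ⟨rfl, hR.le, by linarith⟩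
  · intro t he
    rw [hb] at he
    exact absurd rfl he
  · intro s _
    exact hd s
  · intro s _ _
    rw [hf]
    linarith
  · intro s
    rw [hb, LinearMap.zero_apply, map_zero]
  · exact hx _
  · intro t _ _
    rw [hf]
    linarith

theorem morse_lat_step {ι : Type} [Fintype ι] [DecidableEq ι] (i : ι) (τ : ι → Bool)
    (F : (ι → ℝ) → ℝ) (F' : ({x // x ≠ i} → ℝ) → ℝ) (l : ({x // x ≠ i} → ℝ) →ₗ[ℝ] ℝ)
    (φ : ℝ → ℝ) (Λ κ R1 : ℝ) (σ : Bool) (hΛ : 0 < Λ) (hκ : 0 < κ) (hR : 0 < R1)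
    (hφ : Prof φ Λ κ R1) (h0 : F' 0 = 0)
    (hF' : ∀ x y, ‖x‖ ≤ R1 + 1 → ‖y‖ ≤ R1 + 1 → |F' x - F' y| ≤ Λ * ‖x - y‖)
    (hF : ∀ x, F x = F' (fun m => x m) + (if σ then 1 else -1) * φ (x i - l fun m => x m))
    (hM : MorseF fun h => lat (fun m : {x // x ≠ i} => τ m) h F') :
    MorseF fun h => lat τ h F := by
  obtain ⟨L, hL1, hL⟩ : ∃ L : ℝ, Λ ≤ L ∧ ∀ x, |l x| ≤ L * ‖x‖ := by
    refine ⟨max Λ ‖LinearMap.toContinuousLinearMap l‖, le_max_left _ _, fun x => ?_⟩
    exact ((LinearMap.toContinuousLinearMap l).le_opNorm x).trans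
      (mul_le_mul_of_nonneg_right (le_max_right _ _) (norm_nonneg _))
  have hL0 : 0 < L := hΛ.trans_le hL1
  have hφ' : Prof φ L κ R1 := ⟨hφ.zero, hφ.mono, hφ.anti, fun u v a b => (hφ.lip u v a b).trans
    (mul_le_mul_of_nonneg_right hL1 (abs_nonneg _)), hφ.low⟩
  have hreg := latA_reg (fun m : {x // x ≠ i} => τ m) F' l L R1 hL0 hR h0
    (fun x y a b => (hF' x y a b).trans (mul_le_mul_of_nonneg_right hL1 (norm_nonneg _))) hL
  cases σ
  · have key := morse_max (fun h => lat (fun m : {x // x ≠ i} => τ m) h F')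
      (fun h t => l fun m => pos h (t m)) φ L κ R1 hL0 hκ hR hreg hφ' (τ i) hM
    refine latA_split i τ F F' (fun h a t => -φ (pos h a - l fun m => pos h (t m))) ?_ key
    intro h s
    rw [hF]
    simp
  · have key := morse_min (fun h => lat (fun m : {x // x ≠ i} => τ m) h F')
      (fun h t => l fun m => pos h (t m)) φ L κ R1 hL0 hκ hR hreg hφ' (τ i) hM
    refine latA_split i τ F F' (fun h a t => φ (pos h a - l fun m => pos h (t m))) ?_ key
    intro h s
    rw [hF]
    simp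

end Pool.Agent.Lib.MP_5a3ebe_gt.PI
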