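import Pool.Agent.Lib.MP_5a3ebe_gt.PiLatA

/-! The Morse lemma for a quadratic form with a kink. -/

set_option linter.unusedSectionVars false
set_option linter.unusedVariables false

namespace Pool.Agent.Lib.MP_5a3ebe_gt.PI

open Ap Classical

theorem latB_kink (u v : ℝ) : abs (u * |u| - v * |v|) ≤ (|u| + |v|) * |u - v| := by
  have h1 : u * |u| - v * |v| = (u - v) * |u| + v * (|u| - |v|) := by ring
  have h2 := abs_abs_sub_abs_le_abs_sub u v
  rw [h1]
  refine (abs_add_le _ _).trans ?_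
  rw [abs_mul, abs_mul, abs_abs]
  nlinarith [abs_nonneg v]

theorem latB_prof1 {μ : ℝ} (hμ : 0 < μ) (κ c : ℝ) : ∃ Λ κ' R1 : ℝ, 0 < Λ ∧ 0 < κ' ∧ 0 < R1 ∧
    Prof (fun u => μ * |u| + κ * (u * |u|) - c * u ^ 2) Λ κ' R1 := by
  obtain ⟨B, hB⟩ : ∃ B, B = |κ| + |c| + 1 := ⟨_, rfl⟩
  have k0 := abs_nonneg κ
  have c0 := abs_nonneg c
  have k1 := le_abs_self κ
  have k2 := neg_abs_le κ
  have c1 := le_abs_self c
  have c2 := neg_abs_le c
  have hB0 : 0 < B := by linarith
  obtain ⟨R, hR⟩ : ∃ R, R = μ / (2 * B) := ⟨_, rfl⟩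
  have hR0 : 0 < R := by rw [hR]; positivity
  have hRB : 2 * R * B = μ := by rw [hR]; field_simp
  refine ⟨2 * μ, B, R, by positivity, hB0, hR0, by simp, ?_, ?_, ?_, ?_⟩
  · intro u hu v hv huv
    simp only [abs_of_nonneg hu.1, abs_of_nonneg hv.1]
    have h1 : 0 ≤ μ + (κ - c) * (u + v) := by nlinarith [hu.1, hu.2, hv.1, hv.2]
    nlinarith [mul_nonneg (sub_nonneg.2 huv) h1]
  · intro u hu v hv huv
    simp only [abs_of_nonpos hu.2, abs_of_nonpos hv.2]
    have h1 : 0 ≤ μ + (κ + c) * (u + v) := by nlinarith [hu.1, hu.2, hv.1, hv.2]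
    nlinarith [mul_nonneg (sub_nonneg.2 huv) h1]
  · intro u v hu hv
    have h1 := abs_abs_sub_abs_le_abs_sub u v
    have h2 := latB_kink u v
    have h3 : |u ^ 2 - v ^ 2| ≤ (|u| + |v|) * |u - v| := by
      rw [sq_sub_sq, abs_mul]
      exact mul_le_mul_of_nonneg_right (abs_add_le _ _) (abs_nonneg _)
    have h4 : (|u| + |v|) * |u - v| ≤ 2 * R * |u - v| :=
      mul_le_mul_of_nonneg_right (by linarith) (abs_nonneg _)
    have e : μ * |u| + κ * (u * |u|) - c * u ^ 2 - (μ * |v| + κ * (v * |v|) - c * v ^ 2)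
        = μ * (|u| - |v|) + κ * (u * |u| - v * |v|) - c * (u ^ 2 - v ^ 2) := by ring
    rw [e]
    refine (abs_sub _ _).trans ((add_le_add (abs_add_le _ _) le_rfl).trans ?_)
    rw [abs_mul μ, abs_mul κ, abs_mul c, abs_of_pos hμ]
    have a1 := mul_le_mul_of_nonneg_left h1 hμ.le
    have a2 := mul_le_mul_of_nonneg_left (h2.trans h4) k0
    have a3 := mul_le_mul_of_nonneg_left (h3.trans h4) c0
    have a4 := mul_nonneg hR0.le (abs_nonneg (u - v))
    have a5 : μ * |u - v| = 2 * R * B * |u - v| := by rw [hRB]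
    rw [hB] at a5
    nlinarith
  · intro u hu
    have h0 := abs_nonneg u
    have h1 : u ^ 2 = |u| * |u| := by rw [← sq, sq_abs]
    have h2 : -(|κ| * (|u| * |u|)) ≤ κ * (u * |u|) := by
      have := neg_abs_le (κ * (u * |u|))
      rwa [abs_mul, abs_mul, abs_abs] at this
    have h3 : |u| * |u| ≤ R * |u| := mul_le_mul_of_nonneg_right hu h0
    have h4 := mul_le_mul_of_nonneg_left h3 hB0.le
    have h5 : c * (|u| * |u|) ≤ |c| * (|u| * |u|) :=
      mul_le_mul_of_nonneg_right c1 (mul_nonneg h0 h0)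
    have h6 : μ * |u| = 2 * R * B * |u| := by rw [hRB]
    have h7 : B * (|u| * |u|) = |κ| * (|u| * |u|) + |c| * (|u| * |u|) + |u| * |u| := by
      rw [hB]; ring
    rw [h1]
    nlinarith [mul_nonneg h0 h0]

theorem latB_prof2 {a Λ : ℝ} (ha : 0 < a) (hΛ : a ≤ Λ) :
    Prof (fun u => a / 2 * u ^ 2) Λ (a / 2) 1 := by
  refine ⟨by simp, ?_, ?_, ?_, fun u _ => le_rfl⟩
  · intro u hu v hv huv
    have : u ^ 2 ≤ v ^ 2 := by nlinarith [hu.1]
    exact mul_le_mul_of_nonneg_left this (by positivity)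
  · intro u hu v hv huv
    have : v ^ 2 ≤ u ^ 2 := by nlinarith [hv.2]
    exact mul_le_mul_of_nonneg_left this (by positivity)
  · intro u v hu hv
    rw [← mul_sub, abs_mul, sq_sub_sq, abs_mul, abs_of_pos (by positivity : 0 < a / 2),
      ← mul_assoc]
    refine mul_le_mul_of_nonneg_right ?_ (abs_nonneg _)
    have := abs_add_le u v
    nlinarith

theorem latB_lip {ι : Type} [Fintype ι] (j : ι) (H : Matrix ι ι ℝ) (E : ι → ℝ) (μ κ : ℝ) :
    ∃ Λ : ℝ, ∀ x y : ι → ℝ, ‖x‖ ≤ 1 + 1 → ‖y‖ ≤ 1 + 1 →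
      |(x ⬝ᵥ H.mulVec x + ∑ i, E i * x i ^ 2) / 2 - (μ * |x j| + κ * (x j * |x j|)) -
        ((y ⬝ᵥ H.mulVec y + ∑ i, E i * y i ^ 2) / 2 - (μ * |y j| + κ * (y j * |y j|)))|
        ≤ Λ * ‖x - y‖ := by
  have hQ : ContDiff ℝ 1 fun x : ι → ℝ => (x ⬝ᵥ H.mulVec x + ∑ i, E i * x i ^ 2) / 2 := by
    unfold Matrix.mulVec dotProduct
    fun_prop
  obtain ⟨K, hK⟩ := (hQ.locallyLipschitz.locallyLipschitzOn
    (s := Metric.closedBall 0 (1 + 1))).exists_lipschitzOnWith_of_compact (isCompact_closedBall _ _)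
  refine ⟨K + (|μ| + |κ| * 4), fun x y hx hy => ?_⟩
  have h0 := hK.dist_le_mul x (mem_closedBall_zero_iff.2 hx) y (mem_closedBall_zero_iff.2 hy)
  rw [Real.dist_eq, dist_eq_norm] at h0
  have h1 : |x j - y j| ≤ ‖x - y‖ := norm_le_pi_norm (x - y) j
  have h2 : |x j| ≤ 1 + 1 := (norm_le_pi_norm x j).trans hx
  have h3 : |y j| ≤ 1 + 1 := (norm_le_pi_norm y j).trans hy
  have h4 := (abs_abs_sub_abs_le_abs_sub (x j) (y j)).trans h1
  have h5 : abs (x j * |x j| - y j * |y j|) ≤ 4 * ‖x - y‖ :=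
    (latB_kink _ _).trans (mul_le_mul (by linarith) h1 (abs_nonneg _) (by norm_num))
  have h6 : |μ * (|x j| - |y j|) + κ * (x j * |x j| - y j * |y j|)|
      ≤ |μ| * ‖x - y‖ + |κ| * (4 * ‖x - y‖) := by
    refine (abs_add_le _ _).trans ?_
    rw [abs_mul μ, abs_mul κ]
    gcongr
  rw [sub_sub_sub_comm]
  refine (abs_sub _ _).trans ?_
  have e : μ * |x j| + κ * (x j * |x j|) - (μ * |y j| + κ * (y j * |y j|))
      = μ * (|x j| - |y j|) + κ * (x j * |x j| - y j * |y j|) := by ring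
  rw [e]
  linarith

theorem latB_aux (ε : ℝ) (hε : 0 < ε) (n : ℕ) : ∀ (ι : Type) [Fintype ι] [DecidableEq ι] (j : ι)
    (H : Matrix ι ι ℝ), H.IsSymm → Fintype.card ι = n → ∃ E : ι → ℝ, (∀ i, |E i| ≤ ε) ∧
      (∃ C : ℝ, 0 < C ∧ ∀ (x : ι → ℝ) (s : ℝ), 0 ≤ s → x j = 0 →
        (∀ i, i ≠ j → |H.mulVec x i + E i * x i| ≤ s) → ‖x‖ ≤ C * s) ∧
      ∀ (τ : ι → Bool) (μ κ : ℝ), 0 < μ → MorseF fun h => lat τ h fun x =>
        (x ⬝ᵥ H.mulVec x + ∑ i, E i * x i ^ 2) / 2 - (μ * |x j| + κ * (x j * |x j|)) := by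
  induction n using Nat.strong_induction_on with
  | _ n IH =>
  intro ι _ _ j H hH hn
  by_cases hall : ∀ i, i = j
  · refine ⟨0, fun i => by simpa using hε.le, ⟨1, one_pos, fun x s hs hx _ => ?_⟩,
      fun τ μ κ hμ => ?_⟩
    · have : x = 0 := funext fun i => by rw [hall i, hx]; rfl
      simpa [this] using hs
    · obtain ⟨Λ, κ', R1, h1, h2, h3, h4⟩ := latB_prof1 hμ κ (H j j / 2)
      have : IsEmpty {x // x ≠ j} := ⟨fun x => x.2 (hall x)⟩
      refine morse_lat_step j τ _ (fun _ => 0) 0 _ Λ κ' R1 false h1 h2 h3 h4 rfl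
        (fun x y _ _ => by simpa using mul_nonneg h1.le (norm_nonneg _)) (fun x => ?_)
        (morse_lat_empty _ _ fun _ => rfl)
      have hs : ∀ f : ι → ℝ, ∑ i, f i = f j := fun f =>
        Fintype.sum_eq_single j fun i hi => absurd (hall i) hi
      simp only [Matrix.mulVec, dotProduct, hs]
      simp
      ring
  · obtain ⟨i, hij⟩ := not_forall.1 hall
    obtain ⟨e, he, ha⟩ : ∃ e : ℝ, |e| ≤ ε ∧ H i i + e ≠ 0 := by
      by_cases h : H i i = 0
      · exact ⟨ε, (abs_of_pos hε).le, by rw [h, zero_add]; exact hε.ne'⟩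
      · exact ⟨0, by simpa using hε.le, by rwa [add_zero]⟩
    obtain ⟨a, hadef⟩ : ∃ a, a = H i i + e := ⟨_, rfl⟩
    rw [← hadef] at ha
    have hs : ∀ m k, H m k = H k m := fun m k => (hH.apply m k).symm
    obtain ⟨E', hE1, ⟨C', hC', hE2⟩, hE3⟩ := IH _
      (hn ▸ Fintype.card_subtype_lt (p := fun x => x ≠ i) (x := i) (by simp))
      {x // x ≠ i} ⟨j, Ne.symm hij⟩ (Matrix.of fun m k => H m k - H i m * H i k / a)
      (Matrix.IsSymm.ext fun m k => by
        simp only [Matrix.of_apply]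
        rw [hs k m, mul_comm]) rfl
    obtain ⟨E, hEi, hEm⟩ : ∃ E : ι → ℝ, E i = e ∧ ∀ m : {x // x ≠ i}, E m = E' m :=
      ⟨fun m => if h : m = i then e else E' ⟨m, h⟩, by simp, fun m => by simp [m.2]⟩
    have sp : ∀ f : ι → ℝ, ∑ m, f m = f i + ∑ m : {x // x ≠ i}, f m := fun f =>
      Fintype.sum_eq_add_sum_subtype_ne f i
    have hv : ∀ (x : ι → ℝ) (m : {x // x ≠ i}),
        (Matrix.of fun m k : {x // x ≠ i} => H m k - H i m * H i k / a).mulVec (fun k => x k) m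
          = H.mulVec x m - H i m * x i - H i m / a * ∑ k : {x // x ≠ i}, H i k * x k := by
      intro x m
      simp only [Matrix.mulVec, dotProduct, Matrix.of_apply]
      rw [sp, Finset.mul_sum, hs m i, add_sub_cancel_left, ← Finset.sum_sub_distrib]
      refine Finset.sum_congr rfl fun k _ => ?_
      ring
    have hi : ∀ x : ι → ℝ, H.mulVec x i = H i i * x i + ∑ k : {x // x ≠ i}, H i k * x k :=
      fun x => sp fun k => H i k * x k
    have ha0 : 0 < |a| := abs_pos.2 ha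
    refine ⟨E, fun m => ?_, ?_, fun τ μ κ hμ => ?_⟩
    · by_cases h : m = i
      · rw [h, hEi]; exact he
      · rw [hEm ⟨m, h⟩]; exact hE1 _
    · obtain ⟨B, hB⟩ : ∃ B, B = ∑ k : {x // x ≠ i}, |H i k| := ⟨_, rfl⟩
      have hB0 : 0 ≤ B := hB ▸ Finset.sum_nonneg fun _ _ => abs_nonneg _
      obtain ⟨C1, hC1⟩ : ∃ C1, C1 = C' * (1 + B / |a|) := ⟨_, rfl⟩
      have hC0 : 0 < C1 := by rw [hC1]; positivity
      refine ⟨C1 + (1 + B * C1) / |a|, by positivity, fun x s hs0 hx hb => ?_⟩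
      obtain ⟨w, hw⟩ : ∃ w, w = ∑ k : {x // x ≠ i}, H i k * x k := ⟨_, rfl⟩
      have h1 : |a * x i + w| ≤ s := by
        have := hb i hij
        rw [hi, hEi, ← hw] at this
        convert this using 2
        rw [hadef]; ring
      have h2 : ‖fun k : {x // x ≠ i} => x k‖ ≤ C1 * s := by
        rw [hC1, mul_assoc]
        refine hE2 _ _ (by positivity) hx fun m hm => ?_
        have h3 := hb m fun h => hm (Subtype.ext h)
        have h4 : |H i m| ≤ B := hB ▸ Finset.single_le_sum (f := fun k : {x // x ≠ i} => |H i k|)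
          (fun _ _ => abs_nonneg _) (Finset.mem_univ m)
        have e1 : H.mulVec x m - H i m * x i - H i m / a * w + E' m * x m
            = H.mulVec x m + E m * x m - H i m / a * (a * x i + w) := by
          rw [hEm]; field_simp; ring
        rw [hv, ← hw, e1]
        refine (abs_sub _ _).trans ?_
        rw [abs_mul (H i m / a), abs_div, add_mul, one_mul]
        gcongr
      have h5 : |w| ≤ B * (C1 * s) := by
        rw [hw, hB, Finset.sum_mul]
        refine (Finset.abs_sum_le_sum_abs _ _).trans (Finset.sum_le_sum fun k _ => ?_)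
        rw [abs_mul]
        exact mul_le_mul_of_nonneg_left
          ((norm_le_pi_norm (fun k : {x // x ≠ i} => x k) k).trans h2) (abs_nonneg _)
      have h6 : |x i| ≤ (1 + B * C1) / |a| * s := by
        rw [div_mul_eq_mul_div, le_div_iff₀ ha0, ← abs_mul, mul_comm (x i)]
        have := abs_sub (a * x i + w) w
        rw [add_sub_cancel_right] at this
        linarith
      have p1 : 0 ≤ C1 * s := by positivity
      have p2 : 0 ≤ (1 + B * C1) / |a| * s := by positivity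
      refine (pi_norm_le_iff_of_nonneg (by positivity)).2 fun m => ?_
      rw [add_mul]
      by_cases h : m = i
      · rw [h, Real.norm_eq_abs]; linarith
      · have := (norm_le_pi_norm (fun k : {x // x ≠ i} => x k) ⟨m, h⟩).trans h2
        linarith
    · obtain ⟨Λ, hΛ⟩ := latB_lip (⟨j, Ne.symm hij⟩ : {x // x ≠ i})
        (Matrix.of fun m k => H m k - H i m * H i k / a) E' μ κ
      refine morse_lat_step i τ _ _
        (-a⁻¹ • ∑ k : {x // x ≠ i}, H i k • LinearMap.proj k) _ (max |a| Λ) (|a| / 2) 1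
        (decide (0 < a)) (lt_max_of_lt_left ha0) (by positivity) one_pos
        (latB_prof2 ha0 (le_max_left _ _)) (by simp)
        (fun x y hx hy => (hΛ x y hx hy).trans
          (mul_le_mul_of_nonneg_right (le_max_right _ _) (norm_nonneg _))) (fun x => ?_)
        (hE3 (fun m => τ m) μ κ hμ)
      obtain ⟨w, hw⟩ : ∃ w, w = ∑ k : {x // x ≠ i}, H i k * x k := ⟨_, rfl⟩
      have e1 : (if decide (0 < a) = true then (1 : ℝ) else -1) * (|a| / 2) = a / 2 := by
        by_cases h : 0 < a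
        · simp [h, abs_of_pos h]
        · simp [h, abs_of_nonpos (not_lt.1 h)]
          ring
      have e2 : ∑ m : {x // x ≠ i}, x m * (H.mulVec x m - H i m * x i - H i m / a * w)
          = ∑ m : {x // x ≠ i}, x m * H.mulVec x m - (x i + w / a) * w := by
        conv_rhs => rw [hw, Finset.mul_sum, ← hw, ← Finset.sum_sub_distrib]
        refine Finset.sum_congr rfl fun m _ => ?_
        ring
      rw [← mul_assoc _ (|a| / 2), e1]
      simp only [LinearMap.smul_apply, LinearMap.sum_apply, LinearMap.proj_apply, smul_eq_mul]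
      rw [dotProduct, dotProduct, sp, sp fun m => E m * x m ^ 2]
      simp only [hv, hi, ← hw, e2, hEi, hEm]
      rw [show H i i = a - e by rw [hadef]; ring]
      field_simp
      ring

theorem morse_quad (ι : Type) [Fintype ι] [DecidableEq ι] (j : ι) (H : Matrix ι ι ℝ)
    (hH : H.IsSymm) (ε : ℝ) (hε : 0 < ε) : ∃ E : ι → ℝ, (∀ i, |E i| ≤ ε) ∧
      (∃ C : ℝ, 0 < C ∧ ∀ (x : ι → ℝ) (s : ℝ), 0 ≤ s → x j = 0 →
        (∀ i, i ≠ j → |H.mulVec x i + E i * x i| ≤ s) → ‖x‖ ≤ C * s) ∧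
      ∀ (τ : ι → Bool) (μ κ : ℝ), 0 < μ → MorseF fun h => lat τ h fun x =>
        (x ⬝ᵥ H.mulVec x + ∑ i, E i * x i ^ 2) / 2 - (μ * |x j| + κ * (x j * |x j|)) :=
  latB_aux ε hε _ ι j H hH rfl

end Pool.Agent.Lib.MP_5a3ebe_gt.PI
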