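import Pool.Agent.Lib.MP_5a3ebe_gt.PiDefs

/-! The Morse lemma: adding a direction in which the level has a minimum. -/

set_option linter.unusedSectionVars false
set_option linter.unusedVariables false

namespace Pool.Agent.Lib.MP_5a3ebe_gt.PI

open Ap Classical

lemma min_ind {X : Type} {P : Ch X → Prop} (h0 : P 0) (ha : ∀ y z, P y → P z → P (y + z))
    (hs : ∀ s, P (sg s)) (y : Ch X) : P y := by
  induction y using Finsupp.induction_linear with
  | zero => exact h0
  | add y z hy hz => exact ha y z hy hz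
  | single s c =>
    by_cases e : c = 0
    · rw [e, Finsupp.single_zero]
      exact h0
    · rw [F2.eq_one e]
      exact hs s

lemma min_vtx_succ (τ : Bool) (a : ℤ) : vtx τ (a + 1) ↔ ¬ vtx τ a := by
  unfold vtx
  rw [Int.even_add_one]
  tauto

lemma min_vtx_pred (τ : Bool) (a : ℤ) : vtx τ (a - 1) ↔ ¬ vtx τ a := by
  have h := min_vtx_succ τ (a - 1)
  rw [sub_add_cancel] at h
  tauto

lemma min_vtx_cast {τ : Bool} {a : ℤ} (h : vtx τ a) : (a : F2) = if τ then 0 else 1 := by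
  unfold vtx at h
  cases τ with
  | true => simpa using (ZMod.intCast_eq_zero_iff_even.2 (h.2 rfl))
  | false =>
    have h1 : Odd a := Int.not_even_iff_odd.1 fun e => by simpa using h.1 e
    simpa using (ZMod.intCast_eq_one_iff_odd.2 h1)

lemma min_edge_cast {τ : Bool} {a : ℤ} (h : ¬ vtx τ a) :
    (a : F2) = (if τ then 0 else 1) + 1 := by
  rw [← min_vtx_cast ((min_vtx_pred τ a).2 h)]
  push_cast
  ring

/-- The sum of the edges between two points of the line. -/
noncomputable def minE (τ : Bool) (u v : ℤ) : Ch ℤ :=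
  Finsupp.onFinset (Finset.Icc (min u v) (max u v))
    (fun x => if vtx τ x then 0 else (if x < u then 1 else 0) + if x < v then 1 else 0) (by
      intro x hx
      rw [Finset.mem_Icc]
      by_cases h1 : x < u <;> by_cases h2 : x < v <;> simp only [h1, h2, if_true, if_false,
        F2.add_self, ite_self, ne_eq, not_true_eq_false] at hx <;> omega)

lemma minE_apply (τ : Bool) (u v x : ℤ) : minE τ u v x =
    if vtx τ x then 0 else (if x < u then 1 else 0) + if x < v then 1 else 0 := rfl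

lemma minE_ne {τ : Bool} {u v x : ℤ} (h : minE τ u v x ≠ 0) :
    ¬ vtx τ x ∧ (u ≤ x ∧ x ≤ v ∨ v ≤ x ∧ x ≤ u) := by
  rw [minE_apply] at h
  refine ⟨fun e => h (if_pos e), ?_⟩
  by_cases h1 : x < u <;> by_cases h2 : x < v <;> simp only [h1, h2, if_true, if_false,
    F2.add_self, ite_self, ne_eq, not_true_eq_false] at h <;> omega

lemma minE_add (τ : Bool) (u v w : ℤ) : minE τ u w + minE τ u v = minE τ v w := by
  ext x
  simp only [Finsupp.add_apply, minE_apply]
  split_ifs <;> decide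

lemma minE_add' (τ : Bool) (u v w : ℤ) : minE τ u w + minE τ v w = minE τ u v := by
  ext x
  simp only [Finsupp.add_apply, minE_apply]
  split_ifs <;> decide

lemma minE_self (τ : Bool) (u : ℤ) : minE τ u u = 0 := by
  rw [← minE_add τ u u u, ch_two]

lemma minE_edge {τ : Bool} {a : ℤ} (h : ¬ vtx τ a) : minE τ (a + 1) (a - 1) = sg a := by
  ext x
  rw [minE_apply]
  by_cases e : x = a
  · subst e
    rw [if_neg h, if_pos (by omega), if_neg (by omega), add_zero, Finsupp.single_eq_same]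
  · rw [Finsupp.single_eq_of_ne e]
    by_cases e' : x = a - 1
    · rw [if_pos (e' ▸ (min_vtx_pred τ a).2 h)]
    · by_cases e2 : x < a - 1
      · rw [if_pos e2, if_pos (show x < a + 1 by omega), F2.add_self, ite_self]
      · rw [if_neg e2, if_neg (show ¬ x < a + 1 by omega), add_zero, ite_self]

lemma min_δ_sg (τ : Bool) (a : ℤ) :
    lineδ τ (sg a) = if vtx τ a then 0 else sg (a + 1) + sg (a - 1) := gen_sg _ _

lemma min_δ_step {τ : Bool} {v : ℤ} (h : vtx τ v) :
    lineδ τ (minE τ (v + 2) v) = sg (v + 2) + sg v := by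
  have h1 : ¬ vtx τ (v + 1) := fun e => (min_vtx_succ τ v).1 e h
  have h2 := minE_edge h1
  rw [add_sub_cancel_right, add_assoc, one_add_one_eq_two] at h2
  rw [h2, min_δ_sg, if_neg h1, add_sub_cancel_right, add_assoc, one_add_one_eq_two]

lemma min_vtx_two {τ : Bool} {u : ℤ} (h : vtx τ u) (k : ℤ) : vtx τ (u + 2 * k) := by
  unfold vtx at h ⊢
  rw [← h, Int.even_add]
  simp

lemma min_δE {τ : Bool} {u v : ℤ} (hu : vtx τ u) (hv : vtx τ v) :
    lineδ τ (minE τ v u) = sg v + sg u := by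
  obtain ⟨k, rfl⟩ : ∃ k, v = u + 2 * k := by
    have h : Even (v - u) := Int.even_sub.2 (hv.trans hu.symm)
    obtain ⟨k, hk⟩ := h
    exact ⟨k, by omega⟩
  clear hv
  induction k using Int.induction_on with
  | zero => rw [mul_zero, add_zero, minE_self, map_zero, ch_two]
  | succ k ih =>
    have e : u + 2 * ((k : ℤ) + 1) = u + 2 * k + 2 := by ring
    rw [e, ← minE_add' τ _ u (u + 2 * k), map_add, min_δ_step (min_vtx_two hu k),
      ← minE_add τ (u + 2 * k) u (u + 2 * k), minE_self, zero_add, ih, add_assoc,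
      ← add_assoc (sg (u + 2 * (k : ℤ))), ch_two, zero_add]
  | pred k ih =>
    have e : u + 2 * (-(k : ℤ)) = u + 2 * (-(k : ℤ) - 1) + 2 := by ring
    rw [e] at ih
    rw [← minE_add τ (u + 2 * (-(k : ℤ) - 1) + 2), map_add, ih,
      min_δ_step (min_vtx_two hu _), add_add_add_comm, ch_two, zero_add, add_comm]

lemma min_δδ (τ : Bool) (y : Ch ℤ) : lineδ τ (lineδ τ y) = 0 := by
  induction y using min_ind with
  | h0 => simp
  | ha y z hy hz => simp [hy, hz]
  | hs a =>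
    rw [min_δ_sg]
    split_ifs with h
    · simp
    · rw [map_add, min_δ_sg, min_δ_sg, if_pos ((min_vtx_succ τ a).2 h),
        if_pos ((min_vtx_pred τ a).2 h), add_zero]

section alg

variable {T : Type}

/-- The product of chains. -/
noncomputable def minT : Ch ℤ →ₗ[F2] Ch T →ₗ[F2] Ch (ℤ × T) :=
  Finsupp.linearCombination F2 fun a => sh fun t => (a, t)

lemma minT_left (a : ℤ) : (minT (sg a) : Ch T →ₗ[F2] Ch (ℤ × T)) = sh fun t => (a, t) := by
  simp [minT, sg]

lemma minT_sg (a : ℤ) (t : T) : minT (sg a) (sg t) = sg (a, t) := by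
  rw [minT_left, sh_sg]

lemma minT_right (y : Ch ℤ) (t : T) : minT y (sg t) = sh (fun a => (a, t)) y := by
  induction y using min_ind with
  | h0 => simp
  | ha y z hy hz => simp [hy, hz]
  | hs a => rw [minT_sg, sh_sg]

lemma minT_ne {y : Ch ℤ} {t : T} {x : ℤ × T} (h : minT y (sg t) x ≠ 0) :
    y x.1 ≠ 0 ∧ x.2 = t := by
  rw [minT_right] at h
  obtain ⟨s, h1, rfl⟩ := sh_ne h
  exact ⟨h1, rfl⟩

variable (C : Cx T) (τ : Bool) (h : ℝ) (ψ : ℤ → T → ℝ) (c : T → ℤ)

lemma min_D (y : Ch ℤ) (z : Ch T) :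
    (C.ext τ h ψ).b (minT y z) = minT (lineδ τ y) z + minT y (C.b z) := by
  induction y using min_ind with
  | h0 => simp
  | ha y y' hy hy' =>
    simp only [map_add, LinearMap.add_apply, hy, hy']
    abel
  | hs a =>
    induction z using min_ind with
    | h0 => simp
    | ha z z' hz hz' =>
      simp only [map_add, hz, hz']
      abel
    | hs t =>
      rw [minT_sg, minT_right, minT_left]
      exact gen_sg _ _

noncomputable def minK : En (ℤ × T) :=
  gen fun x => if vtx τ x.1 then minT (minE τ x.1 (c x.2)) (sg x.2) else 0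

noncomputable def minP : Ch (ℤ × T) →ₗ[F2] Ch T := gen fun x => if vtx τ x.1 then sg x.2 else 0

noncomputable def minW (a : ℤ) : Ch T →ₗ[F2] Ch (ℤ × T) :=
  gen fun t => minT (minE τ a (c t)) (sg t)

noncomputable def minI : Ch T →ₗ[F2] Ch (ℤ × T) :=
  gen fun t => sg (c t, t) + minW τ c (c t) (C.b (sg t))

lemma minK_T (a : ℤ) (z : Ch T) :
    minK τ c (minT (sg a) z) = if vtx τ a then minW τ c a z else 0 := by
  induction z using min_ind with
  | h0 => simp
  | ha z z' hz hz' =>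
    simp only [map_add, hz, hz']
    split_ifs <;> simp
  | hs t =>
    rw [minT_sg, minK, minW, gen_sg, gen_sg]

lemma minP_T (a : ℤ) (z : Ch T) : minP τ (minT (sg a) z) = if vtx τ a then z else 0 := by
  induction z using min_ind with
  | h0 => simp
  | ha z z' hz hz' =>
    simp only [map_add, hz, hz']
    split_ifs <;> simp
  | hs t => rw [minT_sg, minP, gen_sg]

lemma minW_add (a a' : ℤ) (z : Ch T) :
    minW τ c a z + minT (minE τ a a') z = minW τ c a' z := by
  induction z using min_ind with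
  | h0 => simp
  | ha z z' hz hz' =>
    simp only [map_add, ← hz, ← hz']
    abel
  | hs t =>
    rw [minW, minW, gen_sg, gen_sg, ← LinearMap.add_apply, ← map_add, minE_add]

lemma minP_W (a : ℤ) (z : Ch T) : minP τ (minW τ c a z) = 0 := by
  induction z using min_ind with
  | h0 => simp
  | ha z z' hz hz' => simp [hz, hz']
  | hs t =>
    by_contra e
    obtain ⟨x, h1, h2⟩ := map_ne _ e
    rw [minW, gen_sg] at h1
    rw [minP, gen_sg, if_neg (minE_ne (minT_ne h1).1).1] at h2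
    exact h2 rfl

variable {c} (hc : ∀ t, vtx τ (c t))
include hc

lemma min_hom (x : Ch (ℤ × T)) :
    minK τ c ((C.ext τ h ψ).b x) + (C.ext τ h ψ).b (minK τ c x) =
      x + minI C τ c (minP τ x) := by
  induction x using min_ind with
  | h0 => simp
  | ha z z' hz hz' =>
    simp only [map_add]
    rw [add_add_add_comm, hz, hz']
    abel
  | hs x =>
    obtain ⟨a, t⟩ := x
    rw [← minT_sg, min_D, map_add, minK_T, minK_T, minP_T, min_δ_sg]
    by_cases ha : vtx τ a
    · simp only [if_pos ha, map_zero, LinearMap.zero_apply, zero_add]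
      rw [minI, gen_sg, ← minW_add τ c a (c t), ← minT_sg]
      conv_lhs => rw [minW, gen_sg, min_D, min_δE (hc t) ha, map_add, LinearMap.add_apply]
      rw [minW]
      abel
    · simp only [if_neg ha, map_zero, add_zero, map_add, LinearMap.add_apply]
      rw [minK_T, minK_T, if_pos ((min_vtx_succ τ a).2 ha), if_pos ((min_vtx_pred τ a).2 ha),
        minW, minW, gen_sg, gen_sg, ← LinearMap.add_apply, ← map_add, minE_add', minE_edge ha]

lemma min_PI (z : Ch T) : minP τ (minI C τ c z) = z := by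
  induction z using min_ind with
  | h0 => simp
  | ha z z' hz hz' => simp [hz, hz']
  | hs t => rw [minI, gen_sg, map_add, minP_W, add_zero, minP, gen_sg, if_pos (hc t)]

omit hc in
lemma min_PD (x : Ch (ℤ × T)) : minP τ ((C.ext τ h ψ).b x) = C.b (minP τ x) := by
  induction x using min_ind with
  | h0 => simp
  | ha z z' hz hz' => simp [hz, hz']
  | hs x =>
    obtain ⟨a, t⟩ := x
    rw [← minT_sg, min_D, map_add, minP_T, minP_T, min_δ_sg]
    by_cases ha : vtx τ a
    · simp only [if_pos ha, map_zero, LinearMap.zero_apply, zero_add]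
    · simp only [if_neg ha, map_zero, add_zero, map_add, LinearMap.add_apply]
      rw [minP_T, minP_T, if_pos ((min_vtx_succ τ a).2 ha), if_pos ((min_vtx_pred τ a).2 ha),
        ch_two]

omit hc in
lemma min_DD (hb : C.b * C.b = 0) (x : Ch (ℤ × T)) :
    (C.ext τ h ψ).b ((C.ext τ h ψ).b x) = 0 := by
  induction x using min_ind with
  | h0 => simp
  | ha z z' hz hz' => simp [hz, hz']
  | hs x =>
    obtain ⟨a, t⟩ := x
    have e : C.b (C.b (sg t)) = 0 := LinearMap.congr_fun hb (sg t)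
    rw [← minT_sg, min_D, map_add, min_D, min_D, min_δδ, e]
    simp [ch_two]

lemma min_DI (hb : C.b * C.b = 0) (z : Ch T) :
    (C.ext τ h ψ).b (minI C τ c z) = minI C τ c (C.b z) := by
  have h1 := congrArg (C.ext τ h ψ).b (min_hom C τ h ψ hc (minI C τ c z))
  have h2 := min_hom C τ h ψ hc ((C.ext τ h ψ).b (minI C τ c z))
  rw [map_add, min_DD C τ h ψ hb, add_zero, map_add, min_PI C τ hc, ch_two] at h1
  rw [min_DD C τ h ψ hb, map_zero, zero_add, h1, min_PD, min_PI C τ hc] at h2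
  rw [← add_zero (minI C τ c (C.b z)), h2, add_comm, add_assoc, ch_two, add_zero]

end alg

lemma min_pos_mono {h : ℝ} (hh : 0 < h) {a a' : ℤ} (e : a ≤ a') : pos h a ≤ pos h a' :=
  mul_le_mul_of_nonneg_left (Int.cast_le.2 (Int.ediv_le_ediv two_pos e)) hh.le

lemma min_center {h : ℝ} (hh : 0 < h) (τ : Bool) (x : ℝ) :
    ∃ a, vtx τ a ∧ |pos h a - x| ≤ h / 2 := by
  have e : |h * (round (x / h) : ℝ) - x| ≤ h / 2 := by
    have h1 := abs_sub_round (x / h)
    have h2 : h * (round (x / h) : ℝ) - x = -(h * (x / h - round (x / h))) := by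
      field_simp
      ring
    rw [h2, abs_neg, abs_mul, abs_of_pos hh]
    nlinarith
  cases τ with
  | true =>
    refine ⟨2 * round (x / h), by simp [vtx], ?_⟩
    rwa [pos, Int.mul_ediv_cancel_left _ two_ne_zero]
  | false =>
    refine ⟨2 * round (x / h) + 1, by simp [vtx, Int.even_add_one], ?_⟩
    have e2 : (2 * round (x / h) + 1) / 2 = round (x / h) := by omega
    rwa [pos, e2]

section est

variable {φ : ℝ → ℝ} {Λ κ R1 : ℝ}

lemma Prof.min_nonneg (hφ : Prof φ Λ κ R1) (hκ : 0 < κ) {u : ℝ} (hu : |u| ≤ R1) : 0 ≤ φ u :=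
  le_trans (by positivity) (hφ.low u hu)

lemma Prof.min_le (hφ : Prof φ Λ κ R1) {u : ℝ} (hu : |u| ≤ R1) : φ u ≤ Λ * |u| := by
  have h := hφ.lip u 0 hu (by simpa using (abs_nonneg u).trans hu)
  rw [hφ.zero, sub_zero, sub_zero] at h
  exact (le_abs_self _).trans h

lemma Prof.min_btw (hφ : Prof φ Λ κ R1) (hΛ : 0 < Λ) (hκ : 0 < κ) {u u' u0 h : ℝ}
    (hu : |u| ≤ R1) (h0 : |u0| ≤ h) (hh : h ≤ R1) (hb : u ≤ u' ∧ u' ≤ u0 ∨ u0 ≤ u' ∧ u' ≤ u) :
    φ u' ≤ φ u + Λ * h := by
  have a1 := abs_le.1 hu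
  have a2 := abs_le.1 h0
  have p0 := hφ.min_nonneg hκ hu
  have p1 : 0 ≤ Λ * h := mul_nonneg hΛ.le ((abs_nonneg _).trans h0)
  by_cases e : |u'| ≤ h
  · have := hφ.min_le (e.trans hh)
    nlinarith [mul_le_mul_of_nonneg_left e hΛ.le]
  · rw [abs_le] at e
    rcases hb with hb | hb
    · have h1 : u' ≤ 0 := by
        by_contra e'
        exact e ⟨by linarith, by linarith⟩
      have := hφ.anti ⟨a1.1, by linarith⟩ ⟨by linarith, h1⟩ hb.1
      linarith
    · have h1 : 0 ≤ u' := by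
        by_contra e'
        exact e ⟨by linarith, by linarith⟩
      have := hφ.mono ⟨h1, by linarith⟩ ⟨by linarith, a1.2⟩ hb.2
      linarith

variable {T : Type} {C : Cx T} {l : T → ℝ} {h : ℝ} {τ : Bool} {c : T → ℤ}

lemma min_btw (hh : 0 < h) {u v x : ℤ} (e : minE τ u v x ≠ 0) (s : ℝ) :
    pos h u - s ≤ pos h x - s ∧ pos h x - s ≤ pos h v - s ∨
      pos h v - s ≤ pos h x - s ∧ pos h x - s ≤ pos h u - s := by
  rcases (minE_ne e).2 with e | e
  · exact Or.inl ⟨by linarith [min_pos_mono hh e.1], by linarith [min_pos_mono hh e.2]⟩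
  · exact Or.inr ⟨by linarith [min_pos_mono hh e.1], by linarith [min_pos_mono hh e.2]⟩

lemma min_estI (hΛ : 0 < Λ) (hκ : 0 < κ) (hφ : Prof φ Λ κ R1) (hreg : Reg C l h Λ R1)
    (hh : 0 < h) (hc : ∀ t, vtx τ (c t)) (hc' : ∀ t, |pos h (c t) - l t| ≤ h / 2)
    (h1 : (Λ + 1) * h ≤ R1) {u : T} {x : ℤ × T} (e : Ent (minI C τ c) u x) (hu : C.N u ≤ R1) :
    C.f x.2 + φ (pos h x.1 - l x.2) ≤ C.f u + Λ * (Λ + 2) * h ∧
      max |pos h x.1| (C.N x.2) ≤ (Λ + 1) * (C.N u + 2 * h) ∧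
      (x.1 : F2) + C.deg x.2 = (if τ then 0 else 1) + C.deg u ∧
      0 ≤ φ (pos h x.1 - l x.2) ∧ (vtx τ x.1 → x.2 = u) := by
  have key : |pos h x.1 - l x.2| ≤ (Λ + 1) * h ∧ C.N x.2 ≤ C.N u + h ∧
      C.f x.2 ≤ C.f u + Λ * h ∧ (x.1 : F2) + C.deg x.2 = (if τ then 0 else 1) + C.deg u ∧
      (vtx τ x.1 → x.2 = u) := by
    have hΛh : 0 < Λ * h := mul_pos hΛ hh
    unfold Ent at e
    rw [minI, gen_sg] at e
    rcases F2.add_ne e with e | e
    · obtain rfl := sg_ne e
      exact ⟨by linarith [hc' u], by linarith, by linarith, by rw [min_vtx_cast (hc u)],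
        fun _ => rfl⟩
    · obtain ⟨t, e1, e2⟩ := apply_ne _ e
      unfold Ent at e2
      rw [minW, gen_sg] at e2
      obtain ⟨e3, e4⟩ := minT_ne e2
      obtain ⟨a1, a2, a3, a4⟩ := hreg.adj u t e1
      rw [e4]
      refine ⟨?_, a1, by linarith [(abs_le.1 (a4 hu)).2], ?_, fun v => absurd v (minE_ne e3).1⟩
      · have b1 := abs_le.1 (hc' u)
        have b2 := abs_le.1 (hc' t)
        have b3 := abs_le.1 a3
        rw [abs_le]
        rcases min_btw hh e3 (l t) with b | b <;> constructor <;> linarith [b.1, b.2]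
      · rw [min_edge_cast (minE_ne e3).1, a2, add_add_add_comm, F2.add_self, add_zero]
  obtain ⟨k1, k2, k3, k4, k5⟩ := key
  have n0 := hreg.N0 u
  refine ⟨?_, max_le ?_ (by nlinarith), k4, hφ.min_nonneg hκ (k1.trans h1), k5⟩
  · have := hφ.min_le (k1.trans h1)
    nlinarith [mul_le_mul_of_nonneg_left k1 hΛ.le]
  · have b1 := hreg.lb x.2
    have b2 := abs_sub_abs_le_abs_sub (pos h x.1) (l x.2)
    nlinarith [mul_le_mul_of_nonneg_left k2 hΛ.le]

lemma min_small (hΛ : 0 < Λ) (hreg : Reg C l h Λ R1) {r : ℝ} {x : ℤ × T}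
    (hx : max |pos h x.1| (C.N x.2) ≤ r) :
    |pos h x.1 - l x.2| ≤ (Λ + 1) * r ∧ |l x.2| ≤ Λ * r ∧ |pos h x.1| ≤ r ∧ C.N x.2 ≤ r := by
  obtain ⟨a1, a2⟩ := max_le_iff.1 hx
  have a3 := (hreg.lb x.2).trans (mul_le_mul_of_nonneg_left a2 hΛ.le)
  exact ⟨by linarith [abs_sub (pos h x.1) (l x.2)], a3, a1, a2⟩

lemma min_P_ne {x : ℤ × T} {u : T} (e : Ent (minP τ) x u) : x.2 = u := by
  unfold Ent at e
  rw [minP, gen_sg] at e
  split_ifs at e
  · exact sg_ne e
  · exact absurd rfl e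

lemma min_core (hΛ : 0 < Λ) (hκ : 0 < κ) (hφ : Prof φ Λ κ R1) (hreg : Reg C l h Λ R1)
    (hh : 0 < h) (hh1 : h ≤ 1) (τ : Bool) {m : F2} {r R' R Θ c' Ce : ℝ} {K p ξ}
    (H : MD C m r R' Θ c' (Ce * h) K p ξ) (hc0 : 0 < c') (hCe : 0 < Ce) (hr : r ≤ R')
    (hR : 2 * (Λ + 1) * R' ≤ R) (hR1 : 2 * (Λ + 1) * R' ≤ R1) (hhR : 2 * h ≤ R')
    (hΘ : Λ * (Λ + 2) * h ≤ Θ / 2) :
    ∃ K' p' ξ', MD (C.ext τ h fun a t => φ (pos h a - l t)) ((if τ then 0 else 1) + m) r R (Θ / 2)
      (c' / (2 * (Λ + 1) ^ 2)) ((Ce + Λ * (Λ + 2) + 4 * c') * h) K' p' ξ' := by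
  choose c hc hc' using fun t => min_center hh τ (l t)
  have hR0 : 0 < R' := by linarith
  have hΛR : 0 < Λ * R' := mul_pos hΛ hR0
  have hΛh : Λ * h ≤ Λ * R' / 2 := by nlinarith
  have hΛr : Λ * r ≤ Λ * R' := mul_le_mul_of_nonneg_left hr hΛ.le
  have h1 : (Λ + 1) * h ≤ R1 := by linarith
  have h2 : R' ≤ R1 := by linarith
  have h3 : (Λ + 1) * r ≤ R1 := by linarith
  have e1 : 0 < Λ * (Λ + 2) * h := by positivity
  have e2 : 0 < c' * h := mul_pos hc0 hh
  have e3 : 0 < Ce * h := mul_pos hCe hh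
  have e4 : 0 < Λ * h := mul_pos hΛ hh
  have est : ∀ {u : T} {x : ℤ × T}, Ent (minI C τ c) u x → C.N u ≤ R' → _ := fun e hu =>
    min_estI hΛ hκ hφ hreg hh hc hc' h1 e (hu.trans h2)
  have estN : ∀ {u : T} {x : ℤ × T}, Ent (minI C τ c) u x → C.N u ≤ R' →
      max |pos h x.1| (C.N x.2) ≤ R := fun e hu =>
    (est e hu).2.1.trans (by nlinarith [mul_le_mul_of_nonneg_left hu hΛ.le])
  have hξ : ∀ x : ℤ × T, (ξ ∘ₗ minP τ) (sg x) ≠ 0 → vtx τ x.1 ∧ ξ (sg x.2) ≠ 0 := fun x e => by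
    rw [LinearMap.comp_apply, minP, gen_sg] at e
    split_ifs at e with v
    · exact ⟨v, e⟩
    · exact absurd (map_zero ξ) e
  refine ⟨minK τ c + minI C τ c ∘ₗ K ∘ₗ minP τ, minI C τ c p, ξ ∘ₗ minP τ, fun s t hs e => ?_,
    fun s t hs e => ?_, fun t e => ?_, fun t e => ?_, fun s e => ?_, fun s hs e => ?_,
    fun s => ?_, ?_, fun t e e' => ?_⟩
  · obtain ⟨s1, s2, s3, s4⟩ := min_small hΛ hreg hs
    change C.f t.2 + φ (pos h t.1 - l t.2) ≤ C.f s.2 + φ (pos h s.1 - l s.2) + _ ∧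
      max |pos h t.1| (C.N t.2) ≤ R
    rcases ent_add e with e | e
    · unfold Ent at e
      rw [minK, gen_sg] at e
      split_ifs at e
      · obtain ⟨a1, a2⟩ := minT_ne e
        rw [a2]
        have b := min_btw hh a1 (l s.2)
        have b0 := hc' s.2
        have b1 := hφ.min_btw hΛ hκ (s1.trans h3) (b0.trans (half_le_self hh.le))
          (by linarith) b
        refine ⟨by nlinarith, max_le ?_ (by linarith)⟩
        have c1 := abs_le.1 b0
        have c2 := abs_le.1 s2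
        have c3 := abs_le.1 s3
        rw [abs_le]
        rcases b with b | b <;> constructor <;> linarith [b.1, b.2]
      · exact absurd rfl e
    · obtain ⟨u, a1, a2⟩ := ent_comp e
      obtain ⟨v, a3, a4⟩ := ent_comp a1
      obtain rfl := min_P_ne a3
      obtain ⟨b1, b2⟩ := H.k1 _ _ s4 a4
      have b3 := hφ.min_nonneg hκ (s1.trans h3)
      exact ⟨by linarith [(est a2 b2).1], estN a2 b2⟩
  · have id : (1 + (minK τ c + minI C τ c ∘ₗ K ∘ₗ minP τ) *
        (C.ext τ h fun a t => φ (pos h a - l t)).b + (C.ext τ h fun a t => φ (pos h a - l t)).b *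
        (minK τ c + minI C τ c ∘ₗ K ∘ₗ minP τ)) (sg s) + (ξ ∘ₗ minP τ) (sg s) • minI C τ c p =
        minI C τ c ((1 + K * C.b + C.b * K) (minP τ (sg s)) + ξ (minP τ (sg s)) • p) := by
      have h0 := min_hom C τ h (fun a t => φ (pos h a - l t)) hc (sg s)
      simp only [LinearMap.add_apply, Module.End.mul_apply, Module.End.one_apply,
        LinearMap.comp_apply, map_add, map_smul, min_PD, min_DI C τ h _ hc hreg.bb]
      have h4 : minI C τ c (minP τ (sg s)) = sg s + (sg s + minI C τ c (minP τ (sg s))) := by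
        rw [← add_assoc, ch_two, zero_add]
      rw [← h0] at h4
      rw [h4]
      abel
    rw [id, minP, gen_sg] at e
    split_ifs at e
    · obtain ⟨u, a1, a2⟩ := apply_ne _ e
      obtain ⟨b1, b2⟩ := H.k2 _ _ (min_small hΛ hreg hs).2.2.2 a1
      refine ⟨?_, estN a2 b2⟩
      change C.f t.2 + φ (pos h t.1 - l t.2) ≤ _
      linarith [(est a2 b2).1]
    · simp at e
  · obtain ⟨u, a1, a2⟩ := apply_ne _ e
    obtain ⟨b1, b2, b3⟩ := H.p1 u a1
    obtain ⟨c1, c2, c3, -⟩ := est a2 b2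
    refine ⟨b1 ▸ c3, estN a2 b2, ?_⟩
    change C.f t.2 + φ (pos h t.1 - l t.2) ≤ _ - _ * max |pos h t.1| (C.N t.2) ^ 2
    have d1 := pow_le_pow_left₀ ((abs_nonneg _).trans (le_max_left _ _)) c2 2
    have d2 : c' / (2 * (Λ + 1) ^ 2) * max |pos h t.1| (C.N t.2) ^ 2 ≤
        c' * C.N u ^ 2 + 4 * c' * h := by
      rw [div_mul_eq_mul_div, div_le_iff₀ (by positivity)]
      have d3 : (C.N u + 2 * h) ^ 2 ≤ 2 * (C.N u ^ 2 + 4 * h) := by
        nlinarith [sq_nonneg (C.N u - 2 * h)]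
      have d4 := mul_le_mul_of_nonneg_left d3 (sq_nonneg (Λ + 1))
      rw [mul_pow] at d1
      nlinarith [mul_le_mul_of_nonneg_left (d1.trans d4) hc0.le]
    linarith
  · rw [min_DI C τ h _ hc hreg.bb] at e
    obtain ⟨u, a1, a2⟩ := apply_ne _ e
    obtain ⟨b1, b2⟩ := H.p2 u a1
    refine ⟨?_, estN a2 b2⟩
    change C.f t.2 + φ (pos h t.1 - l t.2) ≤ _
    linarith [(est a2 b2).1]
  · obtain ⟨a1, a2⟩ := hξ s e
    change (s.1 : F2) + C.deg s.2 = _
    rw [min_vtx_cast a1, H.x1 _ a2]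
  · obtain ⟨s1, -, -, s4⟩ := min_small hΛ hreg hs
    have b1 := H.x2 _ s4 (hξ s e).2
    have b3 := hφ.min_nonneg hκ (s1.trans h3)
    change _ ≤ C.f s.2 + φ (pos h s.1 - l s.2)
    linarith
  · rw [LinearMap.comp_apply, min_PD]
    by_contra e
    obtain ⟨u, -, a⟩ := map_ne (ξ ∘ₗ C.b) e
    exact a (H.x3 u)
  · rw [LinearMap.comp_apply, min_PI C τ hc, H.x4]
  · obtain ⟨a1, a2⟩ := hξ t e'
    obtain ⟨u, a3, a4⟩ := apply_ne _ e
    obtain ⟨-, -, -, c4, c5⟩ := est a4 (H.p1 u a3).2.1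
    have b1 := H.x5 t.2 (c5 a1 ▸ a3) a2
    change _ ≤ C.f t.2 + φ (pos h t.1 - l t.2)
    linarith

end est

theorem morse_min {T : Type} (C : ℝ → Cx T) (l : ℝ → T → ℝ) (φ : ℝ → ℝ) (Λ κ R1 : ℝ)
    (hΛ : 0 < Λ) (hκ : 0 < κ) (hR : 0 < R1)
    (hreg : ∀ h, 0 < h → h ≤ 1 → Reg (C h) (l h) h Λ R1) (hφ : Prof φ Λ κ R1) (τ : Bool)
    (hM : MorseF C) :
    MorseF fun h => (C h).ext τ h fun a t => φ (pos h a - l h t) := by
  obtain ⟨m, hM⟩ := hM
  refine ⟨(if τ then 0 else 1) + m, fun R hR0 => ?_⟩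
  have hR' : 0 < min R R1 / (2 * (Λ + 1)) := by positivity
  have e : 2 * (Λ + 1) * (min R R1 / (2 * (Λ + 1))) = min R R1 := by field_simp
  generalize min R R1 / (2 * (Λ + 1)) = R' at hR' e
  obtain ⟨r, Θ, c, Ce, h0, hr, hΘ, hc, hCe, hh0, H⟩ := hM R' hR'
  refine ⟨min r R', Θ / 2, c / (2 * (Λ + 1) ^ 2), Ce + Λ * (Λ + 2) + 4 * c,
    min (min h0 1) (min (R' / 2) (Θ / 2 / (Λ * (Λ + 2)))), by positivity, by positivity,
    by positivity, by positivity, by positivity, fun h hh hle => ?_⟩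
  simp only [le_min_iff] at hle
  obtain ⟨⟨a1, a2⟩, a3, a4⟩ := hle
  obtain ⟨K, p, ξ, H⟩ := H h hh a1
  rw [le_div_iff₀ (by positivity)] at a4
  exact min_core hΛ hκ hφ (hreg h hh a2) hh a2 τ (H.mono (min_le_left _ _)) hc hCe
    (min_le_right _ _) (e ▸ min_le_left _ _) (e ▸ min_le_right _ _) (by linarith) (by linarith)

end Pool.Agent.Lib.MP_5a3ebe_gt.PI
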