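import Pool.Agent.Lib.MP_5a3ebe_gt.PiPer

/-! Lifted steps are monotone moves. -/

set_option linter.unusedSectionVars false
set_option linter.unusedVariables false

namespace Pool.Agent.Lib.MP_5a3ebe_gt.PI

open Ap Classical

variable {κ Γ : Type} [Fintype κ] [DecidableEq κ] [Fintype Γ] [DecidableEq Γ] {D : Diag κ}
  {T : TC κ Γ}

/-- The hypotheses under which a diagram gives a factor. -/
structure FacH (T : TC κ Γ) (D : Diag κ) (G : Bool → Geo κ) (side : Γ × ℤ → Bool)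
    (b1 b2 : Γ × ℤ → κ → Prop) (P : Prm) (ω rz ζ S R gb μ cm : ℝ) (i0 : ℤ) (s0 : κ) (B : ℕ) :
    Prop where
  good : D.Good
  conn : D.Conn
  spec : T.Spec D
  ok : ∀ σ, (G σ).OK D P.h S R
  base : ∀ σ, (G σ).Base D P.h gb i0 s0 B
  sd : Side T D G side P.h R ζ cm i0 s0 B
  zone : ∀ y, Zn D (G (side y)) (T.w y.1) (T.st y.1) P.M μ rz (b1 y) (b2 y)
  h0 : 0 < P.h
  ω0 : 0 < ω
  RK0 : 0 ≤ P.RK
  ζ0 : 0 ≤ ζ
  μ0 : 0 ≤ μ
  S0 : 0 ≤ S
  c00 : 0 < P.c0
  MB : P.M + 2 ≤ B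
  e0 : 2 * P.h * (ω * R + P.RK) ≤ P.e0
  c1 : P.c0 ≤ ω * (μ * P.M)
  c2 : P.c0 + (ω + P.RK) * ζ ≤ ω * cm
  c3 : cm ≤ gb * P.h * B
  rz0 : S * P.h * (P.M + 1) ≤ rz

/-- The position clause of a step through the strand `t`. -/
def mvPos (D : Diag κ) (w w' : ℤ) (t : κ) : Prop :=
  w' = w ∨ (w' = w + 1 ∧ D.Al w t) ∨ (w = w' + 1 ∧ D.Al w' t)

lemma mv_touch {k : ℤ} {s : κ} (h : D.Al k s) : D.Touch k s ∧ D.Touch (k + 1) s :=
  ⟨⟨h.1, h.2.1, h.2.2.le⟩, ⟨h.1, by have := h.2.1; omega, by have := h.2.2; omega⟩⟩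

lemma mv_Δ {G : Geo κ} {h S R : ℝ} (hh : 0 < h) (O : G.OK D h S R) {k : ℤ} {s : κ}
    (a : D.Al k s) : |G.Δ k s| ≤ 2 * h * R := by
  have y1 := O.bdY _ _ (mv_touch a).1
  have y2 := O.bdY _ _ (mv_touch a).2
  have x := O.xs k
  have av : |G.avg k s| ≤ R := by
    rw [abs_le] at y1 y2 ⊢
    unfold Geo.avg
    constructor <;> linarith [y1.1, y1.2, y2.1, y2.2]
  unfold Geo.Δ
  rw [abs_neg, abs_mul, abs_of_nonneg (by linarith [x.1] : 0 ≤ G.x (k + 1) - G.x k)]
  have := mul_le_mul av x.2 (by linarith [x.1]) ((abs_nonneg _).trans av)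
  linarith

lemma mv_F {G : Geo κ} {h S R : ℝ} (hh : 0 < h) (hR : 0 ≤ R) (O : G.OK D h S R) {w w' : ℤ}
    {t : κ} (p : mvPos D w w' t) : G.F w' t - G.F w t ≤ 2 * h * R := by
  rcases p with p | ⟨p, a⟩ | ⟨p, a⟩
  · rw [p, sub_self]; positivity
  · rw [p, O.lev.step _ _ a]
    linarith [(abs_le.1 (mv_Δ hh O a)).2]
  · rw [p, O.lev.step _ _ a]
    linarith [(abs_le.1 (mv_Δ hh O a)).1]

lemma mv_x {G : Geo κ} {h S R : ℝ} (hh : 0 < h) (O : G.OK D h S R) {w w' : ℤ}
    {t : κ} (p : mvPos D w w' t) : |G.x w' - G.x w| ≤ 2 * h := by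
  rcases p with p | ⟨p, a⟩ | ⟨p, a⟩
  · rw [p, sub_self, abs_zero]; positivity
  · rw [p, abs_le]
    constructor <;> linarith [(O.xs w).1, (O.xs w).2]
  · rw [p, abs_le]
    constructor <;> linarith [(O.xs w').1, (O.xs w').2]

lemma mv_unpack {e : ℤ} (he : |e| ≤ 1) {y y' : Γ × ℤ} (st : LS T D e y y') :
    |y'.2 - y.2| ≤ 1 ∧ ∃ (t : κ) (e1 e2 : ℤ), D.Le (T.w y.1) e1 (T.st y.1) t ∧
      D.Le (T.w y'.1) e2 t (T.st y'.1) ∧ mvPos D (T.w y.1) (T.w y'.1) t ∧
      ∀ G : Geo κ, lev T G y' - lev T G y =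
        (G.lam D (T.w y.1) t + e1 * (G.A / 2) - G.lam D (T.w y.1) (T.st y.1)) +
        (G.lam D (T.w y'.1) (T.st y'.1) + e2 * (G.A / 2) - G.lam D (T.w y'.1) t) +
        (G.F (T.w y'.1) t - G.F (T.w y.1) t) := by
  obtain ⟨⟨t, e1, e2, h1, l1, l2, p⟩, h2⟩ := st
  rw [abs_le] at he
  refine ⟨?_, t, e1, e2, l1, l2, p, fun G => ?_⟩
  · unfold kap at h2
    rw [abs_le]
    split_ifs at h2 <;> omega
  · have k : (2 * (y'.2 - y.2) : ℤ) = e1 + e2 + (if D.dir (T.st y.1) then 1 else 0) -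
        (if D.dir (T.st y'.1) then 1 else 0) := by
      unfold kap at h2
      omega
    have k' : (2 * (y'.2 - y.2) : ℝ) = e1 + e2 + (if D.dir (T.st y.1) then 1 else 0) -
        (if D.dir (T.st y'.1) then 1 else 0) := by exact_mod_cast k
    unfold lev Geo.lam
    split_ifs at k' ⊢ <;> linear_combination (G.A / 2) * k'

lemma mv_lip {G : Geo κ} {h S R gb : ℝ} {i0 : ℤ} {s0 : κ} {B : ℕ} (O : G.OK D h S R)
    (H : G.Base D h gb i0 s0 B) (hS : 0 ≤ S * h) {i : ℤ} (hi : |i - i0| ≤ 4 * B) (n : ℕ) :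
    ∀ k, |k - i0| ≤ 4 * B → |k - i| ≤ n → |G.Y k s0 - G.Y i s0| ≤ S * h * n := by
  have al : ∀ k, |k - i0| ≤ 4 * B → D.Al k s0 := fun k hk =>
    H.alive (mv_touch H.al).1 (by simp) hk
  induction n with
  | zero =>
    intro k _ hk
    have : k = i := by rw [abs_le] at hk; omega
    simp [this]
  | succ n ih =>
    intro k hk hn
    rw [abs_le] at hk hn hi
    push_cast at hn ⊢
    rcases lt_trichotomy k i with c | c | c
    · have a := ih (k + 1) (by rw [abs_le]; omega) (by rw [abs_le]; omega)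
      have b := O.lip k s0 (al k (by rw [abs_le]; omega))
      rw [abs_le] at a b ⊢
      constructor <;> linarith [a.1, a.2, b.1, b.2]
    · rw [c, sub_self, abs_zero]; positivity
    · have a := ih (k - 1) (by rw [abs_le]; omega) (by rw [abs_le]; omega)
      have b := O.lip (k - 1) s0 (al (k - 1) (by rw [abs_le]; omega))
      rw [sub_add_cancel] at b
      rw [abs_le] at a b ⊢
      constructor <;> linarith [a.1, a.2, b.1, b.2]

section

variable {G : Bool → Geo κ} {side : Γ × ℤ → Bool} {b1 b2 : Γ × ℤ → κ → Prop} {P : Prm}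
  {ω rz ζ S R gb μ cm : ℝ} {i0 : ℤ} {s0 : κ} {B : ℕ}
  (H : FacH T D G side b1 b2 P ω rz ζ S R gb μ cm i0 s0 B)
include H

lemma FacH.mv_R : 0 ≤ R := (abs_nonneg _).trans ((H.ok true).bdY _ _ (mv_touch (H.base true).al).1)

lemma FacH.mv_cm : 0 < cm := by
  have h1 := H.c2
  have h2 := mul_nonneg (add_nonneg H.ω0.le H.RK0) H.ζ0
  have h3 : 0 < ω * cm := by linarith [H.c00]
  exact (mul_pos_iff_of_pos_left H.ω0).1 h3

lemma FacH.mv_gb : 0 ≤ gb := by
  by_contra c
  push Not at c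
  have := mul_nonpos_of_nonpos_of_nonneg (mul_neg_of_neg_of_pos c H.h0).le
    (Nat.cast_nonneg B : (0 : ℝ) ≤ B)
  linarith [H.mv_cm, H.c3]

lemma FacH.mv_A (σ : Bool) : cm ≤ (G σ).A := by
  have := (H.base σ).period H.good H.conn H.spec H.h0 H.mv_gb (by have := H.MB; omega) (H.ok σ)
  linarith [H.c3, H.mv_cm]

/-- A drop by `cm` in one geometry is a drop by `c0` of the total. -/
lemma FacH.mv_far {y y' : Γ × ℤ} {t : κ} (hm : |y'.2 - y.2| ≤ 1)
    (p : mvPos D (T.w y.1) (T.w y'.1) t) (σ : Bool)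
    (d : lev T (G σ) y' - lev T (G σ) y ≤ 2 * P.h * R - cm) :
    (facRD T G side b1 b2 ω rz ζ i0 s0 B P.M).tot P y y' ≤ P.e0 - P.c0 := by
  have c := (abs_le.1 (H.sd.cmp y y' σ hm)).2
  have x1 := mv_x H.h0 (H.ok (side y')) p
  have x2 : |(G (side y')).x (T.w y.1) - (G (side y)).x (T.w y.1)| ≤ ζ := by
    have := H.sd.cx (T.w y.1)
    cases side y <;> cases side y'
    · simpa using H.ζ0
    · exact this
    · rwa [abs_sub_comm]
    · simpa using H.ζ0
  have x : |(G (side y')).x (T.w y'.1) - (G (side y)).x (T.w y.1)| ≤ 2 * P.h + ζ := by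
    rw [abs_le] at x1 x2 ⊢
    constructor <;> linarith [x1.1, x1.2, x2.1, x2.2]
  have a := mul_le_mul_of_nonneg_left x H.RK0
  have b := mul_le_mul_of_nonneg_left (show lev T (G (side y')) y' - lev T (G (side y)) y ≤
    2 * P.h * R - cm + ζ by linarith) H.ω0.le
  change ω * lev T (G (side y')) y' - ω * lev T (G (side y)) y +
    P.RK * |(G (side y')).x (T.w y'.1) - (G (side y)).x (T.w y.1)| ≤ _
  linarith [H.e0, H.c2]

/-- A step inside one geometry. -/
lemma FacH.mv_same {y y' : Γ × ℤ} {t : κ} (p : mvPos D (T.w y.1) (T.w y'.1) t)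
    (g : G (side y) = G (side y')) {c : ℝ}
    (d : lev T (G (side y')) y' - lev T (G (side y')) y ≤ 2 * P.h * R - c) :
    (facRD T G side b1 b2 ω rz ζ i0 s0 B P.M).tot P y y' ≤ P.e0 - ω * c := by
  have a := mul_le_mul_of_nonneg_left (mv_x H.h0 (H.ok (side y')) p) H.RK0
  have b := mul_le_mul_of_nonneg_left d H.ω0.le
  change ω * lev T (G (side y')) y' - ω * lev T (G (side y)) y +
    P.RK * |(G (side y')).x (T.w y'.1) - (G (side y)).x (T.w y.1)| ≤ _
  rw [g]
  linarith [H.e0]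

/-- Across the two cuts at the base strand. -/
lemma FacH.mv_cut (σ : Bool) {i e : ℤ} {s t : κ} (hi : |i - i0| ≤ 3 * B) (le : D.Le i e s t) :
    (G σ).lam D i t + e * ((G σ).A / 2) - (G σ).lam D i s ≤ -cm ∨
      ((D.key i0 s < D.key i0 s0 ↔ D.key i0 t < D.key i0 s0) ∧
        (D.key i0 s ≤ D.key i0 s0 ↔ D.key i0 t ≤ D.key i0 s0)) := by
  rw [abs_le] at hi
  have ad := (H.ok σ).adm H.good H.h0
  have m0 : 0 ≤ gb * P.h := mul_nonneg H.mv_gb H.h0.le
  by_cases c1 : D.key i0 s < D.key i0 s0 ↔ D.key i0 t < D.key i0 s0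
  · by_cases c2 : D.key i0 s ≤ D.key i0 s0 ↔ D.key i0 t ≤ D.key i0 s0
    · exact Or.inr ⟨c1, c2⟩
    · have c := (H.base σ).cut H.good H.h0 (H.ok σ) (bot := fun u => D.key i0 u ≤ D.key i0 s0)
        fun s t _ _ a b => by linarith [not_le.1 b]
      have := c.le_drop H.good H.conn m0 ad B (by omega) (by omega) le c2
      left
      linarith [H.c3]
  · have c := (H.base σ).cut H.good H.h0 (H.ok σ) (bot := fun u => D.key i0 u < D.key i0 s0)
      fun s t _ _ a b => by linarith [not_lt.1 b]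
    have := c.le_drop H.good H.conn m0 ad B (by omega) (by omega) le c1
    left
    linarith [H.c3]

lemma FacH.mv_eq {s : κ} {i : ℤ} (hi : |i - i0| ≤ 3 * B) (ht : D.Touch i s) :
    s = s0 ↔ ¬ D.key i0 s < D.key i0 s0 ∧ D.key i0 s ≤ D.key i0 s0 := by
  refine ⟨fun e => by simp [e], fun e => ?_⟩
  have a : D.Al i0 s := (H.base true).alive ht (by rw [abs_le] at hi ⊢; omega) (by simp)
  exact H.good.inj i0 s s0 a (H.base true).al (le_antisymm e.2 (not_lt.1 e.1))

/-- In the corridor a step keeps the base strand, unless the level drops. -/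
lemma FacH.mv_base (σ : Bool) {y y' : Γ × ℤ} {t : κ} {e1 e2 : ℤ}
    (l1 : D.Le (T.w y.1) e1 (T.st y.1) t) (l2 : D.Le (T.w y'.1) e2 t (T.st y'.1))
    (p : mvPos D (T.w y.1) (T.w y'.1) t) (w1 : |T.w y.1 - i0| ≤ 3 * B)
    (w2 : |T.w y'.1 - i0| ≤ 3 * B)
    (q : lev T (G σ) y' - lev T (G σ) y =
        ((G σ).lam D (T.w y.1) t + e1 * ((G σ).A / 2) - (G σ).lam D (T.w y.1) (T.st y.1)) +
        ((G σ).lam D (T.w y'.1) (T.st y'.1) + e2 * ((G σ).A / 2) - (G σ).lam D (T.w y'.1) t) +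
        ((G σ).F (T.w y'.1) t - (G σ).F (T.w y.1) t)) :
    lev T (G σ) y' - lev T (G σ) y ≤ 2 * P.h * R - cm ∨
      ((T.st y.1 = s0 ↔ T.st y'.1 = s0) ∧ (T.w y'.1 ≠ T.w y.1 → T.st y.1 = s0 → t = s0)) := by
  have ad := (H.ok σ).adm H.good H.h0
  have a1 := l1 _ _ ad
  have a2 := l2 _ _ ad
  have f := mv_F H.h0 H.mv_R (H.ok σ) p
  rcases H.mv_cut σ w1 l1 with c | c
  · left; linarith
  rcases H.mv_cut σ w2 l2 with c' | c'
  · left; linarith
  refine Or.inr ⟨?_, fun n e => ?_⟩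
  · rw [H.mv_eq w1 (H.spec.touch _), H.mv_eq w2 (H.spec.touch _), c.1, c.2, c'.1, c'.2]
  · have tt : D.Touch (T.w y.1) t := by
      rcases p with p | ⟨p, a⟩ | ⟨p, a⟩
      · exact absurd p n
      · exact (mv_touch a).1
      · rw [p]; exact (mv_touch a).2
    rw [H.mv_eq w1 tt, ← c.1, ← c.2, ← H.mv_eq w1 (H.spec.touch _)]
    exact e

/-- A step to the right along the base strand in a fixed sheet. -/
lemma FacH.mv_right {y y' : Γ × ℤ} (s1 : T.st y.1 = s0) (s2 : T.st y'.1 = s0) (m : y'.2 = y.2)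
    (w : T.w y'.1 = T.w y.1 + 1) (w1 : |T.w y.1 - i0| ≤ 4 * B) (w2 : |T.w y'.1 - i0| ≤ 4 * B) :
    lev T (G (side y')) y' - lev T (G (side y)) y = (G (side y')).Δ (T.w y.1) s0 := by
  have al : D.Al (T.w y.1) s0 := (H.base true).alive (mv_touch (H.base true).al).1 (by simp) w1
  have stp := (H.ok (side y')).lev.step _ _ al
  unfold lev
  rw [s1, s2, m, w, stp]
  by_cases c : side y = side y'
  · rw [c]; ring
  · have d1 := H.sd.base y s1 w1
    have d2 := H.sd.base y' s2 w2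
    rw [d1, d2, decide_eq_decide] at c
    have z : y.2 = 0 := by omega
    have z' : T.w y.1 = i0 := by omega
    have e1 : side y = false := by rw [d1, decide_eq_false_iff_not]; omega
    have e2 : side y' = true := by rw [d2, decide_eq_true_eq]; omega
    rw [e1, e2, z, z', H.sd.nrm]
    simp

/-- The height of the base strand near `y0`. -/
lemma FacH.mv_ht {y0 y : Γ × ℤ} (s1 : T.st y0.1 = s0) (w0 : |T.w y0.1 - i0| ≤ 2 * B)
    (s2 : T.st y.1 = s0) (m : y.2 = y0.2) {k : ℤ} (hk : T.w y.1 = k + 1)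
    (k1 : |k - T.w y0.1| ≤ P.M) (k2 : |T.w y.1 - T.w y0.1| ≤ P.M) :
    |(G (side y)).avg k s0 - (G (side y0)).Y (T.w y0.1) (T.st y0.1)| ≤
      rz + if Kink T i0 s0 P.M y0 then ζ else 0 := by
  have MB := H.MB
  have hS : 0 ≤ S * P.h := mul_nonneg H.S0 H.h0.le
  have v0 : |T.w y0.1 - i0| ≤ 4 * B := by rw [abs_le] at w0 ⊢; omega
  have v1 : |T.w y.1 - i0| ≤ 4 * B := by rw [abs_le] at w0 k2 ⊢; omega
  have a := mv_lip (H.ok (side y)) (H.base (side y)) hS v0 P.M k
    (by rw [abs_le] at w0 k1 ⊢; omega) k1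
  have b := mv_lip (H.ok (side y)) (H.base (side y)) hS v0 P.M (T.w y.1) v1 k2
  have c : |(G (side y)).Y (T.w y0.1) s0 - (G (side y0)).Y (T.w y0.1) s0| ≤
      if Kink T i0 s0 P.M y0 then ζ else 0 := by
    by_cases c : side y = side y0
    · rw [c, sub_self, abs_zero]
      split_ifs
      · exact H.ζ0
      · exact le_rfl
    · have kk : Kink T i0 s0 P.M y0 := by
        rw [H.sd.base y s2 v1, H.sd.base y0 s1 v0, decide_eq_decide] at c
        rw [abs_le] at k2
        exact ⟨s1, by omega, by rw [abs_le]; omega⟩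
      rw [if_pos kk]
      have := H.sd.cy _ v0
      revert c
      cases side y <;> cases side y0 <;> intro c
      · exact absurd rfl c
      · rwa [abs_sub_comm]
      · exact this
      · exact absurd rfl c
  have r := H.rz0
  rw [s1]
  rw [hk] at b
  unfold Geo.avg
  rw [abs_le] at a b c ⊢
  constructor <;> linarith [a.1, a.2, b.1, b.2, c.1, c.2]

end

theorem FacH.mv {G : Bool → Geo κ} {side b1 b2 P ω rz ζ S R gb μ cm i0 s0 B}
    (H : FacH T D G side b1 b2 P ω rz ζ S R gb μ cm i0 s0 B) {e : ℤ} (he : |e| ≤ 1) {y y'}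
    (st : LS T D e y y') (ε : Bool)
    (h0 : 0 ≤ (facRD T G side b1 b2 ω rz ζ i0 s0 B P.M).ds ε y y') :
    (facRD T G side b1 b2 ω rz ζ i0 s0 B P.M).Mv P ε 1 y y' := by
  obtain ⟨hm, t, e1, e2, l1, l2, p, q⟩ := mv_unpack he st
  have MB := H.MB
  have hh := H.h0
  have ad := fun σ => (H.ok σ).adm H.good H.h0
  have fb := fun σ => mv_F H.h0 H.mv_R (H.ok σ) p
  have ft : ∀ σ, lev T (G σ) y' - lev T (G σ) y ≤
      (G σ).F (T.w y'.1) t - (G σ).F (T.w y.1) t := fun σ => by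
    rw [q]
    linarith [l1 _ _ (ad σ), l2 _ _ (ad σ)]
  have ds : (facRD T G side b1 b2 ω rz ζ i0 s0 B P.M).ds ε y y' =
      if ε then T.w y'.1 - T.w y.1 else T.w y.1 - T.w y'.1 := rfl
  have dX : (facRD T G side b1 b2 ω rz ζ i0 s0 B P.M).dX ε y y' =
      if ε then (G (side y')).x (T.w y'.1) - (G (side y)).x (T.w y.1)
      else (G (side y)).x (T.w y.1) - (G (side y')).x (T.w y'.1) := rfl
  have pe : T.w y'.1 = T.w y.1 ∨ (ε = true ∧ T.w y'.1 = T.w y.1 + 1 ∧ D.Al (T.w y.1) t) ∨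
      (ε = false ∧ T.w y.1 = T.w y'.1 + 1 ∧ D.Al (T.w y'.1) t) := by
    rw [ds] at h0
    rcases p with p | ⟨p, a⟩ | ⟨p, a⟩
    · exact Or.inl p
    · refine Or.inr (Or.inl ⟨?_, p, a⟩)
      cases ε
      · simp only [Bool.false_eq_true, if_false] at h0; omega
      · rfl
    · refine Or.inr (Or.inr ⟨?_, p, a⟩)
      cases ε
      · rfl
      · simp only [if_true] at h0; omega
  refine ⟨h0, ?_, ?_, fun y0 k1 k2 hin => ?_⟩
  · rw [ds]
    rcases pe with p | ⟨c, p, -⟩ | ⟨c, p, -⟩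
    · split_ifs <;> omega
    · simp [c, p]
    · simp [c, p]
  · rw [Nat.cast_one, one_mul]
    by_cases g : G (side y) = G (side y')
    · have := H.mv_same p g (c := 0) (by linarith [ft (side y'), fb (side y')])
      linarith
    rcases H.sd.chg e y y' he st g with c | ⟨s1, s2, m1, m2, c⟩
    · linarith [H.mv_far hm p true (c true), H.c00]
    have w1 : |T.w y.1 - i0| ≤ 4 * B := by rw [abs_le]; omega
    have w2 : |T.w y'.1 - i0| ≤ 4 * B := by rw [abs_le]; omega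
    have al := (H.base true).al
    have d : lev T (G (side y')) y' - lev T (G (side y)) y ≤ 2 * P.h * R := by
      rcases c with c | c
      · rw [H.mv_right s1 s2 (by omega) (by omega) w1 w2, c.1]
        exact (abs_le.1 (mv_Δ hh (H.ok _) al)).2
      · have := H.mv_right s2 s1 (by omega) (by omega) w2 w1
        rw [c.2] at this
        linarith [(abs_le.1 (mv_Δ hh (H.ok (side y)) al)).1]
    have x : |(G (side y')).x (T.w y'.1) - (G (side y)).x (T.w y.1)| ≤ 2 * P.h := by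
      rw [(H.base _).xs _ w1, (H.base _).xs _ w2, abs_le]
      rcases c with c | c <;> rw [c.1, c.2] <;> push_cast <;> constructor <;> linarith
    have a := mul_le_mul_of_nonneg_left x H.RK0
    have b := mul_le_mul_of_nonneg_left d H.ω0.le
    change ω * lev T (G (side y')) y' - ω * lev T (G (side y)) y +
      P.RK * |(G (side y')).x (T.w y'.1) - (G (side y)).x (T.w y.1)| ≤ _
    linarith [H.e0]
  rw [Nat.cast_one, one_mul, ds, dX]
  change |T.w y.1 - T.w y0.1| ≤ P.M at k1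
  change |T.w y'.1 - T.w y0.1| ≤ P.M at k2
  change _ ∨ (_ ∧ _ ∧ _ ∧ _ ∧ ω * lev T (G (side y')) y' - ω * lev T (G (side y)) y ≤
    -(ω * ((G (side y0)).Y (T.w y0.1) (T.st y0.1) +
      (if ε then -1 else 1) * (rz + if Kink T i0 s0 P.M y0 then ζ else 0)) *
      ((G (side y')).x (T.w y'.1) - (G (side y)).x (T.w y.1))))
  by_cases z : T.st y0.1 = s0 ∧ |T.w y0.1 - i0| ≤ 2 * B
  · have hI : ∀ u, (facRD T G side b1 b2 ω rz ζ i0 s0 B P.M).In y0 u ↔
        T.st u.1 = s0 ∧ u.2 = y0.2 := fun u => by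
      simp only [facRD, if_pos z]
    rw [hI, hI] at hin ⊢
    obtain ⟨z1, z2⟩ := z
    have w1 : |T.w y.1 - i0| ≤ 3 * B := by rw [abs_le] at k1 z2 ⊢; omega
    have w2 : |T.w y'.1 - i0| ≤ 3 * B := by rw [abs_le] at k2 z2 ⊢; omega
    have v1 : |T.w y.1 - i0| ≤ 4 * B := by rw [abs_le] at w1 ⊢; omega
    have v2 : |T.w y'.1 - i0| ≤ 4 * B := by rw [abs_le] at w2 ⊢; omega
    rcases H.mv_base true l1 l2 p w1 w2 (q _) with c | ⟨c1, c2⟩
    · exact Or.inl (H.mv_far hm p true c)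
    have s1 : T.st y.1 = s0 := by tauto
    have s2 : T.st y'.1 = s0 := by tauto
    have fs : (G true).F (T.w y'.1) s0 - (G true).F (T.w y.1) s0 =
        (G true).F (T.w y'.1) t - (G true).F (T.w y.1) t := by
      by_cases c : T.w y'.1 = T.w y.1
      · rw [c, sub_self, sub_self]
      · rw [c2 c s1]
    have lv : lev T (G true) y' - lev T (G true) y =
        (G true).F (T.w y'.1) t - (G true).F (T.w y.1) t + (y'.2 - y.2 : ℤ) * (G true).A := by
      unfold lev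
      rw [s1, s2, ← fs]
      push_cast
      ring
    have A := H.mv_A true
    have cm0 := H.mv_cm
    rcases lt_trichotomy y'.2 y.2 with m | m | m
    · left
      refine H.mv_far hm p true ?_
      have : y'.2 - y.2 = -1 := by rw [abs_le] at hm; omega
      rw [lv, this]
      push_cast
      linarith [fb true]
    swap
    · exfalso
      have : y'.2 - y.2 = 1 := by rw [abs_le] at hm; omega
      have f := ft true
      rw [lv, this] at f
      push_cast at f
      linarith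
    have m1 : y.2 = y0.2 := by rcases hin with c | c <;> omega
    refine Or.inr ⟨⟨s1, m1⟩, ⟨s2, m.trans m1⟩, ?_⟩
    rw [(H.base _).xs _ v1, (H.base _).xs _ v2]
    rcases pe with c | ⟨rfl, c, -⟩ | ⟨rfl, c, -⟩
    · have : side y' = side y := by rw [H.sd.base y s1 v1, H.sd.base y' s2 v2, m, c]
      unfold lev
      rw [this, c, s1, s2, m]
      simp
    · have r := H.mv_right s1 s2 m c v1 v2
      have ht := (abs_le.1 (H.mv_ht z1 z2 s2 (m.trans m1) c k1 k2)).1
      unfold Geo.Δ at r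
      rw [(H.base _).xs _ v1, ← c, (H.base _).xs _ v2] at r
      rw [← mul_sub ω, r, c]
      simp only [if_true]
      push_cast
      refine ⟨by linarith, by linarith, ?_⟩
      have := mul_le_mul_of_nonneg_left ht (mul_pos H.ω0 hh).le
      linarith
    · have r := H.mv_right s2 s1 m.symm c v2 v1
      have ht := (abs_le.1 (H.mv_ht z1 z2 s1 m1 c k2 k1)).2
      unfold Geo.Δ at r
      rw [(H.base _).xs _ v2, ← c, (H.base _).xs _ v1] at r
      rw [← mul_sub ω, ← neg_sub (lev T (G (side y)) y), r, c]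
      simp only [Bool.false_eq_true, if_false]
      push_cast
      refine ⟨by linarith, by linarith, ?_⟩
      have := mul_le_mul_of_nonneg_left ht (mul_pos H.ω0 hh).le
      linarith
  have hI : ∀ u, (facRD T G side b1 b2 ω rz ζ i0 s0 B P.M).In y0 u ↔
      b2 y0 (T.st u.1) ∧ ¬ b1 y0 (T.st u.1) ∧ G (side u) = G (side y0) ∧
        (|T.w y0.1 - i0| ≤ 2 * B → T.st u.1 ≠ s0) := fun u => by
    simp only [facRD, if_neg z]
  rw [hI, hI] at hin ⊢
  by_cases g : G (side y) = G (side y')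
  swap
  · rcases H.sd.chg e y y' he st g with c | ⟨s1, s2, m1, m2, c⟩
    · exact Or.inl (H.mv_far hm p true (c true))
    · have : |T.w y0.1 - i0| ≤ 2 * B := by rw [abs_le] at k1 ⊢; omega
      rcases hin with a | a
      · exact absurd s1 (a.2.2.2 this)
      · exact absurd s2 (a.2.2.2 this)
  have g' : G (side y') = G (side y0) := by
    rcases hin with a | a
    · rw [← g, a.2.2.1]
    · exact a.2.2.1
  have Z := H.zone y0
  rw [← g'] at Z
  have a1 := l1 _ _ (ad (side y'))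
  have a2 := l2 _ _ (ad (side y'))
  have dr : ∀ b, Cut D ((G (side y')).lam D) (T.w y0.1 - 2 * P.M) (T.w y0.1 + 2 * P.M) b μ →
      (facRD T G side b1 b2 ω rz ζ i0 s0 B P.M).tot P y y' ≤ P.e0 - P.c0 ∨
        ((b (T.st y.1) ↔ b t) ∧ (b t ↔ b (T.st y'.1))) := fun b c => by
    rw [abs_le] at k1 k2
    by_cases n1 : b (T.st y.1) ↔ b t
    · by_cases n2 : b t ↔ b (T.st y'.1)
      · exact Or.inr ⟨n1, n2⟩
      · have := c.le_drop H.good H.conn H.μ0 (ad _) P.M (by omega) (by omega) l2 n2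
        have := H.mv_same p g (c := μ * P.M) (by rw [q]; linarith [fb (side y')])
        left
        linarith [H.c1]
    · have := c.le_drop H.good H.conn H.μ0 (ad _) P.M (by omega) (by omega) l1 n1
      have := H.mv_same p g (c := μ * P.M) (by rw [q]; linarith [fb (side y')])
      left
      linarith [H.c1]
  rcases dr _ Z.c1 with c | ⟨u1, u2⟩
  · exact Or.inl c
  rcases dr _ Z.c2 with c | ⟨u3, u4⟩
  · exact Or.inl c
  have bs : (facRD T G side b1 b2 ω rz ζ i0 s0 B P.M).tot P y y' ≤ P.e0 - P.c0 ∨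
      (|T.w y0.1 - i0| ≤ 2 * B → (T.st y.1 = s0 ↔ T.st y'.1 = s0)) := by
    by_cases z2 : |T.w y0.1 - i0| ≤ 2 * B
    · rcases H.mv_base true l1 l2 p (by rw [abs_le] at k1 z2 ⊢; omega)
        (by rw [abs_le] at k2 z2 ⊢; omega) (q _) with c | ⟨c1, c2⟩
      · exact Or.inl (H.mv_far hm p true c)
      · exact Or.inr fun _ => c1
    · exact Or.inr fun c => absurd c z2
  rcases bs with c | bs
  · exact Or.inl c
  have i1 : b2 y0 (T.st y.1) ∧ ¬ b1 y0 (T.st y.1) ∧ (|T.w y0.1 - i0| ≤ 2 * B → T.st y.1 ≠ s0) := by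
    rcases hin with a | a
    · exact ⟨a.1, a.2.1, a.2.2.2⟩
    · exact ⟨u3.2 (u4.2 a.1), fun c => a.2.1 (u2.1 (u1.1 c)),
        fun c d => a.2.2.2 c ((bs c).1 d)⟩
  refine Or.inr ⟨⟨i1.1, i1.2.1, g.trans g', i1.2.2⟩, ⟨u4.1 (u3.1 i1.1),
    fun c => i1.2.1 (u1.2 (u2.2 c)), g', fun c d => i1.2.2 c ((bs c).2 d)⟩, ?_⟩
  have kz : 0 ≤ if Kink T i0 s0 P.M y0 then ζ else 0 := by
    split_ifs
    · exact H.ζ0
    · exact le_rfl
  have f := mul_le_mul_of_nonneg_left (ft (side y')) H.ω0.le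
  rw [g, ← g']
  rw [abs_le] at k1 k2
  rcases pe with c | ⟨rfl, c, al⟩ | ⟨rfl, c, al⟩
  · rw [c] at f ⊢
    simp only [sub_self, ite_self, Int.cast_zero, mul_zero, neg_zero, le_refl, true_and] at f ⊢
    linarith
  · have ht := (abs_le.1 (Z.ht (T.w y.1) t (by omega) (by omega) al (u3.1 i1.1)
      fun c => i1.2.1 (u1.2 c))).1
    have x := (H.ok (side y')).xs (T.w y.1)
    rw [c, (H.ok (side y')).lev.step _ _ al] at f
    unfold Geo.Δ at f
    rw [c]
    simp only [if_true]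
    push_cast
    refine ⟨by linarith [x.1], by linarith [x.2], ?_⟩
    have := mul_le_mul_of_nonneg_left (show (G (side y')).Y (T.w y0.1) (T.st y0.1) - (rz +
      if Kink T i0 s0 P.M y0 then ζ else 0) ≤ (G (side y')).avg (T.w y.1) t by linarith)
      (mul_nonneg H.ω0.le (show 0 ≤ (G (side y')).x (T.w y.1 + 1) - (G (side y')).x (T.w y.1) by
        linarith [x.1]))
    linarith
  · have ht := (abs_le.1 (Z.ht (T.w y'.1) t (by omega) (by omega) al (u3.1 i1.1)
      fun c => i1.2.1 (u1.2 c))).2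
    have x := (H.ok (side y')).xs (T.w y'.1)
    rw [c, (H.ok (side y')).lev.step _ _ al] at f
    unfold Geo.Δ at f
    rw [c]
    simp only [Bool.false_eq_true, if_false]
    push_cast
    refine ⟨by linarith [x.1], by linarith [x.2], ?_⟩
    have := mul_le_mul_of_nonneg_left (show (G (side y')).avg (T.w y'.1) t ≤
      (G (side y')).Y (T.w y0.1) (T.st y0.1) + (rz + if Kink T i0 s0 P.M y0 then ζ else 0) by
        linarith)
      (mul_nonneg H.ω0.le (show 0 ≤ (G (side y')).x (T.w y'.1 + 1) - (G (side y')).x (T.w y'.1) by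
        linarith [x.1]))
    linarith

end Pool.Agent.Lib.MP_5a3ebe_gt.PI
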