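import Pool.Agent.Lib.MP_5a3ebe_gt.PiCut

/-! Periods and global bounds for level data. -/

set_option linter.unusedSectionVars false
set_option linter.unusedVariables false

namespace Pool.Agent.Lib.MP_5a3ebe_gt.PI

open Ap Classical

variable {κ : Type} [Fintype κ] [DecidableEq κ] {D : Diag κ}

/-- At a common end the levels differ by a multiple of the period fixed by the diagram. -/
lemma per_jump (G : D.Good) {s : κ} (hs : s ∈ D.S) (β : Bool) :
    ∃ m : ℤ, |m| ≤ 1 ∧ ∀ (A : Type) [AddCommGroup A] (Δ F : ℤ → κ → A) (a : A), D.Lev Δ F a →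
      F (D.wall (s, β)) (D.J (s, β)).1 = F (D.wall (s, β)) s + m • a := by
  have h1 := G.JS s hs β
  have h2 := G.JJ s hs β
  have h4 := G.Jw s hs β
  obtain ⟨k, hk⟩ : ∃ k, D.wall (s, β) = k + 1 := ⟨D.wall (s, β) - 1, by ring⟩
  rw [hk]
  rcases hJ : D.J (s, β) with ⟨c, β'⟩
  rw [hJ] at h1 h2 h4
  cases β <;> cases β'
  · rcases Diag.cup_of G hs hJ hk with h | h
    · refine ⟨if D.dir s then 0 else 1, by split_ifs <;> simp, fun A _ Δ F a L => ?_⟩
      rw [L.cup _ _ _ h]
      split_ifs <;> simp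
    · refine ⟨if D.dir c then 0 else -1, by split_ifs <;> simp, fun A _ Δ F a L => ?_⟩
      rw [L.cup _ _ _ h]
      split_ifs <;> simp
  · refine ⟨0, by simp, fun A _ Δ F a L => ?_⟩
    rw [L.pass k c s ⟨h1, h2, by simpa [hk] using h4⟩]
    simp
  · refine ⟨0, by simp, fun A _ Δ F a L => ?_⟩
    rw [L.pass k s c ⟨hs, hJ, hk⟩]
    simp
  · rcases Diag.cap_of G hs hJ hk with h | h
    · refine ⟨if D.dir c then 0 else -1, by split_ifs <;> simp, fun A _ Δ F a L => ?_⟩
      rw [L.cap _ _ _ h]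
      split_ifs <;> simp
    · refine ⟨if D.dir s then 0 else 1, by split_ifs <;> simp, fun A _ Δ F a L => ?_⟩
      rw [L.cap _ _ _ h]
      split_ifs <;> simp

lemma per_fwd (G : D.Good) {s : κ} (hs : s ∈ D.S) :
    D.J (s, D.dir s) = ((D.J (s, D.dir s)).1, !D.dir (D.J (s, D.dir s)).1) := by
  refine Prod.ext rfl ?_
  have h := G.Jdir s hs (D.dir s)
  revert h
  simp only
  cases (D.J (s, D.dir s)).2 <;> cases D.dir (D.J (s, D.dir s)).1 <;> cases D.dir s <;> simp

lemma per_bwd (G : D.Good) {s : κ} (hs : s ∈ D.S) :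
    D.J (s, !D.dir s) = ((D.J (s, !D.dir s)).1, D.dir (D.J (s, !D.dir s)).1) := by
  refine Prod.ext rfl ?_
  have h := G.Jdir s hs (!D.dir s)
  revert h
  simp only
  cases (D.J (s, !D.dir s)).2 <;> cases D.dir (D.J (s, !D.dir s)).1 <;> cases D.dir s <;> simp

lemma per_unit_sum (G : D.Good) {j0 : ℤ} {s0 : κ} (al : D.Al j0 s0) {F0 : ℤ → κ → ℤ} {A0 : ℤ}
    (L : D.Lev (fun k s => if k = j0 ∧ s = s0 then 1 else 0) F0 A0) :
    ∑ s ∈ D.S, (if D.dir s then F0 (D.e s) s - F0 (D.b s) s else F0 (D.b s) s - F0 (D.e s) s) =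
      if D.dir s0 then 1 else -1 := by
  have tel : ∀ s ∈ D.S, ∀ i, D.b s ≤ i → i ≤ D.e s →
      F0 i s = F0 (D.b s) s + if (D.b s ≤ j0 ∧ j0 < i) ∧ s = s0 then 1 else 0 := by
    intro s hs i hi
    induction i, hi using Int.leInduction with
    | base => intro _; rw [if_neg (fun e => by omega), add_zero]
    | succ i hi ih =>
      intro h2
      rw [L.step i s ⟨hs, hi, by omega⟩, ih (by omega), add_assoc]
      congr 1
      by_cases hb : s = s0
      · simp only [hb, and_true] at hi ⊢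
        split_ifs <;> omega
      · simp [hb]
  rw [Finset.sum_eq_single_of_mem s0 al.1 fun s hs ne => ?_]
  · have e := tel s0 al.1 _ (G.lt s0 al.1).le le_rfl
    rw [if_pos ⟨al.2, rfl⟩] at e
    split_ifs <;> omega
  · have e := tel s hs _ (G.lt s hs).le le_rfl
    rw [if_neg fun e => ne e.2] at e
    split_ifs <;> omega

/-- A function with small jumps has small oscillation on a connected diagram. -/
lemma per_conn (C : D.Conn) (f : κ → ℝ) {c : ℝ} (hc : 0 ≤ c)
    (hf : ∀ s ∈ D.S, ∀ β, |f (D.J (s, β)).1 - f s| ≤ c) {n : ℕ} (hn : Fintype.card κ ≤ n)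
    {s t : κ} (hs : s ∈ D.S) (ht : t ∈ D.S) : f t ≤ f s + n * c := by
  by_contra hlt
  rw [not_le] at hlt
  have key : ∀ k : ℕ, k ≤ n → k + 1 ≤ (Finset.univ.filter fun u => f u ≤ f s + k * c).card := by
    intro k
    induction k with
    | zero => exact fun _ => Finset.card_pos.2 ⟨s, by simp⟩
    | succ k ih =>
      intro hk
      have k0 : (0 : ℝ) ≤ k * c := by positivity
      have k1 : (k : ℝ) * c ≤ n * c :=
        mul_le_mul_of_nonneg_right (by exact_mod_cast (by omega : k ≤ n)) hc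
      have ex : ∃ u, f s + k * c < f u ∧ f u ≤ f s + (k + 1) * c := by
        by_contra hne
        have h1 := C {u | f u ≤ f s + k * c} (fun u hu β hm => by
          by_contra h2
          have h3 : f u ≤ f s + k * c := hm
          refine hne ⟨_, not_le.1 h2, ?_⟩
          linarith [(abs_le.1 (hf u hu β)).2]) s hs t ht (show f s ≤ f s + k * c by linarith)
        have h2 : f t ≤ f s + k * c := h1
        linarith
      obtain ⟨u, u1, u2⟩ := ex
      refine (Nat.succ_le_succ (ih (by omega))).trans (Finset.card_lt_card ⟨fun v hv => ?_,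
        fun e => ?_⟩)
      · simp only [Finset.mem_filter, Finset.mem_univ, true_and] at hv ⊢
        push_cast
        linarith
      · have := e (x := u) (by
          simp only [Finset.mem_filter, Finset.mem_univ, true_and]
          push_cast
          exact u2)
        simp only [Finset.mem_filter, Finset.mem_univ, true_and] at this
        linarith
  have h1 := (key n le_rfl).trans (Finset.card_le_univ _)
  omega

/-- The sum of the signed variations along the strands is a fixed multiple of the period. -/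
lemma closing (Gd : D.Good) : ∃ r : ℤ, ∀ (A : Type) [AddCommGroup A] (Δ F : ℤ → κ → A) (a : A),
    D.Lev Δ F a → ∑ s ∈ D.S, (if D.dir s then F (D.e s) s - F (D.b s) s
      else F (D.b s) s - F (D.e s) s) = r • a := by
  choose! m hm using fun s (hs : s ∈ D.S) => per_jump Gd hs (D.dir s)
  refine ⟨-∑ s ∈ D.S, m s, fun A _ Δ F a L => ?_⟩
  have e1 : ∀ s ∈ D.S, (if D.dir s then F (D.e s) s - F (D.b s) s else F (D.b s) s - F (D.e s) s)
      = F (D.wall (s, D.dir s)) s - F (D.wall (s, !D.dir s)) s := fun s _ => by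
    cases D.dir s <;> simp
  have e2 : ∀ s ∈ D.S, F (D.wall (s, D.dir s)) s =
      F (D.wall ((D.J (s, D.dir s)).1, !D.dir (D.J (s, D.dir s)).1)) (D.J (s, D.dir s)).1 -
        m s • a := fun s hs => by
    rw [← per_fwd Gd hs, Gd.Jw s hs, (hm s hs).2 A Δ F a L, add_sub_cancel_right]
  have e3 : ∑ s ∈ D.S,
      F (D.wall ((D.J (s, D.dir s)).1, !D.dir (D.J (s, D.dir s)).1)) (D.J (s, D.dir s)).1 =
      ∑ s ∈ D.S, F (D.wall (s, !D.dir s)) s := by
    refine Finset.sum_nbij' (fun s => (D.J (s, D.dir s)).1) (fun t => (D.J (t, !D.dir t)).1)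
      (fun s hs => Gd.JS s hs _) (fun s hs => Gd.JS s hs _) (fun s hs => ?_) (fun s hs => ?_)
      (fun s hs => rfl)
    · show (D.J ((D.J (s, D.dir s)).1, !D.dir (D.J (s, D.dir s)).1)).1 = s
      rw [← per_fwd Gd hs, Gd.JJ s hs]
    · show (D.J ((D.J (s, !D.dir s)).1, D.dir (D.J (s, !D.dir s)).1)).1 = s
      rw [← per_bwd Gd hs, Gd.JJ s hs]
  rw [Finset.sum_congr rfl e1, Finset.sum_sub_distrib, Finset.sum_congr rfl e2,
    Finset.sum_sub_distrib, e3, ← Finset.sum_smul, neg_smul]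
  abel

/-- Unit data on one strand have period of absolute value one. -/
lemma unit_period (Gd : D.Good) {j0 : ℤ} {s0 : κ} (al : D.Al j0 s0) {F0 : ℤ → κ → ℤ} {A0 : ℤ}
    (L : D.Lev (fun k s => if k = j0 ∧ s = s0 then 1 else 0) F0 A0) : A0 = 1 ∨ A0 = -1 := by
  obtain ⟨r, hr⟩ := closing Gd
  have h1 := hr ℤ _ F0 A0 L
  rw [per_unit_sum Gd al L, smul_eq_mul] at h1
  have h2 : IsUnit A0 := by
    split_ifs at h1
    · exact IsUnit.of_mul_eq_one_right r h1.symm
    · exact IsUnit.of_mul_eq_one_right (-r) (by linarith)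
  exact Int.isUnit_iff.1 h2

/-- Level data with small variation along each strand have small period and oscillation. -/
lemma lev_bound (Gd : D.Good) (C : D.Conn) {Δ F : ℤ → κ → ℝ} {A t : ℝ} (L : D.Lev Δ F A)
    (ht : ∀ i i' s, D.Touch i s → D.Touch i' s → |F i s - F i' s| ≤ t) {j0 : ℤ} {s0 : κ}
    (al : D.Al j0 s0) {n : ℕ} (hn : Fintype.card κ ≤ n) :
    |A| ≤ n * t ∧ ∀ i s, D.Touch i s → |F i s - F j0 s0| ≤ (n + 1) ^ 2 * (2 * t) := by
  have tb : ∀ s ∈ D.S, D.Touch (D.b s) s := fun s hs => ⟨hs, le_rfl, (Gd.lt s hs).le⟩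
  have te : ∀ s ∈ D.S, D.Touch (D.e s) s := fun s hs => ⟨hs, (Gd.lt s hs).le, le_rfl⟩
  have tw : ∀ s ∈ D.S, ∀ β, D.Touch (D.wall (s, β)) s := fun s hs β => by
    cases β
    · exact tb s hs
    · exact te s hs
  have t0 : 0 ≤ t := (abs_nonneg _).trans (ht _ _ s0 (tb s0 al.1) (tb s0 al.1))
  have n0 : (0 : ℝ) ≤ n := Nat.cast_nonneg n
  have hA : |A| ≤ n * t := by
    obtain ⟨r, hr⟩ := closing Gd
    obtain ⟨F0, A0, L0⟩ := D.exists_lev Gd C (fun k s => if k = j0 ∧ s = s0 then (1 : ℤ) else 0)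
    have h1 := hr ℤ _ F0 A0 L0
    rw [per_unit_sum Gd al L0, smul_eq_mul] at h1
    have h2 : IsUnit r := by
      split_ifs at h1
      · exact IsUnit.of_mul_eq_one A0 h1.symm
      · exact IsUnit.of_mul_eq_one (-A0) (by linarith)
    have h3 := hr ℝ Δ F A L
    have h4 : |r • A| = |A| := by
      rcases Int.isUnit_iff.1 h2 with e | e <;> simp [e]
    rw [← h4, ← h3]
    refine (Finset.abs_sum_le_sum_abs _ _).trans ?_
    refine (Finset.sum_le_card_nsmul _ _ t fun s hs => ?_).trans ?_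
    · split_ifs
      · exact ht _ _ s (te s hs) (tb s hs)
      · exact ht _ _ s (tb s hs) (te s hs)
    · rw [nsmul_eq_mul]
      refine mul_le_mul_of_nonneg_right ?_ t0
      exact_mod_cast (Finset.card_le_univ _).trans hn
  refine ⟨hA, fun i s hi => ?_⟩
  have hf : ∀ s ∈ D.S, ∀ β,
      |F (D.b (D.J (s, β)).1) (D.J (s, β)).1 - F (D.b s) s| ≤ (n + 2) * t := by
    intro s hs β
    obtain ⟨m, hm, e⟩ := per_jump Gd hs β
    have e1 := e ℝ Δ F A L
    have e2 : |m • A| ≤ n * t := by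
      rw [zsmul_eq_mul, abs_mul]
      have : |(m : ℝ)| ≤ 1 := by exact_mod_cast hm
      nlinarith [abs_nonneg A, abs_nonneg (m : ℝ)]
    have js := Gd.JS s hs β
    have e3 := ht _ _ _ (tb _ js) (tw _ js (D.J (s, β)).2)
    rw [Prod.mk.eta, Gd.Jw s hs] at e3
    have e4 := ht _ _ _ (tw s hs β) (tb s hs)
    rw [abs_le] at e2 e3 e4 ⊢
    constructor <;> linarith [e2.1, e2.2, e3.1, e3.2, e4.1, e4.2]
  have c0 : 0 ≤ ((n : ℝ) + 2) * t := by positivity
  have h1 := per_conn C (fun s => F (D.b s) s) c0 hf hn hi.1 al.1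
  have h2 := per_conn C (fun s => F (D.b s) s) c0 hf hn al.1 hi.1
  have h3 := abs_le.1 (ht _ _ _ hi (tb s hi.1))
  have h4 := abs_le.1 (ht _ _ _ (⟨al.1, al.2.1, al.2.2.le⟩ : D.Touch j0 s0) (tb s0 al.1))
  have h5 : 0 ≤ (n : ℝ) * t := by positivity
  have h6 : 0 ≤ (n : ℝ) ^ 2 * t := by positivity
  rw [abs_le]
  constructor <;> nlinarith [h3.1, h3.2, h4.1, h4.2]

/-- Two geometries with close increments have close levels. -/
lemma geo_close (Gd : D.Good) (C : D.Conn) {G G' : Geo κ} {h S R z : ℝ} (hh : 0 < h)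
    (O : G.OK D h S R) (O' : G'.OK D h S R) (hz : 0 ≤ z)
    (hc : ∀ k s, D.Al k s → |G.Δ k s - G'.Δ k s| ≤ z * h) {j0 : ℤ} {s0 : κ} (al : D.Al j0 s0)
    {n : ℕ} (hn : Fintype.card κ ≤ n) :
    |G.A - G'.A| ≤ n * (4 * R * z) ∧ ∀ i s, D.Touch i s →
      |(G.F i s - G'.F i s) - (G.F j0 s0 - G'.F j0 s0)| ≤ (n + 1) ^ 2 * (8 * R * z) := by
  have L : D.Lev (fun k s => G.Δ k s - G'.Δ k s) (fun i s => G.F i s - G'.F i s) (G.A - G'.A) := by
    refine ⟨fun k s hs => ?_, fun k s q hc => ?_, fun k s q hc => ?_, fun k s q hc => ?_⟩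
    · rw [O.lev.step k s hs, O'.lev.step k s hs]
      ring
    · rw [O.lev.pass k s q hc, O'.lev.pass k s q hc]
    · rw [O.lev.cup k s q hc, O'.lev.cup k s q hc]
      split_ifs <;> ring
    · rw [O.lev.cap k s q hc, O'.lev.cap k s q hc]
      split_ifs <;> ring
  have key : ∀ s i', D.Touch i' s → ∀ i, i' ≤ i → i ≤ D.e s →
      |(G.F i s - G'.F i s) - (G.F i' s - G'.F i' s)| ≤ 2 * z * (G.x i - G.x i') := by
    intro s i' h' i hi
    induction i, hi using Int.leInduction with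
    | base => intro _; simp
    | succ i hi ih =>
      intro h2
      have a : D.Al i s := ⟨h'.1, h'.2.1.trans hi, by omega⟩
      have e1 := L.step i s a
      have e2 := abs_le.1 (ih (by omega))
      have e3 := abs_le.1 (hc i s a)
      have e4 := mul_le_mul_of_nonneg_left (O.xs i).1 hz
      rw [e1, abs_le]
      constructor <;> nlinarith [e2.1, e2.2, e3.1, e3.2]
  have key2 : ∀ s i i', D.Touch i s → D.Touch i' s → i' ≤ i →
      |(G.F i s - G'.F i s) - (G.F i' s - G'.F i' s)| ≤ 4 * R * z := by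
    intro s i i' h1 h2 h3
    refine (key s i' h2 i h3 h1.2.2).trans ?_
    have e1 := abs_le.1 (O.bdx i s h1)
    have e2 := abs_le.1 (O.bdx i' s h2)
    nlinarith [e1.2, e2.1]
  have H := lev_bound Gd C L (t := 4 * R * z) (fun i i' s h1 h2 => by
    rcases le_total i' i with h3 | h3
    · exact key2 s i i' h1 h2 h3
    · rw [abs_sub_comm]
      exact key2 s i' i h2 h1 h3) al hn
  refine ⟨H.1, fun i s hi => (H.2 i s hi).trans_eq (by ring)⟩

/-- The period is at least the area of the corridor. -/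
lemma Geo.Base.period (Gd : D.Good) (C : D.Conn) {Γ : Type} [Fintype Γ] [DecidableEq Γ]
    {T : TC κ Γ} (Sp : T.Spec D) {G : Geo κ} {h S R gb : ℝ} {i0 : ℤ} {s0 : κ} {B : ℕ}
    (hh : 0 < h) (hgb : 0 ≤ gb) (hB : 1 ≤ B) (O : G.OK D h S R) (H : G.Base D h gb i0 s0 B) :
    8 * (gb * h * B) ≤ G.A := by
  obtain ⟨sb, hsb, hmin⟩ := Finset.exists_min_image (D.S.filter fun s => D.Al i0 s) (D.key i0)
    ⟨s0, Finset.mem_filter.2 ⟨H.al.1, H.al⟩⟩
  have ab : D.Al i0 sb := (Finset.mem_filter.1 hsb).2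
  have c := Geo.Base.cut Gd hh O H (bot := fun s => s = sb) fun s t hs ht e ne => by
    subst e
    exact lt_of_le_of_ne (hmin t (Finset.mem_filter.2 ⟨ht.1, ht⟩))
      fun e => ne (Gd.inj _ _ _ hs ht e).symm
  obtain ⟨F0, A0, L0⟩ := D.exists_lev Gd C (fun k s => if k = i0 ∧ s = sb then (1 : ℤ) else 0)
  obtain ⟨g, -⟩ := Sp.slE i0 sb ab
  obtain ⟨h1, h2⟩ := Cut.box Gd c (mul_nonneg hgb hh.le) (Geo.OK.adm Gd hh O) (j0 := i0)
    (by omega) (by omega) (F0 := F0) (A0 := A0) (by convert L0)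
    (Finset.Ico (i0 - 4 * B) (i0 + 4 * B)) fun j hj => Finset.mem_Ico.1 hj
  have h3 := Sp.nonneg g (h1 i0 (by omega) (by omega))
  have h4 : A0 = 1 := by
    rcases unit_period Gd ab L0 with e | e
    · exact e
    · rw [e] at h3
      norm_num at h3
  have h5 := Sp.nonneg g h2
  have h6 : (Finset.Ico (i0 - 4 * B) (i0 + 4 * B)).card = 8 * B := by
    rw [Int.card_Ico]
    omega
  rw [h4, h6] at h5
  push_cast at h5
  linarith

end Pool.Agent.Lib.MP_5a3ebe_gt.PI
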