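import Pool.Agent.Lib.MP_5a3ebe_gt.PiDefs

/-! Local cuts around a strand. -/

set_option linter.unusedSectionVars false
set_option linter.unusedVariables false

namespace Pool.Agent.Lib.MP_5a3ebe_gt.PI

open Ap Classical

variable {κ : Type} [Fintype κ] [DecidableEq κ] {D : Diag κ}

lemma zone_lip_nat {G : Geo κ} {h S R : ℝ} (O : G.OK D h S R) {a : ℤ} {t : κ}
    (ha : D.Touch a t) (m : ℕ) (hb : D.Touch (a + m) t) :
    |G.Y (a + m) t - G.Y a t| ≤ S * h * m := by
  induction m with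
  | zero => simp
  | succ m ih =>
    obtain ⟨hS, h1, h2⟩ := hb
    obtain ⟨_, h3, h4⟩ := ha
    push_cast at h1 h2
    have al : D.Al (a + m) t := ⟨hS, by omega, by omega⟩
    have e1 := ih ⟨hS, by omega, by omega⟩
    have e2 := O.lip _ _ al
    have e3 : a + ((m + 1 : ℕ) : ℤ) = a + m + 1 := by push_cast; ring
    rw [e3]
    have e4 := abs_sub_le (G.Y (a + m + 1) t) (G.Y (a + m) t) (G.Y a t)
    push_cast
    nlinarith

lemma zone_lip {G : Geo κ} {h S R g : ℝ} (hh : 0 < h) (hS : 0 ≤ S) (O : G.OK D h S R) {M : ℕ}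
    (h2 : S * h * (4 * M + 2) ≤ g) {a b : ℤ} {t : κ} (ha : D.Touch a t) (hb : D.Touch b t)
    (hab : |b - a| ≤ 4 * M) : |G.Y b t - G.Y a t| ≤ g := by
  have key : ∀ a b : ℤ, D.Touch a t → D.Touch b t → a ≤ b → b - a ≤ 4 * M →
      |G.Y b t - G.Y a t| ≤ g := by
    intro a b ha hb h3 h4
    obtain ⟨m, rfl⟩ := Int.le.dest h3
    have e1 := zone_lip_nat O ha m hb
    have e2 : (m : ℝ) ≤ 4 * M + 2 := by
      have : (m : ℤ) ≤ 4 * M + 2 := by omega
      exact_mod_cast this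
    have e3 : 0 ≤ S * h := mul_nonneg hS hh.le
    nlinarith
  rw [abs_le] at hab
  rcases le_total a b with h3 | h3
  · exact key a b ha hb h3 (by omega)
  · rw [abs_sub_comm]
    exact key b a hb ha h3 (by omega)

/-- The height `y` is avoided, with margin `g`, by all strands in the window. -/
def ZoneClear (D : Diag κ) (G : Geo κ) (i : ℤ) (M : ℕ) (y g : ℝ) : Prop :=
  ∀ k t, i - 2 * M ≤ k → k ≤ i + 2 * M → D.Touch k t → g ≤ |G.Y k t - y|

/-- The strands below the height `y` somewhere in the window. -/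
def zoneBot (D : Diag κ) (G : Geo κ) (i : ℤ) (M : ℕ) (y : ℝ) (t : κ) : Prop :=
  ∃ k, i - 2 * M ≤ k ∧ k ≤ i + 2 * M ∧ D.Touch k t ∧ G.Y k t < y

lemma zone_clear {G : Geo κ} {h S R g : ℝ} (hh : 0 < h) (hS : 0 ≤ S) (O : G.OK D h S R)
    {n M : ℕ} (hn : Fintype.card κ ≤ n) (hg : 0 < g) (h2 : S * h * (4 * M + 2) ≤ g) (i : ℤ)
    (y0 η : ℝ) (hη : 4 * g ≤ |η|) :
    ∃ m : ℕ, 1 ≤ m ∧ m ≤ n + 1 ∧ ZoneClear D G i M (y0 + m * η) g := by
  by_contra hno
  push Not at hno
  have hb : ∀ m : Fin (n + 1), ∃ t k, i - 2 * M ≤ k ∧ k ≤ i + 2 * M ∧ D.Touch k t ∧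
      |G.Y k t - (y0 + ((m.val + 1 : ℕ) : ℝ) * η)| < g := by
    intro m
    have := hno (m.val + 1) (by omega) (by omega)
    simp only [ZoneClear, not_forall, not_le] at this
    obtain ⟨k, t, h1, h2, h3, h4⟩ := this
    exact ⟨t, k, h1, h2, h3, h4⟩
  choose v k h1 h3 h4 h5 using hb
  obtain ⟨a, b, hab, e⟩ := Fintype.exists_ne_map_eq_of_card_lt v (by simp; omega)
  have s1 := zone_lip hh hS O h2 (h4 a) (e ▸ h4 b) (by
    have := h1 a; have := h1 b; have := h3 a; have := h3 b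
    rw [abs_le]; constructor <;> omega)
  have s4 : (1 : ℝ) ≤ |(a.val : ℝ) - b.val| := by
    have : (1 : ℤ) ≤ |(a.val : ℤ) - b.val| := by
      have : a.val ≠ b.val := fun e => hab (Fin.ext e)
      rcases lt_or_gt_of_ne this with h | h
      · rw [abs_of_neg (by omega)]; omega
      · rw [abs_of_pos (by omega)]; omega
    exact_mod_cast this
  have s5 : |((a.val : ℝ) - b.val) * η| < 4 * g := by
    have a3 := abs_lt.1 (h5 a)
    have b3 := abs_lt.1 (h5 b)
    have c3 := abs_le.1 s1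
    rw [← e] at b3
    push_cast at a3 b3
    rw [abs_lt]
    constructor <;> nlinarith
  rw [abs_mul] at s5
  nlinarith [abs_nonneg η]

lemma zone_lo {G : Geo κ} {h S R g y : ℝ} (hh : 0 < h) (hS : 0 ≤ S) (O : G.OK D h S R)
    {M : ℕ} (hg : 0 < g) (h2 : S * h * (4 * M + 2) ≤ g) {i : ℤ} (C : ZoneClear D G i M y g)
    {k : ℤ} {t : κ} (k1 : i - 2 * M ≤ k) (k2 : k ≤ i + 2 * M) (ht : D.Touch k t)
    (hb : zoneBot D G i M y t) : G.Y k t ≤ y - g := by
  obtain ⟨k', a1, a2, a3, a4⟩ := hb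
  have e1 := C k' t a1 a2 a3
  have e2 := C k t k1 k2 ht
  have e3 := abs_le.1 (zone_lip hh hS O h2 a3 ht (by rw [abs_le]; constructor <;> omega))
  rw [abs_of_neg (by linarith)] at e1
  rw [abs_of_nonpos (by linarith)] at e2
  linarith

lemma zone_hi {G : Geo κ} {g y : ℝ} {M : ℕ} {i : ℤ} (C : ZoneClear D G i M y g)
    {k : ℤ} {t : κ} (k1 : i - 2 * M ≤ k) (k2 : k ≤ i + 2 * M) (ht : D.Touch k t)
    (hb : ¬ zoneBot D G i M y t) : y + g ≤ G.Y k t := by
  have e1 : y ≤ G.Y k t := by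
    by_contra hn
    exact hb ⟨k, k1, k2, ht, not_le.1 hn⟩
  have e2 := C k t k1 k2 ht
  rw [abs_of_nonneg (by linarith)] at e2
  linarith

lemma zone_touch_wall (Gd : D.Good) {s : κ} (hs : s ∈ D.S) (β : Bool) :
    D.Touch (D.wall (s, β)) s := by
  have := Gd.lt s hs
  cases β
  · exact ⟨hs, le_rfl, this.le⟩
  · exact ⟨hs, this.le, le_rfl⟩

lemma zone_touch_l {k : ℤ} {t : κ} (h : D.Al k t) : D.Touch k t := ⟨h.1, h.2.1, h.2.2.le⟩

lemma zone_touch_r {k : ℤ} {t : κ} (h : D.Al k t) : D.Touch (k + 1) t :=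
  ⟨h.1, by have := h.2.1; omega, by have := h.2.2; omega⟩

lemma zone_cut (Gd : D.Good) {G : Geo κ} {h S R g y : ℝ} (hh : 0 < h) (hS : 0 ≤ S)
    (O : G.OK D h S R) {M : ℕ} (hg : 0 < g) (h2 : S * h * (4 * M + 2) ≤ g) {i : ℤ}
    (C : ZoneClear D G i M y g) :
    Cut D (G.lam D) (i - 2 * M) (i + 2 * M) (zoneBot D G i M y) (g * h / 2) := by
  constructor
  · intro s hs β w1 w2
    have t1 := zone_touch_wall Gd hs β
    have t2 : D.Touch (D.wall (s, β)) (D.J (s, β)).1 := by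
      have := zone_touch_wall Gd (Gd.JS s hs β) (D.J (s, β)).2
      rwa [show ((D.J (s, β)).1, (D.J (s, β)).2) = D.J (s, β) from rfl, Gd.Jw s hs β] at this
    have e := O.ev s hs β
    constructor
    · intro hb
      have := zone_lo hh hS O hg h2 C w1.le w2.le t2 hb
      exact ⟨_, w1.le, w2.le, t1, by linarith⟩
    · intro hb
      have := zone_lo hh hS O hg h2 C w1.le w2.le t1 hb
      exact ⟨_, w1.le, w2.le, t2, by linarith⟩
  · intro k s t k1 k2 as at' bs bt
    have s1 := zone_lo hh hS O hg h2 C k1 k2.le (zone_touch_l as) bs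
    have s2 := zone_lo hh hS O hg h2 C (k := k + 1) (by omega) (by omega) (zone_touch_r as) bs
    have t1 := zone_hi C k1 k2.le (zone_touch_l at') bt
    have t2 := zone_hi C (k := k + 1) (by omega) (by omega) (zone_touch_r at') bt
    constructor
    · have ne : s ≠ t := fun e => bt (e ▸ bs)
      rcases Diag.key_ne Gd as at' ne with e | e
      · exact e
      · have := (O.ord k t s at' as e).1
        linarith
    · have e1 := O.lev.step k s as
      have e2 := O.lev.step k t at'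
      have x1 := (O.xs k).1
      simp only [Geo.lam, e1, e2, Geo.Δ, Geo.avg]
      have : g * h ≤ ((G.Y k t + G.Y (k + 1) t) / 2 - (G.Y k s + G.Y (k + 1) s) / 2) *
          (G.x (k + 1) - G.x k) := by
        have a1 : 2 * g ≤ (G.Y k t + G.Y (k + 1) t) / 2 - (G.Y k s + G.Y (k + 1) s) / 2 := by
          linarith
        calc g * h = (2 * g) * (h / 2) := by ring
          _ ≤ _ := mul_le_mul a1 x1 (by linarith) (by linarith)
      have p : 0 < g * h := mul_pos hg hh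
      nlinarith

theorem exists_zone (Gd : D.Good) {G : Geo κ} {h S R g rz : ℝ} (hh : 0 < h) (hS : 0 ≤ S)
    (O : G.OK D h S R) {n M : ℕ} (hn : Fintype.card κ ≤ n) (hg : 0 < g)
    (h1 : 8 * (n + 2) * g ≤ rz) (h2 : S * h * (4 * M + 2) ≤ g) {i : ℤ} {s : κ}
    (ht : D.Touch i s) : ∃ b1 b2, Zn D G i s M (g * h / 2) rz b1 b2 := by
  obtain ⟨m1, a1, a2, C1⟩ := zone_clear hh hS O hn hg h2 i (G.Y i s) (-(4 * g))
    (by rw [abs_neg, abs_of_pos (by linarith)])
  obtain ⟨m2, c1, c2, C2⟩ := zone_clear hh hS O hn hg h2 i (G.Y i s) (4 * g)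
    (by rw [abs_of_pos (by linarith)])
  have a1' : (1 : ℝ) ≤ m1 := by exact_mod_cast a1
  have a2' : (m1 : ℝ) ≤ n + 1 := by exact_mod_cast a2
  have c1' : (1 : ℝ) ≤ m2 := by exact_mod_cast c1
  have c2' : (m2 : ℝ) ≤ n + 1 := by exact_mod_cast c2
  have n0 : (0 : ℝ) ≤ n := Nat.cast_nonneg n
  refine ⟨_, _, zone_cut Gd hh hS O hg h2 C1, zone_cut Gd hh hS O hg h2 C2, ?_, ?_, ?_⟩
  · intro hb
    have := zone_lo hh hS O hg h2 C1 (by omega) (by omega) ht hb
    nlinarith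
  · exact ⟨i, by omega, by omega, ht, by nlinarith⟩
  · intro k t k1 k2 al hb2 hb1
    have s1 := zone_lo hh hS O hg h2 C2 k1 k2.le (zone_touch_l al) hb2
    have s2 := zone_lo hh hS O hg h2 C2 (k := k + 1) (by omega) (by omega) (zone_touch_r al) hb2
    have t1 := zone_hi C1 k1 k2.le (zone_touch_l al) hb1
    have t2 := zone_hi C1 (k := k + 1) (by omega) (by omega) (zone_touch_r al) hb1
    have u1 : (m1 : ℝ) * (4 * g) ≤ (n + 1) * (4 * g) :=
      mul_le_mul_of_nonneg_right a2' (by linarith)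
    have u2 : (m2 : ℝ) * (4 * g) ≤ (n + 1) * (4 * g) :=
      mul_le_mul_of_nonneg_right c2' (by linarith)
    have u3 : 0 ≤ (n : ℝ) * g := mul_nonneg n0 hg.le
    rw [Geo.avg, abs_le]
    constructor <;> nlinarith

lemma zone_abs {h ε : ℝ} (hh : 0 < h) {B : ℕ} (hB : 4 * B * h ≤ ε) {i i0 : ℤ}
    (hi : |i - i0| ≤ 4 * B) : |h * i - h * i0| ≤ ε := by
  have e : (|(i : ℝ) - i0|) ≤ 4 * B := by exact_mod_cast hi
  rw [← mul_sub, abs_mul, abs_of_pos hh]
  nlinarith

lemma Geo.Frame.base {G : Geo κ} {h S R ε gb xs ys sl : ℝ} {i0 : ℤ} {s0 : κ} (hh : 0 < h)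
    (H : G.Frame D h S R ε gb xs ys sl i0 s0) {B : ℕ} (hB : 4 * B * h ≤ ε) :
    G.Base D h gb i0 s0 B := by
  have x0 := H.x0
  refine ⟨?_, H.al, ?_, ?_⟩
  · intro s hs β
    by_contra hn
    push Not at hn
    have e1 := H.quiet s hs β
    have e2 := zone_abs hh hB (i := D.wall (s, β)) (i0 := i0) (by
      rw [abs_le]; constructor <;> omega)
    rw [x0] at e1
    linarith
  · intro k s t k1 k2 as at' hk
    refine H.gap k s t ?_ ?_ as at' hk
    · rw [x0]
      exact zone_abs hh hB (by rw [abs_le]; constructor <;> omega)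
    · rw [x0]
      have := zone_abs hh hB (i := k + 1) (i0 := i0) (by rw [abs_le]; constructor <;> omega)
      push_cast at this
      exact this
  · intro i hi
    exact H.xx i (by rw [x0]; exact zone_abs hh hB hi)

lemma Geo.Frame.mono {G : Geo κ} {h S R ε gb xs ys sl S' R' ε' gb' : ℝ} {i0 : ℤ} {s0 : κ}
    (hh : 0 < h) (H : G.Frame D h S R ε gb xs ys sl i0 s0) (h1 : S ≤ S') (h2 : R ≤ R')
    (h3 : ε' ≤ ε) (h4 : gb' ≤ gb) : G.Frame D h S' R' ε' gb' xs ys sl i0 s0 := by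
  refine ⟨⟨H.ok.lev, H.ok.xs, H.ok.ord, fun k s a => (H.ok.lip k s a).trans
    (mul_le_mul_of_nonneg_right h1 hh.le), H.ok.ev, fun i s a => (H.ok.bdY i s a).trans h2,
    fun i s a => (H.ok.bdx i s a).trans h2⟩, H.x0, fun s hs β => h3.trans_lt (H.quiet s hs β),
    H.al, fun k s t a b c d e => h4.trans (H.gap k s t (a.trans h3) (b.trans h3) c d e),
    fun i a => H.xx i (a.trans h3), fun i a => H.ht i (a.trans h3)⟩

lemma zone_step {G : Geo κ} {h S R ε gb xs ys sl : ℝ} {i0 : ℤ} {s0 : κ} (hh : 0 < h)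
    (H : G.Frame D h S R ε gb xs ys sl i0 s0) (q : ℤ) (q1 : |h * q| ≤ ε)
    (q2 : |h * (q + 1)| ≤ ε) :
    G.F (i0 + q + 1) s0 = G.F (i0 + q) s0 - (ys * h + sl * h ^ 2 * (2 * q + 1) / 2) := by
  have x0 := H.x0
  obtain ⟨hS, hb, he⟩ := H.al
  have b1 := H.quiet s0 hS false
  have e1 := H.quiet s0 hS true
  simp only [Diag.wall_false, Diag.wall_true, x0] at b1 e1
  have hb' : (D.b s0 : ℝ) ≤ i0 := by exact_mod_cast hb
  have he' : (i0 : ℝ) ≤ D.e s0 := by exact_mod_cast he.le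
  rw [abs_of_nonpos (by nlinarith)] at b1
  rw [abs_of_nonneg (by nlinarith)] at e1
  have q1' := abs_le.1 q1
  have al : D.Al (i0 + q) s0 := by
    refine ⟨hS, ?_, ?_⟩
    · have : (D.b s0 : ℝ) < i0 + q := by
        by_contra hn
        push Not at hn
        nlinarith
      have : D.b s0 < i0 + q := by exact_mod_cast this
      exact this.le
    · have : (i0 : ℝ) + q < D.e s0 := by
        by_contra hn
        push Not at hn
        nlinarith
      exact_mod_cast this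
  have c1 : |h * ((i0 + q : ℤ) : ℝ) - xs| ≤ ε := by
    rw [x0]; push_cast
    rwa [show h * (i0 + q) - h * i0 = h * q by ring]
  have c2 : |h * ((i0 + q + 1 : ℤ) : ℝ) - xs| ≤ ε := by
    rw [x0]; push_cast
    rwa [show h * (i0 + q + 1) - h * i0 = h * (q + 1) by ring]
  rw [H.ok.lev.step _ _ al, Geo.Δ, Geo.avg, H.xx _ c1, H.xx _ c2, H.ht _ c1, H.ht _ c2, x0]
  push_cast
  ring

/-- The level along the base strand is a quadratic function of the position. -/
lemma Geo.Frame.level {G : Geo κ} {h S R ε gb xs ys sl : ℝ} {i0 : ℤ} {s0 : κ} (hh : 0 < h)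
    (H : G.Frame D h S R ε gb xs ys sl i0 s0) (q : ℤ) (hq : |h * q| ≤ ε) :
    G.F (i0 + q) s0 = G.F i0 s0 - (ys * (h * q) + sl * (h * q) ^ 2 / 2) := by
  induction q using Int.induction_on with
  | zero => simp
  | succ m ih =>
    have m0 : (0 : ℝ) ≤ m := Nat.cast_nonneg m
    push_cast at hq ih
    have q1 : |h * (m : ℝ)| ≤ ε := by
      rw [abs_of_nonneg (by positivity)] at hq ⊢
      nlinarith
    have e := zone_step hh H (m : ℤ) (by push_cast; exact q1) (by push_cast; exact hq)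
    rw [← add_assoc, e, ih q1]
    push_cast
    ring
  | pred m ih =>
    have m0 : (0 : ℝ) ≤ m := Nat.cast_nonneg m
    push_cast at hq ih
    have q1 : |h * (-(m : ℝ))| ≤ ε := by
      rw [abs_of_nonpos (by nlinarith)] at hq ⊢
      nlinarith
    have e := zone_step hh H (-(m : ℤ) - 1) (by push_cast; exact hq)
      (by push_cast; rw [sub_add_cancel]; exact q1)
    rw [show i0 + (-(m : ℤ) - 1) + 1 = i0 + -(m : ℤ) by ring, ih q1] at e
    push_cast at e ⊢
    linarith [e]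

end Pool.Agent.Lib.MP_5a3ebe_gt.PI
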