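import Pool.Agent.Lib.MP_5a3ebe_gt.PiFrame
import Pool.Agent.Lib.MP_5a3ebe_gt.PiField
import Pool.Agent.Lib.MP_5a3ebe_gt.PiBase
import Pool.Agent.Lib.MP_5a3ebe_gt.PiNC
import Pool.Agent.Lib.MP_5a3ebe_gt.PiZone

/-! The theorem for polygons. -/

set_option linter.unusedSectionVars false
set_option linter.unusedVariables false

namespace Pool.Agent.Lib.MP_5a3ebe_gt.PI

open Ap Classical

lemma poly_lev0 {κ : Type} [Fintype κ] [DecidableEq κ] {D : Diag κ} (Gd : D.Good) (C : D.Conn)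
    (Δ : ℤ → κ → ℝ) (i0 : ℤ) (s0 : κ) : ∃ F A, D.Lev Δ F A ∧ F i0 s0 = 0 := by
  obtain ⟨F, A, L⟩ := D.exists_lev Gd C Δ
  refine ⟨fun k s => F k s - F i0 s0, A, ⟨fun k s h => ?_, fun k s q h => ?_, fun k s q h => ?_,
    fun k s p h => ?_⟩, sub_self _⟩
  · simp only [L.step k s h]; ring
  · simp only [L.pass k s q h]
  · simp only [L.cup k s q h]; ring
  · simp only [L.cap k s p h]; ring

lemma poly_mem {n : ℕ} {z : ZMod n → ℂ} (hn : 3 ≤ n)
    (hi : ∀ i j, (z i).re = (z j).re → i = j) (g : ℝ → ℝ) (ψ : ZMod n → ℝ → ℝ) {s : ZMod n}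
    {x : ℝ} (hu : Under z s x) : disp z g ψ 0 s x ∈ segment ℝ (z s) (z (s + 1)) := by
  rw [mem_seg_iff hn hi]
  simp only [disp, zero_mul, add_zero]
  exact ⟨hu, trivial⟩

lemma poly_mis {ι : Type} [Fintype ι] [DecidableEq ι] (Sm : Matrix ι ι ℝ) (ω : ι → ℝ) (l : ι)
    (w : ι → ℂ) (x Y : ι → ℝ) (hx : ∀ i, (fr l i * w i).re = x i)
    (hY : ∀ i, (fr l i * w i).im = Y i) (i : ι) :
    mis Sm ω l w i = Sm.mulVec x i - ω i * Y i := by
  unfold mis
  rw [hY i, show (fun k => (fr l k * w k).re) = x from funext hx]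

lemma poly_fr_norm {ι : Type} [DecidableEq ι] (l i : ι) : ‖fr l i‖ = 1 := by
  unfold fr
  split_ifs <;> simp

lemma poly_fr_re {ι : Type} [DecidableEq ι] (l i : ι) (a b : ℂ) :
    |(fr l i * a).re - (fr l i * b).re| ≤ ‖a - b‖ := by
  rw [← Complex.sub_re, ← mul_sub]
  refine (Complex.abs_re_le_norm _).trans ?_
  rw [norm_mul, poly_fr_norm, one_mul]

lemma poly_turn (a : ℂ) : -Complex.I * (Complex.I * a) = a := by
  rw [← mul_assoc, neg_mul, Complex.I_mul_I, neg_neg, one_mul]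

lemma poly_turn' (a : ℂ) : Complex.I * (-Complex.I * a) = a := by
  rw [← mul_assoc, mul_neg, Complex.I_mul_I, neg_neg, one_mul]

theorem poly_thm (hc : CoreSt) : PolySt := by
  intro ι _ _ V ω j i1 l H hij hlj hli hω
  obtain ⟨ϑ, hϑ, hloc⟩ := nc_loc H hij
  refine ⟨ϑ, hϑ, fun ρ hρ n _ z hg G hF => ?_⟩
  by_contra hcon
  have hloc' := hloc (polySet z) ρ hρ hF
  have hno : ∀ v ∈ V, (∀ i, v i ∈ polySet z) → ∀ i k, v i = v k := by
    intro v hv hP i k
    have h1 : ∀ i, ‖v i - v i1‖ ≤ ρ / 2 := fun i => not_lt.1 fun h => hcon ⟨v, hv, hP, i, h⟩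
    have h2 := hloc' v hv (fun i _ => hP i) h1
    rw [h2 i, h2 k]
  obtain ⟨Sm, hSm, hV⟩ := H.frame l
  obtain ⟨s0, q, a, b, hq, hu, heh, hxa, hyb, hlow⟩ := exists_base G
  obtain ⟨xs0, hxs0⟩ : ∃ x, x = hg / q * a := ⟨_, rfl⟩
  obtain ⟨ys0, hys0⟩ : ∃ x, x = hg / q * b := ⟨_, rfl⟩
  rw [← hxs0] at hu heh hxa hlow
  rw [← hys0] at heh hyb hlow
  obtain ⟨P0, hP0⟩ : ∃ p : ℂ, p = ⟨xs0, ys0⟩ := ⟨_, rfl⟩
  have hP0re : P0.re = xs0 := by rw [hP0]
  have hP0im : P0.im = ys0 := by rw [hP0]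
  have hP0s : P0 ∈ segment ℝ (z s0) (z (s0 + 1)) := by
    rw [mem_seg_iff G.three G.re, hP0re, hP0im]
    exact ⟨hu, heh.symm⟩
  have hsub : ∀ s p, p ∈ segment ℝ (z s) (z (s + 1)) → p ∈ polySet z := fun s p hp =>
    Set.mem_iUnion.2 ⟨s, hp⟩
  obtain ⟨z', hz'⟩ : ∃ z' : ZMod n → ℂ, z' = fun v => -Complex.I * z v := ⟨_, rfl⟩
  have G' : GP z' hg := hz' ▸ G.turn
  have hturn : ∀ s p, p ∈ segment ℝ (z' s) (z' (s + 1)) ↔
      Complex.I * p ∈ segment ℝ (z s) (z (s + 1)) := by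
    intro s p
    rw [hz']
    exact seg_turn
  have hz're : ∀ v, (z' v).re = (z v).im := by
    intro v
    rw [hz']
    simp
  have hP0' : Under z' s0 ys0 ∧ -xs0 = eh z' s0 ys0 := by
    have h1 : -Complex.I * P0 ∈ segment ℝ (z' s0) (z' (s0 + 1)) := by
      rw [hturn, poly_turn']
      exact hP0s
    rw [mem_seg_iff G'.three G'.re] at h1
    have e1 : (-Complex.I * P0).re = ys0 := by simp [hP0im]
    have e2 : (-Complex.I * P0).im = -xs0 := by simp [hP0re]
    rwa [e1, e2] at h1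
  obtain ⟨g, ψ, C, ε1, l0, l1, t0, hε1, ht0, hl0, hfl, hdisj⟩ :=
    exists_field z G.three G.simple G.re xs0 hxa s0
  obtain ⟨S, R, ε, gb, t1, C', sl, hS, hR, hε, hgb, ht1, hC', hfr⟩ :=
    frame_of_field G.three G.simple G.re hε1 hfl hxa hu
  obtain ⟨S', R', ε', gb', t1', C'', sl', hS', hR', hε', hgb', ht1', hC'', hfr'⟩ :=
    frame_of_field G'.three G'.simple G'.re one_pos (fld_zero z' ys0 1 s0)
      (fun v => by rw [hz're]; exact hyb v) hP0'.1
  obtain ⟨d, hd, haway⟩ := away_edges G.simple hP0s fun v e => hxa v (by rw [e, hP0re])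
  have hεm : 0 < min ε ε' := lt_min hε hε'
  obtain ⟨γ1, hγ1, hfar⟩ := nc_far hV (isCompact_polySet z) hno j
    (lt_min hd (by positivity : 0 < min ε ε' / 8))
  have hxre : ∀ i, (fr l i * P0).re = if i = l then ys0 else xs0 := by
    intro i
    unfold fr
    split_ifs <;> simp [hP0re, hP0im]
  have hxim : ∀ i, (fr l i * P0).im = if i = l then -xs0 else ys0 := by
    intro i
    unfold fr
    split_ifs <;> simp [hP0re, hP0im]
  have hcst : ∀ i, Sm.mulVec (fun i => if i = l then ys0 else xs0) i =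
      ω i * (fun i => if i = l then -xs0 else ys0) i := by
    intro i
    have h1 : (fun _ : ι => P0) ∈ V := by
      have := V.smul_mem P0 H.one
      convert this using 1
      funext k
      simp
    have h2 := (hV _).1 h1 i
    rw [poly_mis Sm ω l _ _ _ hxre hxim] at h2
    exact sub_eq_zero.1 h2
  obtain ⟨η0, hη0, hc1⟩ := hc ι j i1 ω Sm n (max S S') (max R R') (min ε ε') (min gb gb') γ1
    (max C C') l0 l1 (fun i => if i = l then ys0 else xs0) (fun i => if i = l then -xs0 else ys0)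
    (fun i => if i = l then sl' else sl) hij H.ne hω hSm (lt_max_of_lt_left hS)
    (lt_max_of_lt_left hR) hεm (lt_min hgb hgb') hγ1 (le_max_of_le_right hC') (hl0 hu) hcst
  obtain ⟨η1, hη1, hdsp⟩ := nc_disp hV (isCompact_polySet z) hno hij hρ hloc'
  have hC0 := hfl.C0
  obtain ⟨η, hη, e0, e1, e2, e3⟩ : ∃ η : ℝ, 0 < η ∧ η ≤ η0 ∧ η ≤ t0 ∧ η ≤ t1 ∧
      2 * C * η ≤ η1 := by
    refine ⟨min (min η0 t0) (min t1 (η1 / (2 * C + 1))), by positivity,
      (min_le_left _ _).trans (min_le_left _ _), (min_le_left _ _).trans (min_le_right _ _),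
      (min_le_right _ _).trans (min_le_left _ _), ?_⟩
    have h1 : min (min η0 t0) (min t1 (η1 / (2 * C + 1))) ≤ η1 / (2 * C + 1) :=
      (min_le_right _ _).trans (min_le_right _ _)
    have h2 : 0 < min (min η0 t0) (min t1 (η1 / (2 * C + 1))) := by positivity
    rw [le_div_iff₀ (by positivity)] at h1
    nlinarith
  have habs : ∀ σ : Bool, |(if σ then η else -η : ℝ)| = η := by
    intro σ
    cases σ <;> simp [abs_of_pos hη]
  obtain ⟨γ, hγ, hK⟩ := hdsp ({a | ∃ s x, Under z s x ∧ a = disp z g ψ η s x} ∪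
      {a | ∃ s x, Under z s x ∧ a = disp z g ψ (-η) s x})
    ((disp_set G.three G.re hfl η).1.union (disp_set G.three G.re hfl (-η)).1) (by
      rintro p (⟨s, x, hx, rfl⟩ | ⟨s, x, hx, rfl⟩)
      · refine ⟨hdisj η hη.ne' (by rwa [abs_of_pos hη]) s x hx, ?_⟩
        obtain ⟨p, hp, e⟩ := (disp_set G.three G.re hfl η).2 s x hx
        rw [abs_of_pos hη] at e
        exact ⟨p, hp, e.trans e3⟩
      · refine ⟨hdisj (-η) (neg_ne_zero.2 hη.ne') (by rwa [abs_neg, abs_of_pos hη]) s x hx, ?_⟩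
        obtain ⟨p, hp, e⟩ := (disp_set G.three G.re hfl (-η)).2 s x hx
        rw [abs_neg, abs_of_pos hη] at e
        exact ⟨p, hp, e.trans e3⟩)
  obtain ⟨h0, hh0, hc2⟩ := hc1 η hη e0 γ hγ
  have hg0 := G.hg0
  have hq0 : (0 : ℝ) < q := by exact_mod_cast hq
  obtain ⟨N, hN⟩ := exists_nat_gt (hg / q / h0)
  have hN0 : (0 : ℝ) < N := lt_trans (by positivity) hN
  obtain ⟨h, hh⟩ : ∃ h : ℝ, h = hg / q / N := ⟨_, rfl⟩
  have hh1 : 0 < h := by rw [hh]; positivity
  have hh2 : h ≤ h0 := by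
    rw [hh, div_le_iff₀ hN0]
    rw [div_lt_iff₀ hh0] at hN
    linarith
  choose A B hAB using G.grid
  obtain ⟨X, hX⟩ : ∃ X : ZMod n → ℤ, ∀ i, (z i).re = h * X i := by
    refine ⟨fun i => q * N * A i, fun i => ?_⟩
    rw [(hAB i).1, hh]
    push_cast
    field_simp
  obtain ⟨X', hX'⟩ : ∃ X : ZMod n → ℤ, ∀ i, (z' i).re = h * X i := by
    refine ⟨fun i => q * N * B i, fun i => ?_⟩
    rw [hz're, (hAB i).2, hh]
    push_cast
    field_simp
  obtain ⟨ia, hia⟩ : ∃ ia : ℤ, xs0 = h * ia := by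
    refine ⟨N * a, ?_⟩
    rw [hxs0, hh]
    push_cast
    field_simp
  obtain ⟨ib, hib⟩ : ∃ ib : ℤ, ys0 = h * ib := by
    refine ⟨N * b, ?_⟩
    rw [hys0, hh]
    push_cast
    field_simp
  have hgood := poly_good z h X G.three G.simple G.re hh1 hX
  have hgood' := poly_good z' h X' G'.three G'.simple G'.re hh1 hX'
  choose FF AA hFA using fun t : ℝ =>
    poly_lev0 hgood.1 hgood.2 (pgeo z g ψ h t 0 0).Δ ia s0
  obtain ⟨F', A', hF', -⟩ := poly_lev0 hgood'.1 hgood'.2
    (pgeo z' (fun _ => 0) (fun _ _ => 0) h 0 0 0).Δ ib s0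
  obtain ⟨tt, htt⟩ : ∃ tt : ι → Bool → ℝ,
      tt = fun i σ => if i = j then (if σ then η else -η) else 0 := ⟨_, rfl⟩
  have ttj : ∀ σ, tt j σ = if σ then η else -η := fun σ => by simp [htt]
  have ttn : ∀ i σ, i ≠ j → tt i σ = 0 := fun i σ hi => by simp [htt, hi]
  have tta : ∀ i σ, |tt i σ| ≤ η := by
    intro i σ
    by_cases hi : i = j
    · rw [hi, ttj, habs]
    · rw [ttn i σ hi, abs_zero]; exact hη.le
  obtain ⟨D, hD⟩ : ∃ D : ι → Diag (ZMod n),
      D = fun i => if i = l then polyDiag z' h X' else polyDiag z h X := ⟨_, rfl⟩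
  obtain ⟨GG, hGG⟩ : ∃ GG : ι → Bool → Geo (ZMod n), GG = fun i σ =>
      if i = l then pgeo z' (fun _ => 0) (fun _ _ => 0) h 0 F' A'
      else pgeo z g ψ h (tt i σ) (FF (tt i σ)) (AA (tt i σ)) := ⟨_, rfl⟩
  have Dl : D l = polyDiag z' h X' := by simp [hD]
  have Dn : ∀ i, i ≠ l → D i = polyDiag z h X := fun i hi => by simp [hD, hi]
  have Gl : ∀ σ, GG l σ = pgeo z' (fun _ => 0) (fun _ _ => 0) h 0 F' A' := fun σ => by
    simp [hGG]
  have Gn : ∀ i σ, i ≠ l → GG i σ = pgeo z g ψ h (tt i σ) (FF (tt i σ)) (AA (tt i σ)) :=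
    fun i σ hi => by simp [hGG, hi]
  have hjl : j ≠ l := hlj.symm
  have hil : i1 ≠ l := hli.symm
  -- the points of the plane attached to a configuration
  obtain ⟨pt, hpt⟩ : ∃ pt : ι → Bool → ℤ → ZMod n → ℂ, pt = fun (i : ι) (σ : Bool) (k : ℤ) s =>
      if i = l then Complex.I * disp z' (fun _ => 0) (fun _ _ => 0) 0 s (h * k)
      else disp z g ψ (tt i σ) s (h * k) := ⟨_, rfl⟩
  have ptx : ∀ i σ k s, (fr l i * pt i σ k s).re = (GG i σ).x k := by
    intro i σ k s
    by_cases hi : i = l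
    · subst hi
      rw [Gl]
      simp only [hpt, fr, if_true, poly_turn]
      rfl
    · rw [Gn i σ hi]
      simp only [hpt, fr, if_neg hi, one_mul]
      rfl
  have ptY : ∀ i σ k s, (fr l i * pt i σ k s).im = (GG i σ).Y k s := by
    intro i σ k s
    by_cases hi : i = l
    · subst hi
      rw [Gl]
      simp only [hpt, fr, if_true, poly_turn]
      rfl
    · rw [Gn i σ hi]
      simp only [hpt, fr, if_neg hi, one_mul]
      rfl
  have ptx0 : ∀ i σ k, i ≠ j → (GG i σ).x k = h * k := by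
    intro i σ k hi
    by_cases hl : i = l
    · subst hl
      rw [Gl]
      simp [pgeo, disp]
    · rw [Gn i σ hl, ttn i σ hi]
      simp [pgeo, disp]
  have ptm : ∀ i σ k s, i ≠ j → (D i).Touch k s →
      pt i σ k s ∈ segment ℝ (z s) (z (s + 1)) := by
    intro i σ k s hi ht
    by_cases hl : i = l
    · subst hl
      rw [Dl, under_iff hh1 hX'] at ht
      simp only [hpt, if_true]
      rw [← hturn]
      exact poly_mem G'.three G'.re _ _ ht
    · rw [Dn i hl, under_iff hh1 hX] at ht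
      simp only [hpt, if_neg hl, ttn i σ hi]
      exact poly_mem G.three G.re _ _ ht
  refine hc2 h hh1 hh2 (ZMod n) (ZMod.card n).le D GG (fun i => if i = l then ib else ia)
    (fun _ => s0) ?_ ?_ ?_ ?_ ?_ ?_ ?_ ?_ ?_ ?_
  · intro i
    by_cases hi : i = l
    · rw [hi, Dl]; exact hgood'
    · rw [Dn i hi]; exact hgood
  · intro i hi
    by_cases hl : i = l
    · rw [hl, Gl, Gl]
    · rw [Gn i _ hl, Gn i _ hl, ttn i _ hi, ttn i _ hi]
  · intro i σ
    by_cases hl : i = l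
    · subst hl
      have := ((hfr' h X' ib hh1 hX' hib 0 (by rw [abs_zero]; exact ht1'.le)).1 F' A' hF').mono
        hh1 (le_max_right S S') (le_max_right R R') (min_le_right ε ε') (min_le_right gb gb')
      rw [← hP0'.2] at this
      rw [Gl, Dl]
      simpa only [if_true, if_neg hlj, mul_zero] using this
    · have := ((hfr h X ia hh1 hX hia (tt i σ) ((tta i σ).trans e2)).1 _ _ (hFA _).1).mono
        hh1 (le_max_left S S') (le_max_left R R') (min_le_left ε ε') (min_le_left gb gb')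
      rw [heh] at this
      rw [Gn i σ hl, Dn i hl]
      have e : ∀ c : ℝ, (if i = j then (if σ then η else -η) * c else 0) = tt i σ * c := by
        intro c
        by_cases hi : i = j
        · rw [if_pos hi, hi, ttj]
        · rw [if_neg hi, ttn i σ hi, zero_mul]
      simpa only [if_neg hl, e] using this
  · simp only [if_neg hjl]
    rw [Dn j hjl]
    refine lowest_key G.three G.simple G.re hh1 hX (by rw [← hia]; exact hxa)
      (by rw [← hia]; exact hu) ?_
    rw [← hia, heh]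
    exact hlow
  · rw [Dn _ hil, Dn _ hjl]
  · simp only [if_neg hjl]
    rw [Gn j _ hjl, Gn j _ hjl]
    exact (hFA _).2.trans (hFA _).2.symm
  · intro σ i
    rw [ptx0 i1 true i hij, Gn j σ hjl]
    simp only [pgeo, disp, add_sub_cancel_left, abs_mul]
    rw [mul_comm]
    exact mul_le_mul ((hfl.gbd _).trans (le_max_left _ _)) (tta j σ) (abs_nonneg _)
      (le_max_of_le_left hC0)
  · intro σ k s hal
    rw [Dn j hjl] at hal
    rw [Gn j σ hjl, Gn i1 true hil, ttn i1 true hij]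
    refine ((hfr h X ia hh1 hX hia (tt j σ) ((tta j σ).trans e2)).2 k s hal).trans ?_
    exact mul_le_mul_of_nonneg_right (mul_le_mul (le_max_right _ _) (tta j σ) (abs_nonneg _)
      (le_max_of_le_left hC0)) hh1.le
  · rintro k s ht ⟨i, hi, hne⟩
    obtain ⟨m, hm⟩ := hfar (fun i => if i = j then P0 else pt i true (k i) (s i)) (by
      intro m
      by_cases hm : m = j
      · simp only [if_pos hm]; exact hsub _ _ hP0s
      · simp only [if_neg hm]; exact hsub _ _ (ptm m true _ _ hm (ht m hm))) (by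
      refine ⟨i, ?_⟩
      simp only [if_neg hi, if_true]
      by_cases hs : s i = s0
      · have h1 : min ε ε' / 8 < |h * k i - if i = l then ys0 else xs0| :=
          not_le.1 fun e => hne ⟨hs, e⟩
        have h2 := poly_fr_re l i (pt i true (k i) (s i)) P0
        rw [ptx, ptx0 i true _ hi, hxre] at h2
        exact (min_le_right _ _).trans (h1.le.trans h2)
      · exact (min_le_left _ _).trans (haway _ hs _ (ptm i true _ _ hi (ht i hi))))
    refine ⟨m, ?_⟩
    rwa [poly_mis Sm ω l _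
      (fun m => if m = j then (if j = l then ys0 else xs0) else (GG m true).x (k m))
      (fun m => if m = j then (if j = l then -xs0 else ys0) else (GG m true).Y (k m) (s m))
      (fun m => by
        by_cases hm : m = j
        · simp only [if_pos hm]; rw [hxre, hm]
        · simp only [if_neg hm]; exact ptx _ _ _ _)
      (fun m => by
        by_cases hm : m = j
        · simp only [if_pos hm]; rw [hxim, hm]
        · simp only [if_neg hm]; exact ptY _ _ _ _)] at hm
  · intro σ k s ht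
    obtain ⟨m, hm⟩ := hK (fun i => pt i σ (k i) (s i))
      (fun i hi => hsub _ _ (ptm i σ _ _ hi (ht i))) (by
        have h1 := ht j
        rw [Dn j hjl, under_iff hh1 hX] at h1
        simp only [hpt, if_neg hjl, ttj]
        cases σ
        · exact Or.inr ⟨_, _, h1, by simp⟩
        · exact Or.inl ⟨_, _, h1, by simp⟩)
    refine ⟨m, ?_⟩
    rwa [poly_mis Sm ω l _ (fun m => (GG m σ).x (k m)) (fun m => (GG m σ).Y (k m) (s m))
      (fun m => ptx _ _ _ _) (fun m => ptY _ _ _ _)] at hm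

end Pool.Agent.Lib.MP_5a3ebe_gt.PI
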