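import Pool.Agent.Lib.MP_5a3ebe_gt.PiDefs

/-! Edges of a polygon, and the turned polygon. -/

set_option linter.unusedSectionVars false
set_option linter.unusedVariables false

namespace Pool.Agent.Lib.MP_5a3ebe_gt.PI

open Ap Classical

lemma seg_turn_aux {P Q p : ℂ} :
    p ∈ segment ℝ (-Complex.I * P) (-Complex.I * Q) ↔ Complex.I * p ∈ segment ℝ P Q := by
  constructor
  · rintro ⟨a, b, ha, hb, hab, rfl⟩
    refine ⟨a, b, ha, hb, hab, ?_⟩
    simp only [Complex.real_smul]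
    linear_combination ((a : ℂ) * P + (b : ℂ) * Q) * Complex.I_mul_I
  · rintro ⟨a, b, ha, hb, hab, e⟩
    refine ⟨a, b, ha, hb, hab, ?_⟩
    simp only [Complex.real_smul] at e ⊢
    linear_combination (-Complex.I) * e - p * Complex.I_mul_I

lemma GP.turn {n : ℕ} {z : ZMod n → ℂ} {hg : ℝ} (H : GP z hg) :
    GP (fun v => -Complex.I * z v) hg := by
  have hI : ∀ {p w : ℂ}, Complex.I * p = w → p = -Complex.I * w := by
    intro p w e
    linear_combination (-Complex.I) * e + p * Complex.I_mul_I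
  refine ⟨H.three, ?_, ?_, ?_, H.hg0, ?_⟩
  · intro i j P hi hj
    rcases H.simple i j _ (seg_turn_aux.1 hi) (seg_turn_aux.1 hj) with e | ⟨e, e'⟩ | ⟨e, e'⟩
    · exact Or.inl e
    · exact Or.inr (Or.inl ⟨e, hI e'⟩)
    · exact Or.inr (Or.inr ⟨e, hI e'⟩)
  · intro i j e
    apply H.im
    simpa using e
  · intro i j e
    apply H.re
    simpa using e
  · intro i
    obtain ⟨a, b, ha, hb⟩ := H.grid i
    refine ⟨b, -a, ?_, ?_⟩
    · simpa using hb
    · simp [ha]

lemma seg_turn {P Q p : ℂ} :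
    p ∈ segment ℝ (-Complex.I * P) (-Complex.I * Q) ↔ Complex.I * p ∈ segment ℝ P Q :=
  seg_turn_aux

lemma under_iff {n : ℕ} [NeZero n] {z : ZMod n → ℂ} {h : ℝ} {X : ZMod n → ℤ} (hh : 0 < h)
    (hX : ∀ i, (z i).re = h * X i) (k : ℤ) (s : ZMod n) :
    (polyDiag z h X).Touch k s ↔ Under z s (h * k) := by
  have hmin : min (z s).re (z (s + 1)).re = h * ((min (X s) (X (s + 1)) : ℤ) : ℝ) := by
    simp only [hX]
    push_cast
    exact (mul_min_of_nonneg _ _ hh.le).symm
  have hmax : max (z s).re (z (s + 1)).re = h * ((max (X s) (X (s + 1)) : ℤ) : ℝ) := by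
    simp only [hX]
    push_cast
    exact (mul_max_of_nonneg _ _ hh.le).symm
  unfold Under Diag.Touch
  rw [hmin, hmax, mul_le_mul_iff_right₀ hh, mul_le_mul_iff_right₀ hh, Int.cast_le, Int.cast_le]
  simp [polyDiag]

lemma mem_seg_iff {n : ℕ} {z : ZMod n → ℂ} (hn : 3 ≤ n)
    (hi : ∀ i j, (z i).re = (z j).re → i = j) (s : ZMod n) (p : ℂ) :
    p ∈ segment ℝ (z s) (z (s + 1)) ↔ Under z s p.re ∧ p.im = eh z s p.re := by
  have : NeZero n := ⟨by omega⟩
  have hne : (z (s + 1)).re ≠ (z s).re := poly_re_ne hn hi s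
  constructor
  · rintro ⟨a, b, ha, hb, hab, rfl⟩
    obtain rfl : a = 1 - b := by linarith
    have hne' : (z (s + 1)).re - (z s).re ≠ 0 := sub_ne_zero.2 hne
    refine ⟨⟨?_, ?_⟩, ?_⟩
    · simp only [Complex.add_re, Complex.smul_re, smul_eq_mul]
      have h1 := min_le_left (z s).re (z (s + 1)).re
      have h2 := min_le_right (z s).re (z (s + 1)).re
      nlinarith
    · simp only [Complex.add_re, Complex.smul_re, smul_eq_mul]
      have h1 := le_max_left (z s).re (z (s + 1)).re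
      have h2 := le_max_right (z s).re (z (s + 1)).re
      nlinarith
    · simp only [eh, lineH, Complex.add_re, Complex.smul_re, Complex.add_im, Complex.smul_im,
        smul_eq_mul]
      field_simp
      ring
  · rintro ⟨⟨h1, h2⟩, e⟩
    have := lineH_mem hne h1 h2
    have e2 : p = ⟨p.re, lineH (z s) (z (s + 1)) p.re⟩ := Complex.ext rfl e
    rw [e2]
    exact this

lemma seg_compact (P Q : ℂ) : IsCompact (segment ℝ P Q) := by
  rw [segment_eq_image]
  exact isCompact_Icc.image (by fun_prop)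

lemma isCompact_polySet {n : ℕ} [NeZero n] (z : ZMod n → ℂ) : IsCompact (polySet z) :=
  isCompact_iUnion fun v => seg_compact _ _

/-- A point of an edge whose abscissa is not that of a vertex is away from the other edges. -/
lemma away_edges {n : ℕ} [NeZero n] {z : ZMod n → ℂ} (hs : SimplePoly z) {s0 : ZMod n} {p : ℂ}
    (hp : p ∈ segment ℝ (z s0) (z (s0 + 1))) (hx : ∀ v, z v ≠ p) :
    ∃ d : ℝ, 0 < d ∧ ∀ t, t ≠ s0 → ∀ q ∈ segment ℝ (z t) (z (t + 1)), d ≤ ‖q - p‖ := by
  have hc : IsClosed (⋃ t : {t : ZMod n // t ≠ s0}, segment ℝ (z t.1) (z (t.1 + 1))) :=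
    (isCompact_iUnion fun t => seg_compact _ _).isClosed
  have hn : p ∈ (⋃ t : {t : ZMod n // t ≠ s0}, segment ℝ (z t.1) (z (t.1 + 1)))ᶜ := by
    intro h
    obtain ⟨t, ht⟩ := Set.mem_iUnion.1 h
    rcases hs t.1 s0 p ht hp with e | ⟨-, e⟩ | ⟨-, e⟩
    · exact t.2 e
    · exact hx _ e.symm
    · exact hx _ e.symm
  obtain ⟨d, hd, hb⟩ := Metric.isOpen_iff.1 hc.isOpen_compl p hn
  refine ⟨d, hd, fun t ht q hq => ?_⟩
  by_contra hlt
  have : q ∈ Metric.ball p d := by
    rw [Metric.mem_ball, dist_eq_norm]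
    exact not_le.1 hlt
  exact hb this (Set.mem_iUnion.2 ⟨⟨t, ht⟩, hq⟩)

lemma fld_zero {n : ℕ} (z : ZMod n → ℂ) (xs ε1 : ℝ) (s0 : ZMod n) :
    Fld z (fun _ => 0) (fun _ _ => 0) 0 xs ε1 0 0 s0 := by
  constructor <;> simp

lemma seg_cont_of_lip {f : ℝ → ℝ} {C : ℝ} (hC : 0 ≤ C)
    (h : ∀ x x', |f x - f x'| ≤ C * |x - x'|) : Continuous f := by
  have : LipschitzWith ⟨C, hC⟩ f := by
    apply LipschitzWith.of_dist_le_mul
    intro x y
    exact h x y
  exact this.continuous

/-- The displaced polygon is compact and close to the polygon. -/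
lemma disp_set {n : ℕ} [NeZero n] {z : ZMod n → ℂ} (hn : 3 ≤ n)
    (hi : ∀ i j, (z i).re = (z j).re → i = j) {g ψ C xs ε1 l0 l1 s0}
    (H : Fld z g ψ C xs ε1 l0 l1 s0) (t : ℝ) :
    IsCompact {a | ∃ s x, Under z s x ∧ a = disp z g ψ t s x} ∧
      ∀ s x, Under z s x → ∃ p ∈ polySet z, ‖disp z g ψ t s x - p‖ ≤ 2 * C * |t| := by
  constructor
  · have e : {a | ∃ s x, Under z s x ∧ a = disp z g ψ t s x} =
        ⋃ s, (disp z g ψ t s) ''
          Set.Icc (min (z s).re (z (s + 1)).re) (max (z s).re (z (s + 1)).re) := by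
      ext a
      simp only [Set.mem_ofPred_eq, Set.mem_iUnion, Set.mem_image, Set.mem_Icc, Under]
      constructor
      · rintro ⟨s, x, h, rfl⟩
        exact ⟨s, x, h, rfl⟩
      · rintro ⟨s, x, h, rfl⟩
        exact ⟨s, x, h, rfl⟩
    rw [e]
    refine isCompact_iUnion fun s => isCompact_Icc.image ?_
    have hg : Continuous g := seg_cont_of_lip H.C0 H.glip
    have hψ : Continuous (ψ s) := seg_cont_of_lip H.C0 (H.plip s)
    have he : Continuous (eh z s) := by
      unfold eh lineH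
      fun_prop
    have e2 : disp z g ψ t s = fun x => ((x + t * g x : ℝ) : ℂ) +
        ((eh z s x + t * ψ s x : ℝ) : ℂ) * Complex.I := by
      funext x
      apply Complex.ext <;> simp [disp]
    rw [e2]
    fun_prop
  · intro s x hx
    refine ⟨⟨x, eh z s x⟩, Set.mem_iUnion.2 ⟨s, (mem_seg_iff hn hi s _).2 ⟨hx, rfl⟩⟩, ?_⟩
    have h1 := H.gbd x
    have h2 := H.pbd s x hx
    refine (Complex.norm_le_abs_re_add_abs_im _).trans ?_
    have e1 : (disp z g ψ t s x - ⟨x, eh z s x⟩).re = t * g x := by simp [disp]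
    have e2 : (disp z g ψ t s x - ⟨x, eh z s x⟩).im = t * ψ s x := by simp [disp]
    rw [e1, e2, abs_mul, abs_mul]
    have := abs_nonneg t
    nlinarith

end Pool.Agent.Lib.MP_5a3ebe_gt.PI
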