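import Pool.Agent.Lib.MP_5a3ebe_gt.PvDefs2

/-!
Resampling one coordinate; anti-concentration.
-/

set_option linter.unusedVariables false

namespace Pool.Agent.Lib.MP_5a3ebe_gt.Pv

open Set Complex MeasureTheory unitInterval Function
open Pool.Agent.Lib.MP_5a3ebe_gt.Gen (Lip Lm)
open scoped ENNReal

theorem resample {ι X : Type} [Fintype ι] [DecidableEq ι] [MeasureSpace X]
    [IsProbabilityMeasure (volume : Measure X)] (i : ι) {f : (ι → X) → ℝ≥0∞}
    (hf : Measurable f) : ∫⁻ w, f w = ∫⁻ w, ∫⁻ a, f (update w i a) := by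
  have hm : Measurable fun w : ι → X => ∫⁻ a, f (update w i a) :=
    (hf.comp measurable_update').lintegral_prod_right'
  rw [volume_pi]
  refine lintegral_eq_of_lmarginal_eq {i} hf hm ?_
  rw [lmarginal_singleton, lmarginal_singleton]
  funext w
  simp

theorem vol_le_of_slot {ι X : Type} [Fintype ι] [DecidableEq ι] [MeasureSpace X]
    [IsProbabilityMeasure (volume : Measure X)] (i : ι) {S : Set (ι → X)} (hS : MeasurableSet S)
    {r : ℝ≥0∞} (h : ∀ w, volume {a | update w i a ∈ S} ≤ r) : volume S ≤ r := by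
  rw [← lintegral_indicator_one hS, resample i (measurable_one.indicator hS)]
  calc _ ≤ ∫⁻ _ : ι → X, r := lintegral_mono fun w =>
        (lintegral_indicator_one (measurable_update w hS)).le.trans (h w)
    _ = r := by simp

/-- the square of half side `r` -/
def sqr (r : ℝ) : Set ℂ := {z | |z.re| ≤ r ∧ |z.im| ≤ r}

theorem measurableSet_sqr (r : ℝ) : MeasurableSet (sqr r) :=
  (measurableSet_le measurable_re.abs measurable_const).inter
    (measurableSet_le measurable_im.abs measurable_const)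

theorem measurable_val : Measurable val :=
  measurableEquivRealProd.symm.measurable.comp
    (f := fun w : I × I => (2 * (w.1 : ℝ) - 1, 2 * (w.2 : ℝ) - 1)) (by fun_prop)

theorem mp_aff : MeasurePreserving (fun t : I => 2 * (t : ℝ) - 1) volume
    ((2⁻¹ : ℝ≥0∞) • volume.restrict (Icc (-1 : ℝ) 1)) := by
  refine MeasurePreserving.comp (g := fun t : ℝ => 2 * t - 1) ⟨by fun_prop, ?_⟩
    measurePreserving_coe
  ext s hs
  rw [Measure.map_apply (by fun_prop) hs, Measure.restrict_apply (hs.preimage (by fun_prop)),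
    Measure.smul_apply, Measure.restrict_apply hs]
  have : (fun t : ℝ => 2 * t - 1) ⁻¹' s ∩ I =
      (fun t : ℝ => 2 * t) ⁻¹' ((fun t : ℝ => t + -1) ⁻¹' (s ∩ Icc (-1) 1)) := by
    ext t
    simp only [mem_inter_iff, mem_preimage, mem_Icc, ← sub_eq_add_neg]
    refine and_congr_right fun _ => ⟨fun h => ⟨?_, ?_⟩, fun h => ⟨?_, ?_⟩⟩ <;> linarith [h.1, h.2]
  rw [this, Real.volume_preimage_mul_left two_ne_zero, measure_preimage_add_right]
  congr 1
  rw [abs_of_pos (by norm_num), ENNReal.ofReal_inv_of_pos two_pos]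
  simp

theorem mp_val : MeasurePreserving val volume ((4⁻¹ : ℝ≥0∞) • volume.restrict (sqr 1)) := by
  have h1 := mp_aff.prod mp_aff
  rw [Measure.prod_smul_left, Measure.prod_smul_right, Measure.prod_restrict, smul_smul,
    ← ENNReal.mul_inv (by simp) (by simp), show (2 * 2 : ℝ≥0∞) = 4 by norm_num] at h1
  have h2 := ((volume_preserving_equiv_real_prod.symm _).restrict_preimage
    (measurableSet_sqr 1)).smul_measure (4⁻¹ : ℝ≥0∞)
  have h3 : measurableEquivRealProd.symm ⁻¹' sqr 1 = Icc (-1 : ℝ) 1 ×ˢ Icc (-1 : ℝ) 1 := by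
    ext p
    simp [sqr, abs_le, Prod.le_def, and_and_and_comm]
  rw [h3] at h2
  exact h2.comp h1

theorem vol_sqr {r : ℝ} : volume (sqr r) = ENNReal.ofReal (2 * r) * ENNReal.ofReal (2 * r) := by
  have h3 : sqr r = measurableEquivRealProd ⁻¹' (Icc (-r) r ×ˢ Icc (-r) r) := by
    ext p
    simp [sqr, abs_le, Prod.le_def, and_and_and_comm]
  rw [h3, volume_preserving_equiv_real_prod.measure_preimage_equiv, Measure.volume_eq_prod,
    Measure.prod_prod, Real.volume_Icc]
  congr 2 <;> ring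

theorem ac {z : ℂ} (hz : z ≠ 0) (b : ℝ) {t : ℝ} (ht : 0 ≤ t) :
    volume {a : I × I | |b + (val a * z).re| ≤ t} ≤ ENNReal.ofReal (2 * t / ‖z‖) := by
  have hz' : 0 < ‖z‖ := norm_pos_iff.2 hz
  have hS : MeasurableSet {u : ℂ | |b + (u * z).re| ≤ t} :=
    measurableSet_le (by fun_prop) measurable_const
  have hd : LinearMap.det (LinearMap.mul ℝ ℂ z) = ‖z‖ ^ 2 := by
    rw [Complex.sq_norm, ← Algebra.norm_complex_apply, Algebra.norm_apply]
    rfl
  have h1 := mp_val.measure_preimage hS.nullMeasurableSet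
  refine h1.le.trans ?_
  rw [Measure.smul_apply, Measure.restrict_apply hS, smul_eq_mul]
  have h2 : {u : ℂ | |b + (u * z).re| ≤ t} ∩ sqr 1 ⊆ LinearMap.mul ℝ ℂ z ⁻¹'
      (measurableEquivRealProd ⁻¹' (Icc (-t - b) (t - b) ×ˢ Icc (-(2 * ‖z‖)) (2 * ‖z‖))) := by
    intro u hu
    have k1 := abs_le.1 (show |b + (u * z).re| ≤ t from hu.1)
    have k2 : ‖u‖ ≤ 2 := by linarith [norm_le_abs_re_add_abs_im u, hu.2.1, hu.2.2]
    have k3 : |(u * z).im| ≤ 2 * ‖z‖ := (abs_im_le_norm _).trans (by rw [norm_mul]; gcongr)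
    show (z * u).re ∈ Icc _ _ ∧ (z * u).im ∈ Icc _ _
    rw [mul_comm z]
    exact ⟨⟨by linarith [k1.1], by linarith [k1.2]⟩, abs_le.1 k3⟩
  refine (mul_le_mul_right (measure_mono h2) _).trans (le_of_eq ?_)
  rw [Measure.addHaar_preimage_linearMap _ (by rw [hd]; positivity), hd,
    volume_preserving_equiv_real_prod.measure_preimage_equiv, Measure.volume_eq_prod,
    Measure.prod_prod, Real.volume_Icc, Real.volume_Icc, ← ENNReal.ofReal_mul (by linarith),
    ← ENNReal.ofReal_mul (abs_nonneg _), ← ENNReal.ofReal_ofNat,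
    ← ENNReal.ofReal_inv_of_pos (by norm_num), ← ENNReal.ofReal_mul (by norm_num),
    abs_of_pos (by positivity)]
  congr 1
  field_simp
  ring

/-- one slot: the bracket of the noisy chord with a vector that is long in the frame -/
theorem ac_slot {th : ℂ} (hth : ‖th‖ = 1) {R s e A g h t : ℝ} (hR : 0 < R) (hs : 0 < s)
    (he : 0 < e) (hA : 0 < A) (hg : 0 < g) (hh : 0 < h) (ht : 0 ≤ t) {c0 z base m : ℂ}
    (hc : g ≤ |(nrm th R s c0).re|) (hz : ‖c0‖ ≤ A * ‖z‖) (hm : h ≤ |m.re|) :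
    volume {a : I × I | |br (nrm th R s (base + (e : ℂ) * val a * z)) m| ≤ t} ≤
      ENNReal.ofReal (2 * t * A * s / (e * g * h * R)) := by
  let ξ : ℂ := ⟨m.im / R, m.re / s⟩
  have e1 : ∀ a : I × I, br (nrm th R s (base + (e : ℂ) * val a * z)) m =
      br (nrm th R s base) m + (val a * (e * z * (starRingEnd ℂ) th * ξ)).re := fun a => by
    simp only [br, nrm, ξ, mul_re, mul_im, add_re, add_im, ofReal_re, ofReal_im, conj_re, conj_im]
    ring
  have k1 : h / s ≤ ‖ξ‖ := by
    refine le_trans ?_ (abs_im_le_norm ξ)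
    show h / s ≤ |m.re / s|
    rw [abs_div, abs_of_pos hs]
    gcongr
  have k2 : g * R / A ≤ ‖z‖ := by
    have h1 : |((starRingEnd ℂ) th * c0).re| ≤ ‖c0‖ := (abs_re_le_norm _).trans (by simp [hth])
    have h2 : g ≤ |((starRingEnd ℂ) th * c0).re / R| := hc
    rw [abs_div, abs_of_pos hR, le_div_iff₀ hR] at h2
    rw [div_le_iff₀ hA]
    linarith
  have k3 : e * (g * R / A) * (h / s) ≤ ‖e * z * (starRingEnd ℂ) th * ξ‖ := by
    rw [norm_mul, norm_mul, norm_mul, norm_conj, hth, mul_one, norm_real,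
      Real.norm_of_nonneg he.le]
    gcongr
  have k4 : 0 < e * (g * R / A) * (h / s) := by positivity
  simp only [e1]
  refine (ac (norm_pos_iff.1 (k4.trans_le k3)) _ ht).trans (ENNReal.ofReal_le_ofReal ?_)
  calc _ ≤ 2 * t / (e * (g * R / A) * (h / s)) := by gcongr
    _ = _ := by field_simp

end Pool.Agent.Lib.MP_5a3ebe_gt.Pv
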