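import Pool.Agent.Lib.MP_5a3ebe_gt.PvDefs2

/-!
Algebra of the determinant, and the terminal case.
-/

set_option linter.unusedVariables false

namespace Pool.Agent.Lib.MP_5a3ebe_gt.Pv

open Set Complex MeasureTheory unitInterval Function
open Pool.Agent.Lib.MP_5a3ebe_gt.Gen (Lip Lm)
open scoped ENNReal

theorem Dt_eq (c : Fin 4 → ℂ) (k : Fin 4) : Dt c = br (c k) (mk c k) := by
  fin_cases k <;> simp [Dt, mk, br] <;> ring

theorem mk_update (c : Fin 4 → ℂ) (k : Fin 4) (z : ℂ) : mk (update c k z) k = mk c k := by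
  have h1 : k + 1 ≠ k := by fin_cases k <;> decide
  have h2 : k + 2 ≠ k := by fin_cases k <;> decide
  have h3 : k + 3 ≠ k := by fin_cases k <;> decide
  simp only [mk, update_of_ne h1, update_of_ne h2, update_of_ne h3]

theorem mk_re (c : Fin 4 → ℂ) (k : Fin 4) : (mk c k).re = -Dt (update c k Complex.I) := by
  rw [Dt_eq _ k, mk_update, update_self]
  simp [br]

theorem sN_nonneg (p : ℂ) : 0 ≤ sN p := (abs_nonneg _).trans (le_max_left _ _)

theorem re_le_sN (p : ℂ) : |p.re| ≤ sN p := le_max_left _ _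

theorem im_le_sN (p : ℂ) : |p.im| ≤ sN p := le_max_right _ _

theorem sN_add_le (p q : ℂ) : sN (p + q) ≤ sN p + sN q :=
  max_le ((abs_add_le _ _).trans (add_le_add (re_le_sN p) (re_le_sN q)))
    ((abs_add_le _ _).trans (add_le_add (im_le_sN p) (im_le_sN q)))

theorem sN_sub_le (p q : ℂ) : sN (p - q) ≤ sN p + sN q :=
  max_le ((abs_sub _ _).trans (add_le_add (re_le_sN p) (re_le_sN q)))
    ((abs_sub _ _).trans (add_le_add (im_le_sN p) (im_le_sN q)))

theorem sN_real_mul (r : ℝ) (p : ℂ) : sN ((r : ℂ) * p) = |r| * sN p := by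
  simp only [sN, re_ofReal_mul, im_ofReal_mul, abs_mul]
  exact (mul_max_of_nonneg _ _ (abs_nonneg r)).symm

theorem br_le (p q : ℂ) : |br p q| ≤ 2 * sN p * sN q := by
  have h1 : |p.re * q.im| ≤ sN p * sN q := by
    rw [abs_mul]; exact mul_le_mul (re_le_sN p) (im_le_sN q) (abs_nonneg _) (sN_nonneg p)
  have h2 : |p.im * q.re| ≤ sN p * sN q := by
    rw [abs_mul]; exact mul_le_mul (im_le_sN p) (re_le_sN q) (abs_nonneg _) (sN_nonneg p)
  have h3 := abs_sub (p.re * q.im) (p.im * q.re)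
  unfold br
  linarith

theorem br_sub_left (p q r : ℂ) : br (p - q) r = br p r - br q r := by
  simp [br]; ring

theorem br_le' {p q : ℂ} {M : ℝ} (hp : sN p ≤ M) (hq : sN q ≤ M) : |br p q| ≤ 2 * M ^ 2 := by
  have h0 := (sN_nonneg p).trans hp
  have h1 := mul_le_mul hp hq (sN_nonneg q) h0
  have h2 := br_le p q
  nlinarith

theorem sN_mk_le {c : Fin 4 → ℂ} {M : ℝ} (hc : ∀ k, sN (c k) ≤ M) (k : Fin 4) :
    sN (mk c k) ≤ 4 * M ^ 3 := by
  have h0 := (sN_nonneg _).trans (hc k)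
  have h1 := mul_le_mul (br_le' (hc (k + 2)) (hc (k + 3))) (hc (k + 1)) (sN_nonneg _)
    (by positivity)
  have h2 := mul_le_mul (br_le' (hc (k + 1)) (hc (k + 2))) (hc (k + 3)) (sN_nonneg _)
    (by positivity)
  refine (sN_sub_le _ _).trans ?_
  rw [sN_real_mul, sN_real_mul]
  nlinarith

theorem Dt_update_le {c : Fin 4 → ℂ} {M r : ℝ} (hc : ∀ k, sN (c k) ≤ M) (k : Fin 4) {z : ℂ}
    (h : sN (c k - z) ≤ r) : |Dt c - Dt (update c k z)| ≤ 8 * M ^ 3 * r := by
  rw [Dt_eq c k, Dt_eq (update c k z) k, mk_update, update_self, ← br_sub_left]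
  have h0 := (sN_nonneg _).trans (hc k)
  have h1 := mul_le_mul h (sN_mk_le hc k) (sN_nonneg _) ((sN_nonneg _).trans h)
  have h2 := br_le (c k - z) (mk c k)
  nlinarith

theorem Dt_sub_le {c d : Fin 4 → ℂ} {M r : ℝ} (hc : ∀ k, sN (c k) ≤ M) (hd : ∀ k, sN (d k) ≤ M)
    (h : ∀ k, sN (c k - d k) ≤ r) : |Dt c - Dt d| ≤ 32 * M ^ 3 * r := by
  have up : ∀ (e : Fin 4 → ℂ) (k : Fin 4), (∀ l, sN (e l) ≤ M) →
      ∀ l, sN (update e k (d k) l) ≤ M := fun e k he l => by
    rcases eq_or_ne l k with rfl | hl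
    · rw [update_self]; exact hd l
    · rw [update_of_ne hl]; exact he l
  have b1 := up c 0 hc
  have b2 := up _ 1 b1
  have b3 := up _ 2 b2
  have a0 := Dt_update_le hc 0 (h 0)
  have a1 := Dt_update_le b1 1 (z := d 1) (r := r) (by simpa using h 1)
  have a2 := Dt_update_le b2 2 (z := d 2) (r := r) (by simpa using h 2)
  have a3 := Dt_update_le b3 3 (z := d 3) (r := r) (by simpa using h 3)
  have e : update (update (update (update c 0 (d 0)) 1 (d 1)) 2 (d 2)) 3 (d 3) = d := by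
    funext k; fin_cases k <;> simp
  rw [e] at a3
  rw [abs_le] at a0 a1 a2 a3 ⊢
  constructor <;> linarith [a0.1, a0.2, a1.1, a1.2, a2.1, a2.2, a3.1, a3.2]

theorem br_nrm {th : ℂ} (hth : ‖th‖ = 1) {R s : ℝ} (hR : 0 < R) (hs : 0 < s) (p q : ℂ) :
    br p q = R * s * br (nrm th R s p) (nrm th R s q) := by
  have h1 : th.re ^ 2 + th.im ^ 2 = 1 := by
    have := Complex.sq_norm th
    rw [hth, normSq_apply] at this
    linarith
  simp only [br, nrm, mul_re, mul_im, conj_re, conj_im]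
  field_simp
  linear_combination (p.im * q.re - p.re * q.im) * h1

theorem Dt_nrm {th : ℂ} (hth : ‖th‖ = 1) {R s : ℝ} (hR : 0 < R) (hs : 0 < s) (c : Fin 4 → ℂ) :
    Dt c = R ^ 2 * s ^ 2 * Dt fun k => nrm th R s (c k) := by
  simp only [Dt]
  rw [br_nrm hth hR hs (c 0) (c 1), br_nrm hth hR hs (c 2) (c 3), br_nrm hth hR hs (c 0) (c 3),
    br_nrm hth hR hs (c 1) (c 2)]
  ring

theorem nrm_add (th : ℂ) (R s : ℝ) (p q : ℂ) :
    nrm th R s (p + q) = nrm th R s p + nrm th R s q := by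
  apply Complex.ext <;> simp [nrm] <;> ring

theorem mk_two_I (c : Fin 4 → ℂ) (k : Fin 4) :
    (mk (update c (k + 3) Complex.I) (k + 2)).re = (c k).re * (c (k + 1)).re := by
  fin_cases k <;> simp [mk, br]

theorem mk_three_re (c : Fin 4 → ℂ) (k : Fin 4) : (mk c (k + 3)).re =
    (c k).im * ((c (k + 1)).re * (c (k + 2)).re) + (c k).re *
      ((c (k + 1)).re * (c (k + 2)).im - 2 * ((c (k + 1)).im * (c (k + 2)).re)) := by
  fin_cases k <;> simp [mk, br] <;> ring

theorem terminal (ν1 : ℝ) (hν1 : 0 < ν1) : ∃ c : ℝ, 0 < c ∧ c ≤ 1 / 16 ∧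
    ∀ (a : Fin 4 → ℂ) (k0 : Fin 4), (∀ k, sN (a k) = 1) → (∀ k, k ≠ k0 → 3 / 4 ≤ |(a k).re|) →
    (∀ n : Fin 4 → ℂ, (∀ k, |(n k).re| ≤ c) →
      c ≤ |(mk (update (fun k => a k + n k) (k0 + 3) Complex.I) (k0 + 2)).re|) ∨
    (∀ n : Fin 4 → ℂ, (∀ k, |(n k).re| ≤ c) → (∀ k, |(n k).im| ≤ ν1 * |(a k).re| + c) →
      c ≤ |(mk (fun k => a k + n k) (k0 + 3)).re|) := by
  set c : ℝ := 1 / (1000 * (1 + ν1)) with hc
  have hc0 : 0 < c := by positivity
  have hc1 : c * (1 + ν1) = 1 / 1000 := by rw [hc]; field_simp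
  have hc2 : c ≤ 1 / 1000 := by nlinarith
  have hc3 : c * ν1 ≤ 1 / 1000 := by nlinarith
  refine ⟨c, hc0, by linarith, fun a k0 h1 h2 => ?_⟩
  have k1 : k0 + 1 ≠ k0 := by fin_cases k0 <;> decide
  have k2 : k0 + 2 ≠ k0 := by fin_cases k0 <;> decide
  have low : ∀ x y : ℝ, |x| - |y| ≤ |x + y| := fun x y => by
    have := abs_sub (x + y) y
    rw [add_sub_cancel_right] at this
    linarith
  by_cases h0 : 4 * c ≤ |(a k0).re|
  · refine Or.inl fun n hn => ?_
    rw [mk_two_I, abs_mul]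
    simp only [add_re]
    have a1 := low (a k0).re (n k0).re
    have a2 := low (a (k0 + 1)).re (n (k0 + 1)).re
    have a3 : 2 * c ≤ |(a k0).re + (n k0).re| := by linarith [hn k0]
    have a4 : 1 / 2 ≤ |(a (k0 + 1)).re + (n (k0 + 1)).re| := by linarith [hn (k0 + 1), h2 _ k1]
    have := mul_le_mul a3 a4 (by norm_num) (abs_nonneg _)
    linarith
  · refine Or.inr fun n hn hn' => ?_
    push Not at h0
    have him : |(a k0).im| = 1 := by
      rcases max_choice |(a k0).re| |(a k0).im| with h | h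
      · have := h1 k0
        rw [sN, h] at this
        linarith
      · have := h1 k0
        rwa [sN, h] at this
    rw [mk_three_re]
    simp only [add_re, add_im]
    have re1 : ∀ k, |(a k).re| ≤ 1 := fun k => (re_le_sN _).trans (h1 k).le
    have im1 : ∀ k, |(a k).im| ≤ 1 := fun k => (im_le_sN _).trans (h1 k).le
    have u1 : ∀ k, |(a k).re + (n k).re| ≤ 2 := fun k => by
      linarith [abs_add_le (a k).re (n k).re, re1 k, hn k]
    have u2 : ∀ k, |(a k).im + (n k).im| ≤ 2 * (1 + ν1) := fun k => by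
      have := mul_le_mul_of_nonneg_left (re1 k) hν1.le
      linarith [abs_add_le (a k).im (n k).im, im1 k, hn' k]
    have l1 : 1 / 2 ≤ |(a (k0 + 1)).re + (n (k0 + 1)).re| := by
      linarith [low (a (k0 + 1)).re (n (k0 + 1)).re, hn (k0 + 1), h2 _ k1]
    have l2 : 1 / 2 ≤ |(a (k0 + 2)).re + (n (k0 + 2)).re| := by
      linarith [low (a (k0 + 2)).re (n (k0 + 2)).re, hn (k0 + 2), h2 _ k2]
    have l0 : 1 / 2 ≤ |(a k0).im + (n k0).im| := by
      have := mul_le_mul_of_nonneg_left h0.le hν1.le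
      nlinarith [low (a k0).im (n k0).im, hn' k0]
    have u0 : |(a k0).re + (n k0).re| ≤ 5 * c := by
      linarith [abs_add_le (a k0).re (n k0).re, hn k0]
    set x0 := (a k0).re + (n k0).re
    set y0 := (a k0).im + (n k0).im
    set x1 := (a (k0 + 1)).re + (n (k0 + 1)).re with hx1
    set y1 := (a (k0 + 1)).im + (n (k0 + 1)).im with hy1
    set x2 := (a (k0 + 2)).re + (n (k0 + 2)).re with hx2
    set y2 := (a (k0 + 2)).im + (n (k0 + 2)).im with hy2
    have m1 : 1 / 8 ≤ |y0 * (x1 * x2)| := by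
      rw [abs_mul, abs_mul]
      have b1 := mul_le_mul l1 l2 (by norm_num) (abs_nonneg _)
      have b2 := mul_le_mul l0 b1 (by norm_num) (abs_nonneg _)
      linarith
    have m2 : |x1 * y2 - 2 * (y1 * x2)| ≤ 12 * (1 + ν1) := by
      have b1 : |x1 * y2| ≤ 2 * (2 * (1 + ν1)) := by
        rw [abs_mul]; exact mul_le_mul (u1 _) (u2 _) (abs_nonneg _) (by norm_num)
      have b2 : |y1 * x2| ≤ 2 * (1 + ν1) * 2 := by
        rw [abs_mul]; exact mul_le_mul (u2 _) (u1 _) (abs_nonneg _) (by positivity)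
      have b3 := abs_sub (x1 * y2) (2 * (y1 * x2))
      rw [abs_mul 2, abs_two] at b3
      linarith
    have m3 : |x0 * (x1 * y2 - 2 * (y1 * x2))| ≤ 5 * c * (12 * (1 + ν1)) := by
      rw [abs_mul]; exact mul_le_mul u0 m2 (abs_nonneg _) (by positivity)
    have m4 := low (y0 * (x1 * x2)) (x0 * (x1 * y2 - 2 * (y1 * x2)))
    nlinarith

end Pool.Agent.Lib.MP_5a3ebe_gt.Pv
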