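import Pool.Agent.Lib.MP_5a3ebe_gt.PvCover

/-! Volumes of boxes cut out by four functionals in a turning frame, and counting of separated
points. -/

open MeasureTheory Set Complex Module
open scoped ENNReal

namespace Pool.Agent.Lib.MP_5a3ebe_gt.PvBox

open PvCover

/-- component along `e` -/
def X (e z : ℂ) : ℝ := z.re * e.re + z.im * e.im

/-- component along `I * e` -/
def Y (e z : ℂ) : ℝ := z.im * e.re - z.re * e.im

/-- a functional on `ℂ × ℂ` in the frame `e` -/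
def lin (e : ℂ) (m : Fin 4 → ℝ) (u : ℂ × ℂ) : ℝ :=
  m 0 * X e u.1 + m 1 * X e u.2 + m 2 * Y e u.1 + m 3 * Y e u.2

theorem X_sub (e z w : ℂ) : X e (z - w) = X e z - X e w := by simp [X]; ring
theorem Y_sub (e z w : ℂ) : Y e (z - w) = Y e z - Y e w := by simp [Y]; ring
theorem X_add (e z w : ℂ) : X e (z + w) = X e z + X e w := by simp [X]; ring
theorem Y_add (e z w : ℂ) : Y e (z + w) = Y e z + Y e w := by simp [Y]; ring

theorem lin_sub (e : ℂ) (m : Fin 4 → ℝ) (u v : ℂ × ℂ) :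
    lin e m (u - v) = lin e m u - lin e m v := by
  simp only [lin, Prod.fst_sub, Prod.snd_sub, X_sub, Y_sub]; ring

theorem sq_XY {e : ℂ} (he : e.re ^ 2 + e.im ^ 2 = 1) (z : ℂ) :
    X e z ^ 2 + Y e z ^ 2 = ‖z‖ ^ 2 := by
  rw [Complex.sq_norm, normSq_apply, X, Y]
  linear_combination (z.re ^ 2 + z.im ^ 2) * he

theorem abs_X_le {e : ℂ} (he : e.re ^ 2 + e.im ^ 2 = 1) (z : ℂ) : |X e z| ≤ ‖z‖ :=
  abs_le_of_sq_le_sq' (by nlinarith [sq_XY he z, sq_nonneg (Y e z)]) (norm_nonneg z) |> abs_le.2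

theorem abs_Y_le {e : ℂ} (he : e.re ^ 2 + e.im ^ 2 = 1) (z : ℂ) : |Y e z| ≤ ‖z‖ :=
  abs_le_of_sq_le_sq' (by nlinarith [sq_XY he z, sq_nonneg (X e z)]) (norm_nonneg z) |> abs_le.2

theorem mp_co : MeasurePreserving (b0.equivFunL : ℂ × ℂ → Fin 4 → ℝ) volume volume := by
  refine ⟨b0.equivFunL.continuous.measurable, ?_⟩
  rw [← b0_haar, Basis.map_addHaar, ← addHaarMeasure_eq_volume_pi,
    ← Basis.parallelepiped_basisFun, ← Basis.addHaar_def]
  refine congrArg Basis.addHaar (Basis.eq_of_apply_eq fun i => ?_)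
  funext j
  simp [Pi.single_apply, Finsupp.single_apply, eq_comm]

theorem vol_mat (M : Matrix (Fin 4) (Fin 4) ℝ) (c r : Fin 4 → ℝ) {S : Set (ℂ × ℂ)}
    (h : ∀ y ∈ S, ∀ j, |M.mulVec ![y.1.re, y.1.im, y.2.re, y.2.im] j - c j| ≤ r j) :
    ENNReal.ofReal |M.det| * volume S ≤ ∏ j, ENNReal.ofReal (2 * r j) := by
  have h1 : volume S ≤ volume (b0.equivFunL '' S) :=
    (measure_mono (subset_preimage_image _ _)).trans (mp_co.measure_preimage_le _)
  calc ENNReal.ofReal |M.det| * volume S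
      ≤ ENNReal.ofReal |LinearMap.det (Matrix.toLin' M)| * volume (b0.equivFunL '' S) := by
        rw [LinearMap.det_toLin']; gcongr
    _ = volume (Matrix.toLin' M '' (b0.equivFunL '' S)) :=
        (Measure.addHaar_image_linearMap _ _ _).symm
    _ ≤ volume (Icc (c - r) (c + r)) := by
        refine measure_mono ?_
        rintro _ ⟨_, ⟨y, hy, rfl⟩, rfl⟩
        have h2 : (b0.equivFunL y : Fin 4 → ℝ) = ![y.1.re, y.1.im, y.2.re, y.2.im] := b0_repr y
        rw [h2, Matrix.toLin'_apply]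
        exact ⟨fun j => by have := abs_le.1 (h y hy j); simp only [Pi.sub_apply]; linarith,
          fun j => by have := abs_le.1 (h y hy j); simp only [Pi.add_apply]; linarith⟩
    _ = _ := by
        rw [Real.volume_Icc_pi]
        refine Finset.prod_congr rfl fun j _ => ?_
        simp only [Pi.add_apply, Pi.sub_apply]
        congr 1
        ring

/-- Four functionals with determinant at least `D`. -/
theorem vol_fr {e : ℂ} (he : e.re ^ 2 + e.im ^ 2 = 1) (m0 m1 m2 m3 : Fin 4 → ℝ)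
    (y0 y1 y2 y3 : ℂ × ℂ) {r0 r1 r2 r3 D : ℝ} (hD : 0 < D)
    (hD' : D ≤ |(Matrix.of ![m0, m1, m2, m3]).det|) {S : Set (ℂ × ℂ)}
    (h : ∀ y ∈ S, |lin e m0 (y - y0)| ≤ r0 ∧ |lin e m1 (y - y1)| ≤ r1 ∧
      |lin e m2 (y - y2)| ≤ r2 ∧ |lin e m3 (y - y3)| ≤ r3) :
    volume S ≤ ENNReal.ofReal (16 * r0 * r1 * r2 * r3 / D) := by
  rcases S.eq_empty_or_nonempty with rfl | ⟨z, hz⟩
  · simp
  obtain ⟨k0, k1, k2, k3⟩ := h z hz
  have p0 := (abs_nonneg _).trans k0
  have p1 := (abs_nonneg _).trans k1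
  have p2 := (abs_nonneg _).trans k2
  have p3 := (abs_nonneg _).trans k3
  let Rot : Matrix (Fin 4) (Fin 4) ℝ := Matrix.of
    ![![e.re, e.im, 0, 0], ![0, 0, e.re, e.im], ![-e.im, e.re, 0, 0], ![0, 0, -e.im, e.re]]
  have hR : |Rot.det| = 1 := by
    have : Rot.det = -(e.re ^ 2 + e.im ^ 2) ^ 2 := by
      simp [Rot, Matrix.det_succ_row_zero, Fin.sum_univ_succ, Fin.succAbove]
      ring
    rw [this, he]
    simp
  have key : ∀ (y : ℂ × ℂ) (j : Fin 4), (Matrix.of ![m0, m1, m2, m3] * Rot).mulVec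
      ![y.1.re, y.1.im, y.2.re, y.2.im] j = lin e (![m0, m1, m2, m3] j) y := by
    intro y j
    rw [← Matrix.mulVec_mulVec]
    simp [Matrix.mulVec, dotProduct, Fin.sum_univ_succ, Rot, lin, X, Y]
    ring
  have h1 := vol_mat (Matrix.of ![m0, m1, m2, m3] * Rot)
    ![lin e m0 y0, lin e m1 y1, lin e m2 y2, lin e m3 y3] ![r0, r1, r2, r3] (S := S)
    fun y hy j => by
      obtain ⟨k0, k1, k2, k3⟩ := h y hy
      rw [lin_sub] at k0 k1 k2 k3
      rw [key]
      fin_cases j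
      exacts [k0, k1, k2, k3]
  rw [Matrix.det_mul, abs_mul, hR, mul_one, ← ENNReal.ofReal_prod_of_nonneg
    fun j _ => by fin_cases j <;> simp <;> assumption] at h1
  rw [ENNReal.ofReal_div_of_pos hD, ENNReal.le_div_iff_mul_le (by simp [hD]) (by simp), mul_comm]
  refine le_trans (by gcongr) (h1.trans (le_of_eq ?_))
  congr 1
  simp [Fin.prod_univ_succ]
  ring

theorem vol_ball (y : ℂ × ℂ) {δ : ℝ} (hδ : 0 ≤ δ) :
    ENNReal.ofReal (δ ^ 4 / 2) ≤ volume (Metric.ball y (δ / 2)) := by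
  rw [← ball_prod_same, Measure.volume_eq_prod, Measure.prod_prod, Complex.volume_ball,
    Complex.volume_ball]
  have h : ENNReal.ofReal (δ ^ 2 * (3 / 4)) ≤ ENNReal.ofReal (δ / 2) ^ 2 * NNReal.pi := by
    rw [← ENNReal.ofReal_pow (by positivity), ← ENNReal.ofReal_coe_nnreal,
      ← ENNReal.ofReal_mul (by positivity)]
    refine ENNReal.ofReal_le_ofReal ?_
    have := Real.pi_gt_three
    simp only [NNReal.coe_real_pi]
    nlinarith [sq_nonneg δ]
  refine le_trans ?_ (mul_le_mul' h h)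
  rw [← ENNReal.ofReal_mul (by positivity)]
  refine ENNReal.ofReal_le_ofReal ?_
  nlinarith [pow_nonneg hδ 4]

/-- Separated points whose small balls lie in a set of bounded volume. -/
theorem card_le {ι : Type*} (J : Finset ι) (y : ι → ℂ × ℂ) {δ v : ℝ} (hδ : 0 ≤ δ) (hv : 0 ≤ v)
    (hsep : ∀ i ∈ J, ∀ k ∈ J, i ≠ k → δ ≤ ‖y i - y k‖) {B : Set (ℂ × ℂ)}
    (hB : ∀ i ∈ J, Metric.ball (y i) (δ / 2) ⊆ B) (hvol : volume B ≤ ENNReal.ofReal v) :
    J.card * δ ^ 4 ≤ 2 * v := by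
  have h1 : volume (⋃ i ∈ J, Metric.ball (y i) (δ / 2)) =
      ∑ i ∈ J, volume (Metric.ball (y i) (δ / 2)) := by
    refine measure_biUnion_finset (fun i hi k hk hik => ?_) fun i _ => measurableSet_ball
    refine Metric.ball_disjoint_ball ?_
    rw [add_halves, dist_eq_norm]
    exact hsep i hi k hk hik
  have h2 : ∑ _i ∈ J, ENNReal.ofReal (δ ^ 4 / 2) ≤ ENNReal.ofReal v :=
    (Finset.sum_le_sum fun i _ => vol_ball (y i) hδ).trans
      (h1.ge.trans ((measure_mono (iUnion₂_subset hB)).trans hvol))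
  rw [← ENNReal.ofReal_sum_of_nonneg fun _ _ => by positivity,
    ENNReal.ofReal_le_ofReal_iff hv, Finset.sum_const, nsmul_eq_mul] at h2
  linarith

end Pool.Agent.Lib.MP_5a3ebe_gt.PvBox
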