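import Pool.Agent.Lib.MP_5a3ebe_gt.PvDefs

/-!
Prevalence of inscribed squares: the fields of one stage.
-/

set_option linter.unusedVariables false

namespace Pool.Agent.Lib.MP_5a3ebe_gt.Pv

open Set Complex MeasureTheory unitInterval Gen

lemma norm_val_le (w : I × I) : ‖val w‖ ≤ 13 / 9 := by
  have h1 := w.1.2.1
  have h2 := w.1.2.2
  have h3 := w.2.2.1
  have h4 := w.2.2.2
  have h5 : ‖val w‖ ^ 2 = (2 * (w.1 : ℝ) - 1) ^ 2 + (2 * (w.2 : ℝ) - 1) ^ 2 := by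
    rw [Complex.sq_norm, Complex.normSq_apply]
    simp only [val]
    ring
  refine abs_le_of_sq_le_sq' ?_ (by norm_num) |>.2
  nlinarith

lemma continuous_val : Continuous val := by
  have : val = fun w : I × I =>
      (((2 * (w.1 : ℝ) - 1 : ℝ) : ℂ) + ((2 * (w.2 : ℝ) - 1 : ℝ) : ℂ) * Complex.I) := by
    funext w
    apply Complex.ext <;> simp [val]
  rw [this]
  fun_prop

lemma b2_nonneg (z : ℂ) : 0 ≤ b2 z := mul_nonneg b1.nonneg b1.nonneg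

lemma b2_le_one (z : ℂ) : b2 z ≤ 1 := mul_le_one₀ b1.le_one b1.nonneg b1.le_one

lemma norm_b2_le (z : ℂ) : ‖(b2 z : ℂ)‖ ≤ 1 := by
  rw [Complex.norm_real, Real.norm_of_nonneg (b2_nonneg z)]
  exact b2_le_one z

lemma b1_one {x : ℝ} (h : |x| ≤ 17 / 36) : b1 x = 1 := by
  apply b1.one_of_mem_closedBall
  rw [Metric.mem_closedBall, dist_zero_right]
  exact h

lemma b1_zero {x : ℝ} (h : 35 / 72 ≤ |x|) : b1 x = 0 := by
  apply b1.zero_of_le_dist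
  rw [dist_zero_right]
  exact h

lemma b2_one {z : ℂ} (h1 : |z.re| ≤ 17 / 36) (h2 : |z.im| ≤ 17 / 36) : b2 z = 1 := by
  rw [b2, b1_one h1, b1_one h2, one_mul]

lemma b2_ne_zero {z : ℂ} (h : b2 z ≠ 0) : |z.re| < 35 / 72 ∧ |z.im| < 35 / 72 := by
  obtain ⟨h1, h2⟩ := mul_ne_zero_iff.1 h
  exact ⟨not_le.1 fun h => h1 (b1_zero h), not_le.1 fun h => h2 (b1_zero h)⟩

lemma b2_norm_le {z : ℂ} (h : b2 z ≠ 0) : ‖z‖ ≤ 1 := by
  obtain ⟨h1, h2⟩ := b2_ne_zero h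
  linarith [Complex.norm_le_abs_re_add_abs_im z]

lemma b2_smooth : ContDiff ℝ (⊤ : ℕ∞) fun z : ℂ => (b2 z : ℂ) :=
  Complex.ofRealCLM.contDiff.comp
    ((b1.contDiff.comp Complex.reCLM.contDiff).mul (b1.contDiff.comp Complex.imCLM.contDiff))

lemma b2_compact : HasCompactSupport fun z : ℂ => (b2 z : ℂ) := by
  refine HasCompactSupport.intro (isCompact_closedBall (0 : ℂ) 1) fun z hz => ?_
  by_contra h
  refine hz ?_
  rw [Metric.mem_closedBall, dist_zero_right]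
  exact b2_norm_le fun h0 => h (by simp [h0])

lemma exists_b2_lip : ∃ K : ℝ, 0 ≤ K ∧ Lip K (fun z => (b2 z : ℂ)) ∧
    Lip K fun z => (b2 z : ℂ) * z := by
  obtain ⟨C1, h1⟩ := ContDiff.lipschitzWith_of_hasCompactSupport b2_compact b2_smooth (by simp)
  obtain ⟨C2, h2⟩ := ContDiff.lipschitzWith_of_hasCompactSupport
    (b2_compact.mul_right (f' := fun z : ℂ => z)) (b2_smooth.mul contDiff_id) (by simp)
  have a1 : (0 : ℝ) ≤ C1 := C1.2
  have a2 : (0 : ℝ) ≤ C2 := C2.2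
  exact ⟨C1 + C2, by positivity, (Lip.of_lipschitzWith h1).mono (by linarith),
    (Lip.of_lipschitzWith h2).mono (by linarith)⟩

lemma Lip.comp_scale {K ρ : ℝ} {h : ℂ → ℂ} (H : Lip K h) (hρ : 0 < ρ) (c x : ℂ) :
    Lip (K * ‖x‖ / ρ) fun z => h ((z - c) / ρ) * x := fun y z => by
  have h1 := H ((y - c) / ρ) ((z - c) / ρ)
  rw [← sub_div, show y - c - (z - c) = y - z by ring, norm_div, Complex.norm_real,
    Real.norm_of_nonneg hρ.le] at h1
  rw [← sub_mul, norm_mul]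
  calc _ ≤ K * (‖y - z‖ / ρ) * ‖x‖ := mul_le_mul_of_nonneg_right h1 (norm_nonneg _)
    _ = _ := by ring

lemma Lip.sum {ι : Type*} (s : Finset ι) {K : ℝ} {h : ι → ℂ → ℂ} (H : ∀ i, Lip K (h i)) :
    Lip (s.card * K) fun z => ∑ i ∈ s, h i z := fun y z => by
  rw [← Finset.sum_sub_distrib, mul_assoc, ← nsmul_eq_mul]
  exact (norm_sum_le _ _).trans (Finset.sum_le_card_nsmul _ _ _ fun i _ => H i y z)

/-- a family of numbers of which at most one does not vanish -/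
lemma exists_single {ι : Type*} [Nonempty ι] {x : ι → ℂ} (h : ∀ i j, x i ≠ 0 → x j ≠ 0 → i = j) :
    ∃ i, ∀ j, j ≠ i → x j = 0 := by
  by_cases h0 : ∃ i, x i ≠ 0
  · obtain ⟨i, hi⟩ := h0
    exact ⟨i, fun j hj => by_contra fun hj' => hj (h j i hj' hi)⟩
  · push Not at h0
    exact ⟨Classical.arbitrary ι, fun j _ => h0 j⟩

lemma norm_sum_single {ι : Type*} [Fintype ι] {x : ι → ℂ} {M : ℝ} (hM : 0 ≤ M)
    (h : ∀ i j, x i ≠ 0 → x j ≠ 0 → i = j) (hx : ∀ i, ‖x i‖ ≤ M) : ‖∑ i, x i‖ ≤ M := by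
  rcases isEmpty_or_nonempty ι with hι | hι
  · simpa using hM
  obtain ⟨i, hi⟩ := exists_single h
  rw [Finset.sum_eq_single i (fun j _ hj => hi j hj) (by simp)]
  exact hx i

lemma Lip.sum_single {ι : Type*} [Fintype ι] {K : ℝ} (hK : 0 ≤ K) {h : ι → ℂ → ℂ}
    (H : ∀ i, Lip K (h i)) (hs : ∀ z i j, h i z ≠ 0 → h j z ≠ 0 → i = j) :
    Lip (2 * K) fun z => ∑ i, h i z := fun y z => by
  classical
  rcases isEmpty_or_nonempty ι with hι | hι
  · simp only [Finset.univ_eq_empty, Finset.sum_empty, sub_self, norm_zero]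
    positivity
  obtain ⟨i, hi⟩ := exists_single (hs y)
  obtain ⟨j, hj⟩ := exists_single (hs z)
  rw [← Finset.sum_sub_distrib, ← Finset.sum_subset (Finset.subset_univ {i, j}) (fun k _ hk => by
    rw [Finset.mem_insert, Finset.mem_singleton, not_or] at hk
    rw [hi k hk.1, hj k hk.2, sub_self])]
  refine ((norm_sum_le _ _).trans (Finset.sum_le_card_nsmul _ _ _ fun k _ => H k y z)).trans ?_
  rw [nsmul_eq_mul, mul_assoc]
  refine mul_le_mul_of_nonneg_right ?_ (by positivity)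
  exact_mod_cast Finset.card_le_two

lemma cell_re {ρ : ℝ} (hρ : 0 < ρ) (m : Fin 9) (u : ℤ × ℤ) (z : ℂ) :
    ((z - ctr ρ m u) / ρ).re = z.re / ρ - (m : ℝ) / 9 - u.1 := by
  rw [Complex.div_ofReal_re, Complex.sub_re, ctr]
  field_simp
  ring

lemma cell_im {ρ : ℝ} (hρ : 0 < ρ) (m : Fin 9) (u : ℤ × ℤ) (z : ℂ) :
    ((z - ctr ρ m u) / ρ).im = z.im / ρ - (m : ℝ) / 9 - u.2 := by
  rw [Complex.div_ofReal_im, Complex.sub_im, ctr]
  field_simp
  ring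

lemma int_eq_of_close {x : ℝ} {a b : ℤ} (ha : |x - a| < 1 / 2) (hb : |x - b| < 1 / 2) : a = b := by
  obtain ⟨h1, h2⟩ := abs_lt.1 ha
  obtain ⟨h3, h4⟩ := abs_lt.1 hb
  have h5 : (a : ℝ) < b + 1 := by linarith
  have h6 : (b : ℝ) < a + 1 := by linarith
  have h7 : a < b + 1 := by exact_mod_cast h5
  have h8 : b < a + 1 := by exact_mod_cast h6
  omega

/-- the cells of one grid have disjoint supports -/
lemma cell_unique {ρ : ℝ} (hρ : 0 < ρ) (m : Fin 9) {u v : ℤ × ℤ} {z : ℂ}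
    (hu : b2 ((z - ctr ρ m u) / ρ) ≠ 0) (hv : b2 ((z - ctr ρ m v) / ρ) ≠ 0) : u = v := by
  obtain ⟨h1, h2⟩ := b2_ne_zero hu
  obtain ⟨h3, h4⟩ := b2_ne_zero hv
  rw [cell_re hρ] at h1 h3
  rw [cell_im hρ] at h2 h4
  exact Prod.ext (int_eq_of_close (h1.trans (by norm_num)) (h3.trans (by norm_num)))
    (int_eq_of_close (h2.trans (by norm_num)) (h4.trans (by norm_num)))

lemma term_unique {ρ : ℝ} (hρ : 0 < ρ) (m : Fin 9) {N : ℕ} (z : ℂ) (x : Cell N → ℂ)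
    (u v : Cell N) (hu : (b2 ((z - ctr ρ m u) / ρ) : ℂ) * x u ≠ 0)
    (hv : (b2 ((z - ctr ρ m v) / ρ) : ℂ) * x v ≠ 0) : u = v :=
  Subtype.ext (cell_unique (z := z) hρ m (fun h => hu (by simp [h])) fun h => hv (by simp [h]))

/-- near a point well inside a cell the plateau function of the cell is one -/
lemma Inn.one {ρ : ℝ} (hρ : 0 < ρ) {m : Fin 9} {u : ℤ × ℤ} {z z' : ℂ} (h : Inn ρ m u z)
    (hz : ‖z' - z‖ ≤ ρ / 36) : b2 ((z' - ctr ρ m u) / ρ) = 1 := by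
  have h1 := (Complex.abs_re_le_norm _).trans hz
  have h2 := (Complex.abs_im_le_norm _).trans hz
  have e : z' - ctr ρ m u = (z' - z) + (z - ctr ρ m u) := by ring
  refine b2_one ?_ ?_
  · rw [Complex.div_ofReal_re, abs_div, abs_of_pos hρ, div_le_iff₀ hρ, e, Complex.add_re]
    linarith [abs_add_le (z' - z).re (z - ctr ρ m u).re, h.1]
  · rw [Complex.div_ofReal_im, abs_div, abs_of_pos hρ, div_le_iff₀ hρ, e, Complex.add_im]
    linarith [abs_add_le (z' - z).im (z - ctr ρ m u).im, h.2]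

lemma Inn.norm_le {ρ : ℝ} {m : Fin 9} {u : ℤ × ℤ} {z : ℂ} (h : Inn ρ m u z) :
    ‖z - ctr ρ m u‖ ≤ 8 / 9 * ρ := by
  linarith [Complex.norm_le_abs_re_add_abs_im (z - ctr ρ m u), h.1, h.2]

/-- a sum over the cells of one grid, on a plateau -/
lemma sum_plateau {ρ : ℝ} (hρ : 0 < ρ) {N : ℕ} {m : Fin 9} {u : Cell N} {z : ℂ}
    (h : b2 ((z - ctr ρ m u) / ρ) = 1) (x : Cell N → ℂ) :
    ∑ v : Cell N, (b2 ((z - ctr ρ m v) / ρ) : ℂ) * x v = x u := by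
  rw [Finset.sum_eq_single u (fun v _ hv => ?_) (by simp), h, Complex.ofReal_one, one_mul]
  by_contra h0
  exact hv (Subtype.ext
    (cell_unique (z := z) hρ m (fun h1 => h0 (by simp [h1])) (by rw [h]; norm_num)))

lemma gridX_plateau {ρ : ℝ} (hρ : 0 < ρ) {N : ℕ} {m : Fin 9} {u : Cell N} {z z' : ℂ}
    (h : Inn ρ m u z) (hz : ‖z' - z‖ ≤ ρ / 36) (x : Cell N → ℂ) : gridX ρ m x z' = x u :=
  sum_plateau hρ (h.one hρ hz) x

lemma norm_gridX_le {ρ : ℝ} (hρ : 0 < ρ) {N : ℕ} (m : Fin 9) {x : Cell N → ℂ} {M : ℝ}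
    (hM : 0 ≤ M) (hx : ∀ u, ‖x u‖ ≤ M) (z : ℂ) : ‖gridX ρ m x z‖ ≤ M := by
  refine norm_sum_single hM (term_unique hρ m z x) fun u => ?_
  rw [norm_mul]
  exact (mul_le_of_le_one_left (norm_nonneg _) (norm_b2_le _)).trans (hx u)

lemma gridX_lip {K : ℝ} (hK : 0 ≤ K) (H : Lip K fun z => (b2 z : ℂ)) {ρ : ℝ} (hρ : 0 < ρ) {N : ℕ}
    (m : Fin 9) {x : Cell N → ℂ} {M : ℝ} (hM : 0 ≤ M) (hx : ∀ u, ‖x u‖ ≤ M) :
    Lip (2 * (K * M / ρ)) (gridX ρ m x) :=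
  Lip.sum_single (by positivity) (fun u => (Lip.comp_scale H hρ _ (x u)).mono (by
    have := hx u
    gcongr)) fun z => term_unique hρ m z x

lemma gridX_smooth (ρ : ℝ) {N : ℕ} (m : Fin 9) (x : Cell N → ℂ) :
    ContDiff ℝ (⊤ : ℕ∞) (gridX ρ m x) :=
  ContDiff.sum fun u _ =>
    (b2_smooth.comp ((contDiff_id.sub contDiff_const).div_const _)).mul contDiff_const

/-- the linear parts on the cells of one grid -/
noncomputable def gridA (ρ : ℝ) {N : ℕ} (m : Fin 9) (μ : Cell N → ℂ) (z : ℂ) : ℂ :=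
  ∑ u : Cell N, (b2 ((z - ctr ρ m u) / ρ) : ℂ) * (μ u * (z - ctr ρ m u))

lemma fieldA_eq (ρ : ℝ) {N : ℕ} (μ : Fin 9 × Cell N → ℂ) (z : ℂ) :
    fieldA ρ μ z = ∑ m : Fin 9, gridA ρ m (fun u => μ (m, u)) z := by
  rw [fieldA, Fintype.sum_prod_type]
  rfl

lemma gridA_plateau {ρ : ℝ} (hρ : 0 < ρ) {N : ℕ} {m : Fin 9} {u : Cell N} {z z' : ℂ}
    (h : Inn ρ m u z) (hz : ‖z' - z‖ ≤ ρ / 36) (μ : Cell N → ℂ) :
    gridA ρ m μ z' = μ u * (z' - ctr ρ m u) :=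
  sum_plateau hρ (h.one hρ hz) fun v => μ v * (z' - ctr ρ m v)

lemma norm_gridA_le {ρ : ℝ} (hρ : 0 < ρ) {N : ℕ} (m : Fin 9) {μ : Cell N → ℂ} {M : ℝ}
    (hM : 0 ≤ M) (hx : ∀ u, ‖μ u‖ ≤ M) (z : ℂ) : ‖gridA ρ m μ z‖ ≤ M * ρ := by
  refine norm_sum_single (by positivity)
    (term_unique hρ m z fun v => μ v * (z - ctr ρ m v)) fun u => ?_
  by_cases h0 : b2 ((z - ctr ρ m u) / ρ) = 0
  · rw [h0, Complex.ofReal_zero, zero_mul, norm_zero]
    positivity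
  have h1 := b2_norm_le h0
  rw [norm_div, Complex.norm_real, Real.norm_of_nonneg hρ.le, div_le_one hρ] at h1
  rw [norm_mul, norm_mul]
  exact (mul_le_of_le_one_left (by positivity) (norm_b2_le _)).trans
    (mul_le_mul (hx u) h1 (norm_nonneg _) hM)

lemma gridA_lip {K : ℝ} (hK : 0 ≤ K) (H : Lip K fun z => (b2 z : ℂ) * z) {ρ : ℝ} (hρ : 0 < ρ)
    {N : ℕ} (m : Fin 9) {μ : Cell N → ℂ} {M : ℝ} (hM : 0 ≤ M) (hx : ∀ u, ‖μ u‖ ≤ M) :
    Lip (2 * (K * M)) (gridA ρ m μ) := by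
  refine Lip.sum_single (by positivity) (fun u => ?_)
    fun z => term_unique hρ m z fun v => μ v * (z - ctr ρ m v)
  have h1 := Lip.comp_scale H hρ (ctr ρ m u) (μ u * ρ)
  have hρ' : (ρ : ℂ) ≠ 0 := by exact_mod_cast hρ.ne'
  have h2 : (fun z => (b2 ((z - ctr ρ m u) / ρ) : ℂ) * ((z - ctr ρ m u) / ρ) * (μ u * ρ)) =
      fun z => (b2 ((z - ctr ρ m u) / ρ) : ℂ) * (μ u * (z - ctr ρ m u)) := by
    funext z
    field_simp
  rw [h2] at h1
  refine h1.mono ?_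
  rw [norm_mul, Complex.norm_real, Real.norm_of_nonneg hρ.le, ← mul_assoc,
    mul_div_cancel_right₀ _ hρ.ne']
  have := hx u
  gcongr

lemma gridA_smooth (ρ : ℝ) {N : ℕ} (m : Fin 9) (μ : Cell N → ℂ) :
    ContDiff ℝ (⊤ : ℕ∞) (gridA ρ m μ) :=
  ContDiff.sum fun u _ =>
    (b2_smooth.comp ((contDiff_id.sub contDiff_const).div_const _)).mul
      (contDiff_const.mul (contDiff_id.sub contDiff_const))

lemma norm_sum_nine {x : Fin 9 → ℂ} {M : ℝ} (h : ∀ m, ‖x m‖ ≤ M) : ‖∑ m, x m‖ ≤ 9 * M := by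
  refine ((norm_sum_le _ _).trans (Finset.sum_le_card_nsmul _ _ _ fun m _ => h m)).trans ?_
  simp

lemma norm_fieldA_le' {ρ : ℝ} (hρ : 0 < ρ) {N : ℕ} {μ : Fin 9 × Cell N → ℂ} {M : ℝ}
    (hM : 0 ≤ M) (hx : ∀ i, ‖μ i‖ ≤ M) (z : ℂ) : ‖fieldA ρ μ z‖ ≤ 9 * (M * ρ) := by
  rw [fieldA_eq]
  exact norm_sum_nine fun m => norm_gridA_le hρ m hM (fun u => hx _) z

lemma fieldA_smooth (ρ : ℝ) {N : ℕ} (μ : Fin 9 × Cell N → ℂ) :
    ContDiff ℝ (⊤ : ℕ∞) (fieldA ρ μ) := by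
  rw [funext (fieldA_eq ρ μ)]
  exact ContDiff.sum fun m _ => gridA_smooth ρ m _

lemma norm_amp_le {c M : ℝ} (hc : 0 ≤ c) (hM : c ≤ M) (w : I × I) :
    ‖(c : ℂ) * val w‖ ≤ 13 / 9 * M := by
  rw [norm_mul, Complex.norm_real, Real.norm_of_nonneg hc]
  nlinarith [norm_val_le w, norm_nonneg (val w)]

lemma amp_le {η R0 : ℝ} (hη : 0 < η) (hR : 0 < R0) (m m' : Fin 9) (w : I × I) :
    ‖((if m' = m then R0 / η else R0 / η / 64 : ℝ) : ℂ) * val w‖ ≤ 13 / 9 * (R0 / η) := by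
  have : 0 < R0 / η := by positivity
  refine norm_amp_le ?_ ?_ w <;> split_ifs <;> linarith

lemma norm_fieldX_le {η R0 : ℝ} (hη : 0 < η) (hR : 0 < R0) {N : ℕ} (m : Fin 9)
    (w : Fin 9 → Cell N → I × I) (z : ℂ) : ‖fieldX η R0 m w z‖ ≤ 13 * (R0 / η) := by
  refine (norm_sum_nine fun m' => norm_gridX_le (by positivity) m' (by positivity)
    (fun u => amp_le hη hR m m' (w m' u)) z).trans_eq ?_
  ring

lemma norm_fieldA_le {η R0 : ℝ} (hη : 0 < η) (hR : 0 < R0) {N : ℕ}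
    (w : Fin 9 × Cell N → I × I) (z : ℂ) :
    ‖fieldA (R0 / η) (fun i => ((η ^ 100 : ℝ) : ℂ) * val (w i)) z‖ ≤ 13 * (η ^ 99 * R0) := by
  refine (norm_fieldA_le' (by positivity) (by positivity)
    (fun i => norm_amp_le (by positivity) le_rfl (w i)) z).trans_eq ?_
  field_simp

lemma norm_fld_le {η R0 : ℝ} (hη : 0 < η) (hη1 : η ≤ 1) (hR : 0 < R0) {N : ℕ} (ω : Om N)
    (z : ℂ) : ‖fld η R0 ω z‖ ≤ 26 * (R0 / η) := by
  have h1 : η ^ 99 * R0 ≤ R0 / η := by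
    rw [le_div_iff₀ hη, show η ^ 99 * R0 * η = η ^ 100 * R0 by ring]
    exact mul_le_of_le_one_left hR.le (pow_le_one₀ hη.le hη1)
  linarith [norm_add_le (fieldX η R0 ω.1 ω.2.1 z)
    (fieldA (R0 / η) (fun i => ((η ^ 100 : ℝ) : ℂ) * val (ω.2.2 i)) z),
    norm_fieldX_le hη hR ω.1 ω.2.1 z, norm_fieldA_le hη hR ω.2.2 z,
    show ‖fld η R0 ω z‖ = ‖_ + _‖ from rfl]

lemma fieldX_smooth (η R0 : ℝ) {N : ℕ} (m : Fin 9) (w : Fin 9 → Cell N → I × I) :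
    ContDiff ℝ (⊤ : ℕ∞) (fieldX η R0 m w) :=
  ContDiff.sum fun m' _ => gridX_smooth _ m' _

lemma fld_smooth (η R0 : ℝ) {N : ℕ} (ω : Om N) : ContDiff ℝ (⊤ : ℕ∞) (fld η R0 ω) :=
  (fieldX_smooth η R0 _ _).add (fieldA_smooth _ _)

/-- the Lipschitz constants: of every grid, and of the three fields -/
theorem exists_lip : ∃ K : ℝ, 1 ≤ K ∧ ∀ η R0 : ℝ, 0 < η → 0 < R0 → ∀ N : ℕ,
    (∀ (m : Fin 9) (x : Cell N → ℂ), (∀ u, ‖x u‖ ≤ 13 / 9 * (R0 / η)) →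
      Lip (K / 18 * η ^ 100) (gridX (R0 / η ^ 101) m x)) ∧
    (∀ (m : Fin 9) (μ : Cell N → ℂ), (∀ u, ‖μ u‖ ≤ 13 / 9 * η ^ 100) →
      Lip (K / 18 * η ^ 100) (gridA (R0 / η) m μ)) ∧
    (∀ (m : Fin 9) (w : Fin 9 → Cell N → I × I), Lip (K / 2 * η ^ 100) (fieldX η R0 m w)) ∧
    (∀ w : Fin 9 × Cell N → I × I,
      Lip (K / 2 * η ^ 100) (fieldA (R0 / η) fun i => ((η ^ 100 : ℝ) : ℂ) * val (w i))) ∧
    ∀ ω : Om N, Lip (K * η ^ 100) (fld η R0 ω) := by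
  obtain ⟨K, hK, h1, h2⟩ := exists_b2_lip
  refine ⟨52 * K + 1, by linarith, fun η R0 hη hR N => ?_⟩
  have hp : 0 < η ^ 100 := by positivity
  have A : ∀ (m : Fin 9) (x : Cell N → ℂ), (∀ u, ‖x u‖ ≤ 13 / 9 * (R0 / η)) →
      Lip ((52 * K + 1) / 18 * η ^ 100) (gridX (R0 / η ^ 101) m x) := fun m x hx => by
    refine (gridX_lip hK h1 (by positivity) m (by positivity) hx).mono ?_
    have : 2 * (K * (13 / 9 * (R0 / η)) / (R0 / η ^ 101)) = 52 * K / 18 * η ^ 100 := by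
      field_simp
      ring
    rw [this]
    linarith
  have B : ∀ (m : Fin 9) (μ : Cell N → ℂ), (∀ u, ‖μ u‖ ≤ 13 / 9 * η ^ 100) →
      Lip ((52 * K + 1) / 18 * η ^ 100) (gridA (R0 / η) m μ) := fun m μ hx => by
    refine (gridA_lip hK h2 (by positivity) m (by positivity) hx).mono ?_
    linarith
  have C : ∀ (m : Fin 9) (w : Fin 9 → Cell N → I × I),
      Lip ((52 * K + 1) / 2 * η ^ 100) (fieldX η R0 m w) := fun m w => by
    refine (Lip.sum Finset.univ fun m' => A m' _ fun u => amp_le hη hR m m' (w m' u)).mono ?_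
    simp only [Finset.card_univ, Fintype.card_fin]
    push_cast
    linarith
  have D : ∀ w : Fin 9 × Cell N → I × I, Lip ((52 * K + 1) / 2 * η ^ 100)
      (fieldA (R0 / η) fun i => ((η ^ 100 : ℝ) : ℂ) * val (w i)) := fun w => by
    rw [funext (fieldA_eq _ _)]
    refine (Lip.sum Finset.univ fun m' => B m' _ fun u => norm_amp_le hp.le le_rfl _).mono ?_
    simp only [Finset.card_univ, Fintype.card_fin]
    push_cast
    linarith
  exact ⟨A, B, C, D, fun ω => ((C ω.1 ω.2.1).add (D ω.2.2)).mono (by linarith)⟩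

lemma continuous_fieldX (η R0 : ℝ) (N : ℕ) :
    Continuous fun p : (Fin 9 × (Fin 9 → Cell N → I × I)) × ℂ => fieldX η R0 p.1.1 p.1.2 p.2 := by
  have hb := b2_smooth.continuous
  have hv := continuous_val
  refine continuous_finsetSum _ fun m' _ => continuous_finsetSum _ fun u _ => ?_
  refine (hb.comp (by fun_prop)).mul (Continuous.mul ?_ (hv.comp (by fun_prop)))
  exact (continuous_of_discreteTopology (f := fun m : Fin 9 =>
    ((if m' = m then R0 / η else R0 / η / 64 : ℝ) : ℂ))).comp (by fun_prop)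

lemma continuous_fieldA (ρ c : ℝ) (N : ℕ) :
    Continuous fun p : (Fin 9 × Cell N → I × I) × ℂ =>
      fieldA ρ (fun i => (c : ℂ) * val (p.1 i)) p.2 := by
  have hb := b2_smooth.continuous
  have hv := continuous_val
  refine continuous_finsetSum _ fun i _ => ?_
  exact (hb.comp (by fun_prop)).mul
    ((continuous_const.mul (hv.comp (by fun_prop))).mul (by fun_prop))

lemma continuous_fld (η R0 : ℝ) (N : ℕ) : Continuous fun p : Om N × ℂ => fld η R0 p.1 p.2 := by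
  have h1 : Continuous fun p : Om N × ℂ => ((p.1.1, p.1.2.1), p.2) :=
    ((continuous_fst.comp continuous_fst).prodMk
      (continuous_fst.comp (continuous_snd.comp continuous_fst))).prodMk continuous_snd
  have h2 : Continuous fun p : Om N × ℂ => (p.1.2.2, p.2) :=
    (continuous_snd.comp (continuous_snd.comp continuous_fst)).prodMk continuous_snd
  have h3 := (continuous_fieldX η R0 N).comp h1
  have h4 := (continuous_fieldA (R0 / η) (η ^ 100) N).comp h2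
  exact h3.add h4

lemma bad_unique (x : ℝ) {m m' : Fin 9}
    (h : 4 / 9 < |x - (m : ℝ) / 9 - round (x - (m : ℝ) / 9)|)
    (h' : 4 / 9 < |x - (m' : ℝ) / 9 - round (x - (m' : ℝ) / 9)|) : m = m' := by
  have h1 := abs_le.1 (abs_sub_round (x - (m : ℝ) / 9))
  have h2 := abs_le.1 (abs_sub_round (x - (m' : ℝ) / 9))
  set a := round (x - (m : ℝ) / 9)
  set b := round (x - (m' : ℝ) / 9)
  have hk : ∀ c : ℤ, |((m' : ℝ) - m - 9 * (a - b)) - c| < 1 →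
      ((m' : ℕ) : ℤ) - (m : ℕ) - 9 * (a - b) = c := fun c hc => by
    have h3 : |(((m' : ℕ) : ℤ) - (m : ℕ) - 9 * (a - b)) - c| < 1 := by exact_mod_cast hc
    have := Int.abs_lt_one_iff.1 h3
    omega
  have hm := m.2
  have hm' := m'.2
  apply Fin.ext
  rcases lt_abs.1 h with h3 | h3 <;> rcases lt_abs.1 h' with h4 | h4
  · have := hk 0 (abs_lt.2 ⟨by push_cast; linarith [h1.2, h2.2], by push_cast; linarith [h1.2, h2.2]⟩)
    omega
  · have := hk 9 (abs_lt.2 ⟨by push_cast; linarith [h1.2, h2.1], by push_cast; linarith [h1.2, h2.1]⟩)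
    omega
  · have := hk (-9)
      (abs_lt.2 ⟨by push_cast; linarith [h1.1, h2.2], by push_cast; linarith [h1.1, h2.2]⟩)
    omega
  · have := hk 0 (abs_lt.2 ⟨by push_cast; linarith [h1.1, h2.1], by push_cast; linarith [h1.1, h2.1]⟩)
    omega

lemma exists_shift (x : Fin 4 × Bool → ℝ) :
    ∃ m : Fin 9, ∀ i, |x i - (m : ℝ) / 9 - round (x i - (m : ℝ) / 9)| ≤ 4 / 9 := by
  by_contra hcon
  push Not at hcon
  choose f hf using hcon
  obtain ⟨m, m', hne, he⟩ := Fintype.exists_ne_map_eq_of_card_lt f (by simp)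
  exact hne (bad_unique (x (f m)) (hf m) (he ▸ hf m'))

/-- any four points are well inside cells of one of the nine grids -/
theorem exists_grid {ρ : ℝ} (hρ : 0 < ρ) {N : ℕ} (z : Fin 4 → ℂ)
    (hz : ∀ k, ‖z k‖ / ρ + 2 ≤ N) :
    ∃ (m : Fin 9) (u : Fin 4 → Cell N), ∀ k, Inn ρ m (u k) (z k) := by
  obtain ⟨m, hm⟩ := exists_shift fun i => if i.2 then (z i.1).re / ρ else (z i.1).im / ρ
  have hm0 : (0 : ℝ) ≤ (m : ℝ) := Nat.cast_nonneg _
  have hm9 : ((m : ℕ) : ℝ) ≤ 9 := by exact_mod_cast m.2.le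
  have A : ∀ (k : Fin 4) (y : ℝ), |y| ≤ ‖z k‖ →
      -(N : ℤ) ≤ round (y / ρ - (m : ℝ) / 9) ∧ round (y / ρ - (m : ℝ) / 9) ≤ N := fun k y hy => by
    have h1 := abs_le.1 (abs_sub_round (y / ρ - (m : ℝ) / 9))
    have h2 : |y / ρ| ≤ ‖z k‖ / ρ := by
      rw [abs_div, abs_of_pos hρ]
      gcongr
    have h3 := abs_le.1 h2
    have h4 := hz k
    constructor
    · have : (-(N : ℝ)) ≤ (round (y / ρ - (m : ℝ) / 9) : ℝ) := by linarith [h1.2, h3.1]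
      exact_mod_cast this
    · have : (round (y / ρ - (m : ℝ) / 9) : ℝ) ≤ N := by linarith [h1.1, h3.2]
      exact_mod_cast this
  refine ⟨m, fun k => ⟨(round ((z k).re / ρ - (m : ℝ) / 9), round ((z k).im / ρ - (m : ℝ) / 9)),
    Finset.mem_Icc.2 ⟨⟨(A k _ (Complex.abs_re_le_norm _)).1, (A k _ (Complex.abs_im_le_norm _)).1⟩,
      ⟨(A k _ (Complex.abs_re_le_norm _)).2, (A k _ (Complex.abs_im_le_norm _)).2⟩⟩⟩,
    fun k => ⟨?_, ?_⟩⟩
  · have h1 := hm (k, true)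
    simp only [if_true] at h1
    rw [← cell_re hρ m (_, round ((z k).im / ρ - (m : ℝ) / 9)), Complex.div_ofReal_re, abs_div,
      abs_of_pos hρ, div_le_iff₀ hρ] at h1
    exact h1
  · have h1 := hm (k, false)
    simp only [Bool.false_eq_true, if_false] at h1
    rw [← cell_im hρ m (round ((z k).re / ρ - (m : ℝ) / 9), _), Complex.div_ofReal_im, abs_div,
      abs_of_pos hρ, div_le_iff₀ hρ] at h1
    exact h1

end Pool.Agent.Lib.MP_5a3ebe_gt.Pv
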