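import Pool.Agent.Lib.MP_5a3ebe_gt.PvZt
import Pool.Agent.Lib.MP_5a3ebe_gt.PvField

/-!
Few quadruples of cells are related to a given one.
-/

set_option linter.unusedVariables false

namespace Pool.Agent.Lib.MP_5a3ebe_gt.Pv

open Set Complex MeasureTheory unitInterval Function
open Pool.Agent.Lib.MP_5a3ebe_gt.Gen (Lip Lm)
open scoped ENNReal

/-- an injective quadruple related to `Q` has all slots but one among the cells of `Q` -/
theorem rel_pattern {ι : Type} [DecidableEq ι] {Q Q' : Fin 4 → ι} (hQ' : Injective Q')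
    (h : Rel Q Q') : ∃ (k : Fin 4) (g : Fin 4 → Fin 4), ∀ l, l ≠ k → Q' l = Q (g l) := by
  classical
  set S : Finset (Fin 4) := Finset.univ.filter fun l => Q' l ∈ Finset.univ.image Q with hS
  have h3 : 3 ≤ S.card := by
    refine le_trans h (le_trans (Finset.card_le_card ?_) (Finset.card_image_le (f := Q')))
    intro x hx
    obtain ⟨h1, h2⟩ := Finset.mem_inter.1 hx
    obtain ⟨l, -, rfl⟩ := Finset.mem_image.1 h2
    exact Finset.mem_image.2 ⟨l, Finset.mem_filter.2 ⟨Finset.mem_univ _, h1⟩, rfl⟩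
  have h1 : Sᶜ.card ≤ 1 := by
    rw [Finset.card_compl, Fintype.card_fin]; omega
  obtain ⟨k, hk⟩ : ∃ k : Fin 4, ∀ l ∈ Sᶜ, l = k := by
    rcases Sᶜ.eq_empty_or_nonempty with h0 | ⟨k, hk⟩
    · exact ⟨0, by simp [h0]⟩
    · exact ⟨k, fun l hl => Finset.card_le_one.1 h1 l hl k hk⟩
  have hex : ∀ l : Fin 4, ∃ j : Fin 4, l ≠ k → Q' l = Q j := fun l => by
    by_cases hl : l = k
    · exact ⟨0, fun h => absurd hl h⟩
    · have : l ∈ S := by
        by_contra h0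
        exact hl (hk l (Finset.mem_compl.2 h0))
      obtain ⟨j, -, hj⟩ := Finset.mem_image.1 (Finset.mem_filter.1 this).2
      exact ⟨j, fun _ => hj.symm⟩
  choose g hg using hex
  exact ⟨k, g, hg⟩

/-- two quadruples with approximate squares that agree outside one slot are close in that slot -/
theorem slot_close {L : ℝ} (hL : 1 ≤ L) {ρ δ b : ℝ} (hρ : 0 < ρ) (hδ : δ ≤ ρ) (hb : b ≤ ρ)
    {γ : Circle → ℂ} {F : ℂ → ℂ} (hF : BiLip γ L F) {N : ℕ} {m : Fin 9}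
    {Q Q' : Fin 4 → Cell N} (hQ : (AQ γ F ρ δ b m Q).Nonempty)
    (hQ' : (AQ γ F ρ δ b m Q').Nonempty) {k : Fin 4} (h : ∀ l, l ≠ k → Q' l = Q l) {M : ℕ}
    (hM : 22 * L ^ 2 ≤ M) :
    |(Q' k).1.1 - (Q k).1.1| ≤ M + 1 ∧ |(Q' k).1.2 - (Q k).1.2| ≤ M + 1 := by
  obtain ⟨y, hy, s, hs, hys⟩ := hQ
  obtain ⟨y', hy', s', hs', hys'⟩ := hQ'
  refine inn_index hρ (hs' k) (hs k) ?_
  have hL0 : 0 < L := by linarith
  have h1 : ‖Lr fun l => F (γ (s' l)) - F (γ (s l))‖ ≤ 7 * ρ := by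
    rw [Lr_sub]
    have e : (Lr fun l => F (γ (s' l))) - (Lr fun l => F (γ (s l))) =
        ((y' + Lr fun l => F (γ (s' l))) - (y + Lr fun l => F (γ (s l)))) - (y' - y) := by abel
    rw [e]
    have a1 := norm_sub_le ((y' + Lr fun l => F (γ (s' l))) - (y + Lr fun l => F (γ (s l))))
      (y' - y)
    have a2 := norm_sub_le (y' + Lr fun l => F (γ (s' l))) (y + Lr fun l => F (γ (s l)))
    have a3 := norm_sub_le y' y
    linarith
  have h2 : ∀ l, l ≠ k → ‖F (γ (s' l)) - F (γ (s l))‖ ≤ L * (2 * ρ) := fun l hl => by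
    refine (hF _ _).2.trans (mul_le_mul_of_nonneg_left ?_ hL0.le)
    have := hs' l
    rw [h l hl] at this
    exact inn_near hρ this (hs l)
  have h3 := slot_le (u := fun l => F (γ (s' l)) - F (γ (s l))) h1 h2
  have h4 := (hF (s' k) (s k)).1
  have h5 : L * ‖F (γ (s' k)) - F (γ (s k))‖ ≤ L * (22 * L * ρ) := by
    refine mul_le_mul_of_nonneg_left (h3.trans ?_) hL0.le
    nlinarith [mul_le_mul_of_nonneg_right hL hρ.le]
  have h6 : 22 * L ^ 2 * ρ ≤ M * ρ := mul_le_mul_of_nonneg_right hM hρ.le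
  calc ‖γ (s' k) - γ (s k)‖ ≤ L * (22 * L * ρ) := h4.trans h5
    _ = 22 * L ^ 2 * ρ := by ring
    _ ≤ M * ρ := h6

theorem count (L : ℝ) (hL : 1 ≤ L) : ∃ Λ : ℕ, ∀ ρ δ b : ℝ, 0 < ρ → δ ≤ ρ → b ≤ ρ →
    ∀ (γ : Circle → ℂ) (F : ℂ → ℂ), BiLip γ L F → ∀ (N : ℕ) (m : Fin 9)
      (𝒬 : Finset (Fin 4 → Cell N)), (∀ Q ∈ 𝒬, Injective Q ∧ (AQ γ F ρ δ b m Q).Nonempty) →
      ∀ Q : Fin 4 → Cell N, (𝒬.filter (Rel Q)).card ≤ Λ := by
  classical
  obtain ⟨M, hM⟩ := exists_nat_ge (22 * L ^ 2)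
  refine ⟨Fintype.card (Fin 4 × (Fin 4 → Fin 4)) * ((2 * M + 3) * (2 * M + 3)), ?_⟩
  intro ρ δ b hρ hδ hb γ F hF N m 𝒬 h𝒬 Q
  set T : Fin 4 × (Fin 4 → Fin 4) → Finset (Fin 4 → Cell N) :=
    fun p => 𝒬.filter fun Q' => ∀ l, l ≠ p.1 → Q' l = Q (p.2 l) with hT
  have hsub : 𝒬.filter (Rel Q) ⊆ Finset.univ.biUnion T := by
    intro Q' hQ'
    obtain ⟨h1, h2⟩ := Finset.mem_filter.1 hQ'
    obtain ⟨k, g, hg⟩ := rel_pattern (h𝒬 Q' h1).1 h2
    exact Finset.mem_biUnion.2 ⟨(k, g), Finset.mem_univ _, Finset.mem_filter.2 ⟨h1, hg⟩⟩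
  refine (Finset.card_le_card hsub).trans ?_
  refine (Finset.card_biUnion_le_card_mul _ _ ((2 * M + 3) * (2 * M + 3)) ?_).trans
    (by rw [Finset.card_univ])
  rintro ⟨k, g⟩ -
  rcases (T (k, g)).eq_empty_or_nonempty with h0 | ⟨Q0, hQ0⟩
  · simp [h0]
  obtain ⟨h01, h02⟩ := Finset.mem_filter.1 hQ0
  have hcard : (Finset.Icc ((Q0 k).1.1 - (M + 1)) ((Q0 k).1.1 + (M + 1)) ×ˢ
      Finset.Icc ((Q0 k).1.2 - (M + 1)) ((Q0 k).1.2 + (M + 1))).card =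
      (2 * M + 3) * (2 * M + 3) := by
    have : ∀ a : ℤ, (Finset.Icc (a - (M + 1)) (a + (M + 1))).card = 2 * M + 3 := fun a => by
      rw [Int.card_Icc]; omega
    rw [Finset.card_product, this, this]
  rw [← hcard]
  refine Finset.card_le_card_of_injOn (fun Q' => (Q' k).1) ?_ ?_
  · intro Q' hQ'
    obtain ⟨h1, h2⟩ := Finset.mem_filter.1 (Finset.mem_coe.1 hQ')
    obtain ⟨a1, a2⟩ := slot_close hL hρ hδ hb hF (h𝒬 Q0 h01).2 (h𝒬 Q' h1).2 (k := k)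
      (fun l hl => (h2 l hl).trans (h02 l hl).symm) hM
    obtain ⟨a3, a4⟩ := abs_le.1 a1
    obtain ⟨a5, a6⟩ := abs_le.1 a2
    refine Finset.mem_coe.2 (Finset.mem_product.2 ⟨Finset.mem_Icc.2 ⟨?_, ?_⟩,
      Finset.mem_Icc.2 ⟨?_, ?_⟩⟩) <;> simp only <;> linarith
  · intro Q1 h1 Q2 h2 h12
    obtain ⟨-, a1⟩ := Finset.mem_filter.1 (Finset.mem_coe.1 h1)
    obtain ⟨-, a2⟩ := Finset.mem_filter.1 (Finset.mem_coe.1 h2)
    funext l
    by_cases hl : l = k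
    · subst hl; exact Subtype.ext h12
    · exact (a1 l hl).trans (a2 l hl).symm

end Pool.Agent.Lib.MP_5a3ebe_gt.Pv
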