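import Pool.Agent.Lib.MP_5a3ebe_gt.PvDens

/-!
The second moment over quadruples of cells.
-/

set_option linter.unusedVariables false

namespace Pool.Agent.Lib.MP_5a3ebe_gt.Pv

open Set Complex MeasureTheory unitInterval Function
open Pool.Agent.Lib.MP_5a3ebe_gt.Gen (Lip Lm)
open scoped ENNReal

theorem amgm (a b : ℝ≥0∞) : 2 * (a * b) ≤ a ^ 2 + b ^ 2 := by
  rcases eq_or_ne a ∞ with rfl | ha
  · simp
  rcases eq_or_ne b ∞ with rfl | hb
  · simp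
  lift a to NNReal using ha
  lift b to NNReal using hb
  have : 2 * ((a : ℝ) * b) ≤ a ^ 2 + b ^ 2 := by nlinarith [sq_nonneg ((a : ℝ) - b)]
  exact_mod_cast this

theorem cs_set {α : Type*} [MeasurableSpace α] (μ : Measure α) {F : α → ℝ≥0∞} (hF : Measurable F)
    {G : Set α} : (∫⁻ p in G, F p ∂μ) ^ 2 ≤ (∫⁻ p, F p ^ 2 ∂μ) * μ G := by
  have h := ENNReal.lintegral_mul_le_Lp_mul_Lq (μ.restrict G) Real.HolderConjugate.two_two
    hF.aemeasurable (g := fun _ => 1) aemeasurable_const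
  simp only [Pi.mul_apply, mul_one, lintegral_const, one_mul, one_pow,
    Measure.restrict_apply MeasurableSet.univ, univ_inter, ENNReal.rpow_ofNat] at h
  calc _ ≤ ((∫⁻ p in G, F p ^ 2 ∂μ) ^ (1 / 2 : ℝ) * μ G ^ (1 / 2 : ℝ)) ^ 2 := by gcongr
    _ = (∫⁻ p in G, F p ^ 2 ∂μ) * μ G := by
        rw [← ENNReal.mul_rpow_of_nonneg _ _ (by norm_num), ← ENNReal.rpow_natCast,
          ← ENNReal.rpow_mul]
        norm_num
    _ ≤ _ := mul_le_mul_left (setLIntegral_le_lintegral _ _) _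

theorem Rel.symm {ι : Type} [DecidableEq ι] {Q Q' : Fin 4 → ι} (h : Rel Q Q') : Rel Q' Q := by
  unfold Rel at h ⊢
  rwa [Finset.inter_comm]

theorem two_free {ι : Type} [DecidableEq ι] {Q Q' : Fin 4 → ι} (hQ' : Injective Q')
    (h : ¬ Rel Q Q') : ∃ k l, k ≠ l ∧ ∀ j, Q j ≠ Q' k ∧ Q j ≠ Q' l := by
  have h1 : (Finset.univ.filter fun k => Q' k ∈ Finset.univ.image Q).card ≤
      (Finset.univ.image Q ∩ Finset.univ.image Q').card :=
    Finset.card_le_card_of_injOn Q' (fun k hk => by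
      simp only [Finset.coe_filter, mem_ofPred_eq] at hk
      exact Finset.mem_coe.2 (Finset.mem_inter.2 ⟨hk.2, Finset.mem_image_of_mem _ hk.1⟩))
      hQ'.injOn
  have h2 := Finset.card_filter_add_card_filter_not (s := (Finset.univ : Finset (Fin 4)))
    fun k => Q' k ∈ Finset.univ.image Q
  rw [Finset.card_univ, Fintype.card_fin] at h2
  unfold Rel at h
  obtain ⟨k, hk, l, hl, hkl⟩ := Finset.one_lt_card.1
    (show 1 < (Finset.univ.filter fun k => ¬ Q' k ∈ Finset.univ.image Q).card by omega)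
  exact ⟨k, l, hkl, fun j =>
    ⟨fun e => (Finset.mem_filter.1 hk).2 (e ▸ Finset.mem_image_of_mem _ (Finset.mem_univ j)),
      fun e => (Finset.mem_filter.1 hl).2 (e ▸ Finset.mem_image_of_mem _ (Finset.mem_univ j))⟩⟩

theorem moment {ι Ξ : Type} [Fintype ι] [DecidableEq ι] [MeasureSpace Ξ]
    [IsProbabilityMeasure (volume : Measure Ξ)] {b : ℝ} (hb : 0 < b) (𝒬 : Finset (Fin 4 → ι))
    (hinj : ∀ Q ∈ 𝒬, Injective Q) (f : (Fin 4 → ι) → Ξ → ℂ × ℂ → ℝ≥0∞)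
    (hf : ∀ Q, Measurable (uncurry (f Q))) (m : (Fin 4 → ι) → ℝ≥0∞) (hm : ∀ Q, m Q ≠ ∞)
    {c C Φ : ℝ≥0∞} (hc : c ≠ ∞) (hC : C ≠ ∞) (hΦ : Φ ≠ ∞) {Λ : ℕ}
    (h1 : ∀ Q ∈ 𝒬, ∀ ξ, ∫⁻ y, f Q ξ y ≤ C * m Q)
    (h2 : ∀ Q ∈ 𝒬, ∀ ξ, ∫⁻ y, f Q ξ y ^ 2 ≤ Φ * m Q)
    (hΛ : ∀ Q ∈ 𝒬, (𝒬.filter (Rel Q)).card ≤ Λ)
    {G : Set ((ι → I × I) × Ξ)} (hG : MeasurableSet G)
    (h3 : ∀ Q ∈ 𝒬, c * m Q / ENNReal.ofReal (b ^ 4) ≤ ∫⁻ p in G, f Q p.2 (yQ b Q p.1)) :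
    c ^ 2 * min 1 ((∑ Q ∈ 𝒬, m Q) / ENNReal.ofReal (b ^ 4)) ≤ (Λ * Φ + C ^ 2) * volume G := by
  set β := (ENNReal.ofReal (b ^ 4))⁻¹ with hβ
  have hβ' : β ≠ ∞ := ENNReal.inv_ne_top.2 (by simp; positivity)
  simp only [div_eq_mul_inv, ← hβ] at h3 ⊢
  set M := (∑ Q ∈ 𝒬, m Q) * β with hM
  have hM' : M ≠ ∞ := ENNReal.mul_ne_top (ENNReal.sum_ne_top.2 fun Q _ => hm Q) hβ'
  let φ : (Fin 4 → ι) → (ι → I × I) × Ξ → ℝ≥0∞ := fun Q p => f Q p.2 (yQ b Q p.1)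
  have mφ : ∀ Q, Measurable (φ Q) := fun Q =>
    (hf Q).comp (measurable_snd.prodMk ((measurable_yQ b Q).comp measurable_fst))
  have mφ2 : ∀ Q Q', Measurable fun p => φ Q p * φ Q' p := fun Q Q' => (mφ Q).mul (mφ Q')
  have mf : ∀ Q ξ, Measurable (f Q ξ) := fun Q ξ => (hf Q).comp measurable_prodMk_left
  have fub : ∀ {g : (ι → I × I) × Ξ → ℝ≥0∞} {r : ℝ≥0∞}, Measurable g →
      (∀ ξ, ∫⁻ X, g (X, ξ) ≤ r) → ∫⁻ p, g p ≤ r := fun {g r} hg h => by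
    rw [Measure.volume_eq_prod, lintegral_prod_symm' _ hg]
    exact (lintegral_mono h).trans (by simp)
  have e1 : c * M ≤ ∫⁻ p in G, ∑ Q ∈ 𝒬, φ Q p := by
    rw [lintegral_finsetSum _ fun Q _ => mφ Q, hM, ← mul_assoc, Finset.mul_sum, Finset.sum_mul]
    exact Finset.sum_le_sum h3
  have e2 : ∀ Q ∈ 𝒬, ∫⁻ p, φ Q p ^ 2 ≤ Φ * m Q * β := fun Q hQ =>
    fub ((mφ Q).pow_const 2) fun ξ =>
      (dens_up' hb (hinj Q hQ) ((mf Q ξ).pow_const 2)).trans (mul_le_mul_left (h2 Q hQ ξ) _)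
  have e3 : ∀ Q ∈ 𝒬, ∀ Q' ∈ 𝒬, ¬ Rel Q Q' →
      ∫⁻ p, φ Q p * φ Q' p ≤ C * m Q * β * (C * m Q' * β) := fun Q hQ Q' hQ' h => by
    obtain ⟨k, l, hkl, hj⟩ := two_free (hinj Q' hQ') h
    refine fub (mφ2 Q Q') fun ξ => ?_
    refine (dens_mul hb (hinj Q' hQ') hkl (f := fun X => f Q ξ (yQ b Q X))
      ((mf Q ξ).comp (measurable_yQ b Q)) (fun w x x' => ?_) (mf Q' ξ)).trans (mul_le_mul'
        ((dens_up' hb (hinj Q hQ) (mf Q ξ)).trans (mul_le_mul_left (h1 Q hQ ξ) _))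
        (mul_le_mul_left (h1 Q' hQ' ξ) _))
    simp only [yQ, update_of_ne (hj _).1, update_of_ne (hj _).2]
  have e4 : ∑ Q ∈ 𝒬, ∑ Q' ∈ 𝒬.filter (Rel Q), ∫⁻ p, φ Q p * φ Q' p ≤ Λ * Φ * M := by
    refine (ENNReal.mul_le_mul_iff_right two_ne_zero ENNReal.ofNat_ne_top).1 ?_
    have k : ∑ Q ∈ 𝒬, ∑ _Q' ∈ 𝒬.filter (Rel Q), Φ * m Q * β ≤ Λ * Φ * M := by
      rw [hM, Finset.sum_mul, Finset.mul_sum]
      refine Finset.sum_le_sum fun Q hQ => ?_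
      rw [Finset.sum_const, nsmul_eq_mul]
      calc _ ≤ (Λ : ℝ≥0∞) * (Φ * m Q * β) := by gcongr; exact_mod_cast hΛ Q hQ
        _ = _ := by ring
    calc _ ≤ ∑ Q ∈ 𝒬, ∑ Q' ∈ 𝒬.filter (Rel Q), (Φ * m Q * β + Φ * m Q' * β) := by
          rw [Finset.mul_sum]
          refine Finset.sum_le_sum fun Q hQ => ?_
          rw [Finset.mul_sum]
          refine Finset.sum_le_sum fun Q' hQ' => ?_
          rw [← lintegral_const_mul _ (mφ2 Q Q')]
          refine (lintegral_mono fun p => amgm _ _).trans ?_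
          rw [lintegral_add_left ((mφ Q).pow_const 2)]
          exact add_le_add (e2 Q hQ) (e2 Q' (Finset.mem_filter.1 hQ').1)
      _ ≤ Λ * Φ * M + Λ * Φ * M := by
          simp only [Finset.sum_add_distrib]
          refine add_le_add k (le_trans (le_of_eq ?_) k)
          refine Finset.sum_comm' fun Q Q' => ?_
          simp only [Finset.mem_filter]
          exact ⟨fun h => ⟨⟨h.1, h.2.2.symm⟩, h.2.1⟩, fun h => ⟨h.1.1, h.2, h.1.2.symm⟩⟩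
      _ = _ := (two_mul _).symm
  have e5 : ∫⁻ p, (∑ Q ∈ 𝒬, φ Q p) ^ 2 ≤ Λ * Φ * M + C ^ 2 * M ^ 2 := by
    simp only [sq (∑ Q ∈ 𝒬, φ Q _), Finset.sum_mul_sum]
    rw [lintegral_finsetSum _ fun Q _ => Finset.measurable_sum _ fun Q' _ => mφ2 Q Q']
    calc _ = ∑ Q ∈ 𝒬, ((∑ Q' ∈ 𝒬.filter (Rel Q), ∫⁻ p, φ Q p * φ Q' p) +
            ∑ Q' ∈ 𝒬.filter (fun Q' => ¬ Rel Q Q'), ∫⁻ p, φ Q p * φ Q' p) := by
          refine Finset.sum_congr rfl fun Q _ => ?_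
          rw [lintegral_finsetSum _ fun Q' _ => mφ2 Q Q',
            Finset.sum_filter_add_sum_filter_not]
      _ ≤ _ := by
          rw [Finset.sum_add_distrib]
          refine add_le_add e4 ?_
          calc _ ≤ ∑ Q ∈ 𝒬, ∑ Q' ∈ 𝒬, C * m Q * β * (C * m Q' * β) := by
                refine Finset.sum_le_sum fun Q hQ => ?_
                refine (Finset.sum_le_sum fun Q' hQ' => e3 Q hQ Q' (Finset.mem_filter.1 hQ').1
                  (Finset.mem_filter.1 hQ').2).trans ?_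
                exact Finset.sum_le_sum_of_subset (Finset.filter_subset _ _)
            _ = _ := by
                rw [← Finset.sum_mul_sum, ← Finset.sum_mul, ← Finset.mul_sum, hM]
                ring
  have e6 : (c * M) ^ 2 ≤ (Λ * Φ * M + C ^ 2 * M ^ 2) * volume G :=
    (pow_le_pow_left' e1 2).trans ((cs_set volume (Finset.measurable_sum _ fun Q _ => mφ Q)).trans
      (mul_le_mul_left e5 _))
  rcases eq_or_ne M 0 with h0 | h0
  · simp [h0]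
  rcases le_total M 1 with hle | hle
  · rw [min_eq_right hle]
    refine (ENNReal.mul_le_mul_iff_right h0 hM').1 ?_
    calc _ = (c * M) ^ 2 := by ring
      _ ≤ (Λ * Φ * M + C ^ 2 * (M * 1)) * volume G := e6.trans (by rw [sq M]; gcongr)
      _ = _ := by ring
  · rw [min_eq_left hle]
    refine (ENNReal.mul_le_mul_iff_right (pow_ne_zero 2 h0) (ENNReal.pow_ne_top hM')).1 ?_
    calc _ = (c * M) ^ 2 := by ring
      _ ≤ (Λ * Φ * (M * M) + C ^ 2 * M ^ 2) * volume G := by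
          refine e6.trans ?_
          gcongr
          exact le_mul_of_one_le_right' hle
      _ = _ := by ring

end Pool.Agent.Lib.MP_5a3ebe_gt.Pv
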