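import Pool.Agent.Lib.MP_5a3ebe_gt.PvLocal
import Pool.Agent.Lib.MP_5a3ebe_gt.PvMom
import Pool.Agent.Lib.MP_5a3ebe_gt.PvCount

/-!
One stage, with the other grids fixed.
-/

set_option linter.unusedVariables false

namespace Pool.Agent.Lib.MP_5a3ebe_gt.Pv

open Set Complex MeasureTheory unitInterval Function
open Pool.Agent.Lib.MP_5a3ebe_gt.Gen (Lip Lm)
open scoped ENNReal

theorem AQ_measurable (γ : Circle → ℂ) (F : ℂ → ℂ) (ρ δ b : ℝ) (m : Fin 9) {N : ℕ}
    (Q : Fin 4 → Cell N) : MeasurableSet (AQ γ F ρ δ b m Q) := by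
  have h1 : IsClosed {y : ℂ × ℂ | ‖y‖ ≤ b / 8} := isClosed_le continuous_norm continuous_const
  have h2 : IsOpen {y : ℂ × ℂ | ∃ s : Fin 4 → Circle, (∀ k, Inn ρ m (Q k) (γ (s k))) ∧
      ‖y + Lr fun k => F (γ (s k))‖ < 3 * δ} := by
    refine isOpen_iff_forall_mem_open.2 fun y ⟨s, hs, hy⟩ =>
      ⟨{y : ℂ × ℂ | ‖y + Lr fun k => F (γ (s k))‖ < 3 * δ}, fun y' hy' => ⟨s, hs, hy'⟩, ?_, hy⟩
    exact isOpen_lt (continuous_id.add continuous_const).norm continuous_const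
  exact h1.measurableSet.inter h2.measurableSet

/-- a bounded measurable set is cut into finitely many small pieces -/
theorem cond_pieces {A : Set (ℂ × ℂ)} (hA : MeasurableSet A) {r δ : ℝ} (hδ : 0 < δ)
    (hr : ∀ y ∈ A, ‖y‖ ≤ r) :
    ∃ (n : ℕ) (B : Fin n → Set (ℂ × ℂ)) (pt : Fin n → ℂ × ℂ), (∀ i, MeasurableSet (B i)) ∧
      Pairwise (onFun Disjoint B) ∧ (∀ i, pt i ∈ A) ∧ (∀ i, ∀ y ∈ B i, ‖y - pt i‖ ≤ δ) ∧
      ∑ i, volume (B i) = volume A := by
  have tb : TotallyBounded A := (isCompact_closedBall (0 : ℂ × ℂ) r).totallyBounded.subset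
    fun y hy => mem_closedBall_zero_iff.2 (hr y hy)
  obtain ⟨t, htA, htf, hc⟩ := Metric.finite_approx_of_totallyBounded tb δ hδ
  obtain ⟨n, pt, -, rfl⟩ := htf.fin_param
  set D : Fin n → Set (ℂ × ℂ) := disjointed fun i => Metric.ball (pt i) δ with hD
  have mD : ∀ i, MeasurableSet (D i) := fun i => by
    rw [hD, disjointed_eq_inter_compl]
    exact Metric.isOpen_ball.measurableSet.inter (MeasurableSet.iInter fun j =>
      MeasurableSet.iInter fun _ => Metric.isOpen_ball.measurableSet.compl)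
  have dD : Pairwise (onFun Disjoint fun i => A ∩ D i) := fun i j hij =>
    (disjoint_disjointed (fun i => Metric.ball (pt i) δ) hij).mono inter_subset_right
      inter_subset_right
  refine ⟨n, fun i => A ∩ D i, pt, fun i => hA.inter (mD i), dD, fun i => htA ⟨i, rfl⟩,
    fun i y hy => ?_, ?_⟩
  · exact (mem_ball_iff_norm.1 (disjointed_subset (fun i => Metric.ball (pt i) δ) i hy.2)).le
  · rw [← tsum_fintype (L := SummationFilter.unconditional _),
      ← measure_iUnion dD fun i => hA.inter (mD i), ← inter_iUnion, hD, iUnion_disjointed]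
    congr 1
    refine inter_eq_left.2 fun y hy => ?_
    have := hc hy
    rwa [biUnion_range] at this

/-- the test function of one quadruple of cells -/
theorem cond_one {ι Ξ : Type} [Fintype ι] [DecidableEq ι] [MeasureSpace Ξ]
    [IsProbabilityMeasure (volume : Measure Ξ)] {b : ℝ} (hb : 0 < b) {Q : Fin 4 → ι}
    (hQ : Injective Q) {n : ℕ} (P : Fin n → Plate) (d : Fin n → ℝ≥0∞) (z : Fin n → Ξ → ℂ × ℂ)
    (good : Fin n → Set Ξ) {C c η R0 : ℝ} (hC : 0 ≤ C) (hc : 0 < c) {Φ : ℝ≥0∞}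
    (hP : ∀ i, (P i).Valid C η R0) (hz : ∀ i, Measurable (z i))
    (hg : ∀ i, MeasurableSet (good i)) (hg2 : ∀ i, 1 / 2 ≤ volume (good i))
    {G : Set ((ι → I × I) × Ξ)} (hG : MeasurableSet G)
    (hS : ∀ i, ∀ μ ∈ good i, ∃ S : Set (ℂ × ℂ), MeasurableSet S ∧
      (∀ y ∈ S, y - z i μ ∈ (P i).V C) ∧ ENNReal.ofReal (c * (P i).v) ≤ volume S ∧
      ∀ X, yQ b Q X ∈ S → (X, μ) ∈ G)
    (hb2 : ∀ i μ y, y - z i μ ∈ (P i).V C → ‖y‖ ≤ b / 2)
    (hl2 : ∀ μ, ∑ i, ∑ j, d i * d j *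
      volume ({y | y - z i μ ∈ (P i).V C} ∩ {y | y - z j μ ∈ (P j).V C}) /
        (ENNReal.ofReal (P i).v * ENNReal.ofReal (P j).v) ≤ Φ * ∑ i, d i) :
    ∃ f : Ξ → ℂ × ℂ → ℝ≥0∞, Measurable (uncurry f) ∧
      (∀ ξ, ∫⁻ y, f ξ y ≤ ENNReal.ofReal (16 * C ^ 4) * ∑ i, d i) ∧
      (∀ ξ, ∫⁻ y, f ξ y ^ 2 ≤ Φ * ∑ i, d i) ∧
      ENNReal.ofReal (c / 2 ^ 17) * (∑ i, d i) / ENNReal.ofReal (b ^ 4) ≤
        ∫⁻ p in G, f p.2 (yQ b Q p.1) := by
  have v0 : ∀ i, 0 < (P i).v := fun i =>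
    mul_pos (mul_pos (pow_pos ((hP i).s0.trans_le (hP i).s1) 2) (pow_pos (hP i).s0 2)) (hP i).om0
  have v1 : ∀ i, ENNReal.ofReal (P i).v ≠ 0 := fun i => by simpa using v0 i
  set a : Fin n → ℝ≥0∞ := fun i => d i / ENNReal.ofReal (P i).v with ha
  have av : ∀ i, a i * ENNReal.ofReal (P i).v = d i := fun i =>
    ENNReal.div_mul_cancel (v1 i) ENNReal.ofReal_ne_top
  have mV : ∀ i, MeasurableSet ((P i).V C) := fun i => by
    simpa using (P i).measurableSet_V C 0
  set W : Fin n → Ξ → Set (ℂ × ℂ) := fun i μ => {y | y - z i μ ∈ (P i).V C} with hW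
  have mW : ∀ i μ, MeasurableSet (W i μ) := fun i μ => (P i).measurableSet_V C _
  refine ⟨fun ξ y => ∑ i, (W i ξ).indicator (fun _ => a i) y, ?_, fun ξ => ?_, fun ξ => ?_, ?_⟩
  · refine Finset.measurable_sum (f := fun i (p : Ξ × (ℂ × ℂ)) =>
      {p : Ξ × (ℂ × ℂ) | p.2 - z i p.1 ∈ (P i).V C}.indicator (fun _ => a i) p) _ fun i _ => ?_
    exact measurable_const.indicator ((measurable_snd.sub ((hz i).comp measurable_fst)) (mV i))
  · rw [lintegral_finsetSum _ fun i _ => measurable_const.indicator (mW i ξ), Finset.mul_sum]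
    refine Finset.sum_le_sum fun i _ => ?_
    rw [lintegral_indicator_const (mW i ξ)]
    calc a i * volume (W i ξ) ≤ a i * ENNReal.ofReal (16 * C ^ 4 * (P i).v) := by
          gcongr; exact vol_V' (hP i) _
      _ = _ := by rw [ENNReal.ofReal_mul (by positivity), mul_left_comm, av]
  · have e : ∀ y, (∑ i, (W i ξ).indicator (fun _ => a i) y) ^ 2 =
        ∑ i, ∑ j, (W i ξ ∩ W j ξ).indicator (fun _ => a i * a j) y := fun y => by
      rw [sq, Finset.sum_mul_sum]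
      exact Finset.sum_congr rfl fun i _ => Finset.sum_congr rfl fun j _ =>
        (inter_indicator_mul (fun _ => a i) (fun _ => a j) y).symm
    simp only [e]
    rw [lintegral_finsetSum _ fun i _ => Finset.measurable_sum _ fun j _ =>
      measurable_const.indicator ((mW i ξ).inter (mW j ξ))]
    refine le_trans (le_of_eq ?_) (hl2 ξ)
    refine Finset.sum_congr rfl fun i _ => ?_
    rw [lintegral_finsetSum _ fun j _ => measurable_const.indicator ((mW i ξ).inter (mW j ξ))]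
    refine Finset.sum_congr rfl fun j _ => ?_
    rw [lintegral_indicator_const ((mW i ξ).inter (mW j ξ))]
    simp only [ha, div_eq_mul_inv]
    rw [ENNReal.mul_inv (Or.inl (v1 i)) (Or.inl ENNReal.ofReal_ne_top)]
    ring
  · set U : Fin n → Set ((ι → I × I) × Ξ) := fun i =>
      {p | yQ b Q p.1 - z i p.2 ∈ (P i).V C} with hU
    have mU : ∀ i, MeasurableSet (U i) := fun i =>
      (((yQ_continuous b Q).measurable.comp measurable_fst).sub
        ((hz i).comp measurable_snd)) (mV i)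
    change _ ≤ ∫⁻ p in G, ∑ i, (U i).indicator (fun _ => a i) p
    rw [lintegral_finsetSum _ fun i _ => measurable_const.indicator (mU i), Finset.mul_sum,
      div_eq_mul_inv, Finset.sum_mul]
    refine Finset.sum_le_sum fun i _ => ?_
    rw [lintegral_indicator_const (mU i), Measure.restrict_apply (mU i)]
    set k : ℝ≥0∞ := ENNReal.ofReal (c * (P i).v) / ENNReal.ofReal (2 ^ 16 * b ^ 4) with hk
    have low : k * (1 / 2) ≤ volume (U i ∩ G) := by
      rw [Measure.volume_eq_prod, Measure.prod_apply_symm ((mU i).inter hG)]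
      calc k * (1 / 2) ≤ k * volume (good i) := by gcongr; exact hg2 i
        _ = ∫⁻ μ, (good i).indicator (fun _ => k) μ := (lintegral_indicator_const (hg i) k).symm
        _ ≤ _ := by
          refine lintegral_mono fun μ => ?_
          by_cases hμ : μ ∈ good i
          · rw [indicator_of_mem hμ]
            obtain ⟨S, mS, hSV, hSv, hSG⟩ := hS i μ hμ
            calc k ≤ volume S / ENNReal.ofReal (2 ^ 16 * b ^ 4) := by rw [hk]; gcongr
              _ ≤ volume {X : ι → I × I | yQ b Q X ∈ S} :=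
                dens_low hb hQ mS fun y hy => hb2 i μ y (hSV y hy)
              _ ≤ _ := measure_mono fun X hX =>
                (show (X, μ) ∈ U i ∧ (X, μ) ∈ G from ⟨hSV _ hX, hSG X hX⟩)
          · rw [indicator_of_notMem hμ]; exact zero_le
    have ek : k * (1 / 2) = ENNReal.ofReal (P i).v *
        (ENNReal.ofReal (c / 2 ^ 17) * (ENNReal.ofReal (b ^ 4))⁻¹) := by
      have h2 : (1 / 2 : ℝ≥0∞) = ENNReal.ofReal (1 / 2) := by
        rw [ENNReal.ofReal_div_of_pos two_pos]; simp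
      have hv := v0 i
      rw [hk, h2, ← ENNReal.ofReal_div_of_pos (by positivity), ← ENNReal.ofReal_mul (by positivity),
        ← ENNReal.ofReal_inv_of_pos (by positivity), ← ENNReal.ofReal_mul (by positivity),
        ← ENNReal.ofReal_mul (by positivity)]
      congr 1
      field_simp
    calc ENNReal.ofReal (c / 2 ^ 17) * d i * (ENNReal.ofReal (b ^ 4))⁻¹
        = a i * (k * (1 / 2)) := by rw [ek, ← mul_assoc (a i), av]; ring
      _ ≤ _ := by gcongr

theorem condP (L : ℝ) (hL : 1 ≤ L) : ∃ p q η0 : ℝ, 0 < p ∧ 0 < q ∧ 0 < η0 ∧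
    ∀ η : ℝ, 0 < η → η ≤ η0 → ∀ R0 : ℝ, 0 < R0 → ∀ (N : ℕ) (γ : Circle → ℂ), Continuous γ →
    (∀ s, ‖γ s‖ ≤ ((N : ℝ) - 2) * (R0 / η)) → ∀ F : ℂ → ℂ, BiLip γ L F →
    ∀ (Θ : Type) [TopologicalSpace Θ] [MeasurableSpace Θ] [OpensMeasurableSpace Θ]
      (ν : Measure Θ) [IsProbabilityMeasure ν] (τ : Θ → ℂ → ℂ), Continuous (uncurry τ) →
      (∀ θ z, ‖τ θ z‖ ≤ η ^ 102 * R0) →
    ∀ (m : Fin 9) (G : Set ((Cell N → I × I) × (Fin 9 × Cell N → I × I))), MeasurableSet G →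
      (∀ X μ, ENNReal.ofReal p ≤ ν {θ | Sq γ fun w =>
          F w + gridX (R0 / η ^ 101) m (fun u => ((R0 / η : ℝ) : ℂ) * val (X u)) w +
            fieldA (R0 / η) (fun i => ((η ^ 100 : ℝ) : ℂ) * val (μ i)) w + τ θ w} → (X, μ) ∈ G) →
      ENNReal.ofReal (q * η ^ 98) * volume {X : Cell N → I × I | ∃ Q : Fin 4 → Cell N,
          Injective Q ∧ yQ (R0 / η / 64) Q X ∈
            AQ γ F (R0 / η ^ 101) (η ^ 102 * R0) (R0 / η) m Q} ≤ volume G := by
  classical
  obtain ⟨C, c, p, η1, hC, hc, hp, hη1, hloc⟩ := localP L hL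
  obtain ⟨C', η2, hC', hη2, hl2⟩ := l2 C hC
  obtain ⟨Λ, hΛ⟩ := count L hL
  have hC0 : 0 < C := one_pos.trans_le hC
  refine ⟨p, (c / 2 ^ 17) ^ 2 / (64 ^ 4 * (Λ * C' + (16 * C ^ 4) ^ 2)),
    min (min η1 η2) (min (1 / 100) (1 / (8 * C))), hp, by positivity, by positivity,
    fun η hη hη0 R0 hR0 N γ hγ hγN F hF Θ _ _ _ ν _ τ hτ hτb m G hG hGp => ?_⟩
  have e1 : η ≤ η1 := hη0.trans ((min_le_left _ _).trans (min_le_left _ _))
  have e2 : η ≤ η2 := hη0.trans ((min_le_left _ _).trans (min_le_right _ _))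
  have e3 : η ≤ 1 / 100 := hη0.trans ((min_le_right _ _).trans (min_le_left _ _))
  have e4 : η * (8 * C) ≤ 1 := (le_div_iff₀ (by positivity)).1
    (hη0.trans ((min_le_right _ _).trans (min_le_right _ _)))
  have e5 : η ≤ 1 := by linarith
  have pw : ∀ k : ℕ, η ^ k ≤ 1 := fun k => pow_le_one₀ hη.le e5
  have hb : 0 < R0 / η := by positivity
  have hδ : 0 < η ^ 102 * R0 := by positivity
  have small : 4 * (η ^ 102 * R0) + 54 * η ^ 99 * R0 ≤ η ^ 98 * R0 := by
    have h1 : η ^ 102 ≤ η ^ 99 := pow_le_pow_of_le_one hη.le e5 (by norm_num)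
    have h2 : η ^ 99 ≤ η ^ 98 * (1 / 100) := by
      rw [pow_succ]; gcongr
    have h3 : 0 < η ^ 98 := by positivity
    nlinarith
  have small2 : η ^ 98 * R0 ≤ C * R0 := by gcongr; exact (pw 98).trans hC
  have small3 : 8 * (C * R0) ≤ R0 / η := by
    rw [le_div_iff₀ hη]; nlinarith
  set A : (Fin 4 → Cell N) → Set (ℂ × ℂ) := fun Q =>
    AQ γ F (R0 / η ^ 101) (η ^ 102 * R0) (R0 / η) m Q with hA
  have mA : ∀ Q, MeasurableSet (A Q) := fun Q => AQ_measurable _ _ _ _ _ _ _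
  have fA : ∀ Q, volume (A Q) ≠ ∞ := fun Q => by
    have := PvCover.haar_vol
    exact ne_top_of_le_ne_top (measure_closedBall_lt_top (x := (0 : ℂ × ℂ)) (r := R0 / η / 8)).ne
      (measure_mono fun y hy => mem_closedBall_zero_iff.2 hy.1)
  have ex : ∀ Q : Fin 4 → Cell N, ∃ f : (Fin 9 × Cell N → I × I) → ℂ × ℂ → ℝ≥0∞,
      Measurable (uncurry f) ∧ (Injective Q →
      (∀ ξ, ∫⁻ y, f ξ y ≤ ENNReal.ofReal (16 * C ^ 4) * volume (A Q)) ∧
      (∀ ξ, ∫⁻ y, f ξ y ^ 2 ≤ ENNReal.ofReal (C' / η ^ 98) * volume (A Q)) ∧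
      ENNReal.ofReal (c / 2 ^ 17) * volume (A Q) / ENNReal.ofReal ((R0 / η) ^ 4) ≤
        ∫⁻ p in G, f p.2 (yQ (R0 / η) Q p.1)) := by
    intro Q
    by_cases hQ : Injective Q
    swap
    · exact ⟨fun _ _ => 0, measurable_const, fun h => absurd h hQ⟩
    obtain ⟨n, B, pt, mB, dB, hpt, hBpt, hsum⟩ := cond_pieces (mA Q) hδ fun y hy => hy.1
    choose s hs hs' using fun i => (hpt i).2
    choose P z good hP hz hzb mg hg hS using fun i =>
      hloc η hη e1 R0 hR0 N γ hγ hγN F hF Θ ν τ hτ hτb m Q hQ (s i) (hs i)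
    have near : ∀ i μ, ‖pt i - z i μ‖ ≤ 3 * (η ^ 102 * R0) + 54 * η ^ 99 * R0 := fun i μ => by
      have := norm_sub_le (pt i + Lr fun k => F (γ (s i k))) (z i μ + Lr fun k => F (γ (s i k)))
      rw [add_sub_add_right_eq_sub] at this
      linarith [hs' i, hzb i μ]
    obtain ⟨f, f0, f1, f2, f3⟩ := cond_one hb hQ P (fun i => volume (B i)) z good hC0.le hc
      (Φ := ENNReal.ofReal (C' / η ^ 98)) hP (fun i => (hz i).measurable) mg hg hG
      (fun i μ hμ => by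
        obtain ⟨S, a1, a2, a3, a4⟩ := hS i μ hμ
        exact ⟨S, a1, a2, a3, fun X hX => hGp X μ (a4 X hX)⟩)
      (fun i μ y hy => by
        have h1 := Plate.norm_le (hP i) hy
        have h2 : ‖pt i‖ ≤ R0 / η / 8 := (hpt i).1
        have h3 : y = (y - z i μ) - (pt i - z i μ) + pt i := by abel
        have h4 := norm_add_le ((y - z i μ) - (pt i - z i μ)) (pt i)
        rw [← h3] at h4
        linarith [norm_sub_le (y - z i μ) (pt i - z i μ), near i μ])
      (fun μ => hl2 η hη e2 R0 hR0 (Fin n) P B (fun i => z i μ) hP mB dB fun i y hy => by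
        have := norm_add_le (y - pt i) (pt i - z i μ)
        rw [sub_add_sub_cancel] at this
        linarith [hBpt i y hy, near i μ])
    rw [hsum] at f1 f2 f3
    exact ⟨f, f0, fun _ => ⟨f1, f2, f3⟩⟩
  choose f f0 hf using ex
  set 𝒬 : Finset (Fin 4 → Cell N) := Finset.univ.filter fun Q => Injective Q ∧ (A Q).Nonempty
    with h𝒬
  have hq : ∀ Q ∈ 𝒬, Injective Q ∧ (A Q).Nonempty := fun Q hQ => (Finset.mem_filter.1 hQ).2
  have bρ : R0 / η ≤ R0 / η ^ 101 := by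
    gcongr
    exact pow_le_of_le_one hη.le e5 (by norm_num)
  have δρ : η ^ 102 * R0 ≤ R0 / η ^ 101 := by
    refine le_trans ?_ bρ
    rw [le_div_iff₀ hη]
    have : η ^ 102 * η ≤ 1 := by rw [← pow_succ]; exact pw _
    nlinarith
  have mom := moment hb 𝒬 (fun Q hQ => (hq Q hQ).1) f f0 (fun Q => volume (A Q)) fA
    (c := ENNReal.ofReal (c / 2 ^ 17)) (C := ENNReal.ofReal (16 * C ^ 4))
    (Φ := ENNReal.ofReal (C' / η ^ 98)) ENNReal.ofReal_ne_top ENNReal.ofReal_ne_top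
    ENNReal.ofReal_ne_top (Λ := Λ) (fun Q hQ => (hf Q (hq Q hQ).1).1)
    (fun Q hQ => (hf Q (hq Q hQ).1).2.1)
    (fun Q _ => hΛ _ _ _ (by positivity) δρ bρ γ F hF N m 𝒬 hq Q) hG
    (fun Q hQ => (hf Q (hq Q hQ).1).2.2)
  set M : ℝ≥0∞ := (∑ Q ∈ 𝒬, volume (A Q)) / ENNReal.ofReal ((R0 / η) ^ 4) with hM
  set E : Set (Cell N → I × I) := {X | ∃ Q : Fin 4 → Cell N,
    Injective Q ∧ yQ (R0 / η / 64) Q X ∈ A Q} with hE
  have one64 : (1 : ℝ≥0∞) ≤ ENNReal.ofReal (64 ^ 4) := ENNReal.one_le_ofReal.2 (by norm_num)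
  have up : volume E ≤ ENNReal.ofReal (64 ^ 4) * min 1 M := by
    rw [mul_min]
    refine le_min (prob_le_one.trans (by rwa [mul_one])) ?_
    calc volume E ≤ volume (⋃ Q ∈ 𝒬, {X : Cell N → I × I | yQ (R0 / η / 64) Q X ∈ A Q}) := by
          refine measure_mono fun X ⟨Q, h1, h2⟩ => mem_iUnion₂.2 ⟨Q, ?_, h2⟩
          exact Finset.mem_filter.2 ⟨Finset.mem_univ _, h1, _, h2⟩
      _ ≤ ∑ Q ∈ 𝒬, volume {X : Cell N → I × I | yQ (R0 / η / 64) Q X ∈ A Q} :=
          measure_biUnion_finset_le _ _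
      _ ≤ ∑ Q ∈ 𝒬, volume (A Q) / ENNReal.ofReal ((R0 / η / 64) ^ 4) := by
          refine Finset.sum_le_sum fun Q hQ => ?_
          have h := dens_up' (b := R0 / η / 64) (by positivity) (hq Q hQ).1
            (h := (A Q).indicator 1) (measurable_one.indicator (mA Q))
          rw [lintegral_indicator_one (mA Q)] at h
          refine le_trans (le_of_eq ?_) h
          exact (lintegral_indicator_one ((yQ_continuous _ Q).measurable (mA Q))).symm
      _ = _ := by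
          have e : (ENNReal.ofReal ((R0 / η / 64) ^ 4))⁻¹ =
              ENNReal.ofReal (64 ^ 4) * (ENNReal.ofReal ((R0 / η) ^ 4))⁻¹ := by
            rw [← ENNReal.ofReal_inv_of_pos (by positivity),
              ← ENNReal.ofReal_inv_of_pos (by positivity), ← ENNReal.ofReal_mul (by positivity)]
            congr 1
            field_simp
          rw [hM]
          simp only [div_eq_mul_inv (G := ℝ≥0∞)]
          rw [← Finset.sum_mul, e]
          ring
  set D : ℝ := Λ * (C' / η ^ 98) + (16 * C ^ 4) ^ 2 with hD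
  have D0 : 0 < D := by positivity
  have eD : (Λ : ℝ≥0∞) * ENNReal.ofReal (C' / η ^ 98) + ENNReal.ofReal (16 * C ^ 4) ^ 2 =
      ENNReal.ofReal D := by
    rw [hD, ENNReal.ofReal_add (by positivity) (by positivity),
      ENNReal.ofReal_mul (Nat.cast_nonneg _), ENNReal.ofReal_natCast,
      ENNReal.ofReal_pow (by positivity)]
  rw [eD, ← ENNReal.ofReal_pow (by positivity)] at mom
  set q : ℝ := (c / 2 ^ 17) ^ 2 / (64 ^ 4 * (Λ * C' + (16 * C ^ 4) ^ 2)) with hqd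
  have q0 : 0 < q := by positivity
  have real : D * (q * η ^ 98 * 64 ^ 4) ≤ (c / 2 ^ 17) ^ 2 := by
    have h1 : D * η ^ 98 ≤ Λ * C' + (16 * C ^ 4) ^ 2 := by
      have : D * η ^ 98 = Λ * C' + (16 * C ^ 4) ^ 2 * η ^ 98 := by rw [hD]; field_simp
      rw [this]
      gcongr
      exact mul_le_of_le_one_right (by positivity) (pw 98)
    calc D * (q * η ^ 98 * 64 ^ 4) = q * 64 ^ 4 * (D * η ^ 98) := by ring
      _ ≤ q * 64 ^ 4 * (Λ * C' + (16 * C ^ 4) ^ 2) := by gcongr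
      _ = _ := by rw [hqd]; field_simp
  refine (ENNReal.mul_le_mul_iff_right (a := ENNReal.ofReal D) (by simpa using D0)
    ENNReal.ofReal_ne_top).1 (le_trans ?_ mom)
  calc ENNReal.ofReal D * (ENNReal.ofReal (q * η ^ 98) * volume E)
      ≤ ENNReal.ofReal D * (ENNReal.ofReal (q * η ^ 98) * (ENNReal.ofReal (64 ^ 4) * min 1 M)) := by
        gcongr
    _ = ENNReal.ofReal (D * (q * η ^ 98 * 64 ^ 4)) * min 1 M := by
        rw [ENNReal.ofReal_mul D0.le, ENNReal.ofReal_mul (p := q * η ^ 98) (by positivity)]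
        ring
    _ ≤ _ := by gcongr

end Pool.Agent.Lib.MP_5a3ebe_gt.Pv
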