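import Pool.Agent.Lib.MP_5a3ebe_gt.W48GenB

/-! The image of four arcs under the square map has measure at least the determinant of the
chords; a Markov step over a random tail. -/

open MeasureTheory Set Complex Module
open scoped ENNReal Pointwise

namespace Pool.Agent.Lib.MP_5a3ebe_gt.PvCover

open Gen

/-- A set whose lattice translates cover the space is at least as large as the fundamental
domain. -/
theorem fund_le {E ι : Type*} [NormedAddCommGroup E] [NormedSpace ℝ E] [MeasurableSpace E]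
    [BorelSpace E] [Fintype ι] (μ : Measure E) [μ.IsAddHaarMeasure] (b : Basis ι ℝ E)
    {Z : Set E} (h : ∀ y, ∃ l : ι → ℤ, y - ∑ i, (l i : ℝ) • b i ∈ Z) :
    μ (ZSpan.fundamentalDomain b) ≤ μ Z := by
  have : FiniteDimensional ℝ E := b.finiteDimensional_of_finite
  have : Countable (Submodule.span ℤ (range b)).toAddSubgroup :=
    inferInstanceAs (Countable (Submodule.span ℤ (range b)))
  rw [(ZSpan.isAddFundamentalDomain' b μ).measure_eq_tsum Z]
  refine le_trans (measure_mono fun y hy => ?_) (measure_iUnion_le _)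
  obtain ⟨l, hl⟩ := h y
  have hm : ∑ i, (l i : ℝ) • b i ∈ (Submodule.span ℤ (range b)).toAddSubgroup := by
    refine Submodule.sum_mem _ fun i _ => ?_
    rw [Int.cast_smul_eq_zsmul]
    exact Submodule.smul_mem _ _ (Submodule.subset_span ⟨i, rfl⟩)
  refine mem_iUnion.2 ⟨⟨_, hm⟩, ⟨_, hl, ?_⟩, hy⟩
  show ∑ i, (l i : ℝ) • b i + (y - ∑ i, (l i : ℝ) • b i) = y
  abel

/-- The standard real basis of `ℂ × ℂ`. -/
noncomputable def b0 : Basis (Fin 4) ℝ (ℂ × ℂ) :=
  (basisOneI.prod basisOneI).reindex finSumFinEquiv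

theorem b0_haar : b0.addHaar = volume := by
  rw [b0, Basis.addHaar_reindex, Basis.prod_addHaar, ← toBasis_orthonormalBasisOneI,
    OrthonormalBasis.addHaar_eq_volume]
  rfl

theorem haar_vol : (volume : Measure (ℂ × ℂ)).IsAddHaarMeasure := by
  rw [← b0_haar]
  infer_instance

theorem b0_fund : volume (ZSpan.fundamentalDomain b0) = 1 := by
  have := haar_vol
  rw [measure_congr (ZSpan.fundamentalDomain_ae_parallelepiped b0 volume), ← b0_haar,
    Basis.addHaar_self]

theorem b0_repr (y : ℂ × ℂ) : ⇑(b0.repr y) = ![y.1.re, y.1.im, y.2.re, y.2.im] := by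
  funext i
  rw [b0, Basis.repr_reindex_apply]
  fin_cases i
  · exact (Basis.prod_repr_inl _ _ y 0).trans (by simp)
  · exact (Basis.prod_repr_inl _ _ y 1).trans (by simp)
  · exact (Basis.prod_repr_inr _ _ y 0).trans (by simp)
  · exact (Basis.prod_repr_inr _ _ y 1).trans (by simp)

theorem det_Tm (D : Fin 4 → ℂ) :
    |b0.det fun j => Tm D (Pi.single j 1)| = |dt (D 0) (D 1) (D 2) (D 3)| := by
  rw [Basis.det_apply, abs_eq_abs]
  left
  have : b0.toMatrix (fun j => Tm D (Pi.single j 1)) = Matrix.of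
      ![![(D 0).re, -(D 1).re, (D 2).re, -(D 3).re], ![(D 0).im, -(D 1).im, (D 2).im, -(D 3).im],
        ![-(D 0).re - (D 0).im, (D 1).im, 0, (D 3).re],
        ![(D 0).re - (D 0).im, -(D 1).re, 0, (D 3).im]] := by
    ext i j
    rw [Basis.toMatrix_apply, b0_repr]
    fin_cases i <;> fin_cases j <;> simp [Tm_apply, Lm] <;> ring
  rw [this]
  simp [Matrix.det_succ_row_zero, Fin.sum_univ_succ, Fin.succAbove, dt]
  ring

/-- The image of four arcs under the square map. -/
def Zs (x : Fin 4 → ℝ → ℂ) : Set (ℂ × ℂ) :=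
  (fun t : Fin 4 → ℝ => Lm fun j => x j (t j)) '' Icc 0 1

theorem continuous_sq {x : Fin 4 → ℝ → ℂ} (hx : ∀ j, Continuous (x j)) :
    Continuous fun t : Fin 4 → ℝ => Lm fun j => x j (t j) :=
  Lm_continuous.comp (continuous_pi fun j => (hx j).comp (continuous_apply j))

theorem isCompact_Zs {x : Fin 4 → ℝ → ℂ} (hx : ∀ j, Continuous (x j)) : IsCompact (Zs x) :=
  isCompact_Icc.image (continuous_sq hx)

theorem dt_le_Zs {x : Fin 4 → ℝ → ℂ} (hx : ∀ j, Continuous (x j)) :
    ENNReal.ofReal |dt (x 0 1 - x 0 0) (x 1 1 - x 1 0) (x 2 1 - x 2 0) (x 3 1 - x 3 0)| ≤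
      volume (Zs x) := by
  set D : Fin 4 → ℂ := fun j => x j 1 - x j 0 with hD
  change ENNReal.ofReal |dt (D 0) (D 1) (D 2) (D 3)| ≤ _
  by_cases h0 : dt (D 0) (D 1) (D 2) (D 3) = 0
  · simp [h0]
  have := haar_vol
  have hinj := inj_of_dt h0
  have hfin : finrank ℝ (Fin 4 → ℝ) = finrank ℝ (ℂ × ℂ) := by simp [finrank_prod]
  let b : Basis (Fin 4) ℝ (ℂ × ℂ) :=
    (Pi.basisFun ℝ (Fin 4)).map ((Tm D).linearEquivOfInjective hinj hfin)
  have hb : ∀ j, b j = Tm D (Pi.single j 1) := fun j => by simp [b]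
  have h1 := ZSpan.measure_fundamentalDomain b volume b0
  rw [b0_fund, mul_one, funext hb, det_Tm] at h1
  rw [← h1]
  refine fund_le volume b fun y => ?_
  obtain ⟨κ, hκ, H⟩ := surj hinj
  obtain ⟨B, hB⟩ := (isCompact_Zs hx).isBounded.exists_norm_le
  obtain ⟨N, H⟩ := H (B + ‖y‖)
  let v : Fin 4 → ℂ := ![0, 0, y.1 + y.2, y.2]
  have hv : Lm v = y := by simp [Lm, v]
  obtain ⟨t, ht, l, -, hl⟩ := H (fun j s => x j s - v j) (fun j => (hx j).sub continuous_const)
    (fun j => by simp [hD, hκ.le]) fun t ht => by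
      rw [Lm_sub, hv]
      exact (norm_sub_le _ _).trans (add_le_add (hB _ ⟨t, ht, rfl⟩) le_rfl)
  refine ⟨l, t, ht, ?_⟩
  have h2 : ∑ i, (l i : ℝ) • b i = Lm fun j => (l j : ℂ) * D j := by
    have : ∑ i, (l i : ℝ) • b i = Tm D fun j => (l j : ℝ) := by
      simp only [hb, ← map_smul, ← map_sum]
      congr 1
      funext j
      simp [Finset.sum_apply, Pi.single_apply]
    rw [this, Tm_apply]
    simp
  rw [Lm_add, Lm_sub, hv] at hl
  simp only [sub_sub_sub_cancel_right] at hl
  rw [h2]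
  show (Lm fun j => x j (t j)) = y - Lm fun j => (l j : ℂ) * (x j 1 - x j 0)
  linear_combination hl

/-- Markov step: if for almost every tail the section inside `V` has relative measure at least
`p`, then the points of `V` that are hit with probability at least `p / 2` have relative measure
at least `p / 2`. -/
theorem markov {E Ω : Type*} [MeasurableSpace E] [MeasurableSpace Ω] (ν : Measure E) [SFinite ν]
    (P : Measure Ω) [IsProbabilityMeasure P] {S : Set (E × Ω)} (hS : MeasurableSet S) {V : Set E}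
    (hV' : ν V ≠ ∞) {p : ℝ≥0∞} (hp : p ≠ ∞)
    (h : ∀ᵐ w ∂P, p * ν V ≤ ν {y | y ∈ V ∧ (y, w) ∈ S}) :
    p / 2 * ν V ≤ ν {y | y ∈ V ∧ p / 2 ≤ P {w | (y, w) ∈ S}} := by
  have hm : Measurable fun y => P {w | (y, w) ∈ S} := measurable_measure_prodMk_left hS
  have hG : MeasurableSet {y | p / 2 ≤ P {w | (y, w) ∈ S}} := measurableSet_le measurable_const hm
  have h1 : p * ν V ≤ ∫⁻ y in V, P {w | (y, w) ∈ S} ∂ν := by
    calc p * ν V = ∫⁻ _, p * ν V ∂P := by simp
      _ ≤ ∫⁻ w, (ν.restrict V) ((fun y => (y, w)) ⁻¹' S) ∂P := by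
          refine lintegral_mono_ae (h.mono fun w hw => ?_)
          rw [Measure.restrict_apply (measurable_prodMk_right hS), inter_comm]
          exact hw
      _ = ((ν.restrict V).prod P) S := (Measure.prod_apply_symm hS).symm
      _ = _ := Measure.prod_apply hS
  have h2 : ∫⁻ y in V, P {w | (y, w) ∈ S} ∂ν ≤
      p / 2 * ν V + ν {y | y ∈ V ∧ p / 2 ≤ P {w | (y, w) ∈ S}} := by
    calc ∫⁻ y in V, P {w | (y, w) ∈ S} ∂ν
        ≤ ∫⁻ y in V, p / 2 + indicator {y | p / 2 ≤ P {w | (y, w) ∈ S}} (fun _ => 1) y ∂ν := by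
          refine lintegral_mono fun y => ?_
          by_cases hy : y ∈ {y | p / 2 ≤ P {w | (y, w) ∈ S}}
          · rw [indicator_of_mem hy]
            exact prob_le_one.trans le_add_self
          · rw [indicator_of_notMem hy, add_zero]
            exact (not_le.1 hy).le
      _ = _ := by
          rw [lintegral_add_left measurable_const, setLIntegral_const,
            lintegral_indicator_const hG, one_mul, Measure.restrict_apply hG, inter_comm]
          rfl
  have h3 := h1.trans h2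
  nth_rewrite 1 [← ENNReal.add_halves p] at h3
  rw [add_mul] at h3
  exact (ENNReal.add_le_add_iff_left
    (ENNReal.mul_ne_top (ENNReal.div_ne_top hp two_ne_zero) hV')).1 h3

end Pool.Agent.Lib.MP_5a3ebe_gt.PvCover
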