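import Pool.Agent.Lib.MP_5a3ebe_gt.W48GenB

/-!
Prevalence of inscribed squares: the shared definitions.
-/

set_option linter.unusedVariables false

namespace Pool.Agent.Lib.MP_5a3ebe_gt.Pv

open Set Complex MeasureTheory unitInterval

/-- the bracket (determinant) of two plane vectors -/
def br (p q : ℂ) : ℝ := p.re * q.im - p.im * q.re

/-- the square map in turned coordinates (real coefficients) -/
def Lt (c : Fin 4 → ℂ) : ℂ × ℂ := (c 0 - c 1 + c 3, c 2 - c 1 - c 3)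

/-- the turning factors -/
def zt : Fin 4 → ℂ := ![1, 1 + Complex.I, Complex.I, Complex.I - 1]

/-- the square map: zero exactly on (possibly degenerate) squares -/
noncomputable def Lr (u : Fin 4 → ℂ) : ℂ × ℂ := Lt fun k => u k / zt k

/-- the determinant of `t ↦ Lt (t k • c k)` -/
def Dt (c : Fin 4 → ℂ) : ℝ :=
  br (c 0) (c 1) * br (c 2) (c 3) - br (c 0) (c 3) * br (c 1) (c 2)

/-- `Dt c = br (c k) (mk c k)` -/
def mk (c : Fin 4 → ℂ) (k : Fin 4) : ℂ :=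
  (br (c (k + 2)) (c (k + 3)) : ℂ) * c (k + 1) - (br (c (k + 1)) (c (k + 2)) : ℂ) * c (k + 3)

/-- a plate: direction, length, width, thickness and the slab functional -/
structure Plate where
  th : ℂ
  R : ℝ
  s : ℝ
  om : ℝ
  ps1 : ℝ
  ps2 : ℝ
  ph1 : ℝ
  ph2 : ℝ

noncomputable def Plate.al (P : Plate) (z : ℂ) : ℝ := ((starRingEnd ℂ) P.th * z).re / P.R

noncomputable def Plate.be (P : Plate) (z : ℂ) : ℝ := ((starRingEnd ℂ) P.th * z).im / P.s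

noncomputable def Plate.ell (P : Plate) (y : ℂ × ℂ) : ℝ :=
  P.ps1 * P.al y.1 + P.ps2 * P.al y.2 + P.ph1 * P.be y.1 + P.ph2 * P.be y.2

def Plate.V (P : Plate) (C : ℝ) : Set (ℂ × ℂ) :=
  {y | |P.al y.1| ≤ C ∧ |P.al y.2| ≤ C ∧ |P.be y.1| ≤ C ∧ |P.be y.2| ≤ C ∧ |P.ell y| ≤ C * P.om}

def Plate.v (P : Plate) : ℝ := P.R ^ 2 * P.s ^ 2 * P.om

structure Plate.Valid (P : Plate) (C η R0 : ℝ) : Prop where
  th : ‖P.th‖ = 1
  R1 : η * R0 / 4 ≤ P.R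
  R2 : P.R ≤ R0
  s0 : 0 < P.s
  s1 : P.s ≤ P.R
  om0 : 0 < P.om
  om1 : P.om ≤ 1
  om2 : η ^ 100 * P.R ≤ C * (P.s * P.om)
  ph : max |P.ph1| |P.ph2| = 1
  ps1 : |P.ps1| ≤ C
  ps2 : |P.ps2| ≤ C

/-- a point of the square `[-1,1]²` -/
noncomputable def val (w : I × I) : ℂ := ⟨2 * (w.1 : ℝ) - 1, 2 * (w.2 : ℝ) - 1⟩

/-- one-dimensional plateau function -/
noncomputable def b1 : ContDiffBump (0 : ℝ) := ⟨17 / 36, 35 / 72, by norm_num, by norm_num⟩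

/-- plateau function of the unit cell -/
noncomputable def b2 (z : ℂ) : ℝ := b1 z.re * b1 z.im

/-- the cells of one grid -/
abbrev Cell (N : ℕ) : Type := {u : ℤ × ℤ // u ∈ Finset.Icc (-(N : ℤ), -(N : ℤ)) ((N : ℤ), (N : ℤ))}

/-- centre of the cell `u` of the grid `m` at scale `ρ` -/
noncomputable def ctr (ρ : ℝ) (m : Fin 9) (u : ℤ × ℤ) : ℂ :=
  ⟨ρ * ((u.1 : ℝ) + (m : ℝ) / 9), ρ * ((u.2 : ℝ) + (m : ℝ) / 9)⟩

/-- `z` is well inside the cell `u` of the grid `m` -/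
def Inn (ρ : ℝ) (m : Fin 9) (u : ℤ × ℤ) (z : ℂ) : Prop :=
  |(z - ctr ρ m u).re| ≤ 4 / 9 * ρ ∧ |(z - ctr ρ m u).im| ≤ 4 / 9 * ρ

/-- translations on the cells of one grid -/
noncomputable def gridX (ρ : ℝ) {N : ℕ} (m : Fin 9) (x : Cell N → ℂ) (z : ℂ) : ℂ :=
  ∑ u : Cell N, (b2 ((z - ctr ρ m u) / ρ) : ℂ) * x u

/-- linear parts on the cells of all nine grids -/
noncomputable def fieldA (ρ : ℝ) {N : ℕ} (μ : Fin 9 × Cell N → ℂ) (z : ℂ) : ℂ :=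
  ∑ i : Fin 9 × Cell N, (b2 ((z - ctr ρ i.1 i.2) / ρ) : ℂ) * (μ i * (z - ctr ρ i.1 i.2))

/-- the sample space of one stage: the big grid, the translations, the linear parts -/
abbrev Om (N : ℕ) : Type := Fin 9 × (Fin 9 → Cell N → I × I) × (Fin 9 × Cell N → I × I)

/-- the law of one stage -/
noncomputable def law (N : ℕ) : Measure (Om N) :=
  (ProbabilityTheory.uniformOn (univ : Set (Fin 9))).prod volume

/-- the translation field; `m` is the big grid -/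
noncomputable def fieldX (η R0 : ℝ) {N : ℕ} (m : Fin 9) (w : Fin 9 → Cell N → I × I) (z : ℂ) : ℂ :=
  ∑ m' : Fin 9, gridX (R0 / η ^ 101) m'
    (fun u => ((if m' = m then R0 / η else R0 / η / 64 : ℝ) : ℂ) * val (w m' u)) z

/-- the field of one stage -/
noncomputable def fld (η R0 : ℝ) {N : ℕ} (ω : Om N) (z : ℂ) : ℂ :=
  fieldX η R0 ω.1 ω.2.1 z + fieldA (R0 / η) (fun i => ((η ^ 100 : ℝ) : ℂ) * val (ω.2.2 i)) z

/-- the curve `H ∘ γ` has an inscribed square -/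
def Sq (γ : Circle → ℂ) (H : ℂ → ℂ) : Prop :=
  ∃ z w : ℂ, w ≠ 0 ∧ z ∈ range (fun s => H (γ s)) ∧ z + w ∈ range (fun s => H (γ s)) ∧
    z + w + Complex.I * w ∈ range (fun s => H (γ s)) ∧ z + Complex.I * w ∈ range (fun s => H (γ s))

/-- `F` is bi-Lipschitz on the curve -/
def BiLip (γ : Circle → ℂ) (L : ℝ) (F : ℂ → ℂ) : Prop :=
  ∀ s t, ‖γ s - γ t‖ ≤ L * ‖F (γ s) - F (γ t)‖ ∧ ‖F (γ s) - F (γ t)‖ ≤ L * ‖γ s - γ t‖

/-- an approximate square with defect `δ` and all distances at least `r` -/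
def ApSq (γ : Circle → ℂ) (δ r : ℝ) (F : ℂ → ℂ) : Prop :=
  ∃ s : Fin 4 → Circle, ‖Gen.Lm fun k => F (γ (s k))‖ ≤ δ ∧
    ∀ k l, k ≠ l → r ≤ ‖F (γ (s k)) - F (γ (s l))‖

instance (N : ℕ) : IsProbabilityMeasure (law N) := by
  unfold law; infer_instance

end Pool.Agent.Lib.MP_5a3ebe_gt.Pv
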