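import Pool.Agent.Lib.MP_5a3ebe_gt.PvCover
import Pool.Agent.Lib.MP_5a3ebe_gt.PvDefs

/-! The cover bound in turned coordinates. -/

open MeasureTheory Set Complex Module
open scoped ENNReal

namespace Pool.Agent.Lib.MP_5a3ebe_gt.Pv

open PvCover

/-- passage from turned coordinates to the coordinates of `Gen.Lm` -/
noncomputable def turn : (ℂ × ℂ) →ₗ[ℝ] ℂ × ℂ where
  toFun y := (y.1 + I * y.2, (I - 1) * y.1)
  map_add' y z := by
    simp only [Prod.fst_add, Prod.snd_add, Prod.mk_add_mk, Prod.mk.injEq]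
    constructor <;> ring
  map_smul' c y := by
    simp only [Prod.smul_fst, Prod.smul_snd, real_smul, RingHom.id_apply, Prod.smul_mk,
      Prod.mk.injEq]
    constructor <;> ring

theorem turn_Lt (c : Fin 4 → ℂ) : turn (Lt c) = Gen.Lm fun k => zt k * c k := by
  simp only [turn, Lt, Gen.Lm, zt, LinearMap.coe_mk, AddHom.coe_mk, Prod.mk.injEq]
  simp
  constructor
  · ring
  · linear_combination (c 1) * I_mul_I

theorem det_turn : LinearMap.det turn = 2 := by
  have hb : ∀ j, b0 j = ![((1 : ℂ), (0 : ℂ)), (I, 0), (0, 1), (0, I)] j := fun j => by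
    refine b0.repr.injective (DFunLike.coe_injective ?_)
    rw [b0_repr (![((1 : ℂ), (0 : ℂ)), (I, 0), (0, 1), (0, I)] j), b0.repr_self]
    funext i
    fin_cases i <;> fin_cases j <;> simp
  have : LinearMap.toMatrix b0 b0 turn =
      Matrix.of ![![1, 0, 0, -1], ![0, 1, 1, 0], ![-1, -1, 0, 0], ![1, -1, 0, 0]] := by
    ext i j
    rw [LinearMap.toMatrix_apply, b0_repr, hb]
    fin_cases i <;> fin_cases j <;> simp [turn]
  rw [← LinearMap.det_toMatrix b0, this]
  simp [Matrix.det_succ_row_zero, Fin.sum_univ_succ, Fin.succAbove]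
  norm_num

theorem dt_zt (c : Fin 4 → ℂ) :
    Gen.dt (zt 0 * c 0) (zt 1 * c 1) (zt 2 * c 2) (zt 3 * c 3) = 2 * Dt c := by
  simp [Gen.dt, zt, Dt, br]
  ring

/-- the image of four arcs under the square map in turned coordinates -/
def Zt (x : Fin 4 → ℝ → ℂ) : Set (ℂ × ℂ) :=
  (fun t : Fin 4 → ℝ => Lt fun k => x k (t k)) '' Icc 0 1

theorem continuous_Lt : Continuous Lt := by
  unfold Lt; fun_prop

theorem isCompact_Zt {x : Fin 4 → ℝ → ℂ} (hx : ∀ k, Continuous (x k)) : IsCompact (Zt x) :=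
  isCompact_Icc.image
    (continuous_Lt.comp (continuous_pi fun k => (hx k).comp (continuous_apply k)))

theorem Dt_le_Zt {x : Fin 4 → ℝ → ℂ} (hx : ∀ k, Continuous (x k)) :
    ENNReal.ofReal |Dt fun k => x k 1 - x k 0| ≤ volume (Zt x) := by
  have := haar_vol
  have h1 := dt_le_Zs (x := fun k t => zt k * x k t) fun k => continuous_const.mul (hx k)
  have h2 : Zs (fun k t => zt k * x k t) = turn '' Zt x := by
    rw [Zt, image_image]
    simp only [turn_Lt]
    rfl
  simp only [← mul_sub] at h1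
  rw [dt_zt fun k => x k 1 - x k 0, h2, Measure.addHaar_image_linearMap, det_turn, abs_mul,
    ENNReal.ofReal_mul (abs_nonneg _)] at h1
  exact (ENNReal.mul_le_mul_iff_right (by simp) ENNReal.ofReal_ne_top).1 h1

/-- Markov step with an upper bound `v` for the measure of `V`. -/
theorem markov' {E Ω : Type*} [MeasurableSpace E] [MeasurableSpace Ω] (ν : Measure E) [SFinite ν]
    (P : Measure Ω) [IsProbabilityMeasure P] {S : Set (E × Ω)} (hS : MeasurableSet S) {V : Set E}
    {v p : ℝ≥0∞} (hV : ν V ≤ v) (hv : v ≠ ∞) (hp : p ≠ ∞)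
    (h : ∀ᵐ w ∂P, p * v ≤ ν {y | y ∈ V ∧ (y, w) ∈ S}) :
    p / 2 * v ≤ ν {y | y ∈ V ∧ p / 2 ≤ P {w | (y, w) ∈ S}} := by
  have hm : Measurable fun y => P {w | (y, w) ∈ S} := measurable_measure_prodMk_left hS
  have hG : MeasurableSet {y | p / 2 ≤ P {w | (y, w) ∈ S}} := measurableSet_le measurable_const hm
  have h1 : p * v ≤ ∫⁻ y in V, P {w | (y, w) ∈ S} ∂ν := by
    calc p * v = ∫⁻ _, p * v ∂P := by simp
      _ ≤ ∫⁻ w, (ν.restrict V) ((fun y => (y, w)) ⁻¹' S) ∂P := by
          refine lintegral_mono_ae (h.mono fun w hw => ?_)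
          rw [Measure.restrict_apply (measurable_prodMk_right hS), inter_comm]
          exact hw
      _ = ((ν.restrict V).prod P) S := (Measure.prod_apply_symm hS).symm
      _ = _ := Measure.prod_apply hS
  have h2 : ∫⁻ y in V, P {w | (y, w) ∈ S} ∂ν ≤
      p / 2 * v + ν {y | y ∈ V ∧ p / 2 ≤ P {w | (y, w) ∈ S}} := by
    calc ∫⁻ y in V, P {w | (y, w) ∈ S} ∂ν
        ≤ ∫⁻ y in V, p / 2 + indicator {y | p / 2 ≤ P {w | (y, w) ∈ S}} (fun _ => 1) y ∂ν := by
          refine lintegral_mono fun y => ?_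
          by_cases hy : y ∈ {y | p / 2 ≤ P {w | (y, w) ∈ S}}
          · rw [indicator_of_mem hy]
            exact prob_le_one.trans le_add_self
          · rw [indicator_of_notMem hy, add_zero]
            exact (not_le.1 hy).le
      _ = p / 2 * ν V + ν {y | y ∈ V ∧ p / 2 ≤ P {w | (y, w) ∈ S}} := by
          rw [lintegral_add_left measurable_const, setLIntegral_const,
            lintegral_indicator_const hG, one_mul, Measure.restrict_apply hG, inter_comm]
          rfl
      _ ≤ _ := by gcongr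
  have h3 := h1.trans h2
  nth_rewrite 1 [← ENNReal.add_halves p] at h3
  rw [add_mul] at h3
  exact (ENNReal.add_le_add_iff_left
    (ENNReal.mul_ne_top (ENNReal.div_ne_top hp two_ne_zero) hv)).1 h3

end Pool.Agent.Lib.MP_5a3ebe_gt.Pv
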