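import Pool.Agent.Lib.MP_5a3ebe_gt.PvDefs

/-!
Prevalence of inscribed squares: more shared definitions.
-/

set_option linter.unusedVariables false

namespace Pool.Agent.Lib.MP_5a3ebe_gt.Pv

open Set Complex MeasureTheory unitInterval Function
open Pool.Agent.Lib.MP_5a3ebe_gt.Gen (Lip Lm)
open scoped ENNReal

/-- the width of a thin strip -/
noncomputable def kap : ℝ := 1 / 2 ^ 102

/-- coordinates in the frame of direction `th`, length `R` and width `s` -/
noncomputable def nrm (th : ℂ) (R s : ℝ) (z : ℂ) : ℂ :=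
  ⟨((starRingEnd ℂ) th * z).re / R, ((starRingEnd ℂ) th * z).im / s⟩

/-- the sup norm of the plane -/
def sN (z : ℂ) : ℝ := max |z.re| |z.im|

/-- with probability at least one half the noisy chords have a large determinant -/
def Noise (A c η R0 : ℝ) (P : Plate) (c0 : Fin 4 → ℂ) : Prop :=
  ∀ (ι : Type) [Fintype ι] [DecidableEq ι] (i : Fin 4 → ι), Injective i →
    ∀ (n : Fin 4 → (ι → I × I) → ℂ) (z : Fin 4 → ℂ), (∀ k, Continuous (n k)) →
      (∀ k w, ‖n k w‖ ≤ A * η ^ 100 * ‖c0 k‖) → (∀ k, ‖c0 k‖ ≤ A * ‖z k‖) →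
      (∀ k w a, n k (update w (i k) a) =
        n k w + ((η ^ 100 : ℝ) : ℂ) * (val a - val (w (i k))) * z k) →
      (∀ k l, l ≠ k → ∀ w a, n l (update w (i k) a) = n l w) →
      1 / 2 ≤ volume {w : ι → I × I | ∀ err : Fin 4 → ℂ, (∀ k, ‖err k‖ ≤ 2 * (η ^ 102 * R0)) →
        c * P.v ≤ |Dt fun k => c0 k + n k w + err k|}

/-- the value of the square map on the translations of four cells -/
noncomputable def yQ {ι : Type} (b : ℝ) (Q : Fin 4 → ι) (X : ι → I × I) : ℂ × ℂ :=
  Lr fun k => (b : ℂ) * val (X (Q k))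

/-- two quadruples of cells with at least three common cells -/
def Rel {ι : Type} [DecidableEq ι] (Q Q' : Fin 4 → ι) : Prop :=
  3 ≤ (Finset.univ.image Q ∩ Finset.univ.image Q').card

instance {ι : Type} [DecidableEq ι] (Q : Fin 4 → ι) : DecidablePred (Rel Q) := fun Q' =>
  inferInstanceAs (Decidable (3 ≤ (Finset.univ.image Q ∩ Finset.univ.image Q').card))

/-- the values of the square map on translations that give an approximate square on the cells
`Q` -/
def AQ (γ : Circle → ℂ) (F : ℂ → ℂ) (ρ δ b : ℝ) (m : Fin 9) {N : ℕ} (Q : Fin 4 → Cell N) :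
    Set (ℂ × ℂ) :=
  {y | ‖y‖ ≤ b / 8 ∧ ∃ s : Fin 4 → Circle, (∀ k, Inn ρ m (Q k) (γ (s k))) ∧
    ‖y + Lr fun k => F (γ (s k))‖ < 3 * δ}

end Pool.Agent.Lib.MP_5a3ebe_gt.Pv
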