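import Pool.Agent.Lib.MP_5a3ebe_gt.PvCover
import Pool.Agent.Lib.MP_5a3ebe_gt.PvAC

/-! Densities of the random translation vector of four cells. -/

open MeasureTheory Set Complex Module unitInterval Function
open scoped ENNReal

namespace Pool.Agent.Lib.MP_5a3ebe_gt.Pv

open PvCover

theorem two_eq {g : ℂ × ℂ → ℝ≥0∞} (hg : Measurable g) :
    ∫⁻ x : I × I, ∫⁻ x' : I × I, g (val x, val x') = 16⁻¹ * ∫⁻ p in sqr 1 ×ˢ sqr 1, g p := by
  have h1 := mp_val.prod mp_val
  rw [Measure.prod_smul_left, Measure.prod_smul_right, Measure.prod_restrict, smul_smul,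
    ← ENNReal.mul_inv (by simp) (by simp), show (4 * 4 : ℝ≥0∞) = 16 by norm_num] at h1
  have h2 := h1.lintegral_comp hg
  rw [lintegral_prod (fun a => g (Prod.map val val a)) (hg.comp h1.measurable).aemeasurable,
    lintegral_smul_measure] at h2
  exact h2

/-- a complex two by two matrix as a real linear map -/
noncomputable def cm (a b c d : ℂ) : (ℂ × ℂ) →ₗ[ℝ] ℂ × ℂ where
  toFun y := (a * y.1 + b * y.2, c * y.1 + d * y.2)
  map_add' y z := by
    simp only [Prod.fst_add, Prod.snd_add, Prod.mk_add_mk, Prod.mk.injEq]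
    constructor <;> ring
  map_smul' t y := by
    simp only [Prod.smul_fst, Prod.smul_snd, real_smul, RingHom.id_apply, Prod.smul_mk,
      Prod.mk.injEq]
    constructor <;> ring

theorem det_cm (a b c d : ℂ) : LinearMap.det (cm a b c d) = normSq (a * d - b * c) := by
  have hb : ∀ j, b0 j = ![((1 : ℂ), (0 : ℂ)), (Complex.I, 0), (0, 1), (0, Complex.I)] j :=
    fun j => by
    refine b0.repr.injective (DFunLike.coe_injective ?_)
    rw [b0_repr (![((1 : ℂ), (0 : ℂ)), (Complex.I, 0), (0, 1), (0, Complex.I)] j), b0.repr_self]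
    funext i
    fin_cases i <;> fin_cases j <;> simp
  have : LinearMap.toMatrix b0 b0 (cm a b c d) =
      Matrix.of ![![a.re, -a.im, b.re, -b.im], ![a.im, a.re, b.im, b.re],
        ![c.re, -c.im, d.re, -d.im], ![c.im, c.re, d.im, d.re]] := by
    ext i j
    rw [LinearMap.toMatrix_apply, b0_repr, hb]
    fin_cases i <;> fin_cases j <;> simp [cm]
  rw [← LinearMap.det_toMatrix b0, this]
  simp [Matrix.det_succ_row_zero, Fin.sum_univ_succ, Fin.succAbove, normSq_apply]
  ring

theorem measurable_cm (a b c d : ℂ) : Measurable (cm a b c d) :=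
  (cm a b c d).continuous_of_finiteDimensional.measurable

theorem lintegral_cm {a b c d : ℂ} (h : 0 < normSq (a * d - b * c)) (y0 : ℂ × ℂ)
    {g : ℂ × ℂ → ℝ≥0∞} (hg : Measurable g) :
    ∫⁻ p, g (y0 + cm a b c d p) = ENNReal.ofReal (normSq (a * d - b * c))⁻¹ * ∫⁻ y, g y := by
  have := haar_vol
  rw [← lintegral_add_left_eq_self g y0, ← lintegral_map (f := fun y => g (y0 + y))
    (hg.comp (measurable_const_add y0)) (measurable_cm a b c d),
    Measure.map_linearMap_addHaar_eq_smul_addHaar _ (by rw [det_cm]; exact h.ne'), det_cm,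
    lintegral_smul_measure, abs_of_pos (inv_pos.2 h), smul_eq_mul]

/-- coefficients of `Lr` -/
noncomputable def g1 : Fin 4 → ℂ := ![1, -(1 + Complex.I)⁻¹, 0, (Complex.I - 1)⁻¹]

/-- coefficients of `Lr` -/
noncomputable def g2 : Fin 4 → ℂ :=
  ![0, -(1 + Complex.I)⁻¹, Complex.I⁻¹, -(Complex.I - 1)⁻¹]

theorem Lr_eq (u : Fin 4 → ℂ) : Lr u = (∑ k, g1 k * u k, ∑ k, g2 k * u k) := by
  simp only [Lr, Lt, zt, g1, g2, Fin.sum_univ_four, Prod.mk.injEq, div_eq_mul_inv]
  simp only [Matrix.cons_val_zero, Matrix.cons_val_one, Matrix.cons_val, inv_one]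
  constructor <;> ring

theorem normSq_g {k l : Fin 4} (h : k ≠ l) : 1 / 2 ≤ normSq (g1 k * g2 l - g1 l * g2 k) := by
  have e1 : (1 + Complex.I)⁻¹ = ⟨1 / 2, -1 / 2⟩ := by
    apply Complex.ext <;> simp [normSq_apply] <;> norm_num
  have e2 : (Complex.I - 1)⁻¹ = ⟨-1 / 2, -1 / 2⟩ := by
    apply Complex.ext <;> simp [normSq_apply] <;> norm_num
  fin_cases k <;> fin_cases l <;> first
    | exact absurd rfl h
    | (simp [g1, g2, e1, e2, normSq_apply]; done)
    | (simp [g1, g2, e1, e2, normSq_apply]; norm_num)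

theorem yQ_continuous {ι : Type} (b : ℝ) (Q : Fin 4 → ι) : Continuous (yQ b Q) := by
  have hv : Continuous val := by
    have : val = fun w : I × I =>
        equivRealProdCLM.symm (2 * (w.1 : ℝ) - 1, 2 * (w.2 : ℝ) - 1) := rfl
    rw [this]
    fun_prop
  unfold yQ
  simp only [Lr_eq]
  fun_prop

theorem measurable_yQ {ι : Type} [Finite ι] (b : ℝ) (Q : Fin 4 → ι) : Measurable (yQ b Q) :=
  (yQ_continuous b Q).measurable

variable {U : Type} [DecidableEq U]

theorem yQ_update (b : ℝ) {Q : Fin 4 → U} (hQ : Injective Q) {k l : Fin 4} (h : k ≠ l)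
    (w : U → I × I) (x x' : I × I) : yQ b Q (update (update w (Q k) x) (Q l) x') =
      (yQ b Q w - cm (g1 k * b) (g1 l * b) (g2 k * b) (g2 l * b) (val (w (Q k)), val (w (Q l)))) +
        cm (g1 k * b) (g1 l * b) (g2 k * b) (g2 l * b) (val x, val x') := by
  have key : ∀ g : Fin 4 → ℂ,
      ∑ j, g j * (b * val (update (update w (Q k) x) (Q l) x' (Q j))) =
        ∑ j, g j * (b * val (w (Q j))) - (g k * b * val (w (Q k)) + g l * b * val (w (Q l))) +
          (g k * b * val x + g l * b * val x') := by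
    intro g
    have e : ∀ F : Fin 4 → ℂ, ∑ j, F j = F k + F l + ∑ j ∈ (Finset.univ.erase k).erase l, F j :=
      fun F => by
      rw [add_assoc, Finset.add_sum_erase _ F (by simp [h.symm]),
        Finset.add_sum_erase _ F (Finset.mem_univ k)]
    rw [e, e fun j => g j * (b * val (w (Q j))), update_self, update_of_ne (hQ.ne h), update_self,
      Finset.sum_congr rfl (g := fun j => g j * (b * val (w (Q j)))) fun j hj => by
        simp only [Finset.mem_erase] at hj
        rw [update_of_ne (hQ.ne hj.1), update_of_ne (hQ.ne hj.2.1)]]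
    ring
  simp only [yQ, Lr_eq, key, cm, LinearMap.coe_mk, AddHom.coe_mk, Prod.mk_sub_mk, Prod.mk_add_mk]

theorem normSq_gb (b : ℝ) (k l : Fin 4) :
    normSq (g1 k * b * (g2 l * b) - g1 l * b * (g2 k * b)) =
      normSq (g1 k * g2 l - g1 l * g2 k) * b ^ 4 := by
  rw [show g1 k * b * (g2 l * b) - g1 l * b * (g2 k * b) =
    (g1 k * g2 l - g1 l * g2 k) * (b * b) by ring, map_mul, map_mul, normSq_ofReal]
  ring

theorem marg_two {u v : U} (h : u ≠ v) {f : (U → I × I) → ℝ≥0∞} (hf : Measurable f)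
    (w : U → I × I) : lmarginal (fun _ => volume) {u, v} f w =
      ∫⁻ x, ∫⁻ x', f (update (update w u x) v x') := by
  rw [lmarginal_insert f hf (by simpa using h), lmarginal_singleton]

theorem dens_up {ι : Type} [DecidableEq ι] {b : ℝ} (hb : 0 < b) {Q : Fin 4 → ι}
    (hQ : Injective Q) {k l : Fin 4} (hkl : k ≠ l) {h : ℂ × ℂ → ℝ≥0∞} (hh : Measurable h)
    (X : ι → I × I) :
    ∫⁻ a, ∫⁻ a', h (yQ b Q (update (update X (Q k) a) (Q l) a')) ≤
      (∫⁻ y, h y) / ENNReal.ofReal (b ^ 4) := by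
  simp only [yQ_update b hQ hkl]
  generalize yQ b Q X - _ = y0
  have hg' : Measurable fun p => h (y0 + cm (g1 k * b) (g1 l * b) (g2 k * b) (g2 l * b) p) :=
    hh.comp ((measurable_cm _ _ _ _).const_add _)
  have hd := normSq_g hkl
  have hd' : 0 < normSq (g1 k * b * (g2 l * b) - g1 l * b * (g2 k * b)) := by
    rw [normSq_gb]; positivity
  rw [two_eq hg']
  refine (mul_le_mul_right (setLIntegral_le_lintegral _ _) _).trans ?_
  rw [lintegral_cm hd' y0 hh, ← mul_assoc, div_eq_mul_inv, mul_comm (∫⁻ y, h y),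
    ← ENNReal.ofReal_inv_of_pos (by positivity)]
  refine mul_le_mul_left ?_ _
  rw [ENNReal.inv_mul_le_iff (by simp) (by simp), ← ENNReal.ofReal_ofNat,
    ← ENNReal.ofReal_mul (by norm_num), normSq_gb, mul_inv]
  refine ENNReal.ofReal_le_ofReal ?_
  gcongr
  rw [inv_le_comm₀ (by linarith) (by norm_num)]
  linarith

/-- two slots of `Q` are resampled and `f` does not see them -/
theorem dens_mul [Fintype U] {b : ℝ} (hb : 0 < b) {Q : Fin 4 → U} (hQ : Injective Q) {k l : Fin 4}
    (h : k ≠ l) {f : (U → I × I) → ℝ≥0∞} (hf : Measurable f)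
    (hf' : ∀ w x x', f (update (update w (Q k) x) (Q l) x') = f w)
    {g : ℂ × ℂ → ℝ≥0∞} (hg : Measurable g) :
    ∫⁻ w, f w * g (yQ b Q w) ≤ (∫⁻ w, f w) * ((∫⁻ y, g y) / ENNReal.ofReal (b ^ 4)) := by
  have hy : Measurable fun w => g (yQ b Q w) := hg.comp (measurable_yQ b Q)
  have hm : Measurable fun w => f w * g (yQ b Q w) := hf.mul hy
  rw [← lintegral_mul_const _ hf, volume_pi]
  refine lintegral_le_of_lmarginal_le {Q k, Q l} hm (hf.mul_const _) fun w => ?_
  rw [marg_two (hQ.ne h) hm, marg_two (hQ.ne h) (hf.mul_const _)]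
  simp only [hf', lintegral_const, measure_univ, mul_one]
  have m1 : Measurable fun p : (I × I) × (I × I) => update (update w (Q k) p.1) (Q l) p.2 := by
    fun_prop
  have m2 : Measurable fun x => ∫⁻ x', g (yQ b Q (update (update w (Q k) x) (Q l) x')) :=
    Measurable.lintegral_prod_right' (f := fun p : (I × I) × (I × I) =>
      g (yQ b Q (update (update w (Q k) p.1) (Q l) p.2))) (hy.comp m1)
  refine le_trans (le_of_eq ?_) (mul_le_mul_right (dens_up hb hQ h hg w) _)
  rw [← lintegral_const_mul _ m2]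
  exact lintegral_congr fun x => lintegral_const_mul _ (hy.comp (measurable_update _))

theorem dens_up' {ι : Type} [Fintype ι] [DecidableEq ι] {b : ℝ} (hb : 0 < b) {Q : Fin 4 → ι}
    (hQ : Injective Q) {h : ℂ × ℂ → ℝ≥0∞} (hh : Measurable h) :
    ∫⁻ X, h (yQ b Q X) ≤ (∫⁻ y, h y) / ENNReal.ofReal (b ^ 4) := by
  simpa using dens_mul hb hQ (k := 0) (l := 1) (by decide) (f := fun _ => 1) measurable_const
    (fun _ _ _ => rfl) hh

theorem norm_le_of_sqr {z : ℂ} {r : ℝ} (h : z ∈ sqr r) : ‖z‖ ≤ 2 * r := by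
  linarith [norm_le_abs_re_add_abs_im z, h.1, h.2]

/-- Lower density on the ball of radius `b / 2`. -/
theorem low [Fintype U] {b : ℝ} (hb : 0 < b) {Q : Fin 4 → U} (hQ : Injective Q) {T : Set (ℂ × ℂ)}
    (hT : MeasurableSet T) (hT' : ∀ y ∈ T, ‖y‖ ≤ b / 2) :
    ENNReal.ofReal (2 ^ 16 * b ^ 4)⁻¹ * volume T ≤ volume {w : U → I × I | yQ b Q w ∈ T} := by
  have hE0 : MeasurableSet (val ⁻¹' sqr (1 / 8)) := measurable_val (measurableSet_sqr _)
  have vE0 : volume (val ⁻¹' sqr (1 / 8)) = 64⁻¹ := by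
    rw [mp_val.measure_preimage (measurableSet_sqr _).nullMeasurableSet, Measure.smul_apply,
      Measure.restrict_apply (measurableSet_sqr _), inter_eq_self_of_subset_left
        (show sqr (1 / 8) ⊆ sqr 1 from
          fun z hz => ⟨hz.1.trans (by norm_num), hz.2.trans (by norm_num)⟩), vol_sqr,
      show (2 * (1 / 8) : ℝ) = 4⁻¹ by norm_num, ENNReal.ofReal_inv_of_pos (by norm_num),
      smul_eq_mul, ENNReal.ofReal_ofNat, ← ENNReal.mul_inv (by simp) (by simp),
      ← ENNReal.mul_inv (by simp) (by simp)]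
    norm_num
  let f1 : (U → I × I) → ℝ≥0∞ := fun w => (val ⁻¹' sqr (1 / 8)).indicator 1 (w (Q 1)) *
    (val ⁻¹' sqr (1 / 8)).indicator 1 (w (Q 3))
  have mi : Measurable ((val ⁻¹' sqr (1 / 8)).indicator (1 : I × I → ℝ≥0∞)) :=
    measurable_one.indicator hE0
  have m1 : Measurable f1 :=
    (mi.comp (measurable_pi_apply _)).mul (mi.comp (measurable_pi_apply _))
  have n13 : Q 1 ≠ Q 3 := hQ.ne (by decide)
  have n02 : Q 0 ≠ Q 2 := hQ.ne (by decide)
  have i1 : 64⁻¹ * 64⁻¹ ≤ ∫⁻ w, f1 w := by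
    have : (64⁻¹ * 64⁻¹ : ℝ≥0∞) = ∫⁻ _ : U → I × I, 64⁻¹ * 64⁻¹ := by simp
    rw [this, volume_pi]
    refine lintegral_le_of_lmarginal_le {Q 1, Q 3} measurable_const m1 fun w => ?_
    rw [marg_two n13 measurable_const, marg_two n13 m1]
    simp only [f1, update_self, update_of_ne n13, lintegral_const, measure_univ, mul_one]
    simp only [lintegral_const_mul _ mi, lintegral_indicator_one hE0, vE0]
    rw [lintegral_mul_const _ mi, lintegral_indicator_one hE0, vE0]
  have mT : Measurable (T.indicator (1 : ℂ × ℂ → ℝ≥0∞)) := measurable_one.indicator hT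
  have i2 : ∫⁻ w, f1 w * (16⁻¹ * (ENNReal.ofReal (b ^ 4)⁻¹ * volume T)) ≤
      ∫⁻ w, T.indicator 1 (yQ b Q w) := by
    rw [volume_pi]
    refine lintegral_le_of_lmarginal_le {Q 0, Q 2} (m1.mul_const _)
      (mT.comp (measurable_yQ b Q)) fun w => ?_
    rw [marg_two n02 (m1.mul_const _), marg_two n02 (f := fun w => T.indicator 1 (yQ b Q w))
      (mT.comp (measurable_yQ b Q))]
    simp only [f1, update_of_ne (hQ.ne (by decide : (1 : Fin 4) ≠ 0)),
      update_of_ne (hQ.ne (by decide : (1 : Fin 4) ≠ 2)),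
      update_of_ne (hQ.ne (by decide : (3 : Fin 4) ≠ 0)),
      update_of_ne (hQ.ne (by decide : (3 : Fin 4) ≠ 2)), lintegral_const, measure_univ, mul_one,
      yQ_update b hQ (by decide : (0 : Fin 4) ≠ 2)]
    by_cases h1 : w (Q 1) ∈ val ⁻¹' sqr (1 / 8)
    swap
    · rw [indicator_of_notMem h1, zero_mul, zero_mul]
      exact zero_le
    by_cases h3 : w (Q 3) ∈ val ⁻¹' sqr (1 / 8)
    swap
    · rw [indicator_of_notMem h3, mul_zero, zero_mul]
      exact zero_le
    rw [indicator_of_mem h1, indicator_of_mem h3, Pi.one_apply, Pi.one_apply, one_mul, one_mul]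
    have e0 : yQ b Q w - cm (g1 0 * b) (g1 2 * b) (g2 0 * b) (g2 2 * b)
        (val (w (Q 0)), val (w (Q 2))) =
        (b * (g1 1 * val (w (Q 1)) + g1 3 * val (w (Q 3))),
          b * (g2 1 * val (w (Q 1)) + g2 3 * val (w (Q 3)))) := by
      simp only [yQ, Lr_eq, cm, LinearMap.coe_mk, AddHom.coe_mk, Prod.mk_sub_mk, Fin.sum_univ_four,
        Prod.mk.injEq]
      constructor <;> ring
    rw [e0]
    have a1 : ‖(1 + Complex.I)⁻¹‖ ≤ 1 := by
      rw [norm_inv]
      exact inv_le_one_of_one_le₀ (by simpa using abs_re_le_norm (1 + Complex.I))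
    have a2 : ‖(Complex.I - 1)⁻¹‖ ≤ 1 := by
      rw [norm_inv]
      exact inv_le_one_of_one_le₀ (by simpa using abs_im_le_norm (Complex.I - 1))
    have a3 : ∀ p q : ℂ, ‖p‖ ≤ 1 → ‖q‖ ≤ 1 →
        ‖(b : ℂ) * (p * val (w (Q 1)) + q * val (w (Q 3)))‖ ≤ b / 2 := fun p q hp hq => by
      have k1 := norm_le_of_sqr h1
      have k3 := norm_le_of_sqr h3
      have k4 := norm_add_le (p * val (w (Q 1))) (q * val (w (Q 3)))
      rw [norm_mul, norm_mul] at k4
      rw [norm_mul, norm_real, Real.norm_of_nonneg hb.le]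
      have k5 := mul_le_of_le_one_left (norm_nonneg (val (w (Q 1)))) hp
      have k6 := mul_le_of_le_one_left (norm_nonneg (val (w (Q 3)))) hq
      nlinarith
    have c1 := a3 (g1 1) (g1 3) (by simpa [g1] using a1) (by simpa [g1] using a2)
    have c2 := a3 (g2 1) (g2 3) (by simpa [g2] using a1) (by simpa [g2] using a2)
    generalize (b : ℂ) * (g1 1 * val (w (Q 1)) + g1 3 * val (w (Q 3))) = y1 at *
    generalize (b : ℂ) * (g2 1 * val (w (Q 1)) + g2 3 * val (w (Q 3))) = y2 at *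
    have hg' : Measurable fun p => T.indicator (1 : ℂ × ℂ → ℝ≥0∞)
        ((y1, y2) + cm (g1 0 * b) (g1 2 * b) (g2 0 * b) (g2 2 * b) p) :=
      mT.comp ((measurable_cm _ _ _ _).const_add _)
    have hd : normSq (g1 0 * b * (g2 2 * b) - g1 2 * b * (g2 0 * b)) = b ^ 4 := by
      rw [normSq_gb]; simp [g1, g2]
    rw [two_eq hg', setLIntegral_eq_of_support_subset, lintegral_cm (by rw [hd]; positivity) _ mT,
      hd, lintegral_indicator_one hT]
    intro p hp
    have h5 := hT' _ (mem_of_indicator_ne_zero hp)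
    have h6 : ‖y1 + b * p.1‖ ≤ b / 2 := by
      simpa [cm, g1, mul_comm] using (norm_fst_le _).trans h5
    have h7 : ‖y2 + Complex.I⁻¹ * b * p.2‖ ≤ b / 2 := by
      simpa [cm, g2] using (norm_snd_le _).trans h5
    have h8 : ‖p.1‖ ≤ 1 := by
      have := norm_sub_le (y1 + b * p.1) y1
      rw [add_sub_cancel_left, norm_mul, norm_real, Real.norm_of_nonneg hb.le] at this
      nlinarith
    have h9 : ‖p.2‖ ≤ 1 := by
      have := norm_sub_le (y2 + Complex.I⁻¹ * b * p.2) y2
      rw [add_sub_cancel_left, norm_mul, norm_mul, norm_inv, norm_I, inv_one, one_mul, norm_real,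
        Real.norm_of_nonneg hb.le] at this
      nlinarith
    exact ⟨⟨(abs_re_le_norm _).trans h8, (abs_im_le_norm _).trans h8⟩,
      (abs_re_le_norm _).trans h9, (abs_im_le_norm _).trans h9⟩
  rw [lintegral_mul_const _ m1] at i2
  have e : ∫⁻ w, T.indicator (1 : ℂ × ℂ → ℝ≥0∞) (yQ b Q w) =
      volume {w : U → I × I | yQ b Q w ∈ T} :=
    lintegral_indicator_one (measurable_yQ b Q hT)
  rw [← e]
  refine le_trans (le_of_eq ?_) ((mul_le_mul_left i1 _).trans i2)
  rw [mul_inv, ENNReal.ofReal_mul (by positivity), ENNReal.ofReal_inv_of_pos (by positivity),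
    ← mul_assoc, ← mul_assoc, ← ENNReal.mul_inv (by simp) (by simp),
    ← ENNReal.mul_inv (by simp) (by simp)]
  norm_num

theorem dens_low {ι : Type} [Fintype ι] [DecidableEq ι] {b : ℝ} (hb : 0 < b) {Q : Fin 4 → ι}
    (hQ : Injective Q) {S : Set (ℂ × ℂ)} (hS : MeasurableSet S) (hSb : ∀ y ∈ S, ‖y‖ ≤ b / 2) :
    volume S / ENNReal.ofReal (2 ^ 16 * b ^ 4) ≤ volume {X : ι → I × I | yQ b Q X ∈ S} := by
  rw [div_eq_mul_inv, mul_comm, ← ENNReal.ofReal_inv_of_pos (by positivity)]
  exact low hb hQ hS hSb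

end Pool.Agent.Lib.MP_5a3ebe_gt.Pv
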