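import Pool.Agent.Lib.MP_5a3ebe_gt.PvDefs2

/-! The frame of four arcs: thin it as long as three of the arcs are parallel. -/

namespace Pool.Agent.Lib.MP_5a3ebe_gt.Pv

open Set Complex

namespace Fr

theorem kap_pos : 0 < kap := by unfold kap; positivity

theorem kap_le : kap ≤ 1 / 64 := by unfold kap; norm_num

theorem re_le_sN (z : ℂ) : |z.re| ≤ sN z := le_max_left _ _

theorem im_le_sN (z : ℂ) : |z.im| ≤ sN z := le_max_right _ _

theorem sN_nonneg (z : ℂ) : 0 ≤ sN z := (abs_nonneg _).trans (re_le_sN z)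

theorem sN_le {z : ℂ} {a : ℝ} : sN z ≤ a ↔ |z.re| ≤ a ∧ |z.im| ≤ a := max_le_iff

theorem sN_add (z w : ℂ) : sN (z + w) ≤ sN z + sN w :=
  sN_le.2 ⟨(abs_add_le _ _).trans (add_le_add (re_le_sN z) (re_le_sN w)),
    (abs_add_le _ _).trans (add_le_add (im_le_sN z) (im_le_sN w))⟩

theorem sN_neg (z : ℂ) : sN (-z) = sN z := by simp [sN]

theorem sN_sub (z w : ℂ) : sN (z - w) ≤ sN z + sN w := by
  rw [sub_eq_add_neg, ← sN_neg w]; exact sN_add _ _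

theorem sN_smul (r : ℝ) (z : ℂ) : sN (r * z) = |r| * sN z := by
  simp [sN, abs_mul, mul_max_of_nonneg]

theorem continuous_sN : Continuous sN :=
  (continuous_re.abs).max continuous_im.abs

theorem nrm_add (θ : ℂ) (R s : ℝ) (p q : ℂ) : nrm θ R s (p + q) = nrm θ R s p + nrm θ R s q := by
  apply Complex.ext <;> simp [nrm] <;> ring

theorem nrm_sub (θ : ℂ) (R s : ℝ) (p q : ℂ) : nrm θ R s (p - q) = nrm θ R s p - nrm θ R s q := by
  apply Complex.ext <;> simp [nrm] <;> ring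

theorem nrm_smul (θ : ℂ) (R s r : ℝ) (p : ℂ) : nrm θ R s (r * p) = r * nrm θ R s p := by
  apply Complex.ext <;> simp [nrm] <;> ring

theorem nrm_zero (θ : ℂ) (R s : ℝ) : nrm θ R s 0 = 0 := by
  apply Complex.ext <;> simp [nrm]

theorem continuous_nrm (θ : ℂ) (R s : ℝ) : Continuous (nrm θ R s) := by
  have : nrm θ R s = fun p => (((starRingEnd ℂ) θ * p).re / R : ℝ) +
      (((starRingEnd ℂ) θ * p).im / s : ℝ) * Complex.I := by
    funext p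
    apply Complex.ext <;> simp only [nrm, add_re, add_im, ofReal_re, ofReal_im, mul_re, mul_im,
      I_re, I_im] <;> ring
  rw [this]
  fun_prop

theorem unit_sq {θ : ℂ} (h : ‖θ‖ = 1) : θ.re ^ 2 + θ.im ^ 2 = 1 := by
  have := Complex.sq_norm θ
  rw [h, normSq_apply] at this
  linarith

theorem br_nrm {θ : ℂ} (h : ‖θ‖ = 1) {R s : ℝ} (hR : 0 < R) (hs : 0 < s) (p q : ℂ) :
    br (nrm θ R s p) (nrm θ R s q) = br p q / (R * s) := by
  have := unit_sq h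
  simp only [br, nrm, mul_re, mul_im, conj_re, conj_im]
  field_simp
  linear_combination (p.re * q.im - p.im * q.re) * this

theorem norm_sq_nrm {θ : ℂ} (h : ‖θ‖ = 1) {R s : ℝ} (hR : 0 < R) (hs : 0 < s) (p : ℂ) :
    ‖p‖ ^ 2 = ((nrm θ R s p).re * R) ^ 2 + ((nrm θ R s p).im * s) ^ 2 := by
  have := unit_sq h
  rw [Complex.sq_norm, normSq_apply]
  simp only [nrm, mul_re, mul_im, conj_re, conj_im]
  field_simp
  linear_combination (-(p.re ^ 2 + p.im ^ 2)) * this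

theorem nrm_dec {θ : ℂ} (h : ‖θ‖ = 1) {R s : ℝ} (hR : 0 < R) (hs : 0 < s) (p : ℂ) :
    p = (((nrm θ R s p).re * R : ℝ) : ℂ) * θ + (((nrm θ R s p).im * s : ℝ) : ℂ) * (θ * Complex.I) := by
  have h1 := unit_sq h
  apply Complex.ext <;>
    simp only [nrm, add_re, add_im, mul_re, mul_im, ofReal_re, ofReal_im, conj_re, conj_im, I_re,
      I_im] <;> field_simp
  · linear_combination (-p.re) * h1
  · linear_combination (-p.im) * h1

theorem re_nrm_le {θ : ℂ} (h : ‖θ‖ = 1) {R s : ℝ} (hR : 0 < R) (hs : 0 < s) (p : ℂ) :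
    |(nrm θ R s p).re| * R ≤ ‖p‖ := by
  refine le_of_pow_le_pow_left₀ two_ne_zero (norm_nonneg p) ?_
  rw [norm_sq_nrm h hR hs p, mul_pow, mul_pow, sq_abs]
  nlinarith [sq_nonneg ((nrm θ R s p).im * s)]

theorem im_nrm_le {θ : ℂ} (h : ‖θ‖ = 1) {R s : ℝ} (hR : 0 < R) (hs : 0 < s) (p : ℂ) :
    |(nrm θ R s p).im| * s ≤ ‖p‖ := by
  refine le_of_pow_le_pow_left₀ two_ne_zero (norm_nonneg p) ?_
  rw [norm_sq_nrm h hR hs p, mul_pow, mul_pow, mul_pow, sq_abs]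
  nlinarith [sq_nonneg ((nrm θ R s p).re * R)]

theorem sN_nrm_le {θ : ℂ} (h : ‖θ‖ = 1) {R s : ℝ} (hs : 0 < s) (hsR : s ≤ R) (p : ℂ) :
    sN (nrm θ R s p) ≤ ‖p‖ / s := by
  have hR := hs.trans_le hsR
  rw [sN_le, le_div_iff₀ hs, le_div_iff₀ hs]
  exact ⟨(mul_le_mul_of_nonneg_left hsR (abs_nonneg _)).trans (re_nrm_le h hR hs p),
    im_nrm_le h hR hs p⟩

theorem norm_le_nrm {θ : ℂ} (h : ‖θ‖ = 1) {R s : ℝ} (hR : 0 < R) (hs : 0 < s) (p : ℂ) :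
    ‖p‖ ≤ |(nrm θ R s p).re| * R + |(nrm θ R s p).im| * s := by
  refine le_of_pow_le_pow_left₀ two_ne_zero (by positivity) ?_
  rw [norm_sq_nrm h hR hs p, add_sq, mul_pow, mul_pow, mul_pow, mul_pow, sq_abs, sq_abs]
  have : 0 ≤ 2 * (|(nrm θ R s p).re| * R) * (|(nrm θ R s p).im| * s) := by positivity
  linarith

theorem norm_le_two {θ : ℂ} (h : ‖θ‖ = 1) {R s : ℝ} (hs : 0 < s) (hsR : s ≤ R) {p : ℂ}
    (hp : sN (nrm θ R s p) ≤ 1) : ‖p‖ ≤ 2 * R := by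
  have hR := hs.trans_le hsR
  have := norm_le_nrm h hR hs p
  have h1 := mul_le_mul_of_nonneg_right (sN_le.1 hp).1 hR.le
  have h2 := mul_le_mul_of_nonneg_right (sN_le.1 hp).2 hs.le
  linarith

theorem first_exit {g : ℝ → ℝ} (hg : Continuous g) (h0 : g 0 = 0) {T : ℝ} (hT : 0 ≤ T)
    (h1 : 1 ≤ g T) : ∃ T' ∈ Icc 0 T, g T' = 1 ∧ ∀ t ∈ Icc 0 T', g t ≤ 1 := by
  have hc : IsCompact (Icc 0 T ∩ g ⁻¹' {1}) :=
    isCompact_Icc.inter_right (isClosed_singleton.preimage hg)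
  have iv : ∀ t, 0 ≤ t → 1 ≤ g t → ∃ u ∈ Icc 0 t, g u = 1 := fun t ht h =>
    intermediate_value_Icc ht hg.continuousOn ⟨by rw [h0]; exact zero_le_one, h⟩
  obtain ⟨T', hT', hmin⟩ := hc.exists_isLeast (iv T hT h1)
  refine ⟨T', hT'.1, hT'.2, fun t ht => ?_⟩
  by_contra hlt
  obtain ⟨u, hu, hu1⟩ := iv t ht.1 (not_le.1 hlt).le
  have h2 := hmin ⟨⟨hu.1, hu.2.trans (ht.2.trans hT'.1.2)⟩, hu1⟩
  have h3 : t = T' := le_antisymm ht.2 (h2.trans hu.2)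
  rw [h3, hT'.2] at hlt
  exact hlt le_rfl

/-- the state of the frame recursion -/
structure St (x : Fin 4 → ℝ → ℂ) (R0 : ℝ) (θ : ℂ) (R s : ℝ) (T : Fin 4 → ℝ) (k0 : Fin 4) :
    Prop where
  th : ‖θ‖ = 1
  s0 : 0 < s
  s1 : s ≤ R
  R2 : R ≤ R0
  rat : s / R ≤ (R / R0) ^ 100
  tm : ∀ k, T k ∈ Icc (0 : ℝ) 1
  ex : ∀ k, sN (nrm θ R s (x k (T k))) = 1
  ins : ∀ k, ∀ t ∈ Icc 0 (T k), sN (nrm θ R s (x k t)) ≤ 1
  long : ∀ k, k ≠ k0 → R ≤ ‖x k (T k)‖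

/-- three of the four arcs are almost parallel -/
def Par (y : Fin 4 → ℝ → ℂ) (T : Fin 4 → ℝ) : Prop :=
  ∃ k1, ∀ l m, l ≠ k1 → m ≠ k1 → ∀ t ∈ Icc 0 (T m), |br (y l (T l)) (y m t)| ≤ kap

theorem St.step {x : Fin 4 → ℝ → ℂ} (hx : ∀ k, Continuous (x k)) (h0 : ∀ k, x k 0 = 0)
    {R0 R s : ℝ} {θ : ℂ} {T : Fin 4 → ℝ} {k0 : Fin 4} (H : St x R0 θ R s T k0)
    (hP : Par (fun k t => nrm θ R s (x k t)) T) :
    ∃ θ' R' s' T' k0', St x R0 θ' R' s' T' k0' ∧ kap * (s / R) ≤ s' / R' ∧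
      s' / R' ≤ s / R / 2 := by
  obtain ⟨k1, hk1⟩ := hP
  obtain ⟨l, hl0, hl1⟩ := (by decide : ∀ i j : Fin 4, ∃ l, l ≠ i ∧ l ≠ j) k0 k1
  have hs := H.s0
  have hR : 0 < R := hs.trans_le H.s1
  have hR0 : 0 < R0 := hR.trans_le H.R2
  have hk := kap_pos
  have hk' := kap_le
  set a := x l (T l) with ha
  have ha1 : R ≤ ‖a‖ := H.long l hl0
  have ha2 : ‖a‖ ≤ 2 * R := norm_le_two H.th hs H.s1 (H.ex l).le
  have ha0 : 0 < ‖a‖ := hR.trans_le ha1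
  set R' := ‖a‖ / 2 with hR'
  have hR'0 : 0 < R' := by positivity
  set s' := kap * R * s / R' with hs'
  have hs'0 : 0 < s' := by positivity
  set θ' : ℂ := ((‖a‖⁻¹ : ℝ) : ℂ) * a with hθ'
  have hθ : ‖θ'‖ = 1 := by
    rw [hθ', norm_mul, norm_real, Real.norm_of_nonneg (by positivity), inv_mul_cancel₀ ha0.ne']
  have e1 : s' / R' = kap * (s / R) * (R / R') ^ 2 := by rw [hs']; field_simp
  have q1 : 1 ≤ R / R' := by rw [le_div_iff₀ hR'0]; linarith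
  have q2 : R / R' ≤ 2 := by rw [div_le_iff₀ hR'0]; linarith
  have hsR : 0 < s / R := by positivity
  have hsR1 : s / R ≤ 1 := (div_le_one hR).2 H.s1
  have u1 : s' / R' ≤ 4 * kap * (s / R) := by
    rw [e1]
    have : (R / R') ^ 2 ≤ 4 := by nlinarith
    nlinarith [mul_pos hk hsR]
  have u2 : s' ≤ 2 * kap * s := by
    have : s' = kap * s * (R / R') := by rw [hs']; field_simp
    rw [this]
    nlinarith [mul_pos hk hs]
  have hbe : ∀ p, (nrm θ' R' s' p).im = br (nrm θ R s a) (nrm θ R s p) / (2 * kap) := fun p => by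
    rw [br_nrm H.th hR hs, hs', hR']
    simp only [nrm, hθ', br, map_mul, conj_ofReal, mul_im, mul_re, ofReal_re, ofReal_im, conj_re,
      conj_im]
    field_simp
    ring
  have hdec : ∀ p : ℂ, p = (((nrm θ' R' s' p).re / 2 : ℝ) : ℂ) * a +
      (((nrm θ' R' s' p).im * s' : ℝ) : ℂ) * (θ' * Complex.I) := fun p => by
    have h2 : a = ((2 * R' : ℝ) : ℂ) * θ' := by
      rw [hθ', ← mul_assoc, ← ofReal_mul, hR', mul_div_cancel₀ _ two_ne_zero,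
        mul_inv_cancel₀ ha0.ne', ofReal_one, one_mul]
    refine (nrm_dec hθ hR'0 hs'0 p).trans ?_
    rw [h2]
    push_cast
    ring
  have hex : ∀ k, 1 ≤ sN (nrm θ' R' s' (x k (T k))) := fun k => by
    by_contra hlt
    set p := x k (T k)
    have h1 := (re_le_sN _).trans (not_le.1 hlt).le
    have h2 := (im_le_sN _).trans (not_le.1 hlt).le
    have h3 : sN (nrm θ R s p) = 1 := H.ex k
    have h4 : sN (nrm θ R s (θ' * Complex.I)) ≤ 1 / s := by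
      simpa [hθ] using sN_nrm_le H.th hs H.s1 (θ' * Complex.I)
    have h5 := sN_add (nrm θ R s ((((nrm θ' R' s' p).re / 2 : ℝ) : ℂ) * a))
      (nrm θ R s ((((nrm θ' R' s' p).im * s' : ℝ) : ℂ) * (θ' * Complex.I)))
    rw [← nrm_add, ← hdec p, h3, nrm_smul, nrm_smul, sN_smul, sN_smul, H.ex l, abs_div, abs_mul,
      abs_two, abs_of_pos hs'0] at h5
    have h6 : |(nrm θ' R' s' p).im| * s' * sN (nrm θ R s (θ' * Complex.I)) ≤
        1 * (2 * kap * s) * (1 / s) := by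
      have := sN_nonneg (nrm θ R s (θ' * Complex.I))
      gcongr
    have h7 : 1 * (2 * kap * s) * (1 / s) = 2 * kap := by field_simp
    linarith
  choose T' hT' hT1 hT2 using fun k => first_exit (g := fun t => sN (nrm θ' R' s' (x k t)))
    (continuous_sN.comp ((continuous_nrm _ _ _).comp (hx k)))
    (by simp [h0, nrm_zero, sN]) (H.tm k).1 (hex k)
  refine ⟨θ', R', s', T', k1, ⟨hθ, hs'0, ?_, by linarith [H.R2], ?_,
    fun k => ⟨(hT' k).1, (hT' k).2.trans (H.tm k).2⟩, hT1, hT2, fun m hm => ?_⟩, ?_, ?_⟩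
  · rw [← div_le_one hR'0]
    nlinarith
  · have h1 : R / R0 ≤ 2 * (R' / R0) := by
      rw [← mul_div_assoc]
      gcongr
      linarith
    have h2 : (R / R0) ^ 100 ≤ (2 * (R' / R0)) ^ 100 := by gcongr
    have h3 : 4 * kap * 2 ^ 100 = 1 := by unfold kap; norm_num
    calc s' / R' ≤ 4 * kap * (2 * (R' / R0)) ^ 100 :=
          u1.trans (mul_le_mul_of_nonneg_left (H.rat.trans h2) (by positivity))
      _ = _ := by rw [mul_pow, ← mul_assoc, h3, one_mul]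
  · have h1 := hk1 l m hl1 hm (T' m) (hT' m)
    have h2 : |(nrm θ' R' s' (x m (T' m))).im| ≤ 1 / 2 := by
      rw [hbe, abs_div, abs_of_pos (a := 2 * kap) (by positivity), div_le_iff₀ (by positivity)]
      linarith
    have h3 : |(nrm θ' R' s' (x m (T' m))).re| = 1 := by
      rcases max_eq_iff.1 (hT1 m) with h | h
      · exact h.1
      · linarith [h.1]
    have := re_nrm_le hθ hR'0 hs'0 (x m (T' m))
    rwa [h3, one_mul] at this
  · rw [e1]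
    exact le_mul_of_one_le_right (by positivity) (one_le_pow₀ q1)
  · nlinarith

theorem frame' {x : Fin 4 → ℝ → ℂ} (hx : ∀ k, Continuous (x k)) (h0 : ∀ k, x k 0 = 0) {R0 σ : ℝ}
    (hR0 : 0 < R0) (h1 : ∀ k, 2 * R0 ≤ ‖x k 1‖) (hσ : 0 < σ) (hσ1 : σ ≤ 1) :
    ∃ θ R s T k0, St x R0 θ R s T k0 ∧ kap * σ ≤ s / R ∧
      (s / R < σ ∨ σ ≤ s / R ∧ ¬ Par (fun k t => nrm θ R s (x k t)) T) := by
  have key : ∀ n : ℕ, ∀ θ R s T k0, St x R0 θ R s T k0 → kap * σ ≤ s / R → s / R < σ * 2 ^ n →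
      ∃ θ R s T k0, St x R0 θ R s T k0 ∧ kap * σ ≤ s / R ∧
        (s / R < σ ∨ σ ≤ s / R ∧ ¬ Par (fun k t => nrm θ R s (x k t)) T) := by
    intro n
    induction n with
    | zero => exact fun θ R s T k0 H h2 h3 => ⟨θ, R, s, T, k0, H, h2, Or.inl (by simpa using h3)⟩
    | succ n ih =>
      intro θ R s T k0 H h2 h3
      rcases lt_or_ge (s / R) σ with h4 | h4
      · exact ⟨θ, R, s, T, k0, H, h2, Or.inl h4⟩
      by_cases hP : Par (fun k t => nrm θ R s (x k t)) T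
      · obtain ⟨θ', R', s', T', k', H', h5, h6⟩ := H.step hx h0 hP
        refine ih θ' R' s' T' k' H' ((mul_le_mul_of_nonneg_left h4 kap_pos.le).trans h5) ?_
        rw [pow_succ] at h3
        linarith
      · exact ⟨θ, R, s, T, k0, H, h2, Or.inr ⟨h4, hP⟩⟩
  have hex : ∀ k, 1 ≤ sN (nrm 1 R0 R0 (x k 1)) := fun k => by
    by_contra hlt
    have h2 := norm_le_nrm (θ := 1) norm_one hR0 hR0 (x k 1)
    have h3 := mul_lt_mul_of_pos_right ((re_le_sN _).trans_lt (not_le.1 hlt)) hR0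
    have h4 := mul_lt_mul_of_pos_right ((im_le_sN _).trans_lt (not_le.1 hlt)) hR0
    linarith [h1 k]
  choose T hT hT1 hT2 using fun k => first_exit (g := fun t => sN (nrm 1 R0 R0 (x k t)))
    (continuous_sN.comp ((continuous_nrm _ _ _).comp (hx k)))
    (by simp [h0, nrm_zero, sN]) zero_le_one (hex k)
  obtain ⟨n, hn⟩ := pow_unbounded_of_one_lt (1 / σ) (one_lt_two (α := ℝ))
  refine key n 1 R0 R0 T 0 ⟨norm_one, hR0, le_rfl, le_rfl, by simp [hR0.ne'], hT, hT1, hT2,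
    fun k _ => ?_⟩ ?_ ?_
  · have := sN_nrm_le (θ := 1) norm_one hR0 le_rfl (x k (T k))
    rwa [hT1 k, le_div_iff₀ hR0, one_mul] at this
  · rw [div_self hR0.ne']
    nlinarith [kap_pos, kap_le]
  · rw [div_self hR0.ne']
    rw [div_lt_iff₀ hσ] at hn
    linarith

end Fr

open Fr in
theorem frame (x : Fin 4 → ℝ → ℂ) (hx : ∀ k, Continuous (x k)) (h0 : ∀ k, x k 0 = 0)
    (R0 : ℝ) (hR0 : 0 < R0) (h1 : ∀ k, 2 * R0 ≤ ‖x k 1‖) (ss : ℝ) (hss : 0 < ss)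
    (hss1 : ss ≤ 1 / 2) :
    ∃ (th : ℂ) (R s : ℝ) (T : Fin 4 → ℝ), ‖th‖ = 1 ∧ 0 < s ∧ s ≤ R ∧ R ≤ R0 ∧
      s / R ≤ (R / R0) ^ 100 ∧ kap * ss ≤ s / R ∧ (∀ k, T k ∈ Icc (0 : ℝ) 1) ∧
      (∀ k, sN (nrm th R s (x k (T k))) = 1) ∧
      (∀ k, ∀ t ∈ Icc 0 (T k), sN (nrm th R s (x k t)) ≤ 1) ∧
      ((s / R < ss ∧ ∃ k0, ∀ k, k ≠ k0 → 3 / 4 ≤ |(nrm th R s (x k (T k))).re|) ∨
        (ss ≤ s / R ∧ ∀ k, ∃ l m, l ≠ k ∧ m ≠ k ∧ ∃ t ∈ Icc 0 (T m),
          kap < |br (nrm th R s (x l (T l))) (nrm th R s (x m t))|)) := by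
  obtain ⟨θ, R, s, T, k0, H, h2, h3⟩ := frame' hx h0 hR0 h1 hss (by linarith)
  have hs := H.s0
  have hR := hs.trans_le H.s1
  refine ⟨θ, R, s, T, H.th, hs, H.s1, H.R2, H.rat, h2, H.tm, H.ex, H.ins,
    h3.imp (fun h => ⟨h, k0, fun k hk => ?_⟩) fun h => ⟨h.1, fun k => ?_⟩⟩
  · have h5 := mul_le_mul_of_nonneg_right (sN_le.1 (H.ex k).le).2 hs.le
    have h6 : s < 1 / 2 * R := (div_lt_iff₀ hR).1 (h.trans_le hss1)
    have h7 := pow_le_pow_left₀ hR.le (H.long k hk) 2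
    rw [norm_sq_nrm H.th hR hs, mul_pow, mul_pow, ← sq_abs (nrm θ R s _).re,
      ← sq_abs (nrm θ R s _).im, ← mul_pow, ← mul_pow] at h7
    have h8 := pow_le_pow_left₀ (by positivity) h5 2
    by_contra hlt
    have h9 := pow_le_pow_left₀ (by positivity)
      (mul_le_mul_of_nonneg_right (not_le.1 hlt).le hR.le) 2
    nlinarith
  · by_contra hc
    push Not at hc
    exact h.2 ⟨k, hc⟩

end Pool.Agent.Lib.MP_5a3ebe_gt.Pv
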