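import Pool.Agent.Lib.MP_5a3ebe_gt.PvPair
import Pool.Agent.Lib.MP_5a3ebe_gt.PvDefs

/-! The square-mean bound for plates of all sizes. -/

open MeasureTheory Set Complex
open scoped ENNReal

namespace Pool.Agent.Lib.MP_5a3ebe_gt.Pv

open PvBox PvPair

theorem al_eq (P : Plate) (z : ℂ) : P.al z = X P.th z / P.R := by
  simp only [Plate.al, X, mul_re, conj_re, conj_im]; ring

theorem be_eq (P : Plate) (z : ℂ) : P.be z = Y P.th z / P.s := by
  simp only [Plate.be, Y, mul_im, conj_re, conj_im]; ring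

theorem unit_sq {z : ℂ} (h : ‖z‖ = 1) : z.re ^ 2 + z.im ^ 2 = 1 := by
  have := Complex.sq_norm z
  rw [h, normSq_apply] at this
  linarith

theorem le_of_abs_div {x r R : ℝ} (hR : 0 < R) (h : |x / R| ≤ r) : |x| ≤ r * R := by
  rwa [abs_div, abs_of_pos hR, div_le_iff₀ hR] at h

theorem Plate.measurableSet_V (P : Plate) (C : ℝ) (z : ℂ × ℂ) :
    MeasurableSet {y | y - z ∈ P.V C} := by
  refine IsClosed.measurableSet ?_
  simp only [Plate.V, Plate.ell, al_eq, be_eq, X, Y, ofPred_and]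
  refine IsClosed.inter ?_ (IsClosed.inter ?_ (IsClosed.inter ?_ (IsClosed.inter ?_ ?_))) <;>
    exact isClosed_le (by fun_prop) (by fun_prop)

theorem vol_V' {P : Plate} {C η R0 : ℝ} (h : P.Valid C η R0) (z : ℂ × ℂ) :
    volume {y | y - z ∈ P.V C} ≤ ENNReal.ofReal (16 * C ^ 4 * P.v) := by
  have hs := h.s0
  have hR : 0 < P.R := hs.trans_le h.s1
  have k0 : ∀ y, y - z ∈ P.V C → |lin P.th ![1, 0, 0, 0] (y - z)| ≤ C * P.R := fun y hy => by
    simpa [lin] using le_of_abs_div hR (al_eq P _ ▸ hy.1)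
  have k1 : ∀ y, y - z ∈ P.V C → |lin P.th ![0, 1, 0, 0] (y - z)| ≤ C * P.R := fun y hy => by
    simpa [lin] using le_of_abs_div hR (al_eq P _ ▸ hy.2.1)
  have k2 : ∀ y, y - z ∈ P.V C → |lin P.th ![0, 0, 1, 0] (y - z)| ≤ C * P.s := fun y hy => by
    simpa [lin] using le_of_abs_div hs (be_eq P _ ▸ hy.2.2.1)
  have k3 : ∀ y, y - z ∈ P.V C → |lin P.th ![0, 0, 0, 1] (y - z)| ≤ C * P.s := fun y hy => by
    simpa [lin] using le_of_abs_div hs (be_eq P _ ▸ hy.2.2.2.1)
  have k4 : ∀ y, y - z ∈ P.V C → |lin P.th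
      ![P.ps1 / P.R, P.ps2 / P.R, P.ph1 / P.s, P.ph2 / P.s] (y - z)| ≤ C * P.om := fun y hy => by
    convert hy.2.2.2.2 using 2
    simp [lin, Plate.ell, al_eq, be_eq]
    ring
  have e : 16 * (C * P.om) * (C * P.s) * (C * P.R) * (C * P.R) / (1 / P.s) =
      16 * C ^ 4 * P.v := by
    unfold Plate.v
    field_simp
  rw [← e]
  rcases max_choice |P.ph1| |P.ph2| with h1 | h1
  · refine vol_fr (unit_sq h.th) _ _ _ _ z z z z (one_div_pos.2 hs) ?_
      fun y hy => ⟨k4 y hy, k3 y hy, k0 y hy, k1 y hy⟩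
    rw [det_rows, mul_one, mul_zero, sub_zero, abs_div, abs_of_pos hs, ← h1, h.ph]
  · refine vol_fr (unit_sq h.th) _ _ _ _ z z z z (one_div_pos.2 hs) ?_
      fun y hy => ⟨k4 y hy, k2 y hy, k0 y hy, k1 y hy⟩
    rw [det_rows, mul_one, mul_zero, zero_sub, abs_neg, abs_div, abs_of_pos hs, ← h1, h.ph]

theorem vol_V {P : Plate} {C η R0 : ℝ} (h : P.Valid C η R0) :
    volume (P.V C) ≤ ENNReal.ofReal (16 * C ^ 4 * P.v) := by
  simpa using vol_V' h 0

theorem sq_classes {ι κ : Type*} [Fintype ι] [Fintype κ] [DecidableEq κ] (cl : ι → κ)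
    (f : ι → ℝ≥0∞) : ∑ i, ∑ j, f i * f j ≤
      2 * Fintype.card κ * ∑ i, ∑ j ∈ Finset.univ.filter fun j => cl j = cl i, f i * f j := by
  set F : κ → ℝ≥0∞ := fun c => ∑ j ∈ Finset.univ.filter fun j => cl j = c, f j with hF
  have h1 : ∑ i, f i = ∑ c, F c := (Finset.sum_fiberwise _ cl f).symm
  have h2 : ∑ i, ∑ j ∈ Finset.univ.filter fun j => cl j = cl i, f i * f j = ∑ c, F c * F c := by
    rw [← Finset.sum_fiberwise Finset.univ cl]
    refine Finset.sum_congr rfl fun c _ => ?_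
    rw [Finset.sum_mul]
    refine Finset.sum_congr rfl fun i hi => ?_
    rw [← Finset.mul_sum, (Finset.mem_filter.1 hi).2]
  rw [← Finset.sum_mul_sum, h1, h2, Finset.sum_mul_sum]
  calc ∑ c, ∑ c', F c * F c' ≤ ∑ c, ∑ c', (F c * F c + F c' * F c') := by
        refine Finset.sum_le_sum fun c _ => Finset.sum_le_sum fun c' _ => ?_
        rcases le_total (F c) (F c') with h | h
        · exact le_add_left (by gcongr)
        · exact le_add_right (by gcongr)
    _ = _ := by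
        simp only [Finset.sum_add_distrib, Finset.sum_const, Finset.card_univ, nsmul_eq_mul,
          ← Finset.mul_sum]
        ring

theorem meas_classes {E ι κ : Type*} [MeasurableSpace E] (μ : Measure E) [Fintype ι] [Fintype κ]
    [DecidableEq κ] (cl : ι → κ) (a : ι → ℝ≥0∞) {W : ι → Set E} (hW : ∀ i, MeasurableSet (W i)) :
    ∑ i, ∑ j, a i * a j * μ (W i ∩ W j) ≤ 2 * Fintype.card κ *
      ∑ i, ∑ j ∈ Finset.univ.filter fun j => cl j = cl i, a i * a j * μ (W i ∩ W j) := by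
  set f : ι → E → ℝ≥0∞ := fun i => (W i).indicator fun _ => a i with hf
  have m1 : ∀ i j, Measurable fun x => f i x * f j x := fun i j =>
    (measurable_const.indicator (hW i)).mul (measurable_const.indicator (hW j))
  have h1 : ∀ i j, a i * a j * μ (W i ∩ W j) = ∫⁻ x, f i x * f j x ∂μ := fun i j => by
    rw [← lintegral_indicator_const ((hW i).inter (hW j))]
    exact lintegral_congr fun x => inter_indicator_mul (fun _ => a i) (fun _ => a j) x
  have h2 : ∀ s : ι → Finset ι, ∑ i, ∑ j ∈ s i, a i * a j * μ (W i ∩ W j) =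
      ∫⁻ x, ∑ i, ∑ j ∈ s i, f i x * f j x ∂μ := fun s => by
    rw [lintegral_finsetSum _ fun i _ => Finset.measurable_sum _ fun j _ => m1 i j]
    refine Finset.sum_congr rfl fun i _ => ?_
    rw [lintegral_finsetSum _ fun j _ => m1 i j]
    exact Finset.sum_congr rfl fun j _ => h1 i j
  rw [h2 fun _ => Finset.univ, h2, ← lintegral_const_mul _
    (Finset.measurable_sum _ fun i _ => Finset.measurable_sum _ fun j _ => m1 i j)]
  exact lintegral_mono fun x => sq_classes cl fun i => f i x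

theorem exists_scale {x c η : ℝ} (h0 : x ≤ c) (m : ℕ) (hm : η ^ m * c < x) :
    ∃ k : Fin m, η ^ (k.1 + 1) * c < x ∧ x ≤ η ^ k.1 * c := by
  induction m with
  | zero => simp at hm; linarith
  | succ m ih =>
    by_cases h : η ^ m * c < x
    · obtain ⟨k, h'⟩ := ih h
      exact ⟨k.castSucc, h'⟩
    · exact ⟨Fin.last m, hm, not_lt.1 h⟩

/-- the normalised parameters of a plate of width class `s0` -/
noncomputable def par (P : Plate) (R0 s0 : ℝ) : Par :=
  ⟨P.th, P.ps1 * (P.s / s0) * (R0 / P.R) / √(P.ph1 ^ 2 + P.ph2 ^ 2),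
    P.ps2 * (P.s / s0) * (R0 / P.R) / √(P.ph1 ^ 2 + P.ph2 ^ 2),
    P.ph1 / √(P.ph1 ^ 2 + P.ph2 ^ 2), P.ph2 / √(P.ph1 ^ 2 + P.ph2 ^ 2)⟩

theorem one_le_sqrt {P : Plate} {C η R0 : ℝ} (h : P.Valid C η R0) :
    1 ≤ √(P.ph1 ^ 2 + P.ph2 ^ 2) := by
  rw [Real.one_le_sqrt]
  rcases max_choice |P.ph1| |P.ph2| with h1 | h1 <;> rw [h.ph] at h1
  · nlinarith [sq_abs P.ph1, sq_nonneg P.ph2]
  · nlinarith [sq_abs P.ph2, sq_nonneg P.ph1]

theorem par_ok {P : Plate} {C η R0 s0 : ℝ} (h : P.Valid C η R0) (hη : 0 < η) (hs : P.s ≤ s0) :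
    (par P R0 s0).Ok (4 * C / η) := by
  have hn := one_le_sqrt h
  have hs0 := h.s0
  have hR : 0 < P.R := hs0.trans_le h.s1
  have hR0 : 0 < R0 := hR.trans_le h.R2
  have hC : 0 ≤ C := (abs_nonneg _).trans h.ps1
  have key : ∀ p : ℝ, |p| ≤ C →
      |p * (P.s / s0) * (R0 / P.R) / √(P.ph1 ^ 2 + P.ph2 ^ 2)| ≤ 4 * C / η := fun p hp => by
    have h1 : P.s / s0 ≤ 1 := (div_le_one (hs0.trans_le hs)).2 hs
    have h2 : R0 / P.R ≤ 4 / η := by
      rw [div_le_div_iff₀ hR hη]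
      linarith [h.R1]
    have h3 : 0 ≤ P.s / s0 := div_nonneg hs0.le (hs0.le.trans hs)
    rw [abs_div, abs_mul, abs_mul, abs_of_nonneg h3, abs_of_pos (div_pos hR0 hR),
      abs_of_nonneg (Real.sqrt_nonneg _)]
    calc _ ≤ C * 1 * (4 / η) / 1 := by gcongr
      _ = _ := by ring
  refine ⟨unit_sq h.th, ?_, key _ h.ps1, key _ h.ps2⟩
  have h1 := Real.sq_sqrt (add_nonneg (sq_nonneg P.ph1) (sq_nonneg P.ph2))
  simp only [par, div_pow]
  rw [← add_div, ← h1, Real.sqrt_sq (Real.sqrt_nonneg _), div_self (by positivity)]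

theorem V_sub {P : Plate} {C η R0 s0 w K : ℝ} (h : P.Valid C η R0) (hC : 1 ≤ C) (hK : 1 ≤ K)
    (hs : P.s ≤ s0) (hw : P.om ≤ w) (z : ℂ × ℂ) :
    {y | y - z ∈ P.V C} ⊆ (par P R0 s0).W (K * C * R0) (K * C * s0) w z := by
  intro y hy
  have hn := one_le_sqrt h
  have hs0 := h.s0
  have hom := h.om0
  have hR : 0 < P.R := hs0.trans_le h.s1
  have hR0 : 0 < R0 := hR.trans_le h.R2
  have hs1 : 0 < s0 := hs0.trans_le hs
  have k1 : C * P.R ≤ K * C * R0 := by
    calc C * P.R = 1 * C * P.R := by ring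
      _ ≤ _ := by gcongr; exact h.R2
  have k2 : C * P.s ≤ K * C * s0 := by
    calc C * P.s = 1 * C * P.s := by ring
      _ ≤ _ := by gcongr
  refine ⟨⟨(le_of_abs_div hR (al_eq P _ ▸ hy.1)).trans k1,
    (le_of_abs_div hR (al_eq P _ ▸ hy.2.1)).trans k1,
    (le_of_abs_div hs0 (be_eq P _ ▸ hy.2.2.1)).trans k2,
    (le_of_abs_div hs0 (be_eq P _ ▸ hy.2.2.2.1)).trans k2⟩, ?_⟩
  have e : (par P R0 s0).l (K * C * R0) (K * C * s0) (y - z) =
      P.ell (y - z) * (P.s / s0) / (K * C * √(P.ph1 ^ 2 + P.ph2 ^ 2)) := by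
    simp only [Par.l, par, Plate.ell, al_eq, be_eq]
    field_simp
  have h1 : P.s / s0 ≤ 1 := (div_le_one hs1).2 hs
  have hC0 : 0 < C := one_pos.trans_le hC
  have hw0 : 0 < w := hom.trans_le hw
  have h2 : 0 < K * C * √(P.ph1 ^ 2 + P.ph2 ^ 2) :=
    mul_pos (mul_pos (one_pos.trans_le hK) hC0) (one_pos.trans_le hn)
  have h3 : |P.ell (y - z)| ≤ C * w := hy.2.2.2.2.trans (by gcongr)
  rw [e, abs_div, abs_mul, abs_of_pos (div_pos hs0 hs1), abs_of_pos h2]
  calc _ ≤ C * w * 1 / (1 * C * 1) := by gcongr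
    _ = w := by field_simp

theorem Plate.Valid.low {P : Plate} {C η R0 : ℝ} (h : P.Valid C η R0) (hC : 1 ≤ C) (hη : 0 < η)
    (hη' : 4 * C * η ≤ 1) : η ^ 102 * R0 ≤ P.s * P.om ∧ η ^ 101 ≤ P.om := by
  have hs0 := h.s0
  have hom := h.om0
  have hR : 0 < P.R := hs0.trans_le h.s1
  have hp : 0 < η ^ 100 := pow_pos hη 100
  constructor
  · calc η ^ 102 * R0 = 4 * η * (η ^ 100 * (η * R0 / 4)) := by ring
      _ ≤ 4 * η * (C * (P.s * P.om)) := mul_le_mul_of_nonneg_left
          ((mul_le_mul_of_nonneg_left h.R1 hp.le).trans h.om2) (by positivity)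
      _ = 4 * C * η * (P.s * P.om) := by ring
      _ ≤ _ := mul_le_of_le_one_left (by positivity) hη'
  · refine le_of_mul_le_mul_right ?_ hR
    calc η ^ 101 * P.R = η * (η ^ 100 * P.R) := by ring
      _ ≤ η * (C * (P.R * P.om)) := mul_le_mul_of_nonneg_left (h.om2.trans
          (mul_le_mul_of_nonneg_left (mul_le_mul_of_nonneg_right h.s1 hom.le) (by linarith))) hη.le
      _ = C * η * (P.om * P.R) := by ring
      _ ≤ _ := mul_le_of_le_one_left (by positivity) (by nlinarith)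

/-- The overlap bound inside one class. -/
theorem one_class {C η R0 : ℝ} (hC : 1 ≤ C) (hη : 0 < η) (hη' : 4 * C * η ≤ 1) (hR0 : 0 < R0)
    {ι : Type*} (I : Finset ι) (P : ι → Plate) (B : ι → Set (ℂ × ℂ)) (z : ι → ℂ × ℂ)
    (hP : ∀ i, (P i).Valid C η R0) (hBm : ∀ i, MeasurableSet (B i))
    (hBd : Pairwise (Function.onFun Disjoint B)) (hB : ∀ i, ∀ y ∈ B i, ‖y - z i‖ ≤ η ^ 98 * R0)
    {a b : ℕ} (ha : a ≤ 102)
    (h1 : ∀ k ∈ I, η ^ (a + 1) * R0 < (P k).s ∧ (P k).s ≤ η ^ a * R0)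
    (h2 : ∀ k ∈ I, η ^ (b + 1) * 1 < (P k).om ∧ (P k).om ≤ η ^ b * 1) {i : ι} (hi : i ∈ I) :
    ∑ k ∈ I, volume.real (B k) *
      volume.real ({y | y - z i ∈ (P i).V C} ∩ {y | y - z k ∈ (P k).V C}) / ((P i).v * (P k).v) ≤
      10 ^ 15 * C ^ 11 / η ^ 98 := by
  have hC0 : 0 < C := one_pos.trans_le hC
  have hη1 : η ≤ 1 := by nlinarith
  have hK : 1 ≤ 1 / η ^ 4 := one_le_one_div (by positivity) (pow_le_one₀ hη.le hη1)
  have hv : ∀ k ∈ I, R0 ^ 4 * η ^ (2 * a + b + 5) / 16 ≤ (P k).v := fun k hk => by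
    calc _ = (η * R0 / 4) ^ 2 * (η ^ (a + 1) * R0) ^ 2 * (η ^ (b + 1) * 1) := by ring
      _ ≤ _ := by
          unfold Plate.v
          gcongr
          exacts [(hP k).R1, (h1 k hk).1.le, (h2 k hk).1.le]
  have lo := (hP i).low hC hη hη'
  have hw : η ^ 101 ≤ η ^ b := by linarith [lo.2, (h2 i hi).2]
  have key := pair_sum I (fun k => par (P k) R0 (η ^ a * R0)) z B (A := 4 * C / η)
    (R := 1 / η ^ 4 * C * R0) (s := 1 / η ^ 4 * C * (η ^ a * R0)) (w := η ^ b)
    (t := η ^ b / η ^ 50) (δ := η ^ 98 * R0) (ρ := 1 / η) (m := 102)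
    (by rw [le_div_iff₀ hη]; linarith) (fun k hk => par_ok (hP k) hη (h1 k hk).2)
    (by positivity) (by gcongr; exact mul_le_of_le_one_left hR0.le (pow_le_one₀ hη.le hη1))
    (by positivity) (pow_le_one₀ hη.le hη1)
    (le_div_self (by positivity) (by positivity) (pow_le_one₀ hη.le hη1)) ?_
    (one_le_one_div hη hη1) ?_ hBm hBd hB hi
  · have hX : ((102 : ℕ) : ℝ) * (1 / η) ^ 2 + 1 / (η ^ b / η ^ 50) + η ^ b / η ^ 50 / η ^ b ≤
        104 / η ^ 51 := by
      have e1 : (1 / η) ^ 2 ≤ 1 / η ^ 51 := by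
        rw [one_div_pow]
        exact one_div_le_one_div_of_le (by positivity) (pow_le_pow_of_le_one hη.le hη1 (by omega))
      have e2 : 1 / (η ^ b / η ^ 50) ≤ 1 / η ^ 51 := by
        refine one_div_le_one_div_of_le (by positivity) ?_
        rw [le_div_iff₀ (by positivity), ← pow_add]
        exact hw
      have e3 : η ^ b / η ^ 50 / η ^ b ≤ 1 / η ^ 51 := by
        rw [div_right_comm, div_self (by positivity)]
        exact one_div_le_one_div_of_le (by positivity) (pow_le_pow_of_le_one hη.le hη1 (by omega))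
      rw [show 104 / η ^ 51 = 104 * (1 / η ^ 51) by ring]
      push_cast
      linarith
    calc _ ≤ ∑ k ∈ I, volume.real (B k) * volume.real
            ((par (P i) R0 (η ^ a * R0)).W (1 / η ^ 4 * C * R0) (1 / η ^ 4 * C * (η ^ a * R0))
              (η ^ b) (z i) ∩
            (par (P k) R0 (η ^ a * R0)).W (1 / η ^ 4 * C * R0) (1 / η ^ 4 * C * (η ^ a * R0))
              (η ^ b) (z k)) / (R0 ^ 4 * η ^ (2 * a + b + 5) / 16) ^ 2 := by
          refine Finset.sum_le_sum fun k hk => ?_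
          refine div_le_div₀ (by positivity) (mul_le_mul_of_nonneg_left ?_ measureReal_nonneg)
            (by positivity) ?_
          · refine measureReal_mono (inter_subset_inter
              (V_sub (hP i) hC hK (h1 i hi).2 (by linarith [(h2 i hi).2]) _)
              (V_sub (hP k) hC hK (h1 k hk).2 (by linarith [(h2 k hk).2]) _)) ?_
            exact ne_top_of_le_ne_top ENNReal.ofReal_ne_top ((measure_mono inter_subset_left).trans
              (vol_W (par_ok (hP i) hη (h1 i hi).2) (by positivity) _ _))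
          · rw [sq]
            exact mul_le_mul (hv i hi) (hv k hk) (by positivity)
              (le_trans (by positivity) (hv i hi))
      _ ≤ 10 ^ 8 * (4 * C / η) ^ 3 * (104 / η ^ 51) * ((1 / η ^ 4 * C * R0) ^ 2 *
            (1 / η ^ 4 * C * (η ^ a * R0)) ^ 2 * η ^ b) ^ 2 /
            (R0 ^ 4 * η ^ (2 * a + b + 5) / 16) ^ 2 := by
          rw [← Finset.sum_div]
          exact div_le_div_of_nonneg_right (key.trans (by gcongr)) (by positivity)
      _ = 170393600000000 * C ^ 11 / η ^ 96 := by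
          field_simp
          ring
      _ ≤ _ := div_le_div₀ (by positivity) (by gcongr; norm_num) (by positivity)
          (pow_le_pow_of_le_one hη.le hη1 (by omega))
  · calc η ^ 98 * R0 = 1 / η ^ 4 * 1 * (η ^ 102 * R0) := by field_simp
      _ ≤ 1 / η ^ 4 * C * (η ^ a * R0 * (η ^ b * 1)) :=
          mul_le_mul (mul_le_mul_of_nonneg_left hC (by positivity))
            (lo.1.trans (mul_le_mul (h1 i hi).2 (h2 i hi).2 (hP i).om0.le (by positivity)))
            (by positivity) (by positivity)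
      _ = _ := by ring
  · calc 1 / η ^ 4 * C * R0 = 1 / η ^ 4 * C * (η ^ 102 * R0) * (1 / η) ^ 102 := by field_simp
      _ ≤ _ := mul_le_mul_of_nonneg_right (mul_le_mul_of_nonneg_left
          (mul_le_mul_of_nonneg_right (pow_le_pow_of_le_one hη.le hη1 ha) hR0.le)
          (by positivity)) (by positivity)

/-- The square-mean bound. -/
theorem l2 (C : ℝ) (hC : 1 ≤ C) : ∃ C' η0 : ℝ, 0 < C' ∧ 0 < η0 ∧ ∀ η : ℝ, 0 < η → η ≤ η0 →
    ∀ R0 : ℝ, 0 < R0 → ∀ (ι : Type) [Fintype ι] (P : ι → Plate) (B : ι → Set (ℂ × ℂ))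
      (z : ι → ℂ × ℂ), (∀ i, (P i).Valid C η R0) → (∀ i, MeasurableSet (B i)) →
      Pairwise (Function.onFun Disjoint B) → (∀ i, ∀ y ∈ B i, ‖y - z i‖ ≤ η ^ 98 * R0) →
      ∑ i, ∑ j, volume (B i) * volume (B j) *
          volume ({y | y - z i ∈ (P i).V C} ∩ {y | y - z j ∈ (P j).V C}) /
          (ENNReal.ofReal (P i).v * ENNReal.ofReal (P j).v) ≤
        ENNReal.ofReal (C' / η ^ 98) * ∑ i, volume (B i) := by
  have hC0 : 0 < C := one_pos.trans_le hC
  refine ⟨2 * (103 * 102) * (10 ^ 15 * C ^ 11), 1 / (8 * C), by positivity, by positivity,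
    fun η hη hη0 R0 hR0 ι _ P B z hP hBm hBd hB => ?_⟩
  rw [le_div_iff₀ (by positivity)] at hη0
  have hη' : 4 * C * η ≤ 1 := by nlinarith
  have hη1 : η < 1 := by nlinarith
  have lo := fun i => (hP i).low hC hη hη'
  have ea : ∀ i, ∃ k : Fin 103, η ^ (k.1 + 1) * R0 < (P i).s ∧ (P i).s ≤ η ^ k.1 * R0 := fun i => by
    refine exists_scale ((hP i).s1.trans (hP i).R2) 103 ?_
    calc η ^ 103 * R0 < η ^ 102 * R0 := by
          gcongr ?_ * _
          exact pow_lt_pow_right_of_lt_one₀ hη hη1 (by omega)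
      _ ≤ _ := (lo i).1.trans (mul_le_of_le_one_right (hP i).s0.le (hP i).om1)
  have eb : ∀ i, ∃ k : Fin 102, η ^ (k.1 + 1) * 1 < (P i).om ∧ (P i).om ≤ η ^ k.1 * 1 := fun i => by
    refine exists_scale (hP i).om1 102 ?_
    rw [mul_one]
    exact (pow_lt_pow_right_of_lt_one₀ hη hη1 (by omega)).trans_le (lo i).2
  choose a ha using ea
  choose b hb using eb
  have v0 : ∀ i, 0 < (P i).v := fun i =>
    mul_pos (mul_pos (pow_pos ((hP i).s0.trans_le (hP i).s1) 2) (pow_pos (hP i).s0 2)) (hP i).om0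
  have fB : ∀ i, volume (B i) ≠ ∞ := fun i => by
    have := PvCover.haar_vol
    exact ne_top_of_le_ne_top (measure_closedBall_lt_top (x := z i) (r := η ^ 98 * R0)).ne
      (measure_mono fun y hy => mem_closedBall_iff_norm.2 (hB i y hy))
  have e1 : ∀ (i j) (x : ℝ≥0∞), volume (B i) * volume (B j) * x /
      (ENNReal.ofReal (P i).v * ENNReal.ofReal (P j).v) =
      volume (B i) / ENNReal.ofReal (P i).v * (volume (B j) / ENNReal.ofReal (P j).v) * x := by
    intro i j x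
    simp only [div_eq_mul_inv]
    rw [ENNReal.mul_inv (Or.inl (by simpa using v0 i)) (Or.inl ENNReal.ofReal_ne_top)]
    ring
  simp only [e1]
  refine (meas_classes volume (fun i => (a i, b i)) _
    fun i => (P i).measurableSet_V C (z i)).trans ?_
  have e2 : ENNReal.ofReal (2 * (103 * 102) * (10 ^ 15 * C ^ 11) / η ^ 98) =
      2 * Fintype.card (Fin 103 × Fin 102) * ENNReal.ofReal (10 ^ 15 * C ^ 11 / η ^ 98) := by
    rw [mul_div_assoc, ENNReal.ofReal_mul (by positivity)]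
    congr 1
    rw [Fintype.card_prod, Fintype.card_fin, Fintype.card_fin]
    norm_num
  rw [e2, mul_assoc (2 * _ : ℝ≥0∞), Finset.mul_sum _ fun i => volume (B i)]
  gcongr with i
  have key := one_class hC hη hη' hR0 (Finset.univ.filter fun j => (a j, b j) = (a i, b i)) P B z
    hP hBm hBd hB (a := a i) (b := b i) (Nat.lt_succ_iff.1 (a i).2)
    (fun k hk => (Prod.mk.inj (Finset.mem_filter.1 hk).2).1 ▸ ha k)
    (fun k hk => (Prod.mk.inj (Finset.mem_filter.1 hk).2).2 ▸ hb k) (i := i) (by simp)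
  refine le_trans (le_of_eq ?_) (mul_le_mul_left (ENNReal.ofReal_le_ofReal key) _)
  rw [ENNReal.ofReal_sum_of_nonneg fun k _ => div_nonneg (by positivity)
    (mul_pos (v0 i) (v0 k)).le, Finset.sum_mul]
  refine Finset.sum_congr rfl fun k _ => ?_
  rw [← e1, ENNReal.ofReal_div_of_pos (mul_pos (v0 i) (v0 k)),
    ENNReal.ofReal_mul measureReal_nonneg, ENNReal.ofReal_mul (v0 i).le,
    ofReal_measureReal (fB k), ofReal_measureReal (ne_top_of_le_ne_top ENNReal.ofReal_ne_top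
      ((measure_mono inter_subset_left).trans (vol_V' (hP i) (z i))))]
  simp only [div_eq_mul_inv]
  ring

end Pool.Agent.Lib.MP_5a3ebe_gt.Pv
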