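import Pool.Agent.Lib.MP_5a3ebe_gt.PvAlg

/-!
Spread arcs in normalised coordinates: the slab and the chords.
-/

set_option linter.unusedVariables false

namespace Pool.Agent.Lib.MP_5a3ebe_gt.Pv

open Set Complex MeasureTheory unitInterval Function
open Pool.Agent.Lib.MP_5a3ebe_gt.Gen (Lip Lm)
open scoped ENNReal

theorem abs_br_comm (p q : ℂ) : |br p q| = |br q p| := by
  rw [← abs_neg]
  congr 1
  simp [br]
  ring

theorem br_jac (p q r : ℂ) : |br p q| * sN r ≤ |br q r| * sN p + |br r p| * sN q := by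
  have e : ((br p q : ℝ) : ℂ) * r = ((-br q r : ℝ) : ℂ) * p - ((br r p : ℝ) : ℂ) * q := by
    apply Complex.ext <;> simp only [sub_re, sub_im, re_ofReal_mul, im_ofReal_mul, br] <;> ring
  rw [← sN_real_mul, e, ← abs_neg (br q r), ← sN_real_mul, ← sN_real_mul]
  exact sN_sub_le _ _

theorem br_jac' {p q r : ℂ} (hp : sN p ≤ 1) (hq : sN q ≤ 1) :
    |br p q| * sN r ≤ |br q r| + |br r p| :=
  (br_jac p q r).trans (add_le_add (mul_le_of_le_one_right (abs_nonneg _) hp)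
    (mul_le_of_le_one_right (abs_nonneg _) hq))

theorem mk_br (c : Fin 4 → ℂ) {k i j l : Fin 4} (h1 : i ≠ k) (h2 : j ≠ k) (h3 : l ≠ k)
    (h4 : i ≠ j) (h5 : i ≠ l) (h6 : j ≠ l) :
    |br (c i) (c j)| * |br (c i) (c l)| ≤ |br (mk c k) (c i)| := by
  have key : ∀ k i : Fin 4, i ≠ k → i = k + 1 ∨ i = k + 3 ∨ i = k + 2 := by decide
  have one : br (mk c k) (c i) = br (c i) (c j) * br (c i) (c l) →
      |br (c i) (c j)| * |br (c i) (c l)| ≤ |br (mk c k) (c i)| := fun e => by rw [e, abs_mul]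
  have two : br (mk c k) (c i) = -2 * (br (c i) (c j) * br (c i) (c l)) →
      |br (c i) (c j)| * |br (c i) (c l)| ≤ |br (mk c k) (c i)| := fun e => by
    rw [e, abs_mul, abs_mul, abs_neg, abs_two]
    linarith [mul_nonneg (abs_nonneg (br (c i) (c j))) (abs_nonneg (br (c i) (c l)))]
  rcases key k i h1 with rfl | rfl | rfl <;> rcases key k j h2 with rfl | rfl | rfl <;>
    rcases key k l h3 with rfl | rfl | rfl <;>
    first
    | exact absurd rfl h4
    | exact absurd rfl h5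
    | exact absurd rfl h6
    | (refine one ?_
       simp only [mk, br, sub_re, sub_im, re_ofReal_mul, im_ofReal_mul]
       ring1)
    | (refine two ?_
       simp only [mk, br, sub_re, sub_im, re_ofReal_mul, im_ofReal_mul]
       ring1)

theorem mk_big {c : Fin 4 → ℂ} (hc : ∀ j, sN (c j) ≤ 1) {k l n r : Fin 4} (h1 : l ≠ k)
    (h2 : n ≠ k) (h3 : r ≠ k) (h4 : l ≠ n) (h5 : l ≠ r) (h6 : n ≠ r) (hr : sN (c r) = 1) {g : ℝ}
    (hg0 : 0 ≤ g) (hg : g ≤ |br (c l) (c n)|) : g ^ 2 / 4 ≤ sN (mk c k) := by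
  have j := br_jac' (r := c r) (hc l) (hc n)
  rw [hr, mul_one, abs_br_comm (c r)] at j
  have up : ∀ i, |br (mk c k) (c i)| ≤ 2 * sN (mk c k) := fun i =>
    (br_le _ _).trans (mul_le_of_le_one_right (by linarith [sN_nonneg (mk c k)]) (hc i))
  rcases le_total (g / 2) |br (c n) (c r)| with h | h
  · have a := mk_br c h2 h1 h3 h4.symm h6 h5
    rw [abs_br_comm (c n) (c l)] at a
    have b := mul_le_mul hg h (by linarith) (abs_nonneg _)
    linarith [up n]
  · have a := mk_br c h1 h2 h3 h4 h5 h6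
    have b := mul_le_mul hg (show g / 2 ≤ |br (c l) (c r)| by linarith) (by linarith)
      (abs_nonneg _)
    linarith [up l]

theorem spread_core {κ Dm : ℝ} (h0 : 0 < κ) (Y : Fin 4 → Set ℂ) (a : Fin 4 → ℂ)
    (ha : ∀ j, a j ∈ Y j) (h1 : ∀ j, sN (a j) = 1) (hY : ∀ j, ∀ z ∈ Y j, sN z ≤ 1)
    (hs : ∀ k, ∃ l m, l ≠ k ∧ m ≠ k ∧ ∃ z ∈ Y m, κ < |br (a l) z|)
    (hD : ∀ c : Fin 4 → ℂ, (∀ j, c j ∈ Y j) → |Dt c| ≤ Dm) (hd : Dm ≤ κ ^ 3 / 1024) :
    (∃ k, κ / 8 ≤ |(a k).re| ∧ κ ^ 3 / 1024 ≤ |(mk a k).re|) ∧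
      ∀ l, ∀ z ∈ Y l, |br (a l) z| ≤ 32 * Dm / κ ^ 2 := by
  have up : ∀ (c : Fin 4 → ℂ) (k : Fin 4) (z : ℂ), (∀ j, c j ∈ Y j) → z ∈ Y k →
      ∀ j, update c k z j ∈ Y j := fun c k z hc hz j => by
    rcases eq_or_ne j k with rfl | h
    · rwa [update_self]
    · rw [update_of_ne h]; exact hc j
  have third : ∀ k l n : Fin 4, ∃ r, r ≠ k ∧ l ≠ r ∧ n ≠ r := by decide
  have A : ∀ k, ∃ l n, l ≠ k ∧ n ≠ k ∧ l ≠ n ∧ ∃ z ∈ Y l, κ / 2 ≤ |br z (a n)| := by
    intro k
    obtain ⟨l, m, hl, hm, z, hz, h⟩ := hs k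
    rcases eq_or_ne m l with rfl | e
    · obtain ⟨n, n1, n2, -⟩ := third k m m
      have j := br_jac' (r := a n) (h1 m).le (hY m z hz)
      rw [h1 n, mul_one, abs_br_comm (a n)] at j
      rcases le_total (κ / 2) |br z (a n)| with h' | h'
      · exact ⟨m, n, hm, n1, n2, z, hz, h'⟩
      · exact ⟨m, n, hm, n1, n2, a m, ha m, by linarith⟩
    · exact ⟨m, l, hm, hl, e, z, hz, by rw [abs_br_comm]; linarith⟩
  have B : ∀ k, ∀ z ∈ Y k, |br (a k) z| ≤ 32 * Dm / κ ^ 2 := by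
    intro k z hz
    obtain ⟨l, n, hl, hn, e, w, hw, h⟩ := A k
    obtain ⟨r, r1, r2, r3⟩ := third k l n
    have hc := up a l w ha hw
    have big := mk_big (c := update a l w) (fun j => hY j _ (hc j)) hl hn r1 e r2 r3
      (by rw [update_of_ne r2.symm, h1]) (g := κ / 2) (by linarith)
      (by rwa [update_self, update_of_ne e.symm])
    have D : ∀ u ∈ Y k, |br u (mk (update a l w) k)| ≤ Dm := fun u hu => by
      have := hD _ (up _ k u hc hu)
      rwa [Dt_eq _ k, mk_update, update_self] at this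
    have j := br_jac' (r := mk (update a l w) k) (h1 k).le (hY k z hz)
    rw [abs_br_comm _ (a k)] at j
    have := mul_le_mul_of_nonneg_left big (abs_nonneg (br (a k) z))
    rw [le_div_iff₀ (by positivity)]
    linarith [D z hz, D _ (ha k)]
  have B' : 32 * Dm / κ ^ 2 ≤ κ / 4 := by
    rw [div_le_iff₀ (by positivity)]
    have : 0 < κ ^ 3 := by positivity
    linarith
  have C : ∀ k, ∃ l n, l ≠ k ∧ n ≠ k ∧ l ≠ n ∧ κ / 4 ≤ |br (a l) (a n)| := by
    intro k
    obtain ⟨l, n, hl, hn, e, w, hw, h⟩ := A k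
    have j := br_jac' (r := a l) (hY l w hw) (h1 n).le
    rw [h1 l, mul_one, abs_br_comm (a n)] at j
    exact ⟨l, n, hl, hn, e, by linarith [B l w hw]⟩
  have E : ∃ k, κ / 8 ≤ |(a k).re| := by
    obtain ⟨l, n, -, -, -, h⟩ := C 0
    have b1 : |(a l).re * (a n).im| ≤ |(a l).re| := by
      rw [abs_mul]
      exact mul_le_of_le_one_right (abs_nonneg _) ((im_le_sN _).trans (h1 n).le)
    have b2 : |(a l).im * (a n).re| ≤ |(a n).re| := by
      rw [abs_mul]
      exact mul_le_of_le_one_left (abs_nonneg _) ((im_le_sN _).trans (h1 l).le)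
    have b3 := abs_sub ((a l).re * (a n).im) ((a l).im * (a n).re)
    rw [br] at h
    rcases le_total (κ / 8) |(a l).re| with h' | h'
    · exact ⟨l, h'⟩
    · exact ⟨n, by linarith⟩
  obtain ⟨k, hk⟩ := E
  refine ⟨⟨k, hk, ?_⟩, B⟩
  obtain ⟨l, n, hl, hn, e, h⟩ := C k
  obtain ⟨r, r1, r2, r3⟩ := third k l n
  have big := mk_big (fun j => (h1 j).le) hl hn r1 e r2 r3 (h1 r) (by linarith) h
  have hk1 : κ / 8 ≤ 1 := hk.trans ((re_le_sN _).trans (h1 k).le)
  have hq : 0 < κ ^ 2 := by positivity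
  rcases le_max_iff.1 big with b | b
  · nlinarith
  · have d := (hD a ha).trans hd
    rw [Dt_eq _ k, br] at d
    have b1 : κ / 8 * ((κ / 4) ^ 2 / 4) ≤ |(a k).re * (mk a k).im| := by
      rw [abs_mul]
      exact mul_le_mul hk b (by positivity) (abs_nonneg _)
    have b2 : |(a k).im * (mk a k).re| ≤ |(mk a k).re| := by
      rw [abs_mul]
      exact mul_le_of_le_one_left (abs_nonneg _) ((im_le_sN _).trans (h1 k).le)
    have b3 := abs_sub_abs_le_abs_sub ((a k).re * (mk a k).im) ((a k).im * (mk a k).re)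
    linarith

/-- the four vectors of the slab functional -/
def Wv (p q : ℂ) : Fin 4 → ℂ := ![p, -p - q, q, p - q]

theorem ell_eq (c : Fin 4 → ℂ) (p q : ℂ) :
    br (Lt c).1 p + br (Lt c).2 q = ∑ l, br (c l) (Wv p q l) := by
  simp [Fin.sum_univ_four, Wv, Lt, br]
  ring

theorem sN_neg (p : ℂ) : sN (-p) = sN p := by simp [sN]

theorem sN_Wv {p q : ℂ} (hp : sN p ≤ 4) (hq : sN q ≤ 4) (l : Fin 4) : sN (Wv p q l) ≤ 8 := by
  have a := sN_sub_le (-p) q
  have b := sN_sub_le p q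
  rw [sN_neg] at a
  fin_cases l
  · change sN p ≤ 8
    linarith
  · change sN (-p - q) ≤ 8
    linarith
  · change sN q ≤ 8
    linarith
  · change sN (p - q) ≤ 8
    linarith

theorem re_Wv (p q : ℂ) (l : Fin 4) : |(Wv p q l).re| ≤ 2 * max |p.re| |q.re| := by
  have a := le_max_left |p.re| |q.re|
  have b := le_max_right |p.re| |q.re|
  have c := abs_sub (-p.re) q.re
  have d := abs_sub p.re q.re
  have e := abs_nonneg p.re
  rw [abs_neg] at c
  fin_cases l
  · change |p.re| ≤ _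
    linarith
  · change |-p.re - q.re| ≤ _
    linarith
  · change |q.re| ≤ _
    linarith
  · change |p.re - q.re| ≤ _
    linarith

theorem exists_pq {a : Fin 4 → ℂ} (h : ∀ j, sN (a j) ≤ 1) (k : Fin 4) : ∃ p q : ℂ, sN p ≤ 4 ∧
    sN q ≤ 4 ∧ Wv p q k = mk a k ∧ ∀ l, l ≠ k → br (Wv p q l) (a l) = 0 := by
  have b : ∀ i j l, sN ((br (a i) (a j) : ℂ) * a l) ≤ 4 := fun i j l => by
    rw [sN_real_mul]
    have := br_le' (h i) (h j)
    have := mul_le_of_le_one_right (abs_nonneg (br (a i) (a j))) (h l)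
    linarith
  have m : ∀ i, sN (mk a i) ≤ 4 := fun i => by simpa using sN_mk_le h i
  have fin : ∀ (p q : ℂ) (k : Fin 4), (k ≠ 0 → br p (a 0) = 0) →
      (k ≠ 1 → br (-p - q) (a 1) = 0) → (k ≠ 2 → br q (a 2) = 0) →
      (k ≠ 3 → br (p - q) (a 3) = 0) → ∀ l, l ≠ k → br (Wv p q l) (a l) = 0 := by
    intro p q k h0 h1 h2 h3 l hl
    fin_cases l
    exacts [h0 hl.symm, h1 hl.symm, h2 hl.symm, h3 hl.symm]
  have cases : k = 0 ∨ k = 1 ∨ k = 2 ∨ k = 3 := by revert k; decide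
  rcases cases with rfl | rfl | rfl | rfl
  · refine ⟨mk a 0, _, m 0, b 1 3 2, rfl, fin _ _ _ (fun e => absurd rfl e) ?_ ?_ ?_⟩ <;>
      intro _ <;> simp [mk, br] <;> ring
  · refine ⟨_, _, b 2 3 0, b 0 3 2, ?_, fin _ _ _ ?_ (fun e => absurd rfl e) ?_ ?_⟩
    · apply Complex.ext <;> simp [Wv, mk, br] <;> ring
    all_goals intro _; simp [br]; ring
  · refine ⟨_, mk a 2, b 1 3 0, m 2, rfl, fin _ _ _ ?_ ?_ (fun e => absurd rfl e) ?_⟩ <;>
      intro _ <;> simp [mk, br] <;> ring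
  · refine ⟨_, _, b 1 2 0, b 0 1 2, ?_, fin _ _ _ ?_ ?_ ?_ (fun e => absurd rfl e)⟩
    · apply Complex.ext <;> simp [Wv, mk, br]
    all_goals intro _; simp [br]; ring

theorem Dt_noise {c n : Fin 4 → ℂ} {ν : ℝ} (hν : ν ≤ 1 / 2) (hc : ∀ k, sN (c k) ≤ 1)
    (hn : ∀ k, sN (n k) ≤ 2 * ν) : |Dt c| - 512 * ν ≤ |Dt fun k => c k + n k| := by
  have a := Dt_sub_le (c := c) (d := fun k => c k + n k) (M := 2) (r := 2 * ν)
    (fun k => by linarith [hc k]) (fun k => by linarith [sN_add_le (c k) (n k), hc k, hn k])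
    (fun k => by rw [sub_add_cancel_left, sN_neg]; exact hn k)
  linarith [abs_sub_abs_le_abs_sub (Dt c) (Dt fun k => c k + n k)]

theorem mk_noise {c n : Fin 4 → ℂ} {ν : ℝ} (hν : ν ≤ 1 / 2) (hc : ∀ k, sN (c k) ≤ 1)
    (hn : ∀ k, sN (n k) ≤ 2 * ν) (k : Fin 4) :
    |(mk c k).re| - 512 * ν ≤ |(mk (fun l => c l + n l) k).re| := by
  have a := Dt_noise (c := update c k Complex.I) (n := update n k 0) hν
    (fun l => by
      rcases eq_or_ne l k with rfl | h
      · simp [sN]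
      · rw [update_of_ne h]; exact hc l)
    (fun l => by
      rcases eq_or_ne l k with rfl | h
      · rw [update_self]
        simpa [sN] using (sN_nonneg _).trans (hn l)
      · rw [update_of_ne h]; exact hn l)
  have e : (fun l => update c k Complex.I l + update n k 0 l) =
      update (fun l => c l + n l) k Complex.I := by
    funext l
    rcases eq_or_ne l k with rfl | h
    · simp
    · simp only [update_of_ne h]
  rw [e] at a
  rwa [mk_re, mk_re, abs_neg, abs_neg]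

theorem continuous_Dt : Continuous Dt := by
  unfold Dt br
  fun_prop

theorem spread : ∃ C c ν0 : ℝ, 1 ≤ C ∧ 0 < c ∧ 0 < ν0 ∧ ν0 ≤ 1 / 2 ∧ ∀ ν : ℝ, 0 < ν → ν ≤ ν0 →
    ∀ (y : Fin 4 → ℝ → ℂ) (T : Fin 4 → ℝ), (∀ k, Continuous (y k)) → (∀ k, 0 ≤ T k) →
    (∀ k, sN (y k (T k)) = 1) → (∀ k, ∀ t ∈ Icc 0 (T k), sN (y k t) ≤ 1) →
    (∀ k, ∃ l m, l ≠ k ∧ m ≠ k ∧ ∃ t ∈ Icc 0 (T m), kap < |br (y l (T l)) (y m t)|) →
    ∃ (om ps1 ps2 ph1 ph2 : ℝ) (t : Fin 4 → ℝ), ν ≤ om ∧ om ≤ 1 ∧ max |ph1| |ph2| = 1 ∧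
      |ps1| ≤ C ∧ |ps2| ≤ C ∧ (∀ k, t k ∈ Icc 0 (T k)) ∧
      (∀ (s : Fin 4 → ℝ) (err : Fin 4 → ℂ), (∀ k, s k ∈ Icc 0 (T k)) → (∀ k, sN (err k) ≤ ν) →
        |ps1 * (Lt fun k => y k (s k) + err k).1.re + ps2 * (Lt fun k => y k (s k) + err k).2.re +
          ph1 * (Lt fun k => y k (s k) + err k).1.im +
          ph2 * (Lt fun k => y k (s k) + err k).2.im| ≤ C * om) ∧
      ((∀ n : Fin 4 → ℂ, (∀ k, sN (n k) ≤ 2 * ν) → c * om ≤ |Dt fun k => y k (t k) + n k|) ∨
        (om ≤ C * ν ∧ ∃ k, c ≤ |(y k (t k)).re| ∧ ∀ n : Fin 4 → ℂ, (∀ l, sN (n l) ≤ 2 * ν) →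
          c ≤ |(mk (fun l => y l (t l) + n l) k).re|)) := by
  have h0 : 0 < kap := by unfold kap; positivity
  have h1 : kap ≤ 1 := by unfold kap; norm_num
  generalize kap = κ at h0 h1 ⊢
  have k2 : κ ^ 2 ≤ 1 := pow_le_one₀ h0.le h1
  have k3 : κ ^ 3 ≤ κ := by nlinarith
  have k30 : 0 < κ ^ 3 := by positivity
  have hC : 2097152 ≤ 2097152 / κ ^ 5 := by
    rw [le_div_iff₀ (by positivity)]
    linarith [pow_le_one₀ (n := 5) h0.le h1]
  refine ⟨2097152 / κ ^ 5, κ ^ 3 / 2048, κ ^ 3 / 1048576, by linarith, by positivity,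
    by positivity, by linarith, fun ν hν hν0 y T hy hT ha hb hs => ?_⟩
  have hν1 : ν ≤ 1 / 2 := by linarith
  have hTm : ∀ k, T k ∈ Icc 0 (T k) := fun k => ⟨hT k, le_rfl⟩
  obtain ⟨ts, hts, hmax⟩ := (isCompact_univ_pi fun k => isCompact_Icc (a := 0)
    (b := T k)).exists_isMaxOn ⟨T, fun k _ => hTm k⟩
    (f := fun t : Fin 4 → ℝ => |Dt fun k => y k (t k)|)
    (continuous_Dt.comp (continuous_pi fun k =>
      (hy k).comp (continuous_apply k))).abs.continuousOn
  have hts' : ∀ k, ts k ∈ Icc 0 (T k) := fun k => hts k (mem_univ k)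
  have noise := fun (n : Fin 4 → ℂ) (hn : ∀ k, sN (n k) ≤ 2 * ν) =>
    Dt_noise hν1 (fun k => hb k _ (hts' k)) hn
  have hD : ∀ c : Fin 4 → ℂ, (∀ j, c j ∈ y j '' Icc 0 (T j)) →
      |Dt c| ≤ |Dt fun k => y k (ts k)| := fun c hc => by
    choose s s1 s2 using hc
    obtain rfl : (fun j => y j (s j)) = c := funext s2
    exact hmax (fun k _ => s1 k : s ∈ univ.pi fun k => Icc 0 (T k))
  have hD0 := abs_nonneg (Dt fun k => y k (ts k))
  generalize |Dt fun k => y k (ts k)| = Dm at noise hD hD0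
  rcases le_total (κ ^ 3 / 1024) Dm with hd | hd
  · refine ⟨1, 0, 0, 1, 0, ts, by linarith, le_rfl, by simp, by rw [abs_zero]; linarith,
      by rw [abs_zero]; linarith, hts', fun s err h2 h3 => ?_,
      Or.inl fun n hn => by linarith [noise n hn]⟩
    have b : ∀ k, sN (y k (s k) + err k) ≤ 2 := fun k => by
      linarith [sN_add_le (y k (s k)) (err k), hb k _ (h2 k), h3 k]
    have b1 := sN_add_le (y 0 (s 0) + err 0 - (y 1 (s 1) + err 1)) (y 3 (s 3) + err 3)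
    have b2 := sN_sub_le (y 0 (s 0) + err 0) (y 1 (s 1) + err 1)
    have b3 := im_le_sN (y 0 (s 0) + err 0 - (y 1 (s 1) + err 1) + (y 3 (s 3) + err 3))
    simp only [zero_mul, one_mul, zero_add, add_zero, Lt]
    linarith [b 0, b 1, b 3]
  · obtain ⟨⟨k, k4, k5⟩, hB⟩ := spread_core h0 (fun j => y j '' Icc 0 (T j)) (fun j => y j (T j))
      (fun j => mem_image_of_mem _ (hTm j)) ha (by rintro j _ ⟨t, ht, rfl⟩; exact hb j t ht)
      (fun k => by
        obtain ⟨l, m, hl, hm, t, ht, h⟩ := hs k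
        exact ⟨l, m, hl, hm, _, mem_image_of_mem _ ht, h⟩) hD hd
    obtain ⟨p, q, hp, hq, e1, e2⟩ := exists_pq (a := fun j => y j (T j)) (fun j => (ha j).le) k
    have hM : κ ^ 3 / 2048 ≤ max |p.re| |q.re| := by
      have := re_Wv p q k
      rw [e1] at this
      linarith
    obtain ⟨M, hMe⟩ : ∃ M, max |p.re| |q.re| = M := ⟨_, rfl⟩
    rw [hMe] at hM
    have hM0 : 0 < M := lt_of_lt_of_le (by positivity) hM
    have dv : ∀ X u : ℝ, 0 ≤ u → |X| ≤ 1024 / κ ^ 2 * u →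
        |X / M| ≤ 2097152 / κ ^ 5 * u := fun X u hu hX => by
      rw [abs_div, abs_of_pos hM0]
      refine (div_le_div₀ (by positivity) hX (by positivity) hM).trans_eq ?_
      field_simp
      ring
    have k6 : 256 ≤ 256 / κ ^ 2 := by
      rw [le_div_iff₀ (by positivity)]
      linarith
    have k7 : 1024 / κ ^ 2 = 4 * (256 / κ ^ 2) := by ring
    obtain ⟨t, ht, hn⟩ : ∃ t : Fin 4 → ℝ, (∀ k, t k ∈ Icc 0 (T k)) ∧
        ((∀ n : Fin 4 → ℂ, (∀ k, sN (n k) ≤ 2 * ν) →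
          κ ^ 3 / 2048 * (Dm + ν) ≤ |Dt fun k => y k (t k) + n k|) ∨
        (Dm + ν ≤ 2097152 / κ ^ 5 * ν ∧ ∃ k, κ ^ 3 / 2048 ≤ |(y k (t k)).re| ∧
          ∀ n : Fin 4 → ℂ, (∀ l, sN (n l) ≤ 2 * ν) →
            κ ^ 3 / 2048 ≤ |(mk (fun l => y l (t l) + n l) k).re|)) := by
      rcases le_total (2048 * ν) Dm with h | h
      · refine ⟨ts, hts', Or.inl fun n hn => ?_⟩
        have := mul_le_mul_of_nonneg_right (show κ ^ 3 / 2048 ≤ 1 / 2 by linarith)
          (show 0 ≤ Dm + ν by linarith)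
        linarith [noise n hn]
      · refine ⟨T, hTm, Or.inr ⟨?_, k, by linarith, fun n hn => ?_⟩⟩
        · linarith [mul_le_mul_of_nonneg_right hC hν.le]
        · linarith [mk_noise hν1 (fun j => (ha j).le) hn k]
    refine ⟨Dm + ν, p.im / M, q.im / M, -p.re / M, -q.re / M, t, by linarith, by linarith, ?_,
      (dv p.im 1 zero_le_one (by linarith [im_le_sN p])).trans_eq (mul_one _),
      (dv q.im 1 zero_le_one (by linarith [im_le_sN q])).trans_eq (mul_one _), ht,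
      fun s err h2 h3 => ?_, hn⟩
    · rw [abs_div, abs_div, abs_neg, abs_neg, abs_of_pos hM0, max_div_div_right hM0.le, hMe,
        div_self hM0.ne']
    have b : ∀ l, |br (y l (s l) + err l) (Wv p q l)| ≤ 256 / κ ^ 2 * (Dm + ν) := by
      intro l
      have w8 := sN_Wv hp hq l
      have c1 : |br (err l) (Wv p q l)| ≤ 16 * ν := by
        have := mul_le_mul (h3 l) w8 (sN_nonneg _) hν.le
        linarith [br_le (err l) (Wv p q l)]
      have c2 : |br (y l (s l)) (Wv p q l)| ≤ 256 / κ ^ 2 * Dm := by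
        rcases eq_or_ne l k with rfl | h
        · have := hD (update (fun j => y j (T j)) l (y l (s l))) fun j => by
            rcases eq_or_ne j l with rfl | h
            · rw [update_self]; exact mem_image_of_mem _ (h2 j)
            · rw [update_of_ne h]; exact mem_image_of_mem _ (hTm j)
          rw [Dt_eq _ l, mk_update, update_self, ← e1] at this
          linarith [mul_le_mul_of_nonneg_right k6 hD0]
        · have j := br_jac (y l (s l)) (Wv p q l) (y l (T l))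
          rw [ha l, e2 l h, abs_zero, zero_mul, zero_add, mul_one] at j
          have := mul_le_mul (hB l _ (mem_image_of_mem _ (h2 l))) w8 (sN_nonneg _)
            (by positivity)
          exact (j.trans this).trans_eq (by ring)
      have c3 : br (y l (s l) + err l) (Wv p q l) =
          br (y l (s l)) (Wv p q l) + br (err l) (Wv p q l) := by
        simp only [br, add_re, add_im]
        ring
      rw [c3, mul_add]
      linarith [abs_add_le (br (y l (s l)) (Wv p q l)) (br (err l) (Wv p q l)),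
        mul_le_mul_of_nonneg_right k6 hν.le]
    have c := dv (∑ l, br (y l (s l) + err l) (Wv p q l)) (Dm + ν) (by linarith)
      ((Finset.abs_sum_le_sum_abs _ _).trans ((Finset.sum_le_sum fun l _ => b l).trans_eq
        (by rw [Fin.sum_univ_four]; ring)))
    rw [← ell_eq fun l => y l (s l) + err l] at c
    refine le_of_eq_of_le (congrArg abs ?_) c
    simp only [br]
    ring

end Pool.Agent.Lib.MP_5a3ebe_gt.Pv
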