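import Pool.Agent.Lib.MP_5a3ebe_gt.PvFrame
import Pool.Agent.Lib.MP_5a3ebe_gt.PvSpread
import Pool.Agent.Lib.MP_5a3ebe_gt.PvAlg
import Pool.Agent.Lib.MP_5a3ebe_gt.PvAC

/-!
The plate of four arcs, and the determinant of the noisy chords.
-/

set_option linter.unusedVariables false

namespace Pool.Agent.Lib.MP_5a3ebe_gt.Pv

open Set Complex MeasureTheory unitInterval Function
open Pool.Agent.Lib.MP_5a3ebe_gt.Gen (Lip Lm)
open scoped ENNReal

namespace Sl

open Fr

theorem half {Ω : Type} [MeasureSpace Ω] [IsProbabilityMeasure (volume : Measure Ω)]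
    {G B B' : Set Ω} (h : ∀ w, w ∉ B → w ∉ B' → w ∈ G) (hB : volume B ≤ 1 / 4)
    (hB' : volume B' ≤ 1 / 4) : 1 / 2 ≤ volume G := by
  have h0 : (1 / 4 + 1 / 4 : ℝ≥0∞) = 1 / 2 := by
    rw [← ENNReal.toReal_eq_toReal_iff' (by simp) (by simp), ENNReal.toReal_add (by simp) (by simp)]
    norm_num
  have h1 : (1 / 2 + 1 / 2 : ℝ≥0∞) ≤ volume G + 1 / 2 :=
    calc (1 / 2 + 1 / 2 : ℝ≥0∞) = volume (univ : Set Ω) := by rw [ENNReal.add_halves, measure_univ]
      _ ≤ volume (G ∪ (B ∪ B')) := measure_mono fun w _ => by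
          by_contra hw
          simp only [mem_union, not_or] at hw
          exact hw.1 (h w hw.2.1 hw.2.2)
      _ ≤ volume G + (volume B + volume B') :=
          (measure_union_le _ _).trans (add_le_add le_rfl (measure_union_le _ _))
      _ ≤ _ := by rw [← h0]; gcongr
  exact ENNReal.le_of_add_le_add_right (by simp) h1

theorem cont_br {X : Type} [TopologicalSpace X] {f g : X → ℂ} (hf : Continuous f)
    (hg : Continuous g) : Continuous fun x => br (f x) (g x) := by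
  unfold br
  fun_prop

theorem cont_mk {X : Type} [TopologicalSpace X] {c : X → Fin 4 → ℂ}
    (hc : ∀ l, Continuous fun x => c x l) (k : Fin 4) : Continuous fun x => mk (c x) k :=
  ((continuous_ofReal.comp (cont_br (hc _) (hc _))).mul (hc _)).sub
    ((continuous_ofReal.comp (cont_br (hc _) (hc _))).mul (hc _))

theorem mk_congr {c d : Fin 4 → ℂ} {k : Fin 4} (h : ∀ l, l ≠ k → c l = d l) : mk c k = mk d k := by
  have := (by decide : ∀ k : Fin 4, k + 1 ≠ k ∧ k + 2 ≠ k ∧ k + 3 ≠ k) k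
  rw [mk, mk, h _ this.1, h _ this.2.1, h _ this.2.2]

theorem slot {th : ℂ} (hth : ‖th‖ = 1) {R s e A g h τ ν : ℝ} (hR : 0 < R) (hs : 0 < s)
    (he : 0 < e) (hA : 0 < A) (hg : 0 < g) (hh : 0 < h) (hτ : 0 ≤ τ) (hν : ν * s = A * e * R)
    (hb : 8 * τ * A ^ 2 ≤ g * h * ν) {ι : Type} [Fintype ι] [DecidableEq ι] (i : ι) {c0 z : ℂ}
    {n m : (ι → I × I) → ℂ} (hn : Continuous n) (hm : Continuous m)
    (hc : g ≤ |(nrm th R s c0).re|) (hz : ‖c0‖ ≤ A * ‖z‖)
    (h1 : ∀ w a, n (update w i a) = n w + (e : ℂ) * (val a - val (w i)) * z)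
    (h2 : ∀ w a, m (update w i a) = m w) :
    volume {w | h ≤ |(m w).re| ∧ |br (nrm th R s (c0 + n w)) (m w)| ≤ τ} ≤ 1 / 4 := by
  refine vol_le_of_slot i ?_ fun w => ?_
  · refine (IsClosed.inter (isClosed_le continuous_const (continuous_re.comp hm).abs)
      (isClosed_le (cont_br ((continuous_nrm _ _ _).comp (continuous_const.add hn)) hm).abs
        continuous_const)).measurableSet
  by_cases hw : h ≤ |(m w).re|
  · refine le_trans (measure_mono fun a ha => ?_) ((ac_slot hth hR hs he hA hg hh hτ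
      (base := c0 + n w - e * val (w i) * z) hc hz hw).trans ?_)
    · have := ha.2
      rw [h1, h2] at this
      have e1 : c0 + n w - e * val (w i) * z + e * val a * z =
          c0 + (n w + e * (val a - val (w i)) * z) := by ring
      rw [mem_ofPred_eq, e1]
      exact this
    · rw [show (1 / 4 : ℝ≥0∞) = ENNReal.ofReal (1 / 4) by
        rw [ENNReal.ofReal_div_of_pos (by norm_num)]; simp]
      refine ENNReal.ofReal_le_ofReal ?_
      rw [div_le_iff₀ (by positivity)]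
      refine le_of_mul_le_mul_left ?_ hA
      have := mul_le_mul_of_nonneg_right hb hs.le
      rw [mul_assoc (g * h), hν] at this
      linarith
  · refine le_trans (measure_mono (t := ∅) fun a ha => hw ?_) (by simp)
    have := ha.1
    rwa [h2] at this

theorem nrm_Lt (th : ℂ) (R s : ℝ) (c : Fin 4 → ℂ) :
    nrm th R s (Lt c).1 = (Lt fun k => nrm th R s (c k)).1 ∧
      nrm th R s (Lt c).2 = (Lt fun k => nrm th R s (c k)).2 := by
  simp only [Lt, nrm_add, nrm_sub, and_self]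

theorem sN_Lt {c : Fin 4 → ℂ} {M : ℝ} (h : ∀ k, sN (c k) ≤ M) :
    sN (Lt c).1 ≤ 3 * M ∧ sN (Lt c).2 ≤ 3 * M := by
  have h1 := sN_add (c 0 - c 1) (c 3)
  have h2 := sN_sub (c 0) (c 1)
  have h3 := sN_sub (c 2 - c 1) (c 3)
  have h4 := sN_sub (c 2) (c 1)
  constructor <;> simp only [Lt] <;> linarith [h 0, h 1, h 2, h 3]

end Sl

open Fr Sl in
theorem slab (A : ℝ) (hA : 1 ≤ A) : ∃ C c η0 : ℝ, 1 ≤ C ∧ 0 < c ∧ 0 < η0 ∧
    ∀ η : ℝ, 0 < η → η ≤ η0 → ∀ R0 : ℝ, 0 < R0 → ∀ x : Fin 4 → ℝ → ℂ, (∀ k, Continuous (x k)) →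
    (∀ k, x k 0 = 0) → (∀ k, 2 * R0 ≤ ‖x k 1‖) →
    ∃ (P : Plate) (t : Fin 4 → ℝ), P.Valid C η R0 ∧ (∀ k, t k ∈ Icc (0 : ℝ) 1) ∧
      (∀ k, ∀ s ∈ Icc 0 (t k), ‖x k s‖ ≤ 2 * P.R) ∧
      (∀ (s : Fin 4 → ℝ) (err : Fin 4 → ℂ), (∀ k, s k ∈ Icc 0 (t k)) →
        (∀ k, ‖err k‖ ≤ A * η ^ 100 * P.R) → (Lt fun k => x k (s k) + err k) ∈ P.V C) ∧
      Noise A c η R0 P fun k => x k (t k) := by
  obtain ⟨Cs, cs, ν0, hCs, hcs, hν0, hν0', hsp⟩ := spread
  have hk := kap_pos
  obtain ⟨ν1, hν1d⟩ : ∃ ν1, ν1 = ν0 / kap := ⟨_, rfl⟩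
  have hν1 : 0 < ν1 := by rw [hν1d]; positivity
  obtain ⟨ct, hct, -, hterm⟩ := terminal ν1 hν1
  have hA0 : 0 < A := by linarith
  obtain ⟨C, hC⟩ : ∃ C, C = Cs + 3 * (1 + ν1) := ⟨_, rfl⟩
  have hC1 : 1 ≤ C := by linarith
  obtain ⟨t1, ht1⟩ : ∃ t1, t1 = 3 / 4 * ct * ν0 / (8 * A ^ 2) := ⟨_, rfl⟩
  obtain ⟨t2, ht2⟩ : ∃ t2, t2 = 3 / 4 * t1 * ν0 / (8 * A ^ 2) := ⟨_, rfl⟩
  have ht10 : 0 < t1 := by rw [ht1]; positivity
  have ht20 : 0 < t2 := by rw [ht2]; positivity
  obtain ⟨c, hc0, hc1, hc2, hc3, hc4⟩ : ∃ c, 0 < c ∧ 2 * c ≤ cs ∧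
      2 * c ≤ cs * cs / (8 * A ^ 2 * Cs) ∧ 2 * c ≤ t1 ∧ 2 * c ≤ t2 :=
    ⟨min (min cs (cs * cs / (8 * A ^ 2 * Cs))) (min t1 t2) / 2, by positivity, by
      simp only [mul_div_cancel₀ _ (two_ne_zero' ℝ)]
      exact ⟨(min_le_left _ _).trans (min_le_left _ _), (min_le_left _ _).trans (min_le_right _ _),
        (min_le_right _ _).trans (min_le_left _ _), (min_le_right _ _).trans (min_le_right _ _)⟩⟩
  obtain ⟨η0, hη0, g1, g2, g3, g4, g5⟩ : ∃ η0, 0 < η0 ∧ η0 ≤ 1 ∧ η0 ≤ ν0 / (2 * A) ∧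
      η0 ≤ ct / (2 * A) ∧ η0 ≤ 1 / (8 * C) ∧ η0 ≤ c / (256 * (2 + 2 * ν1) ^ 3 * C) :=
    ⟨min (min 1 (min (ν0 / (2 * A)) (ct / (2 * A))))
      (min (1 / (8 * C)) (c / (256 * (2 + 2 * ν1) ^ 3 * C))), by positivity,
      (min_le_left _ _).trans (min_le_left _ _),
      (min_le_left _ _).trans ((min_le_right _ _).trans (min_le_left _ _)),
      (min_le_left _ _).trans ((min_le_right _ _).trans (min_le_right _ _)),
      (min_le_right _ _).trans (min_le_left _ _), (min_le_right _ _).trans (min_le_right _ _)⟩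
  refine ⟨C, c, η0, hC1, hc0, hη0, fun η hη hη' R0 hR0 x hx h0 h1 => ?_⟩
  have he0 : 0 < η ^ 100 := pow_pos hη _
  have he1 : η ^ 100 ≤ η := pow_le_of_le_one hη.le (hη'.trans g1) (by norm_num)
  have f2 : 2 * (A * η ^ 100) ≤ ν0 := by
    have := (le_div_iff₀ (by positivity)).1 (he1.trans (hη'.trans g2)); linarith
  have f3 : 2 * (A * η ^ 100) ≤ ct := by
    have := (le_div_iff₀ (by positivity)).1 (he1.trans (hη'.trans g3)); linarith
  have f4 : η * (8 * C) ≤ 1 := (le_div_iff₀ (by positivity)).1 (hη'.trans g4)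
  have f5 : η * (256 * (2 + 2 * ν1) ^ 3 * C) ≤ c := (le_div_iff₀ (by positivity)).1 (hη'.trans g5)
  obtain ⟨th, R, s, T, hth, hs, hsR, hRR, hrat, hlow, hT, hex, hin, hcase⟩ :=
    frame x hx h0 R0 hR0 h1 (A * η ^ 100 / ν0) (by positivity)
      (by rw [div_le_iff₀ hν0]; linarith)
  have hR : 0 < R := hs.trans_le hsR
  obtain ⟨ν, hν⟩ : ∃ ν, ν = A * η ^ 100 * R / s := ⟨_, rfl⟩
  have hνs : ν * s = A * η ^ 100 * R := by rw [hν]; field_simp
  have hνp : 0 < ν := by rw [hν]; positivity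
  have hνν : ν ≤ ν1 := by
    rw [← mul_div_assoc, div_le_div_iff₀ hν0 hR] at hlow
    rw [hν1d, hν, div_le_div_iff₀ hs hk]
    linarith
  have hR1 : η * R0 / 4 ≤ R := by
    have a1 : η ^ 100 ≤ A * η ^ 100 / ν0 := by
      rw [le_div_iff₀ hν0]
      nlinarith
    have a2 : (η / 4) ^ 100 ≤ kap * η ^ 100 := by
      rw [div_pow, div_eq_inv_mul]
      refine mul_le_mul_of_nonneg_right ?_ he0.le
      unfold kap
      norm_num
    have a3 : η / 4 ≤ R / R0 := le_of_pow_le_pow_left₀ (n := 100) (by norm_num) (by positivity)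
      (a2.trans ((mul_le_mul_of_nonneg_left a1 hk.le).trans (hlow.trans hrat)))
    rw [le_div_iff₀ hR0] at a3
    linarith
  have h2R : ∀ k, ∀ u ∈ Icc 0 (T k), ‖x k u‖ ≤ 2 * R := fun k u hu =>
    norm_le_two hth hs hsR (hin k u hu)
  have herr : ∀ p : ℂ, ∀ r : ℝ, ‖p‖ ≤ r * (A * η ^ 100 * R) → sN (nrm th R s p) ≤ r * ν :=
    fun p r hp => (sN_nrm_le hth hs hsR p).trans (by
      rw [div_le_iff₀ hs, mul_assoc, hνs]; exact hp)
  suffices H : ∃ (om ps1 ps2 ph1 ph2 : ℝ) (t : Fin 4 → ℝ), ν ≤ C * om ∧ om ≤ 1 ∧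
      max |ph1| |ph2| = 1 ∧ |ps1| ≤ C ∧ |ps2| ≤ C ∧ (∀ k, t k ∈ Icc 0 (T k)) ∧
      (∀ (u : Fin 4 → ℝ) (err : Fin 4 → ℂ), (∀ k, u k ∈ Icc 0 (T k)) → (∀ k, sN (err k) ≤ ν) →
        |ps1 * (Lt fun k => nrm th R s (x k (u k)) + err k).1.re +
          ps2 * (Lt fun k => nrm th R s (x k (u k)) + err k).2.re +
          ph1 * (Lt fun k => nrm th R s (x k (u k)) + err k).1.im +
          ph2 * (Lt fun k => nrm th R s (x k (u k)) + err k).2.im| ≤ C * om) ∧
      ∀ (ι : Type) [Fintype ι] [DecidableEq ι] (i : Fin 4 → ι)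
        (n : Fin 4 → (ι → I × I) → ℂ) (z : Fin 4 → ℂ), (∀ k, Continuous (n k)) →
        (∀ k w, ‖n k w‖ ≤ A * η ^ 100 * ‖x k (t k)‖) → (∀ k, ‖x k (t k)‖ ≤ A * ‖z k‖) →
        (∀ k w a, n k (update w (i k) a) =
          n k w + ((η ^ 100 : ℝ) : ℂ) * (val a - val (w (i k))) * z k) →
        (∀ k l, l ≠ k → ∀ w a, n l (update w (i k) a) = n l w) →
        1 / 2 ≤ volume {w : ι → I × I |
          2 * c * om ≤ |Dt fun k => nrm th R s (x k (t k) + n k w)|} by
    obtain ⟨om, ps1, ps2, ph1, ph2, t, a1, a2, a3, a4, a5, a6, a7, a8⟩ := H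
    have hom : 0 < om := (pos_iff_pos_of_mul_pos (hνp.trans_le a1)).1 (by linarith)
    have hsub : ∀ k, ∀ u ∈ Icc 0 (t k), u ∈ Icc 0 (T k) := fun k u hu =>
      ⟨hu.1, hu.2.trans (a6 k).2⟩
    refine ⟨⟨th, R, s, om, ps1, ps2, ph1, ph2⟩, t, ⟨hth, hR1, hRR, hs, hsR, hom, a2, ?_, a3, a4, a5⟩,
      fun k => ⟨(a6 k).1, (a6 k).2.trans (hT k).2⟩, fun k u hu => h2R k u (hsub k u hu),
      fun u err hu he => ?_, fun ι _ _ i _ n z b1 b2 b3 b4 b5 =>
        (a8 ι i n z b1 b2 b3 b4 b5).trans (measure_mono fun w hw err he => ?_)⟩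
    · have := mul_le_mul_of_nonneg_right a1 hs.le
      have h3 : 0 < η ^ 100 * R := by positivity
      change η ^ 100 * R ≤ C * (s * om)
      nlinarith
    · have b1 : ∀ k, sN (nrm th R s (err k)) ≤ ν := fun k => by
        simpa using herr (err k) 1 (by simpa using he k)
      have b2 := sN_Lt (c := fun k => nrm th R s (x k (u k) + err k)) (M := 1 + ν1) fun k => by
        rw [nrm_add]
        exact (sN_add _ _).trans (add_le_add (hin k _ (hsub k _ (hu k))) ((b1 k).trans hνν))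
      have b3 := a7 u (fun k => nrm th R s (err k)) (fun k => hsub k _ (hu k)) b1
      obtain ⟨b4, b5⟩ := nrm_Lt th R s fun k => x k (u k) + err k
      simp only [← nrm_add] at b3
      rw [← b4, ← b5] at b2 b3
      have b6 : 3 * (1 + ν1) ≤ C := by linarith
      exact ⟨(sN_le.1 b2.1).1.trans b6, (sN_le.1 b2.2).1.trans b6, (sN_le.1 b2.1).2.trans b6,
        (sN_le.1 b2.2).2.trans b6, b3⟩
    · have d1 : ∀ k, sN (nrm th R s (err k)) ≤ η * (8 * C) * om := fun k => by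
        refine (sN_nrm_le hth hs hsR _).trans ?_
        rw [div_le_iff₀ hs]
        refine (he k).trans ?_
        have e1 := mul_le_mul_of_nonneg_right a1 hs.le
        have e2 : η ^ 100 * (η * R0 / 4) ≤ A * η ^ 100 * R := by
          have : η ^ 100 * (η * R0 / 4) ≤ η ^ 100 * R := by gcongr
          nlinarith [mul_pos he0 hR]
        have e3 : η ^ 102 = η * (η ^ 100 * η) := by ring
        have e4 := mul_le_mul_of_nonneg_left (e2.trans (hνs.ge.trans e1)) hη.le
        rw [e3]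
        linarith
      have d2 : ∀ k, sN (nrm th R s (x k (t k) + n k w)) ≤ 1 + 2 * ν1 := fun k => by
        rw [nrm_add]
        refine (sN_add _ _).trans (add_le_add (hin k _ (a6 k)) ((herr _ 2 ((b2 k w).trans ?_)).trans
          (by linarith)))
        have := mul_le_mul_of_nonneg_left (h2R k _ (a6 k)) (mul_pos hA0 he0).le
        linarith
      have d3 := Dt_sub_le (c := fun k => nrm th R s (x k (t k) + n k w + err k))
        (d := fun k => nrm th R s (x k (t k) + n k w)) (M := 2 + 2 * ν1)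
        (r := η * (8 * C) * om) (fun k => by
          rw [nrm_add]
          have := mul_le_one₀ f4 hom.le a2
          linarith [sN_add (nrm th R s (x k (t k) + n k w)) (nrm th R s (err k)), d1 k, d2 k])
        (fun k => by linarith [d2 k]) fun k => by
          rw [nrm_add _ _ _ (x k (t k) + n k w), add_sub_cancel_left]
          exact d1 k
      have d4 := mul_le_mul_of_nonneg_right f5 hom.le
      have d5 := abs_sub_abs_le_abs_sub (Dt fun k => nrm th R s (x k (t k) + n k w))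
        (Dt fun k => nrm th R s (x k (t k) + n k w + err k))
      rw [abs_sub_comm] at d3
      have d6 : c * om ≤ |Dt fun k => nrm th R s (x k (t k) + n k w + err k)| := by
        have : 2 * c * om ≤ _ := hw
        linarith
      rw [Dt_nrm hth hR hs, abs_mul, abs_of_pos (a := R ^ 2 * s ^ 2) (by positivity)]
      change c * (R ^ 2 * s ^ 2 * om) ≤ _
      rw [mul_left_comm]
      exact mul_le_mul_of_nonneg_left d6 (by positivity)
  have hcy : ∀ {ι : Type} {n : Fin 4 → (ι → I × I) → ℂ} (t : Fin 4 → ℝ), (∀ k, Continuous (n k)) →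
      ∀ l, Continuous fun w => nrm th R s (x l (t l) + n l w) := fun t hn l =>
    (continuous_nrm _ _ _).comp (continuous_const.add (hn l))
  rcases hcase with ⟨hlt, k0, hk0⟩ | ⟨hge, hpar⟩
  · have hν0ν : ν0 ≤ ν := by
      rw [div_lt_div_iff₀ hR hν0] at hlt
      rw [hν, le_div_iff₀ hs]
      linarith
    obtain ⟨n2, n3, n23⟩ :=
      (by decide : ∀ k : Fin 4, k + 2 ≠ k ∧ k + 3 ≠ k ∧ k + 2 ≠ k + 3) k0
    refine ⟨1, 0, 0, 1, 0, T, by linarith, le_rfl, by simp, by simpa using by linarith,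
      by simpa using by linarith, fun k => ⟨(hT k).1, le_rfl⟩, fun u err hu he => ?_,
      fun ι _ _ i n z b1 b2 b3 b4 b5 => ?_⟩
    · have := sN_Lt (c := fun k => nrm th R s (x k (u k)) + err k) (M := 1 + ν1) fun k =>
        (sN_add _ _).trans (add_le_add (hin k _ (hu k)) ((he k).trans hνν))
      have := (sN_le.1 this.1).2
      simp only [zero_mul, one_mul, zero_add, add_zero, mul_one]
      linarith
    have hre : ∀ w k, |(nrm th R s (n k w)).re| ≤ ct := fun w k => by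
      refine le_of_mul_le_mul_right ((re_nrm_le hth hR hs _).trans ((b2 k w).trans ?_)) hR
      have := mul_le_mul_of_nonneg_left (h2R k _ ⟨(hT k).1, le_rfl⟩) (mul_pos hA0 he0).le
      have := mul_le_mul_of_nonneg_right f3 hR.le
      linarith
    have him : ∀ w k, |(nrm th R s (n k w)).im| ≤
        ν1 * |(nrm th R s (x k (T k))).re| + ct := fun w k => by
      refine le_of_mul_le_mul_right ((im_nrm_le hth hR hs _).trans ((b2 k w).trans ?_)) hs
      have e1 := mul_le_mul_of_nonneg_left (norm_le_nrm hth hR hs (x k (T k)))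
        (mul_pos hA0 he0).le
      have e2 := mul_le_mul_of_nonneg_left
        (mul_le_mul_of_nonneg_right (sN_le.1 (hex k).le).2 hs.le) (mul_pos hA0 he0).le
      have e3 := mul_le_mul_of_nonneg_right f3 hs.le
      have e4 := mul_le_mul_of_nonneg_left (hνs.ge.trans (mul_le_mul_of_nonneg_right hνν hs.le))
        (abs_nonneg (nrm th R s (x k (T k))).re)
      have e5 := mul_pos (mul_pos hA0 he0) hs
      linarith
    have q1 : 8 * t1 * A ^ 2 ≤ 3 / 4 * ct * ν := by
      rw [show 8 * t1 * A ^ 2 = 3 / 4 * ct * ν0 by rw [ht1]; field_simp]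
      gcongr
    have q2 : 8 * t2 * A ^ 2 ≤ 3 / 4 * t1 * ν := by
      rw [show 8 * t2 * A ^ 2 = 3 / 4 * t1 * ν0 by rw [ht2]; field_simp]
      gcongr
    have s3 := fun {h τ : ℝ} (hh : 0 < h) (hτ : 0 ≤ τ) (hb : 8 * τ * A ^ 2 ≤ 3 / 4 * h * ν) =>
      slot hth hR hs he0 hA0 (by norm_num) hh hτ hνs hb (i (k0 + 3)) (b1 _)
        (cont_mk (hcy T b1) (k0 + 3)) (hk0 _ n3) (b3 _) (b4 _)
        fun w a => mk_congr fun l hl => by rw [b5 _ l hl]
    rcases hterm (fun k => nrm th R s (x k (T k))) k0 hex hk0 with h | h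
    · refine half (fun w w1 w2 => ?_) (slot hth hR hs he0 hA0 (by norm_num) hct ht10.le hνs q1
        (i (k0 + 2)) (b1 _) (m := fun w =>
          mk (update (fun k => nrm th R s (x k (T k) + n k w)) (k0 + 3) Complex.I) (k0 + 2))
        (cont_mk (fun l => ?_) _) (hk0 _ n2) (b3 _) (b4 _)
        fun w a => mk_congr fun l hl => ?_) (s3 ht10 ht20.le q2)
      · have v1 := h (fun k => nrm th R s (n k w)) (hre w)
        simp only [← nrm_add] at v1
        have v2 := not_le.1 fun hh => w1 ⟨v1, hh⟩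
        have v3 : t1 ≤ |(mk (fun k => nrm th R s (x k (T k) + n k w)) (k0 + 3)).re| := by
          rw [mk_re, abs_neg, Dt_eq _ (k0 + 2), update_of_ne n23]
          exact v2.le
        have v4 := not_le.1 fun hh => w2 ⟨v3, hh⟩
        rw [mem_ofPred_eq, Dt_eq _ (k0 + 3)]
        linarith
      · by_cases hl : l = k0 + 3
        · simp only [hl, update_self]
          exact continuous_const
        · simp only [update_of_ne hl]
          exact hcy T b1 l
      · by_cases hl' : l = k0 + 3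
        · simp only [hl', update_self]
        · simp only [update_of_ne hl', b5 _ l hl]
    · refine half (B' := ∅) (fun w w1 _ => ?_) (s3 hct ht10.le q1) (by simp)
      have v1 := h (fun k => nrm th R s (n k w)) (hre w) (him w)
      simp only [← nrm_add] at v1
      have v4 := not_le.1 fun hh => w1 ⟨v1, hh⟩
      rw [mem_ofPred_eq, Dt_eq _ (k0 + 3)]
      linarith
  · have hν0ν : ν ≤ ν0 := by
      rw [div_le_div_iff₀ hν0 hR] at hge
      rw [hν, div_le_iff₀ hs]
      linarith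
    obtain ⟨om, ps1, ps2, ph1, ph2, t, a1, a2, a3, a4, a5, a6, a7, a8⟩ :=
      hsp ν hνp hν0ν (fun k u => nrm th R s (x k u)) T
        (fun k => (continuous_nrm _ _ _).comp (hx k)) (fun k => (hT k).1) hex hin hpar
    have hom : 0 < om := hνp.trans_le a1
    have hCC : Cs ≤ C := by linarith
    refine ⟨om, ps1, ps2, ph1, ph2, t, a1.trans (le_mul_of_one_le_left hom.le hC1), a2, a3,
      a4.trans hCC, a5.trans hCC, a6, fun u err hu he => (a7 u err hu he).trans (by gcongr),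
      fun ι _ _ i n z b1 b2 b3 b4 b5 => ?_⟩
    have hn : ∀ w k, sN (nrm th R s (n k w)) ≤ 2 * ν := fun w k => herr _ 2 ((b2 k w).trans (by
      have := mul_le_mul_of_nonneg_left (h2R k _ (a6 k)) (mul_pos hA0 he0).le
      linarith))
    rcases a8 with h | ⟨ho, k, hk1, h⟩
    · refine half (B := ∅) (B' := ∅) (fun w _ _ => ?_) (by simp) (by simp)
      have v1 := h (fun k => nrm th R s (n k w)) (hn w)
      simp only [← nrm_add] at v1
      exact le_trans (by gcongr) v1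
    · refine half (B' := ∅) (fun w w1 _ => ?_) (slot hth hR hs he0 hA0 hcs hcs
        (τ := cs * cs * ν / (8 * A ^ 2)) (by positivity) hνs (le_of_eq (by field_simp)) (i k) (b1 k)
        (cont_mk (hcy t b1) k) hk1 (b3 k) (b4 k)
        fun w a => mk_congr fun l hl => by rw [b5 _ l hl]) (by simp)
      have v1 := h (fun k => nrm th R s (n k w)) (hn w)
      simp only [← nrm_add] at v1
      have v4 := not_le.1 fun hh => w1 ⟨v1, hh⟩
      rw [mem_ofPred_eq, Dt_eq _ k]
      refine le_trans ?_ v4.le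
      calc 2 * c * om ≤ cs * cs / (8 * A ^ 2 * Cs) * (Cs * ν) := by gcongr
        _ = _ := by field_simp

end Pool.Agent.Lib.MP_5a3ebe_gt.Pv
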