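import Pool.Agent.Lib.MP_5a3ebe_gt.PvZt
import Pool.Agent.Lib.MP_5a3ebe_gt.PvL2
import Pool.Agent.Lib.MP_5a3ebe_gt.PvSlab

/-!
One approximate square: its plate and the good translations.
-/

set_option linter.unusedVariables false

namespace Pool.Agent.Lib.MP_5a3ebe_gt.Pv

open Set Complex MeasureTheory unitInterval Function
open Pool.Agent.Lib.MP_5a3ebe_gt.Gen (Lip Lm)
open scoped ENNReal

theorem exists_path (s s' : Circle) : ∃ a : ℝ → Circle, Continuous a ∧ a 0 = s ∧ a 1 = s' :=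
  ⟨fun t => s * Circle.exp (t * arg ((s⁻¹ * s' : Circle) : ℂ)),
    continuous_const.mul (Circle.exp.continuous.comp (by fun_prop)), by simp, by
      simp only [one_mul, Circle.exp_arg]; group⟩

theorem fieldA_update (ρ e : ℝ) {N : ℕ} (w : Fin 9 × Cell N → I × I) (i : Fin 9 × Cell N)
    (a : I × I) (z : ℂ) :
    fieldA ρ (fun j => (e : ℂ) * val (update w i a j)) z =
      fieldA ρ (fun j => (e : ℂ) * val (w j)) z + (b2 ((z - ctr ρ i.1 i.2) / ρ) : ℂ) *
        ((e : ℂ) * (val a - val (w i)) * (z - ctr ρ i.1 i.2)) := by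
  simp only [fieldA]
  rw [← Finset.add_sum_erase _ _ (Finset.mem_univ i), ← Finset.add_sum_erase _ _ (Finset.mem_univ i),
    update_self, Finset.sum_congr rfl fun j hj => by rw [update_of_ne (Finset.ne_of_mem_erase hj)]]
  ring

theorem Dt_neg (c : Fin 4 → ℂ) : Dt (fun k => -c k) = Dt c := by
  simp [Dt, br]

theorem Dt_continuous : Continuous Dt := by
  unfold Dt br; fun_prop

theorem isClosed_image_cube {Θ : Type} [TopologicalSpace Θ] {Φ : Θ × (Fin 4 → ℝ) → ℂ × ℂ}
    (hΦ : Continuous Φ) :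
    IsClosed {q : (ℂ × ℂ) × Θ | ∃ u ∈ Icc (0 : Fin 4 → ℝ) 1, q.1 = Φ (q.2, u)} := by
  have : CompactSpace (Icc (0 : Fin 4 → ℝ) 1) := isCompact_iff_compactSpace.1 isCompact_Icc
  have h1 : IsClosed {r : ((ℂ × ℂ) × Θ) × Icc (0 : Fin 4 → ℝ) 1 | r.1.1 = Φ (r.1.2, r.2.1)} :=
    isClosed_eq (by fun_prop) (hΦ.comp (by fun_prop))
  convert isClosedMap_fst_of_compactSpace _ h1 using 1
  ext q
  constructor
  · rintro ⟨u, hu, h⟩
    exact ⟨(q, ⟨u, hu⟩), h, rfl⟩
  · rintro ⟨⟨q', u⟩, h, rfl⟩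
    exact ⟨u.1, u.2, h⟩

theorem num_local {L η R0 : ℝ} (hL : 1 ≤ L) (hη : 0 < η) (h1 : η ≤ 1 / (108 * L)) (hR : 0 < R0) :
    η ≤ 1 / 4 ∧ 3 * L * R0 ≤ R0 / η / 36 ∧ 558 * L * (R0 / η) < R0 / η ^ 101 ∧
      R0 ≤ R0 / η ∧ η ^ 99 * R0 ≤ R0 / η ∧ η ^ 102 * R0 ≤ R0 / η := by
  have h2 : η * (108 * L) ≤ 1 := by rwa [le_div_iff₀ (by positivity)] at h1
  have h3 : η ≤ 1 / 4 := by nlinarith
  have h4 : η ≤ 1 := by linarith
  have h5 : R0 ≤ R0 / η := le_div_self hR.le hη h4
  refine ⟨h3, ?_, ?_, h5, ?_, ?_⟩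
  · rw [le_div_iff₀ (by norm_num), le_div_iff₀ hη]; nlinarith
  · have h6 : η ^ 100 ≤ η ^ 3 := pow_le_pow_of_le_one hη.le h4 (by norm_num)
    have h7 : η ^ 3 ≤ η / 16 := by nlinarith [mul_pos hη hη]
    have h8 : R0 / η ^ 101 = R0 / η / η ^ 100 := by field_simp
    have h9 : 0 < R0 / η := by positivity
    rw [h8, lt_div_iff₀ (by positivity)]
    have : 558 * L * η ^ 100 < 1 := by nlinarith
    nlinarith
  · exact (mul_le_of_le_one_left hR.le (pow_le_one₀ hη.le h4)).trans h5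
  · exact (mul_le_of_le_one_left hR.le (pow_le_one₀ hη.le h4)).trans h5

theorem localP (L : ℝ) (hL : 1 ≤ L) : ∃ C c p η0 : ℝ, 1 ≤ C ∧ 0 < c ∧ 0 < p ∧ 0 < η0 ∧
    ∀ η : ℝ, 0 < η → η ≤ η0 → ∀ R0 : ℝ, 0 < R0 → ∀ (N : ℕ) (γ : Circle → ℂ), Continuous γ →
    (∀ s, ‖γ s‖ ≤ ((N : ℝ) - 2) * (R0 / η)) → ∀ F : ℂ → ℂ, BiLip γ L F →
    ∀ (Θ : Type) [TopologicalSpace Θ] [MeasurableSpace Θ] [OpensMeasurableSpace Θ]
      (ν : Measure Θ) [IsProbabilityMeasure ν] (τ : Θ → ℂ → ℂ), Continuous (uncurry τ) →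
      (∀ θ z, ‖τ θ z‖ ≤ η ^ 102 * R0) →
    ∀ (m : Fin 9) (Q : Fin 4 → Cell N), Injective Q → ∀ s : Fin 4 → Circle,
      (∀ k, Inn (R0 / η ^ 101) m (Q k) (γ (s k))) →
    ∃ (P : Plate) (z : (Fin 9 × Cell N → I × I) → ℂ × ℂ) (good : Set (Fin 9 × Cell N → I × I)),
      P.Valid C η R0 ∧ Continuous z ∧
      (∀ μ, ‖z μ + Lr fun k => F (γ (s k))‖ ≤ 54 * η ^ 99 * R0) ∧
      MeasurableSet good ∧ 1 / 2 ≤ volume good ∧
      ∀ μ ∈ good, ∃ S : Set (ℂ × ℂ), MeasurableSet S ∧ (∀ y ∈ S, y - z μ ∈ P.V C) ∧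
        ENNReal.ofReal (c * P.v) ≤ volume S ∧
        ∀ X : Cell N → I × I, yQ (R0 / η) Q X ∈ S → ENNReal.ofReal p ≤ ν {θ | Sq γ fun w =>
          F w + gridX (R0 / η ^ 101) m (fun u => ((R0 / η : ℝ) : ℂ) * val (X u)) w +
            fieldA (R0 / η) (fun i => ((η ^ 100 : ℝ) : ℂ) * val (μ i)) w + τ θ w} := by
  obtain ⟨K, hK, hlip⟩ := exists_lip
  have hKL : 1 ≤ K * L := one_le_mul_of_one_le_of_one_le hK hL
  obtain ⟨C, c, η1, hC, hc, hη1, hslab⟩ := slab (2 * (K * L) + 1) (by linarith)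
  refine ⟨C, c / 2, c / (32 * C ^ 4), min η1 (1 / (108 * L)), hC, by positivity, by positivity,
    by positivity, ?_⟩
  intro η hη hη0 R0 hR0 N γ hγ hN F hF Θ _ _ _ ν _ τ hτ hτn m Q hQ s hs
  obtain ⟨n1, n2, n3, n4, n5, n6⟩ := num_local hL hη (hη0.trans (min_le_right _ _)) hR0
  set b : ℝ := R0 / η with hb
  set ρ : ℝ := R0 / η ^ 101 with hρ
  have hb0 : 0 < b := by positivity
  have hρ0 : 0 < ρ := by positivity
  have hLb : b ≤ L * b := le_mul_of_one_le_left hb0.le hL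
  have he0 : 0 < η ^ 100 := by positivity
  have hFc : Continuous fun s => F (γ s) := by
    rw [continuous_iff_continuousAt]
    intro s0
    rw [ContinuousAt, tendsto_iff_norm_sub_tendsto_zero]
    refine squeeze_zero (fun _ => norm_nonneg _) (fun s => (hF s s0).2) ?_
    have : Continuous fun s => L * ‖γ s - γ s0‖ := by fun_prop
    simpa using this.tendsto s0
  have sep : ∀ k l, k ≠ l → ρ / 9 ≤ ‖γ (s k) - γ (s l)‖ := fun k l hkl =>
    inn_sep hρ0 (hs k) (hs l) fun h => hkl (hQ (Subtype.ext h))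
  choose a ha ha0 ha1 using fun k => exists_path (s k) (s (k + 1))
  let x : Fin 4 → ℝ → ℂ := fun k t => (F (γ (a k t)) - F (γ (s k))) / zt k
  have hx : ∀ k, Continuous (x k) := fun k =>
    ((hFc.comp (ha k)).sub continuous_const).div_const _
  obtain ⟨P, t, hP, ht, hx2, hV, hnoise⟩ := hslab η hη (hη0.trans (min_le_left _ _)) R0 hR0 x hx
    (fun k => by simp [x, ha0]) (fun k => by
      have h1 := sep (k + 1) k (by fin_cases k <;> decide)
      have h2 := (hF (s (k + 1)) (s k)).1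
      have h3 := norm_le_div_zt (F (γ (s (k + 1))) - F (γ (s k))) k
      simp only [x, ha1]
      have h4 : L * (3 * R0) ≤ L * ‖F (γ (s (k + 1))) - F (γ (s k))‖ := by nlinarith
      have h5 := le_of_mul_le_mul_left h4 (by linarith)
      linarith)
  have hR : 0 < P.R := hP.s0.trans_le hP.s1
  have src : ∀ k, ∀ u ∈ Icc 0 (t k), ‖γ (a k u) - γ (s k)‖ ≤ 3 * L * P.R := fun k u hu => by
    have h1 := (hF (a k u) (s k)).1
    have h2 := norm_le_div_zt (F (γ (a k u)) - F (γ (s k))) k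
    have h3 : ‖(F (γ (a k u)) - F (γ (s k))) / zt k‖ ≤ 2 * P.R := hx2 k u hu
    have h4 : L * ‖F (γ (a k u)) - F (γ (s k))‖ ≤ L * (3 * P.R) :=
      mul_le_mul_of_nonneg_left (by linarith) (by linarith)
    linarith
  have src' : ∀ k, ∀ u ∈ Icc 0 (t k), ‖γ (a k u) - γ (s k)‖ ≤ b / 36 := fun k u hu => by
    have := mul_le_mul_of_nonneg_left hP.R2 (show 0 ≤ 3 * L by linarith)
    linarith [src k u hu]
  have src'' : ∀ k, ∀ u ∈ Icc 0 (t k), ‖γ (a k u) - γ (s k)‖ ≤ ρ / 36 := fun k u hu => by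
    linarith [src' k u hu]
  have htt : ∀ k, t k ∈ Icc 0 (t k) := fun k => ⟨(ht k).1, le_rfl⟩
  obtain ⟨mA, v, hv⟩ := exists_grid hb0 (N := N) (fun k => γ (s k)) fun k => by
    have := (div_le_iff₀ hb0).2 (hN (s k))
    linarith
  have hvi : ∀ k l, k ≠ l → (v k : ℤ × ℤ) ≠ v l := fun k l hkl h => by
    have h1 := inn_near hb0 (hv k) (h ▸ hv l)
    linarith [sep k l hkl]
  obtain ⟨fA, hfA⟩ : ∃ fA : (Fin 9 × Cell N → I × I) → ℂ → ℂ, ∀ w, fA w =
      fieldA b fun i => ((η ^ 100 : ℝ) : ℂ) * val (w i) := ⟨_, fun _ => rfl⟩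
  have fAl : ∀ w, Lip (K / 2 * η ^ 100) (fA w) := fun w => by
    rw [hfA]; exact (hlip η R0 hη hR0 N).2.2.2.1 w
  have fAn : ∀ w z, ‖fA w z‖ ≤ 13 * (η ^ 99 * R0) := fun w z => by
    rw [hfA]; exact norm_fieldA_le hη hR0 w z
  have fAc : Continuous fun p : (Fin 9 × Cell N → I × I) × ℂ => fA p.1 p.2 := by
    simp only [hfA]; exact continuous_fieldA b (η ^ 100) N
  have fAc1 : ∀ z, Continuous fun w => fA w z := fun z =>
    fAc.comp (continuous_id.prodMk continuous_const)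
  have fAc2 : ∀ w, Continuous (fA w) := fun w => fAc.comp (continuous_const.prodMk continuous_id)
  let n : Fin 4 → (Fin 9 × Cell N → I × I) → ℂ := fun k w =>
    (fA w (γ (a k (t k))) - fA w (γ (s k))) / zt k
  have hn : ∀ k, Continuous (n k) := fun k => ((fAc1 _).sub (fAc1 _)).div_const _
  have hzn : ∀ k, 0 < ‖zt k‖ := fun k => norm_pos_iff.2 (zt_ne k)
  have hgood := hnoise _ (fun k => (mA, v k))
    (fun k l h => by_contra fun hkl => hvi k l hkl (congrArg (fun p => (p.2 : ℤ × ℤ)) h))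
    n (fun k => (γ (a k (t k)) - γ (s k)) / zt k) hn
    (fun k w => by
      simp only [n, x, norm_div, ← mul_div_assoc]
      refine div_le_div_of_nonneg_right ((fAl w _ _).trans ?_) (hzn k).le
      have h1 := mul_le_mul_of_nonneg_left (hF (a k (t k)) (s k)).1
        (show 0 ≤ K / 2 * η ^ 100 by positivity)
      have h2 := mul_nonneg he0.le (norm_nonneg (F (γ (a k (t k))) - F (γ (s k))))
      nlinarith)
    (fun k => by
      simp only [x, norm_div, ← mul_div_assoc]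
      refine div_le_div_of_nonneg_right ((hF _ _).2.trans ?_) (hzn k).le
      exact mul_le_mul_of_nonneg_right (by nlinarith) (norm_nonneg _))
    (fun k w a' => by
      simp only [n, hfA, fieldA_update]
      rw [(hv k).one hb0 (src' k _ (htt k)), (hv k).one hb0 (by simp; positivity)]
      push_cast
      ring)
    (fun k l hlk w a' => by
      have z1 : ∀ z', ‖z' - γ (s l)‖ ≤ b / 36 → b2 ((z' - ctr b mA (v k)) / b) = 0 :=
        fun z' hz' => by_contra fun h => hvi l k hlk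
          (cell_unique hb0 mA (by rw [(hv l).one hb0 hz']; exact one_ne_zero) h)
      simp only [n, hfA, fieldA_update]
      rw [z1 _ (src' l _ (htt l)), z1 _ (by simp; positivity)]
      simp)
  refine ⟨P, fun μ => -Lr (fun k => F (γ (s k))) - Lr fun k => fA μ (γ (s k)), _, hP,
    continuous_const.sub (Lr_continuous.comp (continuous_pi fun k => fAc1 _)), fun μ => ?_, ?_,
    hgood, fun μ hμ => ?_⟩
  · rw [show ∀ y y' : ℂ × ℂ, -y - y' + y = -y' from fun y y' => by ring, norm_neg]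
    have := Lr_norm fun k => fAn μ (γ (s k))
    have h2 : 0 < η ^ 99 * R0 := by positivity
    linarith
  · refine IsClosed.measurableSet ?_
    simp only [ofPred_forall]
    refine isClosed_iInter fun err => isClosed_iInter fun _ => isClosed_le continuous_const ?_
    exact (Dt_continuous.comp (continuous_pi fun k =>
      (continuous_const.add (hn k)).add continuous_const)).abs
  let H : Θ → ℂ → ℂ := fun θ w => F w + fA μ w + τ θ w
  have hut : ∀ u ∈ Icc (0 : Fin 4 → ℝ) 1, ∀ k, u k * t k ∈ Icc 0 (t k) := fun u hu k =>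
    ⟨mul_nonneg (hu.1 k) (ht k).1, mul_le_of_le_one_left (ht k).1 (hu.2 k)⟩
  have hHc : ∀ k, Continuous fun q : Θ × ℝ => H q.1 (γ (a k (q.2 * t k))) := fun k => by
    have h1 : Continuous fun q : Θ × ℝ => a k (q.2 * t k) := (ha k).comp (by fun_prop)
    exact ((hFc.comp h1).add ((fAc2 μ).comp (hγ.comp h1))).add
      (hτ.comp (continuous_fst.prodMk (hγ.comp h1)))
  let Φ : Θ × (Fin 4 → ℝ) → ℂ × ℂ := fun q => Lt fun k => -H q.1 (γ (a k (q.2 k * t k))) / zt k
  have hΦ : Continuous Φ := continuous_Lt.comp (continuous_pi fun k =>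
    (((hHc k).comp (continuous_fst.prodMk ((continuous_apply k).comp continuous_snd))).neg).div_const
      _)
  have hS := (isClosed_image_cube hΦ).measurableSet
  have hv0 : 0 < P.v := by
    have := hP.s0
    have := hP.om0
    unfold Plate.v; positivity
  have hC0 : 0 < C := by linarith
  have key := markov' volume ν hS (vol_V' hP
    (-Lr (fun k => F (γ (s k))) - Lr fun k => fA μ (γ (s k)))) ENNReal.ofReal_ne_top
    (p := ENNReal.ofReal (c / (16 * C ^ 4))) ENNReal.ofReal_ne_top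
    (Filter.Eventually.of_forall fun θ => by
      have h1 := Dt_le_Zt (x := fun k u => -H θ (γ (a k (u * t k))) / zt k) fun k =>
        (((hHc k).comp (continuous_const.prodMk continuous_id)).neg).div_const _
      have h2 := hμ (fun k => (τ θ (γ (a k (t k))) - τ θ (γ (s k))) / zt k) fun k => by
        refine (norm_div_zt _ k).trans ((norm_sub_le _ _).trans ?_)
        linarith [hτn θ (γ (a k (t k))), hτn θ (γ (s k))]
      have h3 : (fun k => -H θ (γ (a k (1 * t k))) / zt k - -H θ (γ (a k (0 * t k))) / zt k) =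
          fun k => -(x k (t k) + n k μ + (τ θ (γ (a k (t k))) - τ θ (γ (s k))) / zt k) := by
        funext k
        simp only [one_mul, zero_mul, ha0, H, x, n]
        ring
      rw [h3, Dt_neg] at h1
      rw [← ENNReal.ofReal_mul (by positivity),
        show c / (16 * C ^ 4) * (16 * C ^ 4 * P.v) = c * P.v by field_simp]
      refine ((ENNReal.ofReal_le_ofReal h2).trans h1).trans (measure_mono ?_)
      rintro _ ⟨u, hu, rfl⟩
      refine ⟨?_, u, hu, rfl⟩
      have h4 := Plate.neg_mem (hV (fun k => u k * t k)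
        (fun k => (fA μ (γ (a k (u k * t k))) - fA μ (γ (s k)) + τ θ (γ (a k (u k * t k)))) / zt k)
        (hut u hu) fun k => by
          refine (norm_div_zt _ k).trans ((norm_add_le _ _).trans ?_)
          have h5 := (fAl μ _ _).trans (mul_le_mul_of_nonneg_left (src k _ (hut u hu k))
            (show 0 ≤ K / 2 * η ^ 100 by positivity))
          have h6 := hτn θ (γ (a k (u k * t k)))
          have h7 : η ^ 102 * R0 ≤ η ^ 100 * P.R := by
            have h8 : η ^ 2 * R0 ≤ P.R := by nlinarith [hP.R1, mul_pos hη hR0]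
            calc η ^ 102 * R0 = η ^ 100 * (η ^ 2 * R0) := by ring
              _ ≤ _ := mul_le_mul_of_nonneg_left h8 he0.le
          have h9 := mul_pos he0 hR
          nlinarith)
      have e : (Lt fun k => -H θ (γ (a k (u k * t k))) / zt k) -
          ((-Lr fun k => F (γ (s k))) - Lr fun k => fA μ (γ (s k))) =
          -Lt fun k => x k (u k * t k) + (fA μ (γ (a k (u k * t k))) - fA μ (γ (s k)) +
            τ θ (γ (a k (u k * t k)))) / zt k := by
        simp only [Lr, Lt, H, x, Prod.neg_mk, Prod.mk_sub_mk, Prod.mk.injEq]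
        constructor <;> ring
      rw [← e] at h4
      exact h4)
  have e1 : ENNReal.ofReal (c / (16 * C ^ 4)) / 2 = ENNReal.ofReal (c / (32 * C ^ 4)) := by
    rw [show c / (32 * C ^ 4) = c / (16 * C ^ 4) / 2 by field_simp; norm_num,
      ENNReal.ofReal_div_of_pos two_pos, ENNReal.ofReal_ofNat]
  rw [e1, ← ENNReal.ofReal_mul (by positivity),
    show c / (32 * C ^ 4) * (16 * C ^ 4 * P.v) = c / 2 * P.v by field_simp; norm_num] at key
  refine ⟨_, (P.measurableSet_V C _).inter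
    (measurableSet_le measurable_const (measurable_measure_prodMk_left hS)), fun y hy => hy.1,
    key, fun X hX => hX.2.trans (measure_mono ?_)⟩
  rintro θ ⟨u, hu, h⟩
  rw [mem_ofPred_eq, ← hfA]
  have gX : ∀ k, gridX ρ m (fun u => (b : ℂ) * val (X u)) (γ (a k (u k * t k))) =
      (b : ℂ) * val (X (Q k)) := fun k => gridX_plateau hρ0 (hs k) (src'' k _ (hut u hu k)) _
  refine sq_of_Lr (fun k => a k (u k * t k)) ?_ fun h0 => ?_
  · simp only [gX]
    have h' : yQ b Q X = Lt fun k => -H θ (γ (a k (u k * t k))) / zt k := h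
    simp only [yQ, Lr, Lt, H, Prod.mk.injEq] at h'
    simp only [Lr, Lt, Prod.mk_eq_zero]
    constructor
    · linear_combination h'.1
    · linear_combination h'.2
  · simp only [gX] at h0
    set p1 := γ (a 1 (u 1 * t 1)) with hp1
    set p0 := γ (a 0 (u 0 * t 0)) with hp0
    have h1 : F p1 - F p0 = ((b : ℂ) * val (X (Q 0)) - (b : ℂ) * val (X (Q 1))) +
        (fA μ p0 - fA μ p1) + (τ θ p0 - τ θ p1) := by linear_combination h0
    have h2 : ‖F p1 - F p0‖ ≤ 31 * b := by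
      rw [h1]
      linarith [norm_add₃_le (a := (b : ℂ) * val (X (Q 0)) - (b : ℂ) * val (X (Q 1)))
        (b := fA μ p0 - fA μ p1) (c := τ θ p0 - τ θ p1),
        norm_sub_le ((b : ℂ) * val (X (Q 0))) ((b : ℂ) * val (X (Q 1))),
        norm_amp_le hb0.le le_rfl (X (Q 0)), norm_amp_le hb0.le le_rfl (X (Q 1)),
        norm_sub_le (fA μ p0) (fA μ p1), fAn μ p0, fAn μ p1, norm_sub_le (τ θ p0) (τ θ p1),
        hτn θ p0, hτn θ p1]
    have h3 : ‖p1 - p0‖ ≤ L * (31 * b) :=
      (hF _ _).1.trans (mul_le_mul_of_nonneg_left h2 (by linarith))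
    have h4 := sep 1 0 (by decide)
    have h5 : γ (s 1) - γ (s 0) = (p1 - p0) - (p1 - γ (s 1)) + (p0 - γ (s 0)) := by ring
    rw [h5] at h4
    linarith [norm_add_le (p1 - p0 - (p1 - γ (s 1))) (p0 - γ (s 0)),
      norm_sub_le (p1 - p0) (p1 - γ (s 1)), src'' 1 _ (hut u hu 1), src'' 0 _ (hut u hu 0)]

end Pool.Agent.Lib.MP_5a3ebe_gt.Pv
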