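import Pool.Agent.Lib.MP_5a3ebe_gt.W48GenE
import Pool.Agent.Lib.MP_5a3ebe_gt.PvDefs

/-! Approximate squares at one prescribed resolution, uniformly on a bi-Lipschitz class of
curves. -/

set_option linter.unusedVariables false
set_option linter.unusedSimpArgs false

namespace Pool.Agent.Lib.MP_5a3ebe_gt.Ap

lemma model_unif {G0 : ℝ → ℂ} (hG0 : IsLoop G0) {L w0 B : ℝ} (hL : 0 < L) (hw0 : 0 < w0)
    (b1 : 0 < B) :
    ∃ ρ R : ℝ, 0 < ρ ∧ ∀ K d : ℝ, 0 < K → 0 < d → ∃ δ0 : ℝ, 0 < δ0 ∧ δ0 ≤ d ∧ ∀ δ : ℝ, 0 < δ →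
      δ ≤ δ0 → ∀ G : ℝ → ℂ, IsLoop G → (∀ s t, ‖G s - G t‖ ≤ L * ‖G0 s - G0 t‖) →
      (∀ s t, ‖G0 s - G0 t‖ ≤ L * ‖G s - G t‖) → (∀ t, ‖G t‖ ≤ B) →
      (G 0).re + 8 * w0 ≤ (G (1 / 2)).re →
      ∃ (n : ℕ) (_ : NeZero n) (z : ZMod n → ℂ) (c : ℂ),
        Model (Set.range G) ρ R K d δ n z c := by
  obtain ⟨κ₀, k1, k2, k3'⟩ := hG0.unif (div_pos hw0 hL)
  obtain ⟨μ₀, m1, m2'⟩ := hG0.inv k1 k2
  have m1' : 0 < μ₀ / L := by positivity
  obtain ⟨ρ, r1, r2, r3'⟩ : ∃ ρ : ℝ, 0 < ρ ∧ 10 * ρ ≤ μ₀ / L ∧ 10 * ρ ≤ w0 :=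
    ⟨min (μ₀ / L) w0 / 10, by positivity, by linarith [min_le_left (μ₀ / L) w0],
      by linarith [min_le_right (μ₀ / L) w0]⟩
  refine ⟨ρ, 3 * (B + ρ), r1, fun K d hK hd => ?_⟩
  obtain ⟨κ₁, l1, -, l3'⟩ := hG0.unif (div_pos (half_pos hd) hL)
  obtain ⟨κ, n1, n2, n3⟩ : ∃ κ : ℝ, 0 < κ ∧ κ ≤ κ₀ ∧ κ ≤ κ₁ :=
    ⟨min κ₀ κ₁, lt_min k1 l1, min_le_left _ _, min_le_right _ _⟩
  obtain ⟨μ, u1, u2'⟩ := hG0.inv n1 (n2.trans k2)
  refine ⟨min (min d ρ) (μ / L / (K + 1)), by positivity,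
    (min_le_left _ _).trans (min_le_left _ _), fun δ d1 hδ0 G hG hup hlow b2 hre => ?_⟩
  have d2 : δ ≤ d := hδ0.trans ((min_le_left _ _).trans (min_le_left _ _))
  have d3 : δ ≤ ρ := hδ0.trans ((min_le_left _ _).trans (min_le_right _ _))
  have d4 : K * δ + δ ≤ μ / L := by
    have := (le_div_iff₀ (by positivity)).1 (hδ0.trans (min_le_right (min d ρ) _))
    linarith
  have up : ∀ {s t x : ℝ}, ‖G0 s - G0 t‖ ≤ x / L → ‖G s - G t‖ ≤ x := fun {s t x} h => by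
    rw [le_div_iff₀ hL] at h
    linarith [hup s t]
  have low : ∀ {s t x : ℝ}, ‖G s - G t‖ ≤ x / L → ‖G0 s - G0 t‖ ≤ x := fun {s t x} h => by
    rw [le_div_iff₀ hL] at h
    linarith [hlow s t]
  obtain ⟨a, ha⟩ : ∃ a : ℝ, a = 0 := ⟨_, rfl⟩
  obtain ⟨b, hb⟩ : ∃ b : ℝ, b = 1 / 2 := ⟨_, rfl⟩
  rw [← ha, ← hb] at hre
  have hab : a ≤ b := by linarith
  have hba : b ≤ a + 1 := by linarith
  obtain ⟨w, hw⟩ : ∃ w : ℝ, (G b).re = (G a).re + 8 * w := ⟨((G b).re - (G a).re) / 8, by ring⟩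
  have hww : w0 ≤ w := by linarith
  have k3 : ∀ s t, |s - t| ≤ κ₀ → ‖G s - G t‖ ≤ w := fun s t h => (up (k3' s t h)).trans hww
  have m2 : ∀ s t, ‖G s - G t‖ ≤ μ₀ / L → ∃ m : ℤ, |s - t - m| ≤ κ₀ :=
    fun s t h => m2' s t (low h)
  have r3 : 10 * ρ ≤ w := r3'.trans hww
  have l3 : ∀ s t, |s - t| ≤ κ₁ → ‖G s - G t‖ ≤ d / 2 := fun s t h => up (l3' s t h)
  have u2 : ∀ s t, ‖G s - G t‖ ≤ μ / L → ∃ m : ℤ, |s - t - m| ≤ κ :=
    fun s t h => u2' s t (low h)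
  have d5 : 0 < K * δ := by positivity
  obtain ⟨n, hn, t, z, ht, z1, z2, z3, z4, z5, z6, z7, z8⟩ := exists_polygon hG n1 (n2.trans k2) d1
    fun s t h => u2 s t (by linarith)
  obtain ⟨x, ⟨x1, x2⟩, x3⟩ := (Set.Ioo_infinite (show (G a).re + 3 * w < (G a).re + 5 * w by
    linarith)).exists_notMem_finite (Set.finite_range fun i => (z i).re)
  have x4 : ∀ i, (z i).re ≠ x := fun i h => x3 ⟨i, h⟩
  obtain ⟨p, p1, p2⟩ := ht.exists_index a
  obtain ⟨q, q1, q2⟩ := ht.exists_index b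
  have hpq : p ≤ q := by
    have : p - 1 < q := ht.strictMono.lt_iff_lt.1 (by linarith)
    omega
  have hqp : q ≤ p + n := by
    have : q - 1 < p + n := ht.strictMono.lt_iff_lt.1 (by rw [ht.1]; linarith)
    omega
  have hM : ∀ v : ℤ, ‖z v‖ ≤ B + ρ := fun v => by
    linarith [norm_le_norm_add_norm_sub' (z v) (G (t v)), b2 (t v), z6 v]
  have hnear : ∀ (v : ℤ) (s : ℝ), t (v - 1) < s → s ≤ t v → |(z v).re - (G s).re| ≤ 2 * w := by
    intro v s h1 h2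
    have h3 := (ht.2 (v - 1)).2.1
    rw [sub_add_cancel] at h3
    have h4 := k3 (t v) s (abs_le.2 ⟨by linarith, by linarith⟩)
    have h5 := Complex.abs_re_le_norm (z v - G s)
    rw [Complex.sub_re] at h5
    linarith [norm_sub_le_norm_sub_add_norm_sub (z v) (G (t v)) (G s), z6 v]
  have hp : (z p).re < x := by linarith [(abs_le.1 (hnear p a p1 p2)).2]
  have hq : x < (z q).re := by linarith [(abs_le.1 (hnear q b q1 q2)).1]
  have hclose : ∀ (v : ℤ) (c : ℂ), ∀ P ∈ segment ℝ (z v) (z (v + 1 : ℤ)), ‖P - c‖ < 2 * ρ →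
      ‖G (t v) - c‖ ≤ 5 * ρ := by
    intro v c P hP h1
    have h2 := dist_add_dist_of_mem_segment hP
    have h3 := z7 v
    have h4 := dist_nonneg (x := P) (y := z (v + 1 : ℤ))
    have h5 := norm_sub_le_three (G (t v)) (z v) P c
    rw [norm_sub_rev (G (t v)) (z v), norm_sub_rev c] at h5
    rw [dist_eq_norm, dist_eq_norm (z v), norm_sub_rev (z v) (z _)] at h2
    push_cast at h2 h4
    linarith [z6 v]
  obtain ⟨y, y1, y2, y3⟩ := exists_inside (z := fun v : ℤ => z v) r1 hM (fun v => x4 v) hpq hqp hp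
    hq (by simpa using hp) (fun y => by
      by_contra hcon
      simp only [FarFrom, not_or, not_forall, not_le, Finset.mem_Ico] at hcon
      obtain ⟨⟨v, ⟨v1, v2⟩, P, hP, v3⟩, v', ⟨v4, v5⟩, P', hP', v6⟩ := hcon
      have a1 := hclose v _ P hP v3
      have a2 := hclose v' _ P' hP' v6
      have a3 := norm_sub_le_norm_sub_add_norm_sub (G (t v)) ⟨x, y⟩ (G (t v'))
      rw [norm_sub_rev ⟨x, y⟩ (G (t v'))] at a3
      obtain ⟨m, hm⟩ := m2 (t v) (t v') (by linarith)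
      have a4 := ht.strictMono.monotone v1
      have a5 := ht.strictMono.monotone (show v ≤ q - 1 by omega)
      have a6 := ht.strictMono.monotone v4
      have a7 := ht.strictMono.monotone (show v' ≤ p - 1 + n by omega)
      rw [ht.1] at a7
      have a8 := (abs_le.1 ((Complex.abs_re_le_norm _).trans a1))
      simp only [Complex.sub_re] at a8
      rcases arcs_apart hG k2 k3 (a := a) (b := b) (by linarith) (by linarith) (by linarith)
        (by linarith) hm with a9 | a9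
      · have := (abs_le.1 ((Complex.abs_re_le_norm _).trans a9)).2
        rw [Complex.sub_re] at this
        linarith [a8.1]
      · have := (abs_le.1 ((Complex.abs_re_le_norm _).trans a9)).1
        rw [Complex.sub_re] at this
        linarith [a8.2])
  refine ⟨n, hn, z, ⟨x, y⟩, z1, z2, z3, z4, z5, fun i => ?_, z7, z8, fun i j hij => ?_,
    fun i P hP => ?_, fun i => ?_, x4, ?_⟩
  · obtain ⟨v, rfl⟩ := ZMod.intCast_surjective i
    exact ⟨_, ⟨t v, rfl⟩, by linarith [z6 v]⟩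
  · obtain ⟨u, rfl⟩ := ZMod.intCast_surjective i
    obtain ⟨v, rfl⟩ := ZMod.intCast_surjective j
    have h1 := norm_sub_le_three (G (t u)) (z u) (z v) (G (t v))
    rw [norm_sub_rev (G (t u)) (z u), norm_sub_rev (G (t v))] at h1
    obtain ⟨m, hm⟩ := u2 (t u) (t v) (by linarith [z6 u, z6 v])
    rw [sub_sub, ← ht.shift] at hm
    have e : (v : ZMod n) = (v + m * n : ℤ) := by simp
    have hd' : ∀ s t, |s - t| ≤ κ → ‖G s - G t‖ ≤ d / 2 := fun s t h => l3 s t (h.trans n3)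
    rcases le_total u (v + m * n) with h | h
    · obtain ⟨c1, c2⟩ := ht.loc (n2.trans k2) hd' d2 z6 h hm
      exact ⟨u, _, h, c1, Or.inl ⟨rfl, e⟩, c2⟩
    · obtain ⟨c1, c2⟩ := ht.loc (n2.trans k2) hd' d2 z6 h (by rwa [abs_sub_comm])
      exact ⟨_, u, h, c1, Or.inr ⟨rfl, e⟩, c2⟩
  · obtain ⟨v, v1, v2, rfl⟩ := exists_rep p i
    exact y2 v (Finset.mem_Ico.2 ⟨v1, v2⟩) P (by simpa using hP)
  · obtain ⟨v, rfl⟩ := ZMod.intCast_surjective i
    have h1 := Complex.norm_le_abs_re_add_abs_im ⟨x, y⟩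
    have h2 := abs_le.1 ((Complex.abs_re_le_norm _).trans (hM p))
    have h3 := abs_le.1 ((Complex.abs_re_le_norm _).trans (hM q))
    have h4 : |x| ≤ B + ρ := abs_le.2 ⟨by linarith [h2.1], by linarith [h3.2]⟩
    simp only at h1
    linarith [norm_sub_le (z v) ⟨x, y⟩, hM v]
  · rwa [ncard_below z p]

theorem final_model {ρ B ε : ℝ} (hρ : 0 < ρ) (hB0 : 0 < B) (hε : 0 < ε) (hε1 : ε ≤ 1) :
    ∃ d : ℝ, 0 < d ∧ ∀ (δ R0 : ℝ) (C : Set ℂ) (n : ℕ) [NeZero n] (z : ZMod n → ℂ) (c0 : ℂ),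
      0 < δ → δ ≤ d → (∀ p ∈ C, ‖p‖ ≤ B) → Model C ρ R0 (28 / ε) d δ n z c0 →
      ∃ o e : ℂ, ∃ p1 ∈ C, ∃ p2 ∈ C, ∃ p3 ∈ C, ∃ p4 ∈ C, ‖p1 - (o + e)‖ ≤ 5 * δ ∧
        ‖p2 - (o + Complex.I * e)‖ ≤ 5 * δ ∧ ‖p3 - (o - e)‖ ≤ 5 * δ ∧
        ‖p4 - (o - Complex.I * e)‖ ≤ 5 * δ ∧ 2 * (5 * δ) ≤ ε * ‖e‖ := by
  obtain ⟨R, hR⟩ : ∃ R, R = B + 1 + ρ := ⟨_, rfl⟩
  obtain ⟨c, K0, hc0, core⟩ := Ap.core R (ρ / 3) (by positivity) (by linarith)
  obtain ⟨Kr, hKr⟩ : ∃ Kr, Kr = 28 / ε := ⟨_, rfl⟩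
  have hKr0 : 0 < Kr := by rw [hKr]; positivity
  have hKε : Kr * ε = 28 := by rw [hKr]; field_simp
  obtain ⟨d, hd0, hd1, hdc⟩ := num_d (T := 2004 * (Kr + 3) ^ 2) (c := c / 2) (by positivity)
    (by positivity)
  refine ⟨d, hd0, fun δ R0 C n _ z c0 hδ hδd hB M => ?_⟩
  rw [← hKr] at M
  have hzB : ∀ i, ‖z i - 0‖ ≤ R := by
    intro i
    obtain ⟨p, hp, h1⟩ := M.near i
    have h2 := hB p hp
    have := norm_add_le (z i - p) p
    rw [sub_add_cancel] at this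
    rw [sub_zero]
    linarith
  have hR0 : 0 < R := by linarith
  obtain ⟨K, hK0, hK1, hK2⟩ : ∃ K : ℝ, K0 ≤ K ∧ (R + 1) / δ ≤ K ∧ 2 * (R + 1) ^ 2 / c ≤ K :=
    ⟨max K0 (max ((R + 1) / δ) (2 * (R + 1) ^ 2 / c)), le_max_left _ _,
      (le_max_left _ _).trans (le_max_right _ _), (le_max_right _ _).trans (le_max_right _ _)⟩
  have hKpos : 0 < K := lt_of_lt_of_le (by positivity) hK1
  rw [div_le_iff₀ hδ] at hK1
  rw [div_le_iff₀ hc0] at hK2
  obtain ⟨S, hS, hsl⟩ := exists_slope M.three M.inj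
  have hg0 : 0 < δ / (16 * (n + 1)) := by positivity
  obtain ⟨h0, hh0, core⟩ := core K δ (δ / (16 * (n + 1)) / S) (δ / (16 * (n + 1))) hK0 hδ
    (by positivity) hg0 (ZMod n)
  obtain ⟨hg, hhg, hgrid⟩ := M.grid
  choose mm hmm using hgrid
  obtain ⟨μ, hμ0, hμ⟩ : ∃ μ : ℝ, 0 < μ ∧ ∀ i, μ ≤ |(z i).re - c0.re| := by
    obtain ⟨i0, -, hi0⟩ := Finset.exists_min_image Finset.univ (fun i => |(z i).re - c0.re|)
      Finset.univ_nonempty
    exact ⟨_, abs_pos.2 (sub_ne_zero.2 (M.off i0)), fun i => hi0 i (Finset.mem_univ _)⟩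
  obtain ⟨N, hN⟩ := exists_nat_gt (hg / min h0 (min (ρ / 3) μ))
  have hmin : 0 < min h0 (min (ρ / 3) μ) := by positivity
  have hN0 : (0 : ℝ) < N := lt_trans (by positivity) hN
  obtain ⟨h, hhdef⟩ : ∃ h, h = hg / N := ⟨_, rfl⟩
  have hh : 0 < h := by rw [hhdef]; positivity
  have hlt : h < min h0 (min (ρ / 3) μ) := by
    rw [hhdef, div_lt_iff₀ hN0]
    rw [div_lt_iff₀ hmin] at hN
    linarith
  simp only [lt_min_iff] at hlt
  obtain ⟨X, hX⟩ : ∃ X : ZMod n → ℤ, ∀ i, (z i).re = h * X i :=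
    ⟨fun i => N * mm i, fun i => by rw [hmm, hhdef]; push_cast; field_simp⟩
  obtain ⟨G, Cn⟩ := poly_good z h X M.three M.simple M.inj hh hX
  obtain ⟨F, A, L⟩ := (polyDiag z h X).exists_lev G Cn (fun k s => -(h * (polyDiag z h X).key k s))
  have hre : ∀ i, |(z i).re| ≤ R := fun i =>
    (Complex.abs_re_le_norm _).trans (by simpa using hzB i)
  have him : ∀ v, ∀ P ∈ segment ℝ (z v) (z (v + 1)), |P.im| ≤ R := fun v P hP =>
    (Complex.abs_im_le_norm _).trans (by simpa using seg_norm_le hP (hzB v) (hzB (v + 1)))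
  obtain ⟨i1, i2, i3, i4, s1, s2, s3, s4, m, x1, x2, x3, x4, u, V, t1, t2, t3, t4, e1, e2, e3,
    e4, eu, y1, y2, y3, y4, eV, v1, v2⟩ :=
    core h hh hlt.1.le (polyDiag z h X) (fun i v => lineH (z v) (z (v + 1)) (h * i)) F A
      ⌊c0.re / h⌋ _ c0.im G Cn L
      (fun k s hk => him s _ (mid_mem M.three M.inj hh hX hk))
      (fun s _ t _ => by
        rw [mul_sub, ← max_re hh hX, ← min_re hh hX]
        have a1 := abs_le.1 (hre s)
        have a2 := abs_le.1 (hre (s + 1))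
        have a3 := abs_le.1 (hre t)
        have a4 := abs_le.1 (hre (t + 1))
        have b1 := max_le a1.2 a2.2
        have b2 := le_min a3.1 a4.1
        linarith)
      (sep_of_clear M.three M.inj hh hX (corridor_clear hh hlt.2.1.le M.far) (by positivity))
      (quiet_of hh hX fun i => lt_of_lt_of_le hlt.2.2 (hμ i))
      (by
        have := M.odd
        simpa only [alive_iff M.three M.inj hh hX hlt.2.1.le M.far M.off] using this)
      (local_sep M.three M.inj hh hX hS (by positivity) hδ hsl (by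
        rw [mul_div_cancel₀ _ hS.ne']))
  have m1 := touch_mem M.three M.inj hh hX t1
  have m2 := touch_mem M.three M.inj hh hX t2
  have m3 := touch_mem M.three M.inj hh hX t3
  have m4 := touch_mem M.three M.inj hh hX t4
  have hKu : |K * u| ≤ R + 1 := by
    have a1 := abs_le.1 (him _ _ m1)
    have a3 := abs_le.1 (him _ _ m3)
    rw [linePt_im] at a1 a3
    have b1 := abs_le.1 y1
    have b3 := abs_le.1 y3
    rw [abs_le]
    constructor <;> linarith [a1.1, a1.2, a3.1, a3.2, b1.1, b1.2, b3.1, b3.2]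
  have hu : |u| ≤ δ := num_u hKpos hKu hK1
  have hu' := abs_le.1 hu
  obtain ⟨o, ho1, ho2⟩ : ∃ o : ℂ, o.re = (x1 + x3) / 2 ∧ o.im = -(K * u) :=
    ⟨⟨(x1 + x3) / 2, -(K * u)⟩, rfl, rfl⟩
  obtain ⟨e, he1, he2⟩ : ∃ e : ℂ, e.re = (x1 - x3) / 2 ∧ e.im = (x2 - x4) / 2 :=
    ⟨⟨(x1 - x3) / 2, (x2 - x4) / 2⟩, rfl, rfl⟩
  have n1 : ‖linePt (z s1) (z (s1 + 1)) (h * i1) - (o + e)‖ ≤ δ + δ := by
    have b := abs_le.1 y1
    apply norm_le_of_parts <;>
      simp only [Complex.sub_re, Complex.add_re, Complex.sub_im, Complex.add_im, linePt_re,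
        linePt_im, ho1, ho2, he1, he2, abs_le] <;>
      constructor <;> linarith [b.1, b.2]
  have n3 : ‖linePt (z s3) (z (s3 + 1)) (h * i3) - (o - e)‖ ≤ δ + δ := by
    have b := abs_le.1 y3
    apply norm_le_of_parts <;>
      simp only [Complex.sub_re, Complex.add_re, Complex.sub_im, Complex.add_im, linePt_re,
        linePt_im, ho1, ho2, he1, he2, abs_le] <;>
      constructor <;> linarith [b.1, b.2]
  have n2 : ‖linePt (z s2) (z (s2 + 1)) (h * i2) - (o - Complex.I * e)‖ ≤ δ + δ := by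
    have b := abs_le.1 y2
    apply norm_le_of_parts <;>
      simp only [Complex.sub_re, Complex.add_re, Complex.sub_im, Complex.add_im, linePt_re,
        linePt_im, ho1, ho2, he1, he2, abs_le, Complex.mul_re, Complex.mul_im, Complex.I_re,
        Complex.I_im] <;>
      constructor <;> linarith [b.1, b.2, hu'.1, hu'.2]
  have n4 : ‖linePt (z s4) (z (s4 + 1)) (h * i4) - (o + Complex.I * e)‖ ≤ δ + δ := by
    have b := abs_le.1 y4
    apply norm_le_of_parts <;>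
      simp only [Complex.sub_re, Complex.add_re, Complex.sub_im, Complex.add_im, linePt_re,
        linePt_im, ho1, ho2, he1, he2, abs_le, Complex.mul_re, Complex.mul_im, Complex.I_re,
        Complex.I_im] <;>
      constructor <;> linarith [b.1, b.2, hu'.1, hu'.2]
  have vert : ∀ (v : ZMod n) (P q : ℂ), P ∈ segment ℝ (z v) (z (v + 1)) → ‖P - q‖ ≤ δ + δ →
      ‖z v - q‖ ≤ 4 * δ ∧ ∃ p ∈ C, ‖p - q‖ ≤ 5 * δ := by
    intro v P q hP hq
    have a1 : ‖P - z v‖ ≤ 2 * δ := seg_norm_le hP (by simp [hδ.le]) (M.short v)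
    have a2 := norm_sub_le (P - q) (P - z v)
    rw [show P - q - (P - z v) = z v - q by ring] at a2
    obtain ⟨p, hp, a3⟩ := M.near v
    have a4 := norm_sub_le (z v - q) (z v - p)
    rw [show z v - q - (z v - p) = p - q by ring] at a4
    exact ⟨by linarith, p, hp, by linarith⟩
  obtain ⟨w1, p1, q1, r1⟩ := vert _ _ _ m1 n1
  obtain ⟨w2, p2, q2, r2⟩ := vert _ _ _ m2 n2
  obtain ⟨w3, p3, q3, r3⟩ := vert _ _ _ m3 n3
  obtain ⟨w4, p4, q4, r4⟩ := vert _ _ _ m4 n4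
  by_cases hbig : 2 * (5 * δ) ≤ ε * ‖e‖
  · exact ⟨o, e, p1, q1, p4, q4, p3, q3, p2, q2, r1, r4, r3, r2, hbig⟩
  exfalso
  push Not at hbig
  have hsm : ‖e‖ + 4 * δ ≤ Kr * δ / 2 := num_small hε hε1 hδ hKε hbig
  have near : ∀ (P f : ℂ), ‖f‖ = ‖e‖ → ‖P - (o + f)‖ ≤ 4 * δ → ‖P - o‖ ≤ Kr * δ / 2 := by
    intro P f hf hP
    have := norm_add_le (P - (o + f)) f
    rw [show P - (o + f) + f = P - o by ring] at this
    linarith
  have f2 : ‖-(Complex.I * e)‖ = ‖e‖ := by simp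
  have f3 : ‖-e‖ = ‖e‖ := by simp
  have f4 : ‖Complex.I * e‖ = ‖e‖ := by simp
  rw [sub_eq_add_neg o] at n2 n3 w2 w3
  obtain ⟨ma, τa, ha, ea⟩ := lev_pair M hδ hKr0 hX G L t1 t2 (near _ _ rfl w1) (near _ _ f2 w2)
    (near _ _ rfl (by linarith)) (near _ _ f2 (by linarith)) (by linarith)
  obtain ⟨mb, τb, hb, eb⟩ := lev_pair M hδ hKr0 hX G L t3 t4 (near _ _ f3 w3) (near _ _ f4 w4)
    (near _ _ f3 (by linarith)) (near _ _ f4 (by linarith)) (by linarith)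
  refine not_window (t := τa + τb + 2 * (e.re * e.im) + K * u ^ 2 / 2) (m := ma + mb + m) ?_ ?_
    v1 v2
  · rw [← e1, ← e2, ho2] at ea
    rw [← e3, ← e4, ho2] at eb
    rw [he1, he2]
    push_cast
    linear_combination eV + ea + eb - (K * u) * eu
  · exact num_end hKr0 hδ hδd hKpos hc0 hsm hKu hK2 hdc ha hb

/-- Approximate squares at one prescribed resolution, uniformly on a bi-Lipschitz class. -/
theorem unif_approx (γ : Circle → ℂ) (hc : Continuous γ) (hi : Function.Injective γ) {L K : ℝ}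
    (hL : 0 < L) (hK : 0 < K) :
    ∃ δ0 : ℝ, 0 < δ0 ∧ ∀ δ : ℝ, 0 < δ → δ ≤ δ0 → ∀ Γ : Circle → ℂ,
      (∀ s t, ‖Γ s - Γ t‖ ≤ L * ‖γ s - γ t‖) → (∀ s t, ‖γ s - γ t‖ ≤ L * ‖Γ s - Γ t‖) →
      ∃ s : Fin 4 → Circle, ‖Gen.Lm fun k => Γ (s k)‖ ≤ δ ∧
        ∀ j k, j ≠ k → K * δ ≤ ‖Γ (s j) - Γ (s k)‖ := by
  have hπ : (2 * Real.pi) ≠ 0 := by positivity
  let E : ℝ → Circle := fun t => Circle.exp (2 * Real.pi * t)
  have hE : Continuous E := Circle.exp.continuous.comp (by fun_prop)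
  have loop : ∀ Γ : Circle → ℂ, Continuous Γ → Function.Injective Γ →
      IsLoop fun t : ℝ => Γ (E t) := fun Γ hc hi => by
    refine ⟨hc.comp hE, fun t m => ?_, fun s t h => ?_⟩
    · exact congrArg Γ (Circle.exp_eq_exp.2 ⟨m, by ring⟩)
    · obtain ⟨m, hm⟩ := Circle.exp_eq_exp.1 (hi h)
      exact ⟨m, mul_left_cancel₀ hπ (by linarith)⟩
  have hG0 := loop γ hc hi
  obtain ⟨B0, hB0, hB⟩ := hG0.bounded
  have hm : 0 < ‖γ (E (1 / 2)) - γ (E 0)‖ := by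
    rw [norm_pos_iff, sub_ne_zero]
    intro h
    obtain ⟨m, hm⟩ := hG0.inj _ _ h
    have h1 : (2 * m : ℤ) = 1 := by
      have : (2 * m : ℝ) = 1 := by linarith
      exact_mod_cast this
    omega
  set m := ‖γ (E (1 / 2)) - γ (E 0)‖ with hmdef
  obtain ⟨ρ, R, hρ, model⟩ := model_unif hG0 (w0 := m / L / 8) (B := L * (2 * B0)) hL
    (by positivity) (by positivity)
  obtain ⟨ε, hε, hε1, hεK⟩ : ∃ ε : ℝ, 0 < ε ∧ ε ≤ 1 ∧ ε * (2 * K + 1) = 1 := by
    refine ⟨1 / (2 * K + 1), by positivity, ?_, by field_simp⟩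
    rw [div_le_one (by positivity)]
    linarith
  obtain ⟨d, hd, fin⟩ := final_model hρ (B := L * (2 * B0)) (by positivity) hε hε1
  obtain ⟨δ0, hδ0, hδd, model⟩ := model (28 / ε) d (by positivity) hd
  refine ⟨20 * δ0, by positivity, fun δ hδ hδ' Γ hup hlow => ?_⟩
  have hΓc : Continuous Γ := by
    refine continuous_iff_continuousAt.2 fun t => ?_
    rw [ContinuousAt, tendsto_iff_norm_sub_tendsto_zero]
    refine squeeze_zero (fun _ => norm_nonneg _) (fun s => hup s t) ?_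
    have : Continuous fun s => L * ‖γ s - γ t‖ := by fun_prop
    simpa using this.tendsto t
  set v := Γ (E (1 / 2)) - Γ (E 0) with hv
  have hvm : m / L ≤ ‖v‖ := by
    rw [div_le_iff₀ hL]
    linarith [hlow (E (1 / 2)) (E 0)]
  have hv0 : 0 < ‖v‖ := lt_of_lt_of_le (by positivity) hvm
  obtain ⟨u, hu1, hu2⟩ : ∃ u : ℂ, ‖u‖ = 1 ∧ u * v = ‖v‖ := by
    refine ⟨(‖v‖ : ℂ) / v, ?_, div_mul_cancel₀ _ (norm_pos_iff.1 hv0)⟩
    rw [norm_div, Complex.norm_real, Real.norm_of_nonneg hv0.le, div_self hv0.ne']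
  let Γ' : Circle → ℂ := fun s => u * (Γ s - Γ (E 0))
  have hn : ∀ s t, ‖Γ' s - Γ' t‖ = ‖Γ s - Γ t‖ := fun s t => by
    rw [show Γ' s - Γ' t = u * (Γ s - Γ t) by simp only [Γ']; ring, norm_mul, hu1, one_mul]
  have hΓ'i : Function.Injective Γ' := fun s t h => by
    have h1 := hlow s t
    rw [← hn, h, sub_self, norm_zero, mul_zero] at h1
    exact hi (sub_eq_zero.1 (norm_le_zero_iff.1 h1))
  have hbd : ∀ t, ‖Γ' (E t)‖ ≤ L * (2 * B0) := fun t => by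
    have h1 := hn (E t) (E 0)
    rw [show Γ' (E 0) = 0 by simp [Γ'], sub_zero] at h1
    rw [h1]
    refine (hup _ _).trans (mul_le_mul_of_nonneg_left ?_ hL.le)
    linarith [norm_sub_le (γ (E t)) (γ (E 0)), hB t, hB 0]
  obtain ⟨n, hn0, z, c0, M⟩ := model (δ / 20) (by positivity) (by linarith)
    (fun t => Γ' (E t)) (loop Γ' (by fun_prop) hΓ'i) (fun s t => by rw [hn]; exact hup _ _)
    (fun s t => by rw [hn]; exact hlow _ _) hbd (by
      have h1 : Γ' (E (1 / 2)) = ‖v‖ := hu2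
      have h2 : Γ' (E 0) = 0 := by simp [Γ']
      simp only [h1, h2, Complex.zero_re, Complex.ofReal_re]
      linarith)
  obtain ⟨o, e, _, ⟨t0, rfl⟩, _, ⟨t1, rfl⟩, _, ⟨t2, rfl⟩, _, ⟨t3, rfl⟩, a0, a1, a2, a3, he⟩ :=
    fin (δ / 20) R _ n z c0 (by positivity) (by linarith) (by rintro _ ⟨t, rfl⟩; exact hbd t) M
  let s : Fin 4 → Circle := ![E t0, E t1, E t2, E t3]
  let q : Fin 4 → ℂ := ![o + e, o + Complex.I * e, o - e, o - Complex.I * e]
  have hq : ∀ k, ‖Γ' (s k) - q k‖ ≤ δ / 4 := fun k => by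
    fin_cases k
    · exact a0.trans (by linarith)
    · exact a1.trans (by linarith)
    · exact a2.trans (by linarith)
    · exact a3.trans (by linarith)
  refine ⟨s, ?_, fun j k hjk => ?_⟩
  · have h1 := Gen.Lm_norm hq
    have h2 : Gen.Lm q = 0 := by
      simp only [Gen.Lm, q, Prod.mk_eq_zero]
      constructor
      · simp
      · simp
        linear_combination (-e) * Complex.I_mul_I
    rw [Gen.Lm_sub, h2, sub_zero] at h1
    have h3 : (Gen.Lm fun k => Γ' (s k)) = u • Gen.Lm fun k => Γ (s k) := by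
      simp only [Gen.Lm, Γ', Prod.smul_mk, smul_eq_mul, Prod.mk.injEq]
      constructor <;> ring
    rw [h3, norm_smul, hu1, one_mul] at h1
    linarith
  · have h1 : ‖e‖ ≤ ‖q j - q k‖ := by
      have A : ∀ x : ℂ, 1 ≤ |x.re| ∨ 1 ≤ |x.im| → ∀ y, y = x * e → ‖e‖ ≤ ‖y‖ := by
        rintro x hx _ rfl
        rw [norm_mul]
        refine le_mul_of_one_le_left (norm_nonneg _) ?_
        rcases hx with h | h
        · exact h.trans (Complex.abs_re_le_norm x)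
        · exact h.trans (Complex.abs_im_le_norm x)
      let cf : Fin 4 → ℂ := ![1, Complex.I, -1, -Complex.I]
      refine A (cf j - cf k) ?_ _ ?_
      · fin_cases j <;> fin_cases k <;> simp [cf] at hjk ⊢ <;> norm_num
      · fin_cases j <;> fin_cases k <;> simp [cf, q] <;> ring
    have h2 := norm_sub_le_three (q j) (Γ' (s j)) (Γ' (s k)) (q k)
    rw [norm_sub_rev (q j) (Γ' (s j)), norm_sub_rev (q k), hn] at h2
    have h4 : (2 * K + 1) * (δ / 2) ≤ ‖e‖ := by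
      have : ε * ((2 * K + 1) * (δ / 2)) ≤ ε * ‖e‖ := by
        rw [← mul_assoc, hεK]
        linarith
      exact le_of_mul_le_mul_left this hε
    linarith [hq j, hq k]

end Pool.Agent.Lib.MP_5a3ebe_gt.Ap

namespace Pool.Agent.Lib.MP_5a3ebe_gt.Pv

theorem unif_apsq (γ : Circle → ℂ) (hc : Continuous γ) (hi : Function.Injective γ) {L K : ℝ}
    (hL : 0 < L) (hK : 0 < K) :
    ∃ d0 : ℝ, 0 < d0 ∧ ∀ d : ℝ, 0 < d → d ≤ d0 → ∀ F : ℂ → ℂ, BiLip γ L F →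
      ApSq γ d (K * d) F := by
  obtain ⟨d0, h0, H⟩ := Ap.unif_approx γ hc hi hL hK
  exact ⟨d0, h0, fun d hd hd' F hF =>
    H d hd hd' (fun s => F (γ s)) (fun s t => (hF s t).2) fun s t => (hF s t).1⟩

end Pool.Agent.Lib.MP_5a3ebe_gt.Pv
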