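import Mathlib

/-! A zero-one principle for stagewise repairs in an infinite product of probability spaces. -/

open MeasureTheory Set Function
open scoped ENNReal symmDiff

namespace Pool.Agent.Lib.MP_5a3ebe_gt.PvZero

variable {X : ℕ → Type*} [∀ j, MeasurableSpace (X j)]

/-- The first `n` coordinates from `w`, the others from `w'`. -/
def merge (n : ℕ) (w w' : ∀ j, X j) : ∀ j, X j := fun i => if i < n then w i else w' i

theorem measurable_mix (S : ℕ → Prop) [DecidablePred S] :
    Measurable fun q : (∀ j, X j) × (∀ j, X j) => fun i => if S i then q.1 i else q.2 i := by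
  refine measurable_pi_lambda _ fun i => ?_
  by_cases h : S i
  · simp only [h, if_true]; fun_prop
  · simp only [h, if_false]; fun_prop

theorem measurable_merge (n : ℕ) :
    Measurable fun q : (∀ j, X j) × (∀ j, X j) => merge n q.1 q.2 :=
  measurable_mix fun i => i < n

variable (μ : ∀ j, Measure (X j)) [∀ j, IsProbabilityMeasure (μ j)]

theorem mp_mix (S : ℕ → Prop) [DecidablePred S] :
    MeasurePreserving (fun q : (∀ j, X j) × (∀ j, X j) => fun i => if S i then q.1 i else q.2 i)
      ((Measure.infinitePi μ).prod (Measure.infinitePi μ)) (Measure.infinitePi μ) := by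
  refine ⟨measurable_mix S, Measure.eq_infinitePi μ fun s t ht => ?_⟩
  rw [Measure.map_apply (measurable_mix S) (MeasurableSet.pi s.countable_toSet fun i _ => ht i)]
  have : (fun q : (∀ j, X j) × (∀ j, X j) => fun i => if S i then q.1 i else q.2 i) ⁻¹'
      Set.pi s t = Set.pi (s.filter S) t ×ˢ Set.pi (s.filter fun i => ¬ S i) t := by
    ext q
    simp only [mem_preimage, mem_pi, Finset.mem_coe, mem_prod, Finset.mem_filter]
    refine ⟨fun h => ⟨fun i hi => ?_, fun i hi => ?_⟩, fun h i hi => ?_⟩
    · simpa [hi.2] using h i hi.1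
    · simpa [hi.2] using h i hi.1
    · by_cases hS : S i
      · simpa [hS] using h.1 i ⟨hi, hS⟩
      · simpa [hS] using h.2 i ⟨hi, hS⟩
  rw [this, Measure.prod_prod, Measure.infinitePi_pi μ fun i _ => ht i,
    Measure.infinitePi_pi μ fun i _ => ht i, Finset.prod_filter_mul_prod_filter_not]

/-- The conditional probability of `N` given the first `n` coordinates. -/
noncomputable def cond (N : Set (∀ j, X j)) (n : ℕ) (w : ∀ j, X j) : ℝ≥0∞ :=
  Measure.infinitePi μ {w' | merge n w w' ∈ N}

variable {N : Set (∀ j, X j)}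

theorem measurable_cond (hN : MeasurableSet N) (n : ℕ) : Measurable (cond μ N n) :=
  measurable_measure_prodMk_left (measurable_merge n hN)

theorem cond_le_one (n : ℕ) (w : ∀ j, X j) : cond μ N n w ≤ 1 := prob_le_one

theorem cond_succ (hN : MeasurableSet N) (n : ℕ) (w : ∀ j, X j) :
    cond μ N n w = ∫⁻ x, cond μ N (n + 1) (update w n x) ∂μ n := by
  have hm : Measurable fun w' : ∀ j, X j => merge n w w' :=
    (measurable_merge n).comp measurable_prodMk_left
  have h1 := (mp_mix μ fun i => i = n).measure_preimage (hm hN).nullMeasurableSet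
  have h2 : Measurable fun x => cond μ N (n + 1) (update w n x) :=
    (measurable_cond μ hN _).comp (measurable_update w)
  rw [← (measurePreserving_eval_infinitePi μ n).lintegral_comp h2]
  refine h1.symm.trans ?_
  rw [Measure.prod_apply (measurable_mix _ (hm hN))]
  refine lintegral_congr fun v => ?_
  unfold cond
  congr 1
  ext w'
  simp only [mem_preimage, mem_ofPred_eq, Function.eval]
  have : merge n w (fun i => if i = n then v i else w' i) =
      merge (n + 1) (update w n (v n)) w' := by
    funext i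
    unfold merge
    rcases lt_trichotomy i n with h | rfl | h
    · simp [h, h.ne, Nat.lt_succ_of_lt h]
    · simp
    · simp [h.ne', not_lt.2 h.le, not_lt.2 (Nat.succ_le_of_lt h)]
  rw [this]

theorem inter_eq (hN : MeasurableSet N) (n : ℕ) {A : Set (∀ j, X j)} (hA : MeasurableSet A)
    (hA' : ∀ w w', merge n w w' ∈ A ↔ w ∈ A) :
    Measure.infinitePi μ (N ∩ A) = ∫⁻ w in A, cond μ N n w ∂Measure.infinitePi μ := by
  have h1 := (mp_mix μ fun i => i < n).measure_preimage (hN.inter hA).nullMeasurableSet
  refine h1.symm.trans ?_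
  rw [Measure.prod_apply (measurable_mix _ (hN.inter hA)), ← lintegral_indicator hA]
  refine lintegral_congr fun w => ?_
  by_cases hw : w ∈ A
  · rw [indicator_of_mem hw]
    unfold cond
    congr 1
    ext w'
    exact and_iff_left ((hA' w w').2 hw)
  · rw [indicator_of_notMem hw]
    convert measure_empty
    · ext w'
      exact iff_false_intro fun h => hw ((hA' w w').1 h.2)
    · infer_instance

/-- If all late conditional probabilities stay below `c < 1`, the set is null. -/
theorem null_of_cond_le (hN : MeasurableSet N) {c : ℝ≥0∞} (hc : c < 1) (j0 : ℕ)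
    (h : ∀ n, j0 ≤ n → ∀ᵐ w ∂Measure.infinitePi μ, cond μ N n w ≤ c) :
    Measure.infinitePi μ N = 0 := by
  set P := Measure.infinitePi μ
  have key : ∀ A ∈ measurableCylinders X, P (N ∩ A) ≤ c * P A := by
    intro A hA
    obtain ⟨s, S, hS, rfl⟩ := (mem_measurableCylinders _).1 hA
    obtain ⟨n, hn⟩ := s.exists_nat_subset_range
    rw [inter_eq μ hN (n + j0) (hS.cylinder s) fun w w' => ?_]
    · rw [← setLIntegral_const]
      exact lintegral_mono_ae (ae_restrict_of_ae (h _ (Nat.le_add_left _ _)))
    · have : s.restrict (merge (n + j0) w w') = s.restrict w := by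
        funext i
        have := Finset.mem_range.1 (hn i.2)
        simp [merge, Finset.restrict, show i.1 < n + j0 by omega]
      rw [mem_cylinder, mem_cylinder, this]
  have h2 : P N ≤ c * P N := by
    refine ENNReal.le_of_forall_pos_le_add fun ε hε _ => ?_
    obtain ⟨A, hA, hε'⟩ := exists_measure_symmDiff_lt_of_generateFrom_isSetRing (μ := P)
      isSetRing_measurableCylinders ⟨{univ}, countable_singleton _,
        singleton_subset_iff.2 (univ_mem_measurableCylinders X), by simp⟩
      generateFrom_measurableCylinders.symm hN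
      (ENNReal.half_pos (ENNReal.coe_pos.2 hε).ne')
    have h3 : P N ≤ P (N ∩ A) + P (A ∆ N) := by
      refine (measure_mono fun w hw => ?_).trans (measure_union_le _ _)
      by_cases hw' : w ∈ A
      · exact Or.inl ⟨hw, hw'⟩
      · exact Or.inr (Or.inr ⟨hw, hw'⟩)
    have h4 : P A ≤ P N + P (A ∆ N) := by
      refine (measure_mono fun w hw => ?_).trans (measure_union_le _ _)
      by_cases hw' : w ∈ N
      · exact Or.inl hw'
      · exact Or.inr (Or.inl ⟨hw, hw'⟩)
    calc P N ≤ c * (P N + P (A ∆ N)) + P (A ∆ N) := by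
          refine h3.trans ?_
          gcongr
          exact (key A hA).trans (by gcongr)
      _ ≤ c * P N + 1 * (ε / 2) + ε / 2 := by
          rw [mul_add]
          gcongr
      _ = c * P N + ε := by rw [one_mul, add_assoc, ENNReal.add_halves]
  by_contra h0
  have := ENNReal.mul_lt_mul_left h0 (measure_ne_top P N) hc
  rw [one_mul] at this
  exact absurd h2 (not_le.2 this)

theorem zero_of_rec {τ p : ℕ → ℝ} (h0 : ∀ j, 0 ≤ τ j) (h1 : ∀ j, τ j ≤ 1) (hp : ∀ j, 0 ≤ p j)
    (hs : ¬ Summable p) {j0 : ℕ} (h : ∀ j, j0 ≤ j → τ j ≤ τ (j + 1) * (1 - p j)) {n : ℕ}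
    (hn : j0 ≤ n) : τ n = 0 := by
  by_contra hne
  have hpos : 0 < τ n := (h0 n).lt_of_ne' hne
  have h2 : ∀ m, τ n + τ n * ∑ i ∈ Finset.range m, p (i + n) ≤ τ (m + n) := by
    intro m
    induction m with
    | zero => simp
    | succ m ih =>
      have h3 := h (m + n) (by omega)
      have h4 : 0 ≤ ∑ i ∈ Finset.range m, p (i + n) := Finset.sum_nonneg fun i _ => hp _
      have h5 : τ n ≤ τ (m + n + 1) := by
        nlinarith [mul_nonneg hpos.le h4, mul_nonneg (h0 (m + n + 1)) (hp (m + n))]
      rw [Finset.sum_range_succ, show m + 1 + n = m + n + 1 by omega]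
      nlinarith [mul_le_mul_of_nonneg_right h5 (hp (m + n))]
  refine hs ((summable_nat_add_iff n).1 (summable_of_sum_range_le (c := 1 / τ n)
    (fun i => hp _) fun m => ?_))
  rw [le_div_iff₀ hpos]
  nlinarith [h2 m, h1 (m + n)]

/-- Stagewise repairs. At every stage `j`, whatever the admissible past, with probability at least
`p j` the conditional probability of `N` drops below `c < 1`; if `p` is not summable, `N` is
null. -/
theorem null_of_stages (hN : MeasurableSet N) {c : ℝ≥0∞} (hc : c < 1) {p : ℕ → ℝ}
    (hp : ∀ j, 0 ≤ p j) (hs : ¬ Summable p) (D : ∀ j, Set (X j))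
    (hD : ∀ j, ∀ᵐ x ∂μ j, x ∈ D j) (j0 : ℕ)
    (h : ∀ j, j0 ≤ j → ∀ w : ∀ i, X i, (∀ i, i < j → w i ∈ D i) →
      ENNReal.ofReal (p j) ≤ μ j {x | cond μ N (j + 1) (update w j x) ≤ c}) :
    Measure.infinitePi μ N = 0 := by
  let t : ℕ → ℝ≥0∞ := fun j => ⨆ (w : ∀ i, X i) (_ : ∀ i, i < j → w i ∈ D i), cond μ N j w - c
  have t1 : ∀ j, t j ≤ 1 := fun j =>
    iSup₂_le fun w _ => tsub_le_self.trans (cond_le_one μ j w)
  have tt : ∀ j, t j ≠ ∞ := fun j => ne_top_of_le_ne_top ENNReal.one_ne_top (t1 j)
  have t2 : ∀ j (w : ∀ i, X i), (∀ i, i < j → w i ∈ D i) → cond μ N j w ≤ c + t j := by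
    intro j w hw
    rw [← tsub_le_iff_left]
    exact le_iSup₂_of_le (f := fun (w : ∀ i, X i) (_ : ∀ i, i < j → w i ∈ D i) =>
      cond μ N j w - c) w hw le_rfl
  have t3 : ∀ j, j0 ≤ j → t j ≤ t (j + 1) * (1 - ENNReal.ofReal (p j)) := by
    intro j hj
    refine iSup₂_le fun w hw => ?_
    have hG : MeasurableSet {x | cond μ N (j + 1) (update w j x) ≤ c} :=
      measurableSet_le ((measurable_cond μ hN _).comp (measurable_update w)) measurable_const
    rw [tsub_le_iff_left, cond_succ μ hN]
    calc ∫⁻ x, cond μ N (j + 1) (update w j x) ∂μ j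
        ≤ ∫⁻ x, c + indicator {x | cond μ N (j + 1) (update w j x) ≤ c}ᶜ (fun _ => t (j + 1)) x
            ∂μ j := by
          refine lintegral_mono_ae ((hD j).mono fun x hx => ?_)
          by_cases hx' : x ∈ {x | cond μ N (j + 1) (update w j x) ≤ c}ᶜ
          · rw [indicator_of_mem hx']
            refine t2 _ _ fun i hi => ?_
            rcases (Nat.lt_succ_iff.1 hi).lt_or_eq with h' | rfl
            · rw [update_of_ne h'.ne]; exact hw i h'
            · rw [update_self]; exact hx
          · rw [indicator_of_notMem hx', add_zero]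
            exact not_not.1 hx'
      _ = c + t (j + 1) * μ j {x | cond μ N (j + 1) (update w j x) ≤ c}ᶜ := by
          rw [lintegral_add_left measurable_const, lintegral_const, measure_univ, mul_one,
            lintegral_indicator_const hG.compl]
      _ ≤ c + t (j + 1) * (1 - ENNReal.ofReal (p j)) := by
          rw [prob_compl_eq_one_sub hG]
          gcongr
          exact h j hj w hw
  refine null_of_cond_le μ hN hc j0 fun n hn => ?_
  have t4 : (t n).toReal = 0 := by
    refine zero_of_rec (τ := fun j => (t j).toReal) (fun j => ENNReal.toReal_nonneg)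
      (fun j => ENNReal.toReal_le_of_le_ofReal zero_le_one (by simpa using t1 j)) hp hs
      (fun j hj => ?_) hn
    by_cases hp1 : p j ≤ 1
    · have := ENNReal.toReal_mono (ENNReal.mul_ne_top (tt _) (by simp)) (t3 j hj)
      rwa [ENNReal.toReal_mul, ENNReal.toReal_sub_of_le (by simpa using hp1) ENNReal.one_ne_top,
        ENNReal.toReal_one, ENNReal.toReal_ofReal (hp j)] at this
    · have hall : ∀ᵐ w ∂Measure.infinitePi μ, ∀ i, w i ∈ D i :=
        ae_all_iff.2 fun i => (measurePreserving_eval_infinitePi μ i).quasiMeasurePreserving.ae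
          (hD i)
      obtain ⟨w, hw⟩ := hall.exists
      have := (h j hj w fun i _ => hw i).trans prob_le_one
      exact absurd (by simpa using this) hp1
  have t5 : t n = 0 := by
    rwa [ENNReal.toReal_eq_zero_iff, or_iff_left (tt n)] at t4
  have hall : ∀ᵐ w ∂Measure.infinitePi μ, ∀ i, w i ∈ D i :=
    ae_all_iff.2 fun i => (measurePreserving_eval_infinitePi μ i).quasiMeasurePreserving.ae (hD i)
  refine hall.mono fun w hw => ?_
  simpa [t5] using t2 n w fun i _ => hw i

/-- The same on an event `E` that depends on the first `j0` coordinates only. -/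
theorem null_of_stages_on (hN : MeasurableSet N) {c : ℝ≥0∞} (hc : c < 1) {p : ℕ → ℝ}
    (hp : ∀ j, 0 ≤ p j) (hp1 : ∀ j, p j ≤ 1) (hs : ¬ Summable p) (D : ∀ j, Set (X j))
    (hD : ∀ j, ∀ᵐ x ∂μ j, x ∈ D j) (j0 : ℕ) {E : Set (∀ j, X j)} (hE : MeasurableSet E)
    (hE' : ∀ w w' : ∀ j, X j, (∀ i, i < j0 → w i = w' i) → w ∈ E → w' ∈ E)
    (h : ∀ j, j0 ≤ j → ∀ w ∈ E, (∀ i, i < j → w i ∈ D i) →
      ENNReal.ofReal (p j) ≤ μ j {x | cond μ N (j + 1) (update w j x) ≤ c}) :
    Measure.infinitePi μ (N ∩ E) = 0 := by
  refine null_of_stages μ (hN.inter hE) hc hp hs D hD j0 fun j hj w hw => ?_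
  by_cases hwE : w ∈ E
  · refine (h j hj w hwE hw).trans (measure_mono fun x hx => ?_)
    exact le_trans (measure_mono fun w' hw' => hw'.1) hx
  · have : {x | cond μ (N ∩ E) (j + 1) (update w j x) ≤ c} = univ := by
      refine eq_univ_of_forall fun x => ?_
      have : {w' | merge (j + 1) (update w j x) w' ∈ N ∩ E} = ∅ := by
        refine eq_empty_of_forall_notMem fun w' hw' => hwE (hE' _ _ (fun i hi => ?_) hw'.2)
        have h1 : i < j + 1 := by omega
        have h2 : i ≠ j := by omega
        simp [merge, h1, h2]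
      show cond μ (N ∩ E) (j + 1) (update w j x) ≤ c
      unfold cond
      rw [this, measure_empty]
      exact zero_le
    rw [this, measure_univ]
    simpa using hp1 j

end Pool.Agent.Lib.MP_5a3ebe_gt.PvZero
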