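import Pool.Agent.Lib.MP_5a3ebe_gt.PvMeas
import Pool.Agent.Lib.MP_5a3ebe_gt.PvUnif
import Pool.Agent.Lib.MP_5a3ebe_gt.PvZero

/-!
Prevalence of inscribed squares: from one stage to the whole random series.
-/

set_option linter.unusedVariables false

namespace Pool.Agent.Lib.MP_5a3ebe_gt.Pv

open Set Complex MeasureTheory unitInterval Gen Filter

/-- One stage repairs an approximate square with probability at least `c * η ^ 99`. -/
def Stage : Prop :=
  ∀ γ : Circle → ℂ, Continuous γ → ∀ L : ℝ, 1 ≤ L → ∃ c p η0 : ℝ, 0 < c ∧ 0 < p ∧ 0 < η0 ∧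
    ∀ η R0 : ℝ, 0 < η → η ≤ η0 → 0 < R0 → ∀ N : ℕ, (∀ s, ‖γ s‖ / (R0 / η) + 2 ≤ N) →
    (∀ F' : ℂ → ℂ, BiLip γ (2 * L) F' → ApSq γ (η ^ 102 * R0) (R0 / η ^ 102) F') →
    ∀ F : ℂ → ℂ, Continuous F → BiLip γ L F →
    ∀ (T : Type) [TopologicalSpace T] [SecondCountableTopology T] [MeasurableSpace T]
      [BorelSpace T] (P : Measure T) [IsProbabilityMeasure P] (h : T → ℂ → ℂ),
      (Continuous fun q : T × ℂ => h q.1 q.2) → (∀ t z, ‖h t z‖ ≤ η ^ 300 * R0) →
      ENNReal.ofReal (c * η ^ 99) ≤ law N {ω |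
        P {t | ¬ Sq γ fun z => F z + fld η R0 ω z + h t z} ≤ ENNReal.ofReal (1 - p)}

lemma exists_eta {K ε : ℝ} (hK : 0 < K) (hε : 0 < ε) :
    ∃ η : ℕ → ℝ, (∀ j, 0 < η j) ∧ (∀ j, η j ≤ 1) ∧ Tendsto η atTop (nhds 0) ∧
      Summable (fun j => K * η j ^ 100) ∧ ∑' j, K * η j ^ 100 ≤ ε ∧
      ∀ c : ℝ, 0 < c → ¬ Summable fun j => c * η j ^ 99 := by
  let u : ℕ → ℝ := fun j => ((j : ℝ) + 1) ^ (-(1 / 99) : ℝ)
  have h0 : ∀ j : ℕ, (0 : ℝ) < (j : ℝ) + 1 := fun j => by positivity
  have u0 : ∀ j, 0 < u j := fun j => Real.rpow_pos_of_pos (h0 j) _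
  have u1 : ∀ j, u j ≤ 1 := fun j =>
    Real.rpow_le_one_of_one_le_of_nonpos (by linarith [Nat.cast_nonneg (α := ℝ) j]) (by norm_num)
  have u2 : Tendsto u atTop (nhds 0) :=
    (tendsto_rpow_neg_atTop (by norm_num : (0 : ℝ) < 1 / 99)).comp
      (tendsto_atTop_add_const_right _ 1 tendsto_natCast_atTop_atTop)
  have u3 : Summable fun j => u j ^ 100 := by
    have h1 := (summable_nat_add_iff 1).2
      (Real.summable_nat_rpow.2 (by norm_num : (-(100 / 99) : ℝ) < -1))
    refine h1.congr fun j => ?_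
    simp only [u]
    rw [← Real.rpow_natCast, ← Real.rpow_mul (h0 j).le]
    push_cast
    norm_num
  have u4 : ∀ j, u j ^ 99 = (((j + 1 : ℕ) : ℝ))⁻¹ := fun j => by
    simp only [u]
    rw [← Real.rpow_natCast, ← Real.rpow_mul (h0 j).le, ← Real.rpow_neg_one]
    push_cast
    norm_num
  set S := ∑' j, u j ^ 100 with hS
  have hS0 : 0 ≤ S := tsum_nonneg fun j => (pow_pos (u0 j) _).le
  obtain ⟨θ, t0, t1, t2⟩ : ∃ θ : ℝ, 0 < θ ∧ θ ≤ 1 ∧ θ * (K * (S + 1)) ≤ ε :=
    ⟨min 1 (ε / (K * (S + 1))), by positivity, min_le_left _ _,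
      (le_div_iff₀ (by positivity)).1 (min_le_right _ _)⟩
  have e : (fun j => K * (θ * u j) ^ 100) = fun j => K * θ ^ 100 * u j ^ 100 := by
    funext j
    ring
  refine ⟨fun j => θ * u j, fun j => mul_pos t0 (u0 j), fun j => mul_le_one₀ t1 (u0 j).le (u1 j),
    by simpa using u2.const_mul θ, ?_, ?_, fun c hc h => ?_⟩
  · rw [e]
    exact u3.mul_left _
  · rw [e, tsum_mul_left, ← hS]
    have : θ ^ 100 ≤ θ := pow_le_of_le_one t0.le t1 (by norm_num)
    calc K * θ ^ 100 * S ≤ K * θ * (S + 1) := by gcongr; linarith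
      _ ≤ ε := by linarith
  · have h1 : c * θ ^ 99 ≠ 0 := by positivity
    have h2 : Summable fun j => c * θ ^ 99 * (((j + 1 : ℕ) : ℝ))⁻¹ :=
      h.congr fun j => by rw [mul_pow, u4, mul_assoc]
    exact Real.not_summable_natCast_inv ((summable_nat_add_iff 1).1
      ((summable_mul_left_iff h1).1 h2))

lemma exists_amp {b θ : ℕ → ℝ} (hb : ∀ j, 0 < b j) (hθ : ∀ j, 0 < θ j) (hθ' : ∀ j, θ j ≤ 1 / 2) :
    ∃ a : ℕ → ℝ, (∀ j, 0 < a j) ∧ (∀ j, a j ≤ b j) ∧ Summable a ∧
      ∀ j, ∑' i, a (i + (j + 1)) ≤ 2 * (θ j * a j) := by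
  let a : ℕ → ℝ := fun n => Nat.rec (b 0) (fun j x => min (b (j + 1)) (θ j * x)) n
  have a0 : ∀ j, 0 < a j := fun j => by
    induction j with
    | zero => exact hb 0
    | succ j ih => exact lt_min (hb _) (mul_pos (hθ j) ih)
  have a1 : ∀ j, a (j + 1) ≤ θ j * a j := fun j => min_le_right _ _
  have a2 : ∀ k i, a (i + k) ≤ a k * (1 / 2) ^ i := fun k i => by
    induction i with
    | zero => simp
    | succ i ih =>
      rw [show i + 1 + k = i + k + 1 by omega, pow_succ]
      nlinarith [a1 (i + k), hθ' (i + k), a0 (i + k)]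
  have a3 : ∀ k, Summable fun i => a (i + k) := fun k =>
    Summable.of_nonneg_of_le (fun i => (a0 _).le) (a2 k) (summable_geometric_two.mul_left _)
  refine ⟨a, a0, fun j => ?_, a3 0, fun j => ?_⟩
  · cases j with
    | zero => exact le_rfl
    | succ j => exact min_le_left _ _
  · refine ((a3 (j + 1)).tsum_le_tsum (a2 (j + 1)) (summable_geometric_two.mul_left _)).trans ?_
    rw [tsum_mul_left, tsum_geometric_two]
    linarith [a1 j]

section series

variable {η R : ℕ → ℝ} {N : ℕ → ℕ}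

/-- the stages from `k` on -/
noncomputable def Tl (η R : ℕ → ℝ) {N : ℕ → ℕ} (k : ℕ) (w : ∀ j, Om (N j)) (z : ℂ) : ℂ :=
  ∑' i, fld (η (i + k)) (R (i + k)) (w (i + k)) z

/-- the stages before `k` -/
noncomputable def Hd (η R : ℕ → ℝ) {N : ℕ → ℕ} (k : ℕ) (w : ∀ j, Om (N j)) (z : ℂ) : ℂ :=
  ∑ i ∈ Finset.range k, fld (η i) (R i) (w i) z

variable (h0 : ∀ j, 0 < η j) (h1 : ∀ j, η j ≤ 1) (hR : ∀ j, 0 < R j)
  (hs : Summable fun j => R j / η j)

include h0 h1 hR hs

lemma summable_fld (k : ℕ) (w : ∀ j, Om (N j)) (z : ℂ) :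
    Summable fun i => fld (η (i + k)) (R (i + k)) (w (i + k)) z :=
  Summable.of_norm_bounded (((summable_nat_add_iff k).2 hs).mul_left 26)
    fun i => norm_fld_le (h0 _) (h1 _) (hR _) _ z

lemma norm_Tl_le (k : ℕ) (w : ∀ j, Om (N j)) (z : ℂ) :
    ‖Tl η R k w z‖ ≤ 26 * ∑' i, R (i + k) / η (i + k) :=
  tsum_of_norm_bounded (((summable_nat_add_iff k).2 hs).hasSum.mul_left 26)
    fun i => norm_fld_le (h0 _) (h1 _) (hR _) _ z

lemma continuous_Tl (k : ℕ) : Continuous fun q : (∀ j, Om (N j)) × ℂ => Tl η R k q.1 q.2 := by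
  refine continuous_tsum (fun i => ?_) (((summable_nat_add_iff k).2 hs).mul_left 26)
    fun i q => norm_fld_le (h0 _) (h1 _) (hR _) _ _
  have h2 : Continuous fun q : (∀ j, Om (N j)) × ℂ => (q.1 (i + k), q.2) :=
    ((continuous_apply (i + k)).comp continuous_fst).prodMk continuous_snd
  have h3 := (continuous_fld (η (i + k)) (R (i + k)) (N (i + k))).comp h2
  exact h3

lemma Hd_add_Tl (k : ℕ) (w : ∀ j, Om (N j)) (z : ℂ) :
    Hd η R k w z + Tl η R k w z = Tl η R 0 w z :=
  (summable_fld h0 h1 hR hs 0 w z).sum_add_tsum_nat_add k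

variable {K : ℝ} (hK : ∀ j (ω : Om (N j)), Lip (K * η j ^ 100) (fld (η j) (R j) ω))
  (hs' : Summable fun j => K * η j ^ 100)

include hK hs'

lemma Tl_lip (k : ℕ) (w : ∀ j, Om (N j)) : Lip (∑' i, K * η (i + k) ^ 100) (Tl η R k w) := by
  intro x y
  rw [Tl, Tl, ← (summable_fld h0 h1 hR hs k w x).tsum_sub (summable_fld h0 h1 hR hs k w y)]
  exact tsum_of_norm_bounded (((summable_nat_add_iff k).2 hs').hasSum.mul_right _)
    fun i => hK _ _ x y

lemma Tl_contDiff (hK0 : 0 ≤ K) (w : ∀ j, Om (N j)) : ContDiff ℝ 1 (Tl η R 0 w) := by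
  refine contDiff_tsum (N := 1) (v := fun k i => 26 * (R i / η i) + K * η i ^ 100)
    (fun i => (fld_smooth _ _ _).of_le (by simp)) (fun k _ => (hs.mul_left 26).add hs')
    fun k i x hk => ?_
  have a1 : 0 ≤ K * η i ^ 100 := by have := h0 i; positivity
  have a2 : 0 ≤ 26 * (R i / η i) := by have := h0 i; have := hR i; positivity
  have hk' : k ≤ 1 := by exact_mod_cast hk
  interval_cases k
  · rw [norm_iteratedFDeriv_zero]
    exact (norm_fld_le (h0 _) (h1 _) (hR _) _ _).trans (le_add_of_nonneg_right a1)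
  · rw [← norm_iteratedFDeriv_fderiv (n := 0), norm_iteratedFDeriv_zero]
    exact (norm_fderiv_le_of_lipschitz ℝ (Lip.lipschitzWith (r := ⟨_, a1⟩) (hK i (w i)))).trans
      (le_add_of_nonneg_left a2)

end series

lemma BiLip.mono {γ : Circle → ℂ} {L L' : ℝ} {F : ℂ → ℂ} (h : BiLip γ L F) (hL : L ≤ L') :
    BiLip γ L' F := fun s t =>
  ⟨(h s t).1.trans (by gcongr), (h s t).2.trans (by gcongr)⟩

theorem exists_field (stage : Stage) (γ : Circle → ℂ) (hc : Continuous γ)
    (hi : Function.Injective γ) {ε : ℝ} (hε : 0 < ε) :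
    ∃ (N : ℕ → ℕ) (G : (∀ j, Om (N j)) → ℂ → ℂ),
      (Continuous fun q : (∀ j, Om (N j)) × ℂ => G q.1 q.2) ∧ (∀ w, ContDiff ℝ 1 (G w)) ∧
      (∀ w, Lip ε (G w)) ∧ (∀ w z, ‖G w z‖ ≤ ε) ∧ ∀ (f : ℂ → ℂ) (Kf : ℝ), 0 ≤ Kf → Lip Kf f →
      ∀ M : ℝ, 0 < M → Measure.infinitePi (fun j => law (N j))
        {w | (∀ s t, ‖γ s - γ t‖ ≤ M * ‖f (γ s) + G w (γ s) - (f (γ t) + G w (γ t))‖) ∧
          ¬ Sq γ fun z => f z + G w z} = 0 := by
  obtain ⟨K, hK1, hK⟩ := exists_lip
  obtain ⟨η, h0, h1, hlim, hs', hsum, hns⟩ := exists_eta (K := K) (by linarith) hε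
  have hd := fun j : ℕ => unif_apsq γ hc hi (L := 2 * ((j : ℝ) + 1)) (K := 1 / η j ^ 204)
    (by positivity) (by have := h0 j; positivity)
  choose d d0 hd using hd
  obtain ⟨a, a0, a1, a2, a3⟩ := exists_amp (b := fun j => min (d j) (ε / 52))
    (θ := fun j => η j ^ 301 / 52) (fun j => lt_min (d0 j) (by positivity))
    (fun j => by have := h0 j; positivity)
    (fun j => by linarith [pow_le_one₀ (h0 j).le (h1 j) (n := 301)])
  obtain ⟨B, hB0, hB⟩ := (isCompact_range hc).isBounded.exists_pos_norm_le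
  let R : ℕ → ℝ := fun j => a j * η j
  have hR : ∀ j, 0 < R j := fun j => mul_pos (a0 j) (h0 j)
  have hRa : ∀ j, R j / η j = a j := fun j => mul_div_cancel_right₀ _ (h0 j).ne'
  have hs : Summable fun j => R j / η j := by simpa only [hRa] using a2
  let N : ℕ → ℕ := fun j => ⌈B / a j + 2⌉₊
  have hKl : ∀ j (ω : Om (N j)), Lip (K * η j ^ 100) (fld (η j) (R j) ω) := fun j =>
    (hK (η j) (R j) (h0 j) (hR j) (N j)).2.2.2.2
  have hG := continuous_Tl (N := N) h0 h1 hR hs 0
  have hGl : ∀ w, Lip ε (Tl η R (N := N) 0 w) := fun w =>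
    (Tl_lip h0 h1 hR hs hKl hs' 0 w).mono hsum
  refine ⟨N, Tl η R 0, hG, Tl_contDiff h0 h1 hR hs hKl hs' (by linarith), hGl, fun w z => ?_,
    fun f Kf hKf hf M hM => ?_⟩
  · refine (norm_Tl_le h0 h1 hR hs 0 w z).trans ?_
    simp only [hRa, add_zero]
    rw [a2.tsum_eq_zero_add]
    have b1 := a3 0
    have b2 := (a1 0).trans (min_le_right _ _)
    have b3 : η 0 ^ 301 / 52 * a 0 ≤ 1 / 52 * a 0 := by
      have := pow_le_one₀ (h0 0).le (h1 0) (n := 301)
      have := a0 0
      gcongr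
    simp only [zero_add] at b1
    linarith
  have hfc : Continuous f := hf.continuous hKf
  obtain ⟨L, L1, L2, L3⟩ : ∃ L : ℝ, 1 ≤ L ∧ 2 * M ≤ L ∧ Kf + 2 * ε ≤ L :=
    ⟨1 + 2 * M + (Kf + 2 * ε), by linarith, by linarith, by linarith⟩
  obtain ⟨c, p, η0, hc0, hp, hη0, st⟩ := stage γ hc L L1
  have htail : Tendsto (fun k => ∑' i, K * η (i + k) ^ 100) atTop (nhds 0) :=
    tendsto_sum_nat_add fun j => K * η j ^ 100
  have hcl : Tendsto (fun j => c * η j ^ 99) atTop (nhds 0) := by
    simpa using (hlim.pow 99).const_mul c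
  obtain ⟨j0, hj0⟩ := eventually_atTop.1
    ((htail.eventually (eventually_le_nhds (show 0 < min (1 / (8 * M)) ε by positivity))).and
      ((hlim.eventually (eventually_le_nhds hη0)).and
        ((tendsto_natCast_atTop_atTop (R := ℝ)).eventually_ge_atTop L)))
  have hTl : ∀ j, j0 ≤ j → ∀ w, Lip (min (1 / (8 * M)) ε) (Tl η R (N := N) j w) := fun j hj w =>
    (Tl_lip h0 h1 hR hs hKl hs' j w).mono (hj0 j hj).1
  have hHd : ∀ j (w : ∀ i, Om (N i)) z, Hd η R j w z = Tl η R 0 w z - Tl η R j w z :=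
    fun j w z => eq_sub_of_add_eq (Hd_add_Tl h0 h1 hR hs j w z)
  have hHc : ∀ j, Continuous fun q : (∀ i, Om (N i)) × ℂ => Hd η R j q.1 q.2 := fun j => by
    simp only [hHd]
    exact hG.sub (continuous_Tl h0 h1 hR hs j)
  let Nn : Set (∀ j, Om (N j)) := {w | Sq γ fun z => f z + Tl η R 0 w z}ᶜ
  have hNn : MeasurableSet Nn := by
    refine (measurableSet_Sq γ (fun (w : ∀ j, Om (N j)) z => f z + Tl η R 0 w z) ?_).compl
    have h2 : Continuous fun q : (∀ i, Om (N i)) × Circle => (q.1, γ q.2) := by fun_prop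
    have h3 := hG.comp h2
    exact (hfc.comp (hc.comp continuous_snd)).add h3
  let E : Set (∀ j, Om (N j)) := {w | ∀ s t, 7 / 8 * ‖γ s - γ t‖ ≤
    M * ‖f (γ s) + Hd η R j0 w (γ s) - (f (γ t) + Hd η R j0 w (γ t))‖}
  have hE : MeasurableSet E := by
    refine IsClosed.measurableSet ?_
    simp only [E, ofPred_forall]
    refine isClosed_iInter fun s => isClosed_iInter fun t => isClosed_le continuous_const ?_
    have h2 : ∀ z, Continuous fun w : ∀ i, Om (N i) => Hd η R j0 w z := fun z => by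
      have h3 := (hHc j0).comp (Continuous.prodMk_left z)
      exact h3
    exact continuous_const.mul
      ((continuous_const.add (h2 _)).sub (continuous_const.add (h2 _))).norm
  have hM8 : ∀ x : ℝ, 0 ≤ x → M * (min (1 / (8 * M)) ε * x) ≤ x / 8 := fun x hx => by
    calc M * (min (1 / (8 * M)) ε * x) ≤ M * (1 / (8 * M) * x) := by
          gcongr
          exact min_le_left _ _
      _ = x / 8 := by field_simp
  have key := PvZero.null_of_stages_on (fun j => law (N j)) hNn (c := ENNReal.ofReal (1 - p))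
    (ENNReal.ofReal_lt_one.2 (by linarith)) (p := fun j => min (c * η j ^ 99) 1)
    (fun j => le_min (by have := h0 j; positivity) zero_le_one) (fun j => min_le_right _ _)
    (fun h => hns c hc0 (h.congr_cofinite (by
      rw [Nat.cofinite_eq_atTop]
      exact (hcl.eventually (eventually_le_nhds zero_lt_one)).mono fun j hj => min_eq_left hj)))
    (fun _ => univ) (fun _ => Eventually.of_forall fun _ => mem_univ _) j0 hE
    (fun w w' hw hwE s t => by
      have : Hd η R j0 w' = Hd η R j0 w := by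
        funext z
        exact Finset.sum_congr rfl fun i hi => by rw [hw i (Finset.mem_range.1 hi)]
      rw [this]
      exact hwE s t)
    (fun j hj w hwE _ => by
      have hF : BiLip γ L fun z => f z + Hd η R j w z := fun s t => by
        have b1 := hTl j0 le_rfl w (γ s) (γ t)
        have b2 := hTl j hj w (γ s) (γ t)
        have b3 := hwE s t
        have b4 := hM8 _ (norm_nonneg (γ s - γ t))
        have hn := norm_nonneg (γ s - γ t)
        constructor
        · set X := f (γ s) + Hd η R j w (γ s) - (f (γ t) + Hd η R j w (γ t)) with hX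
          have e : f (γ s) + Hd η R j0 w (γ s) - (f (γ t) + Hd η R j0 w (γ t)) =
              X + (Tl η R j w (γ s) - Tl η R j w (γ t)) -
                (Tl η R j0 w (γ s) - Tl η R j0 w (γ t)) := by
            simp only [hX, hHd]
            ring
          rw [e] at b3
          have b5 := (norm_sub_le _ (Tl η R j0 w (γ s) - Tl η R j0 w (γ t))).trans
            (add_le_add ((norm_add_le X _).trans (add_le_add le_rfl b2)) b1)
          have b6 := mul_le_mul_of_nonneg_left b5 hM.le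
          have b7 := mul_le_mul_of_nonneg_right L2 (norm_nonneg X)
          nlinarith [norm_nonneg X]
        · have e : f (γ s) + Hd η R j w (γ s) - (f (γ t) + Hd η R j w (γ t)) =
              (f (γ s) - f (γ t)) + (Tl η R 0 w (γ s) - Tl η R 0 w (γ t)) -
                (Tl η R j w (γ s) - Tl η R j w (γ t)) := by
            simp only [hHd]
            ring
          have b5 := (norm_sub_le _ _).trans (add_le_add ((norm_add_le _ _).trans
            (add_le_add (hf (γ s) (γ t)) (hGl w (γ s) (γ t)))) b2)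
          rw [← e] at b5
          have b6 := mul_le_mul_of_nonneg_right (min_le_right (1 / (8 * M)) ε) hn
          have b7 := mul_le_mul_of_nonneg_right L3 hn
          show ‖f (γ s) + Hd η R j w (γ s) - (f (γ t) + Hd η R j w (γ t))‖ ≤ _
          linarith
      have hη := h0 j
      have hFc : Continuous fun z => f z + Hd η R j w z := by
        have h3 := (hHc j).comp (Continuous.prodMk_right w)
        exact hfc.add h3
      refine le_trans (ENNReal.ofReal_le_ofReal (min_le_left _ _))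
        ((st (η j) (R j) hη (hj0 j hj).2.1 (hR j) (N j) (fun s => ?_) (fun F' hF' => ?_) _
          hFc hF (∀ i, Om (N i))
          (Measure.infinitePi fun i => law (N i)) (Tl η R (j + 1))
          (continuous_Tl h0 h1 hR hs (j + 1)) fun t z => ?_).trans_eq ?_)
      · rw [hRa]
        refine le_trans ?_ (Nat.le_ceil _)
        have := hB _ ⟨s, rfl⟩
        have := a0 j
        gcongr
      · have b1 : η j ^ 102 * R j ≤ d j := by
          have b2 : η j ^ 102 * R j = η j ^ 103 * a j := by simp only [R]; ring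
          rw [b2]
          exact (mul_le_of_le_one_left (a0 j).le (pow_le_one₀ hη.le (h1 j))).trans
            ((a1 j).trans (min_le_left _ _))
        have b2 := hd j _ (by have := hR j; positivity) b1 F'
          (hF'.mono (by linarith [(hj0 j hj).2.2]))
        rwa [show 1 / η j ^ 204 * (η j ^ 102 * R j) = R j / η j ^ 102 by field_simp] at b2
      · refine (norm_Tl_le h0 h1 hR hs (j + 1) t z).trans ?_
        simp only [hRa]
        have b1 := a3 j
        have b2 : η j ^ 300 * R j = η j ^ 301 * a j := by simp only [R]; ring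
        linarith
      · congr 1
        ext x
        have e : ∀ w' z, f z + Tl η R 0 (PvZero.merge (j + 1) (Function.update w j x) w') z =
            f z + Hd η R j w z + fld (η j) (R j) x z + Tl η R (j + 1) w' z := fun w' z => by
          rw [← Hd_add_Tl h0 h1 hR hs (j + 1), Hd, Finset.sum_range_succ]
          have e1 : ∑ i ∈ Finset.range j,
              fld (η i) (R i) (PvZero.merge (j + 1) (Function.update w j x) w' i) z =
                Hd η R j w z := Finset.sum_congr rfl fun i hi => by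
            have := Finset.mem_range.1 hi
            rw [PvZero.merge, if_pos (by omega), Function.update_of_ne this.ne]
          have e2 : PvZero.merge (j + 1) (Function.update w j x) w' j = x := by
            rw [PvZero.merge, if_pos (by omega), Function.update_self]
          have e3 : Tl η R (j + 1) (PvZero.merge (j + 1) (Function.update w j x) w') z =
              Tl η R (j + 1) w' z := tsum_congr fun i => by
            rw [PvZero.merge, if_neg (by omega)]
          rw [e1, e2, e3]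
          ring
        simp only [mem_ofPred_eq, PvZero.cond, Nn, mem_compl_iff, e])
  refine measure_mono_null (fun w hw => ?_) key
  refine ⟨hw.2, fun s t => ?_⟩
  have b1 := hTl j0 le_rfl w (γ s) (γ t)
  have b3 := hw.1 s t
  have b4 := hM8 _ (norm_nonneg (γ s - γ t))
  set X := f (γ s) + Hd η R j0 w (γ s) - (f (γ t) + Hd η R j0 w (γ t)) with hX
  have e : f (γ s) + Tl η R 0 w (γ s) - (f (γ t) + Tl η R 0 w (γ t)) =
      X + (Tl η R j0 w (γ s) - Tl η R j0 w (γ t)) := by
    simp only [hX, hHd]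
    ring
  rw [e] at b3
  have b6 := mul_le_mul_of_nonneg_left ((norm_add_le X _).trans (add_le_add le_rfl b1)) hM.le
  linarith

/-- The measure on the space of continuous maps. -/
theorem final_of_stage (stage : Stage) (γ : Circle → ℂ) (hc : Continuous γ)
    (hi : Function.Injective γ) (ε : NNReal) (hε : 0 < ε) :
    letI : MeasurableSpace C(ℂ, ℂ) := borel _
    ∃ (μ : Measure C(ℂ, ℂ)) (S : Set C(ℂ, ℂ)), IsProbabilityMeasure μ ∧ IsCompact S ∧ μ Sᶜ = 0 ∧
      (∀ g ∈ S, ContDiff ℝ 1 g ∧ LipschitzWith ε g ∧ ∀ z, ‖g z‖ ≤ ε) ∧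
      ∀ (f : ℂ → ℂ) (K : NNReal), LipschitzWith K f → ∀ᵐ g ∂μ,
        (∃ M : ℝ, ∀ s t, ‖γ s - γ t‖ ≤ M * ‖f (γ s) + g (γ s) - (f (γ t) + g (γ t))‖) →
          Sq γ fun z => f z + g z := by
  let _ : MeasurableSpace C(ℂ, ℂ) := borel _
  have : BorelSpace C(ℂ, ℂ) := ⟨rfl⟩
  obtain ⟨N, G, hG, h1, h2, h3, H⟩ := exists_field stage γ hc hi (ε := ε) hε
  let Φ : (∀ j, Om (N j)) → C(ℂ, ℂ) := fun w => ⟨G w, (h1 w).continuous⟩
  have hΦ : Continuous Φ := ContinuousMap.continuous_of_continuous_uncurry Φ hG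
  have hS := isCompact_range hΦ
  refine ⟨(Measure.infinitePi fun j => law (N j)).map Φ, range Φ,
    Measure.isProbabilityMeasure_map hΦ.measurable.aemeasurable, hS, ?_, ?_, fun f K hf => ?_⟩
  · rw [Measure.map_apply hΦ.measurable hS.isClosed.measurableSet.compl]
    simp
  · rintro _ ⟨w, rfl⟩
    exact ⟨h1 w, (h2 w).lipschitzWith, h3 w⟩
  have hfc := hf.continuous
  have hm : ∀ n : ℕ, MeasurableSet {g : C(ℂ, ℂ) | (∀ s t, ‖γ s - γ t‖ ≤
      ((n : ℝ) + 1) * ‖f (γ s) + g (γ s) - (f (γ t) + g (γ t))‖) → Sq γ fun z => f z + g z} := by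
    intro n
    refine MeasurableSet.imp (IsClosed.measurableSet ?_)
      (measurableSet_Sq γ (fun (g : C(ℂ, ℂ)) z => f z + g z) (by fun_prop))
    simp only [ofPred_forall]
    exact isClosed_iInter fun s => isClosed_iInter fun t =>
      isClosed_le continuous_const (by fun_prop)
  have hae := ae_all_iff.2 fun n : ℕ => (ae_map_iff hΦ.measurable.aemeasurable (hm n)).2 (by
    have := H f K K.2 (Lip.of_lipschitzWith hf) ((n : ℝ) + 1) (by positivity)
    rw [ae_iff]
    simp only [Classical.not_imp]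
    exact this)
  refine hae.mono fun g hg ⟨M, hM⟩ => ?_
  obtain ⟨n, hn⟩ := exists_nat_ge M
  exact hg n fun s t => (hM s t).trans (by gcongr; linarith)

end Pool.Agent.Lib.MP_5a3ebe_gt.Pv
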