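import Pool.Agent.Lib.MP_5a3ebe_gt.PvField

/-!
Prevalence of inscribed squares: measurability of the events.
-/

set_option linter.unusedVariables false

namespace Pool.Agent.Lib.MP_5a3ebe_gt.Pv

open Set Complex MeasureTheory unitInterval Gen

instance borelX (N : ℕ) : BorelSpace (Fin 9 → Cell N → I × I) :=
  haveI : BorelSpace (Cell N → I × I) := inferInstance
  haveI : SecondCountableTopology (Cell N → I × I) := inferInstance
  Pi.borelSpace

instance borelOm (N : ℕ) : BorelSpace (Om N) :=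
  haveI : SecondCountableTopology (Fin 9 → Cell N → I × I) := inferInstance
  haveI : BorelSpace (Fin 9 × Cell N → I × I) := inferInstance
  haveI : BorelSpace ((Fin 9 → Cell N → I × I) × (Fin 9 × Cell N → I × I)) := Prod.borelSpace
  Prod.borelSpace

instance borelAll (N : ℕ → ℕ) : BorelSpace (∀ j, Om (N j)) :=
  haveI : ∀ j, SecondCountableTopology (Om (N j)) := fun _ => inferInstance
  Pi.borelSpace

lemma sq_iff (γ : Circle → ℂ) (H : ℂ → ℂ) : Sq γ H ↔
    ∃ s : Fin 4 → Circle, (Lm fun k => H (γ (s k))) = 0 ∧ H (γ (s 1)) ≠ H (γ (s 0)) := by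
  constructor
  · rintro ⟨z, w, hw, ⟨s0, h0⟩, ⟨s1, h1⟩, ⟨s2, h2⟩, s3, h3⟩
    simp only at h0 h1 h2 h3
    refine ⟨![s0, s1, s2, s3], ?_, ?_⟩
    · simp only [Lm, Prod.mk_eq_zero]
      constructor
      · simp [h0, h1, h2, h3]
        ring
      · simp [h0, h1, h3]
    · simpa [h0, h1] using hw
  · rintro ⟨s, h0, hne⟩
    rw [Lm, Prod.mk_eq_zero] at h0
    obtain ⟨e1, e2⟩ := h0
    refine ⟨H (γ (s 0)), H (γ (s 1)) - H (γ (s 0)), sub_ne_zero.2 hne, ⟨s 0, rfl⟩,
      ⟨s 1, by ring⟩, ⟨s 2, ?_⟩, ⟨s 3, ?_⟩⟩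
    · linear_combination e1 + e2
    · linear_combination e2

/-- a closed condition on four points of the curve projects to a closed set -/
lemma isClosed_exists {X : Type*} [TopologicalSpace X] {p : X → (Fin 4 → Circle) → Prop}
    (h : IsClosed {q : X × (Fin 4 → Circle) | p q.1 q.2}) : IsClosed {x | ∃ s, p x s} := by
  have := isClosedMap_fst_of_compactSpace _ h
  convert this using 1
  ext x
  simp

theorem measurableSet_Sq {X : Type*} [TopologicalSpace X] [MeasurableSpace X]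
    [OpensMeasurableSpace X] (γ : Circle → ℂ) (H : X → ℂ → ℂ)
    (hH : Continuous fun q : X × Circle => H q.1 (γ q.2)) : MeasurableSet {x | Sq γ (H x)} := by
  have hk : ∀ k : Fin 4, Continuous fun q : X × (Fin 4 → Circle) => H q.1 (γ (q.2 k)) := fun k =>
    hH.comp (f := fun q : X × (Fin 4 → Circle) => (q.1, q.2 k)) (by fun_prop)
  have : {x | Sq γ (H x)} = ⋃ n : ℕ, {x | ∃ s : Fin 4 → Circle,
      (Lm fun k => H x (γ (s k))) = 0 ∧
        1 / ((n : ℝ) + 1) ≤ ‖H x (γ (s 1)) - H x (γ (s 0))‖} := by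
    ext x
    simp only [mem_ofPred_eq, mem_iUnion, sq_iff]
    constructor
    · rintro ⟨s, h0, hne⟩
      obtain ⟨n, hn⟩ := exists_nat_one_div_lt (norm_pos_iff.2 (sub_ne_zero.2 hne))
      exact ⟨n, s, h0, hn.le⟩
    · rintro ⟨n, s, h0, hn⟩
      exact ⟨s, h0, sub_ne_zero.1 (norm_pos_iff.1 (lt_of_lt_of_le (by positivity) hn))⟩
  rw [this]
  refine MeasurableSet.iUnion fun n => (isClosed_exists ?_).measurableSet
  exact (isClosed_eq (Lm_continuous.comp (continuous_pi hk)) continuous_const).inter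
    (isClosed_le continuous_const ((hk 1).sub (hk 0)).norm)

end Pool.Agent.Lib.MP_5a3ebe_gt.Pv
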