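import Pool.Agent.Lib.MP_5a3ebe_gt.PvPairB

/-! The summed overlap of plates of one size, weighted by disjoint small sets at their centres. -/

open MeasureTheory Set Complex
open scoped ENNReal

namespace Pool.Agent.Lib.MP_5a3ebe_gt.PvPair

open PvBox

theorem Par.measurableSet_W (q : Par) (R s w : ℝ) (y : ℂ × ℂ) : MeasurableSet (q.W R s w y) := by
  refine IsClosed.measurableSet ?_
  simp only [Par.W, Box, Par.l, X, Y, ofPred_and]
  refine (IsClosed.inter ?_ (IsClosed.inter ?_ (IsClosed.inter ?_ ?_))).inter ?_ <;>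
    exact isClosed_le (by fun_prop) (by fun_prop)

theorem abs_three {a b c r1 r2 r3 : ℝ} (ha : |a| ≤ r1) (hb : |b| ≤ r2) (hc : |c| ≤ r3) :
    |a - b + c| ≤ r1 + r2 + r3 := by
  linarith [abs_add_le (a - b) c, abs_sub a b]

theorem norm_of_ball {z y : ℂ × ℂ} {δ : ℝ} (h : ‖z - y‖ ≤ δ) :
    ‖(z - y).1‖ ≤ δ ∧ ‖(z - y).2‖ ≤ δ :=
  ⟨(norm_fst_le _).trans h, (norm_snd_le _).trans h⟩

theorem mass_le {ι : Type*} (J : Finset ι) (B : ι → Set (ℂ × ℂ)) {v : ℝ} (hv : 0 ≤ v)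
    (hm : ∀ k, MeasurableSet (B k)) (hd : Pairwise (Function.onFun Disjoint B))
    {S : Set (ℂ × ℂ)} (hB : ∀ k ∈ J, B k ⊆ S) (hvol : volume S ≤ ENNReal.ofReal v) :
    ∑ k ∈ J, volume.real (B k) ≤ v := by
  have h1 : ∑ k ∈ J, volume (B k) ≤ ENNReal.ofReal v :=
    (measure_biUnion_finset (fun i _ k _ hik => hd hik) fun k _ => hm k).ge.trans
      ((measure_mono (iUnion₂_subset hB)).trans hvol)
  have h2 : ∀ k ∈ J, volume (B k) ≠ ∞ := fun k hk =>
    ne_top_of_le_ne_top ENNReal.ofReal_ne_top ((measure_mono (hB k hk)).trans hvol)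
  simp only [measureReal_def]
  rw [← ENNReal.toReal_sum h2]
  exact ENNReal.toReal_le_of_le_ofReal hv h1

/-- The centre of a plate that meets a given plate lies in a box. -/
theorem ball_sub {A R s w δ t : ℝ} {q q' : Par} (hq : q.Ok A) (hq' : q'.Ok A) (hsR : s ≤ R)
    (hδ : δ ≤ s) (ht : |Y q.e q'.e| * R ≤ t) {y y' x z : ℂ × ℂ} (hx : x ∈ q.W R s w y)
    (hx' : x ∈ q'.W R s w y') (hz : ‖z - y'‖ ≤ δ) :
    z - y ∈ Box q.e (4 * R) (t + 3 * s) := by
  have k1 := box_turn hq.he hq'.he hsR hx'.1.1 hx'.1.2.2.1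
  have k2 := box_turn hq.he hq'.he hsR hx'.1.2.1 hx'.1.2.2.2
  obtain ⟨n1, n2⟩ := norm_of_ball hz
  have e : z - y = (x - y) - (x - y') + (z - y') := by abel
  rw [e]
  simp only [Box, mem_ofPred_eq, Prod.fst_add, Prod.snd_add, X_add, Y_add]
  rw [Prod.fst_sub (x - y), Prod.snd_sub (x - y), X_sub, X_sub, Y_sub, Y_sub]
  refine ⟨(abs_three hx.1.1 k1.1 ((abs_X_le hq.he _).trans n1)).trans (by linarith),
    (abs_three hx.1.2.1 k2.1 ((abs_X_le hq.he _).trans n2)).trans (by linarith),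
    (abs_three hx.1.2.2.1 k1.2 ((abs_Y_le hq.he _).trans n1)).trans (by linarith),
    (abs_three hx.1.2.2.2 k2.2 ((abs_Y_le hq.he _).trans n2)).trans (by linarith)⟩

theorem l_small {A R s w δ : ℝ} {q : Par} (hA : 1 ≤ A) (hq : q.Ok A) (hs : 0 < s) (hsR : s ≤ R)
    (hw : 0 ≤ w) (hδ : δ ≤ s * w) {u : ℂ × ℂ} (h1 : ‖u.1‖ ≤ δ) (h2 : ‖u.2‖ ≤ δ) :
    |q.l R s u| ≤ 4 * A * w := by
  have hR : 0 < R := hs.trans_le hsR
  have hδ' : δ ≤ w * R := by nlinarith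
  have hδ'' : δ ≤ w * s := by linarith
  have k1 := abs_comb2 hq.h1 hq.h2 (abs_div_le hR (((abs_X_le hq.he _).trans h1).trans hδ'))
    (abs_div_le hR (((abs_X_le hq.he _).trans h2).trans hδ'))
  have k2 := abs_comb2 hq.ab1 hq.ab2 (abs_div_le hs (((abs_Y_le hq.he _).trans h1).trans hδ''))
    (abs_div_le hs (((abs_Y_le hq.he _).trans h2).trans hδ''))
  have := abs_add_le (q.a1 * (X q.e u.1 / R) + q.a2 * (X q.e u.2 / R))
    (q.b1 * (Y q.e u.1 / s) + q.b2 * (Y q.e u.2 / s))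
  rw [← add_assoc] at this
  unfold Par.l
  nlinarith

theorem sum_class {ι : Type*} (J : Finset ι) (d f : ι → ℝ) {M v : ℝ} (hd : ∀ k, 0 ≤ d k)
    (hM : 0 ≤ M) (hf : ∀ k ∈ J, f k ≤ M) (hc : ∑ k ∈ J, d k ≤ v) :
    ∑ k ∈ J, d k * f k ≤ v * M := by
  calc ∑ k ∈ J, d k * f k ≤ ∑ k ∈ J, d k * M := Finset.sum_le_sum fun k hk =>
        mul_le_mul_of_nonneg_left (hf k hk) (hd k)
    _ = (∑ k ∈ J, d k) * M := by rw [Finset.sum_mul]
    _ ≤ v * M := by gcongr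

theorem exists_level {x c ρ : ℝ} (h0 : c ≤ x) (m : ℕ) (hm : x < c * ρ ^ m) :
    ∃ k < m, c * ρ ^ k ≤ x ∧ x < c * ρ ^ (k + 1) := by
  induction m with
  | zero => simp at hm; linarith
  | succ m ih =>
    by_cases h : x < c * ρ ^ m
    · obtain ⟨k, hk, h'⟩ := ih h
      exact ⟨k, by omega, h'⟩
    · exact ⟨m, by omega, not_lt.1 h, hm⟩

/-- Overlap bound for plates of one size. `ρ ^ m` covers the ratio `R / s` and `t` is the level
at which two slabs count as parallel. -/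
theorem pair_sum {ι : Type*} (I : Finset ι) (q : ι → Par) (y : ι → ℂ × ℂ) (B : ι → Set (ℂ × ℂ))
    {A R s w t δ ρ : ℝ} {m : ℕ} (hA : 1 ≤ A) (hq : ∀ k ∈ I, (q k).Ok A) (hs : 0 < s) (hsR : s ≤ R) (hw : 0 < w)
    (hw1 : w ≤ 1) (hwt : w ≤ t) (hδ' : δ ≤ s * w) (hρ : 1 ≤ ρ) (hm : R ≤ s * ρ ^ m)
    (hBm : ∀ k, MeasurableSet (B k)) (hBd : Pairwise (Function.onFun Disjoint B))
    (hB : ∀ k, ∀ z ∈ B k, ‖z - y k‖ ≤ δ) {i : ι} (hi : i ∈ I) :
    ∑ k ∈ I, volume.real (B k) * volume.real ((q i).W R s w (y i) ∩ (q k).W R s w (y k)) ≤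
      10 ^ 8 * A ^ 3 * (m * ρ ^ 2 + 1 / t + t / w) * (R ^ 2 * s ^ 2 * w) ^ 2 := by
  classical
  have hR : 0 < R := hs.trans_le hsR
  have ht : 0 < t := hw.trans_le hwt
  have hδs : δ ≤ s := hδ'.trans (mul_le_of_le_one_right hs.le hw1)
  have hA0 : 0 < A := one_pos.trans_le hA
  set f : ι → ℝ := fun k => volume.real ((q i).W R s w (y i) ∩ (q k).W R s w (y k)) with hf
  set S : ι → ℝ := fun k => |Y (q i).e (q k).e| * R with hS
  let I0 := I.filter fun k => ((q i).W R s w (y i) ∩ (q k).W R s w (y k)).Nonempty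
  let J1 := I0.filter fun k => S k ≤ 8 * A * s ∧ f k ≤ 32 * w ^ 2 * R ^ 2 * s ^ 2 / t
  let J2 := I0.filter fun k => S k ≤ 8 * A * s ∧
    ∀ z ∈ (q k).W R s w (y k), |(q i).l R s (z - y k)| ≤ 180 * A ^ 2 * t
  let J3 := fun n : ℕ => I0.filter fun k => 8 * A * s * ρ ^ n ≤ S k ∧ S k < 8 * A * s * ρ ^ (n + 1)
  have m0 : ∀ {P : ι → Prop} [DecidablePred P], ∀ k ∈ I0.filter P, k ∈ I ∧
      ((q i).W R s w (y i) ∩ (q k).W R s w (y k)).Nonempty ∧ P k := fun k hk =>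
    ⟨(Finset.mem_filter.1 (Finset.mem_filter.1 hk).1).1,
      (Finset.mem_filter.1 (Finset.mem_filter.1 hk).1).2, (Finset.mem_filter.1 hk).2⟩
  set d : ι → ℝ := fun k => volume.real (B k) with hd
  have d0 : ∀ k, 0 ≤ d k := fun k => measureReal_nonneg
  have f0 : ∀ k, 0 ≤ d k * f k := fun k => mul_nonneg (d0 k) measureReal_nonneg
  have c1 : ∑ k ∈ J1, d k * f k ≤ (16 * (4 * R) ^ 2 * (8 * A * s + 3 * s) ^ 2) *
      (32 * w ^ 2 * R ^ 2 * s ^ 2 / t) := by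
    refine sum_class J1 d f d0 (by positivity) (fun k hk => (m0 k hk).2.2.2)
      (mass_le J1 B (by positivity) hBm hBd (fun k hk z hz => ?_) (vol_box (hq i hi).he (y i) _ _))
    obtain ⟨h1, ⟨x, hx⟩, h2, -⟩ := m0 k hk
    exact ball_sub (hq i hi) (hq k h1) hsR hδs h2 hx.1 hx.2 (hB k z hz)
  have c2 : ∑ k ∈ J2, d k * f k ≤ (32 * (4 * R) ^ 2 * (8 * A * s + 3 * s) *
      (185 * A ^ 2 * t) * s) * (32 * (R ^ 2 * s ^ 2 * w)) := by
    refine sum_class J2 d f d0 (by positivity) (fun k _ => ?_)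
      (mass_le J2 B (by positivity) hBm hBd (fun k hk z hz => ?_)
        (vol_slab (R := R) (hq i hi) hs (y i) _ _ _))
    · exact ENNReal.toReal_le_of_le_ofReal (by positivity)
        ((measure_mono inter_subset_left).trans (vol_W (hq i hi) hs w (y i)))
    · obtain ⟨h1, ⟨x, hx⟩, h2, h3⟩ := m0 k hk
      refine ⟨ball_sub (hq i hi) (hq k h1) hsR hδs h2 hx.1 hx.2 (hB k z hz), ?_⟩
      obtain ⟨n1, n2⟩ := norm_of_ball (hB k z hz)
      have e : (q i).l R s (z - y i) =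
          (q i).l R s (x - y i) - (q i).l R s (x - y k) + (q i).l R s (z - y k) := by
        simp only [Par.l_sub]
        ring
      rw [e]
      refine (abs_three hx.1.2 (h3 x hx.2) (l_small hA (hq i hi) hs hsR hw.le hδ' n1 n2)).trans ?_
      have : A * t ≤ A ^ 2 * t := by gcongr; nlinarith
      have : t ≤ A * t := le_mul_of_one_le_left ht.le hA
      have : A * w ≤ A * t := by gcongr
      linarith
  have c3 : ∀ n, ∑ k ∈ J3 n, d k * f k ≤ (16 * (4 * R) ^ 2 *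
      (2 * (8 * A * s * ρ ^ (n + 1))) ^ 2) *
      (128 * w ^ 2 * s ^ 4 / (8 * A * s * ρ ^ n / R) ^ 2) := by
    intro n
    refine sum_class (J3 n) d f d0 (by positivity) (fun k hk => ?_)
      (mass_le (J3 n) B (by positivity) hBm hBd (fun k hk z hz => ?_)
        (vol_box (hq i hi).he (y i) _ _))
    · obtain ⟨h1, -, h2, -⟩ := m0 k hk
      refine ENNReal.toReal_le_of_le_ofReal (by positivity)
        (vol_far (hq i hi) (hq k h1) hR hs (by positivity) ?_ ?_ _ _)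
      · rw [div_mul_cancel₀ _ hR.ne']
        exact le_mul_of_one_le_right (by positivity) (one_le_pow₀ hρ)
      · rw [div_le_iff₀ hR]
        exact h2
    · obtain ⟨h1, ⟨x, hx⟩, -, h2⟩ := m0 k hk
      have h3 := ball_sub (hq i hi) (hq k h1) hsR hδs h2.le hx.1 hx.2 (hB k z hz)
      have h4 : 3 * s ≤ 8 * A * s * ρ ^ (n + 1) :=
        le_trans (by nlinarith) (le_mul_of_one_le_right (by positivity) (one_le_pow₀ hρ))
      exact ⟨h3.1, h3.2.1, h3.2.2.1.trans (by linarith), h3.2.2.2.trans (by linarith)⟩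
  have c0 : ∑ k ∈ I, d k * f k ≤ ∑ k ∈ J1, d k * f k + ∑ k ∈ J2, d k * f k +
      ∑ n ∈ Finset.range m, ∑ k ∈ J3 n, d k * f k := by
    have e0 : ∑ k ∈ I, d k * f k = ∑ k ∈ I0, d k * f k := by
      refine (Finset.sum_subset (Finset.filter_subset _ _) fun k hk hk' => ?_).symm
      have : (q i).W R s w (y i) ∩ (q k).W R s w (y k) = ∅ :=
        not_nonempty_iff_eq_empty.1 fun h => hk' (Finset.mem_filter.2 ⟨hk, h⟩)
      simp [hf, this]
    rw [e0]
    simp only [J1, J2, J3, Finset.sum_filter]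
    rw [Finset.sum_comm (s := Finset.range m), ← Finset.sum_add_distrib,
      ← Finset.sum_add_distrib]
    refine Finset.sum_le_sum fun k hk => ?_
    have hk1 := (Finset.mem_filter.1 hk).1
    have p : ∀ (P : Prop) [Decidable P], 0 ≤ if P then d k * f k else 0 := fun P _ => by
      split_ifs
      exacts [f0 k, le_rfl]
    have p3 := Finset.sum_nonneg fun n (_ : n ∈ Finset.range m) =>
      p (8 * A * s * ρ ^ n ≤ S k ∧ S k < 8 * A * s * ρ ^ (n + 1))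
    by_cases h : S k ≤ 8 * A * s
    · rcases near hA (hq i hi) (hq k hk1) hs hsR ht hwt h (y i) (y k) with h' | h'
      · rw [if_pos ⟨h, ENNReal.toReal_le_of_le_ofReal (by positivity) h'⟩, add_assoc]
        exact le_add_of_nonneg_right (add_nonneg (p _) p3)
      · rw [if_pos (c := _ ∧ ∀ z ∈ _, _) ⟨h, h'⟩]
        linarith [p (S k ≤ 8 * A * s ∧ f k ≤ 32 * w ^ 2 * R ^ 2 * s ^ 2 / t)]
    · obtain ⟨n, hn, h'⟩ := exists_level (ρ := ρ) (not_le.1 h).le m (by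
        have h1 : S k ≤ 1 * R := by
          simp only [hS]
          gcongr
          exact abs_S (hq i hi).he (hq k hk1).he
        have h2 : 0 < s * ρ ^ m := by positivity
        nlinarith)
      have := Finset.single_le_sum (f := fun n => if 8 * A * s * ρ ^ n ≤ S k ∧
        S k < 8 * A * s * ρ ^ (n + 1) then d k * f k else 0) (fun n _ => p _)
        (Finset.mem_range.2 hn)
      rw [if_pos h'] at this
      exact this.trans (le_add_of_nonneg_left (add_nonneg (p _) (p _)))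
  have v0 : 0 < (R ^ 2 * s ^ 2 * w) ^ 2 := by positivity
  have a3 : 1 ≤ A ^ 3 := one_le_pow₀ hA
  have d1 : (16 * (4 * R) ^ 2 * (8 * A * s + 3 * s) ^ 2) * (32 * w ^ 2 * R ^ 2 * s ^ 2 / t) ≤
      10 ^ 8 * A ^ 3 * (1 / t) * (R ^ 2 * s ^ 2 * w) ^ 2 := by
    calc _ = 8192 * (8 * A + 3) ^ 2 * (1 / t) * (R ^ 2 * s ^ 2 * w) ^ 2 := by ring
      _ ≤ _ := by gcongr ?_ * _ * _; nlinarith [mul_nonneg (sq_nonneg A) (sub_nonneg.2 hA)]
  have d2 : (32 * (4 * R) ^ 2 * (8 * A * s + 3 * s) * (185 * A ^ 2 * t) * s) *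
      (32 * (R ^ 2 * s ^ 2 * w)) ≤ 10 ^ 8 * A ^ 3 * (t / w) * (R ^ 2 * s ^ 2 * w) ^ 2 := by
    calc _ = 3031040 * (8 * A + 3) * A ^ 2 * (t / w) * (R ^ 2 * s ^ 2 * w) ^ 2 := by
          field_simp; ring
      _ ≤ _ := by gcongr ?_ * _ * _; nlinarith [mul_nonneg (sq_nonneg A) (sub_nonneg.2 hA)]
  have d3 : ∑ n ∈ Finset.range m, ∑ k ∈ J3 n, d k * f k ≤
      10 ^ 8 * A ^ 3 * (m * ρ ^ 2) * (R ^ 2 * s ^ 2 * w) ^ 2 := by
    calc _ ≤ ∑ _n ∈ Finset.range m, 10 ^ 8 * A ^ 3 * ρ ^ 2 * (R ^ 2 * s ^ 2 * w) ^ 2 := by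
          refine Finset.sum_le_sum fun n _ => (c3 n).trans ?_
          calc _ = 131072 * ρ ^ 2 * (R ^ 2 * s ^ 2 * w) ^ 2 := by field_simp; ring
            _ ≤ _ := by gcongr ?_ * _ * _; linarith
      _ = _ := by rw [Finset.sum_const, Finset.card_range, nsmul_eq_mul]; ring
  calc _ ≤ _ := c0
    _ ≤ _ := add_le_add (add_le_add (c1.trans d1) (c2.trans d2)) d3
    _ = _ := by ring

end Pool.Agent.Lib.MP_5a3ebe_gt.PvPair
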