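import Pool.Agent.Lib.MP_5a3ebe_gt.PvBox

/-! Plates cut by a slab: volumes of one plate and of the intersection of two plates. -/

open MeasureTheory Set Complex
open scoped ENNReal

namespace Pool.Agent.Lib.MP_5a3ebe_gt.PvPair

open PvBox

/-- direction of the plate and normal of the slab -/
structure Par where
  e : ℂ
  a1 : ℝ
  a2 : ℝ
  b1 : ℝ
  b2 : ℝ

/-- normalisation of the parameters -/
structure Par.Ok (A : ℝ) (q : Par) : Prop where
  he : q.e.re ^ 2 + q.e.im ^ 2 = 1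
  hb : q.b1 ^ 2 + q.b2 ^ 2 = 1
  h1 : |q.a1| ≤ A
  h2 : |q.a2| ≤ A

/-- the slab functional -/
noncomputable def Par.l (q : Par) (R s : ℝ) (u : ℂ × ℂ) : ℝ :=
  q.a1 * (X q.e u.1 / R) + q.a2 * (X q.e u.2 / R) + q.b1 * (Y q.e u.1 / s) +
    q.b2 * (Y q.e u.2 / s)

/-- the box of half sides `r1, r1, r2, r2` in the frame `e` -/
def Box (e : ℂ) (r1 r2 : ℝ) : Set (ℂ × ℂ) :=
  {u | |X e u.1| ≤ r1 ∧ |X e u.2| ≤ r1 ∧ |Y e u.1| ≤ r2 ∧ |Y e u.2| ≤ r2}

/-- the plate cut by the slab, centred at `y` -/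
def Par.W (q : Par) (R s w : ℝ) (y : ℂ × ℂ) : Set (ℂ × ℂ) :=
  {z | z - y ∈ Box q.e R s ∧ |q.l R s (z - y)| ≤ w}

theorem Par.Ok.ab1 {A : ℝ} {q : Par} (h : q.Ok A) : |q.b1| ≤ 1 :=
  abs_le_one_iff_mul_self_le_one.2 (by nlinarith [h.hb, sq_nonneg q.b2])

theorem Par.Ok.ab2 {A : ℝ} {q : Par} (h : q.Ok A) : |q.b2| ≤ 1 :=
  abs_le_one_iff_mul_self_le_one.2 (by nlinarith [h.hb, sq_nonneg q.b1])

theorem Par.l_sub (q : Par) (R s : ℝ) (u v : ℂ × ℂ) :
    q.l R s (u - v) = q.l R s u - q.l R s v := by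
  simp only [Par.l, Prod.fst_sub, Prod.snd_sub, X_sub, Y_sub]; ring

theorem abs_comb2 {a b x y A r : ℝ} (ha : |a| ≤ A) (hb : |b| ≤ A) (hx : |x| ≤ r) (hy : |y| ≤ r) :
    |a * x + b * y| ≤ 2 * A * r := by
  have h1 : |a * x| ≤ A * r := by
    rw [abs_mul]; exact mul_le_mul ha hx (abs_nonneg _) ((abs_nonneg _).trans ha)
  have h2 : |b * y| ≤ A * r := by
    rw [abs_mul]; exact mul_le_mul hb hy (abs_nonneg _) ((abs_nonneg _).trans hb)
  linarith [abs_add_le (a * x) (b * y)]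

theorem abs_div_le {x r R : ℝ} (hR : 0 < R) (h : |x| ≤ r * R) : |x / R| ≤ r := by
  rw [abs_div, abs_of_pos hR, div_le_iff₀ hR]; exact h

theorem vol_box {e : ℂ} (he : e.re ^ 2 + e.im ^ 2 = 1) (y : ℂ × ℂ) (r1 r2 : ℝ) :
    volume {z | z - y ∈ Box e r1 r2} ≤ ENNReal.ofReal (16 * r1 ^ 2 * r2 ^ 2) := by
  refine (vol_fr he ![1, 0, 0, 0] ![0, 1, 0, 0] ![0, 0, 1, 0] ![0, 0, 0, 1] y y y y
    (r0 := r1) (r1 := r1) (r2 := r2) (r3 := r2) one_pos ?_ fun z hz => ?_).trans (le_of_eq ?_)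
  · simp [Matrix.det_succ_row_zero, Fin.sum_univ_succ, Fin.succAbove]
  · simpa [lin, Box] using hz
  · congr 1; ring

theorem vol_slab {A R s : ℝ} {q : Par} (hq : q.Ok A) (hs : 0 < s) (y : ℂ × ℂ) (r1 r2 r3 : ℝ) :
    volume {z | z - y ∈ Box q.e r1 r2 ∧ |q.l R s (z - y)| ≤ r3} ≤
      ENNReal.ofReal (32 * r1 ^ 2 * r2 * r3 * s) := by
  refine (vol_fr hq.he ![1, 0, 0, 0] ![0, 1, 0, 0] ![q.a1 / R, q.a2 / R, q.b1 / s, q.b2 / s]
    ![0, 0, -q.b2, q.b1] y y y y (r0 := r1) (r1 := r1) (r2 := r3) (r3 := 2 * 1 * r2)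
    (one_div_pos.2 hs) ?_ fun z hz => ⟨?_, ?_, ?_, ?_⟩).trans (le_of_eq ?_)
  · have : (Matrix.of ![![1, 0, 0, 0], ![0, 1, 0, 0], ![q.a1 / R, q.a2 / R, q.b1 / s, q.b2 / s],
        ![0, 0, -q.b2, q.b1]]).det = (q.b1 ^ 2 + q.b2 ^ 2) / s := by
      simp [Matrix.det_succ_row_zero, Fin.sum_univ_succ, Fin.succAbove]
      ring
    rw [this, hq.hb]
    exact le_abs_self _
  · simpa [lin] using hz.1.1
  · simpa [lin] using hz.1.2.1
  · convert hz.2 using 2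
    simp [lin, Par.l]
    ring
  · have := abs_comb2 (a := -q.b2) (by simpa using hq.ab2) hq.ab1 hz.1.2.2.1 hz.1.2.2.2
    simpa [lin] using this
  · congr 1
    field_simp
    ring

theorem vol_W {A R s : ℝ} {q : Par} (hq : q.Ok A) (hs : 0 < s) (w : ℝ) (y : ℂ × ℂ) :
    volume (q.W R s w y) ≤ ENNReal.ofReal (32 * (R ^ 2 * s ^ 2 * w)) :=
  (vol_slab hq hs y R s w).trans (le_of_eq (by congr 1; ring))

section Turn

variable {e e' : ℂ} (he : e.re ^ 2 + e.im ^ 2 = 1) (he' : e'.re ^ 2 + e'.im ^ 2 = 1)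
include he

theorem X_turn (e' z : ℂ) : X e' z = X e e' * X e z + Y e e' * Y e z := by
  simp only [X, Y]
  linear_combination (-(z.re * e'.re + z.im * e'.im)) * he

theorem Y_turn (e' z : ℂ) : Y e' z = X e e' * Y e z - Y e e' * X e z := by
  simp only [X, Y]
  linear_combination (-(z.im * e'.re - z.re * e'.im)) * he

include he'

theorem CS_sq : X e e' ^ 2 + Y e e' ^ 2 = 1 := by
  simp only [X, Y]
  linear_combination (e'.re ^ 2 + e'.im ^ 2) * he + he'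

theorem abs_C : |X e e'| ≤ 1 :=
  abs_le_one_iff_mul_self_le_one.2 (by nlinarith [CS_sq he he', sq_nonneg (Y e e')])

theorem abs_S : |Y e e'| ≤ 1 :=
  abs_le_one_iff_mul_self_le_one.2 (by nlinarith [CS_sq he he', sq_nonneg (X e e')])

theorem box_turn {R s : ℝ} (hs : s ≤ R) {z : ℂ} (h1 : |X e' z| ≤ R) (h2 : |Y e' z| ≤ s) :
    |X e z| ≤ 2 * R ∧ |Y e z| ≤ |Y e e'| * R + s := by
  have hC := abs_C he he'
  have hS := abs_S he he'
  have e1 : X e z = X e e' * X e' z + -Y e e' * Y e' z := by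
    rw [X_turn he e' z, Y_turn he e' z]
    linear_combination (-X e z) * CS_sq he he'
  have e2 : Y e z = Y e e' * X e' z + X e e' * Y e' z := by
    rw [X_turn he e' z, Y_turn he e' z]
    linear_combination (-Y e z) * CS_sq he he'
  constructor
  · rw [e1]
    simpa using abs_comb2 (b := -Y e e') hC (by simpa using hS) h1 (h2.trans hs)
  · rw [e2]
    refine (abs_add_le _ _).trans (add_le_add ?_ ?_)
    · rw [abs_mul]; gcongr
    · rw [abs_mul]
      calc |X e e'| * |Y e' z| ≤ 1 * s := by gcongr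
        _ = s := one_mul s

end Turn

/-- Two plates at a large angle. -/
theorem vol_far {A R s w t : ℝ} {q q' : Par} (hq : q.Ok A) (hq' : q'.Ok A) (hR : 0 < R)
    (hs : 0 < s) (ht : 0 < t) (h1 : 8 * A * s ≤ t * R) (h2 : t ≤ |Y q.e q'.e|) (y y' : ℂ × ℂ) :
    volume (q.W R s w y ∩ q'.W R s w y') ≤ ENNReal.ofReal (128 * w ^ 2 * s ^ 4 / t ^ 2) := by
  set C := X q.e q'.e
  set S := Y q.e q'.e
  have hC : |C| ≤ 1 := abs_C hq.he hq'.he
  refine (vol_fr hq.he ![q.a1 / R, q.a2 / R, q.b1 / s, q.b2 / s]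
    ![C * q'.a1 / R - S * q'.b1 / s, C * q'.a2 / R - S * q'.b2 / s,
      S * q'.a1 / R + C * q'.b1 / s, S * q'.a2 / R + C * q'.b2 / s]
    ![0, 0, -q.b2, q.b1] ![S * q'.b2, -(S * q'.b1), -(C * q'.b2), C * q'.b1] y y' y y'
    (r0 := w) (r1 := w) (r2 := 2 * 1 * s) (r3 := 2 * 1 * s) (D := (t / s) ^ 2 / 2)
    (by positivity) ?_ fun z hz => ⟨?_, ?_, ?_, ?_⟩).trans (le_of_eq ?_)
  · have hd : (Matrix.of ![![q.a1 / R, q.a2 / R, q.b1 / s, q.b2 / s],
        ![C * q'.a1 / R - S * q'.b1 / s, C * q'.a2 / R - S * q'.b2 / s,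
          S * q'.a1 / R + C * q'.b1 / s, S * q'.a2 / R + C * q'.b2 / s],
        ![0, 0, -q.b2, q.b1], ![S * q'.b2, -(S * q'.b1), -(C * q'.b2), C * q'.b1]]).det =
        -((S * (q.b1 ^ 2 + q.b2 ^ 2) / s + C * ((q.a1 * q.b1 + q.a2 * q.b2) / R)) *
          (S * (q'.b1 ^ 2 + q'.b2 ^ 2) / s - C * ((q'.a1 * q'.b1 + q'.a2 * q'.b2) / R)) +
          (C ^ 2 + S ^ 2) * ((q.a1 * q'.b1 + q.a2 * q'.b2) / R) *
            ((q'.a1 * q.b1 + q'.a2 * q.b2) / R)) := by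
      simp [Matrix.det_succ_row_zero, Fin.sum_univ_succ, Fin.succAbove]
      ring
    rw [hd, hq.hb, hq'.hb, CS_sq hq.he hq'.he, abs_neg, mul_one, one_mul]
    have hT : t / s ≤ |S / s| := by rw [abs_div, abs_of_pos hs]; gcongr
    have hT0 : 0 < t / s := by positivity
    have hb : ∀ x : ℝ, |x| ≤ 2 * A * 1 → |x / R| ≤ t / s / 4 := fun x hx => by
      refine abs_div_le hR (hx.trans ?_)
      rw [div_div, div_mul_eq_mul_div, le_div_iff₀ (by positivity)]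
      linarith
    have k1 := hb _ (abs_comb2 hq.h1 hq.h2 hq.ab1 hq.ab2)
    have k2 := hb _ (abs_comb2 hq'.h1 hq'.h2 hq'.ab1 hq'.ab2)
    have k3 := hb _ (abs_comb2 hq.h1 hq.h2 hq'.ab1 hq'.ab2)
    have k4 := hb _ (abs_comb2 hq'.h1 hq'.h2 hq.ab1 hq.ab2)
    generalize (q.a1 * q.b1 + q.a2 * q.b2) / R = u1 at *
    generalize (q'.a1 * q'.b1 + q'.a2 * q'.b2) / R = u2 at *
    generalize (q.a1 * q'.b1 + q.a2 * q'.b2) / R = u3 at *
    generalize (q'.a1 * q.b1 + q'.a2 * q.b2) / R = u4 at *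
    generalize t / s = T at *
    generalize S / s = T' at *
    have c1 : |C * u1| ≤ T / 4 := by
      rw [abs_mul]; exact (mul_le_of_le_one_left (abs_nonneg _) hC).trans k1
    have c2 : |C * u2| ≤ T / 4 := by
      rw [abs_mul]; exact (mul_le_of_le_one_left (abs_nonneg _) hC).trans k2
    have c3 : 3 * T / 4 ≤ |T' + C * u1| := by
      have := abs_sub (T' + C * u1) (C * u1)
      rw [add_sub_cancel_right] at this
      linarith
    have c4 : 3 * T / 4 ≤ |T' - C * u2| := by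
      have := abs_add_le (T' - C * u2) (C * u2)
      rw [sub_add_cancel] at this
      linarith
    have c5 : 3 * T / 4 * (3 * T / 4) ≤ |(T' + C * u1) * (T' - C * u2)| := by
      rw [abs_mul]; gcongr
    have c6 : |u3 * u4| ≤ T / 4 * (T / 4) := by rw [abs_mul]; gcongr
    have := abs_sub ((T' + C * u1) * (T' - C * u2) + u3 * u4) (u3 * u4)
    rw [add_sub_cancel_right] at this
    nlinarith
  · convert hz.1.2 using 2
    simp [lin, Par.l]
    ring
  · convert hz.2.2 using 2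
    simp only [lin, Par.l, X_turn hq.he q'.e, Y_turn hq.he q'.e]
    simp [C, S]
    ring
  · have := abs_comb2 (a := -q.b2) (by simpa using hq.ab2) hq.ab1 hz.1.1.2.2.1 hz.1.1.2.2.2
    simpa [lin] using this
  · have := abs_comb2 (a := -q'.b2) (by simpa using hq'.ab2) hq'.ab1 hz.2.1.2.2.1 hz.2.1.2.2.2
    convert this using 2
    simp only [lin, Y_turn hq.he q'.e]
    simp [C, S]
    ring
  · congr 1
    field_simp
    ring

end Pool.Agent.Lib.MP_5a3ebe_gt.PvPair
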