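import Pool.Agent.Lib.MP_5a3ebe_gt.PvPairA

/-! Two plates at a small angle, and the summed overlap of plates with separated centres. -/

open MeasureTheory Set Complex
open scoped ENNReal

namespace Pool.Agent.Lib.MP_5a3ebe_gt.PvPair

open PvBox

theorem det_rows (a1 a2 b1 b2 n1 n2 n3 n4 : ℝ) :
    (Matrix.of ![![a1, a2, b1, b2], ![n1, n2, n3, n4], ![1, 0, 0, 0], ![0, 1, 0, 0]]).det =
      b1 * n4 - b2 * n3 := by
  simp [Matrix.det_succ_row_zero, Fin.sum_univ_succ, Fin.succAbove]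
  ring

theorem det_rows1 (a1 a2 b1 b2 n1 n2 n3 n4 c d : ℝ) :
    (Matrix.of ![![a1, a2, b1, b2], ![n1, n2, n3, n4], ![0, 1, 0, 0], ![0, 0, -d, c]]).det =
      n1 * (b1 * c + b2 * d) - a1 * (n3 * c + n4 * d) := by
  simp [Matrix.det_succ_row_zero, Fin.sum_univ_succ, Fin.succAbove]
  ring

theorem det_rows2 (a1 a2 b1 b2 n1 n2 n3 n4 c d : ℝ) :
    (Matrix.of ![![a1, a2, b1, b2], ![n1, n2, n3, n4], ![1, 0, 0, 0], ![0, 0, -d, c]]).det =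
      -(n2 * (b1 * c + b2 * d) - a2 * (n3 * c + n4 * d)) := by
  simp [Matrix.det_succ_row_zero, Fin.sum_univ_succ, Fin.succAbove]
  ring

/-- Two slabs in one box whose normals are not proportional. -/
theorem vol_near {A R s w t n1 n2 n3 n4 : ℝ} {q : Par} (hq : q.Ok A) (hR : 0 < R) (hs : 0 < s)
    (ht : 0 < t) (y y' : ℂ × ℂ) {S : Set (ℂ × ℂ)} (hS : S ⊆ q.W R s w y)
    (hS' : ∀ z ∈ S, |n1 * (X q.e (z - y').1 / R) + n2 * (X q.e (z - y').2 / R) +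
      n3 * (Y q.e (z - y').1 / s) + n4 * (Y q.e (z - y').2 / s)| ≤ w)
    (h : t ≤ |q.b1 * n4 - q.b2 * n3| ∨ t ≤ |n1 - (q.b1 * n3 + q.b2 * n4) * q.a1| ∨
      t ≤ |n2 - (q.b1 * n3 + q.b2 * n4) * q.a2|) :
    volume S ≤ ENNReal.ofReal (32 * w ^ 2 * R ^ 2 * s ^ 2 / t) := by
  have k0 : ∀ z ∈ S, |lin q.e ![q.a1 / R, q.a2 / R, q.b1 / s, q.b2 / s] (z - y)| ≤ w := by
    intro z hz
    convert (hS hz).2 using 2
    simp [lin, Par.l]
    ring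
  have k1 : ∀ z ∈ S, |lin q.e ![n1 / R, n2 / R, n3 / s, n4 / s] (z - y')| ≤ w := by
    intro z hz
    convert hS' z hz using 2
    simp [lin]
    ring
  have k2 : ∀ z ∈ S, |lin q.e ![1, 0, 0, 0] (z - y)| ≤ R := fun z hz => by
    simpa [lin] using (hS hz).1.1
  have k3 : ∀ z ∈ S, |lin q.e ![0, 1, 0, 0] (z - y)| ≤ R := fun z hz => by
    simpa [lin] using (hS hz).1.2.1
  have k4 : ∀ z ∈ S, |lin q.e ![0, 0, -q.b2, q.b1] (z - y)| ≤ 2 * 1 * s := fun z hz => by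
    have := abs_comb2 (a := -q.b2) (by simpa using hq.ab2) hq.ab1 (hS hz).1.2.2.1 (hS hz).1.2.2.2
    simpa [lin] using this
  have hRs : 0 < R * s := mul_pos hR hs
  rcases h with h | h | h
  · refine (vol_fr hq.he _ _ _ _ y y' y y (D := t / s ^ 2) (by positivity) ?_
      fun z hz => ⟨k0 z hz, k1 z hz, k2 z hz, k3 z hz⟩).trans (ENNReal.ofReal_le_ofReal ?_)
    · rw [det_rows, show q.b1 / s * (n4 / s) - q.b2 / s * (n3 / s) =
        (q.b1 * n4 - q.b2 * n3) / s ^ 2 by ring, abs_div, abs_of_pos (pow_pos hs 2)]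
      gcongr
    · rw [show 16 * w * w * R * R / (t / s ^ 2) = 16 * w ^ 2 * R ^ 2 * s ^ 2 / t by field_simp]
      gcongr
      norm_num
  · refine (vol_fr hq.he _ _ _ _ y y' y y (D := t / (R * s)) (by positivity) ?_
      fun z hz => ⟨k0 z hz, k1 z hz, k3 z hz, k4 z hz⟩).trans (le_of_eq ?_)
    · rw [det_rows1, show n1 / R * (q.b1 / s * q.b1 + q.b2 / s * q.b2) -
        q.a1 / R * (n3 / s * q.b1 + n4 / s * q.b2) =
        (n1 * (q.b1 ^ 2 + q.b2 ^ 2) - (q.b1 * n3 + q.b2 * n4) * q.a1) / (R * s) by ring,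
        hq.hb, mul_one, abs_div, abs_of_pos hRs]
      gcongr
    · congr 1
      field_simp
      ring
  · refine (vol_fr hq.he _ _ _ _ y y' y y (D := t / (R * s)) (by positivity) ?_
      fun z hz => ⟨k0 z hz, k1 z hz, k2 z hz, k4 z hz⟩).trans (le_of_eq ?_)
    · rw [det_rows2, abs_neg, show n2 / R * (q.b1 / s * q.b1 + q.b2 / s * q.b2) -
        q.a2 / R * (n3 / s * q.b1 + n4 / s * q.b2) =
        (n2 * (q.b1 ^ 2 + q.b2 ^ 2) - (q.b1 * n3 + q.b2 * n4) * q.a2) / (R * s) by ring,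
        hq.hb, mul_one, abs_div, abs_of_pos hRs]
      gcongr
    · congr 1
      field_simp
      ring

theorem l_turn {q q' : Par} (he : q.e.re ^ 2 + q.e.im ^ 2 = 1) {R s : ℝ} (hR : 0 < R) (hs : 0 < s)
    (u : ℂ × ℂ) : q'.l R s u =
      (X q.e q'.e * q'.a1 - Y q.e q'.e * R / s * q'.b1) * (X q.e u.1 / R) +
      (X q.e q'.e * q'.a2 - Y q.e q'.e * R / s * q'.b2) * (X q.e u.2 / R) +
      (X q.e q'.e * q'.b1 + Y q.e q'.e * s / R * q'.a1) * (Y q.e u.1 / s) +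
      (X q.e q'.e * q'.b2 + Y q.e q'.e * s / R * q'.a2) * (Y q.e u.2 / s) := by
  simp only [Par.l, X_turn he q'.e, Y_turn he q'.e]
  field_simp
  ring

theorem thin_alg {A t w C τ a1 a2 b1 b2 c1 c2 n1 n2 n3 n4 x1 x2 p1 p2 : ℝ} (hA : 1 ≤ A)
    (hw : w ≤ t) (hC : |C| ≤ 1) (hτ : |τ| ≤ 1) (ha1 : |a1| ≤ A) (ha2 : |a2| ≤ A)
    (hb : b1 ^ 2 + b2 ^ 2 = 1) (hb1 : |b1| ≤ 1) (hb2 : |b2| ≤ 1) (hc1 : |c1| ≤ 1)
    (hc2 : |c2| ≤ 1) (hn : C * (c1 * n3 + c2 * n4) - τ * (c1 * n1 + c2 * n2) = 1)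
    (hx1 : |x1| ≤ 2) (hx2 : |x2| ≤ 2) (hp1 : |p1| ≤ 9 * A) (hp2 : |p2| ≤ 9 * A)
    (h0 : |b1 * n4 - b2 * n3| ≤ t) (h1 : |n1 - (b1 * n3 + b2 * n4) * a1| ≤ t)
    (h2 : |n2 - (b1 * n3 + b2 * n4) * a2| ≤ t)
    (h : |n1 * x1 + n2 * x2 + n3 * p1 + n4 * p2| ≤ w) :
    |a1 * x1 + a2 * x2 + b1 * p1 + b2 * p2| ≤ 180 * A ^ 2 * t := by
  set μ := b1 * n3 + b2 * n4 with hμ
  set ν := b1 * n4 - b2 * n3 with hν
  set ρ1 := n1 - μ * a1 with hρ1
  set ρ2 := n2 - μ * a2 with hρ2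
  set l := a1 * x1 + a2 * x2 + b1 * p1 + b2 * p2 with hl
  have ht : 0 ≤ t := (abs_nonneg _).trans h0
  have mul : ∀ {x y r r' : ℝ}, |x| ≤ r → |y| ≤ r' → |x * y| ≤ r * r' := fun hx hy => by
    rw [abs_mul]; exact mul_le_mul hx hy (abs_nonneg _) ((abs_nonneg _).trans hx)
  have k1 : |l| ≤ 22 * A := by
    have := abs_add_le (a1 * x1 + a2 * x2) (b1 * p1 + b2 * p2)
    rw [← add_assoc] at this
    linarith [abs_comb2 ha1 ha2 hx1 hx2, abs_comb2 hb1 hb2 hp1 hp2]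
  have k2 : |μ * l| ≤ 23 * A * t := by
    have e : μ * l = (n1 * x1 + n2 * x2 + n3 * p1 + n4 * p2) - (ρ1 * x1 + ρ2 * x2) -
        ν * (-b2 * p1 + b1 * p2) := by
      rw [hρ1, hρ2, hl, hμ, hν]
      linear_combination (n3 * p1 + n4 * p2) * hb
    have j1 := abs_comb2 h1 h2 hx1 hx2
    have j2 := mul h0 (abs_comb2 (a := -b2) (by simpa using hb2) hb1 hp1 hp2)
    have j3 := abs_sub ((n1 * x1 + n2 * x2 + n3 * p1 + n4 * p2) - (ρ1 * x1 + ρ2 * x2))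
      (ν * (-b2 * p1 + b1 * p2))
    have j4 := abs_sub (n1 * x1 + n2 * x2 + n3 * p1 + n4 * p2) (ρ1 * x1 + ρ2 * x2)
    rw [e]
    nlinarith
  have e : l = (C * (c1 * b1 + c2 * b2) - τ * (c1 * a1 + c2 * a2)) * (μ * l) +
      (C * (ν * (c1 * -b2 + c2 * b1)) - τ * (c1 * ρ1 + c2 * ρ2)) * l := by
    rw [hρ1, hρ2, hμ, hν]
    linear_combination (-l) * hn - l * C * (c1 * n3 + c2 * n4) * hb
  have j1 : |C * (c1 * b1 + c2 * b2) - τ * (c1 * a1 + c2 * a2)| ≤ 4 * A := by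
    have := abs_sub (C * (c1 * b1 + c2 * b2)) (τ * (c1 * a1 + c2 * a2))
    linarith [mul hC (abs_comb2 hc1 hc2 hb1 hb2), mul hτ (abs_comb2 hc1 hc2 ha1 ha2)]
  have j2 : |C * (ν * (c1 * -b2 + c2 * b1)) - τ * (c1 * ρ1 + c2 * ρ2)| ≤ 4 * t := by
    have := abs_sub (C * (ν * (c1 * -b2 + c2 * b1))) (τ * (c1 * ρ1 + c2 * ρ2))
    linarith [mul hC (mul h0 (abs_comb2 (x := -b2) hc1 hc2 (by simpa using hb2) hb1)),
      mul hτ (abs_comb2 hc1 hc2 h1 h2)]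
  have j3 := mul j1 k2
  have j4 := mul j2 k1
  have j5 := (congrArg abs e).trans_le (abs_add_le _ _)
  nlinarith [mul_nonneg ht (mul_nonneg (by linarith : (0 : ℝ) ≤ A) (by linarith : 0 ≤ A - 1))]

/-- The dichotomy for two plates at a small angle. -/
theorem near {A R s w t : ℝ} {q q' : Par} (hA : 1 ≤ A) (hq : q.Ok A) (hq' : q'.Ok A) (hs : 0 < s)
    (hsR : s ≤ R) (ht : 0 < t) (hw : w ≤ t) (h1 : |Y q.e q'.e| * R ≤ 8 * A * s) (y y' : ℂ × ℂ) :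
    volume (q.W R s w y ∩ q'.W R s w y') ≤ ENNReal.ofReal (32 * w ^ 2 * R ^ 2 * s ^ 2 / t) ∨
      ∀ z ∈ q'.W R s w y', |q.l R s (z - y')| ≤ 180 * A ^ 2 * t := by
  have hR : 0 < R := hs.trans_le hsR
  by_cases h : t ≤ |q.b1 * (X q.e q'.e * q'.b2 + Y q.e q'.e * s / R * q'.a2) -
      q.b2 * (X q.e q'.e * q'.b1 + Y q.e q'.e * s / R * q'.a1)| ∨
      t ≤ |(X q.e q'.e * q'.a1 - Y q.e q'.e * R / s * q'.b1) -
        (q.b1 * (X q.e q'.e * q'.b1 + Y q.e q'.e * s / R * q'.a1) +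
          q.b2 * (X q.e q'.e * q'.b2 + Y q.e q'.e * s / R * q'.a2)) * q.a1| ∨
      t ≤ |(X q.e q'.e * q'.a2 - Y q.e q'.e * R / s * q'.b2) -
        (q.b1 * (X q.e q'.e * q'.b1 + Y q.e q'.e * s / R * q'.a1) +
          q.b2 * (X q.e q'.e * q'.b2 + Y q.e q'.e * s / R * q'.a2)) * q.a2|
  · refine Or.inl (vol_near hq hR hs ht y y' inter_subset_left (fun z hz => ?_) h)
    rw [← l_turn hq.he hR hs]
    exact hz.2.2
  · refine Or.inr fun z hz => ?_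
    simp only [not_or, not_le] at h
    have k1 := box_turn hq.he hq'.he hsR hz.1.1 hz.1.2.2.1
    have k2 := box_turn hq.he hq'.he hsR hz.1.2.1 hz.1.2.2.2
    have hz2 := hz.2
    rw [l_turn hq.he hR hs] at hz2
    refine thin_alg (τ := Y q.e q'.e * s / R) hA hw (abs_C hq.he hq'.he) ?_ hq.h1 hq.h2 hq.hb
      hq.ab1 hq.ab2 hq'.ab1 hq'.ab2 ?_ (abs_div_le hR k1.1) (abs_div_le hR k2.1)
      (abs_div_le hs (by nlinarith [k1.2])) (abs_div_le hs (by nlinarith [k2.2]))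
      h.1.le h.2.1.le h.2.2.le hz2
    · refine abs_div_le hR ?_
      rw [abs_mul, abs_of_pos hs]
      exact mul_le_mul (abs_S hq.he hq'.he) hsR hs.le zero_le_one
    · have := CS_sq hq.he hq'.he
      have hb := hq'.hb
      field_simp
      linear_combination R * (q'.b1 ^ 2 + q'.b2 ^ 2) * this + R * hb

end Pool.Agent.Lib.MP_5a3ebe_gt.PvPair
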