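import Pool.Agent.Lib.MP_5a3ebe_gt.PvCond
import Pool.Agent.Lib.MP_5a3ebe_gt.PvMain

/-!
One stage.
-/

set_option linter.unusedVariables false

namespace Pool.Agent.Lib.MP_5a3ebe_gt.Pv

open Set Complex MeasureTheory unitInterval Function
open Pool.Agent.Lib.MP_5a3ebe_gt.Gen (Lip Lm)
open scoped ENNReal

lemma BiLip.add_lip {γ : Circle → ℂ} {L κ : ℝ} {F H : ℂ → ℂ} (hF : BiLip γ L F) (hL : 1 ≤ L)
    (hH : Lip κ H) (hκ : κ * (2 * L) ≤ 1) : BiLip γ (2 * L) fun z => F z + H z := fun s t => by
  have h1 := (hF s t).1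
  have h2 := (hF s t).2
  have h3 := hH (γ s) (γ t)
  have hn := norm_nonneg (γ s - γ t)
  have h4 : L * ‖H (γ s) - H (γ t)‖ ≤ ‖γ s - γ t‖ / 2 := by
    have := mul_le_mul_of_nonneg_left h3 (by linarith : (0 : ℝ) ≤ L)
    nlinarith
  have h5 := le_mul_of_one_le_left (norm_nonneg (H (γ s) - H (γ t))) hL
  have h6 := le_mul_of_one_le_left hn hL
  set X := F (γ s) + H (γ s) - (F (γ t) + H (γ t)) with hX
  constructor
  · have h7 := norm_sub_le X (H (γ s) - H (γ t))
    rw [show X - (H (γ s) - H (γ t)) = F (γ s) - F (γ t) by rw [hX]; ring] at h7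
    have h8 := mul_le_mul_of_nonneg_left h7 (by linarith : (0 : ℝ) ≤ L)
    show _ ≤ 2 * L * ‖X‖
    linarith
  · have h7 := norm_add_le (F (γ s) - F (γ t)) (H (γ s) - H (γ t))
    rw [show F (γ s) - F (γ t) + (H (γ s) - H (γ t)) = X by rw [hX]; ring] at h7
    show ‖X‖ ≤ _
    linarith

/-- small translations on the grids of `A` -/
noncomputable def smallX (η R0 : ℝ) {N : ℕ} (A : Finset (Fin 9)) (w : Fin 9 → Cell N → I × I)
    (z : ℂ) : ℂ :=
  ∑ m' ∈ A, gridX (R0 / η ^ 101) m' (fun u => ((R0 / η / 64 : ℝ) : ℂ) * val (w m' u)) z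

lemma smallX_update (η R0 : ℝ) {N : ℕ} (m : Fin 9) (w : Fin 9 → Cell N → I × I)
    (X : Cell N → I × I) :
    smallX η R0 (Finset.univ.erase m) (update w m X) = smallX η R0 (Finset.univ.erase m) w := by
  funext z
  exact Finset.sum_congr rfl fun m' hm => by rw [update_of_ne (Finset.ne_of_mem_erase hm)]

lemma fieldX_update (η R0 : ℝ) {N : ℕ} (m : Fin 9) (w : Fin 9 → Cell N → I × I)
    (X : Cell N → I × I) (z : ℂ) : fieldX η R0 m (update w m X) z =
      gridX (R0 / η ^ 101) m (fun u => ((R0 / η : ℝ) : ℂ) * val (X u)) z +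
        smallX η R0 (Finset.univ.erase m) w z := by
  rw [fieldX, ← Finset.add_sum_erase _ _ (Finset.mem_univ m), if_pos rfl, update_self]
  congr 1
  exact Finset.sum_congr rfl fun m' hm => by
    rw [update_of_ne (Finset.ne_of_mem_erase hm), if_neg (Finset.ne_of_mem_erase hm)]

lemma continuous_smallX (η R0 : ℝ) (N : ℕ) (A : Finset (Fin 9)) (z : ℂ) :
    Continuous fun w : Fin 9 → Cell N → I × I => smallX η R0 A w z := by
  have hv := continuous_val
  refine continuous_finsetSum _ fun m' _ => continuous_finsetSum _ fun u _ => ?_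
  exact continuous_const.mul (continuous_const.mul (hv.comp (by fun_prop)))

theorem stage : Stage := by
  intro γ hc L hL
  obtain ⟨K, hK1, hK⟩ := exists_lip
  obtain ⟨p, q, η1, hp, hq, hη1, H⟩ := condP (2 * L) (by linarith)
  refine ⟨q / 81, p, min η1 (1 / (4 * K * L)), by positivity, hp, by positivity,
    fun η R0 hη hη0 hR N hN hap F hFc hF T _ _ _ _ P _ h hh hsup => ?_⟩
  have hηa : η * (4 * K * L) ≤ 1 :=
    (le_div_iff₀ (by positivity)).1 (hη0.trans (min_le_right _ _))
  have hKL : 1 ≤ K * L := one_le_mul_of_one_le_of_one_le hK1 hL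
  have hηL : η * (4 * L) ≤ 1 := by nlinarith [mul_pos hη (by linarith : 0 < L)]
  have hη' : η ≤ 1 := by nlinarith
  have hb : 0 < R0 / η := by positivity
  have hρ : 0 < R0 / η ^ 101 := by positivity
  have hlip : ∀ (A : Finset (Fin 9)) (w : Fin 9 → Cell N → I × I),
      BiLip γ (2 * L) fun z => F z + smallX η R0 A w z := fun A w => by
    refine hF.add_lip hL (Lip.sum A fun m' => (hK η R0 hη hR N).1 m' _ fun u =>
      norm_amp_le (by positivity) (by linarith) _) ?_
    have h1 : (A.card : ℝ) ≤ 9 := by exact_mod_cast A.card_le_univ.trans (by simp)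
    have h2 : η ^ 100 ≤ η := pow_le_of_le_one hη.le hη' (by norm_num)
    calc (A.card : ℝ) * (K / 18 * η ^ 100) * (2 * L) ≤ 9 * (K / 18 * η) * (2 * L) := by gcongr
      _ ≤ 1 := by nlinarith [mul_pos hη (by linarith : 0 < K * L)]
  let A : Fin 9 → Set (Fin 9 → Cell N → I × I) := fun m => {w | ∃ Q : Fin 4 → Cell N,
    Injective Q ∧ yQ (R0 / η / 64) Q (w m) ∈
      AQ γ (fun z => F z + smallX η R0 (Finset.univ.erase m) w z) (R0 / η ^ 101) (η ^ 102 * R0)
        (R0 / η) m Q}
  have hA : ∀ m, MeasurableSet (A m) := fun m => by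
    simp only [A, AQ, mem_ofPred_eq]
    rw [ofPred_exists]
    refine MeasurableSet.iUnion fun Q => (MeasurableSet.const _).inter ?_
    have hy : Continuous fun w : Fin 9 → Cell N → I × I => yQ (R0 / η / 64) Q (w m) :=
      (yQ_continuous _ Q).comp (continuous_apply m)
    refine (isClosed_le hy.norm continuous_const).measurableSet.inter (IsOpen.measurableSet ?_)
    change IsOpen {w : Fin 9 → Cell N → I × I | ∃ s : Fin 4 → Circle,
      (∀ k, Inn (R0 / η ^ 101) m (Q k) (γ (s k))) ∧ ‖yQ (R0 / η / 64) Q (w m) +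
        Lr fun k => F (γ (s k)) + smallX η R0 (Finset.univ.erase m) w (γ (s k))‖ <
          3 * (η ^ 102 * R0)}
    rw [ofPred_exists]
    refine isOpen_iUnion fun s => isOpen_const.inter (isOpen_lt (hy.add ?_).norm continuous_const)
    exact Lr_continuous.comp
      (continuous_pi fun k => continuous_const.add (continuous_smallX η R0 N _ _))
  have hcov : ∀ w, ∃ m, w ∈ A m := fun w => by
    obtain ⟨s, s1, s2⟩ := hap _ (hlip Finset.univ w)
    obtain ⟨m, Q, hQ⟩ := exists_grid hρ (N := N) (fun k => γ (s k)) fun k => by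
      refine le_trans ?_ (hN (s k))
      have : η ^ 101 ≤ η := pow_le_of_le_one hη.le hη' (by norm_num)
      gcongr
    refine ⟨m, Q, fun k l hkl => by_contra fun hne => ?_, ?_, s, hQ, ?_⟩
    · have a1 := (hQ k).norm_le
      have a2 := (hQ l).norm_le
      rw [hkl] at a1
      have a3 := norm_sub_le (γ (s k) - ctr (R0 / η ^ 101) m (Q l))
        (γ (s l) - ctr (R0 / η ^ 101) m (Q l))
      rw [sub_sub_sub_cancel_right] at a3
      have a4 := (s2 k l hne).trans (hlip Finset.univ w (s k) (s l)).2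
      have a5 : R0 / η ^ 101 = η * (R0 / η ^ 102) := by field_simp
      have a6 : 0 < R0 / η ^ 102 := by positivity
      have a7 : 2 * L * ‖γ (s k) - γ (s l)‖ ≤ 2 * L * (16 / 9 * (η * (R0 / η ^ 102))) := by
        gcongr
        linarith
      nlinarith
    · refine (Lr_norm fun k => norm_amp_le (by positivity) le_rfl _).trans ?_
      linarith
    · have e : yQ (R0 / η / 64) Q (w m) +
          (Lr fun k => F (γ (s k)) + smallX η R0 (Finset.univ.erase m) w (γ (s k))) =
          Lr fun k => F (γ (s k)) + smallX η R0 Finset.univ w (γ (s k)) := by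
        rw [yQ, ← Lr_add]
        congr 1
        funext k
        rw [smallX, smallX, ← Finset.add_sum_erase _ _ (Finset.mem_univ m),
          gridX_plateau hρ (hQ k) (by rw [sub_self, norm_zero]; positivity)]
        ring
      rw [e]
      have a1 : 0 < η ^ 102 * R0 := by positivity
      linarith [Lr_le_Lm fun k => F (γ (s k)) + smallX η R0 Finset.univ w (γ (s k))]
  obtain ⟨m, hm⟩ : ∃ m, 1 / 9 ≤ volume (A m) := by
    obtain ⟨m, -, hm⟩ := Finset.exists_max_image Finset.univ (fun m => volume (A m))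
      Finset.univ_nonempty
    refine ⟨m, ?_⟩
    have h1 : (1 : ℝ≥0∞) ≤ ∑ m', volume (A m') := by
      rw [← measure_univ (μ := (volume : Measure (Fin 9 → Cell N → I × I)))]
      exact (measure_mono fun w _ => mem_iUnion.2 (hcov w)).trans (measure_iUnion_fintype_le _ _)
    have h2 := h1.trans (Finset.sum_le_card_nsmul _ _ _ hm)
    rw [ENNReal.div_le_iff (by norm_num) (by norm_num), mul_comm]
    simpa using h2
  have hSq : MeasurableSet {x : Om N × T | Sq γ fun z => F z + fld η R0 x.1 z + h x.2 z} := by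
    refine measurableSet_Sq γ (fun (x : Om N × T) z => F z + fld η R0 x.1 z + h x.2 z) ?_
    have h1 : Continuous fun q : (Om N × T) × Circle => (q.1.1, γ q.2) := by fun_prop
    have h2 : Continuous fun q : (Om N × T) × Circle => (q.1.2, γ q.2) := by fun_prop
    have h3 := (continuous_fld η R0 N).comp h1
    have h4 := hh.comp h2
    exact ((hFc.comp (hc.comp continuous_snd)).add h3).add h4
  set G : Set (Om N) := {ω |
    P {t | ¬ Sq γ fun z => F z + fld η R0 ω z + h t z} ≤ ENNReal.ofReal (1 - p)} with hGdef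
  have hG : MeasurableSet G :=
    measurableSet_le (measurable_measure_prodMk_left hSq.compl) measurable_const
  have hGin : ∀ ω, ENNReal.ofReal p ≤ P {t | Sq γ fun z => F z + fld η R0 ω z + h t z} →
      ω ∈ G := fun ω hω => by
    have h1 : MeasurableSet {t | Sq γ fun z => F z + fld η R0 ω z + h t z} :=
      measurable_prodMk_left hSq
    have h2 := prob_compl_eq_one_sub (μ := P) h1
    show P {t | Sq γ fun z => F z + fld η R0 ω z + h t z}ᶜ ≤ _
    rw [h2, ENNReal.ofReal_sub _ hp.le, ENNReal.ofReal_one]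
    exact tsub_le_tsub_left hω _
  have hGm : MeasurableSet (Prod.mk m ⁻¹' G) := measurable_prodMk_left hG
  have step1 : 1 / 9 * volume (Prod.mk m ⁻¹' G) ≤ law N G := by
    have h1 : ProbabilityTheory.uniformOn (univ : Set (Fin 9)) {m} = 1 / 9 := by
      rw [ProbabilityTheory.uniformOn_univ]
      simp
    rw [← h1, ← Measure.prod_prod]
    refine measure_mono ?_
    rintro ⟨m', x⟩ ⟨rfl, hx⟩
    exact hx
  have step2 : ENNReal.ofReal (q * η ^ 98) * volume (A m) ≤ volume (Prod.mk m ⁻¹' G) := by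
    have hφ := measurable_measure_prodMk_left (ν := (volume : Measure (Fin 9 × Cell N → I × I))) hGm
    rw [Measure.volume_eq_prod, Measure.prod_apply hGm, resample m hφ,
      ← lintegral_indicator_one (hA m), resample m (measurable_one.indicator (hA m)),
      ← lintegral_const_mul' _ _ ENNReal.ofReal_ne_top]
    refine lintegral_mono fun w => ?_
    have hu : Measurable fun X : Cell N → I × I => update w m X := measurable_update w
    have hG' : MeasurableSet {x : (Cell N → I × I) × (Fin 9 × Cell N → I × I) |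
        (update w m x.1, x.2) ∈ Prod.mk m ⁻¹' G} :=
      ((hu.comp measurable_fst).prodMk measurable_snd) hGm
    have h1 := H η hη (hη0.trans (min_le_left _ _)) R0 hR N γ hc (fun s => by
      have := hN s
      rw [← div_le_iff₀ hb]
      linarith) _ (hlip (Finset.univ.erase m) w) T P h hh (fun t z => (hsup t z).trans (by
        have : η ^ 300 ≤ η ^ 102 := pow_le_pow_of_le_one hη.le hη' (by norm_num)
        gcongr)) m _ hG' (fun X μ hX => hGin _ (by
          convert hX using 5 with t
          funext z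
          simp only [fld, fieldX_update]
          ring))
    rw [Measure.volume_eq_prod, Measure.prod_apply hG'] at h1
    refine le_trans (le_of_eq ?_) h1
    congr 1
    have e : {X : Cell N → I × I | ∃ Q : Fin 4 → Cell N, Injective Q ∧ yQ (R0 / η / 64) Q X ∈
        AQ γ (fun z => F z + smallX η R0 (Finset.univ.erase m) w z) (R0 / η ^ 101)
          (η ^ 102 * R0) (R0 / η) m Q} = (fun X => update w m X) ⁻¹' A m := by
      ext X
      simp only [A, mem_preimage, mem_ofPred_eq, smallX_update, update_self]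
    rw [e, ← lintegral_indicator_one (hu (hA m))]
    rfl
  calc ENNReal.ofReal (q / 81 * η ^ 99) ≤ ENNReal.ofReal (1 / 9 * (q * η ^ 98 * (1 / 9))) := by
        refine ENNReal.ofReal_le_ofReal ?_
        have : η ^ 99 ≤ η ^ 98 := pow_le_pow_of_le_one hη.le hη' (by norm_num)
        nlinarith
    _ = 1 / 9 * (ENNReal.ofReal (q * η ^ 98) * (1 / 9)) := by
        have h9 : ENNReal.ofReal (1 / 9) = 1 / 9 := by
          rw [ENNReal.ofReal_div_of_pos (by norm_num)]
          simp
        rw [ENNReal.ofReal_mul (by norm_num), ENNReal.ofReal_mul (by positivity), h9]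
    _ ≤ 1 / 9 * volume (Prod.mk m ⁻¹' G) := by
        gcongr
        exact le_trans (by gcongr) step2
    _ ≤ law N G := step1

theorem prevalent (γ : Circle → ℂ) (hc : Continuous γ) (hi : Injective γ) (ε : NNReal)
    (hε : 0 < ε) :
    letI : MeasurableSpace C(ℂ, ℂ) := borel _
    ∃ (μ : Measure C(ℂ, ℂ)) (S : Set C(ℂ, ℂ)), IsProbabilityMeasure μ ∧ IsCompact S ∧ μ Sᶜ = 0 ∧
      (∀ g ∈ S, ContDiff ℝ 1 g ∧ LipschitzWith ε g ∧ ∀ z, ‖g z‖ ≤ ε) ∧
      ∀ (f : ℂ → ℂ) (K : NNReal), LipschitzWith K f → ∀ᵐ g ∂μ,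
        (∃ M : ℝ, ∀ s t, ‖γ s - γ t‖ ≤ M * ‖f (γ s) + g (γ s) - (f (γ t) + g (γ t))‖) →
          Sq γ fun z => f z + g z :=
  final_of_stage stage γ hc hi ε hε

end Pool.Agent.Lib.MP_5a3ebe_gt.Pv
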