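import Pool.Agent.Lib.MP_5a3ebe_gt.PvDefs2
import Pool.Agent.Lib.MP_5a3ebe_gt.PvCoverT
import Pool.Agent.Lib.MP_5a3ebe_gt.PvField

/-!
The square map in turned coordinates; cells.
-/

set_option linter.unusedVariables false

namespace Pool.Agent.Lib.MP_5a3ebe_gt.Pv

open Set Complex MeasureTheory unitInterval Function
open Pool.Agent.Lib.MP_5a3ebe_gt.Gen (Lip Lm)
open scoped ENNReal

theorem Lt_add (u v : Fin 4 → ℂ) : Lt (fun k => u k + v k) = Lt u + Lt v := by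
  simp only [Lt, Prod.mk_add_mk, Prod.mk.injEq]; constructor <;> ring

theorem Lt_neg (u : Fin 4 → ℂ) : Lt (fun k => -u k) = -Lt u := by
  simp only [Lt, Prod.neg_mk, Prod.mk.injEq]; constructor <;> ring

theorem Lr_add (u v : Fin 4 → ℂ) : Lr (fun k => u k + v k) = Lr u + Lr v := by
  simp only [Lr, add_div, Lt_add]

theorem Lr_sub (u v : Fin 4 → ℂ) : Lr (fun k => u k - v k) = Lr u - Lr v := by
  rw [eq_sub_iff_add_eq, ← Lr_add]; simp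

theorem Lr_continuous : Continuous Lr :=
  continuous_Lt.comp (continuous_pi fun k => (continuous_apply k).div_const _)

theorem zt_norm (k : Fin 4) : 1 ≤ ‖zt k‖ ∧ ‖zt k‖ ≤ 3 / 2 := by
  have h : ‖zt k‖ ^ 2 = 1 ∨ ‖zt k‖ ^ 2 = 2 := by
    rw [Complex.sq_norm, normSq_apply]
    fin_cases k <;> simp [zt] <;> norm_num
  have h0 := norm_nonneg (zt k)
  rcases h with h | h <;> constructor <;> nlinarith

theorem zt_ne (k : Fin 4) : zt k ≠ 0 := norm_pos_iff.1 (by linarith [(zt_norm k).1])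

theorem norm_div_zt (z : ℂ) (k : Fin 4) : ‖z / zt k‖ ≤ ‖z‖ := by
  rw [norm_div]; exact div_le_self (norm_nonneg _) (zt_norm k).1

theorem norm_le_div_zt (z : ℂ) (k : Fin 4) : ‖z‖ ≤ 3 / 2 * ‖z / zt k‖ := by
  have h : z = zt k * (z / zt k) := by rw [mul_div_cancel₀ _ (zt_ne k)]
  nth_rewrite 1 [h]
  rw [norm_mul]
  exact mul_le_mul_of_nonneg_right (zt_norm k).2 (norm_nonneg _)

theorem Lt_norm {u : Fin 4 → ℂ} {b : ℝ} (h : ∀ k, ‖u k‖ ≤ b) : ‖Lt u‖ ≤ 3 * b := by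
  rw [Lt, Prod.norm_mk]
  refine max_le ?_ ?_
  · linarith [norm_add_le (u 0 - u 1) (u 3), norm_sub_le (u 0) (u 1), h 0, h 1, h 3]
  · linarith [norm_sub_le (u 2 - u 1) (u 3), norm_sub_le (u 2) (u 1), h 2, h 1, h 3]

theorem Lr_norm {u : Fin 4 → ℂ} {b : ℝ} (h : ∀ k, ‖u k‖ ≤ b) : ‖Lr u‖ ≤ 3 * b :=
  Lt_norm fun k => (norm_div_zt _ k).trans (h k)

theorem turn_Lr (u : Fin 4 → ℂ) : turn (Lr u) = Lm u := by
  rw [Lr, turn_Lt]
  congr 1; funext k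
  rw [mul_div_cancel₀ _ (zt_ne k)]

theorem Lr_le_Lm (u : Fin 4 → ℂ) : ‖Lr u‖ ≤ 2 * ‖Lm u‖ := by
  rw [← turn_Lr]
  set y := Lr u
  have h1 : ‖y.1 + Complex.I * y.2‖ ≤ ‖turn y‖ := norm_fst_le (turn y)
  have h2 : ‖(Complex.I - 1) * y.1‖ ≤ ‖turn y‖ := norm_snd_le (turn y)
  have h3 : ‖y.1‖ ≤ ‖(Complex.I - 1) * y.1‖ := by
    rw [norm_mul]
    exact le_mul_of_one_le_left (norm_nonneg _) (zt_norm 3).1
  have h4 := norm_sub_le (y.1 + Complex.I * y.2) y.1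
  rw [add_sub_cancel_left, norm_mul, norm_I, one_mul] at h4
  rw [Prod.norm_def]
  exact max_le (by linarith [norm_nonneg (turn y)]) (by linarith)

theorem sq_of_Lr {γ : Circle → ℂ} {H : ℂ → ℂ} (s : Fin 4 → Circle)
    (h : Lr (fun k => H (γ (s k))) = 0) (hne : H (γ (s 1)) ≠ H (γ (s 0))) : Sq γ H := by
  have h0 := turn_Lr fun k => H (γ (s k))
  rw [h, map_zero, Gen.Lm, eq_comm, Prod.mk_eq_zero] at h0
  obtain ⟨e1, e2⟩ := h0
  refine ⟨H (γ (s 0)), H (γ (s 1)) - H (γ (s 0)), sub_ne_zero.2 hne, ⟨s 0, rfl⟩, ⟨s 1, by ring⟩,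
    ⟨s 2, ?_⟩, ⟨s 3, ?_⟩⟩
  · linear_combination e1 + e2
  · linear_combination e2

/-- if one slot of `Lr` is free and the others are bounded, the free slot is bounded -/
theorem slot_le {u : Fin 4 → ℂ} {k : Fin 4} {a b : ℝ} (h : ‖Lr u‖ ≤ a)
    (hb : ∀ l, l ≠ k → ‖u l‖ ≤ b) : ‖u k‖ ≤ 2 * (a + 2 * b) := by
  set c : Fin 4 → ℂ := fun l => u l / zt l with hc
  have hb' : ∀ l, l ≠ k → ‖c l‖ ≤ b := fun l hl => (norm_div_zt _ l).trans (hb l hl)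
  have h1 : ‖c 0 - c 1 + c 3‖ ≤ a := (norm_fst_le (Lr u)).trans h
  have h2 : ‖c 2 - c 1 - c 3‖ ≤ a := (norm_snd_le (Lr u)).trans h
  have h3 := norm_le_div_zt (u k) k
  have tri : ∀ x y z w : ℂ, ‖w‖ = ‖x - y - z‖ → ‖w‖ ≤ ‖x‖ + ‖y‖ + ‖z‖ := fun x y z w e => by
    linarith [norm_sub_le (x - y) z, norm_sub_le x y]
  have h4 : ‖c k‖ ≤ a + 2 * b := by
    fin_cases k
    · have := tri (c 0 - c 1 + c 3) (-c 1) (c 3) (c 0) (by congr 1; ring)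
      rw [norm_neg] at this
      have := hb' 1 (by decide)
      have := hb' 3 (by decide)
      show ‖c 0‖ ≤ _
      linarith
    · have := tri (c 0 - c 1 + c 3) (c 0) (c 3) (c 1) (by rw [← norm_neg]; congr 1; ring)
      have := hb' 0 (by decide)
      have := hb' 3 (by decide)
      show ‖c 1‖ ≤ _
      linarith
    · have := tri (c 2 - c 1 - c 3) (-c 1) (-c 3) (c 2) (by congr 1; ring)
      rw [norm_neg, norm_neg] at this
      have := hb' 1 (by decide)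
      have := hb' 3 (by decide)
      show ‖c 2‖ ≤ _
      linarith
    · have := tri (c 0 - c 1 + c 3) (c 0) (-c 1) (c 3) (by congr 1; ring)
      rw [norm_neg] at this
      have := hb' 0 (by decide)
      have := hb' 1 (by decide)
      show ‖c 3‖ ≤ _
      linarith
  have h5 := norm_nonneg (c k)
  linarith

theorem ctr_sub_re (ρ : ℝ) (m : Fin 9) (u u' : ℤ × ℤ) :
    (ctr ρ m u - ctr ρ m u').re = ρ * ((u.1 - u'.1 : ℤ) : ℝ) := by
  simp [ctr]; ring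

theorem ctr_sub_im (ρ : ℝ) (m : Fin 9) (u u' : ℤ × ℤ) :
    (ctr ρ m u - ctr ρ m u').im = ρ * ((u.2 - u'.2 : ℤ) : ℝ) := by
  simp [ctr]; ring

theorem inn_coord {ρ : ℝ} (hρ : 0 < ρ) {m : Fin 9} {u u' : ℤ × ℤ} {p p' : ℂ} (hp : Inn ρ m u p)
    (hp' : Inn ρ m u' p') : ρ * |((u.1 - u'.1 : ℤ) : ℝ)| ≤ ‖p - p'‖ + 8 / 9 * ρ ∧
      ρ * |((u.2 - u'.2 : ℤ) : ℝ)| ≤ ‖p - p'‖ + 8 / 9 * ρ := by
  have e : ctr ρ m u - ctr ρ m u' = (p - p') - (p - ctr ρ m u) + (p' - ctr ρ m u') := by ring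
  have tri : ∀ x y z : ℝ, |x - y + z| ≤ |x| + |y| + |z| := fun x y z => by
    linarith [abs_add_le (x - y) z, abs_sub x y]
  constructor
  · have h1 := ctr_sub_re ρ m u u'
    rw [← abs_of_pos hρ, ← abs_mul, ← h1, e, add_re, sub_re, abs_of_pos hρ]
    linarith [tri (p - p').re (p - ctr ρ m u).re (p' - ctr ρ m u').re, hp.1, hp'.1,
      Complex.abs_re_le_norm (p - p')]
  · have h1 := ctr_sub_im ρ m u u'
    rw [← abs_of_pos hρ, ← abs_mul, ← h1, e, add_im, sub_im, abs_of_pos hρ]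
    linarith [tri (p - p').im (p - ctr ρ m u).im (p' - ctr ρ m u').im, hp.2, hp'.2,
      Complex.abs_im_le_norm (p - p')]

theorem inn_sep {ρ : ℝ} (hρ : 0 < ρ) {m : Fin 9} {u u' : ℤ × ℤ} {p p' : ℂ} (hp : Inn ρ m u p)
    (hp' : Inn ρ m u' p') (h : u ≠ u') : ρ / 9 ≤ ‖p - p'‖ := by
  obtain ⟨h1, h2⟩ := inn_coord hρ hp hp'
  have one : ∀ a : ℤ, a ≠ 0 → ρ ≤ ρ * |(a : ℝ)| := fun a ha => by
    have : (1 : ℝ) ≤ |(a : ℝ)| := by exact_mod_cast Int.one_le_abs ha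
    nlinarith
  by_cases h0 : u.1 = u'.1
  · have := one (u.2 - u'.2) (sub_ne_zero.2 fun h3 => h (Prod.ext h0 h3))
    linarith
  · have := one (u.1 - u'.1) (sub_ne_zero.2 h0)
    linarith

theorem inn_near {ρ : ℝ} (hρ : 0 < ρ) {m : Fin 9} {u : ℤ × ℤ} {p p' : ℂ} (hp : Inn ρ m u p)
    (hp' : Inn ρ m u p') : ‖p - p'‖ ≤ 2 * ρ := by
  have := norm_sub_le (p - ctr ρ m u) (p' - ctr ρ m u)
  rw [sub_sub_sub_cancel_right] at this
  linarith [hp.norm_le, hp'.norm_le]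

theorem inn_index {ρ : ℝ} (hρ : 0 < ρ) {m : Fin 9} {u u' : ℤ × ℤ} {p p' : ℂ} (hp : Inn ρ m u p)
    (hp' : Inn ρ m u' p') {M : ℕ} (h : ‖p - p'‖ ≤ M * ρ) :
    |u.1 - u'.1| ≤ M + 1 ∧ |u.2 - u'.2| ≤ M + 1 := by
  obtain ⟨h1, h2⟩ := inn_coord hρ hp hp'
  have key : ∀ a : ℤ, ρ * |(a : ℝ)| ≤ ‖p - p'‖ + 8 / 9 * ρ → |a| ≤ M + 1 := fun a ha => by
    have h3 : ρ * |(a : ℝ)| ≤ ρ * (M + 1) := by nlinarith
    have h4 := le_of_mul_le_mul_left h3 hρ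
    exact_mod_cast h4
  exact ⟨key _ h1, key _ h2⟩

theorem Plate.neg_mem {P : Plate} {C : ℝ} {y : ℂ × ℂ} (h : y ∈ P.V C) : -y ∈ P.V C := by
  have a : ∀ z, P.al (-z) = -P.al z := fun z => by simp [Plate.al]; ring
  have b : ∀ z, P.be (-z) = -P.be z := fun z => by simp [Plate.be]; ring
  have c : P.ell (-y) = -P.ell y := by
    simp only [Plate.ell, Prod.fst_neg, Prod.snd_neg, a, b]; ring
  simpa only [Plate.V, mem_ofPred_eq, Prod.fst_neg, Prod.snd_neg, a, b, c, abs_neg] using h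

theorem Plate.norm_le {P : Plate} {C η R0 : ℝ} (hP : P.Valid C η R0) {y : ℂ × ℂ}
    (h : y ∈ P.V C) : ‖y‖ ≤ 2 * C * R0 := by
  have hs := hP.s0
  have hR : 0 < P.R := hs.trans_le hP.s1
  have hC : 0 ≤ C := (abs_nonneg _).trans h.1
  have key : ∀ z, |P.al z| ≤ C → |P.be z| ≤ C → ‖z‖ ≤ 2 * C * R0 := fun z h1 h2 => by
    rw [Plate.al, abs_div, abs_of_pos hR, div_le_iff₀ hR] at h1
    rw [Plate.be, abs_div, abs_of_pos hs, div_le_iff₀ hs] at h2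
    have h3 := Complex.norm_le_abs_re_add_abs_im ((starRingEnd ℂ) P.th * z)
    rw [norm_mul, norm_conj, hP.th, one_mul] at h3
    have h4 := mul_le_mul_of_nonneg_left hP.R2 hC
    have h5 := mul_le_mul_of_nonneg_left (hP.s1.trans hP.R2) hC
    linarith
  rw [Prod.norm_def]
  exact max_le (key _ h.1 h.2.2.1) (key _ h.2.1 h.2.2.2.1)

end Pool.Agent.Lib.MP_5a3ebe_gt.Pv
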