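import Pool.Agent.Lib.MP_5a3ebe_gt.Arc

/-!
No square near an arc of length `3π/4` with two adjacent vertices near the end points.
-/

set_option autoImplicit false
set_option linter.unusedSectionVars false
set_option linter.unusedVariables false

namespace Pool.Agent.Lib.MP_5a3ebe_gt

open Real Complex

lemma sin38 : Real.sin (3 * π / 8) = Real.cos (π / 8) := by
  rw [← Real.sin_pi_div_two_sub]; congr 1; ring

lemma cos38 : Real.cos (3 * π / 8) = Real.sin (π / 8) := by
  rw [← Real.cos_pi_div_two_sub]; congr 1; ring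

lemma bs8 : 2 * Real.sin (π / 8) * Real.cos (π / 8) = √2 / 2 := by
  rw [← Real.sin_two_mul, ← Real.sin_pi_div_four]; congr 1; ring

lemma bb8 : Real.cos (π / 8) ^ 2 = 1 / 2 + √2 / 4 := by
  rw [Real.cos_sq, show 2 * (π / 8) = π / 4 by ring, Real.cos_pi_div_four]; ring

lemma s8_pos : 0 < Real.sin (π / 8) :=
  Real.sin_pos_of_pos_of_lt_pi (by positivity) (by linarith [pi_pos])

lemma b8_pos : 0 < Real.cos (π / 8) :=
  Real.cos_pos_of_mem_Ioo ⟨by linarith [pi_pos], by linarith [pi_pos]⟩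

lemma re_le_of {Λ z : ℂ} {r δ : ℝ} (hz : ‖z‖ ≤ δ) (hr : ‖Λ‖ ≤ r) : -(r * δ) ≤ (Λ * z).re := by
  have h1 := Complex.abs_re_le_norm (Λ * z)
  rw [norm_mul] at h1
  have h2 : ‖Λ‖ * ‖z‖ ≤ r * δ := mul_le_mul hr hz (norm_nonneg _) ((norm_nonneg _).trans hr)
  linarith [neg_abs_le (Λ * z).re]

lemma norm_le_of {p q r : ℝ} (hr : 0 ≤ r) (h : p ^ 2 + q ^ 2 ≤ r ^ 2) :
    ‖(p + q * I : ℂ)‖ ≤ r := by
  rw [Complex.norm_add_mul_I]
  exact Real.sqrt_le_iff.2 ⟨hr, h⟩

/-- the lower envelope of the integrands -/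
noncomputable def gs (t : ℝ) : ℝ :=
  min (2 * Real.cos (π / 8) * Real.cos |t| - 0 * Real.sin |t|)
    ((2 * Real.cos (π / 8) + Real.sin (π / 8)) * Real.cos |t| - Real.cos (π / 8) * Real.sin |t|)

lemma gs_cont : Continuous gs := by unfold gs; fun_prop

lemma gs_int : ∫ t in (-(3 * π / 8))..(3 * π / 8), gs t = 2 * √2 := by
  have hpi := pi_pos
  have hi : ∀ a b, IntervalIntegrable gs MeasureTheory.volume a b := gs_cont.intervalIntegrable
  have hout : ∀ t : ℝ, π / 8 ≤ |t| → |t| ≤ 3 * π / 8 → gs t =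
      (2 * Real.cos (π / 8) + Real.sin (π / 8)) * Real.cos |t| -
        Real.cos (π / 8) * Real.sin |t| := by
    intro t h1 h2
    refine min_eq_right ?_
    have := Real.sin_nonneg_of_nonneg_of_le_pi (x := |t| - π / 8) (by linarith) (by linarith)
    rw [Real.sin_sub] at this
    linarith
  have hin : ∀ t : ℝ, |t| ≤ π / 8 → gs t =
      2 * Real.cos (π / 8) * Real.cos |t| - 0 * Real.sin |t| := by
    intro t h1
    refine min_eq_left ?_
    have := Real.sin_nonneg_of_nonneg_of_le_pi (x := π / 8 - |t|) (by linarith)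
      (by linarith [abs_nonneg t])
    rw [Real.sin_sub] at this
    linarith
  rw [← intervalIntegral.integral_add_adjacent_intervals (hi _ (-(π / 8))) (hi _ _),
    ← intervalIntegral.integral_add_adjacent_intervals (hi (-(π / 8)) (π / 8)) (hi _ _),
    intervalIntegral.integral_congr (a := -(3 * π / 8)) (fun t ht => hout t ?_ ?_),
    intervalIntegral.integral_congr (a := -(π / 8)) (fun t ht => hin t ?_),
    intervalIntegral.integral_congr (a := π / 8) (fun t ht => hout t ?_ ?_),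
    int_cs, int_cs, int_cs, Kf_neg (t := -(π / 8)) (by linarith),
    Kf_neg (t := -(3 * π / 8)) (by linarith), Kf_pos (t := π / 8) (by linarith),
    Kf_pos (t := 3 * π / 8) (by linarith)]
  · simp only [Real.sin_neg, Real.cos_neg, sin38, cos38]
    have := Real.sin_sq_add_cos_sq (π / 8)
    nlinarith [bs8, bb8]
  all_goals
    rw [Set.uIcc_of_le (by linarith)] at ht
    first
    | exact abs_le.2 ⟨by linarith [ht.1], by linarith [ht.2]⟩
    | exact le_abs.2 (Or.inl (by linarith [ht.1]))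
    | exact le_abs.2 (Or.inr (by linarith [ht.2]))

lemma Arc.gs_le {β : ℝ → ℂ} {ψ : ℝ → ℝ} (h : Arc β ψ) (h0 : ψ 0 = 0) {p q a b : ℝ} (hp : 0 ≤ p)
    (hab : a ≤ b) (ha : -(3 * π / 8) ≤ a) (hb : b ≤ 3 * π / 8)
    (hg : ∀ t, |t| ≤ π / 2 → gs t ≤ p * Real.cos |t| - |q| * Real.sin |t|) :
    ∫ t in a..b, gs t ≤ ((p + q * I) * (β b - β a)).re := by
  refine h.int_le _ hab gs_cont fun s hs => ?_
  have : |s| ≤ π / 2 := abs_le.2 ⟨by linarith [hs.1, pi_pos], by linarith [hs.2, pi_pos]⟩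
  exact (hg s this).trans (trig_le hp (by simpa [h0] using h.lip s 0) this)

theorem Arc.side0 {β : ℝ → ℂ} {ψ : ℝ → ℝ} (h : Arc β ψ) (h0 : ψ 0 = 0) {δ : ℝ}
    (hδ : δ < √2 - 1) {A B C D : ℂ} {u v : ℝ} (hA : ‖A - β (-(3 * π / 8))‖ ≤ δ)
    (hB : ‖B - β (3 * π / 8)‖ ≤ δ) (hC : ‖C - β u‖ ≤ δ) (hD : ‖D - β v‖ ≤ δ)
    (hu : |u| ≤ 3 * π / 8) (hv : |v| ≤ 3 * π / 8) (eC : C = B + I * (B - A))
    (eD : D = A + I * (B - A)) : False := by
  obtain ⟨b, hb⟩ : ∃ b, b = Real.cos (π / 8) := ⟨_, rfl⟩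
  obtain ⟨s, hs⟩ : ∃ s, s = Real.sin (π / 8) := ⟨_, rfl⟩
  have b0 : 0 < b := hb ▸ b8_pos
  have s0 : 0 < s := hs ▸ s8_pos
  have e1 : 2 * s * b = √2 / 2 := by rw [hb, hs]; exact bs8
  have e2 : b ^ 2 = 1 / 2 + √2 / 4 := by rw [hb]; exact bb8
  have e3 : s ^ 2 + b ^ 2 = 1 := by rw [hb, hs]; exact Real.sin_sq_add_cos_sq _
  have q2 : √2 ^ 2 = 2 := Real.sq_sqrt (by norm_num)
  have q0 : 0 ≤ √2 := Real.sqrt_nonneg _
  have hi : ∀ a b, IntervalIntegrable gs MeasureTheory.volume a b := gs_cont.intervalIntegrable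
  rw [abs_le] at hu hv
  have gout : ∀ (q : ℝ), |q| = b → ∀ t, |t| ≤ π / 2 →
      gs t ≤ (2 * b + s) * Real.cos |t| - |q| * Real.sin |t| := by
    intro q hq t _
    rw [hq, hb, hs]; exact min_le_right _ _
  have gin : ∀ (p : ℝ), 2 * b ≤ p → ∀ t, |t| ≤ π / 2 →
      gs t ≤ p * Real.cos |t| - |(0 : ℝ)| * Real.sin |t| := by
    intro p hp t ht
    refine (min_le_left _ _).trans ?_
    have : 0 ≤ Real.cos |t| :=
      Real.cos_nonneg_of_mem_Icc ⟨by linarith [abs_nonneg t, pi_pos], ht⟩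
    rw [← hb, abs_zero]
    nlinarith
  have n1 := re_le_of hB (norm_le_of (p := 2 * b + s) (q := -b) (r := 1 + √2) (by positivity)
    (by nlinarith))
  have n2 := re_le_of hA (norm_le_of (p := -(2 * b + s)) (q := -b) (r := 1 + √2) (by positivity)
    (by nlinarith))
  have n3 := re_le_of hC (norm_le_of (p := -s) (q := b) (r := 1) (by positivity) (by nlinarith))
  have n4 := re_le_of hD (norm_le_of (p := s) (q := b) (r := 1) (by positivity) (by nlinarith))
  have tot := gs_int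
  have key : 2 * √2 ≤ ((((2 * b + s : ℝ) : ℂ) + ((-b : ℝ) : ℂ) * I) * β (3 * π / 8) +
      (((-(2 * b + s) : ℝ) : ℂ) + ((-b : ℝ) : ℂ) * I) * β (-(3 * π / 8)) +
      (((-s : ℝ) : ℂ) + (b : ℂ) * I) * β u + ((s : ℂ) + (b : ℂ) * I) * β v).re := by
    rcases le_total u v with huv | huv
    · have i1 := h.gs_le h0 (by positivity) hu.1 le_rfl hu.2 (gout b (abs_of_pos b0))
      have i2 := h.gs_le h0 (p := 2 * b + 2 * s) (by positivity) huv hu.1 hv.2
        (gin _ (by linarith))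
      have i3 := h.gs_le h0 (by positivity) hv.2 hv.1 le_rfl
        (gout (-b) (by rw [abs_neg, abs_of_pos b0]))
      rw [← intervalIntegral.integral_add_adjacent_intervals (hi _ u) (hi _ _),
        ← intervalIntegral.integral_add_adjacent_intervals (hi u v) (hi _ _)] at tot
      simp only [Complex.add_re, Complex.mul_re, Complex.mul_im, Complex.add_im, Complex.sub_re,
        Complex.sub_im, Complex.ofReal_re, Complex.ofReal_im, Complex.I_re, Complex.I_im]
        at i1 i2 i3 ⊢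
      linarith
    · have i1 := h.gs_le h0 (by positivity) hv.1 le_rfl hv.2 (gout b (abs_of_pos b0))
      have i2 := h.gs_le h0 (p := 2 * b) (by positivity) huv hv.1 hu.2 (gin _ le_rfl)
      have i3 := h.gs_le h0 (by positivity) hu.2 hu.1 le_rfl
        (gout (-b) (by rw [abs_neg, abs_of_pos b0]))
      rw [← intervalIntegral.integral_add_adjacent_intervals (hi _ v) (hi _ _),
        ← intervalIntegral.integral_add_adjacent_intervals (hi v u) (hi _ _)] at tot
      simp only [Complex.add_re, Complex.mul_re, Complex.mul_im, Complex.add_im, Complex.sub_re,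
        Complex.sub_im, Complex.ofReal_re, Complex.ofReal_im, Complex.I_re, Complex.I_im]
        at i1 i2 i3 ⊢
      linarith
  subst eC eD
  simp only [Complex.add_re, Complex.mul_re, Complex.mul_im, Complex.add_im, Complex.sub_re,
    Complex.sub_im, Complex.ofReal_re, Complex.ofReal_im, Complex.I_re, Complex.I_im]
    at n1 n2 n3 n4 key
  nlinarith

end Pool.Agent.Lib.MP_5a3ebe_gt
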