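import Mathlib.Tactic
import Mathlib.Data.Real.Basic

/-! Affine arithmetic in three variables on residues modulo `2^128`, fixed point scale `2^32`. -/

namespace Pool.Agent.Lib.MP_5a3ebe_gt.Tab

structure AA where
  c : Nat
  l1 : Nat
  l2 : Nat
  l3 : Nat
  e : Nat
  m : Nat
  r : Nat

structure RW where
  c : Nat
  l1 : Nat
  l2 : Nat
  e : Nat

structure KK where
  c : Nat
  m : Nat

def Rp (X : ℕ) (x : ℤ) : Prop := (X : ℤ) ≡ x [ZMOD 340282366920938463463374607431768211456]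

theorem Rp.add {X Y : ℕ} {x y : ℤ} (h : Rp X x) (g : Rp Y y) : Rp (Nat.add X Y) (x + y) := by
  unfold Rp at *
  have : ((Nat.add X Y : ℕ) : ℤ) = X + Y := by simp [Nat.add_eq]
  rw [this]; exact h.add g

theorem Rp.mul {X Y : ℕ} {x y : ℤ} (h : Rp X x) (g : Rp Y y) : Rp (Nat.mul X Y) (x * y) := by
  unfold Rp at *
  have : ((Nat.mul X Y : ℕ) : ℤ) = X * Y := by simp [Nat.mul_eq]
  rw [this]; exact h.mul g

theorem Rp.nat (n : ℕ) : Rp n n := Int.ModEq.refl _

theorem Rp.zero : Rp 0 0 := Int.ModEq.refl _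

theorem Rp.m1 : Rp 340282366920938463463374607431768211455 (-1) := by
  unfold Rp Int.ModEq; norm_num

theorem Rp.m3 : Rp 340282366920938463463374607431768211453 (-3) := by
  unfold Rp Int.ModEq; norm_num

theorem Rp.cast {X : ℕ} {x y : ℤ} (h : Rp X x) (e : x = y) : Rp X y := e ▸ h

def Has (t1 t2 t3 : ℝ) (A : AA) (x : ℝ) : Prop :=
  ∃ c l1 l2 l3 : ℤ, Rp A.c c ∧ Rp A.l1 l1 ∧ Rp A.l2 l2 ∧ Rp A.l3 l3 ∧
    |c| ≤ A.m ∧ |c| ≤ 281474976710656 ∧ |l1| ≤ 281474976710656 ∧ |l2| ≤ 281474976710656 ∧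
    |l3| ≤ 281474976710656 ∧ |x * 4294967296 - c| ≤ A.r ∧
    |x * 4294967296 - (c + l1 * t1 + l2 * t2 + l3 * t3)| ≤ A.e

def HR (t1 t2 t3 : ℝ) (w : ℕ) (C L1 L2 L3 e : ℕ) (x : ℝ) : Prop :=
  ∃ c l1 l2 l3 : ℤ, Rp C c ∧ Rp L1 l1 ∧ Rp L2 l2 ∧ Rp L3 l3 ∧
    |c| ≤ w * 158456325028528675187087900672 ∧ |l1| ≤ w * 158456325028528675187087900672 ∧
    |l2| ≤ w * 158456325028528675187087900672 ∧ |l3| ≤ w * 158456325028528675187087900672 ∧
    |x * 18446744073709551616 - (c + l1 * t1 + l2 * t2 + l3 * t3)| ≤ e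

def IsK (K : KK) (x : ℝ) : Prop :=
  ∃ c : ℤ, Rp K.c c ∧ |c| ≤ K.m ∧ |c| ≤ 281474976710656 ∧ x * 4294967296 = c

theorem Has.congr {t1 t2 t3 : ℝ} {A : AA} {x y : ℝ} (h : Has t1 t2 t3 A x) (e : x = y) :
    Has t1 t2 t3 A y := e ▸ h

theorem HR.congr {t1 t2 t3 : ℝ} {w C L1 L2 L3 e : ℕ} {x y : ℝ} (h : HR t1 t2 t3 w C L1 L2 L3 e x)
    (q : x = y) : HR t1 t2 t3 w C L1 L2 L3 e y := q ▸ h

theorem prod_bd {X Y c c' l l' m m' e e' r r' : ℝ} (h1 : |X - c| ≤ r) (h2 : |X - (c + l)| ≤ e)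
    (h3 : |Y - c'| ≤ r') (h4 : |Y - (c' + l')| ≤ e') (h5 : |c| ≤ m) (h6 : |c'| ≤ m') :
    |X * Y - (c * c' + c * l' + c' * l)| ≤ m * e' + m' * e + r * r' := by
  have key : X * Y - (c * c' + c * l' + c' * l)
      = c * (Y - (c' + l')) + c' * (X - (c + l)) + (X - c) * (Y - c') := by ring
  rw [key]
  have a1 : |c * (Y - (c' + l'))| ≤ m * e' := by
    rw [abs_mul]; exact mul_le_mul h5 h4 (abs_nonneg _) ((abs_nonneg _).trans h5)
  have a2 : |c' * (X - (c + l))| ≤ m' * e := by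
    rw [abs_mul]; exact mul_le_mul h6 h2 (abs_nonneg _) ((abs_nonneg _).trans h6)
  have a3 : |(X - c) * (Y - c')| ≤ r * r' := by
    rw [abs_mul]; exact mul_le_mul h1 h3 (abs_nonneg _) ((abs_nonneg _).trans h1)
  exact (abs_add_le _ _).trans (add_le_add ((abs_add_le _ _).trans (add_le_add a1 a2)) a3)

theorem ib1 {a b : ℤ} (ha : |a| ≤ 281474976710656) (hb : |b| ≤ 281474976710656) :
    |a * b| ≤ 79228162514264337593543950336 := by
  rw [abs_mul]
  calc |a| * |b| ≤ 281474976710656 * 281474976710656 :=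
        mul_le_mul ha hb (abs_nonneg _) (by norm_num)
    _ = _ := by norm_num

theorem ib1' {a b : ℤ} (ha : |a| ≤ 281474976710656) (hb : |b| ≤ 281474976710656) :
    |a * b| ≤ (1 : ℕ) * 158456325028528675187087900672 := by
  have := ib1 ha hb; push_cast; linarith

theorem ib2 {a b c d : ℤ} (ha : |a| ≤ 281474976710656) (hb : |b| ≤ 281474976710656)
    (hc : |c| ≤ 281474976710656) (hd : |d| ≤ 281474976710656) :
    |a * b + c * d| ≤ (1 : ℕ) * 158456325028528675187087900672 := by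
  have h1 := ib1 ha hb; have h2 := ib1 hc hd; have := abs_add_le (a * b) (c * d)
  push_cast; linarith

theorem cmul (a b : ℕ) : ((Nat.mul a b : ℕ) : ℝ) = a * b := by simp [Nat.mul_eq]
theorem cadd (a b : ℕ) : ((Nat.add a b : ℕ) : ℝ) = a + b := by simp [Nat.add_eq]

theorem icast {c : ℤ} {m : ℕ} (h : |c| ≤ m) : |(c : ℝ)| ≤ m := by exact_mod_cast h

theorem mul3_ok {t1 t2 t3 x y : ℝ} {A B : AA} (hA : Has t1 t2 t3 A x) (hB : Has t1 t2 t3 B y) :
    HR t1 t2 t3 1 (Nat.mul A.c B.c) (Nat.add (Nat.mul A.c B.l1) (Nat.mul A.l1 B.c))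
      (Nat.add (Nat.mul A.c B.l2) (Nat.mul A.l2 B.c)) (Nat.add (Nat.mul A.c B.l3) (Nat.mul A.l3 B.c))
      (Nat.add (Nat.add (Nat.mul A.m B.e) (Nat.mul B.m A.e)) (Nat.mul A.r B.r)) (x * y) := by
  obtain ⟨c, l1, l2, l3, r0, r1, r2, r3, m0, b0, b1, b2, b3, hr, he⟩ := hA
  obtain ⟨c', l1', l2', l3', r0', r1', r2', r3', m0', b0', b1', b2', b3', hr', he'⟩ := hB
  refine ⟨c * c', c * l1' + l1 * c', c * l2' + l2 * c', c * l3' + l3 * c', r0.mul r0',
    (r0.mul r1').add (r1.mul r0'), (r0.mul r2').add (r2.mul r0'), (r0.mul r3').add (r3.mul r0'),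
    ib1' b0 b0', ib2 b0 b1' b1 b0', ib2 b0 b2' b2 b0', ib2 b0 b3' b3 b0', ?_⟩
  have := prod_bd (l := l1 * t1 + l2 * t2 + l3 * t3) (l' := l1' * t1 + l2' * t2 + l3' * t3)
    hr (by convert he using 3; ring) hr' (by convert he' using 3; ring) (icast m0) (icast m0')
  simp only [cadd, cmul]
  convert this using 2
  push_cast; ring

theorem mulT_ok {t1 t2 t3 x y : ℝ} {A B : AA} (hA : Has 0 0 t3 A x) (hB : Has t1 t2 0 B y) :
    HR t1 t2 t3 1 (Nat.mul A.c B.c) (Nat.mul A.c B.l1) (Nat.mul A.c B.l2) (Nat.mul A.l3 B.c)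
      (Nat.add (Nat.add (Nat.mul A.m B.e) (Nat.mul B.m A.e)) (Nat.mul A.r B.r)) (x * y) := by
  obtain ⟨c, l1, l2, l3, r0, r1, r2, r3, m0, b0, b1, b2, b3, hr, he⟩ := hA
  obtain ⟨c', l1', l2', l3', r0', r1', r2', r3', m0', b0', b1', b2', b3', hr', he'⟩ := hB
  refine ⟨c * c', c * l1', c * l2', l3 * c', r0.mul r0', r0.mul r1', r0.mul r2', r3.mul r0',
    ib1' b0 b0', ib1' b0 b1', ib1' b0 b2', ib1' b3 b0', ?_⟩
  have := prod_bd (l := l3 * t3) (l' := l1' * t1 + l2' * t2)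
    hr (by convert he using 3; ring) hr' (by convert he' using 3; ring) (icast m0) (icast m0')
  simp only [cadd, cmul]
  convert this using 2
  push_cast; ring

theorem ibs {a : ℤ} (ha : |a| ≤ 281474976710656) :
    |4294967296 * a| ≤ (1 : ℕ) * 158456325028528675187087900672 :=
  ib1' (by norm_num) ha

theorem up_ok {t1 t2 t3 x : ℝ} {A : AA} (hA : Has t1 t2 0 A x) :
    HR t1 t2 t3 1 (Nat.mul 4294967296 A.c) (Nat.mul 4294967296 A.l1) (Nat.mul 4294967296 A.l2) 0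
      (Nat.mul 4294967296 A.e) x := by
  obtain ⟨c, l1, l2, l3, r0, r1, r2, r3, m0, b0, b1, b2, b3, hr, he⟩ := hA
  refine ⟨4294967296 * c, 4294967296 * l1, 4294967296 * l2, 0, (Rp.nat _).mul r0,
    (Rp.nat _).mul r1, (Rp.nat _).mul r2, Rp.zero, ibs b0, ibs b1, ibs b2, by simp, ?_⟩
  simp only [cmul]
  have := abs_le.1 he
  push_cast
  rw [abs_le]; constructor <;> linarith [this.1, this.2]

theorem HR.add {t1 t2 t3 x y : ℝ} {w w' C L1 L2 L3 e C' L1' L2' L3' e' : ℕ}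
    (hA : HR t1 t2 t3 w C L1 L2 L3 e x) (hB : HR t1 t2 t3 w' C' L1' L2' L3' e' y) :
    HR t1 t2 t3 (w + w') (Nat.add C C') (Nat.add L1 L1') (Nat.add L2 L2') (Nat.add L3 L3')
      (Nat.add e e') (x + y) := by
  obtain ⟨c, l1, l2, l3, r0, r1, r2, r3, b0, b1, b2, b3, he⟩ := hA
  obtain ⟨c', l1', l2', l3', r0', r1', r2', r3', b0', b1', b2', b3', he'⟩ := hB
  refine ⟨c + c', l1 + l1', l2 + l2', l3 + l3', r0.add r0', r1.add r1', r2.add r2', r3.add r3',
    ?_, ?_, ?_, ?_, ?_⟩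
  · have := abs_add_le c c'; push_cast; linarith
  · have := abs_add_le l1 l1'; push_cast; linarith
  · have := abs_add_le l2 l2'; push_cast; linarith
  · have := abs_add_le l3 l3'; push_cast; linarith
  · have h1 := abs_le.1 he; have h2 := abs_le.1 he'
    simp only [cadd]; push_cast
    rw [abs_le]; constructor <;> linarith [h1.1, h1.2, h2.1, h2.2]

theorem ibk {k a : ℤ} {n w : ℕ} (hk : |k| ≤ n) (ha : |a| ≤ w * 158456325028528675187087900672) :
    |k * a| ≤ ((n * w : ℕ) : ℤ) * 158456325028528675187087900672 := by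
  rw [abs_mul]; push_cast
  calc |k| * |a| ≤ n * (w * 158456325028528675187087900672) :=
        mul_le_mul hk ha (abs_nonneg _) (by positivity)
    _ = _ := by ring

/-- multiplication by a small integer `k` with residue `K`, bound `n` used in the error -/
theorem HR.smul {t1 t2 t3 x : ℝ} {w C L1 L2 L3 e K n n' : ℕ} {k : ℤ} (hK : Rp K k) (hn : |k| ≤ n)
    (hn' : |k| ≤ n') (hA : HR t1 t2 t3 w C L1 L2 L3 e x) :
    HR t1 t2 t3 (n' * w) (Nat.mul K C) (Nat.mul K L1) (Nat.mul K L2) (Nat.mul K L3) (Nat.mul n e)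
      (k * x) := by
  obtain ⟨c, l1, l2, l3, r0, r1, r2, r3, b0, b1, b2, b3, he⟩ := hA
  refine ⟨k * c, k * l1, k * l2, k * l3, hK.mul r0, hK.mul r1, hK.mul r2, hK.mul r3,
    ibk hn' b0, ibk hn' b1, ibk hn' b2, ibk hn' b3, ?_⟩
  simp only [cmul]; push_cast
  rw [show (k : ℝ) * x * 18446744073709551616 - (k * c + k * l1 * t1 + k * l2 * t2 + k * l3 * t3)
    = k * (x * 18446744073709551616 - (c + l1 * t1 + l2 * t2 + l3 * t3)) by ring, abs_mul]
  exact mul_le_mul (icast hn) he (abs_nonneg _) (Nat.cast_nonneg _)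

/-- the third slope is irrelevant at `t3 = 0` -/
theorem HR.drop {t1 t2 x : ℝ} {w C L1 L2 L3 e : ℕ} (hA : HR t1 t2 0 w C L1 L2 L3 e x) :
    HR t1 t2 0 w C L1 L2 0 e x := by
  obtain ⟨c, l1, l2, l3, r0, r1, r2, r3, b0, b1, b2, b3, he⟩ := hA
  exact ⟨c, l1, l2, 0, r0, r1, r2, Rp.zero, b0, b1, b2, by positivity, by simpa using he⟩

theorem HR.mono {t1 t2 t3 x : ℝ} {w C L1 L2 L3 e e' : ℕ} (hA : HR t1 t2 t3 w C L1 L2 L3 e x)
    (h : e ≤ e') : HR t1 t2 t3 w C L1 L2 L3 e' x := by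
  obtain ⟨c, l1, l2, l3, r0, r1, r2, r3, b0, b1, b2, b3, he⟩ := hA
  exact ⟨c, l1, l2, l3, r0, r1, r2, r3, b0, b1, b2, b3, he.trans (by exact_mod_cast h)⟩

theorem land_eq (X : ℕ) : Nat.land X 340282366920938463463374607431768211455
    = X % 340282366920938463463374607431768211456 := by
  have := Nat.and_two_pow_sub_one_eq_mod X 128
  norm_num at this
  exact this

theorem dec0 {X : ℕ} {x : ℤ} {w : ℕ} (h : Rp X x) (hw : w ≤ 536870912)
    (hx : |x| ≤ w * 158456325028528675187087900672) :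
    ((Nat.land (Nat.add X 170141183460469231731687303715884105728)
      340282366920938463463374607431768211455 : ℕ) : ℤ)
      = x + 170141183460469231731687303715884105728 := by
  rw [land_eq, Nat.add_eq]
  unfold Rp Int.ModEq at h
  have h1 := abs_le.1 hx
  have h2 : (w : ℤ) ≤ 536870912 := by exact_mod_cast hw
  omega

theorem dec1 {X : ℕ} {x : ℤ} {w p : ℕ} (h : Rp X x) (hw : w ≤ 536870912)
    (hx : |x| ≤ w * 158456325028528675187087900672)
    (hp : Nat.shiftRight (Nat.land (Nat.add X 170141183460469231731687303715884105728)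
      340282366920938463463374607431768211455) 32 = p + 1) :
    (p : ℤ) = x / 4294967296 + 39614081257132168796771975167 := by
  have h1 := dec0 h hw hx
  generalize Nat.land (Nat.add X 170141183460469231731687303715884105728)
      340282366920938463463374607431768211455 = Y at h1 hp
  have h2 : Nat.shiftRight Y 32 = Y / 4294967296 := by
    have := Nat.shiftRight_eq_div_pow Y 32
    norm_num at this
    exact this
  rw [h2] at hp
  omega

noncomputable def fP (n : ℕ) (k : ℕ → Bool) : Bool :=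
  Nat.rec (motive := fun _ => Bool) false (fun m _ => k m) n

theorem pred_ok {n : ℕ} {k : ℕ → Bool} (h : fP n k = true) : ∃ m, n = m + 1 ∧ k m = true := by
  cases n with
  | zero => simp [fP] at h
  | succ m => exact ⟨m, rfl, h⟩

theorem and_ok {a b : Bool} (h : Bool.rec (motive := fun _ => Bool) false a b = true) :
    b = true ∧ a = true := by
  cases b
  · simp at h
  · exact ⟨rfl, h⟩

theorem fl_bd (x : ℤ) : |(x : ℝ) - ((x / 4294967296 : ℤ) : ℝ) * 4294967296| ≤ 4294967296 := by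
  have h1 : 0 ≤ x - x / 4294967296 * 4294967296 := by omega
  have h2 : x - x / 4294967296 * 4294967296 ≤ 4294967296 := by omega
  have h1' : (0 : ℝ) ≤ (x : ℝ) - ((x / 4294967296 : ℤ) : ℝ) * 4294967296 := by exact_mod_cast h1
  have h2' : (x : ℝ) - ((x / 4294967296 : ℤ) : ℝ) * 4294967296 ≤ 4294967296 := by exact_mod_cast h2
  rw [abs_le]; constructor <;> linarith

theorem tb {a t b : ℝ} (ha : |a| ≤ b) (ht : |t| ≤ 1) : |a * t| ≤ b := by
  rw [abs_mul]
  exact (mul_le_of_le_one_right (abs_nonneg _) ht).trans ha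

theorem res_ok {p q : ℕ} {z : ℤ} (hp : (p : ℤ) = z + 39614081257132168796771975167)
    (hq : Nat.add p 340282366881324382206242438634996236290 = q + 1) : Rp q z := by
  unfold Rp Int.ModEq
  rw [Nat.add_eq] at hq
  omega

theorem abs_ok {p : ℕ} {z : ℤ} (hp : (p : ℤ) = z + 39614081257132168796771975167) :
    |z| + 1 ≤ ((Nat.add (Nat.sub p 39614081257132168796771975166)
      (Nat.sub 39614081257132168796771975168 p) : ℕ) : ℤ) := by
  rw [Nat.add_eq, Nat.sub_eq, Nat.sub_eq]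
  rcases abs_cases z with h | h <;> omega

theorem shr_bd (e : ℕ) : (e : ℝ) ≤ ((Nat.shiftRight e 32 : ℕ) + 1) * 4294967296 := by
  have h2 : Nat.shiftRight e 32 = e / 4294967296 := by
    have := Nat.shiftRight_eq_div_pow e 32
    norm_num at this
    exact this
  rw [h2]
  have : e ≤ (e / 4294967296 + 1) * 4294967296 := by omega
  exact_mod_cast this

theorem r3_ok {u1 u2 u3 e r : ℕ} {z1 z2 z3 : ℤ} (a1 : |z1| + 1 ≤ u1) (a2 : |z2| + 1 ≤ u2)
    (a3 : |z3| + 1 ≤ u3) (er : Nat.add (Nat.add u1 u2) (Nat.add u3 e) = r + 1) :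
    |z1| + |z2| + |z3| + e ≤ r := by
  simp only [Nat.add_eq] at er; omega

theorem r2_ok {u1 u2 e r : ℕ} {z1 z2 : ℤ} (a1 : |z1| + 1 ≤ u1) (a2 : |z2| + 1 ≤ u2)
    (er : Nat.add (Nat.add u1 u2) e = r + 1) : |z1| + |z2| + e ≤ r := by
  simp only [Nat.add_eq] at er; omega

noncomputable def nrm3 (c l1 l2 l3 e : Nat) (k : AA → Bool) : Bool :=
  fP (Nat.shiftRight (Nat.land (Nat.add c 170141183460469231731687303715884105728)
    340282366920938463463374607431768211455) 32) fun c =>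
  fP (Nat.shiftRight (Nat.land (Nat.add l1 170141183460469231731687303715884105728)
    340282366920938463463374607431768211455) 32) fun l1 =>
  fP (Nat.shiftRight (Nat.land (Nat.add l2 170141183460469231731687303715884105728)
    340282366920938463463374607431768211455) 32) fun l2 =>
  fP (Nat.shiftRight (Nat.land (Nat.add l3 170141183460469231731687303715884105728)
    340282366920938463463374607431768211455) 32) fun l3 =>
  fP (Nat.add (Nat.shiftRight e 32) 6) fun e =>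
  fP (Nat.add (Nat.sub c 39614081257132168796771975166) (Nat.sub 39614081257132168796771975168 c)) fun m =>
  fP (Nat.add (Nat.add
    (Nat.add (Nat.sub l1 39614081257132168796771975166) (Nat.sub 39614081257132168796771975168 l1))
    (Nat.add (Nat.sub l2 39614081257132168796771975166) (Nat.sub 39614081257132168796771975168 l2)))
    (Nat.add
    (Nat.add (Nat.sub l3 39614081257132168796771975166) (Nat.sub 39614081257132168796771975168 l3))
    e)) fun r =>
  fP (Nat.add c 340282366881324382206242438634996236290) fun c =>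
  fP (Nat.add l1 340282366881324382206242438634996236290) fun l1 =>
  fP (Nat.add l2 340282366881324382206242438634996236290) fun l2 =>
  fP (Nat.add l3 340282366881324382206242438634996236290) fun l3 =>
  Bool.rec false (k ⟨c, l1, l2, l3, e, m, r⟩) (Nat.ble (Nat.add m r) 281474976710656)

theorem nrm3_ok {t1 t2 t3 x : ℝ} {w C L1 L2 L3 e : ℕ} {k : AA → Bool} (h1 : |t1| ≤ 1)
    (h2 : |t2| ≤ 1) (h3 : |t3| ≤ 1) (hA : HR t1 t2 t3 w C L1 L2 L3 e x) (hw : w ≤ 536870912)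
    (hk : nrm3 C L1 L2 L3 e k = true) : ∃ A, Has t1 t2 t3 A x ∧ k A = true := by
  obtain ⟨c, l1, l2, l3, r0, r1, r2, r3, b0, b1, b2, b3, he⟩ := hA
  unfold nrm3 at hk
  obtain ⟨p0, e0, hk⟩ := pred_ok hk
  obtain ⟨p1, e1, hk⟩ := pred_ok hk
  obtain ⟨p2, e2, hk⟩ := pred_ok hk
  obtain ⟨p3, e3, hk⟩ := pred_ok hk
  obtain ⟨pe, ee, hk⟩ := pred_ok hk
  obtain ⟨m, em, hk⟩ := pred_ok hk
  obtain ⟨r, er, hk⟩ := pred_ok hk
  obtain ⟨q0, f0, hk⟩ := pred_ok hk
  obtain ⟨q1, f1, hk⟩ := pred_ok hk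
  obtain ⟨q2, f2, hk⟩ := pred_ok hk
  obtain ⟨q3, f3, hk⟩ := pred_ok hk
  obtain ⟨hb, hk⟩ := and_ok hk
  have d0 := dec1 r0 hw b0 e0
  have d1 := dec1 r1 hw b1 e1
  have d2 := dec1 r2 hw b2 e2
  have d3 := dec1 r3 hw b3 e3
  have a0 := abs_ok d0
  have a1 := abs_ok d1
  have a2 := abs_ok d2
  have a3 := abs_ok d3
  have hb' : m + r ≤ 281474976710656 := Nat.le_of_ble_eq_true hb
  rw [em] at a0
  have hr := r3_ok a1 a2 a3 er
  clear a1 a2 a3 er e0 e1 e2 e3 em
  rw [Nat.add_eq] at ee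
  have n0 := abs_nonneg (c / 4294967296)
  have n1 := abs_nonneg (l1 / 4294967296)
  have n2 := abs_nonneg (l2 / 4294967296)
  have n3 := abs_nonneg (l3 / 4294967296)
  have hs := shr_bd e
  have hpe : (pe : ℝ) = (Nat.shiftRight e 32 : ℕ) + 5 := by
    have : pe = Nat.shiftRight e 32 + 5 := by omega
    exact_mod_cast this
  have g0 := abs_le.1 (fl_bd c)
  have g1 := abs_le.1 (tb (fl_bd l1) h1)
  have g2 := abs_le.1 (tb (fl_bd l2) h2)
  have g3 := abs_le.1 (tb (fl_bd l3) h3)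
  have he' := abs_le.1 he
  have hE : |x * 4294967296 - (((c / 4294967296 : ℤ) : ℝ) + ((l1 / 4294967296 : ℤ) : ℝ) * t1
      + ((l2 / 4294967296 : ℤ) : ℝ) * t2 + ((l3 / 4294967296 : ℤ) : ℝ) * t3)| ≤ pe := by
    rw [abs_le]; constructor <;> linarith [g0.1, g0.2, g1.1, g1.2, g2.1, g2.2, g3.1, g3.2, he'.1, he'.2]
  refine ⟨_, ⟨c / 4294967296, l1 / 4294967296, l2 / 4294967296, l3 / 4294967296, res_ok d0 f0,
    res_ok d1 f1, res_ok d2 f2, res_ok d3 f3, by push_cast at a0 ⊢; omega, by omega, by omega,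
    by omega, by omega, ?_, hE⟩, hk⟩
  have k1 := abs_le.1 (tb (le_refl |((l1 / 4294967296 : ℤ) : ℝ)|) h1)
  have k2 := abs_le.1 (tb (le_refl |((l2 / 4294967296 : ℤ) : ℝ)|) h2)
  have k3 := abs_le.1 (tb (le_refl |((l3 / 4294967296 : ℤ) : ℝ)|) h3)
  have hr' : |((l1 / 4294967296 : ℤ) : ℝ)| + |((l2 / 4294967296 : ℤ) : ℝ)|
      + |((l3 / 4294967296 : ℤ) : ℝ)| + pe ≤ r := by exact_mod_cast hr
  have hE' := abs_le.1 hE
  show |x * 4294967296 - ((c / 4294967296 : ℤ) : ℝ)| ≤ r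
  rw [abs_le]; constructor <;> linarith [k1.1, k1.2, k2.1, k2.2, k3.1, k3.2, hE'.1, hE'.2]

noncomputable def nrmx (c l1 l2 e : Nat) (k : AA → Bool) : Bool :=
  fP (Nat.shiftRight (Nat.land (Nat.add c 170141183460469231731687303715884105728)
    340282366920938463463374607431768211455) 32) fun c =>
  fP (Nat.shiftRight (Nat.land (Nat.add l1 170141183460469231731687303715884105728)
    340282366920938463463374607431768211455) 32) fun l1 =>
  fP (Nat.shiftRight (Nat.land (Nat.add l2 170141183460469231731687303715884105728)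
    340282366920938463463374607431768211455) 32) fun l2 =>
  fP (Nat.add (Nat.shiftRight e 32) 5) fun e =>
  fP (Nat.add (Nat.sub c 39614081257132168796771975166) (Nat.sub 39614081257132168796771975168 c)) fun m =>
  fP (Nat.add (Nat.add
    (Nat.add (Nat.sub l1 39614081257132168796771975166) (Nat.sub 39614081257132168796771975168 l1))
    (Nat.add (Nat.sub l2 39614081257132168796771975166) (Nat.sub 39614081257132168796771975168 l2)))
    e) fun r =>
  fP (Nat.add c 340282366881324382206242438634996236290) fun c =>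
  fP (Nat.add l1 340282366881324382206242438634996236290) fun l1 =>
  fP (Nat.add l2 340282366881324382206242438634996236290) fun l2 =>
  Bool.rec false (k ⟨c, l1, l2, 0, e, m, r⟩) (Nat.ble (Nat.add m r) 281474976710656)

theorem nrmx_ok {t1 t2 x : ℝ} {w C L1 L2 e : ℕ} {k : AA → Bool} (h1 : |t1| ≤ 1)
    (h2 : |t2| ≤ 1) (hA : HR t1 t2 0 w C L1 L2 0 e x) (hw : w ≤ 536870912)
    (hk : nrmx C L1 L2 e k = true) : ∃ A, Has t1 t2 0 A x ∧ k A = true := by
  obtain ⟨c, l1, l2, l3, r0, r1, r2, r3, b0, b1, b2, b3, he⟩ := hA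
  unfold nrmx at hk
  obtain ⟨p0, e0, hk⟩ := pred_ok hk
  obtain ⟨p1, e1, hk⟩ := pred_ok hk
  obtain ⟨p2, e2, hk⟩ := pred_ok hk
  obtain ⟨pe, ee, hk⟩ := pred_ok hk
  obtain ⟨m, em, hk⟩ := pred_ok hk
  obtain ⟨r, er, hk⟩ := pred_ok hk
  obtain ⟨q0, f0, hk⟩ := pred_ok hk
  obtain ⟨q1, f1, hk⟩ := pred_ok hk
  obtain ⟨q2, f2, hk⟩ := pred_ok hk
  obtain ⟨hb, hk⟩ := and_ok hk
  have d0 := dec1 r0 hw b0 e0
  have d1 := dec1 r1 hw b1 e1
  have d2 := dec1 r2 hw b2 e2
  have a0 := abs_ok d0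
  have a1 := abs_ok d1
  have a2 := abs_ok d2
  have hb' : m + r ≤ 281474976710656 := Nat.le_of_ble_eq_true hb
  rw [em] at a0
  have hr := r2_ok a1 a2 er
  clear a1 a2 er e0 e1 e2 em
  rw [Nat.add_eq] at ee
  have n0 := abs_nonneg (c / 4294967296)
  have n1 := abs_nonneg (l1 / 4294967296)
  have n2 := abs_nonneg (l2 / 4294967296)
  have hs := shr_bd e
  have hpe : (pe : ℝ) = (Nat.shiftRight e 32 : ℕ) + 4 := by
    have : pe = Nat.shiftRight e 32 + 4 := by omega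
    exact_mod_cast this
  have g0 := abs_le.1 (fl_bd c)
  have g1 := abs_le.1 (tb (fl_bd l1) h1)
  have g2 := abs_le.1 (tb (fl_bd l2) h2)
  have he' := abs_le.1 he
  have hE : |x * 4294967296 - (((c / 4294967296 : ℤ) : ℝ) + ((l1 / 4294967296 : ℤ) : ℝ) * t1
      + ((l2 / 4294967296 : ℤ) : ℝ) * t2 + ((0 : ℤ) : ℝ) * 0)| ≤ pe := by
    rw [abs_le]; constructor <;> linarith [g0.1, g0.2, g1.1, g1.2, g2.1, g2.2, he'.1, he'.2]
  refine ⟨_, ⟨c / 4294967296, l1 / 4294967296, l2 / 4294967296, 0, res_ok d0 f0,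
    res_ok d1 f1, res_ok d2 f2, Rp.zero, by push_cast at a0 ⊢; omega, by omega, by omega,
    by omega, by norm_num, ?_, hE⟩, hk⟩
  have k1 := abs_le.1 (tb (le_refl |((l1 / 4294967296 : ℤ) : ℝ)|) h1)
  have k2 := abs_le.1 (tb (le_refl |((l2 / 4294967296 : ℤ) : ℝ)|) h2)
  have hr' : |((l1 / 4294967296 : ℤ) : ℝ)| + |((l2 / 4294967296 : ℤ) : ℝ)| + pe ≤ r := by
    exact_mod_cast hr
  have hE' := abs_le.1 hE
  show |x * 4294967296 - ((c / 4294967296 : ℤ) : ℝ)| ≤ r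
  rw [abs_le]; constructor <;> linarith [k1.1, k1.2, k2.1, k2.2, hE'.1, hE'.2]

/-! Raw two variable operations. -/

def H2 (t1 t2 : ℝ) (w : ℕ) (X : RW) (x : ℝ) : Prop := HR t1 t2 0 w X.c X.l1 X.l2 0 X.e x

noncomputable def mul2 (A B : AA) : RW :=
  AA.rec (fun ac a1 a2 _ ae am ar => AA.rec (fun bc b1 b2 _ be bm br =>
    ⟨Nat.mul ac bc, Nat.add (Nat.mul ac b1) (Nat.mul a1 bc), Nat.add (Nat.mul ac b2) (Nat.mul a2 bc),
      Nat.add (Nat.add (Nat.mul am be) (Nat.mul bm ae)) (Nat.mul ar br)⟩) B) A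

noncomputable def mulK (K : KK) (A : AA) : RW :=
  KK.rec (fun kc km => AA.rec (fun ac a1 a2 _ ae _ _ =>
    ⟨Nat.mul kc ac, Nat.mul kc a1, Nat.mul kc a2, Nat.mul km ae⟩) A) K

noncomputable def up2 (A : AA) : RW :=
  AA.rec (fun ac a1 a2 _ ae _ _ =>
    ⟨Nat.mul 4294967296 ac, Nat.mul 4294967296 a1, Nat.mul 4294967296 a2, Nat.mul 4294967296 ae⟩) A

noncomputable def add2 (X Y : RW) : RW :=
  RW.rec (fun c l1 l2 e => RW.rec (fun c' l1' l2' e' =>
    ⟨Nat.add c c', Nat.add l1 l1', Nat.add l2 l2', Nat.add e e'⟩) Y) X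

noncomputable def neg2 (X : RW) : RW :=
  RW.rec (fun c l1 l2 e => ⟨Nat.mul 340282366920938463463374607431768211455 c,
    Nat.mul 340282366920938463463374607431768211455 l1,
    Nat.mul 340282366920938463463374607431768211455 l2, e⟩) X

noncomputable def sm2 (n : Nat) (X : RW) : RW :=
  RW.rec (fun c l1 l2 e => ⟨Nat.mul n c, Nat.mul n l1, Nat.mul n l2, Nat.mul n e⟩) X

def one2 : RW := ⟨18446744073709551616, 0, 0, 0⟩

noncomputable def nrm2 (X : RW) (k : AA → Bool) : Bool :=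
  RW.rec (fun c l1 l2 e => nrmx c l1 l2 e k) X

theorem H2.mul {t1 t2 x y : ℝ} {A B : AA} (hA : Has t1 t2 0 A x) (hB : Has t1 t2 0 B y) :
    H2 t1 t2 1 (mul2 A B) (x * y) := by
  cases A; cases B; exact (mul3_ok hA hB).drop

theorem H2.mk' {t1 t2 x y : ℝ} {K : KK} {A : AA} (hK : IsK K x) (hA : Has t1 t2 0 A y) :
    H2 t1 t2 1 (mulK K A) (x * y) := by
  cases K; cases A
  obtain ⟨k, rk, mk, bk, ek⟩ := hK
  obtain ⟨c, l1, l2, l3, r0, r1, r2, r3, m0, b0, b1, b2, b3, hr, he⟩ := hA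
  refine ⟨k * c, k * l1, k * l2, 0, rk.mul r0, rk.mul r1, rk.mul r2, Rp.zero, ib1' bk b0,
    ib1' bk b1, ib1' bk b2, by simp, ?_⟩
  simp only [mulK, cmul]; push_cast
  rw [show x * y * 18446744073709551616 - (k * c + k * l1 * t1 + k * l2 * t2 + 0 * 0)
    = k * (y * 4294967296 - (c + l1 * t1 + l2 * t2 + l3 * 0)) by rw [← ek]; ring, abs_mul]
  exact mul_le_mul (icast mk) he (abs_nonneg _) (Nat.cast_nonneg _)

theorem H2.up {t1 t2 x : ℝ} {A : AA} (hA : Has t1 t2 0 A x) : H2 t1 t2 1 (up2 A) x := by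
  cases A; exact up_ok hA

theorem H2.add {t1 t2 x y : ℝ} {w w' : ℕ} {X Y : RW} (hX : H2 t1 t2 w X x) (hY : H2 t1 t2 w' Y y) :
    H2 t1 t2 (w + w') (add2 X Y) (x + y) := by
  cases X; cases Y; exact (HR.add hX hY).drop

theorem HR.neg {t1 t2 t3 x : ℝ} {w C L1 L2 L3 e : ℕ} (hA : HR t1 t2 t3 w C L1 L2 L3 e x) :
    HR t1 t2 t3 w (Nat.mul 340282366920938463463374607431768211455 C)
      (Nat.mul 340282366920938463463374607431768211455 L1)
      (Nat.mul 340282366920938463463374607431768211455 L2)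
      (Nat.mul 340282366920938463463374607431768211455 L3) e (-x) := by
  have := HR.smul (n := 1) (n' := 1) Rp.m1 (by simp) (by simp) hA
  rw [one_mul] at this
  exact (this.mono (by simp [Nat.mul_eq])).congr (by simp)

theorem H2.neg {t1 t2 x : ℝ} {w : ℕ} {X : RW} (hX : H2 t1 t2 w X x) : H2 t1 t2 w (neg2 X) (-x) := by
  cases X with
  | mk c l1 l2 e =>
    have h : HR t1 t2 0 w c l1 l2 0 e x := hX
    exact (HR.neg h).drop

theorem H2.sm {t1 t2 x : ℝ} {w : ℕ} {X : RW} (n : ℕ) (hX : H2 t1 t2 w X x) :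
    H2 t1 t2 (n * w) (sm2 n X) (n * x) := by
  cases X
  exact ((HR.smul (n := n) (n' := n) (Rp.nat n) (by simp) (by simp) hX).drop).congr (by simp)

theorem H2.one (t1 t2 : ℝ) : H2 t1 t2 1 one2 1 :=
  ⟨18446744073709551616, 0, 0, 0, Rp.nat _, Rp.zero, Rp.zero, Rp.zero, by norm_num, by norm_num,
    by norm_num, by norm_num, by simp [one2]⟩

theorem nrm2_ok {t1 t2 x : ℝ} {w : ℕ} {X : RW} {k : AA → Bool} (h1 : |t1| ≤ 1)
    (h2 : |t2| ≤ 1) (hA : H2 t1 t2 w X x) (hw : w ≤ 536870912)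
    (hk : nrm2 X k = true) : ∃ A, Has t1 t2 0 A x ∧ k A = true := by
  cases X; exact nrmx_ok h1 h2 hA hw hk

/-- constants from integers -/
noncomputable def withK (z : Int) (k : KK → Bool) : Bool :=
  fP (Nat.add (Int.toNat (Int.emod z 340282366920938463463374607431768211456)) 1) fun c =>
  fP (Nat.add (Int.natAbs z) 1) fun m =>
    Bool.rec false (k ⟨c, m⟩) (Nat.ble m 281474976710656)

theorem withK_ok {z : ℤ} {k : KK → Bool} (h : withK z k = true) :
    ∃ K, IsK K ((z : ℝ) / 4294967296) ∧ k K = true := by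
  unfold withK at h
  obtain ⟨c, ec, h⟩ := pred_ok h
  obtain ⟨m, em, h⟩ := pred_ok h
  obtain ⟨hb, h⟩ := and_ok h
  have hb' : m ≤ 281474976710656 := Nat.le_of_ble_eq_true hb
  rw [Nat.add_eq] at ec em
  have e1 : Int.emod z 340282366920938463463374607431768211456
      = z % 340282366920938463463374607431768211456 := rfl
  rw [e1] at ec
  have hz : |z| = m := by rw [Int.abs_eq_natAbs]; omega
  refine ⟨_, ⟨z, ?_, by simp [hz], by omega, by field_simp⟩, h⟩
  unfold Rp Int.ModEq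
  show (c : ℤ) % _ = _
  omega

end Pool.Agent.Lib.MP_5a3ebe_gt.Tab
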