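import Pool.Agent.Lib.MP_5a3ebe_gt.TabSlp

/-! Algebra: from four equal values to the vanishing of the three checked quantities. -/

namespace Pool.Agent.Lib.MP_5a3ebe_gt.Tab

noncomputable def Nf (p : RB) (u S Z X Y : ℝ) : ℝ :=
  X * (u * p.c0x * S ^ 2 + p.c1x * S * Z + u * p.c2x * Z ^ 2)
    - Y * (u * p.c0y * S ^ 2 + p.c1y * S * Z + u * p.c2y * Z ^ 2)
    + u * (p.c3x * (X ^ 3 - 3 * X * Y ^ 2) - p.c3y * (3 * X ^ 2 * Y - Y ^ 3))

noncomputable def Df (p : RB) (u S Z X Y : ℝ) : ℝ :=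
  p.d0 * S ^ 3 + p.d1 * S * Z ^ 2 + u * (p.d2 * S ^ 2 * Z + p.d3 * Z ^ 3)
    + (X ^ 2 - Y ^ 2) * (p.e0x * S + u * p.e1x * Z) - 2 * X * Y * (p.e0y * S + u * p.e1y * Z)

noncomputable def Nt (p : RB) (u J t S Z X Y : ℝ) : ℝ :=
  (1 + t ^ 2) * (X * (u * p.c0x * S ^ 2 + p.c1x * S * Z + u * p.c2x * Z ^ 2)
    - Y * (u * p.c0y * S ^ 2 + p.c1y * S * Z + u * p.c2y * Z ^ 2))
    + u * J * (p.c3x * (X ^ 3 - 3 * X * Y ^ 2) - p.c3y * (3 * X ^ 2 * Y - Y ^ 3))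

noncomputable def Dt (p : RB) (u J t S Z X Y : ℝ) : ℝ :=
  (1 + t ^ 2) * (p.d0 * S ^ 3 + p.d1 * S * Z ^ 2 + u * (p.d2 * S ^ 2 * Z + p.d3 * Z ^ 3))
    + J * ((X ^ 2 - Y ^ 2) * (p.e0x * S + u * p.e1x * Z) - 2 * X * Y * (p.e0y * S + u * p.e1y * Z))

noncomputable def Nv (F : FR) (u t x y : ℝ) : ℝ :=
  let X := u * F.w0 + 2 * F.al * x - t * (2 * F.be * y)
  let Y := 2 * F.be * y + t * (u * F.w0 + 2 * F.al * x)
  (1 + t ^ 2) * (X * (u * F.q0x + 2 * x * F.q1x + 2 * u * (x ^ 2 - y ^ 2) * F.q2x)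
    - Y * (u * F.q0y + 2 * x * F.q1y + 2 * u * (x ^ 2 - y ^ 2) * F.q2y))
    + u * (F.c3x * (X ^ 3 - 3 * X * Y ^ 2) - F.c3y * (3 * X ^ 2 * Y - Y ^ 3))

noncomputable def Dv (F : FR) (k3 u t x y : ℝ) : ℝ :=
  let X := u * F.w0 + 2 * F.al * x - t * (2 * F.be * y)
  let Y := 2 * F.be * y + t * (u * F.w0 + 2 * F.al * x)
  (1 + t ^ 2) * (F.k0 + 2 * u * x * (F.kd + F.R * k3) + 2 * (x ^ 2 - y ^ 2) * F.k2
      + u * k3 * (2 * x ^ 3 - 6 * x * y ^ 2))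
    + (X ^ 2 - Y ^ 2) * (F.l0x + 2 * u * x * F.l1x) - 2 * X * Y * (F.l0y + 2 * u * x * F.l1y)

section ids
variable {F : FR} {k3 u t x y : ℝ} (hU : F.U = u * u) (hR : F.R = x ^ 2 + y ^ 2)
  (hk : F.ks = F.kd + 2 * F.R * k3)

include hU hR in
theorem idN0 : Nv F u t x y + Nv F u t (-y) x + Nv F u t (-x) (-y) + Nv F u t y (-x)
    = 4 * nval (midr F).n0 t := by
  simp only [Nv, nval, midr, hU, hR]; ring

include hU hR in
theorem idN2 : Nv F u t x y - Nv F u t (-y) x + Nv F u t (-x) (-y) - Nv F u t y (-x)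
    = 8 * (nval (midr F).n1 t * (x ^ 2 - y ^ 2) - nval (midr F).n2 t * (2 * x * y)) := by
  simp only [Nv, nval, midr, hU, hR]; ring

include hU hR in
theorem idNs : x * (Nv F u t x y - Nv F u t (-x) (-y)) + y * (Nv F u t (-y) x - Nv F u t y (-x))
    = 4 * u * (nval (midr F).n5 t * (x ^ 2 - y ^ 2) + nval (midr F).n4 t * (2 * x * y)) := by
  simp only [Nv, nval, midr, hU, hR]; ring

include hU hR in
theorem idNd : x * (Nv F u t (-y) x - Nv F u t y (-x)) - y * (Nv F u t x y - Nv F u t (-x) (-y))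
    = 4 * u * (nval (midr F).n6 t * (x ^ 2 - y ^ 2) - nval (midr F).n3 t * (2 * x * y)) := by
  simp only [Nv, nval, midr, hU, hR]; ring

include hU hR in
theorem idD0 : Dv F k3 u t x y + Dv F k3 u t (-y) x + Dv F k3 u t (-x) (-y) + Dv F k3 u t y (-x)
    = 4 * dval (midr F).d0 t := by
  simp only [Dv, dval, midr, hU, hR]; ring

include hU hR in
theorem idD2 : Dv F k3 u t x y - Dv F k3 u t (-y) x + Dv F k3 u t (-x) (-y) - Dv F k3 u t y (-x)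
    = 8 * (dval (midr F).d1 t * (x ^ 2 - y ^ 2) - dval (midr F).d2 t * (2 * x * y)) := by
  simp only [Dv, dval, midr, hU, hR]; ring

include hU hR hk in
theorem idDs : x * (Dv F k3 u t x y - Dv F k3 u t (-x) (-y))
    + y * (Dv F k3 u t (-y) x - Dv F k3 u t y (-x))
    = 4 * u * (dval (midr F).d5 t * (x ^ 2 - y ^ 2) + dval (midr F).d4 t * (2 * x * y)) := by
  simp only [Dv, dval, midr, hU, hk, hR]; ring

include hU hR hk in
theorem idDd : x * (Dv F k3 u t (-y) x - Dv F k3 u t y (-x))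
    - y * (Dv F k3 u t x y - Dv F k3 u t (-x) (-y))
    = 4 * u * (dval (midr F).d6 t * (x ^ 2 - y ^ 2) - dval (midr F).d3 t * (2 * x * y)) := by
  simp only [Dv, dval, midr, hU, hk, hR]; ring

theorem zero_of_pq {g p q : ℝ} (h : p ^ 2 + q ^ 2 ≠ 0) (a : p * g = 0) (b : q * g = 0) : g = 0 := by
  have : (p ^ 2 + q ^ 2) * g = 0 := by linear_combination p * a + q * b
  exact (mul_eq_zero.1 this).resolve_left h

include hU hR hk in
theorem backend {c : ℝ} (hu : u ≠ 0) (hne : x ^ 2 + y ^ 2 ≠ 0)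
    (h1 : Nv F u t x y = c * Dv F k3 u t x y) (h2 : Nv F u t (-y) x = c * Dv F k3 u t (-y) x)
    (h3 : Nv F u t (-x) (-y) = c * Dv F k3 u t (-x) (-y))
    (h4 : Nv F u t y (-x) = c * Dv F k3 u t y (-x)) : GZ (midr F) t := by
  have n0 := idN0 (t := t) hU hR
  have n2 := idN2 (t := t) hU hR
  have ns := idNs (t := t) hU hR
  have nd := idNd (t := t) hU hR
  have d0 := idD0 (t := t) (k3 := k3) hU hR
  have d2 := idD2 (t := t) (k3 := k3) hU hR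
  have ds := idDs (t := t) hU hR hk
  have dd := idDd (t := t) hU hR hk
  rw [h1, h2, h3, h4] at n0 n2 ns nd
  unfold GZ bval
  generalize midr F = C at *
  generalize Dv F k3 u t x y = a1 at *
  generalize Dv F k3 u t (-y) x = a2 at *
  generalize Dv F k3 u t (-x) (-y) = a3 at *
  generalize Dv F k3 u t y (-x) = a4 at *
  generalize nval C.n0 t = N0 at *
  generalize nval C.n1 t = N1 at *
  generalize nval C.n2 t = N2 at *
  generalize nval C.n3 t = N3 at *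
  generalize nval C.n4 t = N4 at *
  generalize nval C.n5 t = N5 at *
  generalize nval C.n6 t = N6 at *
  generalize dval C.d0 t = D0 at *
  generalize dval C.d1 t = D1 at *
  generalize dval C.d2 t = D2 at *
  generalize dval C.d3 t = D3 at *
  generalize dval C.d4 t = D4 at *
  generalize dval C.d5 t = D5 at *
  generalize dval C.d6 t = D6 at *
  have hpq : (x ^ 2 - y ^ 2) ^ 2 + (2 * x * y) ^ 2 ≠ 0 := by
    rw [show (x ^ 2 - y ^ 2) ^ 2 + (2 * x * y) ^ 2 = (x ^ 2 + y ^ 2) ^ 2 by ring]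
    exact pow_ne_zero 2 hne
  generalize x ^ 2 - y ^ 2 = p at *
  generalize 2 * x * y = q at *
  have e0 : N0 = c * D0 := by linear_combination (c * d0 - n0) / 4
  have e2 : (N1 - c * D1) * p = (N2 - c * D2) * q := by linear_combination (c * d2 - n2) / 8
  have es : (N5 - c * D5) * p = -((N4 - c * D4) * q) := by
    apply mul_left_cancel₀ hu; linear_combination (c * ds - ns) / 4
  have ed : (N6 - c * D6) * p = (N3 - c * D3) * q := by
    apply mul_left_cancel₀ hu; linear_combination (c * dd - nd) / 4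
  subst e0
  refine ⟨zero_of_pq hpq ?_ ?_, zero_of_pq hpq ?_ ?_, zero_of_pq hpq ?_ ?_⟩
  · linear_combination D0 ^ 2 * (N3 - c * D3) * es + D0 ^ 2 * (N4 - c * D4) * ed
  · linear_combination D0 ^ 2 * (N6 - c * D6) * es - D0 ^ 2 * (N5 - c * D5) * ed
  · linear_combination D0 ^ 2 * (N3 - c * D3) * e2 - D0 ^ 2 * (N2 - c * D2) * ed
  · linear_combination D0 ^ 2 * (N6 - c * D6) * e2 - D0 ^ 2 * (N1 - c * D1) * ed
  · linear_combination D0 ^ 2 * (N4 - c * D4) * e2 + D0 ^ 2 * (N2 - c * D2) * es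
  · linear_combination D0 ^ 2 * (N1 - c * D1) * es - D0 ^ 2 * (N5 - c * D5) * e2

end ids

/-- four equal values at the rotated points -/
def Four (N D : ℝ → ℝ → ℝ) (c x y : ℝ) : Prop :=
  N x y = c * D x y ∧ N (-y) x = c * D (-y) x ∧ N (-x) (-y) = c * D (-x) (-y) ∧
    N y (-x) = c * D y (-x)

theorem NvA (p : RB) (P0 P1 Q0 Q1 w0 al be J t x y R : ℝ) (hR : R = x ^ 2 + y ^ 2) :
    Nv (coreAr p.toA P0 P1 Q0 Q1 w0 al be R J 1) 1 t x y =
      Nt p 1 J t (P0 + 2 * P1 * x + (Q0 + 2 * Q1 * x)) (Q0 + 2 * Q1 * x - (P0 + 2 * P1 * x))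
        (w0 + 2 * al * x - t * (2 * be * y)) (2 * be * y + t * (w0 + 2 * al * x)) := by
  subst hR
  simp only [Nv, Nt, coreAr, RB.toA, one_mul]
  generalize w0 + 2 * al * x - t * (2 * be * y) = X
  generalize 2 * be * y + t * (w0 + 2 * al * x) = Y
  ring

noncomputable def k3A (K : RA) (P1 Q1 : ℝ) : ℝ :=
  Q1 * Q1 * (K.f0 * Q1 + K.f1 * P1) + P1 * P1 * (K.f2 * Q1 + K.f3 * P1)

theorem DvA (p : RB) (P0 P1 Q0 Q1 w0 al be J t x y R : ℝ) (hR : R = x ^ 2 + y ^ 2) :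
    Dv (coreAr p.toA P0 P1 Q0 Q1 w0 al be R J 1) (k3A p.toA P1 Q1) 1 t x y =
      Dt p 1 J t (P0 + 2 * P1 * x + (Q0 + 2 * Q1 * x)) (Q0 + 2 * Q1 * x - (P0 + 2 * P1 * x))
        (w0 + 2 * al * x - t * (2 * be * y)) (2 * be * y + t * (w0 + 2 * al * x)) := by
  subst hR
  simp only [Dv, Dt, coreAr, k3A, RB.toA, one_mul]
  generalize w0 + 2 * al * x - t * (2 * be * y) = X
  generalize 2 * be * y + t * (w0 + 2 * al * x) = Y
  ring

theorem lemA (p : RB) {P0 P1 Q0 Q1 w0 al be J t x y R c : ℝ} (hR : R = x ^ 2 + y ^ 2) (hne : R ≠ 0)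
    (h : Four
      (fun x y => Nt p 1 J t (P0 + 2 * P1 * x + (Q0 + 2 * Q1 * x)) (Q0 + 2 * Q1 * x - (P0 + 2 * P1 * x))
        (w0 + 2 * al * x - t * (2 * be * y)) (2 * be * y + t * (w0 + 2 * al * x)))
      (fun x y => Dt p 1 J t (P0 + 2 * P1 * x + (Q0 + 2 * Q1 * x)) (Q0 + 2 * Q1 * x - (P0 + 2 * P1 * x))
        (w0 + 2 * al * x - t * (2 * be * y)) (2 * be * y + t * (w0 + 2 * al * x))) c x y) :
    GZ (midr (coreAr p.toA P0 P1 Q0 Q1 w0 al be R J 1)) t := by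
  obtain ⟨h1, h2, h3, h4⟩ := h
  refine backend (u := 1) (x := x) (y := y) (k3 := k3A p.toA P1 Q1) (c := c) (by simp [coreAr])
    (by simp [coreAr, hR]) (by simp only [coreAr, k3A]; ring) one_ne_zero (hR ▸ hne) ?_ ?_ ?_ ?_
  · rw [NvA p _ _ _ _ _ _ _ _ _ _ _ _ hR, DvA p _ _ _ _ _ _ _ _ _ _ _ _ hR]; exact h1
  · rw [NvA p _ _ _ _ _ _ _ _ _ _ _ _ (by rw [hR]; ring), DvA p _ _ _ _ _ _ _ _ _ _ _ _ (by rw [hR]; ring)]
    exact h2
  · rw [NvA p _ _ _ _ _ _ _ _ _ _ _ _ (by rw [hR]; ring), DvA p _ _ _ _ _ _ _ _ _ _ _ _ (by rw [hR]; ring)]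
    exact h3
  · rw [NvA p _ _ _ _ _ _ _ _ _ _ _ _ (by rw [hR]; ring), DvA p _ _ _ _ _ _ _ _ _ _ _ _ (by rw [hR]; ring)]
    exact h4

theorem NvB (p : RB) (z0 be w0 t x y R : ℝ) (hR : R = x ^ 2 + y ^ 2) :
    Nv (coreBr p z0 be w0 R) (1 - R) t x y =
      Nt p (1 - R) 1 t (be * (1 + R)) ((1 - R) * z0 - 2 * w0 * x)
        ((1 - R) * w0 + 2 * z0 * x - t * (2 * be * y))
        (2 * be * y + t * ((1 - R) * w0 + 2 * z0 * x)) := by
  simp only [Nv, Nt, coreBr]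
  generalize (1 - R) * w0 + 2 * z0 * x - t * (2 * be * y) = X
  generalize 2 * be * y + t * ((1 - R) * w0 + 2 * z0 * x) = Y
  subst hR
  ring

theorem DvB (p : RB) (z0 be w0 t x y R : ℝ) (hR : R = x ^ 2 + y ^ 2) :
    Dv (coreBr p z0 be w0 R) (-(p.d3 * w0 ^ 3)) (1 - R) t x y =
      Dt p (1 - R) 1 t (be * (1 + R)) ((1 - R) * z0 - 2 * w0 * x)
        ((1 - R) * w0 + 2 * z0 * x - t * (2 * be * y))
        (2 * be * y + t * ((1 - R) * w0 + 2 * z0 * x)) := by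
  simp only [Dv, Dt, coreBr]
  generalize (1 - R) * w0 + 2 * z0 * x - t * (2 * be * y) = X
  generalize 2 * be * y + t * ((1 - R) * w0 + 2 * z0 * x) = Y
  subst hR
  ring

theorem lemB (p : RB) {z0 be w0 t x y R c : ℝ} (hR : R = x ^ 2 + y ^ 2) (hne : R ≠ 0) (h1 : 1 - R ≠ 0)
    (h : Four
      (fun x y => Nt p (1 - R) 1 t (be * (1 + R)) ((1 - R) * z0 - 2 * w0 * x)
        ((1 - R) * w0 + 2 * z0 * x - t * (2 * be * y))
        (2 * be * y + t * ((1 - R) * w0 + 2 * z0 * x)))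
      (fun x y => Dt p (1 - R) 1 t (be * (1 + R)) ((1 - R) * z0 - 2 * w0 * x)
        ((1 - R) * w0 + 2 * z0 * x - t * (2 * be * y))
        (2 * be * y + t * ((1 - R) * w0 + 2 * z0 * x))) c x y) :
    GZ (midr (coreBr p z0 be w0 R)) t := by
  obtain ⟨a1, a2, a3, a4⟩ := h
  refine backend (u := 1 - R) (x := x) (y := y) (k3 := -(p.d3 * w0 ^ 3)) (c := c)
    (by simp only [coreBr]; ring) (by simp [coreBr, hR]) (by simp only [coreBr]; ring) h1 (hR ▸ hne)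
    ?_ ?_ ?_ ?_
  · rw [NvB p _ _ _ _ _ _ _ hR, DvB p _ _ _ _ _ _ _ hR]; exact a1
  · rw [NvB p _ _ _ _ _ _ _ (by rw [hR]; ring), DvB p _ _ _ _ _ _ _ (by rw [hR]; ring)]; exact a2
  · rw [NvB p _ _ _ _ _ _ _ (by rw [hR]; ring), DvB p _ _ _ _ _ _ _ (by rw [hR]; ring)]; exact a3
  · rw [NvB p _ _ _ _ _ _ _ (by rw [hR]; ring), DvB p _ _ _ _ _ _ _ (by rw [hR]; ring)]; exact a4

end Pool.Agent.Lib.MP_5a3ebe_gt.Tab
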