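import Pool.Agent.Lib.MP_5a3ebe_gt.TabMain
import Pool.Agent.Lib.MP_5a3ebe_gt.TabD00
import Pool.Agent.Lib.MP_5a3ebe_gt.TabD01
import Pool.Agent.Lib.MP_5a3ebe_gt.TabD02
import Pool.Agent.Lib.MP_5a3ebe_gt.TabD03
import Pool.Agent.Lib.MP_5a3ebe_gt.TabD04
import Pool.Agent.Lib.MP_5a3ebe_gt.TabD05
import Pool.Agent.Lib.MP_5a3ebe_gt.TabD06
import Pool.Agent.Lib.MP_5a3ebe_gt.TabD07
import Pool.Agent.Lib.MP_5a3ebe_gt.TabD08
import Pool.Agent.Lib.MP_5a3ebe_gt.TabD09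
import Pool.Agent.Lib.MP_5a3ebe_gt.TabD10
import Pool.Agent.Lib.MP_5a3ebe_gt.TabD11

/-! Assembly of the checked boxes. -/

namespace Pool.Agent.Lib.MP_5a3ebe_gt.Tab

theorem hrr : 1651507200 ≤ 281474976710656 := by norm_num

theorem bA10 : Box (Ph1 pA 1651507200) 0 4294967296 0 4294967296 0 8589934592 :=
    (Box.x (Box.x (Box.y (chk1_ok hrr cA10_0.down) (chk1_ok hrr cA10_1.down)) (Box.y (Box.t (chk1_ok hrr
    cA10_2.down) (Box.x (chk1_ok hrr cA10_3.down) (chk1_ok hrr cA10_4.down))) (Box.t (chk1_ok hrr cA10_5.down)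
    (chk1_ok hrr cA10_6.down)))) (Box.x (Box.y (Box.t (chk1_ok hrr cA10_7.down) (Box.x (chk1_ok hrr
    cA10_8.down) (Box.y (chk1_ok hrr cA10_9.down) (chk1_ok hrr cA10_10.down)))) (Box.t (chk1_ok hrr
    cA10_11.down) (chk1_ok hrr cA10_12.down))) (Box.y (Box.t (chk1_ok hrr cA10_13.down) (Box.x (Box.y (chk1_ok
    hrr cA10_14.down) (chk1_ok hrr cA10_15.down)) (Box.y (Box.t (chk1_ok hrr cA10_16.down) (chk1_ok hrr
    cA10_17.down)) (chk1_ok hrr cA10_18.down)))) (Box.t (chk1_ok hrr cA10_19.down) (Box.x (chk1_ok hrr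
    cA10_20.down) (chk1_ok hrr cA10_21.down))))))

theorem bA11 : Box (Ph1 pA.rot 1651507200) 0 4294967296 0 4294967296 0 8589934592 :=
    (Box.x (Box.x (Box.y (Box.t (chk1_ok hrr cA11_0.down) (chk1_ok hrr cA11_1.down)) (Box.t (chk1_ok hrr
    cA11_2.down) (chk1_ok hrr cA11_3.down))) (Box.y (Box.t (Box.x (chk1_ok hrr cA11_4.down) (chk1_ok hrr
    cA11_5.down)) (chk1_ok hrr cA11_6.down)) (Box.t (Box.x (chk1_ok hrr cA11_7.down) (chk1_ok hrr
    cA11_8.down)) (chk1_ok hrr cA11_9.down)))) (Box.x (Box.y (Box.t (Box.x (chk1_ok hrr cA11_10.down) (Box.y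
    (chk1_ok hrr cA11_11.down) (chk1_ok hrr cA11_12.down))) (chk1_ok hrr cA11_13.down)) (Box.t (chk1_ok hrr
    cA11_14.down) (chk1_ok hrr cA11_15.down))) (Box.y (Box.t (Box.x (Box.y (chk1_ok hrr cA11_16.down) (chk1_ok
    hrr cA11_17.down)) (Box.y (Box.t (chk1_ok hrr cA11_18.down) (chk1_ok hrr cA11_19.down)) (chk1_ok hrr
    cA11_20.down))) (chk1_ok hrr cA11_21.down)) (Box.t (chk1_ok hrr cA11_22.down) (chk1_ok hrr
    cA11_23.down)))))

theorem bA20 : Box (Ph2 pA 1651507200) 0 4294967296 0 4294967296 0 8589934592 :=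
    (Box.x (Box.x (Box.y (chk2_ok hrr cA20_0.down) (Box.t (chk2_ok hrr cA20_1.down) (Box.x (chk2_ok hrr
    cA20_2.down) (chk2_ok hrr cA20_3.down)))) (Box.y (chk2_ok hrr cA20_4.down) (chk2_ok hrr cA20_5.down)))
    (Box.x (Box.y (chk2_ok hrr cA20_6.down) (chk2_ok hrr cA20_7.down)) (Box.y (chk2_ok hrr cA20_8.down)
    (chk2_ok hrr cA20_9.down))))

theorem bA21 : Box (Ph2 pA.rot 1651507200) 0 4294967296 0 4294967296 0 8589934592 :=
    (Box.x (Box.x (Box.y (chk2_ok hrr cA21_0.down) (chk2_ok hrr cA21_1.down)) (Box.y (chk2_ok hrr cA21_2.down)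
    (chk2_ok hrr cA21_3.down))) (Box.x (chk2_ok hrr cA21_4.down) (chk2_ok hrr cA21_5.down)))

theorem bA30 : Box (Ph3 pA 1651507200) 0 4294967296 0 4294967296 0 8589934592 :=
    (Box.x (chk3_ok hrr cA30_0.down) (Box.x (Box.y (chk3_ok hrr cA30_1.down) (chk3_ok hrr cA30_2.down)) (Box.y
    (Box.t (chk3_ok hrr cA30_3.down) (chk3_ok hrr cA30_4.down)) (Box.t (chk3_ok hrr cA30_5.down) (Box.x
    (chk3_ok hrr cA30_6.down) (chk3_ok hrr cA30_7.down))))))

theorem bA31 : Box (Ph3 pA.rot 1651507200) 0 4294967296 0 4294967296 0 8589934592 :=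
    (Box.x (chk3_ok hrr cA31_0.down) (Box.x (Box.y (chk3_ok hrr cA31_1.down) (chk3_ok hrr cA31_2.down)) (Box.y
    (Box.t (chk3_ok hrr cA31_3.down) (chk3_ok hrr cA31_4.down)) (Box.t (chk3_ok hrr cA31_5.down) (chk3_ok hrr
    cA31_6.down)))))

theorem bB140 : Box (Ph4 pB1) 0 4294967296 1651507200 2147483648 0 8589934592 :=
    (Box.x (Box.x (chk4_ok cB140_0.down) (chk4_ok cB140_1.down)) (Box.x (chk4_ok cB140_2.down) (chk4_ok
    cB140_3.down)))

theorem bB141 : Box (Ph4 pB1.rot) 0 4294967296 1651507200 2147483648 0 8589934592 :=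
    (Box.x (chk4_ok cB141_0.down) (Box.x (chk4_ok cB141_1.down) (chk4_ok cB141_2.down)))

theorem bB150 : Box (Ph5 pB1) 0 4294967296 1651507200 2147483648 0 8589934592 :=
    (Box.x (chk5_ok cB150_0.down) (chk5_ok cB150_1.down))

theorem bB151 : Box (Ph5 pB1.rot) 0 4294967296 1651507200 2147483648 0 8589934592 :=
    (Box.x (chk5_ok cB151_0.down) (chk5_ok cB151_1.down))

theorem bB240 : Box (Ph4 pB2) 0 4294967296 2147483648 2577399808 0 8589934592 :=
    (Box.x (chk4_ok cB240_0.down) (chk4_ok cB240_1.down))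

theorem bB241 : Box (Ph4 pB2.rot) 0 4294967296 2147483648 2577399808 0 8589934592 :=
    (Box.x (chk4_ok cB241_0.down) (chk4_ok cB241_1.down))

theorem bB250 : Box (Ph5 pB2) 0 4294967296 2147483648 2577399808 0 8589934592 :=
    (Box.x (chk5_ok cB250_0.down) (chk5_ok cB250_1.down))

theorem bB251 : Box (Ph5 pB2.rot) 0 4294967296 2147483648 2577399808 0 8589934592 :=
    (Box.x (chk5_ok cB251_0.down) (chk5_ok cB251_1.down))

theorem bB340 : Box (Ph4 pB3) 0 4294967296 2577399808 3006267392 0 8589934592 :=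
    (Box.x (chk4_ok cB340_0.down) (chk4_ok cB340_1.down))

theorem bB341 : Box (Ph4 pB3.rot) 0 4294967296 2577399808 3006267392 0 8589934592 :=
    (Box.x (chk4_ok cB341_0.down) (Box.x (chk4_ok cB341_1.down) (chk4_ok cB341_2.down)))

theorem bB350 : Box (Ph5 pB3) 0 4294967296 2577399808 3006267392 0 8589934592 :=
    (Box.x (chk5_ok cB350_0.down) (chk5_ok cB350_1.down))

theorem bB351 : Box (Ph5 pB3.rot) 0 4294967296 2577399808 3006267392 0 8589934592 :=
    (Box.x (chk5_ok cB351_0.down) (chk5_ok cB351_1.down))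

theorem bB440 : Box (Ph4 pB4) 0 4294967296 3006267392 3436183552 0 8589934592 :=
    (Box.x (chk4_ok cB440_0.down) (Box.x (chk4_ok cB440_1.down) (chk4_ok cB440_2.down)))

theorem bB441 : Box (Ph4 pB4.rot) 0 4294967296 3006267392 3436183552 0 8589934592 :=
    (Box.x (chk4_ok cB441_0.down) (chk4_ok cB441_1.down))

theorem bB450 : Box (Ph5 pB4) 0 4294967296 3006267392 3436183552 0 8589934592 :=
    (Box.x (chk5_ok cB450_0.down) (chk5_ok cB450_1.down))

theorem bB451 : Box (Ph5 pB4.rot) 0 4294967296 3006267392 3436183552 0 8589934592 :=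
    (Box.x (chk5_ok cB451_0.down) (chk5_ok cB451_1.down))

theorem bB540 : Box (Ph4 pB5) 0 4294967296 3436183552 3865051136 0 8589934592 :=
    (Box.x (chk4_ok cB540_0.down) (chk4_ok cB540_1.down))

theorem bB541 : Box (Ph4 pB5.rot) 0 4294967296 3436183552 3865051136 0 8589934592 :=
    (Box.x (chk4_ok cB541_0.down) (chk4_ok cB541_1.down))

theorem bB550 : Box (Ph5 pB5) 0 4294967296 3436183552 3865051136 0 8589934592 :=
    (Box.x (chk5_ok cB550_0.down) (chk5_ok cB550_1.down))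

theorem bB551 : Box (Ph5 pB5.rot) 0 4294967296 3436183552 3865051136 0 8589934592 :=
    (Box.x (chk5_ok cB551_0.down) (Box.x (chk5_ok cB551_1.down) (chk5_ok cB551_2.down)))

theorem bB640 : Box (Ph4 pB6) 0 4294967296 3865051136 4294967296 0 8589934592 :=
    (chk4_ok cB640_0.down)

theorem bB641 : Box (Ph4 pB6.rot) 0 4294967296 3865051136 4294967296 0 8589934592 :=
    (Box.x (chk4_ok cB641_0.down) (chk4_ok cB641_1.down))

theorem bB650 : Box (Ph5 pB6) 0 4294967296 3865051136 4294967296 0 8589934592 :=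
    (Box.x (chk5_ok cB650_0.down) (chk5_ok cB650_1.down))

theorem bB651 : Box (Ph5 pB6.rot) 0 4294967296 3865051136 4294967296 0 8589934592 :=
    (Box.x (chk5_ok cB651_0.down) (chk5_ok cB651_1.down))

theorem sc (x : ℝ) : x * 4294967296 / 4294967296 = x := by ring

theorem sc' (t : ℝ) : (t + 1) * 4294967296 / 4294967296 - 1 = t := by ring

theorem noA_of {p : PR} {rr : ℕ}
    (h1 : Box (Ph1 p rr) 0 4294967296 0 4294967296 0 8589934592)
    (h2 : Box (Ph2 p rr) 0 4294967296 0 4294967296 0 8589934592)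
    (h3 : Box (Ph3 p rr) 0 4294967296 0 4294967296 0 8589934592) :
    NoA p.r ((rr : ℝ) / 4294967296) := by
  intro x y t x0 x1 y0 y1 t0 t1
  have a0 : ((0 : ℕ) : ℝ) ≤ x * 4294967296 := by push_cast; positivity
  have a1 : x * 4294967296 ≤ ((4294967296 : ℕ) : ℝ) := by push_cast; linarith
  have b0 : ((0 : ℕ) : ℝ) ≤ y * 4294967296 := by push_cast; positivity
  have b1 : y * 4294967296 ≤ ((4294967296 : ℕ) : ℝ) := by push_cast; linarith
  have c0 : ((0 : ℕ) : ℝ) ≤ (t + 1) * 4294967296 := by push_cast; linarith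
  have c1 : (t + 1) * 4294967296 ≤ ((8589934592 : ℕ) : ℝ) := by push_cast; linarith
  have k1 := h1 _ _ _ a0 a1 b0 b1 c0 c1
  have k2 := h2 _ _ _ a0 a1 b0 b1 c0 c1
  have k3 := h3 _ _ _ a0 a1 b0 b1 c0 c1
  unfold Ph1 at k1
  unfold Ph2 at k2
  unfold Ph3 at k3
  rw [sc, sc, sc'] at k1 k2 k3
  exact ⟨k1, k2, k3⟩

theorem noB_of {p : PR} {y0 y1 : ℕ} {R : ℝ}
    (h4 : Box (Ph4 p) 0 4294967296 y0 y1 0 8589934592)
    (h5 : Box (Ph5 p) 0 4294967296 y0 y1 0 8589934592)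
    (b0 : (y0 : ℝ) ≤ R * 4294967296) (b1 : R * 4294967296 ≤ y1) : NoB p.r R := by
  intro x t x0 x1 t0 t1
  have a0 : ((0 : ℕ) : ℝ) ≤ x * 4294967296 := by push_cast; positivity
  have a1 : x * 4294967296 ≤ ((4294967296 : ℕ) : ℝ) := by push_cast; linarith
  have c0 : ((0 : ℕ) : ℝ) ≤ (t + 1) * 4294967296 := by push_cast; linarith
  have c1 : (t + 1) * 4294967296 ≤ ((8589934592 : ℕ) : ℝ) := by push_cast; linarith
  have k4 := h4 _ _ _ a0 a1 b0 b1 c0 c1
  have k5 := h5 _ _ _ a0 a1 b0 b1 c0 c1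
  unfold Ph4 at k4
  unfold Ph5 at k5
  rw [sc, sc, sc'] at k4 k5
  exact ⟨k4, k5⟩

theorem dp_of {p : PR} {y0 y1 : ℕ} {u : ℝ}
    (h : Box (fun X Y _ => DP p.r (X / 4294967296) (Y / 4294967296)) 0 8589934592 y0 y1 0 0)
    (b0 : (y0 : ℝ) ≤ u * 4294967296) (b1 : u * 4294967296 ≤ y1) (x : ℝ) (x0 : 0 ≤ x) (x1 : x ≤ 2) :
    DP p.r x u := by
  have k := h (x * 4294967296) _ 0 (by push_cast; positivity) (by push_cast; linarith) b0 b1
    (by simp) (by simp)
  beta_reduce at k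
  rwa [sc, sc] at k

theorem witB_of {p : PR} {y0 y1 z0 z1 : ℕ} {c : ℝ}
    (h4 : Box (Ph4 p) 0 4294967296 y0 y1 0 8589934592)
    (h5 : Box (Ph5 p) 0 4294967296 y0 y1 0 8589934592)
    (g4 : Box (Ph4 p.rot) 0 4294967296 y0 y1 0 8589934592)
    (g5 : Box (Ph5 p.rot) 0 4294967296 y0 y1 0 8589934592)
    (h : Box (fun X Y _ => DP p.r (X / 4294967296) (Y / 4294967296)) 0 8589934592 z0 z1 0 0)
    (e0 : z0 + y1 = 4294967296) (e1 : z1 + y0 = 4294967296) (c0 : 0 < c) (c1 : c < 1)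
    (b0 : (y0 : ℝ) ≤ (1 - c) / (1 + c) * 4294967296) (b1 : (1 - c) / (1 + c) * 4294967296 ≤ y1) :
    Wit c := by
  have f0 : (z0 : ℝ) + y1 = 4294967296 := by exact_mod_cast e0
  have f1 : (z1 : ℝ) + y0 = 4294967296 := by exact_mod_cast e1
  refine witB (p := p.r) (noB_of h4 h5 b0 b1) ?_ (dp_of h (by linarith) (by linarith)) c0 c1 rfl
  rw [← PR.rot_r]
  exact noB_of g4 g5 b0 b1

theorem wit_all (c : ℝ) (c0 : 0 < c) (c1 : c < 1) : Wit c := by
  have r1 : (1 - c) / (1 + c) * 4294967296 ≤ ((4294967296 : ℕ) : ℝ) := by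
    have : (1 - c) / (1 + c) ≤ 1 := by rw [div_le_one (by linarith)]; linarith
    push_cast; linarith
  rcases le_total ((1 - c) / (1 + c) * 4294967296) ((1651507200 : ℕ) : ℝ) with h0 | h0
  · refine witA (p := pA.r) (noA_of bA10 bA20 bA30) ?_
      (dp_of dA (by push_cast; linarith) (by push_cast; linarith)) (by positivity) c0 c1
      (by rw [le_div_iff₀ (by norm_num)]; exact h0)
    rw [← PR.rot_r]
    exact noA_of bA11 bA21 bA31
  rcases le_total ((1 - c) / (1 + c) * 4294967296) ((2147483648 : ℕ) : ℝ) with h1 | h1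
  · exact witB_of bB140 bB150 bB141 bB151 dB1 (by norm_num) (by norm_num) c0 c1 h0 h1
  rcases le_total ((1 - c) / (1 + c) * 4294967296) ((2577399808 : ℕ) : ℝ) with h2 | h2
  · exact witB_of bB240 bB250 bB241 bB251 dB2 (by norm_num) (by norm_num) c0 c1 h1 h2
  rcases le_total ((1 - c) / (1 + c) * 4294967296) ((3006267392 : ℕ) : ℝ) with h3 | h3
  · exact witB_of bB340 bB350 bB341 bB351 dB3 (by norm_num) (by norm_num) c0 c1 h2 h3
  rcases le_total ((1 - c) / (1 + c) * 4294967296) ((3436183552 : ℕ) : ℝ) with h4 | h4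
  · exact witB_of bB440 bB450 bB441 bB451 dB4 (by norm_num) (by norm_num) c0 c1 h3 h4
  rcases le_total ((1 - c) / (1 + c) * 4294967296) ((3865051136 : ℕ) : ℝ) with h5 | h5
  · exact witB_of bB540 bB550 bB541 bB551 dB5 (by norm_num) (by norm_num) c0 c1 h4 h5
  exact witB_of bB640 bB650 bB641 bB651 dB6 (by norm_num) (by norm_num) c0 c1 h5 r1

end Pool.Agent.Lib.MP_5a3ebe_gt.Tab
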