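import Pool.Agent.Lib.MP_5a3ebe_gt.TabAlg

/-! Charts, phases and frames. -/

namespace Pool.Agent.Lib.MP_5a3ebe_gt.Tab

theorem Nf_scale (p : RB) {u t l j m S Z X Y : ℝ} (hm : m ^ 2 * (1 + t ^ 2) = 1) :
    Nf p u (l * S) (l * Z) (l * j * m * X) (l * j * m * Y) = l ^ 3 * j * m ^ 3 * Nt p u (j ^ 2) t S Z X Y := by
  unfold Nf Nt
  linear_combination (-(l ^ 3 * j * m * (X * (u * p.c0x * S ^ 2 + p.c1x * S * Z + u * p.c2x * Z ^ 2)
    - Y * (u * p.c0y * S ^ 2 + p.c1y * S * Z + u * p.c2y * Z ^ 2)))) * hm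

theorem Df_scale (p : RB) {u t l j m S Z X Y : ℝ} (hm : m ^ 2 * (1 + t ^ 2) = 1) :
    Df p u (l * S) (l * Z) (l * j * m * X) (l * j * m * Y) = l ^ 3 * m ^ 2 * Dt p u (j ^ 2) t S Z X Y := by
  unfold Df Dt
  linear_combination (-(l ^ 3 * (p.d0 * S ^ 3 + p.d1 * S * Z ^ 2
    + u * (p.d2 * S ^ 2 * Z + p.d3 * Z ^ 3)))) * hm

theorem four_tr {p : RB} {u J t l j m c ρ ξ η : ℝ} {S Z X Y S' Z' X' Y' : ℝ → ℝ → ℝ}
    (hm : m ^ 2 * (1 + t ^ 2) = 1) (hl : l ≠ 0) (hj : j ≠ 0) (hJ : J = j ^ 2)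
    (hS : ∀ x y, S x y = l * S' (ρ * x) (ρ * y)) (hZ : ∀ x y, Z x y = l * Z' (ρ * x) (ρ * y))
    (hX : ∀ x y, X x y = l * j * m * X' (ρ * x) (ρ * y))
    (hY : ∀ x y, Y x y = l * j * m * Y' (ρ * x) (ρ * y))
    (h : Four (fun x y => Nf p u (S x y) (Z x y) (X x y) (Y x y))
      (fun x y => Df p u (S x y) (Z x y) (X x y) (Y x y)) c ξ η) :
    Four (fun x y => Nt p u J t (S' x y) (Z' x y) (X' x y) (Y' x y))
      (fun x y => Dt p u J t (S' x y) (Z' x y) (X' x y) (Y' x y)) (c / (j * m)) (ρ * ξ) (ρ * η) := by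
  have hm0 : m ≠ 0 := by rintro rfl; simp at hm
  have key : ∀ x y, Nf p u (S x y) (Z x y) (X x y) (Y x y) = c * Df p u (S x y) (Z x y) (X x y) (Y x y) →
      Nt p u J t (S' (ρ * x) (ρ * y)) (Z' (ρ * x) (ρ * y)) (X' (ρ * x) (ρ * y)) (Y' (ρ * x) (ρ * y))
      = c / (j * m) *
      Dt p u J t (S' (ρ * x) (ρ * y)) (Z' (ρ * x) (ρ * y)) (X' (ρ * x) (ρ * y)) (Y' (ρ * x) (ρ * y)) := by
    intro x y e
    rw [hS, hZ, hX, hY, Nf_scale p hm, Df_scale p hm, ← hJ] at e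
    have h3 : l ^ 3 * j * m ^ 3 ≠ 0 := by positivity
    apply mul_left_cancel₀ h3
    rw [e]; field_simp
  obtain ⟨h1, h2, h3, h4⟩ := h
  have k2 := key _ _ h2
  have k3 := key _ _ h3
  have k4 := key _ _ h4
  rw [mul_neg] at k2 k4
  rw [mul_neg, mul_neg] at k3
  exact ⟨key _ _ h1, k2, k3, k4⟩

def NoA (p : RB) (rr : ℝ) : Prop :=
  ∀ x y t : ℝ, 0 ≤ x → x ≤ 1 → 0 ≤ y → y ≤ 1 → -1 ≤ t → t ≤ 1 →
    ¬ GZ (midr (ch1r p.toA rr x y)) t ∧ ¬ GZ (midr (ch2r p.toA rr x y)) t ∧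
      ¬ GZ (midr (ch3r p.toA rr x y)) t

def NoB (p : RB) (R : ℝ) : Prop :=
  ∀ x t : ℝ, 0 ≤ x → x ≤ 1 → -1 ≤ t → t ≤ 1 →
    ¬ GZ (midr (ch4r p x R)) t ∧ ¬ GZ (midr (ch5r p x R)) t

theorem ch1_eq (K : RA) (rr x y : ℝ) : ch1r K rr x y = coreAr K (x ^ 2 + rr) x (1 + rr * (y * x) ^ 2)
    (-(y * x)) (2 * (x - rr * (y * x))) (1 - y * x ^ 2) (1 + y * x ^ 2) rr 1 1 := by
  simp only [ch1r]; congr 1 <;> ring

theorem ch2_eq (K : RA) (rr x y : ℝ) : ch2r K rr x y = coreAr K (1 + rr * y) 1 (y * (1 + rr * y * x ^ 2))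
    (-(y * x)) (2 * (1 - rr * y * x)) (1 - x) (1 + x) (rr * y) y 1 := by
  simp only [ch2r]; congr 1; ring

theorem ch3_eq (K : RA) (rr x y : ℝ) : ch3r K rr x y = coreAr K (1 + rr * y * x ^ 2) x
    (y * (x ^ 2 + rr * y)) (-(y * x)) (2 * (x - rr * y * x)) (x ^ 2 - 1) (x ^ 2 + 1) (rr * y) y 1 := by
  simp only [ch3r]; congr 1 <;> ring

theorem ch4_eq (K : RB) (x y : ℝ) : ch4r K x y = coreBr K (1 - x ^ 2) (1 + x ^ 2) (2 * x) y := by
  simp only [ch4r]; congr 1 <;> ring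

theorem ch5_eq (K : RB) (x y : ℝ) : ch5r K x y = coreBr K (x ^ 2 - 1) (1 + x ^ 2) (2 * x) y := by
  simp only [ch5r]; congr 1 <;> ring

theorem chartA {p : RB} {rr κ a b ξ η t m c : ℝ} (hN : NoA p rr) (hr : 0 < rr) (hκ : 0 < κ)
    (hκ1 : κ ≤ 1) (ha : 0 ≤ a) (hb : 0 ≤ b) (hab : a ^ 2 + b ^ 2 = 1)
    (he : ξ ^ 2 + η ^ 2 = κ ^ 2 * rr) (t0 : -1 ≤ t) (t1 : t ≤ 1) (hm : m ^ 2 * (1 + t ^ 2) = 1)
    {S Z X Y : ℝ → ℝ → ℝ}
    (hS : ∀ x y, S x y = b ^ 2 + a ^ 2 * (κ ^ 2 * rr) + 2 * a * b * x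
      + κ ^ 2 * (a ^ 2 + b ^ 2 * (κ ^ 2 * rr) - 2 * a * b * x))
    (hZ : ∀ x y, Z x y = κ ^ 2 * (a ^ 2 + b ^ 2 * (κ ^ 2 * rr) - 2 * a * b * x)
      - (b ^ 2 + a ^ 2 * (κ ^ 2 * rr) + 2 * a * b * x))
    (hX : ∀ x y, X x y = m * (2 * κ * (a * b * (1 - κ ^ 2 * rr) + (a ^ 2 - b ^ 2) * x)
      - t * (2 * κ * (a ^ 2 + b ^ 2) * y)))
    (hY : ∀ x y, Y x y = m * (2 * κ * (a ^ 2 + b ^ 2) * y
      + t * (2 * κ * (a * b * (1 - κ ^ 2 * rr) + (a ^ 2 - b ^ 2) * x)))) :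
    ¬ Four (fun x y => Nf p 1 (S x y) (Z x y) (X x y) (Y x y))
      (fun x y => Df p 1 (S x y) (Z x y) (X x y) (Y x y)) c ξ η := by
  intro h
  have hκ2 : κ ^ 2 ≤ 1 := by nlinarith
  rcases le_or_gt b (a * κ) with h1 | h1
  · have ha' : 0 < a := by
      rcases ha.eq_or_lt with h0 | h0
      · subst h0
        have : b = 0 := by linarith
        subst this; norm_num at hab
      · exact h0
    have hak : 0 < a * κ := by positivity
    refine (hN (b / (a * κ)) (κ ^ 2) t (by positivity) ((div_le_one hak).2 h1) (by positivity) hκ2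
      t0 t1).1 ?_
    rw [ch1_eq]
    refine lemA p (x := κ⁻¹ * ξ) (y := κ⁻¹ * η) (c := c / (1 * m)) ?_ hr.ne' ?_
    · field_simp; linarith
    · refine four_tr (l := (a * κ) ^ 2) hm (by positivity) one_ne_zero (by norm_num) ?_ ?_ ?_ ?_ h
      · intro x y; rw [hS]; field_simp; ring
      · intro x y; rw [hZ]; field_simp; ring
      · intro x y; rw [hX]; field_simp
      · intro x y; rw [hY]; field_simp
  · have hb' : 0 < b := lt_of_le_of_lt (by positivity) h1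
    rcases le_or_gt a b with h2 | h2
    · refine (hN (a / b) (κ ^ 2) t (by positivity) ((div_le_one hb').2 h2) (by positivity) hκ2
        t0 t1).2.2 ?_
      rw [ch3_eq]
      refine lemA p (x := 1 * ξ) (y := 1 * η) (c := c / (κ * m)) ?_ (by positivity) ?_
      · linarith
      · refine four_tr (l := b ^ 2) hm (by positivity) hκ.ne' rfl ?_ ?_ ?_ ?_ h
        · intro x y; rw [hS]; field_simp; ring
        · intro x y; rw [hZ]; field_simp; ring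
        · intro x y; rw [hX]; field_simp
        · intro x y; rw [hY]; field_simp
    · have ha' : 0 < a := hb'.trans h2
      have q1 : (b / a) ^ 2 ≤ 1 := pow_le_one₀ (by positivity) ((div_le_one ha').2 h2.le)
      have q2 : (κ * a / b) ^ 2 ≤ 1 :=
        pow_le_one₀ (by positivity) ((div_le_one hb').2 (by linarith))
      refine (hN ((b / a) ^ 2) ((κ * a / b) ^ 2) t (by positivity) q1 (by positivity) q2
        t0 t1).2.1 ?_
      rw [ch2_eq]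
      refine lemA p (x := a / b * ξ) (y := a / b * η) (c := c / (κ * a / b * m)) ?_ (by positivity) ?_
      · field_simp; linarith
      · refine four_tr (l := b ^ 2) hm (by positivity) (by positivity) rfl ?_ ?_ ?_ ?_ h
        · intro x y; rw [hS]; field_simp; ring
        · intro x y; rw [hZ]; field_simp; ring
        · intro x y; rw [hX]; field_simp
        · intro x y; rw [hY]; field_simp

theorem chartB {p : RB} {R a b ξ η t m c : ℝ} (hN : NoB p R) (hr : 0 < R) (hr1 : R < 1)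
    (ha : 0 ≤ a) (hb : 0 ≤ b) (hab : a ^ 2 + b ^ 2 = 1)
    (he : ξ ^ 2 + η ^ 2 = R) (t0 : -1 ≤ t) (t1 : t ≤ 1) (hm : m ^ 2 * (1 + t ^ 2) = 1)
    {S Z X Y : ℝ → ℝ → ℝ}
    (hS : ∀ x y, S x y = (a ^ 2 + b ^ 2) * (1 + R))
    (hZ : ∀ x y, Z x y = (1 - R) * (a ^ 2 - b ^ 2) - 4 * a * b * x)
    (hX : ∀ x y, X x y = m * (2 * (a * b * (1 - R) + (a ^ 2 - b ^ 2) * x)
      - t * (2 * (a ^ 2 + b ^ 2) * y)))
    (hY : ∀ x y, Y x y = m * (2 * (a ^ 2 + b ^ 2) * y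
      + t * (2 * (a * b * (1 - R) + (a ^ 2 - b ^ 2) * x)))) :
    ¬ Four (fun x y => Nf p (1 - R) (S x y) (Z x y) (X x y) (Y x y))
      (fun x y => Df p (1 - R) (S x y) (Z x y) (X x y) (Y x y)) c ξ η := by
  intro h
  rcases le_or_gt b a with h1 | h1
  · have ha' : 0 < a := by
      rcases ha.eq_or_lt with h0 | h0
      · subst h0
        have : b = 0 := by linarith
        subst this; norm_num at hab
      · exact h0
    refine (hN (b / a) t (by positivity) ((div_le_one ha').2 h1) t0 t1).1 ?_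
    rw [ch4_eq]
    refine lemB p (x := 1 * ξ) (y := 1 * η) (c := c / (1 * m)) (by linarith) hr.ne' (by linarith) ?_
    refine four_tr (l := a ^ 2) hm (by positivity) one_ne_zero (by norm_num) ?_ ?_ ?_ ?_ h
    · intro x y; rw [hS]; field_simp
    · intro x y; rw [hZ]; field_simp; ring
    · intro x y; rw [hX]; field_simp
    · intro x y; rw [hY]; field_simp
  · have hb' : 0 < b := lt_of_le_of_lt ha h1
    refine (hN (a / b) t (by positivity) ((div_le_one hb').2 h1.le) t0 t1).2 ?_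
    rw [ch5_eq]
    refine lemB p (x := 1 * ξ) (y := 1 * η) (c := c / (1 * m)) (by linarith) hr.ne' (by linarith) ?_
    refine four_tr (l := b ^ 2) hm (by positivity) one_ne_zero (by norm_num) ?_ ?_ ?_ ?_ h
    · intro x y; rw [hS]; field_simp; ring
    · intro x y; rw [hZ]; field_simp; ring
    · intro x y; rw [hX]; field_simp; ring
    · intro x y; rw [hY]; field_simp; ring

noncomputable def RB.rot (p : RB) : RB :=
  ⟨-p.c0y, p.c0x, -p.c1y, p.c1x, -p.c2y, p.c2x, p.c3y, -p.c3x, p.d0, p.d1, p.d2, p.d3,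
    -p.e0x, -p.e0y, -p.e1x, -p.e1y⟩

def PR.rot (p : PR) : PR :=
  ⟨-p.c0y, p.c0x, -p.c1y, p.c1x, -p.c2y, p.c2x, p.c3y, -p.c3x, p.d0, p.d1, p.d2, p.d3,
    -p.e0x, -p.e0y, -p.e1x, -p.e1y⟩

theorem PR.rot_r (p : PR) : p.rot.r = p.r.rot := by
  simp only [PR.rot, PR.r, RB.rot, Int.cast_neg, neg_div]

theorem Nf_rot (p : RB) (u S Z X Y : ℝ) : Nf p.rot u S Z Y (-X) = Nf p u S Z X Y := by
  simp only [Nf, RB.rot]; ring

theorem Df_rot (p : RB) (u S Z X Y : ℝ) : Df p.rot u S Z Y (-X) = Df p u S Z X Y := by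
  simp only [Df, RB.rot]; ring

theorem phase {p : RB} {u c ξ η ox oy : ℝ} {S Z V W X Y : ℝ → ℝ → ℝ} (ho : ox ^ 2 + oy ^ 2 = 1)
    (hX : ∀ x y, X x y = ox * V x y - oy * W x y) (hY : ∀ x y, Y x y = ox * W x y + oy * V x y)
    (H : ∀ q : RB, q = p ∨ q = p.rot → ∀ (t m : ℝ) (X Y : ℝ → ℝ → ℝ), -1 ≤ t → t ≤ 1 →
      m ^ 2 * (1 + t ^ 2) = 1 →
      (∀ x y, X x y = m * (V x y - t * W x y)) → (∀ x y, Y x y = m * (W x y + t * V x y)) →
      ¬ Four (fun x y => Nf q u (S x y) (Z x y) (X x y) (Y x y))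
        (fun x y => Df q u (S x y) (Z x y) (X x y) (Y x y)) c ξ η) :
    ¬ Four (fun x y => Nf p u (S x y) (Z x y) (X x y) (Y x y))
      (fun x y => Df p u (S x y) (Z x y) (X x y) (Y x y)) c ξ η := by
  rcases le_or_gt |oy| |ox| with h | h
  · have h0 : ox ≠ 0 := by
      rintro rfl
      have : oy = 0 := by simpa using h
      subst this; norm_num at ho
    have ht : |oy / ox| ≤ 1 := by rw [abs_div]; exact div_le_one_of_le₀ h (abs_nonneg _)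
    refine H p (Or.inl rfl) (oy / ox) ox X Y (abs_le.1 ht).1 (abs_le.1 ht).2 ?_ ?_ ?_
    · field_simp; linarith
    · intro x y; rw [hX]; field_simp
    · intro x y; rw [hY]; field_simp
  · have h0 : oy ≠ 0 := by
      rintro rfl
      exact absurd h (by simp)
    have ht : |-ox / oy| ≤ 1 := by
      rw [abs_div, abs_neg]; exact div_le_one_of_le₀ h.le (abs_nonneg _)
    have := H p.rot (Or.inr rfl) (-ox / oy) oy Y (fun x y => -X x y) (abs_le.1 ht).1 (abs_le.1 ht).2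
      (by field_simp; linarith) (by intro x y; rw [hY]; field_simp; ring)
      (by intro x y; rw [hX]; field_simp; ring)
    simpa only [Nf_rot, Df_rot] using this

theorem Dpos {p : RB} {u S Z X Y : ℝ} (hD : ∀ x : ℝ, 0 ≤ x → x ≤ 2 → DP p x u) (hS : 0 < S)
    (h : X ^ 2 + Y ^ 2 = S ^ 2 - Z ^ 2) : 0 < Df p u S Z X Y := by
  obtain ⟨z, rfl⟩ : ∃ z, Z = S * z := ⟨Z / S, by field_simp⟩
  obtain ⟨x, rfl⟩ : ∃ x, X = S * x := ⟨X / S, by field_simp⟩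
  obtain ⟨y, rfl⟩ : ∃ y, Y = S * y := ⟨Y / S, by field_simp⟩
  have h1 : x ^ 2 + y ^ 2 = 1 - z ^ 2 := by
    have hs : S ^ 2 ≠ 0 := by positivity
    apply mul_left_cancel₀ hs; linear_combination h
  have hz : |z| ≤ 1 := by
    rw [← sq_le_one_iff_abs_le_one]; nlinarith [sq_nonneg x, sq_nonneg y]
  have := hD (z + 1) (by linarith [(abs_le.1 hz).1]) (by linarith [(abs_le.1 hz).2])
  simp only [DP, add_neg_cancel_right, mul_one] at this
  obtain ⟨g1, g2⟩ := this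
  have e : Df p u S (S * z) (S * x) (S * y) = S ^ 3 * (p.d0 + p.d1 * (z * z) + u * z * (p.d2 + p.d3 * (z * z))
      + ((x ^ 2 - y ^ 2) * (p.e0x + p.e1x * (u * z)) - 2 * x * y * (p.e0y + p.e1y * (u * z)))) := by
    unfold Df; ring
  rw [e]
  generalize p.d0 + p.d1 * (z * z) + u * z * (p.d2 + p.d3 * (z * z)) = g at *
  generalize p.e0x + p.e1x * (u * z) = lx at *
  generalize p.e0y + p.e1y * (u * z) = ly at *
  have e2 : 1 + -(z * z) = x ^ 2 + y ^ 2 := by linarith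
  rw [e2] at g2
  have h2 : ((x ^ 2 - y ^ 2) * lx - 2 * x * y * ly) ^ 2 < g ^ 2 := by
    nlinarith [sq_nonneg ((x ^ 2 - y ^ 2) * ly + 2 * x * y * lx)]
  have h3 := abs_lt_of_sq_lt_sq' h2 g1.le
  have : 0 < g + ((x ^ 2 - y ^ 2) * lx - 2 * x * y * ly) := by linarith [h3.1]
  positivity

theorem frame {m0 m1 m2 c : ℝ} (hc : 0 < c) (hm : m0 ^ 2 + m1 ^ 2 + m2 ^ 2 = c ^ 2) :
    ∃ a b ox oy : ℝ, 0 ≤ a ∧ 0 ≤ b ∧ a ^ 2 + b ^ 2 = 1 ∧ ox ^ 2 + oy ^ 2 = 1 ∧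
      m0 = c * (2 * a * b * ox) ∧ m1 = c * (2 * a * b * oy) ∧ m2 = c * (a ^ 2 - b ^ 2) := by
  obtain ⟨n0, rfl⟩ : ∃ z, m0 = c * z := ⟨m0 / c, by field_simp⟩
  obtain ⟨n1, rfl⟩ : ∃ z, m1 = c * z := ⟨m1 / c, by field_simp⟩
  obtain ⟨n2, rfl⟩ : ∃ z, m2 = c * z := ⟨m2 / c, by field_simp⟩
  have h1 : n0 ^ 2 + n1 ^ 2 + n2 ^ 2 = 1 := by
    have hs : c ^ 2 ≠ 0 := by positivity
    apply mul_left_cancel₀ hs; linear_combination hm
  have hz : |n2| ≤ 1 := by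
    rw [← sq_le_one_iff_abs_le_one]; nlinarith [sq_nonneg n0, sq_nonneg n1]
  have ea : √((1 + n2) / 2) ^ 2 = (1 + n2) / 2 := Real.sq_sqrt (by linarith [(abs_le.1 hz).1])
  have eb : √((1 - n2) / 2) ^ 2 = (1 - n2) / 2 := Real.sq_sqrt (by linarith [(abs_le.1 hz).2])
  generalize ha : √((1 + n2) / 2) = a at ea
  generalize hb : √((1 - n2) / 2) = b at eb
  have a0 : 0 ≤ a := ha ▸ Real.sqrt_nonneg _
  have b0 : 0 ≤ b := hb ▸ Real.sqrt_nonneg _
  have hw : (2 * a * b) ^ 2 = n0 ^ 2 + n1 ^ 2 := by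
    rw [show (2 * a * b) ^ 2 = 4 * a ^ 2 * b ^ 2 by ring, ea, eb]; linarith
  by_cases h0 : 2 * a * b = 0
  · rw [h0] at hw
    have z0 : n0 = 0 := by nlinarith [sq_nonneg n0, sq_nonneg n1]
    have z1 : n1 = 0 := by nlinarith [sq_nonneg n0, sq_nonneg n1]
    exact ⟨a, b, 1, 0, a0, b0, by linarith, by norm_num, by rw [h0, z0]; ring, by rw [z1]; ring,
      by rw [ea, eb]; ring⟩
  · refine ⟨a, b, n0 / (2 * a * b), n1 / (2 * a * b), a0, b0, by linarith, ?_,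
      by rw [mul_div_cancel₀ _ h0], by rw [mul_div_cancel₀ _ h0], by rw [ea, eb]; ring⟩
    rw [div_pow, div_pow, ← add_div, ← hw]; exact div_self (pow_ne_zero 2 h0)

theorem tang {a b ox oy f0 f1 f2 : ℝ} (hab : a ^ 2 + b ^ 2 = 1) (ho : ox ^ 2 + oy ^ 2 = 1)
    (h : 2 * a * b * ox * f0 + 2 * a * b * oy * f1 + (a ^ 2 - b ^ 2) * f2 = 0) :
    ∃ x y : ℝ, f0 = ox * ((a ^ 2 - b ^ 2) * x) - oy * y ∧ f1 = ox * y + oy * ((a ^ 2 - b ^ 2) * x) ∧
      f2 = -(2 * a * b * x) := by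
  have e : (a ^ 2 - b ^ 2) ^ 2 + (2 * a * b) ^ 2 = 1 := by
    rw [show (a ^ 2 - b ^ 2) ^ 2 + (2 * a * b) ^ 2 = (a ^ 2 + b ^ 2) ^ 2 by ring, hab]; norm_num
  generalize a ^ 2 - b ^ 2 = z at *
  generalize 2 * a * b = w at *
  refine ⟨z * (ox * f0 + oy * f1) - w * f2, ox * f1 - oy * f0, ?_, ?_, ?_⟩
  · linear_combination (-f0) * ho - ox * (ox * f0 + oy * f1) * e + ox * w * h
  · linear_combination (-f1) * ho - oy * (ox * f0 + oy * f1) * e + oy * w * h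
  · linear_combination (-f2) * e + z * h

theorem rot90 {x y x' y' : ℝ} (h0 : x ^ 2 + y ^ 2 ≠ 0) (h1 : x' ^ 2 + y' ^ 2 = x ^ 2 + y ^ 2)
    (h2 : x * x' + y * y' = 0) : (x' = -y ∧ y' = x) ∨ (x' = y ∧ y' = -x) := by
  have e : (x * y' - y * x' - (x ^ 2 + y ^ 2)) * (x * y' - y * x' + (x ^ 2 + y ^ 2)) = 0 := by
    linear_combination (x ^ 2 + y ^ 2) * h1 - (x * x' + y * y') * h2
  rcases mul_eq_zero.1 e with e | e
  · left
    constructor
    · apply mul_left_cancel₀ h0; linear_combination x * h2 - y * e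
    · apply mul_left_cancel₀ h0; linear_combination y * h2 + x * e
  · right
    constructor
    · apply mul_left_cancel₀ h0; linear_combination x * h2 - y * e
    · apply mul_left_cancel₀ h0; linear_combination y * h2 + x * e

end Pool.Agent.Lib.MP_5a3ebe_gt.Tab
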