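import Pool.Agent.Lib.MP_5a3ebe_gt.TabAA

/-! The leaf test and the subdivision trees. -/

namespace Pool.Agent.Lib.MP_5a3ebe_gt.Tab

structure N4 where
  a : AA
  b : AA
  c : AA
  d : AA

structure D3 where
  a : AA
  b : AA
  c : AA

structure CL where
  n0 : N4
  n1 : N4
  n2 : N4
  n3 : N4
  n4 : N4
  n5 : N4
  n6 : N4
  d0 : D3
  d1 : D3
  d2 : D3
  d3 : D3
  d4 : D3
  d5 : D3
  d6 : D3

structure Q4 where
  p1 : ℝ
  q1 : ℝ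
  p3 : ℝ
  q3 : ℝ

structure Q3 where
  p : ℝ
  q : ℝ
  k : ℝ

structure CR where
  n0 : Q4
  n1 : Q4
  n2 : Q4
  n3 : Q4
  n4 : Q4
  n5 : Q4
  n6 : Q4
  d0 : Q3
  d1 : Q3
  d2 : Q3
  d3 : Q3
  d4 : Q3
  d5 : Q3
  d6 : Q3

def HN (t1 t2 : ℝ) (n : N4) (x : Q4) : Prop :=
  Has t1 t2 0 n.a (x.p1 + x.p3) ∧ Has t1 t2 0 n.b (x.q1 + 3 * x.q3) ∧
    Has t1 t2 0 n.c (x.p1 - 3 * x.p3) ∧ Has t1 t2 0 n.d (x.q1 - x.q3)

def HD (t1 t2 : ℝ) (d : D3) (x : Q3) : Prop :=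
  Has t1 t2 0 d.a (x.p + x.k) ∧ Has t1 t2 0 d.b (2 * x.q) ∧ Has t1 t2 0 d.c (x.k - x.p)

def HC (t1 t2 : ℝ) (c : CL) (x : CR) : Prop :=
  (HN t1 t2 c.n0 x.n0 ∧ HN t1 t2 c.n1 x.n1 ∧ HN t1 t2 c.n2 x.n2 ∧ HN t1 t2 c.n3 x.n3 ∧
    HN t1 t2 c.n4 x.n4 ∧ HN t1 t2 c.n5 x.n5 ∧ HN t1 t2 c.n6 x.n6) ∧
  (HD t1 t2 c.d0 x.d0 ∧ HD t1 t2 c.d1 x.d1 ∧ HD t1 t2 c.d2 x.d2 ∧ HD t1 t2 c.d3 x.d3 ∧
    HD t1 t2 c.d4 x.d4 ∧ HD t1 t2 c.d5 x.d5 ∧ HD t1 t2 c.d6 x.d6)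

noncomputable def nval (x : Q4) (t : ℝ) : ℝ :=
  x.p1 + x.p3 + t * (x.q1 + 3 * x.q3) + t * t * (x.p1 - 3 * x.p3) + t * t * t * (x.q1 - x.q3)

noncomputable def dval (x : Q3) (t : ℝ) : ℝ := x.p + x.k + t * (2 * x.q) + t * t * (x.k - x.p)

noncomputable def bval (C : CR) (n : Q4) (d : Q3) (t : ℝ) : ℝ :=
  dval C.d0 t * nval n t + -nval C.n0 t * dval d t

/-- the three quantities that vanish when the four values agree -/
def GZ (C : CR) (t : ℝ) : Prop :=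
  bval C C.n3 C.d3 t * bval C C.n5 C.d5 t + bval C C.n4 C.d4 t * bval C C.n6 C.d6 t = 0 ∧
  bval C C.n1 C.d1 t * bval C C.n3 C.d3 t + -bval C C.n2 C.d2 t * bval C C.n6 C.d6 t = 0 ∧
  bval C C.n1 C.d1 t * bval C C.n4 C.d4 t + bval C C.n2 C.d2 t * bval C C.n5 C.d5 t = 0

noncomputable def mk4 (P1 Q1 P3 Q3 : RW) (k : N4 → Bool) : Bool :=
  nrm2 (add2 P1 P3) fun a => nrm2 (add2 Q1 (sm2 3 Q3)) fun b =>
  nrm2 (add2 P1 (neg2 (sm2 3 P3))) fun c => nrm2 (add2 Q1 (neg2 Q3)) fun d => k ⟨a, b, c, d⟩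

theorem mk4_ok {t1 t2 p1 q1 p3 q3 : ℝ} {w1 w2 w3 w4 : ℕ} {P1 Q1 P3 Q3 : RW} {k : N4 → Bool}
    (h1 : |t1| ≤ 1) (h2 : |t2| ≤ 1) (a1 : H2 t1 t2 w1 P1 p1) (a2 : H2 t1 t2 w2 Q1 q1)
    (a3 : H2 t1 t2 w3 P3 p3) (a4 : H2 t1 t2 w4 Q3 q3)
    (hw : w1 ≤ 100 ∧ w2 ≤ 100 ∧ w3 ≤ 100 ∧ w4 ≤ 100) (hk : mk4 P1 Q1 P3 Q3 k = true) :
    ∃ n, HN t1 t2 n ⟨p1, q1, p3, q3⟩ ∧ k n = true := by
  unfold mk4 at hk
  obtain ⟨a, ha, hk⟩ := nrm2_ok h1 h2 (a1.add a3) (by omega) hk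
  obtain ⟨b, hb, hk⟩ := nrm2_ok h1 h2 (a2.add (a4.sm 3)) (by omega) hk
  obtain ⟨c, hc, hk⟩ := nrm2_ok h1 h2 (a1.add (a3.sm 3).neg) (by omega) hk
  obtain ⟨d, hd, hk⟩ := nrm2_ok h1 h2 (a2.add a4.neg) (by omega) hk
  exact ⟨_, ⟨ha, hb.congr (by simp), hc.congr (by simp [sub_eq_add_neg]),
    hd.congr (by simp [sub_eq_add_neg])⟩, hk⟩

noncomputable def mk3 (P Q K : RW) (k : D3 → Bool) : Bool :=
  nrm2 (add2 P K) fun a => nrm2 (sm2 2 Q) fun b => nrm2 (add2 K (neg2 P)) fun c => k ⟨a, b, c⟩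

theorem mk3_ok {t1 t2 p q k' : ℝ} {w1 w2 w3 : ℕ} {P Q K : RW} {k : D3 → Bool}
    (h1 : |t1| ≤ 1) (h2 : |t2| ≤ 1) (a1 : H2 t1 t2 w1 P p) (a2 : H2 t1 t2 w2 Q q)
    (a3 : H2 t1 t2 w3 K k') (hw : w1 ≤ 100 ∧ w2 ≤ 100 ∧ w3 ≤ 100) (hk : mk3 P Q K k = true) :
    ∃ n, HD t1 t2 n ⟨p, q, k'⟩ ∧ k n = true := by
  unfold mk3 at hk
  obtain ⟨a, ha, hk⟩ := nrm2_ok h1 h2 (a1.add a3) (by omega) hk
  obtain ⟨b, hb, hk⟩ := nrm2_ok h1 h2 (a2.sm 2) (by omega) hk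
  obtain ⟨c, hc, hk⟩ := nrm2_ok h1 h2 (a3.add a1.neg) (by omega) hk
  exact ⟨_, ⟨ha, hb.congr (by simp), hc.congr (by simp [sub_eq_add_neg])⟩, hk⟩

noncomputable def mk2 (P Q : RW) (k : D3 → Bool) : Bool :=
  nrm2 P fun a => nrm2 (sm2 2 Q) fun b => nrm2 (neg2 P) fun c => k ⟨a, b, c⟩

theorem mk2_ok {t1 t2 p q : ℝ} {w1 w2 : ℕ} {P Q : RW} {k : D3 → Bool}
    (h1 : |t1| ≤ 1) (h2 : |t2| ≤ 1) (a1 : H2 t1 t2 w1 P p) (a2 : H2 t1 t2 w2 Q q)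
    (hw : w1 ≤ 100 ∧ w2 ≤ 100) (hk : mk2 P Q k = true) :
    ∃ n, HD t1 t2 n ⟨p, q, 0⟩ ∧ k n = true := by
  unfold mk2 at hk
  obtain ⟨a, ha, hk⟩ := nrm2_ok h1 h2 a1 (by omega) hk
  obtain ⟨b, hb, hk⟩ := nrm2_ok h1 h2 (a2.sm 2) (by omega) hk
  obtain ⟨c, hc, hk⟩ := nrm2_ok h1 h2 a1.neg (by omega) hk
  exact ⟨_, ⟨ha.congr (by simp), hb.congr (by simp), hc.congr (by simp)⟩, hk⟩

noncomputable def nT3 (T U V : AA) (n : N4) (k : AA → Bool) : Bool :=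
  N4.rec (fun a b c d =>
  AA.rec (fun tc _ _ t3 te tm tr => AA.rec (fun uc _ _ u3 ue um ur => AA.rec (fun vc _ _ v3 ve vm vr =>
  AA.rec (fun ac a1 a2 _ ae _ _ => AA.rec (fun bc b1 b2 _ be bm br =>
  AA.rec (fun cc c1 c2 _ ce cm cr => AA.rec (fun dc d1 d2 _ de dm dr =>
    nrm3
      (Nat.add (Nat.add (Nat.add (Nat.mul 4294967296 ac) (Nat.mul tc bc)) (Nat.mul uc cc)) (Nat.mul vc dc))
      (Nat.add (Nat.add (Nat.add (Nat.mul 4294967296 a1) (Nat.mul tc b1)) (Nat.mul uc c1)) (Nat.mul vc d1))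
      (Nat.add (Nat.add (Nat.add (Nat.mul 4294967296 a2) (Nat.mul tc b2)) (Nat.mul uc c2)) (Nat.mul vc d2))
      (Nat.add (Nat.add (Nat.add 0 (Nat.mul t3 bc)) (Nat.mul u3 cc)) (Nat.mul v3 dc))
      (Nat.add (Nat.add (Nat.add (Nat.mul 4294967296 ae)
        (Nat.add (Nat.add (Nat.mul tm be) (Nat.mul bm te)) (Nat.mul tr br)))
        (Nat.add (Nat.add (Nat.mul um ce) (Nat.mul cm ue)) (Nat.mul ur cr)))
        (Nat.add (Nat.add (Nat.mul vm de) (Nat.mul dm ve)) (Nat.mul vr dr))) k)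
    d) c) b) a) V) U) T) n

theorem nT3_ok {t1 t2 t3 t : ℝ} {T U V : AA} {n : N4} {x : Q4} {k : AA → Bool} (h1 : |t1| ≤ 1)
    (h2 : |t2| ≤ 1) (h3 : |t3| ≤ 1) (hT : Has 0 0 t3 T t) (hU : Has 0 0 t3 U (t * t))
    (hV : Has 0 0 t3 V (t * t * t)) (hn : HN t1 t2 n x) (hk : nT3 T U V n k = true) :
    ∃ A, Has t1 t2 t3 A (nval x t) ∧ k A = true := by
  obtain ⟨a, b, c, d⟩ := n
  obtain ⟨ha, hb, hc, hd⟩ := hn
  cases T; cases U; cases V; cases a; cases b; cases c; cases d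
  exact nrm3_ok h1 h2 h3
    ((((up_ok ha).add (mulT_ok hT hb)).add (mulT_ok hU hc)).add (mulT_ok hV hd)) (by norm_num) hk

noncomputable def nT2 (T U : AA) (n : D3) (k : AA → Bool) : Bool :=
  D3.rec (fun a b c =>
  AA.rec (fun tc _ _ t3 te tm tr => AA.rec (fun uc _ _ u3 ue um ur =>
  AA.rec (fun ac a1 a2 _ ae _ _ => AA.rec (fun bc b1 b2 _ be bm br =>
  AA.rec (fun cc c1 c2 _ ce cm cr =>
    nrm3
      (Nat.add (Nat.add (Nat.mul 4294967296 ac) (Nat.mul tc bc)) (Nat.mul uc cc))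
      (Nat.add (Nat.add (Nat.mul 4294967296 a1) (Nat.mul tc b1)) (Nat.mul uc c1))
      (Nat.add (Nat.add (Nat.mul 4294967296 a2) (Nat.mul tc b2)) (Nat.mul uc c2))
      (Nat.add (Nat.add 0 (Nat.mul t3 bc)) (Nat.mul u3 cc))
      (Nat.add (Nat.add (Nat.mul 4294967296 ae)
        (Nat.add (Nat.add (Nat.mul tm be) (Nat.mul bm te)) (Nat.mul tr br)))
        (Nat.add (Nat.add (Nat.mul um ce) (Nat.mul cm ue)) (Nat.mul ur cr))) k)
    c) b) a) U) T) n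

theorem nT2_ok {t1 t2 t3 t : ℝ} {T U : AA} {n : D3} {x : Q3} {k : AA → Bool} (h1 : |t1| ≤ 1)
    (h2 : |t2| ≤ 1) (h3 : |t3| ≤ 1) (hT : Has 0 0 t3 T t) (hU : Has 0 0 t3 U (t * t))
    (hn : HD t1 t2 n x) (hk : nT2 T U n k = true) :
    ∃ A, Has t1 t2 t3 A (dval x t) ∧ k A = true := by
  obtain ⟨a, b, c⟩ := n
  obtain ⟨ha, hb, hc⟩ := hn
  cases T; cases U; cases a; cases b; cases c
  exact nrm3_ok h1 h2 h3 (((up_ok ha).add (mulT_ok hT hb)).add (mulT_ok hU hc)) (by norm_num) hk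

noncomputable def nB (A B C D : AA) (k : AA → Bool) : Bool :=
  AA.rec (fun ac a1 a2 a3 ae am ar => AA.rec (fun bc b1 b2 b3 be bm br =>
  AA.rec (fun cc c1 c2 c3 ce cm cr => AA.rec (fun dc d1 d2 d3 de dm dr =>
    nrm3
      (Nat.add (Nat.mul ac bc) (Nat.mul cc dc))
      (Nat.add (Nat.add (Nat.mul ac b1) (Nat.mul a1 bc)) (Nat.add (Nat.mul cc d1) (Nat.mul c1 dc)))
      (Nat.add (Nat.add (Nat.mul ac b2) (Nat.mul a2 bc)) (Nat.add (Nat.mul cc d2) (Nat.mul c2 dc)))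
      (Nat.add (Nat.add (Nat.mul ac b3) (Nat.mul a3 bc)) (Nat.add (Nat.mul cc d3) (Nat.mul c3 dc)))
      (Nat.add (Nat.add (Nat.add (Nat.mul am be) (Nat.mul bm ae)) (Nat.mul ar br))
        (Nat.add (Nat.add (Nat.mul cm de) (Nat.mul dm ce)) (Nat.mul cr dr))) k)
    D) C) B) A

theorem nB_ok {t1 t2 t3 a b c d : ℝ} {A B C D : AA} {k : AA → Bool} (h1 : |t1| ≤ 1)
    (h2 : |t2| ≤ 1) (h3 : |t3| ≤ 1) (hA : Has t1 t2 t3 A a) (hB : Has t1 t2 t3 B b)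
    (hC : Has t1 t2 t3 C c) (hD : Has t1 t2 t3 D d) (hk : nB A B C D k = true) :
    ∃ E, Has t1 t2 t3 E (a * b + c * d) ∧ k E = true := by
  cases A; cases B; cases C; cases D
  exact nrm3_ok h1 h2 h3 ((mul3_ok hA hB).add (mul3_ok hC hD)) (by norm_num) hk

noncomputable def ngA (A : AA) : AA :=
  AA.rec (fun c l1 l2 l3 e m r => ⟨Nat.mul 340282366920938463463374607431768211455 c,
    Nat.mul 340282366920938463463374607431768211455 l1,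
    Nat.mul 340282366920938463463374607431768211455 l2,
    Nat.mul 340282366920938463463374607431768211455 l3, e, m, r⟩) A

theorem Has.ng {t1 t2 t3 x : ℝ} {A : AA} (hA : Has t1 t2 t3 A x) : Has t1 t2 t3 (ngA A) (-x) := by
  cases A
  obtain ⟨c, l1, l2, l3, r0, r1, r2, r3, m0, b0, b1, b2, b3, hr, he⟩ := hA
  refine ⟨-c, -l1, -l2, -l3, (Rp.m1.mul r0).cast (by ring), (Rp.m1.mul r1).cast (by ring),
    (Rp.m1.mul r2).cast (by ring), (Rp.m1.mul r3).cast (by ring), by rw [abs_neg]; exact m0,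
    by rwa [abs_neg], by rwa [abs_neg], by rwa [abs_neg], by rwa [abs_neg], ?_, ?_⟩
  · rw [← abs_neg]; refine le_of_eq_of_le ?_ hr; congr 1; push_cast; ring
  · rw [← abs_neg]; refine le_of_eq_of_le ?_ he; congr 1; push_cast; ring

structure R3 where
  c : Nat
  l1 : Nat
  l2 : Nat
  l3 : Nat
  e : Nat

def H3 (t1 t2 t3 : ℝ) (w : ℕ) (X : R3) (x : ℝ) : Prop := HR t1 t2 t3 w X.c X.l1 X.l2 X.l3 X.e x

noncomputable def gR (v : Nat) (A B C D : AA) : R3 :=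
  AA.rec (fun ac a1 a2 a3 ae am ar => AA.rec (fun bc b1 b2 b3 be bm br =>
  AA.rec (fun cc c1 c2 c3 ce cm cr => AA.rec (fun dc d1 d2 d3 de dm dr =>
    ⟨Nat.mul (Nat.add 340282366920938463463374607431768209408 v)
      (Nat.add (Nat.mul ac bc) (Nat.mul cc dc)),
     Nat.mul (Nat.add 340282366920938463463374607431768209408 v)
      (Nat.add (Nat.add (Nat.mul ac b1) (Nat.mul a1 bc)) (Nat.add (Nat.mul cc d1) (Nat.mul c1 dc))),
     Nat.mul (Nat.add 340282366920938463463374607431768209408 v)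
      (Nat.add (Nat.add (Nat.mul ac b2) (Nat.mul a2 bc)) (Nat.add (Nat.mul cc d2) (Nat.mul c2 dc))),
     Nat.mul (Nat.add 340282366920938463463374607431768209408 v)
      (Nat.add (Nat.add (Nat.mul ac b3) (Nat.mul a3 bc)) (Nat.add (Nat.mul cc d3) (Nat.mul c3 dc))),
     Nat.mul (Nat.add (Nat.sub v 2048) (Nat.sub 2048 v))
      (Nat.add (Nat.add (Nat.add (Nat.mul am be) (Nat.mul bm ae)) (Nat.mul ar br))
        (Nat.add (Nat.add (Nat.mul cm de) (Nat.mul dm ce)) (Nat.mul cr dr)))⟩)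
    D) C) B) A

theorem gR_ok {t1 t2 t3 a b c d : ℝ} {A B C D : AA} {v : ℕ} (hv : v < 4096)
    (hA : Has t1 t2 t3 A a) (hB : Has t1 t2 t3 B b) (hC : Has t1 t2 t3 C c) (hD : Has t1 t2 t3 D d) :
    H3 t1 t2 t3 (2048 * (1 + 1)) (gR v A B C D) ((((v : ℤ) - 2048 : ℤ) : ℝ) * (a * b + c * d)) := by
  have hK : Rp (Nat.add 340282366920938463463374607431768209408 v) ((v : ℤ) - 2048) := by
    unfold Rp Int.ModEq; rw [Nat.add_eq]; omega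
  have hn : |(v : ℤ) - 2048| ≤ ((Nat.add (Nat.sub v 2048) (Nat.sub 2048 v) : ℕ) : ℤ) := by
    rw [Nat.add_eq, Nat.sub_eq, Nat.sub_eq]
    rcases abs_cases ((v : ℤ) - 2048) with h | h <;> omega
  have hn' : |(v : ℤ) - 2048| ≤ ((2048 : ℕ) : ℤ) := by
    rcases abs_cases ((v : ℤ) - 2048) with h | h <;> omega
  cases A; cases B; cases C; cases D
  exact HR.smul hK hn hn' ((mul3_ok hA hB).add (mul3_ok hC hD))

noncomputable def absO (Y : Nat) : Nat :=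
  Nat.add (Nat.sub Y 170141183460469231731687303715884105728)
    (Nat.sub 170141183460469231731687303715884105728 Y)

noncomputable def decO (X : Nat) : Nat :=
  Nat.land (Nat.add X 170141183460469231731687303715884105728)
    340282366920938463463374607431768211455

noncomputable def posx (c l1 l2 l3 e : Nat) : Bool :=
  Nat.ble (Nat.add (Nat.add (Nat.add 170141183460469231731687303715884105729 e) (absO (decO l1)))
    (Nat.add (absO (decO l2)) (absO (decO l3)))) (decO c)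

theorem absO_ok {Y : ℕ} {x : ℤ} (h : (Y : ℤ) = x + 170141183460469231731687303715884105728) :
    (absO Y : ℤ) = |x| := by
  unfold absO
  rw [Nat.add_eq, Nat.sub_eq, Nat.sub_eq]
  rcases abs_cases x with h' | h' <;> omega

theorem posx_aux {a b c d e : ℕ} (h : Nat.ble (Nat.add (Nat.add
    (Nat.add 170141183460469231731687303715884105729 e) a) (Nat.add b c)) d = true) :
    170141183460469231731687303715884105729 + e + a + b + c ≤ d := by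
  have := Nat.le_of_ble_eq_true h
  simp only [Nat.add_eq] at this
  omega

theorem posx_ok {t1 t2 t3 x : ℝ} {w C L1 L2 L3 e : ℕ} (h1 : |t1| ≤ 1) (h2 : |t2| ≤ 1)
    (h3 : |t3| ≤ 1) (hA : HR t1 t2 t3 w C L1 L2 L3 e x) (hw : w ≤ 536870912)
    (hk : posx C L1 L2 L3 e = true) : 0 < x := by
  obtain ⟨c, l1, l2, l3, r0, r1, r2, r3, b0, b1, b2, b3, he⟩ := hA
  unfold posx at hk
  have h := posx_aux hk
  have d0 : ((decO C : ℕ) : ℤ) = _ := dec0 r0 hw b0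
  have d1 := absO_ok (Y := decO L1) (dec0 r1 hw b1)
  have d2 := absO_ok (Y := decO L2) (dec0 r2 hw b2)
  have d3 := absO_ok (Y := decO L3) (dec0 r3 hw b3)
  have hr : |l1| + |l2| + |l3| + e + 1 ≤ c := by omega
  have hr' : |(l1 : ℝ)| + |(l2 : ℝ)| + |(l3 : ℝ)| + e + 1 ≤ c := by exact_mod_cast hr
  have k1 := abs_le.1 (tb (le_refl |(l1 : ℝ)|) h1)
  have k2 := abs_le.1 (tb (le_refl |(l2 : ℝ)|) h2)
  have k3 := abs_le.1 (tb (le_refl |(l3 : ℝ)|) h3)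
  have he' := abs_le.1 he
  linarith [k1.1, k2.1, k3.1, he'.1]

noncomputable def pos3 (X Y Z : R3) : Bool :=
  R3.rec (fun c l1 l2 l3 e => R3.rec (fun c' l1' l2' l3' e' => R3.rec (fun c'' l1'' l2'' l3'' e'' =>
    posx (Nat.add (Nat.add c c') c'') (Nat.add (Nat.add l1 l1') l1'') (Nat.add (Nat.add l2 l2') l2'')
      (Nat.add (Nat.add l3 l3') l3'') (Nat.add (Nat.add e e') e'')) Z) Y) X

theorem pos3_ok {t1 t2 t3 x y z : ℝ} {w : ℕ} {X Y Z : R3} (h1 : |t1| ≤ 1) (h2 : |t2| ≤ 1)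
    (h3 : |t3| ≤ 1) (hX : H3 t1 t2 t3 w X x) (hY : H3 t1 t2 t3 w Y y) (hZ : H3 t1 t2 t3 w Z z)
    (hw : w ≤ 10000) (hk : pos3 X Y Z = true) : 0 < x + y + z := by
  cases X; cases Y; cases Z
  exact posx_ok h1 h2 h3 ((HR.add hX hY).add hZ) (by omega) hk

theorem iv_ok {lo hi c r : ℕ} {X : ℝ} (h0 : (lo : ℝ) ≤ X) (h1 : X ≤ hi)
    (hc : c = (lo + hi) / 2) (hr : r = hi - c) : ∃ τ : ℝ, |τ| ≤ 1 ∧ X = c + r * τ := by
  have hl : lo ≤ hi := by exact_mod_cast h0.trans h1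
  have e1 : hi = c + r := by omega
  have e2 : c ≤ lo + r := by omega
  have e1' : (hi : ℝ) = c + r := by exact_mod_cast e1
  have e2' : (c : ℝ) ≤ lo + r := by exact_mod_cast e2
  rcases Nat.eq_zero_or_pos r with h | h
  · refine ⟨0, by simp, ?_⟩
    have : (r : ℝ) = 0 := by exact_mod_cast h
    linarith
  · have hp : (0 : ℝ) < r := by exact_mod_cast h
    refine ⟨(X - c) / r, ?_, by field_simp; ring⟩
    rw [abs_div, abs_of_pos hp, div_le_one hp, abs_le]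
    constructor <;> linarith

noncomputable def leafx (cl : CL) (T U V : AA) (v0 v1 v2 : Nat) : Bool :=
  CL.rec (fun n0 n1 n2 n3 n4 n5 n6 d0 d1 d2 d3 d4 d5 d6 =>
  nT3 T U V n0 fun N0 => nT2 T U d0 fun D0 =>
  nT3 T U V n1 fun N1 => nT2 T U d1 fun D1 => nB D0 N1 (ngA N0) D1 fun B1 =>
  nT3 T U V n2 fun N2 => nT2 T U d2 fun D2 => nB D0 N2 (ngA N0) D2 fun B2 =>
  nT3 T U V n3 fun N3 => nT2 T U d3 fun D3 => nB D0 N3 (ngA N0) D3 fun B3 =>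
  nT3 T U V n4 fun N4 => nT2 T U d4 fun D4 => nB D0 N4 (ngA N0) D4 fun B4 =>
  nT3 T U V n5 fun N5 => nT2 T U d5 fun D5 => nB D0 N5 (ngA N0) D5 fun B5 =>
  nT3 T U V n6 fun N6 => nT2 T U d6 fun D6 => nB D0 N6 (ngA N0) D6 fun B6 =>
  pos3 (gR v0 B3 B5 B4 B6) (gR v1 B1 B3 (ngA B2) B6) (gR v2 B1 B4 B2 B5)) cl

theorem leafx_ok {t1 t2 t3 t : ℝ} {cl : CL} {C : CR} {T U V : AA} {v0 v1 v2 : ℕ} (h1 : |t1| ≤ 1)
    (h2 : |t2| ≤ 1) (h3 : |t3| ≤ 1) (hT : Has 0 0 t3 T t) (hU : Has 0 0 t3 U (t * t))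
    (hV : Has 0 0 t3 V (t * t * t)) (hC : HC t1 t2 cl C) (hv0 : v0 < 4096) (hv1 : v1 < 4096)
    (hv2 : v2 < 4096) (hk : leafx cl T U V v0 v1 v2 = true) : ¬ GZ C t := by
  obtain ⟨n0, n1, n2, n3, n4, n5, n6, d0, d1, d2, d3, d4, d5, d6⟩ := cl
  obtain ⟨⟨a0, a1, a2, a3, a4, a5, a6⟩, b0, b1, b2, b3, b4, b5, b6⟩ := hC
  unfold leafx at hk
  obtain ⟨N0, hN0, hk⟩ := nT3_ok h1 h2 h3 hT hU hV a0 hk
  obtain ⟨D0, hD0, hk⟩ := nT2_ok h1 h2 h3 hT hU b0 hk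
  obtain ⟨N1, hN1, hk⟩ := nT3_ok h1 h2 h3 hT hU hV a1 hk
  obtain ⟨D1, hD1, hk⟩ := nT2_ok h1 h2 h3 hT hU b1 hk
  obtain ⟨B1, hB1, hk⟩ := nB_ok h1 h2 h3 hD0 hN1 hN0.ng hD1 hk
  obtain ⟨N2, hN2, hk⟩ := nT3_ok h1 h2 h3 hT hU hV a2 hk
  obtain ⟨D2, hD2, hk⟩ := nT2_ok h1 h2 h3 hT hU b2 hk
  obtain ⟨B2, hB2, hk⟩ := nB_ok h1 h2 h3 hD0 hN2 hN0.ng hD2 hk
  obtain ⟨N3, hN3, hk⟩ := nT3_ok h1 h2 h3 hT hU hV a3 hk
  obtain ⟨D3, hD3, hk⟩ := nT2_ok h1 h2 h3 hT hU b3 hk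
  obtain ⟨B3, hB3, hk⟩ := nB_ok h1 h2 h3 hD0 hN3 hN0.ng hD3 hk
  obtain ⟨N4, hN4, hk⟩ := nT3_ok h1 h2 h3 hT hU hV a4 hk
  obtain ⟨D4, hD4, hk⟩ := nT2_ok h1 h2 h3 hT hU b4 hk
  obtain ⟨B4, hB4, hk⟩ := nB_ok h1 h2 h3 hD0 hN4 hN0.ng hD4 hk
  obtain ⟨N5, hN5, hk⟩ := nT3_ok h1 h2 h3 hT hU hV a5 hk
  obtain ⟨D5, hD5, hk⟩ := nT2_ok h1 h2 h3 hT hU b5 hk
  obtain ⟨B5, hB5, hk⟩ := nB_ok h1 h2 h3 hD0 hN5 hN0.ng hD5 hk
  obtain ⟨N6, hN6, hk⟩ := nT3_ok h1 h2 h3 hT hU hV a6 hk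
  obtain ⟨D6, hD6, hk⟩ := nT2_ok h1 h2 h3 hT hU b6 hk
  obtain ⟨B6, hB6, hk⟩ := nB_ok h1 h2 h3 hD0 hN6 hN0.ng hD6 hk
  have := pos3_ok h1 h2 h3 (gR_ok hv0 hB3 hB5 hB4 hB6) (gR_ok hv1 hB1 hB3 hB2.ng hB6)
    (gR_ok hv2 hB1 hB4 hB2 hB5) (by norm_num) hk
  rintro ⟨g0, g1, g2⟩
  unfold bval at g0 g1 g2
  rw [g0, g1, g2] at this
  simp at this

noncomputable def nM (A B : AA) (k : AA → Bool) : Bool :=
  AA.rec (fun ac a1 a2 a3 ae am ar => AA.rec (fun bc b1 b2 b3 be bm br =>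
    nrm3 (Nat.mul ac bc) (Nat.add (Nat.mul ac b1) (Nat.mul a1 bc))
      (Nat.add (Nat.mul ac b2) (Nat.mul a2 bc)) (Nat.add (Nat.mul ac b3) (Nat.mul a3 bc))
      (Nat.add (Nat.add (Nat.mul am be) (Nat.mul bm ae)) (Nat.mul ar br)) k) B) A

theorem nM_ok {t1 t2 t3 a b : ℝ} {A B : AA} {k : AA → Bool} (h1 : |t1| ≤ 1)
    (h2 : |t2| ≤ 1) (h3 : |t3| ≤ 1) (hA : Has t1 t2 t3 A a) (hB : Has t1 t2 t3 B b)
    (hk : nM A B k = true) : ∃ E, Has t1 t2 t3 E (a * b) ∧ k E = true := by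
  cases A; cases B
  exact nrm3_ok h1 h2 h3 (mul3_ok hA hB) (by norm_num) hk

noncomputable def leaf (cl : CL) (lo hi v0 v1 v2 : Nat) : Bool :=
  fP (Nat.add 1 (Nat.div (Nat.add lo hi) 2)) fun c =>
  fP (Nat.add 1 (Nat.sub hi c)) fun r =>
  fP (Nat.add 340282366920938463463374607427473244161 c) fun tc =>
  fP (Nat.add 1 (Nat.add (Nat.sub c 4294967296) (Nat.sub 4294967296 c))) fun m =>
  fP (Nat.add 2 (Nat.div (Nat.mul r r) 2)) fun H =>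
  Bool.rec false
    (nrm3 (Nat.add (Nat.mul tc tc) H) 0 0 (Nat.mul 2 (Nat.mul tc r)) H fun U =>
      nM U ⟨tc, 0, 0, r, 0, m, r⟩ fun V => leafx cl ⟨tc, 0, 0, r, 0, m, r⟩ U V v0 v1 v2)
    (Nat.ble hi 17179869184)

theorem ndiv (a b : ℕ) : Nat.div a b = a / b := rfl

theorem leaf_aux {lo hi c r tc m H : ℕ} (ec : Nat.add 1 (Nat.div (Nat.add lo hi) 2) = c + 1)
    (er : Nat.add 1 (Nat.sub hi c) = r + 1)
    (et : Nat.add 340282366920938463463374607427473244161 c = tc + 1)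
    (em : Nat.add 1 (Nat.add (Nat.sub c 4294967296) (Nat.sub 4294967296 c)) = m + 1)
    (eH : Nat.add 2 (Nat.div (Nat.mul r r) 2) = H + 1) :
    c = (lo + hi) / 2 ∧ r = hi - c ∧ Rp tc ((c : ℤ) - 4294967296) ∧
      |(c : ℤ) - 4294967296| ≤ m ∧ H = r * r / 2 + 1 := by
  simp only [Nat.add_eq, Nat.sub_eq, Nat.mul_eq, ndiv] at ec er et em eH
  refine ⟨by omega, by omega, ?_, ?_, by omega⟩
  · unfold Rp Int.ModEq; omega
  · rcases abs_cases ((c : ℤ) - 4294967296) with h | h <;> omega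

theorem leaf_ok {t1 t2 t : ℝ} {cl : CL} {C : CR} {lo hi v0 v1 v2 : ℕ} (h1 : |t1| ≤ 1)
    (h2 : |t2| ≤ 1) (hC : HC t1 t2 cl C) (hv0 : v0 < 4096) (hv1 : v1 < 4096) (hv2 : v2 < 4096)
    (hlo : (lo : ℝ) ≤ (t + 1) * 4294967296) (hhi : (t + 1) * 4294967296 ≤ hi)
    (hk : leaf cl lo hi v0 v1 v2 = true) : ¬ GZ C t := by
  unfold leaf at hk
  obtain ⟨c, ec, hk⟩ := pred_ok hk
  obtain ⟨r, er, hk⟩ := pred_ok hk
  obtain ⟨tc, et, hk⟩ := pred_ok hk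
  obtain ⟨m, em, hk⟩ := pred_ok hk
  obtain ⟨H, eH, hk⟩ := pred_ok hk
  obtain ⟨hb, hk⟩ := and_ok hk
  have hb' : hi ≤ 17179869184 := Nat.le_of_ble_eq_true hb
  obtain ⟨hc, hr, htc, hm, hH⟩ := leaf_aux ec er et em eH
  clear ec er et em eH
  have hl : lo ≤ hi := by exact_mod_cast hlo.trans hhi
  obtain ⟨τ, hτ, hX⟩ := iv_ok hlo hhi hc hr
  have bc : |(c : ℤ) - 4294967296| ≤ 17179869184 := by
    rcases abs_cases ((c : ℤ) - 4294967296) with h | h <;> omega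
  have br : |(r : ℤ)| ≤ 17179869184 := by rw [abs_of_nonneg (by positivity)]; omega
  have hts : t * 4294967296 = ((c : ℝ) - 4294967296) + r * τ := by linarith
  have hT : Has 0 0 τ ⟨tc, 0, 0, r, 0, m, r⟩ t := by
    refine ⟨(c : ℤ) - 4294967296, 0, 0, r, htc, Rp.zero, Rp.zero, Rp.nat r, hm, by omega,
      by norm_num, by norm_num, by omega, ?_, ?_⟩
    · push_cast
      rw [hts, add_sub_cancel_left]
      exact tb (by simp) hτ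
    · push_cast
      rw [hts]; simp
  have hsq : HR 0 0 τ 1 (Nat.add (Nat.mul tc tc) H) 0 0 (Nat.mul 2 (Nat.mul tc r)) H (t * t) := by
    have i1 : |((c : ℤ) - 4294967296) * ((c : ℤ) - 4294967296)| ≤ 17179869184 * 17179869184 := by
      rw [abs_mul]; exact mul_le_mul bc bc (abs_nonneg _) (by norm_num)
    have i2 : |((c : ℤ) - 4294967296) * (r : ℤ)| ≤ 17179869184 * 17179869184 := by
      rw [abs_mul]; exact mul_le_mul bc br (abs_nonneg _) (by norm_num)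
    have i3 : r * r ≤ 17179869184 * 17179869184 := Nat.mul_le_mul (by omega) (by omega)
    have i4 : (r : ℝ) * r ≤ 2 * H := by
      have : r * r ≤ 2 * H := by omega
      exact_mod_cast this
    refine ⟨((c : ℤ) - 4294967296) * ((c : ℤ) - 4294967296) + H, 0, 0,
      2 * (((c : ℤ) - 4294967296) * r), (htc.mul htc).add (Rp.nat H), Rp.zero, Rp.zero,
      (Rp.nat 2).mul (htc.mul (Rp.nat r)), ?_, by norm_num, by norm_num, ?_, ?_⟩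
    · have := abs_le.1 i1
      rw [abs_le]; constructor <;> omega
    · have := abs_le.1 i2
      rw [abs_le]; constructor <;> omega
    · push_cast
      have e : t * t * 18446744073709551616 - (((c : ℝ) - 4294967296) * (c - 4294967296) + H
          + 0 * 0 + 0 * 0 + 2 * ((c - 4294967296) * r) * τ) = r * r * (τ * τ) - H := by
        rw [show t * t * 18446744073709551616 = (t * 4294967296) * (t * 4294967296) by ring, hts]
        ring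
      rw [e]
      have j1 : τ * τ ≤ 1 := by nlinarith [abs_le.1 hτ]
      have j2 : (0 : ℝ) ≤ r * r * (τ * τ) := mul_nonneg (mul_self_nonneg _) (mul_self_nonneg _)
      have j3 : (r : ℝ) * r * (τ * τ) ≤ r * r := mul_le_of_le_one_right (mul_self_nonneg _) j1
      rw [abs_le]; constructor <;> linarith
  have z1 : |(0 : ℝ)| ≤ 1 := by simp
  obtain ⟨U, hU, hk⟩ := nrm3_ok z1 z1 hτ hsq (by norm_num) hk
  obtain ⟨V, hV, hk⟩ := nM_ok z1 z1 hτ hU hT hk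
  exact leafx_ok h1 h2 hτ hT hU hV hC hv0 hv1 hv2 hk

noncomputable def inner (cl : CL) (hi n : Nat) : Nat → Nat → Bool :=
  Nat.rec (motive := fun _ => Nat → Nat → Bool) (fun _ _ => false)
    (fun _ ih lo code =>
      fP (Nat.add 1 (Nat.add lo (Nat.shiftRight 8589934592 (Nat.mod code 32)))) fun nh =>
      Bool.rec false
        (Bool.rec (fP (Nat.add 1 (Nat.shiftRight code 41)) fun c => ih nh c) true (Nat.ble hi nh))
        (leaf cl lo nh (Nat.mod (Nat.shiftRight code 5) 4096) (Nat.mod (Nat.shiftRight code 17) 4096)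
          (Nat.mod (Nat.shiftRight code 29) 4096))) n

theorem inner_succ (cl : CL) (hi n lo code : Nat) : inner cl hi (n + 1) lo code =
      fP (Nat.add 1 (Nat.add lo (Nat.shiftRight 8589934592 (Nat.mod code 32)))) fun nh =>
      Bool.rec false
        (Bool.rec (fP (Nat.add 1 (Nat.shiftRight code 41)) fun c => inner cl hi n nh c) true
          (Nat.ble hi nh))
        (leaf cl lo nh (Nat.mod (Nat.shiftRight code 5) 4096) (Nat.mod (Nat.shiftRight code 17) 4096)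
          (Nat.mod (Nat.shiftRight code 29) 4096)) := rfl

theorem mod_lt' (a : ℕ) : Nat.mod a 4096 < 4096 := Nat.mod_lt a (by norm_num)

theorem or_ok {a b : Bool} (h : Bool.rec (motive := fun _ => Bool) a true b = true) :
    b = true ∨ a = true := by
  cases b
  · exact Or.inr h
  · exact Or.inl rfl

theorem inner_ok {t1 t2 t : ℝ} {cl : CL} {C : CR} {hi : ℕ} (h1 : |t1| ≤ 1) (h2 : |t2| ≤ 1)
    (hC : HC t1 t2 cl C) (hhi : (t + 1) * 4294967296 ≤ hi) (n : ℕ) :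
    ∀ lo code : ℕ, (lo : ℝ) ≤ (t + 1) * 4294967296 → inner cl hi n lo code = true → ¬ GZ C t := by
  induction n with
  | zero => intro lo code _ h; simp [inner] at h
  | succ n ih =>
    intro lo code hlo h
    rw [inner_succ] at h
    obtain ⟨nh, -, h⟩ := pred_ok h
    obtain ⟨hl, h⟩ := and_ok h
    rcases le_total ((t + 1) * 4294967296) (nh : ℝ) with h' | h'
    · exact leaf_ok h1 h2 hC (mod_lt' _) (mod_lt' _) (mod_lt' _) hlo h' hl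
    · rcases or_ok h with h | h
      · have : hi ≤ nh := Nat.le_of_ble_eq_true h
        have : (hi : ℝ) ≤ nh := by exact_mod_cast this
        exact leaf_ok h1 h2 hC (mod_lt' _) (mod_lt' _) (mod_lt' _) hlo (hhi.trans this) hl
      · obtain ⟨c, -, h⟩ := pred_ok h
        exact ih nh c h' h

inductive Tr where
  | c (n code : Nat) : Tr
  | x (l r : Tr) : Tr
  | y (l r : Tr) : Tr
  | t (l r : Tr) : Tr

noncomputable def outer (f : Nat → Nat → Nat → Nat → Nat → Nat → Nat → Nat → Bool) (T : Tr) :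
    Nat → Nat → Nat → Nat → Nat → Nat → Bool :=
  Tr.rec (motive := fun _ => Nat → Nat → Nat → Nat → Nat → Nat → Bool)
    (fun n code x0 x1 y0 y1 t0 t1 => f x0 x1 y0 y1 t0 t1 n code)
    (fun _ _ l r x0 x1 y0 y1 t0 t1 => fP (Nat.add 1 (Nat.div (Nat.add x0 x1) 2)) fun m =>
      Bool.rec false (r m x1 y0 y1 t0 t1) (l x0 m y0 y1 t0 t1))
    (fun _ _ l r x0 x1 y0 y1 t0 t1 => fP (Nat.add 1 (Nat.div (Nat.add y0 y1) 2)) fun m =>
      Bool.rec false (r x0 x1 m y1 t0 t1) (l x0 x1 y0 m t0 t1))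
    (fun _ _ l r x0 x1 y0 y1 t0 t1 => fP (Nat.add 1 (Nat.div (Nat.add t0 t1) 2)) fun m =>
      Bool.rec false (r x0 x1 y0 y1 m t1) (l x0 x1 y0 y1 t0 m)) T

def Box (Φ : ℝ → ℝ → ℝ → Prop) (x0 x1 y0 y1 t0 t1 : ℕ) : Prop :=
  ∀ X Y T : ℝ, (x0 : ℝ) ≤ X → X ≤ x1 → (y0 : ℝ) ≤ Y → Y ≤ y1 → (t0 : ℝ) ≤ T → T ≤ t1 → Φ X Y T

theorem Box.x {Φ : ℝ → ℝ → ℝ → Prop} {x0 m x1 y0 y1 t0 t1 : ℕ} (a : Box Φ x0 m y0 y1 t0 t1)
    (b : Box Φ m x1 y0 y1 t0 t1) : Box Φ x0 x1 y0 y1 t0 t1 := fun X Y T h1 h2 h3 h4 h5 h6 =>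
  (le_total X m).elim (fun h => a X Y T h1 h h3 h4 h5 h6) (fun h => b X Y T h h2 h3 h4 h5 h6)

theorem Box.y {Φ : ℝ → ℝ → ℝ → Prop} {x0 m x1 y0 y1 t0 t1 : ℕ} (a : Box Φ x0 x1 y0 m t0 t1)
    (b : Box Φ x0 x1 m y1 t0 t1) : Box Φ x0 x1 y0 y1 t0 t1 := fun X Y T h1 h2 h3 h4 h5 h6 =>
  (le_total Y m).elim (fun h => a X Y T h1 h2 h3 h h5 h6) (fun h => b X Y T h1 h2 h h4 h5 h6)

theorem Box.t {Φ : ℝ → ℝ → ℝ → Prop} {x0 m x1 y0 y1 t0 t1 : ℕ} (a : Box Φ x0 x1 y0 y1 t0 m)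
    (b : Box Φ x0 x1 y0 y1 m t1) : Box Φ x0 x1 y0 y1 t0 t1 := fun X Y T h1 h2 h3 h4 h5 h6 =>
  (le_total T m).elim (fun h => a X Y T h1 h2 h3 h4 h5 h) (fun h => b X Y T h1 h2 h3 h4 h h6)

theorem outer_ok {f : Nat → Nat → Nat → Nat → Nat → Nat → Nat → Nat → Bool}
    {Φ : ℝ → ℝ → ℝ → Prop}
    (hf : ∀ x0 x1 y0 y1 t0 t1 n code, f x0 x1 y0 y1 t0 t1 n code = true → Box Φ x0 x1 y0 y1 t0 t1)
    (T : Tr) : ∀ x0 x1 y0 y1 t0 t1, outer f T x0 x1 y0 y1 t0 t1 = true → Box Φ x0 x1 y0 y1 t0 t1 := by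
  induction T with
  | c n code => intro x0 x1 y0 y1 t0 t1 h; exact hf _ _ _ _ _ _ n code h
  | x l r a b =>
    intro x0 x1 y0 y1 t0 t1 h
    have h' : fP (Nat.add 1 (Nat.div (Nat.add x0 x1) 2)) (fun m => Bool.rec false
      (outer f r m x1 y0 y1 t0 t1) (outer f l x0 m y0 y1 t0 t1)) = true := h
    obtain ⟨m, -, h⟩ := pred_ok h'
    obtain ⟨h1, h2⟩ := and_ok h
    exact (a _ _ _ _ _ _ h1).x (b _ _ _ _ _ _ h2)
  | y l r a b =>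
    intro x0 x1 y0 y1 t0 t1 h
    have h' : fP (Nat.add 1 (Nat.div (Nat.add y0 y1) 2)) (fun m => Bool.rec false
      (outer f r x0 x1 m y1 t0 t1) (outer f l x0 x1 y0 m t0 t1)) = true := h
    obtain ⟨m, -, h⟩ := pred_ok h'
    obtain ⟨h1, h2⟩ := and_ok h
    exact (a _ _ _ _ _ _ h1).y (b _ _ _ _ _ _ h2)
  | t l r a b =>
    intro x0 x1 y0 y1 t0 t1 h
    have h' : fP (Nat.add 1 (Nat.div (Nat.add t0 t1) 2)) (fun m => Bool.rec false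
      (outer f r x0 x1 y0 y1 m t1) (outer f l x0 x1 y0 y1 t0 m)) = true := h
    obtain ⟨m, -, h⟩ := pred_ok h'
    obtain ⟨h1, h2⟩ := and_ok h
    exact (a _ _ _ _ _ _ h1).t (b _ _ _ _ _ _ h2)

/-- the two cell variables as affine forms -/
noncomputable def ivs (x0 x1 y0 y1 : Nat) (k : AA → AA → Bool) : Bool :=
  fP (Nat.add 1 (Nat.div (Nat.add x0 x1) 2)) fun c => fP (Nat.add 1 (Nat.sub x1 c)) fun r =>
  fP (Nat.add 1 (Nat.div (Nat.add y0 y1) 2)) fun d => fP (Nat.add 1 (Nat.sub y1 d)) fun s =>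
  Bool.rec false (k ⟨c, r, 0, 0, 0, c, r⟩ ⟨d, 0, s, 0, 0, d, s⟩)
    (Nat.ble (Nat.add x1 y1) 17179869184)

theorem ivs_aux {lo hi c r : ℕ} (ec : Nat.add 1 (Nat.div (Nat.add lo hi) 2) = c + 1)
    (er : Nat.add 1 (Nat.sub hi c) = r + 1) : c = (lo + hi) / 2 ∧ r = hi - c := by
  simp only [Nat.add_eq, Nat.sub_eq, ndiv] at ec er
  exact ⟨by omega, by omega⟩

theorem ivs_ok {x0 x1 y0 y1 : ℕ} {k : AA → AA → Bool} {X Y : ℝ} (h : ivs x0 x1 y0 y1 k = true)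
    (a0 : (x0 : ℝ) ≤ X) (a1 : X ≤ x1) (b0 : (y0 : ℝ) ≤ Y) (b1 : Y ≤ y1) :
    ∃ (t1 t2 : ℝ) (A B : AA), |t1| ≤ 1 ∧ |t2| ≤ 1 ∧ Has t1 t2 0 A (X / 4294967296) ∧
      Has t1 t2 0 B (Y / 4294967296) ∧ k A B = true := by
  unfold ivs at h
  obtain ⟨c, ec, h⟩ := pred_ok h
  obtain ⟨r, er, h⟩ := pred_ok h
  obtain ⟨d, ed, h⟩ := pred_ok h
  obtain ⟨s, es, h⟩ := pred_ok h
  obtain ⟨hb, h⟩ := and_ok h
  have hb' : x1 + y1 ≤ 17179869184 := Nat.le_of_ble_eq_true hb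
  obtain ⟨hc, hr⟩ := ivs_aux ec er
  obtain ⟨hd, hs⟩ := ivs_aux ed es
  have l1 : x0 ≤ x1 := by exact_mod_cast a0.trans a1
  have l2 : y0 ≤ y1 := by exact_mod_cast b0.trans b1
  obtain ⟨t1, h1, e1⟩ := iv_ok a0 a1 hc hr
  obtain ⟨t2, h2, e2⟩ := iv_ok b0 b1 hd hs
  have ab : ∀ n : ℕ, n ≤ 17179869184 → |(n : ℤ)| ≤ 281474976710656 := fun n hn => by
    rw [abs_of_nonneg (by positivity)]; omega
  refine ⟨t1, t2, _, _, h1, h2, ⟨c, r, 0, 0, Rp.nat c, Rp.nat r, Rp.zero, Rp.zero, by simp,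
    ab c (by omega), ab r (by omega), by norm_num, by norm_num, ?_, ?_⟩,
    ⟨d, 0, s, 0, Rp.nat d, Rp.zero, Rp.nat s, Rp.zero, by simp,
    ab d (by omega), by norm_num, ab s (by omega), by norm_num, ?_, ?_⟩, h⟩
  · rw [div_mul_cancel₀ _ (by norm_num), e1]; push_cast
    rw [add_sub_cancel_left]; exact tb (by simp) h1
  · rw [div_mul_cancel₀ _ (by norm_num), e1]; simp
  · rw [div_mul_cancel₀ _ (by norm_num), e2]; push_cast
    rw [add_sub_cancel_left]; exact tb (by simp) h2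
  · rw [div_mul_cancel₀ _ (by norm_num), e2]; simp

end Pool.Agent.Lib.MP_5a3ebe_gt.Tab
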