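import Pool.Agent.Lib.MP_5a3ebe_gt.TabGeo
import Mathlib.Analysis.InnerProductSpace.PiL2
import Mathlib.Analysis.InnerProductSpace.Calculus

/-! From the checked facts to a function without level square. -/

namespace Pool.Agent.Lib.MP_5a3ebe_gt.Tab

theorem four_sc {p : RB} {u l c ρ ξ η : ℝ} {S Z X Y S' Z' X' Y' : ℝ → ℝ → ℝ} (hl : l ≠ 0)
    (hS : ∀ x y, S x y = l * S' (ρ * x) (ρ * y)) (hZ : ∀ x y, Z x y = l * Z' (ρ * x) (ρ * y))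
    (hX : ∀ x y, X x y = l * X' (ρ * x) (ρ * y)) (hY : ∀ x y, Y x y = l * Y' (ρ * x) (ρ * y))
    (h : Four (fun x y => Nf p u (S x y) (Z x y) (X x y) (Y x y))
      (fun x y => Df p u (S x y) (Z x y) (X x y) (Y x y)) c ξ η) :
    Four (fun x y => Nf p u (S' x y) (Z' x y) (X' x y) (Y' x y))
      (fun x y => Df p u (S' x y) (Z' x y) (X' x y) (Y' x y)) c (ρ * ξ) (ρ * η) := by
  have := four_tr (t := 0) (j := 1) (m := 1) (J := 1) (X' := X') (Y' := Y') (by norm_num) hl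
    one_ne_zero (by norm_num) hS hZ (by simpa using hX) (by simpa using hY) h
  have e1 : ∀ S Z X Y, Nt p u 1 0 S Z X Y = Nf p u S Z X Y := by intros; unfold Nt Nf; ring
  have e2 : ∀ S Z X Y, Dt p u 1 0 S Z X Y = Df p u S Z X Y := by intros; unfold Dt Df; ring
  simpa only [e1, e2, mul_one, div_one] using this

def Wit (c : ℝ) : Prop :=
  ∃ (p : RB) (u s0 s1 z0 z1 k : ℝ),
    (∀ v0 v1 v2 : ℝ, v0 ^ 2 + v1 ^ 2 + v2 ^ 2 = 1 →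
      0 < Df p u (s0 + s1 * v2) (z0 + z1 * v2) (k * v0) (k * v1)) ∧
    ∀ a b ox oy ξ η cc : ℝ, 0 ≤ a → 0 ≤ b → a ^ 2 + b ^ 2 = 1 → ox ^ 2 + oy ^ 2 = 1 →
      ξ ^ 2 + η ^ 2 = 1 - c ^ 2 →
      ¬ Four
        (fun x y => Nf p u (s0 + s1 * (c * (a ^ 2 - b ^ 2) + -(2 * a * b * x)))
          (z0 + z1 * (c * (a ^ 2 - b ^ 2) + -(2 * a * b * x)))
          (k * (c * (2 * a * b * ox) + (ox * ((a ^ 2 - b ^ 2) * x) - oy * y)))
          (k * (c * (2 * a * b * oy) + (ox * y + oy * ((a ^ 2 - b ^ 2) * x)))))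
        (fun x y => Df p u (s0 + s1 * (c * (a ^ 2 - b ^ 2) + -(2 * a * b * x)))
          (z0 + z1 * (c * (a ^ 2 - b ^ 2) + -(2 * a * b * x)))
          (k * (c * (2 * a * b * ox) + (ox * ((a ^ 2 - b ^ 2) * x) - oy * y)))
          (k * (c * (2 * a * b * oy) + (ox * y + oy * ((a ^ 2 - b ^ 2) * x))))) cc ξ η

theorem witA {p : RB} {rr c : ℝ} (h1 : NoA p rr) (h2 : NoA p.rot rr)
    (hD : ∀ x : ℝ, 0 ≤ x → x ≤ 2 → DP p x 1) (hr : 0 < rr) (c0 : 0 < c) (c1 : c < 1)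
    (hc : (1 - c) / (1 + c) ≤ rr) : Wit c := by
  have hq : 0 < (1 - c) / (1 + c) / rr := by
    have : 0 < 1 - c := by linarith
    positivity
  have ek : √((1 - c) / (1 + c) / rr) ^ 2 = (1 - c) / (1 + c) / rr := Real.sq_sqrt hq.le
  have k0 : 0 < √((1 - c) / (1 + c) / rr) := Real.sqrt_pos.2 hq
  have k1 : √((1 - c) / (1 + c) / rr) ≤ 1 := Real.sqrt_le_one.2 ((div_le_one hr).2 hc)
  generalize √((1 - c) / (1 + c) / rr) = κ at ek k0 k1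
  have hR : (1 + c) * (κ ^ 2 * rr) = 1 - c := by rw [ek]; field_simp
  obtain ⟨ρ, hρ⟩ : ∃ ρ : ℝ, (1 + c) * ρ = 1 := ⟨(1 + c)⁻¹, mul_inv_cancel₀ (by linarith)⟩
  refine ⟨p, 1, 1 + κ ^ 2, κ ^ 2 - 1, κ ^ 2 - 1, 1 + κ ^ 2, 2 * κ, ?_, ?_⟩
  · intro v0 v1 v2 hv
    have hz : |v2| ≤ 1 := by
      rw [← sq_le_one_iff_abs_le_one]; nlinarith [sq_nonneg v0, sq_nonneg v1]
    refine Dpos hD ?_ (by linear_combination 4 * κ ^ 2 * hv)
    have := abs_le.1 hz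
    have hk : 0 < κ ^ 2 := by positivity
    have hk1 : κ ^ 2 ≤ 1 := by nlinarith
    nlinarith [this.1, this.2]
  · intro a b ox oy ξ η cc ha hb hab ho he h
    have he' : (ρ * ξ) ^ 2 + (ρ * η) ^ 2 = κ ^ 2 * rr := by
      have hs : (1 + c) ^ 2 ≠ 0 := by positivity
      apply mul_left_cancel₀ hs
      linear_combination he + (ξ ^ 2 + η ^ 2) * ((1 + c) * ρ + 1) * hρ - (1 + c) * hR
    refine phase (p := p) (u := 1) (c := cc) (ξ := ρ * ξ) (η := ρ * η) (ox := ox) (oy := oy)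
      (S := fun x _ => b ^ 2 + a ^ 2 * (κ ^ 2 * rr) + 2 * a * b * x
        + κ ^ 2 * (a ^ 2 + b ^ 2 * (κ ^ 2 * rr) - 2 * a * b * x))
      (Z := fun x _ => κ ^ 2 * (a ^ 2 + b ^ 2 * (κ ^ 2 * rr) - 2 * a * b * x)
        - (b ^ 2 + a ^ 2 * (κ ^ 2 * rr) + 2 * a * b * x))
      (V := fun x _ => 2 * κ * (a * b * (1 - κ ^ 2 * rr) + (a ^ 2 - b ^ 2) * x))
      (W := fun _ y => 2 * κ * (a ^ 2 + b ^ 2) * y) ho (fun _ _ => rfl) (fun _ _ => rfl) ?_ ?_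
    · rintro q hq t m X Y t0 t1 hm hX hY
      refine chartA (by rcases hq with rfl | rfl <;> assumption) hr k0 k1 ha hb hab he' t0 t1 hm
        (fun _ _ => rfl) (fun _ _ => rfl) hX hY
    · refine four_sc (l := 1 + c) (by linarith) ?_ ?_ ?_ ?_ h
      · intro x y
        linear_combination (-(a ^ 2 + κ ^ 2 * b ^ 2)) * hR - 2 * a * b * (1 - κ ^ 2) * x * hρ
          - (1 + κ ^ 2) * hab
      · intro x y
        linear_combination (a ^ 2 - κ ^ 2 * b ^ 2) * hR + 2 * a * b * (1 + κ ^ 2) * x * hρ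
          - (κ ^ 2 - 1) * hab
      · intro x y
        linear_combination 2 * κ * a * b * ox * hR
          - 2 * κ * (ox * (a ^ 2 - b ^ 2) * x - oy * (a ^ 2 + b ^ 2) * y) * hρ + 2 * κ * oy * y * hab
      · intro x y
        linear_combination 2 * κ * a * b * oy * hR
          - 2 * κ * (oy * (a ^ 2 - b ^ 2) * x + ox * (a ^ 2 + b ^ 2) * y) * hρ - 2 * κ * ox * y * hab

theorem witB {p : RB} {R c : ℝ} (h1 : NoB p R) (h2 : NoB p.rot R)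
    (hD : ∀ x : ℝ, 0 ≤ x → x ≤ 2 → DP p x (1 - R)) (c0 : 0 < c) (c1 : c < 1)
    (hc : R = (1 - c) / (1 + c)) : Wit c := by
  have hR : (1 + c) * R = 1 - c := by rw [hc]; field_simp
  have r0 : 0 < R := by
    have : 0 < 1 - c := by linarith
    rw [hc]; positivity
  have r1 : R < 1 := by rw [hc, div_lt_one (by linarith)]; linarith
  obtain ⟨ρ, hρ⟩ : ∃ ρ : ℝ, (1 + c) * ρ = 1 := ⟨(1 + c)⁻¹, mul_inv_cancel₀ (by linarith)⟩
  refine ⟨p, 1 - R, 1, 0, 0, 1, 1, ?_, ?_⟩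
  · intro v0 v1 v2 hv
    exact Dpos hD (by norm_num) (by linear_combination hv)
  · intro a b ox oy ξ η cc ha hb hab ho he h
    have he' : (ρ * ξ) ^ 2 + (ρ * η) ^ 2 = R := by
      have hs : (1 + c) ^ 2 ≠ 0 := by positivity
      apply mul_left_cancel₀ hs
      linear_combination he + (ξ ^ 2 + η ^ 2) * ((1 + c) * ρ + 1) * hρ - (1 + c) * hR
    refine phase (p := p) (u := 1 - R) (c := cc) (ξ := ρ * ξ) (η := ρ * η) (ox := ox) (oy := oy)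
      (S := fun _ _ => (a ^ 2 + b ^ 2) * (1 + R))
      (Z := fun x _ => (1 - R) * (a ^ 2 - b ^ 2) - 4 * a * b * x)
      (V := fun x _ => 2 * (a * b * (1 - R) + (a ^ 2 - b ^ 2) * x))
      (W := fun _ y => 2 * (a ^ 2 + b ^ 2) * y) ho (fun _ _ => rfl) (fun _ _ => rfl) ?_ ?_
    · rintro q hq t m X Y t0 t1 hm hX hY
      refine chartB (by rcases hq with rfl | rfl <;> assumption) r0 r1 ha hb hab he' t0 t1 hm
        (fun _ _ => rfl) (fun _ _ => rfl) hX hY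
    · refine four_sc (l := (1 + c) / 2) (by linarith) ?_ ?_ ?_ ?_ h
      · intro x y
        linear_combination (-(a ^ 2 + b ^ 2) / 2) * hR - hab
      · intro x y
        linear_combination (a ^ 2 - b ^ 2) / 2 * hR + 2 * a * b * x * hρ
      · intro x y
        linear_combination a * b * ox * hR
          - (ox * (a ^ 2 - b ^ 2) * x - oy * (a ^ 2 + b ^ 2) * y) * hρ + oy * y * hab
      · intro x y
        linear_combination a * b * oy * hR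
          - (oy * (a ^ 2 - b ^ 2) * x + ox * (a ^ 2 + b ^ 2) * y) * hρ - ox * y * hab

theorem coord {c m0 m1 m2 f0 f1 f2 g0 g1 g2 : ℝ} (c0 : 0 < c) (c1 : c < 1)
    (hm : m0 ^ 2 + m1 ^ 2 + m2 ^ 2 = c ^ 2) (hf : f0 ^ 2 + f1 ^ 2 + f2 ^ 2 = 1 - c ^ 2)
    (hg : g0 ^ 2 + g1 ^ 2 + g2 ^ 2 = 1 - c ^ 2) (mf : m0 * f0 + m1 * f1 + m2 * f2 = 0)
    (mg : m0 * g0 + m1 * g1 + m2 * g2 = 0) (fg : f0 * g0 + f1 * g1 + f2 * g2 = 0)
    {N D : ℝ → ℝ → ℝ → ℝ} {cc : ℝ}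
    (H : ∀ a b ox oy ξ η : ℝ, 0 ≤ a → 0 ≤ b → a ^ 2 + b ^ 2 = 1 → ox ^ 2 + oy ^ 2 = 1 →
      ξ ^ 2 + η ^ 2 = 1 - c ^ 2 →
      ¬ Four
        (fun x y => N (c * (2 * a * b * ox) + (ox * ((a ^ 2 - b ^ 2) * x) - oy * y))
          (c * (2 * a * b * oy) + (ox * y + oy * ((a ^ 2 - b ^ 2) * x)))
          (c * (a ^ 2 - b ^ 2) + -(2 * a * b * x)))
        (fun x y => D (c * (2 * a * b * ox) + (ox * ((a ^ 2 - b ^ 2) * x) - oy * y))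
          (c * (2 * a * b * oy) + (ox * y + oy * ((a ^ 2 - b ^ 2) * x)))
          (c * (a ^ 2 - b ^ 2) + -(2 * a * b * x))) cc ξ η)
    (h1 : N (m0 + f0) (m1 + f1) (m2 + f2) = cc * D (m0 + f0) (m1 + f1) (m2 + f2))
    (h2 : N (m0 + g0) (m1 + g1) (m2 + g2) = cc * D (m0 + g0) (m1 + g1) (m2 + g2))
    (h3 : N (m0 - f0) (m1 - f1) (m2 - f2) = cc * D (m0 - f0) (m1 - f1) (m2 - f2))
    (h4 : N (m0 - g0) (m1 - g1) (m2 - g2) = cc * D (m0 - g0) (m1 - g1) (m2 - g2)) : False := by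
  obtain ⟨a, b, ox, oy, ha, hb, hab, ho, rfl, rfl, rfl⟩ := frame c0 hm
  obtain ⟨x, y, rfl, rfl, rfl⟩ := tang (f0 := f0) (f1 := f1) (f2 := f2) hab ho (by
    apply mul_left_cancel₀ c0.ne'; linear_combination mf)
  obtain ⟨x', y', rfl, rfl, rfl⟩ := tang (f0 := g0) (f1 := g1) (f2 := g2) hab ho (by
    apply mul_left_cancel₀ c0.ne'; linear_combination mg)
  have e : (a ^ 2 - b ^ 2) ^ 2 + (2 * a * b) ^ 2 = 1 := by
    rw [show (a ^ 2 - b ^ 2) ^ 2 + (2 * a * b) ^ 2 = (a ^ 2 + b ^ 2) ^ 2 by ring, hab]; norm_num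
  have n1 : x ^ 2 + y ^ 2 = 1 - c ^ 2 := by
    linear_combination hf - ((a ^ 2 - b ^ 2) ^ 2 * x ^ 2 + y ^ 2) * ho - x ^ 2 * e
  have n2 : x' ^ 2 + y' ^ 2 = 1 - c ^ 2 := by
    linear_combination hg - ((a ^ 2 - b ^ 2) ^ 2 * x' ^ 2 + y' ^ 2) * ho - x' ^ 2 * e
  have n3 : x * x' + y * y' = 0 := by
    linear_combination fg - ((a ^ 2 - b ^ 2) ^ 2 * x * x' + y * y') * ho - x * x' * e
  have n0 : x ^ 2 + y ^ 2 ≠ 0 := by rw [n1]; nlinarith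
  refine H a b ox oy x y ha hb hab ho n1 ?_
  rcases rot90 n0 (n2.trans n1.symm) n3 with ⟨rfl, rfl⟩ | ⟨rfl, rfl⟩
  · refine ⟨h1, h2, ?_, ?_⟩
    · convert h3 using 2 <;> ring_nf
    · convert h4 using 2 <;> ring_nf
  · refine ⟨h1, ?_, ?_, h2⟩
    · convert h4 using 2 <;> ring_nf
    · convert h3 using 2 <;> ring_nf

theorem nsq (v : EuclideanSpace ℝ (Fin 3)) : ‖v‖ ^ 2 = v 0 ^ 2 + v 1 ^ 2 + v 2 ^ 2 := by
  rw [EuclideanSpace.norm_sq_eq, Fin.sum_univ_three]; simp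

theorem inn (v w : EuclideanSpace ℝ (Fin 3)) : Inner.inner ℝ v w = v 0 * w 0 + v 1 * w 1 + v 2 * w 2 := by
  rw [PiLp.inner_apply, Fin.sum_univ_three]; simp; ring

theorem table_of_wit (hW : ∀ c : ℝ, 0 < c → c < 1 → Wit c) (A B C D : EuclideanSpace ℝ (Fin 3))
    (hA : ‖A‖ = 1) (hB : ‖B‖ = 1) (hC : ‖C‖ = 1) (hD : ‖D‖ = 1)
    (h1 : B - A = C - D) (h2 : Inner.inner ℝ (B - A) (D - A) = 0) (h3 : ‖B - A‖ = ‖D - A‖) (h4 : A ≠ B)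
    (h5 : A + C ≠ 0) :
    ∃ h : EuclideanSpace ℝ (Fin 3) → ℝ, ContDiff ℝ ⊤ h ∧
      ∀ ρ : EuclideanSpace ℝ (Fin 3) ≃ₗᵢ[ℝ] EuclideanSpace ℝ (Fin 3),
        ¬ (h (ρ A) = h (ρ B) ∧ h (ρ B) = h (ρ C) ∧ h (ρ C) = h (ρ D)) := by
  have c0 : 0 < ‖A + C‖ / 2 := half_pos (norm_pos_iff.2 h5)
  have key : ∀ ρ : EuclideanSpace ℝ (Fin 3) ≃ₗᵢ[ℝ] EuclideanSpace ℝ (Fin 3),
      ∃ m0 m1 m2 f0 f1 f2 g0 g1 g2 : ℝ, m0 ^ 2 + m1 ^ 2 + m2 ^ 2 = (‖A + C‖ / 2) ^ 2 ∧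
      f0 ^ 2 + f1 ^ 2 + f2 ^ 2 = 1 - (‖A + C‖ / 2) ^ 2 ∧
      g0 ^ 2 + g1 ^ 2 + g2 ^ 2 = 1 - (‖A + C‖ / 2) ^ 2 ∧ m0 * f0 + m1 * f1 + m2 * f2 = 0 ∧
      m0 * g0 + m1 * g1 + m2 * g2 = 0 ∧ f0 * g0 + f1 * g1 + f2 * g2 = 0 ∧
      4 * (f0 ^ 2 + f1 ^ 2 + f2 ^ 2) = 2 * ‖B - A‖ ^ 2 ∧
      ρ A 0 = m0 + f0 ∧ ρ A 1 = m1 + f1 ∧ ρ A 2 = m2 + f2 ∧
      ρ B 0 = m0 + g0 ∧ ρ B 1 = m1 + g1 ∧ ρ B 2 = m2 + g2 ∧
      ρ C 0 = m0 - f0 ∧ ρ C 1 = m1 - f1 ∧ ρ C 2 = m2 - f2 ∧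
      ρ D 0 = m0 - g0 ∧ ρ D 1 = m1 - g1 ∧ ρ D 2 = m2 - g2 := by
    intro ρ
    have a := nsq (ρ A); have b := nsq (ρ B); have c := nsq (ρ C); have d := nsq (ρ D)
    rw [ρ.norm_map, hA] at a; rw [ρ.norm_map, hB] at b; rw [ρ.norm_map, hC] at c
    rw [ρ.norm_map, hD] at d
    have e := nsq (ρ (A + C))
    have f := nsq (ρ (B - A))
    have g := nsq (ρ (D - A))
    have i := inn (ρ (B - A)) (ρ (D - A))
    rw [ρ.norm_map] at e f g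
    rw [ρ.inner_map_map, h2] at i
    rw [← h3] at g
    have j : ρ B - ρ A = ρ C - ρ D := by rw [← map_sub, ← map_sub, h1]
    have j0 := congrArg (fun v => v 0) j
    have j1 := congrArg (fun v => v 1) j
    have j2 := congrArg (fun v => v 2) j
    simp only [map_add, map_sub, PiLp.add_apply, PiLp.sub_apply] at e f g i j0 j1 j2
    generalize ρ A = P at *
    generalize ρ B = Q at *
    generalize ρ C = S at *
    generalize ρ D = T at *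
    have k0 : T 0 = S 0 + P 0 - Q 0 := by linarith
    have k1 : T 1 = S 1 + P 1 - Q 1 := by linarith
    have k2 : T 2 = S 2 + P 2 - Q 2 := by linarith
    rw [k0, k1, k2] at d g i
    refine ⟨(P 0 + S 0) / 2, (P 1 + S 1) / 2, (P 2 + S 2) / 2, (P 0 - S 0) / 2, (P 1 - S 1) / 2,
      (P 2 - S 2) / 2, Q 0 - (P 0 + S 0) / 2, Q 1 - (P 1 + S 1) / 2, Q 2 - (P 2 + S 2) / 2,
      by linear_combination (-1 / 4) * e, by linear_combination (1 / 4) * e - (1 / 2) * a - (1 / 2) * c,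
      by linear_combination (1 / 4) * e - (1 / 2) * b - (1 / 2) * d,
      by linear_combination (1 / 4) * c - (1 / 4) * a,
      by linear_combination (1 / 4) * d - (1 / 4) * b,
      by linear_combination (1 / 4) * f - (1 / 4) * g,
      by linear_combination (-1) * f - g - 2 * i,
      by ring, by ring, by ring, by ring, by ring, by ring, by ring, by ring, by ring,
      by rw [k0]; ring, by rw [k1]; ring, by rw [k2]; ring⟩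
  have c1 : ‖A + C‖ / 2 < 1 := by
    obtain ⟨m0, m1, m2, f0, f1, f2, g0, g1, g2, -, e1, -, -, -, -, e2, -⟩ :=
      key (LinearIsometryEquiv.refl ℝ _)
    have : 0 < ‖B - A‖ := norm_pos_iff.2 (sub_ne_zero.2 h4.symm)
    nlinarith
  obtain ⟨p, u, s0, s1, z0, z1, k, hpos, hno⟩ := hW _ c0 c1
  let N : ℝ → ℝ → ℝ → ℝ := fun v0 v1 v2 => Nf p u (s0 + s1 * v2) (z0 + z1 * v2) (k * v0) (k * v1)
  let Q : ℝ → ℝ → ℝ → ℝ := fun v0 v1 v2 => Df p u (s0 + s1 * v2) (z0 + z1 * v2) (k * v0) (k * v1)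
  refine ⟨fun v => N (v 0) (v 1) (v 2) * Q (v 0) (v 1) (v 2) /
    (Q (v 0) (v 1) (v 2) ^ 2 + (v 0 ^ 2 + v 1 ^ 2 + v 2 ^ 2 - 1) ^ 2), ?_, ?_⟩
  · refine ContDiff.div ?_ ?_ ?_
    · simp only [N, Q, Nf, Df]; fun_prop
    · simp only [Q, Df]; fun_prop
    · intro v
      by_cases hv : v 0 ^ 2 + v 1 ^ 2 + v 2 ^ 2 = 1
      · have : 0 < Q (v 0) (v 1) (v 2) := hpos _ _ _ hv
        positivity
      · have : v 0 ^ 2 + v 1 ^ 2 + v 2 ^ 2 - 1 ≠ 0 := sub_ne_zero.2 hv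
        positivity
  · rintro ρ ⟨e1, e2, e3⟩
    beta_reduce at e1 e2 e3
    have val : ∀ v : EuclideanSpace ℝ (Fin 3), ‖v‖ = 1 → ∀ cc : ℝ,
        N (ρ v 0) (ρ v 1) (ρ v 2) * Q (ρ v 0) (ρ v 1) (ρ v 2) / (Q (ρ v 0) (ρ v 1) (ρ v 2) ^ 2
          + (ρ v 0 ^ 2 + ρ v 1 ^ 2 + ρ v 2 ^ 2 - 1) ^ 2) = cc →
        N (ρ v 0) (ρ v 1) (ρ v 2) = cc * Q (ρ v 0) (ρ v 1) (ρ v 2) := by
      intro v hv cc h
      have a := nsq (ρ v)
      rw [ρ.norm_map, hv, one_pow] at a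
      have q : 0 < Q (ρ v 0) (ρ v 1) (ρ v 2) := hpos _ _ _ a.symm
      rw [← a] at h
      rw [← h]; field_simp; ring
    have v1 := val A hA _ rfl
    have v2 := val B hB _ e1.symm
    have v3 := val C hC _ (e1.trans e2).symm
    have v4 := val D hD _ ((e1.trans e2).trans e3).symm
    generalize N (ρ A 0) (ρ A 1) (ρ A 2) * Q (ρ A 0) (ρ A 1) (ρ A 2) / (Q (ρ A 0) (ρ A 1) (ρ A 2) ^ 2
          + (ρ A 0 ^ 2 + ρ A 1 ^ 2 + ρ A 2 ^ 2 - 1) ^ 2) = cc at v1 v2 v3 v4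
    obtain ⟨m0, m1, m2, f0, f1, f2, g0, g1, g2, q1, q2, q3, q4, q5, q6, -, a0, a1, a2, b0, b1, b2,
      d0, d1, d2, i0, i1, i2⟩ := key ρ
    rw [a0, a1, a2] at v1
    rw [b0, b1, b2] at v2
    rw [d0, d1, d2] at v3
    rw [i0, i1, i2] at v4
    exact coord c0 c1 q1 q2 q3 q4 q5 q6 (N := N) (D := Q)
      (fun a b ox oy ξ η ha hb hab ho he => hno a b ox oy ξ η cc ha hb hab ho he) v1 v2 v3 v4

end Pool.Agent.Lib.MP_5a3ebe_gt.Tab
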