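import Pool.Agent.Lib.MP_5a3ebe_gt.TabGeo

/-! Parameters of the seven rational functions (units of `2^-32`) and positivity of the denominators. -/

namespace Pool.Agent.Lib.MP_5a3ebe_gt.Tab
open Tr

def pA : PR :=
  ⟨1838153728, -2718957568, -3963617280, 4294967296, 2947547136, 3223322624, 985661440, 29360128,
    1540358144, 2974810112, -4294967296, 317718528, 84934656, 155189248, -93323264, -447741952⟩

def pB1 : PR :=
  ⟨1284505600, -1980760064, -581959680, 1296039936, 1769996288, 4294967296, 2427453440, 140509184,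
    4294967296, -90177536, -1456472064, -1248854016, -93323264, -407896064, -10485760, 270532608⟩

def pB2 : PR :=
  ⟨1200619520, -2056257536, -325058560, 1548746752, 1257242624, 4294967296, 2165309440, -7340032,
    4294967296, 1823473664, -3311403008, -1471152128, -1048576, -1180696576, -540016640, 1085276160⟩

def pB3 : PR :=
  ⟨1528823808, -1933574144, -569376768, 1599078400, 1318060032, 4294967296, 1910505472, 957349888,
    4294967296, 923795456, -4044357632, -4270850048, 500170752, -3204448256, -3946840064, 1332740096⟩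

def pB4 : PR :=
  ⟨2522873856, -2049966080, -837812224, 2052063232, 1833959424, 4294967296, 1310720000, 2631925760,
    3516923904, -1633681408, -4294967296, -1303379968, 707788800, -2844786688, -4154458112, 2805989376⟩

def pB5 : PR :=
  ⟨881852416, -955252736, -4294967296, -231735296, -1051721728, -61865984, -1137704960, -2024800256,
    4294967296, -3478126592, 34603008, 1216348160, -704643072, -3749707776, 24117248, -2171600896⟩

def pB6 : PR :=
  ⟨871366656, -873463808, -4294967296, -307232768, -731906048, -30408704, -899678208, -1971322880,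
    4294967296, -3406823424, 785383424, 2306867200, -927989760, -2962227200, 600834048, -2636120064⟩

theorem dA : Box (fun X Y _ => DP pA.r (X / 4294967296) (Y / 4294967296)) 0 8589934592 4294967296 4294967296 0 0 :=
  chk0_ok (T := (x (x (c 0 0) (x (c 0 0) (c 0 0))) (x (x (x (c 0 0) (c 0 0)) (x (c 0 0) (x (c 0 0) (c 0 0)))) (x
    (x (x (c 0 0) (c 0 0)) (x (c 0 0) (c 0 0))) (x (x (c 0 0) (c 0 0)) (c 0 0))))))
    (by decide +kernel)

theorem dB1 : Box (fun X Y _ => DP pB1.r (X / 4294967296) (Y / 4294967296)) 0 8589934592 2147483648 2643460096 0 0 :=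
  chk0_ok (T := (x (c 0 0) (c 0 0)))
    (by decide +kernel)

theorem dB2 : Box (fun X Y _ => DP pB2.r (X / 4294967296) (Y / 4294967296)) 0 8589934592 1717567488 2147483648 0 0 :=
  chk0_ok (T := (x (x (c 0 0) (c 0 0)) (c 0 0)))
    (by decide +kernel)

theorem dB3 : Box (fun X Y _ => DP pB3.r (X / 4294967296) (Y / 4294967296)) 0 8589934592 1288699904 1717567488 0 0 :=
  chk0_ok (T := (x (x (x (c 0 0) (c 0 0)) (x (c 0 0) (c 0 0))) (x (c 0 0) (x (c 0 0) (c 0 0)))))
    (by decide +kernel)

theorem dB4 : Box (fun X Y _ => DP pB4.r (X / 4294967296) (Y / 4294967296)) 0 8589934592 858783744 1288699904 0 0 :=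
  chk0_ok (T := (x (x (x (c 0 0) (c 0 0)) (x (c 0 0) (c 0 0))) (x (x (c 0 0) (c 0 0)) (x (x (c 0 0) (c 0 0)) (x
    (y (c 0 0) (c 0 0)) (y (x (c 0 0) (c 0 0)) (x (c 0 0) (y (c 0 0) (x (c 0 0) (y (c 0 0) (c 0
    0)))))))))))
    (by decide +kernel)

theorem dB5 : Box (fun X Y _ => DP pB5.r (X / 4294967296) (Y / 4294967296)) 0 8589934592 429916160 858783744 0 0 :=
  chk0_ok (T := (x (x (x (x (y (x (c 0 0) (c 0 0)) (x (c 0 0) (c 0 0))) (c 0 0)) (c 0 0)) (x (c 0 0) (c 0 0)))
    (x (x (c 0 0) (c 0 0)) (x (c 0 0) (x (c 0 0) (c 0 0))))))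
    (by decide +kernel)

theorem dB6 : Box (fun X Y _ => DP pB6.r (X / 4294967296) (Y / 4294967296)) 0 8589934592 0 429916160 0 0 :=
  chk0_ok (T := (x (x (x (x (y (c 0 0) (x (c 0 0) (c 0 0))) (c 0 0)) (c 0 0)) (c 0 0)) (x (c 0 0) (x (c 0 0) (x
    (c 0 0) (c 0 0))))))
    (by decide +kernel)

end Pool.Agent.Lib.MP_5a3ebe_gt.Tab
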