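import Pool.Agent.Lib.MP_5a3ebe_gt.TabLeaf

/-! Straight line programs for the cell level data, with their real semantics. -/

namespace Pool.Agent.Lib.MP_5a3ebe_gt.Tab

structure PR where
  c0x : Int
  c0y : Int
  c1x : Int
  c1y : Int
  c2x : Int
  c2y : Int
  c3x : Int
  c3y : Int
  d0 : Int
  d1 : Int
  d2 : Int
  d3 : Int
  e0x : Int
  e0y : Int
  e1x : Int
  e1y : Int

structure KA where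
  a1x : KK
  a1y : KK
  a2x : KK
  a2y : KK
  a3x : KK
  a3y : KK
  c3x : KK
  c3y : KK
  f0 : KK
  f1 : KK
  f2 : KK
  f3 : KK
  g0x : KK
  g0y : KK
  g1x : KK
  g1y : KK

structure KB where
  c0x : KK
  c0y : KK
  c1x : KK
  c1y : KK
  c2x : KK
  c2y : KK
  c3x : KK
  c3y : KK
  d0 : KK
  d1 : KK
  d2 : KK
  d3 : KK
  e0x : KK
  e0y : KK
  e1x : KK
  e1y : KK

structure RA where
  a1x : ℝ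
  a1y : ℝ
  a2x : ℝ
  a2y : ℝ
  a3x : ℝ
  a3y : ℝ
  c3x : ℝ
  c3y : ℝ
  f0 : ℝ
  f1 : ℝ
  f2 : ℝ
  f3 : ℝ
  g0x : ℝ
  g0y : ℝ
  g1x : ℝ
  g1y : ℝ

structure RB where
  c0x : ℝ
  c0y : ℝ
  c1x : ℝ
  c1y : ℝ
  c2x : ℝ
  c2y : ℝ
  c3x : ℝ
  c3y : ℝ
  d0 : ℝ
  d1 : ℝ
  d2 : ℝ
  d3 : ℝ
  e0x : ℝ
  e0y : ℝ
  e1x : ℝ
  e1y : ℝ

structure FE where
  w0 : AA
  al : AA
  be : AA
  R : AA
  U : AA
  q0x : AA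
  q0y : AA
  q1x : AA
  q1y : AA
  q2x : AA
  q2y : AA
  l0x : AA
  l0y : AA
  l1x : AA
  l1y : AA
  c3x : AA
  c3y : AA
  k0 : AA
  kd : AA
  ks : AA
  k2 : AA

structure FR where
  w0 : ℝ
  al : ℝ
  be : ℝ
  R : ℝ
  U : ℝ
  q0x : ℝ
  q0y : ℝ
  q1x : ℝ
  q1y : ℝ
  q2x : ℝ
  q2y : ℝ
  l0x : ℝ
  l0y : ℝ
  l1x : ℝ
  l1y : ℝ
  c3x : ℝ
  c3y : ℝ
  k0 : ℝ
  kd : ℝ
  ks : ℝ
  k2 : ℝ

noncomputable def PR.r (p : PR) : RB :=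
  ⟨(p.c0x : ℝ) / 4294967296, (p.c0y : ℝ) / 4294967296, (p.c1x : ℝ) / 4294967296, (p.c1y : ℝ) / 4294967296, (p.c2x : ℝ) / 4294967296, (p.c2y : ℝ) / 4294967296, (p.c3x : ℝ) / 4294967296, (p.c3y : ℝ) / 4294967296, (p.d0 : ℝ) / 4294967296, (p.d1 : ℝ) / 4294967296, (p.d2 : ℝ) / 4294967296, (p.d3 : ℝ) / 4294967296, (p.e0x : ℝ) / 4294967296, (p.e0y : ℝ) / 4294967296, (p.e1x : ℝ) / 4294967296, (p.e1y : ℝ) / 4294967296⟩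

noncomputable def RB.toA (p : RB) : RA :=
  ⟨p.c0x + p.c1x + p.c2x,
   p.c0y + p.c1y + p.c2y,
   2 * (p.c0x - p.c2x),
   2 * (p.c0y - p.c2y),
   p.c0x - p.c1x + p.c2x,
   p.c0y - p.c1y + p.c2y,
   p.c3x,
   p.c3y,
   p.d0 + p.d1 + p.d2 + p.d3,
   3 * p.d0 - p.d1 + p.d2 - 3 * p.d3,
   3 * p.d0 - p.d1 - p.d2 + 3 * p.d3,
   p.d0 + p.d1 - p.d2 - p.d3,
   p.e0x + p.e1x,
   p.e0y + p.e1y,
   p.e0x - p.e1x,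
   p.e0y - p.e1y⟩

def IsKA (K : KA) (r : RA) : Prop :=
  IsK K.a1x r.a1x ∧ IsK K.a1y r.a1y ∧ IsK K.a2x r.a2x ∧ IsK K.a2y r.a2y ∧ IsK K.a3x r.a3x ∧ IsK K.a3y r.a3y ∧ IsK K.c3x r.c3x ∧ IsK K.c3y r.c3y ∧ IsK K.f0 r.f0 ∧ IsK K.f1 r.f1 ∧ IsK K.f2 r.f2 ∧ IsK K.f3 r.f3 ∧ IsK K.g0x r.g0x ∧ IsK K.g0y r.g0y ∧ IsK K.g1x r.g1x ∧ IsK K.g1y r.g1y

noncomputable def withKA (p : PR) (k : KA → Bool) : Bool :=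
  withK (p.c0x + p.c1x + p.c2x) fun a1x =>
  withK (p.c0y + p.c1y + p.c2y) fun a1y =>
  withK (2 * (p.c0x - p.c2x)) fun a2x =>
  withK (2 * (p.c0y - p.c2y)) fun a2y =>
  withK (p.c0x - p.c1x + p.c2x) fun a3x =>
  withK (p.c0y - p.c1y + p.c2y) fun a3y =>
  withK (p.c3x) fun c3x =>
  withK (p.c3y) fun c3y =>
  withK (p.d0 + p.d1 + p.d2 + p.d3) fun f0 =>
  withK (3 * p.d0 - p.d1 + p.d2 - 3 * p.d3) fun f1 =>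
  withK (3 * p.d0 - p.d1 - p.d2 + 3 * p.d3) fun f2 =>
  withK (p.d0 + p.d1 - p.d2 - p.d3) fun f3 =>
  withK (p.e0x + p.e1x) fun g0x =>
  withK (p.e0y + p.e1y) fun g0y =>
  withK (p.e0x - p.e1x) fun g1x =>
  withK (p.e0y - p.e1y) fun g1y =>
  k ⟨a1x, a1y, a2x, a2y, a3x, a3y, c3x, c3y, f0, f1, f2, f3, g0x, g0y, g1x, g1y⟩

theorem withKA_ok {p : PR} {k : KA → Bool} (hk : withKA p k = true) :
    ∃ K, IsKA K p.r.toA ∧ k K = true := by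
  unfold withKA at hk
  obtain ⟨a1x, ha1x, hk⟩ := withK_ok hk
  obtain ⟨a1y, ha1y, hk⟩ := withK_ok hk
  obtain ⟨a2x, ha2x, hk⟩ := withK_ok hk
  obtain ⟨a2y, ha2y, hk⟩ := withK_ok hk
  obtain ⟨a3x, ha3x, hk⟩ := withK_ok hk
  obtain ⟨a3y, ha3y, hk⟩ := withK_ok hk
  obtain ⟨c3x, hc3x, hk⟩ := withK_ok hk
  obtain ⟨c3y, hc3y, hk⟩ := withK_ok hk
  obtain ⟨f0, hf0, hk⟩ := withK_ok hk
  obtain ⟨f1, hf1, hk⟩ := withK_ok hk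
  obtain ⟨f2, hf2, hk⟩ := withK_ok hk
  obtain ⟨f3, hf3, hk⟩ := withK_ok hk
  obtain ⟨g0x, hg0x, hk⟩ := withK_ok hk
  obtain ⟨g0y, hg0y, hk⟩ := withK_ok hk
  obtain ⟨g1x, hg1x, hk⟩ := withK_ok hk
  obtain ⟨g1y, hg1y, hk⟩ := withK_ok hk
  refine ⟨_, ⟨?_, ?_, ?_, ?_, ?_, ?_, ?_, ?_, ?_, ?_, ?_, ?_, ?_, ?_, ?_, ?_⟩, hk⟩
  · convert ha1x using 1; simp only [PR.r, RB.toA]; push_cast; ring
  · convert ha1y using 1; simp only [PR.r, RB.toA]; push_cast; ring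
  · convert ha2x using 1; simp only [PR.r, RB.toA]; push_cast; ring
  · convert ha2y using 1; simp only [PR.r, RB.toA]; push_cast; ring
  · convert ha3x using 1; simp only [PR.r, RB.toA]; push_cast; ring
  · convert ha3y using 1; simp only [PR.r, RB.toA]; push_cast; ring
  · convert hc3x using 1; simp only [PR.r, RB.toA]
  · convert hc3y using 1; simp only [PR.r, RB.toA]
  · convert hf0 using 1; simp only [PR.r, RB.toA]; push_cast; ring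
  · convert hf1 using 1; simp only [PR.r, RB.toA]; push_cast; ring
  · convert hf2 using 1; simp only [PR.r, RB.toA]; push_cast; ring
  · convert hf3 using 1; simp only [PR.r, RB.toA]; push_cast; ring
  · convert hg0x using 1; simp only [PR.r, RB.toA]; push_cast; ring
  · convert hg0y using 1; simp only [PR.r, RB.toA]; push_cast; ring
  · convert hg1x using 1; simp only [PR.r, RB.toA]; push_cast; ring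
  · convert hg1y using 1; simp only [PR.r, RB.toA]; push_cast; ring

def IsKB (K : KB) (r : RB) : Prop :=
  IsK K.c0x r.c0x ∧ IsK K.c0y r.c0y ∧ IsK K.c1x r.c1x ∧ IsK K.c1y r.c1y ∧ IsK K.c2x r.c2x ∧ IsK K.c2y r.c2y ∧ IsK K.c3x r.c3x ∧ IsK K.c3y r.c3y ∧ IsK K.d0 r.d0 ∧ IsK K.d1 r.d1 ∧ IsK K.d2 r.d2 ∧ IsK K.d3 r.d3 ∧ IsK K.e0x r.e0x ∧ IsK K.e0y r.e0y ∧ IsK K.e1x r.e1x ∧ IsK K.e1y r.e1y

noncomputable def withKB (p : PR) (k : KB → Bool) : Bool :=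
  withK (p.c0x) fun c0x =>
  withK (p.c0y) fun c0y =>
  withK (p.c1x) fun c1x =>
  withK (p.c1y) fun c1y =>
  withK (p.c2x) fun c2x =>
  withK (p.c2y) fun c2y =>
  withK (p.c3x) fun c3x =>
  withK (p.c3y) fun c3y =>
  withK (p.d0) fun d0 =>
  withK (p.d1) fun d1 =>
  withK (p.d2) fun d2 =>
  withK (p.d3) fun d3 =>
  withK (p.e0x) fun e0x =>
  withK (p.e0y) fun e0y =>
  withK (p.e1x) fun e1x =>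
  withK (p.e1y) fun e1y =>
  k ⟨c0x, c0y, c1x, c1y, c2x, c2y, c3x, c3y, d0, d1, d2, d3, e0x, e0y, e1x, e1y⟩

theorem withKB_ok {p : PR} {k : KB → Bool} (hk : withKB p k = true) :
    ∃ K, IsKB K p.r ∧ k K = true := by
  unfold withKB at hk
  obtain ⟨c0x, hc0x, hk⟩ := withK_ok hk
  obtain ⟨c0y, hc0y, hk⟩ := withK_ok hk
  obtain ⟨c1x, hc1x, hk⟩ := withK_ok hk
  obtain ⟨c1y, hc1y, hk⟩ := withK_ok hk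
  obtain ⟨c2x, hc2x, hk⟩ := withK_ok hk
  obtain ⟨c2y, hc2y, hk⟩ := withK_ok hk
  obtain ⟨c3x, hc3x, hk⟩ := withK_ok hk
  obtain ⟨c3y, hc3y, hk⟩ := withK_ok hk
  obtain ⟨d0, hd0, hk⟩ := withK_ok hk
  obtain ⟨d1, hd1, hk⟩ := withK_ok hk
  obtain ⟨d2, hd2, hk⟩ := withK_ok hk
  obtain ⟨d3, hd3, hk⟩ := withK_ok hk
  obtain ⟨e0x, he0x, hk⟩ := withK_ok hk
  obtain ⟨e0y, he0y, hk⟩ := withK_ok hk
  obtain ⟨e1x, he1x, hk⟩ := withK_ok hk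
  obtain ⟨e1y, he1y, hk⟩ := withK_ok hk
  exact ⟨_, ⟨hc0x, hc0y, hc1x, hc1y, hc2x, hc2y, hc3x, hc3y, hd0, hd1, hd2, hd3, he0x, he0y, he1x, he1y⟩, hk⟩

def HF (t1 t2 : ℝ) (F : FE) (r : FR) : Prop :=
  Has t1 t2 0 F.w0 r.w0 ∧ Has t1 t2 0 F.al r.al ∧ Has t1 t2 0 F.be r.be ∧ Has t1 t2 0 F.R r.R ∧ Has t1 t2 0 F.U r.U ∧ Has t1 t2 0 F.q0x r.q0x ∧ Has t1 t2 0 F.q0y r.q0y ∧ Has t1 t2 0 F.q1x r.q1x ∧ Has t1 t2 0 F.q1y r.q1y ∧ Has t1 t2 0 F.q2x r.q2x ∧ Has t1 t2 0 F.q2y r.q2y ∧ Has t1 t2 0 F.l0x r.l0x ∧ Has t1 t2 0 F.l0y r.l0y ∧ Has t1 t2 0 F.l1x r.l1x ∧ Has t1 t2 0 F.l1y r.l1y ∧ Has t1 t2 0 F.c3x r.c3x ∧ Has t1 t2 0 F.c3y r.c3y ∧ Has t1 t2 0 F.k0 r.k0 ∧ Has t1 t2 0 F.kd r.kd ∧ Has t1 t2 0 F.ks r.ks ∧ Has t1 t2 0 F.k2 r.k2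

noncomputable def coreA (K : KA) (P0 P1 Q0 Q1 w0 al be R J one : AA) (k : FE → Bool) : Bool :=
  KA.rec (fun Ka1x Ka1y Ka2x Ka2y Ka3x Ka3y Kc3x Kc3y Kf0 Kf1 Kf2 Kf3 Kg0x Kg0y Kg1x Kg1y =>
  nrm2 (mul2 Q1 Q1) fun QQ2 =>
  nrm2 (mul2 P1 Q1) fun PQ2 =>
  nrm2 (mul2 P1 P1) fun PP2 =>
  nrm2 (mul2 R QQ2) fun RQ =>
  nrm2 (mul2 R PP2) fun RP =>
  nrm2 (add2 (mul2 Q0 Q0) (sm2 2 (up2 RQ))) fun QQ0 =>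
  nrm2 (add2 (mul2 P0 Q0) (sm2 2 (mul2 R PQ2))) fun PQ0 =>
  nrm2 (add2 (mul2 P0 P0) (sm2 2 (up2 RP))) fun PP0 =>
  nrm2 (sm2 2 (mul2 Q0 Q1)) fun QQ1 =>
  nrm2 (add2 (mul2 P0 Q1) (mul2 P1 Q0)) fun PQ1 =>
  nrm2 (sm2 2 (mul2 P0 P1)) fun PP1 =>
  nrm2 (add2 (add2 (mulK Ka1x QQ0) (mulK Ka2x PQ0)) (mulK Ka3x PP0)) fun q0x =>
  nrm2 (add2 (add2 (mulK Ka1y QQ0) (mulK Ka2y PQ0)) (mulK Ka3y PP0)) fun q0y =>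
  nrm2 (add2 (add2 (mulK Ka1x QQ1) (mulK Ka2x PQ1)) (mulK Ka3x PP1)) fun q1x =>
  nrm2 (add2 (add2 (mulK Ka1y QQ1) (mulK Ka2y PQ1)) (mulK Ka3y PP1)) fun q1y =>
  nrm2 (add2 (add2 (mulK Ka1x QQ2) (mulK Ka2x PQ2)) (mulK Ka3x PP2)) fun q2x =>
  nrm2 (add2 (add2 (mulK Ka1y QQ2) (mulK Ka2y PQ2)) (mulK Ka3y PP2)) fun q2y =>
  nrm2 (mulK Kc3x J) fun c3x_ =>
  nrm2 (mulK Kc3y J) fun c3y_ =>
  nrm2 (mul2 J Q0) fun JQ0 =>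
  nrm2 (mul2 J Q1) fun JQ1 =>
  nrm2 (mul2 J P0) fun JP0 =>
  nrm2 (mul2 J P1) fun JP1 =>
  nrm2 (add2 (mulK Kg0x JQ0) (mulK Kg1x JP0)) fun l0x =>
  nrm2 (add2 (mulK Kg0y JQ0) (mulK Kg1y JP0)) fun l0y =>
  nrm2 (add2 (mulK Kg0x JQ1) (mulK Kg1x JP1)) fun l1x =>
  nrm2 (add2 (mulK Kg0y JQ1) (mulK Kg1y JP1)) fun l1y =>
  nrm2 (add2 (mulK Kf0 Q0) (mulK Kf1 P0)) fun A0 =>
  nrm2 (add2 (mulK Kf0 Q1) (mulK Kf1 P1)) fun A1 =>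
  nrm2 (add2 (mulK Kf2 Q0) (mulK Kf3 P0)) fun B0 =>
  nrm2 (add2 (mulK Kf2 Q1) (mulK Kf3 P1)) fun B1 =>
  nrm2 (add2 (mul2 QQ1 A1) (mul2 PP1 B1)) fun T1 =>
  nrm2 (add2 (add2 (mul2 QQ0 A0) (mul2 PP0 B0)) (sm2 2 (mul2 R T1))) fun k0 =>
  nrm2 (add2 (add2 (add2 (mul2 QQ1 A0) (mul2 QQ0 A1)) (mul2 PP1 B0)) (mul2 PP0 B1)) fun kd =>
  nrm2 (add2 (up2 kd) (sm2 2 (add2 (mul2 RQ A1) (mul2 RP B1)))) fun ks =>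
  nrm2 (add2 (add2 (mul2 QQ2 A0) (mul2 PP2 B0)) (up2 T1)) fun k2 =>
  k ⟨w0, al, be, R, one, q0x, q0y, q1x, q1y, q2x, q2y, l0x, l0y, l1x, l1y, c3x_, c3y_, k0, kd, ks, k2⟩) K

noncomputable def coreAr (K : RA) (P0 P1 Q0 Q1 w0 al be R J one : ℝ) : FR :=
  let QQ2 : ℝ := (Q1 * Q1)
  let PQ2 : ℝ := (P1 * Q1)
  let PP2 : ℝ := (P1 * P1)
  let RQ : ℝ := (R * QQ2)
  let RP : ℝ := (R * PP2)
  let QQ0 : ℝ := ((Q0 * Q0) + (((2 : ℕ) : ℝ) * RQ))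
  let PQ0 : ℝ := ((P0 * Q0) + (((2 : ℕ) : ℝ) * (R * PQ2)))
  let PP0 : ℝ := ((P0 * P0) + (((2 : ℕ) : ℝ) * RP))
  let QQ1 : ℝ := (((2 : ℕ) : ℝ) * (Q0 * Q1))
  let PQ1 : ℝ := ((P0 * Q1) + (P1 * Q0))
  let PP1 : ℝ := (((2 : ℕ) : ℝ) * (P0 * P1))
  let q0x : ℝ := (((K.a1x * QQ0) + (K.a2x * PQ0)) + (K.a3x * PP0))
  let q0y : ℝ := (((K.a1y * QQ0) + (K.a2y * PQ0)) + (K.a3y * PP0))
  let q1x : ℝ := (((K.a1x * QQ1) + (K.a2x * PQ1)) + (K.a3x * PP1))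
  let q1y : ℝ := (((K.a1y * QQ1) + (K.a2y * PQ1)) + (K.a3y * PP1))
  let q2x : ℝ := (((K.a1x * QQ2) + (K.a2x * PQ2)) + (K.a3x * PP2))
  let q2y : ℝ := (((K.a1y * QQ2) + (K.a2y * PQ2)) + (K.a3y * PP2))
  let c3x_ : ℝ := (K.c3x * J)
  let c3y_ : ℝ := (K.c3y * J)
  let JQ0 : ℝ := (J * Q0)
  let JQ1 : ℝ := (J * Q1)
  let JP0 : ℝ := (J * P0)
  let JP1 : ℝ := (J * P1)
  let l0x : ℝ := ((K.g0x * JQ0) + (K.g1x * JP0))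
  let l0y : ℝ := ((K.g0y * JQ0) + (K.g1y * JP0))
  let l1x : ℝ := ((K.g0x * JQ1) + (K.g1x * JP1))
  let l1y : ℝ := ((K.g0y * JQ1) + (K.g1y * JP1))
  let A0 : ℝ := ((K.f0 * Q0) + (K.f1 * P0))
  let A1 : ℝ := ((K.f0 * Q1) + (K.f1 * P1))
  let B0 : ℝ := ((K.f2 * Q0) + (K.f3 * P0))
  let B1 : ℝ := ((K.f2 * Q1) + (K.f3 * P1))
  let T1 : ℝ := ((QQ1 * A1) + (PP1 * B1))
  let k0 : ℝ := (((QQ0 * A0) + (PP0 * B0)) + (((2 : ℕ) : ℝ) * (R * T1)))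
  let kd : ℝ := ((((QQ1 * A0) + (QQ0 * A1)) + (PP1 * B0)) + (PP0 * B1))
  let ks : ℝ := (kd + (((2 : ℕ) : ℝ) * ((RQ * A1) + (RP * B1))))
  let k2 : ℝ := (((QQ2 * A0) + (PP2 * B0)) + T1)
  ⟨w0, al, be, R, one, q0x, q0y, q1x, q1y, q2x, q2y, l0x, l0y, l1x, l1y, c3x_, c3y_, k0, kd, ks, k2⟩

theorem coreA_ok {t1 t2 : ℝ} {K : KA} {r : RA} {P0 P1 Q0 Q1 w0 al be R J one : AA} {P0r P1r Q0r Q1r w0r alr ber Rr Jr oner : ℝ}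
    {k : FE → Bool} (h1 : |t1| ≤ 1) (h2 : |t2| ≤ 1) (hK : IsKA K r)
    (hP0 : Has t1 t2 0 P0 P0r)
    (hP1 : Has t1 t2 0 P1 P1r)
    (hQ0 : Has t1 t2 0 Q0 Q0r)
    (hQ1 : Has t1 t2 0 Q1 Q1r)
    (hw0 : Has t1 t2 0 w0 w0r)
    (hal : Has t1 t2 0 al alr)
    (hbe : Has t1 t2 0 be ber)
    (hR : Has t1 t2 0 R Rr)
    (hJ : Has t1 t2 0 J Jr)
    (hone : Has t1 t2 0 one oner)
    (hk : coreA K P0 P1 Q0 Q1 w0 al be R J one k = true) :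
    ∃ F, HF t1 t2 F (coreAr r P0r P1r Q0r Q1r w0r alr ber Rr Jr oner) ∧ k F = true := by
  obtain ⟨Ka1x, Ka1y, Ka2x, Ka2y, Ka3x, Ka3y, Kc3x, Kc3y, Kf0, Kf1, Kf2, Kf3, Kg0x, Kg0y, Kg1x, Kg1y⟩ := K
  obtain ⟨hKa1x, hKa1y, hKa2x, hKa2y, hKa3x, hKa3y, hKc3x, hKc3y, hKf0, hKf1, hKf2, hKf3, hKg0x, hKg0y, hKg1x, hKg1y⟩ := hK
  unfold coreA at hk
  obtain ⟨QQ2, hQQ2, hk⟩ := nrm2_ok h1 h2 (H2.mul hQ1 hQ1) (by decide) hk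
  obtain ⟨PQ2, hPQ2, hk⟩ := nrm2_ok h1 h2 (H2.mul hP1 hQ1) (by decide) hk
  obtain ⟨PP2, hPP2, hk⟩ := nrm2_ok h1 h2 (H2.mul hP1 hP1) (by decide) hk
  obtain ⟨RQ, hRQ, hk⟩ := nrm2_ok h1 h2 (H2.mul hR hQQ2) (by decide) hk
  obtain ⟨RP, hRP, hk⟩ := nrm2_ok h1 h2 (H2.mul hR hPP2) (by decide) hk
  obtain ⟨QQ0, hQQ0, hk⟩ := nrm2_ok h1 h2 (H2.add (H2.mul hQ0 hQ0) (H2.sm 2 (H2.up hRQ))) (by decide) hk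
  obtain ⟨PQ0, hPQ0, hk⟩ := nrm2_ok h1 h2 (H2.add (H2.mul hP0 hQ0) (H2.sm 2 (H2.mul hR hPQ2))) (by decide) hk
  obtain ⟨PP0, hPP0, hk⟩ := nrm2_ok h1 h2 (H2.add (H2.mul hP0 hP0) (H2.sm 2 (H2.up hRP))) (by decide) hk
  obtain ⟨QQ1, hQQ1, hk⟩ := nrm2_ok h1 h2 (H2.sm 2 (H2.mul hQ0 hQ1)) (by decide) hk
  obtain ⟨PQ1, hPQ1, hk⟩ := nrm2_ok h1 h2 (H2.add (H2.mul hP0 hQ1) (H2.mul hP1 hQ0)) (by decide) hk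
  obtain ⟨PP1, hPP1, hk⟩ := nrm2_ok h1 h2 (H2.sm 2 (H2.mul hP0 hP1)) (by decide) hk
  obtain ⟨q0x, hq0x, hk⟩ := nrm2_ok h1 h2 (H2.add (H2.add (H2.mk' hKa1x hQQ0) (H2.mk' hKa2x hPQ0)) (H2.mk' hKa3x hPP0)) (by decide) hk
  obtain ⟨q0y, hq0y, hk⟩ := nrm2_ok h1 h2 (H2.add (H2.add (H2.mk' hKa1y hQQ0) (H2.mk' hKa2y hPQ0)) (H2.mk' hKa3y hPP0)) (by decide) hk
  obtain ⟨q1x, hq1x, hk⟩ := nrm2_ok h1 h2 (H2.add (H2.add (H2.mk' hKa1x hQQ1) (H2.mk' hKa2x hPQ1)) (H2.mk' hKa3x hPP1)) (by decide) hk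
  obtain ⟨q1y, hq1y, hk⟩ := nrm2_ok h1 h2 (H2.add (H2.add (H2.mk' hKa1y hQQ1) (H2.mk' hKa2y hPQ1)) (H2.mk' hKa3y hPP1)) (by decide) hk
  obtain ⟨q2x, hq2x, hk⟩ := nrm2_ok h1 h2 (H2.add (H2.add (H2.mk' hKa1x hQQ2) (H2.mk' hKa2x hPQ2)) (H2.mk' hKa3x hPP2)) (by decide) hk
  obtain ⟨q2y, hq2y, hk⟩ := nrm2_ok h1 h2 (H2.add (H2.add (H2.mk' hKa1y hQQ2) (H2.mk' hKa2y hPQ2)) (H2.mk' hKa3y hPP2)) (by decide) hk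
  obtain ⟨c3x_, hc3x_, hk⟩ := nrm2_ok h1 h2 (H2.mk' hKc3x hJ) (by decide) hk
  obtain ⟨c3y_, hc3y_, hk⟩ := nrm2_ok h1 h2 (H2.mk' hKc3y hJ) (by decide) hk
  obtain ⟨JQ0, hJQ0, hk⟩ := nrm2_ok h1 h2 (H2.mul hJ hQ0) (by decide) hk
  obtain ⟨JQ1, hJQ1, hk⟩ := nrm2_ok h1 h2 (H2.mul hJ hQ1) (by decide) hk
  obtain ⟨JP0, hJP0, hk⟩ := nrm2_ok h1 h2 (H2.mul hJ hP0) (by decide) hk
  obtain ⟨JP1, hJP1, hk⟩ := nrm2_ok h1 h2 (H2.mul hJ hP1) (by decide) hk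
  obtain ⟨l0x, hl0x, hk⟩ := nrm2_ok h1 h2 (H2.add (H2.mk' hKg0x hJQ0) (H2.mk' hKg1x hJP0)) (by decide) hk
  obtain ⟨l0y, hl0y, hk⟩ := nrm2_ok h1 h2 (H2.add (H2.mk' hKg0y hJQ0) (H2.mk' hKg1y hJP0)) (by decide) hk
  obtain ⟨l1x, hl1x, hk⟩ := nrm2_ok h1 h2 (H2.add (H2.mk' hKg0x hJQ1) (H2.mk' hKg1x hJP1)) (by decide) hk
  obtain ⟨l1y, hl1y, hk⟩ := nrm2_ok h1 h2 (H2.add (H2.mk' hKg0y hJQ1) (H2.mk' hKg1y hJP1)) (by decide) hk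
  obtain ⟨A0, hA0, hk⟩ := nrm2_ok h1 h2 (H2.add (H2.mk' hKf0 hQ0) (H2.mk' hKf1 hP0)) (by decide) hk
  obtain ⟨A1, hA1, hk⟩ := nrm2_ok h1 h2 (H2.add (H2.mk' hKf0 hQ1) (H2.mk' hKf1 hP1)) (by decide) hk
  obtain ⟨B0, hB0, hk⟩ := nrm2_ok h1 h2 (H2.add (H2.mk' hKf2 hQ0) (H2.mk' hKf3 hP0)) (by decide) hk
  obtain ⟨B1, hB1, hk⟩ := nrm2_ok h1 h2 (H2.add (H2.mk' hKf2 hQ1) (H2.mk' hKf3 hP1)) (by decide) hk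
  obtain ⟨T1, hT1, hk⟩ := nrm2_ok h1 h2 (H2.add (H2.mul hQQ1 hA1) (H2.mul hPP1 hB1)) (by decide) hk
  obtain ⟨k0, hk0, hk⟩ := nrm2_ok h1 h2 (H2.add (H2.add (H2.mul hQQ0 hA0) (H2.mul hPP0 hB0)) (H2.sm 2 (H2.mul hR hT1))) (by decide) hk
  obtain ⟨kd, hkd, hk⟩ := nrm2_ok h1 h2 (H2.add (H2.add (H2.add (H2.mul hQQ1 hA0) (H2.mul hQQ0 hA1)) (H2.mul hPP1 hB0)) (H2.mul hPP0 hB1)) (by decide) hk
  obtain ⟨ks, hks, hk⟩ := nrm2_ok h1 h2 (H2.add (H2.up hkd) (H2.sm 2 (H2.add (H2.mul hRQ hA1) (H2.mul hRP hB1)))) (by decide) hk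
  obtain ⟨k2, hk2, hk⟩ := nrm2_ok h1 h2 (H2.add (H2.add (H2.mul hQQ2 hA0) (H2.mul hPP2 hB0)) (H2.up hT1)) (by decide) hk
  exact ⟨_, ⟨hw0, hal, hbe, hR, hone, hq0x, hq0y, hq1x, hq1y, hq2x, hq2y, hl0x, hl0y, hl1x, hl1y, hc3x_, hc3y_, hk0, hkd, hks, hk2⟩, hk⟩

noncomputable def coreB (K : KB) (z0 be w0 R : AA) (k : FE → Bool) : Bool :=
  KB.rec (fun Kc0x Kc0y Kc1x Kc1y Kc2x Kc2y Kc3x Kc3y Kd0 Kd1 Kd2 Kd3 Ke0x Ke0y Ke1x Ke1y =>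
  nrm2 (add2 one2 (neg2 (up2 R))) fun u =>
  nrm2 (mul2 u u) fun U =>
  nrm2 (add2 (up2 be) (mul2 be R)) fun S =>
  nrm2 (mul2 S S) fun SS =>
  nrm2 (neg2 (up2 w0)) fun z1 =>
  nrm2 (mul2 w0 w0) fun zz2 =>
  nrm2 (mul2 U z0) fun Uz =>
  nrm2 (mul2 R zz2) fun Rz =>
  nrm2 (add2 (mul2 Uz z0) (sm2 2 (up2 Rz))) fun zz0 =>
  nrm2 (sm2 2 (mul2 z0 z1)) fun zz1 =>
  nrm2 (mul2 S z0) fun Sz0 =>
  nrm2 (mul2 S z1) fun Sz1 =>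
  nrm2 (mul2 U zz1) fun Uzz =>
  nrm2 (add2 (add2 (mulK Kc0x SS) (mulK Kc1x Sz0)) (mulK Kc2x zz0)) fun q0x =>
  nrm2 (add2 (mulK Kc1x Sz1) (mulK Kc2x Uzz)) fun q1x =>
  nrm2 (mulK Kc2x zz2) fun q2x =>
  nrm2 (add2 (mulK Ke0x S) (mulK Ke1x Uz)) fun l0x =>
  nrm2 (mulK Ke1x z1) fun l1x =>
  nrm2 (add2 (add2 (mulK Kc0y SS) (mulK Kc1y Sz0)) (mulK Kc2y zz0)) fun q0y =>
  nrm2 (add2 (mulK Kc1y Sz1) (mulK Kc2y Uzz)) fun q1y =>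
  nrm2 (mulK Kc2y zz2) fun q2y =>
  nrm2 (add2 (mulK Ke0y S) (mulK Ke1y Uz)) fun l0y =>
  nrm2 (mulK Ke1y z1) fun l1y =>
  nrm2 one2 fun one =>
  nrm2 (mulK Kc3x one) fun c3x_ =>
  nrm2 (mulK Kc3y one) fun c3y_ =>
  nrm2 (add2 (mulK Kd0 SS) (mulK Kd1 zz0)) fun A =>
  nrm2 (add2 (mulK Kd2 SS) (mulK Kd3 zz0)) fun B =>
  nrm2 (mulK Kd3 z1) fun C =>
  nrm2 (add2 (mulK Kd1 S) (mulK Kd3 Uz)) fun E =>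
  nrm2 (mul2 C Uzz) fun CU =>
  nrm2 (add2 (add2 (mul2 S A) (mul2 Uz B)) (sm2 2 (mul2 R CU))) fun k0 =>
  nrm2 (add2 (mul2 E zz1) (mul2 z1 B)) fun kd =>
  nrm2 (add2 (up2 kd) (sm2 2 (mul2 C Rz))) fun ks =>
  nrm2 (add2 (mul2 E zz2) (up2 CU)) fun k2 =>
  k ⟨w0, z0, be, R, U, q0x, q0y, q1x, q1y, q2x, q2y, l0x, l0y, l1x, l1y, c3x_, c3y_, k0, kd, ks, k2⟩) K

noncomputable def coreBr (K : RB) (z0 be w0 R : ℝ) : FR :=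
  let u : ℝ := ((1 : ℝ) + (-R))
  let U : ℝ := (u * u)
  let S : ℝ := (be + (be * R))
  let SS : ℝ := (S * S)
  let z1 : ℝ := (-w0)
  let zz2 : ℝ := (w0 * w0)
  let Uz : ℝ := (U * z0)
  let Rz : ℝ := (R * zz2)
  let zz0 : ℝ := ((Uz * z0) + (((2 : ℕ) : ℝ) * Rz))
  let zz1 : ℝ := (((2 : ℕ) : ℝ) * (z0 * z1))
  let Sz0 : ℝ := (S * z0)
  let Sz1 : ℝ := (S * z1)
  let Uzz : ℝ := (U * zz1)
  let q0x : ℝ := (((K.c0x * SS) + (K.c1x * Sz0)) + (K.c2x * zz0))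
  let q1x : ℝ := ((K.c1x * Sz1) + (K.c2x * Uzz))
  let q2x : ℝ := (K.c2x * zz2)
  let l0x : ℝ := ((K.e0x * S) + (K.e1x * Uz))
  let l1x : ℝ := (K.e1x * z1)
  let q0y : ℝ := (((K.c0y * SS) + (K.c1y * Sz0)) + (K.c2y * zz0))
  let q1y : ℝ := ((K.c1y * Sz1) + (K.c2y * Uzz))
  let q2y : ℝ := (K.c2y * zz2)
  let l0y : ℝ := ((K.e0y * S) + (K.e1y * Uz))
  let l1y : ℝ := (K.e1y * z1)
  let one : ℝ := (1 : ℝ)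
  let c3x_ : ℝ := (K.c3x * one)
  let c3y_ : ℝ := (K.c3y * one)
  let A : ℝ := ((K.d0 * SS) + (K.d1 * zz0))
  let B : ℝ := ((K.d2 * SS) + (K.d3 * zz0))
  let C : ℝ := (K.d3 * z1)
  let E : ℝ := ((K.d1 * S) + (K.d3 * Uz))
  let CU : ℝ := (C * Uzz)
  let k0 : ℝ := (((S * A) + (Uz * B)) + (((2 : ℕ) : ℝ) * (R * CU)))
  let kd : ℝ := ((E * zz1) + (z1 * B))
  let ks : ℝ := (kd + (((2 : ℕ) : ℝ) * (C * Rz)))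
  let k2 : ℝ := ((E * zz2) + CU)
  ⟨w0, z0, be, R, U, q0x, q0y, q1x, q1y, q2x, q2y, l0x, l0y, l1x, l1y, c3x_, c3y_, k0, kd, ks, k2⟩

theorem coreB_ok {t1 t2 : ℝ} {K : KB} {r : RB} {z0 be w0 R : AA} {z0r ber w0r Rr : ℝ}
    {k : FE → Bool} (h1 : |t1| ≤ 1) (h2 : |t2| ≤ 1) (hK : IsKB K r)
    (hz0 : Has t1 t2 0 z0 z0r)
    (hbe : Has t1 t2 0 be ber)
    (hw0 : Has t1 t2 0 w0 w0r)
    (hR : Has t1 t2 0 R Rr)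
    (hk : coreB K z0 be w0 R k = true) :
    ∃ F, HF t1 t2 F (coreBr r z0r ber w0r Rr) ∧ k F = true := by
  obtain ⟨Kc0x, Kc0y, Kc1x, Kc1y, Kc2x, Kc2y, Kc3x, Kc3y, Kd0, Kd1, Kd2, Kd3, Ke0x, Ke0y, Ke1x, Ke1y⟩ := K
  obtain ⟨hKc0x, hKc0y, hKc1x, hKc1y, hKc2x, hKc2y, hKc3x, hKc3y, hKd0, hKd1, hKd2, hKd3, hKe0x, hKe0y, hKe1x, hKe1y⟩ := hK
  unfold coreB at hk
  obtain ⟨u, hu, hk⟩ := nrm2_ok h1 h2 (H2.add (H2.one t1 t2) (H2.neg (H2.up hR))) (by decide) hk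
  obtain ⟨U, hU, hk⟩ := nrm2_ok h1 h2 (H2.mul hu hu) (by decide) hk
  obtain ⟨S, hS, hk⟩ := nrm2_ok h1 h2 (H2.add (H2.up hbe) (H2.mul hbe hR)) (by decide) hk
  obtain ⟨SS, hSS, hk⟩ := nrm2_ok h1 h2 (H2.mul hS hS) (by decide) hk
  obtain ⟨z1, hz1, hk⟩ := nrm2_ok h1 h2 (H2.neg (H2.up hw0)) (by decide) hk
  obtain ⟨zz2, hzz2, hk⟩ := nrm2_ok h1 h2 (H2.mul hw0 hw0) (by decide) hk
  obtain ⟨Uz, hUz, hk⟩ := nrm2_ok h1 h2 (H2.mul hU hz0) (by decide) hk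
  obtain ⟨Rz, hRz, hk⟩ := nrm2_ok h1 h2 (H2.mul hR hzz2) (by decide) hk
  obtain ⟨zz0, hzz0, hk⟩ := nrm2_ok h1 h2 (H2.add (H2.mul hUz hz0) (H2.sm 2 (H2.up hRz))) (by decide) hk
  obtain ⟨zz1, hzz1, hk⟩ := nrm2_ok h1 h2 (H2.sm 2 (H2.mul hz0 hz1)) (by decide) hk
  obtain ⟨Sz0, hSz0, hk⟩ := nrm2_ok h1 h2 (H2.mul hS hz0) (by decide) hk
  obtain ⟨Sz1, hSz1, hk⟩ := nrm2_ok h1 h2 (H2.mul hS hz1) (by decide) hk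
  obtain ⟨Uzz, hUzz, hk⟩ := nrm2_ok h1 h2 (H2.mul hU hzz1) (by decide) hk
  obtain ⟨q0x, hq0x, hk⟩ := nrm2_ok h1 h2 (H2.add (H2.add (H2.mk' hKc0x hSS) (H2.mk' hKc1x hSz0)) (H2.mk' hKc2x hzz0)) (by decide) hk
  obtain ⟨q1x, hq1x, hk⟩ := nrm2_ok h1 h2 (H2.add (H2.mk' hKc1x hSz1) (H2.mk' hKc2x hUzz)) (by decide) hk
  obtain ⟨q2x, hq2x, hk⟩ := nrm2_ok h1 h2 (H2.mk' hKc2x hzz2) (by decide) hk
  obtain ⟨l0x, hl0x, hk⟩ := nrm2_ok h1 h2 (H2.add (H2.mk' hKe0x hS) (H2.mk' hKe1x hUz)) (by decide) hk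
  obtain ⟨l1x, hl1x, hk⟩ := nrm2_ok h1 h2 (H2.mk' hKe1x hz1) (by decide) hk
  obtain ⟨q0y, hq0y, hk⟩ := nrm2_ok h1 h2 (H2.add (H2.add (H2.mk' hKc0y hSS) (H2.mk' hKc1y hSz0)) (H2.mk' hKc2y hzz0)) (by decide) hk
  obtain ⟨q1y, hq1y, hk⟩ := nrm2_ok h1 h2 (H2.add (H2.mk' hKc1y hSz1) (H2.mk' hKc2y hUzz)) (by decide) hk
  obtain ⟨q2y, hq2y, hk⟩ := nrm2_ok h1 h2 (H2.mk' hKc2y hzz2) (by decide) hk
  obtain ⟨l0y, hl0y, hk⟩ := nrm2_ok h1 h2 (H2.add (H2.mk' hKe0y hS) (H2.mk' hKe1y hUz)) (by decide) hk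
  obtain ⟨l1y, hl1y, hk⟩ := nrm2_ok h1 h2 (H2.mk' hKe1y hz1) (by decide) hk
  obtain ⟨one, hone, hk⟩ := nrm2_ok h1 h2 (H2.one t1 t2) (by decide) hk
  obtain ⟨c3x_, hc3x_, hk⟩ := nrm2_ok h1 h2 (H2.mk' hKc3x hone) (by decide) hk
  obtain ⟨c3y_, hc3y_, hk⟩ := nrm2_ok h1 h2 (H2.mk' hKc3y hone) (by decide) hk
  obtain ⟨A, hA, hk⟩ := nrm2_ok h1 h2 (H2.add (H2.mk' hKd0 hSS) (H2.mk' hKd1 hzz0)) (by decide) hk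
  obtain ⟨B, hB, hk⟩ := nrm2_ok h1 h2 (H2.add (H2.mk' hKd2 hSS) (H2.mk' hKd3 hzz0)) (by decide) hk
  obtain ⟨C, hC, hk⟩ := nrm2_ok h1 h2 (H2.mk' hKd3 hz1) (by decide) hk
  obtain ⟨E, hE, hk⟩ := nrm2_ok h1 h2 (H2.add (H2.mk' hKd1 hS) (H2.mk' hKd3 hUz)) (by decide) hk
  obtain ⟨CU, hCU, hk⟩ := nrm2_ok h1 h2 (H2.mul hC hUzz) (by decide) hk
  obtain ⟨k0, hk0, hk⟩ := nrm2_ok h1 h2 (H2.add (H2.add (H2.mul hS hA) (H2.mul hUz hB)) (H2.sm 2 (H2.mul hR hCU))) (by decide) hk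
  obtain ⟨kd, hkd, hk⟩ := nrm2_ok h1 h2 (H2.add (H2.mul hE hzz1) (H2.mul hz1 hB)) (by decide) hk
  obtain ⟨ks, hks, hk⟩ := nrm2_ok h1 h2 (H2.add (H2.up hkd) (H2.sm 2 (H2.mul hC hRz))) (by decide) hk
  obtain ⟨k2, hk2, hk⟩ := nrm2_ok h1 h2 (H2.add (H2.mul hE hzz2) (H2.up hCU)) (by decide) hk
  exact ⟨_, ⟨hw0, hz0, hbe, hR, hU, hq0x, hq0y, hq1x, hq1y, hq2x, hq2y, hl0x, hl0y, hl1x, hl1y, hc3x_, hc3y_, hk0, hkd, hks, hk2⟩, hk⟩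

noncomputable def ch1 (K : KA) (rr x y : AA) (k : FE → Bool) : Bool :=
  nrm2 one2 fun one =>
  nrm2 (mul2 y x) fun Ks =>
  nrm2 (mul2 rr Ks) fun rK =>
  nrm2 (add2 (mul2 x x) (up2 rr)) fun P0 =>
  nrm2 (add2 one2 (mul2 rK Ks)) fun Q0 =>
  nrm2 (neg2 (up2 Ks)) fun Q1 =>
  nrm2 (sm2 2 (add2 (up2 x) (neg2 (up2 rK)))) fun w0 =>
  nrm2 (add2 one2 (neg2 (mul2 Ks x))) fun al =>
  nrm2 (add2 one2 (mul2 Ks x)) fun be =>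
  coreA K P0 x Q0 Q1 w0 al be rr one one k

noncomputable def ch1r (K : RA) (rr x y : ℝ) : FR :=
  let one : ℝ := (1 : ℝ)
  let Ks : ℝ := (y * x)
  let rK : ℝ := (rr * Ks)
  let P0 : ℝ := ((x * x) + rr)
  let Q0 : ℝ := ((1 : ℝ) + (rK * Ks))
  let Q1 : ℝ := (-Ks)
  let w0 : ℝ := (((2 : ℕ) : ℝ) * (x + (-rK)))
  let al : ℝ := ((1 : ℝ) + (-(Ks * x)))
  let be : ℝ := ((1 : ℝ) + (Ks * x))
  coreAr K P0 x Q0 Q1 w0 al be rr one one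

theorem ch1_ok {t1 t2 : ℝ} {K : KA} {r : RA} {rr x y : AA} {rrr xr yr : ℝ}
    {k : FE → Bool} (h1 : |t1| ≤ 1) (h2 : |t2| ≤ 1) (hK : IsKA K r)
    (hrr : Has t1 t2 0 rr rrr)
    (hx : Has t1 t2 0 x xr) (hy : Has t1 t2 0 y yr) (hk : ch1 K rr x y k = true) :
    ∃ F, HF t1 t2 F (ch1r r rrr xr yr) ∧ k F = true := by
  unfold ch1 at hk
  obtain ⟨one, hone, hk⟩ := nrm2_ok h1 h2 (H2.one t1 t2) (by decide) hk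
  obtain ⟨Ks, hKs, hk⟩ := nrm2_ok h1 h2 (H2.mul hy hx) (by decide) hk
  obtain ⟨rK, hrK, hk⟩ := nrm2_ok h1 h2 (H2.mul hrr hKs) (by decide) hk
  obtain ⟨P0, hP0, hk⟩ := nrm2_ok h1 h2 (H2.add (H2.mul hx hx) (H2.up hrr)) (by decide) hk
  obtain ⟨Q0, hQ0, hk⟩ := nrm2_ok h1 h2 (H2.add (H2.one t1 t2) (H2.mul hrK hKs)) (by decide) hk
  obtain ⟨Q1, hQ1, hk⟩ := nrm2_ok h1 h2 (H2.neg (H2.up hKs)) (by decide) hk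
  obtain ⟨w0, hw0, hk⟩ := nrm2_ok h1 h2 (H2.sm 2 (H2.add (H2.up hx) (H2.neg (H2.up hrK)))) (by decide) hk
  obtain ⟨al, hal, hk⟩ := nrm2_ok h1 h2 (H2.add (H2.one t1 t2) (H2.neg (H2.mul hKs hx))) (by decide) hk
  obtain ⟨be, hbe, hk⟩ := nrm2_ok h1 h2 (H2.add (H2.one t1 t2) (H2.mul hKs hx)) (by decide) hk
  exact coreA_ok h1 h2 hK hP0 hx hQ0 hQ1 hw0 hal hbe hrr hone hone hk

noncomputable def ch2 (K : KA) (rr x y : AA) (k : FE → Bool) : Bool :=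
  nrm2 one2 fun one =>
  nrm2 (mul2 rr y) fun R =>
  nrm2 (mul2 R x) fun Rk =>
  nrm2 (add2 one2 (up2 R)) fun P0 =>
  nrm2 (add2 one2 (mul2 Rk x)) fun t =>
  nrm2 (mul2 y t) fun Q0 =>
  nrm2 (neg2 (mul2 y x)) fun Q1 =>
  nrm2 (sm2 2 (add2 one2 (neg2 (up2 Rk)))) fun w0 =>
  nrm2 (add2 one2 (neg2 (up2 x))) fun al =>
  nrm2 (add2 one2 (up2 x)) fun be =>
  coreA K P0 one Q0 Q1 w0 al be R y one k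

noncomputable def ch2r (K : RA) (rr x y : ℝ) : FR :=
  let one : ℝ := (1 : ℝ)
  let R : ℝ := (rr * y)
  let Rk : ℝ := (R * x)
  let P0 : ℝ := ((1 : ℝ) + R)
  let t : ℝ := ((1 : ℝ) + (Rk * x))
  let Q0 : ℝ := (y * t)
  let Q1 : ℝ := (-(y * x))
  let w0 : ℝ := (((2 : ℕ) : ℝ) * ((1 : ℝ) + (-Rk)))
  let al : ℝ := ((1 : ℝ) + (-x))
  let be : ℝ := ((1 : ℝ) + x)
  coreAr K P0 one Q0 Q1 w0 al be R y one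

theorem ch2_ok {t1 t2 : ℝ} {K : KA} {r : RA} {rr x y : AA} {rrr xr yr : ℝ}
    {k : FE → Bool} (h1 : |t1| ≤ 1) (h2 : |t2| ≤ 1) (hK : IsKA K r)
    (hrr : Has t1 t2 0 rr rrr)
    (hx : Has t1 t2 0 x xr) (hy : Has t1 t2 0 y yr) (hk : ch2 K rr x y k = true) :
    ∃ F, HF t1 t2 F (ch2r r rrr xr yr) ∧ k F = true := by
  unfold ch2 at hk
  obtain ⟨one, hone, hk⟩ := nrm2_ok h1 h2 (H2.one t1 t2) (by decide) hk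
  obtain ⟨R, hR, hk⟩ := nrm2_ok h1 h2 (H2.mul hrr hy) (by decide) hk
  obtain ⟨Rk, hRk, hk⟩ := nrm2_ok h1 h2 (H2.mul hR hx) (by decide) hk
  obtain ⟨P0, hP0, hk⟩ := nrm2_ok h1 h2 (H2.add (H2.one t1 t2) (H2.up hR)) (by decide) hk
  obtain ⟨t, ht, hk⟩ := nrm2_ok h1 h2 (H2.add (H2.one t1 t2) (H2.mul hRk hx)) (by decide) hk
  obtain ⟨Q0, hQ0, hk⟩ := nrm2_ok h1 h2 (H2.mul hy ht) (by decide) hk
  obtain ⟨Q1, hQ1, hk⟩ := nrm2_ok h1 h2 (H2.neg (H2.mul hy hx)) (by decide) hk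
  obtain ⟨w0, hw0, hk⟩ := nrm2_ok h1 h2 (H2.sm 2 (H2.add (H2.one t1 t2) (H2.neg (H2.up hRk)))) (by decide) hk
  obtain ⟨al, hal, hk⟩ := nrm2_ok h1 h2 (H2.add (H2.one t1 t2) (H2.neg (H2.up hx))) (by decide) hk
  obtain ⟨be, hbe, hk⟩ := nrm2_ok h1 h2 (H2.add (H2.one t1 t2) (H2.up hx)) (by decide) hk
  exact coreA_ok h1 h2 hK hP0 hone hQ0 hQ1 hw0 hal hbe hR hy hone hk

noncomputable def ch3 (K : KA) (rr x y : AA) (k : FE → Bool) : Bool :=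
  nrm2 one2 fun one =>
  nrm2 (mul2 rr y) fun R =>
  nrm2 (mul2 x x) fun ss =>
  nrm2 (add2 one2 (mul2 R ss)) fun P0 =>
  nrm2 (add2 (up2 ss) (up2 R)) fun t =>
  nrm2 (mul2 y t) fun Q0 =>
  nrm2 (neg2 (mul2 y x)) fun Q1 =>
  nrm2 (sm2 2 (add2 (up2 x) (neg2 (mul2 R x)))) fun w0 =>
  nrm2 (add2 (up2 ss) (neg2 one2)) fun al =>
  nrm2 (add2 (up2 ss) one2) fun be =>
  coreA K P0 x Q0 Q1 w0 al be R y one k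

noncomputable def ch3r (K : RA) (rr x y : ℝ) : FR :=
  let one : ℝ := (1 : ℝ)
  let R : ℝ := (rr * y)
  let ss : ℝ := (x * x)
  let P0 : ℝ := ((1 : ℝ) + (R * ss))
  let t : ℝ := (ss + R)
  let Q0 : ℝ := (y * t)
  let Q1 : ℝ := (-(y * x))
  let w0 : ℝ := (((2 : ℕ) : ℝ) * (x + (-(R * x))))
  let al : ℝ := (ss + (-(1 : ℝ)))
  let be : ℝ := (ss + (1 : ℝ))
  coreAr K P0 x Q0 Q1 w0 al be R y one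

theorem ch3_ok {t1 t2 : ℝ} {K : KA} {r : RA} {rr x y : AA} {rrr xr yr : ℝ}
    {k : FE → Bool} (h1 : |t1| ≤ 1) (h2 : |t2| ≤ 1) (hK : IsKA K r)
    (hrr : Has t1 t2 0 rr rrr)
    (hx : Has t1 t2 0 x xr) (hy : Has t1 t2 0 y yr) (hk : ch3 K rr x y k = true) :
    ∃ F, HF t1 t2 F (ch3r r rrr xr yr) ∧ k F = true := by
  unfold ch3 at hk
  obtain ⟨one, hone, hk⟩ := nrm2_ok h1 h2 (H2.one t1 t2) (by decide) hk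
  obtain ⟨R, hR, hk⟩ := nrm2_ok h1 h2 (H2.mul hrr hy) (by decide) hk
  obtain ⟨ss, hss, hk⟩ := nrm2_ok h1 h2 (H2.mul hx hx) (by decide) hk
  obtain ⟨P0, hP0, hk⟩ := nrm2_ok h1 h2 (H2.add (H2.one t1 t2) (H2.mul hR hss)) (by decide) hk
  obtain ⟨t, ht, hk⟩ := nrm2_ok h1 h2 (H2.add (H2.up hss) (H2.up hR)) (by decide) hk
  obtain ⟨Q0, hQ0, hk⟩ := nrm2_ok h1 h2 (H2.mul hy ht) (by decide) hk
  obtain ⟨Q1, hQ1, hk⟩ := nrm2_ok h1 h2 (H2.neg (H2.mul hy hx)) (by decide) hk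
  obtain ⟨w0, hw0, hk⟩ := nrm2_ok h1 h2 (H2.sm 2 (H2.add (H2.up hx) (H2.neg (H2.mul hR hx)))) (by decide) hk
  obtain ⟨al, hal, hk⟩ := nrm2_ok h1 h2 (H2.add (H2.up hss) (H2.neg (H2.one t1 t2))) (by decide) hk
  obtain ⟨be, hbe, hk⟩ := nrm2_ok h1 h2 (H2.add (H2.up hss) (H2.one t1 t2)) (by decide) hk
  exact coreA_ok h1 h2 hK hP0 hx hQ0 hQ1 hw0 hal hbe hR hy hone hk

noncomputable def ch4 (K : KB) (x y : AA) (k : FE → Bool) : Bool :=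
  nrm2 (add2 one2 (neg2 (mul2 x x))) fun z0 =>
  nrm2 (add2 one2 (mul2 x x)) fun be =>
  nrm2 (sm2 2 (up2 x)) fun w0 =>
  coreB K z0 be w0 y k

noncomputable def ch4r (K : RB) (x y : ℝ) : FR :=
  let z0 : ℝ := ((1 : ℝ) + (-(x * x)))
  let be : ℝ := ((1 : ℝ) + (x * x))
  let w0 : ℝ := (((2 : ℕ) : ℝ) * x)
  coreBr K z0 be w0 y

theorem ch4_ok {t1 t2 : ℝ} {K : KB} {r : RB} {x y : AA} {xr yr : ℝ}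
    {k : FE → Bool} (h1 : |t1| ≤ 1) (h2 : |t2| ≤ 1) (hK : IsKB K r)
    (hx : Has t1 t2 0 x xr) (hy : Has t1 t2 0 y yr) (hk : ch4 K x y k = true) :
    ∃ F, HF t1 t2 F (ch4r r xr yr) ∧ k F = true := by
  unfold ch4 at hk
  obtain ⟨z0, hz0, hk⟩ := nrm2_ok h1 h2 (H2.add (H2.one t1 t2) (H2.neg (H2.mul hx hx))) (by decide) hk
  obtain ⟨be, hbe, hk⟩ := nrm2_ok h1 h2 (H2.add (H2.one t1 t2) (H2.mul hx hx)) (by decide) hk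
  obtain ⟨w0, hw0, hk⟩ := nrm2_ok h1 h2 (H2.sm 2 (H2.up hx)) (by decide) hk
  exact coreB_ok h1 h2 hK hz0 hbe hw0 hy hk

noncomputable def ch5 (K : KB) (x y : AA) (k : FE → Bool) : Bool :=
  nrm2 (add2 (mul2 x x) (neg2 one2)) fun z0 =>
  nrm2 (add2 one2 (mul2 x x)) fun be =>
  nrm2 (sm2 2 (up2 x)) fun w0 =>
  coreB K z0 be w0 y k

noncomputable def ch5r (K : RB) (x y : ℝ) : FR :=
  let z0 : ℝ := ((x * x) + (-(1 : ℝ)))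
  let be : ℝ := ((1 : ℝ) + (x * x))
  let w0 : ℝ := (((2 : ℕ) : ℝ) * x)
  coreBr K z0 be w0 y

theorem ch5_ok {t1 t2 : ℝ} {K : KB} {r : RB} {x y : AA} {xr yr : ℝ}
    {k : FE → Bool} (h1 : |t1| ≤ 1) (h2 : |t2| ≤ 1) (hK : IsKB K r)
    (hx : Has t1 t2 0 x xr) (hy : Has t1 t2 0 y yr) (hk : ch5 K x y k = true) :
    ∃ F, HF t1 t2 F (ch5r r xr yr) ∧ k F = true := by
  unfold ch5 at hk
  obtain ⟨z0, hz0, hk⟩ := nrm2_ok h1 h2 (H2.add (H2.mul hx hx) (H2.neg (H2.one t1 t2))) (by decide) hk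
  obtain ⟨be, hbe, hk⟩ := nrm2_ok h1 h2 (H2.add (H2.one t1 t2) (H2.mul hx hx)) (by decide) hk
  obtain ⟨w0, hw0, hk⟩ := nrm2_ok h1 h2 (H2.sm 2 (H2.up hx)) (by decide) hk
  exact coreB_ok h1 h2 hK hz0 hbe hw0 hy hk

noncomputable def mid (F : FE) (k : CL → Bool) : Bool :=
  FE.rec (fun w0 al be R U q0x q0y q1x q1y q2x q2y l0x l0y l1x l1y c3x c3y k0 kd ks k2 =>
  nrm2 (mul2 U w0) fun Uw =>
  nrm2 (mul2 R al) fun Ra =>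
  nrm2 (mul2 R be) fun Rb =>
  nrm2 (mul2 Uw w0) fun ww =>
  nrm2 (mul2 al be) fun ab =>
  nrm2 (add2 (mul2 al al) (mul2 be be)) fun S2 =>
  nrm2 (mul2 Ra al) fun Raa =>
  nrm2 (mul2 Rb be) fun Rbb =>
  nrm2 (sm2 2 (mul2 w0 al)) fun wa =>
  nrm2 (sm2 2 (mul2 w0 be)) fun wb =>
  nrm2 (sm2 2 (mul2 Uw al)) fun Ua =>
  nrm2 (sm2 2 (mul2 Uw be)) fun Ub =>
  nrm2 (sm2 4 (mul2 Uw Ra)) fun URa =>
  nrm2 (sm2 4 (mul2 Ra be)) fun Rab =>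
  nrm2 (add2 (up2 ww) (sm2 2 (add2 (up2 Raa) (neg2 (up2 Rbb))))) fun V =>
  nrm2 (add2 (up2 ww) (sm2 4 (up2 Raa))) fun Vs =>
  nrm2 (add2 (add2 (sm2 3 (up2 ww)) (sm2 2 (up2 Raa))) (neg2 (sm2 6 (up2 Rbb)))) fun i1 =>
  nrm2 (add2 (sm2 3 (up2 ww)) (sm2 4 (up2 Raa))) fun i2 =>
  nrm2 (add2 (add2 (sm2 3 (up2 ww)) (sm2 6 (up2 Raa))) (neg2 (sm2 2 (up2 Rbb)))) fun i3 =>
  nrm2 (add2 (sm2 3 (up2 ww)) (neg2 (sm2 4 (up2 Rbb)))) fun i4 =>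
  nrm2 (add2 (up2 ww) (sm2 6 (add2 (up2 Raa) (neg2 (up2 Rbb))))) fun i5 =>
  nrm2 (mul2 al i1) fun ydp =>
  nrm2 (mul2 al i2) fun ysp =>
  nrm2 (neg2 (mul2 be i3)) fun ydm =>
  nrm2 (neg2 (mul2 be i4)) fun ysm =>
  nrm2 (sm2 3 (mul2 Uw S2)) fun y2p =>
  nrm2 (sm2 3 (mul2 Ua be)) fun y2m =>
  nrm2 (mul2 Uw i5) fun y0 =>
  mk4 (add2 (mul2 Uw q0x) (sm2 2 (mul2 Ra q1x))) (neg2 (add2 (mul2 Uw q0y) (sm2 2 (mul2 Ra q1y)))) (mul2 y0 c3x) (neg2 (mul2 y0 c3y)) fun n0 =>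
  mk4 (add2 (mul2 Uw q2x) (mul2 al q1x)) (neg2 (add2 (mul2 Uw q2y) (mul2 al q1y))) (mul2 y2p c3x) (neg2 (mul2 y2p c3y)) fun n1 =>
  mk4 (mul2 be q1y) (mul2 be q1x) (mul2 y2m c3y) (mul2 y2m c3x) fun n2 =>
  mk4 (add2 (mul2 w0 q1x) (mul2 al q0x)) (neg2 (add2 (mul2 w0 q1y) (mul2 al q0y))) (mul2 ydp c3x) (neg2 (mul2 ydp c3y)) fun n3 =>
  mk4 (neg2 (mul2 be q0y)) (neg2 (mul2 be q0x)) (mul2 ydm c3y) (mul2 ydm c3x) fun n4 =>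
  mk4 (add2 (add2 (mul2 w0 q1x) (mul2 al q0x)) (sm2 2 (mul2 Ra q2x))) (neg2 (add2 (add2 (mul2 w0 q1y) (mul2 al q0y)) (sm2 2 (mul2 Ra q2y)))) (mul2 ysp c3x) (neg2 (mul2 ysp c3y)) fun n5 =>
  mk4 (add2 (neg2 (mul2 be q0y)) (sm2 2 (mul2 Rb q2y))) (add2 (neg2 (mul2 be q0x)) (sm2 2 (mul2 Rb q2x))) (mul2 ysm c3y) (mul2 ysm c3x) fun n6 =>
  mk3 (add2 (mul2 V l0x) (mul2 URa l1x)) (neg2 (add2 (mul2 V l0y) (mul2 URa l1y))) (up2 k0) fun d0 =>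
  mk3 (add2 (mul2 S2 l0x) (mul2 Ua l1x)) (neg2 (add2 (mul2 S2 l0y) (mul2 Ua l1y))) (up2 k2) fun d1 =>
  mk2 (add2 (sm2 2 (mul2 ab l0y)) (mul2 Ub l1y)) (add2 (sm2 2 (mul2 ab l0x)) (mul2 Ub l1x)) fun d2 =>
  mk3 (add2 (mul2 wa l0x) (mul2 V l1x)) (neg2 (add2 (mul2 wa l0y) (mul2 V l1y))) (up2 kd) fun d3 =>
  mk2 (neg2 (add2 (mul2 wb l0y) (mul2 Rab l1y))) (neg2 (add2 (mul2 wb l0x) (mul2 Rab l1x))) fun d4 =>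
  mk3 (add2 (mul2 wa l0x) (mul2 Vs l1x)) (neg2 (add2 (mul2 wa l0y) (mul2 Vs l1y))) (up2 ks) fun d5 =>
  mk2 (neg2 (mul2 wb l0y)) (neg2 (mul2 wb l0x)) fun d6 =>
  k ⟨n0, n1, n2, n3, n4, n5, n6, d0, d1, d2, d3, d4, d5, d6⟩) F

noncomputable def midr (F : FR) : CR :=
  let w0 := F.w0
  let al := F.al
  let be := F.be
  let R := F.R
  let U := F.U
  let q0x := F.q0x
  let q0y := F.q0y
  let q1x := F.q1x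
  let q1y := F.q1y
  let q2x := F.q2x
  let q2y := F.q2y
  let l0x := F.l0x
  let l0y := F.l0y
  let l1x := F.l1x
  let l1y := F.l1y
  let c3x := F.c3x
  let c3y := F.c3y
  let k0 := F.k0
  let kd := F.kd
  let ks := F.ks
  let k2 := F.k2
  let Uw : ℝ := (U * w0)
  let Ra : ℝ := (R * al)
  let Rb : ℝ := (R * be)
  let ww : ℝ := (Uw * w0)
  let ab : ℝ := (al * be)
  let S2 : ℝ := ((al * al) + (be * be))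
  let Raa : ℝ := (Ra * al)
  let Rbb : ℝ := (Rb * be)
  let wa : ℝ := (((2 : ℕ) : ℝ) * (w0 * al))
  let wb : ℝ := (((2 : ℕ) : ℝ) * (w0 * be))
  let Ua : ℝ := (((2 : ℕ) : ℝ) * (Uw * al))
  let Ub : ℝ := (((2 : ℕ) : ℝ) * (Uw * be))
  let URa : ℝ := (((4 : ℕ) : ℝ) * (Uw * Ra))
  let Rab : ℝ := (((4 : ℕ) : ℝ) * (Ra * be))
  let V : ℝ := (ww + (((2 : ℕ) : ℝ) * (Raa + (-Rbb))))
  let Vs : ℝ := (ww + (((4 : ℕ) : ℝ) * Raa))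
  let i1 : ℝ := (((((3 : ℕ) : ℝ) * ww) + (((2 : ℕ) : ℝ) * Raa)) + (-(((6 : ℕ) : ℝ) * Rbb)))
  let i2 : ℝ := ((((3 : ℕ) : ℝ) * ww) + (((4 : ℕ) : ℝ) * Raa))
  let i3 : ℝ := (((((3 : ℕ) : ℝ) * ww) + (((6 : ℕ) : ℝ) * Raa)) + (-(((2 : ℕ) : ℝ) * Rbb)))
  let i4 : ℝ := ((((3 : ℕ) : ℝ) * ww) + (-(((4 : ℕ) : ℝ) * Rbb)))
  let i5 : ℝ := (ww + (((6 : ℕ) : ℝ) * (Raa + (-Rbb))))
  let ydp : ℝ := (al * i1)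
  let ysp : ℝ := (al * i2)
  let ydm : ℝ := (-(be * i3))
  let ysm : ℝ := (-(be * i4))
  let y2p : ℝ := (((3 : ℕ) : ℝ) * (Uw * S2))
  let y2m : ℝ := (((3 : ℕ) : ℝ) * (Ua * be))
  let y0 : ℝ := (Uw * i5)
  ⟨⟨((Uw * q0x) + (((2 : ℕ) : ℝ) * (Ra * q1x))), (-((Uw * q0y) + (((2 : ℕ) : ℝ) * (Ra * q1y)))), (y0 * c3x), (-(y0 * c3y))⟩,
   ⟨((Uw * q2x) + (al * q1x)), (-((Uw * q2y) + (al * q1y))), (y2p * c3x), (-(y2p * c3y))⟩,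
   ⟨(be * q1y), (be * q1x), (y2m * c3y), (y2m * c3x)⟩,
   ⟨((w0 * q1x) + (al * q0x)), (-((w0 * q1y) + (al * q0y))), (ydp * c3x), (-(ydp * c3y))⟩,
   ⟨(-(be * q0y)), (-(be * q0x)), (ydm * c3y), (ydm * c3x)⟩,
   ⟨(((w0 * q1x) + (al * q0x)) + (((2 : ℕ) : ℝ) * (Ra * q2x))), (-(((w0 * q1y) + (al * q0y)) + (((2 : ℕ) : ℝ) * (Ra * q2y)))), (ysp * c3x), (-(ysp * c3y))⟩,
   ⟨((-(be * q0y)) + (((2 : ℕ) : ℝ) * (Rb * q2y))), ((-(be * q0x)) + (((2 : ℕ) : ℝ) * (Rb * q2x))), (ysm * c3y), (ysm * c3x)⟩,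
   ⟨((V * l0x) + (URa * l1x)), (-((V * l0y) + (URa * l1y))), k0⟩,
   ⟨((S2 * l0x) + (Ua * l1x)), (-((S2 * l0y) + (Ua * l1y))), k2⟩,
   ⟨((((2 : ℕ) : ℝ) * (ab * l0y)) + (Ub * l1y)), ((((2 : ℕ) : ℝ) * (ab * l0x)) + (Ub * l1x)), 0⟩,
   ⟨((wa * l0x) + (V * l1x)), (-((wa * l0y) + (V * l1y))), kd⟩,
   ⟨(-((wb * l0y) + (Rab * l1y))), (-((wb * l0x) + (Rab * l1x))), 0⟩,
   ⟨((wa * l0x) + (Vs * l1x)), (-((wa * l0y) + (Vs * l1y))), ks⟩,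
   ⟨(-(wb * l0y)), (-(wb * l0x)), 0⟩⟩

theorem mid_ok {t1 t2 : ℝ} {F : FE} {r : FR} {k : CL → Bool} (h1 : |t1| ≤ 1) (h2 : |t2| ≤ 1)
    (hF : HF t1 t2 F r) (hk : mid F k = true) : ∃ c, HC t1 t2 c (midr r) ∧ k c = true := by
  obtain ⟨w0, al, be, R, U, q0x, q0y, q1x, q1y, q2x, q2y, l0x, l0y, l1x, l1y, c3x, c3y, k0, kd, ks, k2⟩ := F
  obtain ⟨hw0, hal, hbe, hR, hU, hq0x, hq0y, hq1x, hq1y, hq2x, hq2y, hl0x, hl0y, hl1x, hl1y, hc3x, hc3y, hk0, hkd, hks, hk2⟩ := hF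
  unfold mid at hk
  obtain ⟨Uw, hUw, hk⟩ := nrm2_ok h1 h2 (H2.mul hU hw0) (by decide) hk
  obtain ⟨Ra, hRa, hk⟩ := nrm2_ok h1 h2 (H2.mul hR hal) (by decide) hk
  obtain ⟨Rb, hRb, hk⟩ := nrm2_ok h1 h2 (H2.mul hR hbe) (by decide) hk
  obtain ⟨ww, hww, hk⟩ := nrm2_ok h1 h2 (H2.mul hUw hw0) (by decide) hk
  obtain ⟨ab, hab, hk⟩ := nrm2_ok h1 h2 (H2.mul hal hbe) (by decide) hk
  obtain ⟨S2, hS2, hk⟩ := nrm2_ok h1 h2 (H2.add (H2.mul hal hal) (H2.mul hbe hbe)) (by decide) hk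
  obtain ⟨Raa, hRaa, hk⟩ := nrm2_ok h1 h2 (H2.mul hRa hal) (by decide) hk
  obtain ⟨Rbb, hRbb, hk⟩ := nrm2_ok h1 h2 (H2.mul hRb hbe) (by decide) hk
  obtain ⟨wa, hwa, hk⟩ := nrm2_ok h1 h2 (H2.sm 2 (H2.mul hw0 hal)) (by decide) hk
  obtain ⟨wb, hwb, hk⟩ := nrm2_ok h1 h2 (H2.sm 2 (H2.mul hw0 hbe)) (by decide) hk
  obtain ⟨Ua, hUa, hk⟩ := nrm2_ok h1 h2 (H2.sm 2 (H2.mul hUw hal)) (by decide) hk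
  obtain ⟨Ub, hUb, hk⟩ := nrm2_ok h1 h2 (H2.sm 2 (H2.mul hUw hbe)) (by decide) hk
  obtain ⟨URa, hURa, hk⟩ := nrm2_ok h1 h2 (H2.sm 4 (H2.mul hUw hRa)) (by decide) hk
  obtain ⟨Rab, hRab, hk⟩ := nrm2_ok h1 h2 (H2.sm 4 (H2.mul hRa hbe)) (by decide) hk
  obtain ⟨V, hV, hk⟩ := nrm2_ok h1 h2 (H2.add (H2.up hww) (H2.sm 2 (H2.add (H2.up hRaa) (H2.neg (H2.up hRbb))))) (by decide) hk
  obtain ⟨Vs, hVs, hk⟩ := nrm2_ok h1 h2 (H2.add (H2.up hww) (H2.sm 4 (H2.up hRaa))) (by decide) hk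
  obtain ⟨i1, hi1, hk⟩ := nrm2_ok h1 h2 (H2.add (H2.add (H2.sm 3 (H2.up hww)) (H2.sm 2 (H2.up hRaa))) (H2.neg (H2.sm 6 (H2.up hRbb)))) (by decide) hk
  obtain ⟨i2, hi2, hk⟩ := nrm2_ok h1 h2 (H2.add (H2.sm 3 (H2.up hww)) (H2.sm 4 (H2.up hRaa))) (by decide) hk
  obtain ⟨i3, hi3, hk⟩ := nrm2_ok h1 h2 (H2.add (H2.add (H2.sm 3 (H2.up hww)) (H2.sm 6 (H2.up hRaa))) (H2.neg (H2.sm 2 (H2.up hRbb)))) (by decide) hk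
  obtain ⟨i4, hi4, hk⟩ := nrm2_ok h1 h2 (H2.add (H2.sm 3 (H2.up hww)) (H2.neg (H2.sm 4 (H2.up hRbb)))) (by decide) hk
  obtain ⟨i5, hi5, hk⟩ := nrm2_ok h1 h2 (H2.add (H2.up hww) (H2.sm 6 (H2.add (H2.up hRaa) (H2.neg (H2.up hRbb))))) (by decide) hk
  obtain ⟨ydp, hydp, hk⟩ := nrm2_ok h1 h2 (H2.mul hal hi1) (by decide) hk
  obtain ⟨ysp, hysp, hk⟩ := nrm2_ok h1 h2 (H2.mul hal hi2) (by decide) hk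
  obtain ⟨ydm, hydm, hk⟩ := nrm2_ok h1 h2 (H2.neg (H2.mul hbe hi3)) (by decide) hk
  obtain ⟨ysm, hysm, hk⟩ := nrm2_ok h1 h2 (H2.neg (H2.mul hbe hi4)) (by decide) hk
  obtain ⟨y2p, hy2p, hk⟩ := nrm2_ok h1 h2 (H2.sm 3 (H2.mul hUw hS2)) (by decide) hk
  obtain ⟨y2m, hy2m, hk⟩ := nrm2_ok h1 h2 (H2.sm 3 (H2.mul hUa hbe)) (by decide) hk
  obtain ⟨y0, hy0, hk⟩ := nrm2_ok h1 h2 (H2.mul hUw hi5) (by decide) hk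
  obtain ⟨n0, a0, hk⟩ := mk4_ok h1 h2 (H2.add (H2.mul hUw hq0x) (H2.sm 2 (H2.mul hRa hq1x))) (H2.neg (H2.add (H2.mul hUw hq0y) (H2.sm 2 (H2.mul hRa hq1y)))) (H2.mul hy0 hc3x) (H2.neg (H2.mul hy0 hc3y)) (by decide) hk
  obtain ⟨n1, a1, hk⟩ := mk4_ok h1 h2 (H2.add (H2.mul hUw hq2x) (H2.mul hal hq1x)) (H2.neg (H2.add (H2.mul hUw hq2y) (H2.mul hal hq1y))) (H2.mul hy2p hc3x) (H2.neg (H2.mul hy2p hc3y)) (by decide) hk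
  obtain ⟨n2, a2, hk⟩ := mk4_ok h1 h2 (H2.mul hbe hq1y) (H2.mul hbe hq1x) (H2.mul hy2m hc3y) (H2.mul hy2m hc3x) (by decide) hk
  obtain ⟨n3, a3, hk⟩ := mk4_ok h1 h2 (H2.add (H2.mul hw0 hq1x) (H2.mul hal hq0x)) (H2.neg (H2.add (H2.mul hw0 hq1y) (H2.mul hal hq0y))) (H2.mul hydp hc3x) (H2.neg (H2.mul hydp hc3y)) (by decide) hk
  obtain ⟨n4, a4, hk⟩ := mk4_ok h1 h2 (H2.neg (H2.mul hbe hq0y)) (H2.neg (H2.mul hbe hq0x)) (H2.mul hydm hc3y) (H2.mul hydm hc3x) (by decide) hk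
  obtain ⟨n5, a5, hk⟩ := mk4_ok h1 h2 (H2.add (H2.add (H2.mul hw0 hq1x) (H2.mul hal hq0x)) (H2.sm 2 (H2.mul hRa hq2x))) (H2.neg (H2.add (H2.add (H2.mul hw0 hq1y) (H2.mul hal hq0y)) (H2.sm 2 (H2.mul hRa hq2y)))) (H2.mul hysp hc3x) (H2.neg (H2.mul hysp hc3y)) (by decide) hk
  obtain ⟨n6, a6, hk⟩ := mk4_ok h1 h2 (H2.add (H2.neg (H2.mul hbe hq0y)) (H2.sm 2 (H2.mul hRb hq2y))) (H2.add (H2.neg (H2.mul hbe hq0x)) (H2.sm 2 (H2.mul hRb hq2x))) (H2.mul hysm hc3y) (H2.mul hysm hc3x) (by decide) hk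
  obtain ⟨d0, b0, hk⟩ := mk3_ok h1 h2 (H2.add (H2.mul hV hl0x) (H2.mul hURa hl1x)) (H2.neg (H2.add (H2.mul hV hl0y) (H2.mul hURa hl1y))) (H2.up hk0) (by decide) hk
  obtain ⟨d1, b1, hk⟩ := mk3_ok h1 h2 (H2.add (H2.mul hS2 hl0x) (H2.mul hUa hl1x)) (H2.neg (H2.add (H2.mul hS2 hl0y) (H2.mul hUa hl1y))) (H2.up hk2) (by decide) hk
  obtain ⟨d2, b2, hk⟩ := mk2_ok h1 h2 (H2.add (H2.sm 2 (H2.mul hab hl0y)) (H2.mul hUb hl1y)) (H2.add (H2.sm 2 (H2.mul hab hl0x)) (H2.mul hUb hl1x)) (by decide) hk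
  obtain ⟨d3, b3, hk⟩ := mk3_ok h1 h2 (H2.add (H2.mul hwa hl0x) (H2.mul hV hl1x)) (H2.neg (H2.add (H2.mul hwa hl0y) (H2.mul hV hl1y))) (H2.up hkd) (by decide) hk
  obtain ⟨d4, b4, hk⟩ := mk2_ok h1 h2 (H2.neg (H2.add (H2.mul hwb hl0y) (H2.mul hRab hl1y))) (H2.neg (H2.add (H2.mul hwb hl0x) (H2.mul hRab hl1x))) (by decide) hk
  obtain ⟨d5, b5, hk⟩ := mk3_ok h1 h2 (H2.add (H2.mul hwa hl0x) (H2.mul hVs hl1x)) (H2.neg (H2.add (H2.mul hwa hl0y) (H2.mul hVs hl1y))) (H2.up hks) (by decide) hk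
  obtain ⟨d6, b6, hk⟩ := mk2_ok h1 h2 (H2.neg (H2.mul hwb hl0y)) (H2.neg (H2.mul hwb hl0x)) (by decide) hk
  exact ⟨_, ⟨⟨a0, a1, a2, a3, a4, a5, a6⟩, b0, b1, b2, b3, b4, b5, b6⟩, hk⟩

noncomputable def posA (A : AA) : Bool :=
  AA.rec (fun c _ _ _ _ _ r =>
    Nat.ble (Nat.add (Nat.add 170141183460469231731687303715884105729 r) 0) (decO c)) A

theorem posA_ok {t1 t2 t3 x : ℝ} {A : AA} (hA : Has t1 t2 t3 A x) (h : posA A = true) : 0 < x := by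
  obtain ⟨C, L1, L2, L3, e, m, r⟩ := A
  obtain ⟨c, l1, l2, l3, r0, r1, r2, r3, m0, b0, b1, b2, b3, hr, he⟩ := hA
  have h' : Nat.ble (Nat.add (Nat.add 170141183460469231731687303715884105729 r) 0) (decO C)
    = true := h
  have h2 := Nat.le_of_ble_eq_true h'
  have d0 : ((decO C : ℕ) : ℤ) = _ := dec0 (w := 1) r0 (by norm_num) (by push_cast; linarith)
  simp only [Nat.add_eq] at h2
  have h3 : (r : ℤ) + 1 ≤ c := by omega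
  have h4 : (r : ℝ) + 1 ≤ c := by exact_mod_cast h3
  have h5 := (abs_le.1 hr).1
  simp only at h5
  linarith

noncomputable def dchk (K : KB) (x y : AA) : Bool :=
  KB.rec (fun _ _ _ _ _ _ _ _ Kd0 Kd1 Kd2 Kd3 Ke0x Ke0y Ke1x Ke1y =>
  nrm2 one2 fun one =>
  nrm2 (add2 (up2 x) (neg2 one2)) fun z =>
  nrm2 (mul2 z z) fun zz =>
  nrm2 (mul2 y z) fun uz =>
  nrm2 (add2 (mulK Kd2 one) (mulK Kd3 zz)) fun A =>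
  nrm2 (add2 (add2 (mulK Kd0 one) (mulK Kd1 zz)) (mul2 uz A)) fun g =>
  nrm2 (add2 (mulK Ke0x one) (mulK Ke1x uz)) fun lx =>
  nrm2 (add2 (mulK Ke0y one) (mulK Ke1y uz)) fun ly =>
  nrm2 (add2 one2 (neg2 (up2 zz))) fun o =>
  nrm2 (mul2 o lx) fun px =>
  nrm2 (mul2 o ly) fun py =>
  nrm2 (add2 (mul2 g g) (neg2 (add2 (mul2 px px) (mul2 py py)))) fun h =>
  Bool.rec false (posA h) (posA g)) K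

def DP (K : RB) (x y : ℝ) : Prop :=
  let one : ℝ := (1 : ℝ)
  let z : ℝ := (x + (-(1 : ℝ)))
  let zz : ℝ := (z * z)
  let uz : ℝ := (y * z)
  let A : ℝ := ((K.d2 * one) + (K.d3 * zz))
  let g : ℝ := (((K.d0 * one) + (K.d1 * zz)) + (uz * A))
  let lx : ℝ := ((K.e0x * one) + (K.e1x * uz))
  let ly : ℝ := ((K.e0y * one) + (K.e1y * uz))
  let o : ℝ := ((1 : ℝ) + (-zz))
  let px : ℝ := (o * lx)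
  let py : ℝ := (o * ly)
  let h : ℝ := ((g * g) + (-((px * px) + (py * py))))
  0 < g ∧ 0 < h

theorem dchk_ok {t1 t2 : ℝ} {K : KB} {r : RB} {x y : AA} {xr yr : ℝ} (h1 : |t1| ≤ 1) (h2 : |t2| ≤ 1)
    (hK : IsKB K r) (hx : Has t1 t2 0 x xr) (hy : Has t1 t2 0 y yr) (hk : dchk K x y = true) :
    DP r xr yr := by
  obtain ⟨Kc0x, Kc0y, Kc1x, Kc1y, Kc2x, Kc2y, Kc3x, Kc3y, Kd0, Kd1, Kd2, Kd3, Ke0x, Ke0y, Ke1x, Ke1y⟩ := K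
  obtain ⟨hKc0x, hKc0y, hKc1x, hKc1y, hKc2x, hKc2y, hKc3x, hKc3y, hKd0, hKd1, hKd2, hKd3, hKe0x, hKe0y, hKe1x, hKe1y⟩ := hK
  unfold dchk at hk
  obtain ⟨one, hone, hk⟩ := nrm2_ok h1 h2 (H2.one t1 t2) (by decide) hk
  obtain ⟨z, hz, hk⟩ := nrm2_ok h1 h2 (H2.add (H2.up hx) (H2.neg (H2.one t1 t2))) (by decide) hk
  obtain ⟨zz, hzz, hk⟩ := nrm2_ok h1 h2 (H2.mul hz hz) (by decide) hk
  obtain ⟨uz, huz, hk⟩ := nrm2_ok h1 h2 (H2.mul hy hz) (by decide) hk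
  obtain ⟨A, hA, hk⟩ := nrm2_ok h1 h2 (H2.add (H2.mk' hKd2 hone) (H2.mk' hKd3 hzz)) (by decide) hk
  obtain ⟨g, hg, hk⟩ := nrm2_ok h1 h2 (H2.add (H2.add (H2.mk' hKd0 hone) (H2.mk' hKd1 hzz)) (H2.mul huz hA)) (by decide) hk
  obtain ⟨lx, hlx, hk⟩ := nrm2_ok h1 h2 (H2.add (H2.mk' hKe0x hone) (H2.mk' hKe1x huz)) (by decide) hk
  obtain ⟨ly, hly, hk⟩ := nrm2_ok h1 h2 (H2.add (H2.mk' hKe0y hone) (H2.mk' hKe1y huz)) (by decide) hk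
  obtain ⟨o, ho, hk⟩ := nrm2_ok h1 h2 (H2.add (H2.one t1 t2) (H2.neg (H2.up hzz))) (by decide) hk
  obtain ⟨px, hpx, hk⟩ := nrm2_ok h1 h2 (H2.mul ho hlx) (by decide) hk
  obtain ⟨py, hpy, hk⟩ := nrm2_ok h1 h2 (H2.mul ho hly) (by decide) hk
  obtain ⟨h, hh, hk⟩ := nrm2_ok h1 h2 (H2.add (H2.mul hg hg) (H2.neg (H2.add (H2.mul hpx hpx) (H2.mul hpy hpy)))) (by decide) hk
  obtain ⟨a, b⟩ := and_ok hk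
  exact ⟨posA_ok hg a, posA_ok hh b⟩

theorem cst_ok (t1 t2 : ℝ) {n : ℕ} (h : n ≤ 281474976710656) :
    Has t1 t2 0 ⟨n, 0, 0, 0, 0, n, 0⟩ ((n : ℝ) / 4294967296) := by
  refine ⟨n, 0, 0, 0, Rp.nat n, Rp.zero, Rp.zero, Rp.zero, by simp, ?_, by norm_num, by norm_num,
    by norm_num, by simp, by simp⟩
  rw [abs_of_nonneg (by positivity)]; omega

noncomputable def chk1 (p : PR) (rr : Nat) (T : Tr) (x0 x1 y0 y1 t0 t1 : Nat) : Bool :=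
  withKA p fun K => outer (fun x0 x1 y0 y1 t0 t1 n code => ivs x0 x1 y0 y1 fun x y =>
    ch1 K ⟨rr, 0, 0, 0, 0, rr, 0⟩ x y fun F => mid F fun c => inner c t1 n t0 code) T x0 x1 y0 y1 t0 t1

def Ph1 (p : PR) (rr : ℕ) (X Y T : ℝ) : Prop :=
  ¬ GZ (midr (ch1r p.r.toA ((rr : ℝ) / 4294967296) (X / 4294967296) (Y / 4294967296))) (T / 4294967296 - 1)

theorem chk1_ok {p : PR} {rr : ℕ} (hr : rr ≤ 281474976710656) {T : Tr} {x0 x1 y0 y1 t0 t1 : ℕ}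
    (h : chk1 p rr T x0 x1 y0 y1 t0 t1 = true) : Box (Ph1 p rr) x0 x1 y0 y1 t0 t1 := by
  unfold chk1 at h
  obtain ⟨K, hK, h⟩ := withKA_ok h
  refine outer_ok ?_ T _ _ _ _ _ _ h
  intro x0 x1 y0 y1 t0 t1 n code h X Y T a0 a1 b0 b1 c0 c1
  obtain ⟨s1, s2, A, B, h1, h2, hA, hB, h⟩ := ivs_ok h a0 a1 b0 b1
  obtain ⟨F, hF, h⟩ := ch1_ok h1 h2 hK (cst_ok s1 s2 hr) hA hB h
  obtain ⟨c, hc, h⟩ := mid_ok h1 h2 hF h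
  have e : (T / 4294967296 - 1 + 1) * 4294967296 = T := by ring
  exact inner_ok h1 h2 hc (by rw [e]; exact c1) n t0 code (by rw [e]; exact c0) h

noncomputable def chk2 (p : PR) (rr : Nat) (T : Tr) (x0 x1 y0 y1 t0 t1 : Nat) : Bool :=
  withKA p fun K => outer (fun x0 x1 y0 y1 t0 t1 n code => ivs x0 x1 y0 y1 fun x y =>
    ch2 K ⟨rr, 0, 0, 0, 0, rr, 0⟩ x y fun F => mid F fun c => inner c t1 n t0 code) T x0 x1 y0 y1 t0 t1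

def Ph2 (p : PR) (rr : ℕ) (X Y T : ℝ) : Prop :=
  ¬ GZ (midr (ch2r p.r.toA ((rr : ℝ) / 4294967296) (X / 4294967296) (Y / 4294967296))) (T / 4294967296 - 1)

theorem chk2_ok {p : PR} {rr : ℕ} (hr : rr ≤ 281474976710656) {T : Tr} {x0 x1 y0 y1 t0 t1 : ℕ}
    (h : chk2 p rr T x0 x1 y0 y1 t0 t1 = true) : Box (Ph2 p rr) x0 x1 y0 y1 t0 t1 := by
  unfold chk2 at h
  obtain ⟨K, hK, h⟩ := withKA_ok h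
  refine outer_ok ?_ T _ _ _ _ _ _ h
  intro x0 x1 y0 y1 t0 t1 n code h X Y T a0 a1 b0 b1 c0 c1
  obtain ⟨s1, s2, A, B, h1, h2, hA, hB, h⟩ := ivs_ok h a0 a1 b0 b1
  obtain ⟨F, hF, h⟩ := ch2_ok h1 h2 hK (cst_ok s1 s2 hr) hA hB h
  obtain ⟨c, hc, h⟩ := mid_ok h1 h2 hF h
  have e : (T / 4294967296 - 1 + 1) * 4294967296 = T := by ring
  exact inner_ok h1 h2 hc (by rw [e]; exact c1) n t0 code (by rw [e]; exact c0) h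

noncomputable def chk3 (p : PR) (rr : Nat) (T : Tr) (x0 x1 y0 y1 t0 t1 : Nat) : Bool :=
  withKA p fun K => outer (fun x0 x1 y0 y1 t0 t1 n code => ivs x0 x1 y0 y1 fun x y =>
    ch3 K ⟨rr, 0, 0, 0, 0, rr, 0⟩ x y fun F => mid F fun c => inner c t1 n t0 code) T x0 x1 y0 y1 t0 t1

def Ph3 (p : PR) (rr : ℕ) (X Y T : ℝ) : Prop :=
  ¬ GZ (midr (ch3r p.r.toA ((rr : ℝ) / 4294967296) (X / 4294967296) (Y / 4294967296))) (T / 4294967296 - 1)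

theorem chk3_ok {p : PR} {rr : ℕ} (hr : rr ≤ 281474976710656) {T : Tr} {x0 x1 y0 y1 t0 t1 : ℕ}
    (h : chk3 p rr T x0 x1 y0 y1 t0 t1 = true) : Box (Ph3 p rr) x0 x1 y0 y1 t0 t1 := by
  unfold chk3 at h
  obtain ⟨K, hK, h⟩ := withKA_ok h
  refine outer_ok ?_ T _ _ _ _ _ _ h
  intro x0 x1 y0 y1 t0 t1 n code h X Y T a0 a1 b0 b1 c0 c1
  obtain ⟨s1, s2, A, B, h1, h2, hA, hB, h⟩ := ivs_ok h a0 a1 b0 b1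
  obtain ⟨F, hF, h⟩ := ch3_ok h1 h2 hK (cst_ok s1 s2 hr) hA hB h
  obtain ⟨c, hc, h⟩ := mid_ok h1 h2 hF h
  have e : (T / 4294967296 - 1 + 1) * 4294967296 = T := by ring
  exact inner_ok h1 h2 hc (by rw [e]; exact c1) n t0 code (by rw [e]; exact c0) h

noncomputable def chk4 (p : PR) (T : Tr) (x0 x1 y0 y1 t0 t1 : Nat) : Bool :=
  withKB p fun K => outer (fun x0 x1 y0 y1 t0 t1 n code => ivs x0 x1 y0 y1 fun x y =>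
    ch4 K x y fun F => mid F fun c => inner c t1 n t0 code) T x0 x1 y0 y1 t0 t1

def Ph4 (p : PR) (X Y T : ℝ) : Prop :=
  ¬ GZ (midr (ch4r p.r (X / 4294967296) (Y / 4294967296))) (T / 4294967296 - 1)

theorem chk4_ok {p : PR} {T : Tr} {x0 x1 y0 y1 t0 t1 : ℕ}
    (h : chk4 p T x0 x1 y0 y1 t0 t1 = true) : Box (Ph4 p) x0 x1 y0 y1 t0 t1 := by
  unfold chk4 at h
  obtain ⟨K, hK, h⟩ := withKB_ok h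
  refine outer_ok ?_ T _ _ _ _ _ _ h
  intro x0 x1 y0 y1 t0 t1 n code h X Y T a0 a1 b0 b1 c0 c1
  obtain ⟨s1, s2, A, B, h1, h2, hA, hB, h⟩ := ivs_ok h a0 a1 b0 b1
  obtain ⟨F, hF, h⟩ := ch4_ok h1 h2 hK hA hB h
  obtain ⟨c, hc, h⟩ := mid_ok h1 h2 hF h
  have e : (T / 4294967296 - 1 + 1) * 4294967296 = T := by ring
  exact inner_ok h1 h2 hc (by rw [e]; exact c1) n t0 code (by rw [e]; exact c0) h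

noncomputable def chk5 (p : PR) (T : Tr) (x0 x1 y0 y1 t0 t1 : Nat) : Bool :=
  withKB p fun K => outer (fun x0 x1 y0 y1 t0 t1 n code => ivs x0 x1 y0 y1 fun x y =>
    ch5 K x y fun F => mid F fun c => inner c t1 n t0 code) T x0 x1 y0 y1 t0 t1

def Ph5 (p : PR) (X Y T : ℝ) : Prop :=
  ¬ GZ (midr (ch5r p.r (X / 4294967296) (Y / 4294967296))) (T / 4294967296 - 1)

theorem chk5_ok {p : PR} {T : Tr} {x0 x1 y0 y1 t0 t1 : ℕ}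
    (h : chk5 p T x0 x1 y0 y1 t0 t1 = true) : Box (Ph5 p) x0 x1 y0 y1 t0 t1 := by
  unfold chk5 at h
  obtain ⟨K, hK, h⟩ := withKB_ok h
  refine outer_ok ?_ T _ _ _ _ _ _ h
  intro x0 x1 y0 y1 t0 t1 n code h X Y T a0 a1 b0 b1 c0 c1
  obtain ⟨s1, s2, A, B, h1, h2, hA, hB, h⟩ := ivs_ok h a0 a1 b0 b1
  obtain ⟨F, hF, h⟩ := ch5_ok h1 h2 hK hA hB h
  obtain ⟨c, hc, h⟩ := mid_ok h1 h2 hF h
  have e : (T / 4294967296 - 1 + 1) * 4294967296 = T := by ring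
  exact inner_ok h1 h2 hc (by rw [e]; exact c1) n t0 code (by rw [e]; exact c0) h

noncomputable def chk0 (p : PR) (T : Tr) (y0 y1 : Nat) : Bool :=
  withKB p fun K => outer (fun x0 x1 y0 y1 _ _ _ _ => ivs x0 x1 y0 y1 fun x y => dchk K x y) T
    0 8589934592 y0 y1 0 0

theorem chk0_ok {p : PR} {T : Tr} {y0 y1 : ℕ} (h : chk0 p T y0 y1 = true) :
    Box (fun X Y _ => DP p.r (X / 4294967296) (Y / 4294967296)) 0 8589934592 y0 y1 0 0 := by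
  unfold chk0 at h
  obtain ⟨K, hK, h⟩ := withKB_ok h
  refine outer_ok ?_ T _ _ _ _ _ _ h
  intro x0 x1 y0 y1 t0 t1 n code h X Y T a0 a1 b0 b1 _ _
  obtain ⟨s1, s2, A, B, h1, h2, hA, hB, h⟩ := ivs_ok h a0 a1 b0 b1
  exact dchk_ok h1 h2 hK hA hB h

end Pool.Agent.Lib.MP_5a3ebe_gt.Tab
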