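import Pool.Agent.Lib.MP_5a3ebe_gt.Flatten

/-!
The inscribed square theorem in normal coordinates.
-/

set_option autoImplicit false
set_option linter.unusedSectionVars false
set_option linter.unusedVariables false

namespace Pool.Agent.Lib.MP_5a3ebe_gt

open Real Complex

lemma rot4 (p : ℝ × ℝ × ℝ × ℝ) :
    rot (rot (rot (rot p))) = (p.1 + 1, p.2.1 + 1, p.2.2.1 + 1, p.2.2.2 + 1) := rfl

/-- from a zero of the plain test map away from the corners to a square -/
lemma base_square {g : ℝ → ℂ} (per : ∀ t, g (t + 1) = g t)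
    (inj : ∀ s t, s ≤ t → t < s + 1 → g s = g t → s = t) {U : ℝ × ℝ × ℝ × ℝ → Prop}
    (hU : ∀ t, U (t, t, t, t)) {p : ℝ × ℝ × ℝ × ℝ} (hp : Ord4 p)
    (hn : ¬ U p ∧ ¬ U (rot p) ∧ ¬ U (rot (rot p)) ∧ ¬ U (rot (rot (rot p))))
    (h1 : ∀ k, cv (fun p => ‖g p.2.1 - g p.1‖) p k = ‖g p.2.1 - g p.1‖)
    (h2 : ‖g p.2.2.1 - g p.1‖ - ‖g p.2.2.2 - g p.2.1‖ = 0) :
    ∃ z w : ℂ, w ≠ 0 ∧ z ∈ Set.range g ∧ z + w ∈ Set.range g ∧ z + w + I * w ∈ Set.range g ∧
      z + I * w ∈ Set.range g := by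
  obtain ⟨t0, t1, t2, t3⟩ := p
  obtain ⟨o1, o2, o3, o4⟩ := hp
  have a1 := h1 1
  have a2 := h1 2
  have a3 := h1 3
  simp only [cv, rot, Matrix.cons_val, per] at a1 a2 a3 o1 o2 o3 o4 h2 hn
  have alt : ∀ s t, s ≤ t → t ≤ s + 1 → g s = g t → t = s ∨ t = s + 1 := fun s t l1 l2 e =>
    l2.lt_or_eq.imp (fun l => (inj s t l1 l e).symm) id
  have a0 : ‖g t1 - g t0‖ ≠ 0 := by
    intro a0
    rw [a0, norm_eq_zero, sub_eq_zero] at a1 a2
    rw [norm_eq_zero, sub_eq_zero] at a0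
    rcases alt t0 t1 o1 (by linarith) a0.symm with e1 | e1
    · rcases alt t0 t2 (by linarith) (by linarith) (a1.trans a0).symm with e2 | e2
      · rcases alt t0 t3 (by linarith) o4 (a2.trans (a1.trans a0)).symm with e3 | e3
        · exact hn.1 (by rw [e1, e2, e3]; exact hU _)
        · exact hn.2.2.2 (by rw [e1, e2, e3]; exact hU _)
      · exact hn.2.2.1 (by rw [e1, e2, show t3 = t0 + 1 by linarith]; exact hU _)
    · exact hn.2.1 (by
        rw [e1, show t2 = t0 + 1 by linarith, show t3 = t0 + 1 by linarith]; exact hU _)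
  rcases zero_cases (s := 0) rfl a1 a2 a3 zero_le_one le_rfl
    (by rw [zero_mul, max_eq_left (norm_nonneg _)]; linarith) with ⟨e1, e2⟩ | e | e
  · refine square_out ⟨t0, rfl⟩ ⟨t1, rfl⟩ ⟨t2, rfl⟩ ⟨t3, rfl⟩ (fun e => a0 ?_) (fun e => a0 ?_) e1 e2
    · rw [e, sub_self, norm_zero]
    · rw [← a3, e, sub_self, norm_zero]
  · exfalso; apply a0
    rcases alt t0 t2 (by linarith) (by linarith) e with e2 | e2
    · rw [show t1 = t0 by linarith, sub_self, norm_zero]
    · rw [← a2, show t3 = t2 by linarith, sub_self, norm_zero]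
  · exfalso; apply a0
    rcases alt t1 t3 (by linarith) (by linarith) e with e2 | e2
    · rw [← a1, show t2 = t1 by linarith, sub_self, norm_zero]
    · rw [show t1 = t0 by linarith, sub_self, norm_zero]

theorem tube_square {β : ℝ → ℂ} {ψ : ℝ → ℝ} (h : Arc β ψ) {L c δ : ℝ} (hL : 2 * π ≤ L)
    (hψ : ∀ s, ψ (s + L) = ψ s + c) (hδ : δ ≤ √2 - 1) {g : ℝ → ℂ} {x y : ℝ → ℝ}
    (cg : Continuous g) (cx : Continuous x) (cy : Continuous y) (px : ∀ t, x (t + 1) = x t + L)
    (py : ∀ t, y (t + 1) = y t) (per : ∀ t, g (t + 1) = g t) (hy : ∀ t, |y t| ≤ δ)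
    (hg : ∀ t, g t = β (x t) + y t * I * Complex.exp (ψ (x t) * I))
    (inj : ∀ s t, s ≤ t → t < s + 1 → g s = g t → s = t) :
    ∃ z w : ℂ, w ≠ 0 ∧ z ∈ Set.range g ∧ z + w ∈ Set.range g ∧ z + w + I * w ∈ Set.range g ∧
      z + I * w ∈ Set.range g := by
  have hpi := pi_gt_three
  have d0 : 0 ≤ δ := (abs_nonneg _).trans (hy 0)
  obtain ⟨s1, hs1, hs2⟩ : ∃ s1 : ℝ, 2 ≤ s1 ∧ s1 < 3 * π / 4 := ⟨2, le_rfl, by linarith⟩
  let σ : ℝ × ℝ × ℝ × ℝ → ℝ := fun p => spr (x p.1) (x p.2.1) (x p.2.2.1) (x p.2.2.2)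
  have cσ : Continuous σ := by simp only [σ, spr]; fun_prop
  let l : ℝ × ℝ × ℝ × ℝ → ℝ := fun p => cl ((σ p - s1) / (3 * π / 4 - s1))
  let s : ℝ × ℝ × ℝ × ℝ → ℝ := fun p => cl (4 * (s1 - σ p))
  let m : ℝ × ℝ × ℝ × ℝ → ℝ := fun p => cl (4 * (σ p - s1) + 2) * cl (σ p / (3 * π / 4)) ^ 2
  let M : ℝ × ℝ × ℝ × ℝ → ℝ := fun p => max 0 (s1 - 1 / 2 - σ p)
  have cl1 : Continuous l := cl_cont.comp (by fun_prop)
  have cs1 : Continuous s := cl_cont.comp (by fun_prop)
  have cm1 : Continuous m :=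
    (cl_cont.comp (by fun_prop)).mul ((cl_cont.comp (by fun_prop)).pow 2)
  have cM1 : Continuous M := by fun_prop
  let Q : ℝ × ℝ × ℝ × ℝ → ℝ → ℂ := fun p t => dpt ψ (l p) (m p) (x t) (y t)
  have cQ : ∀ f : ℝ × ℝ × ℝ × ℝ → ℝ, Continuous f → Continuous fun p => Q p (f p) := by
    intro f hf
    have c1 : Continuous fun p => bent ψ (l p) (x (f p)) :=
      (bent_cont h.cont).comp (cl1.prodMk (cx.comp hf))
    have := h.cont
    simp only [Q, dpt]
    fun_prop
  have c0 := cQ _ (by fun_prop : Continuous fun p : ℝ × ℝ × ℝ × ℝ => p.1)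
  have c1 := cQ _ (by fun_prop : Continuous fun p : ℝ × ℝ × ℝ × ℝ => p.2.1)
  have c2 := cQ _ (by fun_prop : Continuous fun p : ℝ × ℝ × ℝ × ℝ => p.2.2.1)
  have c3 := cQ _ (by fun_prop : Continuous fun p : ℝ × ℝ × ℝ × ℝ => p.2.2.2)
  let S : ℝ × ℝ × ℝ × ℝ → Fin 4 → ℝ := fun p =>
    ![‖Q p p.2.1 - Q p p.1‖, ‖Q p p.2.2.1 - Q p p.2.1‖, ‖Q p p.2.2.2 - Q p p.2.2.1‖,
      ‖Q p p.1 - Q p p.2.2.2‖ + M p]
  let H : ℝ × ℝ × ℝ × ℝ → ℝ := fun p =>
    max ‖Q p p.2.2.1 - Q p p.1‖ (s p * ‖Q p p.2.1 - Q p p.1‖) - ‖Q p p.2.2.2 - Q p p.2.1‖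
  have pσ : ∀ p, σ (rot (rot (rot (rot p)))) = σ p := by
    intro p; simp only [σ, rot4, px, spr_add]
  have pQ : ∀ p a b, ‖Q (rot (rot (rot (rot p)))) (a + 1) - Q (rot (rot (rot (rot p)))) (b + 1)‖ =
      ‖Q p a - Q p b‖ := by
    intro p a b
    simp only [Q, l, m, pσ, px, py, dpt_shift h.cont hψ]
  have L0 : ∀ a b c d : ℝ, |a - b| < 3 * π / 4 → |b - (a + L)| < 3 * π / 4 → False := by
    intro a b _ _ h1 h2
    linarith [(abs_lt.1 h1).2, (abs_lt.1 h2).1, (abs_lt.1 h1).1]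
  have sp : ∀ p, σ p < 3 * π / 4 → ∀ i j,
      |![x p.1, x p.2.1, x p.2.2.1, x p.2.2.2] i - ![x p.1, x p.2.1, x p.2.2.1, x p.2.2.2] j| <
        3 * π / 4 := fun p hp i j => (le_spr _ i j).trans_lt hp
  obtain ⟨p, hp, hn, h1, h2⟩ := corner_engine (fun p => ‖g p.2.1 - g p.1‖)
    (fun p => ‖g p.2.2.1 - g p.1‖ - ‖g p.2.2.2 - g p.2.1‖) S H (fun p => σ p < 3 * π / 4)
    (by fun_prop) (by fun_prop)
    (by
      intro k
      fin_cases k
      exacts [(c1.sub c0).norm, (c2.sub c1).norm, (c3.sub c2).norm, (c0.sub c3).norm.add cM1])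
    (((c2.sub c0).norm.max (cs1.mul (c1.sub c0).norm)).sub (c3.sub c1).norm)
    (fun p => by simp only [rot4, per])
    (fun p => by simp only [rot, per]; rw [norm_sub_rev (g p.1)]; ring)
    (fun p => by
      have := pQ p
      simp only [S, M, pσ]
      simp only [rot4] at this ⊢
      simp only [this])
    (fun p => by
      have := pQ p
      simp only [H, s, pσ]
      simp only [rot4] at this ⊢
      simp only [this])
    (fun p => by simp only [pσ])
    (fun p hp => by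
      have hp := not_lt.1 hp
      have e1 : l p = 1 := cl_one ((one_le_div (by linarith)).2 (by linarith))
      have e2 : s p = 0 := cl_zero (by linarith)
      have e3 : m p = 1 := by
        simp only [m]
        rw [cl_one (by linarith), cl_one ((one_le_div (by linarith)).2 hp)]; norm_num
      have e4 : M p = 0 := max_eq_left (by linarith)
      have e5 : ∀ a b, Q p a - Q p b = g a - g b := by
        intro a b
        simp only [Q, e1, e3, dpt, bent_one h, hg, one_mul]; ring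
      refine ⟨fun k => ?_, ?_⟩
      · fin_cases k <;> simp [S, cv, rot, e5, e4, per]
      · simp [H, e5, e2])
    (fun p hp => by
      refine ⟨fun h1 => ?_, fun h1 => ?_, fun h1 => ?_⟩
      · exact L0 _ _ 0 0 (sp p hp 0 1) (by simpa [rot, px] using sp _ h1 0 3)
      · exact L0 _ _ 0 0 (sp p hp 0 2) (by simpa [rot, px] using sp _ h1 0 2)
      · exact L0 _ _ 0 0 (sp p hp 0 3) (by simpa [rot, px] using sp _ h1 0 1))
    (fun p => norm_nonneg _)
    (fun p hp => by
      have : p.2.1 = p.1 := by simpa [gp, sub_eq_zero] using hp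
      simp [this])
    (fun p hp k => by
      have M0 : 0 ≤ M p := le_max_left _ _
      fin_cases k
      · exact ⟨norm_nonneg _, fun e => by
          have : p.2.1 = p.1 := by simpa [gp, sub_eq_zero] using e
          simp [S, this]⟩
      · exact ⟨norm_nonneg _, fun e => by
          have : p.2.2.1 = p.2.1 := by simpa [gp, sub_eq_zero] using e
          simp [S, this]⟩
      · exact ⟨norm_nonneg _, fun e => by
          have : p.2.2.2 = p.2.2.1 := by simpa [gp, sub_eq_zero] using e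
          simp [S, this]⟩
      · refine ⟨add_nonneg (norm_nonneg _) M0, fun e => ?_⟩
        have : p.2.2.2 = p.1 + 1 := by
          have : p.1 + 1 - p.2.2.2 = 0 := by simpa [gp] using e
          linarith
        have h3 := sp p hp 3 0
        simp [this, px] at h3
        linarith [le_abs_self L])
    (fun p hp hU hS hH => by
      obtain ⟨o1, o2, o3, o4⟩ := hp
      have ii : ∀ a b, a ≤ b → b ≤ a + 1 → x a = x b → y a = y b → a = b := by
        intro a b l1 l2 e1 e2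
        refine inj a b l1 (lt_of_le_of_ne l2 ?_) (by rw [hg, hg, e1, e2])
        rintro rfl
        rw [px] at e1
        linarith
      refine no_zero h hδ hs1 hs2 ![x p.1, x p.2.1, x p.2.2.1, x p.2.2.2]
        ![y p.1, y p.2.1, y p.2.2.1, y p.2.2.2] (fun k => by fin_cases k <;> exact hy _)
        (σ p) (l p) (s p) (m p) (M p) (S p 0) ![Q p p.1, Q p p.2.1, Q p p.2.2.1, Q p p.2.2.2]
        rfl hU rfl rfl rfl rfl (fun k => by fin_cases k <;> rfl) (fun e1 e2 => ?_)
        (fun e1 e2 => ?_) rfl (hS 1) (hS 2) (hS 3) (sub_eq_zero.1 hH)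
      · have := ii p.1 p.2.2.1 (by linarith) (by linarith) e1 e2
        have : p.1 = p.2.1 := by linarith
        exact ⟨congrArg x this, congrArg y this⟩
      · have := ii p.2.1 p.2.2.2 (by linarith) (by linarith) e1 e2
        have : p.2.1 = p.2.2.1 := by linarith
        exact ⟨congrArg x this, congrArg y this⟩)
  exact base_square per inj (U := fun p => σ p < 3 * π / 4)
    (fun t => by simp only [σ, spr, max_self, min_self, sub_self]; linarith) hp hn h1 h2

end Pool.Agent.Lib.MP_5a3ebe_gt
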