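import Pool.Agent.Shared.Kuhn.Sperner

/-!
The twisted parity lemma behind the inscribed square criteria.
-/

set_option autoImplicit false
set_option linter.unusedSectionVars false
set_option linter.unusedVariables false

namespace Pool.Agent.Lib.MP_5a3ebe_gt

open Finset Equiv Pool.Agent.Shared.Kuhn

section transport
variable {I : Type*} [Fintype I] [DecidableEq I]

/-- relabel the coordinates of a simplex -/
def tr (ρ : Perm I) (σ : (I → I → ℤ) × Perm I) : (I → I → ℤ) × Perm I :=
  (fun a x => σ.1 (ρ.symm a) (ρ.symm x), ρ * σ.2 * ρ.symm)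

lemma tr_isS {J : Finset I} {c : Perm I} {n : ℕ} (ρ : Perm I) {σ : (I → I → ℤ) × Perm I}
    (h : IsS J c n σ) : IsS (J.image ρ) (ρ * c * ρ.symm) n (tr ρ σ) := by
  have hm : ∀ a, a ∈ J.image ρ ↔ ρ.symm a ∈ J := by
    intro a
    simp only [mem_image]
    constructor
    · rintro ⟨b, hb, rfl⟩; simpa using hb
    · intro ha; exact ⟨_, ha, by simp⟩
  refine ⟨fun a ha => ?_, fun a ha => ?_, fun a ha => ?_, fun a ha => ?_⟩
  · rw [hm] at ha
    simp [tr, h.fix _ ha]
  · rw [hm] at ha
    funext x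
    simp [tr, h.zero _ ha]
  · rw [hm] at ha
    have hd := h.dom _ ha
    refine ⟨fun x => hd.nonneg _, fun x hx => hd.supp _ (by rwa [hm] at hx), ?_⟩
    rw [← hd.sum]
    exact Equiv.sum_comp ρ.symm (σ.1 (ρ.symm a))
  · rw [hm] at ha
    funext x
    have := congrFun (h.step _ ha) (ρ.symm x)
    simp only [tr, Perm.coe_mul, Function.comp_apply, Equiv.symm_apply_apply, Pi.sub_apply,
      Pi.add_apply, e] at this ⊢
    rw [this]
    simp only [Equiv.symm_apply_eq, Equiv.apply_symm_apply]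

lemma tr_tr (ρ : Perm I) (σ : (I → I → ℤ) × Perm I) : tr ρ.symm (tr ρ σ) = σ := by
  refine Prod.ext ?_ ?_
  · funext a x; simp [tr]
  · ext a; simp [tr]

lemma sum_tr {J : Finset I} {c : Perm I} {n : ℕ} (ρ : Perm I) (G : Finset (I → ℤ) → ZMod 2) :
    ∑ τ ∈ S (J.image ρ) (ρ * c * ρ.symm) n, G ((J.image ρ).image τ.1) =
      ∑ σ ∈ S J c n, G ((J.image σ.1).image fun u x => u (ρ.symm x)) := by
  symm
  refine Finset.sum_nbij' (tr ρ) (tr ρ.symm) ?_ ?_ ?_ ?_ ?_
  · intro σ hσ
    exact mem_S.2 (tr_isS ρ (mem_S.1 hσ))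
  · intro τ hτ
    have := tr_isS ρ.symm (mem_S.1 hτ)
    rw [Finset.image_image] at this
    have h1 : (ρ.symm ∘ ρ : I → I) = id := by funext a; simp
    have h2 : ρ.symm * (ρ * c * ρ.symm) * ρ.symm.symm = c := by ext a; simp
    rw [h1, h2, image_id] at this
    exact mem_S.2 this
  · intro σ _; exact tr_tr ρ σ
  · intro τ _; simpa using tr_tr ρ.symm τ
  · intro σ _
    congr 1
    rw [Finset.image_image, Finset.image_image]
    apply Finset.image_congr
    intro a _
    funext x
    simp [tr]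

end transport

/-- the cyclic order `j ↦ j - 1` on five coordinates -/
def c5 : Perm (Fin 5) := (finRotate 5).symm

lemma cyc5 : Cyc (univ : Finset (Fin 5)) c5 := by
  refine ⟨fun a ha => absurd (mem_univ a) ha, ?_⟩
  decide

/-- the gap attached to a side -/
def gap (u : Fin 5 → ℤ) (j : Fin 4) : ℤ := ![u 1, u 2, u 3, u 0 + u 4] j

/-- the shift from the face `u 0 = 0` to the face `u 4 = 0` -/
def sh (u : Fin 5 → ℤ) : Fin 5 → ℤ := fun x => u (c5.symm x)

theorem twisted_comb {n : ℕ} (hn : 1 ≤ n) (l : (Fin 5 → ℤ) → Fin 4) (h : (Fin 5 → ℤ) → ℝ)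
    (h1 : ∀ u, Dom univ n u → 0 < gap u (l u))
    (h2 : ∀ u, Dom univ n u → u 0 = 0 → l (sh u) + 1 = l u)
    (h3 : ∀ u, Dom univ n u → u 0 = 0 → h (sh u) = - h u)
    (h4 : ∀ T : Finset (Fin 5 → ℤ), (∀ u ∈ T, Dom univ n u) →
      (∀ u ∈ T, ∀ w ∈ T, ∀ x, u x ≤ w x + 1) → T.image l = univ →
      (∀ u ∈ T, 0 < h u) ∨ (∀ u ∈ T, h u < 0)) : False := by
  classical
  let G : Finset (Fin 5 → ℤ) → ZMod 2 := fun T =>
    if T.image l = univ ∧ ∀ u ∈ T, 0 < h u then 1 else 0
  have hst := stokes cyc5 (by simp) hn G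
  have hmono : ∀ {J : Finset (Fin 5)} {c : Perm (Fin 5)} {σ}, Cyc J c → IsS J c n σ →
      (J.image σ.1).image l = univ →
      (∀ u ∈ J.image σ.1, 0 < h u) ∨ (∀ u ∈ J.image σ.1, h u < 0) := by
    intro J c σ hc hσ hfull
    refine h4 _ ?_ ?_ hfull
    · intro u hu
      obtain ⟨a, ha, rfl⟩ := mem_image.1 hu
      exact (hσ.dom a ha).mono (subset_univ _)
    · intro u hu w hw x
      obtain ⟨a, ha, rfl⟩ := mem_image.1 hu
      obtain ⟨b, hb, rfl⟩ := mem_image.1 hw
      exact hσ.close hc ha hb x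
  have hL : ∑ σ ∈ S univ c5 n, ∑ j ∈ univ, G ((univ.erase j).image σ.1) = 0 := by
    refine Finset.sum_eq_zero fun σ hσ => ?_
    have hσ' := mem_S.1 hσ
    by_cases hfull : (univ.image σ.1).image l = univ
    · rcases hmono cyc5 hσ' hfull with hp | hp
      · have := count_facets (univ : Finset (Fin 5)) (univ : Finset (Fin 4)) (l ∘ σ.1) (by simp)
        rw [if_neg (fun hh => hh.2 (subset_univ _))] at this
        rw [← this]
        refine Finset.sum_congr rfl fun j _ => ?_
        simp only [G, Finset.image_image]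
        congr 1
        apply propext
        refine ⟨fun hh => hh.1, fun hh => ⟨hh, fun u hu => hp u ?_⟩⟩
        exact image_subset_image (erase_subset _ _) hu
      · refine Finset.sum_eq_zero fun j _ => if_neg ?_
        rintro ⟨hf, hpos⟩
        have : (0 : Fin 4) ∈ ((univ.erase j).image σ.1).image l := by rw [hf]; exact mem_univ _
        obtain ⟨u, hu, -⟩ := mem_image.1 this
        exact lt_asymm (hpos u hu) (hp u (image_subset_image (erase_subset _ _) hu))
    · refine Finset.sum_eq_zero fun j _ => if_neg ?_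
      rintro ⟨hf, -⟩
      apply hfull
      apply Finset.eq_univ_of_forall
      intro k
      have : k ∈ ((univ.erase j).image σ.1).image l := by rw [hf]; exact mem_univ _
      exact image_subset_image (image_subset_image (erase_subset _ _)) this
  have hmid : ∀ (j : Fin 5) (k : Fin 4), (∀ u, gap u k = u j) →
      ∑ τ ∈ S (univ.erase j) (skip c5 j) n, G ((univ.erase j).image τ.1) = 0 := by
    intro j k hk
    refine Finset.sum_eq_zero fun τ hτ => if_neg ?_
    rintro ⟨hf, -⟩
    have : k ∈ ((univ.erase j).image τ.1).image l := by rw [hf]; exact mem_univ _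
    rw [Finset.image_image] at this
    obtain ⟨a, ha, hal⟩ := mem_image.1 this
    have hd := (mem_S.1 hτ).dom a ha
    have := h1 _ (hd.mono (subset_univ _))
    simp only [Function.comp_apply] at hal
    rw [hal, hk, hd.supp j (by simp)] at this
    exact lt_irrefl _ this
  rw [hL, Fin.sum_univ_five, hmid 1 0 (fun u => rfl), hmid 2 1 (fun u => rfl),
    hmid 3 2 (fun u => rfl)] at hst
  have e1 : (univ.erase 4 : Finset (Fin 5)) = (univ.erase 0).image c5 := by decide
  have e2 : skip c5 4 = c5 * skip c5 0 * c5.symm := by decide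
  have hB := sum_tr (J := univ.erase 0) (c := skip c5 0) (n := n) c5 G
  rw [← e1, ← e2] at hB
  rw [hB, add_zero, add_zero, add_zero, ← Finset.sum_add_distrib] at hst
  have hc0 : Cyc (univ.erase 0) (skip c5 0) := cyc5.skip (mem_univ _)
  have hsp := sperner hn (fun u => (l u).succ) 3 (univ.erase 0) (skip c5 0) (by simp) hc0 (by
    intro u hu
    have := h1 u (hu.mono (subset_univ _))
    have h0 : u 0 = 0 := hu.supp 0 (by simp)
    generalize l u = k at this
    fin_cases k <;> simpa [gap, h0] using this)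
  have : ∑ σ ∈ S (univ.erase 0) (skip c5 0) n,
      (G ((univ.erase 0).image σ.1) +
        G (((univ.erase 0).image σ.1).image fun u x => u (c5.symm x))) = 1 := by
    refine Eq.trans (Finset.sum_congr rfl fun σ hσ => ?_) hsp
    have hσ' := mem_S.1 hσ
    set T := (univ.erase 0).image σ.1 with hT
    have hTd : ∀ u ∈ T, Dom univ n u ∧ u 0 = 0 := by
      intro u hu
      obtain ⟨a, ha, rfl⟩ := mem_image.1 hu
      exact ⟨(hσ'.dom a ha).mono (subset_univ _), (hσ'.dom a ha).supp 0 (by simp)⟩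
    have hA : T.image (fun u => (l u).succ) = univ.erase 0 ↔ T.image l = univ := by
      have : T.image (fun u => (l u).succ) = (T.image l).image Fin.succ := by
        exact (Finset.image_image (s := T) (f := l) (g := Fin.succ)).symm
      rw [this]
      generalize T.image l = K
      revert K
      decide
    have hsh : (T.image fun u x => u (c5.symm x)).image l = univ ↔ T.image l = univ := by
      have : T.image l = ((T.image fun u x => u (c5.symm x)).image l).image (· + 1) := by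
        clear_value T
        rw [Finset.image_image, Finset.image_image]
        apply Finset.image_congr
        intro u hu
        exact (h2 u (hTd u hu).1 (hTd u hu).2).symm
      rw [this]
      generalize (T.image fun u x => u (c5.symm x)).image l = K
      revert K
      decide
    have hneg : (∀ u ∈ T.image fun u x => u (c5.symm x), 0 < h u) ↔ ∀ u ∈ T, h u < 0 := by
      rw [Finset.forall_mem_image]
      refine forall₂_congr fun u hu => ?_
      have := h3 u (hTd u hu).1 (hTd u hu).2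
      unfold sh at this
      rw [this]; simp
    simp only [G, hA, hsh, hneg]
    by_cases hfull : T.image l = univ
    · obtain ⟨u0, hu0, -⟩ := mem_image.1 (show (0 : Fin 4) ∈ T.image l by rw [hfull]; simp)
      rcases hmono hc0 hσ' hfull with hp | hp
      · rw [if_pos ⟨hfull, hp⟩, if_neg (fun hh => lt_asymm (hp u0 hu0) (hh.2 u0 hu0)),
          if_pos hfull, add_zero]
      · rw [if_neg (fun hh => lt_asymm (hp u0 hu0) (hh.2 u0 hu0)), if_pos ⟨hfull, hp⟩,
          if_pos hfull, zero_add]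
    · simp [hfull]
  rw [this] at hst
  exact zero_ne_one hst

/-- cyclically ordered quadruples of parameters -/
def Ord4 (p : ℝ × ℝ × ℝ × ℝ) : Prop :=
  p.1 ≤ p.2.1 ∧ p.2.1 ≤ p.2.2.1 ∧ p.2.2.1 ≤ p.2.2.2 ∧ p.2.2.2 ≤ p.1 + 1

/-- cyclic relabelling -/
def rot (p : ℝ × ℝ × ℝ × ℝ) : ℝ × ℝ × ℝ × ℝ := (p.2.1, p.2.2.1, p.2.2.2, p.1 + 1)

/-- the four cyclic values of a function -/
def cv (F : ℝ × ℝ × ℝ × ℝ → ℝ) (p : ℝ × ℝ × ℝ × ℝ) : Fin 4 → ℝ :=
  ![F p, F (rot p), F (rot (rot p)), F (rot (rot (rot p)))]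

/-- the four gaps -/
def gp (p : ℝ × ℝ × ℝ × ℝ) : Fin 4 → ℝ :=
  ![p.2.1 - p.1, p.2.2.1 - p.2.1, p.2.2.2 - p.2.2.1, p.1 + 1 - p.2.2.2]

lemma Ord4.rot {p : ℝ × ℝ × ℝ × ℝ} (h : Ord4 p) : Ord4 (rot p) := by
  obtain ⟨h1, h2, h3, h4⟩ := h
  exact ⟨h2, h3, h4, by simp only [MP_5a3ebe_gt.rot]; linarith⟩

lemma continuous_rot : Continuous rot := by unfold rot; fun_prop

lemma gp_rot (p : ℝ × ℝ × ℝ × ℝ) (j : Fin 4) : gp (rot p) j = gp p (j + 1) := by
  fin_cases j <;> simp [gp, rot]

lemma cv_rot {F : ℝ × ℝ × ℝ × ℝ → ℝ} {p : ℝ × ℝ × ℝ × ℝ}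
    (per : F (rot (rot (rot (rot p)))) = F p) (j : Fin 4) : cv F (rot p) j = cv F p (j + 1) := by
  fin_cases j <;> simp [cv, per]

/-- from barycentric coordinates to ordered parameters -/
def tp (x : Fin 5 → ℝ) : ℝ × ℝ × ℝ × ℝ :=
  (x 0, x 0 + x 1, x 0 + x 1 + x 2, x 0 + x 1 + x 2 + x 3)

lemma tp_ord {x : Fin 5 → ℝ} (hx : x ∈ stdSimplex ℝ (Fin 5)) : Ord4 (tp x) := by
  have := hx.2
  rw [Fin.sum_univ_five] at this
  have h0 := hx.1 0
  have h1 := hx.1 1
  have h2 := hx.1 2
  have h3 := hx.1 3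
  have h4 := hx.1 4
  refine ⟨?_, ?_, ?_, ?_⟩ <;> simp only [tp] <;> linarith

theorem twisted_zero (F h : ℝ × ℝ × ℝ × ℝ → ℝ) (hF : ContinuousOn F {p | Ord4 p})
    (hh : ContinuousOn h {p | Ord4 p})
    (per : ∀ p, Ord4 p → F (rot (rot (rot (rot p)))) = F p)
    (anti : ∀ p, Ord4 p → h (rot p) = - h p)
    (kkm : ∀ p, Ord4 p → ∃ j, 0 < gp p j ∧ ∀ k, cv F p k ≤ cv F p j) :
    ∃ p, Ord4 p ∧ (∀ k, cv F p k = F p) ∧ h p = 0 := by
  classical
  by_contra hcon
  push Not at hcon
  have htp : Continuous tp := by unfold tp; fun_prop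
  have hcv : ∀ k, ContinuousOn (fun x => cv F (tp x) k) (stdSimplex ℝ (Fin 5)) := by
    have r := continuous_rot
    intro k
    fin_cases k
    · exact hF.comp htp.continuousOn fun x hx => tp_ord hx
    · exact hF.comp (r.comp htp).continuousOn fun x hx => (tp_ord hx).rot
    · exact hF.comp (r.comp (r.comp htp)).continuousOn fun x hx => (tp_ord hx).rot.rot
    · exact hF.comp (r.comp (r.comp (r.comp htp))).continuousOn
        fun x hx => (tp_ord hx).rot.rot.rot
  have hh' : ContinuousOn (fun x => h (tp x)) (stdSimplex ℝ (Fin 5)) :=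
    hh.comp htp.continuousOn fun x hx => tp_ord hx
  let Φ : (Fin 5 → ℝ) → (Fin 4 → ℝ) × ℝ := fun x => (fun k => cv F (tp x) k, h (tp x))
  have hΦ : ContinuousOn Φ (stdSimplex ℝ (Fin 5)) := (continuousOn_pi.2 hcv).prodMk hh'
  let m : (Fin 5 → ℝ) → ℝ := fun x => ∑ k, |cv F (tp x) k - cv F (tp x) 0| + |h (tp x)|
  have hm : ContinuousOn m (stdSimplex ℝ (Fin 5)) :=
    (continuousOn_finsetSum _ fun k _ => ((hcv k).sub (hcv 0)).abs).add hh'.abs
  obtain ⟨x0, hx0, hmin⟩ := (isCompact_stdSimplex ℝ (Fin 5)).exists_isMinOn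
    ⟨Pi.single 0 1, single_mem_stdSimplex ℝ 0⟩ hm
  have hμ : 0 < m x0 := by
    have hs : 0 ≤ ∑ k, |cv F (tp x0) k - cv F (tp x0) 0| :=
      Finset.sum_nonneg fun k _ => abs_nonneg _
    by_cases hall : ∀ k, cv F (tp x0) k = F (tp x0)
    · have := abs_pos.2 (hcon _ (tp_ord hx0) hall)
      simp only [m]; linarith
    · push Not at hall
      obtain ⟨k, hk⟩ := hall
      have h1 : 0 < |cv F (tp x0) k - cv F (tp x0) 0| := abs_pos.2 (sub_ne_zero.2 hk)
      have h2 := Finset.single_le_sum (f := fun k => |cv F (tp x0) k - cv F (tp x0) 0|)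
        (fun k _ => abs_nonneg _) (mem_univ k)
      have := abs_nonneg (h (tp x0))
      simp only [m]; linarith
  obtain ⟨δ, hδ, hunif⟩ := Metric.uniformContinuousOn_iff.1
    ((isCompact_stdSimplex ℝ (Fin 5)).uniformContinuousOn_of_continuous hΦ) (m x0 / 10)
    (by positivity)
  obtain ⟨n0, hn0⟩ := exists_nat_one_div_lt hδ
  set n := n0 + 1 with hn
  have hn1 : 1 ≤ n := by omega
  have hnpos : (0 : ℝ) < n := by positivity
  let P : Fin 4 → (Fin 5 → ℤ) → Prop := fun j u =>
    0 < gp (tp (pt n u)) j ∧ ∀ k, cv F (tp (pt n u)) k ≤ cv F (tp (pt n u)) j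
  let l : (Fin 5 → ℤ) → Fin 4 := fun u =>
    if u 4 = 0 ∧ P 3 u then 3 else if P 0 u then 0 else if P 1 u then 1 else if P 2 u then 2 else 3
  have hex : ∀ u, Dom univ n u → P 0 u ∨ P 1 u ∨ P 2 u ∨ P 3 u := by
    intro u hu
    obtain ⟨j, hj⟩ := kkm _ (tp_ord (pt_mem hn1 hu))
    fin_cases j
    exacts [Or.inl hj, Or.inr (Or.inl hj), Or.inr (Or.inr (Or.inl hj)), Or.inr (Or.inr (Or.inr hj))]
  have hPl : ∀ u, Dom univ n u → P (l u) u := by
    intro u hu
    have := hex u hu
    simp only [l]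
    split_ifs <;> tauto
  have hgap : ∀ u, Dom univ n u → ∀ j, gp (tp (pt n u)) j = gap u j / n := by
    intro u hu j
    have hs : (u 0 : ℝ) + u 1 + u 2 + u 3 + u 4 = n := by
      have := hu.sum
      rw [Fin.sum_univ_five] at this
      exact_mod_cast this
    fin_cases j <;> simp [gp, tp, pt, gap]
    field_simp
    linarith
  have hsh : ∀ u, Dom univ n u → u 0 = 0 → tp (pt n (sh u)) = rot (tp (pt n u)) := by
    intro u hu h0
    have hs : (u 0 : ℝ) + u 1 + u 2 + u 3 + u 4 = n := by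
      have := hu.sum
      rw [Fin.sum_univ_five] at this
      exact_mod_cast this
    have a0 : c5.symm 0 = 1 := by decide
    have a1 : c5.symm 1 = 2 := by decide
    have a2 : c5.symm 2 = 3 := by decide
    have a3 : c5.symm 3 = 4 := by decide
    simp only [tp, pt, sh, rot, a0, a1, a2, a3, h0, Int.cast_zero, zero_div, zero_add,
      Prod.mk.injEq, true_and] at hs ⊢
    field_simp
    linarith
  refine twisted_comb hn1 l (fun u => h (tp (pt n u))) ?_ ?_ ?_ ?_
  · intro u hu
    have := (hPl u hu).1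
    rw [hgap u hu] at this
    have : (0 : ℝ) < gap u (l u) := (div_pos_iff_of_pos_right hnpos).1 this
    exact_mod_cast this
  · intro u hu h0
    have hper := per _ (tp_ord (pt_mem hn1 hu))
    have hP : ∀ j, P j (sh u) ↔ P (j + 1) u := by
      intro j
      simp only [P, hsh u hu h0, gp_rot, cv_rot hper]
      refine and_congr Iff.rfl ⟨fun H k => ?_, fun H k => H _⟩
      simpa using H (k - 1)
    have h4 : sh u 4 = 0 := by
      have : c5.symm 4 = 0 := by decide
      simp only [sh, this, h0]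
    have h3 : ¬ (u 4 = 0 ∧ P 3 u) := by
      rintro ⟨h4, hp, -⟩
      rw [hgap u hu] at hp
      simp [gap, h0, h4] at hp
    have := hex u hu
    have b0 : (0 : Fin 4) + 1 = 1 := rfl
    have b1 : (1 : Fin 4) + 1 = 2 := rfl
    have b2 : (2 : Fin 4) + 1 = 3 := rfl
    have b3 : (3 : Fin 4) + 1 = 0 := rfl
    simp only [l, hP, h4, if_neg h3, true_and, b0, b1, b2, b3]
    split_ifs <;> first | rfl | tauto
  · intro u hu h0
    simp only [hsh u hu h0]
    exact anti _ (tp_ord (pt_mem hn1 hu))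
  · intro T hT hclose hfull
    have hd : ∀ u ∈ T, ∀ w ∈ T, dist (Φ (pt n u)) (Φ (pt n w)) < m x0 / 10 := by
      intro u hu w hw
      refine hunif _ (pt_mem hn1 (hT u hu)) _ (pt_mem hn1 (hT w hw)) ?_
      refine (dist_pt_le hn1 (hclose u hu w hw) (hclose w hw u hu)).trans_lt ?_
      simpa [hn] using hn0
    have hd1 : ∀ u ∈ T, ∀ w ∈ T, ∀ k,
        |cv F (tp (pt n u)) k - cv F (tp (pt n w)) k| < m x0 / 10 := by
      intro u hu w hw k
      have h0 := hd u hu w hw
      rw [Prod.dist_eq] at h0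
      have := (dist_le_pi_dist (Φ (pt n u)).1 (Φ (pt n w)).1 k).trans_lt
        ((le_max_left _ _).trans_lt h0)
      rwa [Real.dist_eq] at this
    have hd2 : ∀ u ∈ T, ∀ w ∈ T, |h (tp (pt n u)) - h (tp (pt n w))| < m x0 / 10 := by
      intro u hu w hw
      have h0 := hd u hu w hw
      rw [Prod.dist_eq] at h0
      have := (le_max_right _ _).trans_lt h0
      rwa [Real.dist_eq] at this
    have hle : ∀ u ∈ T, ∀ j k, cv F (tp (pt n u)) k ≤ cv F (tp (pt n u)) j + m x0 / 5 := by
      intro u hu j k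
      obtain ⟨w, hw, hwj⟩ := mem_image.1 (show j ∈ T.image l by rw [hfull]; simp)
      have h1 := (hPl w (hT w hw)).2 k
      rw [hwj] at h1
      have h2 := abs_lt.1 (hd1 u hu w hw k)
      have h3 := abs_lt.1 (hd1 u hu w hw j)
      linarith [h2.2, h3.1]
    have hbig : ∀ u ∈ T, m x0 / 5 ≤ |h (tp (pt n u))| := by
      intro u hu
      have h1 : m x0 ≤ m (pt n u) := hmin (pt_mem hn1 (hT u hu))
      have h2 : ∑ k, |cv F (tp (pt n u)) k - cv F (tp (pt n u)) 0| ≤ ∑ k : Fin 4, m x0 / 5 :=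
        Finset.sum_le_sum fun k _ => abs_le.2
          ⟨by linarith [hle u hu k 0], by linarith [hle u hu 0 k]⟩
      simp only [Finset.sum_const, card_univ, Fintype.card_fin, nsmul_eq_mul] at h2
      simp only [m] at h1 h2 ⊢
      push_cast at h2
      linarith
    obtain ⟨u0, hu0, -⟩ := mem_image.1 (show (0 : Fin 4) ∈ T.image l by rw [hfull]; simp)
    rcases le_total 0 (h (tp (pt n u0))) with hs | hs
    · left
      intro u hu
      have h1 := hbig u0 hu0
      rw [abs_of_nonneg hs] at h1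
      have := abs_lt.1 (hd2 u hu u0 hu0)
      linarith [this.1]
    · right
      intro u hu
      have h1 := hbig u0 hu0
      rw [abs_of_nonpos hs] at h1
      have := abs_lt.1 (hd2 u hu u0 hu0)
      linarith [this.2]

end Pool.Agent.Lib.MP_5a3ebe_gt
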