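import Mathlib

/-!
Lipschitz deformations of the plane: bump deformations and smoothing.
-/

set_option linter.unusedVariables false

namespace Pool.Agent.Lib.MP_5a3ebe_gt.Gen

open MeasureTheory Set Metric
open scoped Convolution

/-- `h` is Lipschitz with real constant `r` -/
def Lip (r : ℝ) (h : ℂ → ℂ) : Prop := ∀ x y, ‖h x - h y‖ ≤ r * ‖x - y‖

lemma Lip.mono {r s : ℝ} {h : ℂ → ℂ} (H : Lip r h) (hrs : r ≤ s) : Lip s h := fun x y =>
  (H x y).trans (mul_le_mul_of_nonneg_right hrs (norm_nonneg _))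

lemma Lip.add {r s : ℝ} {h k : ℂ → ℂ} (H : Lip r h) (G : Lip s k) :
    Lip (r + s) (fun z => h z + k z) := fun x y => by
  have : h x + k x - (h y + k y) = (h x - h y) + (k x - k y) := by ring
  rw [this, add_mul]
  exact (norm_add_le _ _).trans (add_le_add (H x y) (G x y))

lemma Lip.sub {r s : ℝ} {h k : ℂ → ℂ} (H : Lip r h) (G : Lip s k) :
    Lip (r + s) (fun z => h z - k z) := fun x y => by
  have : h x - k x - (h y - k y) = (h x - h y) - (k x - k y) := by ring
  rw [this, add_mul]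
  exact (norm_sub_le _ _).trans (add_le_add (H x y) (G x y))

lemma Lip.zero {r : ℝ} (hr : 0 ≤ r) : Lip r (fun _ => 0) := fun x y => by
  simp only [sub_self, norm_zero]; positivity

lemma Lip.lipschitzWith {r : NNReal} {h : ℂ → ℂ} (H : Lip r h) : LipschitzWith r h :=
  LipschitzWith.of_dist_le_mul fun x y => by
    rw [dist_eq_norm, dist_eq_norm]; exact H x y

lemma Lip.of_lipschitzWith {r : NNReal} {h : ℂ → ℂ} (H : LipschitzWith r h) : Lip r h :=
  fun x y => by
    have := H.dist_le_mul x y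
    rwa [dist_eq_norm, dist_eq_norm] at this

lemma Lip.continuous {r : ℝ} {h : ℂ → ℂ} (H : Lip r h) (hr : 0 ≤ r) : Continuous h :=
  (Lip.lipschitzWith (r := ⟨r, hr⟩) H).continuous

/-- smoothing keeps the Lipschitz constant -/
lemma mollify {r η : ℝ} {k : ℂ → ℂ} (hr : 0 ≤ r) (hη : 0 < η) (H : Lip r k) :
    ∃ k' : ℂ → ℂ, ContDiff ℝ (⊤ : ℕ∞) k' ∧ Lip r k' ∧ ∀ z, ‖k' z - k z‖ ≤ η := by
  have hk : Continuous k := H.continuous hr
  have hpos : 0 < η / (r + 1) := by positivity
  let φ : ContDiffBump (0 : ℂ) := ⟨η / (r + 1) / 2, η / (r + 1), by positivity, by linarith⟩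
  refine ⟨φ.normed volume ⋆[ContinuousLinearMap.lsmul ℝ ℝ, volume] k, ?_, ?_, ?_⟩
  · exact φ.hasCompactSupport_normed.contDiff_convolution_left _ φ.contDiff_normed
      hk.locallyIntegrable
  · intro x y
    have hex : ConvolutionExists (φ.normed volume) k (ContinuousLinearMap.lsmul ℝ ℝ) volume :=
      φ.hasCompactSupport_normed.convolutionExists_left _ φ.continuous_normed
        hk.locallyIntegrable
    have hx : Integrable (fun t => φ.normed volume t • k (x - t)) volume := hex x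
    have hy : Integrable (fun t => φ.normed volume t • k (y - t)) volume := hex y
    rw [convolution_lsmul, convolution_lsmul, ← integral_sub hx hy]
    have hb : ∀ t, ‖φ.normed volume t • k (x - t) - φ.normed volume t • k (y - t)‖ ≤
        φ.normed volume t * (r * ‖x - y‖) := by
      intro t
      rw [← smul_sub, norm_smul, Real.norm_of_nonneg (φ.nonneg_normed t)]
      refine mul_le_mul_of_nonneg_left ?_ (φ.nonneg_normed t)
      have := H (x - t) (y - t)
      rwa [show x - t - (y - t) = x - y by ring] at this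
    calc _ ≤ ∫ t, φ.normed volume t * (r * ‖x - y‖) :=
          norm_integral_le_of_norm_le (φ.integrable_normed.mul_const _)
            (Filter.Eventually.of_forall hb)
      _ = r * ‖x - y‖ := by rw [integral_mul_const, φ.integral_normed, one_mul]
  · intro z
    rw [← dist_eq_norm]
    refine φ.dist_normed_convolution_le hk.aestronglyMeasurable fun x hx => ?_
    rw [dist_eq_norm]
    have h1 : ‖x - z‖ ≤ η / (r + 1) := by
      rw [mem_ball, dist_eq_norm] at hx; exact hx.le
    calc ‖k x - k z‖ ≤ r * ‖x - z‖ := H x z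
      _ ≤ (r + 1) * (η / (r + 1)) :=
          mul_le_mul (by linarith) h1 (norm_nonneg _) (by linarith)
      _ = η := by field_simp

/-- the fixed bump: one on the unit disc, zero outside the disc of radius two -/
noncomputable def beta : ContDiffBump (0 : ℂ) := ⟨1, 2, by norm_num, by norm_num⟩

/-- local deformation `z ↦ μ (z - q) + v` near `q`, cut off at scale `σ` -/
noncomputable def bump (q : ℂ) (σ : ℝ) (μ v : ℂ) (z : ℂ) : ℂ :=
  (beta ((z - q) / σ) : ℂ) * (μ * (z - q) + v)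

lemma bump_in {q : ℂ} {σ : ℝ} (hσ : 0 < σ) (μ v : ℂ) {z : ℂ} (hz : ‖z - q‖ ≤ σ) :
    bump q σ μ v z = μ * (z - q) + v := by
  have : beta ((z - q) / σ) = 1 := by
    apply beta.one_of_mem_closedBall
    rw [mem_closedBall, dist_zero_right, norm_div, Complex.norm_real, Real.norm_of_nonneg hσ.le]
    show _ ≤ (1 : ℝ)
    rwa [div_le_one hσ]
  simp [bump, this]

lemma bump_out {q : ℂ} {σ : ℝ} (hσ : 0 < σ) (μ v : ℂ) {z : ℂ} (hz : 2 * σ ≤ ‖z - q‖) :
    bump q σ μ v z = 0 := by
  have : beta ((z - q) / σ) = 0 := by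
    apply beta.zero_of_le_dist
    rw [dist_zero_right, norm_div, Complex.norm_real, Real.norm_of_nonneg hσ.le]
    show (2 : ℝ) ≤ _
    rwa [le_div_iff₀ hσ]
  simp [bump, this]

lemma beta_smooth : ContDiff ℝ (⊤ : ℕ∞) (fun y : ℂ => (beta y : ℂ)) :=
  Complex.ofRealCLM.contDiff.comp beta.contDiff

lemma bump_smooth (q : ℂ) (σ : ℝ) (μ v : ℂ) : ContDiff ℝ (⊤ : ℕ∞) (bump q σ μ v) := by
  unfold bump
  have h1 : ContDiff ℝ (⊤ : ℕ∞) (fun z : ℂ => (z - q) / (σ : ℂ)) :=
    (contDiff_id.sub contDiff_const).div_const _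
  exact (beta_smooth.comp h1).mul
    ((contDiff_const.mul (contDiff_id.sub contDiff_const)).add contDiff_const)

lemma exists_bump_const : ∃ Kb : ℝ, 0 ≤ Kb ∧ ∀ (q : ℂ) (σ : ℝ), 0 < σ → ∀ μ v : ℂ,
    Lip (Kb * (‖μ‖ + ‖v‖ / σ)) (bump q σ μ v) := by
  have hs1 : HasCompactSupport (fun y : ℂ => (beta y : ℂ)) :=
    beta.hasCompactSupport.comp_left (g := fun r : ℝ => (r : ℂ)) (by simp)
  have hs2 : HasCompactSupport (fun y : ℂ => (beta y : ℂ) * y) := hs1.mul_right
  obtain ⟨C1, h1⟩ := ContDiff.lipschitzWith_of_hasCompactSupport hs1 beta_smooth (by simp)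
  obtain ⟨C2, h2⟩ := ContDiff.lipschitzWith_of_hasCompactSupport hs2
    (beta_smooth.mul contDiff_id) (by simp)
  have h1' := Lip.of_lipschitzWith h1
  have h2' := Lip.of_lipschitzWith h2
  refine ⟨C1 + C2, by positivity, fun q σ hσ μ v x y => ?_⟩
  have hσ' : (σ : ℂ) ≠ 0 := by exact_mod_cast hσ.ne'
  have hd : ‖(x - q) / (σ : ℂ) - (y - q) / σ‖ = ‖x - y‖ / σ := by
    rw [← sub_div, show x - q - (y - q) = x - y by ring, norm_div, Complex.norm_real,
      Real.norm_of_nonneg hσ.le]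
  have e1 := h1' ((x - q) / σ) ((y - q) / σ)
  have e2 := h2' ((x - q) / σ) ((y - q) / σ)
  rw [hd] at e1 e2
  have hsplit : bump q σ μ v x - bump q σ μ v y =
      μ * σ * ((beta ((x - q) / σ) : ℂ) * ((x - q) / σ) - (beta ((y - q) / σ) : ℂ) * ((y - q) / σ))
        + v * ((beta ((x - q) / σ) : ℂ) - (beta ((y - q) / σ) : ℂ)) := by
    unfold bump; field_simp; ring
  rw [hsplit]
  have hn := norm_nonneg (x - y)
  have hC1 : (0 : ℝ) ≤ C1 := C1.2
  have hC2 : (0 : ℝ) ≤ C2 := C2.2
  calc _ ≤ ‖μ‖ * σ * (C2 * (‖x - y‖ / σ)) + ‖v‖ * (C1 * (‖x - y‖ / σ)) := by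
        refine (norm_add_le _ _).trans (add_le_add ?_ ?_)
        · rw [norm_mul, norm_mul, Complex.norm_real, Real.norm_of_nonneg hσ.le]
          exact mul_le_mul_of_nonneg_left e2 (by positivity)
        · rw [norm_mul]
          exact mul_le_mul_of_nonneg_left e1 (by positivity)
    _ = (C2 * ‖μ‖ + C1 * (‖v‖ / σ)) * ‖x - y‖ := by field_simp
    _ ≤ _ := by
        refine mul_le_mul_of_nonneg_right ?_ hn
        have a1 : 0 ≤ (C1 : ℝ) * ‖μ‖ := by positivity
        have a2 : 0 ≤ (C2 : ℝ) * (‖v‖ / σ) := by positivity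
        nlinarith

end Pool.Agent.Lib.MP_5a3ebe_gt.Gen
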