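import Pool.Agent.Lib.MP_5a3ebe_gt.W48GenA
import Pool.Agent.Shared.Kuhn.Sperner

/-!
The square map of four arcs, extended periodically by their chords, is onto.
-/

set_option linter.unusedVariables false

namespace Pool.Agent.Lib.MP_5a3ebe_gt.Gen

open Set Complex

/-- the square map: it vanishes exactly when `u 0, u 1, u 2, u 3` form a (possibly degenerate)
square -/
def Lm (u : Fin 4 → ℂ) : ℂ × ℂ := (u 0 - u 1 + u 2 - u 3, u 3 - u 0 - I * (u 1 - u 0))

lemma Lm_add (u v : Fin 4 → ℂ) : Lm (fun j => u j + v j) = Lm u + Lm v := by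
  simp only [Lm, Prod.mk_add_mk, Prod.mk.injEq]; constructor <;> ring

lemma Lm_sub (u v : Fin 4 → ℂ) : Lm (fun j => u j - v j) = Lm u - Lm v := by
  simp only [Lm, Prod.mk_sub_mk, Prod.mk.injEq]; constructor <;> ring

lemma Lm_const (c : ℂ) : Lm (fun _ => c) = 0 := by
  simp only [Lm, Prod.mk_eq_zero]; constructor <;> ring

lemma Lm_norm {u : Fin 4 → ℂ} {b : ℝ} (h : ∀ j, ‖u j‖ ≤ b) : ‖Lm u‖ ≤ 4 * b := by
  have h0 := h 0
  have h1 := h 1
  have h2 := h 2
  have h3 := h 3
  rw [Lm, Prod.norm_mk]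
  refine max_le ?_ ?_
  · have a1 := norm_sub_le (u 0 - u 1 + u 2) (u 3)
    have a2 := norm_add_le (u 0 - u 1) (u 2)
    have a3 := norm_sub_le (u 0) (u 1)
    linarith
  · have a1 := norm_sub_le (u 3 - u 0) (I * (u 1 - u 0))
    have a2 := norm_sub_le (u 3) (u 0)
    have a3 := norm_sub_le (u 1) (u 0)
    rw [norm_mul, norm_I, one_mul] at a1
    linarith

lemma Lm_continuous : Continuous Lm := by
  unfold Lm; fun_prop

/-- the linear part -/
def Tm (D : Fin 4 → ℂ) : (Fin 4 → ℝ) →ₗ[ℝ] ℂ × ℂ where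
  toFun t := Lm (fun j => (t j : ℂ) * D j)
  map_add' s t := by
    rw [← Lm_add]; congr 1; funext j; simp only [Pi.add_apply]; push_cast; ring
  map_smul' c t := by
    simp only [Lm, Pi.smul_apply, smul_eq_mul, RingHom.id_apply, Prod.smul_mk, Complex.real_smul,
      Prod.mk.injEq]
    constructor <;> push_cast <;> ring

lemma Tm_apply (D : Fin 4 → ℂ) (t : Fin 4 → ℝ) : Tm D t = Lm (fun j => (t j : ℂ) * D j) := rfl

theorem surj {D : Fin 4 → ℂ} (hD : Function.Injective (Tm D)) :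
    ∃ κ : ℝ, 0 < κ ∧ ∀ B : ℝ, ∃ N : ℕ, ∀ x : Fin 4 → ℝ → ℂ, (∀ j, Continuous (x j)) →
      (∀ j, ‖x j 1 - x j 0 - D j‖ ≤ κ) →
      (∀ t ∈ Icc (0 : Fin 4 → ℝ) 1, ‖Lm (fun j => x j (t j))‖ ≤ B) →
      ∃ t ∈ Icc (0 : Fin 4 → ℝ) 1, ∃ l : Fin 4 → ℤ, (∀ j, |l j| ≤ N) ∧
        Lm (fun j => x j (t j) + (l j : ℂ) * (x j 1 - x j 0)) = 0 := by
  have hfin : Module.finrank ℝ (Fin 4 → ℝ) = Module.finrank ℝ (ℂ × ℂ) := by
    simp [Module.finrank_prod]
  let E : (Fin 4 → ℝ) ≃ₗ[ℝ] ℂ × ℂ := (Tm D).linearEquivOfInjective hD hfin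
  let S : (ℂ × ℂ) →L[ℝ] (Fin 4 → ℝ) := E.toContinuousLinearEquiv.symm
  have hST : ∀ t, S (Tm D t) = t := fun t => E.symm_apply_apply t
  have hSinj : ∀ y, S y = 0 → y = 0 := fun y hy => by
    have : E.symm y = 0 := hy
    simpa using this
  set M : ℝ := ‖S‖ + 1 with hM
  have hM0 : 0 < M := by positivity
  have hSb : ∀ y, ‖S y‖ ≤ M * ‖y‖ := fun y =>
    (S.le_opNorm y).trans (mul_le_mul_of_nonneg_right (by linarith) (norm_nonneg _))
  refine ⟨1 / (8 * M), by positivity, fun B => ?_⟩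
  set κ : ℝ := 1 / (8 * M) with hκ
  have hκ0 : 0 < κ := by positivity
  set C : ℝ := |B| + 4 * (‖D‖ + κ) with hC
  have hC0 : 0 ≤ C := by positivity
  obtain ⟨N, hN⟩ := exists_nat_ge (2 * M * C)
  refine ⟨N, fun x hx hch hB => ?_⟩
  have hN0 : (0 : ℝ) ≤ N := Nat.cast_nonneg _
  let Δ : Fin 4 → ℂ := fun j => x j 1 - x j 0
  let b : Fin 4 → ℝ → ℂ := fun j t => x j t - (t : ℂ) * Δ j
  have hb : ∀ j, Continuous (fun s : ℝ => b j (Int.fract s)) := fun j => by
    have h1 : Continuous (b j) := by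
      have := hx j
      simp only [b]; fun_prop
    exact h1.continuousOn.comp_fract'' (by simp [b, Δ])
  let X : (Fin 4 → ℝ) → (Fin 4 → ℂ) := fun s j => b j (Int.fract (s j)) + (s j : ℂ) * Δ j
  have hX : Continuous X := continuous_pi fun j => by
    have h1 : Continuous (fun s : Fin 4 → ℝ => b j (Int.fract (s j))) :=
      (hb j).comp (continuous_apply j)
    simp only [X]
    exact h1.add (by fun_prop)
  let G : (Fin 4 → ℝ) → (Fin 4 → ℝ) := fun s => S (Lm (X s))
  have hG : Continuous G := S.continuous.comp (Lm_continuous.comp hX)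
  have hfr : ∀ s : Fin 4 → ℝ, (fun j => Int.fract (s j)) ∈ Icc (0 : Fin 4 → ℝ) 1 := fun s =>
    ⟨fun j => Int.fract_nonneg _, fun j => (Int.fract_lt_one _).le⟩
  have hnear : ∀ s ∈ Icc (fun _ : Fin 4 => -(N : ℝ)) (fun _ => (N : ℝ)), ∀ i,
      |G s i - s i| ≤ N := by
    intro s hs i
    have e1 : Lm (X s) = Tm D s + (Lm (fun j => x j (Int.fract (s j)))
        - Lm (fun j => ((Int.fract (s j) : ℝ) : ℂ) * Δ j)
        + Lm (fun j => (s j : ℂ) * (Δ j - D j))) := by
      rw [Tm_apply, ← Lm_sub, ← Lm_add, ← Lm_add]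
      congr 1; funext j; simp only [X, b]; ring
    have e2 : G s - s = S (Lm (fun j => x j (Int.fract (s j)))
        - Lm (fun j => ((Int.fract (s j) : ℝ) : ℂ) * Δ j)
        + Lm (fun j => (s j : ℂ) * (Δ j - D j))) := by
      simp only [G]; rw [e1, map_add, hST]; abel
    have n1 : ‖Lm (fun j => x j (Int.fract (s j)))‖ ≤ |B| :=
      (hB _ (hfr s)).trans (le_abs_self B)
    have n2 : ‖Lm (fun j => ((Int.fract (s j) : ℝ) : ℂ) * Δ j)‖ ≤ 4 * (‖D‖ + κ) := by
      refine Lm_norm fun j => ?_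
      have a1 : ‖Δ j‖ ≤ ‖D‖ + κ := by
        have a2 : Δ j = (x j 1 - x j 0 - D j) + D j := by simp only [Δ]; ring
        have a3 := norm_add_le (x j 1 - x j 0 - D j) (D j)
        have a4 := norm_le_pi_norm D j
        have a5 := hch j
        rw [a2]; linarith
      rw [norm_mul, Complex.norm_real, Real.norm_of_nonneg (Int.fract_nonneg _)]
      calc _ ≤ 1 * ‖Δ j‖ :=
            mul_le_mul_of_nonneg_right (Int.fract_lt_one _).le (norm_nonneg _)
        _ ≤ _ := by rw [one_mul]; exact a1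
    have n3 : ‖Lm (fun j => (s j : ℂ) * (Δ j - D j))‖ ≤ 4 * (N * κ) := by
      refine Lm_norm fun j => ?_
      rw [norm_mul, Complex.norm_real, Real.norm_eq_abs]
      exact mul_le_mul (abs_le.2 ⟨hs.1 j, hs.2 j⟩) (hch j) (norm_nonneg _) hN0
    have n4 : ‖G s - s‖ ≤ M * (C + 4 * (N * κ)) := by
      rw [e2]
      refine (hSb _).trans (mul_le_mul_of_nonneg_left ?_ hM0.le)
      have a1 := norm_add_le (Lm (fun j => x j (Int.fract (s j)))
        - Lm (fun j => ((Int.fract (s j) : ℝ) : ℂ) * Δ j))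
        (Lm (fun j => (s j : ℂ) * (Δ j - D j)))
      have a2 := norm_sub_le (Lm (fun j => x j (Int.fract (s j))))
        (Lm (fun j => ((Int.fract (s j) : ℝ) : ℂ) * Δ j))
      linarith
    have n5 : M * (C + 4 * (N * κ)) ≤ N := by
      have : M * (4 * (N * κ)) = N / 2 := by rw [hκ]; field_simp; ring
      rw [mul_add, this]; linarith
    have n6 := norm_le_pi_norm (G s - s) i
    rw [Pi.sub_apply, Real.norm_eq_abs] at n6
    linarith
  obtain ⟨s, hs, hs0⟩ := Pool.Agent.Shared.Kuhn.poincare_miranda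
    (a := fun _ : Fin 4 => -(N : ℝ)) (b := fun _ => (N : ℝ)) (fun i => by linarith) G
    hG.continuousOn
    (fun s hs i hi => by
      have := (abs_le.1 (hnear s hs i)).2
      linarith)
    (fun s hs i hi => by
      have := (abs_le.1 (hnear s hs i)).1
      linarith)
  refine ⟨fun j => Int.fract (s j), hfr s, fun j => ⌊s j⌋, fun j => ?_, ?_⟩
  · rw [abs_le]
    constructor
    · apply Int.le_floor.2
      push_cast; exact hs.1 j
    · have h1 : ((⌊s j⌋ : ℤ) : ℝ) ≤ N := (Int.floor_le _).trans (hs.2 j)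
      exact_mod_cast h1
  · rw [← hSinj _ hs0]
    congr 1; funext j
    have h1 : (s j : ℂ) = ((⌊s j⌋ : ℤ) : ℂ) + ((Int.fract (s j) : ℝ) : ℂ) := by
      have := Int.floor_add_fract (s j)
      exact_mod_cast this.symm
    simp only [X, b, Δ]
    rw [h1]
    ring

/-- the determinant of the linear part -/
noncomputable def dt (a b c d : ℂ) : ℝ :=
  ((starRingEnd ℂ) d * ((1 - I) * a)).im * ((starRingEnd ℂ) c * ((1 + I) * b)).im -
    ((starRingEnd ℂ) d * (I * b)).im * ((starRingEnd ℂ) c * (-I * a)).im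

lemma inj_of_dt {D : Fin 4 → ℂ} (h : dt (D 0) (D 1) (D 2) (D 3) ≠ 0) :
    Function.Injective (Tm D) := by
  have hc : D 2 ≠ 0 := fun h0 => h (by simp [dt, h0])
  have hd : D 3 ≠ 0 := fun h0 => h (by simp [dt, h0])
  rw [injective_iff_map_eq_zero]
  intro t ht
  rw [Tm_apply, Lm, Prod.mk_eq_zero] at ht
  obtain ⟨h1, h2⟩ := ht
  have e3 : (t 3 : ℂ) * D 3 = t 0 * ((1 - I) * D 0) + t 1 * (I * D 1) := by
    linear_combination h2
  have e2 : (t 2 : ℂ) * D 2 = t 0 * (-I * D 0) + t 1 * ((1 + I) * D 1) := by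
    linear_combination h1 + h2
  have z : ∀ (r : ℝ) (u : ℂ), ((starRingEnd ℂ) u * (r * u)).im = 0 := fun r u => by
    simp; ring
  have y : ∀ (r s : ℝ) (u p q : ℂ), ((starRingEnd ℂ) u * (r * p + s * q)).im =
      r * ((starRingEnd ℂ) u * p).im + s * ((starRingEnd ℂ) u * q).im := fun r s u p q => by
    simp; ring
  have f3 := z (t 3) (D 3)
  have f2 := z (t 2) (D 2)
  rw [e3, y] at f3
  rw [e2, y] at f2
  unfold dt at h
  set A := ((starRingEnd ℂ) (D 3) * ((1 - I) * D 0)).im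
  set B := ((starRingEnd ℂ) (D 3) * (I * D 1)).im
  set C := ((starRingEnd ℂ) (D 2) * (-I * D 0)).im
  set E := ((starRingEnd ℂ) (D 2) * ((1 + I) * D 1)).im
  have t0 : t 0 = 0 := by
    have : t 0 * (A * E - B * C) = 0 := by linear_combination E * f3 - B * f2
    exact (mul_eq_zero.1 this).resolve_right h
  have t1 : t 1 = 0 := by
    have : t 1 * (A * E - B * C) = 0 := by linear_combination A * f2 - C * f3
    exact (mul_eq_zero.1 this).resolve_right h
  have t3 : t 3 = 0 := by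
    rw [t0, t1] at e3
    have : (t 3 : ℂ) * D 3 = 0 := by rw [e3]; simp
    exact_mod_cast (mul_eq_zero.1 this).resolve_right hd
  have t2 : t 2 = 0 := by
    rw [t0, t1] at e2
    have : (t 2 : ℂ) * D 2 = 0 := by rw [e2]; simp
    exact_mod_cast (mul_eq_zero.1 this).resolve_right hc
  funext j
  fin_cases j
  · exact t0
  · exact t1
  · exact t2
  · exact t3

lemma exists_dt {a b c d : ℂ} (ha : a ≠ 0) (hb : b ≠ 0) (hc : c ≠ 0) (hd : d ≠ 0) {e : ℝ}
    (he : 0 < e) : ∃ r s : ℝ, |r| ≤ e ∧ |s| ≤ e ∧ dt a b (c + r * I * c) (d + s * I * d) ≠ 0 := by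
  by_contra hcon
  push Not at hcon
  have h0 : |(0 : ℝ)| ≤ e := by simpa using he.le
  have h1 : |e| ≤ e := (abs_of_pos he).le
  have lin : ∀ r s : ℝ, dt a b (c + r * I * c) (d + s * I * d) =
      dt a b c d + r * dt a b (I * c) d + s * dt a b c (I * d) + r * s * dt a b (I * c) (I * d) := by
    intro r s
    simp [dt]; ring
  have k00 := hcon 0 0 h0 h0
  have k10 := hcon e 0 h1 h0
  have k01 := hcon 0 e h0 h1
  have k11 := hcon e e h1 h1
  rw [lin] at k00 k10 k01 k11
  have m0 : dt a b c d = 0 := by linarith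
  have m1 : dt a b (I * c) d = 0 := by
    have : e * dt a b (I * c) d = 0 := by linarith
    exact (mul_eq_zero.1 this).resolve_left he.ne'
  have m2 : dt a b c (I * d) = 0 := by
    have : e * dt a b c (I * d) = 0 := by linarith
    exact (mul_eq_zero.1 this).resolve_left he.ne'
  have m3 : dt a b (I * c) (I * d) = 0 := by
    have : e * e * dt a b (I * c) (I * d) = 0 := by rw [m0, m1, m2] at k11; linarith
    exact (mul_eq_zero.1 this).resolve_left (mul_pos he he).ne'
  have key : a * b * (starRingEnd ℂ) c * (starRingEnd ℂ) d = 0 := by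
    apply Complex.ext
    · have : (a * b * (starRingEnd ℂ) c * (starRingEnd ℂ) d).re =
          dt a b (I * c) (I * d) - dt a b c d := by
        simp [dt]; ring
      rw [this, m0, m3]; simp
    · have : (a * b * (starRingEnd ℂ) c * (starRingEnd ℂ) d).im =
          - dt a b (I * c) d - dt a b c (I * d) := by
        simp [dt]; ring
      rw [this, m1, m2]; simp
  simp [ha, hb, hc, hd] at key

end Pool.Agent.Lib.MP_5a3ebe_gt.Gen
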