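import Pool.Agent.Lib.MP_5a3ebe_gt.W48GenB

/-!
Finitely many closed sets cover a ball of Lipschitz deformations: one of them contains a ball
with a smooth centre.
-/

set_option linter.unusedVariables false

namespace Pool.Agent.Lib.MP_5a3ebe_gt.Gen

open Set Complex

theorem cover {ι : Type} [DecidableEq ι] (E : ι → Set (ℂ → ℂ)) (P : Set ℂ) (z0 : ℂ) (Dm : ℝ)
    (hDm : 0 ≤ Dm) (hP : ∀ z ∈ P, ‖z - z0‖ ≤ Dm) (Λ : Finset ι)
    (hcl : ∀ l ∈ Λ, ∀ G : ℂ → ℂ, Continuous G → G ∉ E l → ∃ η : ℝ, 0 < η ∧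
      ∀ (G' : ℂ → ℂ) (c : ℂ), (∀ z ∈ P, ‖G' z - G z - c‖ ≤ η) → G' ∉ E l) :
    ∀ (g0 : ℂ → ℂ) (r0 : ℝ), ContDiff ℝ (⊤ : ℕ∞) g0 → 0 < r0 →
      (∀ k, Lip r0 k → ∃ l ∈ Λ, (fun z => g0 z + k z) ∈ E l) →
      ∃ l ∈ Λ, ∃ k1 : ℂ → ℂ, ContDiff ℝ (⊤ : ℕ∞) k1 ∧ Lip r0 k1 ∧ ∃ r1 : ℝ, 0 < r1 ∧
        ∀ k, Lip r1 k → (fun z => g0 z + k1 z + k z) ∈ E l := by
  induction Λ using Finset.induction_on with
  | empty =>
    intro g0 r0 hg hr h
    obtain ⟨l, hl, -⟩ := h _ (Lip.zero hr.le)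
    simp at hl
  | insert a Λ ha ih =>
    intro g0 r0 hg hr h
    by_cases hall : ∀ k, Lip (r0 / 2) k → (fun z => g0 z + k z) ∈ E a
    · refine ⟨a, Finset.mem_insert_self _ _, fun _ => 0, contDiff_const, Lip.zero hr.le,
        r0 / 2, by linarith, fun k hk => ?_⟩
      simpa using hall k hk
    push Not at hall
    obtain ⟨k, hk, hka⟩ := hall
    have hr2 : 0 ≤ r0 / 2 := by linarith
    obtain ⟨η, hη, hopen⟩ := hcl a (Finset.mem_insert_self _ _) _
      (hg.continuous.add (hk.continuous hr2)) hka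
    obtain ⟨k', hk's, hk'l, hk'n⟩ := mollify hr2 (half_pos hη) hk
    set r' : ℝ := min (r0 / 2) (η / (2 * (Dm + 1))) with hr'
    have hr'0 : 0 < r' := lt_min (by linarith) (by positivity)
    have hr'1 : r' ≤ r0 / 2 := min_le_left _ _
    have hr'2 : r' * Dm ≤ η / 2 := by
      have h1 : r' ≤ η / (2 * (Dm + 1)) := min_le_right _ _
      calc r' * Dm ≤ η / (2 * (Dm + 1)) * (Dm + 1) :=
            mul_le_mul h1 (by linarith) hDm (by positivity)
        _ = η / 2 := by field_simp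
    obtain ⟨l, hl, k1, hk1s, hk1l, r1, hr1, hball⟩ := ih
      (fun l hl => hcl l (Finset.mem_insert_of_mem hl)) (fun z => g0 z + k' z) r'
      (hg.add hk's) hr'0 (by
        intro k'' hk''
        obtain ⟨l, hl, hE⟩ := h (fun z => k' z + k'' z) ((hk'l.add hk'').mono (by linarith))
        have hE' : (fun z => g0 z + k' z + k'' z) ∈ E l := by
          have : (fun z => g0 z + k' z + k'' z) = fun z => g0 z + (k' z + k'' z) := by
            funext z; ring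
          rw [this]; exact hE
        rcases Finset.mem_insert.1 hl with rfl | hl
        · exfalso
          refine hopen _ (k'' z0) (fun z hz => ?_) hE'
          have e1 : g0 z + k' z + k'' z - (g0 z + k z) - k'' z0 =
              (k' z - k z) + (k'' z - k'' z0) := by ring
          have e2 := norm_add_le (k' z - k z) (k'' z - k'' z0)
          have e3 := hk'n z
          have e4 := (hk'' z z0).trans (mul_le_mul_of_nonneg_left (hP z hz) hr'0.le)
          show ‖g0 z + k' z + k'' z - (g0 z + k z) - k'' z0‖ ≤ η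
          rw [e1]; linarith
        · exact ⟨l, hl, hE'⟩)
    refine ⟨l, Finset.mem_insert_of_mem hl, fun z => k' z + k1 z, hk's.add hk1s,
      (hk'l.add hk1l).mono (by linarith), r1, hr1, fun k hk => ?_⟩
    have : (fun z => g0 z + (k' z + k1 z) + k z) = fun z => g0 z + k' z + k1 z + k z := by
      funext z; ring
    rw [this]; exact hball k hk

/-- deformations for which the square map, shifted by the lattice vector `l`, has a zero -/
def Eset (z : Fin 4 → ℝ → ℂ) (f : ℂ → ℂ) (l : Fin 4 → ℤ) : Set (ℂ → ℂ) :=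
  {G | ∃ t ∈ Icc (0 : Fin 4 → ℝ) 1, Lm (fun j => f (z j (t j)) + G (z j (t j)) +
    (l j : ℂ) * (f (z j 1) + G (z j 1) - (f (z j 0) + G (z j 0)))) = 0}

lemma Eset_closed (z : Fin 4 → ℝ → ℂ) (hz : ∀ j, Continuous (z j)) (f : ℂ → ℂ)
    (hf : Continuous f) (N : ℕ) (l : Fin 4 → ℤ) (hl : ∀ j, |l j| ≤ N) (G : ℂ → ℂ)
    (hG : Continuous G) (hn : G ∉ Eset z f l) : ∃ η : ℝ, 0 < η ∧
      ∀ (G' : ℂ → ℂ) (c : ℂ), (∀ y ∈ {y | ∃ j, ∃ t ∈ Icc (0 : ℝ) 1, y = z j t},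
        ‖G' y - G y - c‖ ≤ η) → G' ∉ Eset z f l := by
  let Φ : (Fin 4 → ℝ) → ℝ := fun t => ‖Lm (fun j => f (z j (t j)) + G (z j (t j)) +
    (l j : ℂ) * (f (z j 1) + G (z j 1) - (f (z j 0) + G (z j 0))))‖
  have hΦ : Continuous Φ := by
    refine (Lm_continuous.comp (continuous_pi fun j => ?_)).norm
    have h1 : Continuous (fun t : Fin 4 → ℝ => z j (t j)) := (hz j).comp (continuous_apply j)
    exact ((hf.comp h1).add (hG.comp h1)).add continuous_const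
  obtain ⟨t0, ht0, hmin⟩ := (isCompact_Icc (a := (0 : Fin 4 → ℝ)) (b := 1)).exists_isMinOn
    ⟨0, le_rfl, zero_le_one⟩ hΦ.continuousOn
  have hm : 0 < Φ t0 := norm_pos_iff.2 fun h0 => hn ⟨t0, ht0, h0⟩
  have hN : (0 : ℝ) ≤ N := Nat.cast_nonneg _
  refine ⟨Φ t0 / (8 * (1 + 2 * N)), by positivity, fun G' c hc ⟨t, ht, h0⟩ => ?_⟩
  set η := Φ t0 / (8 * (1 + 2 * N)) with hη
  have hη0 : 0 < η := by positivity
  have h01 : (0 : ℝ) ∈ Icc (0 : ℝ) 1 := ⟨le_rfl, zero_le_one⟩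
  have h11 : (1 : ℝ) ∈ Icc (0 : ℝ) 1 := ⟨zero_le_one, le_rfl⟩
  have e1 : Lm (fun j => f (z j (t j)) + G (z j (t j)) +
      (l j : ℂ) * (f (z j 1) + G (z j 1) - (f (z j 0) + G (z j 0)))) =
      Lm (fun j => f (z j (t j)) + G' (z j (t j)) +
        (l j : ℂ) * (f (z j 1) + G' (z j 1) - (f (z j 0) + G' (z j 0)))) -
      Lm (fun j => (G' (z j (t j)) - G (z j (t j)) - c) +
        (l j : ℂ) * ((G' (z j 1) - G (z j 1) - c) - (G' (z j 0) - G (z j 0) - c))) -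
      Lm (fun _ => c) := by
    rw [← Lm_sub, ← Lm_sub]; congr 1; funext j; ring
  have e2 : ‖Lm (fun j => (G' (z j (t j)) - G (z j (t j)) - c) +
        (l j : ℂ) * ((G' (z j 1) - G (z j 1) - c) - (G' (z j 0) - G (z j 0) - c)))‖ ≤
      4 * (η + N * (2 * η)) := by
    refine Lm_norm fun j => (norm_add_le _ _).trans (add_le_add
      (hc _ ⟨j, t j, ⟨ht.1 j, ht.2 j⟩, rfl⟩) ?_)
    rw [norm_mul]
    refine mul_le_mul ?_ ?_ (norm_nonneg _) hN
    · rw [Complex.norm_intCast]; exact_mod_cast hl j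
    · have a1 := hc _ ⟨j, 1, h11, rfl⟩
      have a2 := hc _ ⟨j, 0, h01, rfl⟩
      exact (norm_sub_le _ _).trans (by linarith)
  have e3 : Φ t0 ≤ Φ t := hmin ht
  have e4 : Φ t ≤ 4 * (η + N * (2 * η)) := by
    simp only [Φ]
    rw [e1, h0, Lm_const, sub_zero, zero_sub, norm_neg]
    exact e2
  have e5 : 4 * (η + N * (2 * η)) = Φ t0 / 2 := by rw [hη]; field_simp; ring
  linarith

end Pool.Agent.Lib.MP_5a3ebe_gt.Gen
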