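import Pool.Agent.Lib.MP_5a3ebe_gt.W48GenD
import Pool.Agent.Lib.MP_5a3ebe_gt.ApWin
import Pool.Agent.Lib.MP_5a3ebe_gt.ApPoly
import Pool.Agent.Lib.MP_5a3ebe_gt.ApFinal

/-!
Exact inscribed squares for an open dense set of Lipschitz deformations of a Jordan curve.
-/

set_option linter.unusedVariables false

namespace Pool.Agent.Lib.MP_5a3ebe_gt.Gen

open Set Complex

open Pool.Agent.Lib.MP_5a3ebe_gt.Ap in
theorem approx (γ : Circle → ℂ) (hc : Continuous γ) (hi : Function.Injective γ) (ε : ℝ)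
    (hε : 0 < ε) :
    ∃ p1 ∈ Set.range γ, ∃ p2 ∈ Set.range γ, ∃ p3 ∈ Set.range γ, ∃ p4 ∈ Set.range γ, ∃ w : ℂ,
      w ≠ 0 ∧ ‖p2 - p1 - w‖ ≤ ε * ‖w‖ ∧ ‖p3 - p1 - w - Complex.I * w‖ ≤ ε * ‖w‖ ∧
        ‖p4 - p1 - Complex.I * w‖ ≤ ε * ‖w‖ :=
  final_of_core Ap.core (fun _ _ D G C Δ => D.exists_lev G C Δ)
    (fun _ _ z h X => poly_good z h X) γ hc hi ε hε

lemma short_arc (γ : Circle → ℂ) (hc : Continuous γ) (s : Circle) {ρ : ℝ} (hρ : 0 < ρ) :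
    ∃ a : ℝ → Circle, Continuous a ∧ a 0 = s ∧ a 1 ≠ a 0 ∧
      ∀ t ∈ Icc (0 : ℝ) 1, ‖γ (a t) - γ (a 0)‖ ≤ ρ := by
  have h1 : Continuous fun u : ℝ => γ (s * Circle.exp u) :=
    hc.comp (continuous_const.mul Circle.exp.continuous)
  obtain ⟨η, hη, hb⟩ := Metric.continuous_iff.1 h1 0 ρ hρ
  set u : ℝ := min (η / 2) 1 with hu
  have hu0 : 0 < u := lt_min (by linarith) one_pos
  have hu1 : u ≤ 1 := min_le_right _ _
  have hu2 : u ≤ η / 2 := min_le_left _ _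
  refine ⟨fun t => s * Circle.exp (u * t),
    continuous_const.mul (Circle.exp.continuous.comp (by fun_prop)), by simp, ?_, ?_⟩
  · intro h
    have h2 : Circle.exp (u * 1) = Circle.exp (u * 0) := mul_left_cancel h
    have hpi := Real.pi_gt_three
    have := Circle.exp_injOn_Icc (a := 0) (b := 1) (by linarith)
      (show u * 1 ∈ Icc (0 : ℝ) 1 from ⟨by linarith, by linarith⟩)
      (show u * 0 ∈ Icc (0 : ℝ) 1 from ⟨by linarith, by linarith⟩) h2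
    linarith
  · intro t ht
    have h3 : dist (u * t) 0 < η := by
      rw [Real.dist_eq, sub_zero, abs_of_nonneg (mul_nonneg hu0.le ht.1)]
      have := mul_le_mul_of_nonneg_left ht.2 hu0.le
      linarith
    have := (hb _ h3).le
    rw [dist_eq_norm] at this
    simpa using this

theorem generic (γ : Circle → ℂ) (hc : Continuous γ) (f : ℂ → ℂ) (K : ℝ) (hK : 0 ≤ K)
    (hf : Lip K f) (hi : Function.Injective fun s => f (γ s)) (ε : ℝ) (hε : 0 < ε) :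
    ∃ g : ℂ → ℂ, ContDiff ℝ (⊤ : ℕ∞) g ∧ g 0 = 0 ∧ Lip ε g ∧ ∃ δ : ℝ, 0 < δ ∧ ∀ h, Lip δ h →
      ∃ z w : ℂ, w ≠ 0 ∧ z ∈ range (fun s => f (γ s) + g (γ s) + h (γ s)) ∧
        z + w ∈ range (fun s => f (γ s) + g (γ s) + h (γ s)) ∧
        z + w + I * w ∈ range (fun s => f (γ s) + g (γ s) + h (γ s)) ∧
        z + I * w ∈ range (fun s => f (γ s) + g (γ s) + h (γ s)) := by
  obtain ⟨Kb, hKb0, hKb⟩ := exists_bump_const
  set e : ℝ := min (1 / 16) (ε / (2000 * (Kb + 1) * (K + 1))) with he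
  have he0 : 0 < e := lt_min (by norm_num) (by positivity)
  have he1 : e ≤ 1 / 16 := min_le_left _ _
  have he2 : 2000 * (Kb + 1) * (K + 1) * e ≤ ε := by
    have : e ≤ ε / (2000 * (Kb + 1) * (K + 1)) := min_le_right _ _
    rw [le_div_iff₀ (by positivity)] at this
    linarith
  obtain ⟨_, ⟨s0, rfl⟩, _, ⟨s1, rfl⟩, _, ⟨s2, rfl⟩, _, ⟨s3, rfl⟩, w, hw, h1, h2, h3⟩ :=
    approx _ ((hf.continuous hK).comp hc) hi e he0
  have hρ : 0 < e * ‖w‖ / (K + 1) := by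
    have := norm_pos_iff.2 hw
    positivity
  choose a ha0 ha1 ha2 ha3 using fun s => short_arc γ hc s hρ
  let s : Fin 4 → Circle := ![s0, s1, s2, s3]
  obtain ⟨g, hg, hgl, δ, hδ, H⟩ := core (fun j t => γ (a (s j) t))
    (fun j => hc.comp (ha0 _)) f K hK hf Kb hKb0 hKb w hw e ε he0 he1 he2
    (by simp only [ha1]; exact h1) (by simp only [ha1]; exact h2) (by simp only [ha1]; exact h3)
    (fun j => ha3 _) (fun j h => ha2 _ (hi h))
  refine ⟨fun x => g x - g 0, hg.sub contDiff_const, by simp, fun x y => ?_, δ, hδ,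
    fun h hh => ?_⟩
  · rw [show g x - g 0 - (g y - g 0) = g x - g y by ring]; exact hgl x y
  obtain ⟨t, h0, hne⟩ := H h hh
  rw [Lm, Prod.mk_eq_zero] at h0
  obtain ⟨e1, e2⟩ := h0
  refine ⟨f (γ (a (s 0) (t 0))) + g (γ (a (s 0) (t 0))) + h (γ (a (s 0) (t 0))) - g 0,
    f (γ (a (s 1) (t 1))) + g (γ (a (s 1) (t 1))) + h (γ (a (s 1) (t 1))) -
      (f (γ (a (s 0) (t 0))) + g (γ (a (s 0) (t 0))) + h (γ (a (s 0) (t 0)))),
    sub_ne_zero.2 hne, ⟨a (s 0) (t 0), by ring⟩, ⟨a (s 1) (t 1), by ring⟩,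
    ⟨a (s 2) (t 2), ?_⟩, ⟨a (s 3) (t 3), ?_⟩⟩
  · linear_combination e1 + e2
  · linear_combination e2

end Pool.Agent.Lib.MP_5a3ebe_gt.Gen
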